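import Pool.Agent.Work.MP_209cb6_gt.Defs

/-!
# Near-affinity of a 1-Lipschitz function with slope one in a fixed direction (module M11)
-/

set_option autoImplicit false

open MeasureTheory MeasureTheory.Measure Metric Set Filter Topology
open scoped ENNReal NNReal InnerProductSpace

namespace Pool.Agent.BDRY

noncomputable section

section aff

variable {V : Type*} [NormedAddCommGroup V] [InnerProductSpace ℝ V]

theorem lip1 {V : Type*} [PseudoMetricSpace V] {b : V → ℝ} (hb : LipschitzWith 1 b) (x y : V) :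
    b x - b y ≤ dist x y := by
  have h := hb.dist_le_mul x y
  rw [Real.dist_eq, NNReal.coe_one, one_mul] at h
  exact (le_abs_self _).trans h

theorem slope_one [MeasurableSpace V] [BorelSpace V] (γ : Measure V) [IsProbabilityMeasure γ]
    {b : V → ℝ} (hb : LipschitzWith 1 b) {e : V} (he : ‖e‖ = 1) {ρ σ δ κ Λ : ℝ} (hρ : 0 ≤ ρ)
    (hδ : 0 < δ)
    (hint : ρ - σ ≤ ∫ x, (b x - b (x - ρ • e)) ∂γ)
    (hκ : ∀ x : V, ‖x‖ ≤ Λ → κ ≤ γ.real (ball x (δ / 4)))
    (hs : 2 * σ < κ * δ) (x : V) (hx : ‖x‖ ≤ Λ) : ρ - δ ≤ b x - b (x - ρ • e) := by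
  by_contra hcon
  push Not at hcon
  set u : V → ℝ := fun x => ρ - (b x - b (x - ρ • e)) with hu
  have hd : ∀ z : V, dist z (z - ρ • e) = ρ := by
    intro z
    rw [dist_eq_norm, sub_sub_cancel, norm_smul, he, mul_one, Real.norm_eq_abs, abs_of_nonneg hρ]
  have hu0 : ∀ z, 0 ≤ u z := by
    intro z
    have := lip1 hb z (z - ρ • e)
    rw [hd] at this
    simp only [hu]; linarith
  have huc : Continuous u := by
    have := hb.continuous
    fun_prop
  have hub : ∀ z, u z ≤ 2 * ρ := by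
    intro z
    have := lip1 hb (z - ρ • e) z
    rw [dist_comm, hd] at this
    simp only [hu]; linarith
  have hui : Integrable u γ := by
    refine Integrable.of_bound huc.aestronglyMeasurable (2 * ρ) (Eventually.of_forall ?_)
    intro z
    rw [Real.norm_eq_abs, abs_of_nonneg (hu0 z)]
    exact hub z
  have hbi : Integrable (fun x => b x - b (x - ρ • e)) γ := by
    have : (fun x => b x - b (x - ρ • e)) = fun x => ρ - u x := by
      funext z; simp [hu]
    rw [this]
    exact (integrable_const ρ).sub hui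
  have hI : ∫ z, u z ∂γ ≤ σ := by
    have : ∫ z, u z ∂γ = ρ - ∫ x, (b x - b (x - ρ • e)) ∂γ := by
      simp only [hu]
      rw [integral_sub (integrable_const ρ) hbi]
      simp
    rw [this]; linarith
  have hball : ∀ z ∈ ball x (δ / 4), δ / 2 ≤ u z := by
    intro z hz
    have hz' : dist z x < δ / 4 := hz
    have h1 := lip1 hb z x
    have h2 := lip1 hb (x - ρ • e) (z - ρ • e)
    have h3 : dist (x - ρ • e) (z - ρ • e) = dist z x := by
      rw [dist_sub_right, dist_comm]
    rw [h3] at h2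
    simp only [hu]
    linarith
  have hI2 : (δ / 2) * γ.real (ball x (δ / 4)) ≤ ∫ z, u z ∂γ := by
    calc (δ / 2) * γ.real (ball x (δ / 4)) = ∫ z in ball x (δ / 4), (δ / 2) ∂γ := by
          rw [setIntegral_const, smul_eq_mul, mul_comm]
      _ ≤ ∫ z in ball x (δ / 4), u z ∂γ := by
          refine setIntegral_mono_on (integrable_const _) hui.integrableOn measurableSet_ball hball
      _ ≤ ∫ z, u z ∂γ := setIntegral_le_integral hui (Eventually.of_forall hu0)
  have h5 := hκ x hx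
  nlinarith

theorem near_affine {b : V → ℝ} (hb : LipschitzWith 1 b) {e : V} (he : ‖e‖ = 1) {ρ δ Λ : ℝ}
    (hρ : 0 < ρ) (hδ : 0 ≤ δ) (hΛ : 2 * ρ ≤ Λ)
    (hs : ∀ x : V, ‖x‖ ≤ Λ → ρ - δ ≤ b x - b (x - ρ • e)) (M : ℕ) (hM : 1 ≤ M) (x : V)
    (hx : ‖x‖ ≤ ρ / 2) : |b x - b 0 - ⟪e, x⟫_ℝ| ≤ ρ / (16 * M) + (2 * M + 1) * δ := by
  -- one orthogonal step
  have hstep : ∀ (x w : V), ‖x‖ ≤ ρ → ‖x + w‖ ≤ ρ → ⟪e, w⟫_ℝ = 0 →
      b x - b (x + w) ≤ ‖w‖ ^ 2 / (4 * ρ) + 2 * δ := by
    intro x w hx hxw how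
    have h1 := hs (x + ρ • e) (by
      refine (norm_add_le _ _).trans ?_
      rw [norm_smul, he, mul_one, Real.norm_eq_abs, abs_of_pos hρ]; linarith)
    rw [add_sub_cancel_right] at h1
    have h2 := hs (x + w) (by linarith)
    have h3 := lip1 hb (x + ρ • e) (x + w - ρ • e)
    have h4 : dist (x + ρ • e) (x + w - ρ • e) ≤ 2 * ρ + ‖w‖ ^ 2 / (4 * ρ) := by
      rw [dist_eq_norm]
      have h5 : x + ρ • e - (x + w - ρ • e) = (2 * ρ) • e - w := by
        rw [mul_smul, two_smul]; abel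
      rw [h5]
      have h6 : ‖(2 * ρ) • e - w‖ ^ 2 = 4 * ρ ^ 2 + ‖w‖ ^ 2 := by
        rw [norm_sub_sq_real, norm_smul, he, real_inner_smul_left, how, Real.norm_eq_abs,
          abs_of_pos (by linarith : (0 : ℝ) < 2 * ρ)]
        ring
      have h7 : ‖(2 * ρ) • e - w‖ ^ 2 ≤ (2 * ρ + ‖w‖ ^ 2 / (4 * ρ)) ^ 2 := by
        rw [h6]
        have : (2 * ρ + ‖w‖ ^ 2 / (4 * ρ)) ^ 2
            = 4 * ρ ^ 2 + ‖w‖ ^ 2 + (‖w‖ ^ 2 / (4 * ρ)) ^ 2 := by
          field_simp; ring
        rw [this]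
        nlinarith [sq_nonneg (‖w‖ ^ 2 / (4 * ρ))]
      exact le_of_sq_le_sq h7 (by positivity)
    linarith
  -- M orthogonal steps
  have horth : ∀ v : V, ‖v‖ ≤ ρ / 2 → ⟪e, v⟫_ℝ = 0 →
      |b v - b 0| ≤ ρ / (16 * M) + 2 * M * δ := by
    intro v hv hov
    have hMpos : (0 : ℝ) < M := by exact_mod_cast hM
    have hk : ∀ k : ℕ, k ≤ M →
        |b (((k : ℝ) / M) • v) - b 0| ≤ k * (‖((1 : ℝ) / M) • v‖ ^ 2 / (4 * ρ) + 2 * δ) := by
      intro k
      induction k with
      | zero => intro _; simp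
      | succ k ih =>
        intro hkM
        have ih' := ih (by omega)
        have hn : ∀ j : ℕ, j ≤ M → ‖((j : ℝ) / M) • v‖ ≤ ρ := by
          intro j hj
          rw [norm_smul, Real.norm_eq_abs, abs_of_nonneg (by positivity)]
          have : (j : ℝ) / M ≤ 1 := by
            rw [div_le_one hMpos]; exact_mod_cast hj
          have := mul_le_mul_of_nonneg_right this (norm_nonneg v)
          linarith
        have e1 : (((k + 1 : ℕ) : ℝ) / M) • v = ((k : ℝ) / M) • v + ((1 : ℝ) / M) • v := by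
          rw [← add_smul]; congr 1; push_cast; ring
        have e2 : ((k : ℝ) / M) • v = (((k + 1 : ℕ) : ℝ) / M) • v + -(((1 : ℝ) / M) • v) := by
          rw [e1]; abel
        have s1 := hstep (((k : ℝ) / M) • v) (((1 : ℝ) / M) • v) (hn k (by omega))
          (by rw [← e1]; exact hn (k + 1) hkM) (by rw [real_inner_smul_right, hov, mul_zero])
        have s2 := hstep ((((k + 1 : ℕ) : ℝ) / M) • v) (-(((1 : ℝ) / M) • v)) (hn (k + 1) hkM)
          (by rw [← e2]; exact hn k (by omega))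
          (by rw [inner_neg_right, real_inner_smul_right, hov, mul_zero, neg_zero])
        rw [← e1] at s1
        rw [← e2, norm_neg] at s2
        rw [abs_le] at ih' ⊢
        push_cast at ih' ⊢
        push_cast at s1 s2
        constructor <;> linarith [ih'.1, ih'.2]
    have h := hk M le_rfl
    have e3 : ‖((1 : ℝ) / M) • v‖ = 1 / M * ‖v‖ := by
      rw [norm_smul, Real.norm_eq_abs, abs_of_nonneg (by positivity : (0 : ℝ) ≤ 1 / M)]
    rw [div_self hMpos.ne', one_smul, e3] at h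
    refine h.trans ?_
    have : (M : ℝ) * ((1 / M * ‖v‖) ^ 2 / (4 * ρ) + 2 * δ)
        = ‖v‖ ^ 2 / (4 * ρ * M) + 2 * M * δ := by
      field_simp
    rw [this]
    have h8 : ‖v‖ ^ 2 / (4 * ρ * M) ≤ ρ / (16 * M) := by
      rw [div_le_div_iff₀ (by positivity) (by positivity)]
      have : ‖v‖ ^ 2 ≤ (ρ / 2) ^ 2 := by
        exact pow_le_pow_left₀ (norm_nonneg _) hv 2
      have hM0 := hMpos.le
      nlinarith [mul_le_mul_of_nonneg_right this (by positivity : (0 : ℝ) ≤ 16 * M)]
    linarith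
  -- the direction e
  have hdir : ∀ (v : V) (s : ℝ), ‖v‖ ≤ ρ / 2 → 0 ≤ s → s ≤ ρ / 2 →
      |b (v + s • e) - b v - s| ≤ δ := by
    intro v s hv hs0 hs1
    have h1 := lip1 hb (v + s • e) v
    have h2 : dist (v + s • e) v = s := by
      rw [dist_eq_norm, add_sub_cancel_left, norm_smul, he, mul_one, Real.norm_eq_abs,
        abs_of_nonneg hs0]
    have h3 := hs (v + ρ • e) (by
      refine (norm_add_le _ _).trans ?_
      rw [norm_smul, he, mul_one, Real.norm_eq_abs, abs_of_pos hρ]; linarith)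
    rw [add_sub_cancel_right] at h3
    have h4 := lip1 hb (v + ρ • e) (v + s • e)
    have h5 : dist (v + ρ • e) (v + s • e) = ρ - s := by
      rw [dist_eq_norm, add_sub_add_left_eq_sub, ← sub_smul, norm_smul, he, mul_one,
        Real.norm_eq_abs, abs_of_nonneg (by linarith)]
    rw [abs_le]
    constructor <;> linarith
  have hdir' : ∀ (v : V) (s : ℝ), ‖v‖ ≤ ρ / 2 → 0 ≤ s → s ≤ ρ / 2 →
      |b v - b (v - s • e) - s| ≤ δ := by
    intro v s hv hs0 hs1
    have h1 := lip1 hb v (v - s • e)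
    have h2 : dist v (v - s • e) = s := by
      rw [dist_eq_norm, sub_sub_cancel, norm_smul, he, mul_one, Real.norm_eq_abs,
        abs_of_nonneg hs0]
    have h3 := hs v (by linarith)
    have h4 := lip1 hb (v - s • e) (v - ρ • e)
    have h5 : dist (v - s • e) (v - ρ • e) = ρ - s := by
      rw [dist_eq_norm, sub_sub_sub_cancel_left, ← sub_smul, norm_smul, he, mul_one,
        Real.norm_eq_abs, abs_of_nonneg (by linarith)]
    rw [abs_le]
    constructor <;> linarith
  -- decomposition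
  set s : ℝ := ⟪e, x⟫_ℝ with hsdef
  set v : V := x - s • e with hv
  have hov : ⟪e, v⟫_ℝ = 0 := by
    rw [hv, inner_sub_right, real_inner_smul_right, real_inner_self_eq_norm_sq, he, ← hsdef]
    ring
  have hxs : x = v + s • e := by rw [hv]; abel
  have hnorm : ‖x‖ ^ 2 = ‖v‖ ^ 2 + s ^ 2 := by
    rw [hxs, norm_add_sq_real, real_inner_smul_right, real_inner_comm, hov, norm_smul, he,
      mul_one, Real.norm_eq_abs, sq_abs]
    ring
  have hvn : ‖v‖ ≤ ρ / 2 := by
    refine le_trans ?_ hx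
    exact le_of_sq_le_sq (by rw [hnorm]; nlinarith [sq_nonneg s]) (norm_nonneg _)
  have hsn : |s| ≤ ρ / 2 := by
    refine le_trans ?_ hx
    exact le_of_sq_le_sq (by rw [hnorm, sq_abs]; nlinarith [sq_nonneg ‖v‖]) (norm_nonneg _)
  have hA := horth v hvn hov
  have hB : |b x - b v - s| ≤ δ := by
    rcases le_total 0 s with h | h
    · rw [hxs]
      exact hdir v s hvn h ((le_abs_self s).trans hsn)
    · have h1 := hdir' v (-s) hvn (by linarith) ((neg_le_abs s).trans hsn)
      have h2 : v - (-s) • e = x := by rw [neg_smul, sub_neg_eq_add]; exact hxs.symm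
      rw [h2] at h1
      rw [abs_le] at h1 ⊢
      constructor <;> linarith [h1.1, h1.2]
  rw [abs_le] at hA hB ⊢
  constructor <;> nlinarith [hA.1, hA.2, hB.1, hB.2]

end aff

end

end Pool.Agent.BDRY
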