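import Pool.Agent.Work.MP_209cb6_gt.EviContr

/-!
# BDRY2: contraction for all radii and the global Bishop-Gromov inequality
-/

set_option autoImplicit false

open MeasureTheory MeasureTheory.Measure Metric Set Filter Topology
open scoped ENNReal NNReal

namespace Pool.Agent.BDRY

universe u

/-- discrete approximation of an intermediate measure -/
theorem exists_discR {X : Type u} [MetricSpace X] [MeasurableSpace X] [BorelSpace X] [ProperSpace X]
    {m : Measure X} (p : X) {R t : ℝ} (hR0 : 0 ≤ R) (ht0 : 0 ≤ t) (ht1 : t ≤ 1) {S A : Set X}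
    (hA : IsCompact A) (hAS : A ⊆ Zt p R t S) (h0 : m A ≠ 0) (h1 : m A ≠ ∞) {η : ℝ}
    (hη : 0 < η) (hS : MeasurableSet S) :
    ∃ ν : Measure X, IsDisc ν ∧ ν Sᶜ = 0 ∧
      W2 ν (dirac p) ≤ (1 - t) * W2 (mu1 m A) (dirac p) + η ∧
      W2 ν (mu1 m A) ≤ t * W2 (mu1 m A) (dirac p) + η := by
  have hAm : MeasurableSet A := hA.measurableSet
  have hprob : IsProbabilityMeasure (mu1 m A) := by
    refine ⟨?_⟩
    unfold mu1
    rw [Measure.smul_apply, Measure.restrict_apply_univ, smul_eq_mul, ENNReal.inv_mul_cancel h0 h1]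
  have hae : ∀ᵐ x ∂(mu1 m A), x ∈ A := by
    unfold mu1
    exact Measure.ae_smul_measure (ae_restrict_mem hAm) _
  have hne : A.Nonempty := by
    by_contra h
    rw [not_nonempty_iff_eq_empty] at h
    exact h0 (by rw [h]; simp)
  have hR : ∀ x ∈ A, dist x p ≤ R := fun x hx => (hAS hx).1
  -- the accuracy
  obtain ⟨δ, hδ, hδ1, hδη⟩ : ∃ δ : ℝ, 0 < δ ∧ δ ≤ 1 ∧ (4 * R + 4) * δ ≤ η ^ 2 := by
    refine ⟨min 1 (η ^ 2 / (4 * R + 4)), by positivity, min_le_left _ _, ?_⟩
    have := min_le_right 1 (η ^ 2 / (4 * R + 4))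
    rwa [le_div_iff₀ (by positivity), mul_comm] at this
  obtain ⟨ind, a, z, haA, hz, hind⟩ := disc_simple_select hA hne
    (fun a z => z ∈ S ∧ z ∈ Mid t a p) (fun a ha => (hAS ha).2) hδ
  set f : SimpleFunc X X := ind.map z with hf
  have hfx : ∀ x, f x = z (ind x) := fun x => rfl
  refine ⟨(mu1 m A).map f, ⟨?_, ?_⟩, ?_, ?_, ?_⟩
  · exact Measure.isProbabilityMeasure_map f.measurable.aemeasurable
  · exact ⟨f.range, fun y => (mu1 m A) (f ⁻¹' {y}), disc_map_simple _ f⟩
  · rw [Measure.map_apply f.measurable hS.compl]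
    have : f ⁻¹' Sᶜ = ∅ := by
      ext x
      simp only [mem_preimage, mem_compl_iff, mem_empty_iff_false, iff_false, not_not, hfx]
      exact (hz _).1
    rw [this, measure_empty]
  · have hd : (dirac p : Measure X) = (mu1 m A).map (fun _ => p) := by
      rw [Measure.map_const, measure_univ, one_smul]
    have h5 : W2 ((mu1 m A).map f) ((mu1 m A).map (fun _ => p)) ≤
        (1 - t) * W2 (mu1 m A) (dirac p) + η := by
      apply disc_W2_le_aux hae p hR f.measurable measurable_const (by linarith) hη.le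
      intro x hx
      have e1 := (hz (ind x)).2.2
      have e2 := hind x hx
      have e3 := hR x hx
      have e4 : dist (a (ind x)) p ≤ dist x p + δ := by
        have := dist_triangle_left (a (ind x)) p x
        linarith
      have e5 : dist (f x) p ≤ (1 - t) * dist x p + δ := by
        rw [hfx, e1]
        have : (1 - t) * dist (a (ind x)) p ≤ (1 - t) * (dist x p + δ) :=
          mul_le_mul_of_nonneg_left e4 (by linarith)
        nlinarith
      have e6 : dist (f x) p ^ 2 ≤ ((1 - t) * dist x p + δ) ^ 2 :=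
        pow_le_pow_left₀ dist_nonneg e5 2
      have e7 : 0 ≤ dist x p := dist_nonneg
      have e8 : (1 - t) * dist x p ≤ R := by nlinarith
      have e9 : (1 - t) * dist x p * δ ≤ R * δ := mul_le_mul_of_nonneg_right e8 hδ.le
      nlinarith
    rwa [← hd] at h5
  · have h5 : W2 ((mu1 m A).map f) ((mu1 m A).map id) ≤
        t * W2 (mu1 m A) (dirac p) + η := by
      apply disc_W2_le_aux hae p hR f.measurable measurable_id ht0 hη.le
      intro x hx
      have e1 := (hz (ind x)).2.1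
      have e2 := hind x hx
      have e3 := hR x hx
      have e4 : dist (a (ind x)) p ≤ dist x p + δ := by
        have := dist_triangle_left (a (ind x)) p x
        linarith
      have e5 : dist (f x) (id x) ≤ t * dist x p + 2 * δ := by
        have e51 := dist_triangle (f x) (a (ind x)) x
        rw [dist_comm (f x) (a (ind x)), dist_comm (a (ind x)) x] at e51
        have e52 : dist (a (ind x)) (f x) = t * dist (a (ind x)) p := by rw [hfx]; exact e1
        have : t * dist (a (ind x)) p ≤ t * (dist x p + δ) :=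
          mul_le_mul_of_nonneg_left e4 ht0
        simp only [id]
        nlinarith
      have e6 : dist (f x) (id x) ^ 2 ≤ (t * dist x p + 2 * δ) ^ 2 :=
        pow_le_pow_left₀ dist_nonneg e5 2
      have e7 : 0 ≤ dist x p := dist_nonneg
      have e8 : t * dist x p ≤ R := by nlinarith
      have e9 : t * dist x p * δ ≤ R * δ := mul_le_mul_of_nonneg_right e8 hδ.le
      nlinarith
    rwa [Measure.map_id] at h5

/-- the main step, for a fixed error `η` of the measure of `S` -/
theorem ec_mainR {K : ℝ} (hK : K ≤ 0) {n : ℕ} {X : Type u} [MetricSpace X] [MeasurableSpace X]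
    [BorelSpace X] [ProperSpace X] {m : Measure X} (hX : IsRCD K (n + 1) X m) (p : X) {R : ℝ}
    (hR : 0 < R) (t : ℝ)
    (ht : 0 < t) (ht1 : t < 1) (S : Set X) (hS : IsCompact S) (hA0 : m (Zt p R t S) ≠ 0)
    (hA1 : m (Zt p R t S) ≠ ∞) {D : ℝ} (hD : D = W2 (mu1 m (Zt p R t S)) (dirac p)) (hD0 : 0 < D)
    {η : ℝ} (hη : 0 < η) :
    sK (K / (n + 1 : ℕ)) ((1 - t) * D) ^ (n + 1) * m.real (Zt p R t S) ≤
      sK (K / (n + 1 : ℕ)) D ^ (n + 1) * (m.real S + η) := by
  set A := Zt p R t S with hA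
  have hAc : IsCompact A := ec_zt_compact p R t hS
  have hAm : MeasurableSet A := hAc.measurableSet
  have hN : 0 < n + 1 := Nat.succ_pos n
  have hfin := hX.finite_ball
  have hpos := hX.pos_ball
  have hν1 : IsP2 (mu1 m A) := isP2_mu1 hAm hA0 hA1 hAc.isBounded
  have : SigmaFinite m := by
    have : IsLocallyFiniteMeasure m := ⟨fun x => ⟨closedBall x 1, closedBall_mem_nhds x one_pos,
      hfin x 1⟩⟩
    infer_instance
  have hu : UN (n + 1) m (mu1 m A) ^ (n + 1) = m.real A := UN_unif_pow hN hAm hA0 hA1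
  have hAr : 0 < m.real A := ENNReal.toReal_pos hA0 hA1
  have hUnn : ∀ μ : Measure X, 0 ≤ UN (n + 1) m μ := by
    intro μ
    unfold UN
    split_ifs
    · exact (Real.exp_pos _).le
    · exact le_rfl
  have hu0 : 0 < UN (n + 1) m (mu1 m A) := by
    rcases (hUnn (mu1 m A)).lt_or_eq with h | h
    · exact h
    · rw [← h] at hu
      simp at hu
      linarith
  -- the radius of concentration, the time
  obtain ⟨e, he, hconc⟩ := UN_pow_le hfin hX.exp_int hS hN hη
  set β := m.real S + η with hβ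
  have hβ0 : 0 < β := add_pos_of_nonneg_of_pos measureReal_nonneg hη
  obtain ⟨B, hB0, hBβ⟩ : ∃ B : ℝ, 0 < B ∧ B ^ (n + 1) = β := by
    refine ⟨β ^ ((1 : ℝ) / ((n + 1 : ℕ) : ℝ)), Real.rpow_pos_of_pos hβ0 _, ?_⟩
    rw [one_div, Real.rpow_inv_natCast_pow hβ0.le (by omega)]
  obtain ⟨τ, hτ, hτe⟩ : ∃ τ : ℝ, 0 < τ ∧ ∀ v, 0 < v → v ≤ τ →
      2 * ((n + 1 : ℕ) : ℝ) * v * Real.exp (-K * v) ≤ e ^ 2 := by
    have hc : Continuous fun v : ℝ => 2 * ((n + 1 : ℕ) : ℝ) * v * Real.exp (-K * v) := by fun_prop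
    have h0 : Tendsto (fun v : ℝ => 2 * ((n + 1 : ℕ) : ℝ) * v * Real.exp (-K * v)) (𝓝 0) (𝓝 0) := by
      have := hc.tendsto 0
      simpa using this
    have h1 : ∀ᶠ v in 𝓝 (0 : ℝ), 2 * ((n + 1 : ℕ) : ℝ) * v * Real.exp (-K * v) < e ^ 2 :=
      h0.eventually (gt_mem_nhds (by positivity))
    obtain ⟨δ, hδ, hδ1⟩ := Metric.eventually_nhds_iff.1 h1
    refine ⟨δ / 2, by positivity, fun v hv hv1 => (hδ1 ?_).le⟩
    rw [Real.dist_eq, sub_zero, abs_of_pos hv]
    linarith
  set x := (1 - t) * D with hx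
  set y := t * D with hy
  have hx0 : 0 < x := mul_pos (by linarith) hD0
  have hy0 : 0 < y := mul_pos ht hD0
  have hxy : x + y = D := by rw [hx, hy]; ring
  set κ := K / ((n + 1 : ℕ) : ℝ) with hκ
  have hκ0 : κ ≤ 0 := div_nonpos_of_nonpos_of_nonneg hK (Nat.cast_nonneg _)
  -- for every error of the discrete approximation
  have hstep : ∀ ε : ℝ, 0 < ε → sK κ x * UN (n + 1) m (mu1 m A) ≤
      (sK κ (x + y) + 2 / (((n + 1 : ℕ) : ℝ) * τ) * Real.exp (-K * τ) *
      (sK κ y * (sK κ ((x + ε) / 2) ^ 2 - sK κ (x / 2) ^ 2) +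
       sK κ x * (sK κ ((y + ε) / 2) ^ 2 - sK κ (y / 2) ^ 2))) * B := by
    intro ε hε
    obtain ⟨ν, hνd, hνS, hν1', hν2'⟩ := exists_discR p hR.le ht.le ht1.le hAc (le_refl _) hA0 hA1 hε
      hS.measurableSet
    have hνP := hνd.isP2
    obtain ⟨μ, hμ0, hμ⟩ := hX.flow ν hνP
    have h0 : IsDisc (μ 0) := by rw [hμ0]; exact hνd
    have hB : ∀ v, 0 < v → v ≤ τ → UN (n + 1) m (μ v) ≤ B := by
      intro v hv hvτ
      have h1 := hμ.W2_le hK hN hfin hpos h0 hv
      have h2 : W2 (μ v) ν ≤ e := by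
        rw [hμ0] at h1
        have h3 : W2 (μ v) ν ^ 2 ≤ e ^ 2 := h1.trans (hτe v hv hvτ)
        exact le_of_sq_le_sq h3 he.le
      have h4 := hconc (μ v) ν (hμ.p2 v hv.le) hνP hνS h2
      rw [← hBβ] at h4
      exact le_of_pow_le_pow_left₀ (by omega) hB0.le h4
    have hEa := hμ.evi_disc hK hN hfin hpos (isDisc_dirac p) hτ
    have hEb := hμ.evi_bound hK hν1 hu0 hτ hB
    refine evi_end hK hN hx0 hy0 hε.le hτ hB0 ?_ ?_ ?_ ?_ ?_ hEa hEb
    · have h5 := W2_triangle hν1 (hμ.p2 τ hτ.le) (isDisc_dirac p).isP2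
      rw [W2_comm (mu1 m A) (μ τ), ← hD] at h5
      rw [hxy]
      linarith
    · exact Real.sqrt_nonneg _
    · exact Real.sqrt_nonneg _
    · rw [hμ0, hx, hD]
      exact hν1'
    · rw [hμ0, hy, hD]
      exact hν2'
  -- the limit `ε → 0`
  have hlim : sK κ x * UN (n + 1) m (mu1 m A) ≤ sK κ D * B := by
    have hcs := sK_cont hκ0
    have hc : Continuous fun ε : ℝ => (sK κ (x + y) + 2 / (((n + 1 : ℕ) : ℝ) * τ) *
        Real.exp (-K * τ) * (sK κ y * (sK κ ((x + ε) / 2) ^ 2 - sK κ (x / 2) ^ 2) +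
       sK κ x * (sK κ ((y + ε) / 2) ^ 2 - sK κ (y / 2) ^ 2))) * B := by
      have h1 : Continuous fun ε : ℝ => sK κ ((x + ε) / 2) := hcs.comp (by fun_prop)
      have h2 : Continuous fun ε : ℝ => sK κ ((y + ε) / 2) := hcs.comp (by fun_prop)
      fun_prop
    have h1 := (hc.tendsto 0).mono_left (nhdsWithin_le_nhds (s := Ioi (0 : ℝ)))
    have h2 := ge_of_tendsto h1 (by
      filter_upwards [self_mem_nhdsWithin] with ε hε
      exact hstep ε hε)
    simpa [hxy] using h2
  -- powers
  have h1 : (sK κ x * UN (n + 1) m (mu1 m A)) ^ (n + 1) ≤ (sK κ D * B) ^ (n + 1) :=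
    pow_le_pow_left₀ (mul_nonneg (ec_sK_nonneg hκ0 hx0.le) (hUnn _)) hlim _
  rwa [mul_pow, mul_pow, hu, hBβ] at h1

theorem contr_compactR {K : ℝ} (hK : K ≤ 0) {n : ℕ} {X : Type u} [MetricSpace X] [MeasurableSpace X]
    [BorelSpace X] {m : Measure X} (hX : IsRCD K (n + 1) X m) (p : X) {R : ℝ} (hR : 0 < R)
    (t : ℝ) (ht : 0 < t)
    (ht1 : t < 1) (S : Set X) (hS : IsCompact S) : ∃ D : ℝ, 0 < D ∧ D ≤ R ∧
    sK (K / (n + 1 : ℕ)) ((1 - t) * D) ^ (n + 1) * m.real (Zt p R t S) ≤
      sK (K / (n + 1 : ℕ)) D ^ (n + 1) * m.real S := by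
  have := hX.proper
  have hfin := hX.finite_ball
  have : IsLocallyFiniteMeasure m := ⟨fun x => ⟨closedBall x 1, closedBall_mem_nhds x one_pos,
    hfin x 1⟩⟩
  set A := Zt p R t S with hA
  have hAc : IsCompact A := ec_zt_compact p R t hS
  have hAm : MeasurableSet A := hAc.measurableSet
  have hA1 : m A ≠ ∞ := ((measure_mono (ec_zt_subset p R t S)).trans_lt (hfin p R)).ne
  have hκ0 : K / ((n + 1 : ℕ) : ℝ) ≤ 0 := div_nonpos_of_nonpos_of_nonneg hK (Nat.cast_nonneg _)
  by_cases hA0 : m A = 0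
  · refine ⟨R, hR, le_rfl, ?_⟩
    refine ec_trivial hκ0 ht ht1 hR measureReal_nonneg ?_
    rw [Measure.real, hA0]
    simp
  have hν1 : IsP2 (mu1 m A) := isP2_mu1 hAm hA0 hA1 hAc.isBounded
  set D := W2 (mu1 m A) (dirac p) with hD
  have hDnn : 0 ≤ D := Real.sqrt_nonneg _
  have hDsq : D ^ 2 = ∫ y, dist y p ^ 2 ∂(mu1 m A) := W2_dirac_sq hν1 p
  have hDint : D ^ 2 = (m.real A)⁻¹ * ∫ y in A, dist y p ^ 2 ∂m := by
    rw [hDsq]
    unfold mu1
    rw [integral_smul_measure]
    simp [Measure.real]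
  have hAr : 0 < m.real A := ENNReal.toReal_pos hA0 hA1
  have hfm : IsFiniteMeasure (m.restrict A) :=
    ⟨by rw [Measure.restrict_apply_univ]; exact hA1.lt_top⟩
  have hint : IntegrableOn (fun y => dist y p ^ 2) A m :=
    (by fun_prop : Continuous fun y => dist y p ^ 2).continuousOn.integrableOn_compact' hAc hAm
  rcases hDnn.lt_or_eq with hD0 | hD0
  · refine ⟨D, hD0, ?_, ?_⟩
    · have h1 : ∫ y in A, dist y p ^ 2 ∂m ≤ ∫ _y in A, (R ^ 2 : ℝ) ∂m := by
        refine setIntegral_mono_on hint (integrable_const _) hAm fun y hy => ?_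
        have : dist y p ≤ R := hy.1
        have h0 : 0 ≤ dist y p := dist_nonneg
        nlinarith
      rw [setIntegral_const, smul_eq_mul] at h1
      have h2 : D ^ 2 ≤ R ^ 2 := by
        rw [hDint, inv_mul_le_iff₀ hAr]
        linarith
      nlinarith
    · set s := sK (K / ((n + 1 : ℕ) : ℝ)) D ^ (n + 1) with hs
      have hs0 : 0 ≤ s := pow_nonneg (ec_sK_nonneg hκ0 hD0.le) _
      refine le_of_forall_pos_le_add fun δ hδ => ?_
      have h1 := ec_mainR hK hX p hR t ht ht1 S hS hA0 hA1 rfl hD0 (η := δ / (s + 1))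
        (by positivity)
      have h2 : s * (δ / (s + 1)) ≤ δ := by
        rw [mul_div_assoc', div_le_iff₀ (by positivity)]
        nlinarith
      calc _ ≤ s * (m.real S + δ / (s + 1)) := h1
        _ = s * m.real S + s * (δ / (s + 1)) := by ring
        _ ≤ s * m.real S + δ := by linarith
  · -- the measure is concentrated at `p`
    refine ⟨R, hR, le_rfl, ?_⟩
    refine ec_trivial hκ0 ht ht1 hR measureReal_nonneg ?_
    have h0 : ∫ y in A, dist y p ^ 2 ∂m = 0 := by
      have h1 := hDint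
      rw [← hD0] at h1
      have h2 : (m.real A)⁻¹ ≠ 0 := (inv_pos.2 hAr).ne'
      have h3 : (m.real A)⁻¹ * ∫ y in A, dist y p ^ 2 ∂m = 0 := by rw [← h1]; norm_num
      exact (mul_eq_zero.1 h3).resolve_left h2
    have h4 : (fun y => dist y p ^ 2) =ᵐ[m.restrict A] 0 :=
      (integral_eq_zero_iff_of_nonneg (fun y => by positivity) hint).1 h0
    have h5 : ∀ᵐ y ∂(m.restrict A), y = p := by
      filter_upwards [h4] with y hy
      have : dist y p ^ 2 = 0 := hy
      exact dist_eq_zero.1 (pow_eq_zero_iff (two_ne_zero) |>.1 this)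
    have h6 : m (A \ {p}) = 0 := by
      rw [ae_restrict_iff' hAm] at h5
      have : A \ {p} = {y | ¬ (y ∈ A → y = p)} := by
        ext y; simp
      rw [this]
      exact h5
    have hpA : p ∈ A := by
      by_contra hp
      have : A \ {p} = A := sdiff_singleton_eq_self hp
      rw [this] at h6
      exact hA0 h6
    have hpS : p ∈ S := by
      obtain ⟨-, z, hz, h7, -⟩ := hpA
      rw [dist_self, mul_zero] at h7
      rw [dist_eq_zero.1 h7]
      exact hz
    have h8 : m A ≤ m S := by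
      calc m A ≤ m ((A \ {p}) ∪ {p}) :=
            measure_mono (by intro y hy; by_cases h : y = p <;> simp [h, hy])
        _ ≤ m (A \ {p}) + m {p} := measure_union_le _ _
        _ = m {p} := by rw [h6, zero_add]
        _ ≤ m S := measure_mono (singleton_subset_iff.2 hpS)
    have hS1 : m S ≠ ∞ := hS.measure_lt_top.ne
    exact ENNReal.toReal_mono hS1 h8


/-! ### The constants -/

/-- the curvature scale `√(-K/N)` -/
noncomputable def qK (K : ℝ) (N : ℕ) : ℝ := √(-(K / N))

theorem qK_nonneg (K : ℝ) (N : ℕ) : 0 ≤ qK K N := Real.sqrt_nonneg _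

theorem sinh_add_le {a b : ℝ} (ha : 0 < a) (hb : 0 ≤ b) :
    Real.sinh (a + b) * a ≤ Real.exp b * (a + b) * Real.sinh a := by
  have h1 : a ≤ Real.sinh a := Real.self_le_sinh_iff.2 ha.le
  have h0 : 0 < Real.sinh a := lt_of_lt_of_le ha h1
  -- `a cosh a ≤ (1 + a) sinh a`
  have h2 : a * Real.cosh a ≤ (1 + a) * Real.sinh a := by
    have e1 : Real.cosh a = Real.sinh a + Real.exp (-a) := by
      rw [Real.cosh_eq, Real.sinh_eq]; ring
    have e2 : Real.exp (-a) ≤ 1 := Real.exp_le_one_iff.2 (by linarith)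
    rw [e1]
    nlinarith
  -- `sinh b ≤ b exp b`
  have h3 : Real.sinh b ≤ b * Real.exp b := by
    have e1 := sinh_sub_le (x := b) (y := 0) le_rfl hb
    rw [Real.sinh_zero, sub_zero, sub_zero] at e1
    have e2 : Real.cosh b ≤ Real.exp b := by
      rw [Real.cosh_eq]
      have : Real.exp (-b) ≤ Real.exp b := Real.exp_le_exp.2 (by linarith)
      linarith
    exact e1.trans (mul_le_mul_of_nonneg_left e2 hb)
  have h4 : 0 ≤ Real.sinh b := Real.sinh_nonneg_iff.2 hb
  rw [Real.sinh_add]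
  have e3 : Real.cosh b + Real.sinh b = Real.exp b := by
    rw [Real.cosh_eq, Real.sinh_eq]; ring
  calc (Real.sinh a * Real.cosh b + Real.cosh a * Real.sinh b) * a
      = a * Real.sinh a * Real.cosh b + (a * Real.cosh a) * Real.sinh b := by ring
    _ ≤ a * Real.sinh a * Real.cosh b + ((1 + a) * Real.sinh a) * Real.sinh b := by gcongr
    _ = Real.sinh a * (a * (Real.cosh b + Real.sinh b) + Real.sinh b) := by ring
    _ ≤ Real.sinh a * (a * Real.exp b + b * Real.exp b) := by
        rw [e3]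
        gcongr
    _ = Real.exp b * (a + b) * Real.sinh a := by ring

/-- `(1 - t) s(D) ≤ exp(q t D) s((1 - t) D)` -/
theorem sK_scale {K : ℝ} (hK : K ≤ 0) {N : ℕ} {D t : ℝ} (hD : 0 < D) (ht : 0 ≤ t) (ht1 : t < 1) :
    (1 - t) * sK (K / N) D ≤ Real.exp (qK K N * (t * D)) * sK (K / N) ((1 - t) * D) := by
  have hκ : K / N ≤ 0 := div_nonpos_of_nonpos_of_nonneg hK (Nat.cast_nonneg N)
  unfold sK qK
  split_ifs with h
  · have hq : 0 < √(-(K / N)) := Real.sqrt_pos.2 (by linarith)
    set q := √(-(K / N)) with hqdef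
    have ha : 0 < q * ((1 - t) * D) := mul_pos hq (mul_pos (by linarith) hD)
    have hb : 0 ≤ q * (t * D) := by positivity
    have h1 := sinh_add_le ha hb
    have e1 : q * ((1 - t) * D) + q * (t * D) = q * D := by ring
    rw [e1] at h1
    have h2 : (1 - t) * Real.sinh (q * D) ≤
        Real.exp (q * (t * D)) * Real.sinh (q * ((1 - t) * D)) := by
      have h3 : (q * D) * ((1 - t) * Real.sinh (q * D)) ≤
          (q * D) * (Real.exp (q * (t * D)) * Real.sinh (q * ((1 - t) * D))) := by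
        calc (q * D) * ((1 - t) * Real.sinh (q * D))
            = Real.sinh (q * D) * (q * ((1 - t) * D)) := by ring
          _ ≤ _ := h1
          _ = _ := by ring
      exact le_of_mul_le_mul_left h3 (by positivity)
    calc (1 - t) * (Real.sinh (q * D) / q) = ((1 - t) * Real.sinh (q * D)) / q := by ring
      _ ≤ (Real.exp (q * (t * D)) * Real.sinh (q * ((1 - t) * D))) / q := by gcongr
      _ = _ := by ring
  · have h0 : K / N = 0 := le_antisymm hκ (not_lt.1 h)
    rw [h0]
    simp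

section bg
variable {K : ℝ} {n : ℕ} {X : Type u} [MetricSpace X] [MeasurableSpace X] [BorelSpace X]
  {m : Measure X}

/-- contraction for all radii, compact sets -/
theorem contr_real (hK : K ≤ 0) (hX : IsRCD K (n + 1) X m) (p : X) {R : ℝ} (hR : 0 < R) {t : ℝ}
    (ht : 0 ≤ t) (ht1 : t < 1) {S : Set X} (hS : IsCompact S) :
    (1 - t) ^ (n + 1) * m.real (Zt p R t S) ≤
      Real.exp ((n + 1) * qK K (n + 1) * (t * R)) * m.real S := by
  have := hX.proper
  have hSfin : m S ≠ ∞ := by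
    rcases S.eq_empty_or_nonempty with h | ⟨x, -⟩
    · rw [h]; simp
    · obtain ⟨r, hr⟩ := hS.isBounded.subset_closedBall x
      exact ne_top_of_le_ne_top (hX.finite_ball x r).ne (measure_mono hr)
  rcases ht.eq_or_lt with h0 | h0
  · subst h0
    have h1 : m.real (Zt p R 0 S) ≤ m.real S := by
      refine ENNReal.toReal_mono hSfin (measure_mono ?_)
      rintro a ⟨-, z, hz, hz1, -⟩
      rw [zero_mul, dist_eq_zero] at hz1
      rw [hz1]
      exact hz
    simpa using h1
  · obtain ⟨D, hD, hDR, h1⟩ := contr_compactR hK hX p hR t h0 ht1 S hS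
    set s := sK (K / ((n + 1 : ℕ) : ℝ)) with hs
    have h2 := sK_scale hK (N := n + 1) hD ht ht1
    have h3 : 0 < s ((1 - t) * D) := sK_pos (mul_pos (by linarith) hD)
    have h4 : 0 < s D := sK_pos hD
    have h5 : ((1 - t) * s D) ^ (n + 1) ≤
        (Real.exp (qK K (n + 1) * (t * D)) * s ((1 - t) * D)) ^ (n + 1) :=
      pow_le_pow_left₀ (mul_nonneg (by linarith) h4.le) h2 _
    rw [mul_pow, mul_pow, ← Real.exp_nat_mul] at h5
    have h6 : Real.exp (((n + 1 : ℕ) : ℝ) * (qK K (n + 1) * (t * D))) ≤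
        Real.exp ((n + 1) * qK K (n + 1) * (t * R)) := by
      rw [Real.exp_le_exp]
      push_cast
      have := qK_nonneg K (n + 1)
      calc ((n : ℝ) + 1) * (qK K (n + 1) * (t * D)) ≤ ((n : ℝ) + 1) * (qK K (n + 1) * (t * R)) := by
            gcongr
        _ = _ := by ring
    have hm0 : 0 ≤ m.real S := measureReal_nonneg
    have h7 : s D ^ (n + 1) * ((1 - t) ^ (n + 1) * m.real (Zt p R t S)) ≤
        s D ^ (n + 1) * (Real.exp ((n + 1) * qK K (n + 1) * (t * R)) * m.real S) := by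
      calc s D ^ (n + 1) * ((1 - t) ^ (n + 1) * m.real (Zt p R t S))
          = (1 - t) ^ (n + 1) * s D ^ (n + 1) * m.real (Zt p R t S) := by ring
        _ ≤ Real.exp (((n + 1 : ℕ) : ℝ) * (qK K (n + 1) * (t * D))) * s ((1 - t) * D) ^ (n + 1) *
              m.real (Zt p R t S) :=
            mul_le_mul_of_nonneg_right h5 measureReal_nonneg
        _ = Real.exp (((n + 1 : ℕ) : ℝ) * (qK K (n + 1) * (t * D))) *
              (s ((1 - t) * D) ^ (n + 1) * m.real (Zt p R t S)) := by ring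
        _ ≤ Real.exp (((n + 1 : ℕ) : ℝ) * (qK K (n + 1) * (t * D))) *
              (s D ^ (n + 1) * m.real S) :=
            mul_le_mul_of_nonneg_left h1 (Real.exp_pos _).le
        _ ≤ Real.exp ((n + 1) * qK K (n + 1) * (t * R)) * (s D ^ (n + 1) * m.real S) :=
            mul_le_mul_of_nonneg_right h6 (by positivity)
        _ = _ := by ring
    exact le_of_mul_le_mul_left h7 (by positivity)

/-- **Bishop-Gromov**, closed balls -/
theorem bg_closedBall (hK : K ≤ 0) (hX : IsRCD K (n + 1) X m) (x : X) {r R : ℝ} (hr : 0 < r)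
    (hrR : r ≤ R) :
    m.real (closedBall x R) ≤
      (R / r) ^ (n + 1) * Real.exp ((n + 1) * qK K (n + 1) * (R - r)) *
        m.real (closedBall x r) := by
  have := hX.proper
  have hR : 0 < R := hr.trans_le hrR
  set t : ℝ := 1 - r / R with ht
  have ht0 : 0 ≤ t := by
    have : r / R ≤ 1 := (div_le_one hR).2 hrR
    linarith
  have ht1 : t < 1 := by
    have : 0 < r / R := by positivity
    linarith
  have h1 := contr_real hK hX x hR ht0 ht1 (isCompact_closedBall x r)
  have e1 : 1 - t = r / R := by rw [ht]; ring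
  have e2 : t * R = R - r := by
    rw [ht]
    field_simp
  rw [e1, e2] at h1
  have h2 : closedBall x R ⊆ Zt x R t (closedBall x r) := by
    intro a ha
    obtain ⟨z, hz⟩ := hX.geod a x t ht0 ht1.le
    refine ⟨ha, z, ?_, hz⟩
    rw [mem_closedBall, hz.2, e1]
    have : dist a x ≤ R := ha
    calc r / R * dist a x ≤ r / R * R := by gcongr
      _ = r := by field_simp
  have h3 : m.real (closedBall x R) ≤ m.real (Zt x R t (closedBall x r)) := by
    refine ENNReal.toReal_mono ?_ (measure_mono h2)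
    exact ne_top_of_le_ne_top (hX.finite_ball x R).ne (measure_mono fun a ha => ha.1)
  have h4 : (r / R) ^ (n + 1) * m.real (closedBall x R) ≤
      Real.exp ((n + 1) * qK K (n + 1) * (R - r)) * m.real (closedBall x r) :=
    (mul_le_mul_of_nonneg_left h3 (by positivity)).trans h1
  calc m.real (closedBall x R)
      = (R / r) ^ (n + 1) * ((r / R) ^ (n + 1) * m.real (closedBall x R)) := by
        rw [← mul_assoc, ← mul_pow]
        have : R / r * (r / R) = 1 := by field_simp
        rw [this, one_pow, one_mul]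
    _ ≤ (R / r) ^ (n + 1) *
        (Real.exp ((n + 1) * qK K (n + 1) * (R - r)) * m.real (closedBall x r)) := by gcongr
    _ = _ := by ring

end bg

end Pool.Agent.BDRY
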