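import Pool.Agent.Work.MP_209cb6_gt.B2.BG

/-!
# BDRY2: uniform Gaussian integrability from the Bishop-Gromov inequality
-/

set_option autoImplicit false

open MeasureTheory MeasureTheory.Measure Metric Set Filter Topology
open scoped ENNReal NNReal

namespace Pool.Agent.BDRY

universe u

section bg
variable {K : ℝ} {n : ℕ} {X : Type u} [MetricSpace X] [MeasurableSpace X] [BorelSpace X]
  {m : Measure X}

/-- **Bishop-Gromov**, closed balls, with values in `[0,∞]` -/
theorem bg_closedBall' (hK : K ≤ 0) (hX : IsRCD K (n + 1) X m) (x : X) {r R : ℝ} (hr : 0 < r)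
    (hrR : r ≤ R) :
    m (closedBall x R) ≤
      ENNReal.ofReal ((R / r) ^ (n + 1) * Real.exp ((n + 1) * qK K (n + 1) * (R - r))) *
        m (closedBall x r) := by
  have hR : 0 < R := hr.trans_le hrR
  have h1 := bg_closedBall hK hX x hr hrR
  rw [← ENNReal.ofReal_toReal (hX.finite_ball x R).ne,
    ← ENNReal.ofReal_toReal (hX.finite_ball x r).ne, ← ENNReal.ofReal_mul (by positivity)]
  exact ENNReal.ofReal_le_ofReal h1

/-- **Bishop-Gromov**, open balls -/
theorem bg_ball' (hK : K ≤ 0) (hX : IsRCD K (n + 1) X m) (x : X) {r R : ℝ} (hr : 0 < r)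
    (hrR : r ≤ R) :
    m (ball x R) ≤
      ENNReal.ofReal ((R / r) ^ (n + 1) * Real.exp ((n + 1) * qK K (n + 1) * (R - r))) *
        m (ball x r) := by
  have hR : 0 < R := hr.trans_le hrR
  -- the ball is the union of the closed balls of radius `(1 - 1/(k+2)) R`
  set a : ℕ → ℝ := fun k => 1 - 1 / ((k : ℝ) + 2) with ha
  have ha0 : ∀ k, 0 < a k := by
    intro k
    have h0 : (0 : ℝ) ≤ k := Nat.cast_nonneg k
    have h1 : 1 / ((k : ℝ) + 2) < 1 := by
      rw [div_lt_one (by positivity)]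
      linarith
    simp only [ha]
    linarith
  have ha1 : ∀ k, a k < 1 := by
    intro k
    have : 0 < 1 / ((k : ℝ) + 2) := by positivity
    simp only [ha]
    linarith
  have hmono : Monotone a := by
    intro i j hij
    have h1 : (i : ℝ) ≤ j := by exact_mod_cast hij
    have h0 : (0 : ℝ) ≤ i := Nat.cast_nonneg i
    have h2 : 1 / ((j : ℝ) + 2) ≤ 1 / ((i : ℝ) + 2) :=
      one_div_le_one_div_of_le (by positivity) (by linarith)
    simp only [ha]
    linarith
  have hlim : Tendsto a atTop (𝓝 1) := by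
    have h1 : Tendsto (fun k : ℕ => 1 / ((k : ℝ) + 2)) atTop (𝓝 0) := by
      have h2 : Tendsto (fun k : ℕ => (k : ℝ) + 2) atTop atTop :=
        tendsto_atTop_add_const_right _ _ tendsto_natCast_atTop_atTop
      have h3 := h2.inv_tendsto_atTop
      refine h3.congr fun k => ?_
      rw [Pi.inv_apply, one_div]
    have h3 := h1.const_sub 1
    rwa [sub_zero] at h3
  have hU : ball x R = ⋃ k, closedBall x (a k * R) := by
    ext y
    simp only [mem_ball, mem_iUnion, mem_closedBall]
    constructor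
    · intro hy
      have h1 : dist y x / R < 1 := (div_lt_one hR).2 hy
      obtain ⟨k, hk⟩ := (hlim.eventually (lt_mem_nhds h1)).exists
      refine ⟨k, ?_⟩
      rw [div_lt_iff₀ hR] at hk
      exact hk.le
    · rintro ⟨k, hk⟩
      have := ha1 k
      nlinarith
  have hm : Monotone fun k => closedBall x (a k * R) := by
    intro i j hij
    exact closedBall_subset_closedBall (mul_le_mul_of_nonneg_right (hmono hij) hR.le)
  rw [hU, hm.measure_iUnion]
  refine iSup_le fun k => ?_
  have h0 := ha0 k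
  have h1 := ha1 k
  have h2 := bg_closedBall' hK hX x (r := a k * r) (R := a k * R) (by positivity)
    (mul_le_mul_of_nonneg_left hrR h0.le)
  refine h2.trans ?_
  gcongr ?_ * ?_
  · apply ENNReal.ofReal_le_ofReal
    have e1 : a k * R / (a k * r) = R / r := by field_simp
    rw [e1]
    have hq := qK_nonneg K (n + 1)
    have e2 : a k * R - a k * r ≤ R - r := by nlinarith
    gcongr
  · refine measure_mono fun y hy => ?_
    rw [mem_closedBall] at hy
    rw [mem_ball]
    nlinarith

/-- the constant of the Gaussian bound -/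
noncomputable def CG (n : ℕ) (A c : ℝ) : ℝ :=
  2 * Real.exp ((((n : ℝ) + 1) * (1 + A) + 1) ^ 2 / (4 * c))

theorem CG_pos (n : ℕ) (A c : ℝ) : 0 < CG n A c := by
  unfold CG
  positivity

theorem gauss_term {n : ℕ} {A c : ℝ} (hc : 0 < c) (k : ℕ) :
    Real.exp (-c * k ^ 2) * (((k : ℝ) + 1) ^ (n + 1) * Real.exp ((n + 1) * A * k)) ≤
      Real.exp ((((n : ℝ) + 1) * (1 + A) + 1) ^ 2 / (4 * c)) * Real.exp (-1) ^ k := by
  have hk : (0 : ℝ) ≤ k := Nat.cast_nonneg k
  have h1 : ((k : ℝ) + 1) ^ (n + 1) ≤ Real.exp ((n + 1) * k) := by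
    have h2 : (k : ℝ) + 1 ≤ Real.exp k := Real.add_one_le_exp _
    calc ((k : ℝ) + 1) ^ (n + 1) ≤ Real.exp k ^ (n + 1) := pow_le_pow_left₀ (by positivity) h2 _
      _ = Real.exp ((n + 1) * k) := by
        rw [← Real.exp_nat_mul]
        push_cast
        rfl
  set B : ℝ := ((n : ℝ) + 1) * (1 + A) with hB
  calc Real.exp (-c * k ^ 2) * (((k : ℝ) + 1) ^ (n + 1) * Real.exp ((n + 1) * A * k))
      ≤ Real.exp (-c * k ^ 2) * (Real.exp ((n + 1) * k) * Real.exp ((n + 1) * A * k)) := by gcongr
    _ = Real.exp (-c * k ^ 2 + B * k) := by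
        rw [← Real.exp_add, ← Real.exp_add, hB]
        congr 1
        ring
    _ ≤ Real.exp ((B + 1) ^ 2 / (4 * c) + -(k : ℝ)) := by
        rw [Real.exp_le_exp]
        have h2 : (B + 1) ^ 2 / (4 * c) - (B + 1) * k + c * k ^ 2 =
            (B + 1 - 2 * c * k) ^ 2 / (4 * c) := by
          field_simp
          ring
        have h3 : 0 ≤ (B + 1 - 2 * c * k) ^ 2 / (4 * c) := by positivity
        linarith
    _ = _ := by
        rw [Real.exp_add, ← Real.exp_nat_mul]
        congr 2
        ring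

theorem exp_neg_one_le : Real.exp (-1) ≤ 1 / 2 := by
  have h1 := Real.add_one_le_exp (1 : ℝ)
  rw [Real.exp_neg, one_div]
  exact inv_anti₀ (by norm_num) (by linarith)

/-- **Gaussian bound**: `∫ exp(-c (d_x / r)²) dm ≤ C m(B_r(x))`, with `C` depending on `N`, `c` and
an upper bound of `√(-K/N) r` -/
theorem gauss_lintegral_le (hK : K ≤ 0) (hX : IsRCD K (n + 1) X m) (x : X) {r A c : ℝ}
    (hr : 0 < r) (hA : qK K (n + 1) * r ≤ A) (hc : 0 < c) :
    ∫⁻ y, ENNReal.ofReal (Real.exp (-c * (dist x y / r) ^ 2)) ∂m ≤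
      ENNReal.ofReal (CG n A c) * m (closedBall x r) := by
  have hA0 : 0 ≤ A := le_trans (mul_nonneg (qK_nonneg _ _) hr.le) hA
  have hpt : ∀ y, ENNReal.ofReal (Real.exp (-c * (dist x y / r) ^ 2)) ≤
      ∑' k : ℕ, (closedBall x (((k : ℝ) + 1) * r)).indicator
        (fun _ => ENNReal.ofReal (Real.exp (-c * k ^ 2))) y := by
    intro y
    set k : ℕ := ⌊dist x y / r⌋₊ with hk
    have h0 : 0 ≤ dist x y / r := by positivity
    have h1 : (k : ℝ) ≤ dist x y / r := Nat.floor_le h0
    have h2 : dist x y / r < (k : ℝ) + 1 := Nat.lt_floor_add_one _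
    refine le_trans ?_ (ENNReal.le_tsum k)
    have h3 : y ∈ closedBall x (((k : ℝ) + 1) * r) := by
      rw [mem_closedBall, dist_comm]
      rw [div_lt_iff₀ hr] at h2
      exact h2.le
    rw [indicator_of_mem h3]
    apply ENNReal.ofReal_le_ofReal
    rw [Real.exp_le_exp]
    have h4 : (k : ℝ) ^ 2 ≤ (dist x y / r) ^ 2 := pow_le_pow_left₀ (Nat.cast_nonneg k) h1 2
    nlinarith
  have hball : ∀ k : ℕ, m (closedBall x (((k : ℝ) + 1) * r)) ≤
      ENNReal.ofReal (((k : ℝ) + 1) ^ (n + 1) * Real.exp ((n + 1) * A * k)) *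
        m (closedBall x r) := by
    intro k
    have hk : (0 : ℝ) ≤ k := Nat.cast_nonneg k
    refine (bg_closedBall' hK hX x hr (R := ((k : ℝ) + 1) * r) (by nlinarith)).trans ?_
    gcongr ?_ * _
    apply ENNReal.ofReal_le_ofReal
    have e1 : ((k : ℝ) + 1) * r / r = (k : ℝ) + 1 := by field_simp
    rw [e1]
    gcongr ?_ * Real.exp ?_
    have e2 : ((k : ℝ) + 1) * r - r = k * r := by ring
    rw [e2]
    calc ((n : ℝ) + 1) * qK K (n + 1) * (k * r) = ((n : ℝ) + 1) * (qK K (n + 1) * r) * k := by ring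
      _ ≤ ((n : ℝ) + 1) * A * k := by gcongr
  calc ∫⁻ y, ENNReal.ofReal (Real.exp (-c * (dist x y / r) ^ 2)) ∂m
      ≤ ∫⁻ y, ∑' k : ℕ, (closedBall x (((k : ℝ) + 1) * r)).indicator
        (fun _ => ENNReal.ofReal (Real.exp (-c * k ^ 2))) y ∂m := lintegral_mono hpt
    _ = ∑' k : ℕ, ENNReal.ofReal (Real.exp (-c * k ^ 2)) *
          m (closedBall x (((k : ℝ) + 1) * r)) := by
        rw [lintegral_tsum fun k =>
          (measurable_const.indicator isClosed_closedBall.measurableSet).aemeasurable]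
        refine tsum_congr fun k => ?_
        rw [lintegral_indicator_const isClosed_closedBall.measurableSet]
    _ ≤ ∑' k : ℕ, ENNReal.ofReal (Real.exp ((((n : ℝ) + 1) * (1 + A) + 1) ^ 2 / (4 * c)) *
          Real.exp (-1) ^ k) * m (closedBall x r) := by
        refine ENNReal.tsum_le_tsum fun k => ?_
        calc ENNReal.ofReal (Real.exp (-c * k ^ 2)) * m (closedBall x (((k : ℝ) + 1) * r))
            ≤ ENNReal.ofReal (Real.exp (-c * k ^ 2)) *
              (ENNReal.ofReal (((k : ℝ) + 1) ^ (n + 1) * Real.exp ((n + 1) * A * k)) *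
                m (closedBall x r)) := by
              gcongr
              exact hball k
          _ = ENNReal.ofReal (Real.exp (-c * k ^ 2) *
                (((k : ℝ) + 1) ^ (n + 1) * Real.exp ((n + 1) * A * k))) * m (closedBall x r) := by
              rw [← mul_assoc, ← ENNReal.ofReal_mul (Real.exp_pos _).le]
          _ ≤ _ := mul_le_mul' (ENNReal.ofReal_le_ofReal (gauss_term hc k)) le_rfl
    _ = ENNReal.ofReal (Real.exp ((((n : ℝ) + 1) * (1 + A) + 1) ^ 2 / (4 * c)) *
          ∑' k : ℕ, Real.exp (-1) ^ k) * m (closedBall x r) := by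
        have hs : Summable fun k : ℕ => Real.exp (-1) ^ k :=
          summable_geometric_of_lt_one (Real.exp_pos _).le
            (lt_of_le_of_lt exp_neg_one_le (by norm_num))
        rw [ENNReal.tsum_mul_right, ← tsum_mul_left,
          ENNReal.ofReal_tsum_of_nonneg (fun k => by positivity) (hs.mul_left _)]
    _ ≤ ENNReal.ofReal (CG n A c) * m (closedBall x r) := by
        gcongr ?_ * _
        apply ENNReal.ofReal_le_ofReal
        rw [tsum_geometric_of_lt_one (Real.exp_pos _).le
          (lt_of_le_of_lt exp_neg_one_le (by norm_num)), CG, mul_comm]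
        gcongr
        have h1 := exp_neg_one_le
        calc (1 - Real.exp (-1))⁻¹ ≤ (1 / 2 : ℝ)⁻¹ := inv_anti₀ (by norm_num) (by linarith)
          _ = 2 := by norm_num

theorem gauss_integrable (hK : K ≤ 0) (hX : IsRCD K (n + 1) X m) (x : X) {r c : ℝ}
    (hr : 0 < r) (hc : 0 < c) : Integrable (fun y => Real.exp (-c * (dist x y / r) ^ 2)) m := by
  refine ⟨by fun_prop, ?_⟩
  rw [hasFiniteIntegral_iff_ofReal (ae_of_all _ fun y => (Real.exp_pos _).le)]
  refine (gauss_lintegral_le hK hX x hr le_rfl hc).trans_lt ?_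
  exact ENNReal.mul_lt_top ENNReal.ofReal_lt_top (hX.finite_ball x r)

/-- Gaussian bound with real values -/
theorem gauss_integral_le (hK : K ≤ 0) (hX : IsRCD K (n + 1) X m) (x : X) {r A c : ℝ}
    (hr : 0 < r) (hA : qK K (n + 1) * r ≤ A) (hc : 0 < c) :
    ∫ y, Real.exp (-c * (dist x y / r) ^ 2) ∂m ≤ CG n A c * m.real (closedBall x r) := by
  rw [integral_eq_lintegral_of_nonneg_ae (ae_of_all _ fun y => (Real.exp_pos _).le)
    (by fun_prop)]
  have h1 := gauss_lintegral_le hK hX x hr hA hc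
  refine (ENNReal.toReal_mono ?_ h1).trans (le_of_eq ?_)
  · exact (ENNReal.mul_lt_top ENNReal.ofReal_lt_top (hX.finite_ball x r)).ne
  · rw [ENNReal.toReal_mul, ENNReal.toReal_ofReal (CG_pos n A c).le]
    rfl

/-- Gaussian tail -/
theorem gauss_tail_le (hK : K ≤ 0) (hX : IsRCD K (n + 1) X m) (x : X) {r A c L : ℝ}
    (hr : 0 < r) (hA : qK K (n + 1) * r ≤ A) (hc : 0 < c) (hL : 0 ≤ L) :
    ∫ y in (ball x (L * r))ᶜ, Real.exp (-c * (dist x y / r) ^ 2) ∂m ≤
      Real.exp (-(c / 2) * L ^ 2) * (CG n A (c / 2) * m.real (closedBall x r)) := by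
  have hi := gauss_integrable hK hX x hr hc
  have hi2 := gauss_integrable hK hX x hr (half_pos hc)
  calc ∫ y in (ball x (L * r))ᶜ, Real.exp (-c * (dist x y / r) ^ 2) ∂m
      ≤ ∫ y in (ball x (L * r))ᶜ,
          Real.exp (-(c / 2) * L ^ 2) * Real.exp (-(c / 2) * (dist x y / r) ^ 2) ∂m := by
        refine setIntegral_mono_on hi.integrableOn (hi2.const_mul _).integrableOn
          measurableSet_ball.compl fun y hy => ?_
        rw [← Real.exp_add, Real.exp_le_exp]
        have h1 : L * r ≤ dist x y := by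
          rw [mem_compl_iff, mem_ball, not_lt, dist_comm] at hy
          exact hy
        have h2 : L ≤ dist x y / r := by rwa [le_div_iff₀ hr]
        have h3 : L ^ 2 ≤ (dist x y / r) ^ 2 := pow_le_pow_left₀ hL h2 2
        nlinarith
    _ ≤ ∫ y, Real.exp (-(c / 2) * L ^ 2) * Real.exp (-(c / 2) * (dist x y / r) ^ 2) ∂m :=
        setIntegral_le_integral (hi2.const_mul _) (ae_of_all _ fun y => by positivity)
    _ ≤ _ := by
        rw [integral_const_mul]
        gcongr
        exact gauss_integral_le hK hX x hr hA (half_pos hc)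

end bg

end Pool.Agent.BDRY
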