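import Pool.Agent.Work.MP_209cb6_gt.ContrRcd

/-!
# B2, module M13 (a): the sharp Bishop-Gromov inequality of an RCD(K,N) space, K ≤ 0

`m (B_r) / sK r ^ N` is nonincreasing on `(0, 6]`.
-/

set_option autoImplicit false

open MeasureTheory MeasureTheory.Measure Metric Set Filter Topology
open scoped ENNReal NNReal

namespace Pool.Agent.BDRY

universe u

/-! ## the comparison function -/

theorem bg_num {s x : ℝ} (hs0 : 0 ≤ s) (hs : s ≤ 1) (hx : 0 ≤ x) :
    s * Real.cosh (s * x) * Real.sinh x ≤ Real.sinh (s * x) * Real.cosh x := by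
  have hd : ∀ y : ℝ, HasDerivAt (fun y => s * Real.cosh (s * y) * Real.sinh y -
      Real.sinh (s * y) * Real.cosh y) ((s ^ 2 - 1) * (Real.sinh (s * y) * Real.sinh y)) y := by
    intro y
    have h1 : HasDerivAt (fun y : ℝ => s * y) s y := by simpa using (hasDerivAt_id y).const_mul s
    have h2 := (h1.cosh.const_mul s).mul (Real.hasDerivAt_sinh y)
    have h3 := h1.sinh.mul (Real.hasDerivAt_cosh y)
    refine (h2.sub h3).congr_deriv ?_
    ring
  have hanti : AntitoneOn (fun y => s * Real.cosh (s * y) * Real.sinh y -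
      Real.sinh (s * y) * Real.cosh y) (Ici 0) := by
    refine antitoneOn_of_deriv_nonpos (convex_Ici 0)
      (fun y _ => (hd y).continuousAt.continuousWithinAt)
      (fun y _ => (hd y).differentiableAt.differentiableWithinAt) ?_
    intro y hy
    rw [interior_Ici, mem_Ioi] at hy
    rw [(hd y).deriv]
    have h1 : 0 ≤ Real.sinh (s * y) := Real.sinh_nonneg_iff.2 (by positivity)
    have h2 : 0 ≤ Real.sinh y := Real.sinh_nonneg_iff.2 hy.le
    have h3 : s ^ 2 - 1 ≤ 0 := by nlinarith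
    exact mul_nonpos_of_nonpos_of_nonneg h3 (mul_nonneg h1 h2)
  have h := hanti (mem_Ici.2 le_rfl) (mem_Ici.2 hx) hx
  simp only [mul_zero, Real.sinh_zero, zero_mul, sub_zero] at h
  linarith

theorem bg_sinh {s x y : ℝ} (hs0 : 0 ≤ s) (hs : s ≤ 1) (hx : 0 < x) (hxy : x ≤ y) :
    Real.sinh (s * y) * Real.sinh x ≤ Real.sinh (s * x) * Real.sinh y := by
  have hsp : ∀ z : ℝ, 0 < z → 0 < Real.sinh z := fun z hz => Real.sinh_pos_iff.2 hz
  have hd : ∀ z : ℝ, 0 < z → HasDerivAt (fun z => Real.sinh (s * z) / Real.sinh z)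
      ((s * Real.cosh (s * z) * Real.sinh z - Real.sinh (s * z) * Real.cosh z) /
        Real.sinh z ^ 2) z := by
    intro z hz
    have h1 : HasDerivAt (fun y : ℝ => s * y) s z := by simpa using (hasDerivAt_id z).const_mul s
    refine (h1.sinh.div (Real.hasDerivAt_sinh z) (hsp z hz).ne').congr_deriv ?_
    ring
  have hanti : AntitoneOn (fun z => Real.sinh (s * z) / Real.sinh z) (Ioi 0) := by
    refine antitoneOn_of_deriv_nonpos (convex_Ioi 0)
      (fun z hz => (hd z hz).continuousAt.continuousWithinAt)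
      (fun z hz => (hd z (interior_subset hz)).differentiableAt.differentiableWithinAt) ?_
    intro z hz
    rw [interior_Ioi, mem_Ioi] at hz
    rw [(hd z hz).deriv]
    have h1 := bg_num hs0 hs hz.le
    exact div_nonpos_of_nonpos_of_nonneg (by linarith) (sq_nonneg _)
  have h := hanti (mem_Ioi.2 hx) (mem_Ioi.2 (hx.trans_le hxy)) hxy
  have hx' := hsp x hx
  have hy' := hsp y (hx.trans_le hxy)
  rw [div_le_div_iff₀ hy' hx'] at h
  exact h

/-- `sK (s x) / sK x` is nonincreasing in `x`. -/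
theorem bg_sK_ratio {κ s x y : ℝ} (hs0 : 0 ≤ s) (hs : s ≤ 1) (hx : 0 < x) (hxy : x ≤ y) :
    sK κ (s * y) * sK κ x ≤ sK κ (s * x) * sK κ y := by
  unfold sK
  split_ifs with h
  · have hk : 0 < √(-κ) := Real.sqrt_pos.mpr (by linarith)
    set k := √(-κ) with hkdef
    have h1 := bg_sinh hs0 hs (x := k * x) (y := k * y) (by positivity) (by gcongr)
    have e1 : s * (k * y) = k * (s * y) := by ring
    have e2 : s * (k * x) = k * (s * x) := by ring
    rw [e1, e2] at h1
    rw [div_mul_div_comm, div_mul_div_comm]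
    gcongr
  · apply le_of_eq; ring

/-- `sK r ≤ r cosh (√(-κ) r)`. -/
theorem bg_sK_le_cosh {κ r : ℝ} (hr : 0 ≤ r) : sK κ r ≤ r * Real.cosh (√(-κ) * r) := by
  unfold sK
  split_ifs with h
  · have hk : 0 < √(-κ) := Real.sqrt_pos.mpr (by linarith)
    rw [div_le_iff₀ hk]
    have h1 := sinh_sub_le (x := √(-κ) * r) (y := 0) le_rfl (by positivity)
    simp only [Real.sinh_zero, sub_zero] at h1
    linarith
  · have := Real.one_le_cosh (√(-κ) * r)
    nlinarith

/-- `sK r / r → 1` in quantitative form. -/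
theorem bg_sK_near (κ : ℝ) {ε : ℝ} (hε : 0 < ε) : ∃ r₀ : ℝ, 0 < r₀ ∧ r₀ ≤ 1 ∧
    ∀ r : ℝ, 0 ≤ r → r ≤ r₀ → sK κ r ≤ (1 + ε) * r := by
  have hc : Tendsto (fun r : ℝ => Real.cosh (√(-κ) * r)) (𝓝 0) (𝓝 1) := by
    have : Continuous fun r : ℝ => Real.cosh (√(-κ) * r) := by fun_prop
    simpa using this.tendsto 0
  have h1 : ∀ᶠ r in 𝓝 (0 : ℝ), Real.cosh (√(-κ) * r) < 1 + ε :=
    hc.eventually (gt_mem_nhds (by linarith))
  obtain ⟨δ, hδ, hδ1⟩ := Metric.eventually_nhds_iff.1 h1
  refine ⟨min (δ / 2) 1, by positivity, min_le_right _ _, fun r hr hr1 => ?_⟩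
  have h2 : r ≤ δ / 2 := hr1.trans (min_le_left _ _)
  have h3 := hδ1 (y := r) (by rw [Real.dist_eq, sub_zero, abs_of_nonneg hr]; linarith)
  calc sK κ r ≤ r * Real.cosh (√(-κ) * r) := bg_sK_le_cosh hr
    _ ≤ r * (1 + ε) := by gcongr
    _ = (1 + ε) * r := mul_comm _ _

/-! ## the contraction at small scales -/

/-- `contr_compact`, with the radius of the ball about `p` which contains the set `Zt`. -/
theorem bg_contr_compact {K : ℝ} (hK : K ≤ 0) {n : ℕ} {X : Type u} [MetricSpace X]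
    [MeasurableSpace X] [BorelSpace X] {m : Measure X} (hX : IsRCD K (n + 1) X m) (p : X) (t r : ℝ)
    (ht : 0 < t) (ht1 : t < 1) (hr : 0 < r) (S : Set X) (hS : IsCompact S)
    (hZ : Zt p 6 t S ⊆ closedBall p r) : ∃ D : ℝ, 0 < D ∧ D ≤ r ∧
    sK (K / (n + 1 : ℕ)) ((1 - t) * D) ^ (n + 1) * m.real (Zt p 6 t S) ≤
      sK (K / (n + 1 : ℕ)) D ^ (n + 1) * m.real S := by
  have := hX.proper
  have hfin := hX.finite_ball
  have : IsLocallyFiniteMeasure m := ⟨fun x => ⟨closedBall x 1, closedBall_mem_nhds x one_pos,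
    hfin x 1⟩⟩
  set A := Zt p 6 t S with hA
  have hAc : IsCompact A := ec_zt_compact p 6 t hS
  have hAm : MeasurableSet A := hAc.measurableSet
  have hA1 : m A ≠ ∞ := ((measure_mono (ec_zt_subset p 6 t S)).trans_lt (hfin p 6)).ne
  have hκ0 : K / ((n + 1 : ℕ) : ℝ) ≤ 0 := div_nonpos_of_nonpos_of_nonneg hK (Nat.cast_nonneg _)
  by_cases hA0 : m A = 0
  · refine ⟨r, hr, le_rfl, ?_⟩
    refine ec_trivial hκ0 ht ht1 hr measureReal_nonneg ?_
    rw [Measure.real, hA0]
    simp
  have hν1 : IsP2 (mu1 m A) := isP2_mu1 hAm hA0 hA1 hAc.isBounded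
  set D := W2 (mu1 m A) (dirac p) with hD
  have hDnn : 0 ≤ D := Real.sqrt_nonneg _
  have hDsq : D ^ 2 = ∫ y, dist y p ^ 2 ∂(mu1 m A) := W2_dirac_sq hν1 p
  have hDint : D ^ 2 = (m.real A)⁻¹ * ∫ y in A, dist y p ^ 2 ∂m := by
    rw [hDsq]
    unfold mu1
    rw [integral_smul_measure]
    simp [Measure.real]
  have hAr : 0 < m.real A := ENNReal.toReal_pos hA0 hA1
  have hfm : IsFiniteMeasure (m.restrict A) := ⟨by rw [Measure.restrict_apply_univ]; exact hA1.lt_top⟩
  have hint : IntegrableOn (fun y => dist y p ^ 2) A m :=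
    (by fun_prop : Continuous fun y => dist y p ^ 2).continuousOn.integrableOn_compact' hAc hAm
  rcases hDnn.lt_or_eq with hD0 | hD0
  · refine ⟨D, hD0, ?_, ?_⟩
    · have h1 : ∫ y in A, dist y p ^ 2 ∂m ≤ ∫ _y in A, (r ^ 2 : ℝ) ∂m := by
        refine setIntegral_mono_on hint (integrable_const _) hAm fun y hy => ?_
        have : dist y p ≤ r := hZ hy
        have h0 : 0 ≤ dist y p := dist_nonneg
        exact pow_le_pow_left₀ h0 this 2
      rw [setIntegral_const, smul_eq_mul] at h1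
      have h2 : D ^ 2 ≤ r ^ 2 := by
        rw [hDint, inv_mul_le_iff₀ hAr]
        linarith
      exact le_of_sq_le_sq h2 hr.le
    · set s := sK (K / ((n + 1 : ℕ) : ℝ)) D ^ (n + 1) with hs
      have hs0 : 0 ≤ s := pow_nonneg (ec_sK_nonneg hκ0 hD0.le) _
      refine le_of_forall_pos_le_add fun δ hδ => ?_
      have h1 := ec_main hK hX p t ht ht1 S hS hA0 hA1 rfl hD0 (η := δ / (s + 1)) (by positivity)
      have h2 : s * (δ / (s + 1)) ≤ δ := by
        rw [mul_div_assoc', div_le_iff₀ (by positivity)]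
        nlinarith
      calc _ ≤ s * (m.real S + δ / (s + 1)) := h1
        _ = s * m.real S + s * (δ / (s + 1)) := by ring
        _ ≤ s * m.real S + δ := by linarith
  · -- the measure is concentrated at `p`
    obtain ⟨D', hD', hD6, h'⟩ := contr_compact hK hX p t ht ht1 S hS
    refine ⟨r, hr, le_rfl, ?_⟩
    refine ec_trivial hκ0 ht ht1 hr measureReal_nonneg ?_
    have h0 : ∫ y in A, dist y p ^ 2 ∂m = 0 := by
      have h1 := hDint
      rw [← hD0] at h1
      have h2 : (m.real A)⁻¹ ≠ 0 := (inv_pos.2 hAr).ne'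
      have h3 : (m.real A)⁻¹ * ∫ y in A, dist y p ^ 2 ∂m = 0 := by rw [← h1]; norm_num
      exact (mul_eq_zero.1 h3).resolve_left h2
    have h4 : (fun y => dist y p ^ 2) =ᵐ[m.restrict A] 0 :=
      (integral_eq_zero_iff_of_nonneg (fun y => by positivity) hint).1 h0
    have h5 : ∀ᵐ y ∂(m.restrict A), y = p := by
      filter_upwards [h4] with y hy
      have : dist y p ^ 2 = 0 := hy
      exact dist_eq_zero.1 (pow_eq_zero_iff (two_ne_zero) |>.1 this)
    have h6 : m (A \ {p}) = 0 := by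
      rw [ae_restrict_iff' hAm] at h5
      have : A \ {p} = {y | ¬ (y ∈ A → y = p)} := by
        ext y; simp
      rw [this]
      exact h5
    have hpA : p ∈ A := by
      by_contra hp
      have : A \ {p} = A := sdiff_singleton_eq_self hp
      rw [this] at h6
      exact hA0 h6
    have hpS : p ∈ S := by
      obtain ⟨-, z, hz, h7, -⟩ := hpA
      rw [dist_self, mul_zero] at h7
      rw [dist_eq_zero.1 h7]
      exact hz
    have h8 : m A ≤ m S := by
      calc m A ≤ m ((A \ {p}) ∪ {p}) := measure_mono (by intro y hy; by_cases h : y = p <;> simp [h, hy])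
        _ ≤ m (A \ {p}) + m {p} := measure_union_le _ _
        _ = m {p} := by rw [h6, zero_add]
        _ ≤ m S := measure_mono (singleton_subset_iff.2 hpS)
    have hS1 : m S ≠ ∞ := hS.measure_lt_top.ne
    exact ENNReal.toReal_mono hS1 h8

/-- **Sharp contraction** in the ball of radius `r ≤ 6` about `p`. No measurability of `S`. -/
theorem bg_zt {K : ℝ} (hK : K ≤ 0) {n : ℕ} {X : Type u} [MetricSpace X]
    [MeasurableSpace X] [BorelSpace X] {m : Measure X} (hX : IsRCD K (n + 1) X m) (p : X) {t r : ℝ}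
    (ht : 0 ≤ t) (ht1 : t < 1) (hr : 0 < r) (hr6 : r ≤ 6) (S : Set X) :
    ENNReal.ofReal ((sK (K / (n + 1 : ℕ)) ((1 - t) * r) / sK (K / (n + 1 : ℕ)) r) ^ (n + 1)) *
      m (Zt p r t S) ≤ m S := by
  have hpr := hX.proper
  have hκ0 : K / ((n + 1 : ℕ) : ℝ) ≤ 0 := div_nonpos_of_nonpos_of_nonneg hK (Nat.cast_nonneg _)
  set κ := K / ((n + 1 : ℕ) : ℝ) with hκ
  have ht' : 0 < 1 - t := by linarith
  have hsr : 0 < sK κ r := sK_pos hr
  have hsr' : 0 < sK κ ((1 - t) * r) := sK_pos (mul_pos ht' hr)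
  refine contr_all hX.finite_ball p r t _ ?_ S
  intro S hSc
  rcases ht.eq_or_lt with h0 | h0
  · subst h0
    have h2 : sK κ ((1 - 0) * r) / sK κ r = 1 := by
      rw [sub_zero, one_mul, div_self hsr.ne']
    rw [h2, one_pow, ENNReal.ofReal_one, one_mul]
    exact measure_mono (Zt_zero' p r S)
  set S' := S ∩ closedBall p ((1 - t) * r) with hS'
  have hSc' : IsCompact S' := hSc.inter_right isClosed_closedBall
  have hsub : Zt p r t S ⊆ Zt p 6 t S' := by
    rintro a ⟨ha, z, hz, hz1, hz2⟩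
    refine ⟨ha.trans hr6, z, ⟨hz, ?_⟩, hz1, hz2⟩
    rw [mem_closedBall, hz2]
    exact mul_le_mul_of_nonneg_left ha ht'.le
  have hZ : Zt p 6 t S' ⊆ closedBall p r := by
    rintro a ⟨-, z, hz, -, hz2⟩
    have h1 := hz.2
    rw [mem_closedBall, hz2] at h1
    rw [mem_closedBall]
    exact le_of_mul_le_mul_left h1 ht'
  obtain ⟨D, hD, hDr, h1⟩ := bg_contr_compact hK hX p t r h0 ht1 hr S' hSc' hZ
  have h2 := bg_sK_ratio (κ := κ) ht'.le (by linarith : 1 - t ≤ 1) hD hDr
  have hsD : 0 < sK κ D := sK_pos hD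
  have hsD' : 0 < sK κ ((1 - t) * D) := sK_pos (mul_pos ht' hD)
  have hfinS : m S' ≠ ∞ := ne_top_of_le_ne_top (hX.finite_ball p _).ne (measure_mono inter_subset_right)
  have hfinZ : m (Zt p 6 t S') ≠ ∞ := ne_top_of_le_ne_top (hX.finite_ball p _).ne (measure_mono hZ)
  have h3 : sK κ ((1 - t) * r) / sK κ r ≤ sK κ ((1 - t) * D) / sK κ D := by
    rw [div_le_div_iff₀ hsr hsD]; exact h2
  have h4 : (sK κ ((1 - t) * r) / sK κ r) ^ (n + 1) * m.real (Zt p 6 t S') ≤ m.real S' := by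
    calc (sK κ ((1 - t) * r) / sK κ r) ^ (n + 1) * m.real (Zt p 6 t S')
        ≤ (sK κ ((1 - t) * D) / sK κ D) ^ (n + 1) * m.real (Zt p 6 t S') := by gcongr
      _ = (sK κ ((1 - t) * D) ^ (n + 1) * m.real (Zt p 6 t S')) / sK κ D ^ (n + 1) := by
          rw [div_pow]; ring
      _ ≤ (sK κ D ^ (n + 1) * m.real S') / sK κ D ^ (n + 1) := by gcongr
      _ = m.real S' := by field_simp
  calc ENNReal.ofReal ((sK κ ((1 - t) * r) / sK κ r) ^ (n + 1)) * m (Zt p r t S)
      ≤ ENNReal.ofReal ((sK κ ((1 - t) * r) / sK κ r) ^ (n + 1)) * m (Zt p 6 t S') := by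
        gcongr
    _ = ENNReal.ofReal ((sK κ ((1 - t) * r) / sK κ r) ^ (n + 1) * m.real (Zt p 6 t S')) := by
        rw [ENNReal.ofReal_mul (by positivity), Measure.real, ENNReal.ofReal_toReal hfinZ]
    _ ≤ ENNReal.ofReal (m.real S') := ENNReal.ofReal_le_ofReal h4
    _ = m S' := by rw [Measure.real, ENNReal.ofReal_toReal hfinS]
    _ ≤ m S := measure_mono inter_subset_left

/-- The sharp contraction, for real numbers. -/
theorem bg_zt_real {K : ℝ} (hK : K ≤ 0) {n : ℕ} {X : Type u} [MetricSpace X]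
    [MeasurableSpace X] [BorelSpace X] {m : Measure X} (hX : IsRCD K (n + 1) X m) (p : X) {t r : ℝ}
    (ht : 0 ≤ t) (ht1 : t < 1) (hr : 0 < r) (hr6 : r ≤ 6) (S : Set X) (hS : m S ≠ ∞) :
    sK (K / (n + 1 : ℕ)) ((1 - t) * r) ^ (n + 1) * m.real (Zt p r t S) ≤
      sK (K / (n + 1 : ℕ)) r ^ (n + 1) * m.real S := by
  have h := ENNReal.toReal_mono hS (bg_zt hK hX p ht ht1 hr hr6 S)
  have hsr : 0 < sK (K / (n + 1 : ℕ)) r := sK_pos hr
  have hsr' : 0 < sK (K / (n + 1 : ℕ)) ((1 - t) * r) := sK_pos (mul_pos (by linarith) hr)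
  rw [ENNReal.toReal_mul, ENNReal.toReal_ofReal (by positivity), div_pow] at h
  change _ * m.real (Zt p r t S) ≤ m.real S at h
  rw [div_mul_eq_mul_div, div_le_iff₀ (by positivity)] at h
  linarith

/-- **Bishop-Gromov inequality**: `m (B_r(x)) / sK r ^ (n+1)` is nonincreasing on `(0, 6]`. -/
theorem bg_bishop {K : ℝ} (hK : K ≤ 0) {n : ℕ} {X : Type u} [MetricSpace X]
    [MeasurableSpace X] [BorelSpace X] {m : Measure X} (hX : IsRCD K (n + 1) X m) (x : X) {r R : ℝ}
    (hr : 0 < r) (hrR : r ≤ R) (hR : R ≤ 6) :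
    sK (K / (n + 1 : ℕ)) r ^ (n + 1) * m.real (closedBall x R) ≤
      sK (K / (n + 1 : ℕ)) R ^ (n + 1) * m.real (closedBall x r) := by
  have hR0 : 0 < R := hr.trans_le hrR
  have hq1 : r / R ≤ 1 := (div_le_one hR0).2 hrR
  have hq0 : 0 < r / R := div_pos hr hR0
  have hsub : closedBall x R ⊆ Zt x R (1 - r / R) (closedBall x r) := by
    intro a ha
    rw [mem_closedBall] at ha
    refine ⟨ha, ?_⟩
    obtain ⟨z, hz⟩ := hX.geod a x (1 - r / R) (by linarith) (by linarith)
    refine ⟨z, ?_, hz⟩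
    rw [mem_closedBall, hz.2]
    calc (1 - (1 - r / R)) * dist a x = r / R * dist a x := by ring
      _ ≤ r / R * R := by gcongr
      _ = r := div_mul_cancel₀ r hR0.ne'
  have h := bg_zt_real hK hX x (t := 1 - r / R) (r := R) (by linarith) (by linarith) hR0 hR
    (closedBall x r) (hX.finite_ball x r).ne
  have h1 : (1 - (1 - r / R)) * R = r := by field_simp; ring
  rw [h1] at h
  refine le_trans ?_ h
  have h2 : m (Zt x R (1 - r / R) (closedBall x r)) ≠ ∞ :=
    ne_top_of_le_ne_top (hX.finite_ball x R).ne (measure_mono fun a ha => ha.1)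
  have h3 : 0 < sK (K / (n + 1 : ℕ)) r := sK_pos hr
  exact mul_le_mul_of_nonneg_left (measureReal_mono hsub h2) (by positivity)

/-- Bishop-Gromov for open balls. -/
theorem bg_bishop_ball {K : ℝ} (hK : K ≤ 0) {n : ℕ} {X : Type u} [MetricSpace X]
    [MeasurableSpace X] [BorelSpace X] {m : Measure X} (hX : IsRCD K (n + 1) X m) (x : X) {r R : ℝ}
    (hr : 0 < r) (hrR : r ≤ R) (hR : R ≤ 6) :
    sK (K / (n + 1 : ℕ)) r ^ (n + 1) * m.real (ball x R) ≤
      sK (K / (n + 1 : ℕ)) R ^ (n + 1) * m.real (ball x r) := by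
  have hR0 : 0 < R := hr.trans_le hrR
  have hq1 : r / R ≤ 1 := (div_le_one hR0).2 hrR
  have hq0 : 0 < r / R := div_pos hr hR0
  have hsub : ball x R ⊆ Zt x R (1 - r / R) (ball x r) := by
    intro a ha
    rw [mem_ball] at ha
    refine ⟨ha.le, ?_⟩
    obtain ⟨z, hz⟩ := hX.geod a x (1 - r / R) (by linarith) (by linarith)
    refine ⟨z, ?_, hz⟩
    rw [mem_ball, hz.2]
    calc (1 - (1 - r / R)) * dist a x = r / R * dist a x := by ring
      _ < r / R * R := by gcongr
      _ = r := div_mul_cancel₀ r hR0.ne'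
  have hfin : m (ball x r) ≠ ∞ := ne_top_of_le_ne_top (hX.finite_ball x r).ne
    (measure_mono ball_subset_closedBall)
  have h := bg_zt_real hK hX x (t := 1 - r / R) (r := R) (by linarith) (by linarith) hR0 hR
    (ball x r) hfin
  have h1 : (1 - (1 - r / R)) * R = r := by field_simp; ring
  rw [h1] at h
  refine le_trans ?_ h
  have h2 : m (Zt x R (1 - r / R) (ball x r)) ≠ ∞ :=
    ne_top_of_le_ne_top (hX.finite_ball x R).ne (measure_mono fun a ha => ha.1)
  have h3 : 0 < sK (K / (n + 1 : ℕ)) r := sK_pos hr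
  exact mul_le_mul_of_nonneg_left (measureReal_mono hsub h2) (by positivity)

/-! ## the densities -/

/-- The volume of the unit ball of `ℝ^(n+1)`. -/
noncomputable def omg (n : ℕ) : ℝ := (volume : Measure (E n)).real (ball 0 1)

theorem omg_pos (n : ℕ) : 0 < omg n :=
  ENNReal.toReal_pos (measure_ball_pos volume _ one_pos).ne' measure_ball_lt_top.ne

theorem omg_closedBall (n : ℕ) (y : E n) {r : ℝ} (hr : 0 ≤ r) :
    (volume : Measure (E n)) (closedBall y r) = ENNReal.ofReal (r ^ (n + 1) * omg n) := by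
  rw [Measure.addHaar_closedBall volume y hr, finrank_euclideanSpace, Fintype.card_fin,
    ENNReal.ofReal_mul (by positivity), omg, Measure.real,
    ENNReal.ofReal_toReal measure_ball_lt_top.ne]

/-- `U`: the upper bound for the measure of balls. -/
def UpBall (κ : ℝ) (n : ℕ) {X : Type u} [MetricSpace X] [MeasurableSpace X] (m : Measure X) :
    Prop := ∀ (x : X) (r : ℝ), 0 < r → r ≤ 6 → m.real (closedBall x r) ≤ omg n * sK κ r ^ (n + 1)

/-- The points whose balls have at most half of the measure of the comparison ball. -/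
def HalfDens (κ : ℝ) (n : ℕ) {X : Type u} [MetricSpace X] [MeasurableSpace X] (m : Measure X) :
    Set X :=
  {x | ∀ r : ℝ, 0 < r → r < 6 → m.real (closedBall x r) ≤ 1 / 2 * omg n * sK κ r ^ (n + 1)}

end Pool.Agent.BDRY
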