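import Pool.Agent.Work.MP_209cb6_gt.Evi

/-!
# BDRY2, module M1: monotonicity of the entropy power along an EVI flow, logarithmic bound
-/

set_option autoImplicit false

open MeasureTheory MeasureTheory.Measure Metric Set Filter Topology
open scoped ENNReal NNReal

namespace Pool.Agent.BDRY

universe u

/-! ### Real-variable lemmas -/

/-- A lower semicontinuous function on `(0, ∞)` whose (weighted) averages over `[s, t]` are at most
its value at `s` is nonincreasing. -/
theorem anti_of_avg_le {w ψ : ℝ → ℝ} (hw : Continuous w) (hw0 : ∀ v, 0 < w v)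
    (hint : ∀ s t, 0 < s → s ≤ t → IntervalIntegrable ψ volume s t)
    (havg : ∀ s t, 0 < s → s ≤ t → ∫ v in s..t, w v * ψ v ≤ ψ s * ∫ v in s..t, w v)
    (hlsc : ∀ t, 0 < t → ∀ c, c < ψ t → ∀ᶠ v in 𝓝 t, c < ψ v) {s t : ℝ} (hs : 0 < s)
    (hst : s ≤ t) : ψ t ≤ ψ s := by
  by_contra hcon
  push Not at hcon
  have hst' : s < t := by
    rcases hst.lt_or_eq with h | h
    · exact h
    · rw [h] at hcon; exact absurd hcon (lt_irrefl _)
  obtain ⟨c, hc1, hc2⟩ := exists_between hcon
  -- the primitive of `w (ψ - c)`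
  set g : ℝ → ℝ := fun v => w v * (ψ v - c) with hg
  have hgi : ∀ a b, 0 < a → a ≤ b → IntervalIntegrable g volume a b := by
    intro a b ha hab
    have h1 : IntervalIntegrable (fun v => ψ v - c) volume a b :=
      (hint a b ha hab).sub intervalIntegrable_const
    exact h1.continuousOn_mul hw.continuousOn
  have hwi : ∀ a b, IntervalIntegrable w volume a b := fun a b => hw.intervalIntegrable a b
  have hval : ∀ a b, 0 < a → a ≤ b →
      ∫ v in a..b, g v = (∫ v in a..b, w v * ψ v) - c * ∫ v in a..b, w v := by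
    intro a b ha hab
    have h1 : IntervalIntegrable (fun v => w v * ψ v) volume a b :=
      (hint a b ha hab).continuousOn_mul hw.continuousOn
    have h2 : ∫ v in a..b, g v = ∫ v in a..b, (w v * ψ v - c * w v) := by
      refine intervalIntegral.integral_congr fun v _ => ?_
      simp only [hg]
      ring
    rw [h2, intervalIntegral.integral_sub h1 ((hwi a b).const_mul c),
      intervalIntegral.integral_const_mul]
  have hwpos : ∀ a b, a < b → 0 < ∫ v in a..b, w v := fun a b hab =>
    intervalIntegral.intervalIntegral_pos_of_pos (hwi a b) hw0 hab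
  -- from a point below `c` the primitive goes down
  have hdown : ∀ a, 0 < a → ψ a < c → ∀ b, a < b → ∫ v in a..b, g v < 0 := by
    intro a ha hac b hab
    rw [hval a b ha hab.le]
    have h1 := havg a b ha hab.le
    have h2 := hwpos a b hab
    nlinarith
  set h : ℝ → ℝ := fun x => ∫ v in s..x, g v with hh
  have hadd : ∀ a b, s ≤ a → a ≤ b → h b = h a + ∫ v in a..b, g v := by
    intro a b ha hab
    simp only [hh]
    rw [intervalIntegral.integral_add_adjacent_intervals (hgi s a hs ha)
      (hgi a b (hs.trans_le ha) hab)]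
  set A : Set ℝ := {x | x ∈ Icc s t ∧ ψ x < c} with hA
  have hAne : A.Nonempty := ⟨s, ⟨left_mem_Icc.2 hst, hc1⟩⟩
  have hAbd : BddAbove A := ⟨t, fun x hx => hx.1.2⟩
  set σ := sSup A with hσ
  have hσs : s ≤ σ := le_csSup hAbd ⟨left_mem_Icc.2 hst, hc1⟩
  have hσt : σ ≤ t := csSup_le hAne fun x hx => hx.1.2
  obtain ⟨δ, hδ, hδ1⟩ := Metric.eventually_nhds_iff.1 (hlsc t (hs.trans hst') c hc2)
  have hσδ : σ ≤ t - δ := by
    refine csSup_le hAne fun x hx => ?_
    by_contra hlt
    push Not at hlt
    have h1 := hδ1 (y := x) (by rw [Real.dist_eq, abs_lt]; constructor <;> linarith [hx.1.2])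
    exact absurd hx.2 (not_lt.2 h1.le)
  have hup : ∀ x, σ < x → x ≤ t → c ≤ ψ x := by
    intro x hx hxt
    by_contra hlt
    push Not at hlt
    exact absurd (le_csSup hAbd ⟨⟨hσs.trans hx.le, hxt⟩, hlt⟩) (not_le.2 hx)
  -- the primitive is smaller at `σ` than at `t`
  have hσ0 : 0 < σ := hs.trans_le hσs
  have hlt : h σ < h t := by
    set x1 := t - δ / 2 with hx1
    have hx1t : x1 < t := by linarith
    have hσx1 : σ < x1 := by linarith
    have e1 := hadd σ x1 hσs hσx1.le
    have e2 := hadd x1 t (hσs.trans hσx1.le) hx1t.le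
    have e3 : 0 ≤ ∫ v in σ..x1, g v := by
      refine intervalIntegral.integral_nonneg_of_ae_restrict hσx1.le ?_
      have : ∀ᵐ v ∂(volume.restrict (Icc σ x1)), v ≠ σ := by
        refine ae_restrict_of_ae ?_
        rw [ae_iff]
        simp
      filter_upwards [this, ae_restrict_mem measurableSet_Icc] with v hv hv1
      have h1 : c ≤ ψ v := hup v (lt_of_le_of_ne hv1.1 (Ne.symm hv)) (hv1.2.trans hx1t.le)
      exact mul_nonneg (hw0 v).le (by linarith)
    have e4 : 0 < ∫ v in x1..t, g v := by
      refine intervalIntegral.intervalIntegral_pos_of_pos_on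
        (hgi x1 t (hσ0.trans hσx1) hx1t.le) (fun v hv => ?_) hx1t
      have h1 := hδ1 (y := v) (by rw [Real.dist_eq, abs_lt]; constructor <;> linarith [hv.1, hv.2])
      exact mul_pos (hw0 v) (by linarith)
    linarith
  -- continuity of the primitive
  have hcont : ContinuousOn h (Icc s t) := by
    have h1 : IntegrableOn g (uIcc s t) volume := by
      rw [uIcc_of_le hst, integrableOn_Icc_iff_integrableOn_Ioc]
      exact (intervalIntegrable_iff_integrableOn_Ioc_of_le hst).1 (hgi s t hs hst)
    have h2 := intervalIntegral.continuousOn_primitive_interval h1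
    rwa [uIcc_of_le hst] at h2
  have hnear := (hcont σ ⟨hσs, hσt⟩).eventually (gt_mem_nhds hlt)
  rw [eventually_nhdsWithin_iff, Metric.eventually_nhds_iff] at hnear
  obtain ⟨ε, hε, hε1⟩ := hnear
  obtain ⟨x, hxA, hx1⟩ := exists_lt_of_lt_csSup hAne (show σ - ε < sSup A by rw [← hσ]; linarith)
  have hxσ : x ≤ σ := le_csSup hAbd hxA
  have h1 : h x < h t := by
    refine hε1 (y := x) ?_ hxA.1
    rw [Real.dist_eq, abs_lt]
    constructor <;> linarith
  have hxt : x < t := by linarith
  have h2 := hdown x (hs.trans_le hxA.1.1) hxA.2 t hxt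
  have h3 := hadd x t hxA.1.1 hxt.le
  linarith

/-- If `u` is nondecreasing and `∫_a^b (u b - u v) dv ≤ c (b - a)² / 2` for all `[a, b] ⊆ [s, t]` and
`u` is continuous on `[s, t]`, then `u t - u s ≤ c (t - s)`. -/
theorem sub_le_of_area {u : ℝ → ℝ} {s t c : ℝ} (hst : s ≤ t) (hu : ContinuousOn u (Icc s t))
    (H : ∀ a b, s ≤ a → a ≤ b → b ≤ t → ∫ v in a..b, (u b - u v) ≤ c * (b - a) ^ 2 / 2) :
    u t - u s ≤ c * (t - s) := by
  set r : ℝ → ℝ := fun x => u x - c * x with hr
  have hrc : ContinuousOn r (Icc s t) := hu.sub (by fun_prop)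
  -- the average of `r` over `[a, b]` is at least `r b`
  have hkey : ∀ a b, s ≤ a → a < b → b ≤ t → ∃ x ∈ Ico a b, r b ≤ r x := by
    intro a b ha hab hb
    by_contra hcon
    push Not at hcon
    have hsub : Icc a b ⊆ Icc s t := Icc_subset_Icc ha hb
    have hui : IntervalIntegrable u volume a b :=
      (hu.mono hsub).intervalIntegrable_of_Icc hab.le
    have hri : IntervalIntegrable r volume a b :=
      (hrc.mono hsub).intervalIntegrable_of_Icc hab.le
    have h1 := H a b ha hab.le hb
    rw [intervalIntegral.integral_sub intervalIntegrable_const hui,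
      intervalIntegral.integral_const, smul_eq_mul] at h1
    have h2 : ∫ v in a..b, r v = (∫ v in a..b, u v) - c * ((b ^ 2 - a ^ 2) / 2) := by
      simp only [hr]
      rw [intervalIntegral.integral_sub hui (by
        exact (continuous_const.mul continuous_id).intervalIntegrable a b),
        intervalIntegral.integral_const_mul, integral_id]
    have h3 : (b - a) * r b ≤ ∫ v in a..b, r v := by
      rw [h2]
      simp only [hr]
      nlinarith
    have h4 : 0 < ∫ v in a..b, (r b - r v) := by
      refine intervalIntegral.intervalIntegral_pos_of_pos_on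
        (intervalIntegrable_const.sub hri) (fun v hv => ?_) hab
      have := hcon v ⟨hv.1.le, hv.2⟩
      linarith
    rw [intervalIntegral.integral_sub intervalIntegrable_const hri,
      intervalIntegral.integral_const, smul_eq_mul] at h4
    linarith
  have hgoal : r t ≤ r s := by
    set A : Set ℝ := {x | x ∈ Icc s t ∧ r t ≤ r x} with hA
    have hAc : IsClosed A := by
      have : A = Icc s t ∩ r ⁻¹' (Ici (r t)) := by
        ext x; simp [hA]
      rw [this]
      exact hrc.preimage_isClosed_of_isClosed isClosed_Icc isClosed_Ici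
    have hAk : IsCompact A := isCompact_Icc.of_isClosed_subset hAc fun x hx => hx.1
    have hAne : A.Nonempty := ⟨t, right_mem_Icc.2 hst, le_rfl⟩
    obtain ⟨σ, hσ, hmin⟩ := hAk.exists_isLeast hAne
    rcases hσ.1.1.lt_or_eq with h | h
    · obtain ⟨x, hx, hx1⟩ := hkey s σ le_rfl h hσ.1.2
      have : σ ≤ x := hmin ⟨⟨hx.1, hx.2.le.trans hσ.1.2⟩, hσ.2.trans hx1⟩
      exact absurd hx.2 (not_lt.2 this)
    · rw [h]; exact hσ.2
  simp only [hr] at hgoal
  linarith

/-- the logarithmic bound, real-variable part -/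
theorem log_bound_aux {u : ℝ → ℝ} {k : ℝ} (hk : 0 ≤ k)
    (hmono : ∀ s t, 0 < s → s ≤ t → u s ≤ u t)
    (H : ∀ s t, 0 < s → s ≤ t → ∫ v in s..t, (u t - u v) ≤ Real.exp (2 * k * t) * (√t - √s) ^ 2)
    {s t : ℝ} (hs : 0 < s) (hst : s ≤ t) :
    u t - u s ≤ 1 / 2 * Real.log (t / s) + k * Real.exp (2 * k * t) * (t - s) := by
  have hsq : ∀ a b : ℝ, 0 < a → a ≤ b → (√b - √a) ^ 2 ≤ (b - a) ^ 2 / (4 * a) := by
    intro a b ha hab
    have h1 : 0 < √a := Real.sqrt_pos.2 ha
    have h2 : √a ≤ √b := Real.sqrt_le_sqrt hab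
    have h3 : √a ^ 2 = a := Real.sq_sqrt ha.le
    have h4 : √b ^ 2 = b := Real.sq_sqrt (ha.le.trans hab)
    rw [le_div_iff₀ (by positivity)]
    have h5 : (b - a) ^ 2 = (√b - √a) ^ 2 * (√b + √a) ^ 2 := by
      rw [← h3, ← h4]
      simp only [Real.sqrt_sq h1.le, Real.sqrt_sq (h1.le.trans h2)]
      ring
    rw [h5]
    refine mul_le_mul_of_nonneg_left ?_ (sq_nonneg _)
    nlinarith
  -- monotone functions are integrable
  have hui : ∀ a b, 0 < a → a ≤ b → IntervalIntegrable u volume a b := by
    intro a b ha hab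
    have h1 : MonotoneOn u (uIcc a b) := by
      rw [uIcc_of_le hab]
      exact fun x hx y hy hxy => hmono x y (ha.trans_le hx.1) hxy
    exact h1.intervalIntegrable
  -- crude Lipschitz bound
  have hlip : ∀ a b, 0 < a → a ≤ b → b ≤ 3 / 2 * a →
      u b - u a ≤ 4 * Real.exp (2 * k * b) / a * (b - a) := by
    intro a b ha hab hba
    rcases hab.lt_or_eq with hab' | hab'
    swap
    · rw [hab']; simp
    set a' := 2 * a - b with ha'
    have ha'0 : a / 2 ≤ a' := by linarith
    have ha'a : a' < a := by linarith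
    have h1 := H a' b (by linarith) (by linarith)
    have h2 := hsq a' b (by linarith) (by linarith)
    have h3 : (b - a) * (u b - u a) ≤ ∫ v in a'..b, (u b - u v) := by
      have hi : ∀ x y, 0 < x → x ≤ y → IntervalIntegrable (fun v => u b - u v) volume x y :=
        fun x y hx hxy => intervalIntegrable_const.sub (hui x y hx hxy)
      rw [← intervalIntegral.integral_add_adjacent_intervals (hi a' a (by linarith) ha'a.le)
        (hi a b ha hab)]
      have e1 : (b - a) * (u b - u a) ≤ ∫ v in a'..a, (u b - u v) := by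
        have : ∫ _v in a'..a, (u b - u a) ≤ ∫ v in a'..a, (u b - u v) := by
          refine intervalIntegral.integral_mono_on ha'a.le intervalIntegrable_const
            (hi a' a (by linarith) ha'a.le) fun v hv => ?_
          have := hmono v a (by linarith [hv.1]) hv.2
          linarith
        rw [intervalIntegral.integral_const, smul_eq_mul] at this
        have e2 : a - a' = b - a := by rw [ha']; ring
        rwa [e2] at this
      have e3 : 0 ≤ ∫ v in a..b, (u b - u v) := by
        refine intervalIntegral.integral_nonneg hab fun v hv => ?_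
        have := hmono v b (ha.trans_le hv.1) hv.2
        linarith
      linarith
    have h4 : (b - a') ^ 2 / (4 * a') ≤ (2 * (b - a)) ^ 2 / (2 * a) := by
      have e1 : b - a' = 2 * (b - a) := by rw [ha']; ring
      rw [e1]
      exact div_le_div_of_nonneg_left (by positivity) (by positivity) (by linarith)
    have h5 : (b - a) * (u b - u a) ≤
        Real.exp (2 * k * b) * ((2 * (b - a)) ^ 2 / (2 * a)) := by
      refine h3.trans (h1.trans ?_)
      exact mul_le_mul_of_nonneg_left (h2.trans h4) (Real.exp_pos _).le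
    have h6 : 0 < b - a := by linarith
    have h7 : Real.exp (2 * k * b) * ((2 * (b - a)) ^ 2 / (2 * a)) =
        (b - a) * (2 * Real.exp (2 * k * b) / a * (b - a)) := by
      field_simp
    rw [h7] at h5
    have h8 := le_of_mul_le_mul_left h5 h6
    refine h8.trans ?_
    have h9 : 0 ≤ Real.exp (2 * k * b) / a * (b - a) := by positivity
    have e5 : 2 * Real.exp (2 * k * b) / a * (b - a) =
      2 * (Real.exp (2 * k * b) / a * (b - a)) := by ring
    have e6 : 4 * Real.exp (2 * k * b) / a * (b - a) =
      4 * (Real.exp (2 * k * b) / a * (b - a)) := by ring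
    rw [e5, e6]
    linarith
  -- continuity
  have hcont : ∀ x, 0 < x → ContinuousAt u x := by
    intro x hx
    rw [Metric.continuousAt_iff]
    intro ε hε
    set C := 4 * Real.exp (2 * k * (2 * x)) / (x / 2) + 1 with hC
    have hC0 : 0 < C := by positivity
    refine ⟨min (x / 4) (ε / C), by positivity, fun {y} hy => ?_⟩
    rw [Real.dist_eq] at hy ⊢
    have hy1 : |y - x| < x / 4 := lt_of_lt_of_le hy (min_le_left _ _)
    have hy2 : |y - x| < ε / C := lt_of_lt_of_le hy (min_le_right _ _)
    rw [abs_lt] at hy1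
    have hbd : ∀ a b, x / 2 ≤ a → a ≤ b → b ≤ 2 * x → b ≤ 3 / 2 * a → |u b - u a| ≤ C * |b - a| := by
      intro a b ha hab hb hba
      have ha0 : 0 < a := by linarith
      rw [abs_of_nonneg (by linarith [hmono a b ha0 hab]), abs_of_nonneg (by linarith)]
      refine (hlip a b ha0 hab hba).trans ?_
      refine mul_le_mul_of_nonneg_right ?_ (by linarith)
      have e1 : 4 * Real.exp (2 * k * b) / a ≤ 4 * Real.exp (2 * k * (2 * x)) / (x / 2) := by
        refine div_le_div₀ (by positivity) ?_ (by positivity) ha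
        have : 2 * k * b ≤ 2 * k * (2 * x) := mul_le_mul_of_nonneg_left hb (by positivity)
        have := Real.exp_le_exp.2 this
        linarith
      linarith
    have hfin : |u y - u x| ≤ C * |y - x| := by
      rcases le_total x y with hxy | hxy
      · exact hbd x y (by linarith) hxy (by linarith) (by linarith)
      · rw [abs_sub_comm (u y), abs_sub_comm y]
        exact hbd y x (by linarith) hxy (by linarith) (by linarith)
    refine lt_of_le_of_lt hfin ?_
    rw [lt_div_iff₀ hC0] at hy2
    linarith
  -- the sharp local bound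
  have hloc : ∀ a b, 0 < a → a ≤ b → u b - u a ≤ Real.exp (2 * k * b) / (2 * a) * (b - a) := by
    intro a b ha hab
    refine sub_le_of_area hab
      (fun x hx => (hcont x (ha.trans_le hx.1)).continuousWithinAt) fun x y hx hxy hy => ?_
    refine (H x y (by linarith) hxy).trans ?_
    have h1 := hsq x y (by linarith) hxy
    have h2 : (y - x) ^ 2 / (4 * x) ≤ (y - x) ^ 2 / (4 * a) :=
      div_le_div_of_nonneg_left (by positivity) (by positivity) (by linarith)
    have h3 : Real.exp (2 * k * y) ≤ Real.exp (2 * k * b) :=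
      Real.exp_le_exp.2 (mul_le_mul_of_nonneg_left hy (by positivity))
    calc Real.exp (2 * k * y) * (√y - √x) ^ 2
        ≤ Real.exp (2 * k * b) * ((y - x) ^ 2 / (4 * a)) :=
          mul_le_mul h3 (h1.trans h2) (sq_nonneg _) (Real.exp_pos _).le
      _ = _ := by field_simp; ring
  -- comparison
  set B : ℝ → ℝ := fun x => u s + (1 / 2 * (Real.log x - Real.log s) +
    k * Real.exp (2 * k * t) * (x - s)) with hB
  have hBd : ∀ x, 0 < x → HasDerivAt B (1 / 2 * x⁻¹ + k * Real.exp (2 * k * t)) x := by
    intro x hx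
    have h1 : HasDerivAt (fun x => 1 / 2 * (Real.log x - Real.log s)) (1 / 2 * x⁻¹) x :=
      ((Real.hasDerivAt_log hx.ne').sub_const _).const_mul _
    have h2 : HasDerivAt (fun x : ℝ => k * Real.exp (2 * k * t) * (x - s))
        (k * Real.exp (2 * k * t)) x := by
      simpa using ((hasDerivAt_id x).sub_const s).const_mul (k * Real.exp (2 * k * t))
    exact (h1.add h2).const_add _
  have hmain := image_le_of_liminf_slope_right_le_deriv_boundary (f := u) (a := s) (b := t)
    (B := B) (B' := fun x => 1 / 2 * x⁻¹ + k * Real.exp (2 * k * t))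
    (fun x hx => (hcont x (hs.trans_le hx.1)).continuousWithinAt) (by simp [hB])
    (fun x hx => (hBd x (hs.trans_le hx.1)).continuousAt.continuousWithinAt)
    (fun x hx => (hBd x (hs.trans_le hx.1)).hasDerivWithinAt) ?_ (right_mem_Icc.2 hst)
  · simp only [hB] at hmain
    rw [Real.log_div (hs.trans_le hst).ne' hs.ne']
    linarith
  · intro x hx r hr
    have hx0 : 0 < x := hs.trans_le hx.1
    refine Eventually.frequently ?_
    -- the slope is at most `exp (2 k z) / (2 x)`
    have hlim : Tendsto (fun z : ℝ => Real.exp (2 * k * z) / (2 * x)) (𝓝[>] x)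
        (𝓝 (Real.exp (2 * k * x) / (2 * x))) := by
      have : Continuous fun z : ℝ => Real.exp (2 * k * z) / (2 * x) := by fun_prop
      exact (this.tendsto x).mono_left nhdsWithin_le_nhds
    have hlt : Real.exp (2 * k * x) / (2 * x) < r := by
      refine lt_of_le_of_lt ?_ hr
      have e1 : Real.exp (2 * k * x) - 1 ≤ 2 * k * x * Real.exp (2 * k * x) := by
        have h1 := Real.add_one_le_exp (-(2 * k * x))
        have h2 : Real.exp (2 * k * x) * Real.exp (-(2 * k * x)) = 1 := by
          rw [← Real.exp_add]; simp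
        have h3 := mul_le_mul_of_nonneg_left h1 (Real.exp_pos (2 * k * x)).le
        nlinarith
      have e2 : Real.exp (2 * k * x) ≤ Real.exp (2 * k * t) :=
        Real.exp_le_exp.2 (mul_le_mul_of_nonneg_left hx.2.le (by positivity))
      rw [div_le_iff₀ (by positivity)]
      have e3 : (1 / 2 * x⁻¹ + k * Real.exp (2 * k * t)) * (2 * x) =
          1 + 2 * k * x * Real.exp (2 * k * t) := by
        field_simp
      rw [e3]
      have e4 : 2 * k * x * Real.exp (2 * k * x) ≤ 2 * k * x * Real.exp (2 * k * t) :=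
        mul_le_mul_of_nonneg_left e2 (by positivity)
      linarith
    filter_upwards [hlim.eventually (gt_mem_nhds hlt), self_mem_nhdsWithin] with z hz hz1
    have hz2 : x < z := hz1
    rw [slope_def_field, div_lt_iff₀ (by linarith)]
    have h1 := hloc x z hx0 hz2.le
    have h2 : 0 < z - x := by linarith
    nlinarith

/-! ### EVI flows -/

section
variable {X : Type u} [MetricSpace X] [MeasurableSpace X] [BorelSpace X] [ProperSpace X]
  {K : ℝ} {N : ℕ} {m : Measure X} {μ : ℝ → Measure X}

/-- The entropy power is nondecreasing along the flow (`husc`: it is upper semicontinuous). -/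
theorem IsEVIFlow.UN_mono' (hN : 0 < N) (h : IsEVIFlow K N m μ)
    (husc : ∀ t, 0 < t → ∀ c, UN N m (μ t) < c → ∀ᶠ v in 𝓝 t, UN N m (μ v) < c) {s t : ℝ}
    (hs : 0 < s) (hst : s ≤ t) : UN N m (μ s) ≤ UN N m (μ t) := by
  have hN' : (0 : ℝ) < N := Nat.cast_pos.2 hN
  have hcont : Continuous fun v : ℝ => Real.exp (K * v) := by fun_prop
  have key : (UN N m (μ t))⁻¹ ≤ (UN N m (μ s))⁻¹ := by
    refine anti_of_avg_le (w := fun v => Real.exp (K * v)) (ψ := fun v => (UN N m (μ v))⁻¹) hcont
      (fun v => Real.exp_pos _) h.int ?_ ?_ hs hst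
    · intro a b ha hab
      have h1 := h.evi (μ a) (h.p2 a ha.le) (h.dom a ha) a b ha hab
      rw [W2_self, zero_div, sK_zero_right] at h1
      have h2 : 0 ≤ Real.exp (K * b) * sK (K / N) (W2 (μ b) (μ a) / 2) ^ 2 := by positivity
      have h3 : 0 ≤ (N : ℝ) / 2 *
          ∫ v in a..b, Real.exp (K * v) * (1 - UN N m (μ a) / UN N m (μ v)) := by
        linarith
      have h4 : 0 ≤ ∫ v in a..b, Real.exp (K * v) * (1 - UN N m (μ a) / UN N m (μ v)) :=
        nonneg_of_mul_nonneg_right h3 (by positivity)
      have hi : IntervalIntegrable (fun v => Real.exp (K * v) * (UN N m (μ v))⁻¹) volume a b :=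
        (h.int a b ha hab).continuousOn_mul hcont.continuousOn
      have h5 : ∫ v in a..b, Real.exp (K * v) * (1 - UN N m (μ a) / UN N m (μ v)) =
          (∫ v in a..b, Real.exp (K * v)) -
            UN N m (μ a) * ∫ v in a..b, Real.exp (K * v) * (UN N m (μ v))⁻¹ := by
        rw [← intervalIntegral.integral_const_mul,
          ← intervalIntegral.integral_sub (hcont.intervalIntegrable a b) (hi.const_mul _)]
        refine intervalIntegral.integral_congr fun v _ => ?_
        simp only [div_eq_mul_inv]
        ring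
      rw [h5] at h4
      rw [inv_mul_eq_div, le_div_iff₀ (h.dom a ha)]
      linarith
    · intro a ha c hc
      rcases le_or_gt c 0 with hc0 | hc0
      · filter_upwards [Ioi_mem_nhds ha] with v hv
        exact lt_of_le_of_lt hc0 (inv_pos.2 (h.dom v hv))
      · have h1 : UN N m (μ a) < c⁻¹ := by
          rwa [lt_inv_comm₀ hc0 (h.dom a ha)] at hc
        filter_upwards [husc a ha _ h1, Ioi_mem_nhds ha] with v hv hv0
        rwa [lt_inv_comm₀ hc0 (h.dom v hv0)]
  exact (inv_le_inv₀ (h.dom t (hs.trans_le hst)) (h.dom s hs)).1 key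

/-- The logarithmic bound `U(μ_t) / U(μ_s) ≤ (t / s)^(1/2) (1 + o(1))`, i.e.
`Ent(μ_s) - Ent(μ_t) ≤ (N/2) log (t/s) + ...`. -/
theorem IsEVIFlow.log_UN_le' (hK : K ≤ 0) (hN : 0 < N) (h : IsEVIFlow K N m μ)
    (hmono : ∀ s t, 0 < s → s ≤ t → UN N m (μ s) ≤ UN N m (μ t))
    (hsp : ∀ s t, 0 < s → s ≤ t → sK (K / N) (W2 (μ s) (μ t) / 2) ^ 2 ≤
      Real.exp (-K * (s + t)) * (N / 2 * (√t - √s) ^ 2)) {s t : ℝ} (hs : 0 < s) (hst : s ≤ t) :
    Real.log (UN N m (μ t)) - Real.log (UN N m (μ s)) ≤
      1 / 2 * Real.log (t / s) + (-K) * Real.exp (2 * (-K) * t) * (t - s) := by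
  have hN' : (0 : ℝ) < N := Nat.cast_pos.2 hN
  have hcont : Continuous fun v : ℝ => Real.exp (K * v) := by fun_prop
  refine log_bound_aux (u := fun v => Real.log (UN N m (μ v))) (k := -K) (by linarith) ?_ ?_ hs hst
  · intro a b ha hab
    exact Real.log_le_log (h.dom a ha) (hmono a b ha hab)
  · intro a b ha hab
    have hb : 0 < b := ha.trans_le hab
    have h1 := h.evi (μ b) (h.p2 b hb.le) (h.dom b hb) a b ha hab
    rw [W2_self, zero_div, sK_zero_right] at h1
    have h2 := hsp a b ha hab
    set I := ∫ v in a..b, Real.exp (K * v) * (1 - UN N m (μ b) / UN N m (μ v)) with hI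
    have h3 : N / 2 * (-I) ≤ Real.exp (-K * b) * (N / 2 * (√b - √a) ^ 2) := by
      have e1 : Real.exp (K * a) * sK (K / N) (W2 (μ a) (μ b) / 2) ^ 2 ≤
          Real.exp (K * a) * (Real.exp (-K * (a + b)) * (N / 2 * (√b - √a) ^ 2)) :=
        mul_le_mul_of_nonneg_left h2 (Real.exp_pos _).le
      have e2 : Real.exp (K * a) * (Real.exp (-K * (a + b)) * (N / 2 * (√b - √a) ^ 2)) =
          Real.exp (-K * b) * (N / 2 * (√b - √a) ^ 2) := by
        rw [← mul_assoc, ← Real.exp_add]
        congr 2
        ring
      rw [e2] at e1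
      have e3 : Real.exp (K * b) * (0 : ℝ) ^ 2 = 0 := by ring
      linarith
    have h4 : -I ≤ Real.exp (-K * b) * (√b - √a) ^ 2 := by
      have e1 : Real.exp (-K * b) * (N / 2 * (√b - √a) ^ 2) =
          N / 2 * (Real.exp (-K * b) * (√b - √a) ^ 2) := by ring
      rw [e1] at h3
      exact le_of_mul_le_mul_left h3 (by positivity)
    have hiU : IntervalIntegrable (fun v => (UN N m (μ v))⁻¹) volume a b := h.int a b ha hab
    have hi2 : IntervalIntegrable (fun v => UN N m (μ b) / UN N m (μ v) - 1) volume a b := by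
      have : (fun v => UN N m (μ b) / UN N m (μ v) - 1) =
          fun v => UN N m (μ b) * (UN N m (μ v))⁻¹ - 1 := by
        funext v; rw [div_eq_mul_inv]
      rw [this]
      exact (hiU.const_mul _).sub intervalIntegrable_const
    have hlogi : IntervalIntegrable (fun v => Real.log (UN N m (μ v))) volume a b := by
      have h5 : MonotoneOn (fun v => Real.log (UN N m (μ v))) (uIcc a b) := by
        rw [uIcc_of_le hab]
        exact fun x hx y hy hxy => Real.log_le_log (h.dom x (ha.trans_le hx.1))
          (hmono x y (ha.trans_le hx.1) hxy)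
      exact h5.intervalIntegrable
    have h6 : ∫ v in a..b, (Real.log (UN N m (μ b)) - Real.log (UN N m (μ v))) ≤
        ∫ v in a..b, (UN N m (μ b) / UN N m (μ v) - 1) := by
      refine intervalIntegral.integral_mono_on hab (intervalIntegrable_const.sub hlogi) hi2
        fun v hv => ?_
      have hv0 := h.dom v (ha.trans_le hv.1)
      have := Real.log_le_sub_one_of_pos (div_pos (h.dom b hb) hv0)
      rwa [Real.log_div (h.dom b hb).ne' hv0.ne'] at this
    have h7 : Real.exp (K * b) * ∫ v in a..b, (UN N m (μ b) / UN N m (μ v) - 1) ≤ -I := by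
      rw [hI, ← intervalIntegral.integral_const_mul, ← intervalIntegral.integral_neg]
      refine intervalIntegral.integral_mono_on hab (hi2.const_mul _) ?_ fun v hv => ?_
      · have e1 : (fun v => -(Real.exp (K * v) * (1 - UN N m (μ b) / UN N m (μ v)))) =
            fun v => Real.exp (K * v) * (UN N m (μ b) / UN N m (μ v) - 1) := by
          funext v; ring
        rw [e1]
        exact hi2.continuousOn_mul hcont.continuousOn
      · have hv0 := h.dom v (ha.trans_le hv.1)
        have e1 : 0 ≤ UN N m (μ b) / UN N m (μ v) - 1 := by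
          rw [sub_nonneg, one_le_div hv0]
          exact hmono v b (ha.trans_le hv.1) hv.2
        have e2 : Real.exp (K * b) ≤ Real.exp (K * v) :=
          Real.exp_le_exp.2 (mul_le_mul_of_nonpos_left hv.2 hK)
        nlinarith
    have h8 : Real.exp (2 * (-K) * b) = Real.exp (-K * b) * Real.exp (-K * b) := by
      rw [← Real.exp_add]
      congr 1
      ring
    have h9 : Real.exp (-K * b) * Real.exp (K * b) = 1 := by
      rw [← Real.exp_add]; simp
    have h10 := mul_le_mul_of_nonneg_left (h7.trans h4) (Real.exp_pos (-K * b)).le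
    rw [← mul_assoc, h9, one_mul, ← mul_assoc, ← h8] at h10
    exact h6.trans h10

end

end Pool.Agent.BDRY
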