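import Pool.Agent.Work.MP_209cb6_gt.B2.UscU
import Pool.Agent.Work.MP_209cb6_gt.B2.MonoU

/-!
# BDRY2, M1: the entropy power is nondecreasing along the EVI flow
-/

set_option autoImplicit false

open MeasureTheory MeasureTheory.Measure Metric Set Filter Topology
open scoped ENNReal NNReal

namespace Pool.Agent.BDRY

universe u

/-- The entropy power is nondecreasing along an EVI flow. -/
theorem IsEVIFlow.UN_mono {X : Type u} [MetricSpace X] [ProperSpace X] [MeasurableSpace X]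
    [BorelSpace X] {K : ℝ} {N : ℕ} {m : Measure X} {μ : ℝ → Measure X} (hN : 0 < N)
    (hfin : ∀ (x : X) (r : ℝ), m (closedBall x r) < ∞)
    (hexp : ∃ (x : X) (c : ℝ), 0 < c ∧ ∫⁻ y, ENNReal.ofReal (Real.exp (-c * dist x y ^ 2)) ∂m < ∞)
    (h : IsEVIFlow K N m μ) {s t : ℝ} (hs : 0 < s) (hst : s ≤ t) :
    UN N m (μ s) ≤ UN N m (μ t) :=
  h.UN_mono' hN (fun _ ht _ hc => h.UN_usc hN hfin hexp ht hc) hs hst

end Pool.Agent.BDRY
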