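import Pool.Agent.Work.MP_209cb6_gt.Evi
import Pool.Agent.Work.MP_209cb6_gt.B2.UscMono

/-!
# BDRY2, M9 (first part): the flux of the distance function along the heat flow
-/

set_option autoImplicit false

open MeasureTheory MeasureTheory.Measure Metric Set Filter Topology
open scoped ENNReal NNReal

namespace Pool.Agent.BDRY

universe u

/-! ### EVI from time zero, full integral -/

section evi
variable {X : Type u} [MetricSpace X] [MeasurableSpace X] [BorelSpace X] [ProperSpace X]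
  {K : ℝ} {N : ℕ} {m : Measure X} {μ : ℝ → Measure X}

theorem IsEVIFlow.int_split (h : IsEVIFlow K N m μ) (σ : Measure X) {s τ : ℝ} (hs : 0 < s)
    (hsτ : s ≤ τ) :
    ∫ v in s..τ, Real.exp (K * v) * (1 - UN N m σ / UN N m (μ v)) =
      (∫ v in s..τ, Real.exp (K * v)) -
        UN N m σ * ∫ v in s..τ, Real.exp (K * v) * (UN N m (μ v))⁻¹ := by
  have hcont : Continuous fun v : ℝ => Real.exp (K * v) := by fun_prop
  have hi : IntervalIntegrable (fun v => Real.exp (K * v) * (UN N m (μ v))⁻¹) volume s τ :=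
    (h.int s τ hs hsτ).continuousOn_mul hcont.continuousOn
  rw [← intervalIntegral.integral_const_mul,
    ← intervalIntegral.integral_sub (hcont.intervalIntegrable s τ) (hi.const_mul _)]
  refine intervalIntegral.integral_congr fun v _ => ?_
  simp only [div_eq_mul_inv]
  ring

/-- `exp(K v) / UN (μ v)` is integrable up to time `0` -/
theorem IsEVIFlow.integrableOn_exp (hK : K ≤ 0) (hN : 0 < N) (h : IsEVIFlow K N m μ)
    {σ : Measure X} (hσ : IsP2 σ) (hσ0 : 0 < UN N m σ) {τ : ℝ} (hτ : 0 < τ) :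
    IntegrableOn (fun v => Real.exp (K * v) * (UN N m (μ v))⁻¹) (Ioc 0 τ) := by
  have hN' : (0 : ℝ) < N := Nat.cast_pos.2 hN
  have hκ : K / N ≤ 0 := div_nonpos_of_nonpos_of_nonneg hK hN'.le
  have hcont : Continuous fun v : ℝ => Real.exp (K * v) := by fun_prop
  -- the times `τ / (k + 1)`
  set a : ℕ → ℝ := fun k => τ / ((k : ℝ) + 1) with ha
  have ha0 : ∀ k, 0 < a k := fun k => by
    simp only [ha]
    positivity
  have ha1 : ∀ k, a k ≤ τ := fun k => by
    have hk : (0 : ℝ) ≤ k := Nat.cast_nonneg k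
    simp only [ha]
    exact div_le_self hτ.le (by linarith)
  have hlim : Tendsto a atTop (𝓝 0) := by
    have h1 := (tendsto_one_div_add_atTop_nhds_zero_nat (𝕜 := ℝ)).const_mul τ
    rw [mul_zero] at h1
    refine h1.congr fun k => ?_
    simp only [ha]
    ring
  have hint : ∀ k, IntervalIntegrable (fun v => Real.exp (K * v) * (UN N m (μ v))⁻¹) volume
      (a k) τ := fun k => (h.int (a k) τ (ha0 k) (ha1 k)).continuousOn_mul hcont.continuousOn
  have hfi : ∀ k, IntegrableOn (fun v => Real.exp (K * v) * (UN N m (μ v))⁻¹) (Ioc (a k) τ) :=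
    fun k => (intervalIntegrable_iff_integrableOn_Ioc_of_le (ha1 k)).1 (hint k)
  -- the observer stays at bounded distance
  have hW : Tendsto (fun k => sK (K / N) (W2 (μ (a k)) σ / 2) ^ 2) atTop
      (𝓝 (sK (K / N) (W2 (μ 0) σ / 2) ^ 2)) := by
    have h4 : Continuous fun w : ℝ => sK (K / N) (w / 2) ^ 2 :=
      ((sK_cont hκ).comp (continuous_id.div_const 2)).pow 2
    have h5 : Tendsto a atTop (𝓝[>] 0) :=
      tendsto_nhdsWithin_iff.2 ⟨hlim, Eventually.of_forall ha0⟩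
    exact (h4.tendsto _).comp ((h.tendsto_W2 hσ).comp h5)
  set C : ℝ := sK (K / N) (W2 (μ 0) σ / 2) ^ 2 + 1 with hC
  have hWC : ∀ᶠ k in atTop, sK (K / N) (W2 (μ (a k)) σ / 2) ^ 2 < C :=
    hW.eventually (gt_mem_nhds (by linarith))
  refine integrableOn_Ioc_of_intervalIntegral_norm_bounded_left
    (I := (N / 2 * τ + C) / (N / 2 * UN N m σ)) hfi hlim ?_
  filter_upwards [hWC] with k hk
  have hnn : ∀ v ∈ Ioc (a k) τ, 0 ≤ Real.exp (K * v) * (UN N m (μ v))⁻¹ := by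
    intro v hv
    have := h.dom v ((ha0 k).trans hv.1)
    positivity
  have e1 : ∫ v in Ioc (a k) τ, ‖Real.exp (K * v) * (UN N m (μ v))⁻¹‖ =
      ∫ v in (a k)..τ, Real.exp (K * v) * (UN N m (μ v))⁻¹ := by
    rw [intervalIntegral.integral_of_le (ha1 k)]
    refine setIntegral_congr_fun measurableSet_Ioc fun v hv => ?_
    exact Real.norm_of_nonneg (hnn v hv)
  rw [e1, le_div_iff₀ (by positivity)]
  have h1 := h.evi σ hσ hσ0 (a k) τ (ha0 k) (ha1 k)
  rw [h.int_split σ (ha0 k) (ha1 k)] at h1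
  have h2 : ∫ v in (a k)..τ, Real.exp (K * v) ≤ τ := by
    have h3 : ∫ v in (a k)..τ, Real.exp (K * v) ≤ ∫ _ in (a k)..τ, (1 : ℝ) := by
      refine intervalIntegral.integral_mono_on (ha1 k) (hcont.intervalIntegrable _ _)
        intervalIntegrable_const fun v hv => ?_
      have : 0 ≤ v := (ha0 k).le.trans hv.1
      exact Real.exp_le_one_iff.2 (mul_nonpos_of_nonpos_of_nonneg hK this)
    rw [intervalIntegral.integral_const, smul_eq_mul, mul_one] at h3
    linarith [ha0 k]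
  have h4 : Real.exp (K * a k) * sK (K / N) (W2 (μ (a k)) σ / 2) ^ 2 ≤ C := by
    have h5 : Real.exp (K * a k) ≤ 1 :=
      Real.exp_le_one_iff.2 (mul_nonpos_of_nonpos_of_nonneg hK (ha0 k).le)
    have h6 : 0 ≤ sK (K / N) (W2 (μ (a k)) σ / 2) ^ 2 := sq_nonneg _
    nlinarith
  have h7 : 0 ≤ Real.exp (K * τ) * sK (K / N) (W2 (μ τ) σ / 2) ^ 2 := by positivity
  have h8 : (N : ℝ) / 2 * ∫ v in (a k)..τ, Real.exp (K * v) ≤ N / 2 * τ :=
    mul_le_mul_of_nonneg_left h2 (by positivity)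
  rw [mul_sub] at h1
  have e2 : (∫ v in (a k)..τ, Real.exp (K * v) * (UN N m (μ v))⁻¹) * (N / 2 * UN N m σ) =
      N / 2 * (UN N m σ * ∫ v in (a k)..τ, Real.exp (K * v) * (UN N m (μ v))⁻¹) := by ring
  rw [e2]
  linarith

/-- **EVI from time `0`** with the full integral of `1 / UN` -/
theorem IsEVIFlow.evi_full (hK : K ≤ 0) (hN : 0 < N) (h : IsEVIFlow K N m μ)
    {σ : Measure X} (hσ : IsP2 σ) (hσ0 : 0 < UN N m σ) {τ : ℝ} (hτ : 0 < τ) :
    Real.exp (K * τ) * sK (K / N) (W2 (μ τ) σ / 2) ^ 2 - sK (K / N) (W2 (μ 0) σ / 2) ^ 2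
      ≤ N / 2 * ((∫ v in (0 : ℝ)..τ, Real.exp (K * v)) -
        UN N m σ * ∫ v in (0 : ℝ)..τ, Real.exp (K * v) * (UN N m (μ v))⁻¹) := by
  have hN' : (0 : ℝ) < N := Nat.cast_pos.2 hN
  have hκ : K / N ≤ 0 := div_nonpos_of_nonpos_of_nonneg hK hN'.le
  have hcont : Continuous fun v : ℝ => Real.exp (K * v) := by fun_prop
  have hI := h.integrableOn_exp hK hN hσ hσ0 hτ
  have hIi : IntervalIntegrable (fun v => Real.exp (K * v) * (UN N m (μ v))⁻¹) volume 0 τ :=
    (intervalIntegrable_iff_integrableOn_Ioc_of_le hτ.le).2 hI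
  have hev : ∀ᶠ s in 𝓝[>] (0 : ℝ), Real.exp (K * τ) * sK (K / N) (W2 (μ τ) σ / 2) ^ 2 -
      Real.exp (K * s) * sK (K / N) (W2 (μ s) σ / 2) ^ 2 ≤
      N / 2 * ((∫ v in s..τ, Real.exp (K * v)) -
        UN N m σ * ∫ v in s..τ, Real.exp (K * v) * (UN N m (μ v))⁻¹) := by
    have hlt : ∀ᶠ s in 𝓝[>] (0 : ℝ), s < τ := nhdsWithin_le_nhds (Iio_mem_nhds hτ)
    filter_upwards [self_mem_nhdsWithin, hlt] with s hs hsτ
    rw [← h.int_split σ hs hsτ.le]
    exact h.evi σ hσ hσ0 s τ hs hsτ.le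
  have hlim1 : Tendsto (fun s => Real.exp (K * τ) * sK (K / N) (W2 (μ τ) σ / 2) ^ 2 -
      Real.exp (K * s) * sK (K / N) (W2 (μ s) σ / 2) ^ 2) (𝓝[>] 0)
      (𝓝 (Real.exp (K * τ) * sK (K / N) (W2 (μ τ) σ / 2) ^ 2 -
        sK (K / N) (W2 (μ 0) σ / 2) ^ 2)) := by
    have h1 : Tendsto (fun s : ℝ => Real.exp (K * s)) (𝓝[>] 0) (𝓝 1) := by
      have h2 : Tendsto (fun s : ℝ => Real.exp (K * s)) (𝓝[>] 0) (𝓝 (Real.exp (K * 0))) :=
        (hcont.tendsto 0).mono_left nhdsWithin_le_nhds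
      rwa [mul_zero, Real.exp_zero] at h2
    have h3 : Tendsto (fun s => sK (K / N) (W2 (μ s) σ / 2) ^ 2) (𝓝[>] 0)
        (𝓝 (sK (K / N) (W2 (μ 0) σ / 2) ^ 2)) := by
      have h4 : Continuous fun w : ℝ => sK (K / N) (w / 2) ^ 2 :=
        ((sK_cont hκ).comp (continuous_id.div_const 2)).pow 2
      exact (h4.tendsto _).comp (h.tendsto_W2 hσ)
    have h5 := (h1.mul h3).const_sub (Real.exp (K * τ) * sK (K / N) (W2 (μ τ) σ / 2) ^ 2)
    rwa [one_mul] at h5
  -- continuity of the primitives at `0`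
  have hprim : ∀ f : ℝ → ℝ, IntervalIntegrable f volume 0 τ →
      Tendsto (fun s => ∫ v in s..τ, f v) (𝓝[>] 0) (𝓝 (∫ v in (0 : ℝ)..τ, f v)) := by
    intro f hf
    have h1 : ContinuousOn (fun s => ∫ v in s..τ, f v) (uIcc 0 τ) := by
      have h2 := intervalIntegral.continuousOn_primitive_interval' hf (a := τ) right_mem_uIcc
      have h3 : (fun s => ∫ v in s..τ, f v) = fun s => -∫ v in τ..s, f v := by
        funext s
        rw [intervalIntegral.integral_symm]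
      rw [h3]
      exact h2.neg
    have h2 := h1 0 left_mem_uIcc
    rw [uIcc_of_le hτ.le] at h2
    refine h2.mono_left ?_
    rw [nhdsWithin_le_iff]
    have h3 : Iio τ ∈ 𝓝[>] (0 : ℝ) := nhdsWithin_le_nhds (Iio_mem_nhds hτ)
    filter_upwards [self_mem_nhdsWithin, h3] with s hs hs1
    exact ⟨le_of_lt hs, le_of_lt hs1⟩
  have hlim2 := (((hprim _ (hcont.intervalIntegrable 0 τ)).sub
    ((hprim _ hIi).const_mul (UN N m σ))).const_mul ((N : ℝ) / 2))
  exact le_of_tendsto_of_tendsto hlim1 hlim2 hev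

end evi

/-! ### Lipschitz functions and the Wasserstein distance -/

section lip
variable {X : Type u} [MetricSpace X] [MeasurableSpace X] [BorelSpace X] [ProperSpace X]

theorem IsP2.integrable_dist {μ : Measure X} (hμ : IsP2 μ) (x : X) :
    Integrable (fun y => dist y x) μ := by
  have := hμ.1
  refine Integrable.mono' ((integrable_const (1 : ℝ)).add (hμ.integrable_sq x))
    (by fun_prop) (ae_of_all _ fun y => ?_)
  rw [Real.norm_of_nonneg dist_nonneg, dist_comm y x]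
  simp only [Pi.add_apply]
  nlinarith [sq_nonneg (dist x y - 1)]

theorem IsP2.integrable_lip {μ : Measure X} (hμ : IsP2 μ) {φ : X → ℝ} (hφ : LipschitzWith 1 φ) :
    Integrable φ μ := by
  have := hμ.1
  rcases isEmpty_or_nonempty X with h | ⟨⟨x⟩⟩
  · exact Integrable.of_isEmpty
  · refine Integrable.mono' ((integrable_const |φ x|).add (hμ.integrable_dist x))
      hφ.continuous.aestronglyMeasurable (ae_of_all _ fun y => ?_)
    have h1 := hφ.dist_le_mul y x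
    rw [Real.dist_eq, NNReal.coe_one, one_mul] at h1
    rw [Real.norm_eq_abs]
    simp only [Pi.add_apply]
    have h2 := abs_sub_abs_le_abs_sub (φ y) (φ x)
    linarith

/-- a `1`-Lipschitz function -/
theorem abs_integral_sub_le_W2 {μ ν : Measure X} (hμ : IsP2 μ) (hν : IsP2 ν) {φ : X → ℝ}
    (hφ : LipschitzWith 1 φ) : |∫ x, φ x ∂μ - ∫ x, φ x ∂ν| ≤ W2 μ ν := by
  have hμp := hμ.1
  have key : ∀ ε : ℝ, 0 < ε → |∫ x, φ x ∂μ - ∫ x, φ x ∂ν| ≤ √(W2 μ ν ^ 2 + ε) := by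
    intro ε hε
    obtain ⟨π, h1, h2, h3, h4⟩ := exists_coupling hμ hν hε
    have hπ : IsProbabilityMeasure π := by
      refine ⟨?_⟩
      have : μ univ = 1 := measure_univ
      rwa [← h1, Measure.map_apply measurable_fst MeasurableSet.univ, preimage_univ] at this
    have hφm : Measurable φ := hφ.continuous.measurable
    have e1 : ∫ x, φ x ∂μ = ∫ z, φ z.1 ∂π := by
      rw [← h1, integral_map measurable_fst.aemeasurable hφm.aestronglyMeasurable]
    have e2 : ∫ x, φ x ∂ν = ∫ z, φ z.2 ∂π := by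
      rw [← h2, integral_map measurable_snd.aemeasurable hφm.aestronglyMeasurable]
    have i1 : Integrable (fun z : X × X => φ z.1) π := by
      have := hμ.integrable_lip hφ
      rw [← h1] at this
      exact (integrable_map_measure hφm.aestronglyMeasurable measurable_fst.aemeasurable).1 this
    have i2 : Integrable (fun z : X × X => φ z.2) π := by
      have := hν.integrable_lip hφ
      rw [← h2] at this
      exact (integrable_map_measure hφm.aestronglyMeasurable measurable_snd.aemeasurable).1 this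
    have i3 : Integrable (fun z : X × X => dist z.1 z.2 ^ 2) π := by
      refine ⟨by fun_prop, ?_⟩
      rw [hasFiniteIntegral_iff_ofReal (ae_of_all _ fun y => by positivity)]
      refine lt_of_le_of_lt (le_of_eq ?_) h3.lt_top
      refine lintegral_congr fun y => ?_
      rw [edist_dist, ENNReal.ofReal_pow dist_nonneg]
    set c : ℝ := √(W2 μ ν ^ 2 + ε) with hc
    have hc0 : 0 < c := Real.sqrt_pos.2 (by positivity)
    have hc2 : c ^ 2 = W2 μ ν ^ 2 + ε := Real.sq_sqrt (by positivity)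
    rw [e1, e2, ← integral_sub i1 i2]
    calc |∫ z, (φ z.1 - φ z.2) ∂π| ≤ ∫ z, |φ z.1 - φ z.2| ∂π := abs_integral_le_integral_abs
      _ ≤ ∫ z, (dist z.1 z.2 ^ 2 / (2 * c) + c / 2) ∂π := by
          refine integral_mono (i1.sub i2).abs ((i3.div_const _).add (integrable_const _))
            fun z => ?_
          have h5 := hφ.dist_le_mul z.1 z.2
          rw [Real.dist_eq, NNReal.coe_one, one_mul] at h5
          refine h5.trans ?_
          have h6 : dist z.1 z.2 ^ 2 / (2 * c) + c / 2 - dist z.1 z.2 =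
              (dist z.1 z.2 - c) ^ 2 / (2 * c) := by
            field_simp
            ring
          have h7 : 0 ≤ (dist z.1 z.2 - c) ^ 2 / (2 * c) := by positivity
          linarith
      _ = (∫ z, dist z.1 z.2 ^ 2 ∂π) / (2 * c) + c / 2 := by
          rw [integral_add (i3.div_const _) (integrable_const _), integral_div]
          simp
      _ ≤ c ^ 2 / (2 * c) + c / 2 := by
          gcongr
          linarith
      _ = c := by
          field_simp
          ring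
  have h1 : Tendsto (fun ε : ℝ => √(W2 μ ν ^ 2 + ε)) (𝓝[>] 0) (𝓝 (√(W2 μ ν ^ 2 + 0))) := by
    have : Continuous fun ε : ℝ => √(W2 μ ν ^ 2 + ε) := by fun_prop
    exact (this.tendsto 0).mono_left nhdsWithin_le_nhds
  rw [add_zero, Real.sqrt_sq (W2_nonneg _ _)] at h1
  refine ge_of_tendsto h1 ?_
  filter_upwards [self_mem_nhdsWithin] with ε hε
  exact key ε hε

end lip

/-! ### Second moments of the flow from a Dirac mass -/

theorem sK_add_ge {κ : ℝ} (hκ : κ ≤ 0) {b t : ℝ} (hb : 0 ≤ b) (ht : 0 ≤ t) :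
    sK κ b + t ≤ sK κ (b + t) := by
  rw [sK_eq_sQ hκ, sQ_add]
  have h1 := one_le_cQ (√(-κ)) t
  have h2 := one_le_cQ (√(-κ)) b
  have h3 := sQ_nonneg (q := √(-κ)) hb
  have h4 : t ≤ sQ (√(-κ)) t := by
    have := le_sK hκ ht
    rwa [sK_eq_sQ hκ] at this
  nlinarith [mul_nonneg h3 (sub_nonneg.2 h1), mul_nonneg (ht.trans h4) (sub_nonneg.2 h2)]

theorem sK_sq_sub {κ : ℝ} (hκ : κ ≤ 0) {a b : ℝ} (hb : 0 ≤ b) (hab : b ≤ a) :
    a ^ 2 - b ^ 2 ≤ sK κ a ^ 2 - sK κ b ^ 2 := by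
  have h1 := sK_add_ge hκ hb (sub_nonneg.2 hab)
  have e1 : b + (a - b) = a := by ring
  rw [e1] at h1
  have h2 := le_sK hκ hb
  have h3 := le_sK hκ (hb.trans hab)
  nlinarith

theorem one_sub_exp_le {x : ℝ} : 1 - Real.exp (-x) ≤ x := by
  have := Real.add_one_le_exp (-x)
  linarith

theorem exp_sub_one_le {x : ℝ} (_hx : 0 ≤ x) : Real.exp x - 1 ≤ x * Real.exp x := by
  have h1 := one_sub_exp_le (x := x)
  have h2 : Real.exp x * Real.exp (-x) = 1 := by rw [← Real.exp_add]; simp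
  have h3 := mul_le_mul_of_nonneg_left h1 (Real.exp_pos x).le
  nlinarith

section moment
variable {X : Type u} [MetricSpace X] [MeasurableSpace X] [BorelSpace X] [ProperSpace X]
  {K : ℝ} {N : ℕ} {m : Measure X} {μ : ℝ → Measure X}

theorem W2_dirac_dirac (y z : X) : W2 (dirac y) (dirac z) = dist y z := by
  have h1 := W2_dirac_sq (isP2_dirac y) z
  rw [integral_dirac] at h1
  exact (sq_eq_sq₀ (W2_nonneg _ _) dist_nonneg).1 h1

/-- the second moment of the flow from `δ_y`, with respect to any centre -/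
theorem IsEVIFlow.second_moment (hK : K ≤ 0) (hN : 0 < N)
    (hfin : ∀ (x : X) (r : ℝ), m (closedBall x r) < ∞)
    (hpos : ∀ (x : X) (r : ℝ), 0 < r → 0 < m (ball x r)) (h : IsEVIFlow K N m μ) {y : X}
    (h0 : μ 0 = dirac y) (z : X) {s : ℝ} (hs : 0 < s) :
    W2 (μ s) (dirac z) ^ 2 ≤ dist y z ^ 2 +
      4 * (Real.exp (-K * s) - 1) * sK (K / N) (dist y z / 2) ^ 2 +
      2 * N * Real.exp (-K * s) * s := by
  have hN' : (0 : ℝ) < N := Nat.cast_pos.2 hN
  have hκ : K / N ≤ 0 := div_nonpos_of_nonpos_of_nonneg hK hN'.le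
  have h1 := h.evi_disc hK hN hfin hpos (isDisc_dirac z) hs
  rw [h0, W2_dirac_dirac] at h1
  have h2 := exp_int_le hK hs.le
  set W := W2 (μ s) (dirac z) with hW
  set d := dist y z with hd
  have hW0 : 0 ≤ W := W2_nonneg _ _
  have hd0 : 0 ≤ d := dist_nonneg
  have h3 : Real.exp (-K * s) * Real.exp (K * s) = 1 := by
    rw [← Real.exp_add]
    simp
  have hE : 1 ≤ Real.exp (-K * s) := Real.one_le_exp (mul_nonneg (by linarith) hs.le)
  have h4 : sK (K / N) (W / 2) ^ 2 ≤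
      Real.exp (-K * s) * (sK (K / N) (d / 2) ^ 2 + N / 2 * s) := by
    have h5 : Real.exp (K * s) * sK (K / N) (W / 2) ^ 2 ≤ sK (K / N) (d / 2) ^ 2 + N / 2 * s := by
      have h6 := mul_le_mul_of_nonneg_left h2 (show 0 ≤ (N : ℝ) / 2 by positivity)
      linarith
    have h7 := mul_le_mul_of_nonneg_left h5 (Real.exp_pos (-K * s)).le
    rwa [← mul_assoc, h3, one_mul] at h7
  have hS : 0 ≤ sK (K / N) (d / 2) ^ 2 := sq_nonneg _
  rcases le_total W d with hWd | hWd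
  · have h5 : W ^ 2 ≤ d ^ 2 := pow_le_pow_left₀ hW0 hWd 2
    have h6 : 0 ≤ 4 * (Real.exp (-K * s) - 1) * sK (K / N) (d / 2) ^ 2 :=
      mul_nonneg (by linarith) hS
    have h7 : 0 ≤ 2 * N * Real.exp (-K * s) * s := by positivity
    linarith
  · have h5 := sK_sq_sub hκ (a := W / 2) (b := d / 2) (by positivity) (by linarith)
    nlinarith

/-- the coarse constant of the second moment -/
noncomputable def N1 (K : ℝ) (N : ℕ) (D : ℝ) : ℝ :=
  Real.exp (-K) * (N + 2 * (-K) * sK (K / N) (D / 2) ^ 2)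

theorem N1_pos {K : ℝ} (hK : K ≤ 0) {N : ℕ} (hN : 0 < N) (D : ℝ) : 0 < N1 K N D := by
  have hN' : (0 : ℝ) < N := Nat.cast_pos.2 hN
  unfold N1
  have h1 : 0 ≤ 2 * (-K) * sK (K / N) (D / 2) ^ 2 := by
    have : 0 ≤ -K := by linarith
    positivity
  have h2 : 0 < (N : ℝ) + 2 * (-K) * sK (K / N) (D / 2) ^ 2 := by linarith
  positivity

theorem IsEVIFlow.second_moment_le (hK : K ≤ 0) (hN : 0 < N)
    (hfin : ∀ (x : X) (r : ℝ), m (closedBall x r) < ∞)
    (hpos : ∀ (x : X) (r : ℝ), 0 < r → 0 < m (ball x r)) (h : IsEVIFlow K N m μ) {y : X}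
    (h0 : μ 0 = dirac y) {z : X} {D : ℝ} (hD : dist y z ≤ D) {s : ℝ} (hs : 0 < s) (hs1 : s ≤ 1) :
    W2 (μ s) (dirac z) ^ 2 ≤ dist y z ^ 2 + 2 * N1 K N D * s := by
  have hN' : (0 : ℝ) < N := Nat.cast_pos.2 hN
  have hκ : K / N ≤ 0 := div_nonpos_of_nonpos_of_nonneg hK hN'.le
  refine (h.second_moment hK hN hfin hpos h0 z hs).trans ?_
  have h1 : Real.exp (-K * s) ≤ Real.exp (-K) := by
    rw [Real.exp_le_exp]
    nlinarith
  have h2 : Real.exp (-K * s) - 1 ≤ (-K * s) * Real.exp (-K) := by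
    have h3 := exp_sub_one_le (x := -K * s) (mul_nonneg (by linarith) hs.le)
    have h4 : 0 ≤ -K * s := mul_nonneg (by linarith) hs.le
    exact h3.trans (mul_le_mul_of_nonneg_left h1 h4)
  have h3 : sK (K / N) (dist y z / 2) ^ 2 ≤ sK (K / N) (D / 2) ^ 2 := by
    have hd0 : 0 ≤ dist y z / 2 := by positivity
    exact pow_le_pow_left₀ (sK_nonneg hκ hd0) ((sK_smono hκ).monotone (by linarith)) 2
  have h5 : 0 ≤ sK (K / N) (dist y z / 2) ^ 2 := sq_nonneg _
  have h6 : 0 ≤ -K * s * Real.exp (-K) :=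
    mul_nonneg (mul_nonneg (by linarith) hs.le) (Real.exp_pos _).le
  have h7 : (Real.exp (-K * s) - 1) * sK (K / N) (dist y z / 2) ^ 2 ≤
      -K * s * Real.exp (-K) * sK (K / N) (D / 2) ^ 2 :=
    (mul_le_mul_of_nonneg_right h2 h5).trans (mul_le_mul_of_nonneg_left h3 h6)
  have h8 : 2 * N * Real.exp (-K * s) * s ≤ 2 * N * Real.exp (-K) * s := by gcongr
  unfold N1
  nlinarith

theorem IsEVIFlow.integral_dist_le (hK : K ≤ 0) (hN : 0 < N)
    (hfin : ∀ (x : X) (r : ℝ), m (closedBall x r) < ∞)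
    (hpos : ∀ (x : X) (r : ℝ), 0 < r → 0 < m (ball x r)) (h : IsEVIFlow K N m μ) {y : X}
    (h0 : μ 0 = dirac y) {p : X} {D : ℝ} (hD : dist y p ≤ D) (hp : 0 < dist y p) {s : ℝ}
    (hs : 0 < s) (hs1 : s ≤ 1) :
    ∫ z, dist z p ∂(μ s) ≤ dist y p + N1 K N D * s / dist y p := by
  have h1 := abs_integral_sub_le_W2 (h.p2 s hs.le) (isP2_dirac p) (LipschitzWith.dist_left p)
  rw [integral_dirac, dist_self, sub_zero] at h1
  have h2 := h.second_moment_le hK hN hfin hpos h0 hD hs hs1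
  have h3 := N1_pos hK hN D
  have h4 : W2 (μ s) (dirac p) ≤ dist y p + N1 K N D * s / dist y p := by
    refine le_of_sq_le_sq ?_ (by positivity)
    refine h2.trans ?_
    have e1 : (dist y p + N1 K N D * s / dist y p) ^ 2 =
        dist y p ^ 2 + 2 * N1 K N D * s + (N1 K N D * s / dist y p) ^ 2 := by
      field_simp
      ring
    rw [e1]
    have : 0 ≤ (N1 K N D * s / dist y p) ^ 2 := sq_nonneg _
    linarith
  exact (le_abs_self _).trans (h1.trans h4)

end moment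

/-! ### The flux inequality -/

theorem sK_sq_le {κ : ℝ} (hκ : κ ≤ 0) {x : ℝ} (hx : 0 ≤ x) (hx1 : x ≤ 1) :
    sK κ x ^ 2 ≤ x ^ 2 + (-κ) * Real.cosh (√(-κ)) ^ 2 * x ^ 4 := by
  set q := √(-κ) with hq
  have hq0 : 0 ≤ q := Real.sqrt_nonneg _
  have hq2 : q ^ 2 = -κ := sqrt_sq_neg hκ
  have h1 : Real.sinh (q * x) ≤ q * x * Real.cosh (q * x) := by
    have := sinh_sub_le (x := q * x) (y := 0) le_rfl (by positivity)
    rwa [Real.sinh_zero, sub_zero, sub_zero] at this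
  have h2 : Real.cosh (q * x) ≤ Real.cosh q := by
    rw [Real.cosh_le_cosh, abs_of_nonneg (by positivity), abs_of_nonneg hq0]
    nlinarith
  have h0 : 0 ≤ Real.sinh (q * x) := Real.sinh_nonneg_iff.2 (by positivity)
  have hc0 : 0 < Real.cosh (q * x) := Real.cosh_pos _
  have h3 : sK κ x ≤ x * Real.cosh (q * x) := by
    rw [sK_eq_sQ hκ, ← hq]
    by_cases hq1 : q = 0
    · rw [hq1, sQ_zero_left]
      simp
    · rw [sQ_ne hq1, div_le_iff₀ (lt_of_le_of_ne hq0 (Ne.symm hq1))]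
      calc Real.sinh (q * x) ≤ q * x * Real.cosh (q * x) := h1
        _ = _ := by ring
  have h4 : sK κ x ^ 2 ≤ (x * Real.cosh (q * x)) ^ 2 :=
    pow_le_pow_left₀ (sK_nonneg hκ hx) h3 2
  have h5 : Real.sinh (q * x) ^ 2 ≤ (q * x * Real.cosh q) ^ 2 := by
    refine pow_le_pow_left₀ h0 (h1.trans ?_) 2
    exact mul_le_mul_of_nonneg_left h2 (by positivity)
  calc sK κ x ^ 2 ≤ x ^ 2 * Real.cosh (q * x) ^ 2 := by rw [← mul_pow]; exact h4
    _ = x ^ 2 + x ^ 2 * Real.sinh (q * x) ^ 2 := by rw [Real.cosh_sq]; ring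
    _ ≤ x ^ 2 + x ^ 2 * (q * x * Real.cosh q) ^ 2 := by gcongr
    _ = x ^ 2 + q ^ 2 * Real.cosh q ^ 2 * x ^ 4 := by ring
    _ = _ := by rw [hq2]

/-- bound of the distance of the observer in the flux inequality -/
theorem flux_W0 {K : ℝ} (hK : K ≤ 0) {N : ℕ} (hN : 0 < N) : ∃ C r₀ : ℝ, 0 < C ∧ 0 < r₀ ∧ r₀ ≤ 1 ∧
    ∀ R s W : ℝ, 0 < R → R ≤ r₀ → 0 < s → s ≤ R ^ 2 → 0 ≤ W →
      W ^ 2 ≤ R ^ 2 + 4 * (Real.exp (-K * s) - 1) * sK (K / N) (R / 2) ^ 2 +
        2 * N * Real.exp (-K * s) * s →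
      sK (K / N) (W / 2) ^ 2 ≤ R ^ 2 / 4 + N / 2 * s + C * (-K) * R ^ 4 := by
  have hN' : (0 : ℝ) < N := Nat.cast_pos.2 hN
  have hκ : K / N ≤ 0 := div_nonpos_of_nonpos_of_nonneg hK hN'.le
  have hk : 0 ≤ -K := by linarith
  set ch : ℝ := Real.cosh (√(-(K / N))) with hch
  have hch0 : 0 < ch := Real.cosh_pos _
  set c₁ : ℝ := Real.exp (-K) * (ch ^ 2 + 2 * N) with hc₁
  have hc₁0 : 0 < c₁ := by positivity
  set A : ℝ := 1 + 2 * N + c₁ * (-K) with hA
  have hA1 : 1 ≤ A := by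
    have : 0 ≤ c₁ * (-K) := mul_nonneg hc₁0.le hk
    linarith
  have hA0 : 0 < A := by linarith
  refine ⟨c₁ / 4 + ch ^ 2 * A ^ 2 / (16 * N), 1 / A, by positivity, by positivity,
    (div_le_one hA0).2 hA1, fun R s W hR hR0 hs hsR hW hW2 => ?_⟩
  have hR1 : R ≤ 1 := hR0.trans ((div_le_one hA0).2 hA1)
  have hs1 : s ≤ 1 := hsR.trans (by nlinarith)
  have hAR : A * R ≤ 1 := by
    rw [le_div_iff₀ hA0] at hR0
    linarith
  -- the exponential
  have h1 : Real.exp (-K * s) ≤ Real.exp (-K) := by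
    rw [Real.exp_le_exp]
    nlinarith
  have h2 : Real.exp (-K * s) - 1 ≤ -K * s * Real.exp (-K) := by
    have h3 := exp_sub_one_le (x := -K * s) (mul_nonneg hk hs.le)
    exact h3.trans (mul_le_mul_of_nonneg_left h1 (mul_nonneg hk hs.le))
  -- `s(R/2) ≤ cosh R/2`
  have h3 : sK (K / N) (R / 2) ^ 2 ≤ ch ^ 2 * R ^ 2 / 4 := by
    set q := √(-(K / N)) with hq
    have hq0 : 0 ≤ q := Real.sqrt_nonneg _
    have e1 : Real.sinh (q * (R / 2)) ≤ q * (R / 2) * Real.cosh (q * (R / 2)) := by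
      have := sinh_sub_le (x := q * (R / 2)) (y := 0) le_rfl (by positivity)
      rwa [Real.sinh_zero, sub_zero, sub_zero] at this
    have e2 : Real.cosh (q * (R / 2)) ≤ ch := by
      rw [hch, Real.cosh_le_cosh, abs_of_nonneg (by positivity), abs_of_nonneg hq0]
      nlinarith
    have e3 : sK (K / N) (R / 2) ≤ R / 2 * ch := by
      rw [sK_eq_sQ hκ, ← hq]
      by_cases hq1 : q = 0
      · rw [hq1, sQ_zero_left]
        have : 1 ≤ ch := Real.one_le_cosh _
        nlinarith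
      · rw [sQ_ne hq1, div_le_iff₀ (lt_of_le_of_ne hq0 (Ne.symm hq1))]
        refine e1.trans ?_
        calc q * (R / 2) * Real.cosh (q * (R / 2)) ≤ q * (R / 2) * ch :=
              mul_le_mul_of_nonneg_left e2 (by positivity)
          _ = _ := by ring
    calc sK (K / N) (R / 2) ^ 2 ≤ (R / 2 * ch) ^ 2 :=
          pow_le_pow_left₀ (sK_nonneg hκ (by positivity)) e3 2
      _ = _ := by ring
  have hR2 : 0 ≤ R ^ 2 := sq_nonneg R
  have h4 : (Real.exp (-K * s) - 1) * sK (K / N) (R / 2) ^ 2 ≤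
      -K * s * Real.exp (-K) * (ch ^ 2 * R ^ 2 / 4) := by
    have e0 : 0 ≤ sK (K / N) (R / 2) ^ 2 := sq_nonneg _
    have e1 : 0 ≤ -K * s * Real.exp (-K) := by positivity
    exact (mul_le_mul_of_nonneg_right h2 e0).trans (mul_le_mul_of_nonneg_left h3 e1)
  have h5 : -K * s * Real.exp (-K) * (ch ^ 2 * R ^ 2 / 4) ≤
      -K * R ^ 2 * Real.exp (-K) * (ch ^ 2 * R ^ 2 / 4) := by
    gcongr
  have h6 : Real.exp (-K * s) * s ≤ s + -K * Real.exp (-K) * R ^ 4 := by
    have e1 : (Real.exp (-K * s) - 1) * s ≤ -K * s * Real.exp (-K) * s :=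
      mul_le_mul_of_nonneg_right h2 hs.le
    have e2 : s * s ≤ R ^ 2 * R ^ 2 := mul_le_mul hsR hsR hs.le hR2
    have e3 : -K * s * Real.exp (-K) * s ≤ -K * Real.exp (-K) * R ^ 4 := by
      calc -K * s * Real.exp (-K) * s = -K * Real.exp (-K) * (s * s) := by ring
        _ ≤ -K * Real.exp (-K) * (R ^ 2 * R ^ 2) := mul_le_mul_of_nonneg_left e2 (by positivity)
        _ = _ := by ring
    linarith
  have h7 : W ^ 2 ≤ R ^ 2 + 2 * N * s + c₁ * (-K) * R ^ 4 := by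
    have e1 : 2 * N * Real.exp (-K * s) * s ≤ 2 * N * (s + -K * Real.exp (-K) * R ^ 4) := by
      calc 2 * N * Real.exp (-K * s) * s = 2 * N * (Real.exp (-K * s) * s) := by ring
        _ ≤ _ := mul_le_mul_of_nonneg_left h6 (by positivity)
    have e2 : c₁ * (-K) * R ^ 4 = 4 * (-K * R ^ 2 * Real.exp (-K) * (ch ^ 2 * R ^ 2 / 4)) +
        2 * N * (-K * Real.exp (-K) * R ^ 4) := by
      rw [hc₁]
      ring
    rw [e2]
    linarith
  have hR4 : R ^ 4 ≤ R ^ 2 := by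
    have : R ^ 2 ≤ 1 := by nlinarith
    nlinarith
  have h8 : W ^ 2 ≤ A * R ^ 2 := by
    have e1 : 2 * N * s ≤ 2 * N * R ^ 2 := by gcongr
    have e2 : c₁ * (-K) * R ^ 4 ≤ c₁ * (-K) * R ^ 2 :=
      mul_le_mul_of_nonneg_left hR4 (mul_nonneg hc₁0.le hk)
    calc W ^ 2 ≤ R ^ 2 + 2 * N * s + c₁ * (-K) * R ^ 4 := h7
      _ ≤ R ^ 2 + 2 * N * R ^ 2 + c₁ * (-K) * R ^ 2 := by linarith
      _ = A * R ^ 2 := by rw [hA]; ring
  have h9 : W / 2 ≤ 1 := by
    have e1 : W ^ 2 ≤ 1 := h8.trans (by nlinarith)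
    nlinarith
  have h10 := sK_sq_le hκ (x := W / 2) (by positivity) h9
  have h11 : (W / 2) ^ 4 ≤ A ^ 2 * R ^ 4 / 16 := by
    have e1 : (W ^ 2) ^ 2 ≤ (A * R ^ 2) ^ 2 := pow_le_pow_left₀ (sq_nonneg W) h8 2
    calc (W / 2) ^ 4 = (W ^ 2) ^ 2 / 16 := by ring
      _ ≤ (A * R ^ 2) ^ 2 / 16 := by linarith
      _ = _ := by ring
  have h12 : -(K / N) * ch ^ 2 * (W / 2) ^ 4 ≤ ch ^ 2 * A ^ 2 / (16 * N) * (-K) * R ^ 4 := by
    have e0 : 0 ≤ -(K / N) * ch ^ 2 := mul_nonneg (by linarith) (sq_nonneg _)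
    calc -(K / N) * ch ^ 2 * (W / 2) ^ 4 ≤ -(K / N) * ch ^ 2 * (A ^ 2 * R ^ 4 / 16) :=
          mul_le_mul_of_nonneg_left h11 e0
      _ = _ := by
          field_simp
  calc sK (K / N) (W / 2) ^ 2 ≤ (W / 2) ^ 2 + -(K / N) * ch ^ 2 * (W / 2) ^ 4 := h10
    _ ≤ (R ^ 2 + 2 * N * s + c₁ * (-K) * R ^ 4) / 4 +
        ch ^ 2 * A ^ 2 / (16 * N) * (-K) * R ^ 4 := by
        have e1 : (W / 2) ^ 2 = W ^ 2 / 4 := by ring
        rw [e1]
        linarith
    _ = _ := by ring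

/-- **The flux inequality.** `y` lies between `x` and the pole `p` at distance `R` from `x`; `f` is
the loss of the distance to `p` along the flow from `x` up to time `s`. -/
theorem flux_lower {K : ℝ} (hK : K ≤ 0) {N : ℕ} (hN : 0 < N) (D : ℝ) : ∃ C r₀ : ℝ, 0 < C ∧
    0 < r₀ ∧ r₀ ≤ 1 ∧ ∀ (X : Type u) [MetricSpace X] [ProperSpace X] [MeasurableSpace X]
      [BorelSpace X] (m : Measure X), (∀ (x : X) (r : ℝ), m (closedBall x r) < ∞) →
      (∀ (x : X) (r : ℝ), 0 < r → 0 < m (ball x r)) →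
      ∀ (μ ν : ℝ → Measure X) (x y p : X) (R s : ℝ), IsEVIFlow K N m μ → IsEVIFlow K N m ν →
      μ 0 = dirac x → ν 0 = dirac y → 0 < R → R ≤ r₀ → 0 < s → s ≤ R ^ 2 → dist x y = R →
      dist x p = R + dist y p → 0 < dist y p → dist y p ≤ D →
      N * (UN N m (ν s) * (∫ v in (0 : ℝ)..s, Real.exp (K * v) * (UN N m (μ v))⁻¹) - 2 * s) -
          C * (-K) * R ^ 4 ≤
        Real.exp (K * s) * R * (dist x p - ∫ z, dist z p ∂(μ s) + C * s / dist y p) := by
  have hN' : (0 : ℝ) < N := Nat.cast_pos.2 hN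
  have hκ : K / N ≤ 0 := div_nonpos_of_nonpos_of_nonneg hK hN'.le
  have hk : 0 ≤ -K := by linarith
  obtain ⟨C₁, r₀, hC₁, hr₀, hr₀1, hW0⟩ := flux_W0 hK hN
  have hN1 := N1_pos hK hN D
  refine ⟨2 * C₁ + 1 / 2 + N1 K N D, r₀, by positivity, hr₀, hr₀1, ?_⟩
  intro X _ _ _ _ m hfin hpos μ ν x y p R s hμ hν hμ0 hν0 hR hRr hs hsR hxy hxp hyp hypD
  have hR1 : R ≤ 1 := hRr.trans hr₀1
  have hs1 : s ≤ 1 := hsR.trans (by nlinarith)
  have hνs := hν.p2 s hs.le
  have h1 := hμ.evi_full hK hN hνs (hν.dom s hs) hs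
  rw [hμ0] at h1
  set U := UN N m (ν s) with hU
  set I := ∫ v in (0 : ℝ)..s, Real.exp (K * v) * (UN N m (μ v))⁻¹ with hI
  set E := Real.exp (K * s) with hE
  have hE0 : 0 < E := Real.exp_pos _
  have hE1 : E ≤ 1 := Real.exp_le_one_iff.2 (mul_nonpos_of_nonpos_of_nonneg hK hs.le)
  have hEs : 1 - E ≤ -K * s := by
    have := one_sub_exp_le (x := -K * s)
    have e1 : -(-K * s) = K * s := by ring
    rwa [e1] at this
  have h2 : ∫ v in (0 : ℝ)..s, Real.exp (K * v) ≤ s := exp_int_le hK hs.le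
  -- the distance of the observer
  have h3 := hν.second_moment hK hN hfin hpos hν0 x hs
  rw [W2_comm, dist_comm y x, hxy] at h3
  have h4 := hW0 R s (W2 (dirac x) (ν s)) hR hRr hs hsR (W2_nonneg _ _) h3
  -- the distance at time `s`
  set f := dist x p - ∫ z, dist z p ∂(μ s) with hf
  set e₂ := N1 K N D * s / dist y p with he₂
  have h5 := hν.integral_dist_le hK hN hfin hpos hν0 hypD hyp hs hs1
  have h6 := abs_integral_sub_le_W2 (hμ.p2 s hs.le) hνs (LipschitzWith.dist_left p)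
  set W₁ := W2 (μ s) (ν s) with hW₁
  have hW₁0 : 0 ≤ W₁ := W2_nonneg _ _
  have h7 : R - f - e₂ ≤ W₁ := by
    have := (le_abs_self _).trans h6
    rw [hf]
    linarith
  have h8 : R ^ 2 - 2 * R * (f + e₂) ≤ W₁ ^ 2 := by
    rcases le_total 0 (R - f - e₂) with h | h
    · have e1 : (R - f - e₂) ^ 2 ≤ W₁ ^ 2 := pow_le_pow_left₀ h h7 2
      nlinarith [sq_nonneg (f + e₂)]
    · have e1 : R * R ≤ R * (f + e₂) := mul_le_mul_of_nonneg_left (by linarith) hR.le
      nlinarith [sq_nonneg W₁]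
  have h9 : (W₁ / 2) ^ 2 ≤ sK (K / N) (W₁ / 2) ^ 2 :=
    pow_le_pow_left₀ (by positivity) (le_sK hκ (by positivity)) 2
  have h10 : E * ((R ^ 2 - 2 * R * (f + e₂)) / 4) ≤ E * sK (K / N) (W₁ / 2) ^ 2 := by
    refine mul_le_mul_of_nonneg_left ?_ hE0.le
    have e1 : (W₁ / 2) ^ 2 = W₁ ^ 2 / 4 := by ring
    linarith
  have h11 : (N : ℝ) / 2 * ((∫ v in (0 : ℝ)..s, Real.exp (K * v)) - U * I) ≤
      N / 2 * (s - U * I) := mul_le_mul_of_nonneg_left (by linarith) (by positivity)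
  have h12 : (1 - E) * R ^ 2 ≤ -K * R ^ 4 := by
    have e1 : (1 - E) * R ^ 2 ≤ -K * s * R ^ 2 := mul_le_mul_of_nonneg_right hEs (sq_nonneg R)
    have e2 : -K * s * R ^ 2 ≤ -K * R ^ 2 * R ^ 2 := by gcongr
    calc (1 - E) * R ^ 2 ≤ -K * R ^ 2 * R ^ 2 := e1.trans e2
      _ = _ := by ring
  have hmain : N * (U * I - 2 * s) - (2 * C₁ + 1 / 2) * (-K) * R ^ 4 ≤ E * R * (f + e₂) := by
    nlinarith
  have hlast : (2 * C₁ + 1 / 2) * (-K) * R ^ 4 ≤
      (2 * C₁ + 1 / 2 + N1 K N D) * (-K) * R ^ 4 := by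
    have : 0 ≤ -K * R ^ 4 := mul_nonneg hk (by positivity)
    nlinarith
  have hlast2 : E * R * (f + e₂) ≤
      E * R * (f + (2 * C₁ + 1 / 2 + N1 K N D) * s / dist y p) := by
    refine mul_le_mul_of_nonneg_left ?_ (by positivity)
    rw [he₂]
    gcongr
    linarith
  linarith

end Pool.Agent.BDRY
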