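import Mathlib

/-!
# Symmetric Markov kernels: lower bounds near the diagonal and chaining

Only the following is used of the heat kernels `P t x` (`t > 0`): they are probability measures,
absolutely continuous with respect to `m`, form a semigroup, are symmetric with respect to `m`,
and nearby kernels overlap.
-/

set_option autoImplicit false

open MeasureTheory Set Metric
open scoped ENNReal

namespace Pool.Agent.BDRY.B2

universe u

/-- A symmetric Markov semigroup `P` on `(X, m)`, absolutely continuous with respect to `m`. -/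
structure SymKer {X : Type u} [MeasurableSpace X] (m : Measure X) (P : ℝ → X → Measure X) :
    Prop where
  prob : ∀ t, 0 < t → ∀ x, IsProbabilityMeasure (P t x)
  meas : ∀ t, 0 < t → ∀ A, MeasurableSet A → Measurable (fun x => P t x A)
  ac : ∀ t, 0 < t → ∀ x, P t x ≪ m
  symm : ∀ t, 0 < t → ∀ A B, MeasurableSet A → MeasurableSet B →
    ∫⁻ x in A, P t x B ∂m = ∫⁻ x in B, P t x A ∂m
  sgrp : ∀ s t, 0 < s → 0 < t → ∀ x A, MeasurableSet A →
    P (s + t) x A = ∫⁻ z, P t z A ∂(P s x)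

section

variable {X : Type u} [MeasurableSpace X] {m : Measure X} {P : ℝ → X → Measure X}

namespace SymKer

theorem measurable_lintegral (h : SymKer m P) {t : ℝ} (ht : 0 < t) {f : X → ℝ≥0∞}
    (hf : Measurable f) : Measurable (fun x => ∫⁻ z, f z ∂(P t x)) := by
  have hP : Measurable (P t) := Measure.measurable_of_measurable_coe _ (h.meas t ht)
  exact (Measure.measurable_lintegral hf).comp hP

/-- Symmetry with a function on one side. -/
theorem symm_fun (h : SymKer m P) {t : ℝ} (ht : 0 < t) {A : Set X} (hA : MeasurableSet A)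
    {f : X → ℝ≥0∞} (hf : Measurable f) :
    ∫⁻ x, f x * P t x A ∂m = ∫⁻ x in A, (∫⁻ z, f z ∂(P t x)) ∂m := by
  have hmA := h.meas t ht A hA
  refine Measurable.ennreal_induction (motive := fun f => ∫⁻ x, f x * P t x A ∂m =
    ∫⁻ x in A, (∫⁻ z, f z ∂(P t x)) ∂m) ?_ ?_ ?_ hf
  · intro c s hs
    have h1 : ∀ x, s.indicator (fun _ => c) x * P t x A = c * s.indicator (fun x => P t x A) x := by
      intro x
      by_cases hx : x ∈ s <;> simp [hx]
    have h2 : ∀ x, ∫⁻ z, s.indicator (fun _ => c) z ∂(P t x) = c * P t x s := by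
      intro x
      rw [lintegral_indicator_const hs]
    simp_rw [h1, h2]
    rw [lintegral_const_mul _ (hmA.indicator hs), lintegral_indicator hs,
      lintegral_const_mul _ (h.meas t ht s hs), h.symm t ht s A hs hA]
  · intro f g _ hf hg hf' hg'
    have m1 : Measurable (fun x => f x * P t x A) := hf.mul hmA
    have m2 := h.measurable_lintegral ht hf
    calc ∫⁻ x, (f + g) x * P t x A ∂m = ∫⁻ x, (f x * P t x A + g x * P t x A) ∂m :=
          lintegral_congr fun x => add_mul _ _ _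
      _ = ∫⁻ x, f x * P t x A ∂m + ∫⁻ x, g x * P t x A ∂m := lintegral_add_left m1 _
      _ = ∫⁻ x in A, (∫⁻ z, f z ∂(P t x)) ∂m + ∫⁻ x in A, (∫⁻ z, g z ∂(P t x)) ∂m := by
          rw [hf', hg']
      _ = ∫⁻ x in A, ((∫⁻ z, f z ∂(P t x)) + ∫⁻ z, g z ∂(P t x)) ∂m :=
          (lintegral_add_left m2 _).symm
      _ = ∫⁻ x in A, (∫⁻ z, (f + g) z ∂(P t x)) ∂m :=
          lintegral_congr fun x => (lintegral_add_left hf _).symm
  · intro f hf hmono hf'
    have m1 : ∀ n, Measurable (fun x => f n x * P t x A) := fun n => (hf n).mul hmA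
    have m2 := fun n => h.measurable_lintegral ht (hf n)
    calc ∫⁻ x, (⨆ n, f n x) * P t x A ∂m = ∫⁻ x, ⨆ n, f n x * P t x A ∂m :=
          lintegral_congr fun x => ENNReal.iSup_mul _ _
      _ = ⨆ n, ∫⁻ x, f n x * P t x A ∂m :=
          lintegral_iSup m1 (fun i j hij x => mul_le_mul_left (hmono hij x) _)
      _ = ⨆ n, ∫⁻ x in A, (∫⁻ z, f n z ∂(P t x)) ∂m := iSup_congr hf'
      _ = ∫⁻ x in A, (⨆ n, ∫⁻ z, f n z ∂(P t x)) ∂m :=
          (lintegral_iSup m2 (fun i j hij x => lintegral_mono (hmono hij))).symm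
      _ = ∫⁻ x in A, (∫⁻ z, (⨆ n, f n z) ∂(P t x)) ∂m :=
          lintegral_congr fun x => (lintegral_iSup hf hmono).symm

/-- Symmetry, general form. -/
theorem symm_fun_fun (h : SymKer m P) {t : ℝ} (ht : 0 < t) {f g : X → ℝ≥0∞}
    (hf : Measurable f) (hg : Measurable g) :
    ∫⁻ x, f x * (∫⁻ z, g z ∂(P t x)) ∂m = ∫⁻ x, g x * (∫⁻ z, f z ∂(P t x)) ∂m := by
  have mf := h.measurable_lintegral ht hf
  refine Measurable.ennreal_induction (motive := fun g => ∫⁻ x, f x * (∫⁻ z, g z ∂(P t x)) ∂m =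
    ∫⁻ x, g x * (∫⁻ z, f z ∂(P t x)) ∂m) ?_ ?_ ?_ hg
  · intro c s hs
    have h1 : ∀ x, s.indicator (fun _ => c) x * (∫⁻ z, f z ∂(P t x)) =
        c * s.indicator (fun x => ∫⁻ z, f z ∂(P t x)) x := by
      intro x
      by_cases hx : x ∈ s <;> simp [hx]
    have h2 : ∀ x, f x * ∫⁻ z, s.indicator (fun _ => c) z ∂(P t x) = c * (f x * P t x s) := by
      intro x
      rw [lintegral_indicator_const hs]
      ring
    have m1 : Measurable (fun x => f x * P t x s) := hf.mul (h.meas t ht s hs)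
    simp_rw [h1, h2]
    rw [lintegral_const_mul _ (mf.indicator hs), lintegral_indicator hs,
      lintegral_const_mul _ m1, h.symm_fun ht hs hf]
  · intro g g' _ hg hg' h1' h2'
    have m1 : Measurable (fun x => f x * (∫⁻ z, g z ∂(P t x))) :=
      hf.mul (h.measurable_lintegral ht hg)
    have m2 : Measurable (fun x => g x * (∫⁻ z, f z ∂(P t x))) := hg.mul mf
    calc ∫⁻ x, f x * (∫⁻ z, (g + g') z ∂(P t x)) ∂m
        = ∫⁻ x, (f x * (∫⁻ z, g z ∂(P t x)) + f x * (∫⁻ z, g' z ∂(P t x))) ∂m := by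
          refine lintegral_congr fun x => ?_
          rw [← mul_add]
          congr 1
          exact lintegral_add_left hg _
      _ = ∫⁻ x, f x * (∫⁻ z, g z ∂(P t x)) ∂m + ∫⁻ x, f x * (∫⁻ z, g' z ∂(P t x)) ∂m :=
          lintegral_add_left m1 _
      _ = ∫⁻ x, g x * (∫⁻ z, f z ∂(P t x)) ∂m + ∫⁻ x, g' x * (∫⁻ z, f z ∂(P t x)) ∂m := by
          rw [h1', h2']
      _ = ∫⁻ x, (g x * (∫⁻ z, f z ∂(P t x)) + g' x * (∫⁻ z, f z ∂(P t x))) ∂m :=
          (lintegral_add_left m2 _).symm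
      _ = ∫⁻ x, (g + g') x * (∫⁻ z, f z ∂(P t x)) ∂m :=
          lintegral_congr fun x => (add_mul _ _ _).symm
  · intro g hg hmono hg'
    have m1 : ∀ n, Measurable (fun x => f x * (∫⁻ z, g n z ∂(P t x))) :=
      fun n => hf.mul (h.measurable_lintegral ht (hg n))
    have m2 : ∀ n, Measurable (fun x => g n x * (∫⁻ z, f z ∂(P t x))) := fun n => (hg n).mul mf
    calc ∫⁻ x, f x * (∫⁻ z, (⨆ n, g n z) ∂(P t x)) ∂m
        = ∫⁻ x, ⨆ n, f x * (∫⁻ z, g n z ∂(P t x)) ∂m := by
          refine lintegral_congr fun x => ?_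
          rw [lintegral_iSup hg hmono, ENNReal.mul_iSup]
      _ = ⨆ n, ∫⁻ x, f x * (∫⁻ z, g n z ∂(P t x)) ∂m :=
          lintegral_iSup m1 (fun i j hij x => mul_le_mul_right (lintegral_mono (hmono hij)) _)
      _ = ⨆ n, ∫⁻ x, g n x * (∫⁻ z, f z ∂(P t x)) ∂m := iSup_congr hg'
      _ = ∫⁻ x, ⨆ n, g n x * (∫⁻ z, f z ∂(P t x)) ∂m :=
          (lintegral_iSup m2 (fun i j hij x => mul_le_mul_left (hmono hij x) _)).symm
      _ = ∫⁻ x, (⨆ n, g n x) * (∫⁻ z, f z ∂(P t x)) ∂m :=
          lintegral_congr fun x => (ENNReal.iSup_mul _ _).symm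

/-- Invariance of `m`. -/
theorem invariant (h : SymKer m P) {t : ℝ} (ht : 0 < t) {f : X → ℝ≥0∞} (hf : Measurable f) :
    ∫⁻ x, (∫⁻ z, f z ∂(P t x)) ∂m = ∫⁻ x, f x ∂m := by
  have h1 := h.symm_fun_fun ht (f := fun _ => 1) measurable_const hf
  simp only [one_mul] at h1
  rw [h1]
  refine lintegral_congr fun x => ?_
  have := h.prob t ht x
  rw [lintegral_const, measure_univ, mul_one, mul_one]

/-- The semigroup property for functions. -/
theorem sgrp_fun (h : SymKer m P) {s t : ℝ} (hs : 0 < s) (ht : 0 < t) (x : X) {f : X → ℝ≥0∞}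
    (hf : Measurable f) :
    ∫⁻ z, f z ∂(P (s + t) x) = ∫⁻ z, (∫⁻ w, f w ∂(P t z)) ∂(P s x) := by
  have hP : Measurable (P t) := Measure.measurable_of_measurable_coe _ (h.meas t ht)
  have h1 : P (s + t) x = (P s x).bind (P t) := by
    ext A hA
    rw [Measure.bind_apply hA hP.aemeasurable, h.sgrp s t hs ht x A hA]
  rw [h1, Measure.lintegral_bind hP.aemeasurable hf.aemeasurable]

/-- The kernel at time `s + t` through the density at time `s`. -/
theorem apply_add [SigmaFinite m] (h : SymKer m P) {s t : ℝ} (hs : 0 < s) (ht : 0 < t) (x : X)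
    {A : Set X} (hA : MeasurableSet A) :
    P (s + t) x A = ∫⁻ y in A, (∫⁻ z, (P s x).rnDeriv m z ∂(P t y)) ∂m := by
  have := h.prob s hs x
  rw [h.sgrp s t hs ht x A hA, ← h.symm_fun ht hA (Measure.measurable_rnDeriv _ _),
    lintegral_rnDeriv_mul (h.ac s hs x) (h.meas t ht A hA).aemeasurable]

/-- **Lower bound near the diagonal.** If the kernels at `x` and at the points of `A` overlap, and
most of the mass of `P t x` is in `B`, then `P (2t) x A ≥ m A / (32 m B)`. -/
theorem low [SigmaFinite m] (h : SymKer m P) {t : ℝ} (ht : 0 < t) (x : X) {A B : Set X}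
    (hA : MeasurableSet A) (hB : MeasurableSet B) (hB0 : m B ≠ 0) (hBt : m B ≠ ∞)
    (hover : ∀ y ∈ A, ∀ S, MeasurableSet S → 1 / 2 ≤ P t x S + P t y Sᶜ)
    (hout : P t x Bᶜ ≤ 1 / 16) :
    m A / (32 * m B) ≤ P (t + t) x A := by
  have := h.prob t ht x
  rw [h.apply_add ht ht x hA]
  set f := (P t x).rnDeriv m with hf
  have hfm : Measurable f := Measure.measurable_rnDeriv _ _
  set l : ℝ≥0∞ := 1 / (8 * m B) with hl
  have h8 : (8 * m B) ≠ 0 := mul_ne_zero (by norm_num) hB0
  have h8t : (8 * m B) ≠ ∞ := ENNReal.mul_ne_top (by norm_num) hBt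
  have hlt : l ≠ ∞ := by
    rw [hl]
    exact ENNReal.div_ne_top (by norm_num) h8
  let S : Set X := {z | f z ≤ l} ∩ B ∪ Bᶜ
  have hS : MeasurableSet S := ((measurableSet_le hfm measurable_const).inter hB).union hB.compl
  -- the measure of `S` at `x`
  have hxS : P t x S ≤ 1 / 4 := by
    have h1 : P t x ({z | f z ≤ l} ∩ B) ≤ 1 / 8 := by
      have hms : MeasurableSet ({z | f z ≤ l} ∩ B) :=
        (measurableSet_le hfm measurable_const).inter hB
      calc P t x ({z | f z ≤ l} ∩ B) = ∫⁻ z in {z | f z ≤ l} ∩ B, f z ∂m := by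
            rw [hf, Measure.setLIntegral_rnDeriv (h.ac t ht x)]
        _ ≤ ∫⁻ _ in {z | f z ≤ l} ∩ B, l ∂m :=
            setLIntegral_mono measurable_const (fun z hz => hz.1)
        _ = l * m ({z | f z ≤ l} ∩ B) := by rw [setLIntegral_const]
        _ ≤ l * m B := by gcongr; exact inter_subset_right
        _ = 1 / 8 := by
            rw [hl, one_div, ENNReal.mul_inv (Or.inl (by norm_num)) (Or.inl (by norm_num)),
              mul_assoc, ENNReal.inv_mul_cancel hB0 hBt, mul_one, one_div]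
    calc P t x S ≤ P t x ({z | f z ≤ l} ∩ B) + P t x Bᶜ := measure_union_le _ _
      _ ≤ 1 / 8 + 1 / 16 := add_le_add h1 hout
      _ ≤ 1 / 8 + 1 / 8 := by
          gcongr
          norm_num
      _ = 1 / 4 := by
          rw [← ENNReal.add_div]
          have : (1 + 1 : ℝ≥0∞) / 8 = 1 / 4 := by
            rw [ENNReal.div_eq_div_iff (by norm_num) (by norm_num) (by norm_num) (by norm_num)]
            norm_num
          exact this
  have hy : ∀ y ∈ A, 1 / (32 * m B) ≤ ∫⁻ z, f z ∂(P t y) := by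
    intro y hyA
    have h2 : 1 / 4 ≤ P t y Sᶜ := by
      have h3 := hover y hyA S hS
      have h4 : (1 : ℝ≥0∞) / 2 ≤ 1 / 4 + P t y Sᶜ := h3.trans (by gcongr)
      have h5 : (1 : ℝ≥0∞) / 2 = 1 / 4 + 1 / 4 := by
        rw [← ENNReal.add_div, ENNReal.div_eq_div_iff (by norm_num) (by norm_num) (by norm_num)
          (by norm_num)]
        norm_num
      rw [h5] at h4
      exact (ENNReal.add_le_add_iff_left (by norm_num)).mp h4
    calc 1 / (32 * m B) = l * (1 / 4) := by
          rw [hl, one_div, one_div, one_div, ← ENNReal.mul_inv (Or.inl h8) (Or.inl h8t)]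
          congr 1
          ring
      _ ≤ l * P t y Sᶜ := by gcongr
      _ = ∫⁻ _ in Sᶜ, l ∂(P t y) := by rw [setLIntegral_const]
      _ ≤ ∫⁻ z in Sᶜ, f z ∂(P t y) := by
          refine setLIntegral_mono hfm ?_
          intro z hz
          have h6 : z ∈ B := by
            by_contra h7
            exact hz (Or.inr h7)
          by_contra h7
          exact hz (Or.inl ⟨(not_le.mp h7).le, h6⟩)
      _ ≤ ∫⁻ z, f z ∂(P t y) := setLIntegral_le_lintegral _ _
  calc m A / (32 * m B) = ∫⁻ _ in A, 1 / (32 * m B) ∂m := by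
        rw [setLIntegral_const, one_div, ENNReal.div_eq_inv_mul]
    _ ≤ _ := setLIntegral_mono' hA hy

/-- One step of a chain. -/
theorem mul_le (h : SymKer m P) {s t : ℝ} (hs : 0 < s) (ht : 0 < t) (x : X) {A B : Set X}
    (hA : MeasurableSet A) (hB : MeasurableSet B) {l : ℝ≥0∞} (hl : ∀ z ∈ B, l ≤ P t z A) :
    l * P s x B ≤ P (s + t) x A := by
  rw [h.sgrp s t hs ht x A hA]
  calc l * P s x B = ∫⁻ _ in B, l ∂(P s x) := by rw [setLIntegral_const]
    _ ≤ ∫⁻ z in B, P t z A ∂(P s x) := setLIntegral_mono' hB hl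
    _ ≤ ∫⁻ z, P t z A ∂(P s x) := setLIntegral_le_lintegral _ _

/-- Chaining: if `P s z (B (i+1)) ≥ q` for every `z ∈ B i`, then
`P ((k+1) s) x (B k) ≥ q^k P s x (B 0)`. -/
theorem chain (h : SymKer m P) {s : ℝ} (hs : 0 < s) (x : X) (B : ℕ → Set X)
    (hB : ∀ i, MeasurableSet (B i)) {q : ℝ≥0∞} (k : ℕ)
    (hq : ∀ i < k, ∀ z ∈ B i, q ≤ P s z (B (i + 1))) :
    q ^ k * P s x (B 0) ≤ P ((k + 1 : ℕ) * s) x (B k) := by
  induction k with
  | zero => simp
  | succ k ih =>
    have h1 := ih (fun i hi => hq i (by omega))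
    have h2 := h.mul_le (s := (k + 1 : ℕ) * s) (by positivity) hs x (hB (k + 1)) (hB k)
      (hq k (by omega))
    have h3 : ((k + 1 : ℕ) : ℝ) * s + s = ((k + 1 + 1 : ℕ) : ℝ) * s := by
      push_cast
      ring
    rw [h3] at h2
    calc q ^ (k + 1) * P s x (B 0) = q * (q ^ k * P s x (B 0)) := by ring
      _ ≤ q * P ((k + 1 : ℕ) * s) x (B k) := by gcongr
      _ ≤ _ := h2

end SymKer

end

section metric

variable {X : Type u} [MetricSpace X] [MeasurableSpace X] [BorelSpace X]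

/-- Exit probability from the second moment. -/
theorem exit_le {μ : Measure X} {x : X} {r v : ℝ} (hr : 0 < r)
    (hv : ∫⁻ y, ENNReal.ofReal (dist x y ^ 2) ∂μ ≤ ENNReal.ofReal v) :
    μ {y | r ≤ dist x y} ≤ ENNReal.ofReal (v / r ^ 2) := by
  have h1 : Measurable (fun y => ENNReal.ofReal (dist x y ^ 2)) := by
    have : Continuous (fun y => dist x y ^ 2) := by fun_prop
    exact this.measurable.ennreal_ofReal
  have h2 := mul_meas_ge_le_lintegral₀ (μ := μ) h1.aemeasurable (ENNReal.ofReal (r ^ 2))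
  have h3 : {y | r ≤ dist x y} ⊆ {y | ENNReal.ofReal (r ^ 2) ≤ ENNReal.ofReal (dist x y ^ 2)} := by
    intro y hy
    exact ENNReal.ofReal_le_ofReal (pow_le_pow_left₀ hr.le hy 2)
  have h4 : ENNReal.ofReal (r ^ 2) * μ {y | r ≤ dist x y} ≤ ENNReal.ofReal v :=
    (mul_le_mul_right (measure_mono h3) _).trans (h2.trans hv)
  have hr2 : (0 : ℝ) < r ^ 2 := by positivity
  rw [ENNReal.ofReal_div_of_pos hr2]
  rw [ENNReal.le_div_iff_mul_le (Or.inl (by simpa using hr.ne')) (Or.inl ENNReal.ofReal_ne_top)]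
  rwa [mul_comm]

end metric

end Pool.Agent.BDRY.B2
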