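import Pool.Agent.Work.MP_209cb6_gt.Defs

/-!
# Jensen-Shannon / Pinsker inequality in terms of the entropy `∫ llr μ m dμ`
-/

set_option autoImplicit false

open MeasureTheory MeasureTheory.Measure Metric Set Filter Topology
open scoped ENNReal NNReal

namespace Pool.Agent.BDRY

universe u

/-! ## The pointwise inequality -/

theorem js_aux {u : ℝ} (h0 : 0 ≤ u) (h1 : u ≤ 1) :
    u ^ 2 ≤ (1 + u) * Real.log (1 + u) + (1 - u) * Real.log (1 - u) := by
  have hc : ContinuousOn (fun u : ℝ => (1 + u) * Real.log (1 + u) + (1 - u) * Real.log (1 - u)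
      - u ^ 2) (Icc 0 1) := by
    have h2 : Continuous fun u : ℝ => (1 + u) * Real.log (1 + u) :=
      Real.continuous_mul_log.comp (by fun_prop : Continuous fun u : ℝ => 1 + u)
    have h3 : Continuous fun u : ℝ => (1 - u) * Real.log (1 - u) :=
      Real.continuous_mul_log.comp (by fun_prop : Continuous fun u : ℝ => 1 - u)
    exact ((h2.add h3).sub (by fun_prop)).continuousOn
  have hd : ∀ u ∈ interior (Icc (0 : ℝ) 1), HasDerivAt
      (fun u : ℝ => (1 + u) * Real.log (1 + u) + (1 - u) * Real.log (1 - u) - u ^ 2)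
      (Real.log (1 + u) - Real.log (1 - u) - 2 * u) u := by
    intro u hu
    rw [interior_Icc] at hu
    have e1 : HasDerivAt (fun u : ℝ => 1 + u) 1 u := (hasDerivAt_id u).const_add 1
    have e2 : HasDerivAt (fun u : ℝ => 1 - u) (-1) u := (hasDerivAt_id u).const_sub 1
    have p1 : (1 + u : ℝ) ≠ 0 := by have := hu.1; positivity
    have p2 : (1 - u : ℝ) ≠ 0 := by have := hu.2; linarith
    have e3 := (Real.hasDerivAt_mul_log p1).comp u e1
    have e4 := (Real.hasDerivAt_mul_log p2).comp u e2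
    have e5 : HasDerivAt (fun u : ℝ => u ^ 2) (2 * u) u := by
      simpa using hasDerivAt_pow 2 u
    have e6 := (e3.add e4).sub e5
    refine e6.congr_deriv ?_
    ring
  have hm : MonotoneOn (fun u : ℝ => (1 + u) * Real.log (1 + u) + (1 - u) * Real.log (1 - u)
      - u ^ 2) (Icc 0 1) := by
    refine monotoneOn_of_deriv_nonneg (convex_Icc 0 1) hc ?_ ?_
    · intro u hu
      exact (hd u hu).differentiableAt.differentiableWithinAt
    · intro u hu
      rw [(hd u hu).deriv]
      rw [interior_Icc] at hu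
      have hu1 : 0 < 1 - u := by linarith [hu.2]
      have hx : 0 ≤ 2 * u / (1 - u) := by have := hu.1; positivity
      have h := Real.le_log_one_add_of_nonneg hx
      have h2 : 1 + 2 * u / (1 - u) = (1 + u) / (1 - u) := by field_simp; ring
      rw [h2, Real.log_div (by linarith [hu.1]) hu1.ne'] at h
      have h3 : 2 * (2 * u / (1 - u)) / (2 * u / (1 - u) + 2) = 2 * u := by
        field_simp
        ring
      rw [h3] at h
      linarith
  have h := hm (left_mem_Icc.2 zero_le_one) ⟨h0, h1⟩ h0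
  simp only [add_zero, sub_zero, Real.log_one, mul_zero] at h
  norm_num at h
  linarith

theorem js_aux' {u : ℝ} (h0 : -1 ≤ u) (h1 : u ≤ 1) :
    u ^ 2 ≤ (1 + u) * Real.log (1 + u) + (1 - u) * Real.log (1 - u) := by
  rcases le_total 0 u with h | h
  · exact js_aux h h1
  · have := js_aux (u := -u) (by linarith) (by linarith)
    rw [neg_sq, sub_neg_eq_add, ← sub_eq_add_neg] at this
    linarith

/-- `(a-b)²/(2(a+b)) ≤ a log a + b log b - (a+b) log ((a+b)/2)` -/
theorem js_pt {a b : ℝ} (ha : 0 ≤ a) (hb : 0 ≤ b) :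
    (a - b) ^ 2 ≤ 2 * (a + b) *
      (a * Real.log a + b * Real.log b - (a + b) * Real.log ((a + b) / 2)) := by
  rcases eq_or_lt_of_le (add_nonneg ha hb) with h | h
  · have h1 : a = 0 := by linarith
    have h2 : b = 0 := by linarith
    simp [h1, h2]
  · set c := (a + b) / 2 with hc
    have hc0 : 0 < c := by positivity
    set u := (a - b) / (a + b) with hu
    have ha' : a = c * (1 + u) := by rw [hc, hu]; field_simp; ring
    have hb' : b = c * (1 - u) := by rw [hc, hu]; field_simp; ring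
    have hu0 : -1 ≤ u := by rw [hu, le_div_iff₀ h]; linarith
    have hu1 : u ≤ 1 := by rw [hu, div_le_iff₀ h]; linarith
    have key := js_aux' hu0 hu1
    have l1 : a * Real.log a = c * (1 + u) * Real.log c + c * ((1 + u) * Real.log (1 + u)) := by
      rcases eq_or_ne (1 + u) 0 with h0 | h0
      · rw [ha', h0]; simp
      · rw [ha', Real.log_mul hc0.ne' h0]; ring
    have l2 : b * Real.log b = c * (1 - u) * Real.log c + c * ((1 - u) * Real.log (1 - u)) := by
      rcases eq_or_ne (1 - u) 0 with h0 | h0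
      · rw [hb', h0]; simp
      · rw [hb', Real.log_mul hc0.ne' h0]; ring
    have h3 : a + b = 2 * c := by rw [hc]; ring
    have h4 : a - b = 2 * c * u := by rw [ha', hb']; ring
    have h5 : a * Real.log a + b * Real.log b - (a + b) * Real.log c =
        c * ((1 + u) * Real.log (1 + u) + (1 - u) * Real.log (1 - u)) := by
      rw [l1, l2, h3]; ring
    rw [h5, h3, h4]
    nlinarith [mul_nonneg (mul_nonneg hc0.le hc0.le) (sub_nonneg.2 key)]

/-- upper bound of `c log c`, `c = (a+b)/2` -/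
theorem js_pt_nonneg {a b : ℝ} (ha : 0 ≤ a) (hb : 0 ≤ b) :
    0 ≤ a * Real.log a + b * Real.log b - (a + b) * Real.log ((a + b) / 2) := by
  rcases eq_or_lt_of_le (add_nonneg ha hb) with h | h
  · have h1 : a = 0 := by linarith
    have h2 : b = 0 := by linarith
    simp [h1, h2]
  · have := js_pt ha hb
    have h2 : 0 ≤ 2 * (a + b) *
      (a * Real.log a + b * Real.log b - (a + b) * Real.log ((a + b) / 2)) :=
      (sq_nonneg _).trans this
    exact nonneg_of_mul_nonneg_right h2 (by positivity)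

theorem mul_log_superadd {a b : ℝ} (ha : 0 ≤ a) (hb : 0 ≤ b) :
    a * Real.log a + b * Real.log b ≤ (a + b) * Real.log (a + b) := by
  rcases eq_or_lt_of_le ha with h | h
  · rw [← h]; simp
  rcases eq_or_lt_of_le hb with h' | h'
  · rw [← h']; simp
  have h1 := Real.log_le_log h (by linarith : a ≤ a + b)
  have h2 := Real.log_le_log h' (by linarith : b ≤ a + b)
  nlinarith

theorem js_pt_le {a b : ℝ} (ha : 0 ≤ a) (hb : 0 ≤ b) :
    a * Real.log a + b * Real.log b - (a + b) * Real.log ((a + b) / 2) ≤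
      (a + b) * Real.log 2 := by
  rcases eq_or_lt_of_le (add_nonneg ha hb) with h | h
  · have h1 : a = 0 := by linarith
    have h2 : b = 0 := by linarith
    simp [h1, h2]
  · rw [Real.log_div h.ne' two_ne_zero]
    have := mul_log_superadd ha hb
    linarith

/-! ## The integrated inequality -/

section integrated

variable {X : Type u} [MeasurableSpace X]

/-- the midpoint of two measures -/
noncomputable def midM (μ ν : Measure X) : Measure X := (2⁻¹ : ℝ≥0∞) • (μ + ν)

theorem midM_prob (μ ν : Measure X) [IsProbabilityMeasure μ] [IsProbabilityMeasure ν] :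
    IsProbabilityMeasure (midM μ ν) := by
  refine ⟨?_⟩
  rw [midM, Measure.smul_apply, Measure.add_apply, measure_univ, measure_univ, smul_eq_mul,
    one_add_one_eq_two]
  exact ENNReal.inv_mul_cancel two_ne_zero ENNReal.ofNat_ne_top

theorem midM_comm (μ ν : Measure X) : midM μ ν = midM ν μ := by rw [midM, midM, add_comm]

theorem midM_ac {m μ ν : Measure X} (h1 : μ ≪ m) (h2 : ν ≪ m) : midM μ ν ≪ m := by
  rw [midM]
  exact (Measure.AbsolutelyContinuous.add_left h1 h2).smul_left _

theorem midM_rnDeriv {m μ ν : Measure X} [SigmaFinite m] [IsProbabilityMeasure μ]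
    [IsProbabilityMeasure ν] :
    (fun x => ((midM μ ν).rnDeriv m x).toReal) =ᵐ[m]
      fun x => ((μ.rnDeriv m x).toReal + (ν.rnDeriv m x).toReal) / 2 := by
  have h1 := Measure.rnDeriv_add μ ν m
  have h2 := Measure.rnDeriv_smul_left_of_ne_top (μ + ν) m (r := (2⁻¹ : ℝ≥0∞)) (by simp)
  filter_upwards [h1, h2, Measure.rnDeriv_lt_top μ m, Measure.rnDeriv_lt_top ν m]
    with x e1 e2 e3 e4
  rw [midM, e2, Pi.smul_apply, e1, Pi.add_apply, smul_eq_mul, ENNReal.toReal_mul,
    ENNReal.toReal_add e3.ne e4.ne]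
  simp
  ring

/-- the integrand of the Jensen-Shannon divergence -/
noncomputable def jsI (m μ ν : Measure X) (x : X) : ℝ :=
  (μ.rnDeriv m x).toReal * Real.log (μ.rnDeriv m x).toReal
    + (ν.rnDeriv m x).toReal * Real.log (ν.rnDeriv m x).toReal
    - ((μ.rnDeriv m x).toReal + (ν.rnDeriv m x).toReal)
      * Real.log (((μ.rnDeriv m x).toReal + (ν.rnDeriv m x).toReal) / 2)

theorem jsI_nonneg (m μ ν : Measure X) (x : X) : 0 ≤ jsI m μ ν x :=
  js_pt_nonneg ENNReal.toReal_nonneg ENNReal.toReal_nonneg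

theorem measurable_jsI (m μ ν : Measure X) : Measurable (jsI m μ ν) := by
  have h1 := (Measure.measurable_rnDeriv μ m).ennreal_toReal
  have h2 := (Measure.measurable_rnDeriv ν m).ennreal_toReal
  unfold jsI
  fun_prop

theorem integrable_jsI (m μ ν : Measure X) [SigmaFinite m] [IsProbabilityMeasure μ]
    [IsProbabilityMeasure ν] : Integrable (jsI m μ ν) m := by
  have h1 : Integrable (fun x => (μ.rnDeriv m x).toReal) m := Measure.integrable_toReal_rnDeriv
  have h2 : Integrable (fun x => (ν.rnDeriv m x).toReal) m := Measure.integrable_toReal_rnDeriv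
  refine ((h1.add h2).mul_const (Real.log 2)).mono (measurable_jsI m μ ν).aestronglyMeasurable
    (ae_of_all _ fun x => ?_)
  rw [Real.norm_eq_abs, Real.norm_eq_abs, abs_of_nonneg (jsI_nonneg m μ ν x)]
  exact (js_pt_le ENNReal.toReal_nonneg ENNReal.toReal_nonneg).trans (le_abs_self _)

variable {m μ ν : Measure X} [SigmaFinite m] [IsProbabilityMeasure μ] [IsProbabilityMeasure ν]

theorem integrable_mul_log (h1 : μ ≪ m) (i1 : Integrable (llr μ m) μ) :
    Integrable (fun x => (μ.rnDeriv m x).toReal * Real.log (μ.rnDeriv m x).toReal) m :=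
  (integrable_rnDeriv_mul_log_iff h1).2 i1

theorem integrable_mid_mul_log (h1 : μ ≪ m) (h2 : ν ≪ m) (i1 : Integrable (llr μ m) μ)
    (i2 : Integrable (llr ν m) ν) :
    Integrable (fun x => ((μ.rnDeriv m x).toReal + (ν.rnDeriv m x).toReal)
      * Real.log (((μ.rnDeriv m x).toReal + (ν.rnDeriv m x).toReal) / 2)) m := by
  have h := ((integrable_mul_log h1 i1).add (integrable_mul_log h2 i2)).sub
    (integrable_jsI m μ ν)
  refine h.congr (ae_of_all _ fun x => ?_)
  simp only [Pi.add_apply, Pi.sub_apply, jsI]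
  ring

theorem midM_mul_log_ae : (fun x => ((midM μ ν).rnDeriv m x).toReal *
      Real.log ((midM μ ν).rnDeriv m x).toReal) =ᵐ[m]
    fun x => 2⁻¹ * (((μ.rnDeriv m x).toReal + (ν.rnDeriv m x).toReal)
      * Real.log (((μ.rnDeriv m x).toReal + (ν.rnDeriv m x).toReal) / 2)) := by
  filter_upwards [midM_rnDeriv (m := m) (μ := μ) (ν := ν)] with x hx
  rw [hx]
  ring

/-- the midpoint has finite entropy -/
theorem midM_integrable (h1 : μ ≪ m) (h2 : ν ≪ m) (i1 : Integrable (llr μ m) μ)
    (i2 : Integrable (llr ν m) ν) : Integrable (llr (midM μ ν) m) (midM μ ν) := by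
  have := midM_prob μ ν
  rw [← integrable_rnDeriv_mul_log_iff (midM_ac h1 h2)]
  exact ((integrable_mid_mul_log h1 h2 i1 i2).const_mul 2⁻¹).congr midM_mul_log_ae.symm

theorem integral_jsI (h1 : μ ≪ m) (h2 : ν ≪ m) (i1 : Integrable (llr μ m) μ)
    (i2 : Integrable (llr ν m) ν) :
    ∫ x, jsI m μ ν x ∂m = ∫ x, llr μ m x ∂μ + ∫ x, llr ν m x ∂ν
      - 2 * ∫ x, llr (midM μ ν) m x ∂(midM μ ν) := by
  have := midM_prob μ ν
  have e1 := integral_add (integrable_mul_log h1 i1) (integrable_mul_log h2 i2)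
  have e2 := integral_sub ((integrable_mul_log h1 i1).add (integrable_mul_log h2 i2))
      (integrable_mid_mul_log h1 h2 i1 i2)
  rw [← integral_rnDeriv_mul_log h1, ← integral_rnDeriv_mul_log h2,
    ← integral_rnDeriv_mul_log (midM_ac h1 h2), integral_congr_ae midM_mul_log_ae,
    integral_const_mul, ← mul_assoc, mul_inv_cancel₀ two_ne_zero, one_mul]
  refine Eq.trans ?_ (e2.trans ?_)
  · rfl
  · congr 1

/-- Pinsker's inequality for the Jensen-Shannon divergence, tested with a bounded function. -/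
theorem pinsker_js (h1 : μ ≪ m) (h2 : ν ≪ m) {φ : X → ℝ} (hφ : Measurable φ) {M : ℝ}
    (hM : ∀ x, |φ x| ≤ M) :
    (∫ x, φ x ∂μ - ∫ x, φ x ∂ν) ^ 2 ≤ 4 * M ^ 2 * ∫ x, jsI m μ ν x ∂m := by
  set a : X → ℝ := fun x => (μ.rnDeriv m x).toReal with ha
  set b : X → ℝ := fun x => (ν.rnDeriv m x).toReal with hb
  have ia : Integrable a m := Measure.integrable_toReal_rnDeriv
  have ib : Integrable b m := Measure.integrable_toReal_rnDeriv
  have a0 : ∀ x, 0 ≤ a x := fun x => ENNReal.toReal_nonneg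
  have b0 : ∀ x, 0 ≤ b x := fun x => ENNReal.toReal_nonneg
  have iJ := integrable_jsI m μ ν
  have ha1 : ∫ x, a x ∂m = 1 := by
    rw [ha, Measure.integral_toReal_rnDeriv h1]; simp
  have hb1 : ∫ x, b x ∂m = 1 := by
    rw [hb, Measure.integral_toReal_rnDeriv h2]; simp
  have e1 : ∫ x, φ x ∂μ = ∫ x, a x * φ x ∂m := by
    rw [← integral_rnDeriv_smul h1]; rfl
  have e2 : ∫ x, φ x ∂ν = ∫ x, b x * φ x ∂m := by
    rw [← integral_rnDeriv_smul h2]; rfl
  have iaφ : Integrable (fun x => a x * φ x) m :=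
    ia.mul_bdd (c := M) hφ.aestronglyMeasurable (ae_of_all _ fun x => hM x)
  have ibφ : Integrable (fun x => b x * φ x) m :=
    ib.mul_bdd (c := M) hφ.aestronglyMeasurable (ae_of_all _ fun x => hM x)
  have iab : Integrable (fun x => |a x - b x|) m := (ia.sub ib).abs
  set T : ℝ := ∫ x, |a x - b x| ∂m with hT
  set J : ℝ := ∫ x, jsI m μ ν x ∂m with hJ
  have hT0 : 0 ≤ T := integral_nonneg fun x => abs_nonneg _
  have hJ0 : 0 ≤ J := integral_nonneg fun x => jsI_nonneg m μ ν x
  rcases isEmpty_or_nonempty X with hX | ⟨⟨x0⟩⟩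
  · exfalso
    have : μ = 0 := Measure.eq_zero_of_isEmpty μ
    exact IsProbabilityMeasure.ne_zero μ this
  have hM0 : 0 ≤ M := (abs_nonneg _).trans (hM x0)
  have h3 : |∫ x, φ x ∂μ - ∫ x, φ x ∂ν| ≤ M * T := by
    rw [e1, e2, ← integral_sub iaφ ibφ, hT, ← integral_const_mul]
    refine (abs_integral_le_integral_abs).trans (integral_mono (iaφ.sub ibφ).abs
      (iab.const_mul M) fun x => ?_)
    change |a x * φ x - b x * φ x| ≤ M * |a x - b x|
    rw [← sub_mul, abs_mul, mul_comm]
    exact mul_le_mul_of_nonneg_right (hM x) (abs_nonneg _)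
  have h4 : ∀ l : ℝ, 0 < l → T ≤ l + J / l := by
    intro l hl
    have h5 : ∀ x, |a x - b x| ≤ l / 2 * (a x + b x) + l⁻¹ * jsI m μ ν x := by
      intro x
      have h6 := js_pt (a0 x) (b0 x)
      have h7 : 0 ≤ jsI m μ ν x := jsI_nonneg m μ ν x
      change (a x - b x) ^ 2 ≤ 2 * (a x + b x) * jsI m μ ν x at h6
      have h8 : (0 : ℝ) ≤ l / 2 * (a x + b x) + l⁻¹ * jsI m μ ν x := by
        have := a0 x; have := b0 x; positivity
      refine abs_le_of_sq_le_sq ?_ h8
      have h9 : (l / 2 * (a x + b x) + l⁻¹ * jsI m μ ν x) ^ 2 =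
          (l / 2 * (a x + b x) - l⁻¹ * jsI m μ ν x) ^ 2 + 2 * (a x + b x) * jsI m μ ν x := by
        field_simp
        ring
      rw [h9]
      nlinarith [sq_nonneg (l / 2 * (a x + b x) - l⁻¹ * jsI m μ ν x)]
    calc T ≤ ∫ x, (l / 2 * (a x + b x) + l⁻¹ * jsI m μ ν x) ∂m :=
          integral_mono iab (((ia.add ib).const_mul (l / 2)).add (iJ.const_mul l⁻¹)) h5
      _ = l / 2 * (1 + 1) + l⁻¹ * J := by
          have e3 : ∫ x, (l / 2 * (a x + b x) + l⁻¹ * jsI m μ ν x) ∂m =
              ∫ x, l / 2 * (a x + b x) ∂m + ∫ x, l⁻¹ * jsI m μ ν x ∂m :=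
            integral_add ((ia.add ib).const_mul (l / 2)) (iJ.const_mul l⁻¹)
          have e4 : ∫ x, (a x + b x) ∂m = ∫ x, a x ∂m + ∫ x, b x ∂m := integral_add ia ib
          rw [e3, integral_const_mul, integral_const_mul, e4, ha1, hb1]
      _ = l + J / l := by ring
  have h5 : T ^ 2 ≤ 4 * J := by
    rcases eq_or_lt_of_le hJ0 with h | h
    · have h6 : T ≤ 0 := by
        refine le_of_forall_pos_le_add fun l hl => ?_
        have := h4 l hl
        rw [← h] at this
        simpa using this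
      have h7 : T = 0 := le_antisymm h6 hT0
      rw [h7, ← h]; norm_num
    · have hs : 0 < √J := Real.sqrt_pos.2 h
      have h6 := h4 (√J) hs
      have h7 : J / √J = √J := by
        rw [div_eq_iff hs.ne']; exact (Real.mul_self_sqrt hJ0).symm
      rw [h7] at h6
      have h8 : T ^ 2 ≤ (2 * √J) ^ 2 := pow_le_pow_left₀ hT0 (by linarith) 2
      rw [mul_pow, Real.sq_sqrt hJ0] at h8
      linarith
  calc (∫ x, φ x ∂μ - ∫ x, φ x ∂ν) ^ 2 = |∫ x, φ x ∂μ - ∫ x, φ x ∂ν| ^ 2 := (sq_abs _).symm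
    _ ≤ (M * T) ^ 2 := pow_le_pow_left₀ (abs_nonneg _) h3 2
    _ = M ^ 2 * T ^ 2 := by ring
    _ ≤ M ^ 2 * (4 * J) := mul_le_mul_of_nonneg_left h5 (sq_nonneg M)
    _ = 4 * M ^ 2 * J := by ring

end integrated

end Pool.Agent.BDRY
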