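import Pool.Agent.Work.MP_209cb6_gt.Evi
import Pool.Agent.Work.MP_209cb6_gt.B2.Pinsker

/-!
# BDRY2, M1(d): the total variation bound from EVI tested with the midpoint

If two EVI flows are at distance `≤ D` at time `t`, then
`|∫ φ dμ_t - ∫ φ dν_t| ≤ C |φ|_∞ √(D / √t)`.
-/

set_option autoImplicit false

open MeasureTheory MeasureTheory.Measure Metric Set Filter Topology
open scoped ENNReal NNReal

namespace Pool.Agent.BDRY

universe u

section mid
variable {X : Type u} [MetricSpace X] [MeasurableSpace X]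

theorem isP2_midM [OpensMeasurableSpace X] {μ ν : Measure X} (hμ : IsP2 μ) (hν : IsP2 ν) :
    IsP2 (midM μ ν) := by
  have := hμ.1
  have := hν.1
  refine ⟨midM_prob μ ν, ?_⟩
  obtain ⟨x, hx⟩ := hμ.2
  refine ⟨x, ?_⟩
  rw [midM, lintegral_smul_measure, lintegral_add_measure, smul_eq_mul]
  exact ENNReal.mul_lt_top (by simp) (ENNReal.add_lt_top.2 ⟨hx, hν.lt_top x⟩)

theorem W2sq_midM_le [OpensMeasurableSpace X] [SecondCountableTopology X] (μ ν : Measure X) :
    W2sq μ (midM μ ν) ≤ 2⁻¹ * W2sq μ ν := by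
  have h1 : ∀ π : Measure (X × X), π.map Prod.fst = μ → π.map Prod.snd = ν →
      W2sq μ (midM μ ν) ≤ 2⁻¹ * ∫⁻ z, edist z.1 z.2 ^ 2 ∂π := by
    intro π h1 h2
    have hd : Measurable fun x : X => (x, x) := measurable_id.prodMk measurable_id
    refine (W2sq_le_of_coupling ((2⁻¹ : ℝ≥0∞) • (μ.map (fun x => (x, x)) + π)) ?_ ?_).trans ?_
    · rw [Measure.map_smul, Measure.map_add _ _ measurable_fst, h1,
        Measure.map_map measurable_fst hd]
      have : (Prod.fst ∘ fun x : X => (x, x)) = id := rfl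
      rw [this, Measure.map_id, ← two_smul ℝ≥0∞ μ, smul_smul,
        ENNReal.inv_mul_cancel (by norm_num) (by norm_num), one_smul]
    · rw [Measure.map_smul, Measure.map_add _ _ measurable_snd, h2,
        Measure.map_map measurable_snd hd]
      have : (Prod.snd ∘ fun x : X => (x, x)) = id := rfl
      rw [this, Measure.map_id]
      rfl
    · rw [lintegral_smul_measure, lintegral_add_measure, lintegral_map (by fun_prop) hd]
      simp
  unfold W2sq at h1 ⊢
  rw [ENNReal.mul_iInf_of_ne (by simp) (by simp)]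
  refine le_iInf fun π => ?_
  exact h1 π.1 π.2.1 π.2.2

theorem W2_midM_sq_le [OpensMeasurableSpace X] [SecondCountableTopology X] {μ ν : Measure X}
    (hμ : IsP2 μ) (hν : IsP2 ν) : W2 μ (midM μ ν) ^ 2 ≤ W2 μ ν ^ 2 / 2 := by
  rw [W2_sq, W2_sq]
  have h := W2sq_midM_le μ ν
  have h1 : (2⁻¹ * W2sq μ ν).toReal = (W2sq μ ν).toReal / 2 := by
    rw [ENNReal.toReal_mul, ENNReal.toReal_inv]
    simp
    ring
  rw [← h1]
  exact ENNReal.toReal_mono (ENNReal.mul_ne_top (by simp) (W2sq_lt_top hμ hν).ne) h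

theorem W2_midM_le [OpensMeasurableSpace X] [SecondCountableTopology X] {μ ν : Measure X}
    (hμ : IsP2 μ) (hν : IsP2 ν) : W2 μ (midM μ ν) ≤ W2 μ ν := by
  have h := W2_midM_sq_le hμ hν
  refine abs_le_of_sq_le_sq' ?_ (W2_nonneg μ ν) |>.2
  nlinarith [sq_nonneg (W2 μ ν)]

end mid

theorem un_pos_iff {X : Type u} [MeasurableSpace X] {N : ℕ} {m μ : Measure X} :
    0 < UN N m μ ↔ μ ≪ m ∧ Integrable (llr μ m) μ := by
  unfold UN
  split_ifs with h
  · exact ⟨fun _ => h, fun _ => Real.exp_pos _⟩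
  · exact ⟨fun h' => absurd h' (lt_irrefl _), fun h' => absurd h' h⟩

theorem log_UN {X : Type u} [MeasurableSpace X] {N : ℕ} {m μ : Measure X} (h : 0 < UN N m μ) :
    Real.log (UN N m μ) = -(∫ x, llr μ m x ∂μ) / N := by
  have h1 := un_pos_iff.1 h
  rw [UN, if_pos h1, Real.log_exp]

/-- `sK` is at most linear on bounded intervals -/
theorem sK_le_linear {κ : ℝ} (hκ : κ ≤ 0) {x : ℝ} (hx : 0 ≤ x) (hx1 : x ≤ 1) :
    sK κ x ≤ Real.cosh (√(-κ)) * x := by
  rcases hκ.eq_or_lt with h | h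
  · subst h
    simp [sK]
  · have hk : 0 < √(-κ) := Real.sqrt_pos.2 (by linarith)
    rw [sK, if_pos h, div_le_iff₀ hk]
    have h1 := sinh_sub_le (x := √(-κ) * x) (y := 0) le_rfl (by positivity)
    rw [Real.sinh_zero, sub_zero, sub_zero] at h1
    have h2 : Real.cosh (√(-κ) * x) ≤ Real.cosh (√(-κ)) := by
      rw [Real.cosh_le_cosh, abs_of_nonneg (by positivity), abs_of_nonneg hk.le]
      exact mul_le_of_le_one_right hk.le hx1
    have h3 : √(-κ) * x * Real.cosh (√(-κ) * x) ≤ √(-κ) * x * Real.cosh (√(-κ)) := by gcongr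
    linarith

section flow
variable {X : Type u} [MetricSpace X] [MeasurableSpace X] {K : ℝ} {N : ℕ} {m : Measure X}
  {μ : ℝ → Measure X}

/-- EVI in logarithmic form, with the growth of `UN` along the flow -/
theorem IsEVIFlow.evi_log (hN : 0 < N) (h : IsEVIFlow K N m μ) {σ : Measure X}
    (hσ : IsP2 σ) (hσ0 : 0 < UN N m σ) {t s γ : ℝ} (ht : 0 < t) (hts : t ≤ s)
    (hγ : ∀ v ∈ Icc t s, UN N m (μ v) ≤ Real.exp γ * UN N m (μ t)) :
    -(Real.exp (K * t) * sK (K / N) (W2 (μ t) σ / 2) ^ 2) ≤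
      (∫ v in t..s, Real.exp (K * v)) / 2 *
        (N * γ + ∫ x, llr σ m x ∂σ - ∫ x, llr (μ t) m x ∂(μ t)) := by
  have hcont : Continuous fun t : ℝ => Real.exp (K * t) := by fun_prop
  have hN' : (0 : ℝ) < N := Nat.cast_pos.2 hN
  have h1 := h.evi σ hσ hσ0 t s ht hts
  have h0 : 0 ≤ Real.exp (K * s) * sK (K / N) (W2 (μ s) σ / 2) ^ 2 := by positivity
  have hUt := h.dom t ht
  set A : ℝ := γ + Real.log (UN N m (μ t)) - Real.log (UN N m σ) with hA
  have h2 : ∫ v in t..s, Real.exp (K * v) * (1 - UN N m σ / UN N m (μ v)) ≤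
      ∫ v in t..s, Real.exp (K * v) * A := by
    refine intervalIntegral.integral_mono_on hts ?_ ?_ ?_
    · have h1 : (fun v => Real.exp (K * v) * (1 - UN N m σ / UN N m (μ v))) = fun v =>
          Real.exp (K * v) - Real.exp (K * v) * (UN N m σ * (UN N m (μ v))⁻¹) := by
        funext v
        rw [div_eq_mul_inv]
        ring
      rw [h1]
      exact (hcont.intervalIntegrable t s).sub
        (((h.int t s ht hts).const_mul _).continuousOn_mul hcont.continuousOn)
    · exact (hcont.mul_const _).intervalIntegrable t s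
    · intro v hv
      refine mul_le_mul_of_nonneg_left ?_ (Real.exp_pos _).le
      have hUv := h.dom v (ht.trans_le hv.1)
      have h3 := hγ v hv
      have h4 : Real.log (UN N m (μ v)) ≤ γ + Real.log (UN N m (μ t)) := by
        have h5 := Real.log_le_log hUv h3
        rwa [Real.log_mul (Real.exp_pos _).ne' hUt.ne', Real.log_exp] at h5
      have h6 := Real.log_le_sub_one_of_pos (div_pos hσ0 hUv)
      rw [Real.log_div hσ0.ne' hUv.ne'] at h6
      rw [hA]
      linarith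
  rw [intervalIntegral.integral_mul_const] at h2
  have h3 : (N : ℝ) * A = N * γ + ∫ x, llr σ m x ∂σ - ∫ x, llr (μ t) m x ∂(μ t) := by
    rw [hA, log_UN hUt, log_UN hσ0]
    field_simp
    ring
  have h4 : (N : ℝ) / 2 * ∫ v in t..s, Real.exp (K * v) * (1 - UN N m σ / UN N m (μ v)) ≤
      N / 2 * ((∫ v in t..s, Real.exp (K * v)) * A) := by gcongr
  rw [← h3]
  have h5 : (N : ℝ) / 2 * ((∫ v in t..s, Real.exp (K * v)) * A) =
      (∫ v in t..s, Real.exp (K * v)) / 2 * (N * A) := by ring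
  linarith

theorem exp_int_ge' {K : ℝ} (hK : K ≤ 0) {t s : ℝ} (hts : t ≤ s) :
    (s - t) * Real.exp (K * s) ≤ ∫ v in t..s, Real.exp (K * v) := by
  have hcont : Continuous fun t : ℝ => Real.exp (K * t) := by fun_prop
  have h : ∫ _ in t..s, Real.exp (K * s) ≤ ∫ v in t..s, Real.exp (K * v) := by
    refine intervalIntegral.integral_mono_on hts intervalIntegrable_const
      (hcont.intervalIntegrable t s) fun v hv => ?_
    exact Real.exp_le_exp.2 (mul_le_mul_of_nonpos_left hv.2 hK)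
  rwa [intervalIntegral.integral_const, smul_eq_mul] at h

/-- the Jensen-Shannon divergence of two EVI flows at time `t`, in terms of their distance -/
theorem jsI_flow_le [BorelSpace X] [SecondCountableTopology X] [SigmaFinite m] (hK : K ≤ 0)
    (hN : 0 < N) {ν : ℝ → Measure X} (hμ : IsEVIFlow K N m μ) (hν : IsEVIFlow K N m ν)
    {t h γ D : ℝ} (ht : 0 < t) (hh : 0 < h) (hD : W2 (μ t) (ν t) ≤ D) (hD1 : D ≤ 1)
    (gμ : ∀ v ∈ Icc t (t + h), UN N m (μ v) ≤ Real.exp γ * UN N m (μ t))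
    (gν : ∀ v ∈ Icc t (t + h), UN N m (ν v) ≤ Real.exp γ * UN N m (ν t)) :
    ∫ x, jsI m (μ t) (ν t) x ∂m ≤ 2 * N * γ +
      Real.exp (-K * h) * Real.cosh (√(-(K / N))) ^ 2 * D ^ 2 / (2 * h) := by
  have hκ : K / N ≤ 0 := div_nonpos_of_nonpos_of_nonneg hK (Nat.cast_nonneg N)
  have p1 := hμ.p2 t ht.le
  have p2 := hν.p2 t ht.le
  have := p1.1
  have := p2.1
  have u1 := un_pos_iff.1 (hμ.dom t ht)
  have u2 := un_pos_iff.1 (hν.dom t ht)
  have pm := isP2_midM p1 p2
  have um : 0 < UN N m (midM (μ t) (ν t)) :=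
    un_pos_iff.2 ⟨midM_ac u1.1 u2.1, midM_integrable u1.1 u2.1 u1.2 u2.2⟩
  have hJ := integral_jsI u1.1 u2.1 u1.2 u2.2
  have e1 := hμ.evi_log hN pm um ht (by linarith : t ≤ t + h) gμ
  have e2 := hν.evi_log hN pm um ht (by linarith : t ≤ t + h) gν
  set I := ∫ v in t..(t + h), Real.exp (K * v) with hI
  have hI1 : h * Real.exp (K * (t + h)) ≤ I := by
    have := exp_int_ge' hK (by linarith : t ≤ t + h)
    rwa [add_sub_cancel_left] at this
  have hI0 : 0 < I := lt_of_lt_of_le (by positivity) hI1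
  have hD0 : 0 ≤ W2 (μ t) (ν t) := W2_nonneg _ _
  set c := Real.cosh (√(-(K / N))) with hc
  have hc0 : 0 < c := Real.cosh_pos _
  have key : ∀ w : ℝ, 0 ≤ w → w ^ 2 ≤ D ^ 2 / 2 → sK (K / N) (w / 2) ^ 2 ≤ c ^ 2 * D ^ 2 / 8 := by
    intro w hw hw2
    have hw1 : w ≤ 1 := by nlinarith
    have h1 := sK_le_linear hκ (x := w / 2) (by linarith) (by linarith)
    have h2 : 0 ≤ sK (K / N) (w / 2) := sK_nonneg hκ (by linarith)
    calc sK (K / N) (w / 2) ^ 2 ≤ (c * (w / 2)) ^ 2 := pow_le_pow_left₀ h2 h1 2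
      _ = c ^ 2 * w ^ 2 / 4 := by ring
      _ ≤ c ^ 2 * (D ^ 2 / 2) / 4 := by gcongr
      _ = _ := by ring
  have hDD : W2 (μ t) (ν t) ^ 2 ≤ D ^ 2 := pow_le_pow_left₀ hD0 hD 2
  have k1 := key (W2 (μ t) (midM (μ t) (ν t))) (W2_nonneg _ _)
    ((W2_midM_sq_le p1 p2).trans (by linarith))
  have k2 := key (W2 (ν t) (midM (μ t) (ν t))) (W2_nonneg _ _) (by
    rw [midM_comm]
    refine (W2_midM_sq_le p2 p1).trans ?_
    rw [W2_comm (ν t) (μ t)]
    linarith)
  have k1' := mul_le_mul_of_nonneg_left k1 (Real.exp_pos (K * t)).le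
  have k2' := mul_le_mul_of_nonneg_left k2 (Real.exp_pos (K * t)).le
  set J := ∫ x, jsI m (μ t) (ν t) x ∂m with hJdef
  have h3 : I / 2 * J ≤ I / 2 * (2 * N * γ) + Real.exp (K * t) * (c ^ 2 * D ^ 2 / 4) := by
    have h4 : I / 2 * J = I / 2 * (2 * N * γ) -
        (I / 2 * (N * γ + ∫ x, llr (midM (μ t) (ν t)) m x ∂(midM (μ t) (ν t))
          - ∫ x, llr (μ t) m x ∂(μ t)) +
        I / 2 * (N * γ + ∫ x, llr (midM (μ t) (ν t)) m x ∂(midM (μ t) (ν t))
          - ∫ x, llr (ν t) m x ∂(ν t))) := by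
      rw [hJ]
      ring
    rw [h4]
    linarith
  have h5 : Real.exp (K * t) * (c ^ 2 * D ^ 2 / 4) ≤
      I / 2 * (Real.exp (-K * h) * c ^ 2 * D ^ 2 / (2 * h)) := by
    have h6 : Real.exp (-K * h) * Real.exp (K * (t + h)) = Real.exp (K * t) := by
      rw [← Real.exp_add]
      congr 1
      ring
    have h7 : (h * Real.exp (K * (t + h))) / 2 * (Real.exp (-K * h) * c ^ 2 * D ^ 2 / (2 * h)) =
        Real.exp (K * t) * (c ^ 2 * D ^ 2 / 4) := by
      rw [← h6]
      field_simp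
      ring
    rw [← h7]
    gcongr
  have h8 : I / 2 * J ≤ I / 2 * (2 * N * γ + Real.exp (-K * h) * c ^ 2 * D ^ 2 / (2 * h)) := by
    rw [mul_add]
    linarith
  exact le_of_mul_le_mul_left h8 (by positivity)

end flow

/-- **The total variation bound.** `g` bounds the growth of the entropy power. -/
theorem tv_flow {K : ℝ} (hK : K ≤ 0) {N : ℕ} (hN : 0 < N) {g : ℝ} (hg : 0 ≤ g) :
    ∃ C : ℝ, 0 < C ∧ ∀ (X : Type u) [MetricSpace X] [MeasurableSpace X] [BorelSpace X]
      [SecondCountableTopology X] (m : Measure X) [SigmaFinite m] (μ ν : ℝ → Measure X),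
      IsEVIFlow K N m μ → IsEVIFlow K N m ν → ∀ t D : ℝ, 0 < t → t ≤ 1 → 0 < D →
      W2 (μ t) (ν t) ≤ D →
      (∀ v ∈ Icc t (2 * t), UN N m (μ v) ≤ Real.exp (g * ((v - t) / t)) * UN N m (μ t)) →
      (∀ v ∈ Icc t (2 * t), UN N m (ν v) ≤ Real.exp (g * ((v - t) / t)) * UN N m (ν t)) →
      ∀ (φ : X → ℝ) (M : ℝ), Measurable φ → (∀ x, |φ x| ≤ M) →
      |∫ x, φ x ∂(μ t) - ∫ x, φ x ∂(ν t)| ≤ C * M * √(D / √t) := by
  set c := Real.cosh (√(-(K / N))) with hc
  set B : ℝ := 2 * N * g + Real.exp (-K) * c ^ 2 / 2 with hB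
  have hB0 : 0 < B := by positivity
  refine ⟨2 * √B + 2, by positivity, ?_⟩
  intro X _ _ _ _ m _ μ ν hμ hν t D ht ht1 hD hW gμ gν φ M hφ hM
  have p1 := hμ.p2 t ht.le
  have p2 := hν.p2 t ht.le
  have := p1.1
  have := p2.1
  have hst : 0 < √t := Real.sqrt_pos.2 ht
  have hstt : √t * √t = t := Real.mul_self_sqrt ht.le
  have hM0 : 0 ≤ M := by
    obtain ⟨x, -⟩ := p1.2
    exact (abs_nonneg _).trans (hM x)
  rcases le_total D (√t) with hDt | hDt
  · -- the main case
    have hst1 : √t ≤ 1 := Real.sqrt_le_one.2 ht1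
    have hh : 0 < D * √t := by positivity
    have hh1 : D * √t ≤ t := by nlinarith
    have hsub : ∀ v ∈ Icc t (t + D * √t), v ∈ Icc t (2 * t) ∧
        g * ((v - t) / t) ≤ g * (D / √t) := by
      intro v hv
      refine ⟨⟨hv.1, by linarith [hv.2]⟩, ?_⟩
      refine mul_le_mul_of_nonneg_left ?_ hg
      rw [div_le_div_iff₀ ht hst]
      have h1 : v - t ≤ D * √t := by linarith [hv.2]
      nlinarith
    have g1 : ∀ v ∈ Icc t (t + D * √t), UN N m (μ v) ≤ Real.exp (g * (D / √t)) * UN N m (μ t) :=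
      fun v hv => (gμ v (hsub v hv).1).trans (mul_le_mul_of_nonneg_right
        (Real.exp_le_exp.2 (hsub v hv).2) (hμ.dom t ht).le)
    have g2 : ∀ v ∈ Icc t (t + D * √t), UN N m (ν v) ≤ Real.exp (g * (D / √t)) * UN N m (ν t) :=
      fun v hv => (gν v (hsub v hv).1).trans (mul_le_mul_of_nonneg_right
        (Real.exp_le_exp.2 (hsub v hv).2) (hν.dom t ht).le)
    have hJ := jsI_flow_le hK hN hμ hν ht hh hW (hDt.trans hst1) g1 g2
    have u1 := un_pos_iff.1 (hμ.dom t ht)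
    have u2 := un_pos_iff.1 (hν.dom t ht)
    have hP := pinsker_js u1.1 u2.1 hφ hM
    have hJ2 : ∫ x, jsI m (μ t) (ν t) x ∂m ≤ B * (D / √t) := by
      refine hJ.trans ?_
      have h1 : Real.exp (-K * (D * √t)) ≤ Real.exp (-K) := by
        apply Real.exp_le_exp.2
        have : D * √t ≤ 1 := by linarith
        nlinarith
      have h2 : Real.exp (-K * (D * √t)) * c ^ 2 * D ^ 2 / (2 * (D * √t)) ≤
          Real.exp (-K) * c ^ 2 * D ^ 2 / (2 * (D * √t)) := by gcongr
      have h3 : Real.exp (-K) * c ^ 2 * D ^ 2 / (2 * (D * √t)) =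
          Real.exp (-K) * c ^ 2 / 2 * (D / √t) := by
        field_simp
      rw [hB]
      rw [h3] at h2
      linarith
    have h4 : (∫ x, φ x ∂(μ t) - ∫ x, φ x ∂(ν t)) ^ 2 ≤ (2 * √B * M * √(D / √t)) ^ 2 := by
      calc (∫ x, φ x ∂(μ t) - ∫ x, φ x ∂(ν t)) ^ 2 ≤ 4 * M ^ 2 * (B * (D / √t)) := by
            refine hP.trans ?_
            gcongr
        _ = _ := by
            rw [mul_pow, mul_pow, mul_pow, Real.sq_sqrt hB0.le,
              Real.sq_sqrt (div_nonneg hD.le hst.le)]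
            ring
    have h5 := abs_le_of_sq_le_sq h4 (by positivity)
    refine h5.trans ?_
    have h6 : 0 ≤ M * √(D / √t) := by positivity
    nlinarith
  · -- the trivial case
    have h1 : 1 ≤ √(D / √t) := by
      rw [Real.one_le_sqrt, one_le_div hst]
      exact hDt
    have h2 : ∀ ρ : Measure X, IsProbabilityMeasure ρ → |∫ x, φ x ∂ρ| ≤ M := by
      intro ρ hρ
      have h3 := norm_integral_le_of_norm_le_const (μ := ρ) (f := φ) (C := M)
        (ae_of_all _ fun x => hM x)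
      simpa using h3
    have h3 := h2 (μ t) p1.1
    have h4 := h2 (ν t) p2.1
    have h5 : |∫ x, φ x ∂(μ t) - ∫ x, φ x ∂(ν t)| ≤ 2 * M := by
      rw [abs_le] at h3 h4 ⊢
      constructor <;> linarith [h3.1, h3.2, h4.1, h4.2]
    refine h5.trans ?_
    have h6 : 2 * M ≤ (2 * √B + 2) * M * 1 := by
      have := Real.sqrt_nonneg B
      nlinarith
    exact h6.trans (by gcongr)

end Pool.Agent.BDRY
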