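import Pool.Agent.Work.MP_209cb6_gt.TwoTime
import Pool.Agent.Work.MP_209cb6_gt.B2.Flux
import Pool.Agent.Work.MP_209cb6_gt.B2.TVBound
import Pool.Agent.Work.MP_209cb6_gt.B2.UscMono
import Pool.Agent.Work.MP_209cb6_gt.B2.KerLow
import Pool.Agent.Work.MP_209cb6_gt.Col.Energy

/-!
# The heat kernel satisfies the axioms `HK` of the volume step
-/

set_option autoImplicit false

open MeasureTheory MeasureTheory.Measure Metric Set Filter Topology ProbabilityTheory
open scoped ENNReal NNReal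

namespace Pool.Agent.BDRY

universe u

/-- the kernel at the time `t` -/
noncomputable def kerP {X : Type u} [MeasurableSpace X] {m : Measure X} {P : ℝ → X → Measure X}
    (h : B2.SymKer m P) {t : ℝ} (ht : 0 < t) : Kernel X X :=
  ⟨P t, Measure.measurable_of_measurable_coe _ (h.meas t ht)⟩

theorem kerP_apply {X : Type u} [MeasurableSpace X] {m : Measure X} {P : ℝ → X → Measure X}
    (h : B2.SymKer m P) {t : ℝ} (ht : 0 < t) (x : X) : kerP h ht x = P t x := rfl

theorem kerP_markov {X : Type u} [MeasurableSpace X] {m : Measure X} {P : ℝ → X → Measure X}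
    (h : B2.SymKer m P) {t : ℝ} (ht : 0 < t) : IsMarkovKernel (kerP h ht) :=
  ⟨fun x => h.prob t ht x⟩

theorem kerP_symm {X : Type u} [MetricSpace X] [MeasurableSpace X] [BorelSpace X] {m : Measure X}
    {P : ℝ → X → Measure X} (hfin : ∀ (x : X) (r : ℝ), m (closedBall x r) < ∞) [SigmaFinite m]
    (h : B2.SymKer m P) {t : ℝ} (ht : 0 < t) :
    (m ⊗ₘ kerP h ht).map Prod.swap = m ⊗ₘ kerP h ht := by
  have := kerP_markov h ht
  rcases isEmpty_or_nonempty X with hX | ⟨⟨x₀⟩⟩
  · have : IsEmpty (X × X) := inferInstance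
    exact (Measure.eq_zero_of_isEmpty _).trans (Measure.eq_zero_of_isEmpty _).symm
  symm
  refine Measure.ext_of_generateFrom_of_iUnion
    (image2 (· ×ˢ ·) { s : Set X | MeasurableSet s } { t : Set X | MeasurableSet t })
    (fun i : ℕ => closedBall x₀ i ×ˢ univ) generateFrom_prod.symm isPiSystem_prod ?_ ?_ ?_ ?_
  · ext ⟨a, b⟩
    simp only [mem_iUnion, mem_prod, mem_univ, and_true, iff_true]
    obtain ⟨i, hi⟩ := exists_nat_ge (dist a x₀)
    exact ⟨i, mem_closedBall.2 hi⟩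
  · intro i
    exact ⟨_, measurableSet_closedBall, _, MeasurableSet.univ, rfl⟩
  · intro i
    rw [Measure.compProd_apply_prod measurableSet_closedBall MeasurableSet.univ]
    simp only [measure_univ, lintegral_const, Measure.restrict_apply_univ, one_mul]
    exact (hfin x₀ i).ne
  · rintro _ ⟨A, hA, B, hB, rfl⟩
    rw [Measure.map_apply measurable_swap (hA.prod hB), Set.preimage_swap_prod,
      Measure.compProd_apply_prod hA hB, Measure.compProd_apply_prod hB hA]
    exact h.symm t ht A B hA hB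

section

variable {X : Type u} [MetricSpace X] [MeasurableSpace X] [BorelSpace X]

/-- `log UN` grows at most like `1/2 log t` -/
theorem IsEVIFlow.UN_growth [ProperSpace X] {K : ℝ} (hK : K ≤ 0) {N : ℕ} (hN : 0 < N)
    {m : Measure X} {μ : ℝ → Measure X}
    (hfin : ∀ (x : X) (r : ℝ), m (closedBall x r) < ∞)
    (hexp : ∃ (x : X) (c : ℝ), 0 < c ∧ ∫⁻ y, ENNReal.ofReal (Real.exp (-c * dist x y ^ 2)) ∂m < ∞)
    (h : IsEVIFlow K N m μ) {t : ℝ} (ht : 0 < t) (ht1 : t ≤ 1) :
    ∀ v ∈ Icc t (2 * t), UN N m (μ v) ≤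
      Real.exp ((1 / 2 + (-K) * Real.exp (4 * (-K))) * ((v - t) / t)) * UN N m (μ t) := by
  intro v hv
  have hv0 : 0 < v := ht.trans_le hv.1
  have hmono : ∀ s t, 0 < s → s ≤ t → UN N m (μ s) ≤ UN N m (μ t) := fun s t hs hst =>
    h.UN_mono hN hfin hexp hs hst
  have hsp : ∀ s t, 0 < s → s ≤ t → sK (K / N) (W2 (μ s) (μ t) / 2) ^ 2 ≤
      Real.exp (-K * (s + t)) * (N / 2 * (√t - √s) ^ 2) := by
    intro s t hs hst
    have h1 := h.two_time hK hN h hs.le (hs.le.trans hst)
    rw [W2_self, zero_div, sK_zero_right] at h1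
    have h2 : Real.exp (-K * (s + t)) * Real.exp (K * (s + t)) = 1 := by
      rw [← Real.exp_add]; simp
    have h3 : Real.exp (K * (s + t)) * sK (K / N) (W2 (μ s) (μ t) / 2) ^ 2 ≤
        N / 2 * (√t - √s) ^ 2 := by
      nlinarith [h1]
    calc sK (K / N) (W2 (μ s) (μ t) / 2) ^ 2
        = Real.exp (-K * (s + t)) * (Real.exp (K * (s + t)) *
            sK (K / N) (W2 (μ s) (μ t) / 2) ^ 2) := by rw [← mul_assoc, h2, one_mul]
      _ ≤ _ := mul_le_mul_of_nonneg_left h3 (Real.exp_pos _).le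
  have hlog := h.log_UN_le' hK hN hmono hsp ht hv.1
  have hUt := h.dom t ht
  have hUv := h.dom v hv0
  have h4 : Real.log (v / t) ≤ (v - t) / t := by
    have := Real.log_le_sub_one_of_pos (div_pos hv0 ht)
    refine this.trans (le_of_eq ?_)
    field_simp
  have hx : 0 ≤ v - t := by linarith [hv.1]
  have h5 : (-K) * Real.exp (2 * (-K) * v) * (v - t) ≤
      (-K) * Real.exp (4 * (-K)) * ((v - t) / t) := by
    have e1 : Real.exp (2 * (-K) * v) ≤ Real.exp (4 * (-K)) := by
      refine Real.exp_le_exp.2 ?_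
      have : v ≤ 2 := by linarith [hv.2]
      nlinarith
    have e2 : v - t ≤ (v - t) / t := by
      rw [le_div_iff₀ ht]
      nlinarith
    have hK' : 0 ≤ -K := by linarith
    gcongr
  have h6 : Real.log (UN N m (μ v)) ≤
      (1 / 2 + (-K) * Real.exp (4 * (-K))) * ((v - t) / t) + Real.log (UN N m (μ t)) := by
    have : (1 / 2 + (-K) * Real.exp (4 * (-K))) * ((v - t) / t) =
        1 / 2 * ((v - t) / t) + (-K) * Real.exp (4 * (-K)) * ((v - t) / t) := by ring
    rw [this]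
    linarith
  calc UN N m (μ v) = Real.exp (Real.log (UN N m (μ v))) := (Real.exp_log hUv).symm
    _ ≤ Real.exp ((1 / 2 + (-K) * Real.exp (4 * (-K))) * ((v - t) / t) +
          Real.log (UN N m (μ t))) := Real.exp_le_exp.2 h6
    _ = _ := by rw [Real.exp_add, Real.exp_log hUt]

/-- contraction at a time `t ≤ 1` for Dirac starting points at distance at most `2` -/
theorem IsEVIFlow.W2_dirac_le [ProperSpace X] {K : ℝ} (hK : K ≤ 0) {N : ℕ} (hN : 0 < N)
    {m : Measure X} {μ ν : ℝ → Measure X} (h : IsEVIFlow K N m μ) (h' : IsEVIFlow K N m ν)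
    {y y' : X} (h0 : μ 0 = dirac y) (h0' : ν 0 = dirac y') (hd : dist y y' ≤ 2) {t : ℝ}
    (ht : 0 ≤ t) (ht1 : t ≤ 1) :
    W2 (μ t) (ν t) ≤ Real.exp (-K) * Real.cosh (√(-(K / N))) * dist y y' := by
  have hN' : (0 : ℝ) < N := Nat.cast_pos.2 hN
  have hκ : K / N ≤ 0 := div_nonpos_of_nonpos_of_nonneg hK hN'.le
  have h1 := h.contraction_sK hK hN h' ht
  rw [h0, h0', W2_dirac_dirac] at h1
  set W := W2 (μ t) (ν t) with hW
  set d := dist y y' with hdd
  have hW0 : 0 ≤ W := W2_nonneg _ _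
  have hd0 : 0 ≤ d := dist_nonneg
  have h2 := sK_le_linear hκ (x := d / 2) (by positivity) (by linarith)
  have h3 := le_sK hκ (x := W / 2) (by positivity)
  have hs0 := sK_nonneg hκ (x := d / 2) (by positivity)
  set c := Real.cosh (√(-(K / N))) with hc
  have hc0 : 0 < c := Real.cosh_pos _
  have h4 : (W / 2) ^ 2 ≤ sK (K / N) (W / 2) ^ 2 := pow_le_pow_left₀ (by positivity) h3 2
  have h5 : sK (K / N) (d / 2) ^ 2 ≤ (c * (d / 2)) ^ 2 := pow_le_pow_left₀ hs0 h2 2
  have h6 : Real.exp (-K) ^ 2 * Real.exp (2 * K * t) ≥ 1 := by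
    rw [← Real.exp_nat_mul, ← Real.exp_add]
    have : 0 ≤ ((2 : ℕ) : ℝ) * -K + 2 * K * t := by push_cast; nlinarith
    exact Real.one_le_exp this
  have h7 : (W / 2) ^ 2 ≤ (Real.exp (-K) * (c * (d / 2))) ^ 2 := by
    calc (W / 2) ^ 2 = 1 * (W / 2) ^ 2 := (one_mul _).symm
      _ ≤ (Real.exp (-K) ^ 2 * Real.exp (2 * K * t)) * (W / 2) ^ 2 :=
          mul_le_mul_of_nonneg_right h6 (sq_nonneg _)
      _ = Real.exp (-K) ^ 2 * (Real.exp (2 * K * t) * (W / 2) ^ 2) := by ring
      _ ≤ Real.exp (-K) ^ 2 * (Real.exp (2 * K * t) * sK (K / N) (W / 2) ^ 2) := by gcongr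
      _ ≤ Real.exp (-K) ^ 2 * (c * (d / 2)) ^ 2 := by
          refine mul_le_mul_of_nonneg_left (h1.trans h5) (sq_nonneg _)
      _ = _ := by ring
  have h8 := abs_le_of_sq_le_sq h7 (by positivity)
  have h9 : W / 2 ≤ Real.exp (-K) * (c * (d / 2)) := (abs_le.1 h8).2
  linarith

end

/-- the axioms `HK` -/
theorem hk_of {K : ℝ} (hK : K ≤ 0) (n : ℕ) {D0 : ℝ} (hD0 : 0 ≤ D0) : ∃ Nc c0 : ℝ, 0 < Nc ∧ 0 < c0 ∧
    ∀ (X : Type u) [MetricSpace X] [MeasurableSpace X] [BorelSpace X] (m : Measure X)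
      (P : ℝ → X → Measure X), IsRCD K (n + 1) X m → ∀ (hP : B2.SymKer m P),
      (∀ x, ∃ μ : ℝ → Measure X, μ 0 = dirac x ∧ IsEVIFlow K (n + 1) m μ ∧
        ∀ t, 0 < t → μ t = P t x) →
      ∀ (t : ℝ) (ht : 0 < t), t ≤ 1 → HK Nc c0 D0 t m (kerP hP ht) := by
  have hN : 0 < n + 1 := Nat.succ_pos n
  have hK' : 0 ≤ -K := by linarith
  set g : ℝ := 1 / 2 + (-K) * Real.exp (4 * (-K)) with hg
  have hg0 : 0 ≤ g := by positivity
  obtain ⟨C, hC0, hC⟩ := tv_flow.{u} hK hN hg0
  set B : ℝ := Real.exp (-K) * Real.cosh (√(-(K / (n + 1 : ℕ)))) with hB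
  have hB0 : 0 < B := by have := Real.cosh_pos (√(-(K / (n + 1 : ℕ)))); positivity
  set c0 : ℝ := min 1 (1 / (B * (C + 1) ^ 2)) with hc0
  have hc00 : 0 < c0 := lt_min one_pos (by positivity)
  have hc01 : c0 ≤ 1 := min_le_left _ _
  have hc0B : B * c0 * (C + 1) ^ 2 ≤ 1 := by
    have : c0 ≤ 1 / (B * (C + 1) ^ 2) := min_le_right _ _
    rw [le_div_iff₀ (by positivity)] at this
    linarith
  refine ⟨N1 K (n + 1) D0, c0, N1_pos hK hN D0, hc00, ?_⟩
  intro X _ _ _ m P hX hP hfl t ht ht1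
  have hprop := hX.proper
  have hfin := hX.finite_ball
  have hpos := hX.pos_ball
  have hsf := sigmaFinite_of_fin hfin
  refine ⟨kerP_markov hP ht, kerP_symm hfin hP ht, ?_, ?_⟩
  · intro z w hzw
    obtain ⟨μ, h0, hμ, hμt⟩ := hfl z
    have h1 := hμ.second_moment_le hK hN hfin hpos h0 hzw ht ht1
    have hP2 := hμ.p2 t ht.le
    have := hP2.1
    rw [hμt t ht] at h1 hP2
    have hpr := hP2.1
    rw [kerP_apply, ← W2sq_dirac w, ← ENNReal.ofReal_toReal (W2sq_lt_top hP2 (isP2_dirac w)).ne,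
      ← W2_sq]
    exact ENNReal.ofReal_le_ofReal h1
  · intro y y' hyy A hA
    obtain ⟨μ, h0, hμ, hμt⟩ := hfl y
    obtain ⟨ν, h0', hν, hνt⟩ := hfl y'
    have hst : 0 < √t := Real.sqrt_pos.2 ht
    have hst1 : √t ≤ 1 := Real.sqrt_le_one.2 ht1
    have hd1 : dist y y' ≤ 1 := hyy.trans (by nlinarith)
    have hW := hμ.W2_dirac_le hK hN hν h0 h0' (by linarith) ht.le ht1
    rw [← hB] at hW
    have hW' : W2 (μ t) (ν t) ≤ B * (c0 * √t) := hW.trans (mul_le_mul_of_nonneg_left hyy hB0.le)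
    have hpP := hP.prob t ht y
    have hpP' := hP.prob t ht y'
    set φ : X → ℝ := fun x => A.indicator (fun _ => (1 : ℝ)) x - 1 / 2 with hφ
    have hφm : Measurable φ := (measurable_const.indicator hA).sub_const _
    have hφb : ∀ x, |φ x| ≤ 1 / 2 := by
      intro x
      simp only [hφ]
      by_cases hx : x ∈ A
      · rw [indicator_of_mem hx]; norm_num
      · rw [indicator_of_notMem hx]; norm_num
    have hmain := hC X m μ ν hμ hν t (B * (c0 * √t)) ht ht1 (by positivity) hW'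
      (hμ.UN_growth hK hN hfin hX.exp_int ht ht1) (hν.UN_growth hK hN hfin hX.exp_int ht ht1)
      φ (1 / 2) hφm hφb
    rw [hμt t ht, hνt t ht] at hmain
    have hint : ∀ (ρ : Measure X) [IsProbabilityMeasure ρ], ∫ x, φ x ∂ρ = ρ.real A - 1 / 2 := by
      intro ρ _
      simp only [hφ]
      rw [integral_sub ((integrable_const (1 : ℝ)).indicator hA) (integrable_const _),
        integral_indicator_const _ hA]
      simp
    rw [hint, hint] at hmain
    have hs : C * (1 / 2) * √(B * (c0 * √t) / √t) ≤ 1 / 2 := by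
      have e1 : B * (c0 * √t) / √t = B * c0 := by field_simp
      rw [e1]
      have e2 : √(B * c0) * (C + 1) ≤ 1 := by
        rw [← Real.sqrt_sq (by positivity : 0 ≤ C + 1), ← Real.sqrt_mul (by positivity)]
        exact Real.sqrt_le_one.2 hc0B
      have e3 : 0 ≤ √(B * c0) := Real.sqrt_nonneg _
      nlinarith
    have h1 : |(P t y).real A - (P t y').real A| ≤ 1 / 2 := by
      have : (P t y).real A - 1 / 2 - ((P t y').real A - 1 / 2) =
          (P t y).real A - (P t y').real A := by ring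
      rw [this] at hmain
      exact hmain.trans hs
    rw [kerP_apply, kerP_apply]
    have h2 : (P t y').real Aᶜ = 1 - (P t y').real A := probReal_compl_eq_one_sub hA
    have h3 : (1 / 2 : ℝ) ≤ (P t y).real A + (P t y').real Aᶜ := by
      rw [h2]
      rw [abs_le] at h1
      linarith [h1.1]
    have h4 := ENNReal.ofReal_le_ofReal h3
    rw [ENNReal.ofReal_add measureReal_nonneg measureReal_nonneg, Measure.real, Measure.real,
      ENNReal.ofReal_toReal (measure_ne_top _ _), ENNReal.ofReal_toReal (measure_ne_top _ _)] at h4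
    refine le_trans (le_of_eq ?_) h4
    rw [ENNReal.ofReal_div_of_pos two_pos]
    simp

end Pool.Agent.BDRY
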