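import Pool.Agent.Work.MP_209cb6_gt.B2.EndDefs
import Pool.Agent.Work.MP_209cb6_gt.B2.HKof

/-!
# BDRY2: the budget of the flux (item (1) of note 4942)

By symmetry of the heat kernel and the second moment bound, the total flux of `d_p^2` through a
ball of radius `q` up to time `s` is at most `16 N₁ s m(B(z₀, 2 q))`.
-/

set_option autoImplicit false
set_option linter.unusedSectionVars false

open MeasureTheory MeasureTheory.Measure Metric Set Filter Topology ProbabilityTheory
open scoped ENNReal NNReal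

namespace Pool.Agent.BDRY

universe u

/-- the heat kernels have the axioms `HK` with the explicit second moment constant (and no
overlap) -/
theorem HeatKer.hk {K : ℝ} (hK : K ≤ 0) {n : ℕ} {X : Type u} [MetricSpace X] [MeasurableSpace X]
    [BorelSpace X] {m : Measure X} {P : ℝ → X → Measure X} (hX : IsRCD K (n + 1) X m)
    (hP : HeatKer K n m P) {D : ℝ} {t : ℝ} (ht : 0 < t) (ht1 : t ≤ 1) :
    HK (N1 K (n + 1) D) 0 D t m (kerP hP.sym ht) := by
  have hN : 0 < n + 1 := Nat.succ_pos n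
  have hprop := hX.proper
  have hfin := hX.finite_ball
  have hpos := hX.pos_ball
  have hsf := sigmaFinite_of_fin hfin
  refine ⟨kerP_markov hP.sym ht, kerP_symm hfin hP.sym ht, ?_, ?_⟩
  · intro z w hzw
    obtain ⟨μ, h0, hμ, hμt⟩ := hP.flow z
    have h1 := hμ.second_moment_le hK hN hfin hpos h0 hzw ht ht1
    have hP2 := hμ.p2 t ht.le
    have := hP2.1
    rw [hμt t ht] at h1 hP2
    have hpr := hP2.1
    rw [kerP_apply, ← W2sq_dirac w, ← ENNReal.ofReal_toReal (W2sq_lt_top hP2 (isP2_dirac w)).ne,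
      ← W2_sq]
    exact ENNReal.ofReal_le_ofReal h1
  · intro y y' hyy A hA
    rw [zero_mul] at hyy
    have hy : y = y' := dist_le_zero.1 hyy
    subst hy
    have := kerP_markov hP.sym ht
    rw [measure_add_measure_compl hA, measure_univ]
    simp

/-- the cut-off function: `1` on the ball of radius `q`, `0` off the ball of radius `2 q` -/
noncomputable def cutB {X : Type u} [MetricSpace X] (z₀ : X) (q : ℝ) (x : X) : ℝ :=
  max 0 (min 1 (2 - dist x z₀ / q))

section cutB
variable {X : Type u} [MetricSpace X] [MeasurableSpace X] [BorelSpace X] [ProperSpace X]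

theorem cutB_nonneg (z₀ : X) (q : ℝ) (x : X) : 0 ≤ cutB z₀ q x := le_max_left _ _

theorem cutB_le_one (z₀ : X) (q : ℝ) (x : X) : cutB z₀ q x ≤ 1 :=
  max_le zero_le_one (min_le_left _ _)

theorem cutB_eq_one {z₀ : X} {q : ℝ} (hq : 0 < q) {x : X} (hx : x ∈ closedBall z₀ q) :
    cutB z₀ q x = 1 := by
  unfold cutB
  have h1 : dist x z₀ / q ≤ 1 := by rw [div_le_iff₀ hq, one_mul]; exact hx
  rw [min_eq_left (by linarith), max_eq_right zero_le_one]

theorem cutB_le_ind {z₀ : X} {q : ℝ} (hq : 0 < q) (x : X) :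
    cutB z₀ q x ≤ ind z₀ (2 * q) x := by
  by_cases hx : x ∈ closedBall z₀ (2 * q)
  · rw [ind_of_mem hx]; exact cutB_le_one z₀ q x
  · rw [ind_of_notMem hx]
    rw [mem_closedBall, not_le] at hx
    unfold cutB
    have h1 : 2 < dist x z₀ / q := by rw [lt_div_iff₀ hq]; exact hx
    exact max_le le_rfl ((min_le_right _ _).trans (by linarith))

theorem cutB_lip {z₀ : X} {q : ℝ} (hq : 0 < q) (z y : X) :
    |cutB z₀ q z - cutB z₀ q y| ≤ dist z y / q := by
  unfold cutB
  have h1 : |(2 - dist z z₀ / q) - (2 - dist y z₀ / q)| ≤ dist z y / q := by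
    have h2 : (2 - dist z z₀ / q) - (2 - dist y z₀ / q) = (dist y z₀ - dist z z₀) / q := by ring
    rw [h2, abs_div, abs_of_pos hq]
    apply div_le_div_of_nonneg_right _ hq.le
    rw [dist_comm z y]
    exact abs_dist_sub_le y z z₀
  refine le_trans ?_ h1
  refine (abs_max_sub_max_le_max _ _ _ _).trans ?_
  rw [sub_self, abs_zero]
  refine max_le (abs_nonneg _) ?_
  refine (abs_min_sub_min_le_max _ _ _ _).trans ?_
  rw [sub_self, abs_zero]
  exact max_le (abs_nonneg _) le_rfl

theorem continuous_cutB (z₀ : X) (q : ℝ) : Continuous (cutB z₀ q) := by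
  unfold cutB
  exact continuous_const.max (continuous_const.min (continuous_const.sub
    ((continuous_id.dist continuous_const).div_const q)))

theorem cutB_sub_le_one (z₀ : X) (q : ℝ) (z y : X) : |cutB z₀ q z - cutB z₀ q y| ≤ 1 := by
  have h1 := cutB_nonneg z₀ q z
  have h2 := cutB_le_one z₀ q z
  have h3 := cutB_nonneg z₀ q y
  have h4 := cutB_le_one z₀ q y
  rw [abs_le]
  constructor <;> linarith

/-- `|d(y,p)^2 - d(z,p)^2| ≤ d (2 d(z,p) + d)` -/
theorem abs_dist_sq_sub_le (z y p : X) :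
    |dist y p ^ 2 - dist z p ^ 2| ≤ dist z y * (2 * dist z p + dist z y) := by
  have h1 : |dist y p - dist z p| ≤ dist z y := by
    rw [dist_comm z y]
    exact abs_dist_sub_le y z p
  have h2 : dist y p ≤ dist z p + dist z y := by
    have := abs_le.1 h1
    linarith [this.2]
  have h3 : (0 : ℝ) ≤ dist y p := dist_nonneg
  have h4 : (0 : ℝ) ≤ dist z p := dist_nonneg
  have h5 : (0 : ℝ) ≤ dist z y := dist_nonneg
  have e : dist y p ^ 2 - dist z p ^ 2 = (dist y p - dist z p) * (dist y p + dist z p) := by ring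
  rw [e, abs_mul, abs_of_nonneg (by linarith : 0 ≤ dist y p + dist z p)]
  exact mul_le_mul h1 (by linarith) (by linarith) h5

/-- one point in the ball `B(z₀, 2 q)`: the product of the differences is at most `7 d^2` -/
theorem cross_le_one {z₀ p : X} {q : ℝ} (hq : 0 < q) (hp : dist z₀ p ≤ q) {z y : X}
    (hz : z ∈ closedBall z₀ (2 * q)) :
    |(cutB z₀ q z - cutB z₀ q y) * (dist y p ^ 2 - dist z p ^ 2)| ≤ 7 * dist z y ^ 2 := by
  have h1 := abs_dist_sq_sub_le z y p
  have h2 := cutB_lip (z₀ := z₀) hq z y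
  have h3 := cutB_sub_le_one z₀ q z y
  have h4 : dist z p ≤ 3 * q := by
    have := dist_triangle z z₀ p
    rw [mem_closedBall] at hz
    linarith
  have h5 : (0 : ℝ) ≤ dist z y := dist_nonneg
  have h6 : 0 ≤ |cutB z₀ q z - cutB z₀ q y| := abs_nonneg _
  rw [abs_mul]
  calc |cutB z₀ q z - cutB z₀ q y| * |dist y p ^ 2 - dist z p ^ 2|
      ≤ |cutB z₀ q z - cutB z₀ q y| * (dist z y * (2 * (3 * q) + dist z y)) := by
        refine mul_le_mul_of_nonneg_left (h1.trans ?_) h6
        gcongr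
    _ = |cutB z₀ q z - cutB z₀ q y| * (6 * q * dist z y) +
        |cutB z₀ q z - cutB z₀ q y| * dist z y ^ 2 := by ring
    _ ≤ dist z y / q * (6 * q * dist z y) + 1 * dist z y ^ 2 := by
        refine add_le_add (mul_le_mul_of_nonneg_right h2 (by positivity))
          (mul_le_mul_of_nonneg_right h3 (sq_nonneg _))
    _ = 7 * dist z y ^ 2 := by
        field_simp
        ring

theorem cross_le {z₀ p : X} {q : ℝ} (hq : 0 < q) (hp : dist z₀ p ≤ q) (z y : X) :
    |(cutB z₀ q z - cutB z₀ q y) * (dist y p ^ 2 - dist z p ^ 2)| ≤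
      7 * (ind z₀ (2 * q) z * dist z y ^ 2 + ind z₀ (2 * q) y * dist y z ^ 2) := by
  have hd : (0 : ℝ) ≤ dist z y ^ 2 := sq_nonneg _
  by_cases hz : z ∈ closedBall z₀ (2 * q)
  · have h1 := cross_le_one hq hp (y := y) hz
    have h2 : 0 ≤ ind z₀ (2 * q) y * dist y z ^ 2 :=
      mul_nonneg (ind_nonneg _ _ _) (sq_nonneg _)
    rw [ind_of_mem hz, one_mul]
    linarith
  · by_cases hy : y ∈ closedBall z₀ (2 * q)
    · have h1 := cross_le_one hq hp (y := z) hy
      have e1 : (cutB z₀ q y - cutB z₀ q z) * (dist z p ^ 2 - dist y p ^ 2) =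
          (cutB z₀ q z - cutB z₀ q y) * (dist y p ^ 2 - dist z p ^ 2) := by ring
      rw [e1] at h1
      have h2 : 0 ≤ ind z₀ (2 * q) z * dist z y ^ 2 :=
        mul_nonneg (ind_nonneg _ _ _) (sq_nonneg _)
      rw [ind_of_mem hy, one_mul]
      linarith
    · have h2 : cutB z₀ q z = 0 := le_antisymm
        ((cutB_le_ind hq z).trans (le_of_eq (ind_of_notMem hz))) (cutB_nonneg z₀ q z)
      have h3 : cutB z₀ q y = 0 := le_antisymm
        ((cutB_le_ind hq y).trans (le_of_eq (ind_of_notMem hy))) (cutB_nonneg z₀ q y)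
      rw [h2, h3, sub_self, zero_mul, abs_zero]
      have h4 := ind_nonneg z₀ (2 * q) z
      have h5 := ind_nonneg z₀ (2 * q) y
      positivity

end cutB

section budget
variable {X : Type u} [MetricSpace X] [MeasurableSpace X] [BorelSpace X] [ProperSpace X]
  {m : Measure X} {κ : Kernel X X} {Nc c0 D0 t : ℝ} [SFinite m]

/-- the drift of `d_p^2` against the cut-off function -/
theorem HK.drift_sq (h : HK Nc c0 D0 t m κ) (hN : 0 ≤ Nc) (ht : 0 ≤ t) (hD : 0 ≤ D0) {z₀ p : X}
    {q : ℝ} (hq : 0 < q) (hp : dist z₀ p ≤ q) (hfin : m (closedBall z₀ (2 * q)) < ∞) :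
    Integrable (fun r : X × X => cutB z₀ q r.1 * (dist r.2 p ^ 2 - dist r.1 p ^ 2)) (m ⊗ₘ κ) ∧
    |∫ r : X × X, cutB z₀ q r.1 * (dist r.2 p ^ 2 - dist r.1 p ^ 2) ∂(m ⊗ₘ κ)| ≤
      14 * Nc * t * m.real (closedBall z₀ (2 * q)) := by
  have hcm := (continuous_cutB z₀ q).measurable
  obtain ⟨h1, h2⟩ := h.int_sq hN ht hD hfin
  have h3 := h.swap_integrable h1
  have h4 := h.swap_int (fun r => ind z₀ (2 * q) r.1 * dist r.1 r.2 ^ 2)
  have hmH : Measurable fun r : X × X => cutB z₀ q r.1 * (dist r.2 p ^ 2 - dist r.1 p ^ 2) :=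
    (hcm.comp measurable_fst).mul (((measurable_snd.dist measurable_const).pow_const 2).sub
      ((measurable_fst.dist measurable_const).pow_const 2))
  have i1 : Integrable (fun r : X × X => cutB z₀ q r.1 * (dist r.2 p ^ 2 - dist r.1 p ^ 2))
      (m ⊗ₘ κ) := by
    refine h.int_dom hN ht hD hfin (C := 6 * q + 1) hmH fun z y => ?_
    show |cutB z₀ q z * (dist y p ^ 2 - dist z p ^ 2)| ≤ _
    by_cases hz : z ∈ closedBall z₀ (2 * q)
    · rw [ind_of_mem hz, mul_one, abs_mul, abs_of_nonneg (cutB_nonneg z₀ q z)]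
      have h5 := abs_dist_sq_sub_le z y p
      have h6 : dist z p ≤ 3 * q := by
        have := dist_triangle z z₀ p
        rw [mem_closedBall] at hz
        linarith
      have h7 : (0 : ℝ) ≤ dist z y := dist_nonneg
      have h8 : dist z y * (2 * dist z p + dist z y) ≤ (6 * q + 1) * (1 + dist z y ^ 2) := by
        have e1 : dist z y * (2 * dist z p + dist z y) ≤
            dist z y * (2 * (3 * q) + dist z y) := by gcongr
        nlinarith [sq_nonneg (dist z y - 1), mul_nonneg hq.le (sq_nonneg (dist z y - 1)),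
          mul_nonneg hq.le (sq_nonneg (dist z y)), mul_nonneg hq.le h7]
      calc cutB z₀ q z * |dist y p ^ 2 - dist z p ^ 2|
          ≤ 1 * |dist y p ^ 2 - dist z p ^ 2| :=
            mul_le_mul_of_nonneg_right (cutB_le_one z₀ q z) (abs_nonneg _)
        _ ≤ _ := by rw [one_mul]; exact h5.trans h8
    · have e1 : cutB z₀ q z = 0 := le_antisymm
        ((cutB_le_ind hq z).trans (le_of_eq (ind_of_notMem hz))) (cutB_nonneg z₀ q z)
      rw [e1, ind_of_notMem hz]
      simp
  refine ⟨i1, ?_⟩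
  set H : X × X → ℝ := fun r => cutB z₀ q r.1 * (dist r.2 p ^ 2 - dist r.1 p ^ 2) with hH
  set G : X × X → ℝ := fun r => ind z₀ (2 * q) r.1 * dist r.1 r.2 ^ 2 with hG
  have i2 := h.swap_integrable i1
  have e2 := h.swap_int H
  have e3 : ∫ r, (H r + H r.swap) ∂(m ⊗ₘ κ) = 2 * ∫ r, H r ∂(m ⊗ₘ κ) := by
    rw [integral_add i1 i2, e2]
    ring
  have hb : ∀ r, |H r + H r.swap| ≤ 7 * (G r + G r.swap) := by
    intro r
    have h5 := cross_le hq hp r.1 r.2
    have e4 : H r + H r.swap = (cutB z₀ q r.1 - cutB z₀ q r.2) *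
        (dist r.2 p ^ 2 - dist r.1 p ^ 2) := by
      simp only [hH, Prod.fst_swap, Prod.snd_swap]
      ring
    rw [e4]
    simpa only [hG, Prod.fst_swap, Prod.snd_swap] using h5
  have hsum : Integrable (fun r => 7 * (G r + G r.swap)) (m ⊗ₘ κ) := (h1.add h3).const_mul _
  have h8 : ∫ r, 7 * (G r + G r.swap) ∂(m ⊗ₘ κ) ≤
      7 * (2 * (2 * Nc * t * m.real (closedBall z₀ (2 * q)))) := by
    rw [integral_const_mul, integral_add h1 h3, h4]
    linarith
  have h9 : |∫ r, (H r + H r.swap) ∂(m ⊗ₘ κ)| ≤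
      7 * (2 * (2 * Nc * t * m.real (closedBall z₀ (2 * q)))) :=
    ((abs_integral_le_integral_abs).trans (integral_mono_of_nonneg
      (ae_of_all _ fun r => abs_nonneg _) hsum (ae_of_all _ hb))).trans h8
  rw [e3, abs_mul, abs_of_pos (by norm_num : (0 : ℝ) < 2)] at h9
  linarith

end budget

/-- **The budget**: item (1), in the form of `EndDefs`. -/
theorem budget {K : ℝ} (hK : K ≤ 0) (n : ℕ) : Budget.{u} K n := by
  intro X _ _ _ m P hX hP z₀ p q s hq hq2 hs hs1 hzp
  have hN : 0 < n + 1 := Nat.succ_pos n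
  have hprop := hX.proper
  have hfin := hX.finite_ball
  have hpos := hX.pos_ball
  have hsf := sigmaFinite_of_fin hfin
  have hk := hP.hk hK hX (D := 6) hs hs1
  set κ := kerP hP.sym hs with hκ
  have hmk : IsMarkovKernel κ := hk.markov
  set Nc := N1 K (n + 1) 6 with hNc
  have hNc0 : 0 < Nc := N1_pos hK hN 6
  obtain ⟨i1, b1⟩ := hk.drift_sq hNc0.le hs.le (by norm_num) hq hzp (hfin z₀ (2 * q))
  set M := m.real (closedBall z₀ (2 * q)) with hM
  have hM0 : 0 ≤ M := measureReal_nonneg
  -- the second moment at `p`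
  have hmom : ∀ x, Integrable (fun y => dist y p ^ 2) (P s x) ∧
      W2 (P s x) (dirac p) ^ 2 = ∫ y, dist y p ^ 2 ∂(P s x) := by
    intro x
    obtain ⟨μ, h0, hμ, hμt⟩ := hP.flow x
    have hP2 := hμ.p2 s hs.le
    rw [hμt s hs] at hP2
    refine ⟨?_, W2_dirac_sq hP2 p⟩
    have := hP2.integrable_sq p
    refine this.congr (ae_of_all _ fun y => ?_)
    simp only [dist_comm]
  set F : X → ℝ := fun x => dist x p ^ 2 + 2 * Nc * s - W2 (P s x) (dirac p) ^ 2 with hF
  have hFpos : ∀ x ∈ closedBall z₀ (2 * q), 0 ≤ F x := by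
    intro x hx
    obtain ⟨μ, h0, hμ, hμt⟩ := hP.flow x
    have hd : dist x p ≤ 6 := by
      have := dist_triangle x z₀ p
      rw [mem_closedBall] at hx
      linarith
    have h1 := hμ.second_moment_le hK hN hfin hpos h0 hd hs hs1
    rw [hμt s hs] at h1
    simp only [hF]
    linarith
  -- `φ F` is minus the inner integral plus `2 Nc s φ`
  have hφF : ∀ x, cutB z₀ q x * F x = 2 * Nc * s * cutB z₀ q x -
      ∫ y, cutB z₀ q x * (dist y p ^ 2 - dist x p ^ 2) ∂(κ x) := by
    intro x
    have hpr := hP.sym.prob s hs x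
    have e1 : κ x = P s x := rfl
    rw [e1, integral_const_mul, integral_sub (hmom x).1 (integrable_const _), ← (hmom x).2]
    simp only [hF, integral_const, probReal_univ, smul_eq_mul, one_mul]
    ring
  have i2 := int_inner i1
  have i3 : Integrable (fun x => cutB z₀ q x) m := by
    refine Integrable.mono' (g := fun x => ind z₀ (2 * q) x) ?_
      (continuous_cutB z₀ q).aestronglyMeasurable (ae_of_all _ fun x => ?_)
    · refine (integrable_indicator_iff isClosed_closedBall.measurableSet).2 ?_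
      exact integrableOn_const (hfin z₀ (2 * q)).ne
    · rw [Real.norm_of_nonneg (cutB_nonneg z₀ q x)]
      exact cutB_le_ind hq x
  have b3 : ∫ x, cutB z₀ q x ∂m ≤ M := by
    have e1 : ∫ x, ind z₀ (2 * q) x ∂m = M := by
      unfold ind
      rw [integral_indicator_const _ isClosed_closedBall.measurableSet, smul_eq_mul, mul_one]
    rw [← e1]
    refine integral_mono i3 ?_ fun x => cutB_le_ind hq x
    refine (integrable_indicator_iff isClosed_closedBall.measurableSet).2 ?_
    exact integrableOn_const (hfin z₀ (2 * q)).ne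
  have i4 : Integrable (fun x => cutB z₀ q x * F x) m := by
    simp only [hφF]
    exact (i3.const_mul _).sub i2
  have b4 : ∫ x, cutB z₀ q x * F x ∂m ≤ 16 * Nc * s * M := by
    simp only [hφF]
    rw [integral_sub (i3.const_mul _) i2, integral_const_mul, ← Measure.integral_compProd i1]
    have h1 := (abs_le.1 b1).1
    have h2 : 2 * Nc * s * ∫ x, cutB z₀ q x ∂m ≤ 2 * Nc * s * M :=
      mul_le_mul_of_nonneg_left b3 (by positivity)
    linarith
  have hnn : ∀ x, 0 ≤ cutB z₀ q x * F x := by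
    intro x
    by_cases hx : x ∈ closedBall z₀ (2 * q)
    · exact mul_nonneg (cutB_nonneg z₀ q x) (hFpos x hx)
    · have e1 : cutB z₀ q x = 0 := le_antisymm
        ((cutB_le_ind hq x).trans (le_of_eq (ind_of_notMem hx))) (cutB_nonneg z₀ q x)
      rw [e1, zero_mul]
  calc ∫⁻ x in closedBall z₀ q, ENNReal.ofReal (F x) ∂m
      = ∫⁻ x in closedBall z₀ q, ENNReal.ofReal (cutB z₀ q x * F x) ∂m := by
        refine setLIntegral_congr_fun isClosed_closedBall.measurableSet fun x hx => ?_
        simp only [cutB_eq_one hq hx, one_mul]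
    _ ≤ ∫⁻ x, ENNReal.ofReal (cutB z₀ q x * F x) ∂m := setLIntegral_le_lintegral _ _
    _ = ENNReal.ofReal (∫ x, cutB z₀ q x * F x ∂m) :=
        (ofReal_integral_eq_lintegral_ofReal i4 (ae_of_all _ hnn)).symm
    _ ≤ ENNReal.ofReal (16 * Nc * s * M) := ENNReal.ofReal_le_ofReal b4
    _ = ENNReal.ofReal (16 * Nc * s) * m (closedBall z₀ (2 * q)) := by
        rw [ENNReal.ofReal_mul (by positivity), hM, Measure.real,
          ENNReal.ofReal_toReal (hfin z₀ (2 * q)).ne]

end Pool.Agent.BDRY
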