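import Pool.Agent.Work.MP_209cb6_gt.Defs

/-!
# BDRY2, block COL, step (5): the contact argument

`Φ` is built from `1`-Lipschitz functions `b v` (`v` in a fine net `V` of unit vectors), each of
which can be increased at almost unit speed, and `b v - ⟪v, Φ⟫` oscillates little on most balls.
Then the image of `Φ` covers almost the whole ball `B(0, 1/2)`, and the measure of
`closedBall x (1/2 + δ)` is almost that of the Euclidean ball.
-/

set_option autoImplicit false

open MeasureTheory MeasureTheory.Measure Metric Set Filter Topology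
open scoped ENNReal NNReal InnerProductSpace

namespace Pool.Agent.BDRY

universe u

theorem muHE_image_lip {X Y : Type*} [MetricSpace X] [MeasurableSpace X] [BorelSpace X]
    [MetricSpace Y] [MeasurableSpace Y] [BorelSpace Y] (d : ℕ) {f : X → Y} {G : Set X} {L : ℝ}
    (hL : 0 ≤ L) (h : ∀ a ∈ G, ∀ b ∈ G, dist (f a) (f b) ≤ L * dist a b) :
    (μHE[d] : Measure Y) (f '' G) ≤ ENNReal.ofReal (L ^ d) * (μHE[d] : Measure X) G := by
  have h1 : LipschitzOnWith (Real.toNNReal L) f G :=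
    LipschitzOnWith.of_dist_le_mul fun a ha b hb => by
      rw [Real.coe_toNNReal L hL]
      exact h a ha b hb
  have h2 := h1.hausdorffMeasure_image_le (d := (d : ℝ)) (by positivity)
  rw [euclideanHausdorffMeasure_def, euclideanHausdorffMeasure_def, Measure.smul_apply,
    Measure.smul_apply, ENNReal.smul_def, ENNReal.smul_def, smul_eq_mul, smul_eq_mul]
  have h3 : ENNReal.ofReal (L ^ d) = ((Real.toNNReal L : ℝ≥0) : ℝ≥0∞) ^ (d : ℝ) := by
    rw [ENNReal.rpow_natCast, ENNReal.ofReal_pow hL]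
    rfl
  rw [h3]
  calc _ ≤ _ := mul_le_mul_right h2 _
    _ = _ := by ring

/-- The image under a map which is Lipschitz at small distances. -/
theorem muHE_image_local {X Y : Type*} [MetricSpace X] [SecondCountableTopology X]
    [MeasurableSpace X] [BorelSpace X]
    [MetricSpace Y] [MeasurableSpace Y] [BorelSpace Y] (d : ℕ) {f : X → Y} {G : Set X} {L r₀ : ℝ}
    (hL : 0 ≤ L) (hr₀ : 0 < r₀)
    (h : ∀ a ∈ G, ∀ b ∈ G, dist a b < r₀ → dist (f a) (f b) ≤ L * dist a b) :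
    (μHE[d] : Measure Y) (f '' G) ≤ ENNReal.ofReal (L ^ d) * (μHE[d] : Measure X) G := by
  rcases isEmpty_or_nonempty X with hX | hX
  · have : G = ∅ := Set.eq_empty_of_isEmpty G
    rw [this]
    simp
  set B : ℕ → Set X := fun k => ball (TopologicalSpace.denseSeq X k) (r₀ / 2) with hB
  set P := disjointed B with hP
  have hPm : ∀ k, MeasurableSet (P k) := fun k =>
    MeasurableSet.disjointed (fun i => isOpen_ball.measurableSet) k
  have hPd : Pairwise (Function.onFun Disjoint P) := disjoint_disjointed B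
  have hPu : ⋃ k, P k = univ := by
    rw [hP, iUnion_disjointed, eq_univ_iff_forall]
    intro x
    obtain ⟨k, hk⟩ := (TopologicalSpace.denseRange_denseSeq X).exists_dist_lt x
      (half_pos hr₀)
    exact mem_iUnion.2 ⟨k, hk⟩
  have hPs : ∀ k, P k ⊆ B k := fun k => disjointed_subset B k
  have h1 : f '' G = ⋃ k, f '' (P k ∩ G) := by
    rw [← image_iUnion, ← iUnion_inter, hPu, univ_inter]
  have h2 : (μHE[d] : Measure X) G = ∑' k, (μHE[d] : Measure X) (P k ∩ G) := by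
    have h3 : (μHE[d] : Measure X) G = (μHE[d] : Measure X).restrict G univ := by
      rw [Measure.restrict_apply MeasurableSet.univ, univ_inter]
    rw [h3, ← hPu, measure_iUnion hPd hPm]
    refine tsum_congr fun k => ?_
    rw [Measure.restrict_apply (hPm k)]
  rw [h1, h2, ← ENNReal.tsum_mul_left]
  refine (measure_iUnion_le _).trans (ENNReal.tsum_le_tsum fun k => ?_)
  refine muHE_image_lip d hL fun a ha b hb => h a ha.2 b hb.2 ?_
  have h4 : dist a (TopologicalSpace.denseSeq X k) < r₀ / 2 := hPs k ha.1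
  have h5 : dist b (TopologicalSpace.denseSeq X k) < r₀ / 2 := hPs k hb.1
  have h6 := dist_triangle_right a b (TopologicalSpace.denseSeq X k)
  linarith

section net
variable {n : ℕ} {V : Finset (E n)} {ε₀ : ℝ}

/-- Nets of directions control norms. -/
theorem norm_le_of_net (hV : ∀ u : E n, ‖u‖ = 1 → ∃ v ∈ V, ‖u - v‖ ≤ ε₀) {D : E n} {s : ℝ}
    (h : ∀ v ∈ V, ⟪v, D⟫_ℝ ≤ s) : ‖D‖ * (1 - ε₀) ≤ s := by
  by_cases hD : D = 0
  · obtain ⟨v, hv, -⟩ := hV (EuclideanSpace.single 0 1) (by simp)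
    have := h v hv
    rw [hD, inner_zero_right] at this
    rw [hD, norm_zero, zero_mul]
    exact this
  have hn : 0 < ‖D‖ := norm_pos_iff.2 hD
  obtain ⟨v, hv, hv2⟩ := hV (‖D‖⁻¹ • D) (by
    rw [norm_smul, norm_inv, norm_norm, inv_mul_cancel₀ hn.ne'])
  have h1 := h v hv
  have h2 : ⟪‖D‖⁻¹ • D, D⟫_ℝ = ‖D‖ := by
    rw [inner_smul_left, real_inner_self_eq_norm_sq]
    simp only [conj_trivial]
    field_simp
  have h3 : ⟪‖D‖⁻¹ • D - v, D⟫_ℝ ≤ ε₀ * ‖D‖ :=
    (real_inner_le_norm _ _).trans (by gcongr)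
  rw [inner_sub_left, h2] at h3
  linarith

/-- An almost unit step. -/
theorem step_close (hV : ∀ u : E n, ‖u‖ = 1 → ∃ v ∈ V, ‖u - v‖ ≤ ε₀) (hε₀ : ε₀ ≤ 1 / 64)
    {D v : E n} {ρ ε₁ : ℝ} (hε₁ : ε₁ ≤ 1 / 64) (hρ : 0 < ρ)
    (h : ∀ w ∈ V, ⟪w, D⟫_ℝ ≤ (1 + ε₁) * ρ) (hv1 : ‖v‖ = 1)
    (hv : (1 - 1 / 32) * ρ ≤ ⟪v, D⟫_ℝ) : ‖D - ρ • v‖ ≤ ρ / 2 := by
  have h1 := norm_le_of_net hV h
  have h2 : ‖D‖ * (63 / 64) ≤ 65 / 64 * ρ := by
    have h3 : ‖D‖ * (63 / 64) ≤ ‖D‖ * (1 - ε₀) := by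
      apply mul_le_mul_of_nonneg_left _ (norm_nonneg _)
      linarith
    have h4 : (1 + ε₁) * ρ ≤ 65 / 64 * ρ := by
      apply mul_le_mul_of_nonneg_right _ hρ.le
      linarith
    linarith
  have h3 : ‖D‖ ≤ 65 / 63 * ρ := by linarith
  have h4 : ‖D - ρ • v‖ ^ 2 = ‖D‖ ^ 2 - 2 * (ρ * ⟪v, D⟫_ℝ) + ρ ^ 2 := by
    rw [@norm_sub_sq ℝ, norm_smul, hv1, inner_smul_right, real_inner_comm v D]
    simp only [Real.norm_eq_abs, mul_one, sq_abs, RCLike.re_to_real]
  have h5 : ‖D‖ ^ 2 ≤ (65 / 63 * ρ) ^ 2 := pow_le_pow_left₀ (norm_nonneg _) h3 2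
  have h6 : ρ * ((1 - 1 / 32) * ρ) ≤ ρ * ⟪v, D⟫_ℝ := mul_le_mul_of_nonneg_left hv hρ.le
  have h7 : ‖D - ρ • v‖ ^ 2 ≤ (ρ / 2) ^ 2 := by
    rw [h4]
    nlinarith [sq_nonneg ρ]
  exact (sq_le_sq₀ (norm_nonneg _) (by positivity)).1 h7

end net

/-- Bad pairs (centre, radius). -/
def ColBad {X : Type u} [MetricSpace X] {n : ℕ} (V : Finset (E n)) (b : E n → X → ℝ)
    (Φ : X → E n) (x : X) (δ ε₁ : ℝ) (p : X × ℝ) : Prop :=
  0 < p.2 ∧ p.2 ≤ δ ∧ dist p.1 x ≤ 3 / 4 ∧ ∃ v ∈ V, ∃ a, dist a p.1 ≤ p.2 ∧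
    ε₁ * p.2 < |(b v a - ⟪v, Φ a⟫_ℝ) - (b v p.1 - ⟪v, Φ p.1⟫_ℝ)|

theorem col_cover {X : Type u} [MetricSpace X] [ProperSpace X] [MeasurableSpace X] [BorelSpace X]
    {n : ℕ} {V : Finset (E n)} {b : E n → X → ℝ} {Φ : X → E n} {x : X}
    {L ε₀ ε₁ δ v : ℝ} {κ : ℝ≥0∞}
    (hV1 : ∀ v ∈ V, ‖v‖ = 1) (hV : ∀ u : E n, ‖u‖ = 1 → ∃ v ∈ V, ‖u - v‖ ≤ ε₀)
    (hε₀ : ε₀ ≤ 1 / 64) (hε₁0 : 0 < ε₁) (hε₁ : ε₁ ≤ 1 / 64)
    (hδ : 0 < δ) (hδ1 : δ ≤ 1 / 16) (hL : 1 ≤ L) (hv : 0 < v)
    (hb : ∀ v ∈ V, ∀ y z, b v y - b v z ≤ dist y z)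
    (hgrad : ∀ v ∈ V, ∀ q ∈ closedBall x 1, ∀ ρ, 0 < ρ → ρ ≤ δ →
      ∃ q', dist q' q ≤ ρ ∧ (1 - 1 / 64) * ρ ≤ b v q' - b v q)
    (hΦL : ∀ y z, dist (Φ y) (Φ z) ≤ L * dist y z)
    (hBSE : ∀ F : Finset (X × ℝ), (∀ p ∈ F, ColBad V b Φ x δ ε₁ p) →
      (F : Set (X × ℝ)).PairwiseDisjoint (fun p => closedBall p.1 (4 * p.2)) →
      ∑ p ∈ F, (μHE[n + 1] : Measure X) (closedBall p.1 p.2) ≤ κ)
    (hvol : ∀ q ∈ closedBall x (3 / 4), ∀ r, 0 < r → r ≤ δ →
      ENNReal.ofReal (v * r ^ (n + 1)) ≤ (μHE[n + 1] : Measure X) (closedBall q r))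
    (hdense : ∀ u : E n, ‖u‖ ≤ 1 / 2 → ∃ a ∈ closedBall x (3 / 4), dist (Φ a) u ≤ δ)
    (hprop : ∀ a ∈ closedBall x (3 / 4), dist a x ≤ ‖Φ a‖ + δ) :
    ENNReal.ofReal v * volume (closedBall (0 : E n) (1 / 2)) ≤
      ENNReal.ofReal v * (ENNReal.ofReal (((1 + ε₁) / (1 - ε₀)) ^ (n + 1)) *
        (μHE[n + 1] : Measure X) (closedBall x (1 / 2 + δ))) +
      ENNReal.ofReal ((14 * L) ^ (n + 1)) * volume (closedBall (0 : E n) 1) * κ := by
  set K := closedBall x (3 / 4 : ℝ) with hK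
  set ψ : E n → X → ℝ := fun w y => b w y - ⟪w, Φ y⟫_ℝ with hψ
  set G : Set X := {q | dist q x ≤ 1 / 2 + δ ∧ ∀ a, dist a q < δ → ∀ w ∈ V,
    |ψ w a - ψ w q| ≤ ε₁ * dist a q} with hG
  have hcont : Continuous Φ := by
    have : LipschitzWith (Real.toNNReal L) Φ := LipschitzWith.of_dist_le_mul fun a b => by
      rw [Real.coe_toNNReal L (by linarith)]
      exact hΦL a b
    exact this.continuous
  have hcomp : IsCompact (Φ '' K) := (isCompact_closedBall x _).image hcont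
  -- Vitali
  set t : Set (X × ℝ) := {p | ColBad V b Φ x δ ε₁ p} with ht
  obtain ⟨s, hst, hdisj, hcov⟩ := Vitali.exists_disjoint_subfamily_covering_enlargement
    (fun p : X × ℝ => closedBall p.1 (4 * p.2)) t (fun p => p.2) 2 (by norm_num)
    (fun p hp => hp.1.le) δ (fun p hp => hp.2.1) (fun p hp => ⟨p.1, mem_closedBall_self
      (by have := hp.1; positivity)⟩)
  have hscount : s.Countable := by
    refine hdisj.countable_of_nonempty_interior fun p hp => ?_
    refine Nonempty.mono ball_subset_interior_closedBall ?_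
    exact nonempty_ball.2 (by have := (hst hp).1; positivity)
  have hdisj' : s.PairwiseDisjoint fun p : X × ℝ => closedBall p.1 p.2 := by
    refine hdisj.mono_on fun p hp => ?_
    refine closedBall_subset_closedBall ?_
    have := (hst hp).1
    linarith
  -- covering
  have hbadcov : ∀ p ∈ t, ∃ j ∈ s, dist (Φ p.1) (Φ j.1) ≤ 12 * L * j.2 ∧ p.2 ≤ 2 * j.2 := by
    intro p hp
    obtain ⟨j, hj, ⟨z, hz1, hz2⟩, hle⟩ := hcov p hp
    refine ⟨j, hj, ?_, hle⟩
    have hz1' : dist z p.1 ≤ 4 * p.2 := hz1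
    have hz2' : dist z j.1 ≤ 4 * j.2 := hz2
    have h1 : dist p.1 j.1 ≤ 12 * j.2 := by
      have := dist_triangle_left p.1 j.1 z
      linarith
    calc dist (Φ p.1) (Φ j.1) ≤ L * dist p.1 j.1 := hΦL _ _
      _ ≤ L * (12 * j.2) := by gcongr
      _ = 12 * L * j.2 := by ring
  have hsub : closedBall (0 : E n) (1 / 2) ⊆ Φ '' G ∪ ⋃ p ∈ s,
      closedBall (Φ p.1) (14 * L * p.2) := by
    intro u hu
    have hu' : ‖u‖ ≤ 1 / 2 := by simpa using hu
    by_cases huK : u ∈ Φ '' K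
    · obtain ⟨q, hq, rfl⟩ := huK
      have hq2 : dist q x ≤ 1 / 2 + δ := by
        have := hprop q hq
        linarith
      by_cases hqG : q ∈ G
      · exact Or.inl ⟨q, hqG, rfl⟩
      · right
        have h1 : ∃ a, dist a q < δ ∧ ∃ w ∈ V, ε₁ * dist a q < |ψ w a - ψ w q| := by
          by_contra hcon
          push Not at hcon
          exact hqG ⟨hq2, hcon⟩
        obtain ⟨a, ha, w, hw, hlt⟩ := h1
        have h2 : 0 < dist a q := by
          rw [dist_pos]
          rintro rfl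
          simp at hlt
        obtain ⟨j, hj, h3, -⟩ := hbadcov (q, dist a q) ⟨h2, ha.le, by
          show dist q x ≤ 3 / 4
          linarith, w, hw, a, le_rfl, hlt⟩
        refine mem_iUnion₂.2 ⟨j, hj, ?_⟩
        have h4 := (hst hj).1
        show dist (Φ q) (Φ j.1) ≤ 14 * L * j.2
        have h5 : 0 ≤ L * j.2 := by positivity
        have h3' : dist (Φ q) (Φ j.1) ≤ 12 * L * j.2 := h3
        linarith
    · right
      obtain ⟨a0, ha0, ha0'⟩ := hdense u hu'
      obtain ⟨y, ⟨q, hq, rfl⟩, hy⟩ := hcomp.exists_infDist_eq_dist ⟨Φ a0, a0, ha0, rfl⟩ u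
      set ρ := infDist u (Φ '' K) with hρ
      have hρ0 : 0 < ρ := (hcomp.isClosed.notMem_iff_infDist_pos ⟨Φ a0, a0, ha0, rfl⟩).1 huK
      have hρδ : ρ ≤ δ := by
        have : ρ ≤ dist u (Φ a0) := infDist_le_dist_of_mem ⟨a0, ha0, rfl⟩
        rw [dist_comm] at this
        exact this.trans ha0'
      have hqx : dist q x ≤ 1 / 2 + 2 * δ := by
        have h1 := hprop q hq
        have h2 : ‖Φ q‖ ≤ ‖u‖ + ρ := by
          have h3 : dist u (Φ q) = ρ := hy.symm
          rw [dist_eq_norm] at h3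
          have h4 := norm_sub_norm_le (Φ q) u
          rw [norm_sub_rev] at h4
          linarith
        linarith
      -- direction
      have hn : ‖u - Φ q‖ = ρ := by rw [← dist_eq_norm, ← hy]
      obtain ⟨w, hw, hw2⟩ := hV (ρ⁻¹ • (u - Φ q)) (by
        rw [norm_smul, norm_inv, hn, Real.norm_of_nonneg hρ0.le, inv_mul_cancel₀ hρ0.ne'])
      obtain ⟨q', hq'1, hq'2⟩ := hgrad w hw q (by
        show dist q x ≤ 1
        linarith) ρ hρ0 hρδ
      have hq'K : q' ∈ K := by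
        show dist q' x ≤ 3 / 4
        have := dist_triangle q' q x
        linarith
      have hbad : ∃ w' ∈ V, ε₁ * ρ < |ψ w' q' - ψ w' q| := by
        by_contra hcon
        push Not at hcon
        have hD : ∀ w' ∈ V, ⟪w', Φ q' - Φ q⟫_ℝ ≤ (1 + ε₁) * ρ := by
          intro w' hw'
          have h1 := hcon w' hw'
          have h2 := hb w' hw' q' q
          have h3 := (abs_le.1 h1).1
          simp only [hψ] at h3
          rw [inner_sub_right]
          linarith
        have hD2 : (1 - 1 / 32) * ρ ≤ ⟪w, Φ q' - Φ q⟫_ℝ := by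
          have h1 := hcon w hw
          have h3 := (abs_le.1 h1).2
          simp only [hψ] at h3
          rw [inner_sub_right]
          have h4 : ε₁ * ρ ≤ 1 / 64 * ρ := by gcongr
          linarith
        have h5 := step_close hV hε₀ hε₁ hρ0 hD (hV1 w hw) hD2
        have h6 : ‖u - Φ q - ρ • w‖ ≤ ε₀ * ρ := by
          have h7 : u - Φ q - ρ • w = ρ • (ρ⁻¹ • (u - Φ q) - w) := by
            rw [smul_sub, smul_smul, mul_inv_cancel₀ hρ0.ne', one_smul]
          rw [h7, norm_smul, Real.norm_of_nonneg hρ0.le, mul_comm]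
          gcongr
        have h8 : dist u (Φ q') ≤ ε₀ * ρ + ρ / 2 := by
          rw [dist_eq_norm]
          have h9 : u - Φ q' = (u - Φ q - ρ • w) - ((Φ q' - Φ q) - ρ • w) := by abel
          rw [h9]
          exact (norm_sub_le _ _).trans (add_le_add h6 h5)
        have h10 : ρ ≤ dist u (Φ q') := infDist_le_dist_of_mem ⟨q', hq'K, rfl⟩
        have h11 : ε₀ * ρ ≤ 1 / 64 * ρ := by gcongr
        linarith
      obtain ⟨w', hw', hlt⟩ := hbad
      obtain ⟨j, hj, h3, h4⟩ := hbadcov (q, ρ) ⟨hρ0, hρδ, by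
          show dist q x ≤ 3 / 4
          linarith, w', hw', q', hq'1, hlt⟩
      refine mem_iUnion₂.2 ⟨j, hj, ?_⟩
      have h5 := (hst hj).1
      have h3' : dist (Φ q) (Φ j.1) ≤ 12 * L * j.2 := h3
      have h4' : ρ ≤ 2 * j.2 := h4
      have h6 := dist_triangle u (Φ q) (Φ j.1)
      have h7 : dist u (Φ q) = ρ := hy.symm
      show dist u (Φ j.1) ≤ 14 * L * j.2
      have h8 : j.2 ≤ L * j.2 := le_mul_of_one_le_left h5.le hL
      linarith
  -- the good part
  have hgoodpart : volume (Φ '' G) ≤ ENNReal.ofReal (((1 + ε₁) / (1 - ε₀)) ^ (n + 1)) *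
      (μHE[n + 1] : Measure X) (closedBall x (1 / 2 + δ)) := by
    rw [← EuclideanSpace.euclideanHausdorffMeasure_eq_volume (n + 1)]
    have h1 : (μHE[n + 1] : Measure (E n)) (Φ '' G) ≤
        ENNReal.ofReal (((1 + ε₁) / (1 - ε₀)) ^ (n + 1)) * (μHE[n + 1] : Measure X) G := by
      refine muHE_image_local (n + 1) (div_nonneg (by linarith) (by linarith)) hδ ?_
      intro a ha q hq hlt
      have h2 : ∀ w ∈ V, ⟪w, Φ a - Φ q⟫_ℝ ≤ (1 + ε₁) * dist a q := by
        intro w hw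
        have h3 := (abs_le.1 (hq.2 a hlt w hw)).1
        have h4 := hb w hw a q
        simp only [hψ] at h3
        rw [inner_sub_right]
        linarith
      have h5 := norm_le_of_net hV h2
      rw [dist_eq_norm (Φ a), div_mul_eq_mul_div, le_div_iff₀ (by linarith)]
      exact h5
    refine h1.trans ?_
    gcongr
    exact fun q hq => hq.1
  -- the bad part
  have hvb : ∀ (c : E n) (r : ℝ), 0 ≤ r → volume (closedBall c r) =
      ENNReal.ofReal (r ^ (n + 1)) * volume (closedBall (0 : E n) 1) := by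
    intro c r hr
    rw [Measure.addHaar_closedBall' volume c hr]
    simp
  have hbadpart : ENNReal.ofReal v * volume (⋃ p ∈ s, closedBall (Φ p.1) (14 * L * p.2)) ≤
      ENNReal.ofReal ((14 * L) ^ (n + 1)) * volume (closedBall (0 : E n) 1) * κ := by
    calc ENNReal.ofReal v * volume (⋃ p ∈ s, closedBall (Φ p.1) (14 * L * p.2))
        ≤ ENNReal.ofReal v * ∑' p : s, volume (closedBall (Φ p.1.1) (14 * L * p.1.2)) := by
          gcongr
          exact measure_biUnion_le _ hscount _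
      _ = ∑' p : s, ENNReal.ofReal v * volume (closedBall (Φ p.1.1) (14 * L * p.1.2)) := by
          rw [ENNReal.tsum_mul_left]
      _ ≤ ∑' p : s, ENNReal.ofReal ((14 * L) ^ (n + 1)) * volume (closedBall (0 : E n) 1) *
            (μHE[n + 1] : Measure X) (closedBall p.1.1 p.1.2) := by
          refine ENNReal.tsum_le_tsum fun p => ?_
          obtain ⟨h1, h2, h3, -⟩ := hst p.2
          rw [hvb _ _ (by positivity)]
          have h4 := hvol p.1.1 h3 p.1.2 h1 h2
          have h5 : ENNReal.ofReal v * ENNReal.ofReal ((14 * L * p.1.2) ^ (n + 1)) =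
              ENNReal.ofReal ((14 * L) ^ (n + 1)) * ENNReal.ofReal (v * p.1.2 ^ (n + 1)) := by
            rw [← ENNReal.ofReal_mul hv.le, ← ENNReal.ofReal_mul (by positivity)]
            congr 1
            rw [mul_pow (14 * L)]
            ring
          rw [← mul_assoc, h5]
          calc ENNReal.ofReal ((14 * L) ^ (n + 1)) * ENNReal.ofReal (v * p.1.2 ^ (n + 1)) *
                volume (closedBall (0 : E n) 1)
              ≤ ENNReal.ofReal ((14 * L) ^ (n + 1)) *
                (μHE[n + 1] : Measure X) (closedBall p.1.1 p.1.2) *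
                volume (closedBall (0 : E n) 1) := by gcongr
            _ = _ := by ring
      _ = ENNReal.ofReal ((14 * L) ^ (n + 1)) * volume (closedBall (0 : E n) 1) *
            ∑' p : s, (μHE[n + 1] : Measure X) (closedBall p.1.1 p.1.2) := by
          rw [ENNReal.tsum_mul_left]
      _ ≤ _ := by
          gcongr
          refine ENNReal.summable.tsum_le_of_sum_le fun F => ?_
          have h1 := hBSE (F.map ⟨Subtype.val, Subtype.val_injective⟩) (by
            intro p hp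
            obtain ⟨q, -, rfl⟩ := Finset.mem_map.1 hp
            exact hst q.2) (by
            intro p hp q hq hpq
            obtain ⟨p', -, rfl⟩ := Finset.mem_map.1 (Finset.mem_coe.1 hp)
            obtain ⟨q', -, rfl⟩ := Finset.mem_map.1 (Finset.mem_coe.1 hq)
            exact hdisj p'.2 q'.2 hpq)
          rw [Finset.sum_map] at h1
          exact h1
  calc ENNReal.ofReal v * volume (closedBall (0 : E n) (1 / 2))
      ≤ ENNReal.ofReal v * (volume (Φ '' G) + volume (⋃ p ∈ s,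
          closedBall (Φ p.1) (14 * L * p.2))) := by
        gcongr
        exact (measure_mono hsub).trans (measure_union_le _ _)
    _ = ENNReal.ofReal v * volume (Φ '' G) + ENNReal.ofReal v * volume (⋃ p ∈ s,
          closedBall (Φ p.1) (14 * L * p.2)) := mul_add _ _ _
    _ ≤ _ := add_le_add (by gcongr) hbadpart

end Pool.Agent.BDRY
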