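import Pool.Agent.Work.MP_209cb6_gt.B2.Th

/-!
# Input (C), part A: an exceptional set of small measure does not matter
-/

set_option autoImplicit false

open MeasureTheory MeasureTheory.Measure Metric Set Filter Topology
open scoped ENNReal NNReal

namespace Pool.Agent.BDRY

universe u

theorem one_add_pow_le_exp {x : ℝ} (hx : 0 ≤ x) (N : ℕ) : (1 + x) ^ N ≤ Real.exp (N * x) := by
  rw [Real.exp_nat_mul]
  refine pow_le_pow_left₀ (by linarith) ?_ N
  linarith [Real.add_one_le_exp x]

/-- If the volume ratios at the scales `η₀ s` and `s/η₀` are almost equal at most points of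
`ball y (s/η₀)` then all volume ratios at all points of `closedBall y (s/η)`, at all scales in
`[η s, s/η]`, are almost equal. -/
theorem ratio_window {K : ℝ} (hK : K ≤ 0) (n : ℕ) {η : ℝ} (hη : 0 < η) (hη1 : η ≤ 1 / 2) :
    ∃ η₀ ζ₀ d₀ s₀ : ℝ, 0 < η₀ ∧ η₀ < η ∧ 0 < ζ₀ ∧ 0 < d₀ ∧ 0 < s₀ ∧ s₀ ≤ 1 ∧
    ∀ (X : Type u) [MetricSpace X] [MeasurableSpace X] [BorelSpace X] (m : Measure X),
      IsRCD K (n + 1) X m → ∀ (y : X) (s : ℝ), 0 < s → s ≤ s₀ →
      m {y' | y' ∈ ball y (s / η₀) ∧ (1 + d₀) * th n m (s / η₀) y' < th n m (η₀ * s) y'} ≤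
        ENNReal.ofReal ζ₀ * m (ball y (s / η₀)) →
      ∀ z ∈ closedBall y (s / η), ∀ r, η * s ≤ r → r ≤ s / η →
        (1 - η) * th n m (s / η₀) y ≤ th n m r z ∧
        th n m r z ≤ (1 + η) * th n m (s / η₀) y := by
  set N : ℝ := ((n + 1 : ℕ) : ℝ) with hN
  have hN1 : 1 ≤ N := by rw [hN]; exact_mod_cast Nat.succ_le_succ (Nat.zero_le n)
  have hN0 : 0 < N := by linarith
  set q : ℝ := qK K (n + 1) with hq
  have hq0 : 0 ≤ q := qK_nonneg _ _
  set τ : ℝ := η ^ 2 / (16 * N) with hτ
  set η₀ : ℝ := η ^ 2 / (32 * N) with hη₀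
  set d₀ : ℝ := η / 16 with hd₀
  set s₀ : ℝ := η * η₀ / (32 * (N * q + 1)) with hs₀
  set ζ₀ : ℝ := (η₀ * τ / 2) ^ (n + 1) / (2 * Real.exp 1) with hζ₀
  have hτ0 : 0 < τ := by positivity
  have hη₀0 : 0 < η₀ := by positivity
  have hd₀0 : 0 < d₀ := by positivity
  have hNq : 0 ≤ N * q := by positivity
  have hs₀0 : 0 < s₀ := by positivity
  have hζ₀0 : 0 < ζ₀ := by positivity
  have hη₀η : η₀ * (32 * N) = η ^ 2 := by rw [hη₀]; field_simp
  have hτη : τ * (16 * N) = η ^ 2 := by rw [hτ]; field_simp
  have hηsq : η ^ 2 ≤ η * (1 / 2) := by rw [sq]; exact mul_le_mul_of_nonneg_left hη1 hη.le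
  have hη₀lt : η₀ < η := by
    have h1 : η₀ * 32 ≤ η₀ * (32 * N) := mul_le_mul_of_nonneg_left (by linarith) hη₀0.le
    linarith
  have hs₀1 : s₀ ≤ 1 := by
    rw [hs₀, div_le_one (by positivity)]
    have h1 : η * η₀ ≤ 1 / 2 * (1 / 2) :=
      mul_le_mul hη1 (by linarith) hη₀0.le (by norm_num)
    linarith
  have hs₀q : s₀ * (32 * (N * q + 1)) = η * η₀ := by rw [hs₀]; field_simp
  refine ⟨η₀, ζ₀, d₀, s₀, hη₀0, hη₀lt, hζ₀0, hd₀0, hs₀0, hs₀1, ?_⟩
  intro X _ _ _ m hX y s hs hss hexc z hz r hr1 hr2
  have hNcast : ((n : ℝ) + 1) = N := by rw [hN]; push_cast; ring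
  have hNcast2 : ((n + 1 : ℕ) : ℝ) = N := rfl
  set W : ℝ := s / η₀ with hW
  have hW0 : 0 < W := by positivity
  have hr0 : 0 < r := lt_of_lt_of_le (by positivity) hr1
  have hWη : W * η₀ = s := by rw [hW]; field_simp
  -- the exponents
  have hsη : s / η * η = s := by field_simp
  have hA1 : s / η ≤ W * (η / (32 * N)) := by
    rw [hW, hη₀]
    apply le_of_eq
    field_simp
  have hsW : s / η ≤ W / 32 := by
    refine hA1.trans ?_
    rw [div_eq_mul_inv W 32]
    refine mul_le_mul_of_nonneg_left ?_ hW0.le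
    rw [div_le_iff₀ (by positivity)]
    have h1 : (32 : ℝ)⁻¹ * (32 * N) = N := by ring
    linarith
  have hqW : N * q * W ≤ η / 32 := by
    -- N q s/η₀ ≤ N q s₀/η₀
    have h1 : s * (32 * (N * q + 1)) ≤ η * η₀ := by
      rw [← hs₀q]
      exact mul_le_mul_of_nonneg_right hss (by positivity)
    rw [← hWη] at h1
    have h2 : W * (32 * (N * q + 1)) ≤ η := by
      by_contra hcon
      rw [not_le] at hcon
      have h3 := mul_lt_mul_of_pos_right hcon hη₀0
      linarith
    linarith
  have hτs : τ * s ≤ s / η := by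
    rw [le_div_iff₀ hη]
    have h1 : τ * 16 ≤ τ * (16 * N) := mul_le_mul_of_nonneg_left (by linarith) hτ0.le
    have h2 : τ * η ≤ 1 * 1 := mul_le_mul (by linarith) (by linarith) hη.le zero_le_one
    have h3 := mul_le_mul_of_nonneg_right h2 hs.le
    linarith
  have hrW : r ≤ W := by linarith
  -- a good point near `z`
  have hgood : ∃ y'' ∈ ball z (τ * s), th n m (η₀ * s) y'' ≤ (1 + d₀) * th n m W y'' := by
    by_contra hcon
    push Not at hcon
    have hsub : ball z (τ * s) ⊆
        {y' | y' ∈ ball y W ∧ (1 + d₀) * th n m W y' < th n m (η₀ * s) y'} := by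
      intro w hw
      refine ⟨?_, hcon w hw⟩
      rw [mem_ball] at hw ⊢
      rw [mem_closedBall] at hz
      calc dist w y ≤ dist w z + dist z y := dist_triangle _ _ _
        _ < W := by linarith
    have h1 := (measure_mono hsub).trans hexc
    have h2 : m.real (ball z (τ * s)) ≤ ζ₀ * m.real (ball y W) := by
      have := ENNReal.toReal_mono (ENNReal.mul_ne_top ENNReal.ofReal_ne_top (ball_fin hX y W)) h1
      rwa [ENNReal.toReal_mul, ENNReal.toReal_ofReal hζ₀0.le] at this
    have h3 : m.real (ball y W) ≤ m.real (ball z (2 * W)) := by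
      refine measureReal_mono (ball_subset_ball' ?_) (ball_fin hX z _)
      rw [mem_closedBall, dist_comm] at hz
      linarith
    have h4 := bg_real hK hX z (r := τ * s) (R := 2 * W) (by positivity) (by linarith)
    have h5 : 2 * W / (τ * s) = 2 / (η₀ * τ) := by
      rw [hW]; field_simp
    rw [h5, hNcast] at h4
    have h6 : Real.exp (N * qK K (n + 1) * (2 * W - τ * s)) ≤ Real.exp 1 := by
      refine Real.exp_le_exp.2 ?_
      rw [← hq]
      linarith [mul_nonneg hNq (mul_nonneg hτ0.le hs.le)]
    have h7 : 0 < m.real (ball z (τ * s)) := ball_real_pos hX z (by positivity)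
    have h8 : ζ₀ * ((2 / (η₀ * τ)) ^ (n + 1) * Real.exp 1) = 1 / 2 := by
      rw [hζ₀, div_pow, div_pow]
      field_simp
    have h9 : m.real (ball z (τ * s)) ≤ 1 / 2 * m.real (ball z (τ * s)) := by
      calc m.real (ball z (τ * s)) ≤ ζ₀ * m.real (ball y W) := h2
        _ ≤ ζ₀ * m.real (ball z (2 * W)) := mul_le_mul_of_nonneg_left h3 hζ₀0.le
        _ ≤ ζ₀ * ((2 / (η₀ * τ)) ^ (n + 1) * Real.exp (N * qK K (n + 1) * (2 * W - τ * s)) *
              m.real (ball z (τ * s))) := mul_le_mul_of_nonneg_left h4 hζ₀0.le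
        _ ≤ ζ₀ * ((2 / (η₀ * τ)) ^ (n + 1) * Real.exp 1 * m.real (ball z (τ * s))) := by gcongr
        _ = ζ₀ * ((2 / (η₀ * τ)) ^ (n + 1) * Real.exp 1) * m.real (ball z (τ * s)) := by ring
        _ = 1 / 2 * m.real (ball z (τ * s)) := by rw [h8]
    linarith
  obtain ⟨y'', hy''1, hy''2⟩ := hgood
  have hthW : 0 < th n m W y := th_pos hX y hW0
  constructor
  · -- lower bound
    have h1 := th_nbr (n := n) hK hX (x := y) (y := z) (e := s / η) (R := W)
      (by rw [dist_comm]; exact mem_closedBall.1 hz) hW0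
    have h2 := th_mono hK hX z hr0 hrW
    rw [hNcast, ← hq] at h1 h2
    have e1 : ((W + s / η) / W) ^ (n + 1) ≤ Real.exp (η / 32) := by
      have : (W + s / η) / W = 1 + (s / η) / W := by field_simp
      rw [this]
      refine (one_add_pow_le_exp (by positivity) (n + 1)).trans (Real.exp_le_exp.2 ?_)
      rw [hNcast2]
      have : s / η / W ≤ η / (32 * N) := by
        rw [div_le_iff₀ hW0, mul_comm]
        exact hA1
      calc N * (s / η / W) ≤ N * (η / (32 * N)) := mul_le_mul_of_nonneg_left this hN0.le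
        _ = η / 32 := by field_simp
    have e2 : Real.exp (N * q * (s / η)) ≤ Real.exp (η / 32) := by
      refine Real.exp_le_exp.2 ?_
      have := mul_le_mul_of_nonneg_left hsW hNq
      linarith
    have e3 : Real.exp (N * q * (W - r)) ≤ Real.exp (η / 32) := by
      refine Real.exp_le_exp.2 ?_
      have := mul_nonneg hNq hr0.le
      linarith
    have e4 : th n m W y ≤ Real.exp (3 * η / 32) * th n m r z := by
      calc th n m W y ≤ ((W + s / η) / W) ^ (n + 1) * Real.exp (N * q * (s / η)) * th n m W z := h1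
        _ ≤ Real.exp (η / 32) * Real.exp (η / 32) * (Real.exp (η / 32) * th n m r z) := by
            have hpz := (th_pos (n := n) hX z hW0).le
            have hprz := (th_pos (n := n) hX z hr0).le
            have h3 : th n m W z ≤ Real.exp (η / 32) * th n m r z :=
              h2.trans (mul_le_mul_of_nonneg_right e3 hprz)
            refine mul_le_mul (mul_le_mul e1 e2 (Real.exp_pos _).le (Real.exp_pos _).le) h3 hpz
              (by positivity)
        _ = Real.exp (3 * η / 32) * th n m r z := by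
            rw [← mul_assoc, ← Real.exp_add, ← Real.exp_add]
            congr 2
            ring
    have e5 : (1 - η) * Real.exp (3 * η / 32) ≤ 1 := by
      have : 1 - η ≤ Real.exp (-η) := by linarith [Real.add_one_le_exp (-η)]
      calc (1 - η) * Real.exp (3 * η / 32) ≤ Real.exp (-η) * Real.exp (3 * η / 32) :=
            mul_le_mul_of_nonneg_right this (Real.exp_pos _).le
        _ = Real.exp (-η + 3 * η / 32) := (Real.exp_add _ _).symm
        _ ≤ 1 := Real.exp_le_one_iff.2 (by linarith)
    have hprz := (th_pos (n := n) hX z hr0).le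
    calc (1 - η) * th n m W y ≤ (1 - η) * (Real.exp (3 * η / 32) * th n m r z) :=
          mul_le_mul_of_nonneg_left e4 (by linarith)
      _ = (1 - η) * Real.exp (3 * η / 32) * th n m r z := by ring
      _ ≤ 1 * th n m r z := mul_le_mul_of_nonneg_right e5 hprz
      _ = th n m r z := one_mul _
  · -- upper bound
    have hdz : dist z y'' ≤ τ * s := by rw [dist_comm]; exact (mem_ball.1 hy''1).le
    have hdy : dist y'' y ≤ 2 * (s / η) := by
      calc dist y'' y ≤ dist y'' z + dist z y := dist_triangle _ _ _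
        _ ≤ τ * s + s / η := add_le_add (mem_ball.1 hy''1).le (mem_closedBall.1 hz)
        _ ≤ 2 * (s / η) := by linarith
    have h1 := th_nbr (n := n) hK hX hdz hr0
    have hw : η₀ * s ≤ r := (mul_le_mul_of_nonneg_right hη₀lt.le hs.le).trans hr1
    have h2 := th_mono hK hX y'' (r := η₀ * s) (R := r) (by positivity) hw
    have h3 := th_nbr (n := n) hK hX hdy hW0
    rw [hNcast, ← hq] at h1 h2 h3
    have e1 : ((r + τ * s) / r) ^ (n + 1) ≤ Real.exp (η / 16) := by
      have : (r + τ * s) / r = 1 + (τ * s) / r := by field_simp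
      rw [this]
      refine (one_add_pow_le_exp (by positivity) (n + 1)).trans (Real.exp_le_exp.2 ?_)
      rw [hNcast2]
      have h4 : τ * s / r ≤ τ / η := by
        rw [div_le_div_iff₀ hr0 hη]
        have := mul_le_mul_of_nonneg_left hr1 hτ0.le
        linarith
      calc N * (τ * s / r) ≤ N * (τ / η) := mul_le_mul_of_nonneg_left h4 hN0.le
        _ = η / 16 := by rw [hτ]; field_simp
    have e2 : Real.exp (N * q * (τ * s)) ≤ Real.exp (η / 32) := by
      refine Real.exp_le_exp.2 ?_
      have : τ * s ≤ W := by linarith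
      linarith [mul_le_mul_of_nonneg_left this hNq]
    have e3 : Real.exp (N * q * (r - η₀ * s)) ≤ Real.exp (η / 32) := by
      refine Real.exp_le_exp.2 ?_
      have : r - η₀ * s ≤ W := by linarith [mul_pos hη₀0 hs]
      linarith [mul_le_mul_of_nonneg_left this hNq]
    have e4 : ((W + 2 * (s / η)) / W) ^ (n + 1) ≤ Real.exp (η / 16) := by
      have : (W + 2 * (s / η)) / W = 1 + 2 * (s / η) / W := by field_simp
      rw [this]
      refine (one_add_pow_le_exp (by positivity) (n + 1)).trans (Real.exp_le_exp.2 ?_)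
      rw [hNcast2]
      have : 2 * (s / η) / W ≤ 2 * (η / (32 * N)) := by
        rw [div_le_iff₀ hW0]
        linarith
      calc N * (2 * (s / η) / W) ≤ N * (2 * (η / (32 * N))) :=
            mul_le_mul_of_nonneg_left this hN0.le
        _ = η / 16 := by field_simp; ring
    have e5 : Real.exp (N * q * (2 * (s / η))) ≤ Real.exp (η / 32) := by
      refine Real.exp_le_exp.2 ?_
      have : 2 * (s / η) ≤ W := by linarith
      linarith [mul_le_mul_of_nonneg_left this hNq]
    have e6 : 1 + d₀ ≤ Real.exp (η / 16) := by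
      rw [hd₀]; linarith [Real.add_one_le_exp (η / 16)]
    have p1 := (th_pos (n := n) hX y'' hr0).le
    have p2 := (th_pos (n := n) hX y'' hW0).le
    have p3 := (th_pos (n := n) hX y'' (show 0 < η₀ * s by positivity)).le
    have g1 : th n m r z ≤ Real.exp (η / 16) * Real.exp (η / 32) * th n m r y'' :=
      h1.trans (mul_le_mul_of_nonneg_right (mul_le_mul e1 e2 (Real.exp_pos _).le
        (Real.exp_pos _).le) p1)
    have g2 : th n m r y'' ≤ Real.exp (η / 32) * th n m (η₀ * s) y'' :=
      h2.trans (mul_le_mul_of_nonneg_right e3 p3)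
    have g3 : th n m (η₀ * s) y'' ≤ Real.exp (η / 16) * th n m W y'' :=
      hy''2.trans (mul_le_mul_of_nonneg_right e6 p2)
    have g4 : th n m W y'' ≤ Real.exp (η / 16) * Real.exp (η / 32) * th n m W y :=
      h3.trans (mul_le_mul_of_nonneg_right (mul_le_mul e4 e5 (Real.exp_pos _).le
        (Real.exp_pos _).le) hthW.le)
    have g5 : th n m r z ≤ Real.exp (9 * η / 32) * th n m W y := by
      calc th n m r z ≤ Real.exp (η / 16) * Real.exp (η / 32) * th n m r y'' := g1
        _ ≤ Real.exp (η / 16) * Real.exp (η / 32) * (Real.exp (η / 32) * (Real.exp (η / 16) *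
              (Real.exp (η / 16) * Real.exp (η / 32) * th n m W y))) := by
            refine mul_le_mul_of_nonneg_left (g2.trans ?_) (by positivity)
            refine mul_le_mul_of_nonneg_left (g3.trans ?_) (by positivity)
            exact mul_le_mul_of_nonneg_left g4 (by positivity)
        _ = Real.exp (9 * η / 32) * th n m W y := by
            have : Real.exp (9 * η / 32) = Real.exp (η / 16) * Real.exp (η / 32) *
                (Real.exp (η / 32) * (Real.exp (η / 16) * (Real.exp (η / 16) *
                  Real.exp (η / 32)))) := by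
              simp only [← Real.exp_add]
              congr 1
              ring
            rw [this]
            ring
    have g6 : Real.exp (9 * η / 32) ≤ 1 + η := by
      have hx : |9 * η / 32| ≤ 1 := by
        rw [abs_of_pos (by positivity)]; linarith
      have := Real.abs_exp_sub_one_sub_id_le hx
      rw [abs_le] at this
      have h3 : (9 * η / 32) ^ 2 = 81 / 1024 * η ^ 2 := by ring
      rw [h3] at this
      linarith [this.2]
    exact g5.trans (mul_le_mul_of_nonneg_right g6 hthW.le)

end Pool.Agent.BDRY
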