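import Pool.Agent.Work.MP_209cb6_gt.B2.Pinsker

/-!
# Gibbs' inequality with the Hellinger term, Hellinger versus total variation
-/

set_option autoImplicit false

open MeasureTheory MeasureTheory.Measure Metric Set Filter Topology
open scoped ENNReal NNReal

namespace Pool.Agent.BDRY

universe u

section hell

variable {X : Type u} [MeasurableSpace X]

theorem integrable_sqrt_mul {m : Measure X} {f g : X → ℝ} (hf : Integrable f m)
    (hg : Integrable g m) (f0 : ∀ x, 0 ≤ f x) (g0 : ∀ x, 0 ≤ g x) :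
    Integrable (fun x => √(f x * g x)) m := by
  refine (hf.add hg).mono ?_ (ae_of_all _ fun x => ?_)
  · exact (hf.aestronglyMeasurable.mul hg.aestronglyMeasurable).aemeasurable.sqrt.aestronglyMeasurable
  · rw [Real.norm_eq_abs, Real.norm_eq_abs, abs_of_nonneg (Real.sqrt_nonneg _)]
    refine le_trans ?_ (le_abs_self _)
    rw [Pi.add_apply]
    have h1 := f0 x
    have h2 := g0 x
    rw [Real.sqrt_le_left (by linarith)]
    nlinarith [mul_nonneg h1 h2]

theorem sqrt_sub_sq {a b : ℝ} (ha : 0 ≤ a) (hb : 0 ≤ b) :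
    (√a - √b) ^ 2 = a + b - 2 * √(a * b) := by
  rw [Real.sqrt_mul ha]
  nlinarith [Real.sq_sqrt ha, Real.sq_sqrt hb]

theorem integrable_sqrt_sub_sq {m : Measure X} {f g : X → ℝ} (hf : Integrable f m)
    (hg : Integrable g m) (f0 : ∀ x, 0 ≤ f x) (g0 : ∀ x, 0 ≤ g x) :
    Integrable (fun x => (√(f x) - √(g x)) ^ 2) m := by
  refine ((hf.add hg).sub ((integrable_sqrt_mul hf hg f0 g0).const_mul 2)).congr
    (ae_of_all _ fun x => ?_)
  exact (sqrt_sub_sq (f0 x) (g0 x)).symm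

theorem integral_sqrt_sub_sq {m : Measure X} {f g : X → ℝ} (hf : Integrable f m)
    (hg : Integrable g m) (f0 : ∀ x, 0 ≤ f x) (g0 : ∀ x, 0 ≤ g x) :
    ∫ x, (√(f x) - √(g x)) ^ 2 ∂m =
      ∫ x, f x ∂m + ∫ x, g x ∂m - 2 * ∫ x, √(f x * g x) ∂m := by
  have e1 := integral_add hf hg
  have e2 := integral_sub (hf.add hg) ((integrable_sqrt_mul hf hg f0 g0).const_mul 2)
  rw [← integral_const_mul, ← e1]
  refine Eq.trans (integral_congr_ae (ae_of_all _ fun x => ?_)) (e2.trans rfl)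
  exact sqrt_sub_sq (f0 x) (g0 x)

/-- Gibbs' inequality with the Hellinger term. -/
theorem gibbs_hell {m μ : Measure X} [SigmaFinite m] [IsProbabilityMeasure μ] (hac : μ ≪ m)
    (hint : Integrable (llr μ m) μ) {φ : X → ℝ} (hφ : ∀ x, 0 < φ x)
    (h1 : Integrable φ m) (h2 : Integrable (fun x => Real.log (φ x)) μ) :
    ∫ x, Real.log (φ x) ∂μ + 1 - ∫ x, φ x ∂m
        + ∫ x, (√(μ.rnDeriv m x).toReal - √(φ x)) ^ 2 ∂m
      ≤ ∫ x, llr μ m x ∂μ := by
  set ρ : X → ℝ := fun x => (μ.rnDeriv m x).toReal with hρ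
  have hρm : Measurable ρ := (Measure.measurable_rnDeriv μ m).ennreal_toReal
  have hρ0 : ∀ x, 0 ≤ ρ x := fun x => ENNReal.toReal_nonneg
  have hρi : Integrable ρ m := Measure.integrable_toReal_rnDeriv
  have hρ1 : ∫ x, ρ x ∂m = 1 := by
    rw [hρ, Measure.integral_toReal_rnDeriv hac]; simp
  have hs := integrable_sqrt_mul hρi h1 hρ0 fun x => (hφ x).le
  have hptw : ∀ x, ρ x • √(φ x / ρ x) = √(ρ x * φ x) := by
    intro x
    rw [smul_eq_mul]
    rcases eq_or_lt_of_le (hρ0 x) with hx | hx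
    · rw [← hx]; simp
    · have : ρ x * φ x = ρ x ^ 2 * (φ x / ρ x) := by field_simp
      rw [this, Real.sqrt_mul (sq_nonneg _), Real.sqrt_sq hx.le]
  have h3 : Integrable (fun x => ρ x • √(φ x / ρ x)) m := hs.congr (ae_of_all _ fun x =>
    (hptw x).symm)
  have h4 : Integrable (fun x => √(φ x / ρ x)) μ := (integrable_rnDeriv_smul_iff hac).1 h3
  have h5 : ∫ x, √(φ x / ρ x) ∂μ = ∫ x, √(ρ x * φ x) ∂m := by
    rw [← integral_rnDeriv_smul hac]
    exact integral_congr_ae (ae_of_all _ hptw)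
  have h6 : ∀ᵐ x ∂μ, Real.log (φ x) + 2 - 2 * √(φ x / ρ x) ≤ llr μ m x := by
    filter_upwards [Measure.rnDeriv_pos hac, Measure.rnDeriv_lt_top μ m |>.filter_mono hac.ae_le]
      with x hx hx'
    have hpos : 0 < ρ x := ENNReal.toReal_pos hx.ne' hx'.ne
    have hq : 0 < φ x / ρ x := div_pos (hφ x) hpos
    have := Real.log_le_sub_one_of_pos (Real.sqrt_pos.2 hq)
    rw [Real.log_sqrt hq.le, Real.log_div (hφ x).ne' hpos.ne'] at this
    simp only [llr_def]
    change Real.log (φ x) + 2 - 2 * √(φ x / ρ x) ≤ Real.log (ρ x)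
    linarith
  have h7 : Integrable (fun x => Real.log (φ x) + 2 - 2 * √(φ x / ρ x)) μ :=
    (h2.add (integrable_const 2)).sub (h4.const_mul 2)
  have h8 := integral_mono_ae h7 hint h6
  have h9 : ∫ x, (Real.log (φ x) + 2 - 2 * √(φ x / ρ x)) ∂μ =
      ∫ x, Real.log (φ x) ∂μ + 2 - 2 * ∫ x, √(ρ x * φ x) ∂m := by
    have e1 : ∫ x, (Real.log (φ x) + 2 - 2 * √(φ x / ρ x)) ∂μ =
        ∫ x, (Real.log (φ x) + 2) ∂μ - ∫ x, 2 * √(φ x / ρ x) ∂μ :=
      integral_sub (h2.add (integrable_const 2)) (h4.const_mul 2)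
    have e2 : ∫ x, (Real.log (φ x) + 2) ∂μ = ∫ x, Real.log (φ x) ∂μ + ∫ _x, (2 : ℝ) ∂μ :=
      integral_add h2 (integrable_const 2)
    rw [e1, e2, integral_const_mul, h5]
    simp
  rw [h9] at h8
  have h10 := integral_sqrt_sub_sq hρi h1 hρ0 fun x => (hφ x).le
  rw [hρ1] at h10
  change ∫ x, Real.log (φ x) ∂μ + 1 - ∫ x, φ x ∂m + ∫ x, (√(ρ x) - √(φ x)) ^ 2 ∂m ≤ _
  rw [h10]
  linarith

/-- Cauchy-Schwarz for real integrals, in the squared form -/
theorem integral_mul_sq_le {m : Measure X} {f g : X → ℝ} (hf : Integrable (fun x => f x ^ 2) m)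
    (hg : Integrable (fun x => g x ^ 2) m) (hfg : Integrable (fun x => f x * g x) m) :
    (∫ x, f x * g x ∂m) ^ 2 ≤ (∫ x, f x ^ 2 ∂m) * ∫ x, g x ^ 2 ∂m := by
  set A := ∫ x, f x ^ 2 ∂m
  set B := ∫ x, g x ^ 2 ∂m
  set C := ∫ x, f x * g x ∂m
  have key : ∀ s t : ℝ, 0 ≤ s ^ 2 * A + t ^ 2 * B + 2 * s * t * C := by
    intro s t
    have h1 : ∫ x, (s * f x + t * g x) ^ 2 ∂m = s ^ 2 * A + t ^ 2 * B + 2 * s * t * C := by
      have e : ∀ x, (s * f x + t * g x) ^ 2 =
          s ^ 2 * f x ^ 2 + t ^ 2 * g x ^ 2 + 2 * s * t * (f x * g x) := fun x => by ring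
      have i1 := hf.const_mul (s ^ 2)
      have i2 := hg.const_mul (t ^ 2)
      have i3 := hfg.const_mul (2 * s * t)
      have e1 : ∫ x, (s ^ 2 * f x ^ 2 + t ^ 2 * g x ^ 2 + 2 * s * t * (f x * g x)) ∂m =
          ∫ x, (s ^ 2 * f x ^ 2 + t ^ 2 * g x ^ 2) ∂m + ∫ x, 2 * s * t * (f x * g x) ∂m :=
        integral_add (i1.add i2) i3
      have e2 : ∫ x, (s ^ 2 * f x ^ 2 + t ^ 2 * g x ^ 2) ∂m =
          ∫ x, s ^ 2 * f x ^ 2 ∂m + ∫ x, t ^ 2 * g x ^ 2 ∂m := integral_add i1 i2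
      rw [integral_congr_ae (ae_of_all _ e), e1, e2, integral_const_mul, integral_const_mul,
        integral_const_mul]
    rw [← h1]
    exact integral_nonneg fun x => sq_nonneg _
  have hA : 0 ≤ A := integral_nonneg fun x => sq_nonneg _
  have hB : 0 ≤ B := integral_nonneg fun x => sq_nonneg _
  rcases eq_or_lt_of_le hA with h | h
  · -- A = 0
    have h1 : ∀ s : ℝ, 0 ≤ B + 2 * s * C := by
      intro s
      have := key s 1
      rw [← h] at this
      linarith
    have h2 : C = 0 := by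
      by_contra hC
      have := h1 (-(B + 1) / (2 * C))
      have h3 : 2 * (-(B + 1) / (2 * C)) * C = -(B + 1) := by field_simp
      linarith
    rw [h2, ← h]; norm_num
  · have := key C (-A)
    nlinarith

/-- Hellinger controls total variation, tested with a bounded function. -/
theorem hell_tv {m : Measure X} {f g : X → ℝ} (hf : Integrable f m)
    (hg : Integrable g m) (f0 : ∀ x, 0 ≤ f x) (g0 : ∀ x, 0 ≤ g x) :
    (∫ x, |f x - g x| ∂m) ^ 2 ≤ (∫ x, (√(f x) - √(g x)) ^ 2 ∂m) *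
      (2 * (∫ x, f x ∂m + ∫ x, g x ∂m)) := by
  have i1 := integrable_sqrt_sub_sq hf hg f0 g0
  have hfs : AEStronglyMeasurable (fun x => √(f x)) m :=
    hf.aestronglyMeasurable.aemeasurable.sqrt.aestronglyMeasurable
  have hgs : AEStronglyMeasurable (fun x => √(g x)) m :=
    hg.aestronglyMeasurable.aemeasurable.sqrt.aestronglyMeasurable
  have hptw : ∀ x, (√(f x) + √(g x)) ^ 2 ≤ 2 * (f x + g x) := by
    intro x
    have h1 := Real.sq_sqrt (f0 x)
    have h2 := Real.sq_sqrt (g0 x)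
    nlinarith [sq_nonneg (√(f x) - √(g x))]
  have i2 : Integrable (fun x => (√(f x) + √(g x)) ^ 2) m := by
    refine ((hf.add hg).const_mul 2).mono ((hfs.add hgs).pow 2) (ae_of_all _ fun x => ?_)
    rw [Real.norm_eq_abs, Real.norm_eq_abs, abs_of_nonneg (sq_nonneg _)]
    exact (hptw x).trans (le_abs_self _)
  have hprod : ∀ x, |√(f x) - √(g x)| * (√(f x) + √(g x)) = |f x - g x| := by
    intro x
    have h0 : 0 ≤ √(f x) + √(g x) := by positivity
    have h1 : |√(f x) - √(g x)| * (√(f x) + √(g x)) =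
        |(√(f x) - √(g x)) * (√(f x) + √(g x))| := by
      rw [abs_mul, abs_of_nonneg h0]
    rw [h1]
    congr 1
    nlinarith [Real.sq_sqrt (f0 x), Real.sq_sqrt (g0 x)]
  have i1' : Integrable (fun x => |√(f x) - √(g x)| ^ 2) m := by
    simpa only [sq_abs] using i1
  have h := integral_mul_sq_le (f := fun x => |√(f x) - √(g x)|) (g := fun x => √(f x) + √(g x))
    i1' i2 (((hf.sub hg).abs).congr (ae_of_all _ fun x => (hprod x).symm))
  simp only [hprod, sq_abs] at h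
  refine h.trans (mul_le_mul_of_nonneg_left ?_ (integral_nonneg fun x => sq_nonneg _))
  calc ∫ x, (√(f x) + √(g x)) ^ 2 ∂m ≤ ∫ x, 2 * (f x + g x) ∂m :=
        integral_mono i2 ((hf.add hg).const_mul 2) hptw
    _ = 2 * (∫ x, f x ∂m + ∫ x, g x ∂m) := by
        rw [integral_const_mul, integral_add hf hg]

end hell

end Pool.Agent.BDRY
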