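import Pool.Agent.Work.MP_209cb6_gt.B2.GaussInt
import Pool.Agent.Work.MP_209cb6_gt.B2.Hell

/-!
# Chapman-Kolmogorov for nearly Gaussian symmetric kernels gives an almost isometric map into `L²`
-/

set_option autoImplicit false

open MeasureTheory MeasureTheory.Measure Metric Set Filter Topology ProbabilityTheory
open scoped ENNReal NNReal

namespace Pool.Agent.BDRY

universe u

/-! ## The Gaussian is Lipschitz -/

theorem gauss_lip {t u v : ℝ} (ht : 0 < t) :
    |Real.exp (-u ^ 2 / (4 * t)) - Real.exp (-v ^ 2 / (4 * t))| ≤ |u - v| / √t := by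
  have hd : ∀ x ∈ (univ : Set ℝ), HasDerivWithinAt (fun R : ℝ => Real.exp (-R ^ 2 / (4 * t)))
      (-gk t x) univ x := by
    intro x _
    have h := (hasDerivAt_gk ht x).neg
    have h' : HasDerivAt (fun R : ℝ => Real.exp (-R ^ 2 / (4 * t))) (-gk t x) x :=
      h.congr_of_eventuallyEq (Filter.Eventually.of_forall fun y => by simp)
    exact h'.hasDerivWithinAt
  have hb : ∀ x ∈ (univ : Set ℝ), ‖-gk t x‖ ≤ 1 / √t := by
    intro x _
    have hs : 0 < √t := Real.sqrt_pos.2 ht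
    have hs2 : √t ^ 2 = t := Real.sq_sqrt ht.le
    rw [norm_neg, Real.norm_eq_abs, gk, abs_mul, Real.abs_exp, abs_div,
      abs_of_pos (by positivity : 0 < 2 * t)]
    set w := |x| / (2 * √t) with hw
    have hw0 : 0 ≤ w := by positivity
    have e1 : |x| / (2 * t) = w / √t := by
      rw [hw]
      nth_rewrite 1 [← hs2]
      field_simp
    have e2 : -x ^ 2 / (4 * t) = -w ^ 2 := by
      rw [hw, div_pow, mul_pow, hs2, sq_abs]
      ring
    rw [e1, e2]
    have e3 : w * Real.exp (-w ^ 2) ≤ 1 := by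
      have h1 : w ≤ Real.exp (w ^ 2) := by
        have := Real.add_one_le_exp (w ^ 2)
        nlinarith [sq_nonneg (w - 1)]
      rw [Real.exp_neg]
      rw [← div_eq_mul_inv, div_le_one (Real.exp_pos _)]
      exact h1
    calc w / √t * Real.exp (-w ^ 2) = (w * Real.exp (-w ^ 2)) / √t := by ring
      _ ≤ 1 / √t := by gcongr
  have h := Convex.norm_image_sub_le_of_norm_hasDerivWithin_le hd hb convex_univ
    (mem_univ v) (mem_univ u)
  rw [Real.norm_eq_abs] at h
  rw [Real.norm_eq_abs] at h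
  calc _ ≤ 1 / √t * |u - v| := h
    _ = |u - v| / √t := by ring

/-- The Gaussian density of a space with volume ratio `a`. -/
noncomputable def gG {X : Type u} [MetricSpace X] (n : ℕ) (a t : ℝ) (z y : X) : ℝ :=
  Real.exp (-dist y z ^ 2 / (4 * t)) / (a * (4 * Real.pi * t) ^ (((n + 1 : ℕ) : ℝ) / 2))

/-- the sup of `gG` -/
noncomputable def gC (n : ℕ) (a t : ℝ) : ℝ :=
  1 / (a * (4 * Real.pi * t) ^ (((n + 1 : ℕ) : ℝ) / 2))

theorem gC_pos (n : ℕ) {a t : ℝ} (ha : 0 < a) (ht : 0 < t) : 0 < gC n a t := by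
  unfold gC; positivity

section gG

variable {X : Type u} [MetricSpace X]

theorem gG_eq (n : ℕ) (a t : ℝ) (z y : X) :
    gG n a t z y = gC n a t * Real.exp (-dist y z ^ 2 / (4 * t)) := by
  unfold gG gC; ring

theorem gG_nonneg (n : ℕ) {a t : ℝ} (ha : 0 < a) (ht : 0 < t) (z y : X) : 0 ≤ gG n a t z y := by
  rw [gG_eq]
  exact mul_nonneg (gC_pos n ha ht).le (Real.exp_pos _).le

theorem gG_le (n : ℕ) {a t : ℝ} (ha : 0 < a) (ht : 0 < t) (z y : X) :
    gG n a t z y ≤ gC n a t := by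
  rw [gG_eq]
  have h1 : Real.exp (-dist y z ^ 2 / (4 * t)) ≤ 1 := by
    rw [Real.exp_le_one_iff, neg_div]
    have : 0 ≤ dist y z ^ 2 / (4 * t) := by positivity
    linarith
  calc _ ≤ gC n a t * 1 := mul_le_mul_of_nonneg_left h1 (gC_pos n ha ht).le
    _ = _ := mul_one _

theorem gG_abs_le (n : ℕ) {a t : ℝ} (ha : 0 < a) (ht : 0 < t) (z y : X) :
    |gG n a t z y| ≤ gC n a t := by
  rw [abs_of_nonneg (gG_nonneg n ha ht z y)]
  exact gG_le n ha ht z y

theorem gG_comm (n : ℕ) (a t : ℝ) (z y : X) : gG n a t z y = gG n a t y z := by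
  rw [gG, gG, dist_comm]

theorem gG_sub_le (n : ℕ) {a t : ℝ} (ha : 0 < a) (ht : 0 < t) (z z' y : X) :
    |gG n a t z y - gG n a t z' y| ≤ gC n a t * (dist z z' / √t) := by
  rw [gG_eq, gG_eq, ← mul_sub, abs_mul, abs_of_pos (gC_pos n ha ht)]
  refine mul_le_mul_of_nonneg_left ((gauss_lip ht).trans ?_) (gC_pos n ha ht).le
  have h1 : |dist y z - dist y z'| ≤ dist z z' := by
    rw [dist_comm y z, dist_comm y z']
    exact abs_dist_sub_le z z' y
  gcongr

theorem gG_prod (n : ℕ) {a s : ℝ} (ha : 0 < a) (hs : 0 < s) (z z' y : X) :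
    √(gG n a s z y * gG n a s z' y) =
      a * (16 * Real.pi * s) ^ (((n + 1 : ℕ) : ℝ) / 2) *
        (gG n a (2 * s) z y * gG n a (2 * s) z' y) := by
  set q : ℝ := ((n + 1 : ℕ) : ℝ) / 2 with hq
  have hp1 : 0 < (4 * Real.pi * s) ^ q := by positivity
  have hp2 : 0 < (4 * Real.pi * (2 * s)) ^ q := by positivity
  have hp3 : 0 < (16 * Real.pi * s) ^ q := by positivity
  have hrel : (16 * Real.pi * s) ^ q * (4 * Real.pi * s) ^ q = ((4 * Real.pi * (2 * s)) ^ q) ^ 2 := by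
    rw [← Real.mul_rpow (by positivity) (by positivity), ← Real.rpow_natCast, ← Real.rpow_mul
      (by positivity), mul_comm q, Real.rpow_mul (by positivity)]
    congr 1
    rw [Real.rpow_natCast]
    ring
  have hgp : gG n a s z y * gG n a s z' y =
      (Real.exp (-dist y z ^ 2 / (4 * (2 * s))) * Real.exp (-dist y z' ^ 2 / (4 * (2 * s)))
        / (a * (4 * Real.pi * s) ^ q)) ^ 2 := by
    rw [gG, gG, ← hq, div_pow, mul_pow, ← Real.exp_nat_mul, ← Real.exp_nat_mul, div_mul_div_comm]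
    congr 1
    · congr 1
      · congr 1
        push_cast
        field_simp
      · congr 1
        push_cast
        field_simp
    · ring
  rw [hgp, Real.sqrt_sq (by positivity), gG, gG, ← hq]
  rw [div_mul_div_comm, mul_div_assoc', div_eq_div_iff (by positivity) (by positivity)]
  have h1 : a * (4 * Real.pi * (2 * s)) ^ q * (a * (4 * Real.pi * (2 * s)) ^ q) =
      a ^ 2 * ((4 * Real.pi * (2 * s)) ^ q) ^ 2 := by ring
  rw [h1, ← hrel]
  ring

theorem gG_four (n : ℕ) {a s : ℝ} (ha : 0 < a) (hs : 0 < s) (z z' : X) :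
    a * (16 * Real.pi * s) ^ (((n + 1 : ℕ) : ℝ) / 2) * gG n a (4 * s) z z' =
      Real.exp (-dist z z' ^ 2 / (16 * s)) := by
  have h1 : (4 * Real.pi * (4 * s)) = 16 * Real.pi * s := by ring
  rw [gG, h1, dist_comm z' z]
  have h2 : 0 < (16 * Real.pi * s) ^ (((n + 1 : ℕ) : ℝ) / 2) := by positivity
  rw [show 4 * (4 * s) = 16 * s by ring]
  field_simp

theorem continuous_gG (n : ℕ) (a t : ℝ) (z : X) : Continuous (gG n a t z) := by
  unfold gG
  fun_prop

end gG

/-! ## Symmetric kernels -/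

section ker

variable {X : Type u} [MeasurableSpace X]

/-- `κ` is symmetric with respect to `m` -/
def SymK (m : Measure X) (κ : Kernel X X) : Prop :=
  ∀ A B : Set X, MeasurableSet A → MeasurableSet B →
    ∫⁻ x in A, κ x B ∂m = ∫⁻ x in B, κ x A ∂m

theorem SymK.lintegral {m : Measure X} {κ : Kernel X X} (h : SymK m κ)
    {B : Set X} (hB : MeasurableSet B) {f : X → ℝ≥0∞} (hf : Measurable f) :
    ∫⁻ y, f y * κ y B ∂m = ∫⁻ z in B, (∫⁻ y, f y ∂κ z) ∂m := by
  have hκB : Measurable fun y => κ y B := Kernel.measurable_coe κ hB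
  have e : m.withDensity (fun y => κ y B) = (m.restrict B).bind κ := by
    ext A hA
    rw [withDensity_apply _ hA, Measure.bind_apply hA κ.aemeasurable]
    exact h A B hA hB
  have e1 : ∫⁻ y, f y ∂(m.withDensity fun y => κ y B) = ∫⁻ y, f y * κ y B ∂m := by
    rw [lintegral_withDensity_eq_lintegral_mul _ hκB hf]
    refine lintegral_congr fun y => ?_
    rw [Pi.mul_apply, mul_comm]
  rw [← e1, e, Measure.lintegral_bind κ.aemeasurable hf.aemeasurable]

theorem SymK.integral {m : Measure X} {κ : Kernel X X} [IsMarkovKernel κ]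
    (h : SymK m κ) {B : Set X} (hB : MeasurableSet B) {φ : X → ℝ}
    (hφ : Measurable φ) (h0 : ∀ y, 0 ≤ φ y) {C : ℝ} (hC : ∀ y, φ y ≤ C) :
    ∫ y, φ y * (κ y).real B ∂m = ∫ z in B, (∫ y, φ y ∂κ z) ∂m := by
  have hκB : Measurable fun y => κ y B := Kernel.measurable_coe κ hB
  have hm2 : StronglyMeasurable fun z => ∫ y, φ y ∂κ z :=
    hφ.stronglyMeasurable.integral_kernel
  rw [integral_eq_lintegral_of_nonneg_ae (ae_of_all _ fun y => mul_nonneg (h0 y)
      measureReal_nonneg) (hφ.mul hκB.ennreal_toReal).aestronglyMeasurable,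
    integral_eq_lintegral_of_nonneg_ae (ae_of_all _ fun z => integral_nonneg h0)
      hm2.aestronglyMeasurable]
  congr 1
  have hl := h.lintegral hB hφ.ennreal_ofReal
  calc ∫⁻ y, ENNReal.ofReal (φ y * (κ y).real B) ∂m = ∫⁻ y, ENNReal.ofReal (φ y) * κ y B ∂m := by
        refine lintegral_congr fun y => ?_
        rw [ENNReal.ofReal_mul (h0 y), Measure.real, ENNReal.ofReal_toReal (measure_ne_top _ _)]
    _ = ∫⁻ z in B, (∫⁻ y, ENNReal.ofReal (φ y) ∂κ z) ∂m := hl
    _ = ∫⁻ z in B, ENNReal.ofReal (∫ y, φ y ∂κ z) ∂m := by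
        refine lintegral_congr fun z => ?_
        rw [ofReal_integral_eq_lintegral_ofReal _ (ae_of_all _ h0)]
        refine Integrable.of_bound hφ.aestronglyMeasurable C (ae_of_all _ fun y => ?_)
        rw [Real.norm_eq_abs, abs_of_nonneg (h0 y)]
        exact hC y

/-- Closeness of a probability measure to `g m`, tested with bounded functions. -/
def TestClose (m μ : Measure X) (g : X → ℝ) (δ : ℝ) : Prop :=
  ∀ φ : X → ℝ, Measurable φ → ∀ M : ℝ, (∀ y, |φ y| ≤ M) →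
    |∫ y, φ y ∂μ - ∫ y, φ y * g y ∂m| ≤ M * δ

end ker

section ck

variable {X : Type u} [MetricSpace X] [MeasurableSpace X] [BorelSpace X]

/-- Chapman-Kolmogorov for nearly Gaussian symmetric kernels. -/
theorem ck_gauss (n : ℕ) {m : Measure X} {κ : Kernel X X} [IsMarkovKernel κ]
    (hsym : SymK m κ) {a s δ ρ : ℝ} (ha : 0 < a) (hs : 0 < s) (_hδ : 0 ≤ δ) (hρ : 0 < ρ)
    {z z' : X} (hB0 : 0 < m.real (closedBall z' ρ)) (hB1 : m (closedBall z' ρ) ≠ ∞)
    (hi : Integrable (gG n a (2 * s) z) m) (hz : ∫ y, gG n a (2 * s) z y ∂m ≤ 2)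
    (h2z : TestClose m (κ z) (gG n a (2 * s) z) δ)
    (h2 : ∀ w ∈ closedBall z' ρ, TestClose m (κ w) (gG n a (2 * s) w) δ)
    (h4i : Integrable (gG n a (4 * s) z) m)
    (h4 : TestClose m ((κ ∘ₖ κ) z) (gG n a (4 * s) z) δ) :
    |∫ y, gG n a (2 * s) z y * gG n a (2 * s) z' y ∂m - gG n a (4 * s) z z'| ≤
      2 * δ / m.real (closedBall z' ρ) + gC n a (2 * s) * δ
        + 2 * gC n a (2 * s) * (ρ / √(2 * s)) + gC n a (4 * s) * (ρ / √(4 * s)) := by
  set B := closedBall z' ρ with hB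
  have hBm : MeasurableSet B := measurableSet_closedBall
  set C2 := gC n a (2 * s) with hC2
  set C4 := gC n a (4 * s) with hC4
  have hC20 : 0 < C2 := gC_pos n ha (by positivity)
  have hC40 : 0 < C4 := gC_pos n ha (by positivity)
  set g : X → X → ℝ := gG n a (2 * s) with hg
  have g0 : ∀ w y, 0 ≤ g w y := fun w y => gG_nonneg n ha (by positivity) w y
  have gle : ∀ w y, g w y ≤ C2 := fun w y => gG_le n ha (by positivity) w y
  have gabs : ∀ w y, |g w y| ≤ C2 := fun w y => gG_abs_le n ha (by positivity) w y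
  have gm : ∀ w, Measurable (g w) := fun w => (continuous_gG n a (2 * s) w).measurable
  have hκB : Measurable fun y => (κ y).real B := (Kernel.measurable_coe κ hBm).ennreal_toReal
  have hκB1 : ∀ y, |(κ y).real B| ≤ 1 := fun y => by
    rw [abs_of_nonneg measureReal_nonneg]; exact measureReal_le_one
  -- F1
  have F1 : ∫ y, (κ y).real B ∂κ z = ((κ ∘ₖ κ) z).real B := by
    rw [Measure.real, Kernel.comp_apply' _ _ _ hBm, integral_eq_lintegral_of_nonneg_ae
      (ae_of_all _ fun y => measureReal_nonneg) hκB.aestronglyMeasurable]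
    congr 1
    refine lintegral_congr fun y => ?_
    rw [Measure.real, ENNReal.ofReal_toReal (measure_ne_top _ _)]
  have F2 := h2z (fun y => (κ y).real B) hκB 1 hκB1
  rw [one_mul, F1] at F2
  have F3 : ∫ y, (κ y).real B * g z y ∂m = ∫ w in B, (∫ y, g z y ∂κ w) ∂m := by
    rw [← hsym.integral hBm (gm z) (g0 z) (gle z)]
    exact integral_congr_ae (ae_of_all _ fun y => mul_comm _ _)
  have hgz : ∀ w, Integrable (fun y => g z y * g w y) m := fun w =>
    hi.mul_bdd (c := C2) (gm w).aestronglyMeasurable (ae_of_all _ fun y => gabs w y)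
  set c := ∫ y, g z y * g z' y ∂m with hc
  have F5 : ∀ w ∈ B, |∫ y, g z y * g w y ∂m - c| ≤ 2 * C2 * (ρ / √(2 * s)) := by
    intro w hw
    rw [hc, ← integral_sub (hgz w) (hgz z')]
    have h1 : ∀ y, |g z y * g w y - g z y * g z' y| ≤ g z y * (C2 * (ρ / √(2 * s))) := by
      intro y
      rw [← mul_sub, abs_mul, abs_of_nonneg (g0 z y)]
      refine mul_le_mul_of_nonneg_left ?_ (g0 z y)
      refine (gG_sub_le n ha (by positivity) w z' y).trans ?_
      refine mul_le_mul_of_nonneg_left ?_ hC20.le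
      exact div_le_div_of_nonneg_right (mem_closedBall.1 hw) (Real.sqrt_nonneg _)
    calc |∫ y, (g z y * g w y - g z y * g z' y) ∂m| ≤ ∫ y, |g z y * g w y - g z y * g z' y| ∂m :=
          abs_integral_le_integral_abs
      _ ≤ ∫ y, g z y * (C2 * (ρ / √(2 * s))) ∂m :=
          integral_mono ((hgz w).sub (hgz z')).abs (hi.mul_const _) h1
      _ = (∫ y, g z y ∂m) * (C2 * (ρ / √(2 * s))) := integral_mul_const _ _
      _ ≤ 2 * (C2 * (ρ / √(2 * s))) := mul_le_mul_of_nonneg_right hz (by positivity)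
      _ = _ := by ring
  have F45 : ∀ w ∈ B, |∫ y, g z y ∂κ w - c| ≤ C2 * δ + 2 * C2 * (ρ / √(2 * s)) := by
    intro w hw
    have h1 := h2 w hw (g z) (gm z) C2 (gabs z)
    have h3 := F5 w hw
    calc |∫ y, g z y ∂κ w - c| = |(∫ y, g z y ∂κ w - ∫ y, g z y * g w y ∂m)
          + (∫ y, g z y * g w y ∂m - c)| := by ring_nf
      _ ≤ _ := (abs_add_le _ _).trans (add_le_add h1 h3)
  have hm2 : StronglyMeasurable fun w => ∫ y, g z y ∂κ w :=
    (gm z).stronglyMeasurable.integral_kernel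
  have hI1 : IntegrableOn (fun w => ∫ y, g z y ∂κ w) B m := by
    refine Measure.integrableOn_of_bounded (M := C2) hB1 hm2.aestronglyMeasurable
      (ae_of_all _ fun w => ?_)
    refine (norm_integral_le_of_norm_le_const (ae_of_all _ fun y => gabs z y)).trans ?_
    simp
  have hI2 : IntegrableOn (fun _ : X => c) B m := integrableOn_const hB1
  have F6 : |∫ w in B, (∫ y, g z y ∂κ w) ∂m - m.real B * c| ≤
      m.real B * (C2 * δ + 2 * C2 * (ρ / √(2 * s))) := by
    have e1 : m.real B * c = ∫ _w in B, c ∂m := by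
      rw [setIntegral_const, smul_eq_mul]
    rw [e1, ← integral_sub hI1 hI2]
    have := norm_setIntegral_le_of_norm_le_const (μ := m) (s := B)
      (f := fun w => ∫ y, g z y ∂κ w - c) (C := C2 * δ + 2 * C2 * (ρ / √(2 * s)))
      (lt_top_iff_ne_top.2 hB1) (fun w hw => F45 w hw)
    rw [Real.norm_eq_abs] at this
    linarith
  -- the fourth order kernel
  set g4 : X → ℝ := gG n a (4 * s) z with hg4
  have F7 := h4 (B.indicator 1) (measurable_one.indicator hBm) 1 (fun y => by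
    by_cases hy : y ∈ B
    · rw [indicator_of_mem hy]; simp
    · rw [indicator_of_notMem hy]; simp)
  rw [integral_indicator_one hBm, one_mul] at F7
  have F8 : ∫ y, B.indicator 1 y * g4 y ∂m = ∫ y in B, g4 y ∂m := by
    rw [← integral_indicator hBm]
    refine integral_congr_ae (ae_of_all _ fun y => ?_)
    by_cases hy : y ∈ B
    · simp [indicator_of_mem hy]
    · simp [indicator_of_notMem hy]
  rw [F8] at F7
  have F9 : |∫ y in B, g4 y ∂m - m.real B * g4 z'| ≤ m.real B * (C4 * (ρ / √(4 * s))) := by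
    have e1 : m.real B * g4 z' = ∫ _w in B, g4 z' ∂m := by
      rw [setIntegral_const, smul_eq_mul]
    rw [e1, ← integral_sub h4i.integrableOn (integrableOn_const hB1)]
    have := norm_setIntegral_le_of_norm_le_const (μ := m) (s := B)
      (f := fun w => g4 w - g4 z') (C := C4 * (ρ / √(4 * s)))
      (lt_top_iff_ne_top.2 hB1) (fun w hw => by
        rw [Real.norm_eq_abs, hg4, gG_comm n a _ z w, gG_comm n a _ z z']
        refine (gG_sub_le n ha (by positivity) w z' z).trans ?_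
        refine mul_le_mul_of_nonneg_left ?_ hC40.le
        exact div_le_div_of_nonneg_right (mem_closedBall.1 hw) (Real.sqrt_nonneg _))
    rw [Real.norm_eq_abs] at this
    linarith
  rw [F3] at F2
  -- combine
  have hfin : m.real B * |c - g4 z'| ≤ 2 * δ + m.real B * (C2 * δ + 2 * C2 * (ρ / √(2 * s)))
      + m.real B * (C4 * (ρ / √(4 * s))) := by
    rw [← abs_of_nonneg (measureReal_nonneg (μ := m) (s := B)), ← abs_mul,
      abs_of_nonneg (measureReal_nonneg (μ := m) (s := B)), mul_sub]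
    rw [abs_le] at F2 F6 F7 F9 ⊢
    constructor <;> linarith [F2.1, F2.2, F6.1, F6.2, F7.1, F7.2, F9.1, F9.2]
  have hfin2 : |c - g4 z'| ≤ (2 * δ + m.real B * (C2 * δ + 2 * C2 * (ρ / √(2 * s)))
      + m.real B * (C4 * (ρ / √(4 * s)))) / m.real B := by
    rw [le_div_iff₀ hB0, mul_comm]
    exact hfin
  refine hfin2.trans (le_of_eq ?_)
  field_simp
  ring

end ck

/-! ## The map into `L²` -/

section embed

variable {X : Type u} [MetricSpace X] [MeasurableSpace X] [BorelSpace X]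

omit [MetricSpace X] [BorelSpace X] in
theorem norm_toLp_sub_sq {m : Measure X} {f g : X → ℝ} (hf : MemLp f 2 m) (hg : MemLp g 2 m) :
    ‖hf.toLp f - hg.toLp g‖ ^ 2 = ∫ x, (f x - g x) ^ 2 ∂m := by
  rw [← MemLp.toLp_sub, ← real_inner_self_eq_norm_sq, MeasureTheory.L2.inner_def]
  refine integral_congr_ae ?_
  filter_upwards [(hf.sub hg).coeFn_toLp] with x hx
  rw [hx, Pi.sub_apply, real_inner_self_eq_norm_sq, Real.norm_eq_abs, sq_abs]

/-- `|16 s (1 - exp (-d²/(16 s))) - d²| ≤ d⁴/(32 s)` -/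
theorem exp_second {s d : ℝ} (hs : 0 < s) :
    |16 * s * (1 - Real.exp (-d ^ 2 / (16 * s))) - d ^ 2| ≤ d ^ 4 / (32 * s) := by
  set u := d ^ 2 / (16 * s) with hu
  have hu0 : 0 ≤ u := by positivity
  have h1 : Real.exp (-d ^ 2 / (16 * s)) = Real.exp (-u) := by rw [hu]; congr 1; ring
  have h2 : 1 - u ≤ Real.exp (-u) := by linarith [Real.add_one_le_exp (-u)]
  have h3 : Real.exp (-u) ≤ 1 - u + u ^ 2 / 2 := by
    have h4 := Real.quadratic_le_exp_of_nonneg hu0
    rw [Real.exp_neg]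
    have h5 : 0 < 1 + u + u ^ 2 / 2 := by positivity
    calc (Real.exp u)⁻¹ ≤ (1 + u + u ^ 2 / 2)⁻¹ := inv_anti₀ h5 h4
      _ ≤ 1 - u + u ^ 2 / 2 := by
          rw [inv_le_iff_one_le_mul₀ h5]
          nlinarith [sq_nonneg (u ^ 2)]
  have h4 : d ^ 2 = 16 * s * u := by rw [hu]; field_simp
  have h5 : d ^ 4 / (32 * s) = 8 * s * u ^ 2 := by rw [hu]; field_simp; ring
  rw [h1, h5, h4, abs_le]
  constructor
  · nlinarith
  · nlinarith

theorem embed_of_close (n : ℕ) {m : Measure X} {a s L δ Er : ℝ} {S : Set X} (ha : 0 < a)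
    (hs : 0 < s) (hi : ∀ z ∈ S, Integrable (gG n a s z) m)
    (h1 : ∀ z ∈ S, |∫ y, gG n a s z y ∂m - 1| ≤ δ)
    (hck : ∀ z ∈ S, ∀ z' ∈ S,
      a * (16 * Real.pi * s) ^ (((n + 1 : ℕ) : ℝ) / 2) *
        |∫ y, gG n a (2 * s) z y * gG n a (2 * s) z' y ∂m - gG n a (4 * s) z z'| ≤ Er)
    (hL : ∀ z ∈ S, ∀ z' ∈ S, dist z z' ≤ L) :
    ∃ F : X → Lp ℝ 2 m, ∀ z ∈ S, ∀ z' ∈ S,
      |‖F z - F z'‖ ^ 2 - dist z z' ^ 2| ≤ 16 * s * (δ + Er) + L ^ 4 / (32 * s) := by
  classical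
  have hml : ∀ z ∈ S, MemLp (fun y => √(gG n a s z y)) 2 m := by
    intro z hz
    have hc : Continuous fun y => √(gG n a s z y) :=
      Real.continuous_sqrt.comp (continuous_gG n a s z)
    rw [memLp_two_iff_integrable_sq hc.measurable.aestronglyMeasurable]
    refine (hi z hz).congr (ae_of_all _ fun y => ?_)
    exact (Real.sq_sqrt (gG_nonneg n ha hs z y)).symm
  refine ⟨fun z => if h : MemLp (fun y => √(gG n a s z y)) 2 m then √(8 * s) • h.toLp _ else 0,
    fun z hz z' hz' => ?_⟩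
  have e1 := hml z hz
  have e2 := hml z' hz'
  simp only [dif_pos e1, dif_pos e2]
  rw [← smul_sub, norm_smul, mul_pow, norm_toLp_sub_sq, Real.norm_eq_abs, sq_abs,
    Real.sq_sqrt (by positivity : (0 : ℝ) ≤ 8 * s),
    integral_sqrt_sub_sq (hi z hz) (hi z' hz') (gG_nonneg n ha hs z) (gG_nonneg n ha hs z')]
  have e3 : ∫ y, √(gG n a s z y * gG n a s z' y) ∂m =
      a * (16 * Real.pi * s) ^ (((n + 1 : ℕ) : ℝ) / 2) *
        ∫ y, gG n a (2 * s) z y * gG n a (2 * s) z' y ∂m := by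
    rw [← integral_const_mul]
    exact integral_congr_ae (ae_of_all _ fun y => gG_prod n ha hs z z' y)
  rw [e3]
  set A := a * (16 * Real.pi * s) ^ (((n + 1 : ℕ) : ℝ) / 2) with hA
  have hA0 : 0 < A := by positivity
  set I := ∫ y, gG n a (2 * s) z y * gG n a (2 * s) z' y ∂m
  have h4 := gG_four n ha hs z z'
  rw [← hA] at h4
  have h5 := hck z hz z' hz'
  have h6 : |A * I - Real.exp (-dist z z' ^ 2 / (16 * s))| ≤ Er := by
    rw [← h4, ← mul_sub, abs_mul, abs_of_pos hA0]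
    exact h5
  have h7 := exp_second (d := dist z z') hs
  have h8 : dist z z' ^ 4 / (32 * s) ≤ L ^ 4 / (32 * s) := by
    have := hL z hz z' hz'
    gcongr
  have h9 := h1 z hz
  have h10 := h1 z' hz'
  have h11 : |16 * s * (1 - Real.exp (-dist z z' ^ 2 / (16 * s))) - dist z z' ^ 2| ≤
      L ^ 4 / (32 * s) := h7.trans h8
  rw [abs_le] at h6 h9 h10 h11 ⊢
  constructor
  · nlinarith [h6.1, h6.2, h9.1, h10.1, h11.1]
  · nlinarith [h6.1, h6.2, h9.2, h10.2, h11.2]

end embed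

theorem gC_two (n : ℕ) {a s : ℝ} (ha : 0 < a) (hs : 0 < s) :
    a * (16 * Real.pi * s) ^ (((n + 1 : ℕ) : ℝ) / 2) * gC n a (2 * s) =
      2 ^ (((n + 1 : ℕ) : ℝ) / 2) := by
  have h1 : (16 * Real.pi * s) = 2 * (4 * Real.pi * (2 * s)) := by ring
  have h2 : 0 < (4 * Real.pi * (2 * s)) ^ (((n + 1 : ℕ) : ℝ) / 2) := by positivity
  rw [gC, h1, Real.mul_rpow (by norm_num) (by positivity)]
  field_simp

theorem gC_four (n : ℕ) {a s : ℝ} (ha : 0 < a) (hs : 0 < s) :
    a * (16 * Real.pi * s) ^ (((n + 1 : ℕ) : ℝ) / 2) * gC n a (4 * s) = 1 := by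
  have h1 : (16 * Real.pi * s) = 4 * Real.pi * (4 * s) := by ring
  have h2 : 0 < (4 * Real.pi * (4 * s)) ^ (((n + 1 : ℕ) : ℝ) / 2) := by positivity
  rw [gC, h1]
  field_simp

theorem abs_sub_le_of_sq {x y e : ℝ} (hx : 0 ≤ x) (hy : 0 ≤ y) (he : 0 ≤ e)
    (h : |x ^ 2 - y ^ 2| ≤ e ^ 2) : |x - y| ≤ e := by
  refine abs_le_of_sq_le_sq ?_ he
  refine le_trans ?_ h
  have h1 : x ^ 2 - y ^ 2 = (x - y) * (x + y) := by ring
  rw [h1, abs_mul, ← sq_abs, sq, abs_of_nonneg (add_nonneg hx hy)]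
  refine mul_le_mul_of_nonneg_left ?_ (abs_nonneg _)
  rw [abs_le]
  constructor <;> linarith

/-- **M3**: nearly Gaussian symmetric kernels at the times `2 s` and `4 s`, `s = Λ R²`, give an
almost isometric map of the ball of radius `R` into a Hilbert space. -/
theorem m3 (n : ℕ) {ε : ℝ} (hε : 0 < ε) :
    ∃ Λ ρ₀ δ : ℝ, 1 ≤ Λ ∧ 0 < ρ₀ ∧ ρ₀ ≤ 1 ∧ 0 < δ ∧
    ∀ (X : Type u) [MetricSpace X] [MeasurableSpace X] [BorelSpace X] (m : Measure X)
      (κ : Kernel X X) [IsMarkovKernel κ] (_ : SymK m κ) (a R : ℝ) (z₀ : X),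
      0 < a → 0 < R →
      (∀ z ∈ closedBall z₀ (R + ρ₀ * R),
        TestClose m (κ z) (gG n a (2 * (Λ * R ^ 2)) z) δ) →
      (∀ z ∈ closedBall z₀ R,
        TestClose m ((κ ∘ₖ κ) z) (gG n a (4 * (Λ * R ^ 2)) z) δ) →
      (∀ z ∈ closedBall z₀ R, |∫ y, gG n a (Λ * R ^ 2) z y ∂m - 1| ≤ δ) →
      (∀ z ∈ closedBall z₀ R, ∫ y, gG n a (2 * (Λ * R ^ 2)) z y ∂m ≤ 2) →
      (∀ z ∈ closedBall z₀ R, ∀ t, t = Λ * R ^ 2 ∨ t = 2 * (Λ * R ^ 2) ∨ t = 4 * (Λ * R ^ 2) →
        Integrable (gG n a t z) m) →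
      (∀ z ∈ closedBall z₀ R, m (closedBall z (ρ₀ * R)) ≠ ∞ ∧
        a * omN n * (ρ₀ * R) ^ (n + 1) / 2 ≤ m.real (closedBall z (ρ₀ * R))) →
      ∃ F : X → Lp ℝ 2 m, ∀ z ∈ closedBall z₀ R, ∀ z' ∈ closedBall z₀ R,
        |‖F z - F z'‖ - dist z z'| ≤ ε * R := by
  have hω := omN_pos n
  set q : ℝ := ((n + 1 : ℕ) : ℝ) / 2 with hq
  set Λ : ℝ := max 1 (1 / ε ^ 2) with hΛ
  have hΛ1 : 1 ≤ Λ := le_max_left _ _
  have hΛ0 : 0 < Λ := by linarith
  have hΛε : 1 / Λ ≤ ε ^ 2 := by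
    rw [div_le_iff₀ hΛ0]
    have : 1 / ε ^ 2 ≤ Λ := le_max_right _ _
    rw [div_le_iff₀ (by positivity)] at this
    linarith
  set θ : ℝ := ε ^ 2 / (32 * Λ) with hθ
  have hθ0 : 0 < θ := by positivity
  set T : ℝ := (2 : ℝ) ^ q with hT
  have hT0 : 0 < T := by positivity
  set P : ℝ := (16 * Real.pi * Λ) ^ q with hP
  have hP0 : 0 < P := by positivity
  set ρ₀ : ℝ := min 1 (θ / (2 * (2 * T + 1))) with hρ₀
  have hρ0 : 0 < ρ₀ := lt_min one_pos (by positivity)
  have hρ1 : ρ₀ ≤ 1 := min_le_left _ _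
  have hρθ : ρ₀ * (2 * T + 1) ≤ θ / 2 := by
    have : ρ₀ ≤ θ / (2 * (2 * T + 1)) := min_le_right _ _
    rw [le_div_iff₀ (by positivity)] at this
    linarith
  set W : ℝ := 1 + T + 4 * P / (omN n * ρ₀ ^ (n + 1)) with hW
  have hW0 : 0 < W := by positivity
  set δ : ℝ := θ / (2 * W) with hδ
  have hδ0 : 0 < δ := by positivity
  have hδW : δ * W = θ / 2 := by rw [hδ]; field_simp
  refine ⟨Λ, ρ₀, δ, hΛ1, hρ0, hρ1, hδ0, ?_⟩
  intro X _ _ _ m κ _ hsym a R z₀ ha hR h2 h4 h1 h12 hi hV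
  set s : ℝ := Λ * R ^ 2 with hs
  have hs0 : 0 < s := by positivity
  have hρR : 0 < ρ₀ * R := by positivity
  have hA : a * (16 * Real.pi * s) ^ q = a * P * R ^ (n + 1) := by
    rw [hs, hP, ← mul_assoc, Real.mul_rpow (by positivity) (by positivity), ← mul_assoc]
    congr 1
    rw [← Real.rpow_natCast R 2, ← Real.rpow_mul hR.le, ← Real.rpow_natCast R (n + 1), hq]
    congr 1
    push_cast
    ring
  have hsq2 : ρ₀ * R / √(2 * s) ≤ ρ₀ := by
    rw [div_le_iff₀ (Real.sqrt_pos.2 (by positivity))]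
    refine mul_le_mul_of_nonneg_left ?_ hρ0.le
    rw [Real.le_sqrt hR.le (by positivity), hs]
    nlinarith [sq_nonneg R]
  have hsq4 : ρ₀ * R / √(4 * s) ≤ ρ₀ := by
    rw [div_le_iff₀ (Real.sqrt_pos.2 (by positivity))]
    refine mul_le_mul_of_nonneg_left ?_ hρ0.le
    rw [Real.le_sqrt hR.le (by positivity), hs]
    nlinarith [sq_nonneg R]
  set Er : ℝ := 4 * P / (omN n * ρ₀ ^ (n + 1)) * δ + T * δ + (2 * T + 1) * ρ₀ with hEr
  have hck : ∀ z ∈ closedBall z₀ R, ∀ z' ∈ closedBall z₀ R,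
      a * (16 * Real.pi * s) ^ q *
        |∫ y, gG n a (2 * s) z y * gG n a (2 * s) z' y ∂m - gG n a (4 * s) z z'| ≤ Er := by
    intro z hz z' hz'
    obtain ⟨hV1, hV2⟩ := hV z' hz'
    have hB0 : 0 < m.real (closedBall z' (ρ₀ * R)) := lt_of_lt_of_le (by positivity) hV2
    have hsub : closedBall z' (ρ₀ * R) ⊆ closedBall z₀ (R + ρ₀ * R) := by
      intro w hw
      rw [mem_closedBall] at hw hz' ⊢
      calc dist w z₀ ≤ dist w z' + dist z' z₀ := dist_triangle _ _ _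
        _ ≤ R + ρ₀ * R := by linarith
    have hzz : z ∈ closedBall z₀ (R + ρ₀ * R) := closedBall_subset_closedBall (by linarith) hz
    have hmain := ck_gauss n hsym ha hs0 hδ0.le hρR hB0 hV1 (hi z hz _ (Or.inr (Or.inl rfl)))
      (h12 z hz) (h2 z hzz) (fun w hw => h2 w (hsub hw)) (hi z hz _ (Or.inr (Or.inr rfl)))
      (h4 z hz)
    have hA0 : 0 < a * (16 * Real.pi * s) ^ q := by positivity
    refine (mul_le_mul_of_nonneg_left hmain hA0.le).trans ?_
    have c2 := gC_two n ha hs0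
    have c4 := gC_four n ha hs0
    rw [← hq] at c2 c4
    have e1 : a * (16 * Real.pi * s) ^ q * (2 * δ / m.real (closedBall z' (ρ₀ * R))) ≤
        4 * P / (omN n * ρ₀ ^ (n + 1)) * δ := by
      rw [hA, mul_div_assoc', div_le_iff₀ hB0]
      have : 4 * P / (omN n * ρ₀ ^ (n + 1)) * δ * (a * omN n * (ρ₀ * R) ^ (n + 1) / 2) =
          a * P * R ^ (n + 1) * (2 * δ) := by
        rw [mul_pow]
        field_simp
        ring
      rw [← this]
      gcongr
    have e2 : a * (16 * Real.pi * s) ^ q * (gC n a (2 * s) * δ) = T * δ := by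
      rw [← mul_assoc, c2]
    have e3 : a * (16 * Real.pi * s) ^ q * (2 * gC n a (2 * s) * (ρ₀ * R / √(2 * s))) ≤
        2 * T * ρ₀ := by
      have : a * (16 * Real.pi * s) ^ q * (2 * gC n a (2 * s) * (ρ₀ * R / √(2 * s))) =
          2 * T * (ρ₀ * R / √(2 * s)) := by
        rw [hT, ← c2]; ring
      rw [this]
      gcongr
    have e4 : a * (16 * Real.pi * s) ^ q * (gC n a (4 * s) * (ρ₀ * R / √(4 * s))) ≤ ρ₀ := by
      rw [← mul_assoc, c4, one_mul]
      exact hsq4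
    rw [mul_add, mul_add, mul_add, hEr]
    linarith
  have hL : ∀ z ∈ closedBall z₀ R, ∀ z' ∈ closedBall z₀ R, dist z z' ≤ 2 * R := by
    intro z hz z' hz'
    rw [mem_closedBall] at hz hz'
    calc dist z z' ≤ dist z z₀ + dist z' z₀ := dist_triangle_right _ _ _
      _ ≤ 2 * R := by linarith
  obtain ⟨F, hF⟩ := embed_of_close n ha hs0 (fun z hz => hi z hz _ (Or.inl rfl)) h1 hck hL
  refine ⟨F, fun z hz z' hz' => abs_sub_le_of_sq (norm_nonneg _) dist_nonneg (by positivity)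
    ((hF z hz z' hz').trans ?_)⟩
  have k1 : δ + Er ≤ θ := by
    have : δ + Er = δ * W + ρ₀ * (2 * T + 1) := by rw [hEr, hW]; ring
    rw [this, hδW]
    linarith
  have k2 : 16 * s * (δ + Er) ≤ ε ^ 2 / 2 * R ^ 2 := by
    calc 16 * s * (δ + Er) ≤ 16 * s * θ := by gcongr
      _ = ε ^ 2 / 2 * R ^ 2 := by rw [hs, hθ]; field_simp; ring
  have k3 : (2 * R) ^ 4 / (32 * s) ≤ ε ^ 2 / 2 * R ^ 2 := by
    have : (2 * R) ^ 4 / (32 * s) = (1 / Λ) / 2 * R ^ 2 := by rw [hs]; field_simp; ring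
    rw [this]
    gcongr
  calc 16 * s * (δ + Er) + (2 * R) ^ 4 / (32 * s) ≤ ε ^ 2 / 2 * R ^ 2 + ε ^ 2 / 2 * R ^ 2 :=
        add_le_add k2 k3
    _ = (ε * R) ^ 2 := by ring

end Pool.Agent.BDRY
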