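import Pool.Agent.Work.MP_209cb6_gt.Defs

/-!
# Gaussian integrals in a metric measure space with controlled volume ratios
-/

set_option autoImplicit false

open MeasureTheory MeasureTheory.Measure Metric Set Filter Topology
open scoped ENNReal NNReal

namespace Pool.Agent.BDRY

universe u

/-- `-(d/dR) exp (-R²/(4τ))` -/
noncomputable def gk (τ R : ℝ) : ℝ := R / (2 * τ) * Real.exp (-R ^ 2 / (4 * τ))

theorem gk_nonneg {τ R : ℝ} (hτ : 0 < τ) (hR : 0 ≤ R) : 0 ≤ gk τ R := by
  unfold gk; positivity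

theorem continuous_gk (τ : ℝ) : Continuous (gk τ) := by
  unfold gk; fun_prop

theorem hasDerivAt_gk {τ : ℝ} (hτ : 0 < τ) (R : ℝ) :
    HasDerivAt (fun R => -Real.exp (-R ^ 2 / (4 * τ))) (gk τ R) R := by
  have h1 : HasDerivAt (fun R : ℝ => -R ^ 2 / (4 * τ)) (-(2 * R) / (4 * τ)) R := by
    have := ((hasDerivAt_pow 2 R).neg).div_const (4 * τ)
    simpa using this
  have h2 := h1.exp.neg
  refine h2.congr_deriv ?_
  unfold gk
  field_simp
  ring

theorem tendsto_exp_neg_sq {τ : ℝ} (hτ : 0 < τ) :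
    Tendsto (fun R : ℝ => -Real.exp (-R ^ 2 / (4 * τ))) atTop (𝓝 0) := by
  have h1 : Tendsto (fun R : ℝ => R ^ 2 / (4 * τ)) atTop atTop :=
    (tendsto_pow_atTop two_ne_zero).atTop_div_const (by positivity)
  have h2 := (Real.tendsto_exp_neg_atTop_nhds_zero.comp h1).neg
  rw [neg_zero] at h2
  refine h2.congr fun R => ?_
  simp only [Function.comp_apply, neg_div]

theorem lintegral_gk {τ d : ℝ} (hτ : 0 < τ) (hd : 0 ≤ d) :
    ∫⁻ R in Ioi d, ENNReal.ofReal (gk τ R) = ENNReal.ofReal (Real.exp (-d ^ 2 / (4 * τ))) := by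
  have hpos : ∀ x ∈ Ioi d, 0 ≤ gk τ x := fun x hx => gk_nonneg hτ (hd.trans hx.le)
  have hi := integrableOn_Ioi_deriv_of_nonneg' (a := d) (fun x _ => hasDerivAt_gk hτ x) hpos
    (tendsto_exp_neg_sq hτ)
  have he := integral_Ioi_of_hasDerivAt_of_nonneg' (a := d) (fun x _ => hasDerivAt_gk hτ x) hpos
    (tendsto_exp_neg_sq hτ)
  rw [← ofReal_integral_eq_lintegral_ofReal hi, he]
  · congr 1; ring
  · exact (ae_restrict_iff' measurableSet_Ioi).2 (ae_of_all _ hpos)

section layer

variable {X : Type u} [MetricSpace X] [MeasurableSpace X] [OpensMeasurableSpace X]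
  [SecondCountableTopology X]

/-- layer cake formula for the Gaussian -/
theorem lintegral_gauss (m : Measure X) [SFinite m] (z : X) {τ : ℝ} (hτ : 0 < τ) :
    ∫⁻ y, ENNReal.ofReal (Real.exp (-dist y z ^ 2 / (4 * τ))) ∂m =
      ∫⁻ R in Ioi (0 : ℝ), m (ball z R) * ENNReal.ofReal (gk τ R) := by
  have h1 : ∀ y : X, ENNReal.ofReal (Real.exp (-dist y z ^ 2 / (4 * τ))) =
      ∫⁻ R in Ioi (0 : ℝ), (ball z R).indicator (fun _ => ENNReal.ofReal (gk τ R)) y := by
    intro y
    rw [← lintegral_gk hτ dist_nonneg, ← lintegral_indicator measurableSet_Ioi,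
      ← lintegral_indicator measurableSet_Ioi]
    congr 1
    ext R
    by_cases hR : dist y z < R
    · have hR0 : 0 < R := dist_nonneg.trans_lt hR
      rw [indicator_of_mem (show R ∈ Ioi (dist y z) from hR),
        indicator_of_mem (show R ∈ Ioi (0 : ℝ) from hR0), indicator_of_mem (mem_ball.2 hR)]
    · rw [indicator_of_notMem (show R ∉ Ioi (dist y z) from hR)]
      by_cases hR0 : R ∈ Ioi (0 : ℝ)
      · rw [indicator_of_mem hR0, indicator_of_notMem (fun h => hR (mem_ball.1 h))]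
      · rw [indicator_of_notMem hR0]
  have hmeas : Measurable (Function.uncurry fun (y : X) (R : ℝ) =>
      (ball z R).indicator (fun _ => ENNReal.ofReal (gk τ R)) y) := by
    have hs : MeasurableSet {q : X × ℝ | dist q.1 z < q.2} :=
      measurableSet_lt (measurable_fst.dist measurable_const) measurable_snd
    have hg : Measurable fun q : X × ℝ => ENNReal.ofReal (gk τ q.2) :=
      ((continuous_gk τ).measurable.comp measurable_snd).ennreal_ofReal
    have he : (Function.uncurry fun (y : X) (R : ℝ) =>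
        (ball z R).indicator (fun _ => ENNReal.ofReal (gk τ R)) y) =
        {q : X × ℝ | dist q.1 z < q.2}.indicator fun q => ENNReal.ofReal (gk τ q.2) := by
      ext ⟨y, R⟩
      simp only [Function.uncurry_apply_pair, indicator, mem_ball, mem_ofPred_eq]
    rw [he]
    exact hg.indicator hs
  calc ∫⁻ y, ENNReal.ofReal (Real.exp (-dist y z ^ 2 / (4 * τ))) ∂m
      = ∫⁻ y, (∫⁻ R in Ioi (0 : ℝ),
          (ball z R).indicator (fun _ => ENNReal.ofReal (gk τ R)) y) ∂m :=
        lintegral_congr h1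
    _ = ∫⁻ R in Ioi (0 : ℝ), ∫⁻ y,
          (ball z R).indicator (fun _ => ENNReal.ofReal (gk τ R)) y ∂m :=
        lintegral_lintegral_swap hmeas.aemeasurable
    _ = ∫⁻ R in Ioi (0 : ℝ), m (ball z R) * ENNReal.ofReal (gk τ R) := by
        refine lintegral_congr fun R => ?_
        rw [lintegral_indicator_const measurableSet_ball, mul_comm]

end layer

/-- the volume of the unit ball of `ℝ^(n+1)` -/
noncomputable def omN (n : ℕ) : ℝ := (volume (ball (0 : E n) 1)).toReal

theorem omN_pos (n : ℕ) : 0 < omN n :=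
  ENNReal.toReal_pos (measure_ball_pos volume _ one_pos).ne' measure_ball_lt_top.ne

theorem volume_ball_E (n : ℕ) {R : ℝ} (hR : 0 ≤ R) :
    volume (ball (0 : E n) R) = ENNReal.ofReal (omN n * R ^ (n + 1)) := by
  rw [Measure.addHaar_ball volume _ hR, omN, mul_comm (volume (ball (0 : E n) 1)).toReal,
    ENNReal.ofReal_mul (by positivity), ENNReal.ofReal_toReal measure_ball_lt_top.ne]
  simp

/-- The Euclidean reference integral. -/
theorem lintegral_euclid (n : ℕ) {τ : ℝ} (hτ : 0 < τ) :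
    ∫⁻ R in Ioi (0 : ℝ), ENNReal.ofReal (omN n * R ^ (n + 1)) * ENNReal.ofReal (gk τ R) =
      ENNReal.ofReal ((4 * Real.pi * τ) ^ (((n + 1 : ℕ) : ℝ) / 2)) := by
  have h1 := lintegral_gauss (volume : Measure (E n)) 0 hτ
  have h2 : ∫⁻ R in Ioi (0 : ℝ), (volume : Measure (E n)) (ball 0 R) * ENNReal.ofReal (gk τ R) =
      ∫⁻ R in Ioi (0 : ℝ), ENNReal.ofReal (omN n * R ^ (n + 1)) * ENNReal.ofReal (gk τ R) :=
    setLIntegral_congr_fun measurableSet_Ioi fun R hR => by
      rw [volume_ball_E n (le_of_lt hR)]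
  rw [← h2, ← h1]
  have h3 := GaussianFourier.integral_rexp_neg_mul_sq_norm (V := E n) (b := 1 / (4 * τ))
    (by positivity)
  have h4 : Integrable fun y : E n => Real.exp (-(1 / (4 * τ)) * ‖y‖ ^ 2) := by
    by_contra hc
    rw [integral_undef hc] at h3
    have : 0 < (Real.pi / (1 / (4 * τ))) ^ ((Module.finrank ℝ (E n) : ℝ) / 2) := by positivity
    linarith
  have h5 : ∀ y : E n, Real.exp (-dist y 0 ^ 2 / (4 * τ)) =
      Real.exp (-(1 / (4 * τ)) * ‖y‖ ^ 2) := by
    intro y
    rw [dist_zero_right]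
    congr 1
    ring
  simp only [h5]
  rw [← ofReal_integral_eq_lintegral_ofReal h4 (ae_of_all _ fun y => (Real.exp_pos _).le), h3]
  congr 2
  · rw [div_div_eq_mul_div, div_one]; ring
  · simp

/-- Gaussian tail with an exponential factor -/
theorem gk_tail {c η r τ R : ℝ} (_hc : 0 ≤ c) (hη : 0 < η) (h16 : 16 * c * η ≤ 1) (hr : 0 < r)
    (hτ : 0 < τ) (hτr : τ ≤ r ^ 2) (hR : r / η ≤ R) :
    Real.exp (c * R / r) * gk τ R ≤ 2 * Real.exp (-1 / (16 * η ^ 2)) * gk (2 * τ) R := by
  have hR0 : 0 < R := (by positivity : 0 < r / η).trans_le hR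
  unfold gk
  set ρ := R / r with hρ
  have hρ1 : 1 / η ≤ ρ := by
    rw [hρ, div_le_div_iff₀ hη hr, one_mul]
    rw [div_le_iff₀ hη] at hR
    exact hR
  have hρ0 : 0 < ρ := by positivity
  have h1 : c * ρ ≤ ρ ^ 2 / 16 := by
    have : 16 * c ≤ ρ := by
      refine le_trans ?_ hρ1
      rw [le_div_iff₀ hη]
      exact h16
    nlinarith
  have h2 : 1 / (16 * η ^ 2) ≤ ρ ^ 2 / 16 := by
    have h3 : (1 / η) ^ 2 ≤ ρ ^ 2 := pow_le_pow_left₀ (by positivity) hρ1 2
    have h4 : 1 / (16 * η ^ 2) = (1 / η) ^ 2 / 16 := by field_simp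
    rw [h4]
    linarith
  have h5 : ρ ^ 2 / 8 ≤ R ^ 2 / (8 * τ) := by
    rw [hρ, div_pow, div_div, mul_comm (r ^ 2) 8]
    exact div_le_div_of_nonneg_left (by positivity) (by positivity) (by linarith)
  have h6 : c * R / r + -R ^ 2 / (4 * τ) ≤ -1 / (16 * η ^ 2) + -R ^ 2 / (4 * (2 * τ)) := by
    have e1 : c * R / r = c * ρ := by rw [hρ]; ring
    have e2 : -R ^ 2 / (4 * τ) = -2 * (R ^ 2 / (8 * τ)) := by field_simp; ring
    have e3 : -R ^ 2 / (4 * (2 * τ)) = -(R ^ 2 / (8 * τ)) := by field_simp; ring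
    have e4 : -1 / (16 * η ^ 2) = -(1 / (16 * η ^ 2)) := by ring
    rw [e1, e2, e3, e4]
    linarith
  have h7 := Real.exp_le_exp.2 h6
  rw [Real.exp_add, Real.exp_add] at h7
  have h8 : 0 ≤ R / (2 * τ) := by positivity
  calc Real.exp (c * R / r) * (R / (2 * τ) * Real.exp (-R ^ 2 / (4 * τ)))
      = R / (2 * τ) * (Real.exp (c * R / r) * Real.exp (-R ^ 2 / (4 * τ))) := by ring
    _ ≤ R / (2 * τ) * (Real.exp (-1 / (16 * η ^ 2)) * Real.exp (-R ^ 2 / (4 * (2 * τ)))) :=
        mul_le_mul_of_nonneg_left h7 h8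
    _ = 2 * Real.exp (-1 / (16 * η ^ 2)) *
          (R / (2 * (2 * τ)) * Real.exp (-R ^ 2 / (4 * (2 * τ)))) := by
        field_simp

theorem lintegral_gk_zero {τ c : ℝ} (hτ : 0 < τ) (hc : 0 ≤ c) :
    ∫⁻ R in Ioi (0 : ℝ), ENNReal.ofReal (c * gk τ R) = ENNReal.ofReal c := by
  have h1 : ∫⁻ R in Ioi (0 : ℝ), ENNReal.ofReal (c * gk τ R) =
      ENNReal.ofReal c * ∫⁻ R in Ioi (0 : ℝ), ENNReal.ofReal (gk τ R) := by
    rw [← lintegral_const_mul _ (continuous_gk τ).measurable.ennreal_ofReal]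
    exact lintegral_congr fun R => ENNReal.ofReal_mul hc
  rw [h1, lintegral_gk hτ le_rfl]
  simp

theorem lintegral_euclid' (n : ℕ) {τ c : ℝ} (hτ : 0 < τ) (hc : 0 ≤ c) :
    ∫⁻ R in Ioi (0 : ℝ), ENNReal.ofReal (c * (omN n * R ^ (n + 1)) * gk τ R) =
      ENNReal.ofReal (c * (4 * Real.pi * τ) ^ (((n + 1 : ℕ) : ℝ) / 2)) := by
  rw [ENNReal.ofReal_mul hc, ← lintegral_euclid n hτ, ← lintegral_const_mul]
  · refine setLIntegral_congr_fun measurableSet_Ioi fun R hR => ?_
    have hR0 : (0 : ℝ) < R := hR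
    have := omN_pos n
    rw [← ENNReal.ofReal_mul (by positivity), ← ENNReal.ofReal_mul hc, mul_assoc]
  · have h1 : Measurable fun R : ℝ => omN n * R ^ (n + 1) := by fun_prop
    exact h1.ennreal_ofReal.mul (continuous_gk τ).measurable.ennreal_ofReal

theorem lintegral_add3 {Y : Type*} [MeasurableSpace Y] {μ : Measure Y} {f g : Y → ℝ≥0∞}
    (hf : Measurable f) (hg : Measurable g) (h : Y → ℝ≥0∞) :
    ∫⁻ x, (f x + g x + h x) ∂μ = ∫⁻ x, f x ∂μ + ∫⁻ x, g x ∂μ + ∫⁻ x, h x ∂μ := by
  have e1 := lintegral_add_left (μ := μ) (hf.add hg) h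
  have e2 := lintegral_add_left (μ := μ) hf g
  simp only [Pi.add_apply] at e1
  rw [e1, e2]

section bounds

variable {X : Type u} [MetricSpace X] [MeasurableSpace X] [OpensMeasurableSpace X]
  [SecondCountableTopology X]

/-- explicit upper bound for the Gaussian integral -/
theorem gauss_upper (n : ℕ) {m : Measure X} [SFinite m] {z : X} {a η r τ C₀ : ℝ}
    (hfin : ∀ R, m (ball z R) < ∞) (ha : 0 < a) (hη : 0 < η) (_hη1 : η ≤ 1) (hC₀ : 0 ≤ C₀)
    (h16 : 16 * C₀ * η ≤ 1) (hr : 0 < r) (hτ : 0 < τ) (hτr : τ ≤ r ^ 2)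
    (hup : ∀ R, η * r ≤ R → R ≤ r / η →
      m.real (ball z R) ≤ (1 + η) * (a * (omN n * R ^ (n + 1))))
    (hgrow : ∀ R, r / η ≤ R →
      m.real (ball z R) ≤ C₀ * (a * (omN n * r ^ (n + 1))) * Real.exp (C₀ * R / r)) :
    ∫⁻ y, ENNReal.ofReal (Real.exp (-dist y z ^ 2 / (4 * τ))) ∂m ≤
      ENNReal.ofReal ((1 + η) * (a * (omN n * (η * r) ^ (n + 1)))
        + (1 + η) * a * (4 * Real.pi * τ) ^ (((n + 1 : ℕ) : ℝ) / 2)
        + C₀ * (a * (omN n * r ^ (n + 1))) * (2 * Real.exp (-1 / (16 * η ^ 2)))) := by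
  have hω := omN_pos n
  have hη2 : η * r ≤ r / η := by
    rw [le_div_iff₀ hη]
    nlinarith [mul_le_mul_of_nonneg_left _hη1 hη.le]
  set A := (1 + η) * (a * (omN n * (η * r) ^ (n + 1))) with hA
  set B := C₀ * (a * (omN n * r ^ (n + 1))) with hB
  have hA0 : 0 ≤ A := by positivity
  have hB0 : 0 ≤ B := by positivity
  have hm : ∀ R, m (ball z R) = ENNReal.ofReal (m.real (ball z R)) := fun R => by
    rw [Measure.real, ENNReal.ofReal_toReal (hfin R).ne]
  rw [lintegral_gauss m z hτ]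
  have hptw : ∀ R ∈ Ioi (0 : ℝ), m (ball z R) * ENNReal.ofReal (gk τ R) ≤
      ENNReal.ofReal (A * gk τ R) +
        ENNReal.ofReal ((1 + η) * a * (omN n * R ^ (n + 1)) * gk τ R) +
        ENNReal.ofReal (B * (2 * Real.exp (-1 / (16 * η ^ 2))) * gk (2 * τ) R) := by
    intro R hR
    have hR0 : (0 : ℝ) < R := hR
    have hg := gk_nonneg hτ hR0.le
    rw [hm R, ← ENNReal.ofReal_mul measureReal_nonneg]
    rcases le_total R (η * r) with h1 | h1
    · refine le_trans (ENNReal.ofReal_le_ofReal ?_) (le_add_right (le_add_right le_rfl))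
      refine mul_le_mul_of_nonneg_right ?_ hg
      exact (measureReal_mono (ball_subset_ball h1) (hfin _).ne).trans (hup _ le_rfl hη2)
    · rcases le_total R (r / η) with h2 | h2
      · refine le_trans (ENNReal.ofReal_le_ofReal ?_) (le_add_right (le_add_left le_rfl))
        refine mul_le_mul_of_nonneg_right ((hup R h1 h2).trans (le_of_eq (by ring))) hg
      · refine le_trans (ENNReal.ofReal_le_ofReal ?_) (le_add_left le_rfl)
        calc m.real (ball z R) * gk τ R
            ≤ B * Real.exp (C₀ * R / r) * gk τ R := mul_le_mul_of_nonneg_right (hgrow R h2) hg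
          _ = B * (Real.exp (C₀ * R / r) * gk τ R) := by ring
          _ ≤ B * (2 * Real.exp (-1 / (16 * η ^ 2)) * gk (2 * τ) R) :=
              mul_le_mul_of_nonneg_left (gk_tail hC₀ hη h16 hr hτ hτr h2) hB0
          _ = B * (2 * Real.exp (-1 / (16 * η ^ 2))) * gk (2 * τ) R := by ring
  refine (setLIntegral_mono' measurableSet_Ioi hptw).trans (le_of_eq ?_)
  have m1 : Measurable fun R => ENNReal.ofReal (A * gk τ R) :=
    ((continuous_gk τ).measurable.const_mul A).ennreal_ofReal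
  have m2 : Measurable fun R => ENNReal.ofReal ((1 + η) * a * (omN n * R ^ (n + 1)) * gk τ R) := by
    have h1 : Measurable fun R : ℝ => (1 + η) * a * (omN n * R ^ (n + 1)) := by fun_prop
    exact (h1.mul (continuous_gk τ).measurable).ennreal_ofReal
  rw [lintegral_add3 m1 m2, lintegral_gk_zero hτ hA0,
    lintegral_euclid' n hτ (by positivity), lintegral_gk_zero (by positivity) (by positivity),
    ← ENNReal.ofReal_add hA0 (by positivity), ← ENNReal.ofReal_add (by positivity)
      (by positivity)]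

/-- explicit lower bound for the Gaussian integral -/
theorem gauss_lower (n : ℕ) {m : Measure X} [SFinite m] {z : X} {a η r : ℝ}
    (hfin : ∀ R, m (ball z R) < ∞) (ha : 0 < a) (hη : 0 < η) (hη1 : 16 * η ≤ 1) (hr : 0 < r)
    (hlow : ∀ R, η * r ≤ R → R ≤ r / η →
      (1 - η) * (a * (omN n * R ^ (n + 1))) ≤ m.real (ball z R)) :
    ENNReal.ofReal ((1 - η) * a * ((4 * Real.pi * r ^ 2) ^ (((n + 1 : ℕ) : ℝ) / 2)
        - omN n * (η * r) ^ (n + 1)
        - omN n * ((n + 1).factorial * r ^ (n + 1)) * (2 * Real.exp (-1 / (16 * η ^ 2))))) ≤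
    ∫⁻ y in ball z (r / η), ENNReal.ofReal (Real.exp (-dist y z ^ 2 / (4 * r ^ 2))) ∂m := by
  have hω := omN_pos n
  have hr2 : 0 < r ^ 2 := by positivity
  have h1η : 0 ≤ 1 - η := by linarith
  have hm : ∀ R, m (ball z R) = ENNReal.ofReal (m.real (ball z R)) := fun R => by
    rw [Measure.real, ENNReal.ofReal_toReal (hfin R).ne]
  rw [lintegral_gauss (m.restrict (ball z (r / η))) z hr2]
  set A := (1 - η) * a * (omN n * (η * r) ^ (n + 1)) with hA
  set B := (1 - η) * a * (omN n * ((n + 1).factorial * r ^ (n + 1))) with hB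
  have hA0 : 0 ≤ A := by positivity
  have hB0 : 0 ≤ B := by positivity
  set F : ℝ≥0∞ := ∫⁻ R in Ioi (0 : ℝ), (m.restrict (ball z (r / η))) (ball z R) *
    ENNReal.ofReal (gk (r ^ 2) R) with hF
  have hptw : ∀ R ∈ Ioi (0 : ℝ),
      ENNReal.ofReal ((1 - η) * a * (omN n * R ^ (n + 1)) * gk (r ^ 2) R) ≤
      ENNReal.ofReal (A * gk (r ^ 2) R) +
        ENNReal.ofReal (B * (2 * Real.exp (-1 / (16 * η ^ 2))) * gk (2 * r ^ 2) R) +
      (m.restrict (ball z (r / η))) (ball z R) * ENNReal.ofReal (gk (r ^ 2) R) := by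
    intro R hR
    have hR0 : (0 : ℝ) < R := hR
    have hg := gk_nonneg hr2 hR0.le
    rcases le_total R (η * r) with h1 | h1
    · refine le_trans (ENNReal.ofReal_le_ofReal ?_) (le_add_right (le_add_right le_rfl))
      refine mul_le_mul_of_nonneg_right ?_ hg
      rw [hA]
      gcongr
    · rcases le_total R (r / η) with h2 | h2
      · refine le_trans ?_ (le_add_left le_rfl)
        rw [Measure.restrict_apply measurableSet_ball,
          inter_eq_self_of_subset_left (ball_subset_ball h2), hm R,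
          ← ENNReal.ofReal_mul measureReal_nonneg]
        refine ENNReal.ofReal_le_ofReal (mul_le_mul_of_nonneg_right ?_ hg)
        exact (le_of_eq (by ring)).trans (hlow R h1 h2)
      · refine le_trans (ENNReal.ofReal_le_ofReal ?_) (le_add_right (le_add_left le_rfl))
        have h3 : R ^ (n + 1) ≤ (n + 1).factorial * r ^ (n + 1) * Real.exp (1 * R / r) := by
          have h4 := Real.pow_div_factorial_le_exp (R / r) (by positivity) (n + 1)
          have hfac : (0 : ℝ) < (n + 1).factorial := Nat.cast_pos.2 (Nat.factorial_pos _)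
          rw [div_le_iff₀ hfac, div_pow, div_le_iff₀ (by positivity)] at h4
          rw [one_mul]
          linarith
        calc (1 - η) * a * (omN n * R ^ (n + 1)) * gk (r ^ 2) R
            ≤ (1 - η) * a * (omN n * ((n + 1).factorial * r ^ (n + 1) *
                Real.exp (1 * R / r))) * gk (r ^ 2) R := by gcongr
          _ = B * (Real.exp (1 * R / r) * gk (r ^ 2) R) := by rw [hB]; ring
          _ ≤ B * (2 * Real.exp (-1 / (16 * η ^ 2)) * gk (2 * r ^ 2) R) :=
              mul_le_mul_of_nonneg_left (gk_tail zero_le_one hη (by linarith) hr hr2 le_rfl h2)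
                hB0
          _ = B * (2 * Real.exp (-1 / (16 * η ^ 2))) * gk (2 * r ^ 2) R := by ring
  have m1 : Measurable fun R => ENNReal.ofReal (A * gk (r ^ 2) R) :=
    ((continuous_gk _).measurable.const_mul A).ennreal_ofReal
  have m2 : Measurable fun R =>
      ENNReal.ofReal (B * (2 * Real.exp (-1 / (16 * η ^ 2))) * gk (2 * r ^ 2) R) :=
    ((continuous_gk _).measurable.const_mul _).ennreal_ofReal
  have hmain := setLIntegral_mono' (μ := (volume : Measure ℝ)) measurableSet_Ioi hptw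
  rw [lintegral_add3 m1 m2, lintegral_gk_zero hr2 hA0,
    lintegral_gk_zero (by positivity) (by positivity), lintegral_euclid' n hr2 (by positivity),
    ← ENNReal.ofReal_add hA0 (by positivity), ← hF, add_comm _ F] at hmain
  set Q := A + B * (2 * Real.exp (-1 / (16 * η ^ 2))) with hQ
  have hQ0 : 0 ≤ Q := by positivity
  have hfinal := tsub_le_iff_right.2 hmain
  rw [← ENNReal.ofReal_sub _ hQ0] at hfinal
  refine le_trans (le_of_eq ?_) hfinal
  congr 1
  rw [hQ, hA, hB]
  ring

/-- explicit upper bound for the Gaussian integral, separate parameters: ratio error `e`, lower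
cut `l` (`l = 0` is allowed), upper cut `η`. -/
theorem gauss_upper' (n : ℕ) {m : Measure X} [SFinite m] {z : X} {a e l η r τ C₀ : ℝ}
    (hfin : ∀ R, m (ball z R) < ∞) (ha : 0 < a) (he : 0 ≤ e) (hl : 0 ≤ l) (hη : 0 < η)
    (hlη : l * η ≤ 1) (hC₀ : 0 ≤ C₀)
    (h16 : 16 * C₀ * η ≤ 1) (hr : 0 < r) (hτ : 0 < τ) (hτr : τ ≤ r ^ 2)
    (hup : ∀ R, 0 < R → l * r ≤ R → R ≤ r / η →
      m.real (ball z R) ≤ (1 + e) * (a * (omN n * R ^ (n + 1))))
    (hgrow : ∀ R, r / η ≤ R →
      m.real (ball z R) ≤ C₀ * (a * (omN n * r ^ (n + 1))) * Real.exp (C₀ * R / r)) :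
    ∫⁻ y, ENNReal.ofReal (Real.exp (-dist y z ^ 2 / (4 * τ))) ∂m ≤
      ENNReal.ofReal ((1 + e) * (a * (omN n * (l * r) ^ (n + 1)))
        + (1 + e) * a * (4 * Real.pi * τ) ^ (((n + 1 : ℕ) : ℝ) / 2)
        + C₀ * (a * (omN n * r ^ (n + 1))) * (2 * Real.exp (-1 / (16 * η ^ 2)))) := by
  have hω := omN_pos n
  have hη2 : l * r ≤ r / η := by
    rw [le_div_iff₀ hη]
    nlinarith
  set A := (1 + e) * (a * (omN n * (l * r) ^ (n + 1))) with hA
  set B := C₀ * (a * (omN n * r ^ (n + 1))) with hB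
  have hA0 : 0 ≤ A := by positivity
  have hB0 : 0 ≤ B := by positivity
  have hm : ∀ R, m (ball z R) = ENNReal.ofReal (m.real (ball z R)) := fun R => by
    rw [Measure.real, ENNReal.ofReal_toReal (hfin R).ne]
  rw [lintegral_gauss m z hτ]
  have hptw : ∀ R ∈ Ioi (0 : ℝ), m (ball z R) * ENNReal.ofReal (gk τ R) ≤
      ENNReal.ofReal (A * gk τ R) +
        ENNReal.ofReal ((1 + e) * a * (omN n * R ^ (n + 1)) * gk τ R) +
        ENNReal.ofReal (B * (2 * Real.exp (-1 / (16 * η ^ 2))) * gk (2 * τ) R) := by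
    intro R hR
    have hR0 : (0 : ℝ) < R := hR
    have hg := gk_nonneg hτ hR0.le
    rw [hm R, ← ENNReal.ofReal_mul measureReal_nonneg]
    rcases lt_or_ge R (l * r) with h1 | h1
    · refine le_trans (ENNReal.ofReal_le_ofReal ?_) (le_add_right (le_add_right le_rfl))
      refine mul_le_mul_of_nonneg_right ?_ hg
      exact (measureReal_mono (ball_subset_ball h1.le) (hfin _).ne).trans
        (hup _ (hR0.trans h1) le_rfl hη2)
    · rcases le_total R (r / η) with h2 | h2
      · refine le_trans (ENNReal.ofReal_le_ofReal ?_) (le_add_right (le_add_left le_rfl))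
        refine mul_le_mul_of_nonneg_right ((hup R hR0 h1 h2).trans (le_of_eq (by ring))) hg
      · refine le_trans (ENNReal.ofReal_le_ofReal ?_) (le_add_left le_rfl)
        calc m.real (ball z R) * gk τ R
            ≤ B * Real.exp (C₀ * R / r) * gk τ R := mul_le_mul_of_nonneg_right (hgrow R h2) hg
          _ = B * (Real.exp (C₀ * R / r) * gk τ R) := by ring
          _ ≤ B * (2 * Real.exp (-1 / (16 * η ^ 2)) * gk (2 * τ) R) :=
              mul_le_mul_of_nonneg_left (gk_tail hC₀ hη h16 hr hτ hτr h2) hB0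
          _ = B * (2 * Real.exp (-1 / (16 * η ^ 2))) * gk (2 * τ) R := by ring
  refine (setLIntegral_mono' measurableSet_Ioi hptw).trans (le_of_eq ?_)
  have m1 : Measurable fun R => ENNReal.ofReal (A * gk τ R) :=
    ((continuous_gk τ).measurable.const_mul A).ennreal_ofReal
  have m2 : Measurable fun R => ENNReal.ofReal ((1 + e) * a * (omN n * R ^ (n + 1)) * gk τ R) := by
    have h1 : Measurable fun R : ℝ => (1 + e) * a * (omN n * R ^ (n + 1)) := by fun_prop
    exact (h1.mul (continuous_gk τ).measurable).ennreal_ofReal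
  rw [lintegral_add3 m1 m2, lintegral_gk_zero hτ hA0,
    lintegral_euclid' n hτ (by positivity), lintegral_gk_zero (by positivity) (by positivity),
    ← ENNReal.ofReal_add hA0 (by positivity), ← ENNReal.ofReal_add (by positivity)
      (by positivity)]

/-- explicit lower bound for the Gaussian integral over a ball, separate parameters -/
theorem gauss_lower' (n : ℕ) {m : Measure X} [SFinite m] {z : X} {a e l η r : ℝ}
    (hfin : ∀ R, m (ball z R) < ∞) (ha : 0 < a) (he1 : e ≤ 1) (hl : 0 ≤ l)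
    (hη : 0 < η) (hη1 : 16 * η ≤ 1) (hr : 0 < r)
    (hlow : ∀ R, 0 < R → l * r ≤ R → R ≤ r / η →
      (1 - e) * (a * (omN n * R ^ (n + 1))) ≤ m.real (ball z R)) :
    ENNReal.ofReal ((1 - e) * a * ((4 * Real.pi * r ^ 2) ^ (((n + 1 : ℕ) : ℝ) / 2)
        - omN n * (l * r) ^ (n + 1)
        - omN n * ((n + 1).factorial * r ^ (n + 1)) * (2 * Real.exp (-1 / (16 * η ^ 2))))) ≤
    ∫⁻ y in ball z (r / η), ENNReal.ofReal (Real.exp (-dist y z ^ 2 / (4 * r ^ 2))) ∂m := by
  have hω := omN_pos n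
  have hr2 : 0 < r ^ 2 := by positivity
  have h1η : 0 ≤ 1 - e := by linarith
  have hm : ∀ R, m (ball z R) = ENNReal.ofReal (m.real (ball z R)) := fun R => by
    rw [Measure.real, ENNReal.ofReal_toReal (hfin R).ne]
  rw [lintegral_gauss (m.restrict (ball z (r / η))) z hr2]
  set A := (1 - e) * a * (omN n * (l * r) ^ (n + 1)) with hA
  set B := (1 - e) * a * (omN n * ((n + 1).factorial * r ^ (n + 1))) with hB
  have hA0 : 0 ≤ A := by positivity
  have hB0 : 0 ≤ B := by positivity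
  set F : ℝ≥0∞ := ∫⁻ R in Ioi (0 : ℝ), (m.restrict (ball z (r / η))) (ball z R) *
    ENNReal.ofReal (gk (r ^ 2) R) with hF
  have hptw : ∀ R ∈ Ioi (0 : ℝ),
      ENNReal.ofReal ((1 - e) * a * (omN n * R ^ (n + 1)) * gk (r ^ 2) R) ≤
      ENNReal.ofReal (A * gk (r ^ 2) R) +
        ENNReal.ofReal (B * (2 * Real.exp (-1 / (16 * η ^ 2))) * gk (2 * r ^ 2) R) +
      (m.restrict (ball z (r / η))) (ball z R) * ENNReal.ofReal (gk (r ^ 2) R) := by
    intro R hR
    have hR0 : (0 : ℝ) < R := hR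
    have hg := gk_nonneg hr2 hR0.le
    rcases lt_or_ge R (l * r) with h1 | h1
    · refine le_trans (ENNReal.ofReal_le_ofReal ?_) (le_add_right (le_add_right le_rfl))
      refine mul_le_mul_of_nonneg_right ?_ hg
      rw [hA]
      gcongr
    · rcases le_total R (r / η) with h2 | h2
      · refine le_trans ?_ (le_add_left le_rfl)
        rw [Measure.restrict_apply measurableSet_ball,
          inter_eq_self_of_subset_left (ball_subset_ball h2), hm R,
          ← ENNReal.ofReal_mul measureReal_nonneg]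
        refine ENNReal.ofReal_le_ofReal (mul_le_mul_of_nonneg_right ?_ hg)
        exact (le_of_eq (by ring)).trans (hlow R hR0 h1 h2)
      · refine le_trans (ENNReal.ofReal_le_ofReal ?_) (le_add_right (le_add_left le_rfl))
        have h3 : R ^ (n + 1) ≤ (n + 1).factorial * r ^ (n + 1) * Real.exp (1 * R / r) := by
          have h4 := Real.pow_div_factorial_le_exp (R / r) (by positivity) (n + 1)
          have hfac : (0 : ℝ) < (n + 1).factorial := Nat.cast_pos.2 (Nat.factorial_pos _)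
          rw [div_le_iff₀ hfac, div_pow, div_le_iff₀ (by positivity)] at h4
          rw [one_mul]
          linarith
        calc (1 - e) * a * (omN n * R ^ (n + 1)) * gk (r ^ 2) R
            ≤ (1 - e) * a * (omN n * ((n + 1).factorial * r ^ (n + 1) *
                Real.exp (1 * R / r))) * gk (r ^ 2) R := by gcongr
          _ = B * (Real.exp (1 * R / r) * gk (r ^ 2) R) := by rw [hB]; ring
          _ ≤ B * (2 * Real.exp (-1 / (16 * η ^ 2)) * gk (2 * r ^ 2) R) :=
              mul_le_mul_of_nonneg_left (gk_tail zero_le_one hη (by linarith) hr hr2 le_rfl h2)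
                hB0
          _ = B * (2 * Real.exp (-1 / (16 * η ^ 2))) * gk (2 * r ^ 2) R := by ring
  have m1 : Measurable fun R => ENNReal.ofReal (A * gk (r ^ 2) R) :=
    ((continuous_gk _).measurable.const_mul A).ennreal_ofReal
  have m2 : Measurable fun R =>
      ENNReal.ofReal (B * (2 * Real.exp (-1 / (16 * η ^ 2))) * gk (2 * r ^ 2) R) :=
    ((continuous_gk _).measurable.const_mul _).ennreal_ofReal
  have hmain := setLIntegral_mono' (μ := (volume : Measure ℝ)) measurableSet_Ioi hptw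
  rw [lintegral_add3 m1 m2, lintegral_gk_zero hr2 hA0,
    lintegral_gk_zero (by positivity) (by positivity), lintegral_euclid' n hr2 (by positivity),
    ← ENNReal.ofReal_add hA0 (by positivity), ← hF, add_comm _ F] at hmain
  set Q := A + B * (2 * Real.exp (-1 / (16 * η ^ 2))) with hQ
  have hQ0 : 0 ≤ Q := by positivity
  have hfinal := tsub_le_iff_right.2 hmain
  rw [← ENNReal.ofReal_sub _ hQ0] at hfinal
  refine le_trans (le_of_eq ?_) hfinal
  congr 1
  rw [hQ, hA, hB]
  ring

/-- the error terms are `O(η)` -/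
theorem exp_neg_inv_sq_le {η : ℝ} (hη : 0 < η) (hη1 : η ≤ 1) :
    Real.exp (-1 / (16 * η ^ 2)) ≤ 16 * η := by
  have h1 : 0 < 1 / (16 * η ^ 2) := by positivity
  have h2 : Real.exp (-1 / (16 * η ^ 2)) = (Real.exp (1 / (16 * η ^ 2)))⁻¹ := by
    rw [← Real.exp_neg]; congr 1; ring
  have h3 : 1 / (16 * η ^ 2) ≤ Real.exp (1 / (16 * η ^ 2)) := by
    linarith [Real.add_one_le_exp (1 / (16 * η ^ 2))]
  rw [h2]
  calc (Real.exp (1 / (16 * η ^ 2)))⁻¹ ≤ (1 / (16 * η ^ 2))⁻¹ := inv_anti₀ h1 h3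
    _ = 16 * η * η := by rw [one_div, inv_inv]; ring
    _ ≤ 16 * η * 1 := by gcongr
    _ = 16 * η := mul_one _

/-- **Gaussian bounds**: if the volume ratio at `z` is about `a` at the scales in
`[η r, r/η]`, `η` small, and the volume growth is at most exponential beyond `r`, then the Gaussian
integrals at the times `τ ∈ [δ r², r²]` are at most `(1 + δ) a (4πτ)^(N/2)`, and at the time `r²`
at least `(1 - δ) a (4π r²)^(N/2)`. -/
theorem gauss_bounds (n : ℕ) {δ C₀ : ℝ} (hδ : 0 < δ) (hC₀ : 0 ≤ C₀) :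
    ∃ η₀ : ℝ, 0 < η₀ ∧ η₀ ≤ 1 / 16 ∧ ∀ η, 0 < η → η ≤ η₀ →
    ∀ (X : Type u) [MetricSpace X] [MeasurableSpace X] [OpensMeasurableSpace X]
      [SecondCountableTopology X] (m : Measure X) [SFinite m] (z : X) (a r : ℝ),
      (∀ R, m (ball z R) < ∞) → 0 < a → 0 < r →
      (∀ R, η * r ≤ R → R ≤ r / η →
        m.real (ball z R) ≤ (1 + η) * (a * (omN n * R ^ (n + 1)))) →
      (∀ R, η * r ≤ R → R ≤ r / η →
        (1 - η) * (a * (omN n * R ^ (n + 1))) ≤ m.real (ball z R)) →
      (∀ R, r / η ≤ R →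
        m.real (ball z R) ≤ C₀ * (a * (omN n * r ^ (n + 1))) * Real.exp (C₀ * R / r)) →
      (∀ τ, δ * r ^ 2 ≤ τ → τ ≤ r ^ 2 →
        Integrable (fun y => Real.exp (-dist y z ^ 2 / (4 * τ))) m ∧
        ∫ y, Real.exp (-dist y z ^ 2 / (4 * τ)) ∂m ≤
          (1 + δ) * (a * (4 * Real.pi * τ) ^ (((n + 1 : ℕ) : ℝ) / 2))) ∧
      (1 - δ) * (a * (4 * Real.pi * r ^ 2) ^ (((n + 1 : ℕ) : ℝ) / 2)) ≤
        ∫ y in ball z (r / η), Real.exp (-dist y z ^ 2 / (4 * r ^ 2)) ∂m := by
  have hω := omN_pos n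
  set P : ℝ := (4 * Real.pi) ^ (((n + 1 : ℕ) : ℝ) / 2) with hP
  set Pδ : ℝ := (4 * Real.pi * δ) ^ (((n + 1 : ℕ) : ℝ) / 2) with hPδ
  have hP0 : 0 < P := by positivity
  have hPδ0 : 0 < Pδ := by positivity
  set D : ℝ := 2 * omN n + P + 32 * C₀ * omN n with hD
  set D' : ℝ := P + omN n + 32 * (n + 1).factorial * omN n with hD'
  have hD0 : 0 < D := by positivity
  have hD'0 : 0 < D' := by positivity
  refine ⟨min (min (1 / 16) (1 / (16 * (C₀ + 1)))) (min (δ * Pδ / D) (δ * P / D')), ?_, ?_, ?_⟩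
  · refine lt_min (lt_min (by norm_num) (by positivity)) (lt_min (by positivity) (by positivity))
  · exact (min_le_left _ _).trans (min_le_left _ _)
  intro η hη hη0 X _ _ _ _ m _ z a r hfin ha hr hup hlow hgrow
  have e1 : η ≤ 1 / 16 := hη0.trans ((min_le_left _ _).trans (min_le_left _ _))
  have e2 : η ≤ 1 / (16 * (C₀ + 1)) := hη0.trans ((min_le_left _ _).trans (min_le_right _ _))
  have e3 : η ≤ δ * Pδ / D := hη0.trans ((min_le_right _ _).trans (min_le_left _ _))
  have e4 : η ≤ δ * P / D' := hη0.trans ((min_le_right _ _).trans (min_le_right _ _))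
  rw [le_div_iff₀ hD0] at e3
  rw [le_div_iff₀ hD'0] at e4
  rw [le_div_iff₀ (by positivity)] at e2
  have hη1 : η ≤ 1 := by linarith
  have hr2 : 0 < r ^ 2 := by positivity
  have hηp : η ^ (n + 1) ≤ η := by
    calc η ^ (n + 1) ≤ η ^ 1 := pow_le_pow_of_le_one hη.le hη1 (by omega)
      _ = η := pow_one η
  have hexp := exp_neg_inv_sq_le hη hη1
  have hscale : ∀ s : ℝ, 0 ≤ s → (4 * Real.pi * (s * r ^ 2)) ^ (((n + 1 : ℕ) : ℝ) / 2) =
      (4 * Real.pi * s) ^ (((n + 1 : ℕ) : ℝ) / 2) * r ^ (n + 1) := by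
    intro s hs
    rw [← mul_assoc, Real.mul_rpow (by positivity) (by positivity)]
    congr 1
    rw [← Real.rpow_natCast r 2, ← Real.rpow_mul hr.le, ← Real.rpow_natCast r (n + 1)]
    congr 1
    push_cast
    ring
  have hmeas : ∀ τ : ℝ, Measurable fun y : X => Real.exp (-dist y z ^ 2 / (4 * τ)) := by
    intro τ
    have : Measurable fun y : X => dist y z := measurable_id.dist measurable_const
    fun_prop
  constructor
  · intro τ h1 h2
    have hτ : 0 < τ := by nlinarith
    have hU := gauss_upper n hfin ha hη hη1 hC₀ (by nlinarith) hr hτ h2 hup hgrow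
    set Bd := (1 + η) * (a * (omN n * (η * r) ^ (n + 1)))
        + (1 + η) * a * (4 * Real.pi * τ) ^ (((n + 1 : ℕ) : ℝ) / 2)
        + C₀ * (a * (omN n * r ^ (n + 1))) * (2 * Real.exp (-1 / (16 * η ^ 2))) with hBd
    have hBd0 : 0 ≤ Bd := by positivity
    have hint : Integrable (fun y => Real.exp (-dist y z ^ 2 / (4 * τ))) m := by
      refine ⟨(hmeas τ).aestronglyMeasurable, ?_⟩
      rw [hasFiniteIntegral_iff_ofReal (ae_of_all _ fun y => (Real.exp_pos _).le)]
      exact hU.trans_lt ENNReal.ofReal_lt_top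
    refine ⟨hint, ?_⟩
    have hI : ∫ y, Real.exp (-dist y z ^ 2 / (4 * τ)) ∂m ≤ Bd := by
      rw [integral_eq_lintegral_of_nonneg_ae (ae_of_all _ fun y => (Real.exp_pos _).le)
        (hmeas τ).aestronglyMeasurable]
      exact ENNReal.toReal_le_of_le_ofReal hBd0 hU
    refine hI.trans ?_
    -- scale
    set σ := τ / r ^ 2 with hσ
    have hτσ : τ = σ * r ^ 2 := by rw [hσ]; field_simp
    have hσδ : δ ≤ σ := by rw [hσ, le_div_iff₀ hr2]; exact h1
    have hσ1 : σ ≤ 1 := by rw [hσ, div_le_iff₀ hr2]; linarith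
    have hσ0 : 0 < σ := hδ.trans_le hσδ
    set S : ℝ := (4 * Real.pi * σ) ^ (((n + 1 : ℕ) : ℝ) / 2) with hS
    have hSδ : Pδ ≤ S := by
      rw [hPδ, hS]
      exact Real.rpow_le_rpow (by positivity) (by gcongr) (by positivity)
    have hSP : S ≤ P := by
      rw [hP, hS]
      refine Real.rpow_le_rpow (by positivity) ?_ (by positivity)
      nlinarith [Real.pi_pos]
    rw [hBd, hτσ, hscale σ hσ0.le, ← hS, mul_pow]
    have hkey : (1 + η) * (omN n * η ^ (n + 1)) + (1 + η) * S
        + C₀ * omN n * (2 * Real.exp (-1 / (16 * η ^ 2))) ≤ (1 + δ) * S := by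
      have k1 : (1 + η) * (omN n * η ^ (n + 1)) ≤ 2 * (omN n * η) := by
        have : omN n * η ^ (n + 1) ≤ omN n * η := by gcongr
        nlinarith [mul_pos hω hη]
      have k2 : C₀ * omN n * (2 * Real.exp (-1 / (16 * η ^ 2))) ≤ 32 * C₀ * omN n * η := by
        calc C₀ * omN n * (2 * Real.exp (-1 / (16 * η ^ 2))) ≤ C₀ * omN n * (2 * (16 * η)) := by
              gcongr
          _ = 32 * C₀ * omN n * η := by ring
      have k3 : η * S ≤ η * P := by gcongr
      have k4 : δ * Pδ ≤ δ * S := by gcongr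
      rw [hD] at e3
      linarith
    have hrn : 0 < a * r ^ (n + 1) := by positivity
    calc (1 + η) * (a * (omN n * (η ^ (n + 1) * r ^ (n + 1)))) + (1 + η) * a * (S * r ^ (n + 1))
          + C₀ * (a * (omN n * r ^ (n + 1))) * (2 * Real.exp (-1 / (16 * η ^ 2)))
        = ((1 + η) * (omN n * η ^ (n + 1)) + (1 + η) * S
          + C₀ * omN n * (2 * Real.exp (-1 / (16 * η ^ 2)))) * (a * r ^ (n + 1)) := by ring
      _ ≤ (1 + δ) * S * (a * r ^ (n + 1)) := mul_le_mul_of_nonneg_right hkey hrn.le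
      _ = (1 + δ) * (a * (S * r ^ (n + 1))) := by ring
  · have hL := gauss_lower n hfin ha hη (by linarith) hr hlow
    have hscale1 := hscale 1 zero_le_one
    rw [one_mul, mul_one, ← hP] at hscale1
    rw [hscale1, mul_pow] at hL
    have hkey : (1 - δ) * P ≤ (1 - η) * (P - omN n * η ^ (n + 1)
        - omN n * (n + 1).factorial * (2 * Real.exp (-1 / (16 * η ^ 2)))) := by
      have k1 : omN n * η ^ (n + 1) ≤ omN n * η := by gcongr
      have k2 : omN n * (n + 1).factorial * (2 * Real.exp (-1 / (16 * η ^ 2))) ≤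
          32 * (n + 1).factorial * omN n * η := by
        calc omN n * (n + 1).factorial * (2 * Real.exp (-1 / (16 * η ^ 2)))
            ≤ omN n * (n + 1).factorial * (2 * (16 * η)) := by gcongr
          _ = 32 * (n + 1).factorial * omN n * η := by ring
      have k3 : 0 ≤ omN n * η ^ (n + 1) := by positivity
      have k4 : 0 ≤ omN n * (n + 1).factorial * (2 * Real.exp (-1 / (16 * η ^ 2))) := by positivity
      rw [hD'] at e4
      nlinarith [mul_nonneg hη.le k3, mul_nonneg hη.le k4]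
    have hI0 : 0 ≤ ∫ y in ball z (r / η), Real.exp (-dist y z ^ 2 / (4 * r ^ 2)) ∂m :=
      integral_nonneg fun y => (Real.exp_pos _).le
    have hint : IntegrableOn (fun y => Real.exp (-dist y z ^ 2 / (4 * r ^ 2)))
        (ball z (r / η)) m := by
      refine Measure.integrableOn_of_bounded (M := 1) (hfin _).ne
        (hmeas _).aestronglyMeasurable (ae_of_all _ fun y => ?_)
      rw [Real.norm_eq_abs, Real.abs_exp, Real.exp_le_one_iff]
      have : 0 ≤ dist y z ^ 2 / (4 * r ^ 2) := by positivity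
      rw [neg_div]
      linarith
    rw [← ofReal_integral_eq_lintegral_ofReal hint (ae_of_all _ fun y => (Real.exp_pos _).le),
      ENNReal.ofReal_le_ofReal_iff hI0] at hL
    refine le_trans ?_ hL
    have hrn : 0 < a * r ^ (n + 1) := by positivity
    rw [hscale1]
    calc (1 - δ) * (a * (P * r ^ (n + 1))) = (1 - δ) * P * (a * r ^ (n + 1)) := by ring
      _ ≤ (1 - η) * (P - omN n * η ^ (n + 1)
        - omN n * (n + 1).factorial * (2 * Real.exp (-1 / (16 * η ^ 2)))) * (a * r ^ (n + 1)) :=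
          mul_le_mul_of_nonneg_right hkey hrn.le
      _ = _ := by ring

end bounds

end Pool.Agent.BDRY
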