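import Pool.Agent.Work.MP_209cb6_gt.B2.Hil
import Pool.Agent.Work.MP_209cb6_gt.B2.GaussInt

/-!
# Near-Hilbert geodesic balls with almost constant volume ratio are close to Euclidean balls
-/

set_option autoImplicit false
set_option linter.unusedSectionVars false

open MeasureTheory MeasureTheory.Measure Metric Set Filter Topology
open scoped ENNReal NNReal InnerProductSpace

namespace Pool.Agent.BDRY

/-- The ball `ball x ρ` is `δ ρ`-close to the Euclidean ball of dimension `n + 1`. -/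
def EuclLike {X : Type*} [MetricSpace X] (n : ℕ) (x : X) (ρ δ : ℝ) : Prop :=
  ∃ f : X → E n, f x = 0 ∧
    (∀ a ∈ ball x ρ, ∀ b ∈ ball x ρ, |dist a b - ‖f a - f b‖| ≤ δ * ρ) ∧
    ∀ y : E n, ‖y‖ < ρ - δ * ρ → ∃ a ∈ ball x ρ, ‖f a - y‖ ≤ δ * ρ

universe u v

namespace Hil

theorem exists_isometry_euclidean {V : Type*} [NormedAddCommGroup V] [InnerProductSpace ℝ V]
    [Module.Finite ℝ V] {N : ℕ} (h : Module.finrank ℝ V ≤ N) :
    Nonempty (V →ₗᵢ[ℝ] EuclideanSpace ℝ (Fin N)) := by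
  let b := stdOrthonormalBasis ℝ V
  let e := EuclideanSpace.basisFun (Fin N) ℝ
  let g : Fin (Module.finrank ℝ V) → EuclideanSpace ℝ (Fin N) := fun i => e (Fin.castLE h i)
  have hg : Orthonormal ℝ g := e.orthonormal.comp _ (Fin.castLE_injective h)
  refine ⟨LinearMap.isometryOfOrthonormal (v := b.toBasis) (b.toBasis.constr ℝ g)
    (by simp [b.orthonormal]) ?_⟩
  convert hg
  ext1 i
  simp [Function.comp]

/-- the choice of the scale ratio. -/
theorem exists_ratio (N : ℕ) {ε : ℝ} (hε : 0 < ε) : ∃ l : ℝ, 0 < l ∧ l ≤ 1 / 2 ∧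
    (1 + l) * ((1 + 2 * l) ^ N * ((2 + l) ^ N - ((1 - l) * ε) ^ N) + (2 + l) ^ N * (3 ^ N * l))
      < (1 - l) * 2 ^ N := by
  have h1 : ContinuousAt (fun l : ℝ => (1 + l) * ((1 + 2 * l) ^ N * ((2 + l) ^ N
      - ((1 - l) * ε) ^ N) + (2 + l) ^ N * (3 ^ N * l)) - (1 - l) * 2 ^ N) 0 := by
    apply Continuous.continuousAt
    fun_prop
  have h2 : (fun l : ℝ => (1 + l) * ((1 + 2 * l) ^ N * ((2 + l) ^ N
      - ((1 - l) * ε) ^ N) + (2 + l) ^ N * (3 ^ N * l)) - (1 - l) * 2 ^ N) 0 < 0 := by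
    simp only [mul_zero, add_zero, sub_zero, one_mul, one_pow]
    have : 0 < ε ^ N := pow_pos hε N
    linarith
  have h3 := h1.eventually_lt continuousAt_const h2
  have h4 : ∀ᶠ l : ℝ in 𝓝[>] 0, l ≤ 1 / 2 :=
    (eventually_le_nhds (by norm_num : (0 : ℝ) < 1 / 2)).filter_mono nhdsWithin_le_nhds
  obtain ⟨l, ⟨hl1, hl2⟩, hl3⟩ := ((h3.filter_mono nhdsWithin_le_nhds).and h4
    |>.and self_mem_nhdsWithin).exists
  exact ⟨l, hl3, hl2, by linarith⟩

/-- **Near-Hilbert + geodesic + almost constant volume ratio implies near-Euclidean.** -/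
theorem near_euclidean (N : ℕ) {ε : ℝ} (hε : 0 < ε) : ∃ δ : ℝ, 0 < δ ∧ δ < 1 ∧
    ∀ (X : Type u) [MetricSpace X] [MeasurableSpace X] [BorelSpace X] [ProperSpace X]
      (m : Measure X) (H : Type v) [NormedAddCommGroup H] [InnerProductSpace ℝ H] (F : X → H)
      (x : X) (s a : ℝ), Geod X → 0 < s → 0 < a →
      (∀ y ∈ closedBall x (25 * s), ∀ z ∈ closedBall x (25 * s),
        |‖F y - F z‖ - dist y z| ≤ δ * s) →
      (∀ y ∈ closedBall x (10 * s), ∀ r, δ * s ≤ r → r ≤ 15 * s →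
        ENNReal.ofReal ((1 - δ) * a * r ^ N) ≤ m (ball y r) ∧
        m (ball y r) ≤ ENNReal.ofReal ((1 + δ) * a * r ^ N)) →
      ∃ f : X → EuclideanSpace ℝ (Fin N), f x = 0 ∧
        (∀ y ∈ closedBall x (5 * s), ∀ z ∈ closedBall x (5 * s),
          |‖f y - f z‖ - dist y z| ≤ ε * s) ∧
        ∀ u, ‖u‖ ≤ s → ∃ p ∈ ball x s, ‖f p - u‖ ≤ ε * s := by
  -- parameters
  set ε1 : ℝ := min ε 1 / 4 with hε1
  have hm0 : 0 < min ε 1 := lt_min hε one_pos
  have hε1pos : 0 < ε1 := by positivity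
  have hε1le : ε1 ≤ 1 / 4 := by
    have := min_le_right ε 1
    rw [hε1]
    linarith
  have hε1ε : 4 * ε1 ≤ ε := by
    have := min_le_left ε 1
    rw [hε1]
    linarith
  obtain ⟨l, hl, hl1, hl2⟩ := exists_ratio N hε1pos
  obtain ⟨I, hI⟩ := exists_nat_gt (1 / l)
  have hIpos : 0 < I := by
    have h1 : (0 : ℝ) < I := lt_trans (by positivity) hI
    exact_mod_cast h1
  have hIr : (0 : ℝ) < I := by exact_mod_cast hIpos
  have hIl : 1 / (I : ℝ) ≤ l := by
    rw [div_le_iff₀ hIr]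
    rw [div_lt_iff₀ hl] at hI
    linarith
  set τ0 : ℝ := l * ε1 / 2 * l ^ I with hτ0
  have hτ0pos : 0 < τ0 := by positivity
  set ε' : ℝ := l * τ0 / 12 with hε'
  have hε'pos : 0 < ε' := by positivity
  have hτ0le : τ0 ≤ 1 / 16 := by
    have h1 : l ^ I ≤ 1 := pow_le_one₀ hl.le (by linarith)
    have h2 : l * ε1 / 2 ≤ 1 / 16 := by
      have := mul_le_mul hl1 hε1le hε1pos.le (by norm_num : (0 : ℝ) ≤ 1 / 2)
      linarith
    calc τ0 ≤ l * ε1 / 2 * 1 := by rw [hτ0]; gcongr
      _ ≤ 1 / 16 := by linarith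
  have hlτ : l * τ0 ≤ 1 / 2 * τ0 := mul_le_mul_of_nonneg_right hl1 hτ0pos.le
  have hN1 : (0 : ℝ) < (N : ℝ) + 1 := by positivity
  obtain ⟨M, hM⟩ := exists_nat_gt (3 * 15 ^ N / (ε' / (4 * ((N : ℝ) + 1))) ^ N)
  have hMr : (0 : ℝ) < M := lt_trans (by positivity) hM
  have hMpos : 0 < M := by exact_mod_cast hMr
  have hM2 : 3 * 15 ^ N < M * (ε' / (4 * ((N : ℝ) + 1))) ^ N := by
    rwa [div_lt_iff₀ (by positivity)] at hM
  set κ : ℝ := ε' / (4 * (((N : ℝ) + 1) * M)) with hκ
  have hκpos : 0 < κ := by positivity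
  have hκε : κ ≤ ε' := by
    rw [hκ]
    have h1 : (1 : ℝ) ≤ M := by exact_mod_cast hMpos
    have h2 : (1 : ℝ) ≤ 4 * (((N : ℝ) + 1) * M) := by
      have : (0 : ℝ) ≤ N := Nat.cast_nonneg N
      have h3 : (M : ℝ) ≤ ((N : ℝ) + 1) * M := le_mul_of_one_le_left hMr.le (by linarith)
      linarith
    exact div_le_self hε'pos.le h2
  set t : ℝ := κ / (2 * ((N : ℝ) + 1) + 31) with ht
  have htpos : 0 < t := by positivity
  have htκ : (2 * ((N : ℝ) + 1) + 31) * t = κ := by
    rw [ht]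
    field_simp
  have hNt : 0 < 2 * ((N : ℝ) + 1) * t := by positivity
  have ht1 : 31 * t ≤ κ := by linarith
  set δ : ℝ := t ^ 2 / 31 with hδ
  have hδpos : 0 < δ := by positivity
  have htle : t ≤ 1 := by linarith
  have hδt : δ ≤ t := by
    rw [hδ, div_le_iff₀ (by norm_num)]
    have h3 : t * t ≤ t * 1 := mul_le_mul_of_nonneg_left htle htpos.le
    rw [sq]
    linarith
  have hsq : √(31 * δ) = t := by
    rw [hδ, mul_div_cancel₀ _ (by norm_num : (31 : ℝ) ≠ 0), Real.sqrt_sq htpos.le]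
  have hε'16 : ε' ≤ 1 / 16 := by
    rw [hε']
    linarith
  have hδκ : 31 * δ ≤ κ := by linarith
  have hδε' : 31 * δ ≤ ε' := hδκ.trans hκε
  have hε'l : 12 * ε' ≤ l * 1 := by
    have : l * τ0 ≤ l * 1 := mul_le_mul_of_nonneg_left (by linarith) hl.le
    rw [hε']
    linarith
  have hδl : δ ≤ l := by linarith
  refine ⟨δ, hδpos, by linarith, ?_⟩
  intro X _ _ _ _ m H _ _ F x s a hg hs ha hF hm
  -- the subspace
  have he1 : √(2 * (δ * s) * (3 * (5 * s)) + (δ * s) ^ 2) ≤ t * s := by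
    refine Real.sqrt_le_iff.2 ⟨by positivity, ?_⟩
    have h1 : t ^ 2 = 31 * δ := by rw [hδ]; ring
    have h2 : δ ^ 2 ≤ δ * 1 := by
      rw [sq]
      exact mul_le_mul_of_nonneg_left (by linarith) hδpos.le
    calc 2 * (δ * s) * (3 * (5 * s)) + (δ * s) ^ 2 = (30 * δ + δ ^ 2) * s ^ 2 := by ring
      _ ≤ (31 * δ) * s ^ 2 := mul_le_mul_of_nonneg_right (by linarith) (by positivity)
      _ = (t * s) ^ 2 := by rw [mul_pow, h1]
  have h25 : 5 * (5 * s) = 25 * s := by ring
  have hradius : ε' * s / (4 * (((N : ℝ) + 1) * M)) = κ * s := by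
    rw [hκ]
    ring
  have hδs : ∀ c, δ ≤ c → δ * s ≤ c * s := fun c hc => mul_le_mul_of_nonneg_right hc hs.le
  have h1δ : 0 < 1 - δ := by linarith
  obtain ⟨V, hVfin, hVrank, hV⟩ := exists_subspace (m := m) (F := F) (x := x) (R := 5 * s)
    (η := δ * s) (e1 := t * s) (ε := ε' * s) hg (by positivity) (by positivity) (by positivity)
    (mul_le_mul_of_nonneg_right (by linarith) hs.le |>.trans (by linarith : 1 * s ≤ 5 * s)) he1 (by rw [h25]; exact hF) N M hMpos
    (by
      have h1 : ((N : ℝ) + 1) * (t * s) + 2 * (δ * s) ≤ 1 * s := by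
        have h2 : ((N : ℝ) + 1) * t + 2 * δ ≤ 1 := by linarith
        calc ((N : ℝ) + 1) * (t * s) + 2 * (δ * s) = (((N : ℝ) + 1) * t + 2 * δ) * s := by ring
          _ ≤ 1 * s := mul_le_mul_of_nonneg_right h2 hs.le
      linarith)
    (by
      have h1 : 2 * ((N : ℝ) + 1) * (t * s) + δ * s ≤ κ * s := by
        have h2 : 2 * ((N : ℝ) + 1) * t + δ ≤ κ := by linarith
        calc 2 * ((N : ℝ) + 1) * (t * s) + δ * s = (2 * ((N : ℝ) + 1) * t + δ) * s := by ring
          _ ≤ κ * s := mul_le_mul_of_nonneg_right h2 hs.le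
      have h2 : ε' * s / (2 * (((N : ℝ) + 1) * M)) = 2 * (κ * s) := by
        rw [hκ]
        field_simp
        ring
      rw [h2]
      have : 0 < κ * s := by positivity
      linarith)
    (v1 := (1 - δ) * a) (v2 := (1 + δ) * a) (by positivity)
    (by
      intro y hy
      rw [hradius]
      refine (hm y ?_ (κ * s) (hδs κ (by linarith)) ?_).1
      · rw [mem_closedBall] at hy ⊢
        linarith
      · exact mul_le_mul_of_nonneg_right (by linarith) hs.le)
    (by
      have h1 : 3 * (5 * s) = 15 * s := by ring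
      rw [h1]
      exact (hm x (mem_closedBall_self (by linarith)) (15 * s) (hδs 15 (by linarith)) le_rfl).2)
    (by
      have h1 : (1 + δ) * a * (3 * (5 * s)) ^ N ≤ (3 * 15 ^ N) * ((1 - δ) * a * s ^ N) := by
        have h2 : 3 * (5 * s) = 15 * s := by ring
        rw [h2, mul_pow]
        have h3 : (1 + δ) ≤ 3 * (1 - δ) := by linarith
        calc (1 + δ) * a * (15 ^ N * s ^ N) = (1 + δ) * (a * (15 ^ N * s ^ N)) := by ring
          _ ≤ 3 * (1 - δ) * (a * (15 ^ N * s ^ N)) :=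
            mul_le_mul_of_nonneg_right h3 (by positivity)
          _ = (3 * 15 ^ N) * ((1 - δ) * a * s ^ N) := by ring
      refine h1.trans_lt ?_
      have h4 : (M : ℝ) * ((1 - δ) * a * (ε' * s / (4 * ((N : ℝ) + 1))) ^ N)
          = M * (ε' / (4 * ((N : ℝ) + 1))) ^ N * ((1 - δ) * a * s ^ N) := by
        have h5 : ε' * s / (4 * ((N : ℝ) + 1)) = ε' / (4 * ((N : ℝ) + 1)) * s := by ring
        rw [h5, mul_pow]
        ring
      rw [h4]
      exact mul_lt_mul_of_pos_right hM2 (by positivity))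
  -- the map
  obtain ⟨ι⟩ := exists_isometry_euclidean (V := V) hVrank
  have hex : ∀ p : X, ∃ v : V, (p = x → v = 0) ∧ (p ∈ closedBall x (5 * s) →
      ‖F p - F x - v‖ ≤ ε' * s) := by
    intro p
    by_cases hp : p = x
    · refine ⟨0, fun _ => rfl, fun _ => ?_⟩
      rw [hp]
      simp only [sub_self, Submodule.coe_zero, norm_zero]
      positivity
    · by_cases hp2 : p ∈ closedBall x (5 * s)
      · obtain ⟨v, hv, hv2⟩ := hV p hp2
        exact ⟨⟨v, hv⟩, fun h => absurd h hp, fun _ => hv2.le⟩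
      · exact ⟨0, fun _ => rfl, fun h => absurd h hp2⟩
  choose w hw1 hw2 using hex
  have hdist : ∀ y ∈ closedBall x (5 * s), ∀ z ∈ closedBall x (5 * s),
      |‖ι (w y) - ι (w z)‖ - dist y z| ≤ (δ + 2 * ε') * s := by
    intro y hy z hz
    have h1 := hF y (closedBall_subset_closedBall (by linarith) hy) z
      (closedBall_subset_closedBall (by linarith) hz)
    rw [← map_sub, LinearIsometry.norm_map]
    have h2 : |‖w y - w z‖ - ‖F y - F z‖| ≤ 2 * (ε' * s) := by
      have h3 : ‖w y - w z‖ = ‖(w y : H) - w z‖ := by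
        rw [← Submodule.coe_sub, Submodule.coe_norm]
      rw [h3]
      refine (abs_norm_sub_norm_le _ _).trans ?_
      have h4 : ((w y : H) - w z) - (F y - F z) = (F z - F x - w z) - (F y - F x - w y) := by abel
      rw [h4]
      refine (norm_sub_le _ _).trans ?_
      linarith [hw2 y hy, hw2 z hz]
    have h5 := abs_sub_le (‖w y - w z‖) (‖F y - F z‖) (dist y z)
    linarith
  set η : ℝ := (δ + 2 * ε') * s with hη
  have hηpos : 0 < η := by positivity
  have hη3 : 3 * η ≤ l * τ0 * s := by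
    have h1 : 3 * (δ + 2 * ε') ≤ l * τ0 := by
      have : l * τ0 = 12 * ε' := by rw [hε']; ring
      rw [this]
      linarith
    calc 3 * η = 3 * (δ + 2 * ε') * s := by rw [hη]; ring
      _ ≤ l * τ0 * s := mul_le_mul_of_nonneg_right h1 hs.le
  have hηε : η ≤ ε1 * s := by
    have h1 : τ0 ≤ ε1 := by
      have h2 : l ^ I ≤ 1 := pow_le_one₀ hl.le (by linarith)
      have h3 : l * ε1 ≤ 1 / 2 * ε1 := mul_le_mul_of_nonneg_right hl1 hε1pos.le
      calc τ0 ≤ l * ε1 / 2 * 1 := by rw [hτ0]; gcongr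
        _ ≤ ε1 := by linarith
    have h2 : δ + 2 * ε' ≤ ε1 := by
      have : l * τ0 = 12 * ε' := by rw [hε']; ring
      linarith
    exact mul_le_mul_of_nonneg_right h2 hs.le
  have hx0 : ι (w x) = 0 := by rw [hw1 x rfl, map_zero]
  refine ⟨fun p => ι (w p), hx0, ?_, ?_⟩
  · intro y hy z hz
    refine (hdist y hy z hz).trans (hηε.trans ?_)
    exact mul_le_mul_of_nonneg_right (by linarith) hs.le
  · intro u hu
    set u' : EuclideanSpace ℝ (Fin N) := (1 - 2 * ε1) • u with hu'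
    have h12 : 0 ≤ 1 - 2 * ε1 := by linarith
    have hu'n : ‖u'‖ ≤ (1 - 2 * ε1) * s := by
      rw [hu', norm_smul, Real.norm_of_nonneg h12]
      exact mul_le_mul_of_nonneg_left hu h12
    have hu's : ‖u'‖ ≤ s := hu'n.trans (by
      have := mul_pos hε1pos hs
      linarith)
    have huu : ‖u' - u‖ ≤ 2 * ε1 * s := by
      have h1 : u' - u = (-(2 * ε1)) • u := by rw [hu']; module
      rw [h1, norm_smul, norm_neg, Real.norm_of_nonneg (by positivity)]
      exact mul_le_mul_of_nonneg_left hu (by positivity)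
    have e1 : ((2 + l) * s) ^ N = (2 + l) ^ N * s ^ N := mul_pow _ _ _
    have e2 : ((1 - l) * (ε1 * s)) ^ N = ((1 - l) * ε1) ^ N * s ^ N := by
      rw [← mul_assoc, mul_pow]
    obtain ⟨p, hp, hp2⟩ := surj_near (m := m) (f := fun p => ι (w p)) (x := x) (s := s) (η := η)
      (ε := ε1 * s) (l := l) (v1 := (1 - δ) * a) (v2 := (1 + δ) * a) (I := I) hs hηpos
      (by positivity) ((mul_le_mul_of_nonneg_right (by linarith : ε1 ≤ 1) hs.le).trans_eq (one_mul s)) hx0 hdist hl hl1 hIpos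
      (by
        calc 3 * η ≤ l * τ0 * s := hη3
          _ = l * (l * (ε1 * s) / 2 * l ^ I) := by rw [hτ0]; ring)
      (by positivity) (by positivity)
      (by
        have h1 := (hm x (mem_closedBall_self (by linarith)) (2 * s) (hδs 2 (by linarith))
          (by linarith)).2
        exact (h1.trans_lt ENNReal.ofReal_lt_top).ne)
      (hm x (mem_closedBall_self (by linarith)) (2 * s) (hδs 2 (by linarith)) (by linarith)).1
      (by
        intro y hy r hr1 hr2
        refine (hm y (closedBall_subset_closedBall (by linarith) hy) r ?_ (by linarith)).2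
        refine le_trans ?_ hr1
        have h1 : δ ≤ τ0 := by
          have : l * τ0 = 12 * ε' := by rw [hε']; ring
          linarith
        calc δ * s ≤ τ0 * s := hδs τ0 h1
          _ = l * (ε1 * s) / 2 * l ^ I := by rw [hτ0]; ring)
      (by
        rw [e1, e2, mul_pow 3 s, mul_pow 2 s]
        have hsN : 0 < s ^ N := by positivity
        have h1 : (1 + 2 * l) ^ N * ((2 + l) ^ N * s ^ N - ((1 - l) * ε1) ^ N * s ^ N)
            + (2 + l) ^ N * (3 ^ N * s ^ N / I)
            ≤ ((1 + 2 * l) ^ N * ((2 + l) ^ N - ((1 - l) * ε1) ^ N)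
              + (2 + l) ^ N * (3 ^ N * l)) * s ^ N := by
          have h2 : (3 : ℝ) ^ N * s ^ N / I ≤ 3 ^ N * l * s ^ N := by
            calc (3 : ℝ) ^ N * s ^ N / I = 3 ^ N * s ^ N * (1 / I) := by ring
              _ ≤ 3 ^ N * s ^ N * l := mul_le_mul_of_nonneg_left hIl (by positivity)
              _ = 3 ^ N * l * s ^ N := by ring
          have h3 := mul_le_mul_of_nonneg_left h2 (by positivity : 0 ≤ (2 + l) ^ N)
          calc _ ≤ (1 + 2 * l) ^ N * ((2 + l) ^ N * s ^ N - ((1 - l) * ε1) ^ N * s ^ N)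
              + (2 + l) ^ N * (3 ^ N * l * s ^ N) := by linarith
            _ = _ := by ring
        set Q : ℝ := (1 + 2 * l) ^ N * ((2 + l) ^ N - ((1 - l) * ε1) ^ N)
              + (2 + l) ^ N * (3 ^ N * l) with hQ
        have hQ0 : 0 ≤ Q := by
          have h4 : ((1 - l) * ε1) ^ N ≤ (2 + l) ^ N := by
            refine pow_le_pow_left₀ (mul_nonneg (by linarith) hε1pos.le) ?_ N
            have h6 : (1 - l) * ε1 ≤ 1 * (1 / 4) :=
              mul_le_mul (by linarith) hε1le hε1pos.le zero_le_one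
            linarith
          have h5 : 0 ≤ (1 + 2 * l) ^ N * ((2 + l) ^ N - ((1 - l) * ε1) ^ N) :=
            mul_nonneg (by positivity) (by linarith)
          positivity
        calc (1 + δ) * a * _ ≤ (1 + δ) * a * (Q * s ^ N) :=
              mul_le_mul_of_nonneg_left h1 (by positivity)
          _ = (1 + δ) * Q * (a * s ^ N) := by ring
          _ ≤ (1 + l) * Q * (a * s ^ N) := by
              refine mul_le_mul_of_nonneg_right ?_ (by positivity)
              exact mul_le_mul_of_nonneg_right (by linarith) hQ0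
          _ < (1 - l) * 2 ^ N * (a * s ^ N) := mul_lt_mul_of_pos_right hl2 (by positivity)
          _ ≤ (1 - δ) * 2 ^ N * (a * s ^ N) := by
              refine mul_le_mul_of_nonneg_right ?_ (by positivity)
              exact mul_le_mul_of_nonneg_right (by linarith) (by positivity)
          _ = (1 - δ) * a * (2 ^ N * s ^ N) := by ring)
      (u := u') hu's
    refine ⟨p, ?_, ?_⟩
    · have h1 := abs_le.1 (hdist p hp x (mem_closedBall_self (by linarith)))
      rw [hx0, sub_zero] at h1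
      have h2 : ‖ι (w p)‖ ≤ ‖ι (w p) - u'‖ + ‖u'‖ := by
        have := norm_add_le (ι (w p) - u') u'
        rwa [sub_add_cancel] at this
      rw [mem_ball]
      have h3 : (1 - 2 * ε1) * s + ε1 * s + ε1 * s = s := by ring
      linarith [h1.1]
    · have h1 : ‖ι (w p) - u‖ ≤ ‖ι (w p) - u'‖ + ‖u' - u‖ := by
        have := norm_add_le (ι (w p) - u') (u' - u)
        rwa [sub_add_sub_cancel] at this
      show ‖ι (w p) - u‖ ≤ ε * s
      have h2 : 4 * ε1 * s ≤ ε * s := mul_le_mul_of_nonneg_right hε1ε hs.le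
      have h3 : 0 < ε1 * s := by positivity
      linarith

end Hil

/-- **Module M4.** -/
theorem m4 (n : ℕ) {ε : ℝ} (hε : 0 < ε) : ∃ δ : ℝ, 0 < δ ∧ δ < 1 ∧
    ∀ (X : Type u) [MetricSpace X] [MeasurableSpace X] [BorelSpace X] [ProperSpace X]
      (m : Measure X) (H : Type v) [NormedAddCommGroup H] [InnerProductSpace ℝ H] (F : X → H)
      (x : X) (s a : ℝ), Geod X → (∀ y R, m (ball y R) < ∞) → 0 < s → 0 < a →
      (∀ y ∈ closedBall x (25 * s), ∀ z ∈ closedBall x (25 * s),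
        |‖F y - F z‖ - dist y z| ≤ δ * s) →
      (∀ y ∈ closedBall x (10 * s), ∀ r, δ * s ≤ r → r ≤ 15 * s →
        (1 - δ) * (a * (omN n * r ^ (n + 1))) ≤ m.real (ball y r) ∧
        m.real (ball y r) ≤ (1 + δ) * (a * (omN n * r ^ (n + 1)))) →
      EuclLike n x s ε := by
  obtain ⟨δ, hδ, hδ1, h⟩ := Hil.near_euclidean.{u, v} (n + 1) hε
  refine ⟨δ, hδ, hδ1, ?_⟩
  intro X _ _ _ _ m H _ _ F x s a hg hfin hs ha hF hm
  obtain ⟨f, hf0, hf1, hf2⟩ := h X m H F x s (a * omN n) hg hs (mul_pos ha (omN_pos n)) hF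
    (by
      intro y hy r hr1 hr2
      have hr0 : 0 < r := lt_of_lt_of_le (mul_pos hδ hs) hr1
      obtain ⟨h1, h2⟩ := hm y hy r hr1 hr2
      have e1 : (1 - δ) * (a * omN n) * r ^ (n + 1) = (1 - δ) * (a * (omN n * r ^ (n + 1))) := by
        ring
      have e2 : (1 + δ) * (a * omN n) * r ^ (n + 1) = (1 + δ) * (a * (omN n * r ^ (n + 1))) := by
        ring
      rw [e1, e2]
      constructor
      · rw [← ofReal_measureReal (hfin y r).ne]
        exact ENNReal.ofReal_le_ofReal h1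
      · rw [← ofReal_measureReal (hfin y r).ne]
        exact ENNReal.ofReal_le_ofReal h2)
  have hsub : ball x s ⊆ closedBall x (5 * s) := fun y hy => by
    rw [mem_ball] at hy
    rw [mem_closedBall]
    linarith
  refine ⟨f, hf0, fun y hy z hz => ?_, fun y hy => hf2 y ?_⟩
  · rw [abs_sub_comm]
    exact hf1 y (hsub hy) z (hsub hz)
  · have : 0 < ε * s := mul_pos hε hs
    linarith

end Pool.Agent.BDRY
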