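import Pool.Agent.Work.MP_209cb6_gt.B2.Th
import Pool.Agent.Work.MP_209cb6_gt.B2.KerLow
import Pool.Agent.Work.MP_209cb6_gt.B2.Flux

/-!
# BDRY2, end-game: interfaces

Statements only (as definitions of propositions); each is proved in its own file.
-/

set_option autoImplicit false

open MeasureTheory MeasureTheory.Measure Metric Set Filter Topology
open scoped ENNReal NNReal

namespace Pool.Agent.BDRY

universe u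

/-- The exactly nonincreasing volume ratio. -/
noncomputable def tm {X : Type u} [MetricSpace X] [MeasurableSpace X] (K : ℝ) (n : ℕ)
    (m : Measure X) (r : ℝ) (x : X) : ℝ :=
  Real.exp (-((n + 1) * qK K (n + 1) * r)) * th n m r x

/-- `P t x` (`t > 0`) are the heat kernels: a symmetric semigroup given by the EVI flows. -/
structure HeatKer (K : ℝ) (n : ℕ) {X : Type u} [MetricSpace X] [MeasurableSpace X]
    (m : Measure X) (P : ℝ → X → Measure X) : Prop where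
  sym : B2.SymKer m P
  flow : ∀ x, ∃ μ : ℝ → Measure X, μ 0 = dirac x ∧ IsEVIFlow K (n + 1) m μ ∧
    ∀ t, 0 < t → μ t = P t x

/-- The Colding input for the space `X` (with constants; `κ < 1` is the density obtained). -/
def ColIn (n : ℕ) (η₀ ζ₀ δ₀ s₀ κ : ℝ) {X : Type u} [MetricSpace X] [MeasurableSpace X]
    (m : Measure X) : Prop :=
  ∀ (y : X) (s : ℝ), 0 < s → s ≤ s₀ →
    m {y' ∈ ball y (s / η₀) | (1 + δ₀) * th n m (s / η₀) y' < th n m (η₀ * s) y'} ≤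
      ENNReal.ofReal ζ₀ * m (ball y (s / η₀)) → κ ≤ th n m s y

/-- (3a) low points: `U` is small, in integrated form. -/
def LowU (K : ℝ) (n : ℕ) : Prop := ∀ ε : ℝ, 0 < ε → ε < 1 → ∃ C₀ r₀ : ℝ, 1 ≤ C₀ ∧ 0 < r₀ ∧
  r₀ ≤ 1 ∧ ∀ (X : Type u) [MetricSpace X] [MeasurableSpace X] [BorelSpace X] (m : Measure X),
    IsRCD K (n + 1) X m → ∀ (μ : ℝ → Measure X) (x : X) (σ b s : ℝ), μ 0 = dirac x →
    IsEVIFlow K (n + 1) m μ → 0 < σ → 0 < b → tm K n m σ x ≤ b → C₀ * σ ≤ √s → √s ≤ r₀ →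
    (1 - ε) * (2 * √s / (b ^ ((1 : ℝ) / (n + 1)) * √(4 * Real.pi * Real.exp 1))) ≤
      ∫ v in (0 : ℝ)..s, Real.exp (K * v) * (UN (n + 1) m (μ v))⁻¹

/-- (3b) good points: `U` is large. -/
def GoodU (K : ℝ) (n : ℕ) : Prop := ∀ ε : ℝ, 0 < ε → ε < 1 → ∃ c₀ r₀ : ℝ, 0 < c₀ ∧ c₀ ≤ 1 ∧
  0 < r₀ ∧ r₀ ≤ 1 ∧ ∀ (X : Type u) [MetricSpace X] [MeasurableSpace X] [BorelSpace X]
    (m : Measure X), IsRCD K (n + 1) X m → ∀ (ν : ℝ → Measure X) (y : X) (ρ b s : ℝ),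
    ν 0 = dirac y → IsEVIFlow K (n + 1) m ν → 0 < ρ → ρ ≤ r₀ → 0 < b → b ≤ tm K n m ρ y →
    0 < s → √s ≤ c₀ * ρ →
    (1 - ε) * (b ^ ((1 : ℝ) / (n + 1)) * √(4 * Real.pi * Real.exp 1) * √s) ≤
      UN (n + 1) m (ν s)

/-- (3c) the entropy gap between a low point `x` and a good point `y` at scale `√s = C₁ σ`. -/
def GapU (K : ℝ) (n : ℕ) (δ A C₁ g r₀ : ℝ) : Prop :=
  ∀ (X : Type u) [MetricSpace X] [MeasurableSpace X] [BorelSpace X] (m : Measure X),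
    IsRCD K (n + 1) X m → ∀ (μ ν : ℝ → Measure X) (x y : X) (σ a : ℝ), μ 0 = dirac x →
    ν 0 = dirac y → IsEVIFlow K (n + 1) m μ → IsEVIFlow K (n + 1) m ν → 0 < σ → σ ≤ r₀ →
    0 < a → tm K n m σ x ≤ (1 + 2 * δ) * a → (1 + 3 * δ) * a ≤ tm K n m (A * σ) y →
    (1 + g) * (2 * (C₁ * σ) ^ 2) ≤ UN (n + 1) m (ν ((C₁ * σ) ^ 2)) *
      ∫ v in (0 : ℝ)..(C₁ * σ) ^ 2, Real.exp (K * v) * (UN (n + 1) m (μ v))⁻¹

def GapStmt (K : ℝ) (n : ℕ) : Prop := ∀ δ : ℝ, 0 < δ → δ ≤ 1 / 10 → ∃ A C₁ g r₀ : ℝ,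
  1 ≤ A ∧ 1 ≤ C₁ ∧ 0 < g ∧ g ≤ 1 ∧ 0 < r₀ ∧ r₀ ≤ 1 ∧ GapU.{u} K n δ A C₁ g r₀

/-- (2) EVI lower bound for the flux, `D = 6`. -/
def FluxLow (K : ℝ) (n : ℕ) : Prop := ∀ g : ℝ, 0 < g → g ≤ 1 → ∃ lam₀ r₀ : ℝ, 0 < lam₀ ∧
  lam₀ ≤ 1 / 4 ∧ 0 < r₀ ∧ r₀ ≤ 1 ∧
  ∀ (X : Type u) [MetricSpace X] [MeasurableSpace X] [BorelSpace X] (m : Measure X),
    IsRCD K (n + 1) X m → ∀ (μ ν : ℝ → Measure X) (x y p : X) (lam s : ℝ), μ 0 = dirac x →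
    ν 0 = dirac y → IsEVIFlow K (n + 1) m μ → IsEVIFlow K (n + 1) m ν → 0 < lam →
    lam ≤ lam₀ → 0 < s → s ≤ r₀ → dist x p ≤ 6 → dist x y = lam * dist x p →
    dist y p = (1 - lam) * dist x p → (lam * dist x p) ^ 4 ≤ r₀ * s →
    (1 + g) * (2 * s) ≤ UN (n + 1) m (ν s) *
      ∫ v in (0 : ℝ)..s, Real.exp (K * v) * (UN (n + 1) m (μ v))⁻¹ →
    2 * (n + 1) * s * g / lam ≤
      dist x p ^ 2 + 2 * N1 K (n + 1) 6 * s - W2 (μ s) (dirac p) ^ 2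

/-- (1) the budget. -/
def Budget (K : ℝ) (n : ℕ) : Prop :=
  ∀ (X : Type u) [MetricSpace X] [MeasurableSpace X] [BorelSpace X] (m : Measure X)
    (P : ℝ → X → Measure X), IsRCD K (n + 1) X m → HeatKer K n m P →
    ∀ (z₀ p : X) (q s : ℝ), 0 < q → q ≤ 2 → 0 < s → s ≤ 1 → dist z₀ p ≤ q →
    ∫⁻ x in closedBall z₀ q,
      ENNReal.ofReal (dist x p ^ 2 + 2 * N1 K (n + 1) 6 * s - W2 (P s x) (dirac p) ^ 2) ∂m ≤
        ENNReal.ofReal (16 * N1 K (n + 1) 6 * s) * m (closedBall z₀ (2 * q))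

/-- (4) Lemma F: flux counting. -/
def LemF (K : ℝ) (n : ℕ) (δ A c C lam₀ r₀ : ℝ) : Prop :=
  ∀ (X : Type u) [MetricSpace X] [MeasurableSpace X] [BorelSpace X] (m : Measure X)
    (P : ℝ → X → Measure X), IsRCD K (n + 1) X m → HeatKer K n m P →
    ∀ (z₀ : X) (q σ : ℝ) (F : Finset X) (a lam : X → ℝ), 0 < q → q ≤ 1 → 0 < σ →
    σ ≤ r₀ * q →
    (∀ w ∈ F, w ∈ closedBall z₀ q) →
    (∀ w ∈ F, ∀ w' ∈ F, w ≠ w' → σ ≤ dist w w') →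
    (∀ w ∈ F, 0 < a w ∧ tm K n m σ w ≤ (1 + δ) * a w) →
    (∀ w ∈ F, 0 < lam w ∧ lam w ≤ lam₀ ∧ (lam w * q) ^ 2 ≤ r₀ * σ) →
    (∀ w ∈ F, ∀ x' ∈ closedBall w (c * σ),
      m (closedBall z₀ q ∩ Zt x' 6 (1 - lam w) {y | tm K n m (A * σ) y < (1 + 3 * δ) * a w}) ≤
        m (closedBall z₀ q) / 2) →
    ∑ w ∈ F, m.real (closedBall w (c * σ)) / lam w ≤ C * m.real (closedBall z₀ (3 * q))

def LemFStmt (K : ℝ) (n : ℕ) : Prop := ∀ δ : ℝ, 0 < δ → δ ≤ 1 / 10 → ∃ A c C lam₀ r₀ : ℝ,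
  1 ≤ A ∧ 0 < c ∧ c ≤ 1 / 4 ∧ 0 < C ∧ 0 < lam₀ ∧ lam₀ ≤ 1 / 4 ∧ 0 < r₀ ∧ r₀ ≤ 1 ∧
    LemF.{u} K n δ A c C lam₀ r₀

/-- (6) Lemma R: relative regularity (`b₀ < κ` is the density threshold, e.g. `1 / 2`). -/
def LemR (K : ℝ) (n : ℕ) (η₀ ζ₀ δ₀ s₀ κ b₀ δ : ℝ) : Prop :=
  ∀ ζ : ℝ, 0 < ζ → ∃ c' ε r₂ : ℝ, 0 < c' ∧ c' ≤ 1 / 10 ∧ 0 < ε ∧ ε ≤ 1 / 10 ∧ 0 < r₂ ∧ r₂ ≤ 1 ∧
    ∀ (X : Type u) [MetricSpace X] [MeasurableSpace X] [BorelSpace X] (m : Measure X),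
      IsRCD K (n + 1) X m → ColIn n η₀ ζ₀ δ₀ s₀ κ m →
      ∀ (w : X) (R a : ℝ), 0 < R → R ≤ r₂ → 0 < a → a ≤ b₀ →
      (∀ y ∈ closedBall w (2 * R), (1 - ε) * a ≤ tm K n m (R / ε) y) →
      m.real {y ∈ closedBall w R | tm K n m (c' * R) y < (1 + 7 * δ) * a} ≤
        ζ * m.real (closedBall w R)

def LemRStmt (K : ℝ) (n : ℕ) : Prop := ∀ η₀ ζ₀ δ₀ s₀ κ b₀ : ℝ, 0 < η₀ → η₀ < 1 → 0 < ζ₀ →
  0 < δ₀ → 0 < s₀ → 0 < b₀ → b₀ < κ →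
  ∃ δ : ℝ, 0 < δ ∧ δ ≤ 1 / 10 ∧ LemR.{u} K n η₀ ζ₀ δ₀ s₀ κ b₀ δ

/-- (7) Stage 1. -/
def Stage1 (K : ℝ) (n : ℕ) (η₀ ζ₀ δ₀ s₀ κ b₀ δ : ℝ) : Prop :=
  ∃ Cu ηu ε r₃ : ℝ, 0 < Cu ∧ 0 < ηu ∧ ηu ≤ 1 / 10 ∧ 0 < ε ∧ ε ≤ 1 / 10 ∧ 0 < r₃ ∧ r₃ ≤ 1 ∧
    ∀ (X : Type u) [MetricSpace X] [MeasurableSpace X] [BorelSpace X] (m : Measure X)
      (P : ℝ → X → Measure X), IsRCD K (n + 1) X m → HeatKer K n m P →
      ColIn n η₀ ζ₀ δ₀ s₀ κ m →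
      ∀ (x : X) (R η a : ℝ), 0 < R → R ≤ r₃ → 0 < η → η ≤ ηu → 0 < a → a ≤ b₀ →
      (∀ ρ, 0 < ρ → ρ ≤ R / ε → (1 - ε) * a ≤ tm K n m ρ x ∧ tm K n m ρ x ≤ a) →
      m.real {y ∈ closedBall x R | tm K n m (η * R) y < (1 + 3 * δ) * a} ≤
        Cu * a * η * R ^ (n + 1)

def Stage1Stmt (K : ℝ) (n : ℕ) : Prop :=
  LemFStmt.{u} K n → ∀ η₀ ζ₀ δ₀ s₀ κ b₀ δ : ℝ, 0 < δ → δ ≤ 1 / 10 →
    LemR.{u} K n η₀ ζ₀ δ₀ s₀ κ b₀ δ → Stage1.{u} K n η₀ ζ₀ δ₀ s₀ κ b₀ δ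

/-- (8) Stage 2: the bound for the set of points of density at most `b₀`. -/
def Stage2 (K : ℝ) (n : ℕ) (η₀ ζ₀ δ₀ s₀ κ b₀ : ℝ) : Prop :=
  ∃ C : ℝ, 0 < C ∧ ∀ (X : Type u) [MetricSpace X] [MeasurableSpace X] [BorelSpace X]
    (m : Measure X) (P : ℝ → X → Measure X), IsRCD K (n + 1) X m → HeatKer K n m P →
    ColIn n η₀ ζ₀ δ₀ s₀ κ m → ∀ (x₀ : X) (r : ℝ), 0 < r → r < 1 →
    (μHE[n] : Measure X) (ball x₀ r ∩ {x | ∀ ρ, 0 < ρ → ρ < 6 → tm K n m ρ x ≤ b₀}) ≤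
      ENNReal.ofReal (C * r ^ n)

def Stage2Stmt (K : ℝ) (n : ℕ) : Prop :=
  LemFStmt.{u} K n → ∀ η₀ ζ₀ δ₀ s₀ κ b₀ δ : ℝ, 0 < b₀ → 0 < δ → δ ≤ 1 / 10 →
    Stage1.{u} K n η₀ ζ₀ δ₀ s₀ κ b₀ δ → Stage2.{u} K n η₀ ζ₀ δ₀ s₀ κ b₀

section tm

variable {X : Type u} [MetricSpace X] [MeasurableSpace X] [BorelSpace X] {K : ℝ} {n : ℕ}
  {m : Measure X}

theorem tm_anti (hK : K ≤ 0) (hX : IsRCD K (n + 1) X m) (x : X) {r R : ℝ} (hr : 0 < r)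
    (hrR : r ≤ R) : tm K n m R x ≤ tm K n m r x := by
  have h := th_mono hK hX x hr hrR
  unfold tm
  calc Real.exp (-((n + 1) * qK K (n + 1) * R)) * th n m R x
      ≤ Real.exp (-((n + 1) * qK K (n + 1) * R)) *
          (Real.exp ((n + 1) * qK K (n + 1) * (R - r)) * th n m r x) := by gcongr
    _ = Real.exp (-((n + 1) * qK K (n + 1) * r)) * th n m r x := by
        rw [← mul_assoc, ← Real.exp_add]; ring_nf

theorem tm_pos (hX : IsRCD K (n + 1) X m) (x : X) {r : ℝ} (hr : 0 < r) : 0 < tm K n m r x :=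
  mul_pos (Real.exp_pos _) (th_pos hX x hr)

theorem tm_le_th {r : ℝ} (hr : 0 ≤ r) (x : X) : tm K n m r x ≤ th n m r x := by
  have h1 := th_nonneg (m := m) (n := n) hr x
  have h2 := qK_nonneg K (n + 1)
  have h3 : Real.exp (-((n + 1) * qK K (n + 1) * r)) ≤ 1 :=
    Real.exp_le_one_iff.2 (by have : 0 ≤ (n + 1) * qK K (n + 1) * r := by positivity
                              linarith)
  unfold tm
  exact mul_le_of_le_one_left h1 h3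

theorem th_eq_tm {r : ℝ} (x : X) :
    th n m r x = Real.exp ((n + 1) * qK K (n + 1) * r) * tm K n m r x := by
  unfold tm
  rw [← mul_assoc, ← Real.exp_add]
  simp

/-- Comparison of the ratios at two centres. -/
theorem tm_nbr (hK : K ≤ 0) (hX : IsRCD K (n + 1) X m) {x y : X} {e R : ℝ}
    (hxy : dist x y ≤ e) (hR : 0 < R) :
    tm K n m R x ≤ ((R + e) / R) ^ (n + 1) * Real.exp ((n + 1) * qK K (n + 1) * e) *
      tm K n m (R + e) y := by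
  have he : 0 ≤ e := dist_nonneg.trans hxy
  have hω := omN_pos n
  have h1 : m.real (ball x R) ≤ m.real (ball y (R + e)) := by
    refine measureReal_mono (ball_subset_ball' (by linarith)) (ball_fin hX y _)
  rw [th_eq (n := n) hR x, th_eq (n := n) (by linarith : 0 < R + e) y, th_eq_tm (K := K) x,
    th_eq_tm (K := K) y] at h1
  have h2 : Real.exp ((n + 1) * qK K (n + 1) * (R + e)) =
      Real.exp ((n + 1) * qK K (n + 1) * R) * Real.exp ((n + 1) * qK K (n + 1) * e) := by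
    rw [← Real.exp_add]; ring_nf
  rw [h2] at h1
  have h3 : 0 < Real.exp ((n + 1) * qK K (n + 1) * R) := Real.exp_pos _
  have h4 : 0 < Real.exp ((n + 1) * qK K (n + 1) * R) * (omN n * R ^ (n + 1)) := by positivity
  have h5 : (Real.exp ((n + 1) * qK K (n + 1) * R) * (omN n * R ^ (n + 1))) * tm K n m R x ≤
      (Real.exp ((n + 1) * qK K (n + 1) * R) * (omN n * R ^ (n + 1))) *
        (((R + e) / R) ^ (n + 1) * Real.exp ((n + 1) * qK K (n + 1) * e) *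
          tm K n m (R + e) y) := by
    calc _ = Real.exp ((n + 1) * qK K (n + 1) * R) * tm K n m R x * (omN n * R ^ (n + 1)) := by
          ring
      _ ≤ _ := h1
      _ = _ := by
          rw [div_pow]
          field_simp
  exact le_of_mul_le_mul_left h5 h4

theorem tm_nbr' (hK : K ≤ 0) (hX : IsRCD K (n + 1) X m) {x y : X} {e R : ℝ}
    (hxy : dist x y ≤ e) (hR : 0 < R) :
    tm K n m R x ≤ ((R + e) / R) ^ (n + 1) * Real.exp ((n + 1) * qK K (n + 1) * e) *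
      tm K n m R y := by
  have he : 0 ≤ e := dist_nonneg.trans hxy
  refine (tm_nbr hK hX hxy hR).trans ?_
  gcongr
  exact tm_anti hK hX y hR (by linarith)

end tm

end Pool.Agent.BDRY
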