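import Pool.Agent.Work.MP_209cb6_gt.B2.BGauss
import Pool.Agent.Work.MP_209cb6_gt.B2.GaussInt

/-!
# The volume ratio `th n m r x = m (ball x r) / (ω r^(n+1))`
-/

set_option autoImplicit false

open MeasureTheory MeasureTheory.Measure Metric Set Filter Topology
open scoped ENNReal NNReal

namespace Pool.Agent.BDRY

universe u

/-- the volume ratio -/
noncomputable def th {X : Type u} [MetricSpace X] [MeasurableSpace X] (n : ℕ) (m : Measure X)
    (r : ℝ) (x : X) : ℝ := m.real (ball x r) / (omN n * r ^ (n + 1))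

section th

variable {X : Type u} [MetricSpace X] [MeasurableSpace X] {n : ℕ} {m : Measure X}

theorem th_nonneg {r : ℝ} (hr : 0 ≤ r) (x : X) : 0 ≤ th n m r x := by
  have := omN_pos n
  unfold th
  positivity

theorem th_eq {r : ℝ} (hr : 0 < r) (x : X) :
    m.real (ball x r) = th n m r x * (omN n * r ^ (n + 1)) := by
  have := omN_pos n
  unfold th
  field_simp

theorem th_le_iff {r b : ℝ} (hr : 0 < r) (x : X) :
    th n m r x ≤ b ↔ m.real (ball x r) ≤ b * (omN n * r ^ (n + 1)) := by
  have := omN_pos n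
  unfold th
  rw [div_le_iff₀ (by positivity)]

theorem le_th_iff {r b : ℝ} (hr : 0 < r) (x : X) :
    b ≤ th n m r x ↔ b * (omN n * r ^ (n + 1)) ≤ m.real (ball x r) := by
  have := omN_pos n
  unfold th
  rw [le_div_iff₀ (by positivity)]

variable [BorelSpace X] {K : ℝ}

theorem ball_fin (hX : IsRCD K (n + 1) X m) (x : X) (r : ℝ) : m (ball x r) ≠ ∞ :=
  ne_top_of_le_ne_top (hX.finite_ball x r).ne (measure_mono ball_subset_closedBall)

theorem ball_real_pos (hX : IsRCD K (n + 1) X m) (x : X) {r : ℝ} (hr : 0 < r) :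
    0 < m.real (ball x r) :=
  ENNReal.toReal_pos (hX.pos_ball x r hr).ne' (ball_fin hX x r)

theorem th_pos (hX : IsRCD K (n + 1) X m) (x : X) {r : ℝ} (hr : 0 < r) : 0 < th n m r x := by
  have := omN_pos n
  have := ball_real_pos hX x hr
  unfold th
  positivity

/-- Bishop-Gromov for open balls, real values -/
theorem bg_real (hK : K ≤ 0) (hX : IsRCD K (n + 1) X m) (x : X) {r R : ℝ} (hr : 0 < r)
    (hrR : r ≤ R) : m.real (ball x R) ≤
      (R / r) ^ (n + 1) * Real.exp ((n + 1) * qK K (n + 1) * (R - r)) * m.real (ball x r) := by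
  have h := bg_ball' hK hX x hr hrR
  have h2 := ENNReal.toReal_mono (ENNReal.mul_ne_top ENNReal.ofReal_ne_top (ball_fin hX x r)) h
  have : 0 < R := hr.trans_le hrR
  rw [ENNReal.toReal_mul, ENNReal.toReal_ofReal (by positivity)] at h2
  exact h2

/-- almost monotonicity of the volume ratio -/
theorem th_mono (hK : K ≤ 0) (hX : IsRCD K (n + 1) X m) (x : X) {r R : ℝ} (hr : 0 < r)
    (hrR : r ≤ R) :
    th n m R x ≤ Real.exp ((n + 1) * qK K (n + 1) * (R - r)) * th n m r x := by
  have hR : 0 < R := hr.trans_le hrR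
  have hω := omN_pos n
  rw [th_le_iff hR]
  refine (bg_real hK hX x hr hrR).trans (le_of_eq ?_)
  rw [th_eq (n := n) hr x, div_pow]
  field_simp

theorem th_nbr (hK : K ≤ 0) (hX : IsRCD K (n + 1) X m) {x y : X} {e R : ℝ} (hxy : dist x y ≤ e)
    (hR : 0 < R) :
    th n m R x ≤ ((R + e) / R) ^ (n + 1) * Real.exp ((n + 1) * qK K (n + 1) * e) *
      th n m R y := by
  have he : 0 ≤ e := dist_nonneg.trans hxy
  have hω := omN_pos n
  rw [th_le_iff hR]
  have h1 : m.real (ball x R) ≤ m.real (ball y (R + e)) := by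
    refine measureReal_mono (ball_subset_ball' (by linarith)) (ball_fin hX y _)
  refine (h1.trans (bg_real hK hX y hR (by linarith))).trans (le_of_eq ?_)
  rw [th_eq (n := n) hR y]
  have : R + e - R = e := by ring
  rw [this]
  ring

end th

end Pool.Agent.BDRY
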