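import Pool.Agent.Work.MP_209cb6_gt.B2.GaussM2
import Pool.Agent.Work.MP_209cb6_gt.B2.Th
import Pool.Agent.Work.MP_209cb6_gt.B2.Eucl
import Pool.Agent.Work.MP_209cb6_gt.B2.KerLow
import Pool.Agent.Work.MP_209cb6_gt.B2.EndDefs

/-!
# Almost constant volume ratios give Euclidean balls (glue of M2, M3, M4)
-/

set_option autoImplicit false
set_option linter.unusedSectionVars false

open MeasureTheory MeasureTheory.Measure Metric Set Filter Topology ProbabilityTheory
open scoped ENNReal NNReal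

namespace Pool.Agent.BDRY

universe u

section kernel

variable {X : Type u} [MeasurableSpace X] {m : Measure X} {P : ℝ → X → Measure X}

/-- the kernel at time `t` -/
noncomputable def kerAt (h : B2.SymKer m P) {t : ℝ} (ht : 0 < t) : Kernel X X where
  toFun := P t
  measurable' := Measure.measurable_of_measurable_coe _ (h.meas t ht)

theorem kerAt_apply (h : B2.SymKer m P) {t : ℝ} (ht : 0 < t) (x : X) : kerAt h ht x = P t x := rfl

theorem kerAt_markov (h : B2.SymKer m P) {t : ℝ} (ht : 0 < t) : IsMarkovKernel (kerAt h ht) :=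
  ⟨fun x => h.prob t ht x⟩

theorem kerAt_sym (h : B2.SymKer m P) {t : ℝ} (ht : 0 < t) : SymK m (kerAt h ht) :=
  fun A B hA hB => h.symm t ht A B hA hB

theorem kerAt_comp (h : B2.SymKer m P) {t : ℝ} (ht : 0 < t) (x : X) :
    (kerAt h ht ∘ₖ kerAt h ht) x = P (2 * t) x := by
  ext A hA
  rw [Kernel.comp_apply' _ _ _ hA, two_mul, h.sgrp t t ht ht x A hA]
  rfl

end kernel

theorem qK_sq {K : ℝ} (hK : K ≤ 0) (n : ℕ) :
    ((n + 1 : ℕ) : ℝ) * qK K (n + 1) ^ 2 = -K := by
  have hN : (0 : ℝ) < ((n + 1 : ℕ) : ℝ) := by positivity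
  rw [qK, Real.sq_sqrt (by rw [← neg_div]; exact div_nonneg (by linarith) hN.le)]
  field_simp

/-- Bishop-Gromov gives the exponential growth used in `gauss_kernel`. -/
theorem growth_bg {K : ℝ} (hK : K ≤ 0) (n : ℕ) {X : Type u} [MetricSpace X] [MeasurableSpace X]
    [BorelSpace X] {m : Measure X} (hX : IsRCD K (n + 1) X m) {z : X} {a r R : ℝ}
    (hr : 0 < r) (hrR : r ≤ R) (hKr : -K * r ^ 2 ≤ 1) (ha : 0 < a)
    (hz : m.real (ball z r) ≤ 2 * (a * (omN n * r ^ (n + 1)))) :
    m.real (ball z R) ≤ (2 * ((n + 1 : ℕ) : ℝ)) * (a * (omN n * r ^ (n + 1))) *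
      Real.exp ((2 * ((n + 1 : ℕ) : ℝ)) * R / r) := by
  set N : ℝ := ((n + 1 : ℕ) : ℝ) with hN
  have hN1 : (1 : ℝ) ≤ N := by rw [hN]; exact_mod_cast Nat.succ_le_succ (Nat.zero_le n)
  have hN0 : 0 < N := by linarith
  have hR : 0 < R := hr.trans_le hrR
  have hω := omN_pos n
  have h1 := bg_real hK hX z hr hrR
  have h2 : (R / r) ^ (n + 1) ≤ Real.exp (N * (R / r)) := by
    rw [hN, Real.exp_nat_mul]
    refine pow_le_pow_left₀ (by positivity) ?_ _
    linarith [Real.add_one_le_exp (R / r)]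
  have hq0 := qK_nonneg K (n + 1)
  have h3 : qK K (n + 1) * r ≤ 1 := by
    have h4 : (qK K (n + 1) * r) ^ 2 ≤ 1 := by
      have h5 := qK_sq hK n
      rw [← hN] at h5
      have h6 : (qK K (n + 1) * r) ^ 2 ≤ N * qK K (n + 1) ^ 2 * r ^ 2 := by
        rw [mul_pow]
        nlinarith [mul_nonneg (sq_nonneg (qK K (n + 1))) (sq_nonneg r)]
      rw [h5] at h6
      exact h6.trans hKr
    nlinarith [mul_nonneg hq0 hr.le]
  have h4 : Real.exp ((n + 1) * qK K (n + 1) * (R - r)) ≤ Real.exp (N * (R / r)) := by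
    apply Real.exp_le_exp.2
    have e1 : ((n : ℝ) + 1) = N := by rw [hN]; push_cast; ring
    rw [e1]
    have h5 : qK K (n + 1) * (R - r) ≤ R / r := by
      rw [le_div_iff₀ hr]
      nlinarith [mul_nonneg hq0 hr.le]
    calc N * qK K (n + 1) * (R - r) = N * (qK K (n + 1) * (R - r)) := by ring
      _ ≤ N * (R / r) := by gcongr
  have hm0 : 0 ≤ m.real (ball z r) := measureReal_nonneg
  calc m.real (ball z R) ≤
        (R / r) ^ (n + 1) * Real.exp ((n + 1) * qK K (n + 1) * (R - r)) * m.real (ball z r) := h1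
    _ ≤ Real.exp (N * (R / r)) * Real.exp (N * (R / r)) *
        (2 * (a * (omN n * r ^ (n + 1)))) := by gcongr
    _ = 2 * (a * (omN n * r ^ (n + 1))) * Real.exp (2 * N * R / r) := by
        rw [← Real.exp_add]
        have : N * (R / r) + N * (R / r) = 2 * N * R / r := by ring
        rw [this]; ring
    _ ≤ (2 * N) * (a * (omN n * r ^ (n + 1))) * Real.exp (2 * N * R / r) := by
        gcongr
        nlinarith [mul_pos ha (mul_pos hω (pow_pos hr (n + 1)))]

/-- **Almost constant volume ratios give near-Hilbert balls**, with constants independent of `K`. -/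
theorem hilbert_of_ratio (n : ℕ) {ε : ℝ} (hε : 0 < ε) :
    ∃ η : ℝ, 0 < η ∧ η ≤ 1 / 2 ∧
    ∀ (X : Type u) [MetricSpace X] [MeasurableSpace X] [BorelSpace X] (m : Measure X) (K : ℝ)
      (P : ℝ → X → Measure X), K ≤ 0 → IsRCD K (n + 1) X m → HeatKer K n m P →
      ∀ (z : X) (R a : ℝ), 0 < R → -K * R ^ 2 ≤ η → 0 < a →
      (∀ y ∈ closedBall z (R / η), ∀ r, η * R ≤ r → r ≤ R / η →
        (1 - η) * a ≤ th n m r y ∧ th n m r y ≤ (1 + η) * a) →
      ∃ F : X → Lp ℝ 2 m, ∀ y ∈ closedBall z R, ∀ y' ∈ closedBall z R,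
        |‖F y - F y'‖ - dist y y'| ≤ ε * R := by
  obtain ⟨Λ, ρ₀, δ₃, hΛ, hρ₀, hρ₀1, hδ₃, H3⟩ := m3.{u} n hε
  set N : ℝ := ((n + 1 : ℕ) : ℝ) with hN
  have hN1 : (1 : ℝ) ≤ N := by rw [hN]; exact_mod_cast Nat.succ_le_succ (Nat.zero_le n)
  have hN0 : 0 < N := by linarith
  have hΛ0 : 0 < Λ := by linarith
  have hδ5 : 0 < min δ₃ 1 := by positivity
  obtain ⟨η₅, hη₅, hη₅1, c₀, hc₀, H2⟩ := gauss_kernel.{u} n (ε := min δ₃ 1) (C₀ := 2 * N) hδ5
    (by positivity)
  set η : ℝ := min (min (1 / 2) (η₅ / (2 * Λ))) (min ρ₀ (min (1 / (4 * Λ))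
    (c₀ * η₅ ^ 2 / (4 * Λ)))) with hη
  have hη0 : 0 < η := by positivity
  have hη1 : η ≤ 1 / 2 := (min_le_left _ _).trans (min_le_left _ _)
  have hη2 : η ≤ η₅ / (2 * Λ) := (min_le_left _ _).trans (min_le_right _ _)
  have hη4 : η ≤ ρ₀ := (min_le_right _ _).trans (min_le_left _ _)
  have hη5 : η ≤ 1 / (4 * Λ) :=
    (min_le_right _ _).trans ((min_le_right _ _).trans (min_le_left _ _))
  have hη6 : η ≤ c₀ * η₅ ^ 2 / (4 * Λ) :=
    (min_le_right _ _).trans ((min_le_right _ _).trans (min_le_right _ _))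
  have hη2' : η ≤ η₅ := hη2.trans (div_le_self hη₅.le (by linarith))
  refine ⟨η, hη0, hη1, ?_⟩
  intro X _ _ _ m K P hK hX hker z R a hR0 hKs ha hrat
  have hω := omN_pos n
  have := hX.proper
  have hRη : 2 * R ≤ R / η := by
    rw [le_div_iff₀ hη0]
    nlinarith
  have hup : ∀ y ∈ closedBall z (R / η), ∀ r, η * R ≤ r → r ≤ R / η →
      m.real (ball y r) ≤ (1 + η) * (a * (omN n * r ^ (n + 1))) := by
    intro y hy r h1 h2
    have h3 := (hrat y hy r h1 h2).2
    rw [th_le_iff (lt_of_lt_of_le (by positivity) h1)] at h3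
    linarith
  have hlo : ∀ y ∈ closedBall z (R / η), ∀ r, η * R ≤ r → r ≤ R / η →
      (1 - η) * (a * (omN n * r ^ (n + 1))) ≤ m.real (ball y r) := by
    intro y hy r h1 h2
    have h3 := (hrat y hy r h1 h2).1
    rw [le_th_iff (lt_of_lt_of_le (by positivity) h1)] at h3
    linarith
  -- the three times
  have key : ∀ y ∈ closedBall z (2 * R), ∀ t, Λ * R ^ 2 ≤ t → t ≤ 4 * (Λ * R ^ 2) →
      TestClose m (P t y) (gG n a t y) (min δ₃ 1) ∧ Integrable (gG n a t y) m ∧
        |∫ x, gG n a t y x ∂m - 1| ≤ min δ₃ 1 := by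
    intro y hy t ht1 ht2
    have ht : 0 < t := lt_of_lt_of_le (by positivity) ht1
    have hst : 0 < √t := Real.sqrt_pos.2 ht
    have hy' : y ∈ closedBall z (R / η) := closedBall_subset_closedBall hRη hy
    have hst1 : R ≤ √t := by
      apply Real.le_sqrt_of_sq_le
      refine le_trans ?_ ht1
      nlinarith [sq_nonneg R]
    have hst2 : √t ≤ 2 * Λ * R := by
      rw [Real.sqrt_le_left (by positivity)]
      refine ht2.trans ?_
      nlinarith [mul_nonneg (mul_nonneg hΛ0.le (sub_nonneg.2 hΛ)) (sq_nonneg R)]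
    have hw1 : η * R ≤ η₅ * √t := by gcongr
    have hw2 : √t / η₅ ≤ R / η := by
      rw [div_le_div_iff₀ hη₅ hη0]
      rw [le_div_iff₀ (by positivity)] at hη2
      calc √t * η ≤ 2 * Λ * R * η := by gcongr
        _ = R * (η * (2 * Λ)) := by ring
        _ ≤ R * η₅ := by gcongr
    have hKt : -K * t ≤ 4 * Λ * (-K * R ^ 2) := by
      have : t ≤ 4 * Λ * R ^ 2 := by linarith
      nlinarith
    have hKt1 : -K * √t ^ 2 ≤ 1 := by
      rw [Real.sq_sqrt ht.le]
      rw [le_div_iff₀ (by positivity)] at hη5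
      nlinarith
    have hKt2 : -K * t ≤ c₀ * η₅ ^ 2 := by
      rw [le_div_iff₀ (by positivity)] at hη6
      nlinarith
    obtain ⟨μ, hμ0, hμ, hμP⟩ := hker.flow y
    have hu : ∀ R', η₅ * √t ≤ R' → R' ≤ √t / η₅ →
        m.real (ball y R') ≤ (1 + η₅) * (a * (omN n * R' ^ (n + 1))) := by
      intro R' h1 h2
      have hR' : 0 < R' := lt_of_lt_of_le (by positivity) h1
      refine (hup y hy' R' (hw1.trans h1) (h2.trans hw2)).trans ?_
      gcongr
    have hl : ∀ R', η₅ * √t ≤ R' → R' ≤ √t / η₅ →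
        (1 - η₅) * (a * (omN n * R' ^ (n + 1))) ≤ m.real (ball y R') := by
      intro R' h1 h2
      have hR' : 0 < R' := lt_of_lt_of_le (by positivity) h1
      refine le_trans ?_ (hlo y hy' R' (hw1.trans h1) (h2.trans hw2))
      gcongr
    have hη₅lt : η₅ < 1 := by linarith
    have hstη : √t ≤ √t / η₅ := by
      rw [le_div_iff₀ hη₅]; nlinarith
    have hgr : ∀ R', √t / η₅ ≤ R' → m.real (ball y R') ≤
        2 * N * (a * (omN n * √t ^ (n + 1))) * Real.exp (2 * N * R' / √t) := by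
      intro R' h1
      refine growth_bg hK n hX hst (hstη.trans h1) hKt1 ha ?_
      refine (hu (√t) (by nlinarith) hstη).trans ?_
      have : 0 < a * (omN n * √t ^ (n + 1)) := by positivity
      nlinarith
    have HH := H2 η₅ hη₅ le_rfl X K m μ y a t hK hX.finite_ball hX.pos_ball hX.exp_int hμ hμ0 ha ht
      hKt2 hu hl hgr
    obtain ⟨-, g2, -, -, g5, g6, -⟩ := HH
    rw [hμP t ht] at g2
    exact ⟨g2, g5, g6⟩
  set s' : ℝ := Λ * R ^ 2 with hs'
  have hs'0 : 0 < s' := by positivity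
  have hmon : ∀ {g : X → ℝ} {μ : Measure X}, TestClose m μ g (min δ₃ 1) → TestClose m μ g δ₃ := by
    intro g μ h φ hφ M hM
    refine (h φ hφ M hM).trans ?_
    have hM0 : 0 ≤ M := (abs_nonneg _).trans (hM z)
    gcongr
    exact min_le_left _ _
  have h2t : 0 < 2 * s' := by positivity
  have := kerAt_markov hker.sym h2t
  exact H3 X m (kerAt hker.sym h2t) (kerAt_sym hker.sym h2t) a R z ha hR0
    (by
      intro y hy
      rw [kerAt_apply]
      refine hmon (key y (closedBall_subset_closedBall ?_ hy) _ (by linarith) (by linarith)).1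
      nlinarith)
    (by
      intro y hy
      rw [kerAt_comp, show 2 * (2 * s') = 4 * s' by ring]
      refine hmon (key y (closedBall_subset_closedBall ?_ hy) _ (by linarith) le_rfl).1
      linarith)
    (by
      intro y hy
      exact (key y (closedBall_subset_closedBall (by linarith) hy) _ le_rfl (by linarith)).2.2.trans
        (min_le_left _ _))
    (by
      intro y hy
      have h := (key y (closedBall_subset_closedBall (by linarith) hy) (2 * s') (by linarith)
        (by linarith)).2.2.trans (min_le_right _ _)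
      rw [abs_le] at h
      linarith [h.2])
    (by
      intro y hy t ht
      refine (key y (closedBall_subset_closedBall (by linarith) hy) t ?_ ?_).2.1
      · rcases ht with h | h | h <;> rw [h] <;> linarith
      · rcases ht with h | h | h <;> rw [h] <;> linarith)
    (by
      intro y hy
      refine ⟨(hX.finite_ball _ _).ne, ?_⟩
      have hy' : y ∈ closedBall z (R / η) := closedBall_subset_closedBall (by linarith) hy
      have h1 : η * R ≤ ρ₀ * R := by gcongr
      have h2 : ρ₀ * R ≤ R / η := by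
        have : ρ₀ * R ≤ R := mul_le_of_le_one_left hR0.le hρ₀1
        linarith
      have h3 := hlo y hy' (ρ₀ * R) h1 h2
      have h4 : m.real (ball y (ρ₀ * R)) ≤ m.real (closedBall y (ρ₀ * R)) :=
        measureReal_mono ball_subset_closedBall (hX.finite_ball _ _).ne
      refine le_trans ?_ (h3.trans h4)
      have h5 : 0 < a * (omN n * (ρ₀ * R) ^ (n + 1)) := by positivity
      nlinarith)

/-- the form used in `ColdIn` -/
theorem m23 {K : ℝ} (hK : K ≤ 0) (n : ℕ) {ε : ℝ} (hε : 0 < ε) :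
    ∃ η s₀ : ℝ, 0 < η ∧ η ≤ 1 / 2 ∧ 0 < s₀ ∧ s₀ ≤ 1 ∧
    ∀ (X : Type u) [MetricSpace X] [MeasurableSpace X] [BorelSpace X] (m : Measure X)
      (P : ℝ → X → Measure X), IsRCD K (n + 1) X m → HeatKer K n m P →
      ∀ (z₀ : X) (R a : ℝ), 0 < R → R ≤ s₀ → 0 < a →
      (∀ z ∈ closedBall z₀ (R / η), ∀ r, η * R ≤ r → r ≤ R / η →
        (1 - η) * a ≤ th n m r z ∧ th n m r z ≤ (1 + η) * a) →
      ∃ F : X → Lp ℝ 2 m, ∀ z ∈ closedBall z₀ R, ∀ z' ∈ closedBall z₀ R,
        |‖F z - F z'‖ - dist z z'| ≤ ε * R := by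
  obtain ⟨η, hη, hη1, H⟩ := hilbert_of_ratio.{u} n hε
  have hK1 : 0 < 1 + -K := by linarith
  refine ⟨η, η / (1 + -K), hη, hη1, by positivity, ?_, ?_⟩
  · rw [div_le_one (by linarith)]; linarith
  · intro X _ _ _ m P hX hker z₀ R a hR hRs ha hrat
    refine H X m K P hK hX hker z₀ R a hR ?_ ha hrat
    rw [le_div_iff₀ (by linarith)] at hRs
    have h1 : R ≤ 1 := by nlinarith
    nlinarith [mul_nonneg (neg_nonneg.2 hK) hR.le]

/-- **Almost constant volume ratios give Euclidean balls**, with constants independent of `K`. -/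
theorem eucl_of_ratio (n : ℕ) {ε : ℝ} (hε : 0 < ε) :
    ∃ η : ℝ, 0 < η ∧ η ≤ 1 / 25 ∧
    ∀ (X : Type u) [MetricSpace X] [MeasurableSpace X] [BorelSpace X] (m : Measure X) (K : ℝ)
      (P : ℝ → X → Measure X), K ≤ 0 → IsRCD K (n + 1) X m → HeatKer K n m P →
      ∀ (z : X) (s a : ℝ), 0 < s → -K * s ^ 2 ≤ η → 0 < a →
      (∀ y ∈ closedBall z (s / η), ∀ r, η * s ≤ r → r ≤ s / η →
        (1 - η) * a ≤ th n m r y ∧ th n m r y ≤ (1 + η) * a) →
      EuclLike n z s ε := by
  obtain ⟨δ₄, hδ₄, hδ₄1, H4⟩ := m4.{u, u} n hε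
  obtain ⟨η₁, hη₁, hη₁1, H3⟩ := hilbert_of_ratio.{u} n (ε := δ₄ / 25) (by positivity)
  set η : ℝ := min (1 / 25) (min (δ₄ / 2) (η₁ / 625)) with hη
  have hη0 : 0 < η := by positivity
  have hη1 : η ≤ 1 / 25 := min_le_left _ _
  have hη2 : η ≤ δ₄ / 2 := (min_le_right _ _).trans (min_le_left _ _)
  have hη3 : η ≤ η₁ / 625 := (min_le_right _ _).trans (min_le_right _ _)
  refine ⟨η, hη0, hη1, ?_⟩
  intro X _ _ _ m K P hK hX hker z s a hs hKs ha hrat
  have hω := omN_pos n
  have := hX.proper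
  have hsη : 25 * s ≤ s / η := by
    rw [le_div_iff₀ hη0]
    nlinarith
  have hsη₁ : 25 * s / η₁ ≤ s / η := by
    rw [div_le_div_iff₀ hη₁ hη0]
    nlinarith
  obtain ⟨F, hF⟩ := H3 X m K P hK hX hker z (25 * s) a (by positivity) (by nlinarith) ha
    (by
      intro y hy r h1 h2
      have h3 := hrat y (closedBall_subset_closedBall hsη₁ hy) r (by nlinarith) (h2.trans hsη₁)
      constructor
      · refine le_trans ?_ h3.1
        gcongr
        linarith
      · refine h3.2.trans ?_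
        gcongr
        linarith)
  refine H4 X m (Lp ℝ 2 m) F z s a hX.geod (fun y r => (ball_fin hX y r).lt_top) hs ha ?_ ?_
  · intro y hy y' hy'
    refine (hF y hy y' hy').trans (le_of_eq ?_)
    ring
  · intro y hy r h1 h2
    have hy' : y ∈ closedBall z (s / η) := closedBall_subset_closedBall (by linarith) hy
    have h3 : η * s ≤ r := le_trans (by gcongr; linarith) h1
    have h4 : r ≤ s / η := by linarith
    have hr : 0 < r := lt_of_lt_of_le (by positivity) h3
    obtain ⟨h5, h6⟩ := hrat y hy' r h3 h4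
    rw [le_th_iff hr] at h5
    rw [th_le_iff hr] at h6
    have h7 : 0 < a * (omN n * r ^ (n + 1)) := by positivity
    constructor
    · refine le_trans ?_ h5
      nlinarith
    · refine h6.trans ?_
      nlinarith

end Pool.Agent.BDRY
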