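import Pool.Agent.Work.MP_209cb6_gt.B2.EndMain
import Pool.Agent.Work.MP_209cb6_gt.B2.M23
import Pool.Agent.Work.MP_209cb6_gt.B2.ColdA
import Pool.Agent.Work.MP_209cb6_gt.B2.HKof
import Pool.Agent.Work.MP_209cb6_gt.B2.Eucl
import Pool.Agent.Work.MP_209cb6_gt.B2.Embed
import Pool.Agent.Work.MP_209cb6_gt.Col.Colding
import Pool.Agent.Work.MP_209cb6_gt.ContrRcd

/-!
# The Colding input `ColIn`
-/

set_option autoImplicit false

open MeasureTheory MeasureTheory.Measure Metric Set Filter Topology ProbabilityTheory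
open scoped ENNReal NNReal

namespace Pool.Agent.BDRY

universe u

/-- The window: on the ball of radius `R / η` all volume ratios at the scales in
`[η R, R / η]` are within the factor `1 ± η` of `a`. -/
def Window {X : Type u} [MetricSpace X] [MeasurableSpace X] (n : ℕ) (m : Measure X)
    (η a R : ℝ) (z₀ : X) : Prop :=
  ∀ z ∈ closedBall z₀ (R / η), ∀ r, η * R ≤ r → r ≤ R / η →
    (1 - η) * a ≤ th n m r z ∧ th n m r z ≤ (1 + η) * a

theorem Window.scale {X : Type u} [MetricSpace X] [MeasurableSpace X] {n : ℕ} {m : Measure X}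
    {η a R : ℝ} {z₀ : X} (h : Window n m η a R z₀) {η' L : ℝ} (hL : 1 ≤ L) (hη : 0 < η)
    (hη' : 0 < η') (hR : 0 < R) (ha : 0 ≤ a) (hηη : η * L ≤ η') :
    Window n m η' a (L * R) z₀ := by
  have hL0 : 0 < L := by linarith
  have h1 : η ≤ η' := by nlinarith
  have h2 : L * R / η' ≤ R / η := by
    rw [div_le_div_iff₀ hη' hη]
    nlinarith
  intro z hz r hr1 hr2
  obtain ⟨h3, h4⟩ := h z (closedBall_subset_closedBall h2 hz) r
    (le_trans (by
      calc η * R ≤ η' * R := by gcongr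
        _ ≤ η' * (L * R) := by
          have : R ≤ L * R := by nlinarith
          gcongr) hr1) (hr2.trans h2)
  constructor
  · refine le_trans ?_ h3
    exact mul_le_mul_of_nonneg_right (by linarith) ha
  · refine h4.trans ?_
    exact mul_le_mul_of_nonneg_right (by linarith) ha

/-- **M23**: on a window the ball is nearly isometric to a subset of a Hilbert space. -/
def M23Stmt (K : ℝ) (n : ℕ) : Prop := ∀ ε : ℝ, 0 < ε → ∃ η s₀ : ℝ, 0 < η ∧ η ≤ 1 / 2 ∧ 0 < s₀ ∧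
  s₀ ≤ 1 ∧ ∀ (X : Type u) [MetricSpace X] [MeasurableSpace X] [BorelSpace X] (m : Measure X)
    (P : ℝ → X → Measure X), IsRCD K (n + 1) X m → HeatKer K n m P → ∀ (z₀ : X) (R a : ℝ),
    0 < R → R ≤ s₀ → 0 < a → Window n m η a R z₀ →
    ∃ F : X → Lp ℝ 2 m, ∀ z ∈ closedBall z₀ R, ∀ z' ∈ closedBall z₀ R,
      |‖F z - F z'‖ - dist z z'| ≤ ε * R

/-- A window is nearly Euclidean. -/
theorem eucl_window_of {K : ℝ} {n : ℕ} (h23 : M23Stmt.{u} K n) {δ : ℝ} (hδ : 0 < δ) :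
    ∃ η s₀ : ℝ, 0 < η ∧ η ≤ 1 / 2 ∧ 0 < s₀ ∧ s₀ ≤ 1 ∧
    ∀ (X : Type u) [MetricSpace X] [MeasurableSpace X] [BorelSpace X] (m : Measure X)
      (P : ℝ → X → Measure X), IsRCD K (n + 1) X m → HeatKer K n m P → ∀ (z₀ : X) (R a : ℝ),
      0 < R → R ≤ s₀ → 0 < a → Window n m η a R z₀ → EuclLike n z₀ R δ := by
  obtain ⟨δ₄, hδ₄, hδ₄1, h4⟩ := m4.{u, u} n hδ
  obtain ⟨η₁, s₁, hη₁, hη₁2, hs₁, hs₁1, h3⟩ := h23 (δ₄ / 25) (by positivity)
  set η : ℝ := min (η₁ / 25) (min δ₄ (1 / 15)) with hη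
  have hη0 : 0 < η := lt_min (by positivity) (lt_min hδ₄ (by norm_num))
  have hηa : η ≤ η₁ / 25 := min_le_left _ _
  have hηb : η ≤ δ₄ := (min_le_right _ _).trans (min_le_left _ _)
  have hηc : η ≤ 1 / 15 := (min_le_right _ _).trans (min_le_right _ _)
  refine ⟨η, s₁ / 25, hη0, by linarith, by positivity, by linarith, ?_⟩
  intro X _ _ _ m P hX hP z₀ R a hR hRs ha hW
  have hproper := hX.proper
  obtain ⟨F, hF⟩ := h3 X m P hX hP z₀ (25 * R) a (by positivity) (by linarith) ha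
    (hW.scale (by norm_num) hη0 hη₁ hR ha.le (by linarith))
  refine h4 X m (Lp ℝ 2 m) F z₀ R a hX.geod
    (fun y R => lt_top_iff_ne_top.2 (ball_fin hX y R)) hR ha ?_ ?_
  · intro y hy z hz
    refine (hF y hy z hz).trans (le_of_eq (by ring))
  · intro y hy r hr1 hr2
    have hr0 : 0 < r := lt_of_lt_of_le (mul_pos hδ₄ hR) hr1
    have h15 : 15 * R ≤ R / η := by
      rw [le_div_iff₀ hη0]
      nlinarith
    obtain ⟨h5, h6⟩ := hW y (closedBall_subset_closedBall (by linarith) hy) r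
      (le_trans (by gcongr) hr1) (hr2.trans h15)
    rw [le_th_iff hr0] at h5
    rw [th_le_iff hr0] at h6
    have h7 : 0 ≤ a * (omN n * r ^ (n + 1)) := by
      have := omN_pos n
      positivity
    constructor
    · refine le_trans ?_ h5
      rw [mul_assoc (1 - η)]
      exact mul_le_mul_of_nonneg_right (by linarith) h7
    · refine h6.trans ?_
      rw [mul_assoc (1 + η)]
      exact mul_le_mul_of_nonneg_right (by linarith) h7

/-- **The Colding input.** -/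
theorem coldIn_of {K : ℝ} (hK : K ≤ 0) {n : ℕ} (h23 : M23Stmt.{u} K n) {κ : ℝ} (hκ : κ < 1) :
    ∃ η₀ ζ₀ δ₀ s₀ : ℝ, 0 < η₀ ∧ η₀ < 1 ∧ 0 < ζ₀ ∧ 0 < δ₀ ∧ 0 < s₀ ∧ s₀ ≤ 1 ∧
    ∀ (X : Type u) [MetricSpace X] [MeasurableSpace X] [BorelSpace X]
      (P : ℝ → X → Measure X), IsRCD K (n + 1) X (μHE[n + 1] : Measure X) →
      HeatKer K n (μHE[n + 1] : Measure X) P →
      ColIn n η₀ ζ₀ δ₀ s₀ κ (μHE[n + 1] : Measure X) := by
  obtain ⟨A, c, hA, hc, hc1, hcon⟩ := contr_of_rcd.{u} hK n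
  obtain ⟨Nc, c0, hNc, hc0, hhk⟩ := hk_of.{u} hK n (D0 := 1) zero_le_one
  obtain ⟨L, d, hL, hd, hcol⟩ := colding.{u} n (A := A) (ε := 1 - κ) hc hNc.le hc0 (by linarith)
  obtain ⟨η₁, s₁, hη₁, hη₁2, hs₁, hs₁1, heu⟩ := eucl_window_of h23 hd
  have hL0 : 0 < L := by linarith
  set η : ℝ := η₁ / L with hη
  have hη0 : 0 < η := by positivity
  have hη2 : η ≤ 1 / 2 := by
    rw [hη, div_le_iff₀ hL0]
    linarith
  obtain ⟨η₀, ζ₀, δ₀, s₂, hη₀, hη₀η, hζ₀, hδ₀, hs₂, hs₂1, hwin⟩ := ratio_window.{u} hK n hη0 hη2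
  refine ⟨η₀, ζ₀, δ₀, min s₂ (min (s₁ / L) (1 / L)), hη₀, by linarith, hζ₀, hδ₀,
    lt_min hs₂ (lt_min (by positivity) (by positivity)), (min_le_left _ _).trans hs₂1, ?_⟩
  intro X _ _ _ P hX hP y s hs hss hset
  have hs2 : s ≤ s₂ := hss.trans (min_le_left _ _)
  have hs1 : L * s ≤ s₁ := by
    have : s ≤ s₁ / L := hss.trans ((min_le_right _ _).trans (min_le_left _ _))
    rw [le_div_iff₀ hL0] at this
    linarith
  have hs3 : L * s ≤ 1 := by
    have : s ≤ 1 / L := hss.trans ((min_le_right _ _).trans (min_le_right _ _))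
    rw [le_div_iff₀ hL0] at this
    linarith
  have hW : Window n (μHE[n + 1] : Measure X) η
      (th n (μHE[n + 1] : Measure X) (s / η₀) y) s y :=
    hwin X (μHE[n + 1] : Measure X) hX y s hs hs2 hset
  have ha : 0 < th n (μHE[n + 1] : Measure X) (s / η₀) y := th_pos hX y (by positivity)
  have hW' := hW.scale (η' := η₁) (L := L) (by linarith) hη0 hη₁ hs ha.le
    (le_of_eq (by rw [hη]; field_simp))
  obtain ⟨f, hf0, hf1, hf2⟩ := heu X (μHE[n + 1] : Measure X) P hX hP y (L * s) _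
    (by positivity) hs1 ha hW'
  have hfin := hcol X (hcon X _ hX) 1
    (fun t ht ht1 => ⟨kerP hP.sym ht, hhk X _ P hX hP.sym hP.flow t ht ht1⟩) y (L * s)
    (by positivity) hs3 hs3 f hf0
    (fun a ha b hb => by rw [dist_eq_norm (f a)]; exact hf1 a ha b hb)
    (fun z hz => by
      obtain ⟨a, ha, h⟩ := hf2 z hz
      exact ⟨a, ha, by rw [dist_eq_norm]; exact h⟩)
  have hLs : L * s / L = s := by field_simp
  rw [hLs, sub_sub_cancel] at hfin
  rw [le_th_iff hs]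
  exact (ENNReal.ofReal_le_iff_le_toReal (ball_fin hX y s)).1 hfin

/-- A window is nearly Euclidean. -/
theorem eucl_window {K : ℝ} (hK : K ≤ 0) (n : ℕ) {δ : ℝ} (hδ : 0 < δ) :
    ∃ η s₀ : ℝ, 0 < η ∧ η ≤ 1 / 2 ∧ 0 < s₀ ∧ s₀ ≤ 1 ∧
    ∀ (X : Type u) [MetricSpace X] [MeasurableSpace X] [BorelSpace X] (m : Measure X)
      (P : ℝ → X → Measure X), IsRCD K (n + 1) X m → HeatKer K n m P → ∀ (z₀ : X) (R a : ℝ),
      0 < R → R ≤ s₀ → 0 < a → Window n m η a R z₀ → EuclLike n z₀ R δ :=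
  eucl_window_of (fun _ hε => m23.{u} hK n hε) hδ

/-- **The Colding input**: item (5) of the end-game. -/
theorem coldStmt {K : ℝ} (hK : K ≤ 0) (n : ℕ) : ColdStmt.{u} K n := by
  intro κ hκ
  obtain ⟨η₀, ζ₀, δ₀, s₀, h1, h2, h3, h4, h5, -, h⟩ :=
    coldIn_of.{u} hK (n := n) (fun _ hε => m23.{u} hK n hε) hκ
  exact ⟨η₀, ζ₀, δ₀, s₀, h1, h2, h3, h4, h5, h⟩

end Pool.Agent.BDRY
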