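import Pool.Agent.Work.MP_209cb6_gt.Defs

/-!
# B2, module LIT (a): a characterisation of the real line

A proper geodesic space without three-point stars in which every point is, at every scale, near the
middle of a segment, is isometric to the real line.
-/

set_option autoImplicit false

open MeasureTheory MeasureTheory.Measure Metric Set Filter Topology
open scoped ENNReal NNReal

namespace Pool.Agent.BDRY

universe u

section line
variable {Z : Type u} [MetricSpace Z]

/-- the metric segment -/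
def lzSeg (p q : Z) : Set Z := {c | dist p c + dist c q = dist p q}

theorem lz_mem {p q c : Z} : c ∈ lzSeg p q ↔ dist p c + dist c q = dist p q := Iff.rfl

theorem lz_left (p q : Z) : p ∈ lzSeg p q := by simp [lzSeg]
theorem lz_right (p q : Z) : q ∈ lzSeg p q := by simp [lzSeg]

theorem lz_compact [ProperSpace Z] (p q : Z) : IsCompact (lzSeg p q) := by
  refine IsCompact.of_isClosed_subset (isCompact_closedBall p (dist p q)) ?_ ?_
  · exact isClosed_eq (by fun_prop) continuous_const
  · intro c hc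
    rw [lz_mem] at hc
    rw [mem_closedBall, dist_comm]
    have : 0 ≤ dist c q := dist_nonneg
    linarith

/-- a point at distance `t` from `a` on the way to `b` -/
theorem lz_pt (hG : Geod Z) (a b : Z) {t : ℝ} (ht : 0 ≤ t) (htd : t ≤ dist a b) :
    ∃ c, dist a c = t ∧ dist c b = dist a b - t := by
  rcases ht.eq_or_lt with h | h
  · exact ⟨a, by simp [h.symm], by simp [h.symm]⟩
  · have hd : 0 < dist a b := h.trans_le htd
    obtain ⟨c, h1, h2⟩ := hG a b (t / dist a b) (by positivity) ((div_le_one hd).2 htd)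
    refine ⟨c, ?_, ?_⟩
    · rw [h1]; field_simp
    · rw [h2]; field_simp

variable (hG : Geod Z)
  (h1 : ∀ (z p₁ p₂ p₃ : Z) (r : ℝ), 0 < r → dist z p₁ = r → dist z p₂ = r → dist z p₃ = r →
    dist p₁ p₂ = 2 * r → r ≤ dist p₃ p₁ → r ≤ dist p₃ p₂ → False)

include hG h1 in
/-- no star: a segment `p q` with a point `c` inside, which is a nearest point for `w` among the
points of the segments `p c`, `c q`, is `w`. -/
theorem lz_star {p q c w : Z} (hc : c ∈ lzSeg p q) (hcp : c ≠ p) (hcq : c ≠ q)
    (hn : ∀ e, (e ∈ lzSeg p c ∨ e ∈ lzSeg c q) → dist w c ≤ dist w e) : c = w := by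
  by_contra hcw
  have hh : 0 < dist w c := dist_pos.2 (Ne.symm hcw)
  have hp : 0 < dist c p := dist_pos.2 hcp
  have hq : 0 < dist c q := dist_pos.2 hcq
  set ρ := min (dist w c) (min (dist c p) (dist c q)) with hρ
  have hρ0 : 0 < ρ := lt_min hh (lt_min hp hq)
  have hρ1 : ρ ≤ dist w c := min_le_left _ _
  have hρ2 : ρ ≤ dist c p := (min_le_right _ _).trans (min_le_left _ _)
  have hρ3 : ρ ≤ dist c q := (min_le_right _ _).trans (min_le_right _ _)
  obtain ⟨p₁, hp1, hp1'⟩ := lz_pt hG c p hρ0.le hρ2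
  obtain ⟨p₂, hp2, hp2'⟩ := lz_pt hG c q hρ0.le hρ3
  obtain ⟨p₃, hp3, hp3'⟩ := lz_pt hG c w hρ0.le (by rw [dist_comm c w]; exact hρ1)
  rw [lz_mem] at hc
  have e1 : p₁ ∈ lzSeg p c := by
    rw [lz_mem, dist_comm p p₁, dist_comm p₁ c, dist_comm p c]; linarith
  have e2 : p₂ ∈ lzSeg c q := by
    rw [lz_mem]; linarith
  refine h1 c p₁ p₂ p₃ ρ hρ0 hp1 hp2 hp3 ?_ ?_ ?_
  · refine le_antisymm ?_ ?_
    · have := dist_triangle_left p₁ p₂ c
      linarith
    · have t1 := dist_triangle p p₁ q
      have t2 := dist_triangle p₁ p₂ q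
      rw [dist_comm p p₁] at t1
      rw [dist_comm p c] at hc
      linarith
  · have t1 := hn p₁ (Or.inl e1)
    have t2 := dist_triangle w p₃ p₁
    rw [dist_comm w p₃] at t2
    rw [dist_comm c w] at hp3'
    linarith
  · have t1 := hn p₂ (Or.inr e2)
    have t2 := dist_triangle w p₃ p₂
    rw [dist_comm w p₃] at t2
    rw [dist_comm c w] at hp3'
    linarith

theorem lz_trans_left {p q c e : Z} (hc : c ∈ lzSeg p q) (he : e ∈ lzSeg p c) :
    e ∈ lzSeg p q := by
  rw [lz_mem] at *
  have t1 := dist_triangle p e q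
  have t2 := dist_triangle e c q
  linarith

theorem lz_trans_right {p q c e : Z} (hc : c ∈ lzSeg p q) (he : e ∈ lzSeg c q) :
    e ∈ lzSeg p q := by
  rw [lz_mem] at *
  have t1 := dist_triangle p e q
  have t2 := dist_triangle p c e
  linarith

include hG h1 in
/-- a point near the middle of a segment is on it -/
theorem lz_on [ProperSpace Z] {p q w a : Z} (ha : a ∈ lzSeg p q) (hp : dist w a < dist w p)
    (hq : dist w a < dist w q) : w ∈ lzSeg p q := by
  obtain ⟨c, hc, hmin⟩ := (lz_compact p q).exists_isMinOn ⟨p, lz_left p q⟩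
    (f := fun c => dist w c) (by fun_prop)
  have h2 : ∀ e ∈ lzSeg p q, dist w c ≤ dist w e := fun e he => hmin he
  have hcp : c ≠ p := by
    rintro rfl
    linarith [h2 a ha]
  have hcq : c ≠ q := by
    rintro rfl
    linarith [h2 a ha]
  have := lz_star hG h1 hc hcp hcq (w := w) (by
    rintro e (he | he)
    · exact h2 e (lz_trans_left hc he)
    · exact h2 e (lz_trans_right hc he))
  rw [← this]
  exact hc

include hG h1 in
/-- two points near the middle of a segment -/
theorem lz_two [ProperSpace Z] {p q w w' : Z} (hw' : w' ∈ lzSeg p q) (hw : w ∈ lzSeg p q)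
    (hp' : w' ≠ p) (hq' : w' ≠ q) (hp : dist w w' < dist w p) (hq : dist w w' < dist w q) :
    |dist p w - dist p w'| = dist w w' := by
  have hcomp : IsCompact (lzSeg p w' ∪ lzSeg w' q) := (lz_compact p w').union (lz_compact w' q)
  obtain ⟨c, hc, hmin⟩ := hcomp.exists_isMinOn ⟨p, Or.inl (lz_left p w')⟩
    (f := fun c => dist w c) (by fun_prop)
  have h2 : ∀ e ∈ lzSeg p w' ∪ lzSeg w' q, dist w c ≤ dist w e := fun e he => hmin he
  have h3 : dist w c ≤ dist w w' := h2 w' (Or.inl (lz_right p w'))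
  have hcp : c ≠ p := by
    rintro rfl
    linarith
  have hcq : c ≠ q := by
    rintro rfl
    linarith
  have hcw : c = w := by
    by_cases hcw' : c = w'
    · subst hcw'
      exact lz_star hG h1 hw' hp' hq' (w := w) h2
    · rcases hc with hc | hc
      · refine lz_star hG h1 hc hcp hcw' (w := w) ?_
        rintro e (he | he)
        · exact h2 e (Or.inl (lz_trans_left hc he))
        · exact h2 e (Or.inl (lz_trans_right hc he))
      · refine lz_star hG h1 hc hcw' hcq (w := w) ?_
        rintro e (he | he)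
        · exact h2 e (Or.inr (lz_trans_left hc he))
        · exact h2 e (Or.inr (lz_trans_right hc he))
  rw [hcw] at hc
  rw [lz_mem] at hw hw'
  rcases hc with hc | hc
  · rw [lz_mem] at hc
    have : dist p w - dist p w' = -dist w w' := by linarith
    rw [this, abs_neg, abs_of_nonneg dist_nonneg]
  · rw [lz_mem, dist_comm w' w] at hc
    have : dist p w - dist p w' = dist w w' := by linarith
    rw [this, abs_of_nonneg dist_nonneg]

variable (h2 : ∀ (z : Z) (r : ℝ), 0 < r → ∃ p q : Z, dist p z ≤ 11 / 10 * r ∧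
    dist q z ≤ 11 / 10 * r ∧ 19 / 10 * r ≤ dist p q ∧
    ∀ c, dist p c = dist p q / 2 → dist c q = dist p q / 2 → dist c z ≤ 1 / 10 * r)

include hG h1 h2 in
/-- every ball is an interval -/
theorem lz_chart [ProperSpace Z] (z : Z) {ρ : ℝ} (hρ : 0 < ρ) : ∃ ψ : Z → ℝ, ψ z = 0 ∧
    (∀ w w', dist w z < ρ → dist w' z < ρ → |ψ w - ψ w'| = dist w w') ∧
    (∀ t, |t| < ρ → ∃ w, dist w z < ρ ∧ ψ w = t) := by
  -- the segment at scale `r = 5 ρ`
  obtain ⟨p, q, hp, hq, hpq, hmid⟩ := h2 z (5 * ρ) (by positivity)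
  have hp1 : 4 * ρ ≤ dist z p := by
    have := dist_triangle p z q
    rw [dist_comm z p]
    rw [dist_comm q z] at hq
    linarith
  have hq1 : 4 * ρ ≤ dist z q := by
    have := dist_triangle p z q
    linarith
  obtain ⟨c, hc1, hc2⟩ := lz_pt hG p q (t := dist p q / 2) (by positivity)
    (by linarith [dist_nonneg (x := p) (y := q)])
  have hc3 : dist c z ≤ 1 / 10 * (5 * ρ) := hmid c hc1 (by linarith)
  have hcs : c ∈ lzSeg p q := by rw [lz_mem]; linarith
  have hz : z ∈ lzSeg p q := by
    refine lz_on hG h1 hcs ?_ ?_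
    · rw [dist_comm z c]; linarith
    · rw [dist_comm z c]; linarith
  -- the points of the ball
  have hball : ∀ w, dist w z < ρ → w ∈ lzSeg p q ∧ 3 * ρ < dist w p ∧ 3 * ρ < dist w q := by
    intro w hw
    have e1 : 3 * ρ < dist w p := by
      have := dist_triangle z w p
      rw [dist_comm z w] at this
      linarith
    have e2 : 3 * ρ < dist w q := by
      have := dist_triangle z w q
      rw [dist_comm z w] at this
      linarith
    exact ⟨lz_on hG h1 hz (by linarith) (by linarith), e1, e2⟩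
  refine ⟨fun w => dist p w - dist p z, sub_self _, ?_, ?_⟩
  · intro w w' hw hw'
    obtain ⟨e1, e2, e3⟩ := hball w hw
    obtain ⟨e1', e2', e3'⟩ := hball w' hw'
    have e4 : dist w w' < 2 * ρ := by
      have := dist_triangle_right w w' z
      linarith
    have := lz_two hG h1 e1' e1 (fun h => by rw [h, dist_self] at e2'; linarith)
      (fun h => by rw [h, dist_self] at e3'; linarith) (by linarith) (by linarith)
    rw [← this]
    congr 1
    ring
  · intro t ht
    rw [lz_mem] at hz
    rcases le_total 0 t with h0 | h0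
    · rw [abs_of_nonneg h0] at ht
      obtain ⟨w, hw1, hw2⟩ := lz_pt hG z q h0 (by linarith)
      refine ⟨w, by rw [dist_comm]; linarith, ?_⟩
      have t1 := dist_triangle p z w
      have t2 := dist_triangle p w q
      simp only
      linarith
    · rw [abs_of_nonpos h0] at ht
      obtain ⟨w, hw1, hw2⟩ := lz_pt hG z p (t := -t) (by linarith) (by linarith)
      refine ⟨w, by rw [dist_comm]; linarith, ?_⟩
      simp only
      rw [dist_comm p w, dist_comm p z]
      linarith

include hG h1 h2 in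
/-- **The real line.** -/
theorem lz_line [ProperSpace Z] [Nonempty Z] : Nonempty (Z ≃ᵢ ℝ) := by
  obtain ⟨z⟩ := ‹Nonempty Z›
  -- the unit point
  obtain ⟨e, he⟩ : ∃ e : Z, dist z e = 1 := by
    obtain ⟨ψ, hψ0, hψ1, hψ2⟩ := lz_chart hG h1 h2 z (ρ := 2) (by norm_num)
    obtain ⟨w, hw, hw1⟩ := hψ2 1 (by norm_num)
    refine ⟨w, ?_⟩
    have := hψ1 z w (by simp) hw
    rw [hψ0, hw1] at this
    rw [← this]; norm_num
  set φ : Z → ℝ := fun w => (dist w z ^ 2 + 1 - dist w e ^ 2) / 2 with hφ
  -- comparison with the charts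
  have hcomp : ∀ ρ : ℝ, 1 < ρ → ∃ (ψ : Z → ℝ) (σ : ℝ), |σ| = 1 ∧
      (∀ w w', dist w z < ρ → dist w' z < ρ → |ψ w - ψ w'| = dist w w') ∧
      (∀ t, |t| < ρ → ∃ w, dist w z < ρ ∧ ψ w = t) ∧ ∀ w, dist w z < ρ → φ w = σ * ψ w := by
    intro ρ hρ
    obtain ⟨ψ, hψ0, hψ1, hψ2⟩ := lz_chart hG h1 h2 z (ρ := ρ) (by linarith)
    have hez : dist e z < ρ := by rw [dist_comm, he]; exact hρ
    have hσ : |ψ e| = 1 := by
      have := hψ1 e z hez (by rw [dist_self]; linarith)
      rw [hψ0, sub_zero] at this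
      rw [this, dist_comm, he]
    refine ⟨ψ, ψ e, hσ, hψ1, hψ2, fun w hw => ?_⟩
    have e1 := hψ1 w z hw (by rw [dist_self]; linarith)
    have e2 := hψ1 w e hw hez
    rw [hψ0, sub_zero] at e1
    have e3 : ψ e ^ 2 = 1 := by rw [← sq_abs, hσ]; norm_num
    simp only [hφ]
    rw [← e1, ← e2, sq_abs, sq_abs]
    nlinarith
  have hiso : Isometry φ := by
    refine Isometry.of_dist_eq fun w w' => ?_
    obtain ⟨ψ, σ, hσ, hψ1, -, hψ3⟩ := hcomp (2 + dist w z + dist w' z)
      (by linarith [dist_nonneg (x := w) (y := z), dist_nonneg (x := w') (y := z)])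
    have ew : dist w z < 2 + dist w z + dist w' z := by
      linarith [dist_nonneg (x := w') (y := z)]
    have ew' : dist w' z < 2 + dist w z + dist w' z := by
      linarith [dist_nonneg (x := w) (y := z)]
    rw [hψ3 w ew, hψ3 w' ew', Real.dist_eq, ← mul_sub, abs_mul, hσ, one_mul, hψ1 w w' ew ew']
  have hsurj : Function.Surjective φ := by
    intro t
    obtain ⟨ψ, σ, hσ, hψ1, hψ2, hψ3⟩ := hcomp (2 + |t|) (by linarith [abs_nonneg t])
    obtain ⟨w, hw, hw1⟩ := hψ2 (σ * t) (by rw [abs_mul, hσ, one_mul]; linarith)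
    refine ⟨w, ?_⟩
    have e3 : σ ^ 2 = 1 := by rw [← sq_abs, hσ]; norm_num
    rw [hψ3 w hw, hw1]
    calc σ * (σ * t) = σ ^ 2 * t := by ring
      _ = t := by rw [e3, one_mul]
  exact ⟨IsometryEquiv.mk' φ (Function.surjInv hsurj) (Function.surjInv_eq hsurj) hiso⟩

end line

end Pool.Agent.BDRY
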