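import Pool.Agent.Work.MP_209cb6_gt.B2.Eucl
import Pool.Agent.Work.MP_209cb6_gt.B2.LineZ

/-!
# B2, module LIT (b): a product `ℝ^n × Z` all of whose balls are near Euclidean balls of dimension
`n + 1` is `ℝ^n × ℝ`
-/

set_option autoImplicit false

open MeasureTheory MeasureTheory.Measure Metric Set Filter Topology
open scoped ENNReal NNReal RealInnerProductSpace

namespace Pool.Agent.BDRY

universe u

/-! ## Configurations of vectors -/

/-- In dimension `n + 1` the unit vectors orthogonal to `n` orthonormal vectors are `± q`. -/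
theorem cf_pm {n : ℕ} {u : Fin n → E n} (hu : Orthonormal ℝ u) {q p : E n} (hq : ⟪q, q⟫ = 1)
    (hqu : ∀ i, ⟪q, u i⟫ = 0) (hpu : ∀ i, ⟪p, u i⟫ = 0) : p = ⟪q, p⟫ • q := by
  set W : Submodule ℝ (E n) := Submodule.span ℝ (range u) with hW
  have h1 : Module.finrank ℝ W = n := by
    rw [hW, finrank_span_eq_card hu.linearIndependent, Fintype.card_fin]
  have h2 : Module.finrank ℝ Wᗮ = 1 := by
    have := W.finrank_add_finrank_orthogonal
    rw [h1, finrank_euclideanSpace, Fintype.card_fin] at this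
    omega
  have hmem : ∀ x : E n, (∀ i, ⟪x, u i⟫ = 0) → x ∈ Wᗮ := by
    intro x hx
    rw [hW, Submodule.mem_orthogonal']
    intro w hw
    induction hw using Submodule.span_induction with
    | mem y hy => obtain ⟨i, rfl⟩ := hy; exact hx i
    | zero => simp
    | add a b _ _ ha hb => rw [inner_add_right, ha, hb, add_zero]
    | smul c a _ ha => rw [inner_smul_right, ha, mul_zero]
  have hq0 : (⟨q, hmem q hqu⟩ : Wᗮ) ≠ 0 := by
    intro h
    have : q = 0 := congrArg Subtype.val h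
    rw [this] at hq
    simp at hq
  obtain ⟨c, hc⟩ := (finrank_eq_one_iff_of_nonzero' _ hq0).1 h2 ⟨p, hmem p hpu⟩
  have hc' : c • q = p := congrArg Subtype.val hc
  rw [← hc', inner_smul_right, hq, mul_one]

/-- the violation of a configuration -/
noncomputable def cfV {n : ℕ} (c : (Fin n → E n) × (Fin 3 → E n)) : ℝ :=
  (∑ i, ∑ j, |⟪c.1 i, c.1 j⟫ - (if i = j then 1 else 0)|) +
    (∑ k, (|⟪c.2 k, c.2 k⟫ - 1| + ∑ i, |⟪c.2 k, c.1 i⟫|)) +
    |⟪c.2 0, c.2 1⟫ + 1| + max 0 (⟪c.2 2, c.2 0⟫ - 1 / 2) + max 0 (⟪c.2 2, c.2 1⟫ - 1 / 2)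

theorem cf_cont {n : ℕ} : Continuous (cfV (n := n)) := by
  unfold cfV
  fun_prop

theorem cf_pos {n : ℕ} (c : (Fin n → E n) × (Fin 3 → E n)) : 0 < cfV c := by
  have h0 : 0 ≤ cfV c := by unfold cfV; positivity
  rcases h0.lt_or_eq with h | h
  · exact h
  exfalso
  have a1 : 0 ≤ ∑ i, ∑ j, |⟪c.1 i, c.1 j⟫ - (if i = j then 1 else 0)| := by positivity
  have a2 : 0 ≤ ∑ k, (|⟪c.2 k, c.2 k⟫ - 1| + ∑ i, |⟪c.2 k, c.1 i⟫|) := by positivity
  have a3 : 0 ≤ |⟪c.2 0, c.2 1⟫ + 1| := abs_nonneg _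
  have a4 : 0 ≤ max 0 (⟪c.2 2, c.2 0⟫ - 1 / 2) := le_max_left _ _
  have a5 : 0 ≤ max 0 (⟪c.2 2, c.2 1⟫ - 1 / 2) := le_max_left _ _
  unfold cfV at h
  have b1 : ∑ i, ∑ j, |⟪c.1 i, c.1 j⟫ - (if i = j then 1 else 0)| = 0 := by linarith
  have b2 : ∑ k, (|⟪c.2 k, c.2 k⟫ - 1| + ∑ i, |⟪c.2 k, c.1 i⟫|) = 0 := by linarith
  have b3 : |⟪c.2 0, c.2 1⟫ + 1| = 0 := by linarith
  have b4 : max 0 (⟪c.2 2, c.2 0⟫ - 1 / 2) = 0 := by linarith
  have b5 : max 0 (⟪c.2 2, c.2 1⟫ - 1 / 2) = 0 := by linarith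
  have c1 : ∀ i j, ⟪c.1 i, c.1 j⟫ = if i = j then 1 else 0 := by
    intro i j
    rw [Finset.sum_eq_zero_iff_of_nonneg (fun i _ => by positivity)] at b1
    have := b1 i (Finset.mem_univ i)
    rw [Finset.sum_eq_zero_iff_of_nonneg (fun i _ => by positivity)] at this
    have := this j (Finset.mem_univ j)
    rw [abs_eq_zero, sub_eq_zero] at this
    exact this
  have c2 : ∀ k, ⟪c.2 k, c.2 k⟫ = 1 ∧ ∀ i, ⟪c.2 k, c.1 i⟫ = 0 := by
    intro k
    rw [Finset.sum_eq_zero_iff_of_nonneg (fun i _ => by positivity)] at b2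
    have hk := b2 k (Finset.mem_univ k)
    have e1 : 0 ≤ |⟪c.2 k, c.2 k⟫ - 1| := abs_nonneg _
    have e2 : 0 ≤ ∑ i, |⟪c.2 k, c.1 i⟫| := by positivity
    have e3 : |⟪c.2 k, c.2 k⟫ - 1| = 0 := by linarith
    have e4 : ∑ i, |⟪c.2 k, c.1 i⟫| = 0 := by linarith
    refine ⟨by rw [abs_eq_zero, sub_eq_zero] at e3; exact e3, fun i => ?_⟩
    rw [Finset.sum_eq_zero_iff_of_nonneg (fun i _ => by positivity)] at e4
    exact abs_eq_zero.1 (e4 i (Finset.mem_univ i))
  have hu : Orthonormal ℝ c.1 := orthonormal_iff_ite.2 c1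
  have d1 : ⟪c.2 0, c.2 1⟫ = -1 := by
    rw [abs_eq_zero] at b3
    linarith
  have d2 : ⟪c.2 2, c.2 0⟫ ≤ 1 / 2 := by
    have := le_max_right 0 (⟪c.2 2, c.2 0⟫ - 1 / 2)
    linarith
  have d3 : ⟪c.2 2, c.2 1⟫ ≤ 1 / 2 := by
    have := le_max_right 0 (⟪c.2 2, c.2 1⟫ - 1 / 2)
    linarith
  have f1 := cf_pm hu (c2 0).1 (c2 0).2 (c2 1).2
  have f2 := cf_pm hu (c2 0).1 (c2 0).2 (c2 2).2
  rw [d1] at f1
  set t := ⟪c.2 0, c.2 2⟫ with ht
  have g1 : t ^ 2 = 1 := by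
    have := (c2 2).1
    rw [f2, inner_smul_left, inner_smul_right, (c2 0).1] at this
    simpa [sq] using this
  have g2 : t ≤ 1 / 2 := by
    rw [real_inner_comm] at d2
    exact d2
  have g3 : -t ≤ 1 / 2 := by
    rw [f1, inner_smul_right, real_inner_comm, ← ht] at d3
    linarith
  nlinarith

theorem cf_gap (n : ℕ) : ∃ δ : ℝ, 0 < δ ∧ ∀ c : (Fin n → E n) × (Fin 3 → E n),
    (∀ i, ‖c.1 i‖ ≤ 2) → (∀ k, ‖c.2 k‖ ≤ 2) → δ ≤ cfV c := by
  obtain ⟨c₀, hc₀, hmin⟩ := (isCompact_closedBall (0 : (Fin n → E n) × (Fin 3 → E n)) 2).exists_isMinOn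
    ⟨0, by simp⟩ cf_cont.continuousOn
  refine ⟨cfV c₀, cf_pos c₀, fun c h1 h2 => hmin ?_⟩
  rw [mem_closedBall, dist_zero_right, Prod.norm_def, max_le_iff]
  exact ⟨(pi_norm_le_iff_of_nonneg (by norm_num)).2 h1, (pi_norm_le_iff_of_nonneg (by norm_num)).2 h2⟩


/-! ## The product -/

theorem cf_ip {n : ℕ} {Y : Type*} [MetricSpace Y] {f : Y → E n} {y : Y} {r δ : ℝ} (hr : 0 < r)
    (hδ : 0 ≤ δ) (hδ1 : δ ≤ 1) (hfy : f y = 0)
    (hf : ∀ a ∈ ball y (3 * r), ∀ b ∈ ball y (3 * r),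
      |dist a b - ‖f a - f b‖| ≤ δ * (3 * r)) {a b : Y} (ha : a ∈ ball y (3 * r))
    (hb : b ∈ ball y (3 * r)) :
    |dist a y ^ 2 + dist b y ^ 2 - dist a b ^ 2 - 2 * ⟪f a, f b⟫| ≤ 100 * δ * r ^ 2 := by
  have hy : y ∈ ball y (3 * r) := mem_ball_self (by positivity)
  have h1 := hf a ha y hy
  have h2 := hf b hb y hy
  have h3 := hf a ha b hb
  rw [hfy, sub_zero] at h1 h2
  have h4 : 2 * ⟪f a, f b⟫ = ‖f a‖ ^ 2 + ‖f b‖ ^ 2 - ‖f a - f b‖ ^ 2 := by
    have := norm_sub_sq_real (f a) (f b)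
    linarith
  rw [h4]
  rw [mem_ball] at ha hb
  have hab : dist a b < 6 * r := by
    have := dist_triangle_right a b y
    linarith
  have key : ∀ s t R : ℝ, 0 ≤ s → 0 ≤ t → s ≤ R → |s - t| ≤ δ * (3 * r) →
      |s ^ 2 - t ^ 2| ≤ δ * (3 * r) * (2 * R + 3 * r) := by
    intro s t R hs ht hsR hst
    have e1 : s ^ 2 - t ^ 2 = (s - t) * (s + t) := by ring
    have e2 : t ≤ R + 3 * r := by
      have := (abs_le.1 hst).1
      nlinarith
    rw [e1, abs_mul, abs_of_nonneg (by positivity : 0 ≤ s + t)]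
    have e3 : s + t ≤ 2 * R + 3 * r := by linarith
    exact mul_le_mul hst e3 (by positivity) (by positivity)
  have k1 := key (dist a y) ‖f a‖ (3 * r) dist_nonneg (norm_nonneg _) ha.le h1
  have k2 := key (dist b y) ‖f b‖ (3 * r) dist_nonneg (norm_nonneg _) hb.le h2
  have k3 := key (dist a b) ‖f a - f b‖ (6 * r) dist_nonneg (norm_nonneg _) hab.le h3
  have e : dist a y ^ 2 + dist b y ^ 2 - dist a b ^ 2 - (‖f a‖ ^ 2 + ‖f b‖ ^ 2 - ‖f a - f b‖ ^ 2) =
      (dist a y ^ 2 - ‖f a‖ ^ 2) + (dist b y ^ 2 - ‖f b‖ ^ 2) -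
        (dist a b ^ 2 - ‖f a - f b‖ ^ 2) := by ring
  rw [e]
  have t1 := abs_sub (dist a y ^ 2 - ‖f a‖ ^ 2 + (dist b y ^ 2 - ‖f b‖ ^ 2))
    (dist a b ^ 2 - ‖f a - f b‖ ^ 2)
  have t2 := abs_add_le (dist a y ^ 2 - ‖f a‖ ^ 2) (dist b y ^ 2 - ‖f b‖ ^ 2)
  calc _ ≤ _ := t1
    _ ≤ δ * (3 * r) * (2 * (3 * r) + 3 * r) + δ * (3 * r) * (2 * (3 * r) + 3 * r) +
        δ * (3 * r) * (2 * (6 * r) + 3 * r) := by linarith
    _ = 99 * δ * r ^ 2 := by ring
    _ ≤ 100 * δ * r ^ 2 := by gcongr; norm_num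

section prod
variable {n : ℕ} {Z : Type u} [MetricSpace Z]

/-- a point of the product -/
def ptz (v : EuclideanSpace ℝ (Fin n)) (z : Z) : WithLp 2 (EuclideanSpace ℝ (Fin n) × Z) :=
  WithLp.toLp 2 (v, z)

theorem wlp_dist_sq (a b : WithLp 2 (EuclideanSpace ℝ (Fin n) × Z)) :
    dist a b ^ 2 = dist a.fst b.fst ^ 2 + dist a.snd b.snd ^ 2 := by
  rw [WithLp.prod_dist_eq_add (by norm_num)]
  rw [ENNReal.toReal_ofNat, Real.rpow_ofNat, Real.rpow_ofNat, ← Real.sqrt_eq_rpow,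
    Real.sq_sqrt (by positivity)]

theorem ptz_dist_sq (v w : EuclideanSpace ℝ (Fin n)) (z z' : Z) :
    dist (ptz v z) (ptz w z') ^ 2 = dist v w ^ 2 + dist z z' ^ 2 := wlp_dist_sq _ _

theorem ptz_dist_right (v : EuclideanSpace ℝ (Fin n)) (z z' : Z) :
    dist (ptz v z) (ptz v z') = dist z z' := by
  have h := ptz_dist_sq v v z z'
  rw [dist_self] at h
  have h2 : dist (ptz v z) (ptz v z') ^ 2 = dist z z' ^ 2 := by rw [h]; ring
  exact (pow_left_inj₀ dist_nonneg dist_nonneg two_ne_zero).1 h2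

theorem ptz_dist_left (v w : EuclideanSpace ℝ (Fin n)) (z : Z) :
    dist (ptz v z) (ptz w z) = dist v w := by
  have h := ptz_dist_sq v w z z
  rw [dist_self] at h
  have h2 : dist (ptz v z) (ptz w z) ^ 2 = dist v w ^ 2 := by rw [h]; ring
  exact (pow_left_inj₀ dist_nonneg dist_nonneg two_ne_zero).1 h2

/-- the frame -/
noncomputable def frm (n : ℕ) (r : ℝ) (i : Fin n) : EuclideanSpace ℝ (Fin n) :=
  EuclideanSpace.single i r

theorem frm_norm {r : ℝ} (hr : 0 ≤ r) (i : Fin n) : ‖frm n r i‖ = r := by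
  rw [frm, PiLp.norm_single, Real.norm_of_nonneg hr]

theorem frm_inner {r : ℝ} (v : EuclideanSpace ℝ (Fin n)) (i : Fin n) :
    ⟪v, frm n r i⟫ = r * v i := by
  rw [frm, EuclideanSpace.inner_single_right]
  simp

/-- the exact inner product of a point and a frame vector, seen from `(0, z)` -/
theorem frm_ip {r : ℝ} (hr : 0 ≤ r) (v : EuclideanSpace ℝ (Fin n)) (z p : Z) (i : Fin n) :
    dist (ptz v p) (ptz 0 z) ^ 2 + dist (ptz (frm n r i) z) (ptz 0 z) ^ 2 -
      dist (ptz v p) (ptz (frm n r i) z) ^ 2 = 2 * r * v i := by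
  rw [ptz_dist_sq, ptz_dist_sq, ptz_dist_sq, dist_self, dist_zero_right, dist_zero_right,
    dist_eq_norm, norm_sub_sq_real, frm_inner, frm_norm hr]
  ring

/-- no star in the second factor -/
theorem cf_noStar (n : ℕ) : ∃ δ : ℝ, 0 < δ ∧ ∀ (Z : Type u) [MetricSpace Z],
    (∀ (y : WithLp 2 (EuclideanSpace ℝ (Fin n) × Z)) (r : ℝ), 0 < r → EuclLike n y r δ) →
    ∀ (z p₁ p₂ p₃ : Z) (r : ℝ), 0 < r → dist z p₁ = r → dist z p₂ = r → dist z p₃ = r →
      dist p₁ p₂ = 2 * r → r ≤ dist p₃ p₁ → r ≤ dist p₃ p₂ → False := by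
  obtain ⟨δ₀, hδ₀, hgap⟩ := cf_gap n
  set M : ℝ := (n * n + 3 * (1 + n) + 3) * 50 + 1 with hM
  have hM0 : 0 < M := by positivity
  refine ⟨min (1 / 100) (δ₀ / (2 * M)), by positivity, ?_⟩
  intro Z _ hE z p₁ p₂ p₃ r hr h1 h2 h3 h12 h31 h32
  set δ := min (1 / 100) (δ₀ / (2 * M)) with hδ
  have hδ0 : 0 < δ := by positivity
  have hδ1 : δ ≤ 1 / 100 := min_le_left _ _
  have hδ2 : δ * M < δ₀ := by
    have : δ ≤ δ₀ / (2 * M) := min_le_right _ _
    calc δ * M ≤ δ₀ / (2 * M) * M := by gcongr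
      _ = δ₀ / 2 := by field_simp
      _ < δ₀ := by linarith
  obtain ⟨f, hf0, hf, -⟩ := hE (ptz 0 z) (3 * r) (by positivity)
  have hf' : ∀ a ∈ ball (ptz 0 z) (3 * r), ∀ b ∈ ball (ptz 0 z) (3 * r),
      |dist a b - ‖f a - f b‖| ≤ δ * (3 * r) := hf
  set q : Fin 3 → Z := ![p₁, p₂, p₃] with hq
  have hqz : ∀ k, dist (ptz (n := n) 0 (q k)) (ptz 0 z) = r := by
    intro k
    rw [ptz_dist_right, dist_comm]
    fin_cases k
    · exact h1
    · exact h2
    · exact h3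
  have hub : ∀ i, dist (ptz (frm n r i) z) (ptz 0 z) = r := by
    intro i
    rw [ptz_dist_left, dist_zero_right, frm_norm hr.le]
  have hqm : ∀ k, ptz (n := n) 0 (q k) ∈ ball (ptz (n := n) 0 z) (3 * r) := fun k => by
    rw [mem_ball, hqz]; linarith
  have hum : ∀ i, ptz (frm n r i) z ∈ ball (ptz (n := n) 0 z) (3 * r) := fun i => by
    rw [mem_ball, hub]; linarith
  -- the configuration
  set c : (Fin n → E n) × (Fin 3 → E n) :=
    (fun i => r⁻¹ • f (ptz (frm n r i) z), fun k => r⁻¹ • f (ptz 0 (q k))) with hc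
  have hr2 : 0 < r ^ 2 := by positivity
  -- normalised inner products
  have hnorm : ∀ a b : WithLp 2 (EuclideanSpace ℝ (Fin n) × Z),
      a ∈ ball (ptz 0 z) (3 * r) → b ∈ ball (ptz 0 z) (3 * r) → ∀ t : ℝ,
      dist a (ptz 0 z) ^ 2 + dist b (ptz 0 z) ^ 2 - dist a b ^ 2 = 2 * t * r ^ 2 →
      |⟪r⁻¹ • f a, r⁻¹ • f b⟫ - t| ≤ 50 * δ := by
    intro a b ha hb t ht
    have h := cf_ip hr hδ0.le (by linarith) hf0 hf' ha hb
    rw [ht] at h
    rw [inner_smul_left, inner_smul_right]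
    simp only [conj_trivial]
    have e : r⁻¹ * (r⁻¹ * ⟪f a, f b⟫) - t = -(2 * t * r ^ 2 - 2 * ⟪f a, f b⟫) / (2 * r ^ 2) := by
      field_simp
      ring
    rw [e, abs_div, abs_neg, abs_of_pos (by positivity : 0 < 2 * r ^ 2), div_le_iff₀ (by positivity)]
    linarith
  have i1 : ∀ i j, |⟪c.1 i, c.1 j⟫ - (if i = j then 1 else 0)| ≤ 50 * δ := by
    intro i j
    refine hnorm _ _ (hum i) (hum j) _ ?_
    rw [hub, hub, ptz_dist_left, dist_eq_norm, norm_sub_sq_real, frm_norm hr.le, frm_norm hr.le,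
      frm_inner]
    by_cases hij : i = j
    · subst hij
      simp [frm]; ring
    · rw [if_neg hij]
      simp [frm, Ne.symm hij]
  have i2 : ∀ k, |⟪c.2 k, c.2 k⟫ - 1| ≤ 50 * δ := by
    intro k
    refine hnorm _ _ (hqm k) (hqm k) _ ?_
    rw [hqz, dist_self]
    ring
  have i3 : ∀ k i, |⟪c.2 k, c.1 i⟫| ≤ 50 * δ := by
    intro k i
    have := hnorm _ _ (hqm k) (hum i) 0 (by
      rw [frm_ip hr.le]
      simp)
    rwa [sub_zero] at this
  have i4 : |⟪c.2 0, c.2 1⟫ + 1| ≤ 50 * δ := by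
    have := hnorm _ _ (hqm 0) (hqm 1) (-1) (by
      rw [hqz, hqz, ptz_dist_right]
      simp only [hq, Matrix.cons_val_zero, Matrix.cons_val_one]
      rw [h12]; ring)
    rwa [sub_neg_eq_add] at this
  have i5 : ∀ k l : Fin 3, r ≤ dist (q k) (q l) → max 0 (⟪c.2 k, c.2 l⟫ - 1 / 2) ≤ 50 * δ := by
    intro k l hkl
    have h5 := hnorm _ _ (hqm k) (hqm l)
      ((r ^ 2 + r ^ 2 - dist (q k) (q l) ^ 2) / (2 * r ^ 2)) (by
        rw [hqz, hqz, ptz_dist_right]
        field_simp)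
    refine max_le (by positivity) ?_
    have h6 : (r ^ 2 + r ^ 2 - dist (q k) (q l) ^ 2) / (2 * r ^ 2) ≤ 1 / 2 := by
      rw [div_le_iff₀ (by positivity)]
      nlinarith
    have h7 := (abs_le.1 h5).2
    linarith
  have hV : cfV c ≤ δ * M := by
    have s1 : ∑ i, ∑ j, |⟪c.1 i, c.1 j⟫ - (if i = j then 1 else 0)| ≤ n * n * (50 * δ) := by
      calc _ ≤ ∑ _i : Fin n, ∑ _j : Fin n, 50 * δ :=
            Finset.sum_le_sum fun i _ => Finset.sum_le_sum fun j _ => i1 i j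
        _ = n * n * (50 * δ) := by simp; ring
    have s2 : ∑ k, (|⟪c.2 k, c.2 k⟫ - 1| + ∑ i, |⟪c.2 k, c.1 i⟫|) ≤ 3 * (1 + n) * (50 * δ) := by
      calc _ ≤ ∑ _k : Fin 3, (50 * δ + ∑ _i : Fin n, 50 * δ) :=
            Finset.sum_le_sum fun k _ => add_le_add (i2 k)
              (Finset.sum_le_sum fun i _ => i3 k i)
        _ = 3 * (1 + n) * (50 * δ) := by simp; ring
    have s3 := i5 2 0 (by simpa [hq] using h31)
    have s4 := i5 2 1 (by simpa [hq] using h32)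
    unfold cfV
    calc _ ≤ n * n * (50 * δ) + 3 * (1 + n) * (50 * δ) + 50 * δ + 50 * δ + 50 * δ := by
          gcongr
      _ ≤ δ * M := by rw [hM]; nlinarith
  have hn1 : ∀ x : E n, |⟪x, x⟫ - 1| ≤ 50 * δ → ‖x‖ ≤ 2 := by
    intro x hx
    rw [real_inner_self_eq_norm_sq] at hx
    have := (abs_le.1 hx).2
    nlinarith [norm_nonneg x]
  have h8 := hgap c (fun i => hn1 _ (by simpa using i1 i i)) (fun k => hn1 _ (i2 k))
  linarith

/-- the middle points in the second factor -/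
theorem cf_mid (n : ℕ) : ∃ δ : ℝ, 0 < δ ∧ ∀ (Z : Type u) [MetricSpace Z],
    (∀ (y : WithLp 2 (EuclideanSpace ℝ (Fin n) × Z)) (r : ℝ), 0 < r → EuclLike n y r δ) →
    ∀ (z : Z) (r : ℝ), 0 < r → ∃ p q : Z, dist p z ≤ 11 / 10 * r ∧
    dist q z ≤ 11 / 10 * r ∧ 19 / 10 * r ≤ dist p q ∧
    ∀ c, dist p c = dist p q / 2 → dist c q = dist p q / 2 → dist c z ≤ 1 / 10 * r := by
  refine ⟨1 / (100000 * (n + 1)), by positivity, ?_⟩
  intro Z _ hE z r hr
  set δ : ℝ := 1 / (100000 * (n + 1)) with hδ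
  have hn0 : (0 : ℝ) ≤ n := Nat.cast_nonneg n
  have hδ0 : 0 < δ := by positivity
  have hδn : n * δ ≤ 1 / 100000 := by
    rw [hδ, mul_one_div, div_le_div_iff₀ (by positivity) (by norm_num)]
    nlinarith
  have hδ1 : δ ≤ 1 / 100000 := by
    rw [hδ, div_le_div_iff₀ (by positivity) (by norm_num)]
    nlinarith
  obtain ⟨f, hf0, hf, hfs⟩ := hE (ptz 0 z) (3 * r) (by positivity)
  have hf' : ∀ a ∈ ball (ptz 0 z) (3 * r), ∀ b ∈ ball (ptz 0 z) (3 * r),
      |dist a b - ‖f a - f b‖| ≤ δ * (3 * r) := hf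
  have hub : ∀ i, dist (ptz (frm n r i) z) (ptz 0 z) = r := by
    intro i
    rw [ptz_dist_left, dist_zero_right, frm_norm hr.le]
  have hum : ∀ i, ptz (frm n r i) z ∈ ball (ptz (n := n) 0 z) (3 * r) := fun i => by
    rw [mem_ball, hub]; linarith
  have hy : ptz (n := n) 0 z ∈ ball (ptz (n := n) 0 z) (3 * r) := mem_ball_self (by positivity)
  -- the normal vector
  obtain ⟨ν, hν1, hν2⟩ : ∃ ν : E n, ‖ν‖ = 1 ∧ ∀ i, ⟪ν, f (ptz (frm n r i) z)⟫ = 0 := by
    set W : Submodule ℝ (E n) := Submodule.span ℝ (range fun i => f (ptz (frm n r i) z)) with hW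
    have h1 : Module.finrank ℝ W ≤ n := by
      have := finrank_range_le_card (R := ℝ) (b := fun i : Fin n => f (ptz (frm n r i) z))
      simpa [hW, Set.finrank] using this
    have h2 : 0 < Module.finrank ℝ Wᗮ := by
      have := W.finrank_add_finrank_orthogonal
      rw [finrank_euclideanSpace, Fintype.card_fin] at this
      omega
    have : Nontrivial Wᗮ := Module.finrank_pos_iff.1 h2
    obtain ⟨v, hv⟩ := exists_ne (0 : Wᗮ)
    have hv0 : (v : E n) ≠ 0 := fun h => hv (Subtype.ext h)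
    have hvn : ‖(v : E n)‖ ≠ 0 := norm_ne_zero_iff.2 hv0
    refine ⟨(‖(v : E n)‖)⁻¹ • (v : E n), ?_, fun i => ?_⟩
    · rw [norm_smul, norm_inv, norm_norm, inv_mul_cancel₀ hvn]
    · rw [inner_smul_left, (Submodule.mem_orthogonal' W (v : E n)).1 v.2 _
        (Submodule.subset_span ⟨i, rfl⟩), mul_zero]
  -- the points over `± r ν`
  have hpt : ∀ σ : ℝ, |σ| = 1 → ∃ a : WithLp 2 (EuclideanSpace ℝ (Fin n) × Z),
      a ∈ ball (ptz 0 z) (3 * r) ∧ ‖f a - (σ * r) • ν‖ ≤ δ * (3 * r) := by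
    intro σ hσ
    refine hfs _ ?_
    rw [norm_smul, norm_mul, hν1, Real.norm_eq_abs, hσ, Real.norm_of_nonneg hr.le]
    nlinarith
  -- their properties
  have hprop : ∀ σ : ℝ, |σ| = 1 → ∀ a : WithLp 2 (EuclideanSpace ℝ (Fin n) × Z),
      a ∈ ball (ptz 0 z) (3 * r) → ‖f a - (σ * r) • ν‖ ≤ δ * (3 * r) →
      |dist a (ptz 0 z) - r| ≤ δ * (6 * r) ∧ ‖a.fst‖ ≤ n * (60 * δ * r) := by
    intro σ hσ a ha hfa
    have e1 : ‖(σ * r) • ν‖ = r := by
      rw [norm_smul, norm_mul, hν1, Real.norm_eq_abs, hσ, Real.norm_of_nonneg hr.le]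
      ring
    have e2 : |‖f a‖ - r| ≤ δ * (3 * r) := by
      have := (abs_norm_sub_norm_le (f a) ((σ * r) • ν)).trans hfa
      rwa [e1] at this
    have e3 := hf' a ha _ hy
    rw [hf0, sub_zero] at e3
    constructor
    · have := abs_sub_le (dist a (ptz 0 z)) ‖f a‖ r
      calc _ ≤ _ := this
        _ ≤ δ * (3 * r) + δ * (3 * r) := add_le_add e3 e2
        _ = _ := by ring
    · -- the coordinates
      have hco : ∀ i, |a.fst i| ≤ 60 * δ * r := by
        intro i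
        have h1 := cf_ip hr hδ0.le (by linarith) hf0 hf' ha (hum i)
        have ha' : a = ptz a.fst a.snd := rfl
        have h2 := frm_ip hr.le a.fst z a.snd i
        rw [← ha'] at h2
        rw [h2] at h1
        have h3 : |⟪f a, f (ptz (frm n r i) z)⟫| ≤ δ * (3 * r) * (r + 3 * δ * r) := by
          have h4 : ⟪f a, f (ptz (frm n r i) z)⟫ =
              ⟪f a - (σ * r) • ν, f (ptz (frm n r i) z)⟫ := by
            rw [inner_sub_left, inner_smul_left, hν2, mul_zero, sub_zero]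
          rw [h4]
          refine (abs_real_inner_le_norm _ _).trans ?_
          have h5 := hf' _ (hum i) _ hy
          rw [hf0, sub_zero, hub] at h5
          have h6 := (abs_le.1 h5).1
          exact mul_le_mul hfa (by linarith) (norm_nonneg _) (by positivity)
        have h7 : |2 * r * a.fst i| ≤ 100 * δ * r ^ 2 + 2 * (δ * (3 * r) * (r + 3 * δ * r)) := by
          have h8 := abs_sub_abs_le_abs_sub (2 * r * a.fst i) (2 * ⟪f a, f (ptz (frm n r i) z)⟫)
          have h9 : |2 * ⟪f a, f (ptz (frm n r i) z)⟫| ≤ 2 * (δ * (3 * r) * (r + 3 * δ * r)) := by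
            rw [abs_mul, abs_two]
            linarith
          linarith
        rw [abs_mul, abs_of_pos (by positivity : 0 < 2 * r)] at h7
        have h10 : 2 * r * |a.fst i| ≤ 2 * r * (60 * δ * r) := by
          refine h7.trans ?_
          have : δ * r ^ 2 * δ ≤ δ * r ^ 2 * (1 / 100000) := by gcongr
          nlinarith [mul_pos hδ0 (pow_pos hr 2)]
        exact le_of_mul_le_mul_left h10 (by positivity)
      calc ‖a.fst‖ ≤ ∑ i, |a.fst i| := by
            have h1 : a.fst = ∑ i, EuclideanSpace.single i (a.fst i) := by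
              ext j
              simp [Finset.sum_apply]
            calc ‖a.fst‖ = ‖∑ i, EuclideanSpace.single i (a.fst i)‖ := by rw [← h1]
              _ ≤ ∑ i, ‖EuclideanSpace.single i (a.fst i)‖ := norm_sum_le _ _
              _ = ∑ i, |a.fst i| := by simp
        _ ≤ ∑ _i : Fin n, 60 * δ * r := Finset.sum_le_sum fun i _ => hco i
        _ = n * (60 * δ * r) := by simp
  obtain ⟨a, ha, hfa⟩ := hpt 1 (by norm_num)
  obtain ⟨b, hb, hfb⟩ := hpt (-1) (by norm_num)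
  obtain ⟨ha1, ha2⟩ := hprop 1 (by norm_num) a ha hfa
  obtain ⟨hb1, hb2⟩ := hprop (-1) (by norm_num) b hb hfb
  have hnr : n * (60 * δ * r) ≤ 60 / 100000 * r := by
    calc n * (60 * δ * r) = (n * δ) * (60 * r) := by ring
      _ ≤ 1 / 100000 * (60 * r) := by gcongr
      _ = _ := by ring
  have hδr : δ * r ≤ 1 / 100000 * r := by gcongr
  have hsnd : ∀ x y : WithLp 2 (EuclideanSpace ℝ (Fin n) × Z), dist x.snd y.snd ≤ dist x y := by
    intro x y
    have := wlp_dist_sq x y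
    exact le_of_sq_le_sq (by nlinarith [sq_nonneg (dist x.fst y.fst)]) dist_nonneg
  have hle : ∀ x y : WithLp 2 (EuclideanSpace ℝ (Fin n) × Z),
      dist x y ≤ dist x.fst y.fst + dist x.snd y.snd := by
    intro x y
    have := wlp_dist_sq x y
    refine le_of_sq_le_sq ?_ (by positivity)
    nlinarith [mul_nonneg (dist_nonneg (x := x.fst) (y := y.fst))
      (dist_nonneg (x := x.snd) (y := y.snd))]
  have hdab : 19 / 10 * r ≤ dist a.snd b.snd ∧ dist a.snd b.snd ≤ (2 + 1 / 1000) * r := by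
    constructor
    · have h1 := hf' a ha b hb
      have h2 : (2 - 1 / 1000) * r ≤ ‖f a - f b‖ := by
        have h3 : ‖(1 * r) • ν - (-1 * r) • ν‖ = 2 * r := by
          rw [← sub_smul, norm_smul, hν1, mul_one]
          rw [show 1 * r - -1 * r = 2 * r by ring, Real.norm_of_nonneg (by positivity)]
        have h4 : ‖(1 * r) • ν - (-1 * r) • ν‖ ≤ ‖f a - f b‖ + ‖f a - (1 * r) • ν‖ +
            ‖f b - (-1 * r) • ν‖ := by
          have : (1 * r) • ν - (-1 * r) • ν = (f a - f b) - (f a - (1 * r) • ν) +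
            (f b - (-1 * r) • ν) := by abel
          rw [this]
          exact (norm_add_le _ _).trans (add_le_add_left (norm_sub_le _ _) _)
        rw [h3] at h4
        linarith
      have h5 := (abs_le.1 h1).1
      have h6 := hle a b
      have h7 : dist a.fst b.fst ≤ ‖a.fst‖ + ‖b.fst‖ := by
        rw [dist_eq_norm]; exact norm_sub_le _ _
      linarith
    · have h1 := hsnd a b
      have h2 := dist_triangle_right a b (ptz 0 z)
      have h3 := (abs_le.1 ha1).2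
      have h4 := (abs_le.1 hb1).2
      linarith
  refine ⟨a.snd, b.snd, ?_, ?_, hdab.1, ?_⟩
  · have h1 := hsnd a (ptz 0 z)
    have h3 := (abs_le.1 ha1).2
    have h4 : (ptz (n := n) 0 z).snd = z := rfl
    rw [h4] at h1
    linarith
  · have h1 := hsnd b (ptz 0 z)
    have h3 := (abs_le.1 hb1).2
    have h4 : (ptz (n := n) 0 z).snd = z := rfl
    rw [h4] at h1
    linarith
  · intro c hc1 hc2
    -- the point `(0, c)`
    have hcz : dist c z ≤ (2 + 1 / 100) * r := by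
      have h1 := hsnd a (ptz 0 z)
      have h3 := (abs_le.1 ha1).2
      have h4 : (ptz (n := n) 0 z).snd = z := rfl
      rw [h4] at h1
      have h5 := dist_triangle_left c z a.snd
      linarith [hdab.2]
    have hC : ptz (n := n) 0 c ∈ ball (ptz (n := n) 0 z) (3 * r) := by
      rw [mem_ball, ptz_dist_right]
      linarith
    -- distances to `a` and `b`
    have hCa : ∀ (x : WithLp 2 (EuclideanSpace ℝ (Fin n) × Z)), ‖x.fst‖ ≤ n * (60 * δ * r) →
        dist c x.snd ≤ (1 + 1 / 1000) * r → dist (ptz 0 c) x ≤ (1 + 2 / 1000) * r := by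
      intro x hx1 hx2
      have h1 := hle (ptz 0 c) x
      have h2 : (ptz (n := n) 0 c).fst = 0 := rfl
      have h3 : (ptz (n := n) 0 c).snd = c := rfl
      rw [h2, h3, dist_comm (0 : EuclideanSpace ℝ (Fin n)), dist_zero_right] at h1
      linarith
    have k1 := hCa a ha2 (by rw [dist_comm, hc1]; linarith [hdab.2])
    have k2 := hCa b hb2 (by rw [hc2]; linarith [hdab.2])
    have l1 : ‖f (ptz 0 c) - r • ν‖ ≤ (1 + 3 / 1000) * r := by
      have h1 := (abs_le.1 (hf' _ hC a ha)).1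
      have h2 : ‖f (ptz 0 c) - r • ν‖ ≤ ‖f (ptz 0 c) - f a‖ + ‖f a - (1 * r) • ν‖ := by
        rw [one_mul]
        exact norm_sub_le_norm_sub_add_norm_sub _ _ _
      linarith
    have l2 : ‖f (ptz 0 c) + r • ν‖ ≤ (1 + 3 / 1000) * r := by
      have h1 := (abs_le.1 (hf' _ hC b hb)).1
      have h2 : ‖f (ptz 0 c) + r • ν‖ ≤ ‖f (ptz 0 c) - f b‖ + ‖f b - (-1 * r) • ν‖ := by
        have : f (ptz 0 c) + r • ν = (f (ptz 0 c) - f b) + (f b - (-1 * r) • ν) := by
          rw [neg_one_mul, neg_smul]; abel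
        rw [this]
        exact norm_add_le _ _
      linarith
    have l3 := parallelogram_law_with_norm ℝ (f (ptz 0 c)) (r • ν)
    have l4 : ‖r • ν‖ = r := by rw [norm_smul, hν1, Real.norm_of_nonneg hr.le, mul_one]
    rw [l4] at l3
    have l5 : ‖f (ptz (n := n) 0 c)‖ ≤ 9 / 100 * r := by
      have m1 : ‖f (ptz 0 c) - r • ν‖ * ‖f (ptz 0 c) - r • ν‖ ≤
          ((1 + 3 / 1000) * r) * ((1 + 3 / 1000) * r) := by gcongr
      have m2 : ‖f (ptz 0 c) + r • ν‖ * ‖f (ptz 0 c) + r • ν‖ ≤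
          ((1 + 3 / 1000) * r) * ((1 + 3 / 1000) * r) := by gcongr
      have m3 : ‖f (ptz (n := n) 0 c)‖ ^ 2 ≤ (9 / 100 * r) ^ 2 := by nlinarith
      exact le_of_sq_le_sq m3 (by positivity)
    have l6 := (abs_le.1 (hf' _ hC _ hy)).2
    rw [hf0, sub_zero, ptz_dist_right] at l6
    linarith

end prod

end Pool.Agent.BDRY
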