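import Mathlib

/-!
# The contact argument

A Lipschitz map `Φ` from a ball `K` into Euclidean space which is almost onto at all small scales
around the points of a set `G` covers the target up to a set of measure `≤ C m (K \ G)`.
-/

set_option autoImplicit false

open MeasureTheory MeasureTheory.Measure Metric Set Filter Topology
open scoped ENNReal NNReal

namespace Pool.Agent.BDRY

universe u

theorem contact_cover {X : Type u} [MetricSpace X] [ProperSpace X] [MeasurableSpace X]
    [BorelSpace X] (m : Measure X) (N : ℕ) (Φ : X → EuclideanSpace ℝ (Fin N)) (x0 : X)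
    (G : Set X) (U : Set (EuclideanSpace ℝ (Fin N))) {R δ v : ℝ} (hδ : 0 < δ)
    (hLip : ∀ a ∈ closedBall x0 R, ∀ b ∈ closedBall x0 R, dist (Φ a) (Φ b) ≤ 2 * dist a b)
    (hnear : ∀ u ∈ U, ∃ a ∈ closedBall x0 R, dist (Φ a) u ≤ δ)
    (hloc : ∀ u ∈ U, ∀ a ∈ closedBall x0 R, dist (Φ a) u ≤ δ → dist a x0 ≤ R - 6 * δ)
    (hgood : ∀ y ∈ G, ∀ r, 0 < r → r ≤ 2 * δ → dist y x0 + 2 * r ≤ R → ∀ w, dist w (Φ y) ≤ r →
      ∃ a ∈ closedBall y (2 * r), dist (Φ a) w < r / 2)
    (hvol : ∀ a ∈ closedBall x0 R, ∀ r, 0 < r → r ≤ δ →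
      ENNReal.ofReal (v * r ^ N) ≤ m (closedBall a r)) (hv : 0 < v) :
    ENNReal.ofReal v * volume (U \ Φ '' closedBall x0 R) ≤
      10 ^ N * volume (closedBall (0 : EuclideanSpace ℝ (Fin N)) 1) *
        m (closedBall x0 R \ G) := by
  set K := closedBall x0 R with hK
  set t := U \ Φ '' K with ht
  have hcont : ContinuousOn Φ K := by
    have : LipschitzOnWith 2 Φ K := LipschitzOnWith.of_dist_le_mul fun a ha b hb => by
      simpa using hLip a ha b hb
    exact this.continuousOn
  have hcomp : IsCompact (Φ '' K) := (isCompact_closedBall x0 R).image_of_continuousOn hcont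
  -- contact points
  have hx : ∀ u : EuclideanSpace ℝ (Fin N), ∃ a : X, u ∈ t → a ∈ K ∧
      dist (Φ a) u = infDist u (Φ '' K) := by
    intro u
    by_cases hu : u ∈ t
    · obtain ⟨a0, ha0, -⟩ := hnear u hu.1
      obtain ⟨y, ⟨a, ha, rfl⟩, hy⟩ := hcomp.exists_infDist_eq_dist ⟨Φ a0, a0, ha0, rfl⟩ u
      exact ⟨a, fun _ => ⟨ha, by rw [hy, dist_comm]⟩⟩
    · exact ⟨x0, fun h => absurd h hu⟩
  choose x hxK using hx
  set ρ : EuclideanSpace ℝ (Fin N) → ℝ := fun u => infDist u (Φ '' K) with hρ
  have hρpos : ∀ u ∈ t, 0 < ρ u := by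
    intro u hu
    obtain ⟨a0, ha0, -⟩ := hnear u hu.1
    exact (hcomp.isClosed.notMem_iff_infDist_pos ⟨Φ a0, a0, ha0, rfl⟩).1 hu.2
  have hρle : ∀ u ∈ t, ρ u ≤ δ := by
    intro u hu
    obtain ⟨a0, ha0, h1⟩ := hnear u hu.1
    have : ρ u ≤ dist u (Φ a0) := infDist_le_dist_of_mem ⟨a0, ha0, rfl⟩
    rw [dist_comm] at this
    exact this.trans h1
  have hxloc : ∀ u ∈ t, dist (x u) x0 ≤ R - 6 * δ := by
    intro u hu
    refine hloc u hu.1 (x u) (hxK u hu).1 ?_
    rw [(hxK u hu).2]
    exact hρle u hu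
  -- no good points near the contact points
  have hbad : ∀ u ∈ t, closedBall (x u) (ρ u / 2) ⊆ K \ G := by
    intro u hu y hy
    have h1 : dist y (x u) ≤ ρ u / 2 := hy
    have h2 := hρle u hu
    have h3 := hρpos u hu
    have h4 := hxloc u hu
    have hyK : y ∈ K := by
      have := dist_triangle y (x u) x0
      show dist y x0 ≤ R
      linarith
    refine ⟨hyK, fun hyG => ?_⟩
    have h5 : dist u (Φ y) ≤ 2 * ρ u := by
      have h6 : dist u (Φ y) ≤ dist u (Φ (x u)) + dist (Φ (x u)) (Φ y) := dist_triangle _ _ _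
      have h7 : dist u (Φ (x u)) = ρ u := by rw [dist_comm, (hxK u hu).2]
      have h8 := hLip (x u) (hxK u hu).1 y hyK
      rw [dist_comm (x u) y] at h8
      linarith
    obtain ⟨a, ha, h9⟩ := hgood y hyG (2 * ρ u) (by linarith) (by linarith) (by
      have := dist_triangle y (x u) x0
      linarith) u h5
    have haK : a ∈ K := by
      have h10 : dist a y ≤ 2 * (2 * ρ u) := ha
      have h11 := dist_triangle a y x0
      have h12 := dist_triangle y (x u) x0
      show dist a x0 ≤ R
      linarith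
    have h13 : ρ u ≤ dist u (Φ a) := infDist_le_dist_of_mem ⟨a, haK, rfl⟩
    rw [dist_comm] at h13
    linarith
  -- Vitali
  obtain ⟨s, hst, hdisj, hcov⟩ := Vitali.exists_disjoint_subfamily_covering_enlargement
    (fun u => closedBall (x u) (ρ u / 2)) t ρ 2 (by norm_num)
    (fun u hu => (hρpos u hu).le) δ hρle (fun u hu => ⟨x u, mem_closedBall_self
      (by have := hρpos u hu; positivity)⟩)
  have hscount : s.Countable := by
    refine hdisj.countable_of_nonempty_interior fun u hu => ?_
    refine Nonempty.mono ball_subset_interior_closedBall ?_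
    exact nonempty_ball.2 (by have := hρpos u (hst hu); positivity)
  have hsub : t ⊆ ⋃ u ∈ s, closedBall (Φ (x u)) (5 * ρ u) := by
    intro u hu
    obtain ⟨j, hj, ⟨z, hz1, hz2⟩, hle⟩ := hcov u hu
    refine mem_iUnion₂.2 ⟨j, hj, ?_⟩
    have hz1' : dist z (x u) ≤ ρ u / 2 := hz1
    have hz2' : dist z (x j) ≤ ρ j / 2 := hz2
    have h1 : dist (x u) (x j) ≤ ρ u / 2 + ρ j / 2 := by
      have := dist_triangle (x u) z (x j)
      rw [dist_comm (x u) z] at this
      linarith
    have h2 := hLip (x u) (hxK u hu).1 (x j) (hxK j (hst hj)).1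
    have h3 : dist u (Φ (x u)) = ρ u := by rw [dist_comm, (hxK u hu).2]
    have h4 := dist_triangle u (Φ (x u)) (Φ (x j))
    have h5 := hρpos j (hst hj)
    show dist u (Φ (x j)) ≤ 5 * ρ j
    linarith
  have hvb : ∀ (c : EuclideanSpace ℝ (Fin N)) (r : ℝ), 0 ≤ r → volume (closedBall c r) =
      ENNReal.ofReal (r ^ N) * volume (closedBall (0 : EuclideanSpace ℝ (Fin N)) 1) := by
    intro c r hr
    rw [Measure.addHaar_closedBall' volume c hr]
    simp
  calc ENNReal.ofReal v * volume t
      ≤ ENNReal.ofReal v * volume (⋃ u ∈ s, closedBall (Φ (x u)) (5 * ρ u)) := by gcongr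
    _ ≤ ENNReal.ofReal v * ∑' u : s, volume (closedBall (Φ (x u)) (5 * ρ u)) := by
        gcongr
        exact measure_biUnion_le _ hscount _
    _ = ∑' u : s, ENNReal.ofReal v * volume (closedBall (Φ (x u)) (5 * ρ u)) := by
        rw [ENNReal.tsum_mul_left]
    _ ≤ ∑' u : s, 10 ^ N * volume (closedBall (0 : EuclideanSpace ℝ (Fin N)) 1) *
          m (closedBall (x u) (ρ u / 2)) := by
        refine ENNReal.tsum_le_tsum fun u => ?_
        have h1 := hρpos u (hst u.2)
        have h2 := hρle u (hst u.2)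
        rw [hvb _ _ (by positivity)]
        have h3 := hvol (x u) (hxK u (hst u.2)).1 (ρ u / 2) (by positivity) (by linarith)
        have h4 : v * (5 * ρ u) ^ N = 10 ^ N * (v * (ρ u / 2) ^ N) := by
          have : (5 * ρ (u : EuclideanSpace ℝ (Fin N))) = 10 * (ρ u / 2) := by ring
          rw [this, mul_pow]
          ring
        have h5 : ENNReal.ofReal v * ENNReal.ofReal ((5 * ρ u) ^ N) =
            10 ^ N * ENNReal.ofReal (v * (ρ u / 2) ^ N) := by
          rw [← ENNReal.ofReal_mul hv.le, h4, ENNReal.ofReal_mul (by positivity),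
            ENNReal.ofReal_pow (by norm_num)]
          norm_num
        rw [← mul_assoc, h5]
        calc 10 ^ N * ENNReal.ofReal (v * (ρ u / 2) ^ N) *
              volume (closedBall (0 : EuclideanSpace ℝ (Fin N)) 1)
            ≤ 10 ^ N * m (closedBall (x u) (ρ u / 2)) *
              volume (closedBall (0 : EuclideanSpace ℝ (Fin N)) 1) := by gcongr
          _ = _ := by ring
    _ = 10 ^ N * volume (closedBall (0 : EuclideanSpace ℝ (Fin N)) 1) *
          ∑' u : s, m (closedBall (x u) (ρ u / 2)) := by rw [ENNReal.tsum_mul_left]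
    _ = 10 ^ N * volume (closedBall (0 : EuclideanSpace ℝ (Fin N)) 1) *
          m (⋃ u ∈ s, closedBall (x u) (ρ u / 2)) := by
        rw [measure_biUnion hscount hdisj fun u _ => isClosed_closedBall.measurableSet]
    _ ≤ _ := by
        gcongr
        exact iUnion₂_subset fun u hu => hbad u (hst hu)

end Pool.Agent.BDRY
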