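import Pool.Agent.Work.MP_209cb6_gt.B2.Stage1

/-!
# Hausdorff measure from the cardinality of separated sets
-/

set_option autoImplicit false

open MeasureTheory MeasureTheory.Measure Metric Set Filter Topology
open scoped ENNReal NNReal

namespace Pool.Agent.BDRY

universe u

theorem hausdorff_of_count {X : Type u} [MetricSpace X] [MeasurableSpace X] [BorelSpace X] (n : ℕ)
    {G : Set X} (hG : TotallyBounded G) {K σ₀ : ℝ} (hσ₀ : 0 < σ₀)
    (h : ∀ σ, 0 < σ → σ ≤ σ₀ → ∀ F : Finset X, (∀ w ∈ F, w ∈ G) →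
      (∀ w ∈ F, ∀ w' ∈ F, w ≠ w' → σ ≤ dist w w') → (F.card : ℝ) * σ ^ n ≤ K) :
    (μH[(n : ℝ)] : Measure X) G ≤ ENNReal.ofReal (2 ^ n) * ENNReal.ofReal K := by
  have hσ : ∀ k : ℕ, (0 : ℝ) < min σ₀ (1 / (k + 1)) := fun k => lt_min hσ₀ (by positivity)
  choose F hFG hsep hcov using fun k : ℕ => exists_sep_net hG (hσ k)
  have hdiam : ∀ (k : ℕ) (x : F k), ediam (closedBall (x : X) (min σ₀ (1 / ((k : ℝ) + 1)))) ≤
      ENNReal.ofReal (2 * min σ₀ (1 / ((k : ℝ) + 1))) := by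
    intro k x
    refine ediam_le fun y hy z hz => ?_
    rw [edist_dist]
    refine ENNReal.ofReal_le_ofReal ?_
    rw [mem_closedBall] at hy hz
    have h := dist_triangle_right y z (x : X)
    linarith
  have hr : Tendsto (fun k : ℕ => ENNReal.ofReal (2 * (1 / ((k : ℝ) + 1)))) atTop (𝓝 0) := by
    have h1 : Tendsto (fun k : ℕ => 2 * (1 / ((k : ℝ) + 1))) atTop (𝓝 (2 * 0)) :=
      tendsto_one_div_add_atTop_nhds_zero_nat.const_mul 2
    have h2 := ENNReal.tendsto_ofReal h1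
    simpa using h2
  refine (hausdorffMeasure_le_liminf_sum (ι := fun k => F k) (n : ℝ) G
    (fun k : ℕ => ENNReal.ofReal (2 * (1 / ((k : ℝ) + 1)))) hr
    (fun k x => closedBall (x : X) (min σ₀ (1 / ((k : ℝ) + 1)))) ?_
    (Eventually.of_forall fun k y hy => ?_)).trans ?_
  · refine Eventually.of_forall fun k x => (hdiam k x).trans (ENNReal.ofReal_le_ofReal ?_)
    have := min_le_right σ₀ (1 / ((k : ℝ) + 1))
    linarith
  · obtain ⟨w, hw, hyw⟩ := hcov k y hy
    exact mem_iUnion.2 ⟨⟨w, hw⟩, hyw.le⟩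
  · refine liminf_le_of_le (by isBoundedDefault) fun b hb => ?_
    obtain ⟨k, hk⟩ := hb.exists
    refine hk.trans ?_
    have h3 := h _ (hσ k) (min_le_left _ _) (F k) (hFG k) (hsep k)
    calc ∑ x : F k, ediam (closedBall (x : X) (min σ₀ (1 / ((k : ℝ) + 1)))) ^ (n : ℝ)
        ≤ ∑ x : F k, ENNReal.ofReal (2 ^ n) * ENNReal.ofReal ((min σ₀ (1 / ((k : ℝ) + 1))) ^ n) := by
          refine Finset.sum_le_sum fun x _ => ?_
          rw [ENNReal.rpow_natCast]
          refine (pow_le_pow_left₀ zero_le (hdiam k x) n).trans_eq ?_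
          rw [← ENNReal.ofReal_pow (by have := (hσ k).le; positivity),
            ← ENNReal.ofReal_mul (by positivity), mul_pow]
      _ = ENNReal.ofReal (2 ^ n) *
            ENNReal.ofReal (((F k).card : ℝ) * (min σ₀ (1 / ((k : ℝ) + 1))) ^ n) := by
          rw [Finset.sum_const, nsmul_eq_mul, Finset.card_univ, Fintype.card_coe,
            ENNReal.ofReal_mul (by positivity), ENNReal.ofReal_natCast]
          ring
      _ ≤ ENNReal.ofReal (2 ^ n) * ENNReal.ofReal K := by gcongr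

theorem muHE_of_count (n : ℕ) : ∃ D : ℝ, 0 < D ∧ ∀ (X : Type u) [MetricSpace X]
    [MeasurableSpace X] [BorelSpace X] (G : Set X), TotallyBounded G → ∀ (K σ₀ : ℝ), 0 < σ₀ →
    (∀ σ, 0 < σ → σ ≤ σ₀ → ∀ F : Finset X, (∀ w ∈ F, w ∈ G) →
      (∀ w ∈ F, ∀ w' ∈ F, w ≠ w' → σ ≤ dist w w') → (F.card : ℝ) * σ ^ n ≤ K) →
    (μHE[n] : Measure X) G ≤ ENNReal.ofReal (D * K) := by
  set c : ℝ≥0 := addHaarScalarFactor (volume : Measure (EuclideanSpace ℝ (Fin n))) μH[n] with hc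
  have hc0 : c ≠ 0 := addHaarScalarFactor_volume_hausdorffMeasure_ne_zero n
  have hcpos : (0 : ℝ) < c := by exact_mod_cast pos_iff_ne_zero.2 hc0
  refine ⟨c * 2 ^ n, by positivity, ?_⟩
  intro X _ _ _ G hG K σ₀ hσ₀ hF
  have h := hausdorff_of_count n hG hσ₀ hF
  rw [euclideanHausdorffMeasure_def, ← hc, Measure.smul_apply, ENNReal.smul_def, smul_eq_mul,
    mul_assoc, ENNReal.ofReal_mul hcpos.le, ENNReal.ofReal_mul (by positivity),
    ENNReal.ofReal_coe_nnreal]
  gcongr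

end Pool.Agent.BDRY
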