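import Pool.Agent.Work.MP_209cb6_gt.Cover

/-!
# B2: from packing bounds at one common scale to a bound of the Hausdorff measure
-/

set_option autoImplicit false

open MeasureTheory MeasureTheory.Measure Metric Set Filter Topology
open scoped ENNReal NNReal

namespace Pool.Agent.BDRY

universe u

/-- A maximal separated family, from a bound for the number of its points. -/
theorem exists_max_sep {X : Type u} [MetricSpace X] (G : Set X) {σ : ℝ} (hσ : 0 < σ) (M : ℕ)
    (hF : ∀ F : Finset X, (∀ x ∈ F, x ∈ G) →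
      (∀ x ∈ F, ∀ y ∈ F, x ≠ y → σ ≤ dist x y) → F.card ≤ M) :
    ∃ F : Finset X, (∀ x ∈ F, x ∈ G) ∧ (∀ x ∈ F, ∀ y ∈ F, x ≠ y → σ ≤ dist x y) ∧
      ∀ a ∈ G, ∃ x ∈ F, dist a x < σ := by
  classical
  by_contra hcon
  push Not at hcon
  have hind : ∀ k : ℕ, ∃ F : Finset X, (∀ x ∈ F, x ∈ G) ∧
      (∀ x ∈ F, ∀ y ∈ F, x ≠ y → σ ≤ dist x y) ∧ k ≤ F.card := by
    intro k
    induction k with
    | zero => exact ⟨∅, by simp, by simp, le_rfl⟩
    | succ k ih =>
      obtain ⟨F, h1, h2, h3⟩ := ih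
      obtain ⟨a, haG, ha⟩ := hcon F h1 h2
      have haF : a ∉ F := fun h => by
        have := ha a h
        rw [dist_self] at this
        linarith
      refine ⟨insert a F, ?_, ?_, ?_⟩
      · intro x hx
        rcases Finset.mem_insert.1 hx with rfl | hx
        · exact haG
        · exact h1 x hx
      · intro x hx y hy hxy
        rcases Finset.mem_insert.1 hx with hx' | hx'
        · rcases Finset.mem_insert.1 hy with hy' | hy'
          · exact absurd (hx'.trans hy'.symm) hxy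
          · rw [hx']; exact ha y hy'
        · rcases Finset.mem_insert.1 hy with hy' | hy'
          · rw [hy', dist_comm]; exact ha x hx'
          · exact h2 x hx' y hy' hxy
      · rw [Finset.card_insert_of_notMem haF]
        omega
  obtain ⟨F, h1, h2, h3⟩ := hind (M + 1)
  exact absurd (hF F h1 h2) (by omega)

/-- The Hausdorff measure of `G`, unnormalised, from a packing bound at arbitrarily small common
scales. -/
theorem coverOne_hausdorff {X : Type u} [MetricSpace X] [MeasurableSpace X] [BorelSpace X] (n : ℕ)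
    (G : Set X) (K : ℝ)
    (hF : ∀ δ : ℝ, 0 < δ → ∃ σ : ℝ, 0 < σ ∧ σ < δ ∧ ∀ F : Finset X, (∀ x ∈ F, x ∈ G) →
      (∀ x ∈ F, ∀ y ∈ F, x ≠ y → σ ≤ dist x y) → (F.card : ℝ) * σ ^ n ≤ K) :
    (μH[(n : ℝ)] : Measure X) G ≤ ENNReal.ofReal (2 ^ n) * ENNReal.ofReal K := by
  have hδ : ∀ k : ℕ, (0 : ℝ) < 1 / (k + 1) := fun k => by positivity
  choose σ hσ hσδ hcard using fun k : ℕ => hF (1 / (k + 1)) (hδ k)
  have hmax : ∀ k, ∃ F : Finset X, (∀ x ∈ F, x ∈ G) ∧
      (∀ x ∈ F, ∀ y ∈ F, x ≠ y → σ k ≤ dist x y) ∧ ∀ a ∈ G, ∃ x ∈ F, dist a x < σ k := by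
    intro k
    refine exists_max_sep G (hσ k) ⌊K / σ k ^ n⌋₊ fun F h1 h2 => ?_
    refine Nat.le_floor ?_
    rw [le_div_iff₀ (pow_pos (hσ k) n)]
    exact hcard k F h1 h2
  choose F hFG hFs hFc using hmax
  have hdiam : ∀ (k : ℕ) (x : F k), ediam (closedBall (x : X) (σ k)) ≤
      ENNReal.ofReal (2 * σ k) := by
    intro k x
    refine ediam_le fun y hy z hz => ?_
    rw [edist_dist]
    refine ENNReal.ofReal_le_ofReal ?_
    rw [mem_closedBall] at hy hz
    have h := dist_triangle_right y z (x : X)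
    linarith
  have hr : Tendsto (fun k : ℕ => ENNReal.ofReal (2 * (1 / ((k : ℝ) + 1)))) atTop (𝓝 0) := by
    have h1 : Tendsto (fun k : ℕ => 2 * (1 / ((k : ℝ) + 1))) atTop (𝓝 (2 * 0)) :=
      tendsto_one_div_add_atTop_nhds_zero_nat.const_mul 2
    have h2 := ENNReal.tendsto_ofReal h1
    simpa using h2
  refine (hausdorffMeasure_le_liminf_tsum (ι := fun k => F k) (n : ℝ) G
    (fun k : ℕ => ENNReal.ofReal (2 * (1 / ((k : ℝ) + 1)))) hr
    (fun k x => closedBall (x : X) (σ k)) ?_ (Eventually.of_forall fun k a ha => ?_)).trans ?_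
  · refine Eventually.of_forall fun k x => (hdiam k x).trans (ENNReal.ofReal_le_ofReal ?_)
    have := hσδ k
    linarith
  · obtain ⟨x, hx, hax⟩ := hFc k a ha
    exact mem_iUnion.2 ⟨⟨x, hx⟩, hax.le⟩
  · refine liminf_le_of_le (by isBoundedDefault) fun b hb => ?_
    obtain ⟨k, hk⟩ := hb.exists
    refine hk.trans ?_
    have h0 := (hσ k).le
    calc ∑' x : F k, ediam (closedBall (x : X) (σ k)) ^ (n : ℝ)
        ≤ ∑' x : F k, ENNReal.ofReal (2 ^ n) * ENNReal.ofReal (σ k ^ n) := by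
          refine ENNReal.tsum_le_tsum fun x => ?_
          rw [ENNReal.rpow_natCast]
          refine (pow_le_pow_left₀ zero_le (hdiam k x) n).trans_eq ?_
          rw [← ENNReal.ofReal_pow (by positivity), ← ENNReal.ofReal_mul (by positivity), mul_pow]
      _ = ENNReal.ofReal (2 ^ n) * ENNReal.ofReal ((F k).card * σ k ^ n) := by
          rw [ENNReal.tsum_mul_left, tsum_fintype, Finset.sum_const, nsmul_eq_mul,
            Finset.card_univ, Fintype.card_coe, ENNReal.ofReal_mul (Nat.cast_nonneg _),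
            ENNReal.ofReal_natCast]
      _ ≤ ENNReal.ofReal (2 ^ n) * ENNReal.ofReal K := by
          gcongr
          exact hcard k (F k) (hFG k) (hFs k)

/-- **Packing at one scale bounds the Hausdorff measure.** -/
theorem coverOne_bound (n : ℕ) : ∃ D : ℝ, 0 < D ∧ ∀ (X : Type u) [MetricSpace X]
    [MeasurableSpace X] [BorelSpace X] (G : Set X) (K : ℝ),
    (∀ δ : ℝ, 0 < δ → ∃ σ : ℝ, 0 < σ ∧ σ < δ ∧ ∀ F : Finset X, (∀ x ∈ F, x ∈ G) →
      (∀ x ∈ F, ∀ y ∈ F, x ≠ y → σ ≤ dist x y) → (F.card : ℝ) * σ ^ n ≤ K) →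
    (μHE[n] : Measure X) G ≤ ENNReal.ofReal (D * K) := by
  set c : ℝ≥0 := addHaarScalarFactor (volume : Measure (EuclideanSpace ℝ (Fin n))) μH[n] with hc
  have hc0 : c ≠ 0 := addHaarScalarFactor_volume_hausdorffMeasure_ne_zero n
  have hcpos : (0 : ℝ) < c := by exact_mod_cast pos_iff_ne_zero.2 hc0
  refine ⟨c * 2 ^ n, by positivity, ?_⟩
  intro X _ _ _ G K hF
  have h := coverOne_hausdorff n G K hF
  rw [euclideanHausdorffMeasure_def, ← hc, Measure.smul_apply, ENNReal.smul_def, smul_eq_mul,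
    mul_assoc, ENNReal.ofReal_mul hcpos.le, ENNReal.ofReal_mul (by positivity), ENNReal.ofReal_coe_nnreal]
  gcongr

/-- An increasing union of sets of bounded Hausdorff measure (no measurability). -/
theorem measure_iUnion_le_of_mono {X : Type u} [MeasurableSpace X] (μ : Measure X)
    {L : ℕ → Set X} (hL : Monotone L) {b : ℝ≥0∞} (h : ∀ j, μ (L j) ≤ b) : μ (⋃ j, L j) ≤ b := by
  rw [hL.measure_iUnion]
  exact iSup_le h

end Pool.Agent.BDRY
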