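import Pool.Agent.Work.MP_209cb6_gt.B2.EndDefs

/-!
# BDRY2: the flux of the squared distance along the heat flow (item (2) of note 4942)

`d(x,p)^2 + 2 N s - ∫ d(z,p)^2 d(P_s δ_x)(z)` is at least `2 N s G / λ` (up to curvature errors) if
the point `y` at fraction `λ` of `[x, p]` is better than `x` in entropy.
-/

set_option autoImplicit false

open MeasureTheory MeasureTheory.Measure Metric Set Filter Topology
open scoped ENNReal NNReal

namespace Pool.Agent.BDRY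

universe u

theorem sK_le_mul_cosh {κ : ℝ} (hκ : κ ≤ 0) {x B : ℝ} (hx : 0 ≤ x) (hxB : x ≤ B) :
    sK κ x ≤ x * Real.cosh (√(-κ) * B) := by
  set q := √(-κ) with hq
  have hq0 : 0 ≤ q := Real.sqrt_nonneg _
  have hB : 0 ≤ B := hx.trans hxB
  have h1 : Real.sinh (q * x) ≤ q * x * Real.cosh (q * x) := by
    have := sinh_sub_le (x := q * x) (y := 0) le_rfl (by positivity)
    rwa [Real.sinh_zero, sub_zero, sub_zero] at this
  have h2 : Real.cosh (q * x) ≤ Real.cosh (q * B) := by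
    rw [Real.cosh_le_cosh, abs_of_nonneg (by positivity), abs_of_nonneg (by positivity)]
    exact mul_le_mul_of_nonneg_left hxB hq0
  rw [sK_eq_sQ hκ, ← hq]
  by_cases hq1 : q = 0
  · rw [hq1, sQ_zero_left]
    have : 1 ≤ Real.cosh (0 * B) := Real.one_le_cosh _
    nlinarith
  · rw [sQ_ne hq1, div_le_iff₀ (lt_of_le_of_ne hq0 (Ne.symm hq1))]
    refine h1.trans ?_
    calc q * x * Real.cosh (q * x) ≤ q * x * Real.cosh (q * B) :=
          mul_le_mul_of_nonneg_left h2 (by positivity)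
      _ = _ := by ring

theorem sK_sq_le_mul {κ : ℝ} (hκ : κ ≤ 0) {x B : ℝ} (hx : 0 ≤ x) (hxB : x ≤ B) :
    sK κ x ^ 2 ≤ Real.cosh (√(-κ) * B) ^ 2 * x ^ 2 := by
  calc sK κ x ^ 2 ≤ (x * Real.cosh (√(-κ) * B)) ^ 2 :=
        pow_le_pow_left₀ (sK_nonneg hκ hx) (sK_le_mul_cosh hκ hx hxB) 2
    _ = _ := by ring

/-- the exponential factors for `0 < s ≤ 1` -/
theorem exp_sub_one_le' {K : ℝ} (hK : K ≤ 0) {s : ℝ} (hs : 0 ≤ s) (hs1 : s ≤ 1) :
    Real.exp (-K * s) - 1 ≤ -K * s * Real.exp (-K) := by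
  have hk : 0 ≤ -K := by linarith
  have h1 : Real.exp (-K * s) ≤ Real.exp (-K) := by
    rw [Real.exp_le_exp]
    nlinarith
  have h3 := exp_sub_one_le (x := -K * s) (mul_nonneg hk hs)
  exact h3.trans (mul_le_mul_of_nonneg_left h1 (mul_nonneg hk hs))

/-- the second moment bound with quadratic error -/
theorem moment_err {K : ℝ} (hK : K ≤ 0) {N : ℕ} (hN : 0 < N) (B : ℝ) {R s : ℝ} (hR : 0 ≤ R)
    (hRB : R ≤ B) (hs : 0 ≤ s) (hs1 : s ≤ 1) :
    R ^ 2 + 4 * (Real.exp (-K * s) - 1) * sK (K / N) (R / 2) ^ 2 +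
        2 * N * Real.exp (-K * s) * s ≤
      R ^ 2 + 2 * N * s + Real.exp (-K) * (Real.cosh (√(-(K / N)) * B) ^ 2 + 2 * N) * (-K) *
        (s * (R ^ 2 + s)) := by
  have hN' : (0 : ℝ) < N := Nat.cast_pos.2 hN
  have hκ : K / N ≤ 0 := div_nonpos_of_nonpos_of_nonneg hK hN'.le
  have hk : 0 ≤ -K := by linarith
  set ch : ℝ := Real.cosh (√(-(K / N)) * B) with hch
  have h2 := exp_sub_one_le' hK hs hs1
  have h3 : sK (K / N) (R / 2) ^ 2 ≤ ch ^ 2 * (R / 2) ^ 2 :=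
    sK_sq_le_mul hκ (by positivity) (by linarith)
  have h4 : (Real.exp (-K * s) - 1) * sK (K / N) (R / 2) ^ 2 ≤
      -K * s * Real.exp (-K) * (ch ^ 2 * (R / 2) ^ 2) := by
    have e0 : 0 ≤ sK (K / N) (R / 2) ^ 2 := sq_nonneg _
    have e1 : 0 ≤ -K * s * Real.exp (-K) := by positivity
    exact (mul_le_mul_of_nonneg_right h2 e0).trans (mul_le_mul_of_nonneg_left h3 e1)
  have h6 : (Real.exp (-K * s) - 1) * s ≤ -K * s * Real.exp (-K) * s :=
    mul_le_mul_of_nonneg_right h2 hs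
  have e3 : Real.exp (-K) * (ch ^ 2 + 2 * N) * (-K) * (s * (R ^ 2 + s)) =
      4 * (-K * s * Real.exp (-K) * (ch ^ 2 * (R / 2) ^ 2)) +
      2 * N * (-K * s * Real.exp (-K) * s) +
      Real.exp (-K) * (-K) * s * (ch ^ 2 * s + 2 * N * R ^ 2) := by ring
  have e4 : 0 ≤ Real.exp (-K) * (-K) * s * (ch ^ 2 * s + 2 * N * R ^ 2) := by positivity
  have e5 : 2 * N * Real.exp (-K * s) * s =
      2 * N * s + 2 * N * ((Real.exp (-K * s) - 1) * s) := by ring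
  have e6 : 2 * N * ((Real.exp (-K * s) - 1) * s) ≤ 2 * N * (-K * s * Real.exp (-K) * s) :=
    mul_le_mul_of_nonneg_left h6 (by positivity)
  linarith

/-- bound of the distance of the observer, without restriction on the times -/
theorem flux_W1 {K : ℝ} (hK : K ≤ 0) {N : ℕ} (hN : 0 < N) : ∃ C r₀ : ℝ, 0 < C ∧ 0 < r₀ ∧ r₀ ≤ 1 ∧
    ∀ R s W : ℝ, 0 ≤ R → R ^ 2 + s ≤ r₀ → 0 ≤ s → 0 ≤ W →
      W ^ 2 ≤ R ^ 2 + 4 * (Real.exp (-K * s) - 1) * sK (K / N) (R / 2) ^ 2 +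
        2 * N * Real.exp (-K * s) * s →
      sK (K / N) (W / 2) ^ 2 ≤ R ^ 2 / 4 + N / 2 * s + C * (-K) * (R ^ 2 + s) ^ 2 := by
  have hN' : (0 : ℝ) < N := Nat.cast_pos.2 hN
  have hκ : K / N ≤ 0 := div_nonpos_of_nonpos_of_nonneg hK hN'.le
  have hk : 0 ≤ -K := by linarith
  set ch : ℝ := Real.cosh (√(-(K / N)) * 1) with hch
  have hch0 : 0 < ch := Real.cosh_pos _
  set c₁ : ℝ := Real.exp (-K) * (ch ^ 2 + 2 * N) with hc₁
  have hc₁0 : 0 < c₁ := by positivity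
  set A : ℝ := 1 + 2 * N + c₁ * (-K) with hA
  have hA1 : 1 ≤ A := by
    have : 0 ≤ c₁ * (-K) := mul_nonneg hc₁0.le hk
    linarith
  have hA0 : 0 < A := by linarith
  refine ⟨c₁ / 4 + ch ^ 2 * A ^ 2 / (16 * N), 1 / A, by positivity, by positivity,
    (div_le_one hA0).2 hA1, fun R s W hR hR0 hs hW hW2 => ?_⟩
  have hT0 : 0 ≤ R ^ 2 + s := by positivity
  have hT1 : R ^ 2 + s ≤ 1 := hR0.trans ((div_le_one hA0).2 hA1)
  have hs1 : s ≤ 1 := by nlinarith [sq_nonneg R]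
  have hR1 : R ≤ 1 := by nlinarith
  have hAR : A * (R ^ 2 + s) ≤ 1 := by
    rw [le_div_iff₀ hA0] at hR0
    linarith
  have h7 : W ^ 2 ≤ R ^ 2 + 2 * N * s + c₁ * (-K) * (s * (R ^ 2 + s)) :=
    hW2.trans (moment_err hK hN 1 hR hR1 hs hs1)
  have h7' : c₁ * (-K) * (s * (R ^ 2 + s)) ≤ c₁ * (-K) * (R ^ 2 + s) ^ 2 := by
    refine mul_le_mul_of_nonneg_left ?_ (mul_nonneg hc₁0.le hk)
    rw [sq (R ^ 2 + s)]
    exact mul_le_mul_of_nonneg_right (by nlinarith [sq_nonneg R]) hT0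
  have h7'' : c₁ * (-K) * (s * (R ^ 2 + s)) ≤ c₁ * (-K) * (R ^ 2 + s) := by
    refine mul_le_mul_of_nonneg_left ?_ (mul_nonneg hc₁0.le hk)
    nlinarith
  have h8 : W ^ 2 ≤ A * (R ^ 2 + s) := by
    have e1 : R ^ 2 + 2 * N * s ≤ (1 + 2 * N) * (R ^ 2 + s) := by nlinarith [sq_nonneg R]
    calc W ^ 2 ≤ R ^ 2 + 2 * N * s + c₁ * (-K) * (s * (R ^ 2 + s)) := h7
      _ ≤ (1 + 2 * N) * (R ^ 2 + s) + c₁ * (-K) * (R ^ 2 + s) := by linarith
      _ = A * (R ^ 2 + s) := by rw [hA]; ring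
  have h9 : W / 2 ≤ 1 := by
    have e1 : W ^ 2 ≤ 1 := h8.trans hAR
    nlinarith
  have h10 := sK_sq_le hκ (x := W / 2) (by positivity) h9
  have h11 : (W / 2) ^ 4 ≤ A ^ 2 * (R ^ 2 + s) ^ 2 / 16 := by
    have e1 : (W ^ 2) ^ 2 ≤ (A * (R ^ 2 + s)) ^ 2 := pow_le_pow_left₀ (sq_nonneg W) h8 2
    calc (W / 2) ^ 4 = (W ^ 2) ^ 2 / 16 := by ring
      _ ≤ (A * (R ^ 2 + s)) ^ 2 / 16 := by linarith
      _ = _ := by ring
  have hch' : Real.cosh (√(-(K / N))) = ch := by rw [hch, mul_one]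
  rw [hch'] at h10
  have h12 : -(K / N) * ch ^ 2 * (W / 2) ^ 4 ≤
      ch ^ 2 * A ^ 2 / (16 * N) * (-K) * (R ^ 2 + s) ^ 2 := by
    have e0 : 0 ≤ -(K / N) * ch ^ 2 := mul_nonneg (by linarith) (sq_nonneg _)
    calc -(K / N) * ch ^ 2 * (W / 2) ^ 4 ≤ -(K / N) * ch ^ 2 * (A ^ 2 * (R ^ 2 + s) ^ 2 / 16) :=
          mul_le_mul_of_nonneg_left h11 e0
      _ = _ := by
          field_simp
  calc sK (K / N) (W / 2) ^ 2 ≤ (W / 2) ^ 2 + -(K / N) * ch ^ 2 * (W / 2) ^ 4 := h10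
    _ ≤ (R ^ 2 + 2 * N * s + c₁ * (-K) * (R ^ 2 + s) ^ 2) / 4 +
        ch ^ 2 * A ^ 2 / (16 * N) * (-K) * (R ^ 2 + s) ^ 2 := by
        have e1 : (W / 2) ^ 2 = W ^ 2 / 4 := by ring
        rw [e1]
        linarith
    _ = _ := by ring

/-- `2 a b ≤ ...` in the form used for the triangle inequality -/
theorem sq_add_le_div {a b l : ℝ} (hl : 0 < l) (hl1 : l < 1) :
    (a + b) ^ 2 ≤ a ^ 2 / l + b ^ 2 / (1 - l) := by
  have h1 : 0 < 1 - l := by linarith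
  have e : a ^ 2 / l + b ^ 2 / (1 - l) - (a + b) ^ 2 =
      ((1 - l) * a - l * b) ^ 2 / (l * (1 - l)) := by
    field_simp
    ring
  have h2 : 0 ≤ ((1 - l) * a - l * b) ^ 2 / (l * (1 - l)) := by positivity
  linarith

/-- the constant of the quadratic errors of the second moment -/
noncomputable def CM (K : ℝ) (N : ℕ) (B : ℝ) : ℝ :=
  Real.exp (-K) * (Real.cosh (√(-(K / N)) * B) ^ 2 + 2 * N)

theorem CM_pos {K : ℝ} {N : ℕ} (B : ℝ) : 0 < CM K N B := by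
  unfold CM
  have := Real.cosh_pos (√(-(K / N)) * B)
  positivity

section flux
variable {X : Type u} [MetricSpace X] [MeasurableSpace X] [BorelSpace X] [ProperSpace X]
  {K : ℝ} {N : ℕ} {m : Measure X}

/-- second moment of the flow from `δ_y`: `∫ d_z^2 ≤ d(y,z)^2 + 2 N s + C |K| s (d^2 + s)` -/
theorem IsEVIFlow.integral_sq_le' {μ : ℝ → Measure X} (hK : K ≤ 0) (hN : 0 < N)
    (hfin : ∀ (x : X) (r : ℝ), m (closedBall x r) < ∞)
    (hpos : ∀ (x : X) (r : ℝ), 0 < r → 0 < m (ball x r)) (h : IsEVIFlow K N m μ) {y : X}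
    (h0 : μ 0 = dirac y) {z : X} {B : ℝ} (hB : dist y z ≤ B) {s : ℝ} (hs : 0 < s) (hs1 : s ≤ 1) :
    W2 (μ s) (dirac z) ^ 2 ≤ dist y z ^ 2 + 2 * N * s +
      CM K N B * (-K) * (s * (dist y z ^ 2 + s)) :=
  (h.second_moment hK hN hfin hpos h0 z hs).trans
    (moment_err hK hN B dist_nonneg hB hs.le hs1)

end flux

/-- **The EVI lower bound of the flux.** `y` is the point at fraction `l` of `[x, p]`, at distance
`l D` from `x`; `G = U(P_s δ_y) (1/2s) ∫_0^s e^{Kv} / U(P_v δ_x) dv - 1`. -/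
theorem flux_sq {K : ℝ} (hK : K ≤ 0) {N : ℕ} (hN : 0 < N) (B : ℝ) : ∃ C r₀ : ℝ, 0 < C ∧ 0 < r₀ ∧
    r₀ ≤ 1 ∧ ∀ (X : Type u) [MetricSpace X] [ProperSpace X] [MeasurableSpace X] [BorelSpace X]
      (m : Measure X), (∀ (x : X) (r : ℝ), m (closedBall x r) < ∞) →
      (∀ (x : X) (r : ℝ), 0 < r → 0 < m (ball x r)) →
      ∀ (μ ν : ℝ → Measure X) (x y p : X) (l s : ℝ), IsEVIFlow K N m μ → IsEVIFlow K N m ν →
      μ 0 = dirac x → ν 0 = dirac y → 0 < l → l < 1 →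
      0 < s → (l * dist x p) ^ 2 + s ≤ r₀ → dist x p ≤ B → dist x y = l * dist x p →
      dist y p = (1 - l) * dist x p →
      N * (UN N m (ν s) * (∫ v in (0 : ℝ)..s, Real.exp (K * v) * (UN N m (μ v))⁻¹) - 2 * s) / l
          - N * s * l / (1 - l) - C * (-K) * (((l * dist x p) ^ 2 + s) ^ 2 / l +
          s * (dist x p ^ 2 + s) / (1 - l)) ≤
        (dist x p ^ 2 + 2 * N * s - W2 (μ s) (dirac p) ^ 2) / 2 := by
  have hN' : (0 : ℝ) < N := Nat.cast_pos.2 hN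
  have hκ : K / N ≤ 0 := div_nonpos_of_nonpos_of_nonneg hK hN'.le
  have hk : 0 ≤ -K := by linarith
  obtain ⟨C₁, r₀, hC₁, hr₀, hr₀1, hW0⟩ := flux_W1 hK hN
  have hCM : 0 < CM K N B := CM_pos B
  set C₂ : ℝ := Real.exp (-K) * (1 + N + 4 * C₁ * (-K)) with hC₂
  have hC₂0 : 0 < C₂ := by
    have : 0 ≤ 4 * C₁ * (-K) := by positivity
    positivity
  refine ⟨2 * C₁ + 2 * C₂ + CM K N B, r₀, by positivity, hr₀, hr₀1, ?_⟩
  intro X _ _ _ _ m hfin hpos μ ν x y p l s hμ hν hμ0 hν0 hl hl1 hs hsr hxp hxy hyp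
  set D := dist x p with hD
  have hD0 : 0 ≤ D := dist_nonneg
  set R := l * D with hR
  have hR0 : 0 ≤ R := by positivity
  have hs1 : s ≤ 1 := by nlinarith [sq_nonneg R]
  have h1l : 0 < 1 - l := by linarith
  have hT0 : 0 < R ^ 2 + s := by positivity
  have hT1 : R ^ 2 + s ≤ 1 := hsr.trans hr₀1
  have hνs := hν.p2 s hs.le
  have h1 := hμ.evi_full hK hN hνs (hν.dom s hs) hs
  rw [hμ0] at h1
  set U := UN N m (ν s) with hU
  set I := ∫ v in (0 : ℝ)..s, Real.exp (K * v) * (UN N m (μ v))⁻¹ with hI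
  have hU0 : 0 < U := hν.dom s hs
  have hI0 : 0 ≤ I := by
    rw [hI, intervalIntegral.integral_of_le hs.le]
    refine setIntegral_nonneg measurableSet_Ioc fun v hv => ?_
    have := hμ.dom v hv.1
    positivity
  set E := Real.exp (K * s) with hE
  have hE0 : 0 < E := Real.exp_pos _
  have hE1 : E ≤ 1 := Real.exp_le_one_iff.2 (mul_nonpos_of_nonpos_of_nonneg hK hs.le)
  have hEs : 1 - E ≤ -K * s := by
    have := one_sub_exp_le (x := -K * s)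
    have e1 : -(-K * s) = K * s := by ring
    rwa [e1] at this
  have hE2 : Real.exp K ≤ E := by
    rw [hE, Real.exp_le_exp]
    nlinarith
  have h2 : ∫ v in (0 : ℝ)..s, Real.exp (K * v) ≤ s := exp_int_le hK hs.le
  -- the distance of the observer
  have h3 := hν.second_moment hK hN hfin hpos hν0 x hs
  rw [W2_comm, dist_comm y x, hxy] at h3
  have h4 := hW0 R s (W2 (dirac x) (ν s)) hR0 hsr hs.le (W2_nonneg _ _) h3
  set W₁ := W2 (μ s) (ν s) with hW₁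
  have hW₁0 : 0 ≤ W₁ := W2_nonneg _ _
  have h9 : (W₁ / 2) ^ 2 ≤ sK (K / N) (W₁ / 2) ^ 2 :=
    pow_le_pow_left₀ (by positivity) (le_sK hκ (by positivity)) 2
  have h10 : E * (W₁ / 2) ^ 2 ≤ E * sK (K / N) (W₁ / 2) ^ 2 :=
    mul_le_mul_of_nonneg_left h9 hE0.le
  have h11 : (N : ℝ) / 2 * ((∫ v in (0 : ℝ)..s, Real.exp (K * v)) - U * I) ≤
      N / 2 * (s - U * I) := mul_le_mul_of_nonneg_left (by linarith) (by positivity)
  have h12 : E * W₁ ^ 2 ≤ R ^ 2 - 2 * N * (U * I - 2 * s) +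
      4 * C₁ * (-K) * (R ^ 2 + s) ^ 2 := by
    have e1 : E * W₁ ^ 2 = 4 * (E * (W₁ / 2) ^ 2) := by ring
    rw [e1]
    linarith
  -- coarse bound of `W₁`
  have hT2 : (R ^ 2 + s) ^ 2 ≤ R ^ 2 + s := by nlinarith
  have h13 : E * W₁ ^ 2 ≤ 4 * (1 + N + 4 * C₁ * (-K)) * (R ^ 2 + s) := by
    have e1 : 0 ≤ 2 * N * (U * I) := by positivity
    have e2 : 4 * C₁ * (-K) * (R ^ 2 + s) ^ 2 ≤ 4 * C₁ * (-K) * (R ^ 2 + s) :=
      mul_le_mul_of_nonneg_left hT2 (by positivity)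
    have e3 : 0 ≤ C₁ * (-K) * (R ^ 2 + s) := by positivity
    nlinarith [sq_nonneg R]
  have h14 : W₁ ^ 2 ≤ 4 * C₂ * (R ^ 2 + s) := by
    have e1 : Real.exp (-K) * Real.exp K = 1 := by rw [← Real.exp_add]; simp
    have e2 : Real.exp K * W₁ ^ 2 ≤ 4 * (1 + N + 4 * C₁ * (-K)) * (R ^ 2 + s) :=
      (mul_le_mul_of_nonneg_right hE2 (sq_nonneg _)).trans h13
    have e3 := mul_le_mul_of_nonneg_left e2 (Real.exp_pos (-K)).le
    rw [← mul_assoc, e1, one_mul] at e3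
    rw [hC₂]
    linarith
  have h15 : (1 - E) * W₁ ^ 2 ≤ 4 * C₂ * (-K) * (R ^ 2 + s) ^ 2 := by
    have e1 : (1 - E) * W₁ ^ 2 ≤ -K * s * W₁ ^ 2 :=
      mul_le_mul_of_nonneg_right hEs (sq_nonneg _)
    have e2 : -K * s * W₁ ^ 2 ≤ -K * s * (4 * C₂ * (R ^ 2 + s)) :=
      mul_le_mul_of_nonneg_left h14 (by positivity)
    have e3 : -K * s * (4 * C₂ * (R ^ 2 + s)) ≤
        -K * (R ^ 2 + s) * (4 * C₂ * (R ^ 2 + s)) := by
      have : -K * s ≤ -K * (R ^ 2 + s) :=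
        mul_le_mul_of_nonneg_left (by nlinarith [sq_nonneg R]) hk
      exact mul_le_mul_of_nonneg_right this (by positivity)
    calc (1 - E) * W₁ ^ 2 ≤ -K * (R ^ 2 + s) * (4 * C₂ * (R ^ 2 + s)) :=
          (e1.trans e2).trans e3
      _ = _ := by ring
  have h16 : W₁ ^ 2 ≤ R ^ 2 - 2 * N * (U * I - 2 * s) +
      (4 * C₁ + 4 * C₂) * (-K) * (R ^ 2 + s) ^ 2 := by
    have e1 : W₁ ^ 2 = E * W₁ ^ 2 + (1 - E) * W₁ ^ 2 := by ring
    rw [e1]
    linarith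
  -- the distance to the pole
  have hyp0 : dist y p ≤ D := by
    rw [hyp]
    nlinarith
  have h17 := hν.integral_sq_le' hK hN hfin hpos hν0 (hyp0.trans hxp) hs hs1
  set b := W2 (ν s) (dirac p) with hb
  have h18 : b ^ 2 ≤ (1 - l) ^ 2 * D ^ 2 + 2 * N * s + CM K N B * (-K) * (s * (D ^ 2 + s)) := by
    have e1 : dist y p ^ 2 = (1 - l) ^ 2 * D ^ 2 := by rw [hyp]; ring
    have e2 : dist y p ^ 2 ≤ D ^ 2 := pow_le_pow_left₀ dist_nonneg hyp0 2
    have e3 : CM K N B * (-K) * (s * (dist y p ^ 2 + s)) ≤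
        CM K N B * (-K) * (s * (D ^ 2 + s)) := by gcongr
    calc b ^ 2 ≤ dist y p ^ 2 + 2 * N * s + CM K N B * (-K) * (s * (dist y p ^ 2 + s)) := h17
      _ ≤ _ := by rw [← e1]; linarith
  have h19 : W2 (μ s) (dirac p) ≤ W₁ + b := W2_triangle (hμ.p2 s hs.le) hνs (isP2_dirac p)
  have h20 : W2 (μ s) (dirac p) ^ 2 ≤ W₁ ^ 2 / l + b ^ 2 / (1 - l) :=
    (pow_le_pow_left₀ (W2_nonneg _ _) h19 2).trans (sq_add_le_div hl hl1)
  have h21 : W₁ ^ 2 / l ≤ (R ^ 2 - 2 * N * (U * I - 2 * s) +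
      (4 * C₁ + 4 * C₂) * (-K) * (R ^ 2 + s) ^ 2) / l := by gcongr
  have h22 : b ^ 2 / (1 - l) ≤ ((1 - l) ^ 2 * D ^ 2 + 2 * N * s +
      CM K N B * (-K) * (s * (D ^ 2 + s))) / (1 - l) := by gcongr
  have e1 : (R ^ 2 - 2 * N * (U * I - 2 * s) +
      (4 * C₁ + 4 * C₂) * (-K) * (R ^ 2 + s) ^ 2) / l = l * D ^ 2 -
      2 * (N * (U * I - 2 * s) / l) + (4 * C₁ + 4 * C₂) * (-K) * ((R ^ 2 + s) ^ 2 / l) := by
    rw [hR]
    field_simp
  have e2 : ((1 - l) ^ 2 * D ^ 2 + 2 * N * s +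
      CM K N B * (-K) * (s * (D ^ 2 + s))) / (1 - l) = (1 - l) * D ^ 2 + 2 * N * s +
      2 * (N * s * l / (1 - l)) + CM K N B * (-K) * (s * (D ^ 2 + s) / (1 - l)) := by
    field_simp
    ring
  have h23 : 0 ≤ (-K) * ((R ^ 2 + s) ^ 2 / l) := by positivity
  have h24 : 0 ≤ (-K) * (s * (D ^ 2 + s) / (1 - l)) := by positivity
  have e3 : (2 * C₁ + 2 * C₂ + CM K N B) * (-K) * ((R ^ 2 + s) ^ 2 / l +
      s * (D ^ 2 + s) / (1 - l)) = (2 * C₁ + 2 * C₂ + CM K N B) *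
      ((-K) * ((R ^ 2 + s) ^ 2 / l)) + (2 * C₁ + 2 * C₂ + CM K N B) *
      ((-K) * (s * (D ^ 2 + s) / (1 - l))) := by ring
  have h25 : (2 * C₁ + 2 * C₂) * ((-K) * ((R ^ 2 + s) ^ 2 / l)) ≤
      (2 * C₁ + 2 * C₂ + CM K N B) * ((-K) * ((R ^ 2 + s) ^ 2 / l)) :=
    mul_le_mul_of_nonneg_right (by linarith) h23
  have h26 : CM K N B / 2 * ((-K) * (s * (D ^ 2 + s) / (1 - l))) ≤
      (2 * C₁ + 2 * C₂ + CM K N B) * ((-K) * (s * (D ^ 2 + s) / (1 - l))) :=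
    mul_le_mul_of_nonneg_right (by linarith) h24
  rw [e3]
  linarith

/-- **Large flux**: item (2), in the form of `EndDefs`. -/
theorem fluxLow {K : ℝ} (hK : K ≤ 0) (n : ℕ) : FluxLow.{u} K n := by
  intro g hg hg1
  set N : ℕ := n + 1 with hN
  have hN0 : 0 < N := Nat.succ_pos n
  have hN' : (0 : ℝ) < N := Nat.cast_pos.2 hN0
  have hNn : (N : ℝ) = n + 1 := by rw [hN]; push_cast; rfl
  have hk : 0 ≤ -K := by linarith
  obtain ⟨C, r₁, hC, hr₁, hr₁1, H⟩ := flux_sq.{u} hK hN0 6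
  set c₁ : ℝ := N * g / (222 * C * (-K) + 1) with hc₁
  have hden : 0 < 222 * C * (-K) + 1 := by positivity
  have hc₁0 : 0 < c₁ := by positivity
  have hc₁1 : 222 * C * (-K) * c₁ ≤ N * g := by
    have e1 : c₁ * (222 * C * (-K) + 1) = N * g := div_mul_cancel₀ _ hden.ne'
    nlinarith
  set c := min (min (1 / 4) (g / 6)) (min r₁ c₁) with hc
  have hc0 : 0 < c := by positivity
  have hc4 : c ≤ 1 / 4 := (min_le_left _ _).trans (min_le_left _ _)
  have hcg : c ≤ g / 6 := (min_le_left _ _).trans (min_le_right _ _)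
  have hcr : c ≤ r₁ := (min_le_right _ _).trans (min_le_left _ _)
  have hcc : c ≤ c₁ := (min_le_right _ _).trans (min_le_right _ _)
  refine ⟨c, c / 4, hc0, hc4, by positivity, by linarith, ?_⟩
  intro X _ _ _ m hX μ ν x y p l s hμ0 hν0 hμ hν hl hlc hs hsc hxp hxy hyp hl4 hG
  have hprop := hX.proper
  have hfin := hX.finite_ball
  have hpos := hX.pos_ball
  set D := dist x p with hD
  have hD0 : 0 ≤ D := dist_nonneg
  set T := (l * D) ^ 2 + s with hT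
  have hT0 : 0 < T := by positivity
  have hsT : s ≤ T := by
    rw [hT]
    nlinarith [sq_nonneg (l * D)]
  have hTsq : T ^ 2 ≤ c * s := by
    have e1 : T ^ 2 ≤ 2 * (l * D) ^ 4 + 2 * s ^ 2 := by
      rw [hT]
      nlinarith [sq_nonneg ((l * D) ^ 2 - s)]
    have e2 : s ^ 2 ≤ c / 4 * s := by nlinarith
    linarith
  have hTc : T ≤ c := by
    have h1 : T ^ 2 ≤ c * T := hTsq.trans (mul_le_mul_of_nonneg_left hsT hc0.le)
    nlinarith
  have hs1 : s ≤ 1 := by linarith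
  have hl1 : l < 1 := by linarith
  have h1l0 : 0 < 1 - l := by linarith
  have hmain := H X m hfin hpos μ ν x y p l s hμ hν hμ0 hν0 hl hl1 hs (hTc.trans hcr) hxp hxy hyp
  rw [← hD, ← hT] at hmain
  set J := UN N m (ν s) * ∫ v in (0 : ℝ)..s, Real.exp (K * v) * (UN N m (μ v))⁻¹ with hJ
  have h1 : 2 * (N * s * g / l) ≤ N * (J - 2 * s) / l := by
    rw [← mul_div_assoc]
    refine div_le_div_of_nonneg_right ?_ hl.le
    nlinarith
  have h2 : N * s * l / (1 - l) ≤ N * s * g / l / 3 := by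
    rw [div_div, div_le_div_iff₀ h1l0 (by positivity)]
    have e1 : 6 * l ^ 2 ≤ g := by nlinarith
    have e2 : 3 * l ^ 2 ≤ g * (1 - l) := by nlinarith
    have e3 : N * s * (3 * l ^ 2) ≤ N * s * (g * (1 - l)) :=
      mul_le_mul_of_nonneg_left e2 (by positivity)
    nlinarith
  have h3 : C * (-K) * (T ^ 2 / l) ≤ N * s * g / l / 3 := by
    have e1 : C * (-K) * T ^ 2 ≤ N * s * g / 3 := by
      have e2 : C * (-K) * T ^ 2 ≤ C * (-K) * (c₁ * s) := by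
        refine mul_le_mul_of_nonneg_left (hTsq.trans ?_) (by positivity)
        exact mul_le_mul_of_nonneg_right hcc hs.le
      have e3 : C * (-K) * c₁ ≤ 222 * C * (-K) * c₁ / 3 := by
        have e4 : 0 ≤ C * (-K) * c₁ := by positivity
        nlinarith
      have e5 : C * (-K) * (c₁ * s) ≤ N * g / 3 * s := by
        calc C * (-K) * (c₁ * s) = C * (-K) * c₁ * s := by ring
          _ ≤ N * g / 3 * s := mul_le_mul_of_nonneg_right (by linarith) hs.le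
      linarith
    calc C * (-K) * (T ^ 2 / l) = C * (-K) * T ^ 2 / l := by ring
      _ ≤ N * s * g / 3 / l := div_le_div_of_nonneg_right e1 hl.le
      _ = _ := by ring
  have h4 : C * (-K) * (s * (D ^ 2 + s) / (1 - l)) ≤ N * s * g / l / 3 := by
    have e0 : D ^ 2 + s ≤ 37 := by nlinarith
    have e1 : s * (D ^ 2 + s) / (1 - l) ≤ 74 * s := by
      rw [div_le_iff₀ h1l0]
      have e2 : s * (D ^ 2 + s) ≤ s * 37 := mul_le_mul_of_nonneg_left e0 hs.le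
      nlinarith
    have e2 : C * (-K) * (s * (D ^ 2 + s) / (1 - l)) ≤ C * (-K) * (74 * s) :=
      mul_le_mul_of_nonneg_left e1 (by positivity)
    have e3 : 222 * C * (-K) * l ≤ N * g :=
      (mul_le_mul_of_nonneg_left (hlc.trans hcc) (by positivity)).trans hc₁1
    have e4 : C * (-K) * (74 * s) ≤ N * s * g / l / 3 := by
      rw [div_div, le_div_iff₀ (by positivity)]
      nlinarith
    exact e2.trans e4
  have e1 : C * (-K) * (T ^ 2 / l + s * (D ^ 2 + s) / (1 - l)) =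
      C * (-K) * (T ^ 2 / l) + C * (-K) * (s * (D ^ 2 + s) / (1 - l)) := by ring
  rw [e1] at hmain
  have hN1 : (N : ℝ) ≤ N1 K N 6 := by
    unfold N1
    have e2 : 1 ≤ Real.exp (-K) := Real.one_le_exp hk
    have e3 : 0 ≤ 2 * (-K) * sK (K / N) (6 / 2) ^ 2 := by positivity
    nlinarith
  have h5 : 2 * N * s ≤ 2 * N1 K N 6 * s := by gcongr
  have e2 : 2 * ((n : ℝ) + 1) * s * g / l = 2 * (N * s * g / l) := by
    rw [hNn]
    ring
  rw [e2]
  linarith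

end Pool.Agent.BDRY
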