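import Mathlib

/-!
# BDRY2: from `K > 0` to `K = 0`, the real-variable part
-/

set_option autoImplicit false

open MeasureTheory Set Filter Topology

namespace Pool.Agent.BDRY.KPos

open Real

/-- `x / sin x` -/
noncomputable def psi (x : ℝ) : ℝ := (Real.sinc x)⁻¹

theorem sinc_pos {x : ℝ} (h1 : -π < x) (h2 : x < π) : 0 < Real.sinc x := by
  by_cases h0 : x = 0
  · simp [h0]
  rw [Real.sinc_of_ne_zero h0]
  rcases lt_or_gt_of_ne h0 with h | h
  · exact div_pos_of_neg_of_neg (Real.sin_neg_of_neg_of_neg_pi_lt h h1) h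
  · exact div_pos (Real.sin_pos_of_pos_of_lt_pi h h2) h

theorem psi_mul_sin {x : ℝ} (h1 : -π < x) (h2 : x < π) : psi x * Real.sin x = x := by
  by_cases h0 : x = 0
  · simp [h0]
  have h3 := sinc_pos h1 h2
  rw [Real.sinc_of_ne_zero h0] at h3
  have h4 : Real.sin x ≠ 0 := fun h => by simp [h] at h3
  rw [psi, Real.sinc_of_ne_zero h0]
  field_simp

theorem one_le_psi {x : ℝ} (h1 : -π < x) (h2 : x < π) : 1 ≤ psi x :=
  (one_le_inv₀ (sinc_pos h1 h2)).2 (Real.sinc_le_one x)

theorem mul_cos_le_sin {x : ℝ} (h0 : 0 ≤ x) (h1 : x < π) : x * Real.cos x ≤ Real.sin x := by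
  rcases lt_or_ge x (π / 2) with h | h
  · have hc : 0 < Real.cos x := Real.cos_pos_of_mem_Ioo ⟨by linarith [Real.pi_pos], h⟩
    have := Real.le_tan h0 h
    rw [Real.tan_eq_sin_div_cos, le_div_iff₀ hc] at this
    exact this
  · have hc : Real.cos x ≤ 0 :=
      Real.cos_nonpos_of_pi_div_two_le_of_le h (by linarith [Real.pi_pos])
    have hs := Real.sin_nonneg_of_nonneg_of_le_pi h0 h1.le
    nlinarith

theorem psi_mul_cos_le {x : ℝ} (h0 : 0 ≤ x) (h1 : x < π) : psi x * Real.cos x ≤ 1 := by
  rcases h0.eq_or_lt with h | h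
  · subst h
    simp [psi]
  · have hs := Real.sin_pos_of_pos_of_lt_pi h h1
    have h2 := mul_cos_le_sin h0 h1
    rw [psi, Real.sinc_of_ne_zero h.ne', inv_div, div_mul_eq_mul_div, div_le_one hs]
    exact h2

theorem psi_le {x a : ℝ} (h0 : 0 ≤ x) (hxa : x ≤ a) (ha0 : 0 < a) (ha : a < π) :
    psi x ≤ a / Real.sin a := by
  have hsa := Real.sin_pos_of_pos_of_lt_pi ha0 ha
  rcases h0.eq_or_lt with h | h
  · subst h
    have := Real.sin_le ha0.le
    simp only [psi, Real.sinc_zero, inv_one]
    exact (one_le_div hsa).2 this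
  · have hs := Real.sin_pos_of_pos_of_lt_pi h (hxa.trans_lt ha)
    rw [psi, Real.sinc_of_ne_zero h.ne', inv_div, div_le_div_iff₀ hs hsa]
    have hc := strictConcaveOn_sin_Icc.concaveOn
    have h2 := hc.2 (⟨le_rfl, Real.pi_pos.le⟩ : (0 : ℝ) ∈ Icc 0 π)
      (⟨ha0.le, ha.le⟩ : a ∈ Icc 0 π)
      (show (0 : ℝ) ≤ 1 - x / a from sub_nonneg.2 ((div_le_one ha0).2 hxa))
      (show (0 : ℝ) ≤ x / a by positivity) (by ring)
    simp only [smul_eq_mul, mul_zero, zero_add, Real.sin_zero] at h2
    rw [div_mul_cancel₀ _ ha0.ne', div_mul_eq_mul_div, div_le_iff₀ ha0] at h2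
    linarith

theorem psi_small {x : ℝ} (h : |x| ≤ 1) : psi x ≤ 1 + |x| := by
  by_cases h0 : x = 0
  · simp [h0, psi]
  have hx : 0 < |x| := abs_pos.2 h0
  have hpi := Real.pi_gt_three
  have key : ∀ y : ℝ, 0 < y → y ≤ 1 → psi y ≤ 1 + y := by
    intro y hy hy1
    have hs := Real.sin_pos_of_pos_of_lt_pi hy (by linarith)
    rw [psi, Real.sinc_of_ne_zero hy.ne', inv_div, div_le_iff₀ hs]
    have h1 := Real.sin_gt_sub_cube hy
    nlinarith [sq_nonneg y, mul_pos hy hy, mul_pos (mul_pos hy hy) hy]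
  rcases abs_cases x with ⟨h1, h2⟩ | ⟨h1, h2⟩
  · rw [h1] at hx h ⊢
    exact key x hx h
  · rw [h1] at hx h ⊢
    have := key (-x) hx h
    rwa [psi, Real.sinc_neg] at this

theorem sin_sq_sub (a b : ℝ) :
    Real.sin (b - a) * Real.sin (b + a) = Real.sin b ^ 2 - Real.sin a ^ 2 := by
  rw [Real.sin_sub, Real.sin_add]
  have h1 := Real.sin_sq_add_cos_sq a
  have h2 := Real.sin_sq_add_cos_sq b
  have h3 : Real.cos a ^ 2 = 1 - Real.sin a ^ 2 := by linarith
  have h4 : Real.cos b ^ 2 = 1 - Real.sin b ^ 2 := by linarith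
  calc (Real.sin b * Real.cos a - Real.cos b * Real.sin a) *
        (Real.sin b * Real.cos a + Real.cos b * Real.sin a)
      = Real.sin b ^ 2 * Real.cos a ^ 2 - Real.cos b ^ 2 * Real.sin a ^ 2 := by ring
    _ = _ := by rw [h3, h4]; ring

/-- One short step. -/
theorem step {K h A a b c : ℝ} (hK : 0 < K) (hh : 0 ≤ h) (hA : 0 ≤ A) (ha : 0 ≤ a) (hb : 0 ≤ b)
    (ha' : a ≤ c / 2) (hb' : b ≤ c / 2) (hc0 : 0 < c) (hc : c < π) (hab : |b - a| ≤ 1)
    (hE : Real.sin b ^ 2 - Real.sin a ^ 2 ≤
      (1 - Real.exp (-(K * h))) * Real.cos (2 * a) / 2 - K / 2 * Real.exp (-(K * h)) * A) :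
    b ^ 2 - a ^ 2 ≤ K / 2 * (h - A) +
      K / 2 * ((1 + 2 * (c / Real.sin c)) * |b - a| * h + K * h * A) := by
  have hpi := Real.pi_gt_three
  have hd1 : -π < b - a := by linarith
  have hd2 : b - a < π := by linarith
  have hs1 : -π < b + a := by linarith
  have hs2 : b + a < π := by linarith
  set p := psi (b - a) * psi (b + a) with hp
  have h1 := one_le_psi hd1 hd2
  have h2 := one_le_psi hs1 hs2
  have hp1 : 1 ≤ p := by nlinarith
  have e1 : b ^ 2 - a ^ 2 = p * (Real.sin b ^ 2 - Real.sin a ^ 2) := by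
    rw [← sin_sq_sub, hp]
    calc b ^ 2 - a ^ 2 = (b - a) * (b + a) := by ring
      _ = (psi (b - a) * Real.sin (b - a)) * (psi (b + a) * Real.sin (b + a)) := by
          rw [psi_mul_sin hd1 hd2, psi_mul_sin hs1 hs2]
      _ = _ := by ring
  have hMpos : 0 < c / Real.sin c := div_pos hc0 (Real.sin_pos_of_pos_of_lt_pi hc0 hc)
  have hM1 : psi (b + a) ≤ c / Real.sin c := psi_le (by linarith) (by linarith) hc0 hc
  set M := c / Real.sin c with hM
  have hd0 : 0 ≤ |b - a| := abs_nonneg _
  -- the exponential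
  have hKh : 0 ≤ K * h := by positivity
  have hexp1 : 1 - Real.exp (-(K * h)) ≤ K * h := by
    have := Real.add_one_le_exp (-(K * h))
    linarith
  have hexp0 : 0 ≤ 1 - Real.exp (-(K * h)) := by
    have : Real.exp (-(K * h)) ≤ 1 := Real.exp_le_one_iff.2 (by linarith)
    linarith
  -- p cos(2a) ≤ 1 + (1 + 2M)|b - a|
  have hpc : p * Real.cos (2 * a) ≤ 1 + (1 + 2 * M) * |b - a| := by
    rcases le_or_gt (Real.cos (2 * a)) 0 with hcos | hcos
    · have : p * Real.cos (2 * a) ≤ 0 := mul_nonpos_of_nonneg_of_nonpos (by linarith) hcos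
      have h3 : 0 ≤ (1 + 2 * M) * |b - a| := by positivity
      linarith
    · have h3 : Real.cos (2 * a) ≤ Real.cos (b + a) + |b - a| := by
        have h4 := Real.abs_cos_sub_cos_le (2 * a) (b + a)
        have h5 : |2 * a - (b + a)| = |b - a| := by
          rw [show 2 * a - (b + a) = -(b - a) by ring, abs_neg]
        rw [h5] at h4
        linarith [le_abs_self (Real.cos (2 * a) - Real.cos (b + a))]
      have h6 : psi (b + a) * Real.cos (2 * a) ≤ 1 + M * |b - a| := by
        have h7 := psi_mul_cos_le (x := b + a) (by linarith) hs2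
        have h8 : psi (b + a) * |b - a| ≤ M * |b - a| := mul_le_mul_of_nonneg_right hM1 hd0
        have h9 := mul_le_mul_of_nonneg_left h3 (show 0 ≤ psi (b + a) by linarith)
        linarith
      have h10 := psi_small hab
      have h11 : 0 ≤ psi (b + a) * Real.cos (2 * a) := mul_nonneg (by linarith) hcos.le
      have h12 : p * Real.cos (2 * a) ≤ (1 + |b - a|) * (1 + M * |b - a|) := by
        rw [hp, mul_assoc]
        exact mul_le_mul h10 h6 h11 (by linarith)
      have h13 : |b - a| * |b - a| ≤ |b - a| := by nlinarith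
      nlinarith
  have h20 : p * (Real.sin b ^ 2 - Real.sin a ^ 2) ≤
      p * ((1 - Real.exp (-(K * h))) * Real.cos (2 * a) / 2 -
        K / 2 * Real.exp (-(K * h)) * A) := mul_le_mul_of_nonneg_left hE (by linarith)
  rw [e1]
  refine h20.trans ?_
  have h21 : p * ((1 - Real.exp (-(K * h))) * Real.cos (2 * a) / 2) ≤
      K / 2 * h * (1 + (1 + 2 * M) * |b - a|) := by
    have e2 : p * ((1 - Real.exp (-(K * h))) * Real.cos (2 * a) / 2) =
        (1 - Real.exp (-(K * h))) / 2 * (p * Real.cos (2 * a)) := by ring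
    rw [e2]
    have h22 : (1 - Real.exp (-(K * h))) / 2 * (p * Real.cos (2 * a)) ≤
        (1 - Real.exp (-(K * h))) / 2 * (1 + (1 + 2 * M) * |b - a|) :=
      mul_le_mul_of_nonneg_left hpc (by linarith)
    have h23 : (1 - Real.exp (-(K * h))) / 2 * (1 + (1 + 2 * M) * |b - a|) ≤
        K * h / 2 * (1 + (1 + 2 * M) * |b - a|) :=
      mul_le_mul_of_nonneg_right (by linarith) (by positivity)
    linarith
  have h24 : K / 2 * (1 - K * h) * A ≤ p * (K / 2 * Real.exp (-(K * h)) * A) := by
    have h25 : 0 ≤ K / 2 * Real.exp (-(K * h)) * A := by positivity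
    have h26 : K / 2 * Real.exp (-(K * h)) * A ≤ p * (K / 2 * Real.exp (-(K * h)) * A) := by
      nlinarith
    have h27 : K / 2 * (1 - K * h) * A ≤ K / 2 * Real.exp (-(K * h)) * A := by
      have := Real.add_one_le_exp (-(K * h))
      have h28 : 1 - K * h ≤ Real.exp (-(K * h)) := by linarith
      gcongr
    linarith
  have e3 : p * ((1 - Real.exp (-(K * h))) * Real.cos (2 * a) / 2 -
        K / 2 * Real.exp (-(K * h)) * A) =
      p * ((1 - Real.exp (-(K * h))) * Real.cos (2 * a) / 2) -
        p * (K / 2 * Real.exp (-(K * h)) * A) := by ring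
  rw [e3]
  have e4 : K / 2 * h * (1 + (1 + 2 * M) * |b - a|) - K / 2 * (1 - K * h) * A =
      K / 2 * (h - A) + K / 2 * ((1 + 2 * M) * |b - a| * h + K * h * A) := by ring
  linarith

/-- From local to global monotonicity. -/
theorem local_mono {G : ℝ → ℝ} {s t d : ℝ} (hst : s ≤ t) (hd : 0 < d)
    (h : ∀ a b, s ≤ a → a ≤ b → b ≤ t → b - a ≤ d → G b ≤ G a) : G t ≤ G s := by
  have key : ∀ n : ℕ, ∀ a, s ≤ a → a ≤ t → a - s ≤ n * d → G a ≤ G s := by
    intro n
    induction n with
    | zero =>
      intro a ha _ h1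
      have : a = s := by
        have h1' : a - s ≤ 0 := by simpa using h1
        linarith
      rw [this]
    | succ n ih =>
      intro a ha hat h1
      rcases le_or_gt a (s + d) with h2 | h2
      · exact h s a le_rfl ha hat (by linarith)
      · have h3 := ih (a - d) (by linarith) (by linarith) (by push_cast at h1; linarith)
        exact (h (a - d) a (by linarith) (by linarith) hat (by linarith)).trans h3
  obtain ⟨n, hn⟩ := exists_nat_ge ((t - s) / d)
  exact key n t hst le_rfl (by rwa [div_le_iff₀ hd] at hn)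

/-- The chain rule: the `K > 0` inequality implies the `K = 0` inequality. -/
theorem chain {K s t c : ℝ} (hK : 0 < K) (hst : s ≤ t) {θ u : ℝ → ℝ}
    (hθ : ContinuousOn θ (Icc s t)) (hθ0 : ∀ v ∈ Icc s t, 0 ≤ θ v)
    (hθc : ∀ v ∈ Icc s t, θ v ≤ c / 2) (hc0 : 0 < c) (hc : c < π)
    (hu0 : ∀ v, 0 ≤ u v) (hu : IntervalIntegrable u volume s t)
    (hE : ∀ a b, s ≤ a → a ≤ b → b ≤ t →
      Real.exp (K * b) * Real.sin (θ b) ^ 2 - Real.exp (K * a) * Real.sin (θ a) ^ 2 ≤
        K / 2 * ∫ v in a..b, Real.exp (K * v) * (1 - u v)) :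
    θ t ^ 2 - θ s ^ 2 ≤ K / 2 * ∫ v in s..t, (1 - u v) := by
  have hsub : ∀ a b, s ≤ a → a ≤ b → b ≤ t → IntervalIntegrable u volume a b :=
    fun a b ha hab hb => hu.mono_set (by
      rw [uIcc_of_le hab, uIcc_of_le hst]
      exact Icc_subset_Icc ha hb)
  -- the one-step form
  have hE' : ∀ a b, s ≤ a → a ≤ b → b ≤ t → Real.sin (θ b) ^ 2 - Real.sin (θ a) ^ 2 ≤
      (1 - Real.exp (-(K * (b - a)))) * Real.cos (2 * θ a) / 2 -
        K / 2 * Real.exp (-(K * (b - a))) * ∫ v in a..b, u v := by
    intro a b ha hab hb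
    have h0 := hE a b ha hab hb
    have hui := hsub a b ha hab hb
    have hcont : Continuous fun v : ℝ => Real.exp (K * v) := by fun_prop
    have hi1 : IntervalIntegrable (fun v => Real.exp (K * v)) volume a b :=
      hcont.intervalIntegrable a b
    have hi2 : IntervalIntegrable (fun v => Real.exp (K * v) * u v) volume a b :=
      hui.continuousOn_mul hcont.continuousOn
    have e1 : ∫ v in a..b, Real.exp (K * v) * (1 - u v) =
        (∫ v in a..b, Real.exp (K * v)) - ∫ v in a..b, Real.exp (K * v) * u v := by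
      rw [← intervalIntegral.integral_sub hi1 hi2]
      congr 1
      funext v
      ring
    have e2 : K * ∫ v in a..b, Real.exp (K * v) = Real.exp (K * b) - Real.exp (K * a) := by
      rw [← intervalIntegral.integral_const_mul]
      have h1 : ∀ t ∈ Set.uIcc a b,
          HasDerivAt (fun t => Real.exp (K * t)) (K * Real.exp (K * t)) t := fun t _ => by
        have h2 : HasDerivAt (fun t : ℝ => K * t) K t := by
          simpa using (hasDerivAt_id t).const_mul K
        have h3 := h2.exp
        rwa [mul_comm] at h3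
      rw [intervalIntegral.integral_eq_sub_of_hasDerivAt h1
        ((hcont.const_mul K).intervalIntegrable a b)]
    have h2 : Real.exp (K * a) * ∫ v in a..b, u v ≤ ∫ v in a..b, Real.exp (K * v) * u v := by
      rw [← intervalIntegral.integral_const_mul]
      refine intervalIntegral.integral_mono_on hab (hui.const_mul _) hi2 fun v hv => ?_
      have : Real.exp (K * a) ≤ Real.exp (K * v) :=
        Real.exp_le_exp.2 (mul_le_mul_of_nonneg_left hv.1 hK.le)
      exact mul_le_mul_of_nonneg_right this (hu0 v)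
    rw [e1] at h0
    set A := ∫ v in a..b, u v with hA
    set J := ∫ v in a..b, Real.exp (K * v) * u v with hJ
    have h3 : Real.exp (K * b) * Real.sin (θ b) ^ 2 - Real.exp (K * a) * Real.sin (θ a) ^ 2 ≤
        (Real.exp (K * b) - Real.exp (K * a)) / 2 - K / 2 * (Real.exp (K * a) * A) := by
      have h4 : K / 2 * (Real.exp (K * a) * A) ≤ K / 2 * J :=
        mul_le_mul_of_nonneg_left h2 (by positivity)
      have h5 : K / 2 * ((∫ v in a..b, Real.exp (K * v)) - J) =
          (K * ∫ v in a..b, Real.exp (K * v)) / 2 - K / 2 * J := by ring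
      rw [h5, e2] at h0
      linarith
    have hE0 : 0 < Real.exp (K * b) := Real.exp_pos _
    have e3 : Real.exp (K * a) = Real.exp (-(K * (b - a))) * Real.exp (K * b) := by
      rw [← Real.exp_add]; ring_nf
    rw [e3] at h3
    set q := Real.exp (-(K * (b - a))) with hq
    have e4 : Real.cos (2 * θ a) = 1 - 2 * Real.sin (θ a) ^ 2 := by
      rw [Real.cos_two_mul, Real.cos_sq']; ring
    have h6 : Real.exp (K * b) * (Real.sin (θ b) ^ 2 - q * Real.sin (θ a) ^ 2) ≤
        Real.exp (K * b) * ((1 - q) / 2 - K / 2 * (q * A)) := by linarith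
    have h7 := le_of_mul_le_mul_left h6 hE0
    rw [e4]
    linarith
  have hIu0 : ∀ a b, a ≤ b → 0 ≤ ∫ v in a..b, u v := fun a b hab =>
    intervalIntegral.integral_nonneg hab fun v _ => hu0 v
  set M := 1 + 2 * (c / Real.sin c) with hM
  have hMpos : 0 < M := by
    have := div_pos hc0 (Real.sin_pos_of_pos_of_lt_pi hc0 hc)
    positivity
  -- limit in ε
  have key : ∀ ε : ℝ, 0 < ε → θ t ^ 2 - θ s ^ 2 ≤
      K / 2 * (∫ v in s..t, (1 - u v)) + K / 2 * (ε * ((t - s) + ∫ v in s..t, u v)) := by
    intro ε hε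
    have huc : UniformContinuousOn θ (Icc s t) := isCompact_Icc.uniformContinuousOn_of_continuous hθ
    obtain ⟨d, hd, hdθ⟩ := Metric.uniformContinuousOn_iff.1 huc (min 1 (ε / M))
      (lt_min one_pos (by positivity))
    set d' := min (d / 2) (ε / K) with hd'
    have hd'0 : 0 < d' := lt_min (by positivity) (by positivity)
    have hG := local_mono (G := fun v => θ v ^ 2 - K / 2 * (∫ w in s..v, (1 - u w)) -
      K / 2 * (ε * ((v - s) + ∫ w in s..v, u w))) hst hd'0 (by
        intro a b ha hab hb hba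
        have hui := hsub a b ha hab hb
        have hbs : b ∈ Icc s t := ⟨ha.trans hab, hb⟩
        have has : a ∈ Icc s t := ⟨ha, hab.trans hb⟩
        have h1 : |θ b - θ a| < min 1 (ε / M) := by
          have := hdθ b hbs a has (by
            rw [Real.dist_eq, abs_of_nonneg (by linarith)]
            have := min_le_left (d / 2) (ε / K)
            linarith)
          rwa [Real.dist_eq] at this
        have h2 : |θ b - θ a| ≤ 1 := (h1.trans_le (min_le_left _ _)).le
        have h3 : |θ b - θ a| ≤ ε / M := (h1.trans_le (min_le_right _ _)).le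
        have h4 : K * (b - a) ≤ ε := by
          have h5 : b - a ≤ ε / K := hba.trans (min_le_right _ _)
          rwa [le_div_iff₀ hK, mul_comm] at h5
        have hst' := step hK (sub_nonneg.2 hab) (hIu0 a b hab) (hθ0 a has) (hθ0 b hbs)
          (hθc a has) (hθc b hbs) hc0 hc h2 (hE' a b ha hab hb)
        have h6 : M * |θ b - θ a| * (b - a) ≤ ε * (b - a) := by
          have : M * |θ b - θ a| ≤ ε := by
            rw [le_div_iff₀ hMpos] at h3
            linarith
          exact mul_le_mul_of_nonneg_right this (sub_nonneg.2 hab)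
        have h7 : K * (b - a) * (∫ v in a..b, u v) ≤ ε * ∫ v in a..b, u v :=
          mul_le_mul_of_nonneg_right h4 (hIu0 a b hab)
        have hsa := hsub s a le_rfl ha has.2
        have e1 : (∫ w in s..b, u w) = (∫ w in s..a, u w) + ∫ w in a..b, u w :=
          (intervalIntegral.integral_add_adjacent_intervals hsa hui).symm
        have e2 : (∫ w in s..b, (1 - u w)) = (∫ w in s..a, (1 - u w)) + ∫ w in a..b, (1 - u w) :=
          (intervalIntegral.integral_add_adjacent_intervals
            (intervalIntegrable_const.sub hsa) (intervalIntegrable_const.sub hui)).symm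
        have e3 : ∫ w in a..b, (1 - u w) = (b - a) - ∫ w in a..b, u w := by
          rw [intervalIntegral.integral_sub intervalIntegrable_const hui]
          simp
        rw [e2, e1, e3]
        have h8 : K / 2 * (M * |θ b - θ a| * (b - a) + K * (b - a) * ∫ v in a..b, u v) ≤
            K / 2 * (ε * (b - a) + ε * ∫ v in a..b, u v) :=
          mul_le_mul_of_nonneg_left (by linarith) (by positivity)
        linarith)
    simp only [intervalIntegral.integral_same, sub_self, mul_zero, sub_zero, add_zero] at hG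
    linarith
  have hB : 0 ≤ (t - s) + ∫ v in s..t, u v := add_nonneg (by linarith) (hIu0 s t hst)
  refine le_of_forall_pos_le_add fun η hη => ?_
  have h9 := key (η / (K / 2 * ((t - s) + ∫ v in s..t, u v) + 1)) (by positivity)
  refine h9.trans ?_
  have hD : 0 < K / 2 * ((t - s) + ∫ v in s..t, u v) + 1 := by positivity
  have h10 : K / 2 * (η / (K / 2 * ((t - s) + ∫ v in s..t, u v) + 1) *
      ((t - s) + ∫ v in s..t, u v)) ≤ η := by
    rw [show K / 2 * (η / (K / 2 * ((t - s) + ∫ v in s..t, u v) + 1) *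
      ((t - s) + ∫ v in s..t, u v)) = η * (K / 2 * ((t - s) + ∫ v in s..t, u v)) /
        (K / 2 * ((t - s) + ∫ v in s..t, u v) + 1) by ring, div_le_iff₀ hD]
    nlinarith
  linarith

end Pool.Agent.BDRY.KPos
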