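import Pool.Agent.Work.MP_209cb6_gt.B2.GDefs
import Pool.Agent.Work.MP_209cb6_gt.B2.KPosReal
import Pool.Agent.Work.MP_209cb6_gt.Evi
import Pool.Agent.Work.MP_209cb6_gt.Ent

/-!
# BDRY2: an `RCD(K,N)` space with `K > 0` is an `RCD(0,N)` space (EVI form)
-/

set_option autoImplicit false
set_option linter.unusedSectionVars false

open MeasureTheory MeasureTheory.Measure Metric Set Filter Topology
open scoped ENNReal NNReal

namespace Pool.Agent.BDRY

universe u

namespace KPos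

open Real

theorem sG_of_nonpos {κ : ℝ} (h : κ ≤ 0) (x : ℝ) : sG κ x = sK κ x := by
  unfold sG sK
  rcases h.lt_or_eq with h1 | h1
  · rw [if_pos h1, if_pos h1]
  · subst h1
    simp

theorem sG_sq {κ : ℝ} (h : 0 < κ) (x : ℝ) : sG κ x ^ 2 = Real.sin (√κ * x) ^ 2 / κ := by
  unfold sG
  rw [if_neg (not_lt.2 h.le), if_neg h.ne', div_pow, Real.sq_sqrt h.le]

section flow

variable {X : Type u} [MetricSpace X] [MeasurableSpace X] [BorelSpace X] [ProperSpace X]
  {K : ℝ} {N : ℕ} {m : Measure X} {μ : ℝ → Measure X}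

/-- The EVI with sines. -/
theorem evi_sin (hK : 0 < K) (hN : 0 < N) (h : IsEVIFlowG K N m μ) {σ : Measure X} (hσ : IsP2 σ)
    (hσ0 : 0 < UN N m σ) {s t : ℝ} (hs : 0 < s) (hst : s ≤ t) :
    Real.exp (K * t) * Real.sin (√(K / N) * (W2 (μ t) σ / 2)) ^ 2 -
      Real.exp (K * s) * Real.sin (√(K / N) * (W2 (μ s) σ / 2)) ^ 2 ≤
      K / 2 * ∫ v in s..t, Real.exp (K * v) * (1 - UN N m σ / UN N m (μ v)) := by
  have hN' : (0 : ℝ) < N := Nat.cast_pos.2 hN
  have hκ : 0 < K / N := div_pos hK hN'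
  have h1 := h.evi σ hσ hσ0 s t hs hst
  rw [sG_sq hκ, sG_sq hκ] at h1
  have h2 := mul_le_mul_of_nonneg_left h1 hκ.le
  have e1 : K / N * (Real.exp (K * t) * (Real.sin (√(K / N) * (W2 (μ t) σ / 2)) ^ 2 / (K / N)) -
      Real.exp (K * s) * (Real.sin (√(K / N) * (W2 (μ s) σ / 2)) ^ 2 / (K / N))) =
      Real.exp (K * t) * Real.sin (√(K / N) * (W2 (μ t) σ / 2)) ^ 2 -
      Real.exp (K * s) * Real.sin (√(K / N) * (W2 (μ s) σ / 2)) ^ 2 := by
    field_simp
  rw [e1] at h2
  refine h2.trans (le_of_eq ?_)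
  field_simp

theorem tendsto_W2 (h : IsEVIFlowG K N m μ) {σ : Measure X} (hσ : IsP2 σ) :
    Tendsto (fun s => W2 (μ s) σ) (𝓝[>] 0) (𝓝 (W2 (μ 0) σ)) := by
  rw [tendsto_iff_dist_tendsto_zero]
  have h1 : Tendsto (fun s => W2 (μ s) (μ 0)) (𝓝[>] 0) (𝓝 0) :=
    (h.cont 0 le_rfl).mono_left (nhdsWithin_mono 0 Ioi_subset_Ici_self)
  refine squeeze_zero' (Filter.Eventually.of_forall fun s => dist_nonneg) ?_ h1
  filter_upwards [self_mem_nhdsWithin] with s hs
  rw [Real.dist_eq]
  exact abs_W2_sub_le (h.p2 s (le_of_lt hs)) (h.p2 0 le_rfl) hσ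

theorem continuousOn_W2 (h : IsEVIFlowG K N m μ) {σ : Measure X} (hσ : IsP2 σ) :
    ContinuousOn (fun s => W2 (μ s) σ) (Ici 0) := by
  intro t ht
  rw [ContinuousWithinAt, tendsto_iff_dist_tendsto_zero]
  refine squeeze_zero' (Filter.Eventually.of_forall fun s => dist_nonneg) ?_ (h.cont t ht)
  filter_upwards [self_mem_nhdsWithin] with s hs
  rw [Real.dist_eq]
  exact abs_W2_sub_le (h.p2 s hs) (h.p2 t ht) hσ

theorem exp_int (K a b : ℝ) :
    K * ∫ v in a..b, Real.exp (K * v) = Real.exp (K * b) - Real.exp (K * a) := by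
  have hcont : Continuous fun v : ℝ => Real.exp (K * v) := by fun_prop
  rw [← intervalIntegral.integral_const_mul]
  have h1 : ∀ t ∈ Set.uIcc a b,
      HasDerivAt (fun t => Real.exp (K * t)) (K * Real.exp (K * t)) t := fun t _ => by
    have h2 : HasDerivAt (fun t : ℝ => K * t) K t := by
      simpa using (hasDerivAt_id t).const_mul K
    have h3 := h2.exp
    rwa [mul_comm] at h3
  rw [intervalIntegral.integral_eq_sub_of_hasDerivAt h1
    ((hcont.const_mul K).intervalIntegrable a b)]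

/-- The EVI from time `0`. -/
theorem evi_zero (hK : 0 < K) (hN : 0 < N) (h : IsEVIFlowG K N m μ) {σ : Measure X}
    (hσ : IsP2 σ) (hσ0 : 0 < UN N m σ) {τ c : ℝ} (hτ : 0 < τ)
    (hc : ∀ v, 0 < v → v ≤ τ → c ≤ UN N m σ / UN N m (μ v)) :
    Real.exp (K * τ) * Real.sin (√(K / N) * (W2 (μ τ) σ / 2)) ^ 2 -
      Real.sin (√(K / N) * (W2 (μ 0) σ / 2)) ^ 2 ≤ (1 - c) * (Real.exp (K * τ) - 1) / 2 := by
  have hcont : Continuous fun t : ℝ => Real.exp (K * t) := by fun_prop
  have hev : ∀ᶠ s in 𝓝[>] (0 : ℝ),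
      Real.exp (K * τ) * Real.sin (√(K / N) * (W2 (μ τ) σ / 2)) ^ 2 -
      Real.exp (K * s) * Real.sin (√(K / N) * (W2 (μ s) σ / 2)) ^ 2 ≤
      (1 - c) * (Real.exp (K * τ) - Real.exp (K * s)) / 2 := by
    have hlt : ∀ᶠ s in 𝓝[>] (0 : ℝ), s < τ := nhdsWithin_le_nhds (Iio_mem_nhds hτ)
    filter_upwards [self_mem_nhdsWithin, hlt] with s hs hsτ
    have hs0 : 0 < s := hs
    refine (evi_sin hK hN h hσ hσ0 hs0 hsτ.le).trans ?_
    have h1 : ∫ v in s..τ, Real.exp (K * v) * (1 - UN N m σ / UN N m (μ v)) ≤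
        ∫ v in s..τ, (1 - c) * Real.exp (K * v) := by
      refine intervalIntegral.integral_mono_on hsτ.le ?_ ?_ ?_
      · have h1 : (fun v => Real.exp (K * v) * (1 - UN N m σ / UN N m (μ v))) = fun v =>
            Real.exp (K * v) - Real.exp (K * v) * (UN N m σ * (UN N m (μ v))⁻¹) := by
          funext v
          rw [div_eq_mul_inv]
          ring
        rw [h1]
        exact (hcont.intervalIntegrable s τ).sub
          (((h.int s τ hs0 hsτ.le).const_mul _).continuousOn_mul hcont.continuousOn)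
      · exact (hcont.const_mul _).intervalIntegrable s τ
      · intro v hv
        have h2 := hc v (hs0.trans_le hv.1) hv.2
        have h3 := Real.exp_pos (K * v)
        nlinarith
    rw [intervalIntegral.integral_const_mul] at h1
    have h2 := mul_le_mul_of_nonneg_left h1 (show 0 ≤ K / 2 by positivity)
    refine h2.trans (le_of_eq ?_)
    have h3 := exp_int K s τ
    calc K / 2 * ((1 - c) * ∫ v in s..τ, Real.exp (K * v))
        = (1 - c) * (K * ∫ v in s..τ, Real.exp (K * v)) / 2 := by ring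
      _ = _ := by rw [h3]
  have h1 : Tendsto (fun s : ℝ => Real.exp (K * s)) (𝓝[>] 0) (𝓝 1) := by
    have h2 : Tendsto (fun s : ℝ => Real.exp (K * s)) (𝓝[>] 0) (𝓝 (Real.exp (K * 0))) :=
      (hcont.tendsto 0).mono_left nhdsWithin_le_nhds
    rwa [mul_zero, Real.exp_zero] at h2
  have h3 : Tendsto (fun s => Real.sin (√(K / N) * (W2 (μ s) σ / 2)) ^ 2) (𝓝[>] 0)
      (𝓝 (Real.sin (√(K / N) * (W2 (μ 0) σ / 2)) ^ 2)) := by
    have h4 : Continuous fun w : ℝ => Real.sin (√(K / N) * (w / 2)) ^ 2 := by fun_prop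
    exact (h4.tendsto _).comp (tendsto_W2 h hσ)
  have h5 := (h1.mul h3).const_sub (Real.exp (K * τ) *
    Real.sin (√(K / N) * (W2 (μ τ) σ / 2)) ^ 2)
  rw [one_mul] at h5
  have h6 : Tendsto (fun s => (1 - c) * (Real.exp (K * τ) - Real.exp (K * s)) / 2) (𝓝[>] 0)
      (𝓝 ((1 - c) * (Real.exp (K * τ) - 1) / 2)) :=
    ((h1.const_sub _).const_mul _).div_const 2
  exact le_of_tendsto_of_tendsto h5 h6 hev

/-- The displacement of a flow started at a point. -/
theorem disp (hK : 0 < K) (hN : 0 < N)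
    (hfin : ∀ (x : X) (r : ℝ), m (closedBall x r) < ∞)
    (hpos : ∀ (x : X) (r : ℝ), 0 < r → 0 < m (ball x r)) (h : IsEVIFlowG K N m μ) {x : X}
    (h0 : μ 0 = dirac x) {τ : ℝ} (hτ : 0 < τ) :
    Real.exp (K * τ) * Real.sin (√(K / N) * (W2 (μ τ) (dirac x) / 2)) ^ 2 ≤
      (Real.exp (K * τ) - 1) / 2 := by
  have hap : ∀ k : ℕ, ∃ ρ : Measure X, IsP2 ρ ∧ 0 < UN N m ρ ∧
      W2 ρ (dirac x) ≤ 1 / ((k : ℝ) + 1) :=
    fun k => (isDisc_dirac x).approx hfin hpos hN (by positivity)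
  choose ρ hρ hρ0 hρ1 using hap
  have hev : ∀ k, Real.exp (K * τ) * Real.sin (√(K / N) * (W2 (μ τ) (ρ k) / 2)) ^ 2 -
      Real.sin (√(K / N) * (W2 (μ 0) (ρ k) / 2)) ^ 2 ≤ (Real.exp (K * τ) - 1) / 2 := by
    intro k
    have h1 := evi_zero (c := 0) hK hN h (hρ k) (hρ0 k) hτ
      fun v hv _ => div_nonneg (hρ0 k).le (h.dom v hv).le
    rwa [sub_zero, one_mul] at h1
  have hlim : ∀ α : Measure X, IsP2 α →
      Tendsto (fun k => W2 α (ρ k)) atTop (𝓝 (W2 α (dirac x))) := by
    intro α hα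
    rw [tendsto_iff_dist_tendsto_zero]
    refine squeeze_zero (fun k => dist_nonneg) (fun k => ?_)
      tendsto_one_div_add_atTop_nhds_zero_nat
    rw [Real.dist_eq, W2_comm α (ρ k), W2_comm α (dirac x)]
    exact (abs_W2_sub_le (hρ k) (isP2_dirac x) hα).trans (hρ1 k)
  have h4 : Continuous fun w : ℝ => Real.sin (√(K / N) * (w / 2)) ^ 2 := by fun_prop
  have hlim1 := (((h4.tendsto _).comp (hlim (μ τ) (h.p2 τ hτ.le))).const_mul
    (Real.exp (K * τ))).sub ((h4.tendsto _).comp (hlim (μ 0) (h.p2 0 le_rfl)))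
  have h5 := le_of_tendsto' hlim1 hev
  rw [h0, W2_self] at h5
  simpa using h5

/-- The displacement, explicit: with `θ = √κ W / 2`, `θ² ≤ K τ / 2 + (K τ)²`. -/
theorem disp_sq (hK : 0 < K) (hN : 0 < N)
    (hfin : ∀ (x : X) (r : ℝ), m (closedBall x r) < ∞)
    (hpos : ∀ (x : X) (r : ℝ), 0 < r → 0 < m (ball x r)) (h : IsEVIFlowG K N m μ) {x : X}
    (h0 : μ 0 = dirac x) {τ : ℝ} (hτ : 0 < τ) :
    (√(K / N) * (W2 (μ τ) (dirac x) / 2)) ^ 2 ≤ K * τ / 2 + (K * τ) ^ 2 := by
  set f : ℝ → ℝ := fun τ => √(K / N) * (W2 (μ τ) (dirac x) / 2) with hf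
  have hf0 : f 0 = 0 := by simp [hf, h0, W2_self]
  have hfc : ContinuousOn f (Icc 0 τ) :=
    (((continuousOn_W2 h (isP2_dirac x)).div_const 2).const_mul _ |>.mono
      fun v hv => hv.1) |>.congr fun v _ => rfl
  have hsin : ∀ v, 0 < v → Real.sin (f v) ^ 2 ≤ (1 - Real.exp (-(K * v))) / 2 := by
    intro v hv
    have h1 := disp hK hN hfin hpos h h0 hv
    have h2 := mul_le_mul_of_nonneg_left h1 (Real.exp_pos (-(K * v))).le
    have h3 : Real.exp (-(K * v)) * Real.exp (K * v) = 1 := by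
      rw [← Real.exp_add]; simp
    rw [← mul_assoc, h3, one_mul] at h2
    calc Real.sin (f v) ^ 2 ≤ Real.exp (-(K * v)) * ((Real.exp (K * v) - 1) / 2) := h2
      _ = (Real.exp (-(K * v)) * Real.exp (K * v) - Real.exp (-(K * v))) / 2 := by ring
      _ = _ := by rw [h3]
  have hlt : f τ < π / 4 := by
    by_contra hcon
    push Not at hcon
    have hpi := Real.pi_pos
    obtain ⟨v, hv, hfv⟩ := intermediate_value_Icc hτ.le hfc
      (show π / 4 ∈ Icc (f 0) (f τ) from ⟨by rw [hf0]; positivity, hcon⟩)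
    have hv0 : 0 < v := by
      rcases hv.1.lt_or_eq with h1 | h1
      · exact h1
      · exfalso
        rw [← h1, hf0] at hfv
        linarith
    have h2 := hsin v hv0
    rw [hfv, Real.sin_pi_div_four, div_pow, Real.sq_sqrt (by norm_num)] at h2
    have h3 := Real.exp_pos (-(K * v))
    linarith
  have hfn : 0 ≤ f τ := by
    have := W2_nonneg (μ τ) (dirac x)
    simp only [hf]
    positivity
  set θ := f τ with hθ
  have hpi := Real.pi_gt_three
  have hpi' := Real.pi_lt_d2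
  have hS := hsin τ hτ
  have hS' : Real.sin θ ^ 2 ≤ K * τ / 2 := by
    have := Real.add_one_le_exp (-(K * τ))
    linarith
  have h1 : 2 / π * θ ≤ Real.sin θ := Real.mul_le_sin hfn (by linarith)
  have hq : 0 < K * τ := by positivity
  have h2 : θ ^ 2 ≤ 5 / 4 * (K * τ) := by
    have h3 : θ ≤ π / 2 * Real.sin θ := by
      have := mul_le_mul_of_nonneg_left h1 (show 0 ≤ π / 2 by positivity)
      rwa [← mul_assoc, div_mul_div_comm, mul_comm π 2, div_self (by positivity), one_mul] at this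
    have h4 : θ ^ 2 ≤ (π / 2 * Real.sin θ) ^ 2 := pow_le_pow_left₀ hfn h3 2
    have h5 : (π / 2 * Real.sin θ) ^ 2 = π ^ 2 / 4 * Real.sin θ ^ 2 := by ring
    have h6 : π ^ 2 ≤ 10 := by nlinarith
    rw [h5] at h4
    have h7 : π ^ 2 / 4 * Real.sin θ ^ 2 ≤ 10 / 4 * (K * τ / 2) :=
      mul_le_mul (by linarith) hS' (sq_nonneg _) (by norm_num)
    linarith
  change θ ^ 2 ≤ K * τ / 2 + (K * τ) ^ 2
  rcases hfn.eq_or_lt with h3 | h3
  · rw [← h3]
    have : (0 : ℝ) ≤ K * τ / 2 + (K * τ) ^ 2 := by positivity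
    simpa using this
  · have h4 := Real.sin_gt_sub_cube h3
    have h5 : 0 ≤ θ - θ ^ 3 / 6 := by
      have : θ - θ ^ 3 / 6 = θ * (1 - θ ^ 2 / 6) := by ring
      rw [this]
      refine mul_nonneg hfn ?_
      nlinarith
    have h6 : (θ - θ ^ 3 / 6) ^ 2 ≤ Real.sin θ ^ 2 := pow_le_pow_left₀ h5 h4.le 2
    have h7 : (θ - θ ^ 3 / 6) ^ 2 = θ ^ 2 - (θ ^ 2) ^ 2 / 3 + (θ ^ 3 / 6) ^ 2 := by ring
    have h8 : (θ ^ 2) ^ 2 ≤ (5 / 4 * (K * τ)) ^ 2 := pow_le_pow_left₀ (sq_nonneg _) h2 2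
    have h9 : 0 ≤ (θ ^ 3 / 6) ^ 2 := sq_nonneg _
    nlinarith

/-- A measure cannot be at distance about `π √(N/K)` from a point. -/
theorem gap (hK : 0 < K) (hN : 0 < N) (hX : IsRCDG K N X m) {σ : Measure X} (hσ : IsP2 σ)
    (hσ0 : 0 < UN N m σ) (x₀ : X) (R : ℝ) : ∃ η : ℝ, 0 < η ∧ ∀ x ∈ closedBall x₀ R,
      η < |√(K / N) * (W2 (dirac x) σ / 2) - π / 2| := by
  have hN' : (0 : ℝ) < N := Nat.cast_pos.2 hN
  have hκ : 0 < K / N := div_pos hK hN'
  obtain ⟨e, he, hU⟩ := UN_pow_le hX.finite_ball hX.exp_int (isCompact_closedBall x₀ R) hN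
    (η := 1) one_pos
  set B := m.real (closedBall x₀ R) + 1 with hB
  have hB1 : 1 ≤ B := by
    have : 0 ≤ m.real (closedBall x₀ R) := measureReal_nonneg
    linarith
  set c₀ := UN N m σ / B with hc₀
  have hc₀0 : 0 < c₀ := div_pos hσ0 (by linarith)
  set E := (√(K / N) * (e / 2)) ^ 2 with hE
  have hE0 : 0 < E := by
    have := Real.sqrt_pos.2 hκ
    positivity
  -- choose `q`
  set q := min (min 1 c₀ / 8) (E / 2) with hq
  have hq0 : 0 < q := lt_min (by have := lt_min one_pos hc₀0; linarith) (by positivity)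
  have hq1 : q ≤ 1 / 8 := (min_le_left _ _).trans (by
    have := min_le_left 1 c₀
    linarith)
  have hq2 : q ≤ c₀ / 8 := (min_le_left _ _).trans (by
    have := min_le_right 1 c₀
    linarith)
  have hq3 : q ≤ E / 2 := min_le_right _ _
  have hstrict : q / 2 + q ^ 2 < (q - q ^ 2 / 2) * (1 + c₀) / 2 := by
    have h1 : 0 < c₀ - 5 / 2 * q - c₀ * q / 2 := by nlinarith
    nlinarith
  have hq5 : 0 < q / 2 + q ^ 2 := by positivity
  set a := √(q / 2 + q ^ 2) with ha
  set b := √((q - q ^ 2 / 2) * (1 + c₀) / 2) with hb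
  have hab : a < b := Real.sqrt_lt_sqrt hq5.le hstrict
  have ha0 : 0 ≤ a := Real.sqrt_nonneg _
  refine ⟨(b - a) / 2, by linarith, fun x hx => ?_⟩
  by_contra hcon
  push Not at hcon
  obtain ⟨μ, hμ0, h⟩ := hX.flow (dirac x) (isP2_dirac x)
  set t := q / K with ht
  have ht0 : 0 < t := div_pos hq0 hK
  have hKt : K * t = q := by rw [ht]; field_simp
  -- displacement up to time t
  have hdisp : ∀ v, 0 < v → v ≤ t → W2 (μ v) (dirac x) ≤ e := by
    intro v hv hvt
    have h1 := disp_sq hK hN hX.finite_ball hX.pos_ball h hμ0 hv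
    have h2 : K * v ≤ q := by
      rw [← hKt]
      exact mul_le_mul_of_nonneg_left hvt hK.le
    have h3 : 0 < K * v := by positivity
    have h4 : K * v / 2 + (K * v) ^ 2 ≤ E := by nlinarith
    have h5 := h1.trans h4
    rw [hE] at h5
    have hs : 0 < √(K / N) := Real.sqrt_pos.2 hκ
    have h6 := abs_le_of_sq_le_sq' h5 (by positivity)
    have h7 := le_of_mul_le_mul_left h6.2 hs
    linarith
  have hUv : ∀ v, 0 < v → v ≤ t → UN N m (μ v) ≤ B := by
    intro v hv hvt
    have h1 := hU (μ v) (dirac x) (h.p2 v hv.le) (isP2_dirac x) (by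
      rw [dirac_apply' _ isClosed_closedBall.measurableSet.compl]
      simp only [indicator_apply_eq_zero, mem_compl_iff, Pi.one_apply, one_ne_zero]
      exact fun hn => hn hx) (hdisp v hv hvt)
    rcases le_or_gt (UN N m (μ v)) 1 with h2 | h2
    · linarith
    · exact (le_self_pow₀ h2.le hN.ne').trans h1
  have hevi := evi_zero (c := c₀) hK hN h hσ hσ0 ht0 fun v hv hvt =>
    div_le_div_of_nonneg_left hσ0.le (h.dom v hv) (hUv v hv hvt)
  rw [hμ0, hKt] at hevi
  set φt := √(K / N) * (W2 (μ t) σ / 2) with hφt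
  set φ0 := √(K / N) * (W2 (dirac x) σ / 2) with hφ0
  have hψ := disp_sq hK hN hX.finite_ball hX.pos_ball h hμ0 ht0
  rw [hKt] at hψ
  have hψ' : √(K / N) * (W2 (μ t) (dirac x) / 2) ≤ a := Real.le_sqrt_of_sq_le hψ
  have htri : |φt - φ0| ≤ a := by
    have h1 : |W2 (μ t) σ - W2 (dirac x) σ| ≤ W2 (μ t) (dirac x) :=
      abs_W2_sub_le (h.p2 t ht0.le) (isP2_dirac x) hσ
    have h2 : φt - φ0 = √(K / N) / 2 * (W2 (μ t) σ - W2 (dirac x) σ) := by
      rw [hφt, hφ0]; ring
    rw [h2, abs_mul, abs_of_nonneg (by positivity)]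
    calc √(K / N) / 2 * |W2 (μ t) σ - W2 (dirac x) σ|
        ≤ √(K / N) / 2 * W2 (μ t) (dirac x) := mul_le_mul_of_nonneg_left h1 (by positivity)
      _ = √(K / N) * (W2 (μ t) (dirac x) / 2) := by ring
      _ ≤ a := hψ'
  have h3 : |φt - π / 2| ≤ (b - a) / 2 + a := by
    have := abs_add_le (φt - φ0) (φ0 - π / 2)
    rw [show φt - φ0 + (φ0 - π / 2) = φt - π / 2 by ring] at this
    linarith
  have h4 : Real.cos φt ^ 2 ≤ ((b - a) / 2 + a) ^ 2 := by
    have h5 : Real.cos φt = Real.sin (π / 2 - φt) := (Real.sin_pi_div_two_sub φt).symm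
    rw [h5]
    have h6 : |Real.sin (π / 2 - φt)| ≤ |π / 2 - φt| := Real.abs_sin_le_abs
    rw [abs_sub_comm] at h3
    rw [← sq_abs (Real.sin (π / 2 - φt))]
    exact pow_le_pow_left₀ (abs_nonneg _) (h6.trans h3) 2
  have h7 : (q - q ^ 2 / 2) * (1 + c₀) / 2 ≤ Real.cos φt ^ 2 := by
    have h8 : Real.sin φ0 ^ 2 ≤ 1 := by
      have := Real.sin_sq_add_cos_sq φ0
      nlinarith [sq_nonneg (Real.cos φ0)]
    have h9 := Real.sin_sq_add_cos_sq φt
    have h10 : Real.exp q * Real.cos φt ^ 2 ≥ (Real.exp q - 1) * (1 + c₀) / 2 := by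
      have : Real.sin φt ^ 2 = 1 - Real.cos φt ^ 2 := by linarith
      rw [this] at hevi
      linarith
    have h11 : Real.exp (-q) * Real.exp q = 1 := by rw [← Real.exp_add]; simp
    have h12 := mul_le_mul_of_nonneg_left h10 (Real.exp_pos (-q)).le
    have h13 : (1 - Real.exp (-q)) * (1 + c₀) / 2 ≤ Real.cos φt ^ 2 := by
      calc (1 - Real.exp (-q)) * (1 + c₀) / 2
          = Real.exp (-q) * ((Real.exp q - 1) * (1 + c₀) / 2) := by
            have : Real.exp (-q) * ((Real.exp q - 1) * (1 + c₀) / 2) =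
              (Real.exp (-q) * Real.exp q - Real.exp (-q)) * (1 + c₀) / 2 := by ring
            rw [this, h11]
        _ ≤ Real.exp (-q) * (Real.exp q * Real.cos φt ^ 2) := h12
        _ = Real.cos φt ^ 2 := by rw [← mul_assoc, h11, one_mul]
    have h14 : q - q ^ 2 / 2 ≤ 1 - Real.exp (-q) := by
      have h15 := Real.quadratic_le_exp_of_nonneg hq0.le
      have h16 : Real.exp (-q) * (1 + q + q ^ 2 / 2) ≤ 1 :=
        (mul_le_mul_of_nonneg_left h15 (Real.exp_pos _).le).trans h11.le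
      have h17 : 0 < 1 + q + q ^ 2 / 2 := by positivity
      have h18 : Real.exp (-q) ≤ 1 / (1 + q + q ^ 2 / 2) := by
        rw [le_div_iff₀ h17]
        exact h16
      have h19 : 1 / (1 + q + q ^ 2 / 2) ≤ 1 - q + q ^ 2 / 2 := by
        rw [div_le_iff₀ h17]
        nlinarith [pow_pos hq0 4]
      linarith
    have h20 : (q - q ^ 2 / 2) * (1 + c₀) / 2 ≤ (1 - Real.exp (-q)) * (1 + c₀) / 2 := by
      have : 0 ≤ 1 + c₀ := by linarith
      have := mul_le_mul_of_nonneg_right h14 this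
      linarith
    linarith
  have h21 : b ^ 2 = (q - q ^ 2 / 2) * (1 + c₀) / 2 := by
    rw [hb]
    exact Real.sq_sqrt (by linarith)
  have h22 : b ^ 2 ≤ ((b - a) / 2 + a) ^ 2 := by linarith
  have h23 : (b - a) / 2 + a < b := by linarith
  have h24 : 0 ≤ (b - a) / 2 + a := by linarith
  nlinarith

/-- One point of a measure: Bonnet-Myers against measures near a point. -/
theorem lt_of_near (hK : 0 < K) (hN : 0 < N) (hX : IsRCDG K N X m) {σ : Measure X} (hσ : IsP2 σ)
    (hσ0 : 0 < UN N m σ) {y : X} (hy : √(K / N) * (W2 (dirac y) σ / 2) < π / 2) (x : X) :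
    √(K / N) * (W2 (dirac x) σ / 2) < π / 2 := by
  have hN' : (0 : ℝ) < N := Nat.cast_pos.2 hN
  have hκ : 0 < K / N := div_pos hK hN'
  have hc : 0 < √(K / N) := Real.sqrt_pos.2 hκ
  obtain ⟨η, hη, hgap⟩ := gap hK hN hX hσ hσ0 y (dist x y)
  -- step length
  set d := η / √(K / N) with hd
  have hd0 : 0 < d := div_pos hη hc
  have key : ∀ k : ℕ, ∀ z : X, dist z y ≤ dist x y → dist z y ≤ k * d →
      √(K / N) * (W2 (dirac z) σ / 2) < π / 2 := by
    intro k
    induction k with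
    | zero =>
      intro z _ hz
      have : z = y := by
        rw [← dist_le_zero]
        simpa using hz
      rwa [this]
    | succ k ih =>
      intro z hzx hz
      rcases le_or_gt (dist z y) (k * d) with h1 | h1
      · exact ih z hzx h1
      · have hkd : 0 ≤ (k : ℝ) * d := by positivity
        have hzy : 0 < dist z y := lt_of_le_of_lt hkd h1
        set τ := (dist z y - k * d) / dist z y with hτ
        have hτ0 : 0 ≤ τ := div_nonneg (by linarith) hzy.le
        have hτ1 : τ ≤ 1 := by rw [hτ, div_le_one hzy]; linarith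
        obtain ⟨w, hw1, hw2⟩ := hX.geod z y τ hτ0 hτ1
        have e1 : τ * dist z y = dist z y - k * d := by rw [hτ]; field_simp
        rw [e1] at hw1
        have e2 : (1 - τ) * dist z y = k * d := by linarith [e1]
        rw [e2] at hw2
        have h3 := ih w (by linarith [hw2, hzx, h1]) hw2.le
        have h4 : dist z w ≤ d := by
          rw [hw1]
          push_cast at hz
          linarith
        have h5 : W2 (dirac z) σ ≤ W2 (dirac w) σ + d := by
          have h6 := abs_W2_sub_le (isP2_dirac z) (isP2_dirac w) hσ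
          have h7 : W2 (dirac z) (dirac w) ≤ dist z w := by
            have h8 := W2_dirac_sq (isP2_dirac z) w
            rw [integral_dirac] at h8
            have h9 : |W2 (dirac z) (dirac w)| ≤ |dist z w| := sq_le_sq.1 h8.le
            rwa [abs_of_nonneg (W2_nonneg _ _), abs_of_nonneg dist_nonneg] at h9
          have := le_abs_self (W2 (dirac z) σ - W2 (dirac w) σ)
          linarith
        have h6 := hgap z hzx
        by_contra hcon
        push Not at hcon
        rw [abs_of_nonneg (by linarith)] at h6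
        have h7 : √(K / N) * (W2 (dirac z) σ / 2) ≤ √(K / N) * (W2 (dirac w) σ / 2) + η / 2 := by
          have h8 : √(K / N) * d = η := by rw [hd]; field_simp
          have h9 := mul_le_mul_of_nonneg_left h5 hc.le
          linarith
        linarith
  obtain ⟨k, hk⟩ := exists_nat_ge (dist x y / d)
  exact key k x le_rfl (by rwa [div_le_iff₀ hd0] at hk)

/-- Bonnet-Myers: `diam X ≤ π √(N/K)`. -/
theorem diam_le (hK : 0 < K) (hN : 0 < N) (hX : IsRCDG K N X m) (x y : X) :
    √(K / N) * (dist x y / 2) ≤ π / 2 := by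
  have hN' : (0 : ℝ) < N := Nat.cast_pos.2 hN
  have hκ : 0 < K / N := div_pos hK hN'
  have hc : 0 < √(K / N) := Real.sqrt_pos.2 hκ
  have hpi := Real.pi_pos
  refine le_of_forall_pos_le_add fun ε hε => ?_
  set ε' := min ε (π / 4) with hε'
  have hε'0 : 0 < ε' := lt_min hε (by positivity)
  obtain ⟨σ, hσ, hσ0, hσy⟩ := (isDisc_dirac y).approx hX.finite_ball hX.pos_ball hN
    (show 0 < 2 * ε' / √(K / N) by positivity)
  have h1 : √(K / N) * (W2 (dirac y) σ / 2) ≤ ε' := by
    rw [W2_comm]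
    have := mul_le_mul_of_nonneg_left hσy hc.le
    rw [mul_div_cancel₀ _ hc.ne'] at this
    linarith
  have h2 : √(K / N) * (W2 (dirac y) σ / 2) < π / 2 := by
    have := min_le_right ε (π / 4)
    linarith
  have h3 := lt_of_near hK hN hX hσ hσ0 h2 x
  have h4 : dist x y ≤ W2 (dirac x) σ + W2 σ (dirac y) := by
    have h5 := W2_triangle (isP2_dirac x) hσ (isP2_dirac y)
    have h6 : dist x y ≤ W2 (dirac x) (dirac y) := by
      have h8 := W2_dirac_sq (isP2_dirac x) y
      rw [integral_dirac] at h8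
      have h9 : |dist x y| ≤ |W2 (dirac x) (dirac y)| := sq_le_sq.1 h8.ge
      rwa [abs_of_nonneg (W2_nonneg _ _), abs_of_nonneg dist_nonneg] at h9
    linarith
  have h7 := min_le_left ε (π / 4)
  rw [W2_comm] at h1
  have h8 := mul_le_mul_of_nonneg_left h4 hc.le
  linarith

/-- Strict Bonnet-Myers for measures. -/
theorem W2_lt (hK : 0 < K) (hN : 0 < N) (hX : IsRCDG K N X m) {σ : Measure X} (hσ : IsP2 σ)
    (hσ0 : 0 < UN N m σ) : ∃ η : ℝ, 0 < η ∧ ∀ μ : Measure X, IsP2 μ →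
      √(K / N) * (W2 μ σ / 2) ≤ π / 2 - η := by
  have hN' : (0 : ℝ) < N := Nat.cast_pos.2 hN
  have hκ : 0 < K / N := div_pos hK hN'
  have hc : 0 < √(K / N) := Real.sqrt_pos.2 hκ
  have hpi := Real.pi_pos
  obtain ⟨x₀, -⟩ := hσ.2
  obtain ⟨η, hη, hgap⟩ := gap hK hN hX hσ hσ0 x₀ (π / √(K / N))
  have := hσ.1
  have hb : ∀ x : X, √(K / N) * (W2 (dirac x) σ / 2) ≤ π / 2 - η := by
    intro x
    have h1 : x ∈ closedBall x₀ (π / √(K / N)) := by
      rw [mem_closedBall, le_div_iff₀ hc]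
      have := diam_le hK hN hX x x₀
      linarith
    have h2 := hgap x h1
    have h3 : √(K / N) * (W2 (dirac x) σ / 2) ≤ π / 2 := by
      have h4 : W2 (dirac x) σ ≤ π / √(K / N) := by
        have h5 : W2 σ (dirac x) ^ 2 ≤ (π / √(K / N)) ^ 2 := by
          rw [W2_dirac_sq hσ x]
          have h6 : ∀ y, dist y x ^ 2 ≤ (π / √(K / N)) ^ 2 := by
            intro y
            refine pow_le_pow_left₀ dist_nonneg ?_ 2
            rw [le_div_iff₀ hc]
            have := diam_le hK hN hX y x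
            linarith
          calc ∫ y, dist y x ^ 2 ∂σ ≤ ∫ _, (π / √(K / N)) ^ 2 ∂σ :=
                integral_mono_of_nonneg (ae_of_all _ fun y => by positivity)
                  (integrable_const _) (ae_of_all _ h6)
            _ = _ := by simp
        rw [W2_comm]
        exact (abs_le_of_sq_le_sq' h5 (by positivity)).2
      rw [le_div_iff₀ hc] at h4
      linarith
    rcases abs_cases (√(K / N) * (W2 (dirac x) σ / 2) - π / 2) with ⟨h5, h6⟩ | ⟨h5, h6⟩
    · linarith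
    · linarith
  refine ⟨η, hη, fun μ hμ => ?_⟩
  have := hμ.1
  set L := 2 * (π / 2 - η) / √(K / N) with hL
  have hL0 : 0 ≤ L := by
    have h1 := hb x₀
    have h2 := W2_nonneg (dirac x₀) σ
    have : 0 ≤ π / 2 - η := le_trans (by positivity) h1
    positivity
  have hWx : ∀ x : X, W2sq σ (dirac x) ≤ ENNReal.ofReal (L ^ 2) := by
    intro x
    have h1 : W2 σ (dirac x) ≤ L := by
      rw [hL, le_div_iff₀ hc, W2_comm]
      have := hb x
      linarith
    have h2 : W2 σ (dirac x) ^ 2 ≤ L ^ 2 := pow_le_pow_left₀ (W2_nonneg _ _) h1 2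
    rw [W2_sq] at h2
    rw [← ENNReal.ofReal_toReal (W2sq_lt_top hσ (isP2_dirac x)).ne]
    exact ENNReal.ofReal_le_ofReal h2
  have hm : Measurable fun z : X × X => edist z.1 z.2 ^ 2 :=
    (measurable_fst.edist measurable_snd).pow_const 2
  have h3 : W2sq μ σ ≤ ENNReal.ofReal (L ^ 2) := by
    refine (W2sq_le_of_coupling (μ.prod σ) ?_ ?_).trans ?_
    · rw [Measure.map_fst_prod]; simp
    · rw [Measure.map_snd_prod]; simp
    · rw [lintegral_prod _ hm.aemeasurable]
      calc ∫⁻ x, ∫⁻ y, edist (x, y).1 (x, y).2 ^ 2 ∂σ ∂μ ≤ ∫⁻ _, ENNReal.ofReal (L ^ 2) ∂μ := by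
            refine lintegral_mono fun x => ?_
            refine le_trans (le_of_eq ?_) (hWx x)
            rw [W2sq_dirac]
            exact lintegral_congr fun y => by rw [edist_comm]
        _ = _ := by simp
  have h4 : W2 μ σ ^ 2 ≤ L ^ 2 := by
    rw [W2_sq]
    exact ENNReal.toReal_le_of_le_ofReal (by positivity) h3
  have h5 : W2 μ σ ≤ L := (abs_le_of_sq_le_sq' h4 hL0).2
  rw [hL, le_div_iff₀ hc] at h5
  linarith

/-- An `EVI_{K,N}` flow, `K > 0`, is an `EVI_{0,N}` flow. -/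
theorem flow_zero (hK : 0 < K) (hN : 0 < N) (hX : IsRCDG K N X m) (h : IsEVIFlowG K N m μ) :
    IsEVIFlow 0 N m μ := by
  have hN' : (0 : ℝ) < N := Nat.cast_pos.2 hN
  have hκ : 0 < K / N := div_pos hK hN'
  have hc : 0 < √(K / N) := Real.sqrt_pos.2 hκ
  have hpi := Real.pi_pos
  refine ⟨h.p2, h.cont, h.dom, h.int, fun σ hσ hσ0 s t hs hst => ?_⟩
  obtain ⟨η, hη, hlt⟩ := W2_lt hK hN hX hσ hσ0
  set θ : ℝ → ℝ := fun v => √(K / N) * (W2 (μ v) σ / 2) with hθ
  set u : ℝ → ℝ := fun v => UN N m σ / UN N m (μ v) with hu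
  have hUn : ∀ ν : Measure X, 0 ≤ UN N m ν := by
    intro ν
    unfold UN
    split_ifs
    · exact (Real.exp_pos _).le
    · exact le_rfl
  set c := π - 2 * η with hcdef
  have hθn : ∀ v, 0 ≤ θ v := fun v => by
    have := W2_nonneg (μ v) σ
    simp only [hθ]
    positivity
  have hθs : θ s ≤ π / 2 - η := hlt (μ s) (h.p2 s hs.le)
  rcases eq_or_lt_of_le (show 0 ≤ c by have := hθn s; linarith) with hc0 | hc0
  · -- degenerate: all distances vanish
    have h1 : ∀ v, 0 ≤ v → W2 (μ v) σ = 0 := by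
      intro v hv
      have h2 := hlt (μ v) (h.p2 v hv)
      have h3 : √(K / N) * (W2 (μ v) σ / 2) ≤ 0 := by linarith
      have h4 := W2_nonneg (μ v) σ
      have h5 : W2 (μ v) σ / 2 ≤ 0 := by
        by_contra hcon
        push Not at hcon
        have := mul_pos hc hcon
        linarith
      linarith
    -- use the chain rule with a slightly larger constant
    have hch := chain (K := K) (s := s) (t := t) (c := π / 2) hK hst (θ := θ) (u := u)
      ((((continuousOn_W2 h hσ).div_const 2).const_mul _).mono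
        fun v hv => (hs.le.trans hv.1 : (0 : ℝ) ≤ v))
      (fun v _ => hθn v)
      (fun v hv => by
        simp only [hθ, h1 v (hs.le.trans hv.1)]
        simp only [zero_div, mul_zero]
        positivity) (by positivity) (by linarith)
      (fun v => div_nonneg (hUn _) (hUn _))
      (by
        have := (h.int s t hs hst).const_mul (UN N m σ)
        simpa only [hu, div_eq_mul_inv] using this)
      (fun a b ha hab hb => evi_sin hK hN h hσ hσ0 (hs.trans_le ha) hab)
    have e1 : ∀ v, (W2 (μ v) σ / 2) ^ 2 = θ v ^ 2 / (K / N) := by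
      intro v
      simp only [hθ]
      rw [mul_pow, Real.sq_sqrt hκ.le]
      field_simp
    simp only [zero_mul, Real.exp_zero, one_mul, zero_div, sK, lt_irrefl, if_false]
    rw [e1, e1, ← sub_div, div_le_iff₀ hκ]
    refine hch.trans (le_of_eq ?_)
    simp only [hu]
    field_simp
  have hch := chain (K := K) (s := s) (t := t) (c := c) hK hst (θ := θ) (u := u)
    ((((continuousOn_W2 h hσ).div_const 2).const_mul _).mono
      fun v hv => (hs.le.trans hv.1 : (0 : ℝ) ≤ v))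
    (fun v _ => hθn v)
    (fun v hv => by
      have := hlt (μ v) (h.p2 v (hs.le.trans hv.1))
      simp only [hθ, hcdef]
      linarith) hc0 (by linarith)
    (fun v => div_nonneg (hUn _) (hUn _))
    (by
      have := (h.int s t hs hst).const_mul (UN N m σ)
      simpa only [hu, div_eq_mul_inv] using this)
    (fun a b ha hab hb => evi_sin hK hN h hσ hσ0 (hs.trans_le ha) hab)
  have e1 : ∀ v, (W2 (μ v) σ / 2) ^ 2 = θ v ^ 2 / (K / N) := by
    intro v
    simp only [hθ]
    rw [mul_pow, Real.sq_sqrt hκ.le]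
    field_simp
  simp only [zero_mul, Real.exp_zero, one_mul, zero_div, sK, lt_irrefl, if_false]
  rw [e1, e1, ← sub_div, div_le_iff₀ hκ]
  refine hch.trans (le_of_eq ?_)
  simp only [hu]
  field_simp

end flow

end KPos

/-- For `K ≤ 0` the two definitions agree. -/
theorem isRCD_of_isRCDG_nonpos {K : ℝ} (hK : K ≤ 0) {N : ℕ} {X : Type u} [MetricSpace X]
    [MeasurableSpace X] {m : Measure X} (h : IsRCDG K N X m) : IsRCD K N X m := by
  have hκ : K / N ≤ 0 := div_nonpos_of_nonpos_of_nonneg hK (Nat.cast_nonneg N)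
  refine ⟨h.proper, h.geod, h.finite_ball, h.pos_ball, h.exp_int, fun μ₀ hμ₀ => ?_⟩
  obtain ⟨μ, h0, hμ⟩ := h.flow μ₀ hμ₀
  refine ⟨μ, h0, hμ.p2, hμ.cont, hμ.dom, hμ.int, fun σ hσ hσ0 s t hs hst => ?_⟩
  have := hμ.evi σ hσ hσ0 s t hs hst
  rwa [KPos.sG_of_nonpos hκ, KPos.sG_of_nonpos hκ] at this

/-- Every `RCD(K,N)` space is an `RCD(min K 0, N)` space. -/
theorem IsRCDG.isRCD {K : ℝ} {N : ℕ} (hN : 0 < N) {X : Type u} [MetricSpace X]
    [MeasurableSpace X] [BorelSpace X] {m : Measure X} (h : IsRCDG K N X m) :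
    IsRCD (min K 0) N X m := by
  rcases le_or_gt K 0 with hK | hK
  · rw [min_eq_left hK]
    exact isRCD_of_isRCDG_nonpos hK h
  · rw [min_eq_right hK.le]
    have := h.proper
    refine ⟨h.proper, h.geod, h.finite_ball, h.pos_ball, h.exp_int, fun μ₀ hμ₀ => ?_⟩
    obtain ⟨μ, h0, hμ⟩ := h.flow μ₀ hμ₀
    exact ⟨μ, h0, KPos.flow_zero hK hN h hμ⟩

end Pool.Agent.BDRY
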