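import Pool.Agent.Work.MP_209cb6_gt.B2.EndDefs

/-!
# BDRY2, end-game (4): Lemma F (flux counting)
-/

set_option autoImplicit false

open MeasureTheory MeasureTheory.Measure Metric Set Filter Topology ProbabilityTheory
open scoped ENNReal NNReal

namespace Pool.Agent.BDRY

universe u

/-- joint measurability of the squared distance to Dirac masses -/
theorem measurable_W2_dirac {X : Type u} [MetricSpace X] [MeasurableSpace X] [BorelSpace X]
    [ProperSpace X] {m : Measure X} {P : ℝ → X → Measure X} (h : B2.SymKer m P) {s : ℝ}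
    (hs : 0 < s) : Measurable fun z : X × X => W2 (P s z.1) (dirac z.2) ^ 2 := by
  have hP : Measurable fun z : X × X => P s z.1 :=
    (Measure.measurable_of_measurable_coe _ (h.meas s hs)).comp measurable_fst
  let κ : Kernel (X × X) X := ⟨fun z => P s z.1, hP⟩
  have : IsMarkovKernel κ := ⟨fun z => h.prob s hs z.1⟩
  have hf : Measurable fun w : (X × X) × X => edist w.2 w.1.2 ^ 2 :=
    (measurable_snd.edist (measurable_snd.comp measurable_fst)).pow_const 2
  have h1 := (Measurable.lintegral_kernel_prod_right' (κ := κ) hf).ennreal_toReal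
  have h2 : (fun z : X × X => W2 (P s z.1) (dirac z.2) ^ 2) =
      fun a => (∫⁻ b, edist (a, b).2 (a, b).1.2 ^ 2 ∂κ a).toReal := by
    funext z
    have := h.prob s hs z.1
    rw [W2_sq, W2sq_dirac]
    rfl
  rw [h2]
  exact h1

theorem exists_small_c (n : ℕ) {B ε : ℝ} (hε : 0 < ε) :
    ∃ c : ℝ, 0 < c ∧ c ≤ 1 / 4 ∧ (1 + c) ^ (n + 1) * Real.exp (B * c) ≤ 1 + ε := by
  have hc : Continuous fun c : ℝ => (1 + c) ^ (n + 1) * Real.exp (B * c) := by fun_prop
  have h1 : ∀ᶠ c in 𝓝 (0 : ℝ), (1 + c) ^ (n + 1) * Real.exp (B * c) < 1 + ε := by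
    have h2 := hc.tendsto 0
    simp only [add_zero, one_pow, mul_zero, Real.exp_zero, mul_one] at h2
    exact h2.eventually (gt_mem_nhds (by linarith))
  obtain ⟨d, hd, hd'⟩ := Metric.eventually_nhds_iff.1 h1
  refine ⟨min (d / 2) (1 / 4), by positivity, min_le_right _ _, ?_⟩
  refine (hd' ?_).le
  rw [Real.dist_0_eq_abs, abs_of_nonneg (by positivity)]
  exact (min_le_left _ _).trans_lt (by linarith)

theorem lemF {K : ℝ} (hK : K ≤ 0) (n : ℕ) (hgap : GapStmt.{u} K n) (hflux : FluxLow.{u} K n)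
    (hbud : Budget.{u} K n) : LemFStmt.{u} K n := by
  intro δ hδ hδ1
  obtain ⟨A, C₁, g, r₁, hA, hC₁, hg, hg1, hr₁, hr₁1, hG⟩ := hgap δ hδ hδ1
  obtain ⟨lam₀, r₂, hl, hl4, hr₂, hr₂1, hF⟩ := hflux g hg hg1
  obtain ⟨c, hc, hc4, hcc⟩ := exists_small_c n (B := (n + 1) * qK K (n + 1))
    (show 0 < δ / (1 + δ) by positivity)
  set N₁ := N1 K (n + 1) 6 with hN₁
  have hN₁pos : 0 < N₁ := N1_pos hK (Nat.succ_pos n) 6
  set r₀ := min r₁ (r₂ / (9 * C₁)) with hr₀
  have hr₀pos : 0 < r₀ := by positivity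
  have hr₀1 : r₀ ≤ 1 := (min_le_left _ _).trans hr₁1
  have hC₁r : C₁ * r₀ ≤ r₂ / 9 := by
    have h1 : r₀ ≤ r₂ / (9 * C₁) := min_le_right _ _
    calc C₁ * r₀ ≤ C₁ * (r₂ / (9 * C₁)) := by gcongr
      _ = r₂ / 9 := by field_simp
  have hr₀9 : r₀ ≤ r₂ / 9 := by nlinarith
  refine ⟨A, c, 16 * N₁ / ((n + 1) * g), lam₀, r₀, hA, hc, hc4, by positivity, hl, hl4, hr₀pos,
    hr₀1, ?_⟩
  intro X _ _ _ m P hX hP z₀ q σ F a lam hq hq1 hσ hσq hFq hFd hFa hFl hFb
  have := hX.proper
  have hσ0 : σ ≤ r₀ := hσq.trans (by nlinarith)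
  have hσ1 : σ ≤ 1 := hσ0.trans hr₀1
  have hσq1 : σ ≤ q := hσq.trans (by nlinarith)
  set s := (C₁ * σ) ^ 2 with hs
  have hspos : 0 < s := by positivity
  have hC₁σ : C₁ * σ ≤ r₂ / 9 := (by gcongr : C₁ * σ ≤ C₁ * r₀).trans hC₁r
  have hsr₂ : s ≤ r₂ := by
    have h0 : 0 ≤ C₁ * σ := by positivity
    rw [hs]
    nlinarith
  have hs1 : s ≤ 1 := hsr₂.trans hr₂1
  set Q := closedBall z₀ q with hQ
  have hQm : MeasurableSet Q := isClosed_closedBall.measurableSet
  have hQfin : m Q < ∞ := hX.finite_ball z₀ q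
  have hQpos : 0 < m Q := (hX.pos_ball z₀ q hq).trans_le (measure_mono ball_subset_closedBall)
  set H : X → X → ℝ≥0∞ := fun x p =>
    ENNReal.ofReal (dist x p ^ 2 + 2 * N₁ * s - W2 (P s x) (dirac p) ^ 2) with hH
  have hHm : Measurable fun z : X × X => H z.1 z.2 := by
    refine ENNReal.measurable_ofReal.comp ?_
    refine Measurable.sub ?_ (measurable_W2_dirac hP.sym hspos)
    exact ((measurable_fst.dist measurable_snd).pow_const 2).add_const _
  have hHx : ∀ x, Measurable (H x) := fun x => hHm.comp measurable_prodMk_left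
  -- the upper bound
  set B' := closedBall z₀ (3 / 2 * q) with hB'
  have hB'm : MeasurableSet B' := isClosed_closedBall.measurableSet
  have hup : ∫⁻ x in B', ∫⁻ p in Q, H x p ∂m ∂m ≤
      ENNReal.ofReal (16 * N₁ * s) * m (closedBall z₀ (3 * q)) * m Q := by
    have hsw : ∫⁻ x in B', ∫⁻ p in Q, H x p ∂m ∂m = ∫⁻ p in Q, ∫⁻ x in B', H x p ∂m ∂m := by
      have : IsFiniteMeasure (m.restrict Q) := ⟨by rw [restrict_apply_univ]; exact hQfin⟩
      have : IsFiniteMeasure (m.restrict B') :=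
        ⟨by rw [restrict_apply_univ]; exact hX.finite_ball z₀ _⟩
      exact lintegral_lintegral_swap hHm.aemeasurable
    rw [hsw]
    calc ∫⁻ p in Q, ∫⁻ x in B', H x p ∂m ∂m
        ≤ ∫⁻ _ in Q, ENNReal.ofReal (16 * N₁ * s) * m (closedBall z₀ (3 * q)) ∂m := by
          refine setLIntegral_mono' hQm fun p hp => ?_
          have h1 := hbud X m P hX hP z₀ p (3 / 2 * q) s (by positivity) (by linarith) hspos hs1
            (by rw [hQ, mem_closedBall, dist_comm] at hp; linarith)
          rwa [show 2 * (3 / 2 * q) = 3 * q by ring] at h1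
      _ = _ := by rw [setLIntegral_const]
  -- the lower bound at one point
  have hlow : ∀ w ∈ F, ∀ x' ∈ closedBall w (c * σ),
      ENNReal.ofReal (2 * (n + 1) * s * g / lam w) * (m Q / 2) ≤ ∫⁻ p in Q, H x' p ∂m := by
    intro w hw x' hx'
    obtain ⟨ha, hwa⟩ := hFa w hw
    obtain ⟨hl0, hl1, hl2⟩ := hFl w hw
    have hbad := hFb w hw x' hx'
    set S := {y | tm K n m (A * σ) y < (1 + 3 * δ) * a w} with hS
    set T := {p | ENNReal.ofReal (2 * (n + 1) * s * g / lam w) ≤ H x' p} with hT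
    have hTm : MeasurableSet T := measurableSet_le measurable_const (hHx x')
    -- `x'` is low
    have hx'low : tm K n m σ x' ≤ (1 + 2 * δ) * a w := by
      have h1 := tm_nbr' hK hX (x := x') (y := w) (e := c * σ) (mem_closedBall.1 hx') hσ
      have h2 : (σ + c * σ) / σ = 1 + c := by field_simp
      rw [h2] at h1
      have h3 : Real.exp ((n + 1) * qK K (n + 1) * (c * σ)) ≤
          Real.exp ((n + 1) * qK K (n + 1) * c) := by
        rw [Real.exp_le_exp]
        have := qK_nonneg K (n + 1)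
        gcongr
        nlinarith
      have h4 : 0 < tm K n m σ w := tm_pos hX w hσ
      have h5 : (1 + c) ^ (n + 1) * Real.exp ((n + 1) * qK K (n + 1) * (c * σ)) ≤
          1 + δ / (1 + δ) := by
        refine le_trans ?_ hcc
        gcongr
      calc tm K n m σ x' ≤ (1 + δ / (1 + δ)) * ((1 + δ) * a w) := by
            refine h1.trans ?_
            gcongr
        _ = (1 + 2 * δ) * a w := by field_simp; ring
    have hsub : Q ⊆ T ∪ (Q ∩ Zt x' 6 (1 - lam w) S) := by
      intro p hp
      by_cases hpZ : p ∈ Zt x' 6 (1 - lam w) S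
      · exact Or.inr ⟨hp, hpZ⟩
      refine Or.inl ?_
      have hd : dist x' p ≤ 3 * q := by
        have h1 := mem_closedBall.1 hx'
        have h2 := mem_closedBall.1 (hFq w hw)
        have h3 := mem_closedBall.1 hp
        have h4 : dist x' p ≤ dist x' w + dist w z₀ + dist z₀ p := dist_triangle4 _ _ _ _
        rw [dist_comm z₀ p] at h4
        nlinarith
      have hd6 : dist x' p ≤ 6 := by linarith
      obtain ⟨z, hz⟩ := hX.geod p x' (1 - lam w) (by linarith) (by linarith)
      have hz1 : dist p z = (1 - lam w) * dist p x' := hz.1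
      have hz2 : dist z x' = lam w * dist p x' := by
        have := hz.2
        rw [this]; ring
      have hzS : z ∉ S := fun h => hpZ ⟨by rw [dist_comm]; exact hd6, z, h, hz⟩
      replace hzS : (1 + 3 * δ) * a w ≤ tm K n m (A * σ) z := not_lt.1 hzS
      obtain ⟨μ, hμ0, hμ, hμP⟩ := hP.flow x'
      obtain ⟨ν, hν0, hν, hνP⟩ := hP.flow z
      have hgap' := hG X m hX μ ν x' z σ (a w) hμ0 hν0 hμ hν hσ
        (hσ0.trans (min_le_left _ _)) ha hx'low hzS
      have h81 : (lam w * dist x' p) ^ 4 ≤ r₂ * s := by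
        have h1 : lam w * dist x' p ≤ 3 * (lam w * q) := by nlinarith
        have h2 : 0 ≤ lam w * dist x' p := by positivity
        have h0 : 0 ≤ lam w * q := by positivity
        calc (lam w * dist x' p) ^ 4 ≤ (3 * (lam w * q)) ^ 4 := by gcongr
          _ = 81 * ((lam w * q) ^ 2) ^ 2 := by ring
          _ ≤ 81 * (r₀ * σ) ^ 2 := by gcongr
          _ ≤ r₂ * s := by
            rw [hs]
            have h3 : 81 * r₀ ^ 2 ≤ r₂ := by nlinarith
            have h4 : r₂ * σ ^ 2 ≤ r₂ * (C₁ * σ) ^ 2 := by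
              have : σ ≤ C₁ * σ := by nlinarith
              gcongr
            calc 81 * (r₀ * σ) ^ 2 = 81 * r₀ ^ 2 * σ ^ 2 := by ring
              _ ≤ r₂ * σ ^ 2 := by gcongr
              _ ≤ _ := h4
      have hfl := hF X m hX μ ν x' z p (lam w) s hμ0 hν0 hμ hν hl0 hl1 hspos hsr₂ hd6
        (by rw [dist_comm x' z, dist_comm x' p]; exact hz2)
        (by rw [dist_comm z p, dist_comm x' p]; exact hz1) h81 hgap'
      rw [hμP s hspos] at hfl
      exact ENNReal.ofReal_le_ofReal hfl
    have hTQ : m Q / 2 ≤ (m.restrict Q) T := by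
      have h1 : m Q ≤ m (T ∩ Q) + m Q / 2 := by
        have h2 : Q ⊆ (T ∩ Q) ∪ (Q ∩ Zt x' 6 (1 - lam w) S) := by
          intro p hp
          rcases hsub hp with h | h
          · exact Or.inl ⟨h, hp⟩
          · exact Or.inr h
        exact (measure_mono h2).trans ((measure_union_le _ _).trans (by gcongr))
      rw [restrict_apply hTm]
      have h3 : m Q / 2 + m Q / 2 ≤ m (T ∩ Q) + m Q / 2 := by rwa [ENNReal.add_halves]
      exact (ENNReal.add_le_add_iff_right (ENNReal.div_lt_top hQfin.ne (by norm_num)).ne).1 h3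
    calc ENNReal.ofReal (2 * (n + 1) * s * g / lam w) * (m Q / 2)
        ≤ ENNReal.ofReal (2 * (n + 1) * s * g / lam w) * (m.restrict Q) T := by gcongr
      _ ≤ ∫⁻ p in Q, H x' p ∂m := mul_meas_ge_le_lintegral (hHx x') _
  -- summation
  have hBw : ∀ w ∈ F, closedBall w (c * σ) ⊆ B' := by
    intro w hw
    refine closedBall_subset_closedBall' ?_
    have h2 := mem_closedBall.1 (hFq w hw)
    nlinarith
  have hdisj : (F : Set X).PairwiseDisjoint fun w => closedBall w (c * σ) := by
    intro w hw w' hw' hne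
    refine closedBall_disjoint_closedBall ?_
    have := hFd w hw w' hw' hne
    nlinarith
  have hsum : ∑ w ∈ F, ENNReal.ofReal (2 * (n + 1) * s * g / lam w) * (m Q / 2) *
      m (closedBall w (c * σ)) ≤
        ENNReal.ofReal (16 * N₁ * s) * m (closedBall z₀ (3 * q)) * m Q := by
    calc ∑ w ∈ F, ENNReal.ofReal (2 * (n + 1) * s * g / lam w) * (m Q / 2) *
          m (closedBall w (c * σ))
        ≤ ∑ w ∈ F, ∫⁻ x in closedBall w (c * σ), ∫⁻ p in Q, H x p ∂m ∂m := by
          refine Finset.sum_le_sum fun w hw => ?_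
          rw [← setLIntegral_const]
          exact setLIntegral_mono' isClosed_closedBall.measurableSet fun x hx => hlow w hw x hx
      _ = ∫⁻ x in ⋃ w ∈ F, closedBall w (c * σ), ∫⁻ p in Q, H x p ∂m ∂m :=
          (lintegral_biUnion_finset hdisj
            (fun w _ => isClosed_closedBall.measurableSet) _).symm
      _ ≤ ∫⁻ x in B', ∫⁻ p in Q, H x p ∂m ∂m :=
          lintegral_mono_set (iUnion₂_subset hBw)
      _ ≤ _ := hup
  have hreal := ENNReal.toReal_mono (ENNReal.mul_ne_top (ENNReal.mul_ne_top ENNReal.ofReal_ne_top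
    (hX.finite_ball z₀ (3 * q)).ne) hQfin.ne) hsum
  rw [ENNReal.toReal_sum (fun w _ => ENNReal.mul_ne_top (ENNReal.mul_ne_top ENNReal.ofReal_ne_top
    (ENNReal.div_lt_top hQfin.ne (by norm_num)).ne) (hX.finite_ball w _).ne)] at hreal
  rw [ENNReal.toReal_mul, ENNReal.toReal_mul, ENNReal.toReal_ofReal (by positivity)] at hreal
  have hQr : 0 < m.real Q := ENNReal.toReal_pos hQpos.ne' hQfin.ne
  have hterm : ∀ w ∈ F, (ENNReal.ofReal (2 * (n + 1) * s * g / lam w) * (m Q / 2) *
      m (closedBall w (c * σ))).toReal =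
        ((n + 1) * s * g * m.real Q) * (m.real (closedBall w (c * σ)) / lam w) := by
    intro w hw
    have hl0 := (hFl w hw).1
    rw [ENNReal.toReal_mul, ENNReal.toReal_mul, ENNReal.toReal_ofReal (by positivity),
      ENNReal.toReal_div]
    simp only [Measure.real, ENNReal.toReal_ofNat]
    field_simp
  rw [Finset.sum_congr rfl hterm, ← Finset.mul_sum] at hreal
  have hk : 0 < (n + 1) * s * g * m.real Q := by positivity
  have : (n + 1) * s * g * m.real Q * (∑ w ∈ F, m.real (closedBall w (c * σ)) / lam w) ≤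
      (n + 1) * s * g * m.real Q *
        (16 * N₁ / ((n + 1) * g) * m.real (closedBall z₀ (3 * q))) := by
    refine hreal.trans (le_of_eq ?_)
    simp only [Measure.real]
    field_simp
  exact le_of_mul_le_mul_left this hk

end Pool.Agent.BDRY
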