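import Pool.Agent.Work.MP_209cb6_gt.B2.LemRth
import Pool.Agent.Work.MP_209cb6_gt.B2.EndDefs

/-!
# Lemma R in the form of the interface `LemRStmt`
-/

set_option autoImplicit false

open MeasureTheory MeasureTheory.Measure Metric Set Filter Topology
open scoped ENNReal NNReal

namespace Pool.Agent.BDRY

universe u

section sphere

variable {X : Type u} [MetricSpace X] [MeasurableSpace X] [BorelSpace X] {K : ℝ} {n : ℕ}
  {m : Measure X}

/-- Spheres are null. -/
theorem real_closedBall_eq (hK : K ≤ 0) (hX : IsRCD K (n + 1) X m) (x : X) {R : ℝ} (hR : 0 < R) :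
    m.real (closedBall x R) = m.real (ball x R) := by
  refine le_antisymm ?_ (measureReal_mono ball_subset_closedBall (hX.finite_ball x R).ne)
  have h1 : ∀ r, 0 < r → r < R → m.real (closedBall x R) ≤
      (R / r) ^ (n + 1) * Real.exp ((n + 1) * qK K (n + 1) * (R - r)) * m.real (ball x R) := by
    intro r hr hrR
    refine (bg_closedBall hK hX x hr hrR.le).trans ?_
    gcongr
    · exact (ball_fin hX x R)
    · exact closedBall_subset_ball hrR
  have hc : Tendsto (fun r : ℝ => (R / r) ^ (n + 1) * Real.exp ((n + 1) * qK K (n + 1) * (R - r)) *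
      m.real (ball x R)) (𝓝[<] R)
      (𝓝 ((R / R) ^ (n + 1) * Real.exp ((n + 1) * qK K (n + 1) * (R - R)) * m.real (ball x R))) := by
    have hc1 : ContinuousAt (fun r : ℝ => (R / r) ^ (n + 1) *
        Real.exp ((n + 1) * qK K (n + 1) * (R - r)) * m.real (ball x R)) R := by
      have h2 : ContinuousAt (fun r : ℝ => R / r) R := continuousAt_const.div continuousAt_id hR.ne'
      have h3 : ContinuousAt (fun r : ℝ => Real.exp ((n + 1) * qK K (n + 1) * (R - r))) R := by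
        fun_prop
      exact ((h2.pow (n + 1)).mul h3).mul continuousAt_const
    exact hc1.tendsto.mono_left nhdsWithin_le_nhds
  rw [div_self hR.ne', sub_self, mul_zero, Real.exp_zero, one_pow, one_mul, one_mul] at hc
  refine ge_of_tendsto hc ?_
  have h4 : ∀ᶠ r in 𝓝[<] R, 0 < r := (lt_mem_nhds hR).filter_mono nhdsWithin_le_nhds
  filter_upwards [h4, self_mem_nhdsWithin] with r hr hr2
  exact h1 r hr hr2

theorem measure_closedBall_eq (hK : K ≤ 0) (hX : IsRCD K (n + 1) X m) (x : X) {R : ℝ} (hR : 0 < R) :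
    m (closedBall x R) = m (ball x R) := by
  have h := real_closedBall_eq hK hX x hR
  rw [Measure.real, Measure.real] at h
  exact (ENNReal.toReal_eq_toReal_iff' (hX.finite_ball x R).ne (ball_fin hX x R)).1 h

theorem measure_sphere_null (hK : K ≤ 0) (hX : IsRCD K (n + 1) X m) (x : X) {R : ℝ} (hR : 0 < R) :
    m (closedBall x R \ ball x R) = 0 := by
  rw [measure_sdiff ball_subset_closedBall measurableSet_ball.nullMeasurableSet (ball_fin hX x R),
    measure_closedBall_eq hK hX x hR, tsub_self]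

end sphere

theorem lemRStmt {K : ℝ} (hK : K ≤ 0) (n : ℕ) : LemRStmt.{u} K n := by
  intro η₀ ζ₀ δ₀ s₀ κ b₀ hη₀ hη₁ hζ₀ hδ₀ hs₀ hb₀ hbκ
  -- the choice of `δ`
  obtain ⟨δ, hδ0, hδ1, hδ2, hδ3⟩ : ∃ δ : ℝ, 0 < δ ∧ δ ≤ 1 / 10 ∧ (1 + 8 * (2 * δ)) * b₀ < κ ∧
      1 + 8 * (2 * δ) < (1 + δ₀) * (1 - 2 * δ) := by
    have h1 : ∀ᶠ δ in 𝓝[>] (0 : ℝ), (1 + 8 * (2 * δ)) * b₀ < κ := by
      have hc : Continuous fun δ : ℝ => (1 + 8 * (2 * δ)) * b₀ := by fun_prop
      refine ((hc.tendsto 0).mono_left nhdsWithin_le_nhds).eventually (gt_mem_nhds ?_)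
      simpa using hbκ
    have h2 : ∀ᶠ δ in 𝓝[>] (0 : ℝ), 0 < (1 + δ₀) * (1 - 2 * δ) - (1 + 8 * (2 * δ)) := by
      have hc : Continuous fun δ : ℝ => (1 + δ₀) * (1 - 2 * δ) - (1 + 8 * (2 * δ)) := by fun_prop
      refine ((hc.tendsto 0).mono_left nhdsWithin_le_nhds).eventually (lt_mem_nhds ?_)
      simpa using hδ₀
    have h3 : ∀ᶠ δ in 𝓝[>] (0 : ℝ), δ < 1 / 10 :=
      (tendsto_id.mono_left nhdsWithin_le_nhds).eventually (gt_mem_nhds (by norm_num))
    obtain ⟨δ, ⟨⟨h4, h5⟩, h6⟩, h7⟩ := (((h1.and h2).and h3).and self_mem_nhdsWithin).exists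
    exact ⟨δ, h7, h6.le, h4, by linarith⟩
  refine ⟨δ, hδ0, hδ1, ?_⟩
  intro ζ hζ
  obtain ⟨c, R₀, hc, hc1, hR₀, hmain⟩ := lemR_th.{u} hK n (q := κ) (η := η₀) (ζ₀ := ζ₀) (d₀ := δ₀)
    (s₀ := s₀) (d := 2 * δ) (α := b₀) (ζ := ζ) hη₀ hη₁.le hζ₀ hs₀ (by linarith) hδ₀.le hδ2 hδ3 hζ
  -- the radius
  obtain ⟨r₁, hr₁, hr₁'⟩ : ∃ r₁ : ℝ, 0 < r₁ ∧
      Real.exp ((n + 1) * qK K (n + 1) * r₁) * (1 + 7 * δ) ≤ 1 + 7 * (2 * δ) := by
    have hc : Continuous fun r : ℝ => Real.exp ((n + 1) * qK K (n + 1) * r) * (1 + 7 * δ) := by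
      fun_prop
    have h1 : ∀ᶠ r in 𝓝[>] (0 : ℝ),
        Real.exp ((n + 1) * qK K (n + 1) * r) * (1 + 7 * δ) < 1 + 7 * (2 * δ) := by
      refine ((hc.tendsto 0).mono_left nhdsWithin_le_nhds).eventually (gt_mem_nhds ?_)
      simp
      linarith
    obtain ⟨r, h2, h3⟩ := (h1.and self_mem_nhdsWithin).exists
    exact ⟨r, h3, h2.le⟩
  have hqK : 0 ≤ (n + 1) * qK K (n + 1) := by have := qK_nonneg K (n + 1); positivity
  refine ⟨min c (1 / 10), δ, min 1 (min R₀ r₁), lt_min hc (by norm_num), min_le_right _ _, hδ0, hδ1,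
    lt_min one_pos (lt_min hR₀ hr₁), min_le_left _ _, ?_⟩
  intro X _ _ _ m hX hCol w R a hR hRr ha hab hlow
  have hRR₀ : R ≤ R₀ := hRr.trans ((min_le_right _ _).trans (min_le_left _ _))
  have hRr₁ : R ≤ r₁ := hRr.trans ((min_le_right _ _).trans (min_le_right _ _))
  have h1 := hmain X m hX hCol a ha hab w R hR hRR₀ (by
    intro y hy
    have h2 := hlow y (ball_subset_closedBall hy)
    have h3 : tm K n m (R / δ) y ≤ tm K n m R y :=
      tm_anti hK hX y hR (by rw [le_div_iff₀ hδ0]; nlinarith)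
    have h4 := tm_le_th (K := K) (n := n) (m := m) hR.le y
    have h5 : (1 - 2 * δ) * a ≤ (1 - δ) * a := mul_le_mul_of_nonneg_right (by linarith) ha.le
    linarith)
  have hcR : 0 < c * R := mul_pos hc hR
  have hmR : 0 < min c (1 / 10) * R := mul_pos (lt_min hc (by norm_num)) hR
  have hincl : {y ∈ closedBall w R | tm K n m (min c (1 / 10) * R) y < (1 + 7 * δ) * a} ⊆
      {y ∈ ball w R | th n m (c * R) y < (1 + 7 * (2 * δ)) * a} ∪ (closedBall w R \ ball w R) := by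
    rintro y ⟨hy1, hy2⟩
    by_cases hy3 : y ∈ ball w R
    · left
      refine ⟨hy3, ?_⟩
      have h2 : tm K n m (c * R) y < (1 + 7 * δ) * a :=
        (tm_anti hK hX y hmR (mul_le_mul_of_nonneg_right (min_le_left _ _) hR.le)).trans_lt hy2
      rw [th_eq_tm (K := K) y]
      have h3 : Real.exp ((n + 1) * qK K (n + 1) * (c * R)) ≤
          Real.exp ((n + 1) * qK K (n + 1) * r₁) := by
        rw [Real.exp_le_exp]
        refine mul_le_mul_of_nonneg_left ?_ hqK
        nlinarith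
      calc Real.exp ((n + 1) * qK K (n + 1) * (c * R)) * tm K n m (c * R) y
          < Real.exp ((n + 1) * qK K (n + 1) * (c * R)) * ((1 + 7 * δ) * a) :=
            mul_lt_mul_of_pos_left h2 (Real.exp_pos _)
        _ ≤ Real.exp ((n + 1) * qK K (n + 1) * r₁) * ((1 + 7 * δ) * a) := by gcongr
        _ = (Real.exp ((n + 1) * qK K (n + 1) * r₁) * (1 + 7 * δ)) * a := by ring
        _ ≤ _ := by gcongr
    · exact Or.inr ⟨hy1, hy3⟩
  have h2 : m {y ∈ closedBall w R | tm K n m (min c (1 / 10) * R) y < (1 + 7 * δ) * a} ≤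
      ENNReal.ofReal ζ * m (closedBall w R) := by
    calc _ ≤ m ({y ∈ ball w R | th n m (c * R) y < (1 + 7 * (2 * δ)) * a} ∪
          (closedBall w R \ ball w R)) := measure_mono hincl
      _ ≤ m {y ∈ ball w R | th n m (c * R) y < (1 + 7 * (2 * δ)) * a} +
          m (closedBall w R \ ball w R) := measure_union_le _ _
      _ = m {y ∈ ball w R | th n m (c * R) y < (1 + 7 * (2 * δ)) * a} := by
          rw [measure_sphere_null hK hX w hR, add_zero]
      _ ≤ ENNReal.ofReal ζ * m (ball w R) := h1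
      _ ≤ _ := by gcongr; exact ball_subset_closedBall
  have h3 := ENNReal.toReal_mono
    (ENNReal.mul_ne_top ENNReal.ofReal_ne_top (hX.finite_ball w R).ne) h2
  rwa [ENNReal.toReal_mul, ENNReal.toReal_ofReal hζ.le] at h3

end Pool.Agent.BDRY
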