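import Mathlib

/-!
# The isodiametric inequality and the normalisation of the Hausdorff measure

`vol A ≤ vol (B_1) (diam A / 2)^N` in Euclidean space (by the Prekopa-Leindler inequality), and
`μHE[N] ≤ (vol (B_1) / 2^N) μH[N]` on every metric space.
-/

set_option autoImplicit false

open MeasureTheory MeasureTheory.Measure Metric Set Filter Topology
open scoped ENNReal NNReal Pointwise

namespace Pool.Agent.BDRY.Iso

/-! ### Brunn-Minkowski and Prekopa-Leindler on the line -/

theorem vol_le_of_translate {K C : Set ℝ} (a : ℝ) (h : ∀ x ∈ K, a + x ∈ C) :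
    volume K ≤ volume C := by
  have h1 : (fun x => a + x) '' K ⊆ C := by
    rintro _ ⟨x, hx, rfl⟩
    exact h x hx
  have h2 := measure_mono (μ := (volume : Measure ℝ)) h1
  rwa [image_add_left, measure_preimage_add] at h2

theorem bm_compact {K1 K2 C : Set ℝ} (h1 : IsCompact K1) (h2 : IsCompact K2)
    (n1 : K1.Nonempty) (n2 : K2.Nonempty) (h : ∀ a ∈ K1, ∀ b ∈ K2, a + b ∈ C) :
    volume K1 + volume K2 ≤ volume C := by
  have hM := h1.sSup_mem n1
  have hm := h2.sInf_mem n2
  set M := sSup K1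
  set m := sInf K2
  set S1 : Set ℝ := (fun x => m + x) '' K1 with hS1
  set S2 : Set ℝ := (fun x => M + x) '' K2 with hS2
  have v1 : volume S1 = volume K1 := by
    rw [hS1, image_add_left, measure_preimage_add]
  have v2 : volume S2 = volume K2 := by
    rw [hS2, image_add_left, measure_preimage_add]
  have c2 : IsCompact S2 := h2.image (continuous_const.add continuous_id)
  have hsub : S1 ∪ S2 ⊆ C := by
    rintro x (⟨y, hy, rfl⟩ | ⟨y, hy, rfl⟩)
    · show m + y ∈ C
      rw [add_comm]
      exact h y hy m hm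
    · exact h M hM y hy
  have hint : volume (S1 ∩ S2) = 0 := by
    refine measure_mono_null (t := {m + M}) ?_ (by simp)
    rintro x ⟨⟨y, hy, rfl⟩, ⟨z, hz, hzy⟩⟩
    have hy1 : y ≤ M := le_csSup h1.bddAbove hy
    have hz1 : m ≤ z := csInf_le h2.bddBelow hz
    simp only at hzy
    simp only [mem_singleton_iff]
    linarith
  have hadd := measure_union_add_inter (μ := (volume : Measure ℝ)) S1 c2.measurableSet
  rw [hint, add_zero, v1, v2] at hadd
  rw [← hadd]
  exact measure_mono hsub

/-- Brunn-Minkowski on the line -/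
theorem bm_line {A B C : Set ℝ} (hA : MeasurableSet A) (hB : MeasurableSet B)
    (hAn : A.Nonempty) (hBn : B.Nonempty) (h : ∀ a ∈ A, ∀ b ∈ B, a + b ∈ C) :
    volume A + volume B ≤ volume C := by
  obtain ⟨a0, ha0⟩ := hAn
  obtain ⟨b0, hb0⟩ := hBn
  have hAC : volume A ≤ volume C := vol_le_of_translate b0 fun x hx => by
    rw [add_comm]; exact h x hx b0 hb0
  have hBC : volume B ≤ volume C := vol_le_of_translate a0 fun x hx => h a0 ha0 x hx
  by_cases hC : volume C = ⊤
  · rw [hC]; exact le_top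
  have hAt : volume A ≠ ⊤ := ne_top_of_le_ne_top hC hAC
  have hBt : volume B ≠ ⊤ := ne_top_of_le_ne_top hC hBC
  -- compact pieces
  have hK : ∀ K1 ⊆ A, IsCompact K1 → ∀ K2 ⊆ B, IsCompact K2 →
      volume K1 + volume K2 ≤ volume C := by
    intro K1 hs1 h1 K2 hs2 h2
    rcases K1.eq_empty_or_nonempty with rfl | n1
    · rw [measure_empty, zero_add]
      exact (measure_mono hs2).trans hBC
    rcases K2.eq_empty_or_nonempty with rfl | n2
    · rw [measure_empty, add_zero]
      exact (measure_mono hs1).trans hAC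
    exact bm_compact h1 h2 n1 n2 fun a ha b hb => h a (hs1 ha) b (hs2 hb)
  have hK1B : ∀ K1 ⊆ A, IsCompact K1 → volume K1 + volume B ≤ volume C := by
    intro K1 hs1 h1
    have ht : volume K1 ≠ ⊤ := ne_top_of_le_ne_top hAt (measure_mono hs1)
    have h3 : volume B ≤ volume C - volume K1 := by
      rw [hB.measure_eq_iSup_isCompact volume]
      refine iSup_le fun K2 => iSup_le fun hs2 => iSup_le fun h2 => ?_
      exact ENNReal.le_sub_of_add_le_left ht (hK K1 hs1 h1 K2 hs2 h2)
    exact add_le_of_le_tsub_left_of_le ((measure_mono hs1).trans hAC) h3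
  have h3 : volume A ≤ volume C - volume B := by
    rw [hA.measure_eq_iSup_isCompact volume]
    refine iSup_le fun K1 => iSup_le fun hs1 => iSup_le fun h1 => ?_
    exact ENNReal.le_sub_of_add_le_right hBt (hK1B K1 hs1 h1)
  exact add_le_of_le_tsub_right_of_le hBC h3

/-- the version with midpoints -/
theorem bm_mid {A B C : Set ℝ} (hA : MeasurableSet A) (hB : MeasurableSet B)
    (hAn : A.Nonempty) (hBn : B.Nonempty) (h : ∀ a ∈ A, ∀ b ∈ B, (a + b) / 2 ∈ C) :
    volume A + volume B ≤ 2 * volume C := by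
  have h1 : volume ((2 : ℝ) • C) = 2 * volume C := by
    rw [Measure.addHaar_smul]
    simp
  rw [← h1]
  refine bm_line hA hB hAn hBn fun a ha b hb => ?_
  exact ⟨(a + b) / 2, h a ha b hb, by simp only [smul_eq_mul]; ring⟩

/-- the layer step -/
theorem layer {u v h : ℝ → ℝ} (hu : Measurable u) (hv : Measurable v) (hh : Measurable h)
    (hu0 : ∀ x, 0 ≤ u x) (hv0 : ∀ x, 0 ≤ v x) (hh0 : ∀ x, 0 ≤ h x)
    (hu1 : ∀ x, u x ≤ 1) (hv1 : ∀ x, v x ≤ 1)
    (hus : ∀ t < 1, ∃ x, t < u x) (hvs : ∀ t < 1, ∃ x, t < v x)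
    (H : ∀ t x y, 0 < t → t < u x → t < v y → t < h ((x + y) / 2)) :
    (∫⁻ x, ENNReal.ofReal (u x)) + (∫⁻ x, ENNReal.ofReal (v x)) ≤
      2 * ∫⁻ x, ENNReal.ofReal (h x) := by
  rw [lintegral_eq_lintegral_meas_lt volume (Eventually.of_forall hu0) hu.aemeasurable,
    lintegral_eq_lintegral_meas_lt volume (Eventually.of_forall hv0) hv.aemeasurable,
    lintegral_eq_lintegral_meas_lt volume (Eventually.of_forall hh0) hh.aemeasurable]
  have hanti : ∀ f : ℝ → ℝ, Measurable fun t => volume {a : ℝ | t < f a} := by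
    intro f
    apply Antitone.measurable
    intro a b hab
    exact measure_mono fun x hx => lt_of_le_of_lt hab hx
  rw [← lintegral_const_mul _ (hanti h), ← lintegral_add_left (hanti u)]
  apply setLIntegral_mono' measurableSet_Ioi
  intro t ht
  have ht0 : 0 < t := ht
  rcases lt_or_ge t 1 with h1 | h1
  · exact bm_mid (measurableSet_lt measurable_const hu) (measurableSet_lt measurable_const hv)
      (hus t h1) (hvs t h1) fun a ha b hb => H t a b ht0 ha hb
  · have e1 : {a : ℝ | t < u a} = ∅ := by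
      ext x
      simp only [mem_ofPred_eq, mem_empty_iff_false, iff_false, not_lt]
      exact (hu1 x).trans h1
    have e2 : {a : ℝ | t < v a} = ∅ := by
      ext x
      simp only [mem_ofPred_eq, mem_empty_iff_false, iff_false, not_lt]
      exact (hv1 x).trans h1
    rw [e1, e2]
    simp

/-- Prekopa-Leindler for bounded functions with values in `[0, ∞]` -/
theorem pl_bdd {f g h : ℝ → ℝ≥0∞} (hf : Measurable f) (hg : Measurable g) (hh : Measurable h)
    {U V : ℝ} (hU : 0 < U) (hV : 0 < V) (hfU : ∀ x, f x ≤ ENNReal.ofReal U)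
    (hgV : ∀ x, g x ≤ ENNReal.ofReal V) (hfs : ∀ t < U, ∃ x, ENNReal.ofReal t < f x)
    (hgs : ∀ t < V, ∃ x, ENNReal.ofReal t < g x)
    (H : ∀ x y, f x * g y ≤ h ((x + y) / 2) ^ 2) :
    (∫⁻ x, f x) * (∫⁻ x, g x) ≤ (∫⁻ x, h x) ^ 2 := by
  set C : ℝ := √(U * V) with hC
  have hC0 : 0 < C := Real.sqrt_pos.2 (mul_pos hU hV)
  have hCC : C ^ 2 = U * V := Real.sq_sqrt (mul_pos hU hV).le
  have hft : ∀ x, f x ≠ ∞ := fun x => ((hfU x).trans_lt ENNReal.ofReal_lt_top).ne
  have hgt : ∀ x, g x ≠ ∞ := fun x => ((hgV x).trans_lt ENNReal.ofReal_lt_top).ne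
  have hmt : ∀ x, min (h x) (ENNReal.ofReal C) ≠ ∞ := fun x =>
    ((min_le_right _ _).trans_lt ENNReal.ofReal_lt_top).ne
  have key := layer (u := fun x => (f x).toReal / U) (v := fun x => (g x).toReal / V)
    (h := fun x => (min (h x) (ENNReal.ofReal C)).toReal / C)
    (hf.ennreal_toReal.div_const _) (hg.ennreal_toReal.div_const _)
    ((hh.min measurable_const).ennreal_toReal.div_const _)
    (fun x => by positivity) (fun x => by positivity) (fun x => by positivity)
    (fun x => by
      rw [div_le_one hU]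
      exact ENNReal.toReal_le_of_le_ofReal hU.le (hfU x))
    (fun x => by
      rw [div_le_one hV]
      exact ENNReal.toReal_le_of_le_ofReal hV.le (hgV x))
    (fun t ht => by
      obtain ⟨x, hx⟩ := hfs (t * U) (by nlinarith)
      refine ⟨x, ?_⟩
      rw [lt_div_iff₀ hU]
      rcases lt_or_ge (t * U) 0 with h0 | h0
      · exact h0.trans_le ENNReal.toReal_nonneg
      · exact (ENNReal.ofReal_lt_iff_lt_toReal h0 (hft x)).1 hx)
    (fun t ht => by
      obtain ⟨x, hx⟩ := hgs (t * V) (by nlinarith)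
      refine ⟨x, ?_⟩
      rw [lt_div_iff₀ hV]
      rcases lt_or_ge (t * V) 0 with h0 | h0
      · exact h0.trans_le ENNReal.toReal_nonneg
      · exact (ENNReal.ofReal_lt_iff_lt_toReal h0 (hgt x)).1 hx)
    (fun t x y ht hx hy => by
      rw [lt_div_iff₀ hU] at hx
      rw [lt_div_iff₀ hV] at hy
      rw [lt_div_iff₀ hC0]
      set z := (x + y) / 2 with hz
      set w := min (h z) (ENNReal.ofReal C) with hw
      have h1 : (f x).toReal * (g y).toReal ≤ w.toReal ^ 2 := by
        rw [← ENNReal.toReal_mul, ← ENNReal.toReal_pow]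
        refine ENNReal.toReal_mono (ENNReal.pow_ne_top (hmt z)) ?_
        rcases le_total (h z) (ENNReal.ofReal C) with h2 | h2
        · rw [hw, min_eq_left h2]
          exact H x y
        · rw [hw, min_eq_right h2, ← ENNReal.ofReal_pow hC0.le, hCC, ENNReal.ofReal_mul hU.le]
          exact mul_le_mul' (hfU x) (hgV y)
      have h2 : (t * C) ^ 2 < w.toReal ^ 2 := by
        refine lt_of_lt_of_le ?_ h1
        calc (t * C) ^ 2 = (t * U) * (t * V) := by rw [mul_pow, hCC]; ring
          _ < (f x).toReal * (g y).toReal :=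
            mul_lt_mul'' hx hy (by positivity) (by positivity)
      exact lt_of_pow_lt_pow_left₀ 2 ENNReal.toReal_nonneg h2)
  have e1 : ∀ (φ : ℝ → ℝ≥0∞) (c : ℝ), 0 < c → (∀ x, φ x ≠ ∞) →
      ∫⁻ x, ENNReal.ofReal ((φ x).toReal / c) = (∫⁻ x, φ x) / ENNReal.ofReal c := by
    intro φ c hc hφ
    rw [ENNReal.div_eq_inv_mul, ← lintegral_const_mul' _ _ (by simp [hc])]
    refine lintegral_congr fun x => ?_
    rw [ENNReal.ofReal_div_of_pos hc, ENNReal.ofReal_toReal (hφ x), ENNReal.div_eq_inv_mul]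
  rw [e1 f U hU hft, e1 g V hV hgt, e1 _ C hC0 hmt] at key
  have key2 : (∫⁻ x, f x) / ENNReal.ofReal U + (∫⁻ x, g x) / ENNReal.ofReal V ≤
      2 * ((∫⁻ x, h x) / ENNReal.ofReal C) := by
    refine key.trans ?_
    gcongr
    exact min_le_left _ _
  set a := ∫⁻ x, f x
  set b := ∫⁻ x, g x
  set c := ∫⁻ x, h x
  by_cases hc : c = ∞
  · rw [hc]; simp
  have hct : 2 * (c / ENNReal.ofReal C) ≠ ∞ :=
    ENNReal.mul_ne_top (by simp) (ENNReal.div_ne_top hc (by simpa using hC0))
  have ha : a ≠ ∞ := by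
    intro h0
    rw [h0, ENNReal.top_div_of_ne_top ENNReal.ofReal_ne_top, _root_.top_add] at key2
    exact hct (top_le_iff.1 key2)
  have hb : b ≠ ∞ := by
    intro h0
    rw [h0, ENNReal.top_div_of_ne_top ENNReal.ofReal_ne_top, _root_.add_top] at key2
    exact hct (top_le_iff.1 key2)
  have key3 : a.toReal / U + b.toReal / V ≤ 2 * (c.toReal / C) := by
    have h1 := ENNReal.toReal_mono hct key2
    rw [ENNReal.toReal_add (ENNReal.div_ne_top ha (by simpa using hU))
      (ENNReal.div_ne_top hb (by simpa using hV)), ENNReal.toReal_div, ENNReal.toReal_div,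
      ENNReal.toReal_mul, ENNReal.toReal_div, ENNReal.toReal_ofReal hU.le,
      ENNReal.toReal_ofReal hV.le, ENNReal.toReal_ofReal hC0.le] at h1
    simpa using h1
  have key4 : a.toReal * b.toReal ≤ c.toReal ^ 2 := by
    have ha0 : 0 ≤ a.toReal / U := by positivity
    have hb0 : 0 ≤ b.toReal / V := by positivity
    have h1 : (a.toReal / U) * (b.toReal / V) ≤ (c.toReal / C) ^ 2 := by
      nlinarith [sq_nonneg (a.toReal / U - b.toReal / V),
        mul_self_le_mul_self (add_nonneg ha0 hb0) key3]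
    rw [div_mul_div_comm, div_pow, hCC, div_le_div_iff_of_pos_right (mul_pos hU hV)] at h1
    exact h1
  rw [← ENNReal.ofReal_toReal ha, ← ENNReal.ofReal_toReal hb, ← ENNReal.ofReal_toReal hc,
    ← ENNReal.ofReal_mul ENNReal.toReal_nonneg, ← ENNReal.ofReal_pow ENNReal.toReal_nonneg]
  exact ENNReal.ofReal_le_ofReal key4

/-- Prekopa-Leindler on the line -/
theorem pl_line {f g h : ℝ → ℝ≥0∞} (hf : Measurable f) (hg : Measurable g) (hh : Measurable h)
    (H : ∀ x y, f x * g y ≤ h ((x + y) / 2) ^ 2) :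
    (∫⁻ x, f x) * (∫⁻ x, g x) ≤ (∫⁻ x, h x) ^ 2 := by
  -- truncation
  have htr : ∀ (φ : ℝ → ℝ≥0∞), Measurable φ →
      ∫⁻ x, φ x = ⨆ k : ℕ, ∫⁻ x, min (φ x) k := by
    intro φ hφ
    rw [← lintegral_iSup (fun k => hφ.min measurable_const)
      (fun i j hij x => min_le_min_left _ (by exact_mod_cast hij))]
    refine lintegral_congr fun x => ?_
    refine le_antisymm ?_ (iSup_le fun k => min_le_left _ _)
    rcases eq_or_ne (φ x) ∞ with h0 | h0
    · rw [h0]
      simp only [min_eq_right le_top, ENNReal.iSup_natCast, le_refl]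
    · obtain ⟨k, hk⟩ := ENNReal.exists_nat_gt h0
      refine le_iSup_of_le k ?_
      rw [min_eq_left hk.le]
  have hmono : ∀ (φ : ℝ → ℝ≥0∞), Monotone fun k : ℕ => ∫⁻ x, min (φ x) k := by
    intro φ i j hij
    refine lintegral_mono fun x => min_le_min_left _ (by exact_mod_cast hij)
  have hk : ∀ k : ℕ, (∫⁻ x, min (f x) k) * (∫⁻ x, min (g x) k) ≤ (∫⁻ x, h x) ^ 2 := by
    intro k
    set fk : ℝ → ℝ≥0∞ := fun x => min (f x) k with hfk
    set gk : ℝ → ℝ≥0∞ := fun x => min (g x) k with hgk
    set U := ⨆ x, fk x with hU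
    set V := ⨆ x, gk x with hV
    have hUt : U ≠ ∞ := ((iSup_le fun x => min_le_right _ _).trans_lt
      (ENNReal.natCast_lt_top k)).ne
    have hVt : V ≠ ∞ := ((iSup_le fun x => min_le_right _ _).trans_lt
      (ENNReal.natCast_lt_top k)).ne
    by_cases hU0 : U = 0
    · have : ∫⁻ x, fk x = 0 := by
        rw [lintegral_eq_zero_iff (hf.min measurable_const)]
        refine ae_of_all _ fun x => ?_
        have : fk x ≤ 0 := hU0 ▸ le_iSup fk x
        exact le_antisymm this bot_le
      rw [this, zero_mul]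
      exact bot_le
    by_cases hV0 : V = 0
    · have : ∫⁻ x, gk x = 0 := by
        rw [lintegral_eq_zero_iff (hg.min measurable_const)]
        refine ae_of_all _ fun x => ?_
        have : gk x ≤ 0 := hV0 ▸ le_iSup gk x
        exact le_antisymm this bot_le
      rw [this, mul_zero]
      exact bot_le
    have hUp : 0 < U.toReal := ENNReal.toReal_pos hU0 hUt
    have hVp : 0 < V.toReal := ENNReal.toReal_pos hV0 hVt
    refine pl_bdd (hf.min measurable_const) (hg.min measurable_const) hh hUp hVp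
      (fun x => by rw [ENNReal.ofReal_toReal hUt]; exact le_iSup fk x)
      (fun x => by rw [ENNReal.ofReal_toReal hVt]; exact le_iSup gk x) ?_ ?_ ?_
    · intro t ht
      have h1 : ENNReal.ofReal t < U := by
        rw [← ENNReal.ofReal_toReal hUt]
        exact (ENNReal.ofReal_lt_ofReal_iff hUp).2 ht
      exact lt_iSup_iff.1 h1
    · intro t ht
      have h1 : ENNReal.ofReal t < V := by
        rw [← ENNReal.ofReal_toReal hVt]
        exact (ENNReal.ofReal_lt_ofReal_iff hVp).2 ht
      exact lt_iSup_iff.1 h1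
    · intro x y
      exact (mul_le_mul' (min_le_left _ _) (min_le_left _ _)).trans (H x y)
  rw [htr f hf, htr g hg, ENNReal.iSup_mul]
  refine iSup_le fun i => ?_
  rw [ENNReal.mul_iSup]
  refine iSup_le fun j => ?_
  exact (mul_le_mul' (hmono f (le_max_left i j)) (hmono g (le_max_right i j))).trans (hk _)

/-! ### Prekopa-Leindler in all dimensions -/

theorem lintegral_fin_succ (n : ℕ) {f : (Fin (n + 1) → ℝ) → ℝ≥0∞} (hf : Measurable f) :
    ∫⁻ x, f x = ∫⁻ s : ℝ, ∫⁻ x : Fin n → ℝ, f (Fin.cons s x) := by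
  have h := (volume_preserving_piFinSuccAbove (fun _ : Fin (n + 1) => ℝ) 0).symm
  rw [← h.lintegral_comp hf, volume_eq_prod, lintegral_prod]
  · refine lintegral_congr fun s => lintegral_congr fun x => ?_
    have e : (MeasurableEquiv.piFinSuccAbove (fun _ : Fin (n + 1) => ℝ) 0).symm (s, x) =
        Fin.cons s x := Fin.insertNth_zero' s x
    rw [e]
  · exact (hf.comp (MeasurableEquiv.measurable _)).aemeasurable

theorem measurable_cons (n : ℕ) : Measurable fun p : ℝ × (Fin n → ℝ) =>
    (Fin.cons p.1 p.2 : Fin (n + 1) → ℝ) := by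
  refine measurable_pi_iff.2 fun i => ?_
  refine Fin.cases ?_ (fun j => ?_) i
  · simpa using measurable_fst
  · have h1 : Measurable fun p : ℝ × (Fin n → ℝ) => p.2 j :=
      (measurable_pi_apply j).comp measurable_snd
    simpa using h1

theorem pl_pi (n : ℕ) : ∀ f g h : (Fin n → ℝ) → ℝ≥0∞, Measurable f → Measurable g →
    Measurable h → (∀ x y, f x * g y ≤ h ((1 / 2 : ℝ) • (x + y)) ^ 2) →
    (∫⁻ x, f x) * (∫⁻ x, g x) ≤ (∫⁻ x, h x) ^ 2 := by
  induction n with
  | zero =>
    intro f g h hf hg hh H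
    rw [volume_pi_eq_dirac 0, lintegral_dirac, lintegral_dirac, lintegral_dirac]
    have := H 0 0
    rwa [show (1 / 2 : ℝ) • ((0 : Fin 0 → ℝ) + 0) = 0 from Subsingleton.elim _ _] at this
  | succ n ih =>
    intro f g h hf hg hh H
    rw [lintegral_fin_succ n hf, lintegral_fin_succ n hg, lintegral_fin_succ n hh]
    have hm : ∀ {φ : (Fin (n + 1) → ℝ) → ℝ≥0∞}, Measurable φ →
        Measurable fun s : ℝ => ∫⁻ x : Fin n → ℝ, φ (Fin.cons s x) := fun {φ} hφ =>
      (hφ.comp (measurable_cons n)).lintegral_prod_right'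
    refine pl_line (hm hf) (hm hg) (hm hh) fun s t => ?_
    have hs : ∀ {φ : (Fin (n + 1) → ℝ) → ℝ≥0∞}, Measurable φ → ∀ s : ℝ,
        Measurable fun x : Fin n → ℝ => φ (Fin.cons s x) := fun {φ} hφ s =>
      (hφ.comp (measurable_cons n)).comp (measurable_const.prodMk measurable_id)
    refine ih _ _ _ (hs hf s) (hs hg t) (hs hh _) fun x y => ?_
    refine (H (Fin.cons s x) (Fin.cons t y)).trans (le_of_eq ?_)
    congr 2
    funext i
    refine Fin.cases ?_ (fun j => ?_) i
    · simp; ring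
    · simp; ring

/-! ### The isodiametric inequality -/

/-- `vol K ≤ vol ((K - K) / 2)` -/
theorem vol_le_half_diff (n : ℕ) {K M : Set (EuclideanSpace ℝ (Fin n))} (hK : IsCompact K)
    (hM : MeasurableSet M) (h : ∀ a ∈ K, ∀ b ∈ K, (1 / 2 : ℝ) • (a - b) ∈ M) :
    volume K ≤ volume M := by
  have hKm : MeasurableSet K := hK.isClosed.measurableSet
  have hmp := PiLp.volume_preserving_toLp (Fin n)
  have hmeas := hmp.measurable
  have hvol : ∀ {S : Set (EuclideanSpace ℝ (Fin n))}, MeasurableSet S →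
      ∫⁻ x : Fin n → ℝ, S.indicator (fun _ => (1 : ℝ≥0∞)) (WithLp.toLp 2 x) = volume S := by
    intro S hS
    rw [hmp.lintegral_comp (measurable_const.indicator hS)]
    exact lintegral_indicator_one hS
  have hneg : volume (-K) = volume K := Measure.measure_neg volume K
  have hKn : MeasurableSet (-K) := hKm.neg
  have key := pl_pi n (fun x => K.indicator (fun _ => (1 : ℝ≥0∞)) (WithLp.toLp 2 x))
    (fun x => (-K).indicator (fun _ => (1 : ℝ≥0∞)) (WithLp.toLp 2 x))
    (fun x => M.indicator (fun _ => (1 : ℝ≥0∞)) (WithLp.toLp 2 x))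
    ((measurable_const.indicator hKm).comp hmeas) ((measurable_const.indicator hKn).comp hmeas)
    ((measurable_const.indicator hM).comp hmeas) (fun x y => by
      by_cases hx : WithLp.toLp 2 x ∈ K
      · by_cases hy : WithLp.toLp 2 y ∈ -K
        · have h1 : WithLp.toLp 2 ((1 / 2 : ℝ) • (x + y)) ∈ M := by
            have h2 := h _ hx _ (Set.mem_neg.1 hy)
            rwa [sub_neg_eq_add] at h2
          rw [indicator_of_mem hx, indicator_of_mem hy, indicator_of_mem h1]
          simp
        · rw [indicator_of_notMem hy, mul_zero]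
          exact bot_le
      · rw [indicator_of_notMem hx, zero_mul]
        exact bot_le)
  rw [hvol hKm, hvol hKn, hvol hM, hneg, ← sq] at key
  exact (ENNReal.pow_le_pow_left_iff (n := 2) (by norm_num)).1 key

/-- The isodiametric inequality. -/
theorem isodiam (n : ℕ) (A : Set (EuclideanSpace ℝ (Fin (n + 1)))) :
    volume A ≤ volume (closedBall (0 : EuclideanSpace ℝ (Fin (n + 1))) 1) *
      (ediam A / 2) ^ (n + 1) := by
  rcases A.eq_empty_or_nonempty with h0 | hne
  · rw [h0]; simp
  by_cases hd : ediam A = ∞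
  · have h1 : volume (closedBall (0 : EuclideanSpace ℝ (Fin (n + 1))) 1) ≠ 0 :=
      (measure_closedBall_pos volume _ one_pos).ne'
    rw [hd, ENNReal.top_div_of_ne_top (by simp), ENNReal.top_pow (by omega),
      ENNReal.mul_top h1]
    exact le_top
  have hb : Bornology.IsBounded A := isBounded_iff_ediam_ne_top.2 hd
  set K := closure A with hK
  have hKc : IsCompact K := hb.isCompact_closure
  have hdK : ediam K = ediam A := ediam_closure A
  set r := (ediam A).toReal / 2 with hr
  have hr0 : 0 ≤ r := by positivity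
  have h1 : volume K ≤ volume (closedBall (0 : EuclideanSpace ℝ (Fin (n + 1))) r) := by
    refine vol_le_half_diff (n + 1) hKc isClosed_closedBall.measurableSet fun a ha b hb => ?_
    rw [mem_closedBall, dist_zero_right, norm_smul, ← dist_eq_norm, hr]
    have h2 : dist a b ≤ (ediam A).toReal := by
      rw [← hdK, dist_edist]
      exact ENNReal.toReal_mono (by rw [hdK]; exact hd) (edist_le_ediam_of_mem ha hb)
    rw [Real.norm_eq_abs, abs_of_pos (by norm_num : (0 : ℝ) < 1 / 2)]
    linarith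
  refine (measure_mono subset_closure).trans (h1.trans (le_of_eq ?_))
  rw [Measure.addHaar_closedBall _ _ hr0, mul_comm]
  have hrd : ENNReal.ofReal r = ediam A / 2 := by
    rw [hr, ENNReal.ofReal_div_of_pos (by norm_num), ENNReal.ofReal_toReal hd]
    simp
  rw [ENNReal.ofReal_pow hr0, hrd]
  simp [addHaar_closedBall_eq_addHaar_ball]

/-- the constant `vol (B_1) / 2^N` -/
noncomputable def cN (n : ℕ) : ℝ≥0∞ :=
  volume (closedBall (0 : EuclideanSpace ℝ (Fin (n + 1))) 1) / 2 ^ (n + 1)

theorem cN_ne_zero (n : ℕ) : cN n ≠ 0 := by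
  unfold cN
  exact (ENNReal.div_pos (measure_closedBall_pos volume _ one_pos).ne' (by simp)).ne'

theorem cN_ne_top (n : ℕ) : cN n ≠ ∞ := by
  unfold cN
  exact ENNReal.div_ne_top measure_closedBall_lt_top.ne (by simp)

theorem vol_le_hausdorff (n : ℕ) (A : Set (EuclideanSpace ℝ (Fin (n + 1)))) :
    volume A ≤ cN n * (μH[((n + 1 : ℕ) : ℝ)] : Measure _) A := by
  have h1 : volume A / cN n ≤ (μH[((n + 1 : ℕ) : ℝ)] : Measure _) A := by
    rw [hausdorffMeasure_apply]
    refine le_iSup₂_of_le 1 one_pos ?_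
    refine le_iInf fun t => le_iInf fun ht => le_iInf fun _ => ?_
    refine ENNReal.div_le_of_le_mul ?_
    rw [mul_comm]
    calc volume A ≤ volume (⋃ k, t k) := measure_mono ht
      _ ≤ ∑' k, volume (t k) := measure_iUnion_le _
      _ ≤ ∑' k, cN n * ⨆ _ : (t k).Nonempty, ediam (t k) ^ ((n + 1 : ℕ) : ℝ) := by
          refine ENNReal.tsum_le_tsum fun k => ?_
          rcases (t k).eq_empty_or_nonempty with h0 | h0
          · rw [h0]; simp
          · rw [ciSup_pos h0, ENNReal.rpow_natCast]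
            refine (isodiam n (t k)).trans (le_of_eq ?_)
            unfold cN
            rw [ENNReal.div_eq_inv_mul, ENNReal.div_eq_inv_mul, mul_pow, ← ENNReal.inv_pow]
            ring
      _ = _ := ENNReal.tsum_mul_left
  have h2 := mul_le_mul_right h1 (cN n)
  rwa [ENNReal.mul_div_cancel (cN_ne_zero n) (cN_ne_top n)] at h2

theorem factor_le (n : ℕ) :
    ((addHaarScalarFactor (volume : Measure (EuclideanSpace ℝ (Fin (n + 1))))
      μH[((n + 1 : ℕ) : ℝ)] : ℝ≥0) : ℝ≥0∞) ≤ cN n := by
  set B := closedBall (0 : EuclideanSpace ℝ (Fin (n + 1))) 1 with hB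
  have h := isAddLeftInvariant_eq_smul
    (volume : Measure (EuclideanSpace ℝ (Fin (n + 1)))) μH[((n + 1 : ℕ) : ℝ)]
  have h1 := congr($h B)
  rw [Measure.smul_apply, ENNReal.smul_def, smul_eq_mul] at h1
  have h2 := vol_le_hausdorff n B
  rw [h1] at h2
  have h3 : (μH[((n + 1 : ℕ) : ℝ)] : Measure (EuclideanSpace ℝ (Fin (n + 1)))) B ≠ 0 :=
    (measure_closedBall_pos _ _ one_pos).ne'
  have h4 : (μH[((n + 1 : ℕ) : ℝ)] : Measure (EuclideanSpace ℝ (Fin (n + 1)))) B ≠ ∞ :=
    measure_closedBall_lt_top.ne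
  exact (ENNReal.mul_le_mul_iff_left h3 h4).1 h2

/-- `μHE[N] ≤ (vol (B_1) / 2^N) μH[N]` on every metric space. -/
theorem muHE_le (n : ℕ) {X : Type*} [EMetricSpace X] [MeasurableSpace X] [BorelSpace X]
    (A : Set X) : (μHE[n + 1] : Measure X) A ≤
      cN n * (μH[((n + 1 : ℕ) : ℝ)] : Measure X) A := by
  rw [euclideanHausdorffMeasure_def, Measure.smul_apply, ENNReal.smul_def, smul_eq_mul]
  gcongr
  exact factor_le n

end Pool.Agent.BDRY.Iso
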