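import Pool.Agent.Work.MP_209cb6_gt.B2.BG
import Pool.Agent.Work.MP_209cb6_gt.B2.GaussInt
import Pool.Agent.Work.MP_209cb6_gt.B2.Iso

/-!
# The sharp upper volume bound in noncollapsed spaces

If the reference measure is `μHE[n+1]`, then `m (B_R(x)) ≤ ω R^(n+1) exp((n+1) q R)` for every point
`x` and every `R > 0` (Bishop's inequality with the Euclidean constant).
-/

set_option autoImplicit false

open MeasureTheory MeasureTheory.Measure Metric Set Filter Topology
open scoped ENNReal NNReal

namespace Pool.Agent.BDRY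

universe u

theorem volume_closedBall_one (n : ℕ) :
    volume (closedBall (0 : E n) 1) = ENNReal.ofReal (omN n) := by
  rw [omN, ENNReal.ofReal_toReal measure_ball_lt_top.ne, addHaar_closedBall_eq_addHaar_ball]

theorem cN_mul_pow (n : ℕ) {r : ℝ} (hr : 0 ≤ r) :
    Iso.cN n * ENNReal.ofReal (2 * r) ^ (n + 1) = ENNReal.ofReal (omN n * r ^ (n + 1)) := by
  unfold Iso.cN
  rw [volume_closedBall_one, ENNReal.ofReal_mul (by norm_num), mul_pow,
    ENNReal.ofReal_mul (omN_pos n).le, ENNReal.ofReal_pow hr]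
  have h2 : ENNReal.ofReal 2 = 2 := by simp
  rw [h2, ← mul_assoc, ENNReal.div_mul_cancel (by simp) (by simp)]

/-- An open set of finite measure on which `m = μHE[n+1]` has lower density `> 1` is null. -/
theorem density_null {n : ℕ} {X : Type u} [MetricSpace X] [ProperSpace X] [MeasurableSpace X]
    [BorelSpace X] (hfin : ∀ (x : X) (r : ℝ), (μHE[n + 1] : Measure X) (closedBall x r) < ∞)
    {U : Set X} (hU : IsOpen U) (hUf : (μHE[n + 1] : Measure X) U ≠ ∞) {ε r₀ : ℝ} {C : ℝ≥0}
    (hε : 0 < ε) (hr₀ : 0 < r₀)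
    (hd : ∀ x ∈ U, ∀ r, 0 < r → r ≤ r₀ →
      (μHE[n + 1] : Measure X) (closedBall x (3 * r)) ≤ C * (μHE[n + 1] : Measure X) (closedBall x r))
    (hlow : ∀ x ∈ U, ∀ r, 0 < r → r ≤ r₀ →
      ENNReal.ofReal ((1 + ε) * (omN n * r ^ (n + 1))) ≤
        (μHE[n + 1] : Measure X) (closedBall x r)) :
    (μHE[n + 1] : Measure X) U = 0 := by
  set m : Measure X := μHE[n + 1] with hm
  have : IsLocallyFiniteMeasure m :=
    ⟨fun x => ⟨closedBall x 1, closedBall_mem_nhds x one_pos, hfin x 1⟩⟩
  have hε1 : 0 < 1 + ε := by linarith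
  set t : ℕ → Set (X × ℝ) := fun k =>
    {a | a.1 ∈ U ∧ 0 < a.2 ∧ a.2 ≤ r₀ ∧ a.2 ≤ 1 / ((k : ℝ) + 1) ∧ closedBall a.1 a.2 ⊆ U} with ht
  have hV : ∀ k : ℕ, ∃ u ⊆ t k, u.Countable ∧ u.PairwiseDisjoint (fun a => closedBall a.1 a.2) ∧
      m (U \ ⋃ a ∈ u, closedBall a.1 a.2) = 0 := by
    intro k
    refine Vitali.exists_disjoint_covering_ae m U (t k) C (fun a => a.2) (fun a => a.1)
      (fun a => closedBall a.1 a.2) (fun a _ => subset_rfl) ?_ ?_ (fun a _ => isClosed_closedBall) ?_
    · rintro a ⟨h1, h2, h3, -, -⟩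
      exact hd a.1 h1 a.2 h2 h3
    · rintro a ⟨-, h2, -, -, -⟩
      exact ⟨a.1, ball_subset_interior_closedBall (mem_ball_self h2)⟩
    · intro x hx e he
      obtain ⟨δ, hδ, hδU⟩ := nhds_basis_closedBall.mem_iff.1 (hU.mem_nhds hx)
      have hk : (0 : ℝ) < 1 / ((k : ℝ) + 1) := by positivity
      refine ⟨(x, min (min r₀ (1 / ((k : ℝ) + 1))) (min δ e)), ⟨hx, ?_, ?_, ?_, ?_⟩, ?_, rfl⟩
      · exact lt_min (lt_min hr₀ hk) (lt_min hδ he)
      · exact (min_le_left _ _).trans (min_le_left _ _)
      · exact (min_le_left _ _).trans (min_le_right _ _)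
      · exact (closedBall_subset_closedBall ((min_le_right _ _).trans (min_le_left _ _))).trans hδU
      · exact (min_le_right _ _).trans (min_le_right _ _)
  choose u hut huc hud hun using hV
  set N : Set X := ⋃ k, (U \ ⋃ a ∈ u k, closedBall a.1 a.2) with hN
  have hN0 : m N = 0 := measure_iUnion_null hun
  have hA : m (U \ N) = m U := measure_sdiff_null hN0
  set b : ℝ≥0∞ := ENNReal.ofReal (1 / (1 + ε)) * m U with hb
  -- the sums
  have hsum : ∀ k : ℕ, ∑' a : u k, ediam (closedBall (a : X × ℝ).1 (a : X × ℝ).2) ^ ((n + 1 : ℕ) : ℝ) ≤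
      b / Iso.cN n := by
    intro k
    have hck : Countable (u k) := countable_coe_iff.2 (huc k)
    rw [ENNReal.le_div_iff_mul_le (Or.inl (Iso.cN_ne_zero n)) (Or.inl (Iso.cN_ne_top n)), mul_comm,
      ← ENNReal.tsum_mul_left]
    calc ∑' a : u k, Iso.cN n * ediam (closedBall (a : X × ℝ).1 (a : X × ℝ).2) ^ ((n + 1 : ℕ) : ℝ)
        ≤ ∑' a : u k, ENNReal.ofReal (1 / (1 + ε)) * m (closedBall (a : X × ℝ).1 (a : X × ℝ).2) := by
          refine ENNReal.tsum_le_tsum fun a => ?_
          obtain ⟨h1, h2, h3, h4, h5⟩ := hut k a.2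
          have hdi : ediam (closedBall (a : X × ℝ).1 (a : X × ℝ).2) ≤
              ENNReal.ofReal (2 * (a : X × ℝ).2) := by
            refine ediam_le fun y hy z hz => ?_
            rw [edist_dist]
            refine ENNReal.ofReal_le_ofReal ?_
            rw [mem_closedBall] at hy hz
            have h := dist_triangle_right y z (a : X × ℝ).1
            linarith
          calc Iso.cN n * ediam (closedBall (a : X × ℝ).1 (a : X × ℝ).2) ^ ((n + 1 : ℕ) : ℝ)
              ≤ Iso.cN n * ENNReal.ofReal (2 * (a : X × ℝ).2) ^ (n + 1) := by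
                rw [ENNReal.rpow_natCast]
                gcongr
            _ = ENNReal.ofReal (omN n * (a : X × ℝ).2 ^ (n + 1)) := cN_mul_pow n h2.le
            _ = ENNReal.ofReal (1 / (1 + ε)) *
                ENNReal.ofReal ((1 + ε) * (omN n * (a : X × ℝ).2 ^ (n + 1))) := by
                rw [← ENNReal.ofReal_mul (by positivity)]
                congr 1
                field_simp
            _ ≤ _ := by
                gcongr
                exact hlow _ h1 _ h2 h3
      _ = ENNReal.ofReal (1 / (1 + ε)) * ∑' a : u k, m (closedBall (a : X × ℝ).1 (a : X × ℝ).2) :=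
          ENNReal.tsum_mul_left
      _ = ENNReal.ofReal (1 / (1 + ε)) * m (⋃ a ∈ u k, closedBall a.1 a.2) := by
          rw [measure_biUnion (huc k) (hud k) fun a _ => isClosed_closedBall.measurableSet]
      _ ≤ b := by
          rw [hb]
          gcongr
          exact iUnion₂_subset fun a ha => (hut k ha).2.2.2.2
  have hcov : ∀ k : ℕ, U \ N ⊆ ⋃ a : u k, closedBall (a : X × ℝ).1 (a : X × ℝ).2 := by
    intro k x hx
    by_contra h
    refine hx.2 (mem_iUnion.2 ⟨k, hx.1, fun h' => h ?_⟩)
    obtain ⟨a, ha, hxa⟩ := mem_iUnion₂.1 h'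
    exact mem_iUnion.2 ⟨⟨a, ha⟩, hxa⟩
  have hH : (μH[((n + 1 : ℕ) : ℝ)] : Measure X) (U \ N) ≤ b / Iso.cN n := by
    have hcount : ∀ k, Countable (u k) := fun k => countable_coe_iff.2 (huc k)
    have hr : Tendsto (fun k : ℕ => ENNReal.ofReal (2 * (1 / ((k : ℝ) + 1)))) atTop (𝓝 0) := by
      have h1 : Tendsto (fun k : ℕ => 2 * (1 / ((k : ℝ) + 1))) atTop (𝓝 (2 * 0)) :=
        tendsto_one_div_add_atTop_nhds_zero_nat.const_mul 2
      have h2 := ENNReal.tendsto_ofReal h1
      simpa using h2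
    refine (hausdorffMeasure_le_liminf_tsum (ι := fun k => u k) ((n + 1 : ℕ) : ℝ) (U \ N)
      (fun k : ℕ => ENNReal.ofReal (2 * (1 / ((k : ℝ) + 1)))) hr
      (fun k a => closedBall (a : X × ℝ).1 (a : X × ℝ).2) ?_ (Eventually.of_forall hcov)).trans ?_
    · refine Eventually.of_forall fun k a => ?_
      obtain ⟨h1, h2, h3, h4, h5⟩ := hut k a.2
      refine ediam_le fun y hy z hz => ?_
      rw [edist_dist]
      refine ENNReal.ofReal_le_ofReal ?_
      rw [mem_closedBall] at hy hz
      have h := dist_triangle_right y z (a : X × ℝ).1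
      linarith
    · refine liminf_le_of_le (by isBoundedDefault) fun c hc => ?_
      obtain ⟨k, hk⟩ := hc.exists
      exact hk.trans (hsum k)
  have h1 : m U ≤ b := by
    rw [← hA]
    refine (Iso.muHE_le n (U \ N)).trans ?_
    calc Iso.cN n * (μH[((n + 1 : ℕ) : ℝ)] : Measure X) (U \ N) ≤ Iso.cN n * (b / Iso.cN n) := by
          gcongr
      _ = b := ENNReal.mul_div_cancel (Iso.cN_ne_zero n) (Iso.cN_ne_top n)
  by_contra h0
  have h2 : b < m U := by
    rw [hb]
    calc ENNReal.ofReal (1 / (1 + ε)) * m U < 1 * m U := by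
          refine ENNReal.mul_lt_mul_left h0 hUf ?_
          rw [← ENNReal.ofReal_one]
          refine (ENNReal.ofReal_lt_ofReal_iff one_pos).2 ?_
          rw [div_lt_one hε1]
          linarith
      _ = m U := one_mul _
  exact absurd h1 (not_le.2 h2)

/-- **Bishop's inequality** with the Euclidean constant in noncollapsed spaces. -/
theorem vol_upper {K : ℝ} (hK : K ≤ 0) {n : ℕ} {X : Type u} [MetricSpace X] [MeasurableSpace X]
    [BorelSpace X] (hX : IsRCD K (n + 1) X (μHE[n + 1] : Measure X)) (x : X) {R : ℝ} (hR : 0 < R) :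
    (μHE[n + 1] : Measure X).real (closedBall x R) ≤
      omN n * R ^ (n + 1) * Real.exp ((n + 1) * qK K (n + 1) * R) := by
  set m : Measure X := μHE[n + 1] with hm
  have := hX.proper
  by_contra hcon
  rw [not_le] at hcon
  set M := m.real (closedBall x R) with hM
  set q := ((n : ℝ) + 1) * qK K (n + 1) with hq
  have hq0 : 0 ≤ q := mul_nonneg (by positivity) (qK_nonneg _ _)
  have hom := omN_pos n
  -- the radius
  obtain ⟨δ, hδ, hδ1⟩ : ∃ δ : ℝ, 0 < δ ∧
      omN n * (R + δ) ^ (n + 1) * Real.exp (q * (R + δ)) < M := by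
    have hc : Continuous fun δ : ℝ => omN n * (R + δ) ^ (n + 1) * Real.exp (q * (R + δ)) := by
      fun_prop
    have h0 : ∀ᶠ δ in 𝓝[>] (0 : ℝ), omN n * (R + δ) ^ (n + 1) * Real.exp (q * (R + δ)) < M := by
      refine ((hc.tendsto 0).mono_left nhdsWithin_le_nhds).eventually (gt_mem_nhds ?_)
      simpa using hcon
    obtain ⟨δ, h1, h2⟩ := (h0.and self_mem_nhdsWithin).exists
    exact ⟨δ, h2, h1⟩
  have hRδ : 0 < R + δ := by linarith
  set D := omN n * (R + δ) ^ (n + 1) * Real.exp (q * (R + δ)) with hD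
  have hD0 : 0 < D := by positivity
  set ε := M / D - 1 with hε
  have hε0 : 0 < ε := by
    have : 1 < M / D := (one_lt_div hD0).2 hδ1
    linarith
  -- lower bounds
  have hlow : ∀ y ∈ ball x δ, ∀ r, 0 < r → r ≤ R →
      (1 + ε) * (omN n * r ^ (n + 1)) ≤ m.real (closedBall y r) := by
    intro y hy r hr hrR
    have h1 := bg_closedBall hK hX y hr (by linarith : r ≤ R + δ)
    have h2 : M ≤ m.real (closedBall y (R + δ)) := by
      refine ENNReal.toReal_mono (hX.finite_ball y _).ne (measure_mono ?_)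
      intro z hz
      rw [mem_closedBall] at hz ⊢
      rw [mem_ball] at hy
      have := dist_triangle z x y
      rw [dist_comm x y] at this
      linarith
    have h3 : Real.exp (q * (R + δ - r)) ≤ Real.exp (q * (R + δ)) := by
      rw [Real.exp_le_exp]
      nlinarith
    have h4 : M ≤ ((R + δ) / r) ^ (n + 1) * Real.exp (q * (R + δ)) * m.real (closedBall y r) := by
      refine (h2.trans h1).trans ?_
      gcongr
    have h5 : (1 + ε) * (omN n * r ^ (n + 1)) = M * (omN n * r ^ (n + 1) / D) := by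
      rw [hε]; field_simp; ring
    rw [h5]
    calc M * (omN n * r ^ (n + 1) / D)
        ≤ (((R + δ) / r) ^ (n + 1) * Real.exp (q * (R + δ)) * m.real (closedBall y r)) *
            (omN n * r ^ (n + 1) / D) := by gcongr
      _ = m.real (closedBall y r) := by
          rw [hD, div_pow]
          field_simp
  have hd : ∀ y ∈ ball x δ, ∀ r, 0 < r → r ≤ R →
      m (closedBall y (3 * r)) ≤
        ((3 ^ (n + 1) * Real.exp (q * (2 * R))).toNNReal : ℝ≥0) * m (closedBall y r) := by
    intro y _ r hr hrR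
    have h1 := bg_closedBall hK hX y hr (by linarith : r ≤ 3 * r)
    have h2 : m.real (closedBall y (3 * r)) ≤
        (3 ^ (n + 1) * Real.exp (q * (2 * R))) * m.real (closedBall y r) := by
      refine h1.trans ?_
      have e1 : 3 * r / r = 3 := by field_simp
      rw [e1]
      gcongr
      linarith
    rw [← ENNReal.ofReal_toReal (hX.finite_ball y (3 * r)).ne,
      ← ENNReal.ofReal_toReal (hX.finite_ball y r).ne]
    change _ ≤ ENNReal.ofReal _ * _
    rw [← ENNReal.ofReal_mul (by positivity)]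
    exact ENNReal.ofReal_le_ofReal h2
  have hnull := density_null (n := n) (fun y r => hX.finite_ball y r) (U := ball x δ) isOpen_ball
    ((measure_mono ball_subset_closedBall).trans_lt (hX.finite_ball x δ)).ne hε0 hR hd
    (fun y hy r hr hrR => by
      rw [← ENNReal.ofReal_toReal (hX.finite_ball y r).ne]
      exact ENNReal.ofReal_le_ofReal (hlow y hy r hr hrR))
  exact (hX.pos_ball x δ hδ).ne' hnull

end Pool.Agent.BDRY
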