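import Pool.Agent.Work.MP_209cb6_gt.B2.ColdIn
import Pool.Agent.Work.MP_209cb6_gt.B2.Upper

/-!
# Points of density close to one have a neighbourhood all of whose balls are nearly Euclidean
-/

set_option autoImplicit false

open MeasureTheory MeasureTheory.Measure Metric Set Filter Topology
open scoped ENNReal NNReal

namespace Pool.Agent.BDRY

universe u

/-- Bishop's inequality for the ratio `th`. -/
theorem th_upper {K : ℝ} (hK : K ≤ 0) {n : ℕ} {X : Type u} [MetricSpace X] [MeasurableSpace X]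
    [BorelSpace X] (hX : IsRCD K (n + 1) X (μHE[n + 1] : Measure X)) (x : X) {r : ℝ} (hr : 0 < r) :
    th n (μHE[n + 1] : Measure X) r x ≤ Real.exp ((n + 1) * qK K (n + 1) * r) := by
  rw [th_le_iff hr]
  have h1 : (μHE[n + 1] : Measure X).real (ball x r) ≤
      (μHE[n + 1] : Measure X).real (closedBall x r) :=
    measureReal_mono ball_subset_closedBall (hX.finite_ball x r).ne
  refine (h1.trans (vol_upper hK hX x hr)).trans (le_of_eq (by ring))

/-- There is `b₀ < 1` such that a point of density larger than `b₀` has a neighbourhood in which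
all balls at all small scales are nearly Euclidean. -/
theorem lit_ball {K : ℝ} (hK : K ≤ 0) (n : ℕ) {d : ℝ} (hd : 0 < d) :
    ∃ b₀ : ℝ, 0 < b₀ ∧ b₀ < 1 ∧
    ∀ (X : Type u) [MetricSpace X] [MeasurableSpace X] [BorelSpace X] (P : ℝ → X → Measure X),
      IsRCD K (n + 1) X (μHE[n + 1] : Measure X) → HeatKer K n (μHE[n + 1] : Measure X) P →
      ∀ x : X, (∃ r, 0 < r ∧ r < 6 ∧ b₀ < tm K n (μHE[n + 1] : Measure X) r x) →
      ∃ ρ, 0 < ρ ∧ ∀ z ∈ ball x ρ, ∀ s, 0 < s → s ≤ ρ → EuclLike n z s d := by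
  obtain ⟨η, s₀, hη, hη1, hs₀, hs₀1, hwin⟩ := eucl_window.{u} hK n hd
  set q : ℝ := (n + 1) * qK K (n + 1) with hq
  have hq0 : 0 ≤ q := mul_nonneg (by positivity) (qK_nonneg _ _)
  refine ⟨1 - η / 2, by linarith, by linarith, ?_⟩
  intro X _ _ _ P hX hP x ⟨r, hr, hr6, hb⟩
  set m : Measure X := μHE[n + 1] with hm
  -- `l` small
  have hlim : Tendsto (fun l : ℝ => (1 + l) ^ (n + 1) * Real.exp (q * (l * r))) (𝓝 0) (𝓝 1) := by
    have : ContinuousAt (fun l : ℝ => (1 + l) ^ (n + 1) * Real.exp (q * (l * r))) 0 := by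
      fun_prop
    have h := this.tendsto
    simpa using h
  have hlim2 : Tendsto (fun t : ℝ => Real.exp (q * t)) (𝓝 0) (𝓝 1) := by
    have : ContinuousAt (fun t : ℝ => Real.exp (q * t)) 0 := by fun_prop
    have h := this.tendsto
    simpa using h
  obtain ⟨l, hl0, hl1, hl⟩ : ∃ l : ℝ, 0 < l ∧ l ≤ 1 ∧
      (1 + l) ^ (n + 1) * Real.exp (q * (l * r)) ≤ 1 + η / 2 := by
    have h1 : ∀ᶠ l in 𝓝[>] (0 : ℝ), (1 + l) ^ (n + 1) * Real.exp (q * (l * r)) < 1 + η / 2 :=
      (hlim.mono_left nhdsWithin_le_nhds).eventually_lt_const (by linarith)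
    have h2 : ∀ᶠ l in 𝓝[>] (0 : ℝ), l < 1 := by
      filter_upwards [Ioo_mem_nhdsGT (one_pos)] with l hl using hl.2
    obtain ⟨l, ⟨ha, hb⟩, hc⟩ := ((h1.and h2).and self_mem_nhdsWithin).exists
    exact ⟨l, hc, hb.le, ha.le⟩
  obtain ⟨t, ht0, ht⟩ : ∃ t : ℝ, 0 < t ∧ Real.exp (q * t) ≤ 1 + η := by
    have h1 : ∀ᶠ t in 𝓝[>] (0 : ℝ), Real.exp (q * t) < 1 + η :=
      (hlim2.mono_left nhdsWithin_le_nhds).eventually_lt_const (by linarith)
    obtain ⟨t, ha, hc⟩ := (h1.and self_mem_nhdsWithin).exists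
    exact ⟨t, hc, ha.le⟩
  -- lower bound near `x`
  have hlow : ∀ z, dist x z ≤ l * r → ∀ r', 0 < r' → r' ≤ r → 1 - η ≤ th n m r' z := by
    intro z hz r' hr' hr'r
    have h1 := tm_nbr hK hX hz hr
    rw [show r + l * r = (1 + l) * r by ring, mul_div_assoc, div_self hr.ne', mul_one] at h1
    have h2 : tm K n m ((1 + l) * r) z ≤ tm K n m r' z :=
      tm_anti hK hX z hr' (by nlinarith)
    have h3 : tm K n m r' z ≤ th n m r' z := tm_le_th hr'.le z
    have h4 : 0 ≤ th n m r' z := th_nonneg hr'.le z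
    have h5 : 1 - η / 2 < (1 + η / 2) * th n m r' z := by
      calc 1 - η / 2 < tm K n m r x := hb
        _ ≤ (1 + l) ^ (n + 1) * Real.exp (q * (l * r)) * tm K n m ((1 + l) * r) z := h1
        _ ≤ (1 + l) ^ (n + 1) * Real.exp (q * (l * r)) * th n m r' z := by
            gcongr
            exact h2.trans h3
        _ ≤ (1 + η / 2) * th n m r' z := by gcongr
    by_contra hcon
    rw [not_le] at hcon
    have h6 : (1 + η / 2) * th n m r' z ≤ (1 + η / 2) * (1 - η) := by gcongr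
    nlinarith
  have hup : ∀ z, ∀ r', 0 < r' → r' ≤ t → th n m r' z ≤ 1 + η := by
    intro z r' hr' hr't
    refine (th_upper hK hX z hr').trans (le_trans ?_ ht)
    exact Real.exp_le_exp.2 (mul_le_mul_of_nonneg_left hr't hq0)
  set ρ : ℝ := min s₀ (η * min (l * r / 4) (min r t)) with hρ
  have hρ0 : 0 < ρ := by positivity
  have hρ1 : ρ ≤ s₀ := min_le_left _ _
  have hρ2 : ρ ≤ η * min (l * r / 4) (min r t) := min_le_right _ _
  have hρ3 : ρ / η ≤ min (l * r / 4) (min r t) := by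
    rw [div_le_iff₀ hη]
    linarith
  have hρ4 : ρ / η ≤ l * r / 4 := hρ3.trans (min_le_left _ _)
  have hρ5 : ρ / η ≤ r := hρ3.trans ((min_le_right _ _).trans (min_le_left _ _))
  have hρ6 : ρ / η ≤ t := hρ3.trans ((min_le_right _ _).trans (min_le_right _ _))
  have hρ7 : ρ ≤ ρ / η := by
    rw [le_div_iff₀ hη]
    nlinarith
  refine ⟨ρ, hρ0, ?_⟩
  intro z hz s hs hsρ
  refine hwin X m P hX hP z s 1 hs (hsρ.trans hρ1) one_pos ?_
  intro z' hz' r' hr1 hr2
  have hr'0 : 0 < r' := lt_of_lt_of_le (mul_pos hη hs) hr1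
  have hsη : s / η ≤ ρ / η := by gcongr
  rw [mul_one, mul_one]
  refine ⟨hlow z' ?_ r' hr'0 (hr2.trans (hsη.trans hρ5)), hup z' r' hr'0 (hr2.trans (hsη.trans hρ6))⟩
  have h1 : dist z' z ≤ ρ / η := (mem_closedBall.1 hz').trans hsη
  have h2 : dist z x < ρ := mem_ball.1 hz
  have h3 : dist x z' ≤ dist z x + dist z' z := by
    rw [dist_comm z x, dist_comm z' z]
    exact dist_triangle _ _ _
  linarith

end Pool.Agent.BDRY
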