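import Pool.Agent.Work.MP_209cb6_gt.B2.LitDefs

/-!
# B2, module LIT: tangent cones of geodesic spaces are geodesic
-/

set_option autoImplicit false

open MeasureTheory MeasureTheory.Measure Metric Set Filter Topology
open scoped ENNReal NNReal

namespace Pool.Agent.BDRY

universe u

/-- Approximate intermediate points in a tangent cone. -/
theorem lit_geod_approx {X Y : Type u} [MetricSpace X] [MetricSpace Y] {x : X} {y₀ : Y}
    (hG : Geod X) (hT : IsTangentCone x y₀) (a b : Y) {t : ℝ} (ht : 0 ≤ t) (ht1 : t ≤ 1) {η : ℝ}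
    (hη : 0 < η) : ∃ c : Y, |dist a c - t * dist a b| ≤ η ∧ |dist c b - (1 - t) * dist a b| ≤ η := by
  obtain ⟨s, R, e, f, hs, -, hR, he, hf0, hfd, hfs⟩ := hT
  have h1 : ∀ᶠ k in atTop, 4 * (dist a y₀ + dist b y₀) + 10 < R k := hR.eventually_gt_atTop _
  have h2 : ∀ᶠ k in atTop, e k < min 1 (η / 5) := he.eventually (gt_mem_nhds (by positivity))
  have h3 : ∀ᶠ k in atTop, -1 < e k := he.eventually (lt_mem_nhds (by norm_num))
  obtain ⟨k, ⟨hk1, hk2⟩, hk3⟩ := ((h1.and h2).and h3).exists
  have hk4 : e k < 1 := hk2.trans_le (min_le_left _ _)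
  have hk5 : e k < η / 5 := hk2.trans_le (min_le_right _ _)
  have hsk := hs k
  have hda : 0 ≤ dist a y₀ := dist_nonneg
  have hdb : 0 ≤ dist b y₀ := dist_nonneg
  have hx : x ∈ ball x (R k * s k) := mem_ball_self (mul_pos (by linarith) hsk)
  obtain ⟨p, hp, hp'⟩ := hfs k a (by linarith)
  obtain ⟨q, hq, hq'⟩ := hfs k b (by linarith)
  have he0 : 0 ≤ e k := dist_nonneg.trans hp'
  -- distances to `x`
  have hpx : dist p x ≤ (dist a y₀ + 2) * s k := by
    have e1 := (abs_le.1 (hfd k p hp x hx)).2
    rw [hf0] at e1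
    have e2 := dist_triangle (f k p) a y₀
    have e3 : dist p x / s k ≤ dist a y₀ + 2 := by linarith
    exact (div_le_iff₀ hsk).1 e3
  have hqx : dist q x ≤ (dist b y₀ + 2) * s k := by
    have e1 := (abs_le.1 (hfd k q hq x hx)).2
    rw [hf0] at e1
    have e2 := dist_triangle (f k q) b y₀
    have e3 : dist q x / s k ≤ dist b y₀ + 2 := by linarith
    exact (div_le_iff₀ hsk).1 e3
  obtain ⟨m, hm1, hm2⟩ := hG p q t ht ht1
  have hpq : dist p q ≤ (dist a y₀ + dist b y₀ + 4) * s k := by
    have := dist_triangle_right p q x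
    nlinarith
  have hmx : m ∈ ball x (R k * s k) := by
    rw [mem_ball]
    have e1 := dist_triangle m p x
    rw [dist_comm m p, hm1] at e1
    have e2 : t * dist p q ≤ 1 * dist p q := by gcongr
    calc dist m x ≤ t * dist p q + dist p x := e1
      _ ≤ (2 * (dist a y₀ + dist b y₀) + 6) * s k := by nlinarith
      _ < R k * s k := by
        have : 2 * (dist a y₀ + dist b y₀) + 6 < R k := by linarith
        gcongr
  have d1 := hfd k p hp m hmx
  have d2 := hfd k m hmx q hq
  have d3 := hfd k p hp q hq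
  rw [hm1] at d1
  rw [hm2] at d2
  have d4 : |dist a b - dist (f k p) (f k q)| ≤ 2 * e k := by
    rw [abs_le]
    have t1 := dist_triangle4 a (f k p) (f k q) b
    have t2 := dist_triangle4 (f k p) a b (f k q)
    rw [dist_comm a (f k p)] at t1
    rw [dist_comm b (f k q)] at t2
    constructor <;> linarith
  -- `D = dist p q / s k` is near `dist a b`
  set D := dist p q / s k with hD
  have d5 : |D - dist a b| ≤ 3 * e k := by
    rw [abs_le] at d3 d4 ⊢
    constructor <;> linarith [d3.1, d3.2, d4.1, d4.2]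
  have e1 : t * dist p q / s k = t * D := by rw [hD]; ring
  have e2 : (1 - t) * dist p q / s k = (1 - t) * D := by rw [hD]; ring
  rw [e1] at d1
  rw [e2] at d2
  have d6 : |t * D - t * dist a b| ≤ 3 * e k := by
    rw [← mul_sub, abs_mul, abs_of_nonneg ht]
    calc t * |D - dist a b| ≤ 1 * |D - dist a b| := by gcongr
      _ ≤ 3 * e k := by linarith
  have d7 : |(1 - t) * D - (1 - t) * dist a b| ≤ 3 * e k := by
    rw [← mul_sub, abs_mul, abs_of_nonneg (by linarith : 0 ≤ 1 - t)]
    calc (1 - t) * |D - dist a b| ≤ 1 * |D - dist a b| := by gcongr; linarith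
      _ ≤ 3 * e k := by linarith
  refine ⟨f k m, ?_, ?_⟩
  · have t1 := dist_triangle a (f k p) (f k m)
    have t2 := dist_triangle (f k p) a (f k m)
    rw [dist_comm a (f k p)] at t1
    rw [abs_le] at d1 d6 ⊢
    constructor <;> linarith [d1.1, d1.2, d6.1, d6.2]
  · have t1 := dist_triangle (f k m) (f k q) b
    have t2 := dist_triangle (f k m) b (f k q)
    rw [dist_comm b (f k q)] at t2
    rw [abs_le] at d2 d7 ⊢
    constructor <;> linarith [d2.1, d2.2, d7.1, d7.2]

/-- A proper tangent cone of a geodesic space is geodesic. -/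
theorem lit_geod {X Y : Type u} [MetricSpace X] [MetricSpace Y] [ProperSpace Y] {x : X} {y₀ : Y}
    (hG : Geod X) (hT : IsTangentCone x y₀) : Geod Y := by
  intro a b t ht ht1
  -- minimise the defect on a large ball
  set g : Y → ℝ := fun c => |dist a c - t * dist a b| + |dist c b - (1 - t) * dist a b| with hg
  have hgc : Continuous g := by fun_prop
  obtain ⟨c, hc, hmin⟩ := (isCompact_closedBall a (dist a b + 1)).exists_isMinOn
    ⟨a, mem_closedBall_self (by positivity)⟩ hgc.continuousOn
  have h0 : g c ≤ 0 := by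
    refine le_of_forall_pos_le_add fun η hη => ?_
    obtain ⟨c', h1, h2⟩ := lit_geod_approx hG hT a b ht ht1 (η := min 1 (η / 2)) (by positivity)
    have h3 : c' ∈ closedBall a (dist a b + 1) := by
      rw [mem_closedBall, dist_comm]
      have e1 := (abs_le.1 h1).2
      have e2 : t * dist a b ≤ 1 * dist a b := by gcongr
      linarith [min_le_left 1 (η / 2)]
    have h4 : g c ≤ g c' := hmin h3
    have h5 : g c' ≤ η := by
      simp only [hg]
      linarith [min_le_right 1 (η / 2)]
    linarith
  have h1 : |dist a c - t * dist a b| = 0 := by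
    simp only [hg] at h0
    have e1 := abs_nonneg (dist a c - t * dist a b)
    have e2 := abs_nonneg (dist c b - (1 - t) * dist a b)
    linarith
  have h2 : |dist c b - (1 - t) * dist a b| = 0 := by
    simp only [hg] at h0
    have e1 := abs_nonneg (dist a c - t * dist a b)
    have e2 := abs_nonneg (dist c b - (1 - t) * dist a b)
    linarith
  rw [abs_eq_zero, sub_eq_zero] at h1 h2
  exact ⟨c, h1, h2⟩

end Pool.Agent.BDRY
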