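import Pool.Agent.Work.MP_209cb6_gt.Defs

/-!
# Tangent cones, the singular strata and the boundary
-/

set_option autoImplicit false

open MeasureTheory MeasureTheory.Measure Metric Set Filter Topology
open scoped ENNReal NNReal

namespace Pool.Agent.BDRY

universe u

/-- The pointed metric space `(Y, y₀)` is a tangent cone of `X` at `x`: along a sequence of scales
`s k → 0` the pointed spaces `(X, d / s k, x)` converge to `(Y, y₀)` in the pointed Gromov-Hausdorff
sense (`ε k`-isometries `f k` of the balls of radius `R k → ∞`, `ε k → 0`). -/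
def IsTangentCone {X : Type u} [MetricSpace X] (x : X) {Y : Type u} [MetricSpace Y] (y₀ : Y) :
    Prop :=
  ∃ (s R ε : ℕ → ℝ) (f : ℕ → X → Y),
    (∀ k, 0 < s k) ∧ Tendsto s atTop (𝓝 0) ∧ Tendsto R atTop atTop ∧ Tendsto ε atTop (𝓝 0) ∧
    (∀ k, f k x = y₀) ∧
    (∀ k, ∀ a ∈ ball x (R k * s k), ∀ b ∈ ball x (R k * s k),
      |dist a b / s k - dist (f k a) (f k b)| ≤ ε k) ∧
    (∀ k, ∀ y : Y, dist y y₀ < R k - ε k → ∃ a ∈ ball x (R k * s k), dist (f k a) y ≤ ε k)

/-- The points of `X` at which no tangent cone (a proper pointed metric space) is isometric to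
a product `ℝ^j × Z` (with the `ℓ²` product metric; `Z` any metric space). -/
def NoSplit (j : ℕ) (X : Type u) [MetricSpace X] : Set X :=
  {x | ∀ (Y : Type u) [MetricSpace Y] [ProperSpace Y] (y₀ : Y), IsTangentCone x y₀ →
    ∀ (Z : Type u) [MetricSpace Z], IsEmpty (Y ≃ᵢ WithLp 2 (EuclideanSpace ℝ (Fin j) × Z))}

/-- The boundary of an `(n+1)`-dimensional space: the closure of `S^(N-1) \ S^(N-2)`, where
`N = n + 1` and `S^k = NoSplit (k + 1)`. -/
def bdry (n : ℕ) (X : Type u) [MetricSpace X] : Set X :=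
  closure (NoSplit (n + 1) X \ NoSplit n X)

end Pool.Agent.BDRY
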