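import Pool.Agent.Work.MP_209cb6_gt.B2.Config
import Pool.Agent.Work.MP_209cb6_gt.B2.LitDefs

/-!
# B2, module LIT (c): a space with near Euclidean balls which splits off `ℝ^n` splits off `ℝ^(n+1)`
-/

set_option autoImplicit false

open MeasureTheory MeasureTheory.Measure Metric Set Filter Topology
open scoped ENNReal NNReal

namespace Pool.Agent.BDRY

universe u

theorem EuclLike.mono {X : Type*} [MetricSpace X] {n : ℕ} {x : X} {ρ δ δ' : ℝ} (hρ : 0 ≤ ρ)
    (hδ : δ ≤ δ') (h : EuclLike n x ρ δ) : EuclLike n x ρ δ' := by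
  obtain ⟨f, h1, h2, h3⟩ := h
  have h4 : δ * ρ ≤ δ' * ρ := by gcongr
  refine ⟨f, h1, fun a ha b hb => (h2 a ha b hb).trans h4, fun y hy => ?_⟩
  obtain ⟨a, ha, ha'⟩ := h3 y (by linarith)
  exact ⟨a, ha, ha'.trans h4⟩

theorem EuclLike.trans_iso {X Y : Type*} [MetricSpace X] [MetricSpace Y] (Φ : X ≃ᵢ Y) {n : ℕ}
    {y : Y} {ρ δ : ℝ} (h : EuclLike n (Φ.symm y) ρ δ) : EuclLike n y ρ δ := by
  obtain ⟨f, h1, h2, h3⟩ := h
  have hb : ∀ a ∈ ball y ρ, Φ.symm a ∈ ball (Φ.symm y) ρ := by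
    intro a ha
    rw [mem_ball, Φ.symm.dist_eq]
    exact ha
  refine ⟨fun a => f (Φ.symm a), h1, fun a ha b hb' => ?_, fun v hv => ?_⟩
  · have := h2 _ (hb a ha) _ (hb b hb')
    rwa [Φ.symm.dist_eq] at this
  · obtain ⟨a, ha, ha'⟩ := h3 v hv
    refine ⟨Φ a, ?_, by simpa using ha'⟩
    rw [mem_ball] at ha ⊢
    have := Φ.dist_eq a (Φ.symm y)
    rw [Φ.apply_symm_apply] at this
    rw [this]
    exact ha

section prod
variable {n : ℕ} {Z : Type u} [MetricSpace Z]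

theorem wlp_dist_eq {A B : Type*} [MetricSpace A] [MetricSpace B] (a b : WithLp 2 (A × B)) :
    dist a b ^ 2 = dist a.fst b.fst ^ 2 + dist a.snd b.snd ^ 2 := by
  rw [WithLp.prod_dist_eq_add (by norm_num)]
  rw [ENNReal.toReal_ofNat, Real.rpow_ofNat, Real.rpow_ofNat, ← Real.sqrt_eq_rpow,
    Real.sq_sqrt (by positivity)]

/-- the embedding of the second factor -/
theorem ptz_isometry : Isometry (ptz (n := n) (Z := Z) 0) :=
  Isometry.of_dist_eq fun z z' => ptz_dist_right 0 z z'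

omit [MetricSpace Z] in
theorem range_ptz : range (ptz (n := n) (Z := Z) 0) = {a | dist a.fst 0 = 0} := by
  ext a
  constructor
  · rintro ⟨z, rfl⟩
    exact dist_self _
  · intro ha
    refine ⟨a.snd, ?_⟩
    have h : a.fst = 0 := dist_eq_zero.1 ha
    have : a = ptz a.fst a.snd := rfl
    rw [this, h]
    rfl

theorem proper_snd [ProperSpace (WithLp 2 (EuclideanSpace ℝ (Fin n) × Z))] : ProperSpace Z := by
  have h1 : IsClosed (range (ptz (n := n) (Z := Z) 0)) := by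
    rw [range_ptz]
    refine isClosed_eq ?_ continuous_const
    have : LipschitzWith 1 fun a : WithLp 2 (EuclideanSpace ℝ (Fin n) × Z) => a.fst := by
      refine LipschitzWith.of_dist_le_mul fun a b => ?_
      rw [NNReal.coe_one, one_mul]
      have := wlp_dist_sq a b
      exact le_of_sq_le_sq (by nlinarith [sq_nonneg (dist a.snd b.snd)]) dist_nonneg
    exact this.continuous.dist continuous_const
  have h2 : IsClosedEmbedding (ptz (n := n) (Z := Z) 0) := ⟨ptz_isometry.isEmbedding, h1⟩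
  refine ⟨fun z r => ?_⟩
  have h3 := h2.isCompact_preimage (isCompact_closedBall (ptz 0 z) r)
  convert h3 using 1
  ext c
  rw [mem_preimage, mem_closedBall, mem_closedBall, ptz_dist_right]

theorem geod_snd (hG : Geod (WithLp 2 (EuclideanSpace ℝ (Fin n) × Z))) : Geod Z := by
  intro z z' t ht ht1
  obtain ⟨c, hc1, hc2⟩ := hG (ptz 0 z) (ptz 0 z') t ht ht1
  rw [ptz_dist_right] at hc1 hc2
  have h1 := wlp_dist_sq (ptz (n := n) 0 z) c
  have h2 := wlp_dist_sq c (ptz (n := n) 0 z')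
  rw [hc1] at h1
  rw [hc2] at h2
  have h3 : (ptz (n := n) 0 z).snd = z := rfl
  have h4 : (ptz (n := n) 0 z').snd = z' := rfl
  rw [h3] at h1
  rw [h4] at h2
  have hd : 0 ≤ dist z z' := dist_nonneg
  have h5 : dist z c.snd ≤ t * dist z z' := by
    refine le_of_sq_le_sq ?_ (by positivity)
    nlinarith [sq_nonneg (dist (ptz (n := n) 0 z).fst c.fst)]
  have h6 : dist c.snd z' ≤ (1 - t) * dist z z' := by
    refine le_of_sq_le_sq ?_ (mul_nonneg (by linarith) hd)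
    nlinarith [sq_nonneg (dist c.fst (ptz (n := n) 0 z').fst)]
  have h7 := dist_triangle z c.snd z'
  refine ⟨c.snd, ?_, ?_⟩
  · nlinarith
  · nlinarith

/-- the last coordinate -/
theorem snoc_iso (n : ℕ) : Nonempty (WithLp 2 (EuclideanSpace ℝ (Fin n) × ℝ) ≃ᵢ
    EuclideanSpace ℝ (Fin (n + 1))) := by
  set F : WithLp 2 (EuclideanSpace ℝ (Fin n) × ℝ) → EuclideanSpace ℝ (Fin (n + 1)) :=
    fun a => WithLp.toLp 2 (Fin.snoc (α := fun _ => ℝ) (fun i => a.fst i) a.snd) with hF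
  set G : EuclideanSpace ℝ (Fin (n + 1)) → WithLp 2 (EuclideanSpace ℝ (Fin n) × ℝ) :=
    fun b => WithLp.toLp 2 (WithLp.toLp 2 (fun i => b (Fin.castSucc i)), b (Fin.last n)) with hG
  have hFG : ∀ b, F (G b) = b := by
    intro b
    ext j
    refine Fin.lastCases ?_ (fun i => ?_) j
    · simp [hF, hG]
    · simp [hF, hG]
  have hiso : Isometry F := by
    refine Isometry.of_dist_eq fun a b => ?_
    have h1 : dist (F a) (F b) ^ 2 = dist a b ^ 2 := by
      rw [EuclideanSpace.dist_eq, Real.sq_sqrt (by positivity), wlp_dist_eq,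
        EuclideanSpace.dist_eq, Real.sq_sqrt (by positivity), Fin.sum_univ_castSucc]
      simp [hF]
    exact (pow_left_inj₀ dist_nonneg dist_nonneg two_ne_zero).1 h1
  exact ⟨IsometryEquiv.mk' F G hFG hiso⟩

/-- change of the second factor -/
theorem snd_iso {A B C : Type*} [MetricSpace A] [MetricSpace B] [MetricSpace C] (e : B ≃ᵢ C) :
    Nonempty (WithLp 2 (A × B) ≃ᵢ WithLp 2 (A × C)) := by
  refine ⟨IsometryEquiv.mk' (fun a => WithLp.toLp 2 (a.fst, e a.snd))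
    (fun a => WithLp.toLp 2 (a.fst, e.symm a.snd)) (fun a => ?_) ?_⟩
  · simp
    rfl
  · refine Isometry.of_dist_eq fun a b => ?_
    have h1 : dist (WithLp.toLp 2 (a.fst, e a.snd) : WithLp 2 (A × C))
        (WithLp.toLp 2 (b.fst, e b.snd)) ^ 2 = dist a b ^ 2 := by
      rw [wlp_dist_eq, wlp_dist_eq]
      simp [e.dist_eq]
    exact (pow_left_inj₀ dist_nonneg dist_nonneg two_ne_zero).1 h1

/-- a trivial second factor -/
theorem unit_iso (A : Type*) [MetricSpace A] :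
    Nonempty (A ≃ᵢ WithLp 2 (A × PUnit.{u + 1})) := by
  refine ⟨IsometryEquiv.mk' (fun a => WithLp.toLp 2 (a, PUnit.unit)) (fun a => a.fst)
    (fun a => rfl) ?_⟩
  refine Isometry.of_dist_eq fun a b => ?_
  have h1 : dist (WithLp.toLp 2 (a, PUnit.unit) : WithLp 2 (A × PUnit.{u + 1}))
      (WithLp.toLp 2 (b, PUnit.unit)) ^ 2 = dist a b ^ 2 := by
    rw [wlp_dist_eq]
    simp
  exact (pow_left_inj₀ dist_nonneg dist_nonneg two_ne_zero).1 h1

end prod

/-- **Splitting.** -/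
theorem lit_split (n : ℕ) : ∃ δ : ℝ, 0 < δ ∧ δ ≤ 1 ∧ ∀ (Y : Type u) [MetricSpace Y] [ProperSpace Y]
    [Nonempty Y], Geod Y → (∀ (y : Y) (r : ℝ), 0 < r → EuclLike n y r δ) →
    ∀ (Z : Type u) [MetricSpace Z], (Y ≃ᵢ WithLp 2 (EuclideanSpace ℝ (Fin n) × Z)) →
    Nonempty (Y ≃ᵢ WithLp 2 (EuclideanSpace ℝ (Fin (n + 1)) × PUnit.{u + 1})) := by
  obtain ⟨δ₁, hδ₁, h1⟩ := cf_noStar.{u} n
  obtain ⟨δ₂, hδ₂, h2⟩ := cf_mid.{u} n
  refine ⟨min 1 (min δ₁ δ₂), by positivity, min_le_left _ _, ?_⟩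
  intro Y _ _ _ hG hE Z _ Φ
  have hE' : ∀ δ, min 1 (min δ₁ δ₂) ≤ δ → ∀ (y : WithLp 2 (EuclideanSpace ℝ (Fin n) × Z)) (r : ℝ),
      0 < r → EuclLike n y r δ := fun δ hδ y r hr =>
    ((hE (Φ.symm y) r hr).mono hr.le hδ).trans_iso Φ
  have hprop : ProperSpace (WithLp 2 (EuclideanSpace ℝ (Fin n) × Z)) := by
    refine ⟨fun a r => ?_⟩
    have h3 := (isCompact_closedBall (Φ.symm a) r).image Φ.continuous
    convert h3 using 1
    ext b
    constructor
    · intro hb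
      refine ⟨Φ.symm b, ?_, Φ.apply_symm_apply b⟩
      rw [mem_closedBall, Φ.symm.dist_eq]
      exact hb
    · rintro ⟨c, hc, rfl⟩
      rw [mem_closedBall] at hc ⊢
      have := Φ.dist_eq c (Φ.symm a)
      rw [Φ.apply_symm_apply] at this
      rw [this]
      exact hc
  have hGW : Geod (WithLp 2 (EuclideanSpace ℝ (Fin n) × Z)) := by
    intro a b t ht ht1
    obtain ⟨c, hc1, hc2⟩ := hG (Φ.symm a) (Φ.symm b) t ht ht1
    refine ⟨Φ c, ?_, ?_⟩
    · have e1 := Φ.dist_eq (Φ.symm a) c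
      have e2 := Φ.symm.dist_eq a b
      rw [Φ.apply_symm_apply] at e1
      rw [e1, hc1, e2]
    · have e1 := Φ.dist_eq c (Φ.symm b)
      have e2 := Φ.symm.dist_eq a b
      rw [Φ.apply_symm_apply] at e1
      rw [e1, hc2, e2]
  have hZp : ProperSpace Z := proper_snd (n := n)
  have hZn : Nonempty Z := by
    obtain ⟨y⟩ := ‹Nonempty Y›
    exact ⟨(Φ y).snd⟩
  obtain ⟨e⟩ := lz_line (geod_snd hGW) (h1 Z (hE' δ₁ ((min_le_right _ _).trans (min_le_left _ _))))
    (h2 Z (hE' δ₂ ((min_le_right _ _).trans (min_le_right _ _))))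
  obtain ⟨e1⟩ := snd_iso (A := EuclideanSpace ℝ (Fin n)) e
  obtain ⟨e2⟩ := snoc_iso n
  obtain ⟨e3⟩ := unit_iso.{u} (EuclideanSpace ℝ (Fin (n + 1)))
  exact ⟨((Φ.trans e1).trans e2).trans e3⟩

end Pool.Agent.BDRY
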