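import Pool.Agent.Work.MP_209cb6_gt.B2.LitDefs
import Pool.Agent.Work.MP_209cb6_gt.B2.Eucl

/-!
# Tangent cones of spaces with Euclidean balls
-/

set_option autoImplicit false

open MeasureTheory MeasureTheory.Measure Metric Set Filter Topology
open scoped ENNReal NNReal

namespace Pool.Agent.BDRY

universe u

theorem lit_tan_aux {X Y : Type*} [MetricSpace X] [MetricSpace Y] {n : ℕ} {x : X} {y₀ y : Y}
    {d r σ Λ e : ℝ} {φ : X → Y} (hd : 0 < d) (hd1 : d ≤ 1) (hr : 0 < r) (hσ : 0 < σ)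
    (he : e < d * r / 16) (he1 : e < 1) (hΛ : dist y y₀ + 2 * r + 10 < Λ)
    (hφx : φ x = y₀)
    (hφ1 : ∀ a ∈ ball x (Λ * σ), ∀ b ∈ ball x (Λ * σ),
      |dist a b / σ - dist (φ a) (φ b)| ≤ e)
    (hφ2 : ∀ y : Y, dist y y₀ < Λ - e → ∃ a ∈ ball x (Λ * σ), dist (φ a) y ≤ e)
    (hX : ∀ z, dist z x < σ * (dist y y₀ + 2 * e + 1) → EuclLike n z (σ * (r + 3 * e)) (d / 4)) :
    EuclLike n y r d := by
  classical
  set D := dist y y₀ with hD
  have hD0 : 0 ≤ D := dist_nonneg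
  have hΛ0 : 0 < Λ := by linarith
  have hxm : x ∈ ball x (Λ * σ) := mem_ball_self (mul_pos hΛ0 hσ)
  have he0 : 0 ≤ e := by
    have := hφ1 x hxm x hxm
    simpa using this
  have hdr : d * r ≤ 1 * r := mul_le_mul_of_nonneg_right hd1 hr.le
  have hde : d * e ≤ 1 * e := mul_le_mul_of_nonneg_right hd1 he0
  have hde0 : 0 ≤ d * e := mul_nonneg hd.le he0
  have hmem : ∀ p, dist p x / σ < Λ → p ∈ ball x (Λ * σ) := fun p hp => by
    rw [mem_ball]
    rwa [div_lt_iff₀ hσ] at hp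
  -- a quasi inverse of `φ`
  have hg : ∀ a : Y, ∃ p, dist a y₀ < Λ - e → p ∈ ball x (Λ * σ) ∧ dist (φ p) a ≤ e := by
    intro a
    by_cases ha : dist a y₀ < Λ - e
    · obtain ⟨p, hp, hp2⟩ := hφ2 a ha
      exact ⟨p, fun _ => ⟨hp, hp2⟩⟩
    · exact ⟨x, fun h => absurd h ha⟩
  choose g hg using hg
  have hy : dist y y₀ < Λ - e := by rw [← hD]; linarith
  obtain ⟨hx'm, hx'φ⟩ := hg y hy
  set x' := g y with hx'
  have hx'x : dist x' x / σ ≤ D + 2 * e := by
    have h1 := (abs_le.1 (hφ1 x' hx'm x hxm)).2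
    rw [hφx] at h1
    have h2 := dist_triangle (φ x') y y₀
    linarith
  set S : ℝ := σ * (r + 3 * e) with hS
  have hS0 : 0 < S := by positivity
  have hSσ : S / σ = r + 3 * e := by rw [hS, mul_div_cancel_left₀ _ hσ.ne']
  obtain ⟨F, hF0, hF1, hF2⟩ := hX x' (by
    rw [div_le_iff₀ hσ] at hx'x
    nlinarith)
  have hball : ∀ a, dist a y < r → dist a y₀ < Λ - e := fun a ha => by
    have := dist_triangle a y y₀
    linarith
  have hgx' : ∀ a, dist a y < r → g a ∈ ball x' S := by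
    intro a ha
    obtain ⟨h1, h2⟩ := hg a (hball a ha)
    have h3 := (abs_le.1 (hφ1 (g a) h1 x' hx'm)).2
    have h4 : dist (φ (g a)) (φ x') ≤ e + dist a y + e := by
      have h5 := dist_triangle4 (φ (g a)) a y (φ x')
      rw [dist_comm y] at h5
      linarith
    have h6 : dist (g a) x' / σ < S / σ := by
      rw [hSσ]
      linarith
    rwa [div_lt_div_iff_of_pos_right hσ] at h6
  have hdiv : ∀ p q, |dist p q - ‖F p - F q‖| ≤ d / 4 * S →
      |dist p q / σ - ‖F p - F q‖ / σ| ≤ d / 4 * (r + 3 * e) := by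
    intro p q h
    rw [← sub_div, abs_div, abs_of_pos hσ, div_le_iff₀ hσ]
    calc |dist p q - ‖F p - F q‖| ≤ d / 4 * S := h
      _ = d / 4 * (r + 3 * e) * σ := by rw [hS]; ring
  have hnorm : ∀ v w : E n, ‖σ⁻¹ • v - σ⁻¹ • w‖ = ‖v - w‖ / σ := by
    intro v w
    rw [← smul_sub, norm_smul, norm_inv, Real.norm_of_nonneg hσ.le, inv_mul_eq_div]
  refine ⟨fun a => σ⁻¹ • F (g a), ?_, ?_, ?_⟩
  · show σ⁻¹ • F x' = 0
    rw [hF0, smul_zero]
  · intro a ha b hb
    rw [mem_ball] at ha hb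
    obtain ⟨ha1, ha2⟩ := hg a (hball a ha)
    obtain ⟨hb1, hb2⟩ := hg b (hball b hb)
    have h1 := abs_le.1 (hφ1 (g a) ha1 (g b) hb1)
    have h2 := abs_le.1 (hdiv _ _ (hF1 (g a) (hgx' a ha) (g b) (hgx' b hb)))
    have h3 := dist_triangle4 (φ (g a)) a b (φ (g b))
    have h4 := dist_triangle4 a (φ (g a)) (φ (g b)) b
    rw [dist_comm b] at h3
    rw [dist_comm a (φ (g a))] at h4
    rw [hnorm, abs_le]
    have h5 : d / 4 * (r + 3 * e) = d * r / 4 + 3 * (d * e) / 4 := by ring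
    rw [h5] at h2
    constructor <;> linarith [h1.1, h1.2, h2.1, h2.2]
  · intro v hv
    have h1 : ‖σ • v‖ < S - d / 4 * S := by
      rw [norm_smul, Real.norm_of_nonneg hσ.le]
      have h2 : S - d / 4 * S = σ * ((r + 3 * e) - d / 4 * (r + 3 * e)) := by rw [hS]; ring
      rw [h2]
      refine mul_lt_mul_of_pos_left ?_ hσ
      have h5 : d / 4 * (r + 3 * e) = d * r / 4 + 3 * (d * e) / 4 := by ring
      rw [h5]
      have : 0 < d * r := mul_pos hd hr
      linarith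
    obtain ⟨p, hp, hp2⟩ := hF2 (σ • v) h1
    have hpx' : dist p x' / σ < r + 3 * e := by
      rw [mem_ball] at hp
      rw [← hSσ]
      exact div_lt_div_of_pos_right hp hσ
    have hpm : p ∈ ball x (Λ * σ) := by
      apply hmem
      have h2 : dist p x / σ ≤ dist p x' / σ + dist x' x / σ := by
        rw [← add_div]
        exact div_le_div_of_nonneg_right (dist_triangle _ _ _) hσ.le
      linarith
    have hFp : ‖F p - σ • v‖ / σ ≤ d / 4 * (r + 3 * e) := by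
      rw [div_le_iff₀ hσ]
      calc ‖F p - σ • v‖ ≤ d / 4 * S := hp2
        _ = d / 4 * (r + 3 * e) * σ := by rw [hS]; ring
    have h5 : d / 4 * (r + 3 * e) = d * r / 4 + 3 * (d * e) / 4 := by ring
    rw [h5] at hFp
    have hx'S : x' ∈ ball x' S := mem_ball_self hS0
    have hdist : dist p x' / σ ≤ ‖v‖ + 2 * (d / 4 * (r + 3 * e)) := by
      have h2 := (abs_le.1 (hdiv _ _ (hF1 p hp x' hx'S))).2
      rw [hF0, sub_zero] at h2
      have h3 : ‖F p‖ / σ ≤ ‖F p - σ • v‖ / σ + ‖v‖ := by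
        have h4 : ‖F p‖ ≤ ‖F p - σ • v‖ + ‖σ • v‖ := by
          have := norm_add_le (F p - σ • v) (σ • v)
          rwa [sub_add_cancel] at this
        rw [norm_smul, Real.norm_of_nonneg hσ.le] at h4
        rw [div_le_iff₀ hσ, add_mul, div_mul_cancel₀ _ hσ.ne']
        linarith
      rw [h5] at h2 ⊢
      linarith
    have hφp : dist (φ p) y < r := by
      have h2 := (abs_le.1 (hφ1 p hpm x' hx'm)).1
      have h3 := dist_triangle (φ p) (φ x') y
      rw [h5] at hdist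
      linarith
    obtain ⟨hq1, hq2⟩ := hg (φ p) (hball _ hφp)
    refine ⟨φ p, by rwa [mem_ball], ?_⟩
    have hqS := hgx' (φ p) hφp
    have hqp : dist (g (φ p)) p / σ ≤ 2 * e := by
      have h2 := (abs_le.1 (hφ1 (g (φ p)) hq1 p hpm)).2
      linarith
    have h6 : ‖F (g (φ p)) - F p‖ / σ ≤ 2 * e + d / 4 * (r + 3 * e) := by
      have h2 := (abs_le.1 (hdiv _ _ (hF1 _ hqS p hp))).1
      linarith
    have h7 : v = σ⁻¹ • (σ • v) := by rw [smul_smul, inv_mul_cancel₀ hσ.ne', one_smul]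
    show ‖σ⁻¹ • F (g (φ p)) - v‖ ≤ d * r
    rw [h7, hnorm]
    have h8 : ‖F (g (φ p)) - σ • v‖ / σ ≤ ‖F (g (φ p)) - F p‖ / σ + ‖F p - σ • v‖ / σ := by
      rw [← add_div]
      refine div_le_div_of_nonneg_right ?_ hσ.le
      have := norm_add_le (F (g (φ p)) - F p) (F p - σ • v)
      rwa [sub_add_sub_cancel] at this
    rw [h5] at h6
    linarith

/-- If all small balls near `x` are almost Euclidean, so are all balls of the tangent cones at
`x`. -/
theorem lit_tan {X Y : Type u} [MetricSpace X] [MetricSpace Y] {n : ℕ} {x : X} {y₀ : Y} {d : ℝ}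
    (hd : 0 < d) (hd1 : d ≤ 1) (hT : IsTangentCone x y₀)
    (hX : ∃ ρ, 0 < ρ ∧ ∀ z ∈ ball x ρ, ∀ s, 0 < s → s ≤ ρ → EuclLike n z s (d / 4)) :
    ∀ (y : Y) (r : ℝ), 0 < r → EuclLike n y r d := by
  intro y r hr
  obtain ⟨ρ, hρ, hX⟩ := hX
  obtain ⟨s, R, ε, f, hs0, hs, hR, hε, hfx, hf1, hf2⟩ := hT
  have hD0 : 0 ≤ dist y y₀ := dist_nonneg
  have e1 : ∀ᶠ k in atTop, ε k < d * r / 16 := hε.eventually_lt_const (by positivity)
  have e2 : ∀ᶠ k in atTop, dist y y₀ + 2 * r + 10 < R k := hR.eventually_gt_atTop _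
  have e3 : ∀ᶠ k in atTop, s k < ρ / (dist y y₀ + 2 * r + 10) :=
    hs.eventually_lt_const (by positivity)
  have e4 : ∀ᶠ k in atTop, ε k < 1 := hε.eventually_lt_const one_pos
  obtain ⟨k, hk1, hk2, hk3, hk4⟩ := (e1.and (e2.and (e3.and e4))).exists
  have hsk := hs0 k
  rw [lt_div_iff₀ (by positivity)] at hk3
  have hxm : x ∈ ball x (R k * s k) := mem_ball_self (mul_pos (by linarith) hsk)
  have he0 : 0 ≤ ε k := by
    have := hf1 k x hxm x hxm
    simpa using this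
  refine lit_tan_aux hd hd1 hr hsk hk1 hk4 hk2 (hfx k) (hf1 k) (hf2 k) ?_
  intro z hz
  refine hX z ?_ _ (by positivity) ?_
  · rw [mem_ball]
    nlinarith
  · nlinarith

end Pool.Agent.BDRY
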