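import Pool.Agent.Work.MP_209cb6_gt.B2.EndDefs
import Pool.Agent.Work.MP_209cb6_gt.B2.LitProd
import Pool.Agent.Work.MP_209cb6_gt.B2.LitBall
import Pool.Agent.Work.MP_209cb6_gt.B2.LitTan
import Pool.Agent.Work.MP_209cb6_gt.B2.LitGeod

/-!
# B2, module LIT (d): the boundary lies in the set of points of density at most `b₀ < 1`
-/

set_option autoImplicit false

open MeasureTheory MeasureTheory.Measure Metric Set Filter Topology
open scoped ENNReal NNReal

namespace Pool.Agent.BDRY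

universe u

/-- The set of points of density at most `b₀` is closed. -/
theorem lowSet_closed (K : ℝ) (n : ℕ) {X : Type u} [MetricSpace X] [MeasurableSpace X]
    (m : Measure X) (hfin : ∀ (x : X) (r : ℝ), m (closedBall x r) < ∞) (b₀ : ℝ) :
    IsClosed {x | ∀ ρ, 0 < ρ → ρ < 6 → tm K n m ρ x ≤ b₀} := by
  refine isClosed_of_closure_subset fun x hx ρ hρ hρ6 => ?_
  have hω := omN_pos n
  set c := ((n : ℝ) + 1) * qK K (n + 1) with hc
  have hcont : ContinuousAt (fun s : ℝ => Real.exp (-(c * ρ)) *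
      (b₀ * Real.exp (c * s) * (omN n * s ^ (n + 1)) / (omN n * ρ ^ (n + 1)))) ρ := by
    fun_prop (disch := positivity)
  have h1 : Tendsto (fun s : ℝ => Real.exp (-(c * ρ)) *
      (b₀ * Real.exp (c * s) * (omN n * s ^ (n + 1)) / (omN n * ρ ^ (n + 1)))) (𝓝[>] ρ) (𝓝 b₀) := by
    have h2 := hcont.tendsto.mono_left (nhdsWithin_le_nhds (s := Ioi ρ))
    convert h2 using 2
    have : omN n * ρ ^ (n + 1) ≠ 0 := by positivity
    rw [mul_div_assoc, div_self this, mul_one, mul_comm b₀, ← mul_assoc, ← Real.exp_add]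
    simp
  refine ge_of_tendsto h1 ?_
  filter_upwards [Ioo_mem_nhdsGT hρ6] with s hs
  have hs0 : 0 < s := hρ.trans hs.1
  obtain ⟨y, hy, hxy⟩ := Metric.mem_closure_iff.1 hx (s - ρ) (by linarith [hs.1])
  have h3 : m.real (ball x ρ) ≤ m.real (ball y s) := by
    refine measureReal_mono (fun z hz => ?_)
      (ne_top_of_le_ne_top (hfin y s).ne (measure_mono ball_subset_closedBall))
    rw [mem_ball] at hz ⊢
    have := dist_triangle z x y
    linarith
  have h4 := hy s hs0 hs.2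
  have h5 : m.real (ball y s) ≤ b₀ * Real.exp (c * s) * (omN n * s ^ (n + 1)) := by
    unfold tm at h4
    rw [th_eq hs0]
    have h6 : th n m s y ≤ b₀ * Real.exp (c * s) := by
      calc th n m s y = Real.exp (c * s) * (Real.exp (-(c * s)) * th n m s y) := by
            rw [← mul_assoc, ← Real.exp_add]; simp
        _ ≤ Real.exp (c * s) * b₀ := by gcongr
        _ = _ := mul_comm _ _
    gcongr
  unfold tm
  rw [← hc]
  unfold th
  gcongr
  exact h3.trans h5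

/-- `x ∈ S^(N-1) \ S^(N-2)` has density at most `b₀`. -/
theorem lit_gap {K : ℝ} (hK : K ≤ 0) (n : ℕ) : ∃ b₀ : ℝ, 0 < b₀ ∧ b₀ < 1 ∧
    ∀ (X : Type u) [MetricSpace X] [MeasurableSpace X] [BorelSpace X] (P : ℝ → X → Measure X),
      IsRCD K (n + 1) X (μHE[n + 1] : Measure X) → HeatKer K n (μHE[n + 1] : Measure X) P →
      bdry n X ⊆ {x | ∀ ρ, 0 < ρ → ρ < 6 → tm K n (μHE[n + 1] : Measure X) ρ x ≤ b₀} := by
  obtain ⟨δ, hδ, hδ1, hsplit⟩ := lit_split.{u} n
  obtain ⟨b₀, hb₀, hb₁, hball⟩ := lit_ball.{u} hK n (d := δ / 4) (by positivity)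
  refine ⟨b₀, hb₀, hb₁, ?_⟩
  intro X _ _ _ P hX hP
  refine closure_minimal ?_ (lowSet_closed K n _ hX.finite_ball b₀)
  rintro x ⟨hx1, hx2⟩ ρ hρ hρ6
  by_contra hcon
  rw [not_le] at hcon
  have h1 := hball X P hX hP x ⟨ρ, hρ, hρ6, hcon⟩
  -- the tangent cone which splits off `ℝ^n`
  simp only [NoSplit, mem_ofPred_eq, not_forall, not_isEmpty_iff] at hx2
  obtain ⟨Y, iY, pY, y₀, hT, Z, iZ, ⟨Φ⟩⟩ := hx2
  have h2 := lit_tan hδ hδ1 hT h1
  have : Nonempty Y := ⟨y₀⟩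
  obtain ⟨Ψ⟩ := hsplit Y (lit_geod hX.geod hT) h2 Z Φ
  exact (hx1 Y y₀ hT PUnit.{u + 1}).false Ψ

/-- **The bound for the boundary, from the bound for the points of density at most `b₀`.** -/
theorem lit_bound {K : ℝ} (hK : K ≤ 0) (n : ℕ)
    (hM : ∀ b₀ : ℝ, 0 < b₀ → b₀ < 1 → ∃ C : ℝ, 0 < C ∧
      ∀ (X : Type u) [MetricSpace X] [MeasurableSpace X] [BorelSpace X] (P : ℝ → X → Measure X),
        IsRCD K (n + 1) X (μHE[n + 1] : Measure X) → HeatKer K n (μHE[n + 1] : Measure X) P →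
        ∀ (x₀ : X) (r : ℝ), 0 < r → r < 1 →
          (μHE[n] : Measure X) (ball x₀ r ∩
            {x | ∀ ρ, 0 < ρ → ρ < 6 → tm K n (μHE[n + 1] : Measure X) ρ x ≤ b₀}) ≤
            ENNReal.ofReal (C * r ^ n)) : ∃ C : ℝ, 0 < C ∧
    ∀ (X : Type u) [MetricSpace X] [MeasurableSpace X] [BorelSpace X] (P : ℝ → X → Measure X),
      IsRCD K (n + 1) X (μHE[n + 1] : Measure X) → HeatKer K n (μHE[n + 1] : Measure X) P →
      ∀ (x₀ : X) (r : ℝ), 0 < r → r < 1 →
        (μHE[n] : Measure X) (ball x₀ r ∩ bdry n X) ≤ ENNReal.ofReal (C * r ^ n) := by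
  obtain ⟨b₀, hb₀, hb₁, hgap⟩ := lit_gap.{u} hK n
  obtain ⟨C, hC, H⟩ := hM b₀ hb₀ hb₁
  exact ⟨C, hC, fun X _ _ _ P hX hP x₀ r hr hr1 =>
    (measure_mono (inter_subset_inter_right _ (hgap X P hX hP))).trans (H X P hX hP x₀ r hr hr1)⟩

end Pool.Agent.BDRY
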