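import Pool.Agent.Work.MP_209cb6_gt.B2.GaussEVI
import Pool.Agent.Work.MP_209cb6_gt.B2.EndDefs
import Pool.Agent.Work.MP_209cb6_gt.TwoTime

/-!
# BDRY2, item (3) of note 4942: low points and good points

If the volume ratio at `x` is at most `b` at a scale `σ` and the volume ratio at `y` is at least
`(1 + d) b` at the scale `A σ`, then at the time `s = (C σ)²` the entropy power of the heat kernel
at `y` is definitely larger than the (averaged) one at `x`.
-/

set_option autoImplicit false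

open MeasureTheory MeasureTheory.Measure Metric Set Filter Topology
open scoped ENNReal NNReal

namespace Pool.Agent.BDRY

universe u

/-! ### Gaussian integrals -/

/-- scaling of the Euclidean Gaussian normalisation -/
theorem pow_scale (n : ℕ) {s r : ℝ} (hs : 0 ≤ s) (hr : 0 ≤ r) :
    (4 * Real.pi * (s * r ^ 2)) ^ (((n + 1 : ℕ) : ℝ) / 2) =
      (4 * Real.pi * s) ^ (((n + 1 : ℕ) : ℝ) / 2) * r ^ (n + 1) := by
  rw [← mul_assoc, Real.mul_rpow (by positivity) (by positivity)]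
  congr 1
  rw [← Real.rpow_natCast r 2, ← Real.rpow_mul hr, ← Real.rpow_natCast r (n + 1)]
  congr 1
  push_cast
  ring

/-- small exponents -/
theorem exp_le_one_add_two' {x : ℝ} (hx : 0 ≤ x) (hx1 : x ≤ 1) : Real.exp x ≤ 1 + 2 * x := by
  have h1 := Real.exp_bound' hx hx1 (n := 1) (by norm_num)
  norm_num at h1
  linarith

section gauss

/-- **Low point.** If the volume ratio at `x` at scale `σ` is at most `b`, then the Gaussian
integrals at the scales `r ≥ L σ`, `r` small, are at most `(1 + e) b` times the Euclidean ones. -/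
theorem low_gauss (n : ℕ) {K e : ℝ} (hK : K ≤ 0) (he : 0 < e) (he1 : e ≤ 1) :
    ∃ L r₀ : ℝ, 1 ≤ L ∧ 0 < r₀ ∧ r₀ ≤ 1 ∧ ∀ (X : Type u) [MetricSpace X] [MeasurableSpace X]
      [BorelSpace X] (m : Measure X), IsRCD K (n + 1) X m → ∀ (x : X) (b σ r : ℝ), 0 < b → 0 < σ →
      L * σ ≤ r → r ≤ r₀ → tm K n m σ x ≤ b →
      ∀ τ, e * r ^ 2 ≤ τ → τ ≤ r ^ 2 → Integrable (gsn x τ) m ∧
        ∫ y, gsn x τ y ∂m ≤ (1 + e) * (b * (4 * Real.pi * τ) ^ (((n + 1 : ℕ) : ℝ) / 2)) := by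
  have hω := omN_pos n
  have hq := qK_nonneg K (n + 1)
  set q := qK K (n + 1) with hqdef
  have hfac : (1 : ℝ) ≤ (n + 1).factorial := by exact_mod_cast Nat.factorial_pos (n + 1)
  set C₀ : ℝ := (n + 1).factorial + 1 with hC₀
  have hC₀2 : 2 ≤ C₀ := by rw [hC₀]; linarith
  set Pe : ℝ := (4 * Real.pi * e) ^ (((n + 1 : ℕ) : ℝ) / 2) with hPe
  have hPe0 : 0 < Pe := by have := Real.pi_pos; positivity
  set e₁ : ℝ := e / 4 with he₁
  have he₁0 : 0 < e₁ := by positivity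
  -- the upper cut
  set η : ℝ := min (1 / (16 * C₀)) (e * Pe / (128 * C₀ * omN n)) with hη
  have hη0 : 0 < η := lt_min (by positivity) (by positivity)
  have hη1 : 16 * C₀ * η ≤ 1 := by
    have h1 : η ≤ 1 / (16 * C₀) := min_le_left _ _
    rw [le_div_iff₀ (by positivity)] at h1
    linarith
  have hη2 : 128 * C₀ * omN n * η ≤ e * Pe := by
    have h1 : η ≤ e * Pe / (128 * C₀ * omN n) := min_le_right _ _
    rw [le_div_iff₀ (by positivity)] at h1
    linarith
  have hη3 : η ≤ 1 := by nlinarith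
  set L : ℝ := max 1 (8 * omN n / (e * Pe)) with hL
  have hL1 : 1 ≤ L := le_max_left _ _
  have hL2 : 8 * omN n ≤ L * (e * Pe) := by
    have h1 : 8 * omN n / (e * Pe) ≤ L := le_max_right _ _
    rwa [div_le_iff₀ (by positivity)] at h1
  -- the largest scale
  set Q : ℝ := (n + 1) * q with hQ
  have hQ0 : 0 ≤ Q := by positivity
  set r₀ : ℝ := min 1 (min (1 / (Q + 1)) (η * e₁ / (2 * (Q + 1)))) with hr₀
  refine ⟨L, r₀, hL1, lt_min one_pos (lt_min (by positivity) (by positivity)), min_le_left _ _, ?_⟩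
  intro X _ _ _ m hX x b σ r hb hσ hLσ hr hball τ hτ1 hτ2
  have := hX.proper
  have hr0 : 0 < r := lt_of_lt_of_le (by positivity) hLσ
  have hσr : σ ≤ r := le_trans (by nlinarith) hLσ
  have hr1 : r ≤ 1 / (Q + 1) := hr.trans ((min_le_right _ _).trans (min_le_left _ _))
  have hr2 : r ≤ η * e₁ / (2 * (Q + 1)) := hr.trans ((min_le_right _ _).trans (min_le_right _ _))
  rw [le_div_iff₀ (by positivity)] at hr1 hr2
  have hQr : Q * r ≤ 1 := by nlinarith
  have hQrη : Q * (r / η) ≤ e₁ / 2 := by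
    rw [← mul_div_assoc, div_le_iff₀ hη0]
    nlinarith
  have hfin : ∀ R, m (ball x R) < ∞ := fun R =>
    (measure_mono ball_subset_closedBall).trans_lt (hX.finite_ball x R)
  have hsf : SigmaFinite m := sigmaFinite_of_fin hX.finite_ball
  -- Bishop-Gromov
  have hbg : ∀ R, σ ≤ R → m.real (ball x R) ≤ Real.exp (Q * R) * (b * (omN n * R ^ (n + 1))) := by
    intro R hR
    have hR0 : 0 < R := hσ.trans_le hR
    have h1 := (tm_anti hK hX x hσ hR).trans hball
    rw [th_eq (n := n) hR0 x, th_eq_tm (K := K) x]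
    calc Real.exp (Q * R) * tm K n m R x * (omN n * R ^ (n + 1)) ≤
        Real.exp (Q * R) * b * (omN n * R ^ (n + 1)) := by gcongr
      _ = _ := by ring
  have h16 : 16 * C₀ * η ≤ 1 := hη1
  have hlη : σ / r * η ≤ 1 := by
    have : σ / r ≤ 1 := (div_le_one hr0).2 hσr
    nlinarith [div_nonneg hσ.le hr0.le]
  have hup : ∀ R, 0 < R → σ / r * r ≤ R → R ≤ r / η →
      m.real (ball x R) ≤ (1 + e₁) * (b * (omN n * R ^ (n + 1))) := by
    intro R hR0 hR1 hR2
    rw [div_mul_cancel₀ _ hr0.ne'] at hR1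
    refine (hbg R hR1).trans ?_
    refine mul_le_mul_of_nonneg_right ?_ (by positivity)
    have h1 : Q * R ≤ e₁ / 2 := (mul_le_mul_of_nonneg_left hR2 hQ0).trans hQrη
    have h2 := exp_le_one_add_two' (x := Q * R) (by positivity) (by linarith)
    linarith
  have hgrow : ∀ R, r / η ≤ R →
      m.real (ball x R) ≤ C₀ * (b * (omN n * r ^ (n + 1))) * Real.exp (C₀ * R / r) := by
    intro R hR
    have hrR : r ≤ R := le_trans (by rw [le_div_iff₀ hη0]; nlinarith) hR
    have hR0 : 0 < R := hr0.trans_le hrR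
    refine (hbg R (hσr.trans hrR)).trans ?_
    have h3 : R ^ (n + 1) ≤ (n + 1).factorial * r ^ (n + 1) * Real.exp (R / r) := by
      have h4 := Real.pow_div_factorial_le_exp (R / r) (by positivity) (n + 1)
      have hfac' : (0 : ℝ) < (n + 1).factorial := by linarith
      rw [div_le_iff₀ hfac', div_pow, div_le_iff₀ (by positivity)] at h4
      linarith
    have h5 : Real.exp (Q * R) ≤ Real.exp (R / r) := by
      rw [Real.exp_le_exp, le_div_iff₀ hr0]
      nlinarith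
    calc Real.exp (Q * R) * (b * (omN n * R ^ (n + 1)))
        ≤ Real.exp (R / r) * (b * (omN n * ((n + 1).factorial * r ^ (n + 1) *
            Real.exp (R / r)))) := by gcongr
      _ = (n + 1).factorial * (b * (omN n * r ^ (n + 1))) * Real.exp (2 * R / r) := by
          have : Real.exp (2 * R / r) = Real.exp (R / r) * Real.exp (R / r) := by
            rw [← Real.exp_add]; congr 1; ring
          rw [this]; ring
      _ ≤ C₀ * (b * (omN n * r ^ (n + 1))) * Real.exp (C₀ * R / r) := by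
          gcongr
          rw [hC₀]; linarith
  have hτ0 : 0 < τ := lt_of_lt_of_le (by positivity) hτ1
  have hU := gauss_upper' n hfin hb he₁0.le (div_nonneg hσ.le hr0.le) hη0 hlη (by positivity) h16
    hr0 hτ0 hτ2 hup hgrow
  set Bd := (1 + e₁) * (b * (omN n * (σ / r * r) ^ (n + 1)))
        + (1 + e₁) * b * (4 * Real.pi * τ) ^ (((n + 1 : ℕ) : ℝ) / 2)
        + C₀ * (b * (omN n * r ^ (n + 1))) * (2 * Real.exp (-1 / (16 * η ^ 2))) with hBd
  have hpi := Real.pi_pos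
  have hBd0 : 0 ≤ Bd := by positivity
  have hgs : ∀ y, gsn x τ y = Real.exp (-dist y x ^ 2 / (4 * τ)) := fun y => rfl
  have hint : Integrable (gsn x τ) m := by
    refine ⟨(continuous_gsn x τ).aestronglyMeasurable, ?_⟩
    rw [hasFiniteIntegral_iff_ofReal (ae_of_all _ fun y => (gsn_pos x τ y).le)]
    exact hU.trans_lt ENNReal.ofReal_lt_top
  refine ⟨hint, ?_⟩
  have hI : ∫ y, gsn x τ y ∂m ≤ Bd := by
    rw [integral_eq_lintegral_of_nonneg_ae (ae_of_all _ fun y => (gsn_pos x τ y).le)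
      (continuous_gsn x τ).aestronglyMeasurable]
    exact ENNReal.toReal_le_of_le_ofReal hBd0 hU
  refine hI.trans ?_
  -- scale
  set s := τ / r ^ 2 with hs
  have hr2' : 0 < r ^ 2 := by positivity
  have hτs : τ = s * r ^ 2 := by rw [hs]; field_simp
  have hse : e ≤ s := by rw [hs, le_div_iff₀ hr2']; exact hτ1
  have hs0 : 0 < s := he.trans_le hse
  set S : ℝ := (4 * Real.pi * s) ^ (((n + 1 : ℕ) : ℝ) / 2) with hS
  have hSe : Pe ≤ S := by
    rw [hPe, hS]
    exact Real.rpow_le_rpow (by positivity) (by gcongr) (by positivity)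
  have hσl : (σ / r * r) ^ (n + 1) ≤ (1 / L) * r ^ (n + 1) := by
    rw [mul_pow]
    refine mul_le_mul_of_nonneg_right ?_ (by positivity)
    have h1 : σ / r ≤ 1 / L := by
      rw [div_le_div_iff₀ hr0 (by positivity)]
      linarith
    have h2 : 1 / L ≤ 1 := by rw [div_le_one (by positivity)]; exact hL1
    calc (σ / r) ^ (n + 1) ≤ (1 / L) ^ (n + 1) :=
          pow_le_pow_left₀ (div_nonneg hσ.le hr0.le) h1 _
      _ ≤ (1 / L) ^ 1 := pow_le_pow_of_le_one (by positivity) h2 (by omega)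
      _ = 1 / L := pow_one _
  rw [hBd, hτs, pow_scale n hs0.le hr0.le, ← hS]
  have k1 : (1 + e₁) * (b * (omN n * (σ / r * r) ^ (n + 1))) ≤ e / 4 * Pe * (b * r ^ (n + 1)) := by
    calc (1 + e₁) * (b * (omN n * (σ / r * r) ^ (n + 1)))
        ≤ 2 * (b * (omN n * ((1 / L) * r ^ (n + 1)))) := by
          gcongr
          rw [he₁]; linarith
      _ = (2 * omN n / L) * (b * r ^ (n + 1)) := by ring
      _ ≤ (e / 4 * Pe) * (b * r ^ (n + 1)) := by
          refine mul_le_mul_of_nonneg_right ?_ (by positivity)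
          rw [div_le_iff₀ (by positivity)]
          linarith
  have k2 : C₀ * (b * (omN n * r ^ (n + 1))) * (2 * Real.exp (-1 / (16 * η ^ 2))) ≤
      e / 4 * Pe * (b * r ^ (n + 1)) := by
    have hexp := exp_neg_inv_sq_le hη0 hη3
    calc C₀ * (b * (omN n * r ^ (n + 1))) * (2 * Real.exp (-1 / (16 * η ^ 2)))
        ≤ C₀ * (b * (omN n * r ^ (n + 1))) * (2 * (16 * η)) := by gcongr
      _ = (32 * C₀ * omN n * η) * (b * r ^ (n + 1)) := by ring
      _ ≤ _ := by
          refine mul_le_mul_of_nonneg_right ?_ (by positivity)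
          linarith
  have k3 : e / 4 * Pe * (b * r ^ (n + 1)) ≤ e / 4 * S * (b * r ^ (n + 1)) := by gcongr
  have hfinal : (1 + e₁) * b * (S * r ^ (n + 1)) + 3 * (e / 4 * S * (b * r ^ (n + 1))) =
      (1 + e) * (b * (S * r ^ (n + 1))) := by rw [he₁]; ring
  have hpos : 0 ≤ e / 4 * S * (b * r ^ (n + 1)) := by positivity
  linarith

/-- **Good point.** If the volume ratio at `y` at scale `ρ` is at least `b`, `ρ` small, then the
Gaussian integral at the time `r²` over the ball of radius `r / c ≤ ρ` is at least `(1 - e) b` times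
the Euclidean one. -/
theorem good_gauss (n : ℕ) {K e : ℝ} (hK : K ≤ 0) (he : 0 < e) (he1 : e ≤ 1) :
    ∃ c r₀ : ℝ, 0 < c ∧ 16 * c ≤ 1 ∧ 0 < r₀ ∧ r₀ ≤ 1 ∧ ∀ (X : Type u) [MetricSpace X]
      [MeasurableSpace X] [BorelSpace X] (m : Measure X), IsRCD K (n + 1) X m →
      ∀ (y : X) (b ρ r : ℝ), 0 < b → 0 < r → r ≤ c * ρ → ρ ≤ r₀ →
      b ≤ tm K n m ρ y →
      (1 - e) * (b * (4 * Real.pi * r ^ 2) ^ (((n + 1 : ℕ) : ℝ) / 2)) ≤
        ∫ z in ball y (r / c), gsn y (r ^ 2) z ∂m := by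
  have hω := omN_pos n
  have hpi := Real.pi_pos
  have hq := qK_nonneg K (n + 1)
  set q := qK K (n + 1) with hqdef
  set Q : ℝ := (n + 1) * q with hQ
  have hQ0 : 0 ≤ Q := by positivity
  have hfac : (1 : ℝ) ≤ (n + 1).factorial := by exact_mod_cast Nat.factorial_pos (n + 1)
  set P : ℝ := (4 * Real.pi) ^ (((n + 1 : ℕ) : ℝ) / 2) with hP
  have hP0 : 0 < P := by positivity
  set e₁ : ℝ := e / 2 with he₁
  have he₁0 : 0 < e₁ := by positivity
  set η : ℝ := min (1 / 16) (e₁ * P / (32 * (n + 1).factorial * omN n)) with hη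
  have hη0 : 0 < η := lt_min (by norm_num) (by positivity)
  have hη1 : 16 * η ≤ 1 := by
    have h1 : η ≤ 1 / 16 := min_le_left _ _
    linarith
  have hη2 : 32 * (n + 1).factorial * omN n * η ≤ e₁ * P := by
    have h1 : η ≤ e₁ * P / (32 * (n + 1).factorial * omN n) := min_le_right _ _
    rw [le_div_iff₀ (by positivity)] at h1
    linarith
  set r₀ : ℝ := min 1 (e₁ / (Q + 1)) with hr₀
  refine ⟨η, r₀, hη0, hη1, lt_min one_pos (by positivity), min_le_left _ _, ?_⟩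
  intro X _ _ _ m hX y b ρ r hb hr hrρ hρ hball
  have := hX.proper
  have hρ0 : 0 < ρ := by
    by_contra h
    push Not at h
    nlinarith
  have hρ1 : ρ ≤ e₁ / (Q + 1) := hρ.trans (min_le_right _ _)
  rw [le_div_iff₀ (by positivity)] at hρ1
  have hQρ : Q * ρ ≤ e₁ := by nlinarith
  have hfin : ∀ R, m (ball y R) < ∞ := fun R =>
    (measure_mono ball_subset_closedBall).trans_lt (hX.finite_ball y R)
  have hsf : SigmaFinite m := sigmaFinite_of_fin hX.finite_ball
  have hrη : r / η ≤ ρ := by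
    rw [div_le_iff₀ hη0]
    linarith
  have hlow : ∀ R, 0 < R → 0 * r ≤ R → R ≤ r / η →
      (1 - e₁) * (b * (omN n * R ^ (n + 1))) ≤ m.real (ball y R) := by
    intro R hR0 _ hR2
    have hRρ : R ≤ ρ := hR2.trans hrη
    have h1 := hball.trans (tm_anti hK hX y hR0 hRρ)
    rw [th_eq (n := n) hR0 y, th_eq_tm (K := K) y]
    have h2 : 1 ≤ Real.exp (Q * R) := Real.one_le_exp (by positivity)
    have h3 : 0 < omN n * R ^ (n + 1) := by positivity
    have h4 : 1 - e₁ ≤ 1 := by linarith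
    calc (1 - e₁) * (b * (omN n * R ^ (n + 1))) ≤ 1 * (b * (omN n * R ^ (n + 1))) := by gcongr
      _ ≤ Real.exp (Q * R) * (b * (omN n * R ^ (n + 1))) := by gcongr
      _ ≤ Real.exp (Q * R) * (tm K n m R y * (omN n * R ^ (n + 1))) := by gcongr
      _ = _ := by ring
  have hL := gauss_lower' n hfin hb (by rw [he₁]; linarith : e₁ ≤ 1) le_rfl hη0 hη1 hr hlow
  have hscale1 := pow_scale n zero_le_one hr.le
  rw [one_mul, mul_one, ← hP] at hscale1
  rw [hscale1, zero_mul, zero_pow (by omega), mul_zero, sub_zero] at hL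
  have hI0 : 0 ≤ ∫ z in ball y (r / η), gsn y (r ^ 2) z ∂m :=
    integral_nonneg fun z => (gsn_pos _ _ _).le
  have hint : IntegrableOn (gsn y (r ^ 2)) (ball y (r / η)) m := by
    refine Measure.integrableOn_of_bounded (M := 1) (hfin _).ne
      (continuous_gsn _ _).aestronglyMeasurable (ae_of_all _ fun z => ?_)
    rw [Real.norm_eq_abs, abs_of_pos (gsn_pos _ _ _)]
    exact gsn_le_one _ (by positivity) _
  have hLr : (1 - e₁) * b * (P * r ^ (n + 1)
      - omN n * ((n + 1).factorial * r ^ (n + 1)) * (2 * Real.exp (-1 / (16 * η ^ 2)))) ≤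
      ∫ z in ball y (r / η), gsn y (r ^ 2) z ∂m := by
    rw [integral_eq_lintegral_of_nonneg_ae (ae_of_all _ fun z => (gsn_pos _ _ _).le)
      (continuous_gsn _ _).aestronglyMeasurable]
    refine ENNReal.ofReal_le_iff_le_toReal ?_ |>.1 hL
    have := hint.2
    rw [hasFiniteIntegral_iff_ofReal (ae_of_all _ fun y => (gsn_pos _ _ _).le)] at this
    exact this.ne
  refine le_trans ?_ hLr
  rw [hscale1]
  have hexp := exp_neg_inv_sq_le hη0 (by linarith)
  have k1 : omN n * ((n + 1).factorial * r ^ (n + 1)) * (2 * Real.exp (-1 / (16 * η ^ 2))) ≤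
      e₁ * P * r ^ (n + 1) := by
    calc omN n * ((n + 1).factorial * r ^ (n + 1)) * (2 * Real.exp (-1 / (16 * η ^ 2)))
        ≤ omN n * ((n + 1).factorial * r ^ (n + 1)) * (2 * (16 * η)) := by gcongr
      _ = (32 * (n + 1).factorial * omN n * η) * r ^ (n + 1) := by ring
      _ ≤ _ := by
          refine mul_le_mul_of_nonneg_right ?_ (by positivity)
          linarith
  have h12 : 0 ≤ 1 - e₁ := by rw [he₁]; linarith
  calc (1 - e) * (b * (P * r ^ (n + 1))) ≤ (1 - e₁) * b * (P * r ^ (n + 1) -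
        e₁ * P * r ^ (n + 1)) := by
        have : (1 - e₁) * b * (P * r ^ (n + 1) - e₁ * P * r ^ (n + 1)) -
            (1 - e) * (b * (P * r ^ (n + 1))) = e₁ ^ 2 * (b * (P * r ^ (n + 1))) := by
          rw [he₁]; ring
        have h13 : 0 ≤ e₁ ^ 2 * (b * (P * r ^ (n + 1))) := by positivity
        linarith
    _ ≤ _ := by
        refine mul_le_mul_of_nonneg_left ?_ (by positivity)
        linarith

end gauss

/-! ### Low points -/

/-- the entropy power of the heat kernel at a low point, logarithmic form -/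
theorem low_logUN (n : ℕ) {K e : ℝ} (hK : K ≤ 0) (he : 0 < e) (he1 : e ≤ 1) :
    ∃ L r₀ : ℝ, 1 ≤ L ∧ 0 < r₀ ∧ r₀ ≤ 1 ∧ ∀ (X : Type u) [MetricSpace X] [MeasurableSpace X]
      [BorelSpace X] (m : Measure X), IsRCD K (n + 1) X m → ∀ (μ : ℝ → Measure X) (x : X)
      (b σ r : ℝ), μ 0 = dirac x → IsEVIFlow K (n + 1) m μ → 0 < b → 0 < σ →
      L * σ ≤ r → r ≤ r₀ → tm K n m σ x ≤ b → ∀ τ, e * r ^ 2 ≤ τ → τ ≤ r ^ 2 →
      Real.log (UN (n + 1) m (μ τ)) ≤
        Real.log b / (n + 1) + Real.log (4 * Real.pi * τ) / 2 + 1 / 2 + e := by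
  obtain ⟨L, r₁, hL1, hr₁, hr₁1, H⟩ := low_gauss.{u} n hK (half_pos he) (by linarith : e / 2 ≤ 1)
  have hK' : 0 ≤ -K := by linarith
  refine ⟨L, min r₁ (e / (2 * (-K + 1))), hL1, lt_min hr₁ (by positivity),
    (min_le_left _ _).trans hr₁1, ?_⟩
  intro X _ _ _ m hX μ x b σ r h0 h hb hσ hLσ hr hlow τ hτ1 hτ2
  have := hX.proper
  have hsf : SigmaFinite m := sigmaFinite_of_fin hX.finite_ball
  have hr1 : r ≤ r₁ := hr.trans (min_le_left _ _)
  have hr2 : r ≤ e / (2 * (-K + 1)) := hr.trans (min_le_right _ _)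
  rw [le_div_iff₀ (by positivity)] at hr2
  have hr0 : 0 < r := lt_of_lt_of_le (by positivity) hLσ
  have hτ0 : 0 < τ := lt_of_lt_of_le (by positivity) hτ1
  have hr01 : r ≤ 1 := hr1.trans hr₁1
  have hKτ : -K * τ ≤ e / 2 := by
    have h1 : -K * τ ≤ -K * r ^ 2 := mul_le_mul_of_nonneg_left hτ2 hK'
    have h2 : r ^ 2 ≤ r := by nlinarith
    nlinarith
  obtain ⟨hi, hZ⟩ := H X m hX x b σ r hb hσ hLσ hr1 hlow τ (by nlinarith [sq_nonneg r]) hτ2
  have hpi := Real.pi_pos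
  set Z : ℝ := b * (4 * Real.pi * τ) ^ (((n + 1 : ℕ) : ℝ) / 2) with hZdef
  have hZ0 : 0 < Z := by positivity
  have hP := h.p2 τ hτ0.le
  have hU := h.dom τ hτ0
  have hN : (0 : ℝ) < ((n + 1 : ℕ) : ℝ) := Nat.cast_pos.2 (Nat.succ_pos n)
  have hd : Integrable (fun y => dist y x ^ 2) (μ τ) := by
    have h1 := hP.integrable_sq x
    simpa only [dist_comm] using h1
  have hM : ∫ y, dist y x ^ 2 ∂(μ τ) ≤ 2 * ((n + 1 : ℕ) : ℝ) * Real.exp (-K * τ) * τ := by
    rw [← W2_dirac_sq hP x]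
    have h1 := h.second_moment hK (Nat.succ_pos n) hX.finite_ball hX.pos_ball h0 x hτ0
    rw [dist_self, zero_div, sK_zero_right] at h1
    linarith
  have h1 := gibbs_gauss (Nat.succ_pos n) hP hU x hτ0 hZ0 hi hZ hd hM
  have h2 : 0 ≤ ∫ x_1, (√((μ τ).rnDeriv m x_1).toReal - √(gsn x τ x_1 / Z)) ^ 2 ∂m :=
    integral_nonneg fun _ => sq_nonneg _
  have h3 : Real.log Z = Real.log b + ((n + 1 : ℕ) : ℝ) / 2 * Real.log (4 * Real.pi * τ) := by
    rw [hZdef, Real.log_mul hb.ne' (by positivity), Real.log_rpow (by positivity)]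
  have h4 : 2 * ((n + 1 : ℕ) : ℝ) * Real.exp (-K * τ) * τ / (4 * τ) =
      ((n + 1 : ℕ) : ℝ) / 2 * Real.exp (-K * τ) := by
    field_simp
    ring
  rw [h3, h4] at h1
  have h5 := exp_le_one_add_two' (x := -K * τ) (by positivity) (by linarith)
  have h6 : ((n + 1 : ℕ) : ℝ) * Real.log (UN (n + 1) m (μ τ)) ≤
      Real.log b + ((n + 1 : ℕ) : ℝ) / 2 * Real.log (4 * Real.pi * τ) +
        ((n + 1 : ℕ) : ℝ) / 2 * (1 + e) + e / 2 := by
    have h7 : ((n + 1 : ℕ) : ℝ) / 2 * Real.exp (-K * τ) ≤ ((n + 1 : ℕ) : ℝ) / 2 * (1 + e) :=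
      mul_le_mul_of_nonneg_left (by linarith) (by positivity)
    linarith
  have hN1 : (1 : ℝ) ≤ ((n + 1 : ℕ) : ℝ) := by exact_mod_cast Nat.succ_pos n
  have h8 : e / 2 ≤ ((n + 1 : ℕ) : ℝ) * (e / 2) := le_mul_of_one_le_left (by positivity) hN1
  have h9 : ((n + 1 : ℕ) : ℝ) * Real.log (UN (n + 1) m (μ τ)) ≤ ((n + 1 : ℕ) : ℝ) *
      (Real.log b / ((n + 1 : ℕ) : ℝ) + Real.log (4 * Real.pi * τ) / 2 + 1 / 2 + e) := by
    have e1 : ((n + 1 : ℕ) : ℝ) * (Real.log b / ((n + 1 : ℕ) : ℝ) +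
        Real.log (4 * Real.pi * τ) / 2 + 1 / 2 + e) = Real.log b +
        ((n + 1 : ℕ) : ℝ) / 2 * Real.log (4 * Real.pi * τ) + ((n + 1 : ℕ) : ℝ) / 2 * (1 + e) +
          ((n + 1 : ℕ) : ℝ) * (e / 2) := by
      field_simp
      ring
    rw [e1]
    linarith
  have h10 := le_of_mul_le_mul_left h9 hN
  push_cast at h10 ⊢
  exact h10

/-- `exp (log b / N) = b ^ (1 / N)` -/
theorem exp_log_div {b : ℝ} (hb : 0 < b) (n : ℕ) :
    Real.exp (Real.log b / (n + 1)) = b ^ ((1 : ℝ) / (n + 1)) := by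
  rw [Real.rpow_def_of_pos hb]
  congr 1
  ring

theorem exp_half_log {x : ℝ} (hx : 0 < x) : Real.exp (Real.log x / 2) = √x := by
  rw [Real.sqrt_eq_rpow, Real.rpow_def_of_pos hx]
  congr 1
  ring

theorem lowU {K : ℝ} (hK : K ≤ 0) (n : ℕ) : LowU.{u} K n := by
  intro ε hε hε1
  set e : ℝ := (ε / 4) ^ 2 with he
  have he0 : 0 < e := by positivity
  have he1 : e ≤ ε / 16 := by rw [he]; nlinarith
  obtain ⟨L, r₁, hL1, hr₁, hr₁1, H⟩ := low_logUN.{u} n hK he0 (by linarith : e ≤ 1)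
  have hK' : 0 ≤ -K := by linarith
  refine ⟨L, min r₁ (ε / (4 * (-K + 1))), hL1, lt_min hr₁ (by positivity),
    (min_le_left _ _).trans hr₁1, ?_⟩
  intro X _ _ _ m hX μ x σ b s h0 h hσ hb hlow hLσ hs
  have := hX.proper
  have hr0 : 0 < √s := lt_of_lt_of_le (by positivity) hLσ
  have hs0 : 0 < s := Real.sqrt_pos.1 hr0
  have hs2 : √s ^ 2 = s := Real.sq_sqrt hs0.le
  have hr1 : √s ≤ r₁ := hs.trans (min_le_left _ _)
  have hr2 : √s ≤ ε / (4 * (-K + 1)) := hs.trans (min_le_right _ _)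
  rw [le_div_iff₀ (by positivity)] at hr2
  have hr01 : √s ≤ 1 := hr1.trans hr₁1
  have hKs : -K * s ≤ ε / 4 := by
    have h2 : s ≤ √s := by nlinarith
    nlinarith [mul_le_mul_of_nonneg_left h2 hK']
  have hpi := Real.pi_pos
  have hlog := H X m hX μ x b σ (√s) h0 h hb hσ hLσ hr1 hlow
  rw [hs2] at hlog
  -- pointwise lower bound
  set B : ℝ := b ^ ((1 : ℝ) / (n + 1)) * √(4 * Real.pi * Real.exp 1) with hB
  have hB0 : 0 < B := by positivity
  have hUle : ∀ v, e * s ≤ v → v ≤ s → UN (n + 1) m (μ v) ≤ Real.exp e * B * √v := by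
    intro v hv1 hv2
    have hv0 : 0 < v := lt_of_lt_of_le (by positivity) hv1
    have h1 := hlog v hv1 hv2
    rw [← Real.exp_log (h.dom v hv0)]
    refine (Real.exp_le_exp.2 h1).trans (le_of_eq ?_)
    rw [Real.exp_add, Real.exp_add, Real.exp_add, exp_log_div hb, exp_half_log (by positivity), hB,
      Real.sqrt_mul (by positivity) v, Real.sqrt_mul (by positivity) (Real.exp 1),
      Real.sqrt_eq_rpow (Real.exp 1), ← Real.exp_mul]
    ring_nf
  have hes : e * s ≤ s := by nlinarith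
  have hes0 : 0 < e * s := by positivity
  have hI := h.integrableOn_exp hK (Nat.succ_pos n) (h.p2 s hs0.le) (h.dom s hs0) hs0
  have hIi : IntervalIntegrable (fun v => Real.exp (K * v) * (UN (n + 1) m (μ v))⁻¹) volume 0 s :=
    (intervalIntegrable_iff_integrableOn_Ioc_of_le hs0.le).2 hI
  have hi1 : IntervalIntegrable (fun v => Real.exp (K * v) * (UN (n + 1) m (μ v))⁻¹) volume 0
      (e * s) := hIi.mono_set (by
        rw [uIcc_of_le hes0.le, uIcc_of_le hs0.le]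
        exact Icc_subset_Icc le_rfl hes)
  have hi2 : IntervalIntegrable (fun v => Real.exp (K * v) * (UN (n + 1) m (μ v))⁻¹) volume
      (e * s) s := hIi.mono_set (by
        rw [uIcc_of_le hes, uIcc_of_le hs0.le]
        exact Icc_subset_Icc hes0.le le_rfl)
  have hnn : ∀ v ∈ Icc (0 : ℝ) (e * s), 0 ≤ Real.exp (K * v) * (UN (n + 1) m (μ v))⁻¹ :=
    fun v _ => mul_nonneg (Real.exp_pos _).le (inv_nonneg.2 (UN_nonneg _ _ _))
  have h1 : ∫ v in (e * s)..s, Real.exp (K * v) * (UN (n + 1) m (μ v))⁻¹ ≤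
      ∫ v in (0 : ℝ)..s, Real.exp (K * v) * (UN (n + 1) m (μ v))⁻¹ := by
    rw [← intervalIntegral.integral_add_adjacent_intervals hi1 hi2]
    have := intervalIntegral.integral_nonneg (μ := volume) hes0.le hnn
    linarith
  refine le_trans ?_ h1
  -- comparison with the model integral
  have hcont : ContinuousOn (fun v : ℝ => (√v)⁻¹) (uIcc (e * s) s) := by
    rw [uIcc_of_le hes]
    exact (Real.continuous_sqrt.continuousOn).inv₀ fun v hv =>
      (Real.sqrt_pos.2 (hes0.trans_le hv.1)).ne'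
  have h2 : ∫ v in (e * s)..s, Real.exp (K * s) * (Real.exp e * B)⁻¹ * (√v)⁻¹ ≤
      ∫ v in (e * s)..s, Real.exp (K * v) * (UN (n + 1) m (μ v))⁻¹ := by
    refine intervalIntegral.integral_mono_on hes (hcont.intervalIntegrable.const_mul _) hi2
      fun v hv => ?_
    have hv0 : 0 < v := hes0.trans_le hv.1
    have h3 := hUle v hv.1 hv.2
    have h4 : Real.exp (K * s) ≤ Real.exp (K * v) :=
      Real.exp_le_exp.2 (mul_le_mul_of_nonpos_left hv.2 hK)
    have h5 : (Real.exp e * B * √v)⁻¹ ≤ (UN (n + 1) m (μ v))⁻¹ := inv_anti₀ (h.dom v hv0) h3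
    rw [mul_assoc, ← mul_inv]
    exact mul_le_mul h4 h5 (by positivity) (Real.exp_pos _).le
  refine le_trans ?_ h2
  rw [intervalIntegral.integral_const_mul, integral_inv_sqrt hes0 hes,
    Real.sqrt_mul he0.le, he, Real.sqrt_sq (by positivity)]
  have h6 : 1 - ε / 4 ≤ Real.exp (K * s) := by
    have := Real.add_one_le_exp (K * s)
    linarith
  have h7 : 1 - ε / 16 ≤ (Real.exp e)⁻¹ := by
    rw [← Real.exp_neg]
    have := Real.add_one_le_exp (-e)
    linarith
  have h8 : (1 - ε / 4) * (1 - ε / 16) * (1 - ε / 4) ≤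
      Real.exp (K * s) * (Real.exp e)⁻¹ * (1 - ε / 4) := by
    have h9 : (0 : ℝ) ≤ 1 - ε / 4 := by linarith
    have h10 : (0 : ℝ) ≤ 1 - ε / 16 := by linarith
    gcongr
  have h9 : 1 - ε ≤ (1 - ε / 4) * (1 - ε / 16) * (1 - ε / 4) := by nlinarith
  rw [← he]
  calc (1 - ε) * (2 * √s / B) ≤ Real.exp (K * s) * (Real.exp e)⁻¹ * (1 - ε / 4) * (2 * √s / B) :=
        mul_le_mul_of_nonneg_right (h9.trans h8) (by positivity)
    _ = _ := by
        rw [mul_inv]
        ring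

/-! ### Good points -/

section good
variable {X : Type u} [MetricSpace X] [MeasurableSpace X] [BorelSpace X] {K : ℝ} {n : ℕ}
  {m : Measure X} {ν : ℝ → Measure X} {y : X}

/-- the inequality `(1 + β) exp (-β / 2) ≤ 2 exp (-1 / 2)` in the form needed -/
theorem beta_step {E L I β R : ℝ} (hR : 0 ≤ R)
    (h : E * (L * Real.exp (β / 2)) * I ≤ R * (1 + β)) :
    E * L * I ≤ R * (2 * Real.exp (-(1 / 2))) := by
  have h1 := one_add_le_two_exp β
  have h2 : Real.exp ((β - 1) / 2) = Real.exp (β / 2) * Real.exp (-(1 / 2)) := by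
    rw [← Real.exp_add]; congr 1; ring
  rw [h2] at h1
  have h3 : E * (L * Real.exp (β / 2)) * I ≤
      R * (2 * (Real.exp (β / 2) * Real.exp (-(1 / 2)))) :=
    h.trans (mul_le_mul_of_nonneg_left h1 hR)
  have h4 : Real.exp (β / 2) * (E * L * I) ≤
      Real.exp (β / 2) * (R * (2 * Real.exp (-(1 / 2)))) := by
    calc _ = E * (L * Real.exp (β / 2)) * I := by ring
      _ ≤ _ := h3
      _ = _ := by ring
  exact le_of_mul_le_mul_left h4 (Real.exp_pos _)

/-- EVI against the truncated Gaussian: upper bound of the integral of `1 / UN` -/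
theorem obs_step (hK : K ≤ 0) (hX : IsRCD K (n + 1) X m) (h : IsEVIFlow K (n + 1) m ν)
    (h0 : ν 0 = dirac y) {e ρ r s c : ℝ} (he0 : 0 < e) (hc : 0 < c) (hρ : 0 < ρ) (hρ1 : ρ ≤ 1)
    (hGρ : (-(K / ((n + 1 : ℕ) : ℝ))) * Real.cosh (√(-(K / ((n + 1 : ℕ) : ℝ)))) ^ 2 * ρ ≤ e)
    (hr0 : 0 < r) (hrc : r / c ≤ ρ) (hs0 : 0 < s) (hsr2 : s ≤ r ^ 2) :
    Real.exp (K * r ^ 2) * Real.exp (Real.log (∫ z in ball y (r / c), gsn y (r ^ 2) z ∂m) /
      ((n + 1 : ℕ) : ℝ)) * (∫ v in s..(r ^ 2), (UN (n + 1) m (ν v))⁻¹) ≤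
      (1 + e) * r ^ 2 * (2 * Real.exp (-(1 / 2))) := by
  have := hX.proper
  have hsf : SigmaFinite m := sigmaFinite_of_fin hX.finite_ball
  have hN : (0 : ℝ) < ((n + 1 : ℕ) : ℝ) := Nat.cast_pos.2 (Nat.succ_pos n)
  have hκ : K / ((n + 1 : ℕ) : ℝ) ≤ 0 := div_nonpos_of_nonpos_of_nonneg hK hN.le
  set κ : ℝ := K / ((n + 1 : ℕ) : ℝ) with hκdef
  set G : ℝ := (-κ) * Real.cosh (√(-κ)) ^ 2 with hG
  have hG0 : 0 ≤ G := mul_nonneg (by linarith) (sq_nonneg _)
  have hr2 : 0 < r ^ 2 := by positivity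
  have hball0 : m (ball y (r / c)) ≠ 0 := (hX.pos_ball y _ (by positivity)).ne'
  have hball1 : m (ball y (r / c)) ≠ ∞ := ball_fin hX y _
  obtain ⟨hσP, hσU, hZ0, hlogσ⟩ := obs_gauss (Nat.succ_pos n) (m := m) y (R := r / c)
    (by positivity) hr2 hball0 hball1
  set σ := densM m (ball y (r / c)) (gsn y (r ^ 2)) with hσ
  set Z := ∫ z in ball y (r / c), gsn y (r ^ 2) z ∂m with hZ
  set M := ∫ z, dist z y ^ 2 ∂σ with hM
  -- the second moment of the observer
  have hM0 : 0 ≤ M := integral_nonneg fun _ => sq_nonneg _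
  have hW : W2 (ν 0) σ ^ 2 = M := by rw [h0, W2_comm, W2_dirac_sq hσP y]
  have hMρ : M ≤ ρ ^ 2 := by
    have hmem : ∀ᵐ z ∂σ, z ∈ ball y (r / c) := by
      have h1 := densM_facts (m := m) (B := ball y (r / c)) measurableSet_ball hball0 hball1
        (continuous_gsn y (r ^ 2)).measurable (c := Real.exp (-((r / c) ^ 2) / (4 * r ^ 2)))
        (C := 1) (Real.exp_pos _) (fun x hx => by
          unfold gsn
          rw [Real.exp_le_exp]
          refine div_le_div_of_nonneg_right ?_ (by positivity)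
          have h2 : dist x y < r / c := hx
          have h3 : 0 ≤ dist x y := dist_nonneg
          nlinarith) (fun x _ => gsn_le_one y hr2 x)
      exact h1.2.2.2.1
    have hσp := hσP.1
    calc M ≤ ∫ _z, ρ ^ 2 ∂σ := by
          refine integral_mono_ae ?_ (integrable_const _) ?_
          · have h1 := hσP.integrable_sq y
            simpa only [dist_comm] using h1
          · filter_upwards [hmem] with z hz
            have h2 : dist z y < r / c := hz
            exact pow_le_pow_left₀ dist_nonneg (h2.le.trans hrc) 2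
      _ = ρ ^ 2 := by simp
  -- EVI against the observer
  have hevi := h.evi_obs hK (Nat.succ_pos n) hσP hσU hs0 hsr2
  set W := W2 (ν 0) σ with hWdef
  have hW0 : 0 ≤ W := W2_nonneg _ _
  have hWρ : W ≤ ρ := by
    have h1 : W ^ 2 ≤ ρ ^ 2 := by rw [hW]; exact hMρ
    exact le_of_sq_le_sq h1 hρ.le
  have hsK : sK κ (W / 2) ^ 2 ≤ (1 + e) * (M / 4) := by
    have h1 := sK_sq_le hκ (x := W / 2) (by positivity) (by linarith)
    rw [← hG] at h1
    have h3 : (W / 2) ^ 2 ≤ ρ := by nlinarith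
    have h4 : (W / 2) ^ 2 = M / 4 := by rw [← hW]; ring
    have h5 : G * (W / 2) ^ 4 ≤ e * (W / 2) ^ 2 := by
      calc G * (W / 2) ^ 4 = G * (W / 2) ^ 2 * (W / 2) ^ 2 := by ring
        _ ≤ G * ρ * (W / 2) ^ 2 := by gcongr
        _ ≤ e * (W / 2) ^ 2 := mul_le_mul_of_nonneg_right hGρ (sq_nonneg _)
    calc sK κ (W / 2) ^ 2 ≤ (W / 2) ^ 2 + e * (W / 2) ^ 2 := by linarith
      _ = _ := by rw [h4]; ring
  set I := ∫ v in s..(r ^ 2), (UN (n + 1) m (ν v))⁻¹ with hI
  set Uσ := UN (n + 1) m σ with hUσ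
  set β : ℝ := M / (2 * ((n + 1 : ℕ) : ℝ) * r ^ 2) with hβ
  have hMβ : M = 2 * ((n + 1 : ℕ) : ℝ) * r ^ 2 * β := by rw [hβ]; field_simp
  have hstep1 : Real.exp (K * r ^ 2) * Uσ * I ≤ (1 + e) * r ^ 2 * (1 + β) := by
    have h1 : 0 ≤ Real.exp (K * r ^ 2) * sK κ (W2 (ν (r ^ 2)) σ / 2) ^ 2 := by
      positivity
    have h2 : ((n + 1 : ℕ) : ℝ) / 2 * (Real.exp (K * r ^ 2) * Uσ * I) ≤
        ((n + 1 : ℕ) : ℝ) / 2 * r ^ 2 + (1 + e) * (M / 4) := by
      have h3 := hevi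
      simp only [Nat.succ_eq_add_one] at h3
      linarith
    have h3 : ((n + 1 : ℕ) : ℝ) / 2 * r ^ 2 + (1 + e) * (M / 4) ≤
        ((n + 1 : ℕ) : ℝ) / 2 * ((1 + e) * r ^ 2 * (1 + β)) := by
      have h4 : 0 ≤ ((n + 1 : ℕ) : ℝ) / 2 * (e * r ^ 2) := by positivity
      have h5 : ((n + 1 : ℕ) : ℝ) / 2 * ((1 + e) * r ^ 2 * (1 + β)) =
          ((n + 1 : ℕ) : ℝ) / 2 * r ^ 2 + ((n + 1 : ℕ) : ℝ) / 2 * (e * r ^ 2) +
          (1 + e) * (M / 4) := by
        rw [hMβ]
        ring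
      linarith
    exact le_of_mul_le_mul_left (h2.trans h3) (by positivity)
  have hUσ_eq : Uσ = Real.exp (Real.log Z / ((n + 1 : ℕ) : ℝ)) * Real.exp (β / 2) := by
    have h1 : Real.log Uσ = Real.log Z / ((n + 1 : ℕ) : ℝ) + β / 2 := by
      have h2 : Real.log Uσ = (Real.log Z + M / (4 * r ^ 2)) / ((n + 1 : ℕ) : ℝ) := by
        rw [eq_div_iff hN.ne', mul_comm]
        exact hlogσ
      rw [h2, hβ]
      field_simp
      ring
    rw [← Real.exp_add, ← h1, Real.exp_log hσU]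
  rw [hUσ_eq] at hstep1
  exact beta_step (by positivity) hstep1

/-- the lower bound of the normalised partition function -/
theorem Z_step {e b r Z : ℝ} (he0 : 0 < e) (he1 : e < 1) (hb : 0 < b) (hr0 : 0 < r)
    (hZ : (1 - e) * (b * (4 * Real.pi * r ^ 2) ^ (((n + 1 : ℕ) : ℝ) / 2)) ≤ Z) :
    (1 - e) * (b ^ ((1 : ℝ) / (n + 1)) * (√(4 * Real.pi) * r)) ≤
      Real.exp (Real.log Z / ((n + 1 : ℕ) : ℝ)) := by
  have hN : (0 : ℝ) < ((n + 1 : ℕ) : ℝ) := Nat.cast_pos.2 (Nat.succ_pos n)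
  have hpi := Real.pi_pos
  have h1e : 0 < 1 - e := by linarith
  have h1 : Real.log ((1 - e) * (b * (4 * Real.pi * r ^ 2) ^ (((n + 1 : ℕ) : ℝ) / 2))) ≤
      Real.log Z := Real.log_le_log (by positivity) hZ
  rw [Real.log_mul h1e.ne' (by positivity), Real.log_mul hb.ne' (by positivity),
    Real.log_rpow (by positivity)] at h1
  have h2 : Real.log (1 - e) ≤ 0 := Real.log_nonpos (by linarith) (by linarith)
  have hN1 : (1 : ℝ) ≤ ((n + 1 : ℕ) : ℝ) := by exact_mod_cast Nat.succ_pos n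
  have h3 : Real.log (1 - e) ≤ Real.log (1 - e) / ((n + 1 : ℕ) : ℝ) := by
    rw [le_div_iff₀ hN]
    nlinarith
  have h4 : Real.log (1 - e) + Real.log b / ((n + 1 : ℕ) : ℝ) +
      Real.log (4 * Real.pi * r ^ 2) / 2 ≤ Real.log Z / ((n + 1 : ℕ) : ℝ) := by
    have h5 : (Real.log (1 - e) + (Real.log b +
        ((n + 1 : ℕ) : ℝ) / 2 * Real.log (4 * Real.pi * r ^ 2))) / ((n + 1 : ℕ) : ℝ) ≤
        Real.log Z / ((n + 1 : ℕ) : ℝ) := div_le_div_of_nonneg_right h1 hN.le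
    have h6 : (Real.log (1 - e) + (Real.log b +
        ((n + 1 : ℕ) : ℝ) / 2 * Real.log (4 * Real.pi * r ^ 2))) / ((n + 1 : ℕ) : ℝ) =
        Real.log (1 - e) / ((n + 1 : ℕ) : ℝ) + Real.log b / ((n + 1 : ℕ) : ℝ) +
        Real.log (4 * Real.pi * r ^ 2) / 2 := by
      field_simp
      ring
    linarith
  refine le_trans (le_of_eq ?_) (Real.exp_le_exp.2 h4)
  have h7 : ((n + 1 : ℕ) : ℝ) = (n : ℝ) + 1 := by push_cast; ring
  rw [Real.exp_add, Real.exp_add, Real.exp_log h1e, h7, exp_log_div hb,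
    exp_half_log (by positivity), Real.sqrt_mul (by positivity : (0 : ℝ) ≤ 4 * Real.pi) (r ^ 2),
    Real.sqrt_sq hr0.le]
  ring

/-- the entropy power grows at most like `√v`: lower bound of the integral of `1 / UN` -/
theorem I_step (hK : K ≤ 0) (hX : IsRCD K (n + 1) X m) (h : IsEVIFlow K (n + 1) m ν)
    {e r s : ℝ} (he0 : 0 < e) (he1 : e ≤ 1) (hr0 : 0 < r) (hrs : √s = e * r) (hs0 : 0 < s)
    (hr1 : r ≤ 1) (hEk : (-K) * Real.exp (2 * (-K)) * r ^ 2 ≤ e) :
    Real.exp (-e) * (e * r / UN (n + 1) m (ν s)) * (2 * (r - e * r)) ≤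
      ∫ v in s..(r ^ 2), (UN (n + 1) m (ν v))⁻¹ := by
  have := hX.proper
  have hK' : 0 ≤ -K := by linarith
  have hN : (0 : ℝ) < ((n + 1 : ℕ) : ℝ) := Nat.cast_pos.2 (Nat.succ_pos n)
  have hκ : K / ((n + 1 : ℕ) : ℝ) ≤ 0 := div_nonpos_of_nonpos_of_nonneg hK hN.le
  have hs2 : √s ^ 2 = s := Real.sq_sqrt hs0.le
  have hsr2 : s ≤ r ^ 2 := by
    rw [← hs2, hrs]
    have : e * r ≤ 1 * r := mul_le_mul_of_nonneg_right (by linarith) hr0.le
    exact pow_le_pow_left₀ (by positivity) (by linarith) 2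
  set U := UN (n + 1) m (ν s) with hU
  have hU0 : 0 < U := h.dom s hs0
  set Ek : ℝ := (-K) * Real.exp (2 * (-K)) with hEkdef
  have hEk0 : 0 ≤ Ek := by positivity
  have hsp : ∀ s t, 0 < s → s ≤ t → sK (K / ((n + 1 : ℕ) : ℝ)) (W2 (ν s) (ν t) / 2) ^ 2 ≤
      Real.exp (-K * (s + t)) * (((n + 1 : ℕ) : ℝ) / 2 * (√t - √s) ^ 2) := by
    intro s t hs hst
    have h1 := h.two_time hK (Nat.succ_pos n) h hs.le (hs.le.trans hst)
    rw [W2_self, zero_div, sK_zero_right] at h1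
    have h2 : Real.exp (-K * (s + t)) * Real.exp (K * (s + t)) = 1 := by
      rw [← Real.exp_add]
      simp
    have h3 := mul_le_mul_of_nonneg_left h1 (Real.exp_pos (-K * (s + t))).le
    rw [← mul_assoc, h2, one_mul] at h3
    refine h3.trans (le_of_eq ?_)
    simp only [Nat.succ_eq_add_one]
    ring
  have hmono : ∀ s t, 0 < s → s ≤ t → UN (n + 1) m (ν s) ≤ UN (n + 1) m (ν t) :=
    fun s t hs hst => h.UN_mono (Nat.succ_pos n) hX.finite_ball hX.exp_int hs hst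
  have hcont : ContinuousOn (fun v : ℝ => (√v)⁻¹) (uIcc s (r ^ 2)) := by
    rw [uIcc_of_le hsr2]
    exact (Real.continuous_sqrt.continuousOn).inv₀ fun v hv =>
      (Real.sqrt_pos.2 (hs0.trans_le hv.1)).ne'
  have h1 : ∫ v in s..(r ^ 2), Real.exp (-e) * (e * r / U) * (√v)⁻¹ ≤
      ∫ v in s..(r ^ 2), (UN (n + 1) m (ν v))⁻¹ := by
    refine intervalIntegral.integral_mono_on hsr2 (hcont.intervalIntegrable.const_mul _)
      (h.int s _ hs0 hsr2) fun v hv => ?_
    have hv0 : 0 < v := hs0.trans_le hv.1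
    have h2 := h.log_UN_le' hK (Nat.succ_pos n) hmono hsp hs0 hv.1
    have h3 : (-K) * Real.exp (2 * (-K) * v) * (v - s) ≤ e := by
      have hv1 : v ≤ 1 := hv.2.trans (by nlinarith)
      have h4 : Real.exp (2 * (-K) * v) ≤ Real.exp (2 * (-K)) := by
        rw [Real.exp_le_exp]
        nlinarith
      have h5 : (-K) * Real.exp (2 * (-K) * v) ≤ Ek := mul_le_mul_of_nonneg_left h4 hK'
      have h6 : v - s ≤ r ^ 2 := by linarith [hv.2]
      have h7 : 0 ≤ v - s := by linarith [hv.1]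
      exact (mul_le_mul h5 h6 h7 hEk0).trans hEk
    have hUv := h.dom v hv0
    have h8 : UN (n + 1) m (ν v) ≤ U * (√v / √s) * Real.exp e := by
      have h9 : Real.log (UN (n + 1) m (ν v)) ≤ Real.log U + Real.log (v / s) / 2 + e := by
        simp only [Nat.succ_eq_add_one] at h2
        linarith
      have h10 := Real.exp_le_exp.2 h9
      rw [Real.exp_log hUv, Real.exp_add, Real.exp_add, Real.exp_log hU0,
        exp_half_log (by positivity), Real.sqrt_div hv0.le] at h10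
      exact h10
    have hsv : 0 < √v := Real.sqrt_pos.2 hv0
    have hss : 0 < √s := Real.sqrt_pos.2 hs0
    have h11 : (U * (√v / √s) * Real.exp e)⁻¹ ≤ (UN (n + 1) m (ν v))⁻¹ := inv_anti₀ hUv h8
    refine le_trans (le_of_eq ?_) h11
    rw [← hrs, Real.exp_neg]
    field_simp
  rw [intervalIntegral.integral_const_mul, integral_inv_sqrt hs0 hsr2, Real.sqrt_sq hr0.le,
    hrs] at h1
  exact h1

/-- the algebra at the end -/
theorem end_step {e r U D Q E L I : ℝ} (he0 : 0 < e) (he1 : e ≤ 1 / 8) (hr0 : 0 < r) (hU0 : 0 < U)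
    (hD0 : 0 < D) (hQ0 : 0 < Q) (hE : 1 - e ≤ E) (hL : (1 - e) * (D * (Q * r)) ≤ L)
    (hI : Real.exp (-e) * (e * r / U) * (2 * (r - e * r)) ≤ I)
    (h : E * L * I ≤ (1 + e) * r ^ 2 * (2 * Real.exp (-(1 / 2)))) :
    (1 - 8 * e) * (D * (Q * Real.exp (1 / 2)) * (e * r)) ≤ U := by
  have h1e : 0 < 1 - e := by linarith
  have hE0 : 0 < E := by linarith
  have hL0 : 0 < (1 - e) * (D * (Q * r)) := by positivity
  have hI0 : 0 ≤ Real.exp (-e) * (e * r / U) * (2 * (r - e * r)) := by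
    have : r - e * r = (1 - e) * r := by ring
    rw [this]
    positivity
  have hfin : (1 - e) * ((1 - e) * (D * (Q * r))) *
      (Real.exp (-e) * (e * r / U) * (2 * (r - e * r))) ≤
      (1 + e) * r ^ 2 * (2 * Real.exp (-(1 / 2))) := by
    have h1 : (1 - e) * ((1 - e) * (D * (Q * r))) ≤ E * L :=
      mul_le_mul hE hL hL0.le hE0.le
    have h2 : 0 ≤ E * L := by
      have : 0 < L := hL0.trans_le hL
      positivity
    exact (mul_le_mul h1 hI hI0 h2).trans h
  have hfin2 : (1 - e) * (1 - e) * (1 - e) * Real.exp (-e) * (D * Q * (e * r)) ≤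
      (1 + e) * Real.exp (-(1 / 2)) * U := by
    have h1 : (1 - e) * ((1 - e) * (D * (Q * r))) *
        (Real.exp (-e) * (e * r / U) * (2 * (r - e * r))) =
        (2 * r ^ 2 / U) * ((1 - e) * (1 - e) * (1 - e) * Real.exp (-e) * (D * Q * (e * r))) := by
      field_simp
    have h2 : (1 + e) * r ^ 2 * (2 * Real.exp (-(1 / 2))) =
        (2 * r ^ 2 / U) * ((1 + e) * Real.exp (-(1 / 2)) * U) := by
      field_simp
    rw [h1, h2] at hfin
    exact le_of_mul_le_mul_left hfin (by positivity)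
  have hexp : Real.exp (-(1 / 2)) * Real.exp (1 / 2) = 1 := by rw [← Real.exp_add]; simp
  have hexe : 1 - e ≤ Real.exp (-e) := by
    have := Real.add_one_le_exp (-e)
    linarith
  have h5 : (1 - 8 * e) * (1 + e) ≤ (1 - e) * (1 - e) * (1 - e) * (1 - e) := by
    nlinarith [sq_nonneg e, mul_nonneg he0.le (sq_nonneg e)]
  have h6 : (1 - 8 * e) * (1 + e) ≤ (1 - e) * (1 - e) * (1 - e) * Real.exp (-e) :=
    h5.trans (mul_le_mul_of_nonneg_left hexe (by positivity))
  have h7 : (1 - 8 * e) * (1 + e) * (D * Q * (e * r)) ≤ (1 + e) * Real.exp (-(1 / 2)) * U :=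
    (mul_le_mul_of_nonneg_right h6 (by positivity)).trans hfin2
  have h8 := mul_le_mul_of_nonneg_right h7 (Real.exp_pos (1 / 2)).le
  have h9 : (1 + e) * ((1 - 8 * e) * (D * (Q * Real.exp (1 / 2)) * (e * r))) ≤ (1 + e) * U := by
    calc _ = (1 - 8 * e) * (1 + e) * (D * Q * (e * r)) * Real.exp (1 / 2) := by ring
      _ ≤ (1 + e) * Real.exp (-(1 / 2)) * U * Real.exp (1 / 2) := h8
      _ = (1 + e) * U * (Real.exp (-(1 / 2)) * Real.exp (1 / 2)) := by ring
      _ = _ := by rw [hexp, mul_one]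
  exact le_of_mul_le_mul_left h9 (by positivity)

end good

theorem goodU {K : ℝ} (hK : K ≤ 0) (n : ℕ) : GoodU.{u} K n := by
  intro ε hε hε1
  set e : ℝ := ε / 8 with he
  have he0 : 0 < e := by positivity
  have he1 : e ≤ 1 / 8 := by rw [he]; linarith
  have h8e : 8 * e = ε := by rw [he]; ring
  obtain ⟨c, r₁, hc, hc1, hr₁, hr₁1, H⟩ := good_gauss.{u} n hK he0 (by linarith : e ≤ 1)
  have hK' : 0 ≤ -K := by linarith
  have hN : (0 : ℝ) < ((n + 1 : ℕ) : ℝ) := Nat.cast_pos.2 (Nat.succ_pos n)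
  have hκ : K / ((n + 1 : ℕ) : ℝ) ≤ 0 := div_nonpos_of_nonpos_of_nonneg hK hN.le
  set G : ℝ := (-(K / ((n + 1 : ℕ) : ℝ))) * Real.cosh (√(-(K / ((n + 1 : ℕ) : ℝ)))) ^ 2 with hG
  have hG0 : 0 ≤ G := mul_nonneg (by linarith) (sq_nonneg _)
  set Ek : ℝ := (-K) * Real.exp (2 * (-K)) with hEk
  have hEk0 : 0 ≤ Ek := by positivity
  set r₀ : ℝ := min (min r₁ (e / (G + 1))) (min (e / (-K + 1)) (e / (Ek + 1))) with hr₀
  refine ⟨e * c, r₀, by positivity, by nlinarith, ?_, ?_, ?_⟩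
  · exact lt_min (lt_min hr₁ (by positivity)) (lt_min (by positivity) (by positivity))
  · exact (min_le_left _ _).trans ((min_le_left _ _).trans hr₁1)
  intro X _ _ _ m hX ν y ρ b s h0 h hρ hρr hb hgood hs0 hsρ
  have hρ1 : ρ ≤ r₁ := hρr.trans ((min_le_left _ _).trans (min_le_left _ _))
  have hρ2 : ρ ≤ e / (G + 1) := hρr.trans ((min_le_left _ _).trans (min_le_right _ _))
  have hρ3 : ρ ≤ e / (-K + 1) := hρr.trans ((min_le_right _ _).trans (min_le_left _ _))
  have hρ4 : ρ ≤ e / (Ek + 1) := hρr.trans ((min_le_right _ _).trans (min_le_right _ _))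
  rw [le_div_iff₀ (by positivity)] at hρ2 hρ3 hρ4
  have hρ01 : ρ ≤ 1 := hρ1.trans hr₁1
  have hss : 0 < √s := Real.sqrt_pos.2 hs0
  -- the larger time `r ^ 2`
  set r : ℝ := √s / e with hr
  have hr0 : 0 < r := by positivity
  have hrs : √s = e * r := by rw [hr]; field_simp
  have hrρ : r ≤ c * ρ := by
    rw [hr, div_le_iff₀ he0]
    linarith
  have hrρ' : r ≤ ρ := by nlinarith
  have hr2ρ : r ^ 2 ≤ ρ := by nlinarith
  have hrc : r / c ≤ ρ := by rw [div_le_iff₀ hc]; linarith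
  have hsr2 : s ≤ r ^ 2 := by
    rw [← Real.sq_sqrt hs0.le, hrs]
    have : e * r ≤ 1 * r := mul_le_mul_of_nonneg_right (by linarith) hr0.le
    exact pow_le_pow_left₀ (by positivity) (by linarith) 2
  have hZlow := H X m hX y b ρ r hb hr0 hrρ hρ1 hgood
  have h1 := obs_step hK hX h h0 he0 hc hρ hρ01 (by rw [← hG]; nlinarith) hr0 hrc hs0 hsr2
  have h2 := Z_step (n := n) he0 (by linarith) hb hr0 hZlow
  have h3 := I_step hK hX h he0 (by linarith) hr0 hrs hs0 (by linarith)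
    (by rw [← hEk]; nlinarith [mul_le_mul_of_nonneg_left hr2ρ hEk0])
  have h4 : 1 - e ≤ Real.exp (K * r ^ 2) := by
    have h5 := Real.add_one_le_exp (K * r ^ 2)
    have h6 : -K * r ^ 2 ≤ e := by nlinarith [mul_le_mul_of_nonneg_left hr2ρ hK']
    linarith
  have hpi := Real.pi_pos
  have h5 := end_step he0 he1 hr0 (h.dom s hs0) (by positivity)
    (Real.sqrt_pos.2 (by positivity : 0 < 4 * Real.pi)) h4 h2 h3 h1
  have hQe : √(4 * Real.pi * Real.exp 1) = √(4 * Real.pi) * Real.exp (1 / 2) := by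
    rw [Real.sqrt_mul (by positivity), Real.sqrt_eq_rpow (Real.exp 1), ← Real.exp_mul]
    norm_num
  rw [hQe, hrs, ← h8e]
  exact h5

/-! ### The gap -/

theorem gap' {K : ℝ} {n : ℕ} (hL : LowU.{u} K n) (hG : GoodU.{u} K n) : GapStmt.{u} K n := by
  intro δ hδ hδ1
  set h : ℝ := ((1 + 3 * δ) / (1 + 2 * δ)) ^ ((1 : ℝ) / (n + 1)) with hh
  have hbase : 1 < (1 + 3 * δ) / (1 + 2 * δ) := by
    rw [lt_div_iff₀ (by positivity)]
    linarith
  have hn : (0 : ℝ) < (1 : ℝ) / (n + 1) := by positivity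
  have hh1 : 1 < h := Real.one_lt_rpow hbase hn
  have hh2 : h ≤ 2 := by
    calc h ≤ ((1 + 3 * δ) / (1 + 2 * δ)) ^ (1 : ℝ) := by
          refine Real.rpow_le_rpow_of_exponent_le hbase.le ?_
          rw [div_le_one (by positivity)]
          have : (0 : ℝ) ≤ n := Nat.cast_nonneg n
          linarith
      _ = (1 + 3 * δ) / (1 + 2 * δ) := Real.rpow_one _
      _ ≤ 2 := by
          rw [div_le_iff₀ (by positivity)]
          linarith
  set ε : ℝ := (h - 1) / (4 * h) with hε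
  have hh0 : 0 < h := by linarith
  have hε0 : 0 < ε := div_pos (by linarith) (by linarith)
  have hε1 : ε < 1 := by
    rw [hε, div_lt_one (by linarith)]
    linarith
  obtain ⟨C₀, r₁, hC₀, hr₁, hr₁1, HL⟩ := hL ε hε0 hε1
  obtain ⟨c₀, r₂, hc₀, hc₀1, hr₂, hr₂1, HG⟩ := hG ε hε0 hε1
  have hA1 : 1 ≤ C₀ / c₀ := by
    rw [le_div_iff₀ hc₀]
    linarith
  refine ⟨C₀ / c₀, C₀, (h - 1) / 2, min (r₁ / C₀) (r₂ / (C₀ / c₀)), hA1, hC₀, by linarith,
    by linarith, lt_min (by positivity) (by positivity), ?_, ?_⟩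
  · refine (min_le_left _ _).trans ?_
    rw [div_le_one (by positivity)]
    linarith
  intro X _ _ _ m hX μ ν x y σ a hμ0 hν0 hμ hν hσ hσr ha hlow hgood
  have hCσ : 0 < C₀ * σ := by positivity
  have hσ1 : σ ≤ r₁ / C₀ := hσr.trans (min_le_left _ _)
  have hσ2 : σ ≤ r₂ / (C₀ / c₀) := hσr.trans (min_le_right _ _)
  rw [le_div_iff₀ (by positivity)] at hσ1 hσ2
  set s : ℝ := (C₀ * σ) ^ 2 with hs
  have hs0 : 0 < s := by positivity
  have hss : √s = C₀ * σ := Real.sqrt_sq hCσ.le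
  have hb1 : 0 < (1 + 2 * δ) * a := by positivity
  have hb2 : 0 < (1 + 3 * δ) * a := by positivity
  have h1 := HL X m hX μ x σ ((1 + 2 * δ) * a) s hμ0 hμ hσ hb1 hlow (by rw [hss])
    (by rw [hss]; linarith)
  have h2 := HG X m hX ν y (C₀ / c₀ * σ) ((1 + 3 * δ) * a) s hν0 hν (by positivity)
    (by linarith) hb2 hgood hs0 (by rw [hss]; apply le_of_eq; field_simp)
  set I := ∫ v in (0 : ℝ)..s, Real.exp (K * v) * (UN (n + 1) m (μ v))⁻¹ with hI
  set U := UN (n + 1) m (ν s) with hU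
  set b₁ := ((1 + 2 * δ) * a) ^ ((1 : ℝ) / (n + 1)) with hb₁
  set b₂ := ((1 + 3 * δ) * a) ^ ((1 : ℝ) / (n + 1)) with hb₂
  have hb₁0 : 0 < b₁ := by positivity
  have hb₂0 : 0 < b₂ := by positivity
  have hratio : b₂ = h * b₁ := by
    rw [hb₁, hb₂, hh, ← Real.mul_rpow (by positivity) (by positivity)]
    congr 1
    field_simp
  set E := √(4 * Real.pi * Real.exp 1) with hE
  have hpi := Real.pi_pos
  have hE0 : 0 < E := Real.sqrt_pos.2 (by positivity)
  have h3 : (1 - ε) * (b₂ * E * √s) * ((1 - ε) * (2 * √s / (b₁ * E))) ≤ U * I := by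
    have h4 : 0 ≤ (1 - ε) * (2 * √s / (b₁ * E)) := by
      have : 0 ≤ 1 - ε := by linarith
      positivity
    have := hX.proper
    have h5 : 0 ≤ U := UN_nonneg _ _ _
    exact mul_le_mul h2 h1 h4 h5
  refine le_trans ?_ h3
  have h4 : (1 - ε) * (b₂ * E * √s) * ((1 - ε) * (2 * √s / (b₁ * E))) =
      (1 - ε) ^ 2 * h * (2 * s) := by
    have : √s * √s = s := Real.mul_self_sqrt hs0.le
    rw [hratio]
    field_simp
    nlinarith
  rw [h4]
  refine mul_le_mul_of_nonneg_right ?_ (by positivity)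
  have h5 : 1 - 2 * ε ≤ (1 - ε) ^ 2 := by nlinarith [sq_nonneg ε]
  have h6 : (1 - 2 * ε) * h ≤ (1 - ε) ^ 2 * h := mul_le_mul_of_nonneg_right h5 hh0.le
  have h7 : (1 - 2 * ε) * h = 1 + (h - 1) / 2 := by
    rw [hε]
    field_simp
    ring
  linarith

theorem gap {K : ℝ} (hK : K ≤ 0) (n : ℕ) : GapStmt.{u} K n :=
  gap' (lowU hK n) (goodU hK n)

end Pool.Agent.BDRY
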