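import Pool.Agent.Work.MP_209cb6_gt.B2.EndDefs
import Pool.Agent.Work.MP_209cb6_gt.ContrRcd

/-!
# Stage 1: at a point of almost constant volume ratio `a ≤ b₀` the set where the ratio exceeds
`(1 + 3 δ) a` only below the scale `η R` has small measure
-/

set_option autoImplicit false

open MeasureTheory MeasureTheory.Measure Metric Set Filter Topology
open scoped ENNReal NNReal

namespace Pool.Agent.BDRY

universe u

/-- a totally bounded set has a finite maximal separated subset -/
theorem exists_sep_net {X : Type u} [MetricSpace X] {S : Set X} (hS : TotallyBounded S) {σ : ℝ}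
    (hσ : 0 < σ) : ∃ F : Finset X, (∀ w ∈ F, w ∈ S) ∧
      (∀ w ∈ F, ∀ w' ∈ F, w ≠ w' → σ ≤ dist w w') ∧ ∀ y ∈ S, ∃ w ∈ F, dist y w < σ := by
  classical
  obtain ⟨T, hT, hcov⟩ := Metric.totallyBounded_iff.1 hS (σ / 2) (by positivity)
  let P : Finset X → Prop := fun F => (∀ w ∈ F, w ∈ S) ∧
    (∀ w ∈ F, ∀ w' ∈ F, w ≠ w' → σ ≤ dist w w')
  have hcard : ∀ F, P F → F.card ≤ hT.toFinset.card := by
    intro F hF
    have h1 : ∀ w ∈ F, ∃ t ∈ T, dist w t < σ / 2 := by
      intro w hw
      have h2 := hcov (hF.1 w hw)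
      rw [mem_iUnion₂] at h2
      obtain ⟨t, ht, htw⟩ := h2
      exact ⟨t, ht, htw⟩
    choose! f hf using h1
    refine Finset.card_le_card_of_injOn f (fun w hw => ?_) (fun w hw w' hw' h => ?_)
    · simpa using (hf w hw).1
    · by_contra hne
      have h3 := hF.2 w hw w' hw' hne
      have h4 := (hf w hw).2
      have h5 := (hf w' hw').2
      rw [← h] at h5
      have h6 := dist_triangle_right w w' (f w)
      linarith
  have hP0 : P ∅ := by simp [P]
  let s : Set ℕ := {k | ∃ F, P F ∧ F.card = k}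
  have hs : s.Nonempty := ⟨0, ∅, hP0, rfl⟩
  have hsb : BddAbove s := ⟨hT.toFinset.card, by rintro k ⟨F, hF, rfl⟩; exact hcard F hF⟩
  obtain ⟨F, hF, hFk⟩ := Nat.sSup_mem hs hsb
  refine ⟨F, hF.1, hF.2, fun y hy => ?_⟩
  by_contra hcon
  push Not at hcon
  have hyF : y ∉ F := fun h => absurd (hcon y h) (by rw [dist_self]; exact not_le.2 hσ)
  have hins : P (insert y F) := by
    refine ⟨fun w hw => ?_, fun w hw w' hw' hne => ?_⟩
    · rcases Finset.mem_insert.1 hw with rfl | h
      · exact hy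
      · exact hF.1 w h
    · rcases Finset.mem_insert.1 hw with rfl | h <;> rcases Finset.mem_insert.1 hw' with rfl | h'
      · exact absurd rfl hne
      · exact hcon w' h'
      · rw [dist_comm]; exact hcon w h
      · exact hF.2 w h w' h' hne
  have h1 : (insert y F).card ≤ sSup s := le_csSup hsb ⟨_, hins, rfl⟩
  rw [Finset.card_insert_of_notMem hyF, ← hFk] at h1
  omega

section aux

variable {X : Type u} [MetricSpace X] [MeasurableSpace X] [BorelSpace X] {K : ℝ} {n : ℕ}
  {m : Measure X}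

omit [BorelSpace X] in
theorem cball_fin (hX : IsRCD K (n + 1) X m) (x : X) (r : ℝ) : m (closedBall x r) ≠ ∞ :=
  (hX.finite_ball x r).ne

/-- lower bound for the measure of a ball from the ratio -/
theorem le_real_of_tm (hX : IsRCD K (n + 1) X m) {x : X} {r b : ℝ} (hr : 0 < r)
    (h : b ≤ tm K n m r x) : b * (omN n * r ^ (n + 1)) ≤ m.real (closedBall x r) := by
  have hω := omN_pos n
  calc b * (omN n * r ^ (n + 1)) ≤ th n m r x * (omN n * r ^ (n + 1)) := by
        have := h.trans (tm_le_th hr.le x)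
        gcongr
    _ = m.real (ball x r) := (th_eq hr x).symm
    _ ≤ m.real (closedBall x r) := measureReal_mono ball_subset_closedBall (cball_fin hX x r)

/-- upper bound for the measure of a ball from the ratio at a larger radius -/
theorem real_le_of_tm (hX : IsRCD K (n + 1) X m) {x : X} {r r' b : ℝ} (hr : 0 < r')
    (hrr : r < r') (h : tm K n m r' x ≤ b) (_hb : 0 ≤ b)
    (hq : (n + 1) * qK K (n + 1) * r' ≤ 1 / 2) :
    m.real (closedBall x r) ≤ 2 * b * (omN n * r' ^ (n + 1)) := by
  have hω := omN_pos n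
  have h2 : Real.exp ((n + 1) * qK K (n + 1) * r') ≤ 2 := by
    calc Real.exp ((n + 1) * qK K (n + 1) * r') ≤ Real.exp (1 / 2) := Real.exp_le_exp.2 hq
      _ ≤ 2 := by
        have h3 := Real.exp_one_lt_d9
        have h4 : Real.exp (1 / 2) ^ 2 = Real.exp 1 := by
          rw [← Real.exp_nat_mul]; norm_num
        have h5 : 0 < Real.exp (1 / 2) := Real.exp_pos _
        nlinarith
  calc m.real (closedBall x r) ≤ m.real (ball x r') :=
        measureReal_mono (closedBall_subset_ball hrr) (ball_fin hX x r')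
    _ = th n m r' x * (omN n * r' ^ (n + 1)) := th_eq hr x
    _ = Real.exp ((n + 1) * qK K (n + 1) * r') * tm K n m r' x * (omN n * r' ^ (n + 1)) := by
        rw [th_eq_tm (K := K)]
    _ ≤ 2 * b * (omN n * r' ^ (n + 1)) := by
        have h3 := (tm_pos (K := K) hX x hr).le
        gcongr

omit [BorelSpace X] in
/-- the exceptional set of the flux counting is controlled by the contraction property -/
theorem bad_contr {A' c₀ : ℝ} (hc : Contr n A' c₀ X m) {x w x' : X} {q D lam R' : ℝ}
    {B : Set X} (hlam : 0 < lam) (hlam1 : lam ≤ 1) (hD : ∀ p ∈ closedBall x q, dist p x' ≤ D)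
    (hR : dist x' w + lam * D ≤ R') :
    c₀ * lam ^ (n + 1) * m.real (closedBall x q ∩ Zt x' 6 (1 - lam) B) ≤
      m.real (closedBall w R' ∩ B) := by
  have hsub : closedBall x q ∩ Zt x' 6 (1 - lam) B ⊆ Zt x' 6 (1 - lam) (closedBall w R' ∩ B) := by
    rintro p ⟨hp, hp6, z, hzB, hz⟩
    refine ⟨hp6, z, ⟨?_, hzB⟩, hz⟩
    have h1 : dist z x' = lam * dist p x' := by rw [hz.2]; ring
    have h2 : dist z x' ≤ lam * D := by
      rw [h1]; exact mul_le_mul_of_nonneg_left (hD p hp) hlam.le
    rw [mem_closedBall]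
    have := dist_triangle z x' w
    linarith
  have hfin : m (closedBall w R' ∩ B) ≠ ∞ :=
    ne_top_of_le_ne_top (hc.finite_ball w R').ne (measure_mono inter_subset_left)
  have hfin2 : m (Zt x' 6 (1 - lam) (closedBall w R' ∩ B)) ≠ ∞ :=
    ne_top_of_le_ne_top (hc.finite_ball x' 6).ne (measure_mono fun p hp => hp.1)
  have h1 := hc.far x' (1 - lam) (closedBall w R' ∩ B) (by linarith) (by linarith)
  have h2 := ENNReal.toReal_mono hfin h1
  rw [ENNReal.toReal_mul] at h2
  have h3 : c₀ * lam ^ (n + 1) ≤ (ENNReal.ofReal (c₀ * (1 - (1 - lam)) ^ (n + 1))).toReal := by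
    rw [ENNReal.toReal_ofReal']
    exact le_max_of_le_left (by rw [sub_sub_cancel])
  calc c₀ * lam ^ (n + 1) * m.real (closedBall x q ∩ Zt x' 6 (1 - lam) B)
      ≤ (ENNReal.ofReal (c₀ * (1 - (1 - lam)) ^ (n + 1))).toReal *
          m.real (closedBall x q ∩ Zt x' 6 (1 - lam) B) := by gcongr
    _ ≤ (ENNReal.ofReal (c₀ * (1 - (1 - lam)) ^ (n + 1))).toReal *
          m.real (Zt x' 6 (1 - lam) (closedBall w R' ∩ B)) := by
        gcongr
    _ ≤ _ := h2

end aux

theorem stage1 {K : ℝ} (hK : K ≤ 0) (n : ℕ) : Stage1Stmt.{u} K n := by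
  intro hF η₀ ζ₀ δ₀ s₀ κ b₀ δ hδ hδ1 hLR
  obtain ⟨A, c, C, lam₀, r₀, hA, hc, hc4, hC, hlam₀, hlam₁, hr₀, hr₁, hLF⟩ := hF δ hδ hδ1
  obtain ⟨A', c₀, hA', hc₀, hc₀1, hcontr⟩ := contr_of_rcd.{u} hK n
  set N : ℕ := n + 1 with hN
  obtain ⟨c', ε, r₂, hc', hc'1, hε, hε1, hr₂, hr₂1, hLR⟩ :=
    hLR (c₀ / (32 * 5 ^ N)) (by positivity)
  have hω := omN_pos n
  set kap : ℝ := (n + 1) * qK K (n + 1) with hkap
  have hkap0 : 0 ≤ kap := by
    have := qK_nonneg K (n + 1)
    positivity
  -- the constants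
  set ε₁ : ℝ := ε / (8 * (n + 2)) with hε₁
  have hn0 : (0 : ℝ) ≤ n := Nat.cast_nonneg n
  have hε₁0 : 0 < ε₁ := by positivity
  have hε₁ε : ε₁ * (8 * (n + 2)) = ε := by rw [hε₁]; field_simp
  have hε₁16 : 16 * ε₁ ≤ ε := by nlinarith
  set r₃ : ℝ := min (r₂) (ε / (14 * (kap + 1))) with hr₃
  have hr₃0 : 0 < r₃ := by rw [hr₃]; positivity
  have hr₃2 : r₃ ≤ r₂ := min_le_left _ _
  have hr₃k : 14 * (kap + 1) * r₃ ≤ ε := by
    have h1 : r₃ ≤ ε / (14 * (kap + 1)) := min_le_right _ _
    rw [le_div_iff₀ (by positivity)] at h1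
    linarith
  set ηu : ℝ := min (min (1 / 10) (c' / (2 * A))) (min (lam₀ * (5 * c') / A)
    (min (r₀ * (5 * c' / (2 * A)) ^ 2) (2 * r₀))) with hηu
  have hA0 : 0 < A := by linarith
  have hηu0 : 0 < ηu := by rw [hηu]; positivity
  refine ⟨16 * C * (A / (5 * c')) * (14 / c) ^ N * omN n, ηu, ε₁, r₃, by positivity, hηu0,
    (min_le_left _ _).trans (min_le_left _ _), hε₁0, by linarith, hr₃0, hr₃2.trans hr₂1, ?_⟩
  intro X _ _ _ m P hX hP hCol x R η a hR hR3 hη hηu' ha ha2 hx
  have : ProperSpace X := hX.proper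
  have hR1 : R ≤ 1 := hR3.trans (hr₃2.trans hr₂1)
  have hkR : 14 * (kap * R) ≤ ε := by
    have h1 : 14 * (kap * R) ≤ 14 * ((kap + 1) * r₃) := by gcongr; linarith
    linarith
  have hR14 : 14 * R ≤ ε := by
    have h1 : 14 * (1 * R) ≤ 14 * ((kap + 1) * r₃) := by gcongr; linarith
    linarith
  set σ : ℝ := η * R with hσ
  have hσ0 : 0 < σ := by positivity
  have hη1 : η ≤ 1 / 10 := hηu'.trans ((min_le_left _ _).trans (min_le_left _ _))
  have hη2 : η * (2 * A) ≤ c' := (le_div_iff₀ (by positivity)).1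
    (hηu'.trans ((min_le_left _ _).trans (min_le_right _ _)))
  have hη3 : η * A ≤ lam₀ * (5 * c') := (le_div_iff₀ hA0).1
    (hηu'.trans ((min_le_right _ _).trans (min_le_left _ _)))
  have hη4 : η ≤ r₀ * (5 * c' / (2 * A)) ^ 2 :=
    hηu'.trans ((min_le_right _ _).trans ((min_le_right _ _).trans (min_le_left _ _)))
  have hη5 : η ≤ 2 * r₀ :=
    hηu'.trans ((min_le_right _ _).trans ((min_le_right _ _).trans (min_le_right _ _)))
  have hσR : 10 * σ ≤ R := by
    have h1 : η * R ≤ 1 / 10 * R := by gcongr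
    linarith
  set R' : ℝ := A * σ / c' with hR'
  have hR'0 : 0 < R' := by positivity
  have hcR' : c' * R' = A * σ := by rw [hR']; field_simp
  have hR'R : 2 * R' ≤ R := by
    have h1 : c' * (2 * R') ≤ c' * R := by
      calc c' * (2 * R') = (η * (2 * A)) * R := by rw [hσ] at hcR'; linarith
        _ ≤ c' * R := by gcongr
    exact le_of_mul_le_mul_left h1 hc'
  have hσR' : 10 * σ ≤ R' := by
    rw [hR', le_div_iff₀ hc']
    have h1 : 10 * σ * c' ≤ 10 * σ * (1 / 10) := by gcongr
    have h2 : 1 * σ ≤ A * σ := by gcongr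
    linarith
  set lam : ℝ := R' / (5 * R) with hlam
  have hlam0 : 0 < lam := by positivity
  have hlamR : lam * (5 * R) = R' := by rw [hlam]; field_simp
  have hlamη : lam * (5 * c') = A * η := by
    have h1 : lam * (5 * c') * R = A * η * R := by
      calc lam * (5 * c') * R = c' * (lam * (5 * R)) := by ring
        _ = A * η * R := by rw [hlamR, hcR', hσ]; ring
    exact mul_right_cancel₀ hR.ne' h1
  have hlam1 : lam ≤ lam₀ := by
    have h1 : lam * (5 * c') ≤ lam₀ * (5 * c') := by rw [hlamη]; linarith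
    exact le_of_mul_le_mul_right h1 (by positivity)
  -- lower bound of the ratio on `closedBall x (2 R)`
  have hlow : ∀ y ∈ closedBall x (2 * R), (1 - ε) * a ≤ tm K n m (R / ε₁) y := by
    intro y hy
    have h1 := (hx (R / ε₁) (by positivity) le_rfl).1
    have h2 := tm_nbr' hK hX (x := x) (y := y) (e := 2 * R) (R := R / ε₁)
      (by rw [dist_comm]; exact hy) (by positivity)
    have h3 : (R / ε₁ + 2 * R) / (R / ε₁) = 1 + 2 * ε₁ := by field_simp
    have h4 : (1 + 2 * ε₁) ^ (n + 1) ≤ Real.exp (2 * ε₁ * (n + 1)) := by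
      calc (1 + 2 * ε₁) ^ (n + 1) ≤ (Real.exp (2 * ε₁)) ^ (n + 1) := by
            gcongr
            linarith [Real.add_one_le_exp (2 * ε₁)]
        _ = _ := by
            rw [← Real.exp_nat_mul]
            push_cast
            ring_nf
    have h5 : (1 + 2 * ε₁) ^ (n + 1) * Real.exp ((n + 1) * qK K (n + 1) * (2 * R)) ≤
        Real.exp (ε / 2) := by
      calc (1 + 2 * ε₁) ^ (n + 1) * Real.exp ((n + 1) * qK K (n + 1) * (2 * R))
          ≤ Real.exp (2 * ε₁ * (n + 1)) * Real.exp (kap * (2 * R)) := by gcongr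
        _ = Real.exp (2 * ε₁ * (n + 1) + kap * (2 * R)) := (Real.exp_add _ _).symm
        _ ≤ Real.exp (ε / 2) := by
            apply Real.exp_le_exp.2
            have e1 : 2 * ε₁ * (n + 1) = ε / 4 - 2 * ε₁ := by rw [← hε₁ε]; ring
            have e2 : kap * (2 * R) = 2 * (kap * R) := by ring
            rw [e1, e2]
            linarith
    rw [h3] at h2
    have h6 : 0 < tm K n m (R / ε₁) y := tm_pos hX y (by positivity)
    have h7 : (1 - ε₁) * a ≤ Real.exp (ε / 2) * tm K n m (R / ε₁) y := by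
      calc (1 - ε₁) * a ≤ _ := h1
        _ ≤ _ := h2
        _ ≤ _ := by gcongr
    have h8 : 1 - ε / 2 ≤ Real.exp (-(ε / 2)) := Real.one_sub_le_exp_neg _
    have h9 : Real.exp (-(ε / 2)) * Real.exp (ε / 2) = 1 := by rw [← Real.exp_add]; simp
    calc (1 - ε) * a ≤ (1 - ε / 2) * ((1 - ε₁) * a) := by
          have : (1 - ε) ≤ (1 - ε / 2) * (1 - ε₁) := by
            have e1 : 0 ≤ ε / 2 * ε₁ := by positivity
            have e2 : (1 - ε / 2) * (1 - ε₁) = 1 - ε / 2 - ε₁ + ε / 2 * ε₁ := by ring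
            rw [e2]
            linarith
          calc (1 - ε) * a ≤ (1 - ε / 2) * (1 - ε₁) * a := by gcongr
            _ = _ := by ring
      _ ≤ Real.exp (-(ε / 2)) * (Real.exp (ε / 2) * tm K n m (R / ε₁) y) := by
          have e1 : 0 ≤ (1 - ε₁) * a := mul_nonneg (by linarith) ha.le
          exact mul_le_mul h8 h7 e1 (Real.exp_pos _).le
      _ = tm K n m (R / ε₁) y := by rw [← mul_assoc, h9, one_mul]
  -- the net
  set S : Set X := {y ∈ closedBall x R | tm K n m σ y < (1 + 3 * δ) * a} with hS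
  have hStb : TotallyBounded S :=
    (isCompact_closedBall x R).totallyBounded.subset fun y hy => hy.1
  obtain ⟨Fs, hFS, hsep, hcov⟩ := exists_sep_net hStb hσ0
  have hb3 : (1 + 3 * δ) * a ≤ 13 / 10 * a := by gcongr; linarith
  -- the exceptional sets
  have hbad : ∀ w ∈ Fs, ∀ x' ∈ closedBall w (c * σ),
      m (closedBall x (2 * R) ∩ Zt x' 6 (1 - lam)
        {y | tm K n m (A * σ) y < (1 + 3 * δ) * ((1 + 3 * δ) * a)}) ≤
        m (closedBall x (2 * R)) / 2 := by
    intro w hw x' hx'
    set B : Set X := {y | tm K n m (A * σ) y < (1 + 3 * δ) * ((1 + 3 * δ) * a)} with hB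
    have hwS := hFS w hw
    have hwR : dist w x ≤ R := hwS.1
    have hcσ : c * σ ≤ σ / 4 := by
      have e1 : c * σ ≤ 1 / 4 * σ := by gcongr
      linarith
    have hx'w : dist x' w ≤ c * σ := hx'
    have h1 := bad_contr (hcontr X m hX) (x := x) (w := w) (x' := x') (q := 2 * R)
      (D := 4 * R) (lam := lam) (R' := R') (B := B) hlam0 (by linarith)
      (fun p hp => by
        have h2 : dist p x ≤ 2 * R := hp
        have h3 := dist_triangle p x x'
        have h4 := dist_triangle x w x'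
        rw [dist_comm x w, dist_comm w x'] at h4
        linarith) (by
          have e1 : lam * (4 * R) = 4 / 5 * R' := by rw [← hlamR]; ring
          rw [e1]
          linarith)
    have h2 : m.real (closedBall w R' ∩ B) ≤
        m.real {y ∈ closedBall w R' | tm K n m (c' * R') y < (1 + 7 * δ) * a} := by
      refine measureReal_mono (fun y hy => ⟨hy.1, ?_⟩)
        (ne_top_of_le_ne_top (cball_fin hX w R') (measure_mono fun y hy => hy.1))
      rw [hcR']
      refine lt_of_lt_of_le hy.2 ?_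
      have : (1 + 3 * δ) * (1 + 3 * δ) ≤ 1 + 7 * δ := by
        have e1 : δ * δ ≤ 1 / 10 * δ := by gcongr
        have e2 : (1 + 3 * δ) * (1 + 3 * δ) = 1 + 6 * δ + 9 * (δ * δ) := by ring
        rw [e2]
        linarith
      calc (1 + 3 * δ) * ((1 + 3 * δ) * a) = (1 + 3 * δ) * (1 + 3 * δ) * a := by ring
        _ ≤ _ := by gcongr
    have h3 := hLR X m hX hCol w R' a hR'0 (by linarith) ha ha2 (fun y hy => by
      have h4 : dist y w ≤ 2 * R' := hy
      have h5 := dist_triangle y w x
      refine (hlow y (by rw [mem_closedBall]; linarith)).trans ?_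
      refine tm_anti hK hX y (by positivity) ?_
      rw [div_le_div_iff₀ hε hε₁0]
      exact mul_le_mul (by linarith) (by linarith) hε₁0.le hR.le)
    have h4 : m.real (closedBall w R') ≤
        2 * ((1 + 3 * δ) * a) * (omN n * (2 * R') ^ (n + 1)) := by
      refine real_le_of_tm (K := K) (r' := 2 * R') hX (by positivity) (by linarith) ?_
        (by positivity) ?_
      · exact (tm_anti hK hX w hσ0 (by linarith)).trans hwS.2.le
      · rw [← hkap]
        have : kap * (2 * R') ≤ kap * R := by gcongr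
        linarith
    have h5 : (1 - ε₁) * a * (omN n * (2 * R) ^ (n + 1)) ≤ m.real (closedBall x (2 * R)) := by
      refine le_real_of_tm (K := K) hX (by positivity) ((hx _ (by positivity) ?_).1)
      rw [le_div_iff₀ hε₁0]
      have e1 : 2 * R * ε₁ ≤ 2 * R * (1 / 2) := by gcongr; linarith
      linarith
    have h6 : (2 * R') ^ (n + 1) = 5 ^ (n + 1) * lam ^ (n + 1) * (2 * R) ^ (n + 1) := by
      rw [← hlamR, ← mul_pow, ← mul_pow]; ring
    have h7 : m.real (closedBall x (2 * R) ∩ Zt x' 6 (1 - lam) B) ≤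
        m.real (closedBall x (2 * R)) / 2 := by
      have h8 : c₀ * lam ^ (n + 1) * m.real (closedBall x (2 * R) ∩ Zt x' 6 (1 - lam) B) ≤
          c₀ * lam ^ (n + 1) * (13 / 160 * (a * (omN n * (2 * R) ^ (n + 1)))) := by
        calc c₀ * lam ^ (n + 1) * m.real (closedBall x (2 * R) ∩ Zt x' 6 (1 - lam) B)
            ≤ c₀ / (32 * 5 ^ N) * m.real (closedBall w R') := h1.trans (h2.trans h3)
          _ ≤ c₀ / (32 * 5 ^ N) * (2 * (13 / 10 * a) * (omN n * (2 * R') ^ (n + 1))) := by
              gcongr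
              refine h4.trans ?_
              gcongr
          _ = _ := by
              rw [h6, hN]
              field_simp
              ring
      have h9 := le_of_mul_le_mul_left h8 (by positivity)
      have h10 : 0 < a * (omN n * (2 * R) ^ (n + 1)) := by positivity
      have h12 : (1 - ε₁) * a * (omN n * (2 * R) ^ (n + 1)) =
          (1 - ε₁) * (a * (omN n * (2 * R) ^ (n + 1))) := by ring
      have h13 : 9 / 10 * (a * (omN n * (2 * R) ^ (n + 1))) ≤
          (1 - ε₁) * (a * (omN n * (2 * R) ^ (n + 1))) := by gcongr; linarith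
      linarith
    have hf1 : m (closedBall x (2 * R) ∩ Zt x' 6 (1 - lam) B) ≠ ∞ :=
      ne_top_of_le_ne_top (cball_fin hX x (2 * R)) (measure_mono inter_subset_left)
    rw [← ENNReal.ofReal_toReal hf1, ← ENNReal.ofReal_toReal (cball_fin hX x (2 * R))]
    have h11 : ENNReal.ofReal (m (closedBall x (2 * R))).toReal / 2 =
        ENNReal.ofReal ((m (closedBall x (2 * R))).toReal / 2) := by
      rw [ENNReal.ofReal_div_of_pos (by norm_num)]
      simp
    rw [h11]
    exact ENNReal.ofReal_le_ofReal h7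
  have hmain := hLF X m P hX hP x (2 * R) σ Fs (fun _ => (1 + 3 * δ) * a) (fun _ => lam)
    (by positivity) (by linarith) hσ0 (by
      have e1 : η * R ≤ 2 * r₀ * R := by gcongr
      linarith)
    (fun w hw => by
      have : dist w x ≤ R := (hFS w hw).1
      rw [mem_closedBall]; linarith) hsep
    (fun w hw => ⟨by positivity, by
      have := (hFS w hw).2.le
      have h2 : 0 < (1 + 3 * δ) * a := by positivity
      have h3 : 1 * ((1 + 3 * δ) * a) ≤ (1 + δ) * ((1 + 3 * δ) * a) := by gcongr; linarith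
      linarith⟩)
    (fun w hw => ⟨hlam0, hlam1, by
      set u : ℝ := 5 * c' / (2 * A) with hu
      have hu0 : 0 < u := by positivity
      have h1 : lam * (2 * R) * u = σ := by
        have : lam * (2 * R) * u = lam * (5 * c') * R / A := by rw [hu]; field_simp
        rw [this, hlamη, hσ]; field_simp
      have h2 : σ ≤ r₀ * u ^ 2 := by
        calc σ ≤ η * 1 := by rw [hσ]; gcongr
          _ ≤ r₀ * u ^ 2 := by rw [mul_one]; exact hη4
      have h3 : (lam * (2 * R)) ^ 2 * u ^ 2 ≤ r₀ * σ * u ^ 2 := by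
        calc (lam * (2 * R)) ^ 2 * u ^ 2 = (lam * (2 * R) * u) ^ 2 := by ring
          _ = σ * σ := by rw [h1]; ring
          _ ≤ σ * (r₀ * u ^ 2) := by gcongr
          _ = _ := by ring
      exact le_of_mul_le_mul_right h3 (by positivity)⟩) hbad
  -- counting
  have hup : m.real (closedBall x (3 * (2 * R))) ≤ 2 * a * (omN n * (7 * R) ^ (n + 1)) := by
    refine real_le_of_tm (K := K) (r' := 7 * R) hX (by positivity) (by linarith)
      ((hx _ (by positivity) ?_).2) ha.le ?_
    · rw [le_div_iff₀ hε₁0]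
      have e1 : 7 * R * ε₁ ≤ 7 * R * (1 / 10) := by gcongr; linarith
      linarith
    · rw [← hkap]; linarith
  have hlo : ∀ w ∈ Fs, (1 - ε) * a * (omN n * (c * σ) ^ (n + 1)) ≤
      m.real (closedBall w (c * σ)) := by
    intro w hw
    refine le_real_of_tm (K := K) hX (by positivity) ?_
    have hwR : dist w x ≤ R := (hFS w hw).1
    refine (hlow w (by rw [mem_closedBall]; linarith)).trans
      (tm_anti hK hX w (by positivity) ?_)
    rw [le_div_iff₀ hε₁0]
    have h1 : c * σ * ε₁ ≤ 1 * R * 1 := by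
      gcongr
      · linarith
      · linarith
      · linarith
    linarith
  have hcard : (Fs.card : ℝ) * ((1 - ε) * a * (omN n * (c * σ) ^ (n + 1)) / lam) ≤
      C * (2 * a * (omN n * (7 * R) ^ (n + 1))) := by
    calc (Fs.card : ℝ) * ((1 - ε) * a * (omN n * (c * σ) ^ (n + 1)) / lam)
        = ∑ w ∈ Fs, ((1 - ε) * a * (omN n * (c * σ) ^ (n + 1)) / lam) := by
          rw [Finset.sum_const, nsmul_eq_mul]
      _ ≤ ∑ w ∈ Fs, m.real (closedBall w (c * σ)) / lam := by
          refine Finset.sum_le_sum fun w hw => ?_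
          gcongr
          exact hlo w hw
      _ ≤ C * m.real (closedBall x (3 * (2 * R))) := hmain
      _ ≤ _ := by gcongr
  have hSle : m.real S ≤ (Fs.card : ℝ) * (2 * (13 / 10 * a) * (omN n * (2 * σ) ^ (n + 1))) := by
    have h1 : S ⊆ ⋃ w ∈ Fs, closedBall w σ := by
      intro y hy
      obtain ⟨w, hw, hyw⟩ := hcov y hy
      exact mem_iUnion₂.2 ⟨w, hw, hyw.le⟩
    calc m.real S ≤ m.real (⋃ w ∈ Fs, closedBall w σ) :=
          measureReal_mono h1 (ne_of_lt ((measure_biUnion_finset_le _ _).trans_lt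
            (ENNReal.sum_lt_top.2 fun w _ => hX.finite_ball w σ)))
      _ ≤ ∑ w ∈ Fs, m.real (closedBall w σ) := measureReal_biUnion_finset_le _ _
      _ ≤ ∑ w ∈ Fs, (2 * (13 / 10 * a) * (omN n * (2 * σ) ^ (n + 1))) := by
          refine Finset.sum_le_sum fun w hw => ?_
          have h4 : m.real (closedBall w σ) ≤
              2 * ((1 + 3 * δ) * a) * (omN n * (2 * σ) ^ (n + 1)) := by
            refine real_le_of_tm (K := K) (r' := 2 * σ) hX (by positivity) (by linarith) ?_
              (by positivity) ?_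
            · exact (tm_anti hK hX w hσ0 (by linarith)).trans (hFS w hw).2.le
            · rw [← hkap]
              have : kap * (2 * σ) ≤ kap * R := by gcongr; linarith
              linarith
          refine h4.trans ?_
          gcongr
      _ = _ := by rw [Finset.sum_const, nsmul_eq_mul]
  have hpow : (2 * σ) ^ (n + 1) = (2 / c) ^ (n + 1) * (c * σ) ^ (n + 1) := by
    rw [← mul_pow]
    congr 1
    field_simp
  have hcard2 : (Fs.card : ℝ) * (c * σ) ^ (n + 1) ≤ C * (20 / 9) * lam * (7 * R) ^ (n + 1) := by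
    have h1 : a * omN n / lam * (9 / 10 * ((Fs.card : ℝ) * (c * σ) ^ (n + 1))) ≤
        a * omN n / lam * (9 / 10 * (C * (20 / 9) * lam * (7 * R) ^ (n + 1))) := by
      calc a * omN n / lam * (9 / 10 * ((Fs.card : ℝ) * (c * σ) ^ (n + 1)))
          ≤ a * omN n / lam * ((1 - ε) * ((Fs.card : ℝ) * (c * σ) ^ (n + 1))) := by
            gcongr
            linarith
        _ = (Fs.card : ℝ) * ((1 - ε) * a * (omN n * (c * σ) ^ (n + 1)) / lam) := by ring
        _ ≤ C * (2 * a * (omN n * (7 * R) ^ (n + 1))) := hcard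
        _ = _ := by
            field_simp
            ring
    have h2 := le_of_mul_le_mul_left h1 (by positivity)
    linarith
  have hRpow : (14 / c) ^ (n + 1) * R ^ (n + 1) = (2 / c) ^ (n + 1) * (7 * R) ^ (n + 1) := by
    rw [← mul_pow, ← mul_pow]
    congr 1
    field_simp
    ring
  have hlam' : lam = A / (5 * c') * η := by
    field_simp
    linarith
  calc m.real S ≤ (Fs.card : ℝ) * (2 * (13 / 10 * a) * (omN n * (2 * σ) ^ (n + 1))) := hSle
    _ = 13 / 5 * a * omN n * (2 / c) ^ (n + 1) * ((Fs.card : ℝ) * (c * σ) ^ (n + 1)) := by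
        rw [hpow]; ring
    _ ≤ 13 / 5 * a * omN n * (2 / c) ^ (n + 1) * (C * (20 / 9) * lam * (7 * R) ^ (n + 1)) := by
        gcongr
    _ = 52 / 9 * (C * (A / (5 * c')) * omN n * a * η *
          ((2 / c) ^ (n + 1) * (7 * R) ^ (n + 1))) := by rw [hlam']; ring
    _ ≤ 16 * (C * (A / (5 * c')) * omN n * a * η *
          ((2 / c) ^ (n + 1) * (7 * R) ^ (n + 1))) := by
        gcongr
        norm_num
    _ = 16 * C * (A / (5 * c')) * (14 / c) ^ N * omN n * a * η * R ^ (n + 1) := by
        rw [← hRpow, hN]; ring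

end Pool.Agent.BDRY
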