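import Pool.Agent.Work.MP_209cb6_gt.B2.Bishop

/-!
# B2, module M13 (b): the density of points with a half-space tangent is at most one half

`U`: the upper bound `m (B_r(x)) ≤ ω sK(r)^(n+1)` for all balls.  Then at every point of the closure
of the set of points with a half-space tangent `m (B_r(x)) ≤ (1/2) ω sK(r)^(n+1)`.
-/

set_option autoImplicit false

open MeasureTheory MeasureTheory.Measure Metric Set Filter Topology
open scoped ENNReal NNReal

namespace Pool.Agent.BDRY

universe u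

/-- The closed unit half ball. -/
def hlH (n : ℕ) : Set (E n) := {y | 0 ≤ y (Fin.last n) ∧ ‖y‖ ≤ 1}

theorem hlH_compact (n : ℕ) : IsCompact (hlH n) := by
  have h1 : hlH n = closedBall (0 : E n) 1 ∩ {y | 0 ≤ y (Fin.last n)} := by
    ext y; simp [hlH, and_comm]
  rw [h1]
  refine (isCompact_closedBall _ _).inter_right ?_
  exact isClosed_le continuous_const (by fun_prop)

theorem hlH_volume (n : ℕ) : (volume : Measure (E n)) (hlH n) = ENNReal.ofReal (1 / 2 * omg n) := by
  have hm : MeasurableSet (hlH n) := (hlH_compact n).isClosed.measurableSet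
  -- the opposite half
  set H' : Set (E n) := {y | y (Fin.last n) ≤ 0 ∧ ‖y‖ ≤ 1} with hH'
  have hm' : MeasurableSet H' := by
    have h1 : H' = closedBall (0 : E n) 1 ∩ {y | y (Fin.last n) ≤ 0} := by
      ext y; simp [hH', and_comm]
    rw [h1]
    exact isClosed_closedBall.measurableSet.inter
      (isClosed_le (by fun_prop) continuous_const).measurableSet
  have h1 : (volume : Measure (E n)) H' = (volume : Measure (E n)) (hlH n) := by
    have : H' = Neg.neg ⁻¹' (hlH n) := by
      ext y; simp [hH', hlH]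
    rw [this, Measure.measure_preimage_neg]
  have h2 : hlH n ∪ H' = closedBall (0 : E n) 1 := by
    ext y
    simp only [hlH, hH', mem_union, mem_ofPred_eq, mem_closedBall, dist_zero_right]
    constructor
    · rintro (h | h) <;> exact h.2
    · intro h
      rcases le_total 0 (y (Fin.last n)) with h0 | h0
      · exact Or.inl ⟨h0, h⟩
      · exact Or.inr ⟨h0, h⟩
  have h3 : (volume : Measure (E n)) (hlH n ∩ H') = 0 := by
    set L : Submodule ℝ (E n) := LinearMap.ker (EuclideanSpace.proj (𝕜 := ℝ) (Fin.last n) :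
      E n →L[ℝ] ℝ).toLinearMap with hL
    have hsub : hlH n ∩ H' ⊆ (L : Set (E n)) := by
      rintro y ⟨hy1, hy2⟩
      have : y (Fin.last n) = 0 := le_antisymm hy2.1 hy1.1
      simpa [hL] using this
    refine measure_mono_null hsub (Measure.addHaar_submodule volume L ?_)
    intro hT
    have : EuclideanSpace.single (Fin.last n) (1 : ℝ) ∈ L := by rw [hT]; trivial
    simp [hL] at this
  have h4 := measure_union_add_inter (μ := (volume : Measure (E n))) (hlH n) hm'
  rw [h2, h3, add_zero, h1, omg_closedBall n 0 zero_le_one, one_pow, one_mul, ← two_mul] at h4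
  have h5 : ENNReal.ofReal (omg n) = 2 * ENNReal.ofReal (1 / 2 * omg n) := by
    rw [← ENNReal.ofReal_ofNat 2, ← ENNReal.ofReal_mul (by norm_num)]
    congr 1; ring
  rw [h5] at h4
  exact ((ENNReal.mul_right_inj (by norm_num) (by norm_num)).1 h4).symm

/-- A finite cover of the half ball by open balls centred in it, of total volume about `ω / 2`. -/
theorem hl_cover (n : ℕ) {η : ℝ} (hη : 0 < η) : ∃ (F : Finset (E n)) (r : E n → ℝ),
    (∀ y ∈ F, 0 < r y ∧ y ∈ hlH n) ∧ (hlH n ⊆ ⋃ y ∈ F, ball y (r y)) ∧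
      ∑ y ∈ F, r y ^ (n + 1) ≤ 1 / 2 + η := by
  have hω := omg_pos n
  -- the enlargement of the radii
  obtain ⟨l, hl1, hl⟩ : ∃ l : ℝ, 1 < l ∧ l ^ (n + 1) * (1 / 2 + η / 2) ≤ 1 / 2 + η := by
    have hc : Continuous fun l : ℝ => l ^ (n + 1) * (1 / 2 + η / 2) := by fun_prop
    have h1 : Tendsto (fun l : ℝ => l ^ (n + 1) * (1 / 2 + η / 2)) (𝓝 1) (𝓝 (1 / 2 + η / 2)) := by
      simpa using hc.tendsto 1
    have h2 : ∀ᶠ l in 𝓝 (1 : ℝ), l ^ (n + 1) * (1 / 2 + η / 2) < 1 / 2 + η :=
      h1.eventually (gt_mem_nhds (by linarith))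
    obtain ⟨δ, hδ, hδ1⟩ := Metric.eventually_nhds_iff.1 h2
    refine ⟨1 + δ / 2, by linarith, (hδ1 ?_).le⟩
    rw [Real.dist_eq, add_sub_cancel_left, abs_of_pos (by positivity)]
    linarith
  obtain ⟨t, r, htc, hts, htr, hcov, hsum⟩ :=
    Besicovitch.exists_closedBall_covering_tsum_measure_le (volume : Measure (E n))
      (ε := ENNReal.ofReal (omg n * (η / 2))) (by simp; positivity) (fun _ => Ioi (0 : ℝ)) (hlH n)
      (fun x _ δ hδ => ⟨δ / 2, by simp [hδ], by simp [hδ]⟩)
  -- the finite subcover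
  obtain ⟨F, hFt, hFc⟩ := (hlH_compact n).elim_finite_subcover_image (b := t)
    (c := fun y => ball y (l * r y)) (fun y _ => isOpen_ball) (by
      refine hcov.trans (iUnion₂_mono fun y hy => ?_)
      have h0 : 0 < r y := htr y hy
      exact closedBall_subset_ball (by nlinarith))
  obtain ⟨hFf, hFc⟩ := hFc
  set G := hFf.toFinset with hG
  have hGt : ∀ y ∈ G, y ∈ t := fun y hy => hFt (by simpa [hG] using hy)
  refine ⟨G, fun y => l * r y, fun y hy => ⟨?_, hts (hGt y hy)⟩, ?_, ?_⟩
  · have h0 : 0 < r y := htr y (hGt y hy)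
    positivity
  · simpa [hG] using hFc
  · -- the sum
    have h1 : ∑ y ∈ G, (volume : Measure (E n)) (closedBall y (r y)) ≤
        ENNReal.ofReal (omg n * (1 / 2 + η / 2)) := by
      calc ∑ y ∈ G, (volume : Measure (E n)) (closedBall y (r y))
          = ∑ y ∈ G.attach, (volume : Measure (E n)) (closedBall y.1 (r y.1)) :=
            (Finset.sum_attach G fun y => (volume : Measure (E n)) (closedBall y (r y))).symm
        _ = ∑ y ∈ G.attach.map ⟨fun y => (⟨y.1, hGt y.1 y.2⟩ : t), fun a b h =>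
              Subtype.ext (Subtype.mk.inj h)⟩,
              (volume : Measure (E n)) (closedBall y.1 (r y.1)) := by
            rw [Finset.sum_map]; rfl
        _ ≤ ∑' y : t, (volume : Measure (E n)) (closedBall y.1 (r y.1)) :=
            ENNReal.sum_le_tsum _
        _ ≤ volume (hlH n) + ENNReal.ofReal (omg n * (η / 2)) := hsum
        _ = ENNReal.ofReal (omg n * (1 / 2 + η / 2)) := by
            rw [hlH_volume, ← ENNReal.ofReal_add (by positivity) (by positivity)]
            congr 1; ring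
    have h2 : ∑ y ∈ G, (volume : Measure (E n)) (closedBall y (r y)) =
        ENNReal.ofReal (omg n * ∑ y ∈ G, r y ^ (n + 1)) := by
      rw [Finset.mul_sum, ENNReal.ofReal_sum_of_nonneg]
      · refine Finset.sum_congr rfl fun y hy => ?_
        have h0 : 0 < r y := htr y (hGt y hy)
        rw [omg_closedBall n y h0.le, mul_comm]
      · intro y hy
        have h0 : 0 < r y := htr y (hGt y hy)
        positivity
    rw [h2, ENNReal.ofReal_le_ofReal_iff (by positivity)] at h1
    have h3 : ∑ y ∈ G, r y ^ (n + 1) ≤ 1 / 2 + η / 2 := le_of_mul_le_mul_left h1 hω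
    calc ∑ y ∈ G, (l * r y) ^ (n + 1) = l ^ (n + 1) * ∑ y ∈ G, r y ^ (n + 1) := by
          rw [Finset.mul_sum]
          exact Finset.sum_congr rfl fun y _ => mul_pow _ _ _
      _ ≤ l ^ (n + 1) * (1 / 2 + η / 2) := by gcongr
      _ ≤ 1 / 2 + η := hl

theorem halfDens_closed {κ : ℝ} (hκ : κ ≤ 0) (n : ℕ) {X : Type u} [MetricSpace X]
    [MeasurableSpace X] (m : Measure X) (hfin : ∀ (x : X) (r : ℝ), m (closedBall x r) < ∞) :
    IsClosed (HalfDens κ n m) := by
  refine isClosed_of_closure_subset fun x hx r hr hr6 => ?_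
  have hc : Continuous fun δ : ℝ => 1 / 2 * omg n * sK κ (r + δ) ^ (n + 1) := by
    have h1 : Continuous fun δ : ℝ => sK κ (r + δ) := (sK_cont hκ).comp (by fun_prop)
    fun_prop
  have h1 : Tendsto (fun δ : ℝ => 1 / 2 * omg n * sK κ (r + δ) ^ (n + 1)) (𝓝[>] 0)
      (𝓝 (1 / 2 * omg n * sK κ r ^ (n + 1))) := by
    simpa using (hc.tendsto 0).mono_left nhdsWithin_le_nhds
  refine ge_of_tendsto h1 ?_
  have h2 : Ioo (0 : ℝ) (6 - r) ∈ 𝓝[>] (0 : ℝ) := Ioo_mem_nhdsGT (by linarith)
  filter_upwards [h2] with δ hδ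
  obtain ⟨y, hy, hxy⟩ := Metric.mem_closure_iff.1 hx δ hδ.1
  refine le_trans (measureReal_mono ?_ (hfin y (r + δ)).ne) (hy (r + δ) (by linarith [hδ.1])
    (by linarith [hδ.2]))
  intro z hz
  rw [mem_closedBall] at hz ⊢
  have := dist_triangle z x y
  linarith

/-- The measure of the balls about a point with a half-space tangent. -/
theorem hl_tangent {K : ℝ} (hK : K ≤ 0) {n : ℕ} {X : Type u} [MetricSpace X]
    [MeasurableSpace X] [BorelSpace X] {m : Measure X} (hX : IsRCD K (n + 1) X m)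
    (hU : UpBall (K / (n + 1 : ℕ)) n m) {x : X} (hx : HalfTangent n x) :
    x ∈ HalfDens (K / (n + 1 : ℕ)) n m := by
  have hκ0 : K / ((n + 1 : ℕ) : ℝ) ≤ 0 := div_nonpos_of_nonpos_of_nonneg hK (Nat.cast_nonneg _)
  set κ := K / ((n + 1 : ℕ) : ℝ) with hκ
  have hω := omg_pos n
  intro r hr hr6
  have hsr : 0 < sK κ r := sK_pos hr
  -- for every error
  have hmain : ∀ η : ℝ, 0 < η →
      m.real (closedBall x r) ≤ (1 / 2 + η) * (omg n * sK κ r ^ (n + 1)) := by
    intro η hη
    obtain ⟨F, ρ, hF, hcov, hsum⟩ := hl_cover n (η := η / 2) (by positivity)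
    -- the error `ε`
    obtain ⟨ε, hε, hε1⟩ : ∃ ε : ℝ, 0 < ε ∧
        (1 + ε) ^ (n + 1) * ∑ y ∈ F, (ρ y + 3 * ε) ^ (n + 1) ≤ 1 / 2 + η := by
      have hc : Continuous fun ε : ℝ => (1 + ε) ^ (n + 1) * ∑ y ∈ F, (ρ y + 3 * ε) ^ (n + 1) := by
        fun_prop
      have h1 : Tendsto (fun ε : ℝ => (1 + ε) ^ (n + 1) * ∑ y ∈ F, (ρ y + 3 * ε) ^ (n + 1))
          (𝓝 0) (𝓝 (∑ y ∈ F, ρ y ^ (n + 1))) := by
        simpa using hc.tendsto 0
      have h2 : ∀ᶠ ε in 𝓝 (0 : ℝ),
          (1 + ε) ^ (n + 1) * ∑ y ∈ F, (ρ y + 3 * ε) ^ (n + 1) < 1 / 2 + η :=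
        h1.eventually (gt_mem_nhds (by linarith))
      obtain ⟨δ, hδ, hδ1⟩ := Metric.eventually_nhds_iff.1 h2
      refine ⟨δ / 2, by positivity, (hδ1 ?_).le⟩
      rw [Real.dist_eq, sub_zero, abs_of_pos (by positivity)]
      linarith
    obtain ⟨r₀, hr₀, hr₀1, hsK⟩ := bg_sK_near κ hε
    set P : ℝ := 1 + ∑ y ∈ F, ρ y + 3 * ε with hP
    have hρ0 : ∀ y ∈ F, 0 < ρ y := fun y hy => (hF y hy).1
    have hρP : ∀ y ∈ F, ρ y + 3 * ε ≤ P := by
      intro y hy
      have := Finset.single_le_sum (f := ρ) (fun z hz => (hρ0 z hz).le) hy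
      linarith
    have hP0 : 0 < P := by
      have := Finset.sum_nonneg fun y hy => (hρ0 y hy).le
      positivity
    -- the scale
    obtain ⟨s, R, e, f, hs, hs0, hR, he, hfn, hfx, hfd, hfs⟩ := hx
    have h1 : ∀ᶠ k in atTop, s k < min (r₀ / P) r := by
      have : 0 < min (r₀ / P) r := by positivity
      exact hs0.eventually (gt_mem_nhds this)
    have h2 : ∀ᶠ k in atTop, 2 + ε < R k := hR.eventually_gt_atTop _
    have h3 : ∀ᶠ k in atTop, e k < ε := he.eventually (gt_mem_nhds hε)
    obtain ⟨k, ⟨hk1, hk2⟩, hk3⟩ := ((h1.and h2).and h3).exists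
    have hsk := hs k
    set σ := s k with hσ
    have hk4 : σ ≤ r := (hk1.trans_le (min_le_right _ _)).le
    have hk5 : σ * P ≤ r₀ := by
      have := (hk1.trans_le (min_le_left _ _)).le
      rwa [le_div_iff₀ hP0] at this
    have hball : ∀ y ∈ F, ∃ a ∈ ball x (R k * σ), dist (f k a) y ≤ e k := by
      intro y hy
      refine hfs k y (hF y hy).2.1 ?_
      have := (hF y hy).2.2
      linarith
    have : Nonempty X := ⟨x⟩
    choose! g hg using hball
    have hcov2 : closedBall x σ ⊆ ⋃ y ∈ F, closedBall (g y) (σ * (ρ y + 3 * ε)) := by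
      intro a ha
      rw [mem_closedBall] at ha
      have ha1 : a ∈ ball x (R k * σ) := by
        rw [mem_ball]; nlinarith
      have hx1 : x ∈ ball x (R k * σ) := by
        rw [mem_ball, dist_self]; nlinarith
      have h4 := (abs_le.1 (hfd k a ha1 x hx1)).1
      rw [hfx, dist_zero_right] at h4
      have h5 : dist a x / σ ≤ 1 := (div_le_one hsk).2 ha
      have h6 : ‖f k a‖ ≤ 1 + ε := by linarith
      set y' : E n := (1 + ε)⁻¹ • f k a with hy'
      have hε1' : 0 < 1 + ε := by linarith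
      have h7 : y' ∈ hlH n := by
        refine ⟨?_, ?_⟩
        · rw [hy']
          have := hfn k a
          simp only [PiLp.smul_apply, smul_eq_mul]
          positivity
        · rw [hy', norm_smul, Real.norm_of_nonneg (by positivity), inv_mul_le_iff₀ hε1', mul_one]
          exact h6
      obtain ⟨y, hyF, hy⟩ := mem_iUnion₂.1 (hcov h7)
      refine mem_iUnion₂.2 ⟨y, hyF, ?_⟩
      have h8 : dist (f k a) y' ≤ ε := by
        rw [hy', dist_eq_norm]
        have : f k a - (1 + ε)⁻¹ • f k a = (1 - (1 + ε)⁻¹) • f k a := by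
          rw [sub_smul, one_smul]
        rw [this, norm_smul]
        have h9 : 1 - (1 + ε)⁻¹ = ε / (1 + ε) := by field_simp; ring
        rw [h9, Real.norm_of_nonneg (by positivity), div_mul_eq_mul_div, div_le_iff₀ hε1']
        gcongr
      have h9 := (abs_le.1 (hfd k a ha1 (g y) (hg y hyF).1)).2
      have h10 : dist (f k a) (f k (g y)) ≤ ε + ρ y + ε := by
        have t1 := dist_triangle (f k a) y' (f k (g y))
        have t2 := dist_triangle y' y (f k (g y))
        have t3 := (hg y hyF).2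
        rw [dist_comm] at t3
        rw [mem_ball] at hy
        linarith
      have h11 : dist a (g y) / σ ≤ ρ y + 3 * ε := by linarith
      rw [mem_closedBall, mul_comm]
      exact (div_le_iff₀ hsk).1 h11
    have hfin : ∀ (x : X) (r : ℝ), m (closedBall x r) ≠ ∞ := fun x r => (hX.finite_ball x r).ne
    have h4 : m.real (closedBall x σ) ≤ (1 / 2 + η) * (omg n * σ ^ (n + 1)) := by
      calc m.real (closedBall x σ)
          ≤ m.real (⋃ y ∈ F, closedBall (g y) (σ * (ρ y + 3 * ε))) := by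
            refine measureReal_mono hcov2 ?_
            exact (measure_biUnion_lt_top F.finite_toSet fun y _ => (hX.finite_ball _ _)).ne
        _ ≤ ∑ y ∈ F, m.real (closedBall (g y) (σ * (ρ y + 3 * ε))) :=
            measureReal_biUnion_finset_le _ _
        _ ≤ ∑ y ∈ F, omg n * ((1 + ε) * (σ * (ρ y + 3 * ε))) ^ (n + 1) := by
            refine Finset.sum_le_sum fun y hy => ?_
            have h0 := hρ0 y hy
            have h5 : 0 < σ * (ρ y + 3 * ε) := by positivity
            have h6 : σ * (ρ y + 3 * ε) ≤ r₀ :=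
              (mul_le_mul_of_nonneg_left (hρP y hy) hsk.le).trans hk5
            refine (hU _ _ h5 (by linarith)).trans ?_
            have h7 := hsK _ h5.le h6
            have h8 : 0 < sK κ (σ * (ρ y + 3 * ε)) := sK_pos h5
            gcongr
        _ = omg n * σ ^ (n + 1) * ((1 + ε) ^ (n + 1) * ∑ y ∈ F, (ρ y + 3 * ε) ^ (n + 1)) := by
            rw [Finset.mul_sum, Finset.mul_sum]
            refine Finset.sum_congr rfl fun y _ => ?_
            rw [mul_pow, mul_pow]; ring
        _ ≤ omg n * σ ^ (n + 1) * (1 / 2 + η) := by gcongr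
        _ = _ := by ring
    have h5 := bg_bishop hK hX x hsk hk4 hr6.le
    have h6 : 0 < sK κ σ := sK_pos hsk
    have h7 : σ ≤ sK κ σ := le_sK hκ0 hsk.le
    have h8 : sK κ σ ^ (n + 1) * m.real (closedBall x r) ≤
        sK κ σ ^ (n + 1) * ((1 / 2 + η) * (omg n * sK κ r ^ (n + 1))) := by
      calc sK κ σ ^ (n + 1) * m.real (closedBall x r)
          ≤ sK κ r ^ (n + 1) * m.real (closedBall x σ) := h5
        _ ≤ sK κ r ^ (n + 1) * ((1 / 2 + η) * (omg n * σ ^ (n + 1))) := by gcongr
        _ ≤ sK κ r ^ (n + 1) * ((1 / 2 + η) * (omg n * sK κ σ ^ (n + 1))) := by gcongr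
        _ = _ := by ring
    exact le_of_mul_le_mul_left h8 (by positivity)
  -- the limit
  have hc : Continuous fun η : ℝ => (1 / 2 + η) * (omg n * sK κ r ^ (n + 1)) := by fun_prop
  have h1 : Tendsto (fun η : ℝ => (1 / 2 + η) * (omg n * sK κ r ^ (n + 1))) (𝓝[>] 0)
      (𝓝 (1 / 2 * omg n * sK κ r ^ (n + 1))) := by
    have := (hc.tendsto 0).mono_left (nhdsWithin_le_nhds (s := Ioi (0 : ℝ)))
    simpa [mul_assoc] using this
  refine ge_of_tendsto h1 ?_
  filter_upwards [self_mem_nhdsWithin] with η hη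
  exact hmain η hη

/-- **The closure of the set of the points with a half-space tangent.** -/
theorem closure_halfTangent_subset {K : ℝ} (hK : K ≤ 0) {n : ℕ} {X : Type u} [MetricSpace X]
    [MeasurableSpace X] [BorelSpace X] {m : Measure X} (hX : IsRCD K (n + 1) X m)
    (hU : UpBall (K / (n + 1 : ℕ)) n m) :
    closure {x : X | HalfTangent n x} ⊆ HalfDens (K / (n + 1 : ℕ)) n m :=
  closure_minimal (fun _ hx => hl_tangent hK hX hU hx)
    (halfDens_closed (div_nonpos_of_nonpos_of_nonneg hK (Nat.cast_nonneg _)) n m hX.finite_ball)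

end Pool.Agent.BDRY
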