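import Pool.Agent.Work.MP_209cb6_gt.B2.Upper
import Pool.Agent.Work.MP_209cb6_gt.B2.HalfLe

/-!
# B2, module M13 (c): the volume of balls about the closure of the half-space points

For `m = μHE[n+1]`: `m (B_R(x)) ≤ (1/2) ω R^(n+1) exp((n+1) q R)` for every point `x` of the closure
of the set of points with a half-space tangent and every `R > 0`.
-/

set_option autoImplicit false

open MeasureTheory MeasureTheory.Measure Metric Set Filter Topology
open scoped ENNReal NNReal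

namespace Pool.Agent.BDRY

universe u

theorem omg_eq_omN (n : ℕ) : omg n = omN n := rfl

/-- the upper bound in the form `UpBall` -/
theorem upBall_of_rcd {K : ℝ} (hK : K ≤ 0) {n : ℕ} {X : Type u} [MetricSpace X]
    [MeasurableSpace X] [BorelSpace X] (hX : IsRCD K (n + 1) X (μHE[n + 1] : Measure X)) :
    UpBall (K / (n + 1 : ℕ)) n (μHE[n + 1] : Measure X) := by
  have hκ0 : K / ((n + 1 : ℕ) : ℝ) ≤ 0 := div_nonpos_of_nonpos_of_nonneg hK (Nat.cast_nonneg _)
  set κ := K / ((n + 1 : ℕ) : ℝ) with hκ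
  set m : Measure X := μHE[n + 1] with hm
  set q := ((n : ℝ) + 1) * qK K (n + 1) with hq
  intro x r hr hr6
  have hom := omg_pos n
  have hc : Continuous fun s : ℝ => omg n * sK κ r ^ (n + 1) * Real.exp (q * s) := by fun_prop
  have h1 : Tendsto (fun s : ℝ => omg n * sK κ r ^ (n + 1) * Real.exp (q * s)) (𝓝[>] 0)
      (𝓝 (omg n * sK κ r ^ (n + 1))) := by
    have := (hc.tendsto 0).mono_left (nhdsWithin_le_nhds (s := Ioi (0 : ℝ)))
    simpa using this
  refine ge_of_tendsto h1 ?_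
  filter_upwards [Ioo_mem_nhdsGT hr] with s hs
  have h2 := bg_bishop hK hX x hs.1 hs.2.le hr6
  have h3 := vol_upper hK hX x hs.1
  have h4 : 0 < sK κ s := sK_pos hs.1
  have h5 : s ≤ sK κ s := le_sK hκ0 hs.1.le
  have h6 : 0 < sK κ r := sK_pos hr
  have h0 : 0 < s := hs.1
  refine le_of_mul_le_mul_left ?_ (pow_pos h4 (n + 1))
  calc sK κ s ^ (n + 1) * m.real (closedBall x r) ≤ sK κ r ^ (n + 1) * m.real (closedBall x s) := h2
    _ ≤ sK κ r ^ (n + 1) * (omN n * s ^ (n + 1) * Real.exp (q * s)) := by gcongr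
    _ ≤ sK κ r ^ (n + 1) * (omN n * sK κ s ^ (n + 1) * Real.exp (q * s)) := by
        have := omN_pos n
        gcongr
    _ = sK κ s ^ (n + 1) * (omg n * sK κ r ^ (n + 1) * Real.exp (q * s)) := by
        rw [omg_eq_omN]; ring

/-- The closure of the set of the points with a half-space tangent. -/
theorem closure_halfTangent_halfDens {K : ℝ} (hK : K ≤ 0) {n : ℕ} {X : Type u} [MetricSpace X]
    [MeasurableSpace X] [BorelSpace X] (hX : IsRCD K (n + 1) X (μHE[n + 1] : Measure X)) :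
    closure {x : X | HalfTangent n x} ⊆ HalfDens (K / (n + 1 : ℕ)) n (μHE[n + 1] : Measure X) :=
  closure_halfTangent_subset hK hX (upBall_of_rcd hK hX)

/-- The points of density at most one half, in the normalisation of `vol_upper`. -/
theorem halfDens_le {K : ℝ} (hK : K ≤ 0) {n : ℕ} {X : Type u} [MetricSpace X]
    [MeasurableSpace X] [BorelSpace X] {m : Measure X} (hX : IsRCD K (n + 1) X m) {x : X}
    (hx : x ∈ HalfDens (K / (n + 1 : ℕ)) n m) {R : ℝ} (hR : 0 < R) :
    m.real (closedBall x R) ≤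
      1 / 2 * omN n * R ^ (n + 1) * Real.exp ((n + 1) * qK K (n + 1) * R) := by
  set κ := K / ((n + 1 : ℕ) : ℝ) with hκ
  set q := ((n : ℝ) + 1) * qK K (n + 1) with hq
  have hom := omg_pos n
  have hc : Continuous fun ε : ℝ => (1 + ε) ^ (n + 1) *
      (1 / 2 * omN n * R ^ (n + 1) * Real.exp (q * R)) := by fun_prop
  have h1 : Tendsto (fun ε : ℝ => (1 + ε) ^ (n + 1) *
      (1 / 2 * omN n * R ^ (n + 1) * Real.exp (q * R))) (𝓝[>] 0)
      (𝓝 (1 / 2 * omN n * R ^ (n + 1) * Real.exp (q * R))) := by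
    have := (hc.tendsto 0).mono_left (nhdsWithin_le_nhds (s := Ioi (0 : ℝ)))
    simpa using this
  refine ge_of_tendsto h1 ?_
  filter_upwards [self_mem_nhdsWithin] with ε hε
  have hε : 0 < ε := hε
  obtain ⟨r₀, hr₀, hr₀1, hsK⟩ := bg_sK_near κ hε
  set r := min r₀ R with hr
  have hr0 : 0 < r := lt_min hr₀ hR
  have hrR : r ≤ R := min_le_right _ _
  have h2 := bg_closedBall hK hX x hr0 hrR
  have h3 := hx r hr0 (by linarith [min_le_left r₀ R])
  have h4 := hsK r hr0.le (min_le_left _ _)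
  have h5 : 0 < sK κ r := sK_pos hr0
  have hq0 : 0 ≤ q := mul_nonneg (by positivity) (qK_nonneg _ _)
  calc m.real (closedBall x R)
      ≤ (R / r) ^ (n + 1) * Real.exp (q * (R - r)) * m.real (closedBall x r) := h2
    _ ≤ (R / r) ^ (n + 1) * Real.exp (q * R) * (1 / 2 * omg n * ((1 + ε) * r) ^ (n + 1)) := by
        have h6 : Real.exp (q * (R - r)) ≤ Real.exp (q * R) := by
          rw [Real.exp_le_exp]
          nlinarith
        have h7 : m.real (closedBall x r) ≤ 1 / 2 * omg n * ((1 + ε) * r) ^ (n + 1) :=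
          h3.trans (by gcongr)
        gcongr
    _ = (1 + ε) ^ (n + 1) * (1 / 2 * omN n * R ^ (n + 1) * Real.exp (q * R)) := by
        rw [omg_eq_omN, mul_pow, div_pow]
        field_simp

/-- Conversely. -/
theorem mem_halfDens_of_le {K : ℝ} (hK : K ≤ 0) {n : ℕ} {X : Type u} [MetricSpace X]
    [MeasurableSpace X] [BorelSpace X] {m : Measure X} (hX : IsRCD K (n + 1) X m) {x : X}
    (hx : ∀ η : ℝ, 0 < η → ∀ δ : ℝ, 0 < δ → ∃ r : ℝ, 0 < r ∧ r < δ ∧
      m.real (closedBall x r) ≤ (1 / 2 + η) * omN n * r ^ (n + 1)) :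
    x ∈ HalfDens (K / (n + 1 : ℕ)) n m := by
  have hκ0 : K / ((n + 1 : ℕ) : ℝ) ≤ 0 := div_nonpos_of_nonpos_of_nonneg hK (Nat.cast_nonneg _)
  set κ := K / ((n + 1 : ℕ) : ℝ) with hκ
  have hom := omg_pos n
  intro R hR hR6
  have hc : Continuous fun η : ℝ => (1 / 2 + η) * omg n * sK κ R ^ (n + 1) := by fun_prop
  have h1 : Tendsto (fun η : ℝ => (1 / 2 + η) * omg n * sK κ R ^ (n + 1)) (𝓝[>] 0)
      (𝓝 (1 / 2 * omg n * sK κ R ^ (n + 1))) := by
    have := (hc.tendsto 0).mono_left (nhdsWithin_le_nhds (s := Ioi (0 : ℝ)))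
    simpa using this
  refine ge_of_tendsto h1 ?_
  filter_upwards [self_mem_nhdsWithin] with η hη
  have hη : 0 < η := hη
  obtain ⟨r, hr, hrR, h2⟩ := hx η hη R hR
  have h3 := bg_bishop hK hX x hr hrR.le hR6.le
  have h4 : 0 < sK κ r := sK_pos hr
  have h5 : r ≤ sK κ r := le_sK hκ0 hr.le
  have h6 : 0 < sK κ R := sK_pos hR
  refine le_of_mul_le_mul_left ?_ (pow_pos h4 (n + 1))
  calc sK κ r ^ (n + 1) * m.real (closedBall x R) ≤ sK κ R ^ (n + 1) * m.real (closedBall x r) := h3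
    _ ≤ sK κ R ^ (n + 1) * ((1 / 2 + η) * omN n * r ^ (n + 1)) := by gcongr
    _ ≤ sK κ R ^ (n + 1) * ((1 / 2 + η) * omN n * sK κ r ^ (n + 1)) := by
        have := omN_pos n
        gcongr
    _ = sK κ r ^ (n + 1) * ((1 / 2 + η) * omg n * sK κ R ^ (n + 1)) := by
        rw [omg_eq_omN]; ring

end Pool.Agent.BDRY
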