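import Pool.Agent.Work.MP_209cb6_gt.B2.EndDefs
import Pool.Agent.Work.MP_209cb6_gt.B2.CoverOne
import Pool.Agent.Work.MP_209cb6_gt.B2.HalfFin

/-!
# B2, end-game, stage 2: the `n`-dimensional measure of the set of points of density `≤ b₀`
-/

set_option autoImplicit false

open MeasureTheory MeasureTheory.Measure Metric Set Filter Topology
open scoped ENNReal NNReal

namespace Pool.Agent.BDRY

universe u

/-- the density -/
noncomputable def den {X : Type u} [MetricSpace X] [MeasurableSpace X] (K : ℝ) (n : ℕ)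
    (m : Measure X) (x : X) : ℝ := ⨆ k : ℕ, tm K n m (1 / ((k : ℝ) + 1)) x

/-- the points of density at most `b` -/
def TmLe {X : Type u} [MetricSpace X] [MeasurableSpace X] (K : ℝ) (n : ℕ)
    (m : Measure X) (b : ℝ) : Set X := {x | ∀ ρ : ℝ, 0 < ρ → ρ < 6 → tm K n m ρ x ≤ b}

section den

variable {X : Type u} [MetricSpace X] [MeasurableSpace X] [BorelSpace X] {n : ℕ} {m : Measure X}
  {K : ℝ}

theorem den_le {x : X} {b : ℝ} (h : x ∈ TmLe K n m b) : den K n m x ≤ b :=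
  ciSup_le fun k => h _ (by positivity) (by
    have : 1 / ((k : ℝ) + 1) ≤ 1 := by
      rw [div_le_one (by positivity)]
      linarith [(Nat.cast_nonneg k : (0 : ℝ) ≤ k)]
    linarith)

theorem tm_le_den (hK : K ≤ 0) (hX : IsRCD K (n + 1) X m) {x : X} {b : ℝ} (h : x ∈ TmLe K n m b)
    {r : ℝ} (hr : 0 < r) : tm K n m r x ≤ den K n m x := by
  obtain ⟨k, hk⟩ := exists_nat_one_div_lt hr
  refine (tm_anti hK hX x (by positivity) hk.le).trans ?_
  refine le_ciSup (f := fun k : ℕ => tm K n m (1 / ((k : ℝ) + 1)) x) ⟨b, ?_⟩ k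
  rintro _ ⟨j, rfl⟩
  refine h _ (by positivity) ?_
  have : 1 / ((j : ℝ) + 1) ≤ 1 := by
    rw [div_le_one (by positivity)]
    linarith [(Nat.cast_nonneg j : (0 : ℝ) ≤ j)]
  linarith

theorem den_pos (hK : K ≤ 0) (hX : IsRCD K (n + 1) X m) {x : X} {b : ℝ} (h : x ∈ TmLe K n m b) :
    0 < den K n m x :=
  (tm_pos hX x one_pos).trans_le (tm_le_den hK hX h one_pos)

end den

/-- the points at which the ratio is within `ε` of the density from the scale `1 / (j+1)` on -/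
def Lj {X : Type u} [MetricSpace X] [MeasurableSpace X] (K : ℝ) (n : ℕ)
    (m : Measure X) (b ε : ℝ) (j : ℕ) : Set X :=
  {x | x ∈ TmLe K n m b ∧ (1 - ε) * den K n m x ≤ tm K n m (1 / ((j : ℝ) + 1)) x}

section Lj

variable {X : Type u} [MetricSpace X] [MeasurableSpace X] [BorelSpace X] {n : ℕ} {m : Measure X}
  {K : ℝ}

theorem Lj_mono (hK : K ≤ 0) (hX : IsRCD K (n + 1) X m) (b ε : ℝ) :
    Monotone (Lj K n m b ε) := by
  intro i j hij x hx
  refine ⟨hx.1, hx.2.trans (tm_anti hK hX x (by positivity) ?_)⟩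
  have : (i : ℝ) ≤ j := by exact_mod_cast hij
  gcongr

theorem exists_Lj (hK : K ≤ 0) (hX : IsRCD K (n + 1) X m) {b ε : ℝ} (hε : 0 < ε) {x : X}
    (hx : x ∈ TmLe K n m b) : ∃ j, x ∈ Lj K n m b ε j := by
  have h1 := den_pos hK hX hx
  obtain ⟨j, hj⟩ := exists_lt_of_lt_ciSup
    (show (1 - ε) * den K n m x < ⨆ k : ℕ, tm K n m (1 / ((k : ℝ) + 1)) x by
      change (1 - ε) * den K n m x < den K n m x
      nlinarith)
  exact ⟨j, hx, hj.le⟩

end Lj

section s2

variable {X : Type u} [MetricSpace X] [MeasurableSpace X] {n : ℕ} {m : Measure X}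

/-- the bad end points of the segments from `x'` -/
theorem s2_bad {A' cb : ℝ} (hC : Contr n A' cb X m) {x₀ w x' : X} {r lam σ' : ℝ}
    (hr1 : r < 1) (hw : dist w x₀ ≤ r) (hx' : dist x' w ≤ σ') (h1 : σ' ≤ r)
    (h2 : σ' ≤ r * lam) (h3 : 0 < lam) (h4 : lam ≤ 1 / 4) (B : X → Prop) :
    ENNReal.ofReal (cb * lam ^ (n + 1)) * m (closedBall x₀ r ∩ Zt x' 6 (1 - lam) {y | B y}) ≤
      m {y ∈ closedBall w (4 * r * lam) | B y} := by
  have hsub : closedBall x₀ r ∩ Zt x' 6 (1 - lam) {y | B y} ⊆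
      Zt x' 6 (1 - lam) {y ∈ closedBall w (4 * r * lam) | B y} := by
    rintro a ⟨ha, ha6, z, hz, hz1, hz2⟩
    refine ⟨ha6, z, ⟨?_, hz⟩, hz1, hz2⟩
    rw [mem_closedBall] at ha ⊢
    have e1 : dist a x' ≤ 3 * r := by
      calc dist a x' ≤ dist a x₀ + dist x₀ x' := dist_triangle _ _ _
        _ ≤ dist a x₀ + (dist x₀ w + dist w x') := by gcongr; exact dist_triangle _ _ _
        _ ≤ r + (r + σ') := by
            rw [dist_comm x₀ w, dist_comm w x']
            gcongr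
        _ ≤ 3 * r := by linarith
    have e2 : dist z x' ≤ 3 * r * lam := by
      rw [hz2]
      have : 1 - (1 - lam) = lam := by ring
      rw [this]
      nlinarith [dist_nonneg (x := a) (y := x')]
    calc dist z w ≤ dist z x' + dist x' w := dist_triangle _ _ _
      _ ≤ 3 * r * lam + r * lam := by linarith
      _ = 4 * r * lam := by ring
  have hfar := hC.far x' (1 - lam) {y ∈ closedBall w (4 * r * lam) | B y} (by linarith)
    (by linarith)
  have e3 : 1 - (1 - lam) = lam := by ring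
  rw [e3] at hfar
  refine le_trans ?_ hfar
  gcongr

/-- the bad end points have at most half of the measure -/
theorem s2_half {A' cb : ℝ} (hcb : 0 < cb) (hC : Contr n A' cb X m) {x₀ w x' : X} {r lam σ' T : ℝ}
    (hr : 0 < r) (hr1 : r < 1) (hw : dist w x₀ ≤ r) (hx' : dist x' w ≤ σ') (h1 : σ' ≤ r)
    (h2 : σ' ≤ r * lam) (h3 : 0 < lam) (h4 : lam ≤ 1 / 4) (B : X → Prop)
    (hT : m.real {y ∈ closedBall w (4 * r * lam) | B y} ≤ T * (4 * r * lam) ^ (n + 1))
    (hTV : T * (4 * r) ^ (n + 1) ≤ cb * (m.real (closedBall x₀ r) / 2)) :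
    m (closedBall x₀ r ∩ Zt x' 6 (1 - lam) {y | B y}) ≤ m (closedBall x₀ r) / 2 := by
  have h := s2_bad hC hr1 hw hx' h1 h2 h3 h4 B
  have hfin : m {y ∈ closedBall w (4 * r * lam) | B y} ≠ ∞ :=
    ne_top_of_le_ne_top (hC.finite_ball w (4 * r * lam)).ne (measure_mono fun y hy => hy.1)
  have hfin2 : m (closedBall x₀ r) ≠ ∞ := (hC.finite_ball x₀ r).ne
  have hp : 0 < cb * lam ^ (n + 1) := by positivity
  have h5 := ENNReal.toReal_mono hfin h
  rw [ENNReal.toReal_mul, ENNReal.toReal_ofReal hp.le] at h5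
  change cb * lam ^ (n + 1) * m.real (closedBall x₀ r ∩ Zt x' 6 (1 - lam) {y | B y}) ≤
    m.real {y ∈ closedBall w (4 * r * lam) | B y} at h5
  have h6 : cb * lam ^ (n + 1) * m.real (closedBall x₀ r ∩ Zt x' 6 (1 - lam) {y | B y}) ≤
      cb * lam ^ (n + 1) * (m.real (closedBall x₀ r) / 2) := by
    calc _ ≤ T * (4 * r * lam) ^ (n + 1) := h5.trans hT
      _ = T * (4 * r) ^ (n + 1) * lam ^ (n + 1) := by rw [mul_pow]; ring
      _ ≤ cb * (m.real (closedBall x₀ r) / 2) * lam ^ (n + 1) := by gcongr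
      _ = _ := by ring
  have h7 := le_of_mul_le_mul_left h6 hp
  have hfin3 : m (closedBall x₀ r ∩ Zt x' 6 (1 - lam) {y | B y}) ≠ ∞ :=
    ne_top_of_le_ne_top hfin2 (measure_mono inter_subset_left)
  rw [← ENNReal.ofReal_toReal hfin3, ← ENNReal.ofReal_toReal hfin2]
  have e : ENNReal.ofReal (m (closedBall x₀ r)).toReal / 2 =
      ENNReal.ofReal (m.real (closedBall x₀ r) / 2) := by
    rw [ENNReal.ofReal_div_of_pos (by norm_num)]
    simp [Measure.real]
  rw [e]
  exact ENNReal.ofReal_le_ofReal h7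

variable [BorelSpace X] {K : ℝ}

/-- the density is bounded below by the volume of the ball -/
theorem s2_lower (hK : K ≤ 0) (hX : IsRCD K (n + 1) X m) {x₀ w : X} {r b : ℝ} (hr : 0 < r)
    (hr1 : r < 1) (hw : dist w x₀ ≤ r) (hwb : w ∈ TmLe K n m b) :
    m.real (closedBall x₀ r) ≤
      Real.exp (3 * ((n + 1) * qK K (n + 1))) * omN n * 3 ^ (n + 1) * r ^ (n + 1) *
        den K n m w := by
  have hω := omN_pos n
  have hq : 0 ≤ (n + 1) * qK K (n + 1) := by
    have := qK_nonneg K (n + 1)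
    positivity
  have h1 : m.real (closedBall x₀ r) ≤ m.real (ball w (3 * r)) := by
    refine measureReal_mono (fun y hy => ?_) (ball_fin hX w _)
    rw [mem_closedBall] at hy
    rw [mem_ball]
    have := dist_triangle y x₀ w
    rw [dist_comm x₀ w] at this
    linarith
  have h2 := th_eq (m := m) (n := n) (by positivity : 0 < 3 * r) w
  have h3 : th n m (3 * r) w ≤ Real.exp (3 * ((n + 1) * qK K (n + 1))) * den K n m w := by
    rw [th_eq_tm (K := K)]
    have h4 := tm_le_den hK hX hwb (by positivity : 0 < 3 * r)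
    have h5 := den_pos hK hX hwb
    have h6 : Real.exp ((n + 1) * qK K (n + 1) * (3 * r)) ≤
        Real.exp (3 * ((n + 1) * qK K (n + 1))) := by
      rw [Real.exp_le_exp]
      nlinarith
    have h7 := tm_pos hX w (K := K) (by positivity : 0 < 3 * r)
    gcongr
  rw [h2] at h1
  refine h1.trans ?_
  calc th n m (3 * r) w * (omN n * (3 * r) ^ (n + 1))
      ≤ Real.exp (3 * ((n + 1) * qK K (n + 1))) * den K n m w * (omN n * (3 * r) ^ (n + 1)) := by
        gcongr
    _ = _ := by rw [mul_pow]; ring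

end s2

theorem s2_term {ω c A σ a η r al κ2 m₁ ε : ℝ} {n : ℕ} (hω : 0 < ω) (hc : 0 < c) (hA : 0 < A)
    (hσ : 0 < σ) (hη : 0 < η) (hr : 0 < r) (ha : 0 < a) (hε : ε ≤ 1 / 10)
    (hm : (1 - ε) * a * (ω * (c * σ) ^ (n + 1)) ≤ m₁) (h : κ2 * al ≤ a * η) :
    2 * ω * c ^ (n + 1) / A * (κ2 * al) * r * σ ^ n ≤ m₁ / (A * σ / η / (4 * r)) := by
  have h1 : 0 < A * σ / η / (4 * r) := by positivity
  rw [le_div_iff₀ h1]
  refine le_trans ?_ hm
  calc 2 * ω * c ^ (n + 1) / A * (κ2 * al) * r * σ ^ n * (A * σ / η / (4 * r))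
      = κ2 * al * (1 / 2 * ω * c ^ (n + 1) * σ ^ (n + 1) / η) := by
        field_simp
        ring
    _ ≤ a * η * (1 / 2 * ω * c ^ (n + 1) * σ ^ (n + 1) / η) := by gcongr
    _ = 1 / 2 * a * (ω * (c * σ) ^ (n + 1)) := by
        rw [mul_pow]
        field_simp
    _ ≤ (1 - ε) * a * (ω * (c * σ) ^ (n + 1)) := by
        gcongr
        linarith

theorem s2_fin {N D κ al r σn C C3 M V : ℝ} {n : ℕ} (hD : 0 < D) (hκ : 0 < κ) (hal : 0 < al)
    (hr : 0 < r) (hV : al * (M * r ^ (n + 1)) = V)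
    (h : N * (D * (κ * al) * r * σn) ≤ C * (C3 * V)) :
    N * σn ≤ C * C3 * M / (D * κ) * r ^ n := by
  have h1 : 0 < D * κ * al * r := by positivity
  refine le_of_mul_le_mul_left ?_ h1
  rw [← hV] at h
  calc D * κ * al * r * (N * σn) = N * (D * (κ * al) * r * σn) := by ring
    _ ≤ C * (C3 * (al * (M * r ^ (n + 1)))) := h
    _ = D * κ * al * r * (C * C3 * M / (D * κ) * r ^ n) := by
        rw [pow_succ]
        field_simp

theorem s2_cb {Cu κ1 al r cb V M x : ℝ} {n : ℕ} (hCu : 0 < Cu) (hr : 0 < r) (hM : 0 < M)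
    (hκ1 : κ1 = cb * M / (2 * 4 ^ (n + 1) * Cu)) (hal : al = V / (M * r ^ (n + 1)))
    (h : x ≤ κ1 * al) : Cu * x * (4 * r) ^ (n + 1) ≤ cb * (V / 2) := by
  calc Cu * x * (4 * r) ^ (n + 1) ≤ Cu * (κ1 * al) * (4 * r) ^ (n + 1) := by gcongr
    _ = cb * (V / 2) := by
        rw [hκ1, hal, mul_pow]
        field_simp

/-- the counting estimate at one scale -/
theorem s2_count {K : ℝ} (hK : K ≤ 0) {n : ℕ} {A c C lam₀ r₀ δ Cu ηu ε r₃ cb A' b₀ : ℝ}
    (hA : 1 ≤ A) (hc : 0 < c) (hc4 : c ≤ 1 / 4) (hC : 0 < C) (hlam₀ : 0 < lam₀)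
    (hlam₀4 : lam₀ ≤ 1 / 4) (hr₀ : 0 < r₀) (hr₀1 : r₀ ≤ 1) (hF : LemF.{u} K n δ A c C lam₀ r₀)
    (hδ : 0 < δ) (hCu : 0 < Cu) (hηu : 0 < ηu) (hηu1 : ηu ≤ 1 / 10) (hε : 0 < ε)
    (hε1 : ε ≤ 1 / 10) (hr₃ : 0 < r₃) (hcb : 0 < cb) (hb₀ : 0 < b₀)
    {X : Type u} [MetricSpace X] [MeasurableSpace X] [BorelSpace X] {m : Measure X}
    {P : ℝ → X → Measure X} (hX : IsRCD K (n + 1) X m) (hP : HeatKer K n m P)
    (hXc : Contr n A' cb X m)
    (hS : ∀ (x : X) (R η a : ℝ), 0 < R → R ≤ r₃ → 0 < η → η ≤ ηu → 0 < a → a ≤ b₀ →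
      (∀ ρ, 0 < ρ → ρ ≤ R / ε → (1 - ε) * a ≤ tm K n m ρ x ∧ tm K n m ρ x ≤ a) →
      m.real {y ∈ closedBall x R | tm K n m (η * R) y < (1 + 3 * δ) * a} ≤
        Cu * a * η * R ^ (n + 1))
    (x₀ : X) {r : ℝ} (hr : 0 < r) (hr1 : r < 1) (j : ℕ) {δ' : ℝ} (hδ' : 0 < δ') :
    ∃ σ : ℝ, 0 < σ ∧ σ < δ' ∧ ∀ F : Finset X, (∀ x ∈ F, x ∈ ball x₀ r ∩ Lj K n m b₀ ε j) →
      (∀ x ∈ F, ∀ y ∈ F, x ≠ y → σ ≤ dist x y) → (F.card : ℝ) * σ ^ n ≤
        C * (3 ^ (n + 1) * Real.exp (2 * ((n + 1) * qK K (n + 1)))) *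
          (Real.exp (3 * ((n + 1) * qK K (n + 1))) * omN n * 3 ^ (n + 1)) /
          (2 * omN n * c ^ (n + 1) / A * (min ηu (cb * (Real.exp (3 * ((n + 1) * qK K (n + 1))) *
            omN n * 3 ^ (n + 1)) / (2 * 4 ^ (n + 1) * Cu)))) * r ^ n := by
  have hω := omN_pos n
  have hq : 0 ≤ (n + 1) * qK K (n + 1) := by
    have := qK_nonneg K (n + 1)
    positivity
  set Q : ℝ := (n + 1) * qK K (n + 1) with hQ
  set ω := omN n with hωdef
  set M : ℝ := Real.exp (3 * Q) * ω * 3 ^ (n + 1) with hM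
  have hM0 : 0 < M := by positivity
  set κ1 : ℝ := cb * M / (2 * 4 ^ (n + 1) * Cu) with hκ1
  have hκ10 : 0 < κ1 := by positivity
  set κ2 := min ηu κ1 with hκ2
  have hκ20 : 0 < κ2 := lt_min hηu hκ10
  have hA0 : 0 < A := by linarith
  set V := m.real (closedBall x₀ r) with hV
  have hV0 : 0 < V := by
    rw [hV, Measure.real, ENNReal.toReal_pos_iff]
    exact ⟨(hX.pos_ball x₀ r hr).trans_le (measure_mono ball_subset_closedBall),
      hX.finite_ball x₀ r⟩
  set al := V / (M * r ^ (n + 1)) with hal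
  have hal0 : 0 < al := by positivity
  set ηs := min ηu (κ1 * al / b₀) with hηs
  have hηs0 : 0 < ηs := lt_min hηu (by positivity)
  have hj : (0 : ℝ) < (j : ℝ) + 1 := by positivity
  -- the scale
  set B₁ := min (r₀ * r) (1 / ((j : ℝ) + 1)) with hB₁
  set B₂ := min (ηs * ε / (A * ((j : ℝ) + 1))) (ηs * r₃ / A) with hB₂
  set B₃ := min (4 * r * lam₀ * ηs / A) (16 * r₀ * ηs ^ 2 / A ^ 2) with hB₃
  set σ := min (δ' / 2) (min B₁ (min B₂ B₃)) with hσdef
  have hB₁0 : 0 < B₁ := lt_min (by positivity) (by positivity)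
  have hB₂0 : 0 < B₂ := lt_min (by positivity) (by positivity)
  have hB₃0 : 0 < B₃ := lt_min (by positivity) (by positivity)
  have hσ : 0 < σ := lt_min (by positivity) (lt_min hB₁0 (lt_min hB₂0 hB₃0))
  have hσ0 : σ ≤ δ' / 2 := min_le_left _ _
  have hσB₁ : σ ≤ B₁ := (min_le_right _ _).trans (min_le_left _ _)
  have hσB₂ : σ ≤ B₂ := (min_le_right _ _).trans ((min_le_right _ _).trans (min_le_left _ _))
  have hσB₃ : σ ≤ B₃ := (min_le_right _ _).trans ((min_le_right _ _).trans (min_le_right _ _))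
  have h1 : σ ≤ r₀ * r := hσB₁.trans (min_le_left _ _)
  have h2 : σ ≤ 1 / ((j : ℝ) + 1) := hσB₁.trans (min_le_right _ _)
  have h3 : σ ≤ ηs * ε / (A * ((j : ℝ) + 1)) := hσB₂.trans (min_le_left _ _)
  have h4 : σ ≤ ηs * r₃ / A := hσB₂.trans (min_le_right _ _)
  have h5 : σ ≤ 4 * r * lam₀ * ηs / A := hσB₃.trans (min_le_left _ _)
  have h6 : σ ≤ 16 * r₀ * ηs ^ 2 / A ^ 2 := hσB₃.trans (min_le_right _ _)
  clear_value σ B₁ B₂ B₃
  refine ⟨σ, hσ, by linarith, fun F hFG hFs => ?_⟩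
  -- the parameters
  set a : X → ℝ := fun w => den K n m w with ha
  set η : X → ℝ := fun w => min ηu (κ1 * al / a w) with hη
  set lam : X → ℝ := fun w => A * σ / η w / (4 * r) with hlam
  have fa0 : ∀ w ∈ F, 0 < a w := fun w hw => den_pos hK hX (hFG w hw).2.1
  have fab : ∀ w ∈ F, a w ≤ b₀ := fun w hw => den_le (hFG w hw).2.1
  have fdist : ∀ w ∈ F, dist w x₀ ≤ r := fun w hw => (mem_ball.1 (hFG w hw).1).le
  have faal : ∀ w ∈ F, al ≤ a w := by
    intro w hw
    have h := s2_lower hK hX hr hr1 (fdist w hw) (hFG w hw).2.1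
    rw [hal, div_le_iff₀ (by positivity)]
    calc V ≤ Real.exp (3 * Q) * ω * 3 ^ (n + 1) * r ^ (n + 1) * den K n m w := h
      _ = a w * (M * r ^ (n + 1)) := by rw [hM, ha]; ring
  have fη0 : ∀ w ∈ F, 0 < η w := fun w hw => lt_min hηu (by have := fa0 w hw; positivity)
  have fηu : ∀ w, η w ≤ ηu := fun w => min_le_left _ _
  have fηs : ∀ w ∈ F, ηs ≤ η w := by
    intro w hw
    refine min_le_min le_rfl ?_
    have := fab w hw
    have := fa0 w hw
    gcongr
  have faη1 : ∀ w ∈ F, a w * η w ≤ κ1 * al := by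
    intro w hw
    have h0 := fa0 w hw
    calc a w * η w ≤ a w * (κ1 * al / a w) := by gcongr; exact min_le_right _ _
      _ = κ1 * al := by field_simp
  have faη2 : ∀ w ∈ F, κ2 * al ≤ a w * η w := by
    intro w hw
    have h0 := fa0 w hw
    have h00 := faal w hw
    rcases le_total ηu (κ1 * al / a w) with h | h
    · have : η w = ηu := min_eq_left h
      rw [this]
      calc κ2 * al ≤ ηu * a w := by
            gcongr
            exact min_le_left _ _
        _ = _ := mul_comm _ _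
    · have : η w = κ1 * al / a w := min_eq_right h
      rw [this]
      calc κ2 * al ≤ κ1 * al := by
            gcongr
            exact min_le_right _ _
        _ = _ := by field_simp
  have flam0 : ∀ w ∈ F, 0 < lam w := fun w hw => by
    have := fη0 w hw
    simp only [hlam]
    positivity
  have fR : ∀ w ∈ F, 4 * r * lam w = A * σ / η w := fun w hw => by
    have := fη0 w hw
    simp only [hlam]
    field_simp
  have fRle : ∀ w ∈ F, A * σ / η w ≤ A * σ / ηs := fun w hw => by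
    have := fηs w hw
    gcongr
  have fR3 : ∀ w ∈ F, A * σ / η w ≤ r₃ := fun w hw => by
    refine (fRle w hw).trans ?_
    rw [div_le_iff₀ hηs0]
    rw [le_div_iff₀ hA0] at h4
    linarith
  have fRj : ∀ w ∈ F, A * σ / η w / ε ≤ 1 / ((j : ℝ) + 1) := fun w hw => by
    rw [div_le_iff₀ hε]
    refine (fRle w hw).trans ?_
    rw [div_le_iff₀ hηs0]
    rw [le_div_iff₀ (by positivity)] at h3
    have : 1 / ((j : ℝ) + 1) * ε * ηs = (ηs * ε) / ((j : ℝ) + 1) := by ring
    rw [this, le_div_iff₀ hj]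
    linarith
  have flam1 : ∀ w ∈ F, lam w ≤ lam₀ := fun w hw => by
    have h := fRle w hw
    rw [← fR w hw] at h
    have h' : A * σ / ηs ≤ 4 * r * lam₀ := by
      rw [div_le_iff₀ hηs0]
      rw [le_div_iff₀ hA0] at h5
      linarith
    have := h.trans h'
    exact le_of_mul_le_mul_left this (by positivity)
  have flam2 : ∀ w ∈ F, (lam w * r) ^ 2 ≤ r₀ * σ := fun w hw => by
    have h := fRle w hw
    rw [← fR w hw] at h
    have h0 := flam0 w hw
    have h7 : lam w * r ≤ A * σ / (4 * ηs) := by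
      rw [le_div_iff₀ (by positivity)]
      rw [le_div_iff₀ hηs0] at h
      linarith
    calc (lam w * r) ^ 2 ≤ (A * σ / (4 * ηs)) ^ 2 := by gcongr
      _ = σ * (A ^ 2 * σ / (16 * ηs ^ 2)) := by ring
      _ ≤ σ * r₀ := by
          gcongr
          rw [div_le_iff₀ (by positivity)]
          rw [le_div_iff₀ (by positivity)] at h6
          linarith
      _ = r₀ * σ := mul_comm _ _
  have fcσ0 : c * σ ≤ σ := mul_le_of_le_one_left hσ.le (by linarith)
  have fcσ1 : c * σ ≤ r := by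
    have : r₀ * r ≤ r := mul_le_of_le_one_left hr.le hr₀1
    linarith
  have fcσ2 : ∀ w ∈ F, c * σ ≤ r * lam w := fun w hw => by
    have h0 := fη0 w hw
    have h := fR w hw
    have h8 : r * lam w = A * σ / η w / 4 := by linarith
    rw [h8, le_div_iff₀ (by norm_num), le_div_iff₀ h0]
    have h9 := fηu w
    have e1 : c * σ * 4 * η w ≤ 1 / 4 * σ * 4 * (1 / 10) := by
      have : η w ≤ 1 / 10 := h9.trans hηu1
      gcongr
    have e2 : σ ≤ A * σ := le_mul_of_one_le_left hσ.le hA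
    linarith
  -- the estimate of Lemma F
  have hcount := hF X m P hX hP x₀ r σ F a lam hr hr1.le hσ h1
    (fun w hw => mem_closedBall.2 (fdist w hw)) hFs
    (fun w hw => ⟨fa0 w hw, (tm_le_den hK hX (hFG w hw).2.1 hσ).trans (by
      exact le_mul_of_one_le_left (fa0 w hw).le (by linarith))⟩)
    (fun w hw => ⟨flam0 w hw, flam1 w hw, flam2 w hw⟩)
    (by
      intro w hw x' hx'
      have hst := hS w (A * σ / η w) (η w) (a w) (by have := fη0 w hw; positivity) (fR3 w hw)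
        (fη0 w hw) (fηu w) (fa0 w hw) (fab w hw) (by
          intro ρ hρ hρ2
          refine ⟨(hFG w hw).2.2.trans (tm_anti hK hX w hρ (hρ2.trans (fRj w hw))),
            tm_le_den hK hX (hFG w hw).2.1 hρ⟩)
      have e1 : η w * (A * σ / η w) = A * σ := by
        have := fη0 w hw
        field_simp
      rw [e1, ← fR w hw] at hst
      refine s2_half hcb hXc hr hr1 (fdist w hw) (mem_closedBall.1 hx') fcσ1 (fcσ2 w hw)
        (flam0 w hw) ((flam1 w hw).trans hlam₀4) _ hst ?_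
      have h9 := faη1 w hw
      have h10 := s2_cb hCu hr hM0 hκ1 hal h9
      rw [← mul_assoc] at h10
      exact h10)
  -- the volume of the big ball
  have hbig : m.real (closedBall x₀ (3 * r)) ≤ 3 ^ (n + 1) * Real.exp (2 * Q) * V := by
    have h := bg_closedBall hK hX x₀ hr (by linarith : r ≤ 3 * r)
    refine h.trans ?_
    have e1 : 3 * r / r = 3 := by field_simp
    rw [e1]
    have e2 : Real.exp ((n + 1) * qK K (n + 1) * (3 * r - r)) ≤ Real.exp (2 * Q) := by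
      rw [Real.exp_le_exp, ← hQ]
      have : Q * (2 * r) ≤ Q * 2 := by
        have : 2 * r ≤ 2 := by linarith
        gcongr
      linarith
    gcongr
  -- the terms
  have hterm : ∀ w ∈ F, 2 * ω * c ^ (n + 1) / A * (κ2 * al) * r * σ ^ n ≤
      m.real (closedBall w (c * σ)) / lam w := by
    intro w hw
    refine s2_term hω hc hA0 hσ (fη0 w hw) hr (fa0 w hw) hε1 ?_ (faη2 w hw)
    have hcσ : 0 < c * σ := by positivity
    have h7 : (1 - ε) * a w ≤ th n m (c * σ) w := by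
      refine ((hFG w hw).2.2.trans (tm_anti hK hX w hcσ ?_)).trans (tm_le_th hcσ.le w)
      exact fcσ0.trans h2
    have h8 : m.real (ball w (c * σ)) ≤ m.real (closedBall w (c * σ)) :=
      measureReal_mono ball_subset_closedBall (hX.finite_ball w _).ne
    refine le_trans ?_ h8
    rw [le_th_iff hcσ] at h7
    exact h7
  have hsum : (F.card : ℝ) * (2 * ω * c ^ (n + 1) / A * (κ2 * al) * r * σ ^ n) ≤
      C * (3 ^ (n + 1) * Real.exp (2 * Q) * V) := by
    calc (F.card : ℝ) * (2 * ω * c ^ (n + 1) / A * (κ2 * al) * r * σ ^ n)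
        = ∑ w ∈ F, 2 * ω * c ^ (n + 1) / A * (κ2 * al) * r * σ ^ n := by
          rw [Finset.sum_const, nsmul_eq_mul]
      _ ≤ ∑ w ∈ F, m.real (closedBall w (c * σ)) / lam w := Finset.sum_le_sum hterm
      _ ≤ C * m.real (closedBall x₀ (3 * r)) := hcount
      _ ≤ _ := by gcongr
  -- conclusion
  have e3 : al * (M * r ^ (n + 1)) = V := by
    rw [hal]
    exact div_mul_cancel₀ _ (by positivity)
  exact s2_fin (by positivity) hκ20 hal0 hr e3 hsum

/-- **Stage 2.** -/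
theorem stage2 {K : ℝ} (hK : K ≤ 0) (n : ℕ) : Stage2Stmt.{u} K n := by
  intro hLF η₀ ζ₀ δ₀ s₀ κ b₀ δ hb₀ hδ hδ1 hS1
  obtain ⟨A, c, C, lam₀, r₀, hA, hc, hc4, hC, hlam₀, hlam₀4, hr₀, hr₀1, hF⟩ := hLF δ hδ hδ1
  obtain ⟨Cu, ηu, ε, r₃, hCu, hηu, hηu1, hε, hε1, hr₃, -, hS⟩ := hS1
  obtain ⟨A', cb, -, hcb, -, hcontr⟩ := contr_of_rcd.{u} hK n
  obtain ⟨D, hD, hcov⟩ := coverOne_bound.{u} n
  have hω := omN_pos n
  set C' : ℝ := C * (3 ^ (n + 1) * Real.exp (2 * ((n + 1) * qK K (n + 1)))) *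
          (Real.exp (3 * ((n + 1) * qK K (n + 1))) * omN n * 3 ^ (n + 1)) /
          (2 * omN n * c ^ (n + 1) / A * (min ηu (cb * (Real.exp (3 * ((n + 1) * qK K (n + 1))) *
            omN n * 3 ^ (n + 1)) / (2 * 4 ^ (n + 1) * Cu)))) with hC'
  have hC'0 : 0 < C' := by
    have : 0 < min ηu (cb * (Real.exp (3 * ((n + 1) * qK K (n + 1))) *
            omN n * 3 ^ (n + 1)) / (2 * 4 ^ (n + 1) * Cu)) := lt_min hηu (by positivity)
    have hA0 : 0 < A := by linarith
    positivity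
  refine ⟨D * C', by positivity, ?_⟩
  intro X _ _ _ m P hX hP hCol x₀ r hr hr1
  have hsub : ball x₀ r ∩ {x | ∀ ρ, 0 < ρ → ρ < 6 → tm K n m ρ x ≤ b₀} ⊆
      ⋃ j, (ball x₀ r ∩ Lj K n m b₀ ε j) := by
    rintro x ⟨hx1, hx2⟩
    obtain ⟨j, hj⟩ := exists_Lj hK hX hε hx2
    exact mem_iUnion.2 ⟨j, hx1, hj⟩
  refine (measure_mono hsub).trans (measure_iUnion_le_of_mono _
    (fun i j hij => inter_subset_inter_right _ (Lj_mono hK hX b₀ ε hij)) fun j => ?_)
  refine (hcov X _ (C' * r ^ n) ?_).trans_eq (by rw [mul_assoc])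
  intro δ' hδ'
  exact s2_count hK hA hc hc4 hC hlam₀ hlam₀4 hr₀ hr₀1 hF hδ hCu hηu hηu1 hε hε1 hr₃ hcb hb₀
    hX hP (hcontr X m hX) (fun x R η a => hS X m P hX hP hCol x R η a) x₀ hr hr1 j hδ'

/-- points of `HalfDens` have density at most one half -/
theorem halfDens_subset_tmLe {K : ℝ} (hK : K ≤ 0) {n : ℕ} {X : Type u} [MetricSpace X]
    [MeasurableSpace X] [BorelSpace X] {m : Measure X} (hX : IsRCD K (n + 1) X m) :
    HalfDens (K / (n + 1 : ℕ)) n m ⊆ TmLe K n m (1 / 2) := by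
  intro x hx r hr _
  have h := halfDens_le hK hX hx hr
  have hω := omN_pos n
  have h1 : m.real (ball x r) ≤ 1 / 2 * omN n * r ^ (n + 1) *
      Real.exp ((n + 1) * qK K (n + 1) * r) :=
    (measureReal_mono ball_subset_closedBall (hX.finite_ball x r).ne).trans h
  have h2 : th n m r x ≤ 1 / 2 * Real.exp ((n + 1) * qK K (n + 1) * r) := by
    rw [th_le_iff hr]
    refine h1.trans (le_of_eq (by ring))
  unfold tm
  calc Real.exp (-((n + 1) * qK K (n + 1) * r)) * th n m r x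
      ≤ Real.exp (-((n + 1) * qK K (n + 1) * r)) *
          (1 / 2 * Real.exp ((n + 1) * qK K (n + 1) * r)) := by gcongr
    _ = 1 / 2 * (Real.exp (-((n + 1) * qK K (n + 1) * r)) *
          Real.exp ((n + 1) * qK K (n + 1) * r)) := by ring
    _ = 1 / 2 := by rw [← Real.exp_add]; simp

/-- the closure of the set of the points with a half-space tangent -/
theorem closure_halfTangent_subset_tmLe {K : ℝ} (hK : K ≤ 0) {n : ℕ} {X : Type u} [MetricSpace X]
    [MeasurableSpace X] [BorelSpace X] (hX : IsRCD K (n + 1) X (μHE[n + 1] : Measure X)) :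
    closure {x : X | HalfTangent n x} ⊆ TmLe K n (μHE[n + 1] : Measure X) (1 / 2) :=
  (closure_halfTangent_halfDens hK hX).trans (halfDens_subset_tmLe hK hX)

end Pool.Agent.BDRY
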