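import Pool.Agent.Work.MP_209cb6_gt.B2.EndMain
import Pool.Agent.Work.MP_209cb6_gt.B2.LemF
import Pool.Agent.Work.MP_209cb6_gt.B2.FluxSq
import Pool.Agent.Work.MP_209cb6_gt.B2.Budget
import Pool.Agent.Work.MP_209cb6_gt.B2.LowGood
import Pool.Agent.Work.MP_209cb6_gt.B2.LemREnd
import Pool.Agent.Work.MP_209cb6_gt.B2.Stage1
import Pool.Agent.Work.MP_209cb6_gt.B2.Stage2
import Pool.Agent.Work.MP_209cb6_gt.B2.ColdIn
import Pool.Agent.Work.MP_209cb6_gt.B2.SymMain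
import Pool.Agent.Work.MP_209cb6_gt.B2.LitGap
import Pool.Agent.Work.MP_209cb6_gt.B2.KPos

/-!
# BDRY2: the literal answer to Q1
-/

set_option autoImplicit false

open MeasureTheory MeasureTheory.Measure Metric Set Filter Topology
open scoped ENNReal NNReal

namespace Pool.Agent.BDRY

universe u

theorem lemFStmt {K : ℝ} (hK : K ≤ 0) (n : ℕ) : LemFStmt.{u} K n :=
  lemF hK n (gap hK n) (fluxLow hK n) (budget hK n)

/-- Low-density points have codimension one, with a constant depending on `K, n, b₀` only. -/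
theorem endFinal {K : ℝ} (hK : K ≤ 0) (n : ℕ) {b₀ : ℝ} (hb₀ : 0 < b₀) (hb₁ : b₀ < 1) :
    ∃ C : ℝ, 0 < C ∧
    ∀ (X : Type u) [MetricSpace X] [MeasurableSpace X] [BorelSpace X] (P : ℝ → X → Measure X),
      IsRCD K (n + 1) X (μHE[n + 1] : Measure X) → HeatKer K n (μHE[n + 1] : Measure X) P →
      ∀ (x₀ : X) (r : ℝ), 0 < r → r < 1 →
        (μHE[n] : Measure X) (ball x₀ r ∩
          {x | ∀ ρ, 0 < ρ → ρ < 6 → tm K n (μHE[n + 1] : Measure X) ρ x ≤ b₀}) ≤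
          ENNReal.ofReal (C * r ^ n) :=
  endMain n (lemFStmt hK n) (lemRStmt hK n) (stage1 hK n) (stage2 hK n) (coldStmt hK n) hb₀ hb₁

/-- The bound for the boundary, `K ≤ 0`. -/
theorem bdry_bound_nonpos {K : ℝ} (hK : K ≤ 0) (n : ℕ) : ∃ C : ℝ, 0 < C ∧
    ∀ (X : Type u) [MetricSpace X] [MeasurableSpace X] [BorelSpace X],
      IsRCD K (n + 1) X (μHE[n + 1] : Measure X) → ∀ (x₀ : X) (r : ℝ), 0 < r → r < 1 →
        (μHE[n] : Measure X) (ball x₀ r ∩ bdry n X) ≤ ENNReal.ofReal (C * r ^ n) := by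
  obtain ⟨C, hC, H⟩ := lit_bound.{u} hK n fun b₀ hb₀ hb₁ => endFinal hK n hb₀ hb₁
  refine ⟨C, hC, fun X _ _ _ hX x₀ r hr hr1 => ?_⟩
  obtain ⟨P, hP⟩ := hX.exists_heatKer hK
  exact H X P hX hP x₀ r hr hr1

/-- The bound for the boundary, every real `K`. -/
theorem bdry_bound (K : ℝ) (n : ℕ) : ∃ C : ℝ, 0 < C ∧
    ∀ (X : Type u) [MetricSpace X] [MeasurableSpace X] [BorelSpace X],
      IsRCDG K (n + 1) X (μHE[n + 1] : Measure X) → ∀ (x₀ : X) (r : ℝ), 0 < r → r < 1 →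
        (μHE[n] : Measure X) (ball x₀ r ∩ bdry n X) ≤ ENNReal.ofReal (C * r ^ n) := by
  obtain ⟨C, hC, H⟩ := bdry_bound_nonpos.{u} (min_le_right K 0) n
  exact ⟨C, hC, fun X _ _ _ hX x₀ r hr hr1 => H X (hX.isRCD (Nat.succ_pos n)) x₀ r hr hr1⟩

end Pool.Agent.BDRY
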