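import Pool.Agent.Work.MP_209cb6_gt.B2.EndDefs

/-!
# BDRY2, end-game: the assembly
-/

set_option autoImplicit false

open MeasureTheory MeasureTheory.Measure Metric Set Filter Topology
open scoped ENNReal NNReal

namespace Pool.Agent.BDRY

universe u

/-- The Colding input for all densities `κ < 1`, with constants depending on `K, n, κ` only. -/
def ColdStmt (K : ℝ) (n : ℕ) : Prop := ∀ κ : ℝ, κ < 1 → ∃ η₀ ζ₀ δ₀ s₀ : ℝ,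
  0 < η₀ ∧ η₀ < 1 ∧ 0 < ζ₀ ∧ 0 < δ₀ ∧ 0 < s₀ ∧
  ∀ (X : Type u) [MetricSpace X] [MeasurableSpace X] [BorelSpace X] (P : ℝ → X → Measure X),
    IsRCD K (n + 1) X (μHE[n + 1] : Measure X) → HeatKer K n (μHE[n + 1] : Measure X) P →
    ColIn n η₀ ζ₀ δ₀ s₀ κ (μHE[n + 1] : Measure X)

/-- The end-game: the measure of the set of points of density at most `b₀ < 1`. -/
theorem endMain {K : ℝ} (n : ℕ) (hF : LemFStmt.{u} K n) (hR : LemRStmt.{u} K n)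
    (h1 : Stage1Stmt.{u} K n) (h2 : Stage2Stmt.{u} K n) (hC : ColdStmt.{u} K n) {b₀ : ℝ}
    (hb₀ : 0 < b₀) (hb₁ : b₀ < 1) : ∃ C : ℝ, 0 < C ∧
    ∀ (X : Type u) [MetricSpace X] [MeasurableSpace X] [BorelSpace X] (P : ℝ → X → Measure X),
      IsRCD K (n + 1) X (μHE[n + 1] : Measure X) → HeatKer K n (μHE[n + 1] : Measure X) P →
      ∀ (x₀ : X) (r : ℝ), 0 < r → r < 1 →
        (μHE[n] : Measure X) (ball x₀ r ∩
          {x | ∀ ρ, 0 < ρ → ρ < 6 → tm K n (μHE[n + 1] : Measure X) ρ x ≤ b₀}) ≤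
          ENNReal.ofReal (C * r ^ n) := by
  obtain ⟨η₀, ζ₀, δ₀, s₀, e1, e2, e3, e4, e5, hcol⟩ := hC ((1 + b₀) / 2) (by linarith)
  obtain ⟨δ, hδ, hδ1, hlr⟩ := hR η₀ ζ₀ δ₀ s₀ ((1 + b₀) / 2) b₀ e1 e2 e3 e4 e5 hb₀ (by linarith)
  obtain ⟨C, hC0, H⟩ := h2 hF η₀ ζ₀ δ₀ s₀ ((1 + b₀) / 2) b₀ δ hb₀ hδ hδ1
    (h1 hF η₀ ζ₀ δ₀ s₀ ((1 + b₀) / 2) b₀ δ hδ hδ1 hlr)
  exact ⟨C, hC0, fun X _ _ _ P hX hP x₀ r hr hr1 =>
    H X _ P hX hP (hcol X P hX hP) x₀ r hr hr1⟩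

end Pool.Agent.BDRY
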