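import Pool.Agent.Work.MP_209cb6_gt.Defs

/-!
# BDRY2, block KER: entropies of the components of a mixture, data processing
-/

set_option autoImplicit false

open MeasureTheory MeasureTheory.Measure Metric Set Filter Topology
open scoped ENNReal NNReal

namespace Pool.Agent.BDRY

universe u

section

variable {X : Type u} [MeasurableSpace X] {m M μ : Measure X} {w : ℝ≥0∞}

theorem ac_of_smul_le (hw : w ≠ 0) (h : w • μ ≤ M) : μ ≪ M := by
  intro s hs
  have h1 := h s
  rw [hs, Measure.smul_apply, smul_eq_mul, nonpos_iff_eq_zero, mul_eq_zero] at h1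
  exact h1.resolve_left hw

/-- a component of a mixture has finite entropy relative to the mixture -/
theorem llr_int_of_smul_le [IsProbabilityMeasure μ] [IsProbabilityMeasure M] (hw : w ≠ 0)
    (hwt : w ≠ ∞) (h : w • μ ≤ M) : Integrable (llr μ M) μ := by
  have hac := ac_of_smul_le hw h
  rw [← integrable_rnDeriv_smul_iff hac]
  have h1 : ∀ᵐ x ∂M, w * μ.rnDeriv M x ≤ 1 := by
    filter_upwards [Measure.rnDeriv_le_one_of_le h,
      Measure.rnDeriv_smul_left_of_ne_top' μ M hwt] with x e1 e2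
    rw [e2] at e1
    exact e1
  have hw0 : 0 < w.toReal := ENNReal.toReal_pos hw hwt
  obtain ⟨B, hB⟩ := (isCompact_Icc (a := (0 : ℝ)) (b := w.toReal⁻¹)).exists_bound_of_continuousOn
    Real.continuous_mul_log.continuousOn
  refine Integrable.of_bound (C := B) ?_ ?_
  · have d := (Measure.measurable_rnDeriv μ M).ennreal_toReal
    exact (d.mul (Real.measurable_log.comp d)).aestronglyMeasurable
  · filter_upwards [h1, Measure.rnDeriv_lt_top μ M] with x e1 e2
    refine hB _ ⟨ENNReal.toReal_nonneg, ?_⟩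
    have e3 := ENNReal.toReal_mono ENNReal.one_ne_top e1
    rw [ENNReal.toReal_mul, ENNReal.toReal_one] at e3
    rw [← one_div, le_div_iff₀ hw0, mul_comm]
    exact e3

theorem llr_chain_ae [SigmaFinite m] [SigmaFinite M] [SigmaFinite μ] (h1 : μ ≪ M) (h2 : M ≪ m) :
    ∀ᵐ x ∂μ, llr μ m x = llr μ M x + llr M m x := by
  have h3 : μ ≪ m := h1.trans h2
  filter_upwards [h3.ae_le (Measure.rnDeriv_mul_rnDeriv (κ := m) h1), Measure.rnDeriv_pos h1,
    h1.ae_le (Measure.rnDeriv_pos h2), h1.ae_le (Measure.rnDeriv_lt_top μ M),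
    h3.ae_le (Measure.rnDeriv_lt_top M m)] with x e1 e2 e3 e4 e5
  have f1 : 0 < (μ.rnDeriv M x).toReal := ENNReal.toReal_pos e2.ne' e4.ne
  have f2 : 0 < (M.rnDeriv m x).toReal := ENNReal.toReal_pos e3.ne' e5.ne
  rw [llr_def, llr_def, llr_def]
  simp only
  rw [← e1, Pi.mul_apply, ENNReal.toReal_mul, Real.log_mul f1.ne' f2.ne']

theorem integrable_of_smul_le {f : X → ℝ} (hw : w ≠ 0) (hwt : w ≠ ∞) (h : w • μ ≤ M)
    (hf : Integrable f M) : Integrable f μ := by
  have h1 : μ ≤ w⁻¹ • M := by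
    intro s
    have h2 := h s
    rw [Measure.smul_apply, smul_eq_mul] at h2
    rw [Measure.smul_apply, smul_eq_mul]
    calc μ s = w⁻¹ * (w * μ s) := by
          rw [← mul_assoc, ENNReal.inv_mul_cancel hw hwt, one_mul]
      _ ≤ w⁻¹ * M s := by gcongr
  exact (hf.smul_measure (ENNReal.inv_ne_top.2 hw)).mono_measure h1

/-- chain rule for the entropy of a component -/
theorem ent_chain [SigmaFinite m] [IsProbabilityMeasure M] [IsProbabilityMeasure μ] (hw : w ≠ 0)
    (hwt : w ≠ ∞) (h : w • μ ≤ M) (h2 : M ≪ m) (hi : Integrable (llr M m) M) :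
    Integrable (llr M m) μ ∧ Integrable (llr μ m) μ ∧
      ∫ x, llr μ m x ∂μ = ∫ x, llr μ M x ∂μ + ∫ x, llr M m x ∂μ := by
  have h1 := ac_of_smul_le hw h
  have i1 := integrable_of_smul_le hw hwt h hi
  have i2 := llr_int_of_smul_le hw hwt h
  have e := llr_chain_ae h1 h2
  refine ⟨i1, (integrable_congr e).2 (i2.add i1), ?_⟩
  rw [integral_congr_ae e, integral_add i2 i1]

theorem llr_int_comp [SigmaFinite m] [IsProbabilityMeasure M] [IsProbabilityMeasure μ] (hw : w ≠ 0)
    (hwt : w ≠ ∞) (h : w • μ ≤ M) (h2 : M ≪ m) (hi : Integrable (llr μ m) μ) :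
    Integrable (llr M m) μ := by
  have h1 := ac_of_smul_le hw h
  have i2 := llr_int_of_smul_le hw hwt h
  have e := llr_chain_ae h1 h2
  refine (integrable_congr ?_).1 (hi.sub i2)
  filter_upwards [e] with x hx
  rw [Pi.sub_apply, hx]
  ring

end

/-! ### Finite mixtures -/

section mix

variable {X : Type u} [MeasurableSpace X] {m : Measure X} {ι : Type*} [Fintype ι]

/-- the mixture `∑ w_i μ_i` -/
noncomputable def mixM (w : ι → ℝ≥0∞) (μ : ι → Measure X) : Measure X := ∑ i, w i • μ i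

theorem smul_le_mixM (w : ι → ℝ≥0∞) (μ : ι → Measure X) (i : ι) : w i • μ i ≤ mixM w μ := by
  intro s
  rw [mixM, Measure.finsetSum_apply]
  exact Finset.single_le_sum (f := fun i => (w i • μ i) s) (fun _ _ => zero_le) (Finset.mem_univ i)

theorem mixM_apply (w : ι → ℝ≥0∞) (μ : ι → Measure X) (s : Set X) :
    mixM w μ s = ∑ i, w i * μ i s := by
  rw [mixM, Measure.finsetSum_apply]
  rfl

theorem mixM_prob {w : ι → ℝ≥0∞} (hw : ∑ i, w i = 1) {μ : ι → Measure X}
    (hμ : ∀ i, IsProbabilityMeasure (μ i)) : IsProbabilityMeasure (mixM w μ) := by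
  refine ⟨?_⟩
  rw [mixM_apply]
  simp [hw]

theorem mixM_ac {w : ι → ℝ≥0∞} {μ : ι → Measure X} (hμ : ∀ i, μ i ≪ m) : mixM w μ ≪ m := by
  intro s hs
  rw [mixM_apply]
  refine Finset.sum_eq_zero fun i _ => ?_
  rw [hμ i hs, mul_zero]

theorem w_ne_top {w : ι → ℝ≥0∞} (hw : ∑ i, w i = 1) (i : ι) : w i ≠ ∞ := by
  have h1 : w i ≤ 1 := hw ▸ Finset.single_le_sum (f := w) (fun _ _ => zero_le) (Finset.mem_univ i)
  exact (h1.trans_lt ENNReal.one_lt_top).ne

theorem w_toReal_sum {w : ι → ℝ≥0∞} (hw : ∑ i, w i = 1) : ∑ i, (w i).toReal = 1 := by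
  rw [← ENNReal.toReal_sum fun i _ => w_ne_top hw i, hw, ENNReal.toReal_one]

theorem integrable_mixM {w : ι → ℝ≥0∞} (hw : ∑ i, w i = 1) {μ : ι → Measure X} {f : X → ℝ}
    (hf : ∀ i, Integrable f (μ i)) : Integrable f (mixM w μ) := by
  rw [mixM, integrable_finsetSum_measure]
  exact fun i _ => (hf i).smul_measure (w_ne_top hw i)

theorem integral_mixM {w : ι → ℝ≥0∞} (hw : ∑ i, w i = 1) {μ : ι → Measure X} {f : X → ℝ}
    (hf : ∀ i, Integrable f (μ i)) :
    ∫ x, f x ∂(mixM w μ) = ∑ i, (w i).toReal * ∫ x, f x ∂(μ i) := by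
  rw [mixM, integral_finsetSum_measure fun i _ => (hf i).smul_measure (w_ne_top hw i)]
  refine Finset.sum_congr rfl fun i _ => ?_
  rw [integral_smul_measure, smul_eq_mul]

/-- the mixture of measures of finite entropy: the entropy splits -/
theorem ent_mixM [SigmaFinite m] {w : ι → ℝ≥0∞} (hw : ∑ i, w i = 1) (hw0 : ∀ i, w i ≠ 0)
    {μ : ι → Measure X} (hμ : ∀ i, IsProbabilityMeasure (μ i)) (hac : ∀ i, μ i ≪ m)
    (hi : ∀ i, Integrable (llr (μ i) m) (μ i)) :
    Integrable (llr (mixM w μ) m) (mixM w μ) ∧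
      ∑ i, (w i).toReal * ∫ x, llr (μ i) m x ∂(μ i) =
        ∑ i, (w i).toReal * ∫ x, llr (μ i) (mixM w μ) x ∂(μ i) +
          ∫ x, llr (mixM w μ) m x ∂(mixM w μ) := by
  have hp := mixM_prob hw hμ
  have h1 : ∀ i, Integrable (llr (mixM w μ) m) (μ i) := fun i =>
    llr_int_comp (hw0 i) (w_ne_top hw i) (smul_le_mixM w μ i) (mixM_ac hac) (hi i)
  have h2 := integrable_mixM hw h1
  refine ⟨h2, ?_⟩
  rw [integral_mixM hw h1, ← Finset.sum_add_distrib]
  refine Finset.sum_congr rfl fun i _ => ?_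
  rw [(ent_chain (hw0 i) (w_ne_top hw i) (smul_le_mixM w μ i) (mixM_ac hac) h2).2.2]
  ring

/-- `∑ w_i E(μ_i) ≥ E(∑ w_i μ_i)` with the relative entropies: nonnegativity of the latter -/
theorem llr_self_nonneg {M μ : Measure X} [IsProbabilityMeasure μ] [IsProbabilityMeasure M]
    (h : μ ≪ M) (hi : Integrable (llr μ M) μ) : 0 ≤ ∫ x, llr μ M x ∂μ := by
  have h1 : ∀ᵐ x ∂μ, 1 - (μ.rnDeriv M x).toReal⁻¹ ≤ llr μ M x := by
    filter_upwards [Measure.rnDeriv_pos h, h.ae_le (Measure.rnDeriv_lt_top μ M)] with x e1 e2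
    have f1 : 0 < (μ.rnDeriv M x).toReal := ENNReal.toReal_pos e1.ne' e2.ne
    have := Real.one_sub_inv_le_log_of_pos f1
    rw [llr_def]
    exact this
  have h3 : Integrable (fun x => (μ.rnDeriv M x).toReal • (μ.rnDeriv M x).toReal⁻¹) M := by
    refine Integrable.of_bound (C := 1) ?_ (ae_of_all _ fun x => ?_)
    · have d := (Measure.measurable_rnDeriv μ M).ennreal_toReal
      exact (d.mul d.inv).aestronglyMeasurable
    · rw [smul_eq_mul, Real.norm_eq_abs, abs_of_nonneg (by positivity)]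
      exact mul_inv_le_one
  have h4 : Integrable (fun x => (μ.rnDeriv M x).toReal⁻¹) μ := (integrable_rnDeriv_smul_iff h).1 h3
  have h5 : ∫ x, (μ.rnDeriv M x).toReal⁻¹ ∂μ ≤ 1 := by
    rw [← integral_rnDeriv_smul h]
    calc _ ≤ ∫ _, (1 : ℝ) ∂M := by
          refine integral_mono h3 (integrable_const 1) fun x => ?_
          exact mul_inv_le_one
      _ = 1 := by simp
  have h7 : Integrable (fun x => 1 - (μ.rnDeriv M x).toReal⁻¹) μ := (integrable_const (1 : ℝ)).sub h4
  have h6 := integral_mono_ae h7 hi h1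
  rw [integral_sub (integrable_const (1 : ℝ)) h4] at h6
  simp at h6
  linarith

theorem sum_rnDeriv_mixM {w : ι → ℝ≥0∞} (hw : ∑ i, w i = 1) (hw0 : ∀ i, w i ≠ 0)
    {μ : ι → Measure X} (hμ : ∀ i, IsProbabilityMeasure (μ i)) :
    ∀ᵐ x ∂(mixM w μ), ∑ i, w i * (μ i).rnDeriv (mixM w μ) x = 1 := by
  have hp := mixM_prob hw hμ
  have hac : ∀ i, μ i ≪ mixM w μ := fun i => ac_of_smul_le (hw0 i) (smul_le_mixM w μ i)
  have hm : Measurable fun x => ∑ i, w i * (μ i).rnDeriv (mixM w μ) x :=
    Finset.measurable_sum _ fun i _ => (Measure.measurable_rnDeriv _ _).const_mul _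
  have h1 : (mixM w μ).withDensity (fun x => ∑ i, w i * (μ i).rnDeriv (mixM w μ) x) =
      (mixM w μ).withDensity (fun _ => 1) := by
    rw [withDensity_const, one_smul]
    ext s hs
    rw [withDensity_apply _ hs, lintegral_finsetSum _ fun i _ =>
      (Measure.measurable_rnDeriv _ _).const_mul _]
    conv_rhs => rw [mixM_apply]
    refine Finset.sum_congr rfl fun i _ => ?_
    rw [lintegral_const_mul _ (Measure.measurable_rnDeriv _ _), ← withDensity_apply _ hs,
      Measure.withDensity_rnDeriv_eq _ _ (hac i)]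
  exact (withDensity_eq_iff hm.aemeasurable aemeasurable_const (by
    rw [lintegral_finsetSum _ fun i _ => (Measure.measurable_rnDeriv _ _).const_mul _]
    refine (ENNReal.sum_lt_top.2 fun i _ => ?_).ne
    rw [lintegral_const_mul _ (Measure.measurable_rnDeriv _ _)]
    exact ENNReal.mul_lt_top (w_ne_top hw i).lt_top (Measure.lintegral_rnDeriv_lt_top _ _))).1 h1

end mix

/-! ### Transport of a component, data processing -/

section dp

variable {X Y : Type u} [MeasurableSpace X] [MeasurableSpace Y]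

/-- the part of the plan `π` which starts from the component `μ` -/
noncomputable def partM (π : Measure (X × Y)) (μ : Measure X) : Measure (X × Y) :=
  π.withDensity fun z => μ.rnDeriv (π.map Prod.fst) z.1

theorem partM_fst {π : Measure (X × Y)} {μ : Measure X} [IsFiniteMeasure π] [IsFiniteMeasure μ]
    (h : μ ≪ π.map Prod.fst) : (partM π μ).map Prod.fst = μ := by
  have hr := Measure.measurable_rnDeriv μ (π.map Prod.fst)
  conv_rhs => rw [← Measure.withDensity_rnDeriv_eq _ _ h]
  ext s hs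
  rw [Measure.map_apply measurable_fst hs, partM, withDensity_apply _ (measurable_fst hs),
    withDensity_apply _ hs, setLIntegral_map hs hr measurable_fst]

theorem partM_prob {π : Measure (X × Y)} {μ : Measure X} [IsFiniteMeasure π]
    [IsProbabilityMeasure μ] (h : μ ≪ π.map Prod.fst) : IsProbabilityMeasure (partM π μ) := by
  refine ⟨?_⟩
  have h2 : (partM π μ).map Prod.fst univ = 1 := by rw [partM_fst h]; exact measure_univ
  rwa [Measure.map_apply measurable_fst MeasurableSet.univ, preimage_univ] at h2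

theorem mixM_partM {ι : Type*} [Fintype ι] {w : ι → ℝ≥0∞} (hw : ∑ i, w i = 1)
    (hw0 : ∀ i, w i ≠ 0) {μ : ι → Measure X} (hμ : ∀ i, IsProbabilityMeasure (μ i))
    {π : Measure (X × Y)} [IsFiniteMeasure π] (h : π.map Prod.fst = mixM w μ) :
    mixM w (fun i => partM π (μ i)) = π := by
  have h1 := sum_rnDeriv_mixM hw hw0 hμ
  rw [← h] at h1
  have h2 : ∀ᵐ z ∂π, ∑ i, w i * (μ i).rnDeriv (π.map Prod.fst) z.1 = 1 :=
    ae_of_ae_map measurable_fst.aemeasurable h1
  have hr : ∀ i, Measurable fun z : X × Y => (μ i).rnDeriv (π.map Prod.fst) z.1 := fun i =>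
    (Measure.measurable_rnDeriv _ _).comp measurable_fst
  ext s hs
  rw [mixM_apply]
  calc ∑ i, w i * partM π (μ i) s = ∑ i, ∫⁻ z in s, w i * (μ i).rnDeriv (π.map Prod.fst) z.1 ∂π := by
        refine Finset.sum_congr rfl fun i _ => ?_
        rw [partM, withDensity_apply _ hs, lintegral_const_mul _ (hr i)]
    _ = ∫⁻ z in s, ∑ i, w i * (μ i).rnDeriv (π.map Prod.fst) z.1 ∂π :=
        (lintegral_finsetSum _ fun i _ => (hr i).const_mul _).symm
    _ = ∫⁻ _ in s, 1 ∂π := lintegral_congr_ae (ae_restrict_of_ae h2)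
    _ = π s := by simp

theorem data_proc {π : Measure (X × Y)} {μ : Measure X} [IsProbabilityMeasure π]
    [IsProbabilityMeasure μ] (h : μ ≪ π.map Prod.fst)
    (h2 : (partM π μ).map Prod.snd ≪ π.map Prod.snd)
    (i1 : Integrable (llr μ (π.map Prod.fst)) μ)
    (i2 : Integrable (llr ((partM π μ).map Prod.snd) (π.map Prod.snd)) ((partM π μ).map Prod.snd)) :
    ∫ y, llr ((partM π μ).map Prod.snd) (π.map Prod.snd) y ∂((partM π μ).map Prod.snd) ≤
      ∫ x, llr μ (π.map Prod.fst) x ∂μ := by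
  have hp := partM_prob h
  have hM : IsProbabilityMeasure (π.map Prod.fst) :=
    Measure.isProbabilityMeasure_map measurable_fst.aemeasurable
  have hS : IsProbabilityMeasure (π.map Prod.snd) :=
    Measure.isProbabilityMeasure_map measurable_snd.aemeasurable
  have hR : IsProbabilityMeasure ((partM π μ).map Prod.snd) :=
    Measure.isProbabilityMeasure_map measurable_snd.aemeasurable
  have hfst := partM_fst h
  set M := π.map Prod.fst with hMdef
  set P := π.map Prod.snd with hPdef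
  set Q := (partM π μ).map Prod.snd with hQdef
  set r := μ.rnDeriv M with hr
  set g := Q.rnDeriv P with hg
  have hrm : Measurable r := Measure.measurable_rnDeriv _ _
  have hgm : Measurable g := Measure.measurable_rnDeriv _ _
  have hpart : partM π μ = π.withDensity fun z => r z.1 := rfl
  -- the quotient
  set f : X × Y → ℝ≥0∞ := fun z => g z.2 * (r z.1)⁻¹ with hf
  have hfm : Measurable f := (hgm.comp measurable_snd).mul (hrm.comp measurable_fst).inv
  have hf1 : ∫⁻ z, f z ∂(partM π μ) ≤ 1 := by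
    have hwd := lintegral_withDensity_eq_lintegral_mul π
      (f := fun z : X × Y => r z.1) (hrm.comp measurable_fst) hfm
    rw [hpart, hwd]
    calc ∫⁻ z, ((fun z : X × Y => r z.1) * f) z ∂π ≤ ∫⁻ z, g z.2 ∂π := by
          refine lintegral_mono fun z => ?_
          simp only [Pi.mul_apply, hf]
          calc r z.1 * (g z.2 * (r z.1)⁻¹) = g z.2 * (r z.1 * (r z.1)⁻¹) := by ring
            _ ≤ g z.2 * 1 := by gcongr; exact ENNReal.mul_inv_le_one _
            _ = g z.2 := mul_one _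
      _ = ∫⁻ y, g y ∂P := (lintegral_map hgm measurable_snd).symm
      _ = Q univ := by
          rw [hg, Measure.lintegral_rnDeriv h2]
      _ = 1 := measure_univ
  have hfr : Integrable (fun z => (f z).toReal) (partM π μ) :=
    integrable_toReal_of_lintegral_ne_top hfm.aemeasurable (hf1.trans_lt ENNReal.one_lt_top).ne
  have hfi : ∫ z, (f z).toReal ∂(partM π μ) ≤ 1 := by
    rw [integral_toReal hfm.aemeasurable (ae_lt_top hfm (hf1.trans_lt ENNReal.one_lt_top).ne)]
    exact ENNReal.toReal_mono ENNReal.one_ne_top hf1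
  -- the logarithms as integrals over the plan
  have j1 : Integrable (fun z : X × Y => llr μ M z.1) (partM π μ) := by
    have h3 : Integrable (llr μ M) ((partM π μ).map Prod.fst) := by rwa [hfst]
    exact h3.comp_measurable measurable_fst
  have j2 : Integrable (fun z : X × Y => llr Q P z.2) (partM π μ) :=
    i2.comp_measurable measurable_snd
  have e1 : ∫ x, llr μ M x ∂μ = ∫ z, llr μ M z.1 ∂(partM π μ) := by
    have h3 : ∫ x, llr μ M x ∂((partM π μ).map Prod.fst) = ∫ z, llr μ M z.1 ∂(partM π μ) :=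
      integral_map measurable_fst.aemeasurable (measurable_llr μ M).aestronglyMeasurable
    rwa [hfst] at h3
  have e2 : ∫ y, llr Q P y ∂Q = ∫ z, llr Q P z.2 ∂(partM π μ) := by
    rw [hQdef, integral_map measurable_snd.aemeasurable]
    exact (measurable_llr _ _).aestronglyMeasurable
  have k1 : ∀ᵐ z ∂(partM π μ), 0 < r z.1 ∧ r z.1 < ∞ := by
    have h3 : ∀ᵐ x ∂((partM π μ).map Prod.fst), 0 < r x ∧ r x < ∞ := by
      rw [hfst]
      filter_upwards [Measure.rnDeriv_pos h, h.ae_le (Measure.rnDeriv_lt_top μ M)] with x a b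
      exact ⟨a, b⟩
    exact ae_of_ae_map measurable_fst.aemeasurable h3
  have k2 : ∀ᵐ z ∂(partM π μ), 0 < g z.2 ∧ g z.2 < ∞ := by
    have h3 : ∀ᵐ y ∂Q, 0 < g y ∧ g y < ∞ := by
      filter_upwards [Measure.rnDeriv_pos h2, h2.ae_le (Measure.rnDeriv_lt_top Q P)] with x a b
      exact ⟨a, b⟩
    exact ae_of_ae_map measurable_snd.aemeasurable h3
  have k3 : ∀ᵐ z ∂(partM π μ), llr Q P z.2 - llr μ M z.1 ≤ (f z).toReal - 1 := by
    filter_upwards [k1, k2] with z a b
    have f1 : 0 < (r z.1).toReal := ENNReal.toReal_pos a.1.ne' a.2.ne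
    have f2 : 0 < (g z.2).toReal := ENNReal.toReal_pos b.1.ne' b.2.ne
    have f3 : (f z).toReal = (g z.2).toReal / (r z.1).toReal := by
      simp only [hf]
      rw [ENNReal.toReal_mul, ENNReal.toReal_inv, div_eq_mul_inv]
    have f4 : llr Q P z.2 - llr μ M z.1 = Real.log (f z).toReal := by
      rw [f3, Real.log_div f2.ne' f1.ne']
      rfl
    rw [f4, f3]
    exact Real.log_le_sub_one_of_pos (div_pos f2 f1)
  have k4 := integral_mono_ae (j2.sub j1) (hfr.sub (integrable_const (1 : ℝ))) k3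
  have k5 : ∫ z, (llr Q P z.2 - llr μ M z.1) ∂(partM π μ) =
      ∫ z, llr Q P z.2 ∂(partM π μ) - ∫ z, llr μ M z.1 ∂(partM π μ) := integral_sub j2 j1
  have k6 : ∫ z, ((f z).toReal - 1) ∂(partM π μ) = ∫ z, (f z).toReal ∂(partM π μ) - 1 := by
    rw [integral_sub hfr (integrable_const (1 : ℝ))]
    simp
  have k7 : ∫ z, (llr Q P z.2 - llr μ M z.1) ∂(partM π μ) ≤
      ∫ z, ((f z).toReal - 1) ∂(partM π μ) := k4
  rw [k5, k6] at k7
  rw [e1, e2]
  linarith

end dp

end Pool.Agent.BDRY
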