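import Pool.Agent.Work.MP_209cb6_gt.B2.BGauss

/-!
# BDRY2, SYM: exponential weights and pointwise tails from weighted `L²` bounds
-/

set_option autoImplicit false

open MeasureTheory MeasureTheory.Measure Metric Set Filter Topology
open scoped ENNReal NNReal

namespace Pool.Agent.BDRY

universe u

section expint

variable {X : Type u} [MetricSpace X] [MeasurableSpace X] [BorelSpace X] {K : ℝ} {n : ℕ}
  {m : Measure X}

/-- the threshold exponent for the integrability of `exp (-a d)` -/
noncomputable def aK (K : ℝ) (n : ℕ) : ℝ := (n + 1) * (1 + qK K (n + 1)) + 1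

theorem aK_pos (K : ℝ) (n : ℕ) : 0 < aK K n := by
  have := qK_nonneg K (n + 1)
  unfold aK
  positivity

theorem exp_lintegral_le (hK : K ≤ 0) (hX : IsRCD K (n + 1) X m) (x : X) {a : ℝ}
    (ha : aK K n ≤ a) :
    ∫⁻ y, ENNReal.ofReal (Real.exp (-a * dist x y)) ∂m ≤ 2 * m (closedBall x 1) := by
  have hq := qK_nonneg K (n + 1)
  have ha0 : 0 < a := (aK_pos K n).trans_le ha
  have hpt : ∀ y, ENNReal.ofReal (Real.exp (-a * dist x y)) ≤
      ∑' k : ℕ, (closedBall x ((k : ℝ) + 1)).indicator
        (fun _ => ENNReal.ofReal (Real.exp (-a * k))) y := by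
    intro y
    set k : ℕ := ⌊dist x y⌋₊ with hk
    have h1 : (k : ℝ) ≤ dist x y := Nat.floor_le dist_nonneg
    have h2 : dist x y < (k : ℝ) + 1 := Nat.lt_floor_add_one _
    refine le_trans ?_ (ENNReal.le_tsum k)
    have h3 : y ∈ closedBall x ((k : ℝ) + 1) := by
      rw [mem_closedBall, dist_comm]
      exact h2.le
    rw [indicator_of_mem h3]
    apply ENNReal.ofReal_le_ofReal
    rw [Real.exp_le_exp]
    nlinarith
  have hball : ∀ k : ℕ, m (closedBall x ((k : ℝ) + 1)) ≤
      ENNReal.ofReal (((k : ℝ) + 1) ^ (n + 1) * Real.exp ((n + 1) * qK K (n + 1) * k)) *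
        m (closedBall x 1) := by
    intro k
    have hk : (0 : ℝ) ≤ k := Nat.cast_nonneg k
    refine (bg_closedBall' hK hX x one_pos (R := (k : ℝ) + 1) (by linarith)).trans ?_
    rw [div_one, add_sub_cancel_right]
  have hterm : ∀ k : ℕ, Real.exp (-a * k) * (((k : ℝ) + 1) ^ (n + 1) *
      Real.exp ((n + 1) * qK K (n + 1) * k)) ≤ Real.exp (-1) ^ k := by
    intro k
    have hk : (0 : ℝ) ≤ k := Nat.cast_nonneg k
    have h1 : ((k : ℝ) + 1) ^ (n + 1) ≤ Real.exp ((n + 1) * k) := by
      have h2 : (k : ℝ) + 1 ≤ Real.exp k := Real.add_one_le_exp _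
      calc ((k : ℝ) + 1) ^ (n + 1) ≤ Real.exp k ^ (n + 1) := pow_le_pow_left₀ (by positivity) h2 _
        _ = Real.exp ((n + 1) * k) := by
          rw [← Real.exp_nat_mul]
          push_cast
          rfl
    calc Real.exp (-a * k) * (((k : ℝ) + 1) ^ (n + 1) * Real.exp ((n + 1) * qK K (n + 1) * k))
        ≤ Real.exp (-a * k) * (Real.exp ((n + 1) * k) *
            Real.exp ((n + 1) * qK K (n + 1) * k)) := by gcongr
      _ = Real.exp (-a * k + ((n + 1) * k + (n + 1) * qK K (n + 1) * k)) := by
          rw [← Real.exp_add, ← Real.exp_add]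
      _ ≤ Real.exp (k * (-1)) := by
          rw [Real.exp_le_exp]
          unfold aK at ha
          have : ((n : ℝ) + 1) * (1 + qK K (n + 1)) * k + 1 * k ≤ a * k := by
            rw [← add_mul]
            gcongr
          nlinarith
      _ = Real.exp (-1) ^ k := Real.exp_nat_mul _ _
  calc ∫⁻ y, ENNReal.ofReal (Real.exp (-a * dist x y)) ∂m
      ≤ ∫⁻ y, ∑' k : ℕ, (closedBall x ((k : ℝ) + 1)).indicator
        (fun _ => ENNReal.ofReal (Real.exp (-a * k))) y ∂m := lintegral_mono hpt
    _ = ∑' k : ℕ, ENNReal.ofReal (Real.exp (-a * k)) * m (closedBall x ((k : ℝ) + 1)) := by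
        rw [lintegral_tsum fun k =>
          (measurable_const.indicator isClosed_closedBall.measurableSet).aemeasurable]
        refine tsum_congr fun k => ?_
        rw [lintegral_indicator_const isClosed_closedBall.measurableSet]
    _ ≤ ∑' k : ℕ, ENNReal.ofReal (Real.exp (-1) ^ k) * m (closedBall x 1) := by
        refine ENNReal.tsum_le_tsum fun k => ?_
        calc ENNReal.ofReal (Real.exp (-a * k)) * m (closedBall x ((k : ℝ) + 1))
            ≤ ENNReal.ofReal (Real.exp (-a * k)) *
              (ENNReal.ofReal (((k : ℝ) + 1) ^ (n + 1) *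
                Real.exp ((n + 1) * qK K (n + 1) * k)) * m (closedBall x 1)) := by
              gcongr
              exact hball k
          _ = ENNReal.ofReal (Real.exp (-a * k) * (((k : ℝ) + 1) ^ (n + 1) *
                Real.exp ((n + 1) * qK K (n + 1) * k))) * m (closedBall x 1) := by
              rw [← mul_assoc, ← ENNReal.ofReal_mul (Real.exp_pos _).le]
          _ ≤ _ := mul_le_mul' (ENNReal.ofReal_le_ofReal (hterm k)) le_rfl
    _ = ENNReal.ofReal (∑' k : ℕ, Real.exp (-1) ^ k) * m (closedBall x 1) := by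
        have hs : Summable fun k : ℕ => Real.exp (-1) ^ k :=
          summable_geometric_of_lt_one (Real.exp_pos _).le
            (lt_of_le_of_lt exp_neg_one_le (by norm_num))
        rw [ENNReal.tsum_mul_right,
          ENNReal.ofReal_tsum_of_nonneg (fun k => by positivity) hs]
    _ ≤ 2 * m (closedBall x 1) := by
        gcongr ?_ * _
        rw [tsum_geometric_of_lt_one (Real.exp_pos _).le
          (lt_of_le_of_lt exp_neg_one_le (by norm_num))]
        have h1 := exp_neg_one_le
        calc ENNReal.ofReal (1 - Real.exp (-1))⁻¹ ≤ ENNReal.ofReal 2 := by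
              apply ENNReal.ofReal_le_ofReal
              calc (1 - Real.exp (-1))⁻¹ ≤ (1 / 2 : ℝ)⁻¹ := inv_anti₀ (by norm_num) (by linarith)
                _ = 2 := by norm_num
          _ = 2 := by simp

theorem exp_integrable (hK : K ≤ 0) (hX : IsRCD K (n + 1) X m) (x : X) {a : ℝ}
    (ha : aK K n ≤ a) : Integrable (fun y => Real.exp (-a * dist x y)) m := by
  refine ⟨by fun_prop, ?_⟩
  rw [hasFiniteIntegral_iff_ofReal (ae_of_all _ fun y => (Real.exp_pos _).le)]
  refine (exp_lintegral_le hK hX x ha).trans_lt ?_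
  exact ENNReal.mul_lt_top (by norm_num) (hX.finite_ball x 1)

theorem exp_integral_le (hK : K ≤ 0) (hX : IsRCD K (n + 1) X m) (x : X) {a : ℝ}
    (ha : aK K n ≤ a) : ∫ y, Real.exp (-a * dist x y) ∂m ≤ 2 * m.real (closedBall x 1) := by
  rw [integral_eq_lintegral_of_nonneg_ae (ae_of_all _ fun y => (Real.exp_pos _).le)
    (by fun_prop)]
  have h1 := exp_lintegral_le hK hX x ha
  refine (ENNReal.toReal_mono ?_ h1).trans (le_of_eq ?_)
  · exact (ENNReal.mul_lt_top (by norm_num) (hX.finite_ball x 1)).ne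
  · rw [ENNReal.toReal_mul]
    rfl

/-- Integrability of powers of the distance against exponential weights. -/
theorem pow_exp_integrable (hK : K ≤ 0) (hX : IsRCD K (n + 1) X m) (x : X) (k : ℕ) {a : ℝ}
    (ha : aK K n < a) : Integrable (fun y => dist x y ^ k * Real.exp (-a * dist x y)) m := by
  have hd : 0 < a - aK K n := by linarith
  set c := (a - aK K n) with hc
  refine Integrable.mono' ((exp_integrable hK hX x le_rfl).const_mul (k.factorial / c ^ k))
    (by fun_prop) (ae_of_all _ fun y => ?_)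
  rw [Real.norm_of_nonneg (by positivity)]
  have h0 : 0 ≤ dist x y := dist_nonneg
  have h1 : (c * dist x y) ^ k / k.factorial ≤ Real.exp (c * dist x y) :=
    Real.pow_div_factorial_le_exp _ (by positivity) k
  have h2 : dist x y ^ k ≤ k.factorial / c ^ k * Real.exp (c * dist x y) := by
    rw [div_le_iff₀ (by positivity), mul_pow] at h1
    rw [div_mul_eq_mul_div, le_div_iff₀ (by positivity)]
    linarith
  calc dist x y ^ k * Real.exp (-a * dist x y)
      ≤ (k.factorial / c ^ k * Real.exp (c * dist x y)) * Real.exp (-a * dist x y) := by gcongr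
    _ = k.factorial / c ^ k * Real.exp (-aK K n * dist x y) := by
        rw [mul_assoc, ← Real.exp_add]
        congr 2
        rw [hc]
        ring

/-- volume of unit balls decays at most exponentially -/
theorem ball_lower (hK : K ≤ 0) (hX : IsRCD K (n + 1) X m) (o x : X) {ρ : ℝ} (hρ : 0 < ρ)
    (hρ1 : ρ ≤ 1) :
    ρ ^ (n + 1) * Real.exp (-((n + 1) * qK K (n + 1))) *
        Real.exp (-((n + 1) * (1 + qK K (n + 1))) * dist o x) * m.real (closedBall o 1) ≤
      m.real (closedBall x ρ) := by
  have hq := qK_nonneg K (n + 1)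
  have hd : 0 ≤ dist o x := dist_nonneg
  set d := dist o x with hdd
  set q := qK K (n + 1) with hqq
  have h1 : m.real (closedBall o 1) ≤ m.real (closedBall x (1 + d)) := by
    refine measureReal_mono (closedBall_subset_closedBall' ?_) (hX.finite_ball x _).ne
    linarith
  have h2 := bg_closedBall hK hX x (r := ρ) (R := 1 + d) hρ (by linarith)
  have h3 : ((1 + d) / ρ) ^ (n + 1) * Real.exp ((n + 1) * q * (1 + d - ρ)) ≤
      (Real.exp d) ^ (n + 1) / ρ ^ (n + 1) * Real.exp ((n + 1) * q * (1 + d)) := by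
    rw [div_pow]
    have e1 : 1 + d ≤ Real.exp d := by
      have := Real.add_one_le_exp d
      linarith
    gcongr
    linarith
  have hm0 : 0 ≤ m.real (closedBall x ρ) := measureReal_nonneg
  have h4 : m.real (closedBall o 1) ≤
      (Real.exp d) ^ (n + 1) / ρ ^ (n + 1) * Real.exp ((n + 1) * q * (1 + d)) *
        m.real (closedBall x ρ) := (h1.trans h2).trans (mul_le_mul_of_nonneg_right h3 hm0)
  have e2 : Real.exp (-((n + 1) * q)) * Real.exp (-((n + 1) * (1 + q)) * d) *
      ((Real.exp d) ^ (n + 1) * Real.exp ((n + 1) * q * (1 + d))) = 1 := by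
    rw [← Real.exp_nat_mul, ← Real.exp_add, ← Real.exp_add, ← Real.exp_add, Real.exp_eq_one_iff]
    push_cast
    ring
  calc ρ ^ (n + 1) * Real.exp (-((n + 1) * q)) * Real.exp (-((n + 1) * (1 + q)) * d) *
        m.real (closedBall o 1)
      ≤ ρ ^ (n + 1) * Real.exp (-((n + 1) * q)) * Real.exp (-((n + 1) * (1 + q)) * d) *
        ((Real.exp d) ^ (n + 1) / ρ ^ (n + 1) * Real.exp ((n + 1) * q * (1 + d)) *
        m.real (closedBall x ρ)) := by gcongr
    _ = (Real.exp (-((n + 1) * q)) * Real.exp (-((n + 1) * (1 + q)) * d) *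
      ((Real.exp d) ^ (n + 1) * Real.exp ((n + 1) * q * (1 + d)))) *
        m.real (closedBall x ρ) := by field_simp
    _ = m.real (closedBall x ρ) := by rw [e2, one_mul]

/-- the exponent of the weight which gives the decay rate `b` -/
noncomputable def aT (K : ℝ) (n : ℕ) (b : ℝ) : ℝ :=
  (n + 3) * b + (n + 1) * (1 + qK K (n + 1))

/-- **Pointwise tails from weighted `L²` bounds.** -/
theorem tail_of_weight (hK : K ≤ 0) (hX : IsRCD K (n + 1) X m) (o : X) {L D b : ℝ} (hL : 0 ≤ L)
    (hD : 0 ≤ D) (hb : 0 ≤ b) : ∃ C : ℝ, 0 ≤ C ∧ ∀ u : X → ℝ, (∀ x, 0 ≤ u x) →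
      (∀ x y, |u x - u y| ≤ L * dist x y) →
      (∀ x, ∫⁻ y, ENNReal.ofReal (u y ^ 2 * Real.exp (-aT K n b * dist x y)) ∂m ≤
        ENNReal.ofReal (D * Real.exp (-aT K n b * dist o x))) →
      ∀ x, u x ≤ C * Real.exp (-b * dist o x) := by
  have hq := qK_nonneg K (n + 1)
  set q := qK K (n + 1) with hqq
  set a := aT K n b with haa
  have ha0 : 0 ≤ a := by
    rw [haa, aT]
    positivity
  set μ₁ := m.real (closedBall o 1) with hμ₁
  have hμ₁0 : 0 < μ₁ := by
    have h1 : 0 < m (closedBall o 1) :=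
      (hX.pos_ball o 1 one_pos).trans_le (measure_mono ball_subset_closedBall)
    exact ENNReal.toReal_pos h1.ne' (hX.finite_ball o 1).ne
  set C₁ : ℝ := 4 * D * Real.exp a * Real.exp ((n + 1) * q) / μ₁ with hC₁
  have hC₁0 : 0 ≤ C₁ := by positivity
  set L' : ℝ := L + 1 with hL'
  have hL'0 : 0 < L' := by positivity
  refine ⟨1 + C₁ + (2 * L') ^ (n + 1) * C₁, by positivity, fun u hu hlip hint x => ?_⟩
  set C : ℝ := 1 + C₁ + (2 * L') ^ (n + 1) * C₁ with hC
  have hC1 : 1 ≤ C := by
    have : 0 ≤ (2 * L') ^ (n + 1) * C₁ := by positivity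
    linarith
  set d := dist o x with hdd
  have hd : 0 ≤ d := dist_nonneg
  set v := u x with hv
  have hv0 : 0 ≤ v := hu x
  rcases hv0.eq_or_lt with h0 | hvp
  · rw [← h0]
    positivity
  -- the key inequality for a radius `ρ`
  have key : ∀ ρ : ℝ, 0 < ρ → ρ ≤ 1 → L * ρ ≤ v / 2 →
      v ^ 2 * ρ ^ (n + 1) ≤ C₁ * Real.exp (-(n + 3) * b * d) := by
    intro ρ hρ hρ1 hLρ
    have h1 : ENNReal.ofReal ((v / 2) ^ 2 * Real.exp (-a)) * m (closedBall x ρ) ≤
        ENNReal.ofReal (D * Real.exp (-a * d)) := by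
      refine le_trans ?_ (hint x)
      rw [← setLIntegral_const]
      refine le_trans (setLIntegral_mono' isClosed_closedBall.measurableSet fun y hy => ?_)
        (setLIntegral_le_lintegral _ _)
      apply ENNReal.ofReal_le_ofReal
      have h2 : dist x y ≤ ρ := by
        rw [dist_comm]
        exact hy
      have h3 := hlip x y
      have h4 : v - u y ≤ L * dist x y := (le_abs_self _).trans h3
      have h5 : L * dist x y ≤ L * ρ := by gcongr
      have h6 : v / 2 ≤ u y := by linarith
      gcongr ?_ * ?_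
      · exact pow_le_pow_left₀ (by linarith) h6 2
      · rw [Real.exp_le_exp]
        nlinarith [dist_nonneg (x := x) (y := y)]
    have h2 : (v / 2) ^ 2 * Real.exp (-a) * m.real (closedBall x ρ) ≤ D * Real.exp (-a * d) := by
      have h3 := ENNReal.toReal_mono ENNReal.ofReal_ne_top h1
      rwa [ENNReal.toReal_mul, ENNReal.toReal_ofReal (by positivity),
        ENNReal.toReal_ofReal (by positivity)] at h3
    have h3 := ball_lower hK hX o x hρ hρ1
    rw [← hqq, ← hdd, ← hμ₁] at h3
    have h4 : (v / 2) ^ 2 * Real.exp (-a) * (ρ ^ (n + 1) * Real.exp (-((n + 1) * q)) *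
        Real.exp (-((n + 1) * (1 + q)) * d) * μ₁) ≤ D * Real.exp (-a * d) :=
      (mul_le_mul_of_nonneg_left h3 (by positivity)).trans h2
    have e1 : Real.exp (-a) * Real.exp a = 1 := by
      rw [← Real.exp_add]
      simp
    have e2 : Real.exp (-((n + 1) * q)) * Real.exp ((n + 1) * q) = 1 := by
      rw [← Real.exp_add]
      simp
    have e3 : Real.exp (-((n + 1) * (1 + q)) * d) * Real.exp ((n + 1) * (1 + q) * d) = 1 := by
      rw [← Real.exp_add, Real.exp_eq_one_iff]
      ring
    have e4 : Real.exp (-a * d) * Real.exp ((n + 1) * (1 + q) * d) =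
        Real.exp (-(n + 3) * b * d) := by
      rw [← Real.exp_add]
      congr 1
      rw [haa, aT, ← hqq]
      ring
    calc v ^ 2 * ρ ^ (n + 1)
        = (v / 2) ^ 2 * Real.exp (-a) * (ρ ^ (n + 1) * Real.exp (-((n + 1) * q)) *
          Real.exp (-((n + 1) * (1 + q)) * d) * μ₁) *
          (4 * Real.exp a * Real.exp ((n + 1) * q) * Real.exp ((n + 1) * (1 + q) * d) / μ₁) := by
          have : v ^ 2 * ρ ^ (n + 1) = v ^ 2 * ρ ^ (n + 1) * ((Real.exp (-a) * Real.exp a) *
            (Real.exp (-((n + 1) * q)) * Real.exp ((n + 1) * q)) *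
            (Real.exp (-((n + 1) * (1 + q)) * d) * Real.exp ((n + 1) * (1 + q) * d))) := by
            rw [e1, e2, e3]
            ring
          rw [this]
          field_simp
          ring
      _ ≤ D * Real.exp (-a * d) *
          (4 * Real.exp a * Real.exp ((n + 1) * q) * Real.exp ((n + 1) * (1 + q) * d) / μ₁) :=
          mul_le_mul_of_nonneg_right h4 (by positivity)
      _ = C₁ * (Real.exp (-a * d) * Real.exp ((n + 1) * (1 + q) * d)) := by
          rw [hC₁]
          field_simp
      _ = _ := by rw [e4]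
  have he : ∀ k : ℕ, Real.exp (-b * d) ^ k = Real.exp (-(k : ℝ) * b * d) := by
    intro k
    rw [← Real.exp_nat_mul]
    congr 1
    ring
  have hE0 : 0 < Real.exp (-b * d) := Real.exp_pos _
  have hE1 : Real.exp (-b * d) ≤ 1 := by
    rw [Real.exp_le_one_iff]
    nlinarith
  by_contra hcon
  push Not at hcon
  rcases le_total (v / (2 * L')) 1 with hcase | hcase
  · have hρ : 0 < v / (2 * L') := by positivity
    have h1 := key (v / (2 * L')) hρ hcase (by
      rw [mul_div_assoc', div_le_div_iff₀ (by positivity) (by positivity)]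
      nlinarith)
    have h2 : v ^ 2 * (v / (2 * L')) ^ (n + 1) * (2 * L') ^ (n + 1) = v ^ (n + 3) := by
      rw [div_pow, pow_add v n 3, pow_add v n 1]
      field_simp
    have h3 : v ^ (n + 3) ≤ (2 * L') ^ (n + 1) * C₁ * Real.exp (-b * d) ^ (n + 3) := by
      rw [← h2, he]
      push_cast
      calc _ ≤ C₁ * Real.exp (-(n + 3) * b * d) * (2 * L') ^ (n + 1) := by gcongr
        _ = _ := by ring
    have h4 : C ^ (n + 3) * Real.exp (-b * d) ^ (n + 3) < v ^ (n + 3) := by
      rw [← mul_pow]
      exact pow_lt_pow_left₀ hcon (by positivity) (by omega)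
    have h5 : C ≤ C ^ (n + 3) := le_self_pow₀ hC1 (by omega)
    have h6 : (2 * L') ^ (n + 1) * C₁ ≤ C := by
      rw [hC]
      linarith
    have h7 : (2 * L') ^ (n + 1) * C₁ * Real.exp (-b * d) ^ (n + 3) ≤
        C ^ (n + 3) * Real.exp (-b * d) ^ (n + 3) := by
      gcongr
      exact h6.trans h5
    linarith
  · have h1 := key 1 one_pos le_rfl (by
      rw [le_div_iff₀ (by positivity)] at hcase
      nlinarith)
    rw [one_pow, mul_one] at h1
    have h2 : C ^ 2 * Real.exp (-b * d) ^ 2 < v ^ 2 := by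
      rw [← mul_pow]
      exact pow_lt_pow_left₀ hcon (by positivity) (by omega)
    have h3 : C₁ ≤ C ^ 2 := by
      have h5 : C ≤ C ^ 2 := le_self_pow₀ hC1 (by omega)
      have h6 : 0 ≤ (2 * L') ^ (n + 1) * C₁ := by positivity
      have h7 : C₁ ≤ C := by
        rw [hC]
        linarith
      exact h7.trans h5
    have h4 : Real.exp (-(n + 3) * b * d) ≤ Real.exp (-b * d) ^ 2 := by
      rw [he, Real.exp_le_exp]
      push_cast
      have : 0 ≤ b * d := by positivity
      have hn : (0 : ℝ) ≤ n := Nat.cast_nonneg n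
      nlinarith [mul_nonneg hn this]
    have h5 : C₁ * Real.exp (-(n + 3) * b * d) ≤ C ^ 2 * Real.exp (-b * d) ^ 2 := by
      gcongr
    linarith

end expint

end Pool.Agent.BDRY
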