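import Pool.Agent.Work.MP_209cb6_gt.Defs

/-!
# RCD(K,N) spaces for every real `K`
-/

set_option autoImplicit false

open MeasureTheory MeasureTheory.Measure Metric Set Filter Topology
open scoped ENNReal NNReal

namespace Pool.Agent.BDRY

noncomputable section

universe u

/-- The function `s_κ` for every real `κ`: `sinh (√(-κ) x) / √(-κ)` for `κ < 0`, `x` for `κ = 0`
and `sin (√κ x) / √κ` for `κ > 0`. -/
def sG (κ x : ℝ) : ℝ :=
  if κ < 0 then Real.sinh (√(-κ) * x) / √(-κ) else
  if κ = 0 then x else Real.sin (√κ * x) / √κ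

/-- `μ` is an `EVI_{K,N}` gradient flow of the relative entropy `Ent_m` (Erbar-Kuwada-Sturm), for
every real `K`, in integrated form; the observers `σ` are the measures of finite entropy. -/
structure IsEVIFlowG {X : Type u} [MetricSpace X] [MeasurableSpace X] (K : ℝ) (N : ℕ)
    (m : Measure X) (μ : ℝ → Measure X) : Prop where
  p2 : ∀ t, 0 ≤ t → IsP2 (μ t)
  cont : ∀ t, 0 ≤ t → Tendsto (fun s => W2 (μ s) (μ t)) (𝓝[Ici 0] t) (𝓝 0)
  dom : ∀ t, 0 < t → 0 < UN N m (μ t)
  int : ∀ s t, 0 < s → s ≤ t → IntervalIntegrable (fun v => (UN N m (μ v))⁻¹) volume s t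
  evi : ∀ σ : Measure X, IsP2 σ → 0 < UN N m σ → ∀ s t, 0 < s → s ≤ t →
    Real.exp (K * t) * sG (K / N) (W2 (μ t) σ / 2) ^ 2
        - Real.exp (K * s) * sG (K / N) (W2 (μ s) σ / 2) ^ 2
      ≤ N / 2 * ∫ v in s..t, Real.exp (K * v) * (1 - UN N m σ / UN N m (μ v))

/-- `(X,d,m)` is an `RCD(K,N)` space, `K` any real number, by the `EVI_{K,N}` characterisation of
Erbar-Kuwada-Sturm: complete, separable (here: proper) geodesic space, `m` finite on balls, of full
support and with Gaussian integrability, and every probability measure with finite second moment is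
the starting point of an `EVI_{K,N}` flow of the entropy. -/
structure IsRCDG (K : ℝ) (N : ℕ) (X : Type u) [MetricSpace X] [MeasurableSpace X]
    (m : Measure X) : Prop where
  proper : ProperSpace X
  geod : Geod X
  finite_ball : ∀ (x : X) (r : ℝ), m (closedBall x r) < ∞
  pos_ball : ∀ (x : X) (r : ℝ), 0 < r → 0 < m (ball x r)
  exp_int : ∃ (x : X) (c : ℝ), 0 < c ∧ ∫⁻ y, ENNReal.ofReal (Real.exp (-c * dist x y ^ 2)) ∂m < ∞
  flow : ∀ μ₀ : Measure X, IsP2 μ₀ → ∃ μ : ℝ → Measure X, μ 0 = μ₀ ∧ IsEVIFlowG K N m μ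

end

end Pool.Agent.BDRY
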