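import Pool.Agent.Work.MP_209cb6_gt.B2.GaussInt
import Pool.Agent.Work.MP_209cb6_gt.B2.Aff

/-!
# Gaussian measures on `E n` and the transfer of a function to a chart (module M11)
-/

set_option autoImplicit false

open MeasureTheory MeasureTheory.Measure Metric Set Filter Topology
open scoped ENNReal NNReal InnerProductSpace

namespace Pool.Agent.BDRY

noncomputable section

universe u

/-! ## The Gaussian measure -/

/-- the Gaussian density at time `T` -/
def gamD (n : ℕ) (T : ℝ) (x : E n) : ℝ :=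
  ((4 * Real.pi * T) ^ (((n + 1 : ℕ) : ℝ) / 2))⁻¹ * Real.exp (-‖x‖ ^ 2 / (4 * T))

/-- the centred Gaussian measure at time `T` (density `(4πT)^(-N/2) exp(-|x|²/4T)`) -/
def gamE (n : ℕ) (T : ℝ) : Measure (E n) :=
  volume.withDensity fun x => ENNReal.ofReal (gamD n T x)

variable {n : ℕ} {T : ℝ}

theorem gamD_nonneg (hT : 0 < T) (x : E n) : 0 ≤ gamD n T x := by
  rw [gamD]; positivity

theorem gamD_pos (hT : 0 < T) (x : E n) : 0 < gamD n T x := by
  rw [gamD]; positivity

theorem continuous_gamD (n : ℕ) (T : ℝ) : Continuous (gamD n T) := by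
  unfold gamD; fun_prop

theorem integrable_gauss (n : ℕ) {b : ℝ} (hb : 0 < b) :
    Integrable fun y : E n => Real.exp (-b * ‖y‖ ^ 2) := by
  have h3 := GaussianFourier.integral_rexp_neg_mul_sq_norm (V := E n) (b := b) hb
  by_contra hc
  rw [integral_undef hc] at h3
  have : 0 < (Real.pi / b) ^ ((Module.finrank ℝ (E n) : ℝ) / 2) := by positivity
  linarith

theorem gamD_eq (hT : 0 < T) (x : E n) :
    gamD n T x = ((4 * Real.pi * T) ^ (((n + 1 : ℕ) : ℝ) / 2))⁻¹ *
      Real.exp (-(1 / (4 * T)) * ‖x‖ ^ 2) := by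
  rw [gamD]; congr 2; field_simp

theorem integrable_gamD (hT : 0 < T) : Integrable (gamD n T) := by
  have := (integrable_gauss n (b := 1 / (4 * T)) (by positivity)).const_mul
    (((4 * Real.pi * T) ^ (((n + 1 : ℕ) : ℝ) / 2))⁻¹)
  refine this.congr (Eventually.of_forall fun x => ?_)
  simp only [gamD_eq hT]

theorem integral_gamD (hT : 0 < T) : ∫ x, gamD n T x = 1 := by
  simp only [gamD_eq hT]
  rw [integral_const_mul, GaussianFourier.integral_rexp_neg_mul_sq_norm (by positivity)]
  have h1 : Real.pi / (1 / (4 * T)) = 4 * Real.pi * T := by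
    rw [div_div_eq_mul_div, div_one]; ring
  rw [h1]
  have h2 : (Module.finrank ℝ (E n) : ℝ) = ((n + 1 : ℕ) : ℝ) := by simp
  rw [h2]
  exact inv_mul_cancel₀ (by positivity)

theorem isProb_gamE (hT : 0 < T) : IsProbabilityMeasure (gamE n T) := by
  constructor
  rw [gamE, withDensity_apply _ MeasurableSet.univ, Measure.restrict_univ,
    ← ofReal_integral_eq_lintegral_ofReal (integrable_gamD hT)
      (Eventually.of_forall (gamD_nonneg hT)), integral_gamD hT, ENNReal.ofReal_one]

theorem integral_gamE (hT : 0 < T) (f : E n → ℝ) :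
    ∫ x, f x ∂(gamE n T) = ∫ x, gamD n T x * f x := by
  rw [gamE, integral_withDensity_eq_integral_toReal_smul₀]
  · refine integral_congr_ae (Eventually.of_forall fun x => ?_)
    simp only [smul_eq_mul]
    rw [ENNReal.toReal_ofReal (gamD_nonneg hT x)]
  · exact (continuous_gamD n T).measurable.ennreal_ofReal.aemeasurable
  · exact Eventually.of_forall fun x => ENNReal.ofReal_lt_top

theorem integrable_gamE_iff (hT : 0 < T) (f : E n → ℝ) :
    Integrable f (gamE n T) ↔ Integrable (fun x => gamD n T x * f x) := by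
  rw [gamE, integrable_withDensity_iff_integrable_smul₀']
  · refine integrable_congr (Eventually.of_forall fun x => ?_)
    simp only [smul_eq_mul]
    rw [ENNReal.toReal_ofReal (gamD_nonneg hT x)]
  · exact (continuous_gamD n T).measurable.ennreal_ofReal.aemeasurable
  · exact Eventually.of_forall fun x => ENNReal.ofReal_lt_top

theorem gamE_ball_ge (hT : 0 < T) (x : E n) {s : ℝ} (hs : 0 < s) :
    omN n * s ^ (n + 1) * (((4 * Real.pi * T) ^ (((n + 1 : ℕ) : ℝ) / 2))⁻¹ *
      Real.exp (-(‖x‖ + s) ^ 2 / (4 * T))) ≤ (gamE n T).real (ball x s) := by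
  have hP := isProb_gamE (n := n) hT
  set c : ℝ := ((4 * Real.pi * T) ^ (((n + 1 : ℕ) : ℝ) / 2))⁻¹ *
      Real.exp (-(‖x‖ + s) ^ 2 / (4 * T)) with hc
  have hc0 : 0 ≤ c := by rw [hc]; positivity
  rw [Measure.real, gamE, withDensity_apply _ measurableSet_ball]
  have h1 : ENNReal.ofReal (omN n * s ^ (n + 1) * c) ≤
      ∫⁻ z in ball x s, ENNReal.ofReal (gamD n T z) := by
    calc ENNReal.ofReal (omN n * s ^ (n + 1) * c)
        = ∫⁻ z in ball x s, ENNReal.ofReal c := by
          rw [setLIntegral_const, Measure.addHaar_ball_center,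
            volume_ball_E n hs.le, mul_comm (omN n * s ^ (n + 1)) c, ENNReal.ofReal_mul hc0]
      _ ≤ ∫⁻ z in ball x s, ENNReal.ofReal (gamD n T z) := by
          refine setLIntegral_mono' measurableSet_ball fun z hz => ?_
          refine ENNReal.ofReal_le_ofReal ?_
          rw [hc, gamD]
          refine mul_le_mul_of_nonneg_left ?_ (by positivity)
          refine Real.exp_le_exp.2 ?_
          have hz' : ‖z‖ ≤ ‖x‖ + s := by
            have h2 : dist z x < s := hz
            rw [dist_eq_norm] at h2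
            have h3 := norm_add_le (z - x) x
            rw [sub_add_cancel] at h3
            linarith
          have h4 : ‖z‖ ^ 2 ≤ (‖x‖ + s) ^ 2 := pow_le_pow_left₀ (norm_nonneg _) hz' 2
          rw [neg_div, neg_div]
          refine neg_le_neg ?_
          exact div_le_div_of_nonneg_right h4 (by positivity)
  refine (ENNReal.ofReal_le_iff_le_toReal ?_).1 h1
  rw [← withDensity_apply _ measurableSet_ball]
  have := measure_lt_top (gamE n T) (ball x s)
  rw [gamE] at this
  exact this.ne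

theorem integrable_norm_gamE (hT : 0 < T) : Integrable (fun x : E n => ‖x‖) (gamE n T) := by
  rw [integrable_gamE_iff hT]
  -- |x| exp(-|x|²/4T) ≤ C exp(-|x|²/8T)
  have h1 := (integrable_gauss n (b := 1 / (8 * T)) (by positivity)).const_mul
    (((4 * Real.pi * T) ^ (((n + 1 : ℕ) : ℝ) / 2))⁻¹ * (1 + 8 * T))
  refine h1.mono' ((continuous_gamD n T).mul continuous_norm).aestronglyMeasurable
    (Eventually.of_forall fun x => ?_)
  set c : ℝ := ((4 * Real.pi * T) ^ (((n + 1 : ℕ) : ℝ) / 2))⁻¹ with hc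
  have hc0 : 0 ≤ c := by rw [hc]; positivity
  set s := ‖x‖ ^ 2 with hs
  have e1 : -(1 / (4 * T)) * s = -(1 / (8 * T)) * s + -(1 / (8 * T)) * s := by
    field_simp; ring
  have h2 : ‖x‖ ≤ 1 + s := by
    rw [hs]; nlinarith [sq_nonneg (‖x‖ - 1), norm_nonneg x]
  have hs0 : 0 ≤ s := by rw [hs]; positivity
  have h3 : Real.exp (-(1 / (8 * T)) * s) * (1 + s) ≤ 1 + 8 * T := by
    have h4 : 1 + (1 / (8 * T)) * s ≤ Real.exp ((1 / (8 * T)) * s) := by
      have := Real.add_one_le_exp ((1 / (8 * T)) * s); linarith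
    have h5 : Real.exp (-(1 / (8 * T)) * s) = (Real.exp ((1 / (8 * T)) * s))⁻¹ := by
      rw [← Real.exp_neg]; congr 1; ring
    rw [h5, inv_mul_le_iff₀ (Real.exp_pos _)]
    have h6 : 1 + s ≤ (1 + (1 / (8 * T)) * s) * (1 + 8 * T) := by
      have : (1 + (1 / (8 * T)) * s) * (1 + 8 * T) = 1 + s + 8 * T + (1 / (8 * T)) * s := by
        field_simp; ring
      rw [this]
      have : 0 ≤ (1 / (8 * T)) * s := by positivity
      linarith
    exact h6.trans (mul_le_mul_of_nonneg_right h4 (by positivity))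
  have hkey : Real.exp (-(1 / (4 * T)) * s) * ‖x‖ ≤
      (1 + 8 * T) * Real.exp (-(1 / (8 * T)) * s) := by
    rw [e1, Real.exp_add]
    calc Real.exp (-(1 / (8 * T)) * s) * Real.exp (-(1 / (8 * T)) * s) * ‖x‖
        ≤ Real.exp (-(1 / (8 * T)) * s) * Real.exp (-(1 / (8 * T)) * s) * (1 + s) :=
          mul_le_mul_of_nonneg_left h2 (by positivity)
      _ = (Real.exp (-(1 / (8 * T)) * s) * (1 + s)) * Real.exp (-(1 / (8 * T)) * s) := by ring
      _ ≤ (1 + 8 * T) * Real.exp (-(1 / (8 * T)) * s) :=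
          mul_le_mul_of_nonneg_right h3 (Real.exp_pos _).le
  calc ‖gamD n T x * ‖x‖‖ = gamD n T x * ‖x‖ := by
        rw [Real.norm_eq_abs, abs_of_nonneg (mul_nonneg (gamD_nonneg hT x) (norm_nonneg x))]
    _ = c * (Real.exp (-(1 / (4 * T)) * s) * ‖x‖) := by rw [gamD_eq hT]; ring
    _ ≤ c * ((1 + 8 * T) * Real.exp (-(1 / (8 * T)) * s)) := mul_le_mul_of_nonneg_left hkey hc0
    _ = c * (1 + 8 * T) * Real.exp (-(1 / (8 * T)) * s) := by ring

theorem integrable_lip_gamE (hT : 0 < T) {f : E n → ℝ} {L : ℝ≥0} (hf : LipschitzWith L f) :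
    Integrable f (gamE n T) := by
  have hP := isProb_gamE (n := n) hT
  have h1 : Integrable (fun x : E n => |f 0| + L * ‖x‖) (gamE n T) :=
    (integrable_const _).add ((integrable_norm_gamE hT).const_mul _)
  refine h1.mono' hf.continuous.aestronglyMeasurable (Eventually.of_forall fun x => ?_)
  have h2 := hf.dist_le_mul x 0
  rw [Real.dist_eq, dist_zero_right] at h2
  rw [Real.norm_eq_abs]
  have h3 := abs_sub_abs_le_abs_sub (f x) (f 0)
  linarith

/-! ## Transfer of a 1-Lipschitz function to a chart -/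

section bT

variable {X : Type u} [MetricSpace X]

/-- the function `b` transferred to `E n` by the chart `ψ` of the ball `closedBall y R` -/
def bT (y : X) (R : ℝ) (ψ : X → E n) (b : X → ℝ) (x : E n) : ℝ :=
  ⨅ c : closedBall y R, (b c + dist (ψ c) x)

theorem bT_bdd {y : X} {R : ℝ} (ψ : X → E n) {b : X → ℝ} (hb : LipschitzWith 1 b) (x : E n) :
    BddBelow (range fun c : closedBall y R => b c + dist (ψ c) x) := by
  refine ⟨b y - R, ?_⟩
  rintro _ ⟨c, rfl⟩
  have h1 := lip1 hb y c
  have h2 : dist y (c : X) ≤ R := by rw [dist_comm]; exact c.2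
  have h3 : 0 ≤ dist (ψ c) x := dist_nonneg
  simp only; linarith

theorem bT_lip {y : X} {R : ℝ} (hR : 0 ≤ R) (ψ : X → E n) {b : X → ℝ} (hb : LipschitzWith 1 b) :
    LipschitzWith 1 (bT y R ψ b) := by
  have : Nonempty (closedBall y R) := ⟨⟨y, mem_closedBall_self hR⟩⟩
  refine LipschitzWith.of_le_add fun x x' => ?_
  rw [← _root_.sub_le_iff_le_add]
  refine le_ciInf fun c => ?_
  rw [_root_.sub_le_iff_le_add]
  refine (ciInf_le (bT_bdd ψ hb x) c).trans ?_
  have := dist_triangle (ψ c) x' x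
  rw [dist_comm x' x] at this
  linarith

theorem bT_le {y : X} {R : ℝ} (ψ : X → E n) {b : X → ℝ} (hb : LipschitzWith 1 b) {c : X}
    (hc : c ∈ closedBall y R) : bT y R ψ b (ψ c) ≤ b c := by
  have h := ciInf_le (bT_bdd (y := y) (R := R) ψ hb (ψ c)) ⟨c, hc⟩
  simpa [bT] using h

theorem le_bT {y : X} {R ε : ℝ} (hR : 0 ≤ R) {ψ : X → E n} {b : X → ℝ} (hb : LipschitzWith 1 b)
    (hψ : ∀ a ∈ closedBall y R, ∀ c ∈ closedBall y R, dist a c ≤ dist (ψ a) (ψ c) + ε) {c : X}
    (hc : c ∈ closedBall y R) : b c - ε ≤ bT y R ψ b (ψ c) := by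
  have : Nonempty (closedBall y R) := ⟨⟨y, mem_closedBall_self hR⟩⟩
  refine le_ciInf fun d => ?_
  have h1 := lip1 hb c d
  have h2 := hψ d d.2 c hc
  rw [dist_comm (d : X) c] at h2
  linarith

end bT

end

end Pool.Agent.BDRY
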