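import Pool.Agent.Work.MP_209cb6_gt.B2.GaussEVI

/-!
# BDRY2, module M2: the heat kernel is nearly Gaussian (core theorem)
-/

set_option autoImplicit false

open MeasureTheory MeasureTheory.Measure Metric Set Filter Topology
open scoped ENNReal NNReal

namespace Pool.Agent.BDRY

universe u

/-! ### The main argument -/

theorem neg_log_one_sub_le {δ : ℝ} (hδ : 0 ≤ δ) (hδ2 : δ ≤ 1 / 2) : -Real.log (1 - δ) ≤ 2 * δ := by
  have h1 : 0 < 1 - δ := by linarith
  have h2 := Real.one_sub_inv_le_log_of_pos h1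
  have h3 : (1 - δ)⁻¹ ≤ 1 + 2 * δ := by
    rw [inv_eq_one_div, div_le_iff₀ h1]
    nlinarith
  linarith

theorem exp_le_one_add_two {x : ℝ} (hx : 0 ≤ x) (hx1 : x ≤ 1) : Real.exp x ≤ 1 + 2 * x := by
  have h7 : Real.exp x ≤ 1 + x + x ^ 2 := by
    have := Real.abs_exp_sub_one_sub_id_le (x := x) (by rw [abs_of_nonneg hx]; exact hx1)
    rw [abs_le] at this
    linarith [this.2]
  nlinarith

theorem exp_three_half_le {ε : ℝ} (hε : 0 ≤ ε) (hε2 : ε ≤ 1 / 10) :
    Real.exp (3 / 2 * ε) ≤ 1 + 2 * ε := by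
  have := Real.abs_exp_sub_one_sub_id_le (x := 3 / 2 * ε)
    (by rw [abs_of_nonneg (by positivity)]; linarith)
  rw [abs_le] at this
  nlinarith [this.2]

theorem one_sub_le_inv {x : ℝ} (hx : 0 ≤ x) : 1 - x ≤ (1 + x)⁻¹ := by
  rw [inv_eq_one_div, le_div_iff₀ (by positivity)]
  nlinarith

theorem d_bound {ε δ : ℝ} (hε : 0 ≤ ε) (hε1 : ε ≤ 1 / 100) (_hδ0 : 0 ≤ δ) (hδ : δ ≤ 1 / 4) :
    7 / 10 ≤ (1 - ε) * (1 - ε) * (1 - δ / 10) := by
  have e1 : 1 - 2 * ε ≤ (1 - ε) * (1 - ε) := by nlinarith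
  have e2 : 0 ≤ 1 - δ / 10 := by linarith
  have e3 := mul_le_mul_of_nonneg_right e1 e2
  nlinarith

theorem sq_sq_le_one {δ : ℝ} (hδ : 0 < δ) (hδ4 : δ ≤ 1 / 4) : (δ ^ 2 / 100) ^ 2 ≤ 1 := by
  have h1 : δ ^ 2 / 100 ≤ 1 := by nlinarith
  have h2 : 0 ≤ δ ^ 2 / 100 := by positivity
  nlinarith

theorem K_aux {K t ρ ε : ℝ} (hK : K ≤ 0) (ht : 0 < t) (hρ : 1 ≤ ρ)
    (h : -K * t * ρ ^ 2 ≤ ε / 2) : 0 ≤ -K * t ∧ -K * t ≤ ε / 2 := by
  have h1 : 0 ≤ -K * t := by nlinarith
  have h2 : (1 : ℝ) ≤ ρ ^ 2 := by nlinarith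
  exact ⟨h1, by nlinarith⟩

/-- the bound of the second moment of the observer that the inequality itself provides -/
theorem q_bound {s c d : ℝ} (hc1 : c ≤ 11 / 10) (hd : 7 / 10 ≤ d)
    (h : d * (2 * Real.exp ((s - 1) / 2)) ≤ c * (1 + s)) : Real.exp ((s - 1) / 2) ≤ 5 := by
  set x := (s - 1) / 2 with hx
  have hs : 1 + s = 2 * (1 + x) := by rw [hx]; ring
  rw [hs] at h
  have hq0 := Real.exp_pos x
  rcases le_or_gt x 0 with hx0 | hx0
  · have := Real.exp_le_one_iff.2 hx0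
    linarith
  · have h1 : 7 / 10 * Real.exp x ≤ 11 / 10 * (1 + x) := by nlinarith
    have h2 := Real.quadratic_le_exp_of_nonneg hx0.le
    have h3 : x ≤ 2 := by nlinarith
    nlinarith

section main
variable {X : Type u} [MetricSpace X] [MeasurableSpace X] [BorelSpace X] [ProperSpace X]
  {K : ℝ} {N : ℕ} {m : Measure X} {μ : ℝ → Measure X}

theorem gauss_core (hK : K ≤ 0) (hN : 0 < N)
    (hfin : ∀ (x : X) (r : ℝ), m (closedBall x r) < ∞)
    (hpos : ∀ (x : X) (r : ℝ), 0 < r → 0 < m (ball x r))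
    (hexp : ∃ (x : X) (c : ℝ), 0 < c ∧ ∫⁻ y, ENNReal.ofReal (Real.exp (-c * dist x y ^ 2)) ∂m < ∞)
    (h : IsEVIFlow K N m μ) {z : X} (h0 : μ 0 = dirac z) {a t δ δ₁ ε ρ : ℝ} (ha : 0 < a)
    (ht : 0 < t) (hδ : 0 < δ) (hδ4 : δ ≤ 1 / 4) (hε : 0 < ε) (hεδ : ε ≤ δ ^ 2 / 200)
    (hδ₁ : 0 < δ₁) (hδ₁δ : δ₁ ≤ (δ ^ 2 / 100) ^ 2) (hρ : 1 ≤ ρ) (hKt : -K * t * ρ ^ 2 ≤ ε / 2)
    (Hi : ∀ τ, δ₁ * t ≤ τ → τ ≤ t → Integrable (gsn z τ) m ∧
      ∫ y, gsn z τ y ∂m ≤ (1 + ε) * (a * (4 * Real.pi * τ) ^ ((N : ℝ) / 2)))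
    (Hl : (1 - ε) * (a * (4 * Real.pi * t) ^ ((N : ℝ) / 2)) ≤
      ∫ y in ball z (ρ * √t), gsn z t y ∂m) :
    |Real.log (UN N m (μ t)) - (Real.log a / N + Real.log (4 * Real.pi * t) / 2 + 1 / 2)| ≤ 2 * δ ∧
    ∫ x, (√((μ t).rnDeriv m x).toReal -
      √(gsn z t x / (a * (4 * Real.pi * t) ^ ((N : ℝ) / 2)))) ^ 2 ∂m ≤ 4 * N * δ ∧
    |∫ y, dist y z ^ 2 ∂(μ t) - 2 * N * t| ≤ 12 * N * t * δ ∧
    W2 (μ t) (densM m (ball z (ρ * √t)) (gsn z t)) ^ 2 ≤ 40 * N * t * δ := by
  have hN' : (0 : ℝ) < N := Nat.cast_pos.2 hN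
  have hN1 : (1 : ℝ) ≤ N := by exact_mod_cast hN
  have hκ : K / N ≤ 0 := div_nonpos_of_nonpos_of_nonneg hK hN'.le
  have hsf := sigmaFinite_of_fin hfin
  have hst : 0 < √t := Real.sqrt_pos.2 ht
  have hδ2 : δ ^ 2 ≤ δ / 4 := by
    have := mul_le_mul_of_nonneg_left hδ4 hδ.le
    rw [sq]
    linarith
  have hε1 : ε ≤ δ / 800 := by linarith
  have hε2 : ε ≤ 1 / 3200 := by linarith
  obtain ⟨hKt0, hKt1⟩ := K_aux hK ht hρ hKt
  have hNε : ε ≤ N * ε := le_mul_of_one_le_left hε.le hN1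
  have hNδ : δ ≤ N * δ := le_mul_of_one_le_left hδ.le hN1
  have hNεδ : N * ε ≤ N * (δ / 800) := mul_le_mul_of_nonneg_left hε1 hN'.le
  -- exponentials
  have hexp2x : ∀ x : ℝ, 0 ≤ x → x ≤ 1 → Real.exp x ≤ 1 + 2 * x :=
    fun x hx hx1 => exp_le_one_add_two hx hx1
  have hexpKt : ∀ v, 0 ≤ v → v ≤ t → Real.exp (-K * v) ≤ 1 + ε := by
    intro v hv hvt
    have h1 : -K * v ≤ -K * t := mul_le_mul_of_nonneg_left hvt (by linarith)
    have h2 : 0 ≤ -K * v := mul_nonneg (by linarith) hv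
    have := hexp2x (-K * v) h2 (by linarith)
    linarith
  have hexpKt' : 1 - ε ≤ Real.exp (K * t) := by
    have := Real.add_one_le_exp (K * t)
    linarith
  -- the constants
  set LA : ℝ := Real.log a / N + Real.log (4 * Real.pi) / 2 + 1 / 2 with hLA
  set A : ℝ := Real.exp LA with hA
  have hA0 : 0 < A := Real.exp_pos _
  have hpi := Real.pi_pos
  set Zf : ℝ → ℝ := fun τ => a * (4 * Real.pi * τ) ^ ((N : ℝ) / 2) with hZf
  have hZpos : ∀ τ, 0 < τ → 0 < Zf τ := fun τ hτ => by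
    simp only [hZf]; positivity
  have hlogA : ∀ v, 0 < v → Real.log (A * √v) = LA + Real.log v / 2 := by
    intro v hv
    rw [Real.log_mul hA0.ne' (Real.sqrt_pos.2 hv).ne', hA, Real.log_exp, Real.log_sqrt hv.le]
  have hlogZ : ∀ τ, 0 < τ → Real.log (Zf τ) = N * Real.log (A * √τ) - N / 2 := by
    intro τ hτ
    rw [hlogA τ hτ]
    simp only [hZf]
    rw [Real.log_mul ha.ne' (by positivity), Real.log_rpow (by positivity),
      Real.log_mul (by positivity) hτ.ne', hLA]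
    field_simp
    ring
  have htarget : Real.log a / N + Real.log (4 * Real.pi * t) / 2 + 1 / 2 = Real.log (A * √t) := by
    rw [hlogA t ht, Real.log_mul (by positivity) ht.ne', hLA]
    ring
  -- second moments along the flow
  have hdint : ∀ v, 0 ≤ v → Integrable (fun y => dist y z ^ 2) (μ v) :=
    fun v hv => by
      have h1 := (h.p2 v hv).integrable_sq z
      simp_rw [dist_comm z] at h1
      exact h1
  have hsec : ∀ v, 0 < v → ∫ y, dist y z ^ 2 ∂(μ v) ≤ 2 * N * v * Real.exp (-K * v) := by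
    intro v hv
    have h1 := h.W2_le hK hN hfin hpos (by rw [h0]; exact isDisc_dirac z) hv
    rw [h0, W2_dirac_sq (h.p2 v hv.le) z] at h1
    exact h1
  -- the upper bound of the entropy power, with the Hellinger term
  have hgibbs : ∀ v, δ₁ * t ≤ v → v ≤ t →
      ∫ x, (√((μ v).rnDeriv m x).toReal - √(gsn z v x / Zf v)) ^ 2 ∂m +
        N * Real.log (UN N m (μ v)) ≤ N * Real.log (A * √v) + N * ε / 2 + ε := by
    intro v hv1 hv2
    have hv : 0 < v := lt_of_lt_of_le (by positivity) hv1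
    obtain ⟨hi, hi2⟩ := Hi v hv1 hv2
    have h1 := gibbs_gauss hN (h.p2 v hv.le) (h.dom v hv) z hv (hZpos v hv) hi hi2 (hdint v hv.le)
      (hsec v hv)
    rw [hlogZ v hv] at h1
    have h2 : 2 * N * v * Real.exp (-K * v) / (4 * v) = N / 2 * Real.exp (-K * v) := by
      field_simp
      ring
    rw [h2] at h1
    have h3 := mul_le_mul_of_nonneg_left (hexpKt v hv.le hv2) (show (0 : ℝ) ≤ N / 2 by positivity)
    linarith
  have hHnn : ∀ v, 0 ≤ ∫ x, (√((μ v).rnDeriv m x).toReal - √(gsn z v x / Zf v)) ^ 2 ∂m :=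
    fun v => integral_nonneg fun x => sq_nonneg _
  have hup : ∀ v, δ₁ * t ≤ v → v ≤ t → UN N m (μ v) ≤ (1 + 2 * ε) * A * √v := by
    intro v hv1 hv2
    have hv : 0 < v := lt_of_lt_of_le (by positivity) hv1
    have h1 := hgibbs v hv1 hv2
    have h2 := hHnn v
    have h3 : Real.log (UN N m (μ v)) ≤ Real.log (A * √v) + 3 / 2 * ε := by
      have h4 : N * Real.log (UN N m (μ v)) ≤ N * (Real.log (A * √v) + 3 / 2 * ε) := by
        have e1 : (N : ℝ) * (Real.log (A * √v) + 3 / 2 * ε) =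
          N * Real.log (A * √v) + 3 / 2 * (N * ε) := by ring
        have e2 : (N : ℝ) * ε / 2 = 1 / 2 * (N * ε) := by ring
        rw [e1]
        rw [e2] at h1
        linarith
      exact le_of_mul_le_mul_left h4 hN'
    have h5 : UN N m (μ v) ≤ A * √v * Real.exp (3 / 2 * ε) := by
      rw [← Real.exp_log (h.dom v hv)]
      refine (Real.exp_le_exp.2 h3).trans ?_
      rw [Real.exp_add, Real.exp_log (by positivity)]
    have h6 : Real.exp (3 / 2 * ε) ≤ 1 + 2 * ε := exp_three_half_le hε.le (by linarith)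
    calc UN N m (μ v) ≤ A * √v * Real.exp (3 / 2 * ε) := h5
      _ ≤ A * √v * (1 + 2 * ε) := mul_le_mul_of_nonneg_left h6 (by positivity)
      _ = _ := by ring
  -- the observer
  have hB0 : m (ball z (ρ * √t)) ≠ 0 := (hpos z _ (by positivity)).ne'
  have hB1 : m (ball z (ρ * √t)) ≠ ∞ :=
    ((measure_mono ball_subset_closedBall).trans_lt (hfin z _)).ne
  obtain ⟨hσ, hσ0, hZ1, hσlog⟩ := obs_gauss hN z (by positivity) ht hB0 hB1
  set σ := densM m (ball z (ρ * √t)) (gsn z t) with hσdef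
  set S := ∫ y, dist y z ^ 2 ∂σ with hS
  have hσp := hσ.1
  have hSnn : 0 ≤ S := integral_nonneg fun y => by positivity
  have hWS : W2 (μ 0) σ ^ 2 = S := by
    rw [h0, W2_comm, W2_dirac_sq hσ z]
  have hSρ : S ≤ ρ ^ 2 * t := by
    have hmem : ∀ᵐ y ∂σ, y ∈ ball z (ρ * √t) := by
      have := (densM_facts (m := m) (B := ball z (ρ * √t)) measurableSet_ball hB0 hB1
        (continuous_gsn z t).measurable (c := Real.exp (-((ρ * √t) ^ 2) / (4 * t))) (C := 1)
        (Real.exp_pos _) (fun x hx => by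
          unfold gsn
          rw [Real.exp_le_exp]
          refine div_le_div_of_nonneg_right ?_ (by positivity)
          have h2 : dist x z < ρ * √t := hx
          have h3 := pow_le_pow_left₀ dist_nonneg h2.le 2
          linarith) (fun x _ => gsn_le_one z ht x)).2.2.2.1
      exact this
    have hσi : Integrable (fun y => dist y z ^ 2) σ := by
      have h1 := hσ.integrable_sq z
      simp_rw [dist_comm z] at h1
      exact h1
    have h1 : S ≤ ∫ _y, ρ ^ 2 * t ∂σ := by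
      refine integral_mono_ae hσi (integrable_const _) ?_
      filter_upwards [hmem] with y hy
      have h2 : dist y z < ρ * √t := hy
      have h3 : 0 ≤ dist y z := dist_nonneg
      have h4 : (ρ * √t) ^ 2 = ρ ^ 2 * t := by rw [mul_pow, Real.sq_sqrt ht.le]
      rw [← h4]
      exact pow_le_pow_left₀ h3 h2.le 2
    simpa using h1
  set s := S / (2 * N * t) with hs
  have hSs : S = 2 * N * t * s := by rw [hs]; field_simp
  have hs0 : 0 ≤ s := by rw [hs]; positivity
  set q := Real.exp ((s - 1) / 2) with hq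
  have hq0 : 0 < q := Real.exp_pos _
  have hq1 : 1 + s ≤ 2 * q := one_add_le_two_exp s
  have hUσ : (1 - ε) * (A * √t) * q ≤ UN N m σ := by
    have h1 : Real.log ((1 - ε) * Zf t) ≤ Real.log (∫ y in ball z (ρ * √t), gsn z t y ∂m) :=
      Real.log_le_log (mul_pos (by linarith) (hZpos t ht)) Hl
    rw [Real.log_mul (by linarith) (hZpos t ht).ne', hlogZ t ht] at h1
    have h2 : S / (4 * t) = N * s / 2 := by
      rw [hSs]
      field_simp
      ring
    rw [h2] at hσlog
    have h3 : Real.log (1 - ε) ≤ 0 := Real.log_nonpos (by linarith) (by linarith)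
    have h4 : N * (Real.log (1 - ε) + Real.log (A * √t) + (s - 1) / 2) ≤
        N * Real.log (UN N m σ) := by
      rw [hσlog]
      have e1 : (N : ℝ) * (Real.log (1 - ε) + Real.log (A * √t) + (s - 1) / 2) =
        N * Real.log (1 - ε) + N * Real.log (A * √t) + N * s / 2 - N / 2 := by ring
      have e2 : N * Real.log (1 - ε) ≤ Real.log (1 - ε) := by
        have e3 := mul_le_mul_of_nonneg_left hN1 (neg_nonneg.2 h3)
        linarith
      rw [e1]
      linarith
    have h5 := le_of_mul_le_mul_left h4 hN'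
    have h6 := Real.exp_le_exp.2 h5
    rw [Real.exp_log hσ0, Real.exp_add, Real.exp_add, Real.exp_log (by linarith),
      Real.exp_log (by positivity)] at h6
    exact h6
  -- the curvature correction
  have hsK : sK (K / N) (W2 (μ 0) σ / 2) ^ 2 ≤ (1 + ε) * (S / 4) := by
    set w := W2 (μ 0) σ / 2 with hw
    have hw0 : 0 ≤ w := by rw [hw]; exact div_nonneg (W2_nonneg _ _) (by norm_num)
    have hw2 : w ^ 2 = S / 4 := by rw [hw, div_pow, hWS]; norm_num
    have h1 : sK (K / N) w ≤ Real.cosh (√(-(K / N)) * w) * w := by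
      rcases hκ.eq_or_lt with h2 | h2
      · rw [h2]; simp [sK]
      · have hk : 0 < √(-(K / N)) := Real.sqrt_pos.2 (by linarith)
        rw [sK, if_pos h2, div_le_iff₀ hk]
        have h3 := sinh_sub_le (x := √(-(K / N)) * w) (y := 0) le_rfl (by positivity)
        rw [Real.sinh_zero, sub_zero, sub_zero] at h3
        linarith
    have h2 : Real.cosh (√(-(K / N)) * w) ≤ Real.exp ((√(-(K / N)) * w) ^ 2 / 2) :=
      Real.cosh_le_exp_half_sq _
    have h3 : (√(-(K / N)) * w) ^ 2 ≤ ε / 2 := by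
      rw [mul_pow, Real.sq_sqrt (by linarith), hw2]
      have h4 : -(K / N) ≤ -K := by
        rw [← neg_div]
        exact div_le_self (by linarith) hN1
      calc -(K / N) * (S / 4) ≤ -K * (S / 4) := mul_le_mul_of_nonneg_right h4 (by positivity)
        _ ≤ -K * (ρ ^ 2 * t) := mul_le_mul_of_nonneg_left (by linarith) (by linarith)
        _ = -K * t * ρ ^ 2 := by ring
        _ ≤ ε / 2 := hKt
    have h5 : Real.exp ((√(-(K / N)) * w) ^ 2 / 2) ^ 2 ≤ 1 + ε := by
      rw [← Real.exp_nat_mul]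
      have h6 : ((2 : ℕ) : ℝ) * ((√(-(K / N)) * w) ^ 2 / 2) = (√(-(K / N)) * w) ^ 2 := by
        push_cast; ring
      rw [h6]
      have := hexp2x _ (sq_nonneg (√(-(K / N)) * w)) (by linarith)
      linarith
    calc sK (K / N) w ^ 2 ≤ (Real.cosh (√(-(K / N)) * w) * w) ^ 2 :=
          pow_le_pow_left₀ (sK_nonneg hκ hw0) h1 2
      _ = Real.cosh (√(-(K / N)) * w) ^ 2 * w ^ 2 := by ring
      _ ≤ Real.exp ((√(-(K / N)) * w) ^ 2 / 2) ^ 2 * w ^ 2 := by
          refine mul_le_mul_of_nonneg_right ?_ (sq_nonneg _)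
          exact pow_le_pow_left₀ (Real.cosh_pos _).le h2 2
      _ ≤ (1 + ε) * w ^ 2 := mul_le_mul_of_nonneg_right h5 (sq_nonneg _)
      _ = _ := by rw [hw2]
  -- the EVI inequality
  have hδ₁1 : δ₁ ≤ 1 := hδ₁δ.trans (sq_sq_le_one hδ hδ4)
  have hat : δ₁ * t ≤ t := mul_le_of_le_one_left ht.le hδ₁1
  have ha0 : 0 < δ₁ * t := by positivity
  have hevi := h.evi_obs hK hN hσ hσ0 ha0 hat
  set I := ∫ v in (δ₁ * t)..t, (UN N m (μ v))⁻¹ with hI
  have hInn : 0 ≤ I := intervalIntegral.integral_nonneg hat fun v hv =>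
    inv_nonneg.2 (h.dom v (ha0.trans_le hv.1)).le
  set W := W2 (μ t) σ with hW
  have hWnn : 0 ≤ W := W2_nonneg _ _
  have hW1 : (1 - ε) * (W ^ 2 / 4) ≤ Real.exp (K * t) * sK (K / N) (W / 2) ^ 2 := by
    have h1 : (W / 2) ^ 2 ≤ sK (K / N) (W / 2) ^ 2 :=
      pow_le_pow_left₀ (by positivity) (le_sK hκ (by positivity)) 2
    have h2 : W ^ 2 / 4 = (W / 2) ^ 2 := by ring
    rw [h2]
    exact mul_le_mul hexpKt' h1 (sq_nonneg _) (Real.exp_pos _).le
  have hI1 : (1 - ε) * (UN N m σ * I) ≤ Real.exp (K * t) * UN N m σ * I := by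
    rw [mul_assoc]
    exact mul_le_mul_of_nonneg_right hexpKt' (mul_nonneg hσ0.le hInn)
  have hmain : (1 - ε) * (W ^ 2 / 4) + N / 2 * ((1 - ε) * (UN N m σ * I)) ≤
      N / 2 * ((1 + ε) * t * (1 + s)) := by
    have h1 := mul_le_mul_of_nonneg_left hI1 (show (0 : ℝ) ≤ N / 2 by positivity)
    have h2 : (1 + ε) * (S / 4) = N / 2 * ((1 + ε) * t * s) := by rw [hSs]; ring
    have h3 : (N : ℝ) / 2 * t ≤ N / 2 * ((1 + ε) * t) := by
      refine mul_le_mul_of_nonneg_left ?_ (by positivity)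
      exact le_mul_of_one_le_left ht.le (by linarith)
    have h4 : (N : ℝ) / 2 * ((1 + ε) * t * (1 + s)) =
        N / 2 * ((1 + ε) * t) + N / 2 * ((1 + ε) * t * s) := by ring
    rw [h4]
    linarith
  have hUI : (1 - ε) * (A * √t) * q * I ≤ UN N m σ * I := mul_le_mul_of_nonneg_right hUσ hInn
  -- the upper bound of the integral
  have hIle : I ≤ (1 + 5 * (2 * ε)) * (2 * √t / A) := by
    have h1 : (1 - ε) * ((1 - ε) * (A * √t) * q * I) ≤ (1 + ε) * t * (2 * q) := by
      have h2 : (N : ℝ) / 2 * ((1 - ε) * ((1 - ε) * (A * √t) * q * I)) ≤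
          N / 2 * ((1 + ε) * t * (2 * q)) := by
        have h3 : (N : ℝ) / 2 * ((1 - ε) * ((1 - ε) * (A * √t) * q * I)) ≤
            N / 2 * ((1 - ε) * (UN N m σ * I)) := by
          refine mul_le_mul_of_nonneg_left ?_ (by positivity)
          exact mul_le_mul_of_nonneg_left hUI (by linarith)
        have h4 : (N : ℝ) / 2 * ((1 + ε) * t * (1 + s)) ≤ N / 2 * ((1 + ε) * t * (2 * q)) := by
          refine mul_le_mul_of_nonneg_left ?_ (by positivity)
          exact mul_le_mul_of_nonneg_left hq1 (by positivity)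
        have h5 : 0 ≤ (1 - ε) * (W ^ 2 / 4) := mul_nonneg (by linarith) (by positivity)
        linarith
      exact le_of_mul_le_mul_left h2 (by positivity)
    have h2 : (q * √t) * (((1 - ε) ^ 2 * A) * I) ≤ (q * √t) * ((1 + ε) * (2 * √t)) := by
      have e1 : (q * √t) * ((1 + ε) * (2 * √t)) = (1 + ε) * (√t ^ 2) * (2 * q) := by ring
      rw [e1, Real.sq_sqrt ht.le]
      calc (q * √t) * (((1 - ε) ^ 2 * A) * I) = (1 - ε) * ((1 - ε) * (A * √t) * q * I) := by ring
        _ ≤ _ := h1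
    have h3 := le_of_mul_le_mul_left h2 (by positivity)
    have h4 : (1 + ε) ≤ (1 + 5 * (2 * ε)) * (1 - ε) ^ 2 := by
      have e1 : (1 + 5 * (2 * ε)) * (1 - ε) ^ 2 = 1 + 8 * ε - ε * (19 * ε) + 10 * ε ^ 3 := by ring
      have e2 : ε * (19 * ε) ≤ ε * 1 := mul_le_mul_of_nonneg_left (by linarith) hε.le
      have e3 : 0 < ε ^ 3 := by positivity
      rw [e1]
      linarith
    have h5 : (1 - ε) ^ 2 * (A * I) ≤ (1 - ε) ^ 2 * ((1 + 5 * (2 * ε)) * (2 * √t)) := by
      have e1 : (1 + ε) * (2 * √t) ≤ ((1 + 5 * (2 * ε)) * (1 - ε) ^ 2) * (2 * √t) :=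
        mul_le_mul_of_nonneg_right h4 (by positivity)
      linarith
    have h6 := le_of_mul_le_mul_left h5 (by
      have : 0 < 1 - ε := by linarith
      positivity)
    have h7 : (1 + 5 * (2 * ε)) * (2 * √t / A) = (1 + 5 * (2 * ε)) * (2 * √t) / A := by ring
    rw [h7, le_div_iff₀ hA0]
    linarith
  -- the lower bound of the entropy power
  have hmono : ∀ v, δ₁ * t ≤ v → v ≤ t → UN N m (μ v) ≤ UN N m (μ t) := fun v hv1 hv2 =>
    h.UN_mono hN hfin hexp (ha0.trans_le hv1) hv2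
  have hlow : (1 - δ) * A * √t ≤ UN N m (μ t) := by
    refine low_aux (U := fun v => UN N m (μ v)) (ε := 2 * ε) hA0 ht hδ (by linarith) (by positivity)
      (by linarith) hδ₁ hδ₁δ (fun v hv1 _ => h.dom v (ha0.trans_le hv1)) hmono hup
      (fun x y hx hxy _ => h.int x y (ha0.trans_le hx) hxy) hIle
  -- the lower bound of the integral
  have hIge : (1 - δ / 10) * (2 * √t / A) ≤ I := by
    have h1 : ∫ v in (δ₁ * t)..t, ((1 + 2 * ε) * A * √v)⁻¹ ≤ I := by
      refine intervalIntegral.integral_mono_on hat ?_ (h.int _ _ ha0 hat) fun v hv => ?_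
      · refine ContinuousOn.intervalIntegrable ?_
        rw [uIcc_of_le hat]
        refine ContinuousOn.inv₀ (by fun_prop) fun v hv => ?_
        have : 0 < √v := Real.sqrt_pos.2 (ha0.trans_le hv.1)
        positivity
      · exact inv_anti₀ (h.dom v (ha0.trans_le hv.1)) (hup v hv.1 hv.2)
    have h2 : ∫ v in (δ₁ * t)..t, ((1 + 2 * ε) * A * √v)⁻¹ =
        ((1 + 2 * ε) * A)⁻¹ * (2 * (√t - √(δ₁ * t))) := by
      rw [← integral_inv_sqrt ha0 hat, ← intervalIntegral.integral_const_mul]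
      refine intervalIntegral.integral_congr fun v _ => ?_
      simp only [mul_inv]
    have h3 : √(δ₁ * t) ≤ δ ^ 2 / 100 * √t := by
      rw [Real.sqrt_mul hδ₁.le]
      refine mul_le_mul_of_nonneg_right ?_ hst.le
      exact Real.sqrt_le_iff.2 ⟨by positivity, hδ₁δ⟩
    rw [h2] at h1
    refine le_trans ?_ h1
    rw [mul_inv]
    have h4 : 1 - 2 * ε ≤ (1 + 2 * ε)⁻¹ := one_sub_le_inv (by positivity)
    have h5 : (1 - δ ^ 2 / 100) * √t ≤ √t - √(δ₁ * t) := by linarith
    have h6 : 0 ≤ 1 - δ ^ 2 / 100 := by linarith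
    calc (1 - δ / 10) * (2 * √t / A) ≤ ((1 - 2 * ε) * (1 - δ ^ 2 / 100)) * (2 * √t / A) := by
          refine mul_le_mul_of_nonneg_right ?_ (by positivity)
          have e1 : (1 - 2 * ε) * (1 - δ ^ 2 / 100) =
            1 - 2 * ε - δ ^ 2 / 100 + 2 * (ε * (δ ^ 2 / 100)) := by ring
          have e2 : 0 ≤ ε * (δ ^ 2 / 100) := by positivity
          rw [e1]
          linarith
      _ = (1 - 2 * ε) * A⁻¹ * (2 * ((1 - δ ^ 2 / 100) * √t)) := by
          field_simp
      _ ≤ (1 + 2 * ε)⁻¹ * A⁻¹ * (2 * (√t - √(δ₁ * t))) := by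
          refine mul_le_mul ?_ (by linarith) (by positivity) (by positivity)
          exact mul_le_mul_of_nonneg_right h4 (by positivity)
  have hlogδ := neg_log_one_sub_le hδ.le (by linarith)
  have hloglow : Real.log (A * √t) - 2 * δ ≤ Real.log (UN N m (μ t)) := by
    have h1 := Real.log_le_log (by have : 0 < 1 - δ := by linarith
                                   positivity) hlow
    rw [mul_assoc, Real.log_mul (by linarith) (by positivity)] at h1
    linarith
  have hgt := hgibbs t hat le_rfl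
  refine ⟨?_, ?_, ?_, ?_⟩
  · rw [htarget, abs_le]
    constructor
    · linarith
    · have h1 := hHnn t
      have h2 : N * Real.log (UN N m (μ t)) ≤ N * (Real.log (A * √t) + 3 / 2 * ε) := by
        have e1 : (N : ℝ) * (Real.log (A * √t) + 3 / 2 * ε) =
          N * Real.log (A * √t) + 3 / 2 * (N * ε) := by ring
        have e2 : (N : ℝ) * ε / 2 = 1 / 2 * (N * ε) := by ring
        rw [e1]
        rw [e2] at hgt
        linarith
      have h3 := le_of_mul_le_mul_left h2 hN'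
      linarith
  · have h1 : N * (Real.log (A * √t) - 2 * δ) ≤ N * Real.log (UN N m (μ t)) :=
      mul_le_mul_of_nonneg_left hloglow hN'.le
    have h2 : N * ε / 2 + ε ≤ 2 * N * δ := by
      have e2 : (N : ℝ) * ε / 2 = 1 / 2 * (N * ε) := by ring
      have e3 : 2 * (N : ℝ) * δ = 2 * (N * δ) := by ring
      rw [e2, e3]
      linarith
    have h3 : (N : ℝ) * (Real.log (A * √t) - 2 * δ) = N * Real.log (A * √t) - 2 * N * δ := by ring
    rw [h3] at h1
    linarith
  · have h1 := hsec t ht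
    have h2 := hexpKt t ht.le le_rfl
    obtain ⟨hi, hi2⟩ := Hi t hat le_rfl
    have h3 := gibbs_gauss hN (h.p2 t ht.le) (h.dom t ht) z ht (hZpos t ht) hi hi2 (hdint t ht.le)
      le_rfl
    rw [hlogZ t ht] at h3
    have h4 := hHnn t
    have h5 : N * (Real.log (A * √t) - 2 * δ) ≤ N * Real.log (UN N m (μ t)) :=
      mul_le_mul_of_nonneg_left hloglow hN'.le
    set M := ∫ y, dist y z ^ 2 ∂(μ t) with hM
    have h6 : (N : ℝ) / 2 - 2 * N * δ - ε ≤ M / (4 * t) := by
      have h7 : (N : ℝ) * (Real.log (A * √t) - 2 * δ) = N * Real.log (A * √t) - 2 * N * δ := by ring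
      rw [h7] at h5
      linarith
    rw [le_div_iff₀ (by positivity)] at h6
    have h7 : 2 * N * t * Real.exp (-K * t) ≤ 2 * N * t * (1 + ε) :=
      mul_le_mul_of_nonneg_left h2 (by positivity)
    have h8 : ε * t ≤ N * t * δ := by
      have e1 : ε ≤ N * δ := by linarith
      have e2 := mul_le_mul_of_nonneg_right e1 ht.le
      have e3 : (N : ℝ) * t * δ = N * δ * t := by ring
      rw [e3]
      exact e2
    have h9 : ε * (N * t) ≤ δ * (N * t) := mul_le_mul_of_nonneg_right (by linarith) (by positivity)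
    have h10 : 0 < N * t * δ := by positivity
    rw [abs_le]
    constructor
    · have e1 : ((N : ℝ) / 2 - 2 * N * δ - ε) * (4 * t) =
        2 * N * t - 8 * (N * t * δ) - 4 * (ε * t) := by ring
      have e2 : 12 * (N : ℝ) * t * δ = 12 * (N * t * δ) := by ring
      rw [e1] at h6
      rw [e2]
      linarith
    · have e1 : 2 * (N : ℝ) * t * (1 + ε) = 2 * N * t + 2 * (ε * (N * t)) := by ring
      have e2 : 12 * (N : ℝ) * t * δ = 12 * (N * t * δ) := by ring
      have e3 : δ * ((N : ℝ) * t) = N * t * δ := by ring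
      rw [e1] at h7
      rw [e2]
      rw [e3] at h9
      linarith
  · -- the distance to the observer
    have h1 : (1 - ε) * (1 - δ / 10) * t * (2 * q) ≤ UN N m σ * I := by
      have h2 : (1 - ε) * (A * √t) * q * ((1 - δ / 10) * (2 * √t / A)) ≤
          (1 - ε) * (A * √t) * q * I := by
        refine mul_le_mul_of_nonneg_left hIge ?_
        have : 0 < 1 - ε := by linarith
        positivity
      have h3 : (1 - ε) * (A * √t) * q * ((1 - δ / 10) * (2 * √t / A)) =
          (1 - ε) * (1 - δ / 10) * (√t ^ 2) * (2 * q) := by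
        field_simp
      rw [h3, Real.sq_sqrt ht.le] at h2
      linarith
    have h2 : (1 - ε) * (W ^ 2 / 4) + N / 2 * ((1 - ε) * ((1 - ε) * (1 - δ / 10) * t * (2 * q))) ≤
        N / 2 * ((1 + ε) * t * (1 + s)) := by
      have h3 : (N : ℝ) / 2 * ((1 - ε) * ((1 - ε) * (1 - δ / 10) * t * (2 * q))) ≤
          N / 2 * ((1 - ε) * (UN N m σ * I)) := by
        refine mul_le_mul_of_nonneg_left ?_ (by positivity)
        exact mul_le_mul_of_nonneg_left h1 (by linarith)
      linarith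
    have hWq : 0 ≤ (1 - ε) * (W ^ 2 / 4) := mul_nonneg (by linarith) (by positivity)
    have hq5 : q ≤ 5 := by
      refine q_bound (s := s) (c := 1 + ε) (d := (1 - ε) * (1 - ε) * (1 - δ / 10))
        (by linarith) ?_ ?_
      · exact d_bound hε.le (by linarith) hδ.le hδ4
      · have h3 : (N : ℝ) / 2 * t * ((1 - ε) * (1 - ε) * (1 - δ / 10) * (2 * q)) ≤
            N / 2 * t * ((1 + ε) * (1 + s)) := by
          have e1 : (N : ℝ) / 2 * t * ((1 - ε) * (1 - ε) * (1 - δ / 10) * (2 * q)) =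
            N / 2 * ((1 - ε) * ((1 - ε) * (1 - δ / 10) * t * (2 * q))) := by ring
          have e2 : (N : ℝ) / 2 * t * ((1 + ε) * (1 + s)) = N / 2 * ((1 + ε) * t * (1 + s)) := by
            ring
          rw [e1, e2]
          linarith
        exact le_of_mul_le_mul_left h3 (by positivity)
    have h3 : (N : ℝ) / 2 * ((1 + ε) * t * (1 + s)) ≤ N / 2 * ((1 + ε) * t * (2 * q)) := by
      refine mul_le_mul_of_nonneg_left ?_ (by positivity)
      exact mul_le_mul_of_nonneg_left hq1 (by positivity)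
    have h4 : (1 - ε) * (W ^ 2 / 4) ≤
        N * t * q * ((1 + ε) - (1 - ε) * ((1 - ε) * (1 - δ / 10))) := by
      have e1 : (N : ℝ) * t * q * ((1 + ε) - (1 - ε) * ((1 - ε) * (1 - δ / 10))) =
          N / 2 * ((1 + ε) * t * (2 * q)) -
            N / 2 * ((1 - ε) * ((1 - ε) * (1 - δ / 10) * t * (2 * q))) := by ring
      rw [e1]
      linarith
    have h5 : (1 + ε) - (1 - ε) * ((1 - ε) * (1 - δ / 10)) ≤ δ / 5 := by
      have e1 : (1 + ε) - (1 - ε) * ((1 - ε) * (1 - δ / 10)) =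
        3 * ε + δ / 10 - ε ^ 2 - ε * δ / 5 + ε ^ 2 * δ / 10 := by ring
      have e2 : ε ^ 2 * δ / 10 ≤ ε ^ 2 := by
        have : ε ^ 2 * (δ / 10) ≤ ε ^ 2 * 1 := mul_le_mul_of_nonneg_left (by linarith) (sq_nonneg ε)
        linarith
      have e3 : 0 ≤ ε * δ / 5 := by positivity
      rw [e1]
      linarith
    have h6 : 0 ≤ (1 + ε) - (1 - ε) * ((1 - ε) * (1 - δ / 10)) := by
      have e1 : (1 - ε) * ((1 - ε) * (1 - δ / 10)) ≤ 1 * (1 * 1) :=
        mul_le_mul (by linarith) (mul_le_mul (by linarith) (by linarith) (by linarith) zero_le_one)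
          (mul_nonneg (by linarith) (by linarith)) zero_le_one
      linarith
    have h7 : N * t * q * ((1 + ε) - (1 - ε) * ((1 - ε) * (1 - δ / 10))) ≤ N * t * 5 * (δ / 5) :=
      mul_le_mul (mul_le_mul_of_nonneg_left hq5 (by positivity)) h5 h6 (by positivity)
    have h8 : W ^ 2 / 4 ≤ 2 * ((1 - ε) * (W ^ 2 / 4)) := by
      have e1 : 1 * (W ^ 2 / 4) ≤ (2 * (1 - ε)) * (W ^ 2 / 4) :=
        mul_le_mul_of_nonneg_right (by linarith) (by positivity)
      linarith
    have h9 : 0 ≤ N * t * δ := by positivity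
    linarith

end main

end Pool.Agent.BDRY
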