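import Pool.Agent.Work.MP_209cb6_gt.B2.Hell
import Pool.Agent.Work.MP_209cb6_gt.B2.UscMono
import Pool.Agent.Work.MP_209cb6_gt.B2.TVBound

/-!
# BDRY2, module M2 (EVI part): the heat kernel is nearly Gaussian

The observers, Gibbs' inequality against a Gaussian, the integrated EVI inequality from time `0` and
the real-variable end of the argument.
-/

set_option autoImplicit false

open MeasureTheory MeasureTheory.Measure Metric Set Filter Topology
open scoped ENNReal NNReal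

namespace Pool.Agent.BDRY

universe u

/-! ### The entropy of a measure with a bounded density on a set of finite measure -/

section dens
variable {X : Type u} [MeasurableSpace X]

/-- the probability measure with density proportional to `f` on `B` -/
noncomputable def densM (m : Measure X) (B : Set X) (f : X → ℝ) : Measure X :=
  m.withDensity (B.indicator fun x => ENNReal.ofReal (f x / ∫ y in B, f y ∂m))

theorem densM_facts {m : Measure X} [SigmaFinite m] {B : Set X} (hB : MeasurableSet B)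
    (hB0 : m B ≠ 0) (hB1 : m B ≠ ∞) {f : X → ℝ} (hf : Measurable f) {c C : ℝ} (hc : 0 < c)
    (hfc : ∀ x ∈ B, c ≤ f x) (hfC : ∀ x ∈ B, f x ≤ C) :
    0 < ∫ y in B, f y ∂m ∧ IsProbabilityMeasure (densM m B f) ∧ densM m B f ≪ m ∧
    (∀ᵐ x ∂(densM m B f), x ∈ B) ∧
    (∀ᵐ x ∂(densM m B f), llr (densM m B f) m x =
      Real.log (f x) - Real.log (∫ y in B, f y ∂m)) ∧
    Integrable (llr (densM m B f) m) (densM m B f) := by
  have hBr : 0 < m.real B := ENNReal.toReal_pos hB0 hB1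
  have hfi : IntegrableOn f B m := by
    refine Measure.integrableOn_of_bounded (M := max C 0) hB1 hf.aestronglyMeasurable ?_
    filter_upwards [ae_restrict_mem hB] with x hx
    rw [Real.norm_eq_abs, abs_of_pos (hc.trans_le (hfc x hx))]
    exact (hfC x hx).trans (le_max_left _ _)
  have hZ : 0 < ∫ y in B, f y ∂m := by
    have h1 : ∫ _y in B, c ∂m ≤ ∫ y in B, f y ∂m :=
      setIntegral_mono_on (integrableOn_const hB1) hfi hB hfc
    rw [setIntegral_const, smul_eq_mul] at h1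
    have : 0 < m.real B * c := by positivity
    linarith
  set Z := ∫ y in B, f y ∂m with hZdef
  set ρ : X → ℝ≥0∞ := B.indicator fun x => ENNReal.ofReal (f x / Z) with hρ
  have hρm : Measurable ρ := (ENNReal.measurable_ofReal.comp (hf.div_const _)).indicator hB
  have hμ : densM m B f = m.withDensity ρ := rfl
  have hprob : IsProbabilityMeasure (densM m B f) := by
    refine ⟨?_⟩
    rw [hμ, withDensity_apply _ MeasurableSet.univ, Measure.restrict_univ, hρ,
      lintegral_indicator hB]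
    have h1 : ∫⁻ x in B, ENNReal.ofReal (f x / Z) ∂m = ENNReal.ofReal (∫ x in B, f x / Z ∂m) := by
      rw [← ofReal_integral_eq_lintegral_ofReal (hfi.div_const _)]
      filter_upwards [ae_restrict_mem hB] with x hx
      exact div_nonneg (hc.le.trans (hfc x hx)) hZ.le
    rw [h1, integral_div, div_self hZ.ne', ENNReal.ofReal_one]
  have hac : densM m B f ≪ m := withDensity_absolutelyContinuous _ _
  have hmem : ∀ᵐ x ∂(densM m B f), x ∈ B := by
    rw [hμ, ae_iff]
    change (m.withDensity ρ) Bᶜ = 0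
    rw [withDensity_apply _ hB.compl]
    rw [setLIntegral_congr_fun hB.compl (g := fun _ => 0)]
    · simp
    · intro x hx
      simp only [hρ]
      rw [indicator_of_notMem hx]
  have hrn : ∀ᵐ x ∂(densM m B f), (densM m B f).rnDeriv m x = ρ x := by
    refine hac.ae_le ?_
    rw [hμ]
    exact Measure.rnDeriv_withDensity m hρm
  have hllr : ∀ᵐ x ∂(densM m B f), llr (densM m B f) m x = Real.log (f x) - Real.log Z := by
    filter_upwards [hrn, hmem] with x hx hxB
    have hfx := hc.trans_le (hfc x hxB)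
    rw [llr_def]
    simp only
    rw [hx, hρ, indicator_of_mem hxB, ENNReal.toReal_ofReal (div_nonneg hfx.le hZ.le),
      Real.log_div hfx.ne' hZ.ne']
  refine ⟨hZ, hprob, hac, hmem, hllr, ?_⟩
  refine Integrable.mono' (g := fun _ => |Real.log c| + |Real.log C| + |Real.log Z|)
    (integrable_const _) (measurable_llr _ m).aestronglyMeasurable ?_
  filter_upwards [hllr, hmem] with x hx hxB
  rw [hx, Real.norm_eq_abs]
  have h1 : Real.log c ≤ Real.log (f x) := Real.log_le_log hc (hfc x hxB)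
  have h2 : Real.log (f x) ≤ Real.log C := Real.log_le_log (hc.trans_le (hfc x hxB)) (hfC x hxB)
  have h3 : |Real.log (f x)| ≤ |Real.log c| + |Real.log C| := by
    rw [abs_le]
    constructor
    · linarith [neg_abs_le (Real.log c), abs_nonneg (Real.log C)]
    · linarith [le_abs_self (Real.log C), abs_nonneg (Real.log c)]
  calc |Real.log (f x) - Real.log Z| ≤ |Real.log (f x)| + |Real.log Z| := abs_sub _ _
    _ ≤ _ := by linarith

end dens

/-! ### Gaussians -/

section gauss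
variable {X : Type u} [MetricSpace X]

/-- the unnormalised Gaussian of variance parameter `τ` centred at `z` -/
noncomputable def gsn (z : X) (τ : ℝ) (y : X) : ℝ := Real.exp (-(dist y z ^ 2) / (4 * τ))

theorem gsn_pos (z : X) (τ : ℝ) (y : X) : 0 < gsn z τ y := Real.exp_pos _

theorem log_gsn (z : X) (τ : ℝ) (y : X) : Real.log (gsn z τ y) = -(dist y z ^ 2) / (4 * τ) :=
  Real.log_exp _

theorem continuous_gsn (z : X) (τ : ℝ) : Continuous (gsn z τ) := by
  unfold gsn
  fun_prop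

theorem gsn_le_one (z : X) {τ : ℝ} (hτ : 0 < τ) (y : X) : gsn z τ y ≤ 1 := by
  unfold gsn
  rw [Real.exp_le_one_iff]
  exact div_nonpos_of_nonpos_of_nonneg (by nlinarith [sq_nonneg (dist y z)]) (by positivity)

variable [MeasurableSpace X] [BorelSpace X]

omit [BorelSpace X] in
/-- Gibbs' inequality against the Gaussian `g_τ / Z`, with the Hellinger term. -/
theorem gibbs_gauss {N : ℕ} (hN : 0 < N) {m μ : Measure X} [SigmaFinite m] (hμ : IsP2 μ)
    (hU : 0 < UN N m μ) (z : X) {τ Z M c : ℝ} (hτ : 0 < τ) (hZ : 0 < Z)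
    (hi : Integrable (gsn z τ) m) (hZ1 : ∫ y, gsn z τ y ∂m ≤ c * Z)
    (hd : Integrable (fun y => dist y z ^ 2) μ) (hM : ∫ y, dist y z ^ 2 ∂μ ≤ M) :
    ∫ x, (√(μ.rnDeriv m x).toReal - √(gsn z τ x / Z)) ^ 2 ∂m + N * Real.log (UN N m μ) ≤
      Real.log Z + M / (4 * τ) + (c - 1) := by
  have hN' : (0 : ℝ) < N := Nat.cast_pos.2 hN
  have hp := hμ.1
  obtain ⟨hac, hint⟩ := un_pos_iff.1 hU
  have hlog : ∀ y, Real.log (gsn z τ y / Z) = -(dist y z ^ 2) / (4 * τ) - Real.log Z := by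
    intro y
    rw [Real.log_div (gsn_pos z τ y).ne' hZ.ne', log_gsn]
  have hi2 : Integrable (fun y => Real.log (gsn z τ y / Z)) μ := by
    simp only [hlog]
    exact (hd.neg.div_const _).sub (integrable_const _)
  have h1 := gibbs_hell hac hint (φ := fun y => gsn z τ y / Z)
    (fun y => div_pos (gsn_pos z τ y) hZ) (hi.div_const _) hi2
  have h2 : ∫ y, Real.log (gsn z τ y / Z) ∂μ =
      -(∫ y, dist y z ^ 2 ∂μ) / (4 * τ) - Real.log Z := by
    simp only [hlog]
    have hdd : Integrable (fun y => -(dist y z ^ 2) / (4 * τ)) μ := hd.neg.div_const _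
    rw [integral_sub hdd (integrable_const _), integral_div, integral_neg]
    simp
  have h3 : ∫ y, gsn z τ y / Z ∂m ≤ c := by
    rw [integral_div, div_le_iff₀ hZ]
    exact hZ1
  rw [h2] at h1
  have h4 : (N : ℝ) * Real.log (UN N m μ) = -(∫ x, llr μ m x ∂μ) := by
    rw [log_UN hU]
    field_simp
  rw [h4]
  have h5 : (∫ y, dist y z ^ 2 ∂μ) / (4 * τ) ≤ M / (4 * τ) := by gcongr
  have h6 : -(∫ y, dist y z ^ 2 ∂μ) / (4 * τ) = -((∫ y, dist y z ^ 2 ∂μ) / (4 * τ)) := by ring
  rw [h6] at h1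
  linarith

/-- The truncated Gaussian as an observer. -/
theorem obs_gauss [SecondCountableTopology X] {N : ℕ} (hN : 0 < N) {m : Measure X} [SigmaFinite m]
    (z : X) {R τ : ℝ} (hR : 0 ≤ R) (hτ : 0 < τ) (h0 : m (ball z R) ≠ 0) (h1 : m (ball z R) ≠ ∞) :
    IsP2 (densM m (ball z R) (gsn z τ)) ∧ 0 < UN N m (densM m (ball z R) (gsn z τ)) ∧
    0 < ∫ y in ball z R, gsn z τ y ∂m ∧
    N * Real.log (UN N m (densM m (ball z R) (gsn z τ))) =
      Real.log (∫ y in ball z R, gsn z τ y ∂m) +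
        (∫ y, dist y z ^ 2 ∂(densM m (ball z R) (gsn z τ))) / (4 * τ) := by
  have hN' : (0 : ℝ) < N := Nat.cast_pos.2 hN
  obtain ⟨hZ, hp, hac, hmem, hllr, hint⟩ := densM_facts (m := m) (B := ball z R) measurableSet_ball
    h0 h1 (continuous_gsn z τ).measurable (c := Real.exp (-(R ^ 2) / (4 * τ))) (C := 1)
    (Real.exp_pos _) (fun x hx => by
      unfold gsn
      rw [Real.exp_le_exp]
      refine div_le_div_of_nonneg_right ?_ (by positivity)
      have h2 : dist x z < R := hx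
      have h3 : 0 ≤ dist x z := dist_nonneg
      nlinarith) (fun x _ => gsn_le_one z hτ x)
  set σ := densM m (ball z R) (gsn z τ) with hσ
  have hP2 : IsP2 σ := isP2_of_bounded isBounded_ball hmem
  have hU : 0 < UN N m σ := un_pos_iff.2 ⟨hac, hint⟩
  refine ⟨hP2, hU, hZ, ?_⟩
  have hd : Integrable (fun y => dist y z ^ 2) σ := by
    refine Integrable.mono' (g := fun _ => R ^ 2) (integrable_const _)
      (by fun_prop) ?_
    filter_upwards [hmem] with y hy
    rw [Real.norm_eq_abs, abs_of_nonneg (by positivity)]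
    have h2 : dist y z < R := hy
    have h3 : 0 ≤ dist y z := dist_nonneg
    nlinarith
  have h4 : (N : ℝ) * Real.log (UN N m σ) = -(∫ x, llr σ m x ∂σ) := by
    rw [log_UN hU]
    field_simp
  rw [h4, integral_congr_ae hllr]
  simp only [log_gsn]
  have hdd : Integrable (fun y => -(dist y z ^ 2) / (4 * τ)) σ := hd.neg.div_const _
  rw [integral_sub hdd (integrable_const _), integral_div, integral_neg]
  simp
  ring

end gauss

/-! ### EVI from time zero against a fixed observer -/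

section evi
variable {X : Type u} [MetricSpace X] [MeasurableSpace X] [BorelSpace X] [ProperSpace X]
  {K : ℝ} {N : ℕ} {m : Measure X} {μ : ℝ → Measure X}

theorem IsEVIFlow.evi_obs (hK : K ≤ 0) (hN : 0 < N) (h : IsEVIFlow K N m μ) {σ : Measure X}
    (hσ : IsP2 σ) (hσ0 : 0 < UN N m σ) {a t : ℝ} (ha : 0 < a) (hat : a ≤ t) :
    Real.exp (K * t) * sK (K / N) (W2 (μ t) σ / 2) ^ 2 +
      N / 2 * (Real.exp (K * t) * UN N m σ * ∫ v in a..t, (UN N m (μ v))⁻¹) ≤
      N / 2 * t + sK (K / N) (W2 (μ 0) σ / 2) ^ 2 := by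
  have hN' : (0 : ℝ) < N := Nat.cast_pos.2 hN
  have hκ : K / N ≤ 0 := div_nonpos_of_nonpos_of_nonneg hK hN'.le
  have hcont : Continuous fun t : ℝ => Real.exp (K * t) := by fun_prop
  have ht : 0 < t := ha.trans_le hat
  have hev : ∀ᶠ s in 𝓝[>] (0 : ℝ), Real.exp (K * t) * sK (K / N) (W2 (μ t) σ / 2) ^ 2 +
      N / 2 * (Real.exp (K * t) * UN N m σ * ∫ v in a..t, (UN N m (μ v))⁻¹) ≤
      N / 2 * t + Real.exp (K * s) * sK (K / N) (W2 (μ s) σ / 2) ^ 2 := by
    have hlt : ∀ᶠ s in 𝓝[>] (0 : ℝ), s < a := nhdsWithin_le_nhds (Iio_mem_nhds ha)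
    filter_upwards [self_mem_nhdsWithin, hlt] with s hs hsa
    have hs0 : 0 < s := hs
    have hst : s ≤ t := hsa.le.trans hat
    have h1 := h.evi σ hσ hσ0 s t hs0 hst
    have hi : ∀ x y, 0 < x → x ≤ y → IntervalIntegrable (fun v => (UN N m (μ v))⁻¹) volume x y :=
      h.int
    have h2 : ∫ v in s..t, Real.exp (K * v) * (1 - UN N m σ / UN N m (μ v)) =
        (∫ v in s..t, Real.exp (K * v)) -
          ∫ v in s..t, Real.exp (K * v) * (UN N m σ * (UN N m (μ v))⁻¹) := by
      rw [← intervalIntegral.integral_sub (hcont.intervalIntegrable s t)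
        (((hi s t hs0 hst).const_mul _).continuousOn_mul hcont.continuousOn)]
      refine intervalIntegral.integral_congr fun v _ => ?_
      simp only [div_eq_mul_inv]
      ring
    have h3 : ∫ v in s..t, Real.exp (K * v) ≤ t := by
      have h4 : ∫ v in s..t, Real.exp (K * v) ≤ ∫ _ in s..t, (1 : ℝ) := by
        refine intervalIntegral.integral_mono_on hst (hcont.intervalIntegrable s t)
          intervalIntegrable_const fun v hv => ?_
        exact Real.exp_le_one_iff.2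
          (mul_nonpos_of_nonpos_of_nonneg hK (hs0.le.trans hv.1))
      rw [intervalIntegral.integral_const, smul_eq_mul, mul_one] at h4
      linarith
    have h5 : Real.exp (K * t) * UN N m σ * ∫ v in a..t, (UN N m (μ v))⁻¹ ≤
        ∫ v in s..t, Real.exp (K * v) * (UN N m σ * (UN N m (μ v))⁻¹) := by
      have h6 : Real.exp (K * t) * UN N m σ * ∫ v in s..t, (UN N m (μ v))⁻¹ ≤
          ∫ v in s..t, Real.exp (K * v) * (UN N m σ * (UN N m (μ v))⁻¹) := by
        rw [← intervalIntegral.integral_const_mul]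
        refine intervalIntegral.integral_mono_on hst ((hi s t hs0 hst).const_mul _)
          (((hi s t hs0 hst).const_mul _).continuousOn_mul hcont.continuousOn) fun v hv => ?_
        rw [mul_assoc]
        refine mul_le_mul_of_nonneg_right ?_
          (mul_nonneg hσ0.le (inv_nonneg.2 (h.dom v (hs0.trans_le hv.1)).le))
        exact Real.exp_le_exp.2 (mul_le_mul_of_nonpos_left hv.2 hK)
      refine le_trans ?_ h6
      refine mul_le_mul_of_nonneg_left ?_ (by positivity)
      rw [← intervalIntegral.integral_add_adjacent_intervals (hi s a hs0 hsa.le) (hi a t ha hat)]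
      have h7 : 0 ≤ ∫ v in s..a, (UN N m (μ v))⁻¹ :=
        intervalIntegral.integral_nonneg hsa.le fun v hv =>
          inv_nonneg.2 (h.dom v (hs0.trans_le hv.1)).le
      linarith
    rw [h2] at h1
    have h8 : (N : ℝ) / 2 * ((∫ v in s..t, Real.exp (K * v)) -
          ∫ v in s..t, Real.exp (K * v) * (UN N m σ * (UN N m (μ v))⁻¹)) ≤
        N / 2 * (t - Real.exp (K * t) * UN N m σ * ∫ v in a..t, (UN N m (μ v))⁻¹) := by
      refine mul_le_mul_of_nonneg_left ?_ (by positivity)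
      linarith
    have h9 := h1.trans h8
    rw [mul_sub] at h9
    linarith
  have hlim : Tendsto (fun s => N / 2 * t + Real.exp (K * s) * sK (K / N) (W2 (μ s) σ / 2) ^ 2)
      (𝓝[>] 0) (𝓝 (N / 2 * t + 1 * sK (K / N) (W2 (μ 0) σ / 2) ^ 2)) := by
    have h1 : Tendsto (fun s : ℝ => Real.exp (K * s)) (𝓝[>] 0) (𝓝 1) := by
      have h2 : Tendsto (fun s : ℝ => Real.exp (K * s)) (𝓝[>] 0) (𝓝 (Real.exp (K * 0))) :=
        (hcont.tendsto 0).mono_left nhdsWithin_le_nhds
      rwa [mul_zero, Real.exp_zero] at h2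
    have h3 : Tendsto (fun s => sK (K / N) (W2 (μ s) σ / 2) ^ 2) (𝓝[>] 0)
        (𝓝 (sK (K / N) (W2 (μ 0) σ / 2) ^ 2)) := by
      have h4 : Continuous fun w : ℝ => sK (K / N) (w / 2) ^ 2 :=
        ((sK_cont hκ).comp (continuous_id.div_const 2)).pow 2
      exact (h4.tendsto _).comp (h.tendsto_W2 hσ)
    exact (h1.mul h3).const_add _
  rw [one_mul] at hlim
  exact ge_of_tendsto hlim hev

end evi

/-! ### The real-variable end -/

/-- `(1 + s) ≤ 2 exp ((s - 1) / 2)` -/
theorem one_add_le_two_exp (s : ℝ) : 1 + s ≤ 2 * Real.exp ((s - 1) / 2) := by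
  have := Real.add_one_le_exp ((s - 1) / 2)
  linarith

/-- The integral of `v ^ (-1/2)`. -/
theorem integral_inv_sqrt {a b : ℝ} (ha : 0 < a) (hab : a ≤ b) :
    ∫ v in a..b, (√v)⁻¹ = 2 * (√b - √a) := by
  have h1 : ∀ x ∈ uIcc a b, HasDerivAt (fun x => 2 * √x) ((√x)⁻¹) x := by
    intro x hx
    rw [uIcc_of_le hab] at hx
    have hx0 : 0 < x := ha.trans_le hx.1
    have h3 := (Real.hasDerivAt_sqrt hx0.ne').const_mul 2
    have h4 : 0 < √x := Real.sqrt_pos.2 hx0
    refine h3.congr_deriv ?_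
    rw [one_div, mul_inv, ← mul_assoc, mul_inv_cancel₀ two_ne_zero, one_mul]
  have h2 : ContinuousOn (fun x : ℝ => (√x)⁻¹) (uIcc a b) := by
    rw [uIcc_of_le hab]
    exact (Real.continuous_sqrt.continuousOn).inv₀ fun x hx =>
      (Real.sqrt_pos.2 (ha.trans_le hx.1)).ne'
  rw [intervalIntegral.integral_eq_sub_of_hasDerivAt h1 (h2.intervalIntegrable)]
  ring

/-- the lower bound of the entropy power at time `t` -/
theorem low_aux {U : ℝ → ℝ} {A t δ δ₁ ε : ℝ} (hA : 0 < A) (ht : 0 < t) (hδ : 0 < δ)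
    (hδ2 : δ ≤ 1 / 2) (hε : 0 < ε) (hεδ : ε ≤ δ ^ 2 / 100) (hδ₁ : 0 < δ₁)
    (hδ₁δ : δ₁ ≤ (δ ^ 2 / 100) ^ 2) (hpos : ∀ v, δ₁ * t ≤ v → v ≤ t → 0 < U v)
    (hmono : ∀ v, δ₁ * t ≤ v → v ≤ t → U v ≤ U t)
    (hup : ∀ v, δ₁ * t ≤ v → v ≤ t → U v ≤ (1 + ε) * A * √v)
    (hint : ∀ a b, δ₁ * t ≤ a → a ≤ b → b ≤ t → IntervalIntegrable (fun v => (U v)⁻¹) volume a b)
    (hI : ∫ v in (δ₁ * t)..t, (U v)⁻¹ ≤ (1 + 5 * ε) * (2 * √t / A)) :
    (1 - δ) * A * √t ≤ U t := by
  by_contra hcon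
  push Not at hcon
  have hst : 0 < √t := Real.sqrt_pos.2 ht
  have hδsq : δ ^ 2 ≤ 1 / 4 := by nlinarith
  have hδsq0 : 0 < δ ^ 2 := by positivity
  have hδ₁1 : δ₁ ≤ 1 / 4 := by
    refine hδ₁δ.trans ?_
    have h1 : δ ^ 2 / 100 ≤ 1 / 400 := by linarith
    have h2 : 0 ≤ δ ^ 2 / 100 := by positivity
    nlinarith
  have hε1 : ε ≤ 1 / 400 := by linarith
  have hUt : 0 < U t := hpos t (by nlinarith) le_rfl
  set b := (1 - δ) * t with hb
  have hab : δ₁ * t ≤ b := by
    rw [hb]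
    have : δ₁ ≤ 1 - δ := by linarith
    exact mul_le_mul_of_nonneg_right this ht.le
  have hbt : b ≤ t := by rw [hb]; nlinarith
  have ha0 : 0 < δ₁ * t := by positivity
  have h1 : ∫ v in (δ₁ * t)..b, ((1 + ε) * A * √v)⁻¹ ≤ ∫ v in (δ₁ * t)..b, (U v)⁻¹ := by
    refine intervalIntegral.integral_mono_on hab ?_ (hint _ _ le_rfl hab hbt) fun v hv => ?_
    · refine ContinuousOn.intervalIntegrable ?_
      rw [uIcc_of_le hab]
      refine ContinuousOn.inv₀ (by fun_prop) fun v hv => ?_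
      have : 0 < √v := Real.sqrt_pos.2 (ha0.trans_le hv.1)
      positivity
    · have h2 := hup v hv.1 (hv.2.trans hbt)
      exact inv_anti₀ (hpos v hv.1 (hv.2.trans hbt)) h2
  have h2 : ∫ v in (δ₁ * t)..b, ((1 + ε) * A * √v)⁻¹ =
      ((1 + ε) * A)⁻¹ * (2 * (√b - √(δ₁ * t))) := by
    rw [← integral_inv_sqrt ha0 hab, ← intervalIntegral.integral_const_mul]
    refine intervalIntegral.integral_congr fun v _ => ?_
    simp only [mul_inv]
  have h3 : δ * t / U t ≤ ∫ v in b..t, (U v)⁻¹ := by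
    have h4 : ∫ _v in b..t, (U t)⁻¹ ≤ ∫ v in b..t, (U v)⁻¹ := by
      refine intervalIntegral.integral_mono_on hbt intervalIntegrable_const
        (hint _ _ hab hbt le_rfl) fun v hv => ?_
      exact inv_anti₀ (hpos v (hab.trans hv.1) hv.2) (hmono v (hab.trans hv.1) hv.2)
    rw [intervalIntegral.integral_const, smul_eq_mul] at h4
    have e1 : t - b = δ * t := by rw [hb]; ring
    rw [e1] at h4
    rwa [div_eq_mul_inv]
  have h4 : (δ + δ ^ 2) * √t / A ≤ δ * t / U t := by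
    have e1 : δ * t / ((1 - δ) * A * √t) ≤ δ * t / U t :=
      div_le_div_of_nonneg_left (by positivity) hUt hcon.le
    refine le_trans ?_ e1
    have hδ3 : 0 < 1 - δ := by linarith
    rw [div_le_div_iff₀ hA (by positivity)]
    have e2 : (δ + δ ^ 2) * √t * ((1 - δ) * A * √t) = (δ + δ ^ 2) * (1 - δ) * A * (√t ^ 2) := by
      ring
    rw [e2, Real.sq_sqrt ht.le]
    have e3 : (δ + δ ^ 2) * (1 - δ) ≤ δ := by nlinarith [sq_nonneg δ]
    calc (δ + δ ^ 2) * (1 - δ) * A * t = (δ + δ ^ 2) * (1 - δ) * (A * t) := by ring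
      _ ≤ δ * (A * t) := mul_le_mul_of_nonneg_right e3 (by positivity)
      _ = δ * t * A := by ring
  have h5 : √b = √(1 - δ) * √t := by rw [hb, Real.sqrt_mul (by linarith)]
  have h6 : √(δ₁ * t) = √δ₁ * √t := Real.sqrt_mul hδ₁.le _
  have h7 : 1 - δ / 2 - δ ^ 2 / 4 ≤ √(1 - δ) := by
    refine Real.le_sqrt_of_sq_le ?_
    nlinarith [sq_nonneg δ, mul_nonneg hδ.le (sq_nonneg δ), sq_nonneg (δ ^ 2)]
  have h8 : √δ₁ ≤ δ ^ 2 / 100 := by
    refine Real.sqrt_le_iff.2 ⟨by positivity, hδ₁δ⟩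
  have hi1 := hint (δ₁ * t) b le_rfl hab hbt
  have hi2 := hint b t hab hbt le_rfl
  rw [← intervalIntegral.integral_add_adjacent_intervals hi1 hi2] at hI
  rw [h2, h5, h6] at h1
  have h9 : ((1 + ε) * A)⁻¹ * (2 * (√(1 - δ) * √t - √δ₁ * √t)) + (δ + δ ^ 2) * √t / A ≤
      (1 + 5 * ε) * (2 * √t / A) := by linarith
  have h10 : ((1 + ε) * A)⁻¹ * (2 * (√(1 - δ) * √t - √δ₁ * √t)) + (δ + δ ^ 2) * √t / A =
      (√t / A) * ((1 + ε)⁻¹ * (2 * (√(1 - δ) - √δ₁)) + (δ + δ ^ 2)) := by
    rw [mul_inv]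
    field_simp
  have h11 : (1 + 5 * ε) * (2 * √t / A) = (√t / A) * (2 + 10 * ε) := by ring
  rw [h10, h11] at h9
  have h12 := le_of_mul_le_mul_left h9 (by positivity)
  have h13 : 1 - ε ≤ (1 + ε)⁻¹ := by
    rw [inv_eq_one_div, le_div_iff₀ (by positivity)]
    nlinarith
  have h14 : 1 - δ / 2 - δ ^ 2 / 4 - δ ^ 2 / 100 ≤ √(1 - δ) - √δ₁ := by linarith
  have h15 : 0 ≤ 1 - δ / 2 - δ ^ 2 / 4 - δ ^ 2 / 100 := by linarith
  have h16 : (1 - ε) * (2 * (1 - δ / 2 - δ ^ 2 / 4 - δ ^ 2 / 100)) ≤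
      (1 + ε)⁻¹ * (2 * (√(1 - δ) - √δ₁)) :=
    mul_le_mul h13 (by linarith) (by linarith) (by positivity)
  have h17 : ε * (1 - δ / 2 - δ ^ 2 / 4 - δ ^ 2 / 100) ≤ ε * 1 :=
    mul_le_mul_of_nonneg_left (by linarith) hε.le
  have h18 : (1 - ε) * (2 * (1 - δ / 2 - δ ^ 2 / 4 - δ ^ 2 / 100)) =
      2 * (1 - δ / 2 - δ ^ 2 / 4 - δ ^ 2 / 100) -
        2 * (ε * (1 - δ / 2 - δ ^ 2 / 4 - δ ^ 2 / 100)) := by ring
  linarith

end Pool.Agent.BDRY
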