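import Pool.Agent.Work.MP_209cb6_gt.B2.GaussCore
import Pool.Agent.Work.MP_209cb6_gt.B2.Embed

/-!
# BDRY2, module M2: the heat kernel is nearly Gaussian (final form)
-/

set_option autoImplicit false

open MeasureTheory MeasureTheory.Measure Metric Set Filter Topology
open scoped ENNReal NNReal

namespace Pool.Agent.BDRY

universe u

/-- Hellinger closeness gives `TestClose`. -/
theorem testClose_of_hell {X : Type u} [MeasurableSpace X] {m μ : Measure X} [SigmaFinite m]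
    [IsProbabilityMeasure μ] (hac : μ ≪ m) {g : X → ℝ} (hg : Integrable g m) (g0 : ∀ x, 0 ≤ g x)
    (hg2 : ∫ x, g x ∂m ≤ 2) {ε : ℝ} (hε : 0 ≤ ε)
    (hH : 6 * ∫ x, (√(μ.rnDeriv m x).toReal - √(g x)) ^ 2 ∂m ≤ ε ^ 2) :
    TestClose m μ g ε := by
  intro φ hφ M hM
  set ρ : X → ℝ := fun x => (μ.rnDeriv m x).toReal with hρ
  have hρi : Integrable ρ m := Measure.integrable_toReal_rnDeriv
  have hρ1 : ∫ x, ρ x ∂m = 1 := by
    rw [hρ, Measure.integral_toReal_rnDeriv hac]; simp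
  have hρ0 : ∀ x, 0 ≤ ρ x := fun x => ENNReal.toReal_nonneg
  have h1 : ∫ y, φ y ∂μ = ∫ y, φ y * ρ y ∂m := by
    rw [← integral_rnDeriv_smul hac]
    refine integral_congr_ae (ae_of_all _ fun x => ?_)
    simp only [smul_eq_mul, hρ]
    ring
  have hi1 : Integrable (fun y => φ y * ρ y) m := by
    refine Integrable.mono' (hρi.const_mul M) (hφ.aestronglyMeasurable.mul
      hρi.aestronglyMeasurable) (ae_of_all _ fun y => ?_)
    rw [Real.norm_eq_abs, abs_mul, abs_of_nonneg (hρ0 y)]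
    exact mul_le_mul_of_nonneg_right (hM y) (hρ0 y)
  have hi2 : Integrable (fun y => φ y * g y) m := by
    refine Integrable.mono' (hg.const_mul M) (hφ.aestronglyMeasurable.mul
      hg.aestronglyMeasurable) (ae_of_all _ fun y => ?_)
    rw [Real.norm_eq_abs, abs_mul, abs_of_nonneg (g0 y)]
    exact mul_le_mul_of_nonneg_right (hM y) (g0 y)
  have hdi : Integrable (fun y => |ρ y - g y|) m := (hρi.sub hg).abs
  have h2 : |∫ y, φ y ∂μ - ∫ y, φ y * g y ∂m| ≤ M * ∫ y, |ρ y - g y| ∂m := by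
    rw [h1, ← integral_sub hi1 hi2, ← integral_const_mul]
    refine (abs_integral_le_integral_abs).trans (integral_mono (hi1.sub hi2).abs
      (hdi.const_mul M) fun y => ?_)
    simp only
    rw [← mul_sub, abs_mul]
    exact mul_le_mul_of_nonneg_right (hM y) (abs_nonneg _)
  have h3 := hell_tv hρi hg hρ0 g0
  rw [hρ1] at h3
  have hHnn : 0 ≤ ∫ x, (√(ρ x) - √(g x)) ^ 2 ∂m := integral_nonneg fun x => sq_nonneg _
  have h4 : (∫ x, |ρ x - g x| ∂m) ^ 2 ≤ ε ^ 2 := by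
    refine h3.trans (le_trans ?_ hH)
    rw [mul_comm]
    exact mul_le_mul_of_nonneg_right (by linarith) hHnn
  have h5 : ∫ x, |ρ x - g x| ∂m ≤ ε := (abs_le_of_sq_le_sq' h4 hε).2
  rcases isEmpty_or_nonempty X with hX | ⟨⟨x₀⟩⟩
  · exfalso
    have : μ = 0 := Measure.eq_zero_of_isEmpty μ
    exact IsProbabilityMeasure.ne_zero μ this
  · have hM0 : 0 ≤ M := (abs_nonneg _).trans (hM x₀)
    exact h2.trans (mul_le_mul_of_nonneg_left h5 hM0)

/-- **M2.** If the volume ratios of `ball z R` are about `a` for `R` between `η √t` and `√t / η`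
(and grow at most exponentially beyond), then the heat kernel at time `t` is nearly Gaussian. -/
theorem gauss_kernel (n : ℕ) {ε C₀ : ℝ} (hε : 0 < ε) (hC₀ : 0 ≤ C₀) :
    ∃ η₀ : ℝ, 0 < η₀ ∧ η₀ ≤ 1 / 16 ∧ ∃ c₀ : ℝ, 0 < c₀ ∧ ∀ η, 0 < η → η ≤ η₀ →
    ∀ (X : Type u) [MetricSpace X] [MeasurableSpace X] [BorelSpace X] [ProperSpace X]
      (K : ℝ) (m : Measure X) (μ : ℝ → Measure X) (z : X) (a t : ℝ), K ≤ 0 →
      (∀ (x : X) (r : ℝ), m (closedBall x r) < ∞) →
      (∀ (x : X) (r : ℝ), 0 < r → 0 < m (ball x r)) →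
      (∃ (x : X) (c : ℝ), 0 < c ∧ ∫⁻ y, ENNReal.ofReal (Real.exp (-c * dist x y ^ 2)) ∂m < ∞) →
      IsEVIFlow K (n + 1) m μ → μ 0 = dirac z → 0 < a → 0 < t → -K * t ≤ c₀ * η ^ 2 →
      (∀ R, η * √t ≤ R → R ≤ √t / η →
        m.real (ball z R) ≤ (1 + η) * (a * (omN n * R ^ (n + 1)))) →
      (∀ R, η * √t ≤ R → R ≤ √t / η →
        (1 - η) * (a * (omN n * R ^ (n + 1))) ≤ m.real (ball z R)) →
      (∀ R, √t / η ≤ R →
        m.real (ball z R) ≤ C₀ * (a * (omN n * √t ^ (n + 1))) * Real.exp (C₀ * R / √t)) →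
      |Real.log (UN (n + 1) m (μ t)) -
        (Real.log a / (n + 1 : ℕ) + Real.log (4 * Real.pi * t) / 2 + 1 / 2)| ≤ ε ∧
      TestClose m (μ t) (gG n a t z) ε ∧
      ∫ x, (√((μ t).rnDeriv m x).toReal - √(gG n a t z x)) ^ 2 ∂m ≤ ε ∧
      |∫ y, dist y z ^ 2 ∂(μ t) - 2 * (n + 1 : ℕ) * t| ≤ ε * t ∧
      Integrable (gG n a t z) m ∧ |∫ y, gG n a t z y ∂m - 1| ≤ ε ∧
      W2 (μ t) (densM m (ball z (√t / η)) (gsn z t)) ^ 2 ≤ ε * t := by
  set N : ℝ := ((n + 1 : ℕ) : ℝ) with hN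
  have hN1 : (1 : ℝ) ≤ N := by rw [hN]; exact_mod_cast Nat.succ_le_succ (Nat.zero_le n)
  have hN0 : 0 < N := by linarith
  set δ : ℝ := min (1 / 4) (min (ε / (40 * N)) (ε ^ 2 / (24 * N))) with hδdef
  have hδ : 0 < δ := by positivity
  have hδ4 : δ ≤ 1 / 4 := min_le_left _ _
  have hδ1 : 40 * N * δ ≤ ε := by
    have h1 : δ ≤ ε / (40 * N) := (min_le_right _ _).trans (min_le_left _ _)
    rw [le_div_iff₀ (by positivity)] at h1
    linarith
  have hδ2 : 24 * N * δ ≤ ε ^ 2 := by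
    have h1 : δ ≤ ε ^ 2 / (24 * N) := (min_le_right _ _).trans (min_le_right _ _)
    rw [le_div_iff₀ (by positivity)] at h1
    linarith
  have hδN : δ ≤ N * δ := le_mul_of_one_le_left hδ.le hN1
  set e : ℝ := δ ^ 2 / 200 with he
  set δ₁ : ℝ := (δ ^ 2 / 100) ^ 2 with hδ₁
  have he0 : 0 < e := by positivity
  have hδ₁0 : 0 < δ₁ := by positivity
  have heδ : e ≤ δ := by
    rw [he]
    nlinarith
  set d : ℝ := min e δ₁ with hd
  have hd0 : 0 < d := by positivity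
  obtain ⟨η₀, hη₀, hη₀1, H⟩ := gauss_bounds.{u} n (δ := d) (C₀ := C₀) hd0 hC₀
  refine ⟨η₀, hη₀, hη₀1, e / 2, by positivity, ?_⟩
  intro η hη hηη X _ _ _ _ K m μ z a t hK hfin hpos hexp h h0 ha ht hKt hupp hlow hgr
  have hst : 0 < √t := Real.sqrt_pos.2 ht
  have hsf := sigmaFinite_of_fin hfin
  have hfin' : ∀ R, m (ball z R) < ∞ := fun R =>
    (measure_mono ball_subset_closedBall).trans_lt (hfin z R)
  obtain ⟨H1, H2⟩ := H η hη hηη X m z a (√t) hfin' ha hst hupp hlow hgr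
  rw [Real.sq_sqrt ht.le] at H1 H2
  have hη1 : η ≤ 1 := by linarith
  have hρ : (1 : ℝ) ≤ 1 / η := by rw [le_div_iff₀ hη]; linarith
  have hρt : 1 / η * √t = √t / η := by ring
  have hd1 : d ≤ e := min_le_left _ _
  have hd2 : d ≤ δ₁ := min_le_right _ _
  set Z : ℝ := a * (4 * Real.pi * t) ^ (N / 2) with hZ
  have hpi := Real.pi_pos
  have hZ0 : 0 < Z := by positivity
  have hd1' : d ≤ 1 := by linarith
  have hcore := gauss_core (K := K) (N := n + 1) (m := m) (μ := μ) hK (Nat.succ_pos n) hfin hpos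
    hexp h h0 (a := a) (t := t) (δ := δ) (δ₁ := δ₁) (ε := e) (ρ := 1 / η) ha ht hδ hδ4 he0 le_rfl
    hδ₁0 le_rfl hρ (by
      rw [div_pow, one_pow, mul_one_div, div_le_iff₀ (by positivity)]
      exact hKt) ?_ ?_
  · obtain ⟨c1, c2, c3, c4⟩ := hcore
    have hgG : ∀ x, gsn z t x / (a * (4 * Real.pi * t) ^ (((n + 1 : ℕ) : ℝ) / 2)) =
        gG n a t z x := fun x => rfl
    simp only [hgG] at c2
    obtain ⟨hi, hi2⟩ := H1 t (by nlinarith) le_rfl
    have hgi : Integrable (gG n a t z) m := hi.div_const _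
    have hgint : ∫ y, gG n a t z y ∂m = (∫ y, Real.exp (-dist y z ^ 2 / (4 * t)) ∂m) / Z := by
      unfold gG
      rw [integral_div]
    have hup1 : ∫ y, gG n a t z y ∂m ≤ 1 + d := by
      rw [hgint, div_le_iff₀ hZ0]
      exact hi2
    have hlo1 : 1 - d ≤ ∫ y, gG n a t z y ∂m := by
      rw [hgint, le_div_iff₀ hZ0]
      refine H2.trans ?_
      exact setIntegral_le_integral hi (ae_of_all _ fun y => (Real.exp_pos _).le)
    have hdε : d ≤ ε := by linarith
    have hac := (un_pos_iff.1 (h.dom t ht)).1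
    have hp := (h.p2 t ht.le).1
    refine ⟨c1.trans (by linarith), ?_, c2.trans (by linarith), c3.trans ?_, hgi, ?_, ?_⟩
    · refine testClose_of_hell hac hgi (fun x => gG_nonneg n ha ht z x) (by linarith) hε.le ?_
      calc 6 * ∫ x, (√((μ t).rnDeriv m x).toReal - √(gG n a t z x)) ^ 2 ∂m ≤ 6 * (4 * N * δ) := by
            linarith
        _ = 24 * N * δ := by ring
        _ ≤ _ := hδ2
    · have h1 : 12 * N * δ ≤ ε := by linarith
      calc 12 * N * t * δ = 12 * N * δ * t := by ring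
        _ ≤ ε * t := mul_le_mul_of_nonneg_right h1 ht.le
    · rw [abs_le]
      constructor <;> linarith
    · rw [hρt] at c4
      refine c4.trans ?_
      calc 40 * N * t * δ = 40 * N * δ * t := by ring
        _ ≤ ε * t := mul_le_mul_of_nonneg_right hδ1 ht.le
  · intro τ hτ1 hτ2
    have hτ0 : 0 < τ := lt_of_lt_of_le (by positivity) hτ1
    obtain ⟨hi, hi2⟩ := H1 τ (le_trans (mul_le_mul_of_nonneg_right hd2 ht.le) hτ1) hτ2
    refine ⟨hi, hi2.trans ?_⟩
    exact mul_le_mul_of_nonneg_right (by linarith) (by positivity)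
  · rw [hρt]
    refine le_trans ?_ H2
    exact mul_le_mul_of_nonneg_right (by linarith) hZ0.le

end Pool.Agent.BDRY
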