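import Pool.Agent.Work.MP_209cb6_gt.HExp

/-!
# BDRY2, M11b: from charts and near-affine functions to the map `Φ`

Data: in every point `y` of the ball of radius `(1 - κ/2) D` around `y0` a near-isometric chart
`φ y` of `closedBall y r_y`, `r_y = (D - dist y y0) / C1`, in which the functions `b i` are near
affine with slopes `g y i`, the slopes at `y0` having a dual family `w`.  Then
`Φ = ∑ i, (b i - b i y0) • w i` is a near isometry onto a dense set in all these balls.
-/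

set_option autoImplicit false
set_option linter.unusedSectionVars false

open MeasureTheory Metric Set
open scoped ENNReal RealInnerProductSpace

namespace Pool.Agent.BDRY

universe u

/-- a near isometric chart of `closedBall y r` with error `e` -/
structure ChartAt {X : Type u} [MetricSpace X] (n : ℕ) (y : X) (r e : ℝ) (φ : X → E n) : Prop where
  iso : ∀ a ∈ closedBall y r, ∀ b ∈ closedBall y r, |‖φ a - φ b‖ - dist a b| ≤ e
  dense : ∀ u : E n, ‖u - φ y‖ ≤ r → ∃ a ∈ closedBall y r, ‖φ a - u‖ ≤ e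

/-- the linear map with the slopes `g` and the vectors `w` -/
noncomputable def LW {n : ℕ} (g w : Fin (n + 1) → E n) : E n →ₗ[ℝ] E n :=
  ∑ i, (innerₛₗ ℝ (g i)).smulRight (w i)

theorem LW_apply {n : ℕ} (g w : Fin (n + 1) → E n) (v : E n) :
    LW g w v = ∑ i, ⟪g i, v⟫ • w i := by
  simp [LW]

theorem LW_norm_le {n : ℕ} {g w : Fin (n + 1) → E n} {G W : ℝ} (hG : ∀ i, ‖g i‖ ≤ G)
    (hG0 : 0 ≤ G) (hW : ∑ i, ‖w i‖ ≤ W) (v : E n) : ‖LW g w v‖ ≤ W * G * ‖v‖ := by
  rw [LW_apply]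
  calc ‖∑ i, ⟪g i, v⟫ • w i‖ ≤ ∑ i, ‖⟪g i, v⟫ • w i‖ := norm_sum_le _ _
    _ ≤ ∑ i, G * ‖v‖ * ‖w i‖ := by
        refine Finset.sum_le_sum fun i _ => ?_
        rw [norm_smul]
        refine mul_le_mul_of_nonneg_right ?_ (norm_nonneg _)
        exact (norm_inner_le_norm _ _).trans (mul_le_mul_of_nonneg_right (hG i) (norm_nonneg _))
    _ = G * ‖v‖ * ∑ i, ‖w i‖ := by rw [Finset.mul_sum]
    _ ≤ G * ‖v‖ * W := mul_le_mul_of_nonneg_left hW (by positivity)
    _ = W * G * ‖v‖ := by ring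

theorem LW_dual {n : ℕ} {g w : Fin (n + 1) → E n}
    (h : ∀ i j, ⟪g i, w j⟫ = if i = j then 1 else 0) : LW g w = LinearMap.id := by
  have h1 : ∀ j, LW g w (w j) = w j := by
    intro j
    rw [LW_apply, Finset.sum_eq_single j]
    · rw [h, if_pos rfl, one_smul]
    · intro i _ hij
      rw [h, if_neg hij, zero_smul]
    · intro hj; exact absurd (Finset.mem_univ j) hj
  have hli : LinearIndependent ℝ w := by
    rw [Fintype.linearIndependent_iff]
    intro c hc i
    have h2 : ⟪g i, ∑ j, c j • w j⟫ = c i := by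
      rw [inner_sum, Finset.sum_eq_single i]
      · rw [inner_smul_right, h, if_pos rfl, mul_one]
      · intro j _ hij
        rw [inner_smul_right, h, if_neg (Ne.symm hij), mul_zero]
      · intro hj; exact absurd (Finset.mem_univ i) hj
    rw [← h2, hc, inner_zero_right]
  have hsp : Submodule.span ℝ (Set.range w) = ⊤ :=
    hli.span_eq_top_of_card_eq_finrank' (by simp)
  exact LinearMap.ext_on_range hsp (fun j => by rw [h1]; rfl)

section step

variable {X : Type u} [MetricSpace X] {n : ℕ} {b : Fin (n + 1) → X → ℝ} {y0 : X}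
  {w : Fin (n + 1) → E n} {W : ℝ}

/-- the map `Φ` -/
noncomputable def PhiW (b : Fin (n + 1) → X → ℝ) (w : Fin (n + 1) → E n) (y0 : X) (a : X) : E n :=
  ∑ i, (b i a - b i y0) • w i

theorem PhiW_self : PhiW b w y0 y0 = 0 := by simp [PhiW]

theorem PhiW_sub (a a' : X) : PhiW b w y0 a - PhiW b w y0 a' = ∑ i, (b i a - b i a') • w i := by
  unfold PhiW
  rw [← Finset.sum_sub_distrib]
  refine Finset.sum_congr rfl fun i _ => ?_
  rw [← sub_smul]; congr 1; ring

theorem PhiW_lip (hb : ∀ i, LipschitzWith 1 (b i)) (hW : ∑ i, ‖w i‖ ≤ W) (a a' : X) :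
    ‖PhiW b w y0 a - PhiW b w y0 a'‖ ≤ W * dist a a' := by
  rw [PhiW_sub]
  calc _ ≤ ∑ i, ‖(b i a - b i a') • w i‖ := norm_sum_le _ _
    _ ≤ ∑ i, dist a a' * ‖w i‖ := by
        refine Finset.sum_le_sum fun i _ => ?_
        rw [norm_smul]
        refine mul_le_mul_of_nonneg_right ?_ (norm_nonneg _)
        have := (hb i).dist_le_mul a a'
        rwa [NNReal.coe_one, one_mul, Real.dist_eq] at this
    _ = dist a a' * ∑ i, ‖w i‖ := by rw [Finset.mul_sum]
    _ ≤ dist a a' * W := mul_le_mul_of_nonneg_left hW dist_nonneg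
    _ = W * dist a a' := mul_comm _ _

/-- `b i` is near affine in the chart `φ` with slope `g i` -/
def NearAff (b : Fin (n + 1) → X → ℝ) (y : X) (r e : ℝ) (φ : X → E n) (g : Fin (n + 1) → E n) :
    Prop :=
  ∀ i, ∀ a ∈ closedBall y r, |b i a - b i y - ⟪g i, φ a - φ y⟫| ≤ e

theorem PhiW_near {y : X} {r e : ℝ} {φ : X → E n} {g : Fin (n + 1) → E n}
    (h : NearAff b y r e φ g) (hW : ∑ i, ‖w i‖ ≤ W) (he : 0 ≤ e) {a a' : X}
    (ha : a ∈ closedBall y r) (ha' : a' ∈ closedBall y r) :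
    ‖(PhiW b w y0 a - PhiW b w y0 a') - LW g w (φ a - φ a')‖ ≤ 2 * W * e := by
  rw [PhiW_sub, LW_apply, ← Finset.sum_sub_distrib]
  calc _ ≤ ∑ i, ‖(b i a - b i a') • w i - ⟪g i, φ a - φ a'⟫ • w i‖ := norm_sum_le _ _
    _ ≤ ∑ i, (2 * e) * ‖w i‖ := by
        refine Finset.sum_le_sum fun i _ => ?_
        rw [← sub_smul, norm_smul]
        refine mul_le_mul_of_nonneg_right ?_ (norm_nonneg _)
        have h1 := h i a ha
        have h2 := h i a' ha'
        have h3 : ⟪g i, φ a - φ a'⟫ = ⟪g i, φ a - φ y⟫ - ⟪g i, φ a' - φ y⟫ := by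
          rw [← inner_sub_right]; congr 1; abel
        rw [h3, Real.norm_eq_abs]
        rw [abs_le] at h1 h2 ⊢
        constructor <;> linarith [h1.1, h1.2, h2.1, h2.2]
    _ = (2 * e) * ∑ i, ‖w i‖ := by rw [Finset.mul_sum]
    _ ≤ (2 * e) * W := mul_le_mul_of_nonneg_left hW (by positivity)
    _ = 2 * W * e := by ring

/-- slopes of 1-Lipschitz functions -/
theorem slope_le {y : X} {r e : ℝ} {φ : X → E n} {g : Fin (n + 1) → E n}
    (hb : ∀ i, LipschitzWith 1 (b i)) (hφ : ChartAt n y r e φ) (h : NearAff b y r e φ g)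
    (hr : 0 < r) (her : 4 * e ≤ r) (i : Fin (n + 1)) : ‖g i‖ ≤ 2 := by
  rcases eq_or_ne (g i) 0 with h0 | h0
  · rw [h0, norm_zero]; norm_num
  have hg : 0 < ‖g i‖ := norm_pos_iff.2 h0
  obtain ⟨a, ha, hau⟩ := hφ.dense (φ y + (r / ‖g i‖) • g i) (by
    rw [add_sub_cancel_left, norm_smul, Real.norm_eq_abs, abs_of_pos (by positivity),
      div_mul_cancel₀ _ hg.ne'])
  have h1 := h i a ha
  have h2 : ⟪g i, φ a - φ y⟫ = r * ‖g i‖ + ⟪g i, φ a - (φ y + (r / ‖g i‖) • g i)⟫ := by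
    have h3 : φ a - φ y = (r / ‖g i‖) • g i + (φ a - (φ y + (r / ‖g i‖) • g i)) := by abel
    rw [h3, inner_add_right, inner_smul_right, real_inner_self_eq_norm_sq]
    congr 1
    field_simp
  have h3 : |⟪g i, φ a - (φ y + (r / ‖g i‖) • g i)⟫| ≤ ‖g i‖ * e :=
    (abs_real_inner_le_norm _ _).trans (mul_le_mul_of_nonneg_left hau hg.le)
  have h4 : |b i a - b i y| ≤ r := by
    have := (hb i).dist_le_mul a y
    rw [NNReal.coe_one, one_mul, Real.dist_eq] at this
    exact this.trans (mem_closedBall.1 ha)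
  rw [abs_le] at h1 h3 h4
  have h5 : (r - e) * ‖g i‖ ≤ r + e := by nlinarith [h1.1, h1.2, h3.1, h3.2, h4.1, h4.2]
  by_contra hcon
  push Not at hcon
  nlinarith

/-- transport of near isometry from one chart to an overlapping one -/
theorem transport {y y' : X} {r r' e ρ δ : ℝ} {φ φ' : X → E n} {g g' : Fin (n + 1) → E n}
    (hφ : ChartAt n y r e φ) (hφ' : ChartAt n y' r' e φ') (h : NearAff b y r e φ g)
    (h' : NearAff b y' r' e φ' g') (hg' : ∀ i, ‖g' i‖ ≤ 2) (hW : ∑ i, ‖w i‖ ≤ W) (hW0 : 0 ≤ W)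
    (he : 0 ≤ e) (hρ : 0 < ρ) (hr : dist y y' + ρ + 2 * e ≤ r) (hr' : ρ ≤ r')
    (hδ : 0 ≤ δ) (hL : ∀ v, |‖LW g w v‖ - ‖v‖| ≤ δ * ‖v‖) (v : E n) :
    |‖LW g' w v‖ - ‖v‖| ≤ ((1 + (6 * W + 3) * e / ρ) * (1 + δ) - 1) * ‖v‖ := by
  -- vectors of length `ρ`
  have key : ∀ v : E n, ‖v‖ = ρ →
      |‖LW g' w v‖ - ‖v‖| ≤ ((1 + (6 * W + 3) * e / ρ) * (1 + δ) - 1) * ‖v‖ := by
    intro v hv
    obtain ⟨a, ha, hav⟩ := hφ'.dense (φ' y' + v) (by rw [add_sub_cancel_left, hv]; exact hr')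
    have hy' : y' ∈ closedBall y' r' := mem_closedBall_self (hρ.le.trans hr')
    have h1 := hφ'.iso a ha y' hy'
    have hA' : ‖(φ' a - φ' y') - v‖ ≤ e := by
      have : φ' a - φ' y' - v = φ' a - (φ' y' + v) := by abel
      rw [this]; exact hav
    have h2 : |‖φ' a - φ' y'‖ - ρ| ≤ e := by
      rw [← hv]; exact (abs_norm_sub_norm_le _ _).trans hA'
    have hd : dist a y' ≤ ρ + 2 * e := by
      rw [abs_le] at h1 h2; linarith [h1.1, h2.2]
    have hay : a ∈ closedBall y r := by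
      rw [mem_closedBall]
      have := dist_triangle a y' y
      rw [dist_comm y' y] at this
      linarith
    have hy'y : y' ∈ closedBall y r := by
      rw [mem_closedBall, dist_comm]; linarith
    have h3 := hφ.iso a hay y' hy'y
    have h4 := PhiW_near (w := w) (y0 := y) h hW he hay hy'y
    have h5 := PhiW_near (w := w) (y0 := y) h' hW he ha hy'
    have h6 : ‖LW g' w v - LW g' w (φ' a - φ' y')‖ ≤ W * 2 * e := by
      rw [← map_sub]
      refine (LW_norm_le hg' (by norm_num) hW _).trans ?_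
      rw [norm_sub_rev]
      exact mul_le_mul_of_nonneg_left hA' (by positivity)
    have h7 : ‖LW g' w v - LW g w (φ a - φ y')‖ ≤ (6 * W) * e := by
      have e1 : LW g' w v - LW g w (φ a - φ y') = (LW g' w v - LW g' w (φ' a - φ' y')) -
          ((PhiW b w y a - PhiW b w y y') - LW g' w (φ' a - φ' y')) +
          ((PhiW b w y a - PhiW b w y y') - LW g w (φ a - φ y')) := by abel
      rw [e1]
      refine (norm_add_le _ _).trans ?_
      refine (add_le_add_left (norm_sub_le _ _) _).trans ?_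
      linarith
    have h8 := (abs_norm_sub_norm_le _ _).trans h7
    have h9 := hL (φ a - φ y')
    have h10 : |‖φ a - φ y'‖ - ρ| ≤ 3 * e := by
      rw [abs_le] at h1 h2 h3 ⊢
      constructor <;> linarith [h1.1, h1.2, h2.1, h2.2, h3.1, h3.2]
    have h11 : δ * ‖φ a - φ y'‖ ≤ δ * (ρ + 3 * e) := by
      refine mul_le_mul_of_nonneg_left ?_ hδ
      rw [abs_le] at h10; linarith [h10.2]
    rw [hv]
    have h12 : ((1 + (6 * W + 3) * e / ρ) * (1 + δ) - 1) * ρ =
        δ * ρ + (6 * W + 3) * e + (6 * W + 3) * e * δ := by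
      field_simp; ring
    rw [h12]
    have h13 : 0 ≤ W * e * δ := by positivity
    rw [abs_le] at h8 h9 h10 ⊢
    constructor <;> nlinarith [h8.1, h8.2, h9.1, h9.2, h10.1, h10.2]
  rcases eq_or_ne v 0 with h0 | h0
  · simp [h0]
  have hv0 : 0 < ‖v‖ := norm_pos_iff.2 h0
  have hk := key ((ρ / ‖v‖) • v) (by
    rw [norm_smul, Real.norm_eq_abs, abs_of_pos (by positivity), div_mul_cancel₀ _ hv0.ne'])
  rw [map_smul, norm_smul, norm_smul, Real.norm_eq_abs, abs_of_pos (show 0 < ρ / ‖v‖ by positivity),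
    ← mul_sub, abs_mul, abs_of_pos (show 0 < ρ / ‖v‖ by positivity), mul_left_comm] at hk
  exact le_of_mul_le_mul_left hk (by positivity)

end step

/-- From charts and near-affine functions to `Φ`. -/
theorem gram_phi (n : ℕ) {C1 CP κ ε : ℝ} (hC1 : 1 ≤ C1) (hCP : 0 ≤ CP) (hκ : 0 < κ) (hκ1 : κ ≤ 1)
    (hε : 0 < ε) : ∃ e : ℝ, 0 < e ∧
    ∀ (X : Type u) [MetricSpace X], Geod X → ∀ (y0 : X) (D : ℝ), 0 < D →
    ∀ (b : Fin (n + 1) → X → ℝ), (∀ i, LipschitzWith 1 (b i)) →
    ∀ (φ : X → X → E n) (g : X → Fin (n + 1) → E n),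
    (∀ y, dist y y0 ≤ (1 - κ / 2) * D →
      ChartAt n y ((D - dist y y0) / C1) (e * D) (φ y) ∧
      NearAff b y ((D - dist y y0) / C1) (e * D) (φ y) (g y)) →
    ∀ w : Fin (n + 1) → E n, (∀ i j, ⟪g y0 i, w j⟫ = if i = j then 1 else 0) →
    ∑ i, ‖w i‖ ≤ CP →
    ∃ Φ : X → E n, Φ y0 = 0 ∧ (∀ a a', ‖Φ a - Φ a'‖ ≤ CP * dist a a') ∧
      ∀ y, dist y y0 ≤ (1 - κ / 2) * D → ChartAt n y ((D - dist y y0) / C1) (ε * D) Φ := by
  have hC0 : 0 < C1 := by linarith
  have hQ : 0 < (6 * CP + 3) * (8 * C1 / κ) := by positivity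
  obtain ⟨M, hM⟩ := exists_nat_ge (4 * C1 / κ)
  have hM0 : (0 : ℝ) < M := lt_of_lt_of_le (by positivity) hM
  set Q : ℝ := (6 * CP + 3) * (8 * C1 / κ) with hQd
  set δ : ℝ := min (ε / 8) (1 / 4) with hδd
  have hδ0 : 0 < δ := by positivity
  have hδ1 : δ ≤ ε / 8 := min_le_left _ _
  have hδ2 : δ ≤ 1 / 4 := min_le_right _ _
  set e : ℝ := min (κ / (32 * C1)) (min (ε / (8 * (CP + 1))) (δ / (2 * (M * Q)))) with hed
  have he0 : 0 < e := by positivity
  have he1 : e ≤ κ / (32 * C1) := min_le_left _ _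
  have he2 : e ≤ ε / (8 * (CP + 1)) := (min_le_right _ _).trans (min_le_left _ _)
  have he3 : e ≤ δ / (2 * (M * Q)) := (min_le_right _ _).trans (min_le_right _ _)
  have he1' : 32 * C1 * e ≤ κ := by
    rw [le_div_iff₀ (by positivity)] at he1; linarith
  have he2' : 8 * (CP * e) + 8 * e ≤ ε := by
    rw [le_div_iff₀ (by positivity)] at he2; linarith
  have hq : ((1 + Q * e) ^ M - 1 : ℝ) ≤ δ := by
    have h1 : M * (Q * e) ≤ δ / 2 := by
      rw [le_div_iff₀ (by positivity)] at he3; linarith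
    have h2 : (1 + Q * e : ℝ) ^ M ≤ Real.exp (M * (Q * e)) := by
      rw [Real.exp_nat_mul]
      refine pow_le_pow_left₀ (by positivity) ?_ _
      have := Real.add_one_le_exp (Q * e)
      linarith
    have h3 := Real.abs_exp_sub_one_le (x := M * (Q * e)) (by
      rw [abs_of_nonneg (by positivity)]; linarith)
    rw [abs_of_nonneg (by positivity : (0 : ℝ) ≤ M * (Q * e)), abs_le] at h3
    linarith [h3.2]
  refine ⟨e, he0, ?_⟩
  intro X _ hgeo y0 D hD b hb φ g hyp w hw hW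
  have heD : 0 ≤ e * D := by positivity
  -- the induction along geodesics
  have hC1D : κ / C1 * D ≤ κ * D := by
    refine mul_le_mul_of_nonneg_right ?_ hD.le
    rw [div_le_iff₀ hC0]; nlinarith
  have hrad : ∀ y, dist y y0 ≤ (1 - κ / 2) * D → κ * D / (2 * C1) ≤ (D - dist y y0) / C1 := by
    intro y hy
    rw [div_le_div_iff₀ (by positivity) hC0]
    nlinarith
  have heD2 : e * D ≤ κ * D / (32 * C1) := by
    rw [le_div_iff₀ (by positivity)]
    nlinarith
  set h : ℝ := D / M with hh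
  have hh0 : 0 < h := by positivity
  have hh1 : h ≤ κ * D / (4 * C1) := by
    rw [hh, div_le_div_iff₀ hM0 (by positivity)]
    rw [div_le_iff₀ hκ] at hM
    nlinarith
  have hslope : ∀ y, dist y y0 ≤ (1 - κ / 2) * D → ∀ i, ‖g y i‖ ≤ 2 := by
    intro y hy
    obtain ⟨h1, h2⟩ := hyp y hy
    have h3 := hrad y hy
    have h4 : κ * D / (2 * C1) = 16 * (κ * D / (32 * C1)) := by ring
    refine slope_le hb h1 h2 (lt_of_lt_of_le (by positivity) h3) ?_
    have h5 : 0 ≤ κ * D / (32 * C1) := by positivity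
    linarith
  have ind : ∀ j : ℕ, ∀ y, dist y y0 ≤ j * h → dist y y0 ≤ (1 - κ / 2) * D →
      ∀ v, |‖LW (g y) w v‖ - ‖v‖| ≤ ((1 + Q * e) ^ j - 1) * ‖v‖ := by
    intro j
    induction j with
    | zero =>
      intro y hy _ v
      have : y = y0 := by
        have h1 : dist y y0 ≤ 0 := by simpa using hy
        exact dist_le_zero.1 h1
      rw [this, LW_dual hw]
      simp
    | succ j ih =>
      intro y hy hy2 v
      have hj : (0 : ℝ) < j + 1 := by positivity
      have ht1 : 1 / ((j : ℝ) + 1) ≤ 1 := by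
        rw [div_le_one hj]; linarith [(Nat.cast_nonneg j : (0 : ℝ) ≤ j)]
      obtain ⟨y', h1, h2⟩ := hgeo y y0 (1 / ((j : ℝ) + 1)) (by positivity) ht1
      have hd0 : 0 ≤ dist y y0 := dist_nonneg
      push_cast at hy
      have h3 : dist y y' ≤ h := by
        rw [h1, div_mul_eq_mul_div, one_mul, div_le_iff₀ hj]
        linarith
      have h4 : dist y' y0 ≤ j * h := by
        rw [h2]
        have : (1 - 1 / ((j : ℝ) + 1)) = j / (j + 1) := by field_simp; ring
        rw [this, div_mul_eq_mul_div, div_le_iff₀ hj]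
        nlinarith [(Nat.cast_nonneg j : (0 : ℝ) ≤ j)]
      have h5 : dist y' y0 ≤ (1 - κ / 2) * D := by
        rw [h2]
        refine le_trans ?_ hy2
        have : 0 ≤ 1 / ((j : ℝ) + 1) * dist y y0 := by positivity
        nlinarith
      obtain ⟨c1, c2⟩ := hyp y hy2
      obtain ⟨c3, c4⟩ := hyp y' h5
      have r1 := hrad y hy2
      have r2 := hrad y' h5
      have hδj : (0 : ℝ) ≤ (1 + Q * e) ^ j - 1 := by
        have : (1 : ℝ) ≤ (1 + Q * e) ^ j := one_le_pow₀ (by nlinarith)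
        linarith
      have hr5 : 0 ≤ κ * D / (32 * C1) := by positivity
      have e1 : κ * D / (2 * C1) = 16 * (κ * D / (32 * C1)) := by ring
      have e2 : κ * D / (4 * C1) = 8 * (κ * D / (32 * C1)) := by ring
      have e3 : κ * D / (8 * C1) = 4 * (κ * D / (32 * C1)) := by ring
      have := transport (w := w) (ρ := κ * D / (8 * C1)) c3 c1 c4 c2 (hslope y hy2) hW hCP heD
        (by positivity) (by rw [dist_comm]; linarith) (by linarith) hδj (ih y' h4 h5) v
      refine this.trans (le_of_eq ?_)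
      congr 1
      have : (6 * CP + 3) * (e * D) / (κ * D / (8 * C1)) = Q * e := by
        rw [hQd]; field_simp
      rw [this, pow_succ]
      ring
  have hall : ∀ y, dist y y0 ≤ (1 - κ / 2) * D → ∀ v, |‖LW (g y) w v‖ - ‖v‖| ≤ δ * ‖v‖ := by
    intro y hy v
    refine (ind M y ?_ hy v).trans (mul_le_mul_of_nonneg_right hq (norm_nonneg _))
    rw [hh, mul_div_cancel₀ _ hM0.ne']
    nlinarith
  refine ⟨PhiW b w y0, PhiW_self, PhiW_lip hb hW, ?_⟩
  intro y hy
  obtain ⟨c1, c2⟩ := hyp y hy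
  have hL := hall y hy
  have hr0 : 0 < (D - dist y y0) / C1 := lt_of_lt_of_le (by positivity) (hrad y hy)
  have hrD : (D - dist y y0) / C1 ≤ D := by
    rw [div_le_iff₀ hC0]
    nlinarith [dist_nonneg (x := y) (y := y0)]
  set r : ℝ := (D - dist y y0) / C1 with hr
  have hyy : y ∈ closedBall y r := mem_closedBall_self hr0.le
  have hm1 : 8 * (CP * (e * D)) + 8 * (e * D) ≤ ε * D := by nlinarith
  have hm2 : δ * D ≤ ε * D / 8 := by nlinarith
  have hCPe : 0 ≤ CP * (e * D) := by positivity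
  have heD1 : e * D ≤ D := by
    have h1 : κ * D / (32 * C1) ≤ D := by
      rw [div_le_iff₀ (by positivity)]; nlinarith
    linarith
  constructor
  · intro a ha a' ha'
    have h1 := PhiW_near (w := w) (y0 := y0) c2 hW heD ha ha'
    have h2 := (abs_norm_sub_norm_le _ _).trans h1
    have h3 := hL (φ y a - φ y a')
    have h4 := c1.iso a ha a' ha'
    have h5 : dist a a' ≤ 2 * r := by
      have := dist_triangle_right a a' y
      rw [mem_closedBall] at ha ha'
      linarith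
    have h6 : ‖φ y a - φ y a'‖ ≤ 3 * D := by
      rw [abs_le] at h4; linarith [h4.2]
    have h7 : δ * ‖φ y a - φ y a'‖ ≤ 3 * (δ * D) := by
      have := mul_le_mul_of_nonneg_left h6 hδ0.le
      linarith
    rw [abs_le] at h2 h3 h4 ⊢
    constructor <;> linarith [h2.1, h2.2, h3.1, h3.2, h4.1, h4.2]
  · intro u hu
    have hinj : Function.Injective (LW (g y) w) := by
      rw [← LinearMap.ker_eq_bot, LinearMap.ker_eq_bot']
      intro v hv
      have h1 := hL v
      rw [hv, norm_zero, zero_sub, abs_neg, abs_of_nonneg (norm_nonneg v)] at h1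
      have h2 : 0 ≤ ‖v‖ := norm_nonneg v
      have h3 : ‖v‖ = 0 := by nlinarith
      exact norm_eq_zero.1 h3
    have hsur : Function.Surjective (LW (g y) w) := LinearMap.injective_iff_surjective.1 hinj
    obtain ⟨v, hv⟩ := hsur (u - PhiW b w y0 y)
    have h1 := hL v
    rw [hv] at h1
    have hv0 : 0 ≤ ‖v‖ := norm_nonneg v
    have h2 : (1 - δ) * ‖v‖ ≤ r := by
      rw [abs_le] at h1; nlinarith [h1.1]
    have h2' : ‖v‖ ≤ 4 / 3 * D := by nlinarith
    obtain ⟨a, ha, hav⟩ := c1.dense (φ y y + (1 - δ) • v) (by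
      rw [add_sub_cancel_left, norm_smul, Real.norm_eq_abs, abs_of_nonneg (by linarith)]
      exact h2)
    refine ⟨a, ha, ?_⟩
    have h3 := PhiW_near (w := w) (y0 := y0) c2 hW heD ha hyy
    have h4 : ‖LW (g y) w (φ y a - φ y y - (1 - δ) • v)‖ ≤ (1 + δ) * (e * D) := by
      have h5 := hL (φ y a - φ y y - (1 - δ) • v)
      have h6 : ‖φ y a - φ y y - (1 - δ) • v‖ ≤ e * D := by
        rw [sub_sub]; exact hav
      rw [abs_le] at h5
      nlinarith [h5.2]
    have h5 : ‖LW (g y) w (δ • v)‖ ≤ (1 + δ) * (δ * (4 / 3 * D)) := by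
      have h5 := hL (δ • v)
      have h6 : ‖δ • v‖ ≤ δ * (4 / 3 * D) := by
        rw [norm_smul, Real.norm_eq_abs, abs_of_pos hδ0]
        exact mul_le_mul_of_nonneg_left h2' hδ0.le
      rw [abs_le] at h5
      nlinarith [h5.2]
    have h6 : PhiW b w y0 a - u = ((PhiW b w y0 a - PhiW b w y0 y) - LW (g y) w (φ y a - φ y y)) +
        LW (g y) w (φ y a - φ y y - (1 - δ) • v) - LW (g y) w (δ • v) := by
      have h7 : u = PhiW b w y0 y + LW (g y) w v := by rw [hv]; abel
      rw [h7]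
      simp only [map_sub, map_smul]
      module
    rw [h6]
    refine (norm_sub_le _ _).trans ?_
    refine (add_le_add_left (norm_add_le _ _) _).trans ?_
    nlinarith

/-- The same in the form needed by the half-ball lemma. -/
theorem gram_charts (n : ℕ) {C1 CP κ ε : ℝ} (hC1 : 1 ≤ C1) (hCP : 0 ≤ CP) (hκ : 0 < κ)
    (hκ1 : κ ≤ 1) (hε : 0 < ε) : ∃ e : ℝ, 0 < e ∧
    ∀ (X : Type u) [MetricSpace X], Geod X → ∀ (y0 : X) (D : ℝ), 0 < D →
    ∀ (b : Fin (n + 1) → X → ℝ), (∀ i, LipschitzWith 1 (b i)) →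
    ∀ (φ : X → X → E n) (g : X → Fin (n + 1) → E n),
    (∀ y, dist y y0 ≤ (1 - κ / 2) * D →
      ChartAt n y ((D - dist y y0) / C1) (e * D) (φ y) ∧
      NearAff b y ((D - dist y y0) / C1) (e * D) (φ y) (g y)) →
    ∀ w : Fin (n + 1) → E n, (∀ i j, ⟪g y0 i, w j⟫ = if i = j then 1 else 0) →
    ∑ i, ‖w i‖ ≤ CP →
    ∃ Φ : X → E n, (∀ a a', dist (Φ a) (Φ a') ≤ CP * dist a a') ∧
      Charts n C1 D (κ * D) (ε * D) y0 Φ := by
  obtain ⟨e, he, H⟩ := gram_phi.{u} n hC1 hCP hκ hκ1 hε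
  refine ⟨e, he, ?_⟩
  intro X _ hgeo y0 D hD b hb φ g hyp w hw hW
  obtain ⟨Φ, h0, h1, h2⟩ := H X hgeo y0 D hD b hb φ g hyp w hw hW
  have hC0 : 0 < C1 := by linarith
  refine ⟨Φ, fun a a' => by rw [dist_eq_norm]; exact h1 a a', h0, ?_, ?_⟩
  · intro y hy a a' ha ha'
    rw [dist_eq_norm]
    refine (h2 y (by linarith)).iso a ?_ a' ?_
    · rw [mem_closedBall, le_div_iff₀ hC0]; linarith
    · rw [mem_closedBall, le_div_iff₀ hC0]; linarith
  · intro y hy u hu
    obtain ⟨a, ha, hau⟩ := (h2 y (by linarith)).dense u (by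
      rw [le_div_iff₀ hC0, ← dist_eq_norm]; linarith)
    refine ⟨a, ?_, by rw [dist_eq_norm]; exact hau⟩
    rw [mem_closedBall, le_div_iff₀ hC0] at ha
    linarith

end Pool.Agent.BDRY
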