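import Pool.Agent.Work.MP_209cb6_gt.Defs

set_option autoImplicit false
set_option linter.unusedSectionVars false

open MeasureTheory MeasureTheory.Measure Metric Set Filter Topology
open scoped ENNReal NNReal InnerProductSpace

namespace Pool.Agent.BDRY

namespace Hil

universe u v

variable {H : Type v} [NormedAddCommGroup H] [InnerProductSpace ℝ H]

/-- Stewart's identity. -/
theorem stewart (a b w : H) (t : ℝ) :
    ‖w - ((1 - t) • a + t • b)‖ ^ 2
      = (1 - t) * ‖w - a‖ ^ 2 + t * ‖w - b‖ ^ 2 - t * (1 - t) * ‖a - b‖ ^ 2 := by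
  have h1 : w - ((1 - t) • a + t • b) = (1 - t) • (w - a) + t • (w - b) := by
    module
  have h2 : a - b = (w - b) - (w - a) := by abel
  rw [h1, h2]
  rw [← real_inner_self_eq_norm_sq, ← real_inner_self_eq_norm_sq, ← real_inner_self_eq_norm_sq,
    ← real_inner_self_eq_norm_sq]
  simp only [inner_add_left, inner_add_right, inner_sub_left, inner_sub_right,
    real_inner_smul_right, real_inner_comm]
  ring

/-- near-convexity. -/
theorem near_convex {a b w : H} {t d η : ℝ} (ht : 0 ≤ t) (ht1 : t ≤ 1) (hd : 0 ≤ d) (hη : 0 ≤ η)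
    (h1 : ‖w - a‖ ≤ t * d + η) (h2 : ‖w - b‖ ≤ (1 - t) * d + η) (h3 : d - η ≤ ‖a - b‖) :
    ‖w - ((1 - t) • a + t • b)‖ ^ 2 ≤ 2 * η * d + η ^ 2 := by
  rw [stewart]
  have e1 : ‖w - a‖ ^ 2 ≤ (t * d + η) ^ 2 := pow_le_pow_left₀ (norm_nonneg _) h1 2
  have e2 : ‖w - b‖ ^ 2 ≤ ((1 - t) * d + η) ^ 2 := pow_le_pow_left₀ (norm_nonneg _) h2 2
  have e3 : d ^ 2 - 2 * d * η ≤ ‖a - b‖ ^ 2 := by
    by_cases hc : d ≤ η
    · nlinarith [sq_nonneg ‖a - b‖]
    · push Not at hc
      have := pow_le_pow_left₀ (by linarith) h3 2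
      nlinarith
  have f1 := mul_le_mul_of_nonneg_left e1 (by linarith : 0 ≤ 1 - t)
  have f2 := mul_le_mul_of_nonneg_left e2 ht
  have f3 := mul_le_mul_of_nonneg_left e3 (mul_nonneg ht (by linarith : 0 ≤ 1 - t))
  have f4 : (1 - t) * (t * d + η) ^ 2 + t * ((1 - t) * d + η) ^ 2
      - t * (1 - t) * (d ^ 2 - 2 * d * η) = 6 * (t * (1 - t)) * (d * η) + η ^ 2 := by ring
  have f5 : t * (1 - t) ≤ 1 / 4 := by nlinarith [sq_nonneg (t - 1 / 2)]
  have f6 : 0 ≤ d * η := mul_nonneg hd hη
  have f7 : 6 * (t * (1 - t)) * (d * η) ≤ 2 * (d * η) := by nlinarith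
  linarith

section points
variable {X : Type u} [MetricSpace X]

/-- one geodesic step. -/
theorem geod_step (hg : Geod X) {F : X → H} {x : X} {R η e : ℝ} (hη : 0 ≤ η) (hR : 0 ≤ R)
    (hF : ∀ y ∈ closedBall x (5 * R), ∀ z ∈ closedBall x (5 * R), |‖F y - F z‖ - dist y z| ≤ η)
    {y z : X} (hy : y ∈ closedBall x (2 * R)) (hz : z ∈ closedBall x R) {t : ℝ} (ht : 0 ≤ t)
    (ht1 : t ≤ 1) {u : H} (hu : ‖F y - u‖ ≤ e) :
    ∃ w ∈ closedBall x (5 * R), ‖F w - ((1 - t) • u + t • F z)‖
      ≤ e + √(2 * η * (3 * R) + η ^ 2) := by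
  rw [mem_closedBall] at hy hz
  obtain ⟨w, hw1, hw2⟩ := hg y z t ht ht1
  have hyz : dist y z ≤ 3 * R := (dist_triangle_right y z x).trans (by linarith)
  have hwx : dist w x ≤ 5 * R := by
    have h1 : dist w x ≤ dist w y + dist y x := dist_triangle _ _ _
    rw [dist_comm w y, hw1] at h1
    have h2 : t * dist y z ≤ 1 * (3 * R) :=
      mul_le_mul ht1 hyz dist_nonneg zero_le_one
    linarith
  have my : y ∈ closedBall x (5 * R) := by rw [mem_closedBall]; linarith
  have mz : z ∈ closedBall x (5 * R) := by rw [mem_closedBall]; linarith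
  have mw : w ∈ closedBall x (5 * R) := hwx
  refine ⟨w, mw, ?_⟩
  have h1 := abs_le.1 (hF w mw y my)
  have h2 := abs_le.1 (hF w mw z mz)
  have h3 := abs_le.1 (hF y my z mz)
  rw [dist_comm w y, hw1] at h1
  rw [hw2] at h2
  have h4 := near_convex (a := F y) (b := F z) (w := F w) (t := t) (d := dist y z) (η := η) ht ht1
    dist_nonneg hη (by linarith [h1.2]) (by linarith [h2.2]) (by linarith [h3.1])
  have h5 : ‖F w - ((1 - t) • F y + t • F z)‖ ≤ √(2 * η * (3 * R) + η ^ 2) := by
    refine Real.le_sqrt_of_sq_le (h4.trans ?_)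
    have := mul_le_mul_of_nonneg_left hyz (by linarith : 0 ≤ 2 * η)
    linarith
  have h6 : F w - ((1 - t) • u + t • F z)
      = (F w - ((1 - t) • F y + t • F z)) + (1 - t) • (F y - u) := by module
  rw [h6]
  refine (norm_add_le _ _).trans ?_
  rw [norm_smul, Real.norm_of_nonneg (by linarith : 0 ≤ 1 - t)]
  have h7 : (1 - t) * ‖F y - u‖ ≤ 1 * e :=
    mul_le_mul (by linarith) hu (norm_nonneg _) zero_le_one
  linarith

/-- The simplex spanned by `F (p j)` is nearly in the image. -/
theorem simplex_near (hg : Geod X) {F : X → H} {x : X} {R η e1 : ℝ} (hη : 0 ≤ η) (hR : 0 < R)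
    (he1 : √(2 * η * (3 * R) + η ^ 2) ≤ e1)
    (hF : ∀ y ∈ closedBall x (5 * R), ∀ z ∈ closedBall x (5 * R), |‖F y - F z‖ - dist y z| ≤ η)
    (p : ℕ → X) (hp : ∀ j, p j ∈ closedBall x R) (k : ℕ) (hsmall : (k : ℝ) * e1 + 2 * η ≤ R)
    (c : ℕ → ℝ) (hc : ∀ j, 0 ≤ c j) (hc1 : ∑ j ∈ Finset.range k, c j < 1) :
    ∃ w ∈ closedBall x (2 * R),
      ‖F w - F x - ∑ j ∈ Finset.range k, c j • (F (p j) - F x)‖ ≤ k * e1 := by
  have he0 : 0 ≤ e1 := (Real.sqrt_nonneg _).trans he1
  -- stronger statement with normalised partial sums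
  set σ : ℝ := 1 - ∑ j ∈ Finset.range k, c j with hσ
  have hσ0 : 0 < σ := by rw [hσ]; linarith
  set S : ℕ → ℝ := fun j => σ + ∑ i ∈ Finset.range j, c i with hS
  have hsum0 : ∀ j, 0 ≤ ∑ i ∈ Finset.range j, c i := fun j => Finset.sum_nonneg fun i _ => hc i
  have hS0 : ∀ j, 0 < S j := fun j => by
    have := hsum0 j
    simp only [hS]
    linarith
  have hxx : x ∈ closedBall x (5 * R) := mem_closedBall_self (by linarith)
  have hh : ∀ i, ‖F (p i) - F x‖ ≤ R + η := by
    intro i
    have hpi := hp i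
    rw [mem_closedBall] at hpi
    have h1 := abs_le.1 (hF (p i) (by rw [mem_closedBall]; linarith) x hxx)
    linarith [h1.2]
  have hz : ∀ j, ‖(S j)⁻¹ • ∑ i ∈ Finset.range j, c i • (F (p i) - F x)‖ ≤ R + η := by
    intro j
    rw [norm_smul, Real.norm_of_nonneg (inv_pos.2 (hS0 j)).le]
    have h1 : ‖∑ i ∈ Finset.range j, c i • (F (p i) - F x)‖
        ≤ ∑ i ∈ Finset.range j, c i * (R + η) := by
      refine (norm_sum_le _ _).trans (Finset.sum_le_sum fun i _ => ?_)
      rw [norm_smul, Real.norm_of_nonneg (hc i)]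
      exact mul_le_mul_of_nonneg_left (hh i) (hc i)
    rw [← Finset.sum_mul] at h1
    have h2 : ∑ i ∈ Finset.range j, c i ≤ S j := by simp only [hS]; linarith
    have h3 : (∑ i ∈ Finset.range j, c i) * (R + η) ≤ S j * (R + η) :=
      mul_le_mul_of_nonneg_right h2 (by linarith)
    rw [inv_mul_le_iff₀ (hS0 j)]
    linarith
  have key : ∀ j ≤ k, ∃ w ∈ closedBall x (2 * R),
      ‖F w - (F x + (S j)⁻¹ • ∑ i ∈ Finset.range j, c i • (F (p i) - F x))‖ ≤ j * e1 := by
    intro j
    induction j with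
    | zero =>
      intro _
      exact ⟨x, mem_closedBall_self (by linarith), by simp⟩
    | succ j ih =>
      intro hjk
      obtain ⟨y, hy, hy2⟩ := ih (by omega)
      have ht0 : 0 ≤ c j / S (j + 1) := div_nonneg (hc j) (hS0 _).le
      have hSj : S (j + 1) = S j + c j := by
        simp only [hS, Finset.sum_range_succ]
        ring
      have ht1 : c j / S (j + 1) ≤ 1 := by
        rw [div_le_one (hS0 _), hSj]
        linarith [(hS0 j).le]
      obtain ⟨w, hw, hw2⟩ := geod_step hg hη hR.le hF hy (hp j) ht0 ht1 hy2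
      have hcomb : (1 - c j / S (j + 1)) • (F x + (S j)⁻¹ •
            ∑ i ∈ Finset.range j, c i • (F (p i) - F x)) + (c j / S (j + 1)) • F (p j)
          = F x + (S (j + 1))⁻¹ • ∑ i ∈ Finset.range (j + 1), c i • (F (p i) - F x) := by
        rw [Finset.sum_range_succ]
        have h1 : 1 - c j / S (j + 1) = S j / S (j + 1) := by
          rw [hSj]
          have := (hS0 (j + 1)).ne'
          rw [hSj] at this
          field_simp
          ring
        rw [h1]
        set V := ∑ i ∈ Finset.range j, c i • (F (p i) - F x) with hV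
        have h2 : (S j / S (j + 1)) • (F x + (S j)⁻¹ • V)
            = (S j / S (j + 1)) • F x + (S (j + 1))⁻¹ • V := by
          rw [smul_add, smul_smul]
          congr 2
          have := (hS0 j).ne'
          field_simp
        have h3 : (S j / S (j + 1)) = 1 - c j / S (j + 1) := h1.symm
        rw [h2, h3, div_eq_inv_mul]
        module
      rw [hcomb] at hw2
      have hle : ‖F w - (F x + (S (j + 1))⁻¹ • ∑ i ∈ Finset.range (j + 1), c i • (F (p i) - F x))‖
          ≤ ((j + 1 : ℕ) : ℝ) * e1 := by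
        refine hw2.trans ?_
        push_cast
        linarith
      refine ⟨w, ?_, hle⟩
      have h4 := abs_le.1 (hF w hw x hxx)
      have h5 : ‖F w - F x‖ ≤ ((j + 1 : ℕ) : ℝ) * e1 + (R + η) := by
        have h6 : F w - F x = (F w - (F x + (S (j + 1))⁻¹ •
            ∑ i ∈ Finset.range (j + 1), c i • (F (p i) - F x)))
            + (S (j + 1))⁻¹ • ∑ i ∈ Finset.range (j + 1), c i • (F (p i) - F x) := by abel
        rw [h6]
        exact (norm_add_le _ _).trans (add_le_add hle (hz (j + 1)))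
      have h7 : ((j + 1 : ℕ) : ℝ) * e1 ≤ k * e1 :=
        mul_le_mul_of_nonneg_right (by exact_mod_cast hjk) he0
      rw [mem_closedBall]
      linarith [h4.1]
  obtain ⟨w, hw, hw2⟩ := key k le_rfl
  refine ⟨w, hw, ?_⟩
  have hSk : S k = 1 := by simp only [hS, hσ]; ring
  rw [hSk, inv_one, one_smul] at hw2
  rwa [sub_sub]

theorem sep_aux {h : ℕ → H} {V : ℕ → Submodule ℝ H} {ε β : ℝ}
    (hV : ∀ i j, i < j → h i ∈ V j) (k : ℕ) (hd : ∀ j < k, ∀ v ∈ V j, ε ≤ ‖h j - v‖)
    (hε : 0 ≤ ε) (b : ℕ → ℝ) (hb : ∀ j < k, b j = 0 ∨ β ≤ |b j|)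
    (hne : ∃ j < k, b j ≠ 0) : β * ε ≤ ‖∑ j ∈ Finset.range k, b j • h j‖ := by
  induction k with
  | zero =>
    obtain ⟨j, hj, -⟩ := hne
    omega
  | succ k ih =>
    rw [Finset.sum_range_succ]
    by_cases hk : b k = 0
    · rw [hk, zero_smul, add_zero]
      refine ih (fun j hj => hd j (by omega)) (fun j hj => hb j (by omega)) ?_
      obtain ⟨j, hj, hj2⟩ := hne
      refine ⟨j, ?_, hj2⟩
      rcases Nat.lt_succ_iff_lt_or_eq.1 hj with h | h
      · exact h
      · rw [h] at hj2
        exact absurd hk hj2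
    · have hβk : β ≤ |b k| := (hb k (by omega)).resolve_left hk
      set v : H := -((b k)⁻¹ • ∑ j ∈ Finset.range k, b j • h j) with hv
      have hvV : v ∈ V k := by
        rw [hv]
        refine Submodule.neg_mem _ (Submodule.smul_mem _ _ (Submodule.sum_mem _ fun i hi => ?_))
        exact Submodule.smul_mem _ _ (hV i k (Finset.mem_range.1 hi))
      have h1 : (∑ j ∈ Finset.range k, b j • h j) + b k • h k = b k • (h k - v) := by
        rw [hv, sub_neg_eq_add, smul_add, smul_smul, mul_inv_cancel₀ hk, one_smul, add_comm]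
      rw [h1, norm_smul, Real.norm_eq_abs]
      exact mul_le_mul hβk (hd k (by omega) v hvV) hε (abs_nonneg _)

open Classical in
/-- Dimension bound: the image of a ball is close to an `N`-dimensional subspace. -/
theorem exists_subspace (hg : Geod X) [MeasurableSpace X] [BorelSpace X] {m : Measure X}
    {F : X → H} {x : X} {R η e1 ε : ℝ} (hη : 0 ≤ η) (hR : 0 < R) (hε : 0 < ε) (hεR : ε ≤ R)
    (he1 : √(2 * η * (3 * R) + η ^ 2) ≤ e1)
    (hF : ∀ y ∈ closedBall x (5 * R), ∀ z ∈ closedBall x (5 * R), |‖F y - F z‖ - dist y z| ≤ η)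
    (N M : ℕ) (hM0 : 0 < M) (hsmall : ((N : ℝ) + 1) * e1 + 2 * η ≤ R)
    (hsmall2 : 2 * ((N : ℝ) + 1) * e1 + η ≤ ε / (2 * (((N : ℝ) + 1) * M)))
    {v1 v2 : ℝ} (hv20 : 0 ≤ v2)
    (hv1 : ∀ y ∈ closedBall x (2 * R), ENNReal.ofReal (v1 * (ε / (4 * (((N : ℝ) + 1) * M))) ^ N)
      ≤ m (ball y (ε / (4 * (((N : ℝ) + 1) * M)))))
    (hv2 : m (ball x (3 * R)) ≤ ENNReal.ofReal (v2 * (3 * R) ^ N))
    (hM : v2 * (3 * R) ^ N < M * (v1 * (ε / (4 * ((N : ℝ) + 1))) ^ N)) :
    ∃ V : Submodule ℝ H, Module.Finite ℝ V ∧ Module.finrank ℝ V ≤ N ∧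
      ∀ p ∈ closedBall x R, ∃ v ∈ V, ‖F p - F x - v‖ < ε := by
  by_contra hcon
  push Not at hcon
  have hcon' : ∀ V : Submodule ℝ H, ∃ p ∈ closedBall x R, Module.Finite ℝ V →
      Module.finrank ℝ V ≤ N → ∀ v ∈ V, ε ≤ ‖F p - F x - v‖ := by
    intro V
    by_cases h1 : Module.Finite ℝ V
    · by_cases h2 : Module.finrank ℝ V ≤ N
      · obtain ⟨p, hp, hp2⟩ := hcon V h1 h2
        exact ⟨p, hp, fun _ _ => hp2⟩
      · exact ⟨x, mem_closedBall_self hR.le, fun _ h => absurd h h2⟩
    · exact ⟨x, mem_closedBall_self hR.le, fun h => absurd h h1⟩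
  choose g hg1 hg2 using hcon'
  set W : ℕ → Submodule ℝ H := fun n => Nat.rec (⊥ : Submodule ℝ H)
    (fun _ V => V ⊔ Submodule.span ℝ {F (g V) - F x}) n with hW
  have hW0 : W 0 = ⊥ := rfl
  have hWs : ∀ n, W (n + 1) = W n ⊔ Submodule.span ℝ {F (g (W n)) - F x} := fun n => rfl
  have hWfin : ∀ n, Module.Finite ℝ (W n) := by
    intro n
    induction n with
    | zero => rw [hW0]; infer_instance
    | succ n ih => rw [hWs]; infer_instance
  have hWrank : ∀ n, Module.finrank ℝ (W n) ≤ n := by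
    intro n
    induction n with
    | zero => rw [hW0]; simp
    | succ n ih =>
      rw [hWs]
      have := hWfin n
      have h1 := Submodule.finrank_add_le_finrank_add_finrank (W n)
        (Submodule.span ℝ {F (g (W n)) - F x})
      have h2 : Module.finrank ℝ (Submodule.span ℝ ({F (g (W n)) - F x} : Set H)) ≤ 1 := by
        have h3 := finrank_span_le_card (R := ℝ) ({F (g (W n)) - F x} : Set H)
        simpa using h3
      omega
  set p : ℕ → X := fun j => g (W j) with hp
  set h : ℕ → H := fun j => F (p j) - F x with hh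
  have hWh : ∀ i j, i < j → h i ∈ W j := by
    intro i j hij
    induction j with
    | zero => omega
    | succ j ih =>
      rw [hWs]
      rcases Nat.lt_succ_iff_lt_or_eq.1 hij with h1 | h1
      · exact Submodule.mem_sup_left (ih h1)
      · rw [h1]
        exact Submodule.mem_sup_right (Submodule.mem_span_singleton_self _)
  have hd : ∀ j < N + 1, ∀ v ∈ W j, ε ≤ ‖h j - v‖ := fun j hj v hv =>
    hg2 (W j) (hWfin j) ((hWrank j).trans (by omega)) v hv
  have hpx : ∀ j, p j ∈ closedBall x R := fun j => hg1 (W j)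
  set D : ℝ := ((N : ℝ) + 1) * M with hD
  have hMr : (0 : ℝ) < M := by exact_mod_cast hM0
  have hN1 : (0 : ℝ) < (N : ℝ) + 1 := by positivity
  have hD0 : 0 < D := mul_pos hN1 hMr
  set c : (Fin (N + 1) → Fin M) → ℕ → ℝ := fun u j =>
    if hj : j < N + 1 then ((u ⟨j, hj⟩ : ℕ) : ℝ) / D else 0 with hc
  have hc0 : ∀ u j, 0 ≤ c u j := by
    intro u j
    simp only [hc]
    split_ifs
    · positivity
    · exact le_rfl
  have hc1 : ∀ u, ∑ j ∈ Finset.range (N + 1), c u j < 1 := by
    intro u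
    have h1 : ∀ j ∈ Finset.range (N + 1), c u j ≤ ((M : ℝ) - 1) / D := by
      intro j hj
      have hj' := Finset.mem_range.1 hj
      simp only [hc, dif_pos hj']
      refine div_le_div_of_nonneg_right ?_ hD0.le
      have h2 : ((u ⟨j, hj'⟩ : ℕ)) + 1 ≤ M := (u ⟨j, hj'⟩).2
      have h3 : (((u ⟨j, hj'⟩ : ℕ) : ℝ)) + 1 ≤ M := by exact_mod_cast h2
      linarith
    refine (Finset.sum_le_sum h1).trans_lt ?_
    rw [Finset.sum_const, Finset.card_range, nsmul_eq_mul, hD]
    push_cast
    rw [← mul_div_assoc, mul_div_mul_left _ _ hN1.ne', div_lt_one hMr]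
    linarith
  have hq : ∀ u : Fin (N + 1) → Fin M, ∃ w ∈ closedBall x (2 * R),
      ‖F w - F x - ∑ j ∈ Finset.range (N + 1), c u j • h j‖ ≤ ((N : ℝ) + 1) * e1 := by
    intro u
    have h1 := simplex_near hg hη hR he1 hF p hpx (N + 1) (by push_cast; exact hsmall) (c u)
      (hc0 u) (hc1 u)
    push_cast at h1
    exact h1
  choose q hq1 hq2 using hq
  set ρ : ℝ := ε / (4 * D) with hρ
  have hρ0 : 0 < ρ := by positivity
  have hsep : ∀ u u' : Fin (N + 1) → Fin M, u ≠ u' → ρ + ρ ≤ dist (q u) (q u') := by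
    intro u u' huu
    have h1 : 1 / D * ε ≤ ‖∑ j ∈ Finset.range (N + 1), (c u j - c u' j) • h j‖ := by
      refine sep_aux (V := W) hWh (N + 1) hd hε.le _ ?_ ?_
      · intro j hj
        simp only [hc, dif_pos hj]
        by_cases he : (u ⟨j, hj⟩) = u' ⟨j, hj⟩
        · left
          rw [he, sub_self]
        · right
          rw [← sub_div, abs_div, abs_of_pos hD0]
          refine div_le_div_of_nonneg_right ?_ hD0.le
          have h2 : ((u ⟨j, hj⟩ : ℕ) : ℤ) - ((u' ⟨j, hj⟩ : ℕ) : ℤ) ≠ 0 := by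
            intro h3
            apply he
            apply Fin.ext
            omega
          have h3 := Int.one_le_abs h2
          exact_mod_cast h3
      · by_contra hall
        push Not at hall
        apply huu
        funext j
        have h2 := hall j.1 j.2
        simp only [hc, dif_pos j.2] at h2
        have h3 : ((u j : ℕ) : ℝ) = ((u' j : ℕ) : ℝ) := by
          have h4 := sub_eq_zero.1 h2
          exact (div_left_inj' hD0.ne').1 h4
        exact Fin.ext (by exact_mod_cast h3)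
    have h2 : ∑ j ∈ Finset.range (N + 1), (c u j - c u' j) • h j
        = (F (q u) - F (q u'))
          - (F (q u) - F x - ∑ j ∈ Finset.range (N + 1), c u j • h j)
          + (F (q u') - F x - ∑ j ∈ Finset.range (N + 1), c u' j • h j) := by
      simp only [sub_smul, Finset.sum_sub_distrib]
      abel
    have h3 : ‖∑ j ∈ Finset.range (N + 1), (c u j - c u' j) • h j‖
        ≤ ‖F (q u) - F (q u')‖ + ((N : ℝ) + 1) * e1 + ((N : ℝ) + 1) * e1 := by
      rw [h2]
      refine (norm_add_le _ _).trans (add_le_add ((norm_sub_le _ _).trans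
        (add_le_add le_rfl (hq2 u))) (hq2 u'))
    have h25 : closedBall x (2 * R) ⊆ closedBall x (5 * R) :=
      closedBall_subset_closedBall (by linarith)
    have h4 := abs_le.1 (hF (q u) (h25 (hq1 u)) (q u') (h25 (hq1 u')))
    have h5 : ρ + ρ = 1 / D * ε - ε / (2 * D) := by
      rw [hρ]
      field_simp
      ring
    rw [h5]
    linarith [h4.2]
  have hdisj : Pairwise (fun u u' => Disjoint (ball (q u) ρ) (ball (q u') ρ)) :=
    fun u u' huu => ball_disjoint_ball (hsep u u' huu)
  have hsub : (⋃ u, ball (q u) ρ) ⊆ ball x (3 * R) := by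
    refine iUnion_subset fun u => ball_subset_ball' ?_
    have h1 := hq1 u
    rw [mem_closedBall] at h1
    have h2 : ρ < R := by
      rw [hρ, div_lt_iff₀ (by positivity)]
      have h3 : (1 : ℝ) ≤ M := by exact_mod_cast hM0
      have h4 : (1 : ℝ) ≤ D := by
        rw [hD]
        have : (0 : ℝ) ≤ N := Nat.cast_nonneg N
        nlinarith
      nlinarith
    linarith
  have hmeas : ∑ u : (Fin (N + 1) → Fin M), m (ball (q u) ρ) ≤ m (ball x (3 * R)) := by
    rw [← tsum_fintype (L := .unconditional _), ← measure_iUnion hdisj (fun u => measurableSet_ball)]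
    exact measure_mono hsub
  have hlow : ((M : ℝ≥0∞) ^ (N + 1)) * ENNReal.ofReal (v1 * ρ ^ N)
      ≤ ∑ u : (Fin (N + 1) → Fin M), m (ball (q u) ρ) := by
    have h1 : ∑ _u : (Fin (N + 1) → Fin M), ENNReal.ofReal (v1 * ρ ^ N)
        ≤ ∑ u : (Fin (N + 1) → Fin M), m (ball (q u) ρ) :=
      Finset.sum_le_sum fun u _ => hv1 (q u) (hq1 u)
    refine le_trans ?_ h1
    rw [Finset.sum_const, nsmul_eq_mul, Finset.card_univ, Fintype.card_fun, Fintype.card_fin,
      Fintype.card_fin]
    push_cast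
    exact le_rfl
  have hfin := (hlow.trans hmeas).trans hv2
  have h1 : ((M : ℝ≥0∞) ^ (N + 1)) * ENNReal.ofReal (v1 * ρ ^ N)
      = ENNReal.ofReal ((M : ℝ) ^ (N + 1) * (v1 * ρ ^ N)) := by
    have h2 : ENNReal.ofReal ((M : ℝ) ^ (N + 1)) = (M : ℝ≥0∞) ^ (N + 1) := by
      rw [ENNReal.ofReal_pow (Nat.cast_nonneg M), ENNReal.ofReal_natCast]
    rw [← h2, ← ENNReal.ofReal_mul (by positivity)]
  rw [h1] at hfin
  have h2 := (ENNReal.ofReal_le_ofReal_iff (by positivity)).1 hfin
  have h3 : (M : ℝ) ^ (N + 1) * (v1 * ρ ^ N) = M * (v1 * (ε / (4 * ((N : ℝ) + 1))) ^ N) := by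
    have h4 : (M : ℝ) ^ N * ρ ^ N = (ε / (4 * ((N : ℝ) + 1))) ^ N := by
      rw [← mul_pow, hρ, hD]
      congr 1
      field_simp
    rw [← h4]
    ring
  rw [h3] at h2
  linarith

end points

section surj
variable {X : Type u} [MetricSpace X] [MeasurableSpace X] [BorelSpace X] [ProperSpace X]

/-- a measurable approximation of an arbitrary map at scale `η`. -/
theorem exists_measurable_approx {Y : Type*} [MeasurableSpace Y] (f : X → Y) {η : ℝ}
    (hη : 0 < η) : ∃ f' : X → Y, Measurable f' ∧ ∀ p, ∃ q, dist p q < η ∧ f' p = f q := by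
  classical
  by_cases hX : Nonempty X
  · obtain ⟨d, hd⟩ := TopologicalSpace.exists_dense_seq X
    have hex : ∀ p : X, ∃ i : ℕ, dist p (d i) < η := by
      intro p
      obtain ⟨y, hi, ⟨i, rfl⟩⟩ := Metric.dense_iff.1 hd p η hη
      exact ⟨i, by rwa [mem_ball, dist_comm] at hi⟩
    refine ⟨fun p => f (d (Nat.find (hex p))), ?_, fun p => ⟨d (Nat.find (hex p)),
      Nat.find_spec (hex p), rfl⟩⟩
    have h1 : Measurable fun p : X => Nat.find (hex p) := by
      refine measurable_find hex fun k => ?_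
      exact measurableSet_lt (measurable_id.dist measurable_const) measurable_const
    exact (measurable_from_top (f := fun i : ℕ => f (d i))).comp h1
  · have := not_nonempty_iff.1 hX
    exact ⟨f, measurable_of_empty f, fun p => (hX ⟨p⟩).elim⟩

/-- a scale at which the annulus has small volume. -/
theorem exists_scale {N : ℕ} {D : EuclideanSpace ℝ (Fin N) → ℝ} (hD : Continuous D) {ρ : ℕ → ℝ}
    (hρ : Antitone ρ) {B : Set (EuclideanSpace ℝ (Fin N))} (hB : MeasurableSet B) {I : ℕ}
    (hI : 0 < I) {b : ℝ} (hb : volume B ≤ ENNReal.ofReal b) :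
    ∃ i < I, volume (B ∩ {v | ρ (i + 1) ≤ D v ∧ D v < ρ i}) ≤ ENNReal.ofReal (b / I) := by
  by_contra hcon
  push Not at hcon
  set S : ℕ → Set (EuclideanSpace ℝ (Fin N)) := fun i => B ∩ {v | ρ (i + 1) ≤ D v ∧ D v < ρ i}
    with hS
  have hSm : ∀ i, MeasurableSet (S i) := fun i =>
    hB.inter ((measurableSet_le measurable_const hD.measurable).inter
      (measurableSet_lt hD.measurable measurable_const))
  have hdis : Pairwise (Function.onFun Disjoint S) := by
    have h1 : ∀ i j, i < j → Disjoint (S i) (S j) := by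
      intro i j hij
      rw [Set.disjoint_left]
      rintro v ⟨-, h1, -⟩ ⟨-, -, h2⟩
      have h3 : ρ j ≤ ρ (i + 1) := hρ (by omega)
      linarith
    intro i j hij
    rcases lt_or_gt_of_ne hij with h | h
    · exact h1 i j h
    · exact (h1 j i h).symm
  have h1 : ∑ i ∈ Finset.range I, volume (S i) ≤ ENNReal.ofReal b := by
    rw [← measure_biUnion_finset (fun i _ j _ hij => hdis hij) (fun i _ => hSm i)]
    refine (measure_mono ?_).trans hb
    exact iUnion₂_subset fun i _ => inter_subset_left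
  have h2 : ∑ _i ∈ Finset.range I, ENNReal.ofReal (b / I)
      < ∑ i ∈ Finset.range I, volume (S i) := by
    refine ENNReal.sum_lt_sum_of_nonempty (Finset.nonempty_range_iff.2 hI.ne') fun i hi => ?_
    exact hcon i (Finset.mem_range.1 hi)
  rw [Finset.sum_const, Finset.card_range, nsmul_eq_mul, ← ENNReal.ofReal_natCast,
    ← ENNReal.ofReal_mul (Nat.cast_nonneg I), mul_div_cancel₀ _ (by exact_mod_cast hI.ne')] at h2
  exact absurd (h2.trans_le h1) (lt_irrefl _)

/-- Near-isometric maps of a ball whose volume behaves as in `ℝ^N` nearly cover. -/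
theorem surj_near {N : ℕ} {m : Measure X} {f : X → EuclideanSpace ℝ (Fin N)} {x : X}
    {s η ε l v1 v2 : ℝ} {I : ℕ} (hs : 0 < s) (hη : 0 < η) (hε : 0 < ε) (hεs : ε ≤ s)
    (hfx : f x = 0)
    (hf : ∀ y ∈ closedBall x (5 * s), ∀ z ∈ closedBall x (5 * s), |‖f y - f z‖ - dist y z| ≤ η)
    (hl : 0 < l) (hl1 : l ≤ 1 / 2) (hI : 0 < I) (hη1 : 3 * η ≤ l * (l * ε / 2 * l ^ I))
    (hv10 : 0 ≤ v1) (hv20 : 0 ≤ v2) (hfin : m (ball x (2 * s)) ≠ ∞)
    (hv1 : ENNReal.ofReal (v1 * (2 * s) ^ N) ≤ m (ball x (2 * s)))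
    (hv2 : ∀ y ∈ closedBall x (5 * s), ∀ r, l * ε / 2 * l ^ I ≤ r → r ≤ s →
      m (ball y r) ≤ ENNReal.ofReal (v2 * r ^ N))
    (hlt : v2 * ((1 + 2 * l) ^ N * (((2 + l) * s) ^ N - ((1 - l) * ε) ^ N)
      + (2 + l) ^ N * ((3 * s) ^ N / I)) < v1 * (2 * s) ^ N)
    {u : EuclideanSpace ℝ (Fin N)} (hu : ‖u‖ ≤ s) :
    ∃ p ∈ closedBall x (5 * s), ‖f p - u‖ < ε := by
  by_contra hcon
  push Not at hcon
  obtain ⟨f', hf'm, hf'⟩ := exists_measurable_approx f hη
  set c0 : ℝ := (volume (ball (0 : EuclideanSpace ℝ (Fin N)) 1)).toReal with hc0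
  have hc0pos : 0 < c0 :=
    ENNReal.toReal_pos (measure_ball_pos _ _ one_pos).ne' measure_ball_lt_top.ne
  have hL : ∀ (v : EuclideanSpace ℝ (Fin N)) (r : ℝ), 0 < r →
      volume (ball v r) = ENNReal.ofReal (r ^ N * c0) := by
    intro v r hr
    rw [Measure.addHaar_ball_of_pos volume v hr, finrank_euclideanSpace_fin,
      ENNReal.ofReal_mul (pow_nonneg hr.le _), hc0,
      ENNReal.ofReal_toReal measure_ball_lt_top.ne]
  set ρ : ℕ → ℝ := fun i => l * ε / 2 * l ^ i with hρ
  have hρpos : ∀ i, 0 < ρ i := fun i => by simp only [hρ]; positivity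
  have hρanti : Antitone ρ := by
    refine antitone_nat_of_succ_le fun i => ?_
    simp only [hρ, pow_succ]
    have h1 : l * ε / 2 * (l ^ i * l) ≤ l * ε / 2 * (l ^ i * 1) := by gcongr; linarith
    rwa [mul_one] at h1
  have hρI : ∀ i ≤ I, ρ I ≤ ρ i := fun i hi => hρanti hi
  have hρ0 : ∀ i, ρ i ≤ l * ε / 2 := fun i => by
    have := hρanti (Nat.zero_le i)
    simpa [hρ] using this
  have hlε : l * ε ≤ 1 / 2 * ε := mul_le_mul_of_nonneg_right hl1 hε.le
  have hη2 : ∀ i ≤ I, 3 * η ≤ l * ρ i := fun i hi =>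
    hη1.trans (mul_le_mul_of_nonneg_left (hρI i hi) hl.le)
  have hηl : 3 * η ≤ l * (l * ε / 2) := (hη2 I le_rfl).trans
    (mul_le_mul_of_nonneg_left (hρ0 I) hl.le)
  have hηl2 : l * (l * ε / 2) ≤ 1 / 2 * (l * ε / 2) :=
    mul_le_mul_of_nonneg_right hl1 (by positivity)
  set A : Set X := ball x (2 * s) with hA
  set Im : Set (EuclideanSpace ℝ (Fin N)) := f '' closedBall x (5 * s) with hIm
  have hImne : Im.Nonempty := ⟨f x, x, mem_closedBall_self (by linarith), rfl⟩
  obtain ⟨i, hiI, hSi⟩ := exists_scale (D := fun v => infDist v Im) (continuous_infDist_pt Im)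
    hρanti (B := ball (0 : EuclideanSpace ℝ (Fin N)) (3 * s)) measurableSet_ball hI
    (b := (3 * s) ^ N * c0) (hL 0 (3 * s) (by linarith)).le
  set S : Set (EuclideanSpace ℝ (Fin N)) := ball (0 : EuclideanSpace ℝ (Fin N)) (3 * s) ∩
    {v | ρ (i + 1) ≤ infDist v Im ∧ infDist v Im < ρ i} with hS
  have hSm : MeasurableSet S := measurableSet_ball.inter
    ((measurableSet_le measurable_const (continuous_infDist_pt Im).measurable).inter
      (measurableSet_lt (continuous_infDist_pt Im).measurable measurable_const))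
  set r : ℝ := ρ i with hr
  have hr0 : 0 < r := hρpos i
  have hrs : ρ (i + 1) = l * r := by
    simp only [hr, hρ, pow_succ]
    ring
  have hrε : r ≤ l * ε / 2 := hρ0 i
  have hηr : 3 * η ≤ l * r := hη2 i hiI.le
  have hIr : ρ I ≤ l * r := by rw [← hrs]; exact hρI (i + 1) hiI
  set U : Set (EuclideanSpace ℝ (Fin N)) :=
    ball (0 : EuclideanSpace ℝ (Fin N)) ((2 + l) * s) \ ball u ((1 - l) * ε) with hU
  have hUm : MeasurableSet U := measurableSet_ball.diff measurableSet_ball
  have hlr : l * r ≤ 1 / 2 * r := mul_le_mul_of_nonneg_right hl1 hr0.le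
  -- points of `A`
  have hfA : ∀ p ∈ A, ∃ q ∈ closedBall x (5 * s), dist p q < η ∧ f' p = f q := by
    intro p hp
    obtain ⟨q, hq1, hq2⟩ := hf' p
    refine ⟨q, ?_, hq1, hq2⟩
    rw [hA, mem_ball] at hp
    rw [mem_closedBall]
    have := dist_triangle_left q x p
    linarith
  have hxx : x ∈ closedBall x (5 * s) := mem_closedBall_self (by linarith)
  -- Tonelli
  have hT : MeasurableSet {z : X × EuclideanSpace ℝ (Fin N) | dist (f' z.1) z.2 < r} :=
    measurableSet_lt ((hf'm.comp measurable_fst).dist measurable_snd) measurable_const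
  have : IsFiniteMeasure (m.restrict A) := ⟨by
    rw [Measure.restrict_apply_univ]
    exact hfin.lt_top⟩
  have hton : ∫⁻ v : EuclideanSpace ℝ (Fin N), (m.restrict A) {p | dist (f' p) v < r}
      = m A * ENNReal.ofReal (r ^ N * c0) := by
    have h1 := Measure.prod_apply (μ := m.restrict A)
      (ν := (volume : Measure (EuclideanSpace ℝ (Fin N)))) hT
    have h2 := Measure.prod_apply_symm (μ := m.restrict A)
      (ν := (volume : Measure (EuclideanSpace ℝ (Fin N)))) hT
    have h3 : ∫⁻ p, volume (Prod.mk p ⁻¹' {z : X × EuclideanSpace ℝ (Fin N) |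
        dist (f' z.1) z.2 < r}) ∂(m.restrict A) = m A * ENNReal.ofReal (r ^ N * c0) := by
      have h4 : ∀ p : X, volume (Prod.mk p ⁻¹' {z : X × EuclideanSpace ℝ (Fin N) |
          dist (f' z.1) z.2 < r}) = ENNReal.ofReal (r ^ N * c0) := by
        intro p
        rw [← hL (f' p) r hr0]
        congr 1
        ext v
        simp [mem_ball, dist_comm]
      simp only [h4]
      rw [lintegral_const, Measure.restrict_apply_univ, mul_comm]
    rw [← h3, ← h1, h2]
    rfl
  -- the pointwise bound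
  have hpt : ∀ v : EuclideanSpace ℝ (Fin N), (m.restrict A) {p | dist (f' p) v < r}
      ≤ U.indicator (fun _ => ENNReal.ofReal (v2 * ((1 + 2 * l) * r) ^ N)) v
        + S.indicator (fun _ => ENNReal.ofReal (v2 * ((2 + l) * r) ^ N)) v := by
    intro v
    have hmeas : (m.restrict A) {p | dist (f' p) v < r} = m ({p | dist (f' p) v < r} ∩ A) := by
      refine Measure.restrict_apply ?_
      exact measurableSet_lt (hf'm.dist measurable_const) measurable_const
    rw [hmeas]
    rcases ({p | dist (f' p) v < r} ∩ A).eq_empty_or_nonempty with h0 | ⟨p0, hp0, hp0A⟩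
    · rw [h0, measure_empty]
      exact zero_le
    · simp only [mem_ofPred_eq] at hp0
      obtain ⟨q0, hq0, hq0d, hq0f⟩ := hfA p0 hp0A
      have hq0x : dist q0 x < 2 * s + η := by
        have h1 := dist_triangle_left q0 x p0
        rw [hA, mem_ball] at hp0A
        linarith
      have hn1 : ‖f' p0‖ ≤ 2 * s + 2 * η := by
        have h1 := abs_le.1 (hf q0 hq0 x hxx)
        rw [hfx, sub_zero, ← hq0f] at h1
        linarith [h1.2]
      have hn2 : ε ≤ ‖f' p0 - u‖ := by rw [hq0f]; exact hcon q0 hq0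
      have hvn : ‖v‖ < 2 * s + 2 * η + r := by
        have h1 : ‖v‖ ≤ ‖f' p0‖ + dist (f' p0) v := by
          rw [dist_comm, dist_eq_norm]
          have := norm_add_le (f' p0) (v - f' p0)
          rwa [add_sub_cancel] at this
        linarith
      have hvu : (1 - l) * ε < ‖v - u‖ := by
        have h1 : ‖f' p0 - u‖ ≤ dist (f' p0) v + ‖v - u‖ := by
          rw [dist_eq_norm]
          have := norm_add_le (f' p0 - v) (v - u)
          rwa [sub_add_sub_cancel] at this
        nlinarith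
      have hls : l * ε ≤ l * s := mul_le_mul_of_nonneg_left hεs hl.le
      have hvU : v ∈ U := by
        refine ⟨?_, ?_⟩
        · rw [mem_ball, dist_zero_right]
          nlinarith
        · rw [mem_ball, dist_eq_norm]
          exact not_lt.2 hvu.le
      have hvD : infDist v Im < r := by
        rw [infDist_lt_iff hImne]
        exact ⟨f q0, ⟨q0, hq0, rfl⟩, by rw [← hq0f, dist_comm]; exact hp0⟩
      by_cases hvS : ρ (i + 1) ≤ infDist v Im
      · have hvS' : v ∈ S := by
          refine ⟨?_, hvS, hvD⟩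
          rw [mem_ball, dist_zero_right]
          nlinarith
        have hsub : {p | dist (f' p) v < r} ∩ A ⊆ ball q0 ((2 + l) * r) := by
          rintro p ⟨hp, hpA⟩
          simp only [mem_ofPred_eq] at hp
          obtain ⟨q, hq, hqd, hqf⟩ := hfA p hpA
          have h1 := abs_le.1 (hf q hq q0 hq0)
          have h2 : ‖f q - f q0‖ < r + r := by
            rw [← hqf, ← hq0f, ← dist_eq_norm]
            exact (dist_triangle_right _ _ v).trans_lt (add_lt_add hp hp0)
          rw [mem_ball]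
          have h3 := dist_triangle p q q0
          linarith [h1.1]
        have h2 : m ({p | dist (f' p) v < r} ∩ A) ≤ ENNReal.ofReal (v2 * ((2 + l) * r) ^ N) := by
          refine (measure_mono hsub).trans (hv2 q0 hq0 _ ?_ ?_)
          · have : ρ I ≤ (2 + l) * r := by nlinarith
            exact this
          · nlinarith
        rw [indicator_of_mem hvS']
        exact h2.trans le_add_self
      · push Not at hvS
        obtain ⟨w, ⟨q1, hq1, rfl⟩, hw⟩ := (infDist_lt_iff hImne).1 hvS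
        have hsub : {p | dist (f' p) v < r} ∩ A ⊆ ball q1 ((1 + 2 * l) * r) := by
          rintro p ⟨hp, hpA⟩
          simp only [mem_ofPred_eq] at hp
          obtain ⟨q, hq, hqd, hqf⟩ := hfA p hpA
          have h1 := abs_le.1 (hf q hq q1 hq1)
          have h2 : ‖f q - f q1‖ < r + l * r := by
            rw [← hqf, ← dist_eq_norm, ← hrs]
            rw [dist_comm] at hw
            exact (dist_triangle_right _ _ v).trans_lt (add_lt_add hp hw)
          rw [mem_ball]
          have h3 := dist_triangle p q q1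
          linarith [h1.1]
        have h2 : m ({p | dist (f' p) v < r} ∩ A)
            ≤ ENNReal.ofReal (v2 * ((1 + 2 * l) * r) ^ N) := by
          refine (measure_mono hsub).trans (hv2 q1 hq1 _ ?_ ?_)
          · have : ρ I ≤ (1 + 2 * l) * r := by nlinarith
            exact this
          · nlinarith
        rw [indicator_of_mem hvU]
        exact h2.trans le_self_add
  have hint : m A * ENNReal.ofReal (r ^ N * c0)
      ≤ ENNReal.ofReal (v2 * ((1 + 2 * l) * r) ^ N) * volume U
        + ENNReal.ofReal (v2 * ((2 + l) * r) ^ N) * volume S := by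
    rw [← hton]
    refine (lintegral_mono hpt).trans ?_
    rw [lintegral_add_left (measurable_const.indicator hUm), lintegral_indicator hUm,
      lintegral_indicator hSm, lintegral_const, lintegral_const, Measure.restrict_apply_univ,
      Measure.restrict_apply_univ]
  have hUvol : volume U ≤ ENNReal.ofReal ((((2 + l) * s) ^ N - ((1 - l) * ε) ^ N) * c0) := by
    have hsub : ball u ((1 - l) * ε) ⊆ ball (0 : EuclideanSpace ℝ (Fin N)) ((2 + l) * s) := by
      refine ball_subset_ball' ?_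
      rw [dist_zero_right]
      nlinarith
    rw [hU, measure_sdiff hsub measurableSet_ball.nullMeasurableSet measure_ball_lt_top.ne,
      hL _ _ (by positivity), hL _ _ (mul_pos (by linarith) hε),
      ← ENNReal.ofReal_sub _ (mul_nonneg (pow_nonneg (mul_nonneg (by linarith) hε.le) _)
        hc0pos.le), ← sub_mul]
  have hfinal : ENNReal.ofReal (v1 * (2 * s) ^ N) * ENNReal.ofReal (r ^ N * c0)
      ≤ ENNReal.ofReal (v2 * ((1 + 2 * l) * r) ^ N)
          * ENNReal.ofReal ((((2 + l) * s) ^ N - ((1 - l) * ε) ^ N) * c0)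
        + ENNReal.ofReal (v2 * ((2 + l) * r) ^ N) * ENNReal.ofReal ((3 * s) ^ N * c0 / I) :=
    (mul_le_mul_left hv1 _).trans (hint.trans (add_le_add (mul_le_mul_right hUvol _)
      (mul_le_mul_right hSi _)))
  have hpos : 0 ≤ ((2 + l) * s) ^ N - ((1 - l) * ε) ^ N := by
    have : ((1 - l) * ε) ^ N ≤ ((2 + l) * s) ^ N := by
      refine pow_le_pow_left₀ (mul_nonneg (by linarith) hε.le) ?_ N
      nlinarith
    linarith
  rw [← ENNReal.ofReal_mul (by positivity), ← ENNReal.ofReal_mul (by positivity),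
    ← ENNReal.ofReal_mul (by positivity), ← ENNReal.ofReal_add (by positivity) (by positivity),
    ENNReal.ofReal_le_ofReal_iff (by positivity)] at hfinal
  have hrc : 0 < r ^ N * c0 := by positivity
  have h1 : v2 * ((1 + 2 * l) * r) ^ N * ((((2 + l) * s) ^ N - ((1 - l) * ε) ^ N) * c0)
        + v2 * ((2 + l) * r) ^ N * ((3 * s) ^ N * c0 / I)
      = (v2 * ((1 + 2 * l) ^ N * (((2 + l) * s) ^ N - ((1 - l) * ε) ^ N)
      + (2 + l) ^ N * ((3 * s) ^ N / I))) * (r ^ N * c0) := by
    rw [mul_pow (1 + 2 * l) r, mul_pow (2 + l) r]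
    ring
  rw [h1] at hfinal
  have h2 := le_of_mul_le_mul_right hfinal hrc
  linarith

end surj

end Hil

end Pool.Agent.BDRY
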