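import Pool.Agent.Work.MP_209cb6_gt.Defs

/-!
# BDRY2, SYM: interfaces
-/

set_option autoImplicit false

open MeasureTheory MeasureTheory.Measure Metric Set Filter Topology
open scoped ENNReal NNReal

namespace Pool.Agent.BDRY

universe u

variable {X : Type u} [MetricSpace X] [MeasurableSpace X]

/-- A measurable Markov semigroup whose action on probability measures is the EVI flow. -/
structure EVIKer (K : ℝ) (N : ℕ) (m : Measure X) (P : ℝ → X → Measure X) : Prop where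
  prob : ∀ t, 0 ≤ t → ∀ x, IsProbabilityMeasure (P t x)
  meas : ∀ t, 0 ≤ t → Measurable (P t)
  zero : ∀ x, P 0 x = dirac x
  sgrp : ∀ s t, 0 ≤ s → 0 ≤ t → ∀ x, P (s + t) x = (P s x).bind (P t)
  flow : ∀ μ : Measure X, IsP2 μ → IsEVIFlow K N m (fun t => μ.bind (P t))

/-- `φ` is in the domain of the generator, with `L φ = ℓ`. -/
structure Dom (P : ℝ → X → Measure X) (φ ℓ : X → ℝ) (M L : ℝ) : Prop where
  bdd : ∀ x, |φ x| ≤ M
  bdd' : ∀ x, |ℓ x| ≤ M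
  lip : ∀ x y, |φ x - φ y| ≤ L * dist x y
  lip' : ∀ x y, |ℓ x - ℓ y| ≤ L * dist x y
  gen : ∀ δ : ℝ, 0 < δ → ∃ t₀ : ℝ, 0 < t₀ ∧ ∀ t, 0 < t → t ≤ t₀ → ∀ x,
    |∫ y, φ y ∂(P t x) - φ x - t * ℓ x| ≤ δ * t

/-- `φ` decays faster than every exponential. -/
def ExpDec (o : X) (φ : X → ℝ) : Prop :=
  ∀ a : ℝ, ∃ C : ℝ, 0 ≤ C ∧ ∀ x, |φ x| ≤ C * Real.exp (-a * dist o x)

/-- `S` is a measurable maximiser of `x ↦ φ x - d(x,y)²/(2ε)`. -/
def IsArg (φ : X → ℝ) (ε : ℝ) (S : X → X) : Prop :=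
  Measurable S ∧ ∀ x y, φ x - dist x y ^ 2 / (2 * ε) ≤ φ (S y) - dist (S y) y ^ 2 / (2 * ε)

/-- The inequality which follows from the EVI (T3), in homogeneous form. -/
def GibbsIneq (K : ℝ) (m : Measure X) (o : X) (ℓ : X → ℝ) (ε : ℝ) (S : X → X) : Prop :=
  ∀ w Φ : X → ℝ, Measurable w → (∀ x, 0 < w x) → Integrable w m →
    Integrable (fun x => w x * Real.log (w x)) m → Integrable (fun x => dist o x ^ 2 * w x) m →
    Measurable Φ → (∀ x, 0 < Φ x) → Integrable Φ m →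
    Integrable (fun y => Real.log (Φ (S y)) * w y) m →
    ∫ y, Real.log (Φ (S y)) * w y ∂m + ∫ y, w y ∂m - ∫ y, Φ y ∂m ≤
      ∫ y, w y * Real.log (w y) ∂m - ε * ∫ y, ℓ (S y) * w y ∂m +
        (-K) / 2 * ∫ y, dist (S y) y ^ 2 * w y ∂m

end Pool.Agent.BDRY
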