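import Pool.Agent.Work.MP_209cb6_gt.Evi

/-!
# BDRY2, SYM: the linear form of the EVI

`EVI_{K,N}` implies `EVI_{K,∞}`, in integrated form, linear in `W²` and in the entropy
`-N log UN`.
-/

set_option autoImplicit false

open MeasureTheory MeasureTheory.Measure Metric Set Filter Topology
open scoped ENNReal NNReal Nat

namespace Pool.Agent.BDRY

universe u

theorem six_pow_mul_factorial_le (n : ℕ) : 6 ^ n * n ! ≤ (2 * n + 1)! := by
  induction n with
  | zero => simp
  | succ n ih =>
    have h1 : (2 * (n + 1) + 1)! = (2 * n + 3) * ((2 * n + 2) * (2 * n + 1)!) := by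
      rw [show 2 * (n + 1) + 1 = (2 * n + 2) + 1 by ring, Nat.factorial_succ,
        show (2 * n + 2) = (2 * n + 1) + 1 by ring, Nat.factorial_succ]
    rw [h1, Nat.factorial_succ, pow_succ]
    calc 6 ^ n * 6 * ((n + 1) * n !) = (6 * (n + 1)) * (6 ^ n * n !) := by ring
      _ ≤ ((2 * n + 3) * (2 * n + 2)) * (2 * n + 1)! := by
        refine Nat.mul_le_mul ?_ ih
        nlinarith
      _ = (2 * n + 3) * ((2 * n + 2) * (2 * n + 1)!) := by ring

theorem sinh_le_mul_exp {w : ℝ} (hw : 0 ≤ w) : Real.sinh w ≤ w * Real.exp (w ^ 2 / 6) := by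
  have h1 := Real.hasSum_sinh w
  have h2 : HasSum (fun n : ℕ => w * ((w ^ 2 / 6) ^ n / n !)) (w * Real.exp (w ^ 2 / 6)) := by
    have h3 := NormedSpace.expSeries_div_hasSum_exp (𝔸 := ℝ) (w ^ 2 / 6)
    rw [← Real.exp_eq_exp_ℝ] at h3
    exact h3.mul_left w
  refine hasSum_le (fun n => ?_) h1 h2
  have h3 : ((6 : ℝ) ^ n * (n ! : ℝ)) ≤ ((2 * n + 1)! : ℝ) := by
    exact_mod_cast six_pow_mul_factorial_le n
  have h4 : (0 : ℝ) < (6 : ℝ) ^ n * (n ! : ℝ) := by positivity
  calc w ^ (2 * n + 1) / ((2 * n + 1)! : ℝ) ≤ w ^ (2 * n + 1) / ((6 : ℝ) ^ n * (n ! : ℝ)) := by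
        gcongr
    _ = w * ((w ^ 2 / 6) ^ n / n !) := by
        rw [div_pow, pow_succ, pow_mul]
        field_simp

theorem sinh_le_mul_cosh {w : ℝ} (hw : 0 ≤ w) : Real.sinh w ≤ w * Real.cosh w := by
  have hd : ∀ z, HasDerivAt (fun z => z * Real.cosh z - Real.sinh z) (z * Real.sinh z) z := by
    intro z
    have h := ((hasDerivAt_id z).mul (Real.hasDerivAt_cosh z)).sub (Real.hasDerivAt_sinh z)
    refine h.congr_deriv ?_
    simp
  have hm : MonotoneOn (fun z => z * Real.cosh z - Real.sinh z) (Ici 0) := by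
    refine monotoneOn_of_deriv_nonneg (convex_Ici 0) (fun z _ => (hd z).continuousAt.continuousWithinAt)
      (fun z _ => (hd z).differentiableAt.differentiableWithinAt) (fun z hz => ?_)
    rw [interior_Ici, mem_Ioi] at hz
    rw [(hd z).deriv]
    exact mul_nonneg hz.le (Real.sinh_nonneg_iff.2 hz.le)
  have h := hm (mem_Ici.2 le_rfl) (mem_Ici.2 hw) hw
  simp only [zero_mul, Real.sinh_zero, sub_zero] at h
  linarith

theorem mul_cosh_le {w : ℝ} (hw : 0 ≤ w) :
    w * Real.cosh w ≤ (1 + w ^ 2 / 3) * Real.sinh w := by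
  have hd : ∀ z, HasDerivAt (fun z => (1 + z ^ 2 / 3) * Real.sinh z - z * Real.cosh z)
      (z / 3 * (z * Real.cosh z - Real.sinh z)) z := by
    intro z
    have h0 : HasDerivAt (fun z : ℝ => 1 + z ^ 2 / 3) (2 * z / 3) z := by
      have := ((hasDerivAt_pow 2 z).div_const 3).const_add 1
      simpa using this
    have h := (h0.mul (Real.hasDerivAt_sinh z)).sub
      ((hasDerivAt_id z).mul (Real.hasDerivAt_cosh z))
    refine h.congr_deriv ?_
    simp only [id]
    ring
  have hm : MonotoneOn (fun z => (1 + z ^ 2 / 3) * Real.sinh z - z * Real.cosh z) (Ici 0) := by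
    refine monotoneOn_of_deriv_nonneg (convex_Ici 0) (fun z _ => (hd z).continuousAt.continuousWithinAt)
      (fun z _ => (hd z).differentiableAt.differentiableWithinAt) (fun z hz => ?_)
    rw [interior_Ici, mem_Ioi] at hz
    rw [(hd z).deriv]
    have := sinh_le_mul_cosh hz.le
    exact mul_nonneg (by positivity) (by linarith)
  have h := hm (mem_Ici.2 le_rfl) (mem_Ici.2 hw) hw
  simp only [zero_mul, Real.sinh_zero, sub_zero, mul_zero] at h
  linarith

theorem cosh_scal {w : ℝ} (hw : 0 < w) (y : ℝ) :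
    w * (Real.cosh w - Real.exp y) ≤ Real.sinh w * (w ^ 2 / 2 - y) := by
  have hs : 0 < Real.sinh w := Real.sinh_pos_iff.2 hw
  have h1 := sinh_le_mul_exp hw.le
  have h2 := mul_cosh_le hw.le
  have hr : 0 < Real.sinh w / w := by positivity
  have h3 : Real.log (Real.sinh w / w) ≤ w ^ 2 / 6 := by
    rw [Real.log_le_iff_le_exp hr, div_le_iff₀ hw, mul_comm]
    exact h1
  have h4 := Real.add_one_le_exp (y - Real.log (Real.sinh w / w))
  rw [Real.exp_sub, Real.exp_log hr] at h4
  have h5 : Real.sinh w * (y - Real.log (Real.sinh w / w) + 1) ≤ w * Real.exp y := by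
    have h6 := mul_le_mul_of_nonneg_left h4 hs.le
    calc _ ≤ Real.sinh w * (Real.exp y / (Real.sinh w / w)) := h6
      _ = w * Real.exp y := by field_simp
  have h6 : Real.sinh w * (y - w ^ 2 / 6 + 1) ≤
      Real.sinh w * (y - Real.log (Real.sinh w / w) + 1) := by
    gcongr
  nlinarith

/-- the scalar inequality behind `EVI_{K,N} ⇒ EVI_{K,∞}` -/
theorem sK_scal {K : ℝ} (hK : K ≤ 0) {N : ℕ} (hN : 0 < N) {b : ℝ} (hb : 0 ≤ b) (x : ℝ) :
    b * (2 * (-K) * sK (K / N) (b / 2) ^ 2 + N * (1 - Real.exp (-x / N))) ≤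
      sK (K / N) b * (x + -K * b ^ 2 / 2) := by
  have hN' : (0 : ℝ) < N := Nat.cast_pos.2 hN
  rcases hK.eq_or_lt with h | h
  · subst h
    have h1 : sK ((0 : ℝ) / N) b = b := by
      rw [zero_div]; simp [sK]
    rw [h1]
    have h2 := Real.add_one_le_exp (-x / N)
    have h3 : (N : ℝ) * (1 - Real.exp (-x / N)) ≤ x := by
      have h4 : (1 - Real.exp (-x / N)) ≤ x / N := by
        rw [neg_div] at h2 ⊢
        linarith
      calc (N : ℝ) * (1 - Real.exp (-x / N)) ≤ N * (x / N) := by gcongr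
        _ = x := by field_simp
    have h5 : (2 * (-0 : ℝ) * sK (0 / N) (b / 2) ^ 2 + N * (1 - Real.exp (-x / N))) ≤
        x + -0 * b ^ 2 / 2 := by simpa using h3
    exact mul_le_mul_of_nonneg_left h5 hb
  · rcases hb.eq_or_lt with hb0 | hb0
    · rw [← hb0, sK_zero_right]
      simp
    · have hκ : K / N < 0 := div_neg_of_neg_of_pos h hN'
      set q := √(-(K / N)) with hq
      have hq0 : 0 < q := Real.sqrt_pos.2 (by linarith)
      have hq2 : q ^ 2 = -(K / N) := Real.sq_sqrt (by linarith)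
      have hK' : -K = N * q ^ 2 := by rw [hq2]; field_simp
      have e1 : sK (K / N) b = Real.sinh (q * b) / q := by rw [sK, if_pos hκ]
      have e2 : sK (K / N) (b / 2) = Real.sinh (q * (b / 2)) / q := by rw [sK, if_pos hκ]
      have hw : 0 < q * b := by positivity
      have h1 := cosh_scal hw (-x / N)
      have h2 : Real.cosh (q * b) = 1 + 2 * Real.sinh (q * (b / 2)) ^ 2 := by
        have h3 : q * b = 2 * (q * (b / 2)) := by ring
        have h4 := Real.cosh_sq (q * (b / 2))
        rw [h3, Real.cosh_two_mul]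
        linarith
      rw [e1, e2, hK']
      have h5 : b * (2 * (N * q ^ 2) * (Real.sinh (q * (b / 2)) / q) ^ 2 +
          N * (1 - Real.exp (-x / N))) =
          N / q * ((q * b) * (Real.cosh (q * b) - Real.exp (-x / N))) := by
        rw [h2]
        field_simp
        ring
      have h6 : Real.sinh (q * b) / q * (x + N * q ^ 2 * b ^ 2 / 2) =
          N / q * (Real.sinh (q * b) * ((q * b) ^ 2 / 2 - -x / N)) := by
        field_simp
        ring
      rw [h5, h6]
      gcongr

/-- convexity of `gQ` in the square of the distance -/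
theorem gQ_sq_tangent {q a b : ℝ} (ha : 0 ≤ a) (hb : 0 ≤ b) :
    sQ q b * (a ^ 2 - b ^ 2) ≤ 4 * b * (gQ q a - gQ q b) := by
  have hd : ∀ z, HasDerivAt (fun z => 4 * b * gQ q z - sQ q b * z ^ 2)
      (2 * (b * sQ q z - z * sQ q b)) z := by
    intro z
    have h := ((hasDerivAt_gQ q z).const_mul (4 * b)).sub
      ((hasDerivAt_pow 2 z).const_mul (sQ q b))
    refine h.congr_deriv ?_
    simp
    ring
  have hc : Continuous fun z => 4 * b * gQ q z - sQ q b * z ^ 2 :=
    continuous_iff_continuousAt.2 fun z => (hd z).continuousAt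
  -- star-shapedness of `sQ`
  have hS : ∀ u v, 0 ≤ u → u ≤ v → v * sQ q u ≤ u * sQ q v := by
    intro u v hu huv
    have hd' : ∀ z, HasDerivAt (fun z => u * sQ q z - z * sQ q u) (u * cQ q z - sQ q u) z := by
      intro z
      have h := ((hasDerivAt_sQ q z).const_mul u).sub ((hasDerivAt_id z).mul_const (sQ q u))
      refine h.congr_deriv ?_
      simp
    have hcc : ∀ z, 0 ≤ z → sQ q z ≤ z * cQ q z := by
      intro z hz
      have h1 : ∀ z, HasDerivAt (fun z => z * cQ q z - sQ q z) (z * (q ^ 2 * sQ q z)) z := by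
        intro z
        have h := ((hasDerivAt_id z).mul (hasDerivAt_cQ q z)).sub (hasDerivAt_sQ q z)
        refine h.congr_deriv ?_
        simp
      have h2 : MonotoneOn (fun z => z * cQ q z - sQ q z) (Ici 0) := by
        refine monotoneOn_of_deriv_nonneg (convex_Ici 0)
          (fun z _ => (h1 z).continuousAt.continuousWithinAt)
          (fun z _ => (h1 z).differentiableAt.differentiableWithinAt) (fun z hz => ?_)
        rw [interior_Ici, mem_Ioi] at hz
        rw [(h1 z).deriv]
        have := sQ_nonneg (q := q) hz.le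
        positivity
      have h3 := h2 (mem_Ici.2 le_rfl) (mem_Ici.2 hz) hz
      simp only [zero_mul, sQ_zero, sub_zero] at h3
      linarith
    have hcm : MonotoneOn (cQ q) (Ici 0) := by
      refine monotoneOn_of_deriv_nonneg (convex_Ici 0)
        (fun z _ => (hasDerivAt_cQ q z).continuousAt.continuousWithinAt)
        (fun z _ => (hasDerivAt_cQ q z).differentiableAt.differentiableWithinAt) (fun z hz => ?_)
      rw [interior_Ici, mem_Ioi] at hz
      rw [(hasDerivAt_cQ q z).deriv]
      have := sQ_nonneg (q := q) hz.le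
      positivity
    have hm : MonotoneOn (fun z => u * sQ q z - z * sQ q u) (Ici u) := by
      refine monotoneOn_of_deriv_nonneg (convex_Ici u)
        (fun z _ => (hd' z).continuousAt.continuousWithinAt)
        (fun z _ => (hd' z).differentiableAt.differentiableWithinAt) (fun z hz => ?_)
      rw [interior_Ici, mem_Ioi] at hz
      rw [(hd' z).deriv]
      have h1 := hcm (mem_Ici.2 hu) (mem_Ici.2 (hu.trans hz.le)) hz.le
      have h2 := hcc u hu
      have h3 := mul_le_mul_of_nonneg_left h1 hu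
      linarith
    have h := hm (mem_Ici.2 le_rfl) (mem_Ici.2 huv) huv
    simp only [sub_self] at h
    linarith
  have key : 4 * b * gQ q b - sQ q b * b ^ 2 ≤ 4 * b * gQ q a - sQ q b * a ^ 2 := by
    rcases le_total b a with h | h
    · have hm : MonotoneOn (fun z => 4 * b * gQ q z - sQ q b * z ^ 2) (Ici b) := by
        refine monotoneOn_of_deriv_nonneg (convex_Ici b) hc.continuousOn
          (fun z _ => (hd z).differentiableAt.differentiableWithinAt) (fun z hz => ?_)
        rw [interior_Ici, mem_Ioi] at hz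
        rw [(hd z).deriv]
        have := hS b z hb hz.le
        linarith
      exact hm (mem_Ici.2 le_rfl) (mem_Ici.2 h) h
    · have hm : AntitoneOn (fun z => 4 * b * gQ q z - sQ q b * z ^ 2) (Icc 0 b) := by
        refine antitoneOn_of_deriv_nonpos (convex_Icc 0 b) hc.continuousOn
          (fun z _ => (hd z).differentiableAt.differentiableWithinAt) (fun z hz => ?_)
        rw [interior_Icc, mem_Ioo] at hz
        rw [(hd z).deriv]
        have := hS z b hz.1.le hz.2.le
        linarith
      exact hm ⟨ha, h⟩ ⟨hb, le_rfl⟩ h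
  linarith

/-- the time factor `∫_0^h e^{-K v} dv` -/
noncomputable def cK (K h : ℝ) : ℝ := ∫ v in (0 : ℝ)..h, Real.exp (-K * v)

theorem cK_nonneg (K : ℝ) {h : ℝ} (hh : 0 ≤ h) : 0 ≤ cK K h :=
  intervalIntegral.integral_nonneg hh fun _ _ => (Real.exp_pos _).le

theorem cK_le {K : ℝ} (hK : K ≤ 0) {h : ℝ} (hh : 0 ≤ h) : cK K h ≤ h * Real.exp (-K * h) := by
  have hcont : Continuous fun t : ℝ => Real.exp (-K * t) := by fun_prop
  have h1 : ∫ v in (0 : ℝ)..h, Real.exp (-K * v) ≤ ∫ _ in (0 : ℝ)..h, Real.exp (-K * h) := by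
    refine intervalIntegral.integral_mono_on hh (hcont.intervalIntegrable 0 h)
      intervalIntegrable_const fun v hv => ?_
    exact Real.exp_le_exp.2 (mul_le_mul_of_nonneg_left hv.2 (by linarith))
  simpa [cK] using h1

theorem le_cK {K : ℝ} (hK : K ≤ 0) {h : ℝ} (hh : 0 ≤ h) : h ≤ cK K h := by
  have hcont : Continuous fun t : ℝ => Real.exp (-K * t) := by fun_prop
  have h1 : ∫ _ in (0 : ℝ)..h, (1 : ℝ) ≤ ∫ v in (0 : ℝ)..h, Real.exp (-K * v) := by
    refine intervalIntegral.integral_mono_on hh intervalIntegrable_const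
      (hcont.intervalIntegrable 0 h) fun v hv => ?_
    exact Real.one_le_exp (mul_nonneg (by linarith) hv.1)
  simpa [cK] using h1

theorem exp_int_shift (K t s : ℝ) :
    ∫ v in t..s, Real.exp (K * v) = Real.exp (K * s) * cK K (s - t) := by
  have h1 := intervalIntegral.integral_comp_sub_left (a := 0) (b := s - t)
    (fun v => Real.exp (K * v)) s
  rw [sub_zero, sub_sub_cancel] at h1
  rw [← h1, cK, ← intervalIntegral.integral_const_mul]
  refine intervalIntegral.integral_congr fun v _ => ?_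
  rw [← Real.exp_add]
  congr 1
  ring

theorem exp_int_mul (K t s : ℝ) :
    K * ∫ v in t..s, Real.exp (K * v) = Real.exp (K * s) - Real.exp (K * t) := by
  have hcont : Continuous fun t : ℝ => Real.exp (K * t) := by fun_prop
  rw [← intervalIntegral.integral_const_mul]
  have h1 : ∀ z ∈ Set.uIcc t s, HasDerivAt (fun y => Real.exp (K * y)) (K * Real.exp (K * z)) z :=
    fun z _ => by
    have h2 : HasDerivAt (fun t : ℝ => K * t) K z := by
      simpa using (hasDerivAt_id z).const_mul K
    have h3 := h2.exp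
    rwa [mul_comm] at h3
  have h4 : IntervalIntegrable (fun z => K * Real.exp (K * z)) volume t s :=
    (hcont.const_mul K).intervalIntegrable t s
  exact intervalIntegral.integral_eq_sub_of_hasDerivAt h1 h4

section flow

variable {X : Type u} [MetricSpace X] [MeasurableSpace X] {K : ℝ} {N : ℕ} {m : Measure X}
  {μ : ℝ → Measure X}

/-- Linear form of the EVI. -/
theorem IsEVIFlow.lin (hK : K ≤ 0) (hN : 0 < N) (h : IsEVIFlow K N m μ) {σ : Measure X}
    (hσ : IsP2 σ) (hσ0 : 0 < UN N m σ) {t s : ℝ} (ht : 0 < t) (hts : t ≤ s)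
    (hmono : ∀ v, t ≤ v → v ≤ s → UN N m (μ v) ≤ UN N m (μ s)) :
    W2 (μ s) σ ^ 2 ≤ W2 (μ t) σ ^ 2 + cK K (s - t) *
      (2 * (N * Real.log (UN N m (μ s)) - N * Real.log (UN N m σ)) + -K * W2 (μ t) σ ^ 2) := by
  have hN' : (0 : ℝ) < N := Nat.cast_pos.2 hN
  have hκ : K / N ≤ 0 := div_nonpos_of_nonpos_of_nonneg hK hN'.le
  set a := W2 (μ s) σ with ha
  set b := W2 (μ t) σ with hb
  have ha0 : 0 ≤ a := Real.sqrt_nonneg _
  have hb0 : 0 ≤ b := Real.sqrt_nonneg _
  have hUs := h.dom s (ht.trans_le hts)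
  set x := N * Real.log (UN N m (μ s)) - N * Real.log (UN N m σ) with hx
  have hex : Real.exp (-x / N) = UN N m σ / UN N m (μ s) := by
    have : -x / N = Real.log (UN N m σ) - Real.log (UN N m (μ s)) := by
      rw [hx]; field_simp; ring
    rw [this, Real.exp_sub, Real.exp_log hσ0, Real.exp_log hUs]
  have hcont : Continuous fun t : ℝ => Real.exp (K * t) := by fun_prop
  have h1 := h.evi σ hσ hσ0 t s ht hts
  have h2 : ∫ v in t..s, Real.exp (K * v) * (1 - UN N m σ / UN N m (μ v)) ≤
      ∫ v in t..s, Real.exp (K * v) * (1 - Real.exp (-x / N)) := by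
    refine intervalIntegral.integral_mono_on hts ?_
      ((hcont.mul_const _).intervalIntegrable t s) fun v hv => ?_
    · have h3 := h.int t s ht hts
      have h4 : IntervalIntegrable (fun v => 1 - UN N m σ / UN N m (μ v)) volume t s := by
        simp_rw [div_eq_mul_inv]
        exact intervalIntegrable_const.sub (h3.const_mul _)
      exact h4.continuousOn_mul hcont.continuousOn
    · refine mul_le_mul_of_nonneg_left ?_ (Real.exp_pos _).le
      rw [hex]
      have h5 := hmono v hv.1 hv.2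
      have h6 := h.dom v (ht.trans_le hv.1)
      have : UN N m σ / UN N m (μ s) ≤ UN N m σ / UN N m (μ v) :=
        div_le_div_of_nonneg_left hσ0.le h6 h5
      linarith
  rw [intervalIntegral.integral_mul_const] at h2
  set J := ∫ v in t..s, Real.exp (K * v) with hJ
  have hJ0 : 0 ≤ J := intervalIntegral.integral_nonneg hts fun _ _ => (Real.exp_pos _).le
  have hKJ : K * J = Real.exp (K * s) - Real.exp (K * t) := exp_int_mul K t s
  have hJc : J = Real.exp (K * s) * cK K (s - t) := exp_int_shift K t s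
  have hE : 0 < Real.exp (K * s) := Real.exp_pos _
  set E := Real.exp (K * s) with hEdef
  have h3 : E * (sK (K / N) (a / 2) ^ 2 - sK (K / N) (b / 2) ^ 2) ≤
      J * (-K * sK (K / N) (b / 2) ^ 2 + N / 2 * (1 - Real.exp (-x / N))) := by
    have h4 : N / 2 * ∫ v in t..s, Real.exp (K * v) * (1 - UN N m σ / UN N m (μ v)) ≤
        N / 2 * (J * (1 - Real.exp (-x / N))) := by gcongr
    have h5 : Real.exp (K * t) = E - K * J := by rw [hKJ]; ring
    rw [h5] at h1
    nlinarith
  suffices hfin : E * (a ^ 2 - b ^ 2) ≤ J * (2 * x + -K * b ^ 2) by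
    rw [hJc, mul_assoc] at hfin
    have := le_of_mul_le_mul_left hfin hE
    linarith
  rcases hb0.eq_or_lt with hb1 | hb1
  · rw [← hb1] at h3 ⊢
    rw [zero_div, sK_zero_right] at h3
    have h4 := le_sK hκ (x := a / 2) (by linarith)
    have h5 : (a / 2) ^ 2 ≤ sK (K / N) (a / 2) ^ 2 := by gcongr
    have h6 : (N : ℝ) * (1 - Real.exp (-x / N)) ≤ x := by
      have h4 : (1 - Real.exp (-x / N)) ≤ x / N := by
        have h2 := Real.add_one_le_exp (-x / N)
        rw [neg_div] at h2 ⊢
        linarith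
      calc (N : ℝ) * (1 - Real.exp (-x / N)) ≤ N * (x / N) := by gcongr
        _ = x := by field_simp
    have h7 : E * (a / 2) ^ 2 ≤ E * sK (K / N) (a / 2) ^ 2 := by gcongr
    have h8 : J * (N * (1 - Real.exp (-x / N))) ≤ J * x := by gcongr
    nlinarith
  · have h4 := gQ_sq_tangent (q := √(-(K / N))) ha0 hb0
    have e1 : ∀ z, gQ (√(-(K / N))) z = sK (K / N) (z / 2) ^ 2 := fun z => by
      rw [sK_eq_sQ hκ]; rfl
    have e2 : sQ (√(-(K / N))) b = sK (K / N) b := by rw [sK_eq_sQ hκ]
    rw [e1, e1, e2] at h4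
    have h5 := sK_scal hK hN hb0 x
    have hSb : 0 < sK (K / N) b := hb1.trans_le (le_sK hκ hb0)
    have h6 : sK (K / N) b * (E * (a ^ 2 - b ^ 2)) ≤ sK (K / N) b * (J * (2 * x + -K * b ^ 2)) := by
      calc sK (K / N) b * (E * (a ^ 2 - b ^ 2)) = E * (sK (K / N) b * (a ^ 2 - b ^ 2)) := by ring
        _ ≤ E * (4 * b * (sK (K / N) (a / 2) ^ 2 - sK (K / N) (b / 2) ^ 2)) := by gcongr
        _ = 4 * b * (E * (sK (K / N) (a / 2) ^ 2 - sK (K / N) (b / 2) ^ 2)) := by ring
        _ ≤ 4 * b * (J * (-K * sK (K / N) (b / 2) ^ 2 + N / 2 * (1 - Real.exp (-x / N)))) := by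
          gcongr
        _ = 2 * J * (b * (2 * (-K) * sK (K / N) (b / 2) ^ 2 + N * (1 - Real.exp (-x / N)))) := by
          ring
        _ ≤ 2 * J * (sK (K / N) b * (x + -K * b ^ 2 / 2)) := by gcongr
        _ = _ := by ring
    exact le_of_mul_le_mul_left h6 hSb

end flow

end Pool.Agent.BDRY
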