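import Pool.Agent.Work.MP_209cb6_gt.B2.SymKey
import Pool.Agent.Work.MP_209cb6_gt.B2.SymDef
import Pool.Agent.Work.MP_209cb6_gt.B2.SymEvi
import Pool.Agent.Work.MP_209cb6_gt.B2.UscMono

/-!
# BDRY2, SYM: T3, the Gibbs inequality from the EVI
-/

set_option autoImplicit false
set_option linter.unusedSectionVars false

open MeasureTheory MeasureTheory.Measure Metric Set Filter Topology
open scoped ENNReal NNReal

namespace Pool.Agent.BDRY

universe u

section bindint

variable {X : Type u} [MeasurableSpace X]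

theorem prob_bind {μ : Measure X} [IsProbabilityMeasure μ] {κ : X → Measure X}
    (hκ : Measurable κ) (hp : ∀ x, IsProbabilityMeasure (κ x)) :
    IsProbabilityMeasure (μ.bind κ) := by
  refine ⟨?_⟩
  rw [Measure.bind_apply MeasurableSet.univ hκ.aemeasurable]
  have : ∀ x, κ x univ = 1 := fun x => (hp x).measure_univ
  simp [this]

/-- integral over a mixture -/
theorem integral_bind_bdd {μ : Measure X} [IsProbabilityMeasure μ] {κ : X → Measure X}
    (hκ : Measurable κ) (hp : ∀ x, IsProbabilityMeasure (κ x)) {φ : X → ℝ} (hφ : Measurable φ)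
    {M : ℝ} (hM : ∀ x, |φ x| ≤ M) :
    Measurable (fun x => ∫ y, φ y ∂(κ x)) ∧
      ∫ y, φ y ∂(μ.bind κ) = ∫ x, ∫ y, φ y ∂(κ x) ∂μ := by
  have hbp := prob_bind (μ := μ) hκ hp
  have hi : ∀ ν : Measure X, IsProbabilityMeasure ν → Integrable φ ν := fun ν _ =>
    Integrable.of_bound hφ.aestronglyMeasurable M (Eventually.of_forall hM)
  have key : ∀ ν : Measure X, IsProbabilityMeasure ν →
      ∫ y, φ y ∂ν = (∫⁻ y, ENNReal.ofReal (φ y + M) ∂ν).toReal - M := by
    intro ν hν
    have h1 : ∫ y, (φ y + M) ∂ν = ∫ y, φ y ∂ν + M := by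
      rw [integral_add (hi ν hν) (integrable_const M)]; simp
    have h2 : ∫ y, (φ y + M) ∂ν = (∫⁻ y, ENNReal.ofReal (φ y + M) ∂ν).toReal := by
      refine integral_eq_lintegral_of_nonneg_ae (ae_of_all _ fun y => ?_)
        (hφ.add_const M).aestronglyMeasurable
      have := (abs_le.1 (hM y)).1
      simp only [Pi.zero_apply]; linarith
    linarith
  have hm1 : Measurable fun x => ∫⁻ y, ENNReal.ofReal (φ y + M) ∂(κ x) :=
    (Measure.measurable_lintegral ((hφ.add_const M).ennreal_ofReal)).comp hκ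
  have hm2 : (fun x => ∫ y, φ y ∂(κ x)) =
      fun x => (∫⁻ y, ENNReal.ofReal (φ y + M) ∂(κ x)).toReal - M := by
    funext x; exact key _ (hp x)
  have hb : ∀ x, ∫⁻ y, ENNReal.ofReal (φ y + M) ∂(κ x) ≤ ENNReal.ofReal (2 * M) := by
    intro x
    have := hp x
    calc _ ≤ ∫⁻ _, ENNReal.ofReal (2 * M) ∂(κ x) := by
          refine lintegral_mono fun y => ENNReal.ofReal_le_ofReal ?_
          have := (abs_le.1 (hM y)).2
          linarith
      _ = ENNReal.ofReal (2 * M) := by simp
  refine ⟨by rw [hm2]; exact hm1.ennreal_toReal.sub_const M, ?_⟩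
  rw [key _ hbp, hm2]
  have h3 : Integrable (fun x => (∫⁻ y, ENNReal.ofReal (φ y + M) ∂(κ x)).toReal) μ := by
    refine Integrable.of_bound hm1.ennreal_toReal.aestronglyMeasurable
      (ENNReal.ofReal (2 * M)).toReal (Eventually.of_forall fun x => ?_)
    rw [Real.norm_eq_abs, abs_of_nonneg ENNReal.toReal_nonneg]
    exact ENNReal.toReal_mono ENNReal.ofReal_ne_top (hb x)
  rw [integral_sub h3 (integrable_const M)]
  simp only [integral_const, probReal_univ, one_smul, sub_left_inj]
  rw [Measure.lintegral_bind hκ.aemeasurable ((hφ.add_const M).ennreal_ofReal).aemeasurable,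
    integral_toReal hm1.aemeasurable (ae_of_all _ fun x => (hb x).trans_lt ENNReal.ofReal_lt_top)]

end bindint

section gibbs

variable {X : Type u} [MetricSpace X] [MeasurableSpace X] [BorelSpace X]

/-- the normalised measure `w m / Z` -/
theorem norm_density {m : Measure X} [SigmaFinite m] {w : X → ℝ} (hw : Measurable w)
    (hw0 : ∀ x, 0 < w x) (hwi : Integrable w m) (hZ : 0 < ∫ x, w x ∂m) (o : X)
    (hw2 : Integrable (fun x => dist o x ^ 2 * w x) m)
    (hwl : Integrable (fun x => w x * Real.log (w x)) m) :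
    ∃ σ : Measure X, IsP2 σ ∧ σ ≪ m ∧ Integrable (llr σ m) σ ∧
      Hm m σ = (∫ x, w x * Real.log (w x) ∂m) / (∫ x, w x ∂m) - Real.log (∫ x, w x ∂m) ∧
      (∀ f : X → ℝ, ∫ x, f x ∂σ = (∫ x, f x * w x ∂m) / ∫ x, w x ∂m) ∧
      (∀ f : X → ℝ, Integrable (fun x => f x * w x) m → Integrable f σ) := by
  set Z := ∫ x, w x ∂m with hZd
  let D : X → ℝ≥0∞ := fun x => ENNReal.ofReal (w x / Z)
  have hD : Measurable D := (hw.div_const Z).ennreal_ofReal
  have hDt : ∀ x, (D x).toReal = w x / Z := fun x =>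
    ENNReal.toReal_ofReal (div_nonneg (hw0 x).le hZ.le)
  have hDf : ∀ᵐ x ∂m, D x < ∞ := ae_of_all _ fun x => ENNReal.ofReal_lt_top
  let σ : Measure X := m.withDensity D
  have hint : ∀ f : X → ℝ, ∫ x, f x ∂σ = (∫ x, f x * w x ∂m) / Z := by
    intro f
    rw [integral_withDensity_eq_integral_toReal_smul hD hDf, ← integral_div]
    refine integral_congr_ae (ae_of_all _ fun x => ?_)
    simp only [hDt, smul_eq_mul]
    ring
  have hintg : ∀ f : X → ℝ, Integrable (fun x => f x * w x) m → Integrable f σ := by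
    intro f hf
    rw [integrable_withDensity_iff_integrable_smul' hD hDf]
    refine (hf.div_const Z).congr (ae_of_all _ fun x => ?_)
    simp only [hDt, smul_eq_mul]
    ring
  have hprob : IsProbabilityMeasure σ := by
    refine ⟨?_⟩
    rw [withDensity_apply _ MeasurableSet.univ, Measure.restrict_univ]
    rw [← ofReal_integral_eq_lintegral_ofReal (hwi.div_const Z)
      (ae_of_all _ fun x => div_nonneg (hw0 x).le hZ.le), integral_div, ← hZd, div_self hZ.ne',
      ENNReal.ofReal_one]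
  have hac : σ ≪ m := withDensity_absolutelyContinuous _ _
  have hrn : σ.rnDeriv m =ᵐ[m] D := Measure.rnDeriv_withDensity m hD
  have hllr : llr σ m =ᵐ[σ] fun x => Real.log (w x) - Real.log Z := by
    refine hac.ae_le ?_
    filter_upwards [hrn] with x hx
    rw [llr, hx, hDt, Real.log_div (hw0 x).ne' hZ.ne']
  have hli : Integrable (fun x => Real.log (w x) - Real.log Z) σ := by
    refine hintg _ ?_
    have : (fun x => (Real.log (w x) - Real.log Z) * w x) =
        fun x => w x * Real.log (w x) - Real.log Z * w x := by funext x; ring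
    rw [this]
    exact hwl.sub (hwi.const_mul _)
  refine ⟨σ, ⟨hprob, o, ?_⟩, hac, hli.congr hllr.symm, ?_, hint, hintg⟩
  · have h1 : Integrable (fun x => dist o x ^ 2) σ := hintg _ hw2
    have h2 := h1.lintegral_lt_top
    refine lt_of_le_of_lt (le_of_eq ?_) h2
    refine lintegral_congr fun y => ?_
    rw [edist_dist, ← ENNReal.ofReal_pow dist_nonneg]
  · rw [Hm, integral_congr_ae hllr, hint]
    have : (fun x => (Real.log (w x) - Real.log Z) * w x) =
        fun x => w x * Real.log (w x) - Real.log Z * w x := by funext x; ring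
    rw [this, integral_sub hwl (hwi.const_mul _), integral_const_mul, ← hZd]
    field_simp

variable [ProperSpace X]

/-- **T3**: the EVI implies the Gibbs inequality for the maximiser maps. -/
theorem gibbsIneq_of_evi {K : ℝ} (hK : K ≤ 0) {N : ℕ} (hN : 0 < N) {m : Measure X}
    (hfin : ∀ (x : X) (r : ℝ), m (closedBall x r) < ∞)
    (hposb : ∀ (x : X) (r : ℝ), 0 < r → 0 < m (ball x r))
    (hexp : ∃ (x : X) (c : ℝ), 0 < c ∧ ∫⁻ y, ENNReal.ofReal (Real.exp (-c * dist x y ^ 2)) ∂m < ∞)
    {P : ℝ → X → Measure X} (hP : EVIKer K N m P) {φ ℓ : X → ℝ} {M L : ℝ} (hD : Dom P φ ℓ M L)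
    {ε : ℝ} (hε : 0 < ε) {S : X → X} (hS : IsArg φ ε S) (o : X) :
    GibbsIneq K m o ℓ ε S := by
  intro w Φ hw hw0 hwi hwl hw2 hΦ hΦ0 hΦi hlogi
  have hN' : (0 : ℝ) < N := Nat.cast_pos.2 hN
  have hsf := sigmaFinite_of_fin hfin
  have hZ : 0 < ∫ x, w x ∂m := by
    rw [integral_pos_iff_support_of_nonneg (fun x => (hw0 x).le) hwi]
    have : Function.support w = univ := by
      ext x; simp [(hw0 x).ne']
    rw [this]
    exact (hposb o 1 one_pos).trans_le (measure_mono (subset_univ _))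
  obtain ⟨σ, hσ2, hσac, hσl, hσH, hσint, hσintg⟩ := norm_density hw hw0 hwi hZ o hw2 hwl
  set Z := ∫ x, w x ∂m with hZd
  have hσp := hσ2.1
  have hσU : 0 < UN N m σ := UN_pos_of hσac hσl
  have hMl : Continuous φ := by
    have : LipschitzWith (Real.toNNReal L) φ := LipschitzWith.of_dist_le_mul fun x y => by
      rw [Real.dist_eq]
      exact (hD.lip x y).trans (mul_le_mul_of_nonneg_right (Real.le_coe_toNNReal L) dist_nonneg)
    exact this.continuous
  have hMl' : Continuous ℓ := by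
    have : LipschitzWith (Real.toNNReal L) ℓ := LipschitzWith.of_dist_le_mul fun x y => by
      rw [Real.dist_eq]
      exact (hD.lip' x y).trans (mul_le_mul_of_nonneg_right (Real.le_coe_toNNReal L) dist_nonneg)
    exact this.continuous
  -- the image measure has finite second moment
  have hS2 : IsP2 (σ.map S) := by
    have hSp := Measure.isProbabilityMeasure_map (μ := σ) hS.1.aemeasurable
    refine ⟨hSp, o, ?_⟩
    have h1 : ∀ y, dist (S y) y ^ 2 ≤ 4 * M * ε := by
      intro y
      have h1 := argmax_gain hS.2 y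
      have h2 := abs_le.1 (hD.bdd (S y))
      have h3 := abs_le.1 (hD.bdd y)
      rw [div_le_iff₀ (by positivity)] at h1
      have h4 : φ (S y) - φ y ≤ 2 * M := by linarith
      have h5 : (φ (S y) - φ y) * (2 * ε) ≤ 2 * M * (2 * ε) :=
        mul_le_mul_of_nonneg_right h4 (by positivity)
      linarith
    rw [lintegral_map (by fun_prop) hS.1]
    have h2 : Integrable (fun y => 2 * dist o y ^ 2 + 2 * (4 * M * ε)) σ :=
      ((hσintg _ hw2).const_mul 2).add (integrable_const _)
    refine lt_of_le_of_lt (lintegral_mono fun y => ?_) h2.lintegral_lt_top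
    rw [edist_dist, ← ENNReal.ofReal_pow dist_nonneg]
    refine ENNReal.ofReal_le_ofReal ?_
    have h3 := dist_triangle o y (S y)
    rw [dist_comm y] at h3
    have h4 : dist o (S y) ^ 2 ≤ (dist o y + dist (S y) y) ^ 2 :=
      pow_le_pow_left₀ dist_nonneg h3 2
    nlinarith [h1 y, sq_nonneg (dist o y - dist (S y) y)]
  -- the flow from `S # σ`
  set μ : ℝ → Measure X := fun t => (σ.map S).bind (P t) with hμ
  have hflow : IsEVIFlow K N m μ := hP.flow _ hS2
  have hP0 : P 0 = dirac := by funext x; exact hP.zero x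
  have hμ0 : μ 0 = σ.map S := by
    rw [hμ]; simp only [hP0]; exact Measure.bind_dirac
  have hSp := hS2.1
  have hcont0 : Tendsto (fun s => W2 (μ s) (μ 0)) (𝓝[>] 0) (𝓝 0) :=
    (hflow.cont 0 le_rfl).mono_left (nhdsWithin_mono _ Ioi_subset_Ici_self)
  have hmono : ∀ s t, 0 < s → s ≤ t → UN N m (μ s) ≤ UN N m (μ t) := fun s t hs hst =>
    hflow.UN_mono hN hfin hexp hs hst
  -- T1 from time zero
  have hstep : ∀ h, 0 < h → W2 (μ h) σ ^ 2 ≤ W2 (μ 0) σ ^ 2 + cK K h *
      (2 * (N * Real.log (UN N m (μ h)) - N * Real.log (UN N m σ)) + -K * W2 (μ 0) σ ^ 2) := by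
    intro h hh
    have hW : Tendsto (fun t => W2 (μ t) σ) (𝓝[>] 0) (𝓝 (W2 (μ 0) σ)) := by
      rw [tendsto_iff_dist_tendsto_zero]
      refine squeeze_zero' (Eventually.of_forall fun _ => dist_nonneg) ?_ hcont0
      filter_upwards [self_mem_nhdsWithin] with t ht
      rw [Real.dist_eq]
      exact abs_W2_sub_le (hflow.p2 t (le_of_lt ht)) (hflow.p2 0 le_rfl) hσ2
    have hcKc : Continuous (cK K) := by
      unfold cK
      exact intervalIntegral.continuous_primitive
        (fun a b => (Continuous.intervalIntegrable (by fun_prop) a b)) 0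
    have hc : Tendsto (fun t => cK K (h - t)) (𝓝[>] 0) (𝓝 (cK K h)) := by
      have : Tendsto (fun t => cK K (h - t)) (𝓝 0) (𝓝 (cK K (h - 0))) :=
        (hcKc.comp (continuous_const.sub continuous_id)).tendsto 0
      rw [sub_zero] at this
      exact this.mono_left nhdsWithin_le_nhds
    have hR : Tendsto (fun t => W2 (μ t) σ ^ 2 + cK K (h - t) *
        (2 * (N * Real.log (UN N m (μ h)) - N * Real.log (UN N m σ)) + -K * W2 (μ t) σ ^ 2))
        (𝓝[>] 0) (𝓝 (W2 (μ 0) σ ^ 2 + cK K h *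
        (2 * (N * Real.log (UN N m (μ h)) - N * Real.log (UN N m σ)) + -K * W2 (μ 0) σ ^ 2))) :=
      (hW.pow 2).add (hc.mul (((hW.pow 2).const_mul (-K)).const_add _))
    refine ge_of_tendsto hR ?_
    have h1 : ∀ᶠ t in 𝓝[>] (0 : ℝ), t < h := nhdsWithin_le_nhds (gt_mem_nhds hh)
    filter_upwards [self_mem_nhdsWithin, h1] with t ht hth
    exact hflow.lin hK hN hσ2 hσU ht (le_of_lt hth)
      (fun v hv1 hv2 => hmono v h (lt_of_lt_of_le ht hv1) hv2)
  have hlogH : ∀ ν : Measure X, 0 < UN N m ν → N * Real.log (UN N m ν) = -(Hm m ν) := by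
    intro ν hν
    rw [UN_eq_exp hν, Real.log_exp]
    field_simp
  -- the generator
  have hgen : Tendsto (fun h => (∫ x, φ x ∂(μ h) - ∫ x, φ x ∂(μ 0)) / h) (𝓝[>] 0)
      (𝓝 (∫ x, ℓ x ∂(σ.map S))) := by
    rw [Metric.tendsto_nhds]
    intro δ hδ
    obtain ⟨t₀, ht₀, ht⟩ := hD.gen (δ / 2) (by positivity)
    have h1 : ∀ᶠ t in 𝓝[>] (0 : ℝ), t < t₀ := nhdsWithin_le_nhds (gt_mem_nhds ht₀)
    filter_upwards [self_mem_nhdsWithin, h1] with h hh hht
    have hh' : (0 : ℝ) < h := hh
    obtain ⟨hm1, hm2⟩ := integral_bind_bdd (μ := σ.map S) (hP.meas h hh'.le) (hP.prob h hh'.le)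
      hMl.measurable hD.bdd
    have hi1 : Integrable φ (σ.map S) :=
      Integrable.of_bound hMl.aestronglyMeasurable M (Eventually.of_forall hD.bdd)
    have hi2 : Integrable ℓ (σ.map S) :=
      Integrable.of_bound hMl'.aestronglyMeasurable M (Eventually.of_forall hD.bdd')
    have hi3 : Integrable (fun x => ∫ y, φ y ∂(P h x)) (σ.map S) := by
      refine Integrable.of_bound hm1.aestronglyMeasurable M (Eventually.of_forall fun x => ?_)
      have := hP.prob h hh'.le x
      have := norm_integral_le_of_norm_le_const (μ := P h x) (f := φ) (C := M)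
        (Eventually.of_forall hD.bdd)
      simpa using this
    have h2 : ∫ x, φ x ∂(μ h) - ∫ x, φ x ∂(μ 0) - h * ∫ x, ℓ x ∂(σ.map S) =
        ∫ x, (∫ y, φ y ∂(P h x) - φ x - h * ℓ x) ∂(σ.map S) := by
      have e1 := integral_sub (f := fun x => ∫ y, φ y ∂(P h x) - φ x) (g := fun x => h * ℓ x)
        (hi3.sub hi1) (hi2.const_mul h)
      rw [e1, integral_sub hi3 hi1, integral_const_mul, hμ0]
      simp only [hμ]
      rw [hm2]
    have h3 : |∫ x, φ x ∂(μ h) - ∫ x, φ x ∂(μ 0) - h * ∫ x, ℓ x ∂(σ.map S)| ≤ δ / 2 * h := by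
      rw [h2]
      have := norm_integral_le_of_norm_le_const (μ := σ.map S)
        (f := fun x => ∫ y, φ y ∂(P h x) - φ x - h * ℓ x) (C := δ / 2 * h)
        (Eventually.of_forall fun x => ht h hh' hht.le x)
      simpa using this
    rw [Real.dist_eq]
    have h4 : (∫ x, φ x ∂(μ h) - ∫ x, φ x ∂(μ 0)) / h - ∫ x, ℓ x ∂(σ.map S) =
        (∫ x, φ x ∂(μ h) - ∫ x, φ x ∂(μ 0) - h * ∫ x, ℓ x ∂(σ.map S)) / h := by
      field_simp
    rw [h4, abs_div, abs_of_pos hh', div_lt_iff₀ hh']
    nlinarith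
  have hq : Tendsto (fun h => cK K h / h) (𝓝[>] 0) (𝓝 1) := by
    have h1 : Tendsto (fun h : ℝ => Real.exp (-K * h)) (𝓝[>] 0) (𝓝 1) := by
      have : Tendsto (fun h : ℝ => Real.exp (-K * h)) (𝓝 0) (𝓝 (Real.exp (-K * 0))) :=
        (Real.continuous_exp.comp (continuous_const.mul continuous_id)).tendsto 0
      rw [mul_zero, Real.exp_zero] at this
      exact this.mono_left nhdsWithin_le_nhds
    refine tendsto_of_tendsto_of_tendsto_of_le_of_le' tendsto_const_nhds h1 ?_ ?_
    · filter_upwards [self_mem_nhdsWithin] with h hh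
      rw [le_div_iff₀ hh, one_mul]; exact le_cK hK (le_of_lt hh)
    · filter_upwards [self_mem_nhdsWithin] with h hh
      rw [div_le_iff₀ hh, mul_comm]; exact cK_le hK (le_of_lt hh)
  obtain ⟨hU0, hkey⟩ := sym_key hN hfin hexp (κ := -K) (by linarith) hσ2 hflow.p2 hcont0
    (fun t ht => hflow.dom t ht) hq (by
      filter_upwards [self_mem_nhdsWithin] with h hh
      have h1 := hstep h hh
      rw [hlogH _ (hflow.dom h hh), hlogH _ hσU] at h1
      have h2 : (2 * (-Hm m (μ h) - -Hm m σ) + -K * W2 (μ 0) σ ^ 2) =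
        (2 * (Hm m σ - Hm m (μ h)) + -K * W2 (μ 0) σ ^ 2) := by ring
      rw [h2] at h1
      linarith) hMl hD.bdd hε hS.1 hS.2 hμ0 hgen
  -- Gibbs variational principle
  obtain ⟨hac0, hint0⟩ := UN_pos_ac hU0
  have hmap : ∀ f : X → ℝ, Measurable f → ∫ x, f x ∂(σ.map S) = (∫ y, f (S y) * w y ∂m) / Z := by
    intro f hf
    rw [integral_map hS.1.aemeasurable hf.aestronglyMeasurable, hσint]
  have hlm : Measurable fun x => Real.log (Φ x) := Real.measurable_log.comp hΦ
  have hΦl : Integrable (fun x => Real.log (Φ x)) (σ.map S) :=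
    (integrable_map_measure (g := fun x => Real.log (Φ x)) hlm.aestronglyMeasurable
      hS.1.aemeasurable).2 (hσintg _ hlogi)
  have hp0 : IsProbabilityMeasure (μ 0) := by rw [hμ0]; exact hSp
  have hg := gibbs hac0 hint0 (φ := fun x => Φ x / Z) (hΦ.div_const Z)
    (fun x => div_pos (hΦ0 x) hZ) (hΦi.div_const Z) (by
      rw [hμ0]
      have : (fun x => Real.log (Φ x / Z)) = fun x => Real.log (Φ x) - Real.log Z := by
        funext x; exact Real.log_div (hΦ0 x).ne' hZ.ne'
      rw [this]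
      exact hΦl.sub (integrable_const _))
  have hg2 : ∫ x, Real.log (Φ x / Z) ∂(μ 0) =
      (∫ y, Real.log (Φ (S y)) * w y ∂m) / Z - Real.log Z := by
    rw [hμ0]
    have : (fun x => Real.log (Φ x / Z)) = fun x => Real.log (Φ x) - Real.log Z := by
      funext x; exact Real.log_div (hΦ0 x).ne' hZ.ne'
    rw [this, integral_sub hΦl (integrable_const _), hmap _ hlm]
    simp
  rw [hg2, integral_div] at hg
  have hkey2 := hg.trans hkey
  rw [hσH, hmap _ hMl'.measurable, hσint (fun y => dist (S y) y ^ 2)] at hkey2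
  have hmul := mul_le_mul_of_nonneg_right hkey2 hZ.le
  have e1 : ((∫ y, Real.log (Φ (S y)) * w y ∂m) / Z - Real.log Z + 1 - (∫ x, Φ x ∂m) / Z) * Z =
      ∫ y, Real.log (Φ (S y)) * w y ∂m - Real.log Z * Z + Z - ∫ x, Φ x ∂m := by
    field_simp
  have e2 : ((∫ x, w x * Real.log (w x) ∂m) / Z - Real.log Z -
        ε * ((∫ y, ℓ (S y) * w y ∂m) / Z) +
        -K / 2 * ((∫ y, dist (S y) y ^ 2 * w y ∂m) / Z)) * Z =
      ∫ x, w x * Real.log (w x) ∂m - Real.log Z * Z - ε * ∫ y, ℓ (S y) * w y ∂m +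
        (-K) / 2 * ∫ y, dist (S y) y ^ 2 * w y ∂m := by
    field_simp
  rw [e1, e2] at hmul
  linarith

end gibbs

end Pool.Agent.BDRY
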