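import Pool.Agent.Work.MP_209cb6_gt.B2.LipP
import Pool.Agent.Work.MP_209cb6_gt.B2.SymGibbs

/-!
# BDRY2: continuity in time of the heat semigroup
-/

set_option autoImplicit false

open MeasureTheory MeasureTheory.Measure Metric Set Filter Topology
open scoped ENNReal NNReal

namespace Pool.Agent.BDRY

universe u

namespace EVIKer

variable {X : Type u} [MetricSpace X] [MeasurableSpace X] [BorelSpace X]
  {K : ℝ} {N : ℕ} {m : Measure X} {P : ℝ → X → Measure X}

/-- `W2(P_t x, δ_x)² ≤ 2 N e^{-Kt} t` -/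
theorem W2_dirac_le (h : EVIKer K N m P) (hX : IsRCD K N X m) (hK : K ≤ 0) (hN : 0 < N)
    {t : ℝ} (ht : 0 ≤ t) (x : X) :
    W2 (P t x) (dirac x) ≤ √(2 * N * Real.exp (-K * t) * t) := by
  have := hX.proper
  rcases ht.eq_or_lt with h0 | h0
  · rw [← h0, h.zero, W2_self]
    exact Real.sqrt_nonneg _
  · have h1 := (h.flow _ (isP2_dirac x)).second_moment hK hN hX.finite_ball hX.pos_ball
      (by rw [h.bind_dirac le_rfl, h.zero x]) x h0
    rw [h.bind_dirac ht, dist_self, zero_div, sK_zero_right] at h1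
    refine Real.le_sqrt_of_sq_le (h1.trans (le_of_eq ?_))
    ring

/-- `|P_t f - f| ≤ L √(2 N e^{-Kt} t)` -/
theorem abs_sub_le (h : EVIKer K N m P) (hX : IsRCD K N X m) (hK : K ≤ 0) (hN : 0 < N)
    {t : ℝ} (ht : 0 ≤ t) {f : X → ℝ} {L : ℝ} (hL : 0 ≤ L)
    (hf : ∀ x y, |f x - f y| ≤ L * dist x y) (x : X) :
    |∫ z, f z ∂(P t x) - f x| ≤ L * √(2 * N * Real.exp (-K * t) * t) := by
  have := hX.proper
  have hi := h.integrable_lip ht x hf
  have hp := h.prob t ht x
  have hd2 : Integrable (fun z => dist z x ^ 2) (P t x) := by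
    have := (h.isP2_pt ht x).integrable_sq x
    simpa only [dist_comm x] using this
  have hd1 : Integrable (fun z => dist z x) (P t x) :=
    h.integrable_lip ht x (L := 1) fun a b => by
      rw [one_mul]; exact abs_dist_sub_le a b x
  have h1 : ∫ z, dist z x ∂(P t x) ≤ √(2 * N * Real.exp (-K * t) * t) := by
    have h2 : W2 (P t x) (dirac x) ^ 2 = ∫ z, dist z x ^ 2 ∂(P t x) := W2_dirac_sq (h.isP2_pt ht x) x
    have h3 := h.W2_dirac_le hX hK hN ht x
    have h4 := W2_nonneg (P t x) (dirac x)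
    refine le_trans ?_ h3
    refine le_of_sq_le_sq ?_ h4
    rw [h2]
    -- Jensen
    set a := ∫ z, dist z x ∂(P t x) with ha
    have h5 : 0 ≤ ∫ z, (dist z x - a) ^ 2 ∂(P t x) := integral_nonneg fun z => sq_nonneg _
    have h6 : ∫ z, (dist z x - a) ^ 2 ∂(P t x) = ∫ z, dist z x ^ 2 ∂(P t x) - a ^ 2 := by
      have h7 : ∀ z, (dist z x - a) ^ 2 = dist z x ^ 2 - 2 * a * dist z x + a ^ 2 := fun z => by ring
      simp_rw [h7]
      have e1 : ∫ z, (dist z x ^ 2 - 2 * a * dist z x) ∂(P t x) =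
          ∫ z, dist z x ^ 2 ∂(P t x) - 2 * a * a := by
        rw [integral_sub hd2 (hd1.const_mul _), integral_const_mul]
      have e2 : ∫ z, (dist z x ^ 2 - 2 * a * dist z x + a ^ 2) ∂(P t x) =
          ∫ z, (dist z x ^ 2 - 2 * a * dist z x) ∂(P t x) + a ^ 2 := by
        have hi' : Integrable (fun z => dist z x ^ 2 - 2 * a * dist z x) (P t x) :=
          hd2.sub (hd1.const_mul _)
        rw [MeasureTheory.integral_add hi' (integrable_const _)]
        simp
      rw [e2, e1]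
      ring
    linarith
  calc |∫ z, f z ∂(P t x) - f x| = |∫ z, (f z - f x) ∂(P t x)| := by
        rw [integral_sub hi (integrable_const _)]
        simp
    _ ≤ ∫ z, |f z - f x| ∂(P t x) := abs_integral_le_integral_abs
    _ ≤ ∫ z, L * dist z x ∂(P t x) := integral_mono (hi.sub (integrable_const _)).abs
        (hd1.const_mul _) fun z => hf z x
    _ = L * ∫ z, dist z x ∂(P t x) := integral_const_mul _ _
    _ ≤ _ := mul_le_mul_of_nonneg_left h1 hL

omit [BorelSpace X] in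
/-- semigroup property on bounded functions -/
theorem integral_add (h : EVIKer K N m P) {s t : ℝ} (hs : 0 ≤ s) (ht : 0 ≤ t) {f : X → ℝ}
    (hf : Measurable f) {M : ℝ} (hM : ∀ x, |f x| ≤ M) (x : X) :
    ∫ z, f z ∂(P (s + t) x) = ∫ y, (∫ z, f z ∂(P t y)) ∂(P s x) := by
  have := h.prob s hs x
  rw [h.sgrp s t hs ht]
  exact (integral_bind_bdd (h.meas t ht) (h.prob t ht) hf hM).2

/-- the modulus of continuity in time: `|P_t f - P_s f| ≤ L √(2 N e^{-K(t-s)} (t-s))` -/
theorem time_le (h : EVIKer K N m P) (hX : IsRCD K N X m) (hK : K ≤ 0) (hN : 0 < N)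
    {s t : ℝ} (hs : 0 ≤ s) (hst : s ≤ t) {f : X → ℝ} {L M : ℝ} (hL : 0 ≤ L)
    (hf : ∀ x y, |f x - f y| ≤ L * dist x y) (hM : ∀ x, |f x| ≤ M) (x : X) :
    |∫ z, f z ∂(P t x) - ∫ z, f z ∂(P s x)| ≤
      L * √(2 * N * Real.exp (-K * (t - s)) * (t - s)) := by
  have := hX.proper
  have hp := h.prob s hs x
  have hr : 0 ≤ t - s := by linarith
  have hf' : LipschitzWith ⟨L, hL⟩ f :=
    LipschitzWith.of_dist_le_mul fun a b => by rw [Real.dist_eq]; exact hf a b
  have hfm : Measurable f := hf'.continuous.measurable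
  have h1 := h.integral_add hs hr hfm hM x
  rw [add_sub_cancel] at h1
  have hgm : Measurable fun y => ∫ z, f z ∂(P (t - s) y) :=
    (integral_bind_bdd (μ := P s x) (h.meas _ hr) (h.prob _ hr) hfm hM).1
  have hi1 : Integrable (fun y => ∫ z, f z ∂(P (t - s) y)) (P s x) :=
    Integrable.of_bound (C := M) hgm.aestronglyMeasurable
      (ae_of_all _ fun y => by simpa using h.abs_le hr y hM)
  have hi2 : Integrable f (P s x) := Integrable.of_bound (C := M) hfm.aestronglyMeasurable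
      (ae_of_all _ fun y => by simpa using hM y)
  rw [h1, ← integral_sub hi1 hi2]
  have h5 := norm_integral_le_of_norm_le_const (μ := P s x)
    (f := fun y => (∫ z, f z ∂(P (t - s) y)) - f y)
    (C := L * √(2 * N * Real.exp (-K * (t - s)) * (t - s)))
    (Eventually.of_forall fun y => by
      simpa using h.abs_sub_le hX hK hN hr hL hf y)
  simpa using h5

/-- the same for arbitrary times -/
theorem time_le' (h : EVIKer K N m P) (hX : IsRCD K N X m) (hK : K ≤ 0) (hN : 0 < N)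
    {s t : ℝ} (hs : 0 ≤ s) (ht : 0 ≤ t) {f : X → ℝ} {L M : ℝ} (hL : 0 ≤ L)
    (hf : ∀ x y, |f x - f y| ≤ L * dist x y) (hM : ∀ x, |f x| ≤ M) (x : X) :
    |∫ z, f z ∂(P t x) - ∫ z, f z ∂(P s x)| ≤
      L * √(2 * N * Real.exp (-K * |t - s|) * |t - s|) := by
  rcases le_total s t with hst | hst
  · rw [abs_of_nonneg (sub_nonneg.2 hst)]
    exact h.time_le hX hK hN hs hst hL hf hM x
  · rw [abs_sub_comm, abs_sub_comm t s, abs_of_nonneg (sub_nonneg.2 hst)]
    exact h.time_le hX hK hN ht hst hL hf hM x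

/-- joint continuity of `(t, x) ↦ P_t f x` on `[0, ∞) × X` -/
theorem continuousOn (h : EVIKer K N m P) (hX : IsRCD K N X m) (hK : K ≤ 0) (hN : 0 < N)
    {f : X → ℝ} {L M : ℝ} (hL : 0 ≤ L)
    (hf : ∀ x y, |f x - f y| ≤ L * dist x y) (hM : ∀ x, |f x| ≤ M) :
    ContinuousOn (fun p : ℝ × X => ∫ z, f z ∂(P p.1 p.2)) (Ici 0 ×ˢ univ) := by
  have := hX.proper
  rintro ⟨t, x⟩ ⟨ht, -⟩
  have ht0 : (0 : ℝ) ≤ t := ht
  rw [ContinuousWithinAt, tendsto_iff_dist_tendsto_zero]
  have h1 : Tendsto (fun p : ℝ × X => L * √(2 * N * Real.exp (-K * |p.1 - t|) * |p.1 - t|) +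
      L * Real.exp (-K * t) * dist p.2 x) (𝓝[Ici 0 ×ˢ univ] (t, x)) (𝓝 0) := by
    have hc : Continuous fun p : ℝ × X => L * √(2 * N * Real.exp (-K * |p.1 - t|) * |p.1 - t|) +
        L * Real.exp (-K * t) * dist p.2 x := by fun_prop
    have h2 := (hc.tendsto (t, x)).mono_left (nhdsWithin_le_nhds (s := Ici 0 ×ˢ univ))
    simpa using h2
  refine squeeze_zero' (Eventually.of_forall fun _ => dist_nonneg) ?_ h1
  filter_upwards [self_mem_nhdsWithin] with p hp
  have hp0 : 0 ≤ p.1 := hp.1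
  have h2 := h.time_le' hX hK hN ht0 hp0 hL hf hM p.2
  have h3 := EVIKer.lip hK hN h hX.geod ht0 hL hf p.2 x
  rw [Real.dist_eq]
  calc _ ≤ |∫ z, f z ∂(P p.1 p.2) - ∫ z, f z ∂(P t p.2)| +
        |∫ z, f z ∂(P t p.2) - ∫ z, f z ∂(P t x)| := _root_.abs_sub_le _ _ _
    _ ≤ _ := add_le_add h2 h3

end EVIKer

end Pool.Agent.BDRY
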