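import Pool.Agent.Work.MP_209cb6_gt.B2.UscMono

/-!
# BDRY2, block KER: the one-step inequality of an EVI flow for the squared distance

`W2(μ_(s+τ), σ)² ≤ (1 - 3 K J) W2(μ_s, σ)² + 2 N J (log U(μ_(s+τ)) - log U(σ))`,
`J = e^(-K τ) ∫_0^τ e^(K v) dv`.
-/

set_option autoImplicit false

open MeasureTheory MeasureTheory.Measure Metric Set Filter Topology
open scoped ENNReal NNReal

namespace Pool.Agent.BDRY

universe u

/-! ### Scalar inequalities -/

theorem sQ_le_mul_cQ {q a : ℝ} (ha : 0 ≤ a) : sQ q a ≤ a * cQ q a := by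
  have hd : ∀ z, HasDerivAt (fun z => z * cQ q z - sQ q z) (z * (q ^ 2 * sQ q z)) z := fun z => by
    have h := ((hasDerivAt_id z).mul (hasDerivAt_cQ q z)).sub (hasDerivAt_sQ q z)
    refine h.congr_deriv ?_
    simp
  have hm : MonotoneOn (fun z => z * cQ q z - sQ q z) (Ici 0) := by
    refine monotoneOn_of_deriv_nonneg (convex_Ici 0)
      (fun z _ => (hd z).continuousAt.continuousWithinAt)
      (fun z _ => (hd z).differentiableAt.differentiableWithinAt) fun z hz => ?_
    rw [interior_Ici] at hz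
    rw [(hd z).deriv]
    have hz0 : 0 ≤ z := le_of_lt hz
    have := sQ_nonneg (q := q) hz0
    positivity
  have h1 := hm self_mem_Ici (mem_Ici.2 ha) ha
  simp only [zero_mul, sQ_zero, sub_zero] at h1
  linarith

theorem le_sQ {q a : ℝ} (ha : 0 ≤ a) : a ≤ sQ q a := by
  have hd : ∀ z, HasDerivAt (fun z => sQ q z - z) (cQ q z - 1) z := fun z =>
    (hasDerivAt_sQ q z).sub (hasDerivAt_id z)
  have hm : MonotoneOn (fun z => sQ q z - z) (Ici 0) := by
    refine monotoneOn_of_deriv_nonneg (convex_Ici 0)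
      (fun z _ => (hd z).continuousAt.continuousWithinAt)
      (fun z _ => (hd z).differentiableAt.differentiableWithinAt) fun z hz => ?_
    rw [(hd z).deriv]
    linarith [one_le_cQ q z]
  have h1 := hm self_mem_Ici (mem_Ici.2 ha) ha
  simp only [sQ_zero, sub_zero] at h1
  linarith

/-- `sQ x / x` is nondecreasing -/
theorem sQ_slope {q a b : ℝ} (ha : 0 ≤ a) (hab : a ≤ b) : sQ q a * b ≤ sQ q b * a := by
  have hd : ∀ z, HasDerivAt (fun z => sQ q z * a - sQ q a * z) (cQ q z * a - sQ q a) z := fun z => by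
    have h := ((hasDerivAt_sQ q z).mul_const a).sub ((hasDerivAt_id z).const_mul (sQ q a))
    refine h.congr_deriv ?_
    simp
  have hcm : ∀ z, a ≤ z → cQ q a ≤ cQ q z := by
    intro z hz
    have h1 := gQ_eq q a
    have h2 := gQ_eq q z
    have h3 := gQ_mono (q := q) ha hz
    nlinarith [sq_nonneg q]
  have hm : MonotoneOn (fun z => sQ q z * a - sQ q a * z) (Ici a) := by
    refine monotoneOn_of_deriv_nonneg (convex_Ici a)
      (fun z _ => (hd z).continuousAt.continuousWithinAt)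
      (fun z _ => (hd z).differentiableAt.differentiableWithinAt) fun z hz => ?_
    rw [interior_Ici] at hz
    rw [(hd z).deriv]
    have h1 := hcm z (le_of_lt hz)
    have h2 := sQ_le_mul_cQ (q := q) ha
    nlinarith
  have h1 := hm self_mem_Ici (mem_Ici.2 hab) hab
  simp only at h1
  linarith

/-- convexity of `gQ` as a function of the square: `R (b² - a²) ≤ 4 (g b - g a)`, `R = sQ a / a` -/
theorem gQ_convex_sq {q a b : ℝ} (ha : 0 < a) (hb : 0 ≤ b) :
    sQ q a / a * (b ^ 2 - a ^ 2) ≤ 4 * (gQ q b - gQ q a) := by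
  set R := sQ q a / a with hR
  have hRa : R * a = sQ q a := by rw [hR]; field_simp
  have hd : ∀ z, HasDerivAt (fun z => 4 * gQ q z - R * z ^ 2) (2 * (sQ q z - R * z)) z := fun z => by
    have h := ((hasDerivAt_gQ q z).const_mul 4).sub ((hasDerivAt_pow 2 z).const_mul R)
    refine h.congr_deriv ?_
    simp
    ring
  have hc : Continuous fun z => 4 * gQ q z - R * z ^ 2 := by
    have := continuous_gQ q
    fun_prop
  rcases le_total a b with h | h
  · have hm : MonotoneOn (fun z => 4 * gQ q z - R * z ^ 2) (Ici a) := by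
      refine monotoneOn_of_deriv_nonneg (convex_Ici a) hc.continuousOn
        (fun z _ => (hd z).differentiableAt.differentiableWithinAt) fun z hz => ?_
      rw [interior_Ici] at hz
      rw [(hd z).deriv]
      have h1 := sQ_slope (q := q) ha.le (le_of_lt hz)
      have h2 : R * z ≤ sQ q z := by
        rw [hR, div_mul_eq_mul_div, div_le_iff₀ ha]
        exact h1
      linarith
    have h1 := hm self_mem_Ici (mem_Ici.2 h) h
    simp only at h1
    linarith
  · have hm : AntitoneOn (fun z => 4 * gQ q z - R * z ^ 2) (Icc 0 a) := by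
      refine antitoneOn_of_deriv_nonpos (convex_Icc 0 a) hc.continuousOn
        (fun z _ => (hd z).differentiableAt.differentiableWithinAt) fun z hz => ?_
      rw [interior_Icc] at hz
      rw [(hd z).deriv]
      have h1 := sQ_slope (q := q) (le_of_lt hz.1) (le_of_lt hz.2)
      have h2 : sQ q z ≤ R * z := by
        rw [hR, div_mul_eq_mul_div, le_div_iff₀ ha]
        exact h1
      linarith
    have h1 := hm (⟨hb, h⟩ : b ∈ Icc 0 a) (⟨ha.le, le_rfl⟩ : a ∈ Icc 0 a) h
    simp only at h1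
    linarith

/-- `(c(a) - e^y) / R(a) ≤ -y + (3/2) (q a)²` -/
theorem step_scalar {q a : ℝ} (ha : 0 < a) (y : ℝ) :
    cQ q a - Real.exp y ≤ sQ q a / a * (-y + 3 / 2 * (q * a) ^ 2) := by
  set R := sQ q a / a with hR
  have hs : 0 < sQ q a := sQ_pos ha
  have hR0 : 0 < R := by positivity
  have hR1 : 1 ≤ R := by
    rw [hR, le_div_iff₀ ha, one_mul]
    exact le_sQ ha.le
  -- `c ≤ R (1 + (q a)²)`
  have h1 : cQ q a ≤ R * (1 + (q * a) ^ 2) := by
    have e1 : cQ q a = 1 + 2 * q ^ 2 * gQ q a := by rw [gQ_eq]; ring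
    have e2 : gQ q a ≤ sQ q a / 2 * a := by
      have := gQ_tangent q a 0
      have h0 : gQ q 0 = 0 := by simp [gQ, sQ_zero]
      rw [h0] at this
      linarith
    have e3 : sQ q a = R * a := by rw [hR]; field_simp
    rw [e3] at e2
    have e4 : 2 * q ^ 2 * gQ q a ≤ R * (q * a) ^ 2 := by nlinarith [sq_nonneg q]
    rw [e1]
    nlinarith
  -- `log R ≤ (q a)² / 2`
  have h2 : Real.log R ≤ (q * a) ^ 2 / 2 := by
    rw [Real.log_le_iff_le_exp hR0]
    have e1 : R ≤ cQ q a := by
      rw [hR, div_le_iff₀ ha, mul_comm]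
      exact sQ_le_mul_cQ ha.le
    exact e1.trans (Real.cosh_le_exp_half_sq _)
  have h3 : R * (1 + y - Real.log R) ≤ Real.exp y := by
    have e1 := Real.add_one_le_exp (y - Real.log R)
    have e2 : Real.exp y = R * Real.exp (y - Real.log R) := by
      rw [Real.exp_sub, Real.exp_log hR0]
      field_simp
    rw [e2]
    exact mul_le_mul_of_nonneg_left (by linarith) hR0.le
  nlinarith

section flow

variable {X : Type u} [MetricSpace X] [MeasurableSpace X] [BorelSpace X] [ProperSpace X]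
  {K : ℝ} {N : ℕ} {m : Measure X} {μ ν : ℝ → Measure X}

/-- the time factor `J = e^(-K τ) ∫_0^τ e^(K v) dv` -/
noncomputable def JK (K τ : ℝ) : ℝ := Real.exp (-K * τ) * ∫ v in (0 : ℝ)..τ, Real.exp (K * v)

theorem JK_le {K : ℝ} (hK : K ≤ 0) {τ : ℝ} (hτ : 0 ≤ τ) : JK K τ ≤ τ * Real.exp (-K * τ) := by
  rw [JK, mul_comm]
  exact mul_le_mul_of_nonneg_right (exp_int_le hK hτ) (Real.exp_pos _).le

theorem le_JK {K : ℝ} (hK : K ≤ 0) {τ : ℝ} (hτ : 0 ≤ τ) : τ ≤ JK K τ := by
  have h1 := mul_le_mul_of_nonneg_left (exp_int_ge hK hτ) (Real.exp_pos (-K * τ)).le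
  have h2 : Real.exp (-K * τ) * (τ * Real.exp (K * τ)) = τ := by
    have : Real.exp (-K * τ) * Real.exp (K * τ) = 1 := by
      rw [← Real.exp_add]; simp
    rw [mul_comm τ, ← mul_assoc, this, one_mul]
  rw [h2] at h1
  exact h1

theorem JK_nonneg {K : ℝ} (hK : K ≤ 0) {τ : ℝ} (hτ : 0 ≤ τ) : 0 ≤ JK K τ := hτ.trans (le_JK hK hτ)

theorem JK_mul (K τ : ℝ) : -K * JK K τ = Real.exp (-K * τ) - 1 := by
  have h := exp_int_eq K τ
  have h2 : Real.exp (-K * τ) * Real.exp (K * τ) = 1 := by
    rw [← Real.exp_add]; simp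
  rw [JK]
  linear_combination (-Real.exp (-K * τ)) * h + (-1 : ℝ) * h2

/-- one step of an EVI flow -/
theorem IsEVIFlow.one_step (hK : K ≤ 0) (hN : 0 < N) (h : IsEVIFlow K N m μ)
    (hmono : ∀ s t, 0 < s → s ≤ t → UN N m (μ s) ≤ UN N m (μ t)) {σ : Measure X} (hσ : IsP2 σ)
    (hσ0 : 0 < UN N m σ) {s τ : ℝ} (hs : 0 < s) (hτ : 0 ≤ τ) :
    W2 (μ (s + τ)) σ ^ 2 ≤ (1 + 3 * -K * JK K τ) * W2 (μ s) σ ^ 2 +
      2 * N * JK K τ * (Real.log (UN N m (μ (s + τ))) - Real.log (UN N m σ)) := by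
  have hN' : (0 : ℝ) < N := Nat.cast_pos.2 hN
  have hκ : K / N ≤ 0 := div_nonpos_of_nonpos_of_nonneg hK hN'.le
  set q := √(-(K / N)) with hq
  have hq2 : q ^ 2 = -(K / N) := sqrt_sq_neg hκ
  have hKq : -K = N * q ^ 2 := by rw [hq2]; field_simp
  have hst : s ≤ s + τ := by linarith
  have hU := h.dom (s + τ) (by linarith)
  set y := Real.log (UN N m σ) - Real.log (UN N m (μ (s + τ))) with hy
  have hey : UN N m σ / UN N m (μ (s + τ)) = Real.exp y := by
    rw [hy, Real.exp_sub, Real.exp_log hσ0, Real.exp_log hU]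
  have hev := h.evi σ hσ hσ0 s (s + τ) hs hst
  have hcont : Continuous fun t : ℝ => Real.exp (K * t) := by fun_prop
  have hle : ∫ v in s..(s + τ), Real.exp (K * v) * (1 - UN N m σ / UN N m (μ v)) ≤
      ∫ v in s..(s + τ), Real.exp (K * v) * (1 - Real.exp y) := by
    refine intervalIntegral.integral_mono_on hst ?_ ?_ ?_
    · have h1 : (fun v => Real.exp (K * v) * (1 - UN N m σ / UN N m (μ v))) = fun v =>
          Real.exp (K * v) - Real.exp (K * v) * (UN N m σ * (UN N m (μ v))⁻¹) := by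
        funext v
        rw [div_eq_mul_inv]
        ring
      rw [h1]
      exact (hcont.intervalIntegrable s (s + τ)).sub
        (((h.int s (s + τ) hs hst).const_mul _).continuousOn_mul hcont.continuousOn)
    · exact (hcont.mul continuous_const).intervalIntegrable s (s + τ)
    · intro v hv
      have hv0 : 0 < v := hs.trans_le hv.1
      have h2 := hmono v (s + τ) hv0 hv.2
      have h3 := h.dom v hv0
      have h4 : Real.exp y ≤ UN N m σ / UN N m (μ v) := by
        rw [← hey]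
        exact div_le_div_of_nonneg_left hσ0.le h3 h2
      exact mul_le_mul_of_nonneg_left (by linarith) (Real.exp_pos _).le
  rw [intervalIntegral.integral_mul_const] at hle
  have hsh : ∫ v in s..(s + τ), Real.exp (K * v) =
      Real.exp (K * s) * ∫ v in (0 : ℝ)..τ, Real.exp (K * v) := by
    rw [← intervalIntegral.integral_const_mul]
    have e1 : (fun v => Real.exp (K * s) * Real.exp (K * v)) = fun v => Real.exp (K * (s + v)) := by
      funext v
      rw [← Real.exp_add]; congr 1; ring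
    rw [e1, intervalIntegral.integral_comp_add_left (fun v => Real.exp (K * v)) s, add_zero]
  rw [hsh] at hle
  have hgQ : ∀ w, sK (K / N) (w / 2) ^ 2 = gQ q w := fun w => by
    rw [sK_eq_sQ hκ, gQ]
  rw [hgQ, hgQ] at hev
  set W0 := W2 (μ s) σ with hW0
  set W1 := W2 (μ (s + τ)) σ with hW1
  have hW00 : 0 ≤ W0 := W2_nonneg _ _
  have hW10 : 0 ≤ W1 := W2_nonneg _ _
  set I := ∫ v in (0 : ℝ)..τ, Real.exp (K * v) with hI
  have hJ : JK K τ = Real.exp (-K * τ) * I := rfl
  have hJ0 : 0 ≤ JK K τ := JK_nonneg hK hτ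
  -- the main inequality
  have hmain : gQ q W1 ≤ Real.exp (-K * τ) * gQ q W0 + N / 2 * (1 - Real.exp y) * JK K τ := by
    have h1 : Real.exp (K * (s + τ)) * gQ q W1 - Real.exp (K * s) * gQ q W0 ≤
        N / 2 * (Real.exp (K * s) * I * (1 - Real.exp y)) :=
      hev.trans (mul_le_mul_of_nonneg_left hle (by positivity))
    have e1 : Real.exp (-(K * (s + τ))) * Real.exp (K * (s + τ)) = 1 := by
      rw [← Real.exp_add]; simp
    have e2 : Real.exp (-(K * (s + τ))) * Real.exp (K * s) = Real.exp (-K * τ) := by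
      rw [← Real.exp_add]; congr 1; ring
    have h2 := mul_le_mul_of_nonneg_left h1 (Real.exp_pos (-(K * (s + τ)))).le
    have e3 : Real.exp (-(K * (s + τ))) * (Real.exp (K * (s + τ)) * gQ q W1 -
        Real.exp (K * s) * gQ q W0) = gQ q W1 - Real.exp (-K * τ) * gQ q W0 := by
      rw [mul_sub, ← mul_assoc, ← mul_assoc, e1, e2, one_mul]
    have e4 : Real.exp (-(K * (s + τ))) * (N / 2 * (Real.exp (K * s) * I * (1 - Real.exp y))) =
        N / 2 * (1 - Real.exp y) * JK K τ := by
      rw [hJ, ← e2]; ring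
    rw [e3, e4] at h2
    linarith
  have hlog : Real.log (UN N m (μ (s + τ))) - Real.log (UN N m σ) = -y := by rw [hy]; ring
  rw [hlog]
  rcases hW00.eq_or_lt with h0 | h0
  · rw [← h0]
    have h1 : W1 ^ 2 ≤ 4 * gQ q W1 := by
      have h2 : (W1 / 2) ^ 2 ≤ sQ q (W1 / 2) ^ 2 :=
        pow_le_pow_left₀ (by positivity) (le_sQ (by positivity)) 2
      rw [gQ]
      nlinarith
    have h2 : gQ q W0 = 0 := by rw [← h0]; simp [gQ, sQ_zero]
    rw [h2, mul_zero, zero_add] at hmain
    have h3 := Real.add_one_le_exp y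
    have h4 : N / 2 * (1 - Real.exp y) * JK K τ ≤ N / 2 * (-y) * JK K τ := by
      refine mul_le_mul_of_nonneg_right (mul_le_mul_of_nonneg_left (by linarith) (by positivity)) hJ0
    nlinarith
  · set R := sQ q W0 / W0 with hR
    have hR0 : 0 < R := div_pos (sQ_pos h0) h0
    have h1 := gQ_convex_sq (q := q) h0 hW10
    rw [← hR] at h1
    have h2 := step_scalar (q := q) h0 y
    rw [← hR] at h2
    have h3 := gQ_eq q W0
    have h4 := JK_mul K τ
    have h5 : Real.exp (-K * τ) = 1 + -K * JK K τ := by linarith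
    rw [h5] at hmain
    have h6 : 4 * (gQ q W1 - gQ q W0) ≤ 2 * N * JK K τ * (cQ q W0 - Real.exp y) := by
      have h7 : 2 * N * JK K τ * (cQ q W0 - Real.exp y) =
          4 * (-K * JK K τ * gQ q W0 + N / 2 * (1 - Real.exp y) * JK K τ) := by
        have h8 : cQ q W0 = 2 * q ^ 2 * gQ q W0 + 1 := by linarith
        rw [h8, hKq]; ring
      rw [h7]
      linarith
    have h9 : R * (W1 ^ 2 - W0 ^ 2) ≤ R * (2 * N * JK K τ * (-y + 3 / 2 * (q * W0) ^ 2)) := by
      have h10 : 2 * N * JK K τ * (cQ q W0 - Real.exp y) ≤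
          2 * N * JK K τ * (R * (-y + 3 / 2 * (q * W0) ^ 2)) :=
        mul_le_mul_of_nonneg_left h2 (by positivity)
      calc R * (W1 ^ 2 - W0 ^ 2) ≤ 2 * N * JK K τ * (R * (-y + 3 / 2 * (q * W0) ^ 2)) :=
            h1.trans (h6.trans h10)
        _ = _ := by ring
    have h11 := le_of_mul_le_mul_left h9 hR0
    have h12 : 2 * N * JK K τ * (-y + 3 / 2 * (q * W0) ^ 2) =
        3 * -K * JK K τ * W0 ^ 2 + 2 * N * JK K τ * (-y) := by
      rw [hKq]; ring
    rw [h12] at h11
    linarith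

end flow

end Pool.Agent.BDRY
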