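import Pool.Agent.Work.MP_209cb6_gt.Slab

/-!
# BDRY2: segment inequality

A Lipschitz function which moves slowly along short steps outside of a set `S` has small
oscillation on a ball, unless `S` has a definite proportion of the ball.
-/

set_option autoImplicit false

open MeasureTheory MeasureTheory.Measure Metric Set Filter Topology
open scoped ENNReal NNReal

namespace Pool.Agent.BDRY

universe u

/-- Discrete geodesics. -/
theorem exists_chain {X : Type u} [MetricSpace X] (hg : Geod X) (y b : X) {M : ℕ} (hM : 0 < M) :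
    ∃ g : ℕ → X, g 0 = y ∧ (∀ i, i ≤ M → g i ∈ Mid ((i : ℝ) / M) y b) ∧
      ∀ i, i < M → dist (g i) (g (i + 1)) = dist y b / M := by
  have hM0 : (0 : ℝ) < M := by exact_mod_cast hM
  have hstep : ∀ (i : ℕ) (z : X), ∃ w, i < M → w ∈ Mid (1 / ((M : ℝ) - i)) z b := by
    intro i z
    by_cases hi : i < M
    · have h1 : (i : ℝ) + 1 ≤ M := by exact_mod_cast hi
      obtain ⟨w, hw⟩ := hg z b (1 / ((M : ℝ) - i)) (by
        apply div_nonneg zero_le_one
        linarith) (by
        rw [div_le_one (by linarith)]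
        linarith)
      exact ⟨w, fun _ => hw⟩
    · exact ⟨z, fun h => absurd h hi⟩
  choose F hF using hstep
  let g : ℕ → X := fun i => Nat.rec y (fun j z => F j z) i
  have hg0 : g 0 = y := rfl
  have hgs : ∀ i, g (i + 1) = F i (g i) := fun i => rfl
  have hd : ∀ i, i ≤ M → dist (g i) b = (1 - (i : ℝ) / M) * dist y b := by
    intro i
    induction i with
    | zero => intro _; simp [hg0]
    | succ i ih =>
      intro hi
      have hi' : i < M := hi
      have h1 := ih hi'.le
      have h2 := (hF i (g i) hi').2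
      rw [hgs, h2, h1]
      have h3 : (i : ℝ) + 1 ≤ M := by exact_mod_cast hi
      have h4 : (M : ℝ) - i ≠ 0 := by
        have : (0 : ℝ) < M - i := by linarith
        exact this.ne'
      push_cast
      field_simp
      ring
  have hs : ∀ i, i < M → dist (g i) (g (i + 1)) = dist y b / M := by
    intro i hi
    have h2 := (hF i (g i) hi).1
    rw [hgs, h2, hd i hi.le]
    have h3 : (i : ℝ) + 1 ≤ M := by exact_mod_cast hi
    have h4 : (M : ℝ) - i ≠ 0 := by
      have : (0 : ℝ) < M - i := by linarith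
      exact this.ne'
    field_simp
  have hle : ∀ i, i ≤ M → dist y (g i) ≤ (i : ℝ) / M * dist y b := by
    intro i
    induction i with
    | zero => intro _; simp [hg0]
    | succ i ih =>
      intro hi
      have hi' : i < M := hi
      have h1 := ih hi'.le
      have h2 := hs i hi'
      have h3 := dist_triangle y (g i) (g (i + 1))
      rw [h2] at h3
      push_cast
      have : ((i : ℝ) + 1) / M * dist y b = (i : ℝ) / M * dist y b + dist y b / M := by
        field_simp
      rw [this]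
      linarith
  refine ⟨g, hg0, fun i hi => ⟨?_, hd i hi⟩, hs⟩
  apply le_antisymm (hle i hi)
  have h1 := dist_triangle y (g i) b
  rw [hd i hi] at h1
  linarith

/-- Pigeonhole for outer measures. -/
theorem sum_measure_ge {X : Type u} [MeasurableSpace X] (m : Measure X) {ι : Type*}
    (s : Finset ι) (A : ι → Set X) {B : Set X} (k : ℝ≥0∞)
    (h : ∀ y ∈ B, k ≤ ∑ i ∈ s, (A i).indicator (fun _ => (1 : ℝ≥0∞)) y) :
    k * m B ≤ ∑ i ∈ s, m (A i) := by
  have h1 : k * m B ≤ ∫⁻ y in B, ∑ i ∈ s,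
      (toMeasurable m (A i)).indicator (fun _ => (1 : ℝ≥0∞)) y ∂m := by
    rw [← setLIntegral_const]
    refine setLIntegral_mono (Finset.measurable_fun_sum _ fun i _ =>
      measurable_const.indicator (measurableSet_toMeasurable m (A i))) fun y hy => ?_
    refine (h y hy).trans (Finset.sum_le_sum fun i _ => ?_)
    exact indicator_le_indicator_of_subset (subset_toMeasurable m (A i))
      (fun _ => zero_le) y
  refine h1.trans ?_
  rw [lintegral_finsetSum _ fun i _ =>
      measurable_const.indicator (measurableSet_toMeasurable m (A i))]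
  refine Finset.sum_le_sum fun i _ => ?_
  rw [lintegral_indicator_const (measurableSet_toMeasurable m (A i)), one_mul,
    Measure.restrict_apply (measurableSet_toMeasurable m (A i)), ← measure_toMeasurable (A i)]
  exact measure_mono inter_subset_left

/-- The oscillation estimate. -/
theorem seg_osc (n : ℕ) {A c : ℝ} (hc : 0 < c) {Λ ε₁ : ℝ} (hΛ : 0 < Λ) (hε₁ : 0 < ε₁) :
    ∃ ε₂ : ℝ, 0 < ε₂ ∧ ∃ c₁ : ℝ, 0 < c₁ ∧ ∀ (X : Type u) [MetricSpace X] [MeasurableSpace X]
      [BorelSpace X] (m : Measure X), Contr n A c X m → ∀ (q : X) (ρ σ : ℝ) (S : Set X)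
      (f : X → ℝ), 0 < σ → σ ≤ ε₂ * ρ → ρ ≤ 1 →
      (∀ y ∈ closedBall q (4 * ρ), ∀ z ∈ closedBall q (4 * ρ), |f y - f z| ≤ Λ * dist y z) →
      (∀ y ∈ closedBall q (4 * ρ), ∀ z ∈ closedBall q (4 * ρ), y ∉ S → z ∉ S → dist y z ≤ σ →
        |f y - f z| ≤ ε₂ * σ) →
      ∀ a ∈ closedBall q ρ, ∀ b ∈ closedBall q ρ, ε₁ * ρ ≤ |f a - f b| →
      ENNReal.ofReal c₁ * m (closedBall q ρ) ≤ m (S ∩ closedBall q (4 * ρ)) := by
  set τ : ℝ := min (1 / 2) (ε₁ / (32 * Λ)) with hτ
  set κ : ℝ := ε₁ / (32 * Λ) with hκ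
  have hκ0 : 0 < κ := by positivity
  have hτ0 : 0 < τ := lt_min (by norm_num) hκ0
  have hτ1 : τ ≤ 1 / 2 := min_le_left _ _
  have hτ2 : Λ * τ ≤ ε₁ / 32 := by
    have h1 : τ ≤ ε₁ / (32 * Λ) := min_le_right _ _
    calc Λ * τ ≤ Λ * (ε₁ / (32 * Λ)) := by gcongr
      _ = ε₁ / 32 := by field_simp
  have hκ2 : Λ * κ = ε₁ / 32 := by
    rw [hκ]
    field_simp
  refine ⟨min 1 (ε₁ / (4 * (4 + 2 * Λ))), lt_min one_pos (by positivity),
    κ * c * τ ^ (n + 1) / 2 * (c * (τ / 2) ^ (n + 1)), by positivity, ?_⟩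
  set ε₂ : ℝ := min 1 (ε₁ / (4 * (4 + 2 * Λ))) with hε₂
  have hε₂0 : 0 < ε₂ := lt_min one_pos (by positivity)
  have hε₂1 : ε₂ ≤ 1 := min_le_left _ _
  have hε₂2 : (4 + 2 * Λ) * ε₂ ≤ ε₁ / 4 := by
    have h1 : ε₂ ≤ ε₁ / (4 * (4 + 2 * Λ)) := min_le_right _ _
    calc (4 + 2 * Λ) * ε₂ ≤ (4 + 2 * Λ) * (ε₁ / (4 * (4 + 2 * Λ))) := by gcongr
      _ = ε₁ / 4 := by field_simp
  intro X _ _ _ m hX q ρ σ S f hσ hσρ hρ1 hLip hgood a ha b hb hab
  have hρ0 : 0 < ρ := by
    by_contra h
    push Not at h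
    have : ε₂ * ρ ≤ 0 := mul_nonpos_of_nonneg_of_nonpos hε₂0.le h
    linarith
  have hσρ' : σ ≤ ρ := hσρ.trans (by nlinarith)
  set S' := S ∩ closedBall q (4 * ρ) with hS'
  set M : ℕ := ⌈3 * ρ / σ⌉₊ with hM
  have hMge : 3 * ρ / σ ≤ M := Nat.le_ceil _
  have hMlt : (M : ℝ) < 3 * ρ / σ + 1 := Nat.ceil_lt_add_one (by positivity)
  have hM3 : (3 : ℝ) ≤ M := by
    have : 3 ≤ 3 * ρ / σ := by
      rw [le_div_iff₀ hσ]
      linarith
    linarith
  have hM0 : 0 < M := by
    have : (0 : ℝ) < M := by linarith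
    exact_mod_cast this
  have hMr : (0 : ℝ) < M := by linarith
  have hMσ : 3 * ρ ≤ M * σ := by
    rw [div_le_iff₀ hσ] at hMge
    exact hMge
  have hMσ2 : M * σ ≤ 4 * ρ := by
    have h1 : M * σ ≤ (3 * ρ / σ + 1) * σ := by gcongr
    have h2 : (3 * ρ / σ + 1) * σ = 3 * ρ + σ := by field_simp
    linarith
  set L : ℕ := ⌊(1 - τ) * M⌋₊ with hL
  have hLle : (L : ℝ) ≤ (1 - τ) * M := Nat.floor_le (by
    have : 0 ≤ 1 - τ := by linarith
    positivity)
  have hLlt : (1 - τ) * M < L + 1 := Nat.lt_floor_add_one _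
  have hLM : L ≤ M := by
    have : (L : ℝ) ≤ M := by nlinarith
    exact_mod_cast this
  set Ai : ℕ → Set X := fun i => Zt b 6 ((i : ℝ) / M) S' with hAi
  have hda : dist a q ≤ ρ := ha
  have hdb : dist b q ≤ ρ := hb
  -- the measure of the shadows
  have hAm : ∀ i ∈ Finset.range (L + 1),
      ENNReal.ofReal (c * τ ^ (n + 1)) * m (Ai i) ≤ m S' := by
    intro i hi
    have hi' : i ≤ L := Nat.lt_succ_iff.1 (Finset.mem_range.1 hi)
    have hi2 : (i : ℝ) ≤ L := by exact_mod_cast hi'
    have h1 : (i : ℝ) / M ≤ 1 - τ := by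
      rw [div_le_iff₀ hMr]
      linarith
    have h2 := hX.far b ((i : ℝ) / M) S' (by positivity) (by linarith)
    refine le_trans ?_ h2
    gcongr
    linarith
  by_cases hcase : ∀ y ∈ closedBall a (τ * ρ), ENNReal.ofReal (κ * M) ≤
      ∑ i ∈ Finset.range (L + 1), (Ai i).indicator (fun _ => (1 : ℝ≥0∞)) y
  · -- many bad points
    have h1 := sum_measure_ge m (Finset.range (L + 1)) Ai _ hcase
    have h2 : ENNReal.ofReal (c * τ ^ (n + 1)) * (ENNReal.ofReal (κ * M) *
        m (closedBall a (τ * ρ))) ≤ ENNReal.ofReal (2 * M) * m S' := by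
      calc ENNReal.ofReal (c * τ ^ (n + 1)) * (ENNReal.ofReal (κ * M) *
            m (closedBall a (τ * ρ)))
          ≤ ENNReal.ofReal (c * τ ^ (n + 1)) * ∑ i ∈ Finset.range (L + 1), m (Ai i) := by
            gcongr
        _ = ∑ i ∈ Finset.range (L + 1), ENNReal.ofReal (c * τ ^ (n + 1)) * m (Ai i) := by
            rw [Finset.mul_sum]
        _ ≤ ∑ i ∈ Finset.range (L + 1), m S' := Finset.sum_le_sum hAm
        _ = ((L + 1 : ℕ) : ℝ≥0∞) * m S' := by
            rw [Finset.sum_const, Finset.card_range, nsmul_eq_mul]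
        _ ≤ ENNReal.ofReal (2 * M) * m S' := by
            gcongr
            rw [← ENNReal.ofReal_natCast]
            refine ENNReal.ofReal_le_ofReal ?_
            have : (L : ℝ) ≤ M := by exact_mod_cast hLM
            push_cast
            linarith
    have h3 := ball_far hX a (r := τ * ρ) (R := 2 * ρ) (by positivity) (by nlinarith)
      (by linarith)
    have h4 : m (closedBall q ρ) ≤ m (closedBall a (2 * ρ)) := by
      refine measure_mono (closedBall_subset_closedBall' ?_)
      rw [dist_comm]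
      linarith
    have h5 : τ * ρ / (2 * ρ) = τ / 2 := by field_simp
    rw [h5] at h3
    have h6 : ENNReal.ofReal (2 * M) * (ENNReal.ofReal (κ * c * τ ^ (n + 1) / 2 *
        (c * (τ / 2) ^ (n + 1))) * m (closedBall q ρ)) ≤ ENNReal.ofReal (2 * M) * m S' := by
      have e0 : ENNReal.ofReal (2 * M) * ENNReal.ofReal (κ * c * τ ^ (n + 1) / 2 *
            (c * (τ / 2) ^ (n + 1))) = ENNReal.ofReal (c * τ ^ (n + 1)) *
            (ENNReal.ofReal (κ * M) * ENNReal.ofReal (c * (τ / 2) ^ (n + 1))) := by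
        rw [← ENNReal.ofReal_mul (by positivity), ← ENNReal.ofReal_mul (by positivity),
          ← ENNReal.ofReal_mul (by positivity)]
        congr 1
        ring
      calc ENNReal.ofReal (2 * M) * (ENNReal.ofReal (κ * c * τ ^ (n + 1) / 2 *
            (c * (τ / 2) ^ (n + 1))) * m (closedBall q ρ))
          = ENNReal.ofReal (c * τ ^ (n + 1)) * (ENNReal.ofReal (κ * M) *
            (ENNReal.ofReal (c * (τ / 2) ^ (n + 1)) * m (closedBall q ρ))) := by
            rw [← mul_assoc, e0]
            ring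
        _ ≤ ENNReal.ofReal (c * τ ^ (n + 1)) * (ENNReal.ofReal (κ * M) *
            m (closedBall a (τ * ρ))) := by
            gcongr
            refine le_trans ?_ h3
            gcongr
        _ ≤ _ := h2
    have h7 : ENNReal.ofReal (2 * M) ≠ 0 := by
      rw [Ne, ENNReal.ofReal_eq_zero, not_le]
      positivity
    exact (ENNReal.mul_le_mul_iff_right h7 ENNReal.ofReal_ne_top).1 h6
  · -- a good starting point
    exfalso
    push Not at hcase
    obtain ⟨y, hy, hylt⟩ := hcase
    have hy' : dist y a ≤ τ * ρ := hy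
    have hyq : dist y q ≤ 3 / 2 * ρ := by
      have := dist_triangle y a q
      nlinarith
    have hl : dist y b ≤ 5 / 2 * ρ := by
      have h1 := dist_triangle y q b
      rw [dist_comm q b] at h1
      linarith
    obtain ⟨g, hg0, hgm, hgs⟩ := exists_chain hX.geod y b hM0
    have hgM : g M = b := by
      have h1 := (hgm M le_rfl).2
      rw [div_self hMr.ne', sub_self, zero_mul] at h1
      exact dist_eq_zero.1 h1
    have hgq : ∀ i, i ≤ M → g i ∈ closedBall q (4 * ρ) := by
      intro i hi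
      have h1 := (hgm i hi).1
      have h2 := dist_triangle (g i) y q
      have h3 : (i : ℝ) / M ≤ 1 := by
        rw [div_le_one hMr]
        exact_mod_cast hi
      rw [dist_comm (g i) y, h1] at h2
      have h4 : (i : ℝ) / M * dist y b ≤ 1 * dist y b := by gcongr
      show dist (g i) q ≤ 4 * ρ
      linarith
    have hstep : dist y b / M ≤ σ := by
      rw [div_le_iff₀ hMr]
      linarith
    -- indicator of bad points
    set β : ℕ → ℝ := fun i => S.indicator (fun _ => (1 : ℝ)) (g i) with hβ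
    have hβ0 : ∀ i, 0 ≤ β i := fun i => indicator_nonneg (fun _ _ => zero_le_one) _
    have hβ1 : ∀ i, β i ≤ 1 := fun i => indicator_le' (fun _ _ => le_rfl)
      (fun _ _ => zero_le_one) _
    have hterm : ∀ i ∈ Finset.range M, |f (g i) - f (g (i + 1))| ≤
        ε₂ * σ + Λ * (dist y b / M) * (β i + β (i + 1)) := by
      intro i hi
      have hi' : i < M := Finset.mem_range.1 hi
      have h1 := hgq i hi'.le
      have h2 := hgq (i + 1) hi'
      have h3 := hgs i hi'
      have h4 := hLip _ h1 _ h2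
      rw [h3] at h4
      have hnn : 0 ≤ Λ * (dist y b / M) := by positivity
      have hεσ : 0 ≤ ε₂ * σ := (mul_pos hε₂0 hσ).le
      by_cases hi1 : g i ∈ S
      · have h5 : β i = 1 := indicator_of_mem hi1 _
        have h6 : 1 ≤ β i + β (i + 1) := by linarith [hβ0 (i + 1)]
        have h7 := mul_le_mul_of_nonneg_left h6 hnn
        linarith
      · by_cases hi2 : g (i + 1) ∈ S
        · have h5 : β (i + 1) = 1 := indicator_of_mem hi2 _
          have h6 : 1 ≤ β i + β (i + 1) := by linarith [hβ0 i]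
          have h7 := mul_le_mul_of_nonneg_left h6 hnn
          linarith
        · have h6 := hgood _ h1 _ h2 hi1 hi2 (by rw [h3]; exact hstep)
          have : 0 ≤ Λ * (dist y b / M) * (β i + β (i + 1)) :=
            mul_nonneg hnn (add_nonneg (hβ0 _) (hβ0 _))
          linarith
    have htele : |f y - f b| ≤ ∑ i ∈ Finset.range M, |f (g i) - f (g (i + 1))| := by
      have h1 : f y - f b = ∑ i ∈ Finset.range M, (f (g i) - f (g (i + 1))) := by
        rw [Finset.sum_range_sub' (fun i => f (g i)) M, hg0, hgM]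
      rw [h1]
      exact Finset.abs_sum_le_sum_abs _ _
    have hsum2 : ∑ i ∈ Finset.range M, (ε₂ * σ + Λ * (dist y b / M) * (β i + β (i + 1))) ≤
        M * (ε₂ * σ) + Λ * (dist y b / M) * (2 * ∑ i ∈ Finset.range (M + 1), β i) := by
      rw [Finset.sum_add_distrib, Finset.sum_const, Finset.card_range, nsmul_eq_mul,
        ← Finset.mul_sum, Finset.sum_add_distrib]
      have h1 : ∑ i ∈ Finset.range M, β i ≤ ∑ i ∈ Finset.range (M + 1), β i := by
        rw [Finset.sum_range_succ]
        linarith [hβ0 M]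
      have h2 : ∑ i ∈ Finset.range M, β (i + 1) ≤ ∑ i ∈ Finset.range (M + 1), β i := by
        rw [Finset.sum_range_succ']
        linarith [hβ0 0]
      have hnn : 0 ≤ Λ * (dist y b / M) := by positivity
      have h3 := mul_le_mul_of_nonneg_left (add_le_add h1 h2) hnn
      linarith
    have hsumβ : ∑ i ∈ Finset.range (M + 1), β i ≤ κ * M + (τ * M + 1) := by
      have h1 : ∑ i ∈ Finset.range (M + 1), β i = ∑ i ∈ Finset.range (L + 1), β i +
          ∑ i ∈ Finset.Ico (L + 1) (M + 1), β i := by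
        rw [Finset.range_eq_Ico, Finset.range_eq_Ico, Finset.sum_Ico_consecutive _ (by omega)
          (by omega)]
      rw [h1]
      have h2 : ∑ i ∈ Finset.Ico (L + 1) (M + 1), β i ≤ τ * M + 1 := by
        calc ∑ i ∈ Finset.Ico (L + 1) (M + 1), β i
            ≤ ∑ i ∈ Finset.Ico (L + 1) (M + 1), (1 : ℝ) := Finset.sum_le_sum fun i _ => hβ1 i
          _ = ((M + 1 - (L + 1) : ℕ) : ℝ) := by simp
          _ = (M : ℝ) - L := by
              rw [show M + 1 - (L + 1) = M - L by omega, Nat.cast_sub hLM]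
          _ ≤ τ * M + 1 := by linarith
      have h3 : ∑ i ∈ Finset.range (L + 1), β i ≤ κ * M := by
        have h4 : ENNReal.ofReal (∑ i ∈ Finset.range (L + 1), β i) ≤ ENNReal.ofReal (κ * M) := by
          rw [ENNReal.ofReal_sum_of_nonneg fun i _ => hβ0 i]
          refine le_trans (Finset.sum_le_sum fun i hi => ?_) hylt.le
          have hi' : i ≤ L := Nat.lt_succ_iff.1 (Finset.mem_range.1 hi)
          by_cases hiS : g i ∈ S
          · have h5 : y ∈ Ai i := by
              refine ⟨?_, g i, ⟨hiS, hgq i (hi'.trans hLM)⟩, hgm i (hi'.trans hLM)⟩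
              linarith
            rw [indicator_of_mem h5]
            have h6 : β i = 1 := indicator_of_mem hiS _
            rw [h6, ENNReal.ofReal_one]
          · have h6 : β i = 0 := indicator_of_notMem hiS _
            rw [h6, ENNReal.ofReal_zero]
            exact zero_le
        exact (ENNReal.ofReal_le_ofReal_iff (by positivity)).1 h4
      linarith
    have hyb : |f y - f b| ≤ M * (ε₂ * σ) + Λ * (dist y b / M) * (2 * (κ * M + (τ * M + 1))) := by
      refine htele.trans ((Finset.sum_le_sum hterm).trans (hsum2.trans ?_))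
      have hnn : 0 ≤ Λ * (dist y b / M) := by positivity
      gcongr
    have hay : |f a - f y| ≤ Λ * (τ * ρ) := by
      have h1 : a ∈ closedBall q (4 * ρ) := by
        show dist a q ≤ 4 * ρ
        linarith
      have h2 : y ∈ closedBall q (4 * ρ) := by
        show dist y q ≤ 4 * ρ
        linarith
      refine (hLip a h1 y h2).trans ?_
      rw [dist_comm]
      gcongr
    have hfin : |f a - f b| ≤ |f a - f y| + |f y - f b| := abs_sub_le _ _ _
    have e1 : M * (ε₂ * σ) ≤ 4 * ρ * ε₂ := by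
      calc M * (ε₂ * σ) = (M * σ) * ε₂ := by ring
        _ ≤ 4 * ρ * ε₂ := by gcongr
    have e2 : Λ * (dist y b / M) * (2 * (κ * M + (τ * M + 1))) ≤
        6 * (Λ * κ) * ρ + 6 * (Λ * τ) * ρ + 2 * Λ * ε₂ * ρ := by
      have h1 : Λ * (dist y b / M) * (2 * (κ * M + (τ * M + 1))) =
          2 * Λ * dist y b * κ + 2 * Λ * dist y b * τ + 2 * Λ * (dist y b / M) := by
        field_simp
        ring
      rw [h1]
      have h2 : dist y b ≤ 3 * ρ := by linarith
      have h3 : dist y b / M ≤ ε₂ * ρ := hstep.trans hσρ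
      have h4 : 2 * Λ * dist y b * κ ≤ 2 * Λ * (3 * ρ) * κ := by gcongr
      have h5 : 2 * Λ * dist y b * τ ≤ 2 * Λ * (3 * ρ) * τ := by gcongr
      have h6 : 2 * Λ * (dist y b / M) ≤ 2 * Λ * (ε₂ * ρ) := by gcongr
      linarith
    have e3 : |f a - f b| ≤ ρ * (7 * (Λ * τ) + 6 * (Λ * κ) + (4 + 2 * Λ) * ε₂) := by
      linarith
    have e4 : ρ * (7 * (Λ * τ) + 6 * (Λ * κ) + (4 + 2 * Λ) * ε₂) < ε₁ * ρ := by
      rw [hκ2, mul_comm ε₁ ρ]
      apply mul_lt_mul_of_pos_left _ hρ0
      linarith
    linarith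

end Pool.Agent.BDRY
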