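import Pool.Agent.Work.MP_209cb6_gt.TwoTime
import Pool.Agent.Work.MP_209cb6_gt.B2.Flux
import Pool.Agent.Work.MP_209cb6_gt.B2.Seg
import Pool.Agent.Work.MP_209cb6_gt.B2.OneStep
import Pool.Agent.Work.MP_209cb6_gt.B2.SymDef

/-!
# BDRY2, SYM: Lipschitz contraction of the heat semigroup
-/

set_option autoImplicit false

open MeasureTheory MeasureTheory.Measure Metric Set Filter Topology
open scoped ENNReal NNReal

namespace Pool.Agent.BDRY

universe u

section lipP

variable {X : Type u} [MetricSpace X] [MeasurableSpace X] [BorelSpace X] [ProperSpace X]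
  {K : ℝ} {N : ℕ} {m : Measure X}

/-- contraction of two flows, with the right constant for small distances -/
theorem IsEVIFlow.W2_le_cosh {μ ν : ℝ → Measure X} (hK : K ≤ 0) (hN : 0 < N)
    (h : IsEVIFlow K N m μ) (h' : IsEVIFlow K N m ν) {t : ℝ} (ht : 0 ≤ t) :
    W2 (μ t) (ν t) ≤ Real.exp (-K * t) *
      Real.cosh (√(-(K / N)) * (W2 (μ 0) (ν 0) / 2)) * W2 (μ 0) (ν 0) := by
  have hκ : K / N ≤ 0 := div_nonpos_of_nonpos_of_nonneg hK (Nat.cast_nonneg N)
  have h1 := h.contraction_sK hK hN h' ht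
  have hWt := W2_nonneg (μ t) (ν t)
  have hW0 := W2_nonneg (μ 0) (ν 0)
  have e1 : Real.exp (2 * K * t) = Real.exp (K * t) ^ 2 := by
    rw [← Real.exp_nat_mul]
    congr 1
    push_cast
    ring
  rw [e1, ← mul_pow] at h1
  have h2 : Real.exp (K * t) * sK (K / N) (W2 (μ t) (ν t) / 2) ≤
      sK (K / N) (W2 (μ 0) (ν 0) / 2) :=
    le_of_sq_le_sq h1 (sK_nonneg hκ (by linarith))
  have h3 : W2 (μ t) (ν t) / 2 ≤ sK (K / N) (W2 (μ t) (ν t) / 2) := le_sK hκ (by linarith)
  have h4 : sK (K / N) (W2 (μ 0) (ν 0) / 2) ≤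
      W2 (μ 0) (ν 0) / 2 * Real.cosh (√(-(K / N)) * (W2 (μ 0) (ν 0) / 2)) := by
    rw [sK_eq_sQ hκ]
    exact sQ_le_mul_cQ (by linarith)
  have h5 : Real.exp (K * t) * (W2 (μ t) (ν t) / 2) ≤
      W2 (μ 0) (ν 0) / 2 * Real.cosh (√(-(K / N)) * (W2 (μ 0) (ν 0) / 2)) :=
    ((mul_le_mul_of_nonneg_left h3 (Real.exp_pos _).le).trans h2).trans h4
  have h6 : Real.exp (-K * t) * Real.exp (K * t) = 1 := by
    rw [← Real.exp_add]
    simp
  calc W2 (μ t) (ν t) = 2 * (Real.exp (-K * t) * (Real.exp (K * t) * (W2 (μ t) (ν t) / 2))) := by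
        rw [← mul_assoc (Real.exp (-K * t)), h6]
        ring
    _ ≤ 2 * (Real.exp (-K * t) * (W2 (μ 0) (ν 0) / 2 *
          Real.cosh (√(-(K / N)) * (W2 (μ 0) (ν 0) / 2)))) := by
        gcongr
    _ = _ := by ring

variable {P : ℝ → X → Measure X}

omit [BorelSpace X] [ProperSpace X] in
theorem EVIKer.bind_dirac (hP : EVIKer K N m P) {t : ℝ} (ht : 0 ≤ t) (x : X) :
    (dirac x).bind (P t) = P t x := Measure.dirac_bind (hP.meas t ht) x

omit [ProperSpace X] in
theorem EVIKer.isP2_pt (hP : EVIKer K N m P) {t : ℝ} (ht : 0 ≤ t) (x : X) : IsP2 (P t x) := by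
  rw [← hP.bind_dirac ht]
  exact (hP.flow _ (isP2_dirac x)).p2 t ht

/-- `W2(P_t x, P_t y) ≤ e^{-Kt} d(x, y)` -/
theorem EVIKer.W2_le_exp (hK : K ≤ 0) (hN : 0 < N) (hP : EVIKer K N m P) (hg : Geod X) {t : ℝ}
    (ht : 0 ≤ t) (x y : X) : W2 (P t x) (P t y) ≤ Real.exp (-K * t) * dist x y := by
  -- one step
  have step : ∀ a b : X, W2 (P t a) (P t b) ≤ Real.exp (-K * t) *
      Real.cosh (√(-(K / N)) * (dist a b / 2)) * dist a b := by
    intro a b
    have h1 := (hP.flow _ (isP2_dirac a)).W2_le_cosh hK hN (hP.flow _ (isP2_dirac b)) ht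
    simp only [hP.bind_dirac ht, hP.bind_dirac le_rfl, hP.zero, W2_dirac_dirac] at h1
    exact h1
  -- chain
  have chain : ∀ M : ℕ, 0 < M → W2 (P t x) (P t y) ≤ Real.exp (-K * t) *
      Real.cosh (√(-(K / N)) * (dist x y / M / 2)) * dist x y := by
    intro M hM
    have hMr : (0 : ℝ) < M := by exact_mod_cast hM
    obtain ⟨g, hg0, hgm, hgs⟩ := exists_chain hg x y hM
    have hgM : g M = y := by
      have h1 := (hgm M le_rfl).2
      rw [div_self hMr.ne', sub_self, zero_mul] at h1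
      exact dist_eq_zero.1 h1
    have hsum : ∀ k : ℕ, k ≤ M → W2 (P t (g 0)) (P t (g k)) ≤ k * (Real.exp (-K * t) *
        Real.cosh (√(-(K / N)) * (dist x y / M / 2)) * (dist x y / M)) := by
      intro k
      induction k with
      | zero =>
        intro _
        rw [W2_self]
        simp
      | succ k ih =>
        intro hk
        have h1 := ih (by omega)
        have h2 := step (g k) (g (k + 1))
        rw [hgs k (by omega)] at h2
        have h3 := W2_triangle (hP.isP2_pt ht (g 0)) (hP.isP2_pt ht (g k)) (hP.isP2_pt ht (g (k + 1)))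
        push_cast
        linarith
    have h1 := hsum M le_rfl
    rw [hg0, hgM] at h1
    calc W2 (P t x) (P t y) ≤ _ := h1
      _ = _ := by field_simp
  have hlim : Tendsto (fun M : ℕ => Real.exp (-K * t) *
      Real.cosh (√(-(K / N)) * (dist x y / M / 2)) * dist x y) atTop
      (𝓝 (Real.exp (-K * t) * Real.cosh (√(-(K / N)) * (0 / 2)) * dist x y)) := by
    have h1 : Tendsto (fun M : ℕ => dist x y / (M : ℝ)) atTop (𝓝 0) :=
      tendsto_const_div_atTop_nhds_zero_nat _
    have h2 : Continuous fun z : ℝ => Real.exp (-K * t) *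
        Real.cosh (√(-(K / N)) * (z / 2)) * dist x y := by
      have := Real.continuous_cosh
      fun_prop
    exact (h2.tendsto 0).comp h1
  rw [zero_div, mul_zero, Real.cosh_zero, mul_one] at hlim
  refine ge_of_tendsto hlim ?_
  filter_upwards [eventually_gt_atTop 0] with M hM
  exact chain M hM

/-- Lipschitz functions are integrable -/
theorem EVIKer.integrable_lip (hP : EVIKer K N m P) {t : ℝ} (ht : 0 ≤ t) (x : X) {f : X → ℝ}
    {L : ℝ} (hf : ∀ x y, |f x - f y| ≤ L * dist x y) : Integrable f (P t x) := by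
  have h1 : LipschitzWith 1 fun z => f z / (|L| + 1) := by
    refine LipschitzWith.of_dist_le_mul fun a b => ?_
    rw [Real.dist_eq, NNReal.coe_one, one_mul, ← sub_div, abs_div,
      abs_of_pos (by positivity : 0 < |L| + 1), div_le_iff₀ (by positivity)]
    have h1 := hf a b
    have h2 := le_abs_self L
    have h3 : (0 : ℝ) ≤ dist a b := dist_nonneg
    nlinarith
  have h2 := ((hP.isP2_pt ht x).integrable_lip h1).mul_const (|L| + 1)
  refine h2.congr (ae_of_all _ fun z => ?_)
  have : |L| + 1 ≠ 0 := by positivity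
  simp only
  field_simp

/-- **Lipschitz contraction**: `Lip (P_t f) ≤ e^{-Kt} Lip f` -/
theorem EVIKer.lip (hK : K ≤ 0) (hN : 0 < N) (hP : EVIKer K N m P) (hg : Geod X) {t : ℝ}
    (ht : 0 ≤ t) {f : X → ℝ} {L : ℝ} (hL : 0 ≤ L) (hf : ∀ x y, |f x - f y| ≤ L * dist x y)
    (x y : X) : |∫ z, f z ∂(P t x) - ∫ z, f z ∂(P t y)| ≤ L * Real.exp (-K * t) * dist x y := by
  have key : ∀ e : ℝ, 0 < e →
      |∫ z, f z ∂(P t x) - ∫ z, f z ∂(P t y)| ≤ (L + e) * (Real.exp (-K * t) * dist x y) := by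
    intro e he
    have hLe : 0 < L + e := by linarith
    have h1 : LipschitzWith 1 fun z => f z / (L + e) := by
      refine LipschitzWith.of_dist_le_mul fun a b => ?_
      rw [Real.dist_eq, NNReal.coe_one, one_mul, ← sub_div, abs_div, abs_of_pos hLe,
        div_le_iff₀ hLe]
      have h1 := hf a b
      have h3 : (0 : ℝ) ≤ dist a b := dist_nonneg
      nlinarith
    have h2 := abs_integral_sub_le_W2 (hP.isP2_pt ht x) (hP.isP2_pt ht y) h1
    have h3 := h2.trans (hP.W2_le_exp hK hN hg ht x y)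
    rw [integral_div, integral_div, ← sub_div, abs_div, abs_of_pos hLe, div_le_iff₀ hLe] at h3
    linarith
  have hlim : Tendsto (fun e : ℝ => (L + e) * (Real.exp (-K * t) * dist x y)) (𝓝[>] 0)
      (𝓝 ((L + 0) * (Real.exp (-K * t) * dist x y))) := by
    have : Continuous fun e : ℝ => (L + e) * (Real.exp (-K * t) * dist x y) := by fun_prop
    exact (this.tendsto 0).mono_left nhdsWithin_le_nhds
  have h1 := ge_of_tendsto hlim (by
    filter_upwards [self_mem_nhdsWithin] with e he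
    exact key e he)
  rw [add_zero] at h1
  linarith

omit [BorelSpace X] [ProperSpace X] in
/-- bounds pass to `P_t f` -/
theorem EVIKer.abs_le (hP : EVIKer K N m P) {t : ℝ} (ht : 0 ≤ t) (x : X) {f : X → ℝ} {M : ℝ}
    (hf : ∀ x, |f x| ≤ M) : |∫ z, f z ∂(P t x)| ≤ M := by
  have := hP.prob t ht x
  have h1 := norm_integral_le_of_norm_le_const (μ := P t x) (f := f) (C := M)
    (ae_of_all _ fun z => by rw [Real.norm_eq_abs]; exact hf z)
  simpa using h1

end lipP

end Pool.Agent.BDRY
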