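import Pool.Agent.Work.MP_209cb6_gt.B2.Unique
import Pool.Agent.Work.MP_209cb6_gt.B2.LipP

/-!
# BDRY2, block KER: the heat kernel of an `RCD(K,N)` space, from the EVI definition only
-/

set_option autoImplicit false

open MeasureTheory MeasureTheory.Measure Metric Set Filter Topology
open scoped ENNReal NNReal

namespace Pool.Agent.BDRY

universe u

section disc

variable {X : Type u} [MetricSpace X] [MeasurableSpace X] [BorelSpace X] [ProperSpace X]

theorem W2sq_map_self_le {μ : Measure X} {T : X → X} (hT : Measurable T) :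
    W2sq (μ.map T) μ ≤ ∫⁻ x, edist (T x) x ^ 2 ∂μ := by
  have hm : Measurable fun x : X => (T x, x) := hT.prodMk measurable_id
  refine (W2sq_le_of_coupling (μ.map fun x => (T x, x)) ?_ ?_).trans ?_
  · rw [Measure.map_map measurable_fst hm]
    rfl
  · rw [Measure.map_map measurable_snd hm]
    exact Measure.map_id
  · rw [lintegral_map (by fun_prop) hm]

omit [MetricSpace X] [BorelSpace X] [ProperSpace X] in
theorem mixM_bind {ι : Type*} [Fintype ι] (w : ι → ℝ≥0∞) (x : ι → X) {κ : X → Measure X}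
    (hκ : Measurable κ) : (mixM w fun i => dirac (x i)).bind κ = mixM w fun i => κ (x i) := by
  ext s hs
  have hm : Measurable fun y => κ y s := (Measure.measurable_coe hs).comp hκ
  rw [Measure.bind_apply hs hκ.aemeasurable, mixM_apply, mixM, lintegral_finsetSum_measure]
  refine Finset.sum_congr rfl fun i _ => ?_
  rw [lintegral_smul_measure, lintegral_dirac' _ hm, smul_eq_mul]

/-- finitely supported measures are `W2`-dense -/
theorem exists_disc_approx {μ : Measure X} (hμ : IsP2 μ) {ε : ℝ} (hε : 0 < ε) :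
    ∃ (J : Finset X) (w : J → ℝ≥0∞), (∀ i, w i ≠ 0) ∧ ∑ i, w i = 1 ∧
      W2 (mixM w fun i => dirac (i : X)) μ ≤ ε := by
  classical
  have hp := hμ.1
  obtain ⟨y₀, hy₀⟩ := hμ.2
  set T : ℕ → SimpleFunc X X := fun n => SimpleFunc.approxOn id measurable_id univ y₀ (mem_univ _) n
    with hT
  have hlim : Tendsto (fun n => ∫⁻ x, edist (T n x) x ^ 2 ∂μ) atTop (𝓝 0) := by
    have h0 : ∫⁻ _ : X, (0 : ℝ≥0∞) ∂μ = 0 := by simp
    rw [← h0]
    refine tendsto_lintegral_of_dominated_convergence (fun x => edist y₀ x ^ 2) (fun n => ?_)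
      (fun n => ae_of_all _ fun x => ?_) hy₀.ne (ae_of_all _ fun x => ?_)
    · exact ((T n).measurable.edist measurable_id).pow_const 2
    · exact pow_le_pow_left' (SimpleFunc.edist_approxOn_le measurable_id (mem_univ _) x n) 2
    · have h1 : Tendsto (fun n => T n x) atTop (𝓝 x) :=
        SimpleFunc.tendsto_approxOn measurable_id (mem_univ _) (by simp)
      have h2 : Tendsto (fun n => edist (T n x) x) atTop (𝓝 0) :=
        tendsto_iff_edist_tendsto_0.1 h1
      have h3 := ENNReal.Tendsto.pow (n := 2) h2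
      simpa using h3
  have hε2 : (0 : ℝ≥0∞) < ENNReal.ofReal (ε ^ 2) := ENNReal.ofReal_pos.2 (by positivity)
  obtain ⟨n, hn⟩ := (hlim.eventually_lt_const hε2).exists
  set J : Finset X := (T n).range.filter fun z => μ (T n ⁻¹' {z}) ≠ 0 with hJ
  set w : J → ℝ≥0∞ := fun i => μ (T n ⁻¹' {(i : X)}) with hw
  have hmap : μ.map (T n) = mixM w fun i => dirac (i : X) := by
    obtain ⟨-, -⟩ := isDisc_map (μ := μ) (T n)
    have h1 : μ.map (T n) = ∑ z ∈ (T n).range, μ (T n ⁻¹' {z}) • dirac z := by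
      refine Measure.ext_of_lintegral _ fun f hf => ?_
      rw [lintegral_map hf (T n).measurable, lintegral_finsetSum_measure]
      have h1 := SimpleFunc.lintegral_eq_lintegral ((T n).map f) μ
      rw [SimpleFunc.map_lintegral] at h1
      rw [show ∫⁻ a, f (T n a) ∂μ = ∫⁻ a, ((T n).map f) a ∂μ from rfl, h1]
      refine Finset.sum_congr rfl fun z _ => ?_
      rw [lintegral_smul_measure, lintegral_dirac' _ hf, smul_eq_mul, mul_comm]
    have h2 : ∑ z ∈ (T n).range, μ (T n ⁻¹' {z}) • dirac z =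
        ∑ z ∈ J, μ (T n ⁻¹' {z}) • (dirac z : Measure X) := by
      symm
      refine Finset.sum_subset (Finset.filter_subset _ _) fun z hz hz' => ?_
      have : μ (T n ⁻¹' {z}) = 0 := by
        by_contra hcon
        exact hz' (Finset.mem_filter.2 ⟨hz, hcon⟩)
      rw [this, zero_smul]
    rw [h1, h2, mixM, ← Finset.sum_coe_sort]
  refine ⟨J, w, fun i => (Finset.mem_filter.1 i.2).2, ?_, ?_⟩
  · have h1 : (μ.map (T n)) univ = 1 := by
      rw [Measure.map_apply (T n).measurable MeasurableSet.univ, preimage_univ]; exact measure_univ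
    rw [hmap, mixM_apply] at h1
    simpa using h1
  · rw [← hmap]
    have h1 : W2sq (μ.map (T n)) μ ≤ ENNReal.ofReal (ε ^ 2) :=
      (W2sq_map_self_le (T n).measurable).trans hn.le
    have h2 : W2 (μ.map (T n)) μ ^ 2 ≤ ε ^ 2 := by
      rw [W2_sq]
      have := ENNReal.toReal_mono ENNReal.ofReal_ne_top h1
      rwa [ENNReal.toReal_ofReal (by positivity)] at this
    exact le_of_sq_le_sq h2 hε.le

end disc

section ext

variable {X : Type u} [MetricSpace X] [MeasurableSpace X] [BorelSpace X]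

/-- two probability measures which agree on bounded Lipschitz functions are equal -/
theorem ext_of_lipschitz {μ ν : Measure X} [IsProbabilityMeasure μ] [IsProbabilityMeasure ν]
    (h : ∀ (f : X → ℝ) (L : ℝ≥0), LipschitzWith L f → (∀ x, 0 ≤ f x) → (∀ x, f x ≤ 1) →
      ∫ x, f x ∂μ = ∫ x, f x ∂ν) : μ = ν := by
  refine ext_of_generate_finite _ (by rw [BorelSpace.measurable_eq (α := X),
    borel_eq_generateFrom_isClosed]) isPiSystem_isClosed (fun F hF => ?_) (by simp)
  have hF' : IsClosed F := hF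
  have hδ : ∀ n : ℕ, 0 < 1 / ((n : ℝ) + 1) := fun n => by positivity
  have hlim : Tendsto (fun n : ℕ => 1 / ((n : ℝ) + 1)) atTop (𝓝 0) :=
    tendsto_one_div_add_atTop_nhds_zero_nat
  have h1 := tendsto_lintegral_thickenedIndicator_of_isClosed μ hF' hδ hlim
  have h2 := tendsto_lintegral_thickenedIndicator_of_isClosed ν hF' hδ hlim
  have h3 : ∀ n : ℕ, ∫⁻ x, (thickenedIndicator (hδ n) F x : ℝ≥0∞) ∂μ =
      ∫⁻ x, (thickenedIndicator (hδ n) F x : ℝ≥0∞) ∂ν := by
    intro n
    have hlip := lipschitzWith_thickenedIndicator (hδ n) F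
    have hlip' : LipschitzWith (1 / ((n : ℝ) + 1)).toNNReal⁻¹
        (fun x => ((thickenedIndicator (hδ n) F x : ℝ≥0) : ℝ)) := by
      refine LipschitzWith.of_dist_le_mul fun x y => ?_
      have h0 := hlip.dist_le_mul x y
      rw [NNReal.dist_eq] at h0
      rw [Real.dist_eq]
      exact h0
    have h4 := h _ _ hlip' (fun x => NNReal.coe_nonneg _) (fun x => by
      exact_mod_cast thickenedIndicator_le_one (hδ n) F x)
    have h5 : ∀ (α : Measure X) [IsProbabilityMeasure α],
        ∫⁻ x, (thickenedIndicator (hδ n) F x : ℝ≥0∞) ∂α =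
        ENNReal.ofReal (∫ x, ((thickenedIndicator (hδ n) F x : ℝ≥0) : ℝ) ∂α) := by
      intro α _
      rw [ofReal_integral_eq_lintegral_ofReal]
      · refine lintegral_congr fun x => ?_
        simp
      · refine Integrable.of_bound (C := 1) hlip'.continuous.measurable.aestronglyMeasurable
          (ae_of_all _ fun x => ?_)
        rw [Real.norm_of_nonneg (NNReal.coe_nonneg _)]
        exact_mod_cast thickenedIndicator_le_one (hδ n) F x
      · exact ae_of_all _ fun x => NNReal.coe_nonneg _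
    rw [h5 μ, h5 ν, h4]
  simp_rw [h3] at h1
  exact tendsto_nhds_unique h1 h2

end ext

section scalar

/-- the contraction modulus -/
noncomputable def omK (K : ℝ) (N : ℕ) (t r : ℝ) : ℝ := 2 * Real.exp (-K * t) * sK (K / N) (r / 2)

variable {K : ℝ} {N : ℕ}

theorem omK_zero (t : ℝ) : omK K N t 0 = 0 := by
  rw [omK, zero_div, sK_zero_right, mul_zero]

theorem div_nonpos' (hK : K ≤ 0) : K / N ≤ 0 :=
  div_nonpos_of_nonpos_of_nonneg hK (Nat.cast_nonneg N)

theorem omK_cont (hK : K ≤ 0) (t : ℝ) : Continuous (omK K N t) := by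
  have := sK_cont (div_nonpos' (N := N) hK)
  unfold omK
  fun_prop

theorem omK_mono (hK : K ≤ 0) (t : ℝ) : Monotone (omK K N t) := by
  intro a b hab
  unfold omK
  have := (sK_smono (div_nonpos' (N := N) hK)).monotone (show a / 2 ≤ b / 2 by linarith)
  have h2 := Real.exp_pos (-K * t)
  exact mul_le_mul_of_nonneg_left this (by positivity)

theorem omK_nonneg (hK : K ≤ 0) (t : ℝ) {r : ℝ} (hr : 0 ≤ r) : 0 ≤ omK K N t r := by
  rw [← omK_zero (K := K) (N := N) t]
  exact omK_mono hK t hr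

theorem omK_tendsto (hK : K ≤ 0) (t : ℝ) : Tendsto (omK K N t) (𝓝 0) (𝓝 0) := by
  have := (omK_cont (N := N) hK t).tendsto 0
  rwa [omK_zero] at this

theorem omK_small (hK : K ≤ 0) (t : ℝ) {ε : ℝ} (hε : 0 < ε) :
    ∃ δ : ℝ, 0 < δ ∧ omK K N t δ ≤ ε := by
  have h1 : ∀ᶠ r in 𝓝[>] (0 : ℝ), omK K N t r < ε :=
    ((omK_tendsto (N := N) hK t).mono_left nhdsWithin_le_nhds).eventually_lt_const hε
  obtain ⟨r, hr, hr2⟩ := (h1.and self_mem_nhdsWithin).exists
  exact ⟨r, hr2, hr.le⟩

end scalar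

section flows

variable {X : Type u} [MetricSpace X] [MeasurableSpace X] [BorelSpace X] [ProperSpace X]
  {K : ℝ} {N : ℕ} {m : Measure X} {μ ν : ℝ → Measure X}

/-- contraction of the flow, in the form `W2(μ_t, ν_t) ≤ ω_t(W2(μ_0, ν_0))` -/
theorem IsEVIFlow.W2_le_omK (hK : K ≤ 0) (hN : 0 < N) (h : IsEVIFlow K N m μ)
    (h' : IsEVIFlow K N m ν) {t : ℝ} (ht : 0 ≤ t) :
    W2 (μ t) (ν t) ≤ omK K N t (W2 (μ 0) (ν 0)) := by
  have hκ := div_nonpos' (N := N) hK
  have h1 := h.contraction_sK hK hN h' ht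
  have h2 : Real.exp (2 * K * t) = Real.exp (K * t) ^ 2 := by
    rw [← Real.exp_nat_mul]; congr 1; push_cast; ring
  rw [h2, ← mul_pow] at h1
  have h3 := W2_nonneg (μ t) (ν t)
  have h3' := W2_nonneg (μ 0) (ν 0)
  have h4 := sK_nonneg hκ (show 0 ≤ W2 (μ 0) (ν 0) / 2 by linarith)
  have h5 := le_of_sq_le_sq h1 h4
  have h6 := le_sK hκ (show 0 ≤ W2 (μ t) (ν t) / 2 by linarith)
  have h7 := Real.exp_pos (K * t)
  have h8 : Real.exp (K * t) * (W2 (μ t) (ν t) / 2) ≤ sK (K / N) (W2 (μ 0) (ν 0) / 2) :=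
    (mul_le_mul_of_nonneg_left h6 h7.le).trans h5
  have h9 : Real.exp (-K * t) * Real.exp (K * t) = 1 := by
    rw [← Real.exp_add]; simp
  unfold omK
  have h10 := Real.exp_pos (-K * t)
  calc W2 (μ t) (ν t) = 2 * (Real.exp (-K * t) * Real.exp (K * t)) * (W2 (μ t) (ν t) / 2) := by
        rw [h9]; ring
    _ = 2 * Real.exp (-K * t) * (Real.exp (K * t) * (W2 (μ t) (ν t) / 2)) := by ring
    _ ≤ _ := mul_le_mul_of_nonneg_left h8 (by positivity)

/-- uniqueness of the EVI flow -/
theorem IsEVIFlow.unique (hK : K ≤ 0) (hN : 0 < N) (h : IsEVIFlow K N m μ)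
    (h' : IsEVIFlow K N m ν) (h0 : μ 0 = ν 0) {t : ℝ} (ht : 0 ≤ t) : μ t = ν t :=
  eq_of_W2_eq_zero (h.p2 t ht) (h'.p2 t ht) (h.W2_eq_zero hK hN h' h0 ht)

omit [BorelSpace X] [ProperSpace X] in
theorem IsEVIFlow.congr (h : IsEVIFlow K N m μ) (he : ∀ t, 0 ≤ t → μ t = ν t) :
    IsEVIFlow K N m ν := by
  have hu : ∀ {s t : ℝ}, 0 < s → s ≤ t → ∀ v ∈ uIcc s t, μ v = ν v := fun hs hst v hv => by
    rw [uIcc_of_le hst] at hv
    exact he v (hs.le.trans hv.1)
  refine ⟨fun t ht => he t ht ▸ h.p2 t ht, fun t ht => ?_, fun t ht => ?_, fun s t hs hst => ?_,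
    fun σ hσ hUσ s t hs hst => ?_⟩
  · refine (h.cont t ht).congr' ?_
    filter_upwards [self_mem_nhdsWithin] with s hs
    rw [he s hs, he t ht]
  · rw [← he t ht.le]
    exact h.dom t ht
  · refine IntervalIntegrable.congr (fun v hv => ?_) (h.int s t hs hst)
    show (UN N m (μ v))⁻¹ = _
    rw [hu hs hst v (uIoc_subset_uIcc hv)]
  · have h1 := h.evi σ hσ hUσ s t hs hst
    rw [he s hs.le, he t (hs.le.trans hst)] at h1
    refine h1.trans (le_of_eq ?_)
    congr 1
    refine intervalIntegral.integral_congr fun v hv => ?_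
    show _ = Real.exp (K * v) * (1 - UN N m σ / UN N m (ν v))
    rw [hu hs hst v hv]

omit [BorelSpace X] [ProperSpace X] in
theorem IsEVIFlow.shift (h : IsEVIFlow K N m μ) {a : ℝ} (ha : 0 ≤ a) :
    IsEVIFlow K N m fun t => μ (a + t) := by
  refine ⟨fun t ht => h.p2 _ (by positivity), fun t ht => ?_, fun t ht => h.dom _ (by positivity),
    fun s t hs hst => ?_, fun σ hσ hUσ s t hs hst => ?_⟩
  · have h1 := h.cont (a + t) (by positivity)
    have h2 : Tendsto (fun s : ℝ => a + s) (𝓝[Ici 0] t) (𝓝[Ici 0] (a + t)) := by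
      refine tendsto_nhdsWithin_iff.2 ⟨?_, ?_⟩
      · exact ((continuous_const.add continuous_id).tendsto t).mono_left nhdsWithin_le_nhds
      · filter_upwards [self_mem_nhdsWithin] with s hs
        exact add_nonneg ha hs
    exact h1.comp h2
  · have h1 := (h.int (a + s) (a + t) (by positivity) (by linarith)).comp_add_left a
    simpa using h1
  · have h1 := h.evi σ hσ hUσ (a + s) (a + t) (by positivity) (by linarith)
    rw [← intervalIntegral.integral_comp_add_left
      (fun v => Real.exp (K * v) * (1 - UN N m σ / UN N m (μ v))) a] at h1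
    have h2 : ∀ v, Real.exp (K * (a + v)) = Real.exp (K * a) * Real.exp (K * v) := fun v => by
      rw [← Real.exp_add]; congr 1; ring
    simp only [h2, mul_assoc, intervalIntegral.integral_const_mul] at h1
    have h3 := Real.exp_pos (K * a)
    have h4 : Real.exp (K * a) * (Real.exp (K * t) * sK (K / N) (W2 (μ (a + t)) σ / 2) ^ 2 -
        Real.exp (K * s) * sK (K / N) (W2 (μ (a + s)) σ / 2) ^ 2) ≤ Real.exp (K * a) *
        (N / 2 * ∫ v in s..t, Real.exp (K * v) * (1 - UN N m σ / UN N m (μ (a + v)))) := by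
      linarith
    exact le_of_mul_le_mul_left h4 h3

theorem integral_lip_le {f : X → ℝ} {L : ℝ≥0} (hf : LipschitzWith L f) {M : ℝ}
    (hM : ∀ x, |f x| ≤ M) {μ ν : Measure X} (hμ : IsP2 μ) (hν : IsP2 ν) :
    |∫ x, f x ∂μ - ∫ x, f x ∂ν| ≤ L * W2 μ ν := by
  have key : ∀ ε : ℝ, 0 < ε → |∫ x, f x ∂μ - ∫ x, f x ∂ν| ≤ L * √(W2 μ ν ^ 2 + ε) := by
    intro ε hε
    obtain ⟨π, h1, h2, h3, h4⟩ := exists_coupling hμ hν hε
    have hμp := hμ.1
    have hπ : IsProbabilityMeasure π := by
      refine ⟨?_⟩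
      have : μ univ = 1 := measure_univ
      rwa [← h1, Measure.map_apply measurable_fst MeasurableSet.univ, preimage_univ] at this
    have hfm : Measurable f := hf.continuous.measurable
    have e1 : ∫ x, f x ∂μ = ∫ z, f z.1 ∂π := by
      rw [← h1, integral_map measurable_fst.aemeasurable hfm.aestronglyMeasurable]
    have e2 : ∫ x, f x ∂ν = ∫ z, f z.2 ∂π := by
      rw [← h2, integral_map measurable_snd.aemeasurable hfm.aestronglyMeasurable]
    have hi : Integrable (fun z : X × X => dist z.1 z.2 ^ 2) π := by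
      refine ⟨by fun_prop, ?_⟩
      rw [hasFiniteIntegral_iff_ofReal (ae_of_all _ fun y => by positivity)]
      refine lt_of_le_of_lt (le_of_eq ?_) h3.lt_top
      refine lintegral_congr fun y => ?_
      rw [edist_dist, ENNReal.ofReal_pow dist_nonneg]
    set a : ℝ := √(W2 μ ν ^ 2 + ε) with ha
    have ha2 : a ^ 2 = W2 μ ν ^ 2 + ε := Real.sq_sqrt (by positivity)
    have ha0 : 0 < a := Real.sqrt_pos.2 (by positivity)
    have hpt : ∀ z : X × X, |f z.1 - f z.2| ≤ L * (a / 2 + 1 / (2 * a) * dist z.1 z.2 ^ 2) := by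
      intro z
      have h5 := hf.dist_le_mul z.1 z.2
      rw [Real.dist_eq] at h5
      refine h5.trans (mul_le_mul_of_nonneg_left ?_ L.2)
      have h6 : 0 ≤ (a - dist z.1 z.2) ^ 2 / (2 * a) := by positivity
      have h7 : (a - dist z.1 z.2) ^ 2 / (2 * a) =
          a / 2 + 1 / (2 * a) * dist z.1 z.2 ^ 2 - dist z.1 z.2 := by
        field_simp
        ring
      linarith
    have hM' : ∀ x, |f x| ≤ |M| := fun x => (hM x).trans (le_abs_self M)
    have hf1 : Integrable (fun z : X × X => f z.1) π :=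
      Integrable.mono' (integrable_const |M|) (hfm.comp measurable_fst).aestronglyMeasurable
        (ae_of_all _ fun z => hM' z.1)
    have hf2 : Integrable (fun z : X × X => f z.2) π :=
      Integrable.mono' (integrable_const |M|) (hfm.comp measurable_snd).aestronglyMeasurable
        (ae_of_all _ fun z => hM' z.2)
    rw [e1, e2, ← integral_sub hf1 hf2]
    calc |∫ z, (f z.1 - f z.2) ∂π| ≤ ∫ z, |f z.1 - f z.2| ∂π := abs_integral_le_integral_abs
      _ ≤ ∫ z, L * (a / 2 + 1 / (2 * a) * dist z.1 z.2 ^ 2) ∂π :=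
          integral_mono (hf1.sub hf2).abs
            (((integrable_const _).add (hi.const_mul _)).const_mul _) hpt
      _ = L * (a / 2 + 1 / (2 * a) * ∫ z, dist z.1 z.2 ^ 2 ∂π) := by
          rw [integral_const_mul, integral_add (integrable_const _) (hi.const_mul _),
            integral_const_mul]
          simp
      _ ≤ L * (a / 2 + 1 / (2 * a) * a ^ 2) := by
          rw [ha2]
          have := L.2
          gcongr
      _ = L * a := by
          field_simp
          ring
  have hlim : Tendsto (fun ε : ℝ => L * √(W2 μ ν ^ 2 + ε)) (𝓝[>] 0) (𝓝 (L * W2 μ ν)) := by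
    have hc : Continuous fun ε : ℝ => L * √(W2 μ ν ^ 2 + ε) := by fun_prop
    have h1 := (hc.tendsto 0).mono_left (nhdsWithin_le_nhds (s := Ioi 0))
    rwa [add_zero, Real.sqrt_sq (W2_nonneg _ _)] at h1
  refine ge_of_tendsto hlim ?_
  filter_upwards [self_mem_nhdsWithin] with ε hε
  exact key ε hε

end flows

section bind

variable {X : Type u} [MeasurableSpace X]

theorem integral_bind' {μ : Measure X} [IsProbabilityMeasure μ] {κ : X → Measure X}
    (hκ : Measurable κ) (hκp : ∀ x, IsProbabilityMeasure (κ x)) {f : X → ℝ} (hf : Measurable f)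
    (h0 : ∀ x, 0 ≤ f x) (h1 : ∀ x, f x ≤ 1) :
    ∫ y, f y ∂(μ.bind κ) = ∫ x, (∫ y, f y ∂(κ x)) ∂μ := by
  have hfm : Measurable fun y => ENNReal.ofReal (f y) := hf.ennreal_ofReal
  have e1 : ∀ (α : Measure X), ∫ y, f y ∂α = (∫⁻ y, ENNReal.ofReal (f y) ∂α).toReal := fun α =>
    integral_eq_lintegral_of_nonneg_ae (ae_of_all _ h0) hf.aestronglyMeasurable
  have e2 : ∀ x, ∫⁻ y, ENNReal.ofReal (f y) ∂(κ x) ≤ 1 := fun x => by
    have := hκp x
    calc ∫⁻ y, ENNReal.ofReal (f y) ∂(κ x) ≤ ∫⁻ _, 1 ∂(κ x) :=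
          lintegral_mono fun y => ENNReal.ofReal_le_one.2 (h1 y)
      _ = 1 := by simp
  rw [e1, Measure.lintegral_bind hκ.aemeasurable hfm.aemeasurable]
  simp_rw [e1]
  rw [integral_toReal]
  · exact ((Measure.measurable_lintegral hfm).comp hκ).aemeasurable
  · exact ae_of_all _ fun x => (e2 x).trans_lt ENNReal.one_lt_top

end bind

section kernel

variable {X : Type u} [MetricSpace X] [MeasurableSpace X] [BorelSpace X] [ProperSpace X]
  {K : ℝ} {N : ℕ} {m : Measure X} {F : X → ℝ → Measure X}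

/-- a family of flows from the Dirac measures is a measurable kernel -/
theorem kernel_measurable (hK : K ≤ 0) (hN : 0 < N) (hF : ∀ x, IsEVIFlow K N m (F x))
    (hF0 : ∀ x, F x 0 = dirac x) {t : ℝ} (ht : 0 ≤ t) : Measurable fun x => F x t := by
  have hp : ∀ x, IsProbabilityMeasure (F x t) := fun x => ((hF x).p2 t ht).1
  refine Measurable.measure_of_isPiSystem_of_isProbabilityMeasure
    (by rw [BorelSpace.measurable_eq (α := X), borel_eq_generateFrom_isClosed])
    isPiSystem_isClosed fun C hC => ?_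
  have hC' : IsClosed C := hC
  refine UpperSemicontinuous.measurable ?_
  intro x y hy
  have h1 : Tendsto (fun r => F x t (cthickening r C)) (𝓝[>] 0) (𝓝 (F x t C)) :=
    (tendsto_measure_cthickening_of_isClosed ⟨1, one_pos, measure_ne_top _ _⟩ hC').mono_left
      nhdsWithin_le_nhds
  obtain ⟨δ, hδ, hδ0⟩ := ((h1.eventually_lt_const hy).and self_mem_nhdsWithin).exists
  have hδ0' : (0 : ℝ) < δ := hδ0
  have h2 : Tendsto (fun x' => F x t (cthickening δ C) +
      W2sq (F x' t) (F x t) / ENNReal.ofReal δ ^ 2) (𝓝 x) (𝓝 (F x t (cthickening δ C) + 0)) := by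
    refine Tendsto.const_add _ ?_
    have h3 : Tendsto (fun x' => W2sq (F x' t) (F x t)) (𝓝 x) (𝓝 0) := by
      have h4 : ∀ x', W2sq (F x' t) (F x t) = ENNReal.ofReal (W2 (F x' t) (F x t) ^ 2) := by
        intro x'
        rw [W2_sq, ENNReal.ofReal_toReal (W2sq_lt_top ((hF x').p2 t ht) ((hF x).p2 t ht)).ne]
      have h5 : Tendsto (fun x' => W2 (F x' t) (F x t)) (𝓝 x) (𝓝 0) := by
        have h6 : Tendsto (fun x' => omK K N t (dist x' x)) (𝓝 x) (𝓝 0) := by
          have h7 : Tendsto (fun x' : X => dist x' x) (𝓝 x) (𝓝 0) := tendsto_iff_dist_tendsto_zero.1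
            tendsto_id
          exact (omK_tendsto hK t).comp h7
        refine squeeze_zero (fun x' => W2_nonneg _ _) (fun x' => ?_) h6
        have h8 := (hF x').W2_le_omK hK hN (hF x) ht
        rwa [hF0, hF0, W2_dirac_dirac] at h8
      simp_rw [h4]
      have h6 := ENNReal.tendsto_ofReal (h5.pow 2)
      simpa using h6
    have h4 := ENNReal.Tendsto.div_const (b := ENNReal.ofReal δ ^ 2) h3 (Or.inr (by
      have : 0 < ENNReal.ofReal δ := ENNReal.ofReal_pos.2 hδ0'
      positivity))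
    rwa [ENNReal.zero_div] at h4
  rw [add_zero] at h2
  filter_upwards [h2.eventually_lt_const hδ] with x' hx'
  exact (measure_le_cthickening ((hF x').p2 t ht) ((hF x).p2 t ht) hC'.measurableSet hδ0').trans_lt
    hx'

/-- the flow of `μ` is `μ P_t` -/
theorem flow_eq_bind (hK : K ≤ 0) (hN : 0 < N)
    (hfin : ∀ (x : X) (r : ℝ), m (closedBall x r) < ∞)
    (hexp : ∃ (x : X) (c : ℝ), 0 < c ∧ ∫⁻ y, ENNReal.ofReal (Real.exp (-c * dist x y ^ 2)) ∂m < ∞)
    (hflow : ∀ μ₀ : Measure X, IsP2 μ₀ → ∃ μ : ℝ → Measure X, μ 0 = μ₀ ∧ IsEVIFlow K N m μ)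
    (hF : ∀ x, IsEVIFlow K N m (F x)) (hF0 : ∀ x, F x 0 = dirac x)
    {ν : ℝ → Measure X} (hν : IsEVIFlow K N m ν) {t : ℝ} (ht : 0 ≤ t) :
    ν t = (ν 0).bind fun x => F x t := by
  have hm := kernel_measurable hK hN hF hF0 ht
  have hp : ∀ x, IsProbabilityMeasure (F x t) := fun x => ((hF x).p2 t ht).1
  have hμ : IsP2 (ν 0) := hν.p2 0 le_rfl
  have hμp := hμ.1
  have hνp := (hν.p2 t ht).1
  have hbp : IsProbabilityMeasure ((ν 0).bind fun x => F x t) :=
    isProbabilityMeasure_bind hm.aemeasurable (ae_of_all _ hp)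
  refine ext_of_lipschitz fun f L hf h0 h1 => ?_
  have hfM : ∀ x, |f x| ≤ 1 := fun x => by rw [abs_of_nonneg (h0 x)]; exact h1 x
  have hfm : Measurable f := hf.continuous.measurable
  set ψ : X → ℝ := fun x => ∫ y, f y ∂(F x t) with hψ
  have hψM : ∀ x, |ψ x| ≤ 1 := fun x => by
    have h := norm_integral_le_of_norm_le_const (μ := F x t) (f := f) (C := 1)
      (Eventually.of_forall fun y => by simpa using hfM y)
    simpa using h
  have hψu : UniformContinuous ψ := by
    rw [Metric.uniformContinuous_iff]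
    intro ε hε
    obtain ⟨δ, hδ, hδ'⟩ := omK_small (N := N) hK t (ε := ε / (2 * (L + 1))) (by positivity)
    refine ⟨δ, hδ, fun {a b} hab => ?_⟩
    have h2 := integral_lip_le hf hfM ((hF a).p2 t ht) ((hF b).p2 t ht)
    have h3 := (hF a).W2_le_omK hK hN (hF b) ht
    rw [hF0, hF0, W2_dirac_dirac] at h3
    have h4 := omK_mono (N := N) hK t hab.le
    rw [Real.dist_eq]
    refine h2.trans_lt ?_
    have h5 : W2 (F a t) (F b t) ≤ ε / (2 * (L + 1)) := h3.trans (h4.trans hδ')
    have h6 : (L : ℝ) * W2 (F a t) (F b t) ≤ L * (ε / (2 * (L + 1))) :=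
      mul_le_mul_of_nonneg_left h5 L.2
    have h7 : (L : ℝ) * (ε / (2 * (L + 1))) ≤ ε / 2 := by
      have : (0 : ℝ) ≤ L := L.2
      rw [mul_div_assoc', div_le_div_iff₀ (by positivity) (by positivity)]
      nlinarith
    linarith
  have hb : ∀ (α : Measure X), IsProbabilityMeasure α →
      ∫ y, f y ∂(α.bind fun x => F x t) = ∫ x, ψ x ∂α := fun α hα =>
    integral_bind' hm hp hfm h0 h1
  rw [hb _ hμp]
  refine eq_of_forall_dist_le fun ε hε => ?_
  rw [Real.dist_eq]
  obtain ⟨e2, he2, he2'⟩ := integral_near hψu hψM hμ (δ := ε / 2) (by positivity)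
  obtain ⟨e1, he1, he1'⟩ := omK_small (N := N) hK t (ε := ε / (2 * (L + 1))) (by positivity)
  obtain ⟨J, w, hw0, hw, hW⟩ := exists_disc_approx hμ (ε := min e1 e2) (lt_min he1 he2)
  set α : Measure X := mixM w fun i => dirac (i : X) with hα
  have hαP : IsP2 α := isP2_mixM hw fun i => isP2_dirac (i : X)
  obtain ⟨ν', hν'0, hν'⟩ := hflow α hαP
  have e3 : ν' t = α.bind fun x => F x t := by
    rw [mix_eq_flow hK hN hfin hexp hw hw0 (fun i => hF (i : X)) hν'
      (by rw [hν'0, hα]; simp_rw [hF0]) ht, hα, mixM_bind w _ hm]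
  have e4 := integral_lip_le hf hfM (hν'.p2 t ht) (hν.p2 t ht)
  rw [e3, hb _ hαP.1] at e4
  have e5 := he2' α hαP (hW.trans (min_le_right _ _))
  have e6 := hν'.W2_le_omK hK hN hν ht
  rw [hν'0] at e6
  have e7 : W2 (ν' t) (ν t) ≤ ε / (2 * (L + 1)) :=
    e6.trans ((omK_mono hK t (hW.trans (min_le_left _ _))).trans he1')
  rw [e3] at e7
  have e8 : (L : ℝ) * (ε / (2 * (L + 1))) ≤ ε / 2 := by
    have : (0 : ℝ) ≤ L := L.2
    rw [mul_div_assoc', div_le_div_iff₀ (by positivity) (by positivity)]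
    nlinarith
  have e9 := e4.trans ((mul_le_mul_of_nonneg_left e7 L.2).trans e8)
  rw [abs_le] at e5 e9 ⊢
  constructor <;> linarith [e5.1, e5.2, e9.1, e9.2]

end kernel

section evi

variable {X : Type u} [MetricSpace X] [MeasurableSpace X] [BorelSpace X]
  {K : ℝ} {N : ℕ} {m : Measure X} {P : ℝ → X → Measure X}

namespace EVIKer

theorem flow_dirac (h : EVIKer K N m P) (x : X) : IsEVIFlow K N m fun t => P t x :=
  (h.flow (dirac x) (isP2_dirac x)).congr fun t ht => Measure.dirac_bind (h.meas t ht) x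

omit [BorelSpace X] in
theorem isP2_bind (h : EVIKer K N m P) {t : ℝ} (ht : 0 ≤ t) {μ : Measure X} (hμ : IsP2 μ) :
    IsP2 (μ.bind (P t)) := (h.flow μ hμ).p2 t ht

theorem UN_pos (h : EVIKer K N m P) {t : ℝ} (ht : 0 < t) (x : X) :
    0 < UN N m (P t x) := (h.flow_dirac x).dom t ht

theorem ac (h : EVIKer K N m P) {t : ℝ} (ht : 0 < t) (x : X) : P t x ≪ m :=
  (UN_pos_iff'.1 (h.UN_pos ht x)).1

theorem W2_bind_le [ProperSpace X] (h : EVIKer K N m P) (hK : K ≤ 0) (hN : 0 < N)
    {t : ℝ} (ht : 0 ≤ t) {μ ν : Measure X} (hμ : IsP2 μ) (hν : IsP2 ν) :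
    W2 (μ.bind (P t)) (ν.bind (P t)) ≤ omK K N t (W2 μ ν) := by
  have h1 := (h.flow μ hμ).W2_le_omK hK hN (h.flow ν hν) ht
  have h2 : P 0 = dirac := funext h.zero
  simpa only [h2, Measure.bind_dirac] using h1

end EVIKer

/-- **Existence of the heat kernel** on an `RCD(K,N)` space, `K ≤ 0`. -/
theorem IsRCD.exists_eviKer (hK : K ≤ 0) (hN : 0 < N) (hX : IsRCD K N X m) :
    ∃ P : ℝ → X → Measure X, EVIKer K N m P := by
  have := hX.proper
  choose F hF0 hF using fun x : X => hX.flow (dirac x) (isP2_dirac x)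
  have hm := fun (t : ℝ) (ht : 0 ≤ t) => kernel_measurable hK hN hF hF0 ht
  have hb := fun (ν : ℝ → Measure X) (hν : IsEVIFlow K N m ν) (t : ℝ) (ht : 0 ≤ t) =>
    flow_eq_bind hK hN hX.finite_ball hX.exp_int hX.flow hF hF0 hν ht
  have hflow : ∀ μ, IsP2 μ → IsEVIFlow K N m (fun t => μ.bind (fun x => F x t)) := by
    intro μ hμ
    obtain ⟨ν, hν0, hν⟩ := hX.flow μ hμ
    refine hν.congr fun t ht => ?_
    rw [hb ν hν t ht, hν0]
  refine ⟨fun t x => F x t, fun t ht x => ((hF x).p2 t ht).1, hm, hF0, fun s t hs ht x => ?_,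
    hflow⟩
  have h1 := hb _ ((hF x).shift hs) t ht
  simpa using h1

/-- two heat kernels agree -/
theorem EVIKer.unique [ProperSpace X] {P' : ℝ → X → Measure X} (h : EVIKer K N m P)
    (h' : EVIKer K N m P') (hK : K ≤ 0) (hN : 0 < N) {t : ℝ} (ht : 0 ≤ t) (x : X) :
    P t x = P' t x :=
  (h.flow_dirac x).unique hK hN (h'.flow_dirac x) (by rw [h.zero, h'.zero]) ht

end evi

end Pool.Agent.BDRY
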