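import Mathlib

/-!
# Lemma R of the end-game: low points relative to the density at larger scales are rare

Pure measure theory: the input is an almost monotone volume ratio and the almost rigidity
statement (Colding input) as a hypothesis.
-/

set_option autoImplicit false

open MeasureTheory MeasureTheory.Measure Metric Set Filter Topology
open scoped ENNReal NNReal

namespace Pool.Agent.BDRY

universe u

/-- A measure `m` with volume ratio `m (B_r(x)) / V r` nonincreasing in `r ≤ ρs`, for a gauge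
`V` of polynomial growth. -/
structure VolData {X : Type u} [MetricSpace X] [MeasurableSpace X] (m : Measure X) (V : ℝ → ℝ)
    (p : ℕ) (ρs : ℝ) : Prop where
  pos : ∀ r, 0 < r → 0 < V r
  dil : ∀ r l, 0 < r → 1 ≤ l → l * r ≤ ρs → V (l * r) ≤ l ^ p * V r
  fin : ∀ (x : X) (r : ℝ), m (closedBall x r) < ∞
  mono : ∀ (x : X) (r R : ℝ), 0 < r → r ≤ R → R ≤ ρs →
    m.real (closedBall x R) * V r ≤ m.real (closedBall x r) * V R

/-- The volume ratio. -/
noncomputable def thr {X : Type u} [MetricSpace X] [MeasurableSpace X] (m : Measure X) (V : ℝ → ℝ)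
    (x : X) (r : ℝ) : ℝ := m.real (closedBall x r) / V r

section basic
variable {X : Type u} [MetricSpace X] [MeasurableSpace X] {m : Measure X} {V : ℝ → ℝ} {p : ℕ}
  {ρs : ℝ}

theorem VolData.thr_anti (h : VolData m V p ρs) (x : X) {r R : ℝ} (hr : 0 < r) (hrR : r ≤ R)
    (hR : R ≤ ρs) : thr m V x R ≤ thr m V x r := by
  unfold thr
  rw [div_le_div_iff₀ (h.pos R (hr.trans_le hrR)) (h.pos r hr)]
  exact h.mono x r R hr hrR hR

theorem VolData.thr_nonneg (h : VolData m V p ρs) (x : X) {r : ℝ} (hr : 0 < r) :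
    0 ≤ thr m V x r := div_nonneg measureReal_nonneg (h.pos r hr).le

theorem VolData.real_dil (h : VolData m V p ρs) (x : X) {r l : ℝ} (hr : 0 < r) (hl : 1 ≤ l)
    (hlr : l * r ≤ ρs) : m.real (closedBall x (l * r)) ≤ l ^ p * m.real (closedBall x r) := by
  have h1 := h.mono x r (l * r) hr (by nlinarith) hlr
  have h2 := h.dil r l hr hl hlr
  have h3 := h.pos r hr
  have h4 : m.real (closedBall x (l * r)) * V r ≤ (l ^ p * m.real (closedBall x r)) * V r := by
    calc m.real (closedBall x (l * r)) * V r ≤ m.real (closedBall x r) * V (l * r) := h1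
      _ ≤ m.real (closedBall x r) * (l ^ p * V r) := mul_le_mul_of_nonneg_left h2 measureReal_nonneg
      _ = _ := by ring
  exact le_of_mul_le_mul_right h4 h3

theorem VolData.dil_enn (h : VolData m V p ρs) (x : X) {r l : ℝ} (hr : 0 < r) (hl : 1 ≤ l)
    (hlr : l * r ≤ ρs) : m (closedBall x (l * r)) ≤ ENNReal.ofReal (l ^ p) * m (closedBall x r) := by
  rw [← ENNReal.ofReal_toReal (h.fin x (l * r)).ne, ← ENNReal.ofReal_toReal (h.fin x r).ne,
    ← ENNReal.ofReal_mul (by positivity)]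
  exact ENNReal.ofReal_le_ofReal (h.real_dil x hr hl hlr)

/-- The measure of closed balls is upper semicontinuous in the centre. -/
theorem VolData.isOpen_lt [OpensMeasurableSpace X] (h : VolData m V p ρs) (r c : ℝ) :
    IsOpen {y : X | m.real (closedBall y r) < c} := by
  rw [Metric.isOpen_iff]
  intro y hy
  have hy' : m.real (closedBall y r) < c := hy
  -- continuity from above
  have h1 : Tendsto (fun k : ℕ => m (closedBall y (r + 1 / ((k : ℝ) + 1)))) atTop
      (𝓝 (m (⋂ k : ℕ, closedBall y (r + 1 / ((k : ℝ) + 1))))) := by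
    refine tendsto_measure_iInter_atTop (fun k => isClosed_closedBall.measurableSet.nullMeasurableSet)
      ?_ ⟨0, (h.fin y _).ne⟩
    intro i j hij
    refine closedBall_subset_closedBall ?_
    have : (1 : ℝ) / ((j : ℝ) + 1) ≤ 1 / ((i : ℝ) + 1) :=
      one_div_le_one_div_of_le (by positivity) (by exact_mod_cast Nat.succ_le_succ hij)
    linarith
  have h2 : (⋂ k : ℕ, closedBall y (r + 1 / ((k : ℝ) + 1))) = closedBall y r := by
    ext z
    simp only [mem_iInter, mem_closedBall]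
    constructor
    · intro hz
      have h3 : Tendsto (fun k : ℕ => r + 1 / ((k : ℝ) + 1)) atTop (𝓝 (r + 0)) :=
        tendsto_const_nhds.add tendsto_one_div_add_atTop_nhds_zero_nat
      rw [add_zero] at h3
      exact ge_of_tendsto' h3 hz
    · intro hz k
      have : (0 : ℝ) < 1 / ((k : ℝ) + 1) := by positivity
      linarith
  rw [h2] at h1
  have h3 : Tendsto (fun k : ℕ => m.real (closedBall y (r + 1 / ((k : ℝ) + 1)))) atTop
      (𝓝 (m.real (closedBall y r))) := (ENNReal.tendsto_toReal (h.fin y r).ne).comp h1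
  obtain ⟨k, hk⟩ := (h3.eventually (gt_mem_nhds hy')).exists
  refine ⟨1 / ((k : ℝ) + 1), by positivity, fun z hz => ?_⟩
  change m.real (closedBall z r) < c
  refine lt_of_le_of_lt (ENNReal.toReal_mono (h.fin _ _).ne (measure_mono ?_)) hk
  intro w hw
  rw [mem_closedBall] at hw ⊢
  rw [mem_ball] at hz
  have := dist_triangle w z y
  linarith

end basic

section step
variable {X : Type u} [MetricSpace X] [SecondCountableTopology X] [MeasurableSpace X]
  [OpensMeasurableSpace X] {m : Measure X} {V : ℝ → ℝ} {p : ℕ} {ρs : ℝ}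

/-- One covering step: if around every point of `Z'` a ball of radius `r` lies in `Z` and has a
fraction `ζ` outside `Z'`, then `m Z' ≤ C m (Z \ Z')`. -/
theorem VolData.step (h : VolData m V p ρs) {Z Z' : Set X} {r ζ : ℝ} (hr : 0 < r)
    (hrs : 5 * r ≤ ρs) (hζ : 0 < ζ) (hZ' : MeasurableSet Z')
    (hsub : ∀ y ∈ Z', closedBall y r ⊆ Z)
    (hfr : ∀ y ∈ Z', ENNReal.ofReal ζ * m (closedBall y r) ≤ m (closedBall y r \ Z')) :
    m Z' ≤ ENNReal.ofReal (5 ^ p / ζ) * m (Z \ Z') := by
  obtain ⟨u, hut, hud, huc⟩ := Vitali.exists_disjoint_subfamily_covering_enlargement_closedBall Z'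
    (fun y : X => y) (fun _ => r) r (fun _ _ => le_rfl) 5 (by norm_num)
  have hcount : u.Countable := by
    refine hud.countable_of_nonempty_interior fun y _ => ?_
    exact ⟨y, ball_subset_interior_closedBall (mem_ball_self hr)⟩
  have hcov : Z' ⊆ ⋃ y ∈ u, closedBall y (5 * r) := by
    intro y hy
    obtain ⟨b, hb, hyb⟩ := huc y hy
    exact mem_iUnion₂.2 ⟨b, hb, hyb (mem_closedBall_self hr.le)⟩
  have hc : Countable u := hcount.to_subtype
  calc m Z' ≤ m (⋃ y ∈ u, closedBall y (5 * r)) := measure_mono hcov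
    _ ≤ ∑' y : u, m (closedBall (y : X) (5 * r)) := measure_biUnion_le m hcount _
    _ ≤ ∑' y : u, ENNReal.ofReal (5 ^ p / ζ) * m (closedBall (y : X) r \ Z') := by
        refine ENNReal.tsum_le_tsum fun y => ?_
        have h1 := h.dil_enn (y : X) hr (by norm_num : (1 : ℝ) ≤ 5) hrs
        have h2 := hfr y (hut y.2)
        calc m (closedBall (y : X) (5 * r)) ≤ ENNReal.ofReal (5 ^ p) * m (closedBall (y : X) r) := h1
          _ = ENNReal.ofReal (5 ^ p / ζ) * (ENNReal.ofReal ζ * m (closedBall (y : X) r)) := by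
              rw [← mul_assoc, ← ENNReal.ofReal_mul (by positivity)]
              congr 2
              field_simp
          _ ≤ _ := by gcongr
    _ = ENNReal.ofReal (5 ^ p / ζ) * ∑' y : u, m (closedBall (y : X) r \ Z') := ENNReal.tsum_mul_left
    _ = ENNReal.ofReal (5 ^ p / ζ) * m (⋃ y ∈ u, closedBall (y : X) r \ Z') := by
        rw [measure_biUnion hcount]
        · intro y hy z hz hyz
          exact (hud hy hz hyz).mono sdiff_subset sdiff_subset
        · intro y _
          exact isClosed_closedBall.measurableSet.diff hZ'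
    _ ≤ _ := by
        gcongr
        refine iUnion₂_subset fun y hy => ?_
        exact sdiff_subset_sdiff_left (hsub y (hut hy))

end step

/-- The real-number iteration. -/
theorem geom_iter {C : ℝ} (hC : 0 ≤ C) {z : ℕ → ℝ} {k₀ : ℕ}
    (h : ∀ k < k₀, z (k + 1) ≤ C * (z k - z (k + 1))) :
    z k₀ ≤ (C / (1 + C)) ^ k₀ * z 0 := by
  induction k₀ with
  | zero => simp
  | succ k ih =>
    have h1 := ih fun j hj => h j (by omega)
    have h2 := h k (by omega)
    have h3 : z (k + 1) ≤ C / (1 + C) * z k := by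
      rw [div_mul_eq_mul_div, le_div_iff₀ (by linarith)]
      nlinarith
    calc z (k + 1) ≤ C / (1 + C) * z k := h3
      _ ≤ C / (1 + C) * ((C / (1 + C)) ^ k * z 0) := by gcongr
      _ = _ := by rw [pow_succ]; ring

/-- **Lemma R.** -/
theorem lemR (p : ℕ) {η₀ ζ₀ d₀ : ℝ} (hη₀ : 0 < η₀) (hη₁ : η₀ ≤ 1) (hζ₀ : 0 < ζ₀) (hd₀ : 0 < d₀)
    (hd₁ : d₀ ≤ 1) {ζ : ℝ} (hζ : 0 < ζ) : ∃ c : ℝ, 0 < c ∧ c ≤ 1 ∧
    ∀ (X : Type u) [MetricSpace X] [SecondCountableTopology X] [MeasurableSpace X]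
      [OpensMeasurableSpace X] (m : Measure X) (V : ℝ → ℝ) (ρs : ℝ), VolData m V p ρs →
    (∀ (y : X) (s : ℝ), 0 < s → s / η₀ ≤ ρs →
      m {y' | y' ∈ closedBall y (s / η₀) ∧
        (1 + d₀) * thr m V y' (s / η₀) < thr m V y' (η₀ * s)} ≤
        ENNReal.ofReal ζ₀ * m (closedBall y (s / η₀)) → 9 / 10 ≤ thr m V y s) →
    ∀ (w : X) (R a : ℝ), 0 < R → 10 * R ≤ ρs → 0 < a → a ≤ (1 + d₀ / 20) / 2 →
    (∀ y ∈ closedBall w (2 * R), (1 - d₀ / 20) * a ≤ thr m V y R) →
    m {y | y ∈ closedBall w R ∧ thr m V y (c * R) < (1 + 7 * (d₀ / 20)) * a} ≤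
      ENNReal.ofReal ζ * m (closedBall w R) := by
  set d := d₀ / 20 with hd
  have hd0 : 0 < d := by positivity
  have hd20 : d ≤ 1 / 20 := by rw [hd]; linarith
  -- the number of steps
  set C : ℝ := 5 ^ p / ζ₀ with hC
  have hC0 : 0 < C := by positivity
  obtain ⟨k₀, hk₀⟩ : ∃ k₀ : ℕ, 2 ^ p * (C / (1 + C)) ^ k₀ ≤ ζ := by
    have h1 : Tendsto (fun k : ℕ => 2 ^ p * (C / (1 + C)) ^ k) atTop (𝓝 (2 ^ p * 0)) := by
      refine (tendsto_pow_atTop_nhds_zero_of_lt_one (by positivity) ?_).const_mul _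
      rw [div_lt_one (by linarith)]
      linarith
    rw [mul_zero] at h1
    obtain ⟨k, hk⟩ := (h1.eventually (gt_mem_nhds hζ)).exists
    exact ⟨k, hk.le⟩
  -- the dilation
  obtain ⟨e, he0, he1, hek, heb⟩ : ∃ e : ℝ, 0 < e ∧ e ≤ 1 ∧ k₀ * e ≤ 1 ∧
      (1 + 7 * d) * ((1 + e) ^ p) ^ k₀ ≤ 1 + 8 * d := by
    have hc : Continuous fun e : ℝ => (1 + 7 * d) * ((1 + e) ^ p) ^ k₀ := by fun_prop
    have h1 : ∀ᶠ e in 𝓝[>] (0 : ℝ), (1 + 7 * d) * ((1 + e) ^ p) ^ k₀ < 1 + 8 * d := by
      refine ((hc.tendsto 0).mono_left nhdsWithin_le_nhds).eventually (gt_mem_nhds ?_)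
      simp
      linarith
    have hc2 : Continuous fun e : ℝ => (k₀ : ℝ) * e := by fun_prop
    have h2 : ∀ᶠ e in 𝓝[>] (0 : ℝ), (k₀ : ℝ) * e < 1 := by
      refine ((hc2.tendsto 0).mono_left nhdsWithin_le_nhds).eventually (gt_mem_nhds ?_)
      simp
    have h3 : ∀ᶠ e in 𝓝[>] (0 : ℝ), e < 1 :=
      (tendsto_id.mono_left nhdsWithin_le_nhds).eventually (gt_mem_nhds one_pos)
    obtain ⟨e, ⟨⟨h4, h5⟩, h6⟩, h7⟩ := (((h1.and h2).and h3).and self_mem_nhdsWithin).exists
    exact ⟨e, h7, h6.le, h5.le, h4.le⟩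
  set q : ℝ := η₀ * (η₀ * e) with hq
  have hq0 : 0 < q := by positivity
  have hq1 : q ≤ 1 := by
    have : η₀ * e ≤ 1 := mul_le_one₀ hη₁ he0.le he1
    exact mul_le_one₀ hη₁ (by positivity) this
  refine ⟨q ^ k₀, by positivity, pow_le_one₀ hq0.le hq1, ?_⟩
  intro X _ _ _ _ m V ρs hV hCold w R a hR hRs ha ha1 hlow
  set b : ℕ → ℝ := fun k => (1 + 8 * d) / ((1 + e) ^ p) ^ k with hb
  have he1' : (1 : ℝ) ≤ (1 + e) ^ p := one_le_pow₀ (by linarith)
  have hbpos : ∀ k, 0 < b k := fun k => by positivity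
  have hb1 : ∀ k, b k ≤ 1 + 8 * d := fun k => div_le_self (by linarith) (one_le_pow₀ he1')
  have hbs : ∀ k, b (k + 1) * (1 + e) ^ p = b k := by
    intro k
    simp only [hb]
    rw [pow_succ]
    field_simp
  set ρ : ℕ → ℝ := fun k => q ^ k * R with hρ
  have hρpos : ∀ k, 0 < ρ k := fun k => by positivity
  have hρR : ∀ k, ρ k ≤ R := fun k => by
    have : q ^ k ≤ 1 := pow_le_one₀ hq0.le hq1
    simp only [hρ]
    nlinarith
  have hρs : ∀ k, ρ (k + 1) = η₀ * (η₀ * (e * ρ k)) := fun k => by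
    simp only [hρ, hq, pow_succ]; ring
  set Y : ℕ → Set X := fun k => {y | thr m V y (ρ k) < b k * a} with hY
  set Z : ℕ → Set X := fun k => Y k ∩ closedBall w (R + ((k₀ : ℝ) - k) * (e * R)) with hZ
  have hYm : ∀ k, MeasurableSet (Y k) := by
    intro k
    have h1 : Y k = {y | m.real (closedBall y (ρ k)) < b k * a * V (ρ k)} := by
      ext y
      simp only [hY, thr, mem_ofPred_eq]
      rw [div_lt_iff₀ (hV.pos _ (hρpos k))]
    rw [h1]
    exact (hV.isOpen_lt _ _).measurableSet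
  have hZm : ∀ k, MeasurableSet (Z k) := fun k => (hYm k).inter isClosed_closedBall.measurableSet
  have hZfin : ∀ k, m (Z k) ≠ ∞ := fun k =>
    ne_top_of_le_ne_top (hV.fin w _).ne (measure_mono inter_subset_right)
  -- one step
  have hstep : ∀ k < k₀, (∀ y ∈ Z (k + 1), closedBall y (e * ρ k) ⊆ Z k) ∧
      (∀ y ∈ Z (k + 1), ENNReal.ofReal ζ₀ * m (closedBall y (e * ρ k)) ≤
        m (closedBall y (e * ρ k) \ Z (k + 1))) := by
    intro k hk
    have hkk : ((k + 1 : ℕ) : ℝ) ≤ k₀ := by exact_mod_cast hk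
    have heρ : 0 < e * ρ k := mul_pos he0 (hρpos k)
    have heρR : e * ρ k ≤ e * R := mul_le_mul_of_nonneg_left (hρR k) he0.le
    have heR : e * R ≤ R := by nlinarith
    have hsc : ρ (k + 1) ≤ e * ρ k := by
      rw [hρs k]
      have h1 : η₀ * (e * ρ k) ≤ e * ρ k := by nlinarith
      have h2 : η₀ * (η₀ * (e * ρ k)) ≤ η₀ * (e * ρ k) :=
        mul_le_mul_of_nonneg_left h1 hη₀.le
      linarith
    have hsub : ∀ y ∈ Z (k + 1), closedBall y (e * ρ k) ⊆ Z k := by
      intro y hy y' hy'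
      have hyY : thr m V y (ρ (k + 1)) < b (k + 1) * a := hy.1
      have hyw : dist y w ≤ R + ((k₀ : ℝ) - (k + 1 : ℕ)) * (e * R) := hy.2
      rw [mem_closedBall] at hy'
      constructor
      · change thr m V y' (ρ k) < b k * a
        have hr1 : ρ (k + 1) ≤ (1 + e) * ρ k := by nlinarith [hρpos k]
        have hr2 : (1 + e) * ρ k ≤ ρs := by nlinarith [hρR k, hρpos k]
        have h1 : thr m V y ((1 + e) * ρ k) < b (k + 1) * a :=
          (hV.thr_anti y (hρpos (k + 1)) hr1 hr2).trans_lt hyY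
        have hVp : 0 < V ((1 + e) * ρ k) := hV.pos _ (by have := hρpos k; positivity)
        rw [thr, div_lt_iff₀ hVp] at h1
        rw [thr, div_lt_iff₀ (hV.pos _ (hρpos k))]
        have h2 : m.real (closedBall y' (ρ k)) ≤ m.real (closedBall y ((1 + e) * ρ k)) := by
          refine ENNReal.toReal_mono (hV.fin _ _).ne (measure_mono ?_)
          intro z hz
          rw [mem_closedBall] at hz ⊢
          have := dist_triangle z y' y
          nlinarith
        have h3 := hV.dil (ρ k) (1 + e) (hρpos k) (by linarith) hr2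
        calc m.real (closedBall y' (ρ k)) ≤ m.real (closedBall y ((1 + e) * ρ k)) := h2
          _ < b (k + 1) * a * V ((1 + e) * ρ k) := h1
          _ ≤ b (k + 1) * a * ((1 + e) ^ p * V (ρ k)) := by
              have := hbpos (k + 1)
              gcongr
          _ = b (k + 1) * (1 + e) ^ p * a * V (ρ k) := by ring
          _ = b k * a * V (ρ k) := by rw [hbs k]
      · rw [mem_closedBall]
        have := dist_triangle y' y w
        push_cast at hyw
        nlinarith
    refine ⟨hsub, fun y hy => ?_⟩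
    by_contra hcon
    rw [not_le] at hcon
    have hyY : thr m V y (ρ (k + 1)) < b (k + 1) * a := hy.1
    have hyw : dist y w ≤ R + ((k₀ : ℝ) - (k + 1 : ℕ)) * (e * R) := hy.2
    -- the scale
    set s := η₀ * (e * ρ k) with hs
    have hs0 : 0 < s := mul_pos hη₀ heρ
    have hsη : s / η₀ = e * ρ k := by rw [hs]; field_simp
    have hηs : η₀ * s = ρ (k + 1) := by rw [hs, hρs k]
    have h1 := hCold y s hs0 (by rw [hsη]; linarith) (by
      rw [hsη, hηs]
      refine (measure_mono ?_).trans hcon.le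
      rintro y' ⟨hy'1, hy'2⟩
      refine ⟨hy'1, fun hy'Z => ?_⟩
      have h2 : thr m V y' (ρ (k + 1)) < b (k + 1) * a := hy'Z.1
      have h3 : dist y' w ≤ 2 * R := by
        have h4 : dist y' w ≤ R + ((k₀ : ℝ) - (k + 1 : ℕ)) * (e * R) := hy'Z.2
        have h5 : ((k₀ : ℝ) - (k + 1 : ℕ)) * (e * R) ≤ R := by
          have h6 : ((k₀ : ℝ) - (k + 1 : ℕ)) * e ≤ 1 := by
            have : (0 : ℝ) ≤ ((k + 1 : ℕ) : ℝ) := by positivity
            nlinarith
          nlinarith
        linarith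
      have h7 := hlow y' h3
      have h8 : thr m V y' R ≤ thr m V y' (e * ρ k) :=
        hV.thr_anti y' heρ (heρR.trans heR) (by linarith)
      have h9 : (1 + 8 * d) * a ≤ (1 + d₀) * thr m V y' (e * ρ k) := by
        have h10 : (1 - d) * a ≤ thr m V y' (e * ρ k) := h7.trans h8
        have h11 : (1 + d₀) * ((1 - d) * a) ≤ (1 + d₀) * thr m V y' (e * ρ k) :=
          mul_le_mul_of_nonneg_left h10 (by linarith)
        have h12 : d₀ = 20 * d := by rw [hd]; ring
        have h13 : (1 + 8 * d) * a ≤ (1 + d₀) * ((1 - d) * a) := by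
          rw [h12, ← mul_assoc]
          refine mul_le_mul_of_nonneg_right ?_ ha.le
          nlinarith
        linarith
      have h14 : b (k + 1) * a ≤ (1 + 8 * d) * a := mul_le_mul_of_nonneg_right (hb1 _) ha.le
      linarith)
    have h2 : thr m V y s ≤ thr m V y (ρ (k + 1)) := by
      refine hV.thr_anti y (hρpos (k + 1)) ?_ ?_
      · rw [← hηs]; nlinarith
      · have : s ≤ e * ρ k := by rw [hs]; nlinarith
        linarith
    have h3 : b (k + 1) * a ≤ (1 + 8 * d) * ((1 + d) / 2) := by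
      have := hb1 (k + 1)
      have := hbpos (k + 1)
      gcongr
    nlinarith
  -- iteration
  have hsubZ : ∀ k < k₀, Z (k + 1) ⊆ Z k := fun k hk y hy =>
    (hstep k hk).1 y hy (mem_closedBall_self (mul_pos he0 (hρpos k)).le)
  have hz : ∀ k < k₀, m.real (Z (k + 1)) ≤ C * (m.real (Z k) - m.real (Z (k + 1))) := by
    intro k hk
    have h1 := hV.step (Z := Z k) (Z' := Z (k + 1)) (r := e * ρ k) (mul_pos he0 (hρpos k))
      (by nlinarith [hρR k, hρpos k]) hζ₀ (hZm (k + 1)) (hstep k hk).1 (hstep k hk).2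
    have h2 : m.real (Z k \ Z (k + 1)) = m.real (Z k) - m.real (Z (k + 1)) :=
      measureReal_sdiff (hsubZ k hk) (hZm (k + 1)) (hZfin k)
    rw [← h2]
    have h3 := ENNReal.toReal_mono (ENNReal.mul_ne_top ENNReal.ofReal_ne_top
      (ne_top_of_le_ne_top (hZfin k) (measure_mono sdiff_subset))) h1
    rwa [ENNReal.toReal_mul, ENNReal.toReal_ofReal hC0.le] at h3
  have hiter := geom_iter hC0.le (z := fun k => m.real (Z k)) hz
  have hZ0 : m.real (Z 0) ≤ 2 ^ p * m.real (closedBall w R) := by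
    refine le_trans ?_ (hV.real_dil w hR (by norm_num : (1 : ℝ) ≤ 2) (by linarith))
    refine ENNReal.toReal_mono (hV.fin _ _).ne (measure_mono ?_)
    rintro y ⟨-, hy⟩
    rw [mem_closedBall] at hy ⊢
    push_cast at hy
    nlinarith
  have hfinal : m.real (Z k₀) ≤ ζ * m.real (closedBall w R) := by
    calc m.real (Z k₀) ≤ (C / (1 + C)) ^ k₀ * m.real (Z 0) := hiter
      _ ≤ (C / (1 + C)) ^ k₀ * (2 ^ p * m.real (closedBall w R)) := by gcongr
      _ = (2 ^ p * (C / (1 + C)) ^ k₀) * m.real (closedBall w R) := by ring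
      _ ≤ _ := by gcongr
  have hincl : {y | y ∈ closedBall w R ∧ thr m V y (q ^ k₀ * R) < (1 + 7 * d) * a} ⊆ Z k₀ := by
    rintro y ⟨hy1, hy2⟩
    refine ⟨?_, ?_⟩
    · change thr m V y (q ^ k₀ * R) < b k₀ * a
      refine hy2.trans_le (mul_le_mul_of_nonneg_right ?_ ha.le)
      rw [hb, le_div_iff₀ (by positivity)]
      exact heb
    · rw [mem_closedBall] at hy1 ⊢
      simpa using hy1
  refine (measure_mono hincl).trans ?_
  rw [← ENNReal.ofReal_toReal (hZfin k₀), ← ENNReal.ofReal_toReal (hV.fin w R).ne,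
    ← ENNReal.ofReal_mul hζ.le]
  exact ENNReal.ofReal_le_ofReal hfinal

end Pool.Agent.BDRY
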