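import Pool.Agent.Work.MP_209cb6_gt.B2.Th

/-!
# Lemma R (note 4942, (6)): most points of a ball see a larger volume ratio at a small scale
-/

set_option autoImplicit false

open MeasureTheory MeasureTheory.Measure Metric Set Filter Topology
open scoped ENNReal NNReal

namespace Pool.Agent.BDRY

universe u

section lsc

variable {X : Type u} [MetricSpace X] [MeasurableSpace X] {m : Measure X}

theorem lsc_measure_ball (m : Measure X) (r : ℝ) :
    LowerSemicontinuous fun x : X => m (ball x r) := by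
  intro x c hc
  have hU : ball x r = ⋃ k : ℕ, ball x (r - 1 / ((k : ℝ) + 1)) := by
    ext z
    simp only [mem_ball, mem_iUnion]
    constructor
    · intro h
      obtain ⟨k, hk⟩ := exists_nat_one_div_lt (sub_pos.2 h)
      exact ⟨k, by linarith⟩
    · rintro ⟨k, hk⟩
      have : (0 : ℝ) < 1 / ((k : ℝ) + 1) := by positivity
      linarith
  have hmono : Monotone fun k : ℕ => ball x (r - 1 / ((k : ℝ) + 1)) := by
    intro j k hjk
    refine ball_subset_ball ?_
    have : (1 : ℝ) / ((k : ℝ) + 1) ≤ 1 / ((j : ℝ) + 1) := by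
      apply one_div_le_one_div_of_le (by positivity)
      have : (j : ℝ) ≤ k := by exact_mod_cast hjk
      linarith
    linarith
  change c < m (ball x r) at hc
  change ∀ᶠ x' in 𝓝 x, c < m (ball x' r)
  rw [hU, hmono.measure_iUnion] at hc
  obtain ⟨k, hk⟩ := lt_iSup_iff.1 hc
  have hpos : (0 : ℝ) < 1 / ((k : ℝ) + 1) := by positivity
  filter_upwards [ball_mem_nhds x hpos] with y hy
  refine hk.trans_le (measure_mono (ball_subset_ball' ?_))
  have : dist x y < 1 / ((k : ℝ) + 1) := by rw [dist_comm]; exact hy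
  linarith

theorem measurable_th [BorelSpace X] (n : ℕ) (m : Measure X) (r : ℝ) :
    Measurable (th n m r) := by
  unfold th
  exact ((lsc_measure_ball m r).measurable.ennreal_toReal).div_const _

end lsc

/-- The Colding input in the form used in the end-game (note 4942, (5)): if at all points of
`ball y (s/η)` outside a set of relative measure `ζ` the volume ratio is almost constant between
the scales `η s` and `s/η`, then it is at least `q` at `y`, at the scale `s ≤ s₀`. -/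
def ColC {X : Type u} [MetricSpace X] [MeasurableSpace X] (n : ℕ) (m : Measure X)
    (q η ζ d s₀ : ℝ) : Prop :=
  ∀ (y : X) (s : ℝ), 0 < s → s ≤ s₀ →
    m {z ∈ ball y (s / η) | (1 + d) * th n m (s / η) z < th n m (η * s) z} ≤
      ENNReal.ofReal ζ * m (ball y (s / η)) → q ≤ th n m s y

section lemR

variable {X : Type u} [MetricSpace X] [MeasurableSpace X] [BorelSpace X] {n : ℕ} {m : Measure X}
  {K : ℝ}

/-- one step of Lemma R -/
theorem lemR_th_step (hK : K ≤ 0) (hX : IsRCD K (n + 1) X m) {q η ζ d₀ s₀ d e a b R ρ l r r' : ℝ}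
    (hC : ColC n m q η ζ d₀ s₀) {w : X}
    (hη : 0 < η) (hη1 : η ≤ 1) (hζ : 0 < ζ) (he : 0 < e) (he1 : e ≤ 1) (hρ : 0 < ρ) (hρR : ρ ≤ R)
    (ha : 0 < a) (hd₀ : 0 ≤ d₀)
    (hs : η * e * ρ ≤ s₀)
    (hl : (1 + e) ^ (n + 1) * Real.exp ((n + 1) * qK K (n + 1) * (3 * R)) ≤ l)
    (hlb : l * b * a < q)
    (hgap : b * Real.exp ((n + 1) * qK K (n + 1) * R) ≤ (1 + d₀) * (1 - d))
    (hr : r' + e * ρ ≤ r) (hr2 : r ≤ 2 * R)
    (hw : ∀ y ∈ ball w (2 * R), (1 - d) * a ≤ th n m R y)
    (hC5 : (6 : ℝ) ^ (n + 1) * Real.exp ((n + 1) * qK K (n + 1) * (6 * R)) ≤ 7 ^ (n + 1)) :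
    (1 + ENNReal.ofReal (ζ / 7 ^ (n + 1))) *
      m {y ∈ ball w r' | th n m (η ^ 2 * e * ρ) y < b * a} ≤
        m {y ∈ ball w r | th n m ρ y < l * b * a} := by
  have hqK : 0 ≤ (n + 1) * qK K (n + 1) := by have := qK_nonneg K (n + 1); positivity
  set ρ' : ℝ := η ^ 2 * e * ρ with hρ'
  set s : ℝ := η * e * ρ with hsdef
  have hs0 : 0 < s := by positivity
  have hsη : s / η = e * ρ := by rw [hsdef]; field_simp
  have hηs : η * s = ρ' := by rw [hsdef, hρ']; ring
  have hρ'0 : 0 < ρ' := by positivity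
  have heρ : 0 < e * ρ := by positivity
  have heρR : e * ρ ≤ R := by nlinarith
  have hsρ : s ≤ ρ := by
    rw [hsdef]; nlinarith [mul_le_mul hη1 he1 he.le zero_le_one]
  have hρ's : ρ' ≤ s := by
    rw [← hηs]; nlinarith
  set W' := {y ∈ ball w r' | th n m ρ' y < b * a} with hW'
  set W := {y ∈ ball w r | th n m ρ y < l * b * a} with hW
  have hmeas : MeasurableSet {y : X | th n m ρ' y < b * a} :=
    measurableSet_lt (measurable_th n m ρ') measurable_const
  have hl1 : 1 ≤ l := by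
    refine le_trans ?_ hl
    have h1 : (1 : ℝ) ≤ (1 + e) ^ (n + 1) := one_le_pow₀ (by linarith)
    have h2 : (1 : ℝ) ≤ Real.exp ((n + 1) * qK K (n + 1) * (3 * R)) :=
      Real.one_le_exp (by have : 0 < R := hρ.trans_le hρR; positivity)
    nlinarith
  have hR : 0 < R := hρ.trans_le hρR
  -- (i) the ball is inside `W`
  have hi : ∀ y ∈ W', ball y (e * ρ) ⊆ W := by
    rintro y ⟨hyw, hyb⟩ z hz
    refine ⟨?_, ?_⟩
    · have h1 : dist z y < e * ρ := hz
      have h2 : dist y w < r' := hyw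
      have h3 := dist_triangle z y w
      rw [mem_ball]; linarith
    · have h1 := th_nbr (n := n) (m := m) hK hX (x := z) (y := y) (e := e * ρ) (R := ρ)
        (le_of_lt hz) hρ
      have h2 := th_mono (n := n) (m := m) hK hX y hρ'0 (hρ's.trans hsρ)
      have h3 : (ρ + e * ρ) / ρ = 1 + e := by field_simp
      rw [h3] at h1
      have hA0 : 0 ≤ (1 + e) ^ (n + 1) * Real.exp ((n + 1) * qK K (n + 1) * (e * ρ)) := by
        positivity
      have h4 := h1.trans (mul_le_mul_of_nonneg_left h2 hA0)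
      have h5 : (1 + e) ^ (n + 1) * Real.exp ((n + 1) * qK K (n + 1) * (e * ρ)) *
          (Real.exp ((n + 1) * qK K (n + 1) * (ρ - ρ')) * th n m ρ' y) ≤ l * th n m ρ' y := by
        rw [← mul_assoc, mul_assoc ((1 + e) ^ (n + 1)), ← Real.exp_add]
        refine mul_le_mul_of_nonneg_right (le_trans ?_ hl) (th_nonneg hρ'0.le y)
        refine mul_le_mul_of_nonneg_left (Real.exp_le_exp.2 ?_) (by positivity)
        rw [← mul_add]
        refine mul_le_mul_of_nonneg_left ?_ hqK
        nlinarith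
      have h6 : l * th n m ρ' y < l * (b * a) := mul_lt_mul_of_pos_left hyb (by linarith)
      calc th n m ρ z ≤ l * th n m ρ' y := h4.trans h5
        _ < l * (b * a) := h6
        _ = l * b * a := by ring
  -- (ii) a fraction of the ball is outside
  have hii : ∀ y ∈ W', ENNReal.ofReal ζ * m (ball y (e * ρ)) ≤
      m (ball y (e * ρ) \ {y : X | th n m ρ' y < b * a}) := by
    rintro y ⟨hyw, hyb⟩
    have h1 : th n m s y < q := by
      have h2 := th_mono (n := n) (m := m) hK hX y hρ'0 hρ's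
      have h3 : Real.exp ((n + 1) * qK K (n + 1) * (s - ρ')) ≤ l := by
        refine le_trans ?_ hl
        have h4 : Real.exp ((n + 1) * qK K (n + 1) * (s - ρ')) ≤
            Real.exp ((n + 1) * qK K (n + 1) * (3 * R)) := by
          refine Real.exp_le_exp.2 (mul_le_mul_of_nonneg_left ?_ hqK)
          nlinarith
        have h5 : (1 : ℝ) ≤ (1 + e) ^ (n + 1) := one_le_pow₀ (by linarith)
        nlinarith [Real.exp_pos ((n + 1) * qK K (n + 1) * (3 * R))]
      calc th n m s y ≤ l * th n m ρ' y :=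
            h2.trans (mul_le_mul_of_nonneg_right h3 (th_nonneg hρ'0.le y))
        _ ≤ l * (b * a) := mul_le_mul_of_nonneg_left hyb.le (by linarith)
        _ = l * b * a := by ring
        _ < q := hlb
    by_contra hcon
    push Not at hcon
    refine absurd (hC y s hs0 hs ?_) (not_le.2 h1)
    rw [hsη, hηs]
    refine le_trans (measure_mono ?_) hcon.le
    rintro z ⟨hz, hz1⟩
    refine ⟨hz, ?_⟩
    rw [mem_ofPred_eq, not_lt]
    have hzw : z ∈ ball w (2 * R) := by
      have h1 : dist z y < e * ρ := hz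
      have h2 : dist y w < r' := hyw
      have h3 := dist_triangle z y w
      rw [mem_ball]; linarith
    have h5 := hw z hzw
    have h6 := th_mono (n := n) (m := m) hK hX z heρ heρR
    have h7 : Real.exp ((n + 1) * qK K (n + 1) * (R - e * ρ)) ≤
        Real.exp ((n + 1) * qK K (n + 1) * R) :=
      Real.exp_le_exp.2 (mul_le_mul_of_nonneg_left (by linarith) hqK)
    have h8 : (1 - d) * a ≤ Real.exp ((n + 1) * qK K (n + 1) * R) * th n m (e * ρ) z :=
      h5.trans (h6.trans (mul_le_mul_of_nonneg_right h7 (th_nonneg heρ.le z)))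
    have hE := Real.exp_pos ((n + 1) * qK K (n + 1) * R)
    have h9 : b * a * Real.exp ((n + 1) * qK K (n + 1) * R) ≤
        (1 + d₀) * th n m (e * ρ) z * Real.exp ((n + 1) * qK K (n + 1) * R) := by
      calc b * a * Real.exp ((n + 1) * qK K (n + 1) * R)
          = b * Real.exp ((n + 1) * qK K (n + 1) * R) * a := by ring
        _ ≤ (1 + d₀) * (1 - d) * a := mul_le_mul_of_nonneg_right hgap ha.le
        _ = (1 + d₀) * ((1 - d) * a) := by ring
        _ ≤ (1 + d₀) * (Real.exp ((n + 1) * qK K (n + 1) * R) * th n m (e * ρ) z) :=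
            mul_le_mul_of_nonneg_left h8 (by linarith)
        _ = _ := by ring
    exact (le_of_mul_le_mul_right h9 hE).trans hz1.le
  -- (iii) Vitali
  obtain ⟨u, huW, hdisj, hcov⟩ := Vitali.exists_disjoint_subfamily_covering_enlargement_closedBall
    W' (fun y => y) (fun _ => e * ρ) (e * ρ) (fun _ _ => le_rfl) 5 (by norm_num)
  have := hX.proper
  have hucount : u.Countable := by
    refine hdisj.countable_of_nonempty_interior fun y _ => ?_
    exact ⟨y, ball_subset_interior_closedBall (mem_ball_self heρ)⟩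
  have hdisj' : u.PairwiseDisjoint fun y => ball y (e * ρ) \ {y : X | th n m ρ' y < b * a} :=
    hdisj.mono_on fun y _ => sdiff_subset.trans ball_subset_closedBall
  have hWcov : m W' ≤ ENNReal.ofReal (7 ^ (n + 1)) * ∑' y : u, m (ball (y : X) (e * ρ)) := by
    calc m W' ≤ m (⋃ y ∈ u, closedBall y (5 * (e * ρ))) := by
          refine measure_mono fun y hy => ?_
          obtain ⟨z, hz, hyz⟩ := hcov y hy
          exact mem_biUnion hz (hyz (mem_closedBall_self heρ.le))
      _ ≤ ∑' y : u, m (closedBall (y : X) (5 * (e * ρ))) := measure_biUnion_le m hucount _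
      _ ≤ ∑' y : u, ENNReal.ofReal (7 ^ (n + 1)) * m (ball (y : X) (e * ρ)) := by
          refine ENNReal.tsum_le_tsum fun y => ?_
          refine (measure_mono (closedBall_subset_ball
            (by linarith : 5 * (e * ρ) < 6 * (e * ρ)))).trans ?_
          refine (bg_ball' hK hX (y : X) heρ (by linarith : e * ρ ≤ 6 * (e * ρ))).trans ?_
          refine mul_le_mul_left (ENNReal.ofReal_le_ofReal ?_) _
          refine le_trans ?_ hC5
          have h1 : 6 * (e * ρ) / (e * ρ) = 6 := by field_simp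
          rw [h1]
          refine mul_le_mul_of_nonneg_left (Real.exp_le_exp.2 ?_) (by positivity)
          refine mul_le_mul_of_nonneg_left ?_ hqK
          linarith
      _ = ENNReal.ofReal (7 ^ (n + 1)) * ∑' y : u, m (ball (y : X) (e * ρ)) :=
          ENNReal.tsum_mul_left
  have hout : ENNReal.ofReal ζ * ∑' y : u, m (ball (y : X) (e * ρ)) ≤
      m (W \ {y : X | th n m ρ' y < b * a}) := by
    calc ENNReal.ofReal ζ * ∑' y : u, m (ball (y : X) (e * ρ))
        = ∑' y : u, ENNReal.ofReal ζ * m (ball (y : X) (e * ρ)) := ENNReal.tsum_mul_left.symm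
      _ ≤ ∑' y : u, m (ball (y : X) (e * ρ) \ {y : X | th n m ρ' y < b * a}) :=
          ENNReal.tsum_le_tsum fun y => hii y (huW y.2)
      _ = m (⋃ y ∈ u, ball y (e * ρ) \ {y : X | th n m ρ' y < b * a}) :=
          (measure_biUnion hucount hdisj' fun y _ => measurableSet_ball.diff hmeas).symm
      _ ≤ m (W \ {y : X | th n m ρ' y < b * a}) := by
          refine measure_mono (iUnion₂_subset fun y hy => ?_)
          exact sdiff_subset_sdiff_left (hi y (huW hy))
  have hin : m W' ≤ m (W ∩ {y : X | th n m ρ' y < b * a}) := by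
    refine measure_mono fun y hy => ⟨hi y hy (mem_ball_self heρ), hy.2⟩
  have h7 : ENNReal.ofReal (ζ / 7 ^ (n + 1)) * m W' ≤ m (W \ {y : X | th n m ρ' y < b * a}) := by
    calc ENNReal.ofReal (ζ / 7 ^ (n + 1)) * m W'
        ≤ ENNReal.ofReal (ζ / 7 ^ (n + 1)) * (ENNReal.ofReal (7 ^ (n + 1)) *
            ∑' y : u, m (ball (y : X) (e * ρ))) := by gcongr
      _ = ENNReal.ofReal ζ * ∑' y : u, m (ball (y : X) (e * ρ)) := by
          rw [← mul_assoc, ← ENNReal.ofReal_mul (by positivity)]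
          congr 2
          field_simp
      _ ≤ _ := hout
  calc (1 + ENNReal.ofReal (ζ / 7 ^ (n + 1))) * m W'
      = m W' + ENNReal.ofReal (ζ / 7 ^ (n + 1)) * m W' := by rw [add_mul, one_mul]
    _ ≤ m (W ∩ {y : X | th n m ρ' y < b * a}) + m (W \ {y : X | th n m ρ' y < b * a}) :=
        add_le_add hin h7
    _ = m W := measure_inter_add_sdiff W hmeas

end lemR

/-- **Lemma R** (note 4942, (6)).  Let the volume ratios at the scale `R` be at least `(1-d) a` on
`ball w (2R)`, where `a ≤ α` and `(1+8d) α < q`.  Then, up to a set of relative measure `ζ` in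
`ball w R`, the volume ratio at the scale `c R` is at least `(1+7d) a`, with `c = c(ζ, ...)`
independent of the space, of `a`, and of `R ≤ R₀`. -/
theorem lemR_th {K : ℝ} (hK : K ≤ 0) (n : ℕ) {q η ζ₀ d₀ s₀ d α ζ : ℝ} (hη : 0 < η) (hη1 : η ≤ 1)
    (hζ₀ : 0 < ζ₀) (hs₀ : 0 < s₀) (hd : 0 < d) (hd₀ : 0 ≤ d₀) (hα : (1 + 8 * d) * α < q)
    (hgap : 1 + 8 * d < (1 + d₀) * (1 - d)) (hζ : 0 < ζ) :
    ∃ c R₀ : ℝ, 0 < c ∧ c ≤ 1 ∧ 0 < R₀ ∧
      ∀ (X : Type u) [MetricSpace X] [MeasurableSpace X] [BorelSpace X] (m : Measure X),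
        IsRCD K (n + 1) X m → ColC n m q η ζ₀ d₀ s₀ →
        ∀ (a : ℝ), 0 < a → a ≤ α → ∀ (w : X) (R : ℝ), 0 < R → R ≤ R₀ →
          (∀ y ∈ ball w (2 * R), (1 - d) * a ≤ th n m R y) →
          m {y ∈ ball w R | th n m (c * R) y < (1 + 7 * d) * a} ≤
            ENNReal.ofReal ζ * m (ball w R) := by
  set Q : ℝ := (n + 1) * qK K (n + 1) with hQ
  have hQ0 : 0 ≤ Q := by have := qK_nonneg K (n + 1); positivity
  set c₅ : ℝ := ζ₀ / 7 ^ (n + 1) with hc₅
  have hc₅0 : 0 < c₅ := by positivity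
  -- the number of steps
  obtain ⟨k₀, hk₀⟩ : ∃ k₀ : ℕ, (3 : ℝ) ^ (n + 1) ≤ (1 + c₅) ^ k₀ * ζ := by
    obtain ⟨k, hk⟩ := pow_unbounded_of_one_lt ((3 : ℝ) ^ (n + 1) / ζ) (by linarith : 1 < 1 + c₅)
    exact ⟨k, by rw [div_lt_iff₀ hζ] at hk; exact hk.le⟩
  -- the factor `l`
  obtain ⟨t, ht, htl⟩ : ∃ t : ℝ, 0 < t ∧ (1 + t) ^ k₀ * (1 + 7 * d) < 1 + 8 * d := by
    have hc : Tendsto (fun t : ℝ => (1 + t) ^ k₀ * (1 + 7 * d)) (𝓝[>] 0)
        (𝓝 ((1 + 0) ^ k₀ * (1 + 7 * d))) := by
      have : Continuous fun t : ℝ => (1 + t) ^ k₀ * (1 + 7 * d) := by fun_prop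
      exact (this.tendsto 0).mono_left nhdsWithin_le_nhds
    have h1 : ∀ᶠ t in 𝓝[>] (0 : ℝ), (1 + t) ^ k₀ * (1 + 7 * d) < 1 + 8 * d :=
      hc.eventually (gt_mem_nhds (by simp; linarith))
    obtain ⟨t, ht⟩ := (h1.and self_mem_nhdsWithin).exists
    exact ⟨t, ht.2, ht.1⟩
  set l : ℝ := 1 + t with hl
  -- the parameter `e`
  obtain ⟨e, he, he1, hek, hel⟩ : ∃ e : ℝ, 0 < e ∧ e ≤ 1 ∧ k₀ * e ≤ 1 ∧ (1 + e) ^ (n + 1) < l := by
    have hc : Tendsto (fun e : ℝ => (1 + e) ^ (n + 1)) (𝓝[>] 0) (𝓝 ((1 + 0) ^ (n + 1))) := by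
      have : Continuous fun e : ℝ => (1 + e) ^ (n + 1) := by fun_prop
      exact (this.tendsto 0).mono_left nhdsWithin_le_nhds
    have h1 : ∀ᶠ e in 𝓝[>] (0 : ℝ), (1 + e) ^ (n + 1) < l :=
      hc.eventually (gt_mem_nhds (by simp [hl]; exact ht))
    have hc2 : Tendsto (fun e : ℝ => (k₀ : ℝ) * e) (𝓝[>] 0) (𝓝 ((k₀ : ℝ) * 0)) := by
      have : Continuous fun e : ℝ => (k₀ : ℝ) * e := by fun_prop
      exact (this.tendsto 0).mono_left nhdsWithin_le_nhds
    have h2 : ∀ᶠ e in 𝓝[>] (0 : ℝ), (k₀ : ℝ) * e < 1 :=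
      hc2.eventually (gt_mem_nhds (by simp))
    have h3 : ∀ᶠ e in 𝓝[>] (0 : ℝ), e < 1 :=
      mem_nhdsWithin_of_mem_nhds (gt_mem_nhds one_pos)
    obtain ⟨e, h⟩ := (((h1.and h2).and h3).and self_mem_nhdsWithin).exists
    exact ⟨e, h.2, h.1.2.le, h.1.1.2.le, h.1.1.1⟩
  -- the bound `R₀` on the radii
  obtain ⟨R₀, hR₀, hR₀s, hR1, hR2, hR3, hR4⟩ : ∃ R₀ : ℝ, 0 < R₀ ∧ R₀ ≤ s₀ ∧
      (1 + e) ^ (n + 1) * Real.exp (Q * (3 * R₀)) ≤ l ∧
      (1 + 8 * d) * Real.exp (Q * R₀) ≤ (1 + d₀) * (1 - d) ∧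
      (6 : ℝ) ^ (n + 1) * Real.exp (Q * (6 * R₀)) ≤ 7 ^ (n + 1) ∧
      (2 : ℝ) ^ (n + 1) * Real.exp (Q * R₀) ≤ 3 ^ (n + 1) := by
    have key : ∀ A c B : ℝ, A < B →
        ∀ᶠ R in 𝓝[>] (0 : ℝ), A * Real.exp (Q * (c * R)) < B := by
      intro A c B hAB
      have hc : Tendsto (fun R : ℝ => A * Real.exp (Q * (c * R))) (𝓝[>] 0)
          (𝓝 (A * Real.exp (Q * (c * 0)))) := by
        have : Continuous fun R : ℝ => A * Real.exp (Q * (c * R)) := by fun_prop
        exact (this.tendsto 0).mono_left nhdsWithin_le_nhds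
      exact hc.eventually (gt_mem_nhds (by simpa using hAB))
    have h1 := key _ 3 _ hel
    have h2 := key _ 1 _ hgap
    have h3 := key _ 6 _ (pow_lt_pow_left₀ (by norm_num : (6 : ℝ) < 7) (by norm_num)
      (Nat.succ_ne_zero n))
    have h4 := key _ 1 _ (pow_lt_pow_left₀ (by norm_num : (2 : ℝ) < 3) (by norm_num)
      (Nat.succ_ne_zero n))
    have h5 : ∀ᶠ R in 𝓝[>] (0 : ℝ), R < s₀ := mem_nhdsWithin_of_mem_nhds (gt_mem_nhds hs₀)
    obtain ⟨R, h⟩ := (((((h1.and h2).and h3).and h4).and h5).and self_mem_nhdsWithin).exists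
    refine ⟨R, h.2, h.1.2.le, h.1.1.1.1.1.le, ?_, h.1.1.1.2.le, ?_⟩
    · have := h.1.1.1.1.2.le; rwa [one_mul] at this
    · have := h.1.1.2.le; rwa [one_mul] at this
  have hθ : 0 < η ^ 2 * e := by positivity
  have hθ1 : η ^ 2 * e ≤ 1 := by
    have : η ^ 2 ≤ 1 := pow_le_one₀ hη.le hη1
    nlinarith
  refine ⟨(η ^ 2 * e) ^ k₀, R₀, by positivity, pow_le_one₀ hθ.le hθ1, hR₀, ?_⟩
  intro X _ _ _ m hX hC a ha haα w R hR hRR₀ hw
  have hexp : ∀ c : ℝ, 0 ≤ c → Real.exp (Q * (c * R)) ≤ Real.exp (Q * (c * R₀)) := by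
    intro c hc
    refine Real.exp_le_exp.2 (mul_le_mul_of_nonneg_left ?_ hQ0)
    exact mul_le_mul_of_nonneg_left hRR₀ hc
  have hexp1 : Real.exp (Q * R) ≤ Real.exp (Q * R₀) := by
    have := hexp 1 zero_le_one; rwa [one_mul, one_mul] at this
  set ρ : ℕ → ℝ := fun k => (η ^ 2 * e) ^ k * R with hρ
  set r : ℕ → ℝ := fun k => R + ((k₀ : ℝ) - k) * (e * R) with hr
  set b : ℕ → ℝ := fun k => l ^ (k₀ - k) * (1 + 7 * d) with hb
  set W : ℕ → Set X := fun k => {y ∈ ball w (r k) | th n m (ρ k) y < b k * a} with hW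
  have hl1 : 1 ≤ l := by rw [hl]; linarith
  have hb8 : ∀ k, b k ≤ 1 + 8 * d := by
    intro k
    refine le_trans ?_ htl.le
    refine mul_le_mul_of_nonneg_right ?_ (by linarith)
    exact pow_le_pow_right₀ hl1 (Nat.sub_le _ _)
  have hstep : ∀ k, k < k₀ → (1 + ENNReal.ofReal c₅) * m (W (k + 1)) ≤ m (W k) := by
    intro k hk
    have hρk : 0 < ρ k := by simp only [hρ]; positivity
    have hρkR : ρ k ≤ R := by
      simp only [hρ]
      have := pow_le_one₀ (n := k) hθ.le hθ1
      nlinarith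
    have hbk : l * b (k + 1) = b k := by
      simp only [hb]
      have : k₀ - k = (k₀ - (k + 1)) + 1 := by omega
      rw [this, pow_succ]; ring
    have hρ1 : η ^ 2 * e * ρ k = ρ (k + 1) := by
      simp only [hρ]; rw [pow_succ]; ring
    have h := lemR_th_step (n := n) (m := m) hK hX (a := a) (b := b (k + 1)) (R := R) (ρ := ρ k)
      (l := l) (r := r k) (r' := r (k + 1)) (e := e) (d := d) hC (w := w) hη hη1 hζ₀ he he1 hρk
      hρkR ha hd₀
      (by
        have h1 : η * e * ρ k ≤ 1 * R := by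
          refine mul_le_mul ?_ hρkR hρk.le zero_le_one
          nlinarith
        linarith)
      (by
        refine le_trans ?_ hR1
        exact mul_le_mul_of_nonneg_left (hexp 3 (by norm_num)) (by positivity))
      (by
        rw [hbk]
        calc b k * a ≤ (1 + 8 * d) * α := mul_le_mul (hb8 k) haα ha.le (by linarith)
          _ < q := hα)
      (by
        refine le_trans ?_ hR2
        exact mul_le_mul (hb8 _) hexp1 (Real.exp_pos _).le (by linarith))
      (by
        simp only [hr]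
        have : e * ρ k ≤ e * R := mul_le_mul_of_nonneg_left hρkR he.le
        push_cast
        nlinarith)
      (by
        simp only [hr]
        have h1 : ((k₀ : ℝ) - k) * e ≤ 1 := by
          have : (0 : ℝ) ≤ k * e := by positivity
          nlinarith
        nlinarith)
      hw
      (by
        refine le_trans ?_ hR3
        exact mul_le_mul_of_nonneg_left (hexp 6 (by norm_num)) (by positivity))
    rw [hρ1, hbk] at h
    exact h
  have hind : ∀ k, k ≤ k₀ → (1 + ENNReal.ofReal c₅) ^ k * m (W k) ≤ m (W 0) := by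
    intro k
    induction k with
    | zero => intro _; simp
    | succ k ih =>
      intro hk
      calc (1 + ENNReal.ofReal c₅) ^ (k + 1) * m (W (k + 1))
          = (1 + ENNReal.ofReal c₅) ^ k * ((1 + ENNReal.ofReal c₅) * m (W (k + 1))) := by
            rw [pow_succ]; ring
        _ ≤ (1 + ENNReal.ofReal c₅) ^ k * m (W k) := by gcongr; exact hstep k hk
        _ ≤ m (W 0) := ih (by omega)
  have h0 : m (W 0) ≤ ENNReal.ofReal (3 ^ (n + 1)) * m (ball w R) := by
    calc m (W 0) ≤ m (ball w (2 * R)) := by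
          refine measure_mono fun y hy => ?_
          have h1 : dist y w < r 0 := hy.1
          have h2 : r 0 ≤ 2 * R := by simp only [hr]; push_cast; nlinarith
          rw [mem_ball]; linarith
      _ ≤ ENNReal.ofReal ((2 * R / R) ^ (n + 1) * Real.exp ((n + 1) * qK K (n + 1) *
            (2 * R - R))) * m (ball w R) := bg_ball' hK hX w hR (by linarith)
      _ ≤ ENNReal.ofReal (3 ^ (n + 1)) * m (ball w R) := by
          gcongr
          refine le_trans ?_ hR4
          have h1 : 2 * R / R = 2 := by field_simp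
          have h2 : 2 * R - R = R := by ring
          rw [h1, h2, ← hQ]
          exact mul_le_mul_of_nonneg_left hexp1 (by positivity)
  have hk := hind k₀ le_rfl
  have hWk : {y ∈ ball w R | th n m ((η ^ 2 * e) ^ k₀ * R) y < (1 + 7 * d) * a} = W k₀ := by
    simp only [hW, hr, hρ, hb]
    simp
  rw [hWk]
  have h1c : 1 + ENNReal.ofReal c₅ = ENNReal.ofReal (1 + c₅) := by
    rw [ENNReal.ofReal_add zero_le_one hc₅0.le, ENNReal.ofReal_one]
  rw [h1c, ← ENNReal.ofReal_pow (by linarith)] at hk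
  have hpos : 0 < (1 + c₅) ^ k₀ := by positivity
  have hfin : ENNReal.ofReal ((1 + c₅) ^ k₀) ≠ 0 := by simpa using hpos
  rw [← ENNReal.mul_le_mul_iff_right hfin ENNReal.ofReal_ne_top]
  calc ENNReal.ofReal ((1 + c₅) ^ k₀) * m (W k₀) ≤ m (W 0) := hk
    _ ≤ ENNReal.ofReal (3 ^ (n + 1)) * m (ball w R) := h0
    _ ≤ ENNReal.ofReal ((1 + c₅) ^ k₀ * ζ) * m (ball w R) := by gcongr
    _ = ENNReal.ofReal ((1 + c₅) ^ k₀) * (ENNReal.ofReal ζ * m (ball w R)) := by
        rw [ENNReal.ofReal_mul hpos.le, mul_assoc]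

end Pool.Agent.BDRY
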