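import Mathlib

/-!
# From a `1/2`-Hölder bound to a Lipschitz bound for a Markov semigroup

`P t x` are probability measures with the semigroup property; the action on functions is
`x ↦ ∫ φ d(P t x)`.
-/

set_option autoImplicit false

open MeasureTheory Set Filter Topology

namespace Pool.Agent.BDRY.B2

universe u

variable {X : Type u} [MetricSpace X]

/-- `ψ` is `L`-Lipschitz at scales `≥ r`. -/
def CLip (L r : ℝ) (ψ : X → ℝ) : Prop := ∀ x y, |ψ x - ψ y| ≤ L * max (dist x y) r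

/-- inf-convolution with `L * dist`. -/
noncomputable def infConv (L : ℝ) (ψ : X → ℝ) (x : X) : ℝ := ⨅ y, (ψ y + L * dist x y)

theorem infConv_bdd {L M : ℝ} {ψ : X → ℝ} (hL : 0 ≤ L) (hM : ∀ x, |ψ x| ≤ M) (x : X) :
    BddBelow (range fun y => ψ y + L * dist x y) := by
  refine ⟨-M, ?_⟩
  rintro _ ⟨y, rfl⟩
  have h1 := (abs_le.1 (hM y)).1
  have h2 : 0 ≤ L * dist x y := mul_nonneg hL dist_nonneg
  simp only
  linarith

theorem infConv_le {L M : ℝ} {ψ : X → ℝ} (hL : 0 ≤ L) (hM : ∀ x, |ψ x| ≤ M) (x : X) :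
    infConv L ψ x ≤ ψ x := by
  have h := ciInf_le (infConv_bdd hL hM x) x
  simpa [infConv] using h

theorem le_infConv {L r : ℝ} {ψ : X → ℝ} (hL : 0 ≤ L) (hr : 0 ≤ r)
    (h : CLip L r ψ) (x : X) : ψ x - L * r ≤ infConv L ψ x := by
  have : Nonempty X := ⟨x⟩
  refine le_ciInf fun y => ?_
  have h1 := (abs_le.1 (h x y)).2
  have h2 : max (dist x y) r ≤ dist x y + r :=
    max_le (by linarith) (by linarith [dist_nonneg (x := x) (y := y)])
  have h3 := mul_le_mul_of_nonneg_left h2 hL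
  linarith

theorem infConv_lip {L M : ℝ} {ψ : X → ℝ} (hL : 0 ≤ L) (hM : ∀ x, |ψ x| ≤ M) (x y : X) :
    |infConv L ψ x - infConv L ψ y| ≤ L * dist x y := by
  have : Nonempty X := ⟨x⟩
  have key : ∀ a b : X, infConv L ψ a - L * dist a b ≤ infConv L ψ b := by
    intro a b
    refine le_ciInf fun z => ?_
    have h1 := ciInf_le (infConv_bdd hL hM a) z
    have h2 : L * dist a z ≤ L * (dist a b + dist b z) :=
      mul_le_mul_of_nonneg_left (dist_triangle a b z) hL
    have h3 : infConv L ψ a ≤ ψ z + L * dist a z := h1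
    linarith
  have h1 := key x y
  have h2 := key y x
  rw [dist_comm y x] at h2
  rw [abs_le]
  constructor <;> linarith

theorem infConv_abs_le {L M : ℝ} {ψ : X → ℝ} (hL : 0 ≤ L) (hM : ∀ x, |ψ x| ≤ M) (x : X) :
    |infConv L ψ x| ≤ M := by
  have : Nonempty X := ⟨x⟩
  rw [abs_le]
  constructor
  · refine le_ciInf fun y => ?_
    have h1 := (abs_le.1 (hM y)).1
    have h2 : 0 ≤ L * dist x y := mul_nonneg hL dist_nonneg
    linarith
  · exact (infConv_le hL hM x).trans (abs_le.1 (hM x)).2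

theorem infConv_continuous {L M : ℝ} {ψ : X → ℝ} (hL : 0 ≤ L) (hM : ∀ x, |ψ x| ≤ M) :
    Continuous (infConv L ψ) := by
  have h : LipschitzWith (Real.toNNReal L) (infConv L ψ) := by
    refine LipschitzWith.of_dist_le_mul fun x y => ?_
    rw [Real.dist_eq, Real.coe_toNNReal _ hL]
    exact infConv_lip hL hM x y
  exact h.continuous

/-- The square root inequality. -/
theorem sqrt_aux {A r r' w ε m : ℝ} (hr' : 0 < r') (hw : 0 < w)
    (h : A * r ≤ ε * √(r' * w)) (hε : 0 ≤ ε) (hm : r' ≤ m) :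
    A * r * √(m / w) ≤ ε * m := by
  have hm0 : 0 < m := hr'.trans_le hm
  have h1 : √(r' * w) * √(m / w) = √(r' * m) := by
    rw [← Real.sqrt_mul (by positivity)]
    congr 1
    field_simp
  have h2 : √(r' * m) ≤ m := by
    rw [Real.sqrt_le_left hm0.le]
    nlinarith
  calc A * r * √(m / w) ≤ ε * √(r' * w) * √(m / w) :=
        mul_le_mul_of_nonneg_right h (Real.sqrt_nonneg _)
    _ = ε * √(r' * m) := by rw [mul_assoc, h1]
    _ ≤ ε * m := mul_le_mul_of_nonneg_left h2 hε

variable [MeasurableSpace X] [BorelSpace X]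

/-- The action of the kernel on functions. -/
noncomputable def Tk (P : ℝ → X → Measure X) (s : ℝ) (φ : X → ℝ) (x : X) : ℝ := ∫ y, φ y ∂(P s x)

/-- The hypotheses on the family of kernels. -/
structure BootHyp (A κ : ℝ) (P : ℝ → X → Measure X) : Prop where
  prob : ∀ s x, 0 < s → IsProbabilityMeasure (P s x)
  sgrp : ∀ s, 0 < s → ∀ (φ : X → ℝ), Measurable φ → ∀ M, (∀ x, |φ x| ≤ M) → ∀ x,
    Tk P (2 * s) φ x = Tk P s (Tk P s φ) x
  lip : ∀ s, 0 < s → s ≤ 1 → ∀ (φ : X → ℝ), Continuous φ → ∀ M, (∀ x, |φ x| ≤ M) → ∀ L, 0 ≤ L →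
    (∀ x y, |φ x - φ y| ≤ L * dist x y) → ∀ x y,
    |Tk P s φ x - Tk P s φ y| ≤ Real.exp (κ * s) * (L * dist x y)
  hol : ∀ s, 0 < s → s ≤ 1 → ∀ (φ : X → ℝ), Measurable φ → ∀ M, (∀ x, |φ x| ≤ M) → ∀ x y,
    |Tk P s φ x - Tk P s φ y| ≤ A * M * √(dist x y / √s)

namespace BootHyp

variable {A κ : ℝ} {P : ℝ → X → Measure X}

theorem Tk_abs_le (hP : BootHyp A κ P) {s : ℝ} (hs : 0 < s) {φ : X → ℝ} {M : ℝ}
    (hM : ∀ x, |φ x| ≤ M) (x : X) : |Tk P s φ x| ≤ M := by
  have := hP.prob s x hs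
  have hM0 : 0 ≤ M := (abs_nonneg _).trans (hM x)
  have h := norm_integral_le_of_norm_le_const (μ := P s x) (f := φ) (C := M)
    (Eventually.of_forall fun y => by simpa using hM y)
  simpa [Tk] using h

theorem Tk_continuous (hP : BootHyp A κ P) {s : ℝ} (hs : 0 < s) (hs1 : s ≤ 1)
    {φ : X → ℝ} (hφ : Measurable φ) {M : ℝ} (hM : ∀ x, |φ x| ≤ M) : Continuous (Tk P s φ) := by
  rw [continuous_iff_continuousAt]
  intro x
  rw [ContinuousAt, tendsto_iff_dist_tendsto_zero]
  have h0 : Tendsto (fun y : X => A * M * √(dist y x / √s)) (𝓝 x) (𝓝 0) := by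
    have h1 : Continuous fun y : X => A * M * √(dist y x / √s) := by fun_prop
    have h2 := h1.tendsto x
    simpa using h2
  refine squeeze_zero (fun _ => dist_nonneg) (fun y => ?_) h0
  rw [Real.dist_eq]
  exact hP.hol s hs hs1 φ hφ M hM y x

/-- One step. -/
theorem step (hP : BootHyp A κ P) (hA : 0 ≤ A) {s : ℝ} (hs : 0 < s) (hs1 : s ≤ 1)
    {ψ : X → ℝ} (hψ : Measurable ψ) {M : ℝ} (hM : ∀ x, |ψ x| ≤ M) {L r r' ε : ℝ} (hL : 0 ≤ L)
    (hr : 0 ≤ r) (hr' : 0 < r') (hε : 0 ≤ ε) (hε' : A * r ≤ ε * √(r' * √s))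
    (h : CLip L r ψ) : CLip (L * (Real.exp (κ * s) + ε)) r' (Tk P s ψ) := by
  intro x y
  set g := infConv L ψ with hg
  have hgc : Continuous g := infConv_continuous hL hM
  have hgM : ∀ x, |g x| ≤ M := infConv_abs_le hL hM
  have hdM : ∀ x, |ψ x - g x| ≤ L * r := by
    intro z
    have h1 := infConv_le hL hM z
    have h2 := le_infConv hL hr h z
    rw [abs_le]
    constructor
    · have : 0 ≤ L * r := by positivity
      linarith
    · linarith
  have hi : ∀ z, Integrable ψ (P s z) := fun z => by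
    have := hP.prob s z hs
    exact Integrable.of_bound hψ.aestronglyMeasurable M
      (Eventually.of_forall fun y => by simpa using hM y)
  have hig : ∀ z, Integrable g (P s z) := fun z => by
    have := hP.prob s z hs
    exact Integrable.of_bound hgc.measurable.aestronglyMeasurable M
      (Eventually.of_forall fun y => by simpa using hgM y)
  have hsplit : ∀ z, Tk P s ψ z = Tk P s (fun y => ψ y - g y) z + Tk P s g z := by
    intro z
    unfold Tk
    rw [integral_sub (hi z) (hig z)]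
    ring
  have h1 := hP.hol s hs hs1 (fun y => ψ y - g y) (hψ.sub hgc.measurable) (L * r) hdM x y
  have h2 := hP.lip s hs hs1 g hgc M hgM L hL (infConv_lip hL hM) x y
  set m := max (dist x y) r' with hm
  have hm1 : dist x y ≤ m := le_max_left _ _
  have hm2 : r' ≤ m := le_max_right _ _
  have hm0 : 0 < m := hr'.trans_le hm2
  have hsq : 0 < √s := Real.sqrt_pos.2 hs
  have h3 : √(dist x y / √s) ≤ √(m / √s) :=
    Real.sqrt_le_sqrt (div_le_div_of_nonneg_right hm1 hsq.le)
  have h4 := sqrt_aux hr' hsq hε' hε hm2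
  have h5 : A * (L * r) * √(dist x y / √s) ≤ L * (ε * m) := by
    calc A * (L * r) * √(dist x y / √s) ≤ A * (L * r) * √(m / √s) :=
          mul_le_mul_of_nonneg_left h3 (by positivity)
      _ = L * (A * r * √(m / √s)) := by ring
      _ ≤ L * (ε * m) := mul_le_mul_of_nonneg_left h4 hL
  have h6 : Real.exp (κ * s) * (L * dist x y) ≤ Real.exp (κ * s) * (L * m) :=
    mul_le_mul_of_nonneg_left (mul_le_mul_of_nonneg_left hm1 hL) (Real.exp_pos _).le
  rw [hsplit x, hsplit y]
  calc |Tk P s (fun y => ψ y - g y) x + Tk P s g x - (Tk P s (fun y => ψ y - g y) y + Tk P s g y)|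
      = |(Tk P s (fun y => ψ y - g y) x - Tk P s (fun y => ψ y - g y) y)
          + (Tk P s g x - Tk P s g y)| := by ring_nf
    _ ≤ |Tk P s (fun y => ψ y - g y) x - Tk P s (fun y => ψ y - g y) y|
          + |Tk P s g x - Tk P s g y| := abs_add_le _ _
    _ ≤ L * (ε * m) + Real.exp (κ * s) * (L * m) := add_le_add (h1.trans h5) (h2.trans h6)
    _ = L * (Real.exp (κ * s) + ε) * m := by ring

/-- The iteration. -/
theorem iter (hP : BootHyp A κ P) (hA : 0 ≤ A) (hκ : 0 ≤ κ) {s : ℝ} (hs : 0 < s) (hs1 : s ≤ 1)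
    {φ : X → ℝ} (hφ : Measurable φ) {M : ℝ} (hM : ∀ x, |φ x| ≤ M) (hM0 : 0 ≤ M) (k : ℕ) :
    ∃ ψ : X → ℝ, Measurable ψ ∧ (∀ x, |ψ x| ≤ M) ∧
      CLip (2 * M / √s * Real.exp (κ * (s - s / 2 ^ k) + 16 * A * (1 - 1 / 2 ^ k)))
        (√s / 16 ^ k) ψ ∧ ∀ x, Tk P s φ x = Tk P (s / 2 ^ k) ψ x := by
  have hsq : 0 < √s := Real.sqrt_pos.2 hs
  induction k with
  | zero =>
    refine ⟨φ, hφ, hM, ?_, fun x => by simp⟩
    intro x y
    have h1 : |φ x - φ y| ≤ 2 * M := by
      have := abs_sub (φ x) (φ y)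
      linarith [hM x, hM y]
    have h2 : √s ≤ max (dist x y) (√s / 16 ^ 0) := by simp
    have h3 : 2 * M ≤ 2 * M / √s * max (dist x y) (√s / 16 ^ 0) := by
      calc 2 * M = 2 * M / √s * √s := by field_simp
        _ ≤ _ := mul_le_mul_of_nonneg_left h2 (by positivity)
    simpa using h1.trans h3
  | succ k ih =>
    obtain ⟨ψ, hψ, hψM, hψL, hψT⟩ := ih
    set u := s / 2 ^ (k + 1) with hu
    have hu0 : 0 < u := by positivity
    have hpow : (1 : ℝ) ≤ 2 ^ (k + 1) := one_le_pow₀ (by norm_num)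
    have hu1 : u ≤ 1 := (div_le_self hs.le hpow).trans hs1
    have h2u : s / 2 ^ k = 2 * u := by
      rw [hu, pow_succ]
      field_simp
    refine ⟨Tk P u ψ, (hP.Tk_continuous hu0 hu1 hψ hψM).measurable, hP.Tk_abs_le hu0 hψM, ?_, ?_⟩
    · set L := 2 * M / √s * Real.exp (κ * (s - s / 2 ^ k) + 16 * A * (1 - 1 / 2 ^ k)) with hLdef
      have hL : 0 ≤ L := by positivity
      have hε0 : 0 ≤ 8 * A / 2 ^ k := by positivity
      have hε : A * (√s / 16 ^ k) ≤ 8 * A / 2 ^ k * √(√s / 16 ^ (k + 1) * √u) := by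
        have h1 : √s / 4 ^ (k + 1) ≤ √u := by
          rw [Real.le_sqrt' (div_pos hsq (by positivity)), div_pow, Real.sq_sqrt hs.le, hu]
          refine div_le_div_of_nonneg_left hs.le (by positivity) ?_
          rw [← pow_mul, mul_comm (k + 1) 2, pow_mul]
          exact pow_le_pow_left₀ (by norm_num) (by norm_num) _
        have h2 : √s / 8 ^ (k + 1) ≤ √(√s / 16 ^ (k + 1) * √u) := by
          rw [Real.le_sqrt' (div_pos hsq (by positivity))]
          have h3 : (√s / 8 ^ (k + 1)) ^ 2 = √s / 16 ^ (k + 1) * (√s / 4 ^ (k + 1)) := by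
            rw [div_pow, ← pow_mul, mul_comm (k + 1) 2, pow_mul, div_mul_div_comm, ← mul_pow]
            norm_num
            ring
          rw [h3]
          exact mul_le_mul_of_nonneg_left h1 (by positivity)
        calc A * (√s / 16 ^ k) = 8 * A / 2 ^ k * (√s / 8 ^ (k + 1)) := by
              have h16 : (16 : ℝ) ^ k = 2 ^ k * 8 ^ k := by
                rw [← mul_pow]
                norm_num
              rw [h16, pow_succ]
              field_simp
          _ ≤ _ := mul_le_mul_of_nonneg_left h2 hε0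
      have hstep := hP.step hA hu0 hu1 hψ hψM hL (by positivity) (by positivity) hε0 hε hψL
      intro x y
      refine (hstep x y).trans (mul_le_mul_of_nonneg_right ?_ (by positivity))
      have h5 : Real.exp (κ * u) + 8 * A / 2 ^ k ≤ Real.exp (κ * u + 8 * A / 2 ^ k) := by
        have h8 : 1 ≤ Real.exp (κ * u) := Real.one_le_exp (by positivity)
        have h9 : 8 * A / 2 ^ k + 1 ≤ Real.exp (8 * A / 2 ^ k) := Real.add_one_le_exp _
        rw [Real.exp_add]
        nlinarith [Real.exp_pos (κ * u)]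
      have h6 : κ * (s - s / 2 ^ (k + 1)) + 16 * A * (1 - 1 / 2 ^ (k + 1))
          = (κ * (s - s / 2 ^ k) + 16 * A * (1 - 1 / 2 ^ k)) + (κ * u + 8 * A / 2 ^ k) := by
        rw [hu, pow_succ]
        field_simp
        ring
      rw [h6, Real.exp_add, hLdef]
      have h7 := mul_le_mul_of_nonneg_left h5 hL
      rw [hLdef] at h7
      linarith
    · intro x
      rw [hψT x, h2u]
      exact hP.sgrp u hu0 ψ hψ M hψM x

/-- The Lipschitz bound. -/
theorem lipschitz (hP : BootHyp A κ P) (hA : 0 ≤ A) (hκ : 0 ≤ κ) {s : ℝ} (hs : 0 < s)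
    (hs1 : s ≤ 1) {φ : X → ℝ} (hφ : Measurable φ) {M : ℝ} (hM : ∀ x, |φ x| ≤ M) (x y : X) :
    |Tk P s φ x - Tk P s φ y| ≤ 2 * Real.exp (2 * κ + 16 * A) * M * dist x y / √s := by
  have hM0 : 0 ≤ M := (abs_nonneg _).trans (hM x)
  have hsq : 0 < √s := Real.sqrt_pos.2 hs
  set Λ := 2 * M / √s * Real.exp (κ + 16 * A) with hΛ
  have hΛ0 : 0 ≤ Λ := by positivity
  have main : ∀ k : ℕ, |Tk P s φ x - Tk P s φ y|
      ≤ Real.exp κ * (Λ * dist x y) + 2 * (Λ * (√s / 16 ^ k)) := by
    intro k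
    obtain ⟨ψ, hψ, hψM, hψL, hψT⟩ := hP.iter hA hκ hs hs1 hφ hM hM0 k
    set u := s / 2 ^ k with hu
    have hu0 : 0 < u := by positivity
    have hpow : (1 : ℝ) ≤ 2 ^ k := one_le_pow₀ (by norm_num)
    have hu1 : u ≤ 1 := (div_le_self hs.le hpow).trans hs1
    have hL : CLip Λ (√s / 16 ^ k) ψ := by
      intro a b
      refine (hψL a b).trans (mul_le_mul_of_nonneg_right ?_ (by positivity))
      rw [hΛ]
      refine mul_le_mul_of_nonneg_left (Real.exp_le_exp.2 ?_) (by positivity)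
      have h1 : κ * (s - u) ≤ κ := by
        have : κ * (s - u) ≤ κ * 1 := mul_le_mul_of_nonneg_left (by linarith) hκ
        linarith
      have h2 : 16 * A * (1 - 1 / 2 ^ k) ≤ 16 * A := by
        have h3 : (0 : ℝ) ≤ 1 / 2 ^ k := by positivity
        have : 16 * A * (1 - 1 / 2 ^ k) ≤ 16 * A * 1 :=
          mul_le_mul_of_nonneg_left (by linarith) (by positivity)
        linarith
      linarith
    set g := infConv Λ ψ with hg
    have hgc : Continuous g := infConv_continuous hΛ0 hψM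
    have hgM : ∀ x, |g x| ≤ M := infConv_abs_le hΛ0 hψM
    have hdM : ∀ z, |ψ z - g z| ≤ Λ * (√s / 16 ^ k) := by
      intro z
      have h1 := infConv_le hΛ0 hψM z
      have h2 := le_infConv hΛ0 (by positivity) hL z
      rw [abs_le]
      constructor
      · have : 0 ≤ Λ * (√s / 16 ^ k) := by positivity
        linarith
      · linarith
    have hi : ∀ z, Integrable ψ (P u z) := fun z => by
      have := hP.prob u z hu0
      exact Integrable.of_bound hψ.aestronglyMeasurable M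
        (Eventually.of_forall fun y => by simpa using hψM y)
    have hig : ∀ z, Integrable g (P u z) := fun z => by
      have := hP.prob u z hu0
      exact Integrable.of_bound hgc.measurable.aestronglyMeasurable M
        (Eventually.of_forall fun y => by simpa using hgM y)
    have hsplit : ∀ z, Tk P u ψ z = Tk P u (fun y => ψ y - g y) z + Tk P u g z := by
      intro z
      unfold Tk
      rw [integral_sub (hi z) (hig z)]
      ring
    have h1 := hP.Tk_abs_le hu0 (φ := fun y => ψ y - g y) hdM x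
    have h1' := hP.Tk_abs_le hu0 (φ := fun y => ψ y - g y) hdM y
    have h2 := hP.lip u hu0 hu1 g hgc M hgM Λ hΛ0 (infConv_lip hΛ0 hψM) x y
    have h3 : Real.exp (κ * u) * (Λ * dist x y) ≤ Real.exp κ * (Λ * dist x y) := by
      refine mul_le_mul_of_nonneg_right (Real.exp_le_exp.2 ?_) (by positivity)
      have : κ * u ≤ κ * 1 := mul_le_mul_of_nonneg_left hu1 hκ
      linarith
    rw [hψT x, hψT y, hsplit x, hsplit y]
    rw [abs_le] at h1 h1' h2 ⊢
    constructor <;> linarith [h1.1, h1.2, h1'.1, h1'.2, h2.1, h2.2]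
  have hlim : Tendsto (fun k : ℕ => Real.exp κ * (Λ * dist x y) + 2 * (Λ * (√s / 16 ^ k))) atTop
      (𝓝 (Real.exp κ * (Λ * dist x y) + 2 * (Λ * (√s * 0)))) := by
    refine Tendsto.const_add _ (Tendsto.const_mul _ (Tendsto.const_mul _ ?_))
    have h := tendsto_pow_atTop_nhds_zero_of_lt_one (r := (1 / 16 : ℝ)) (by norm_num) (by norm_num)
    have h2 := h.const_mul √s
    refine h2.congr fun k => ?_
    rw [one_div, inv_pow, div_eq_mul_inv]
  have h := ge_of_tendsto' hlim main
  refine h.trans (le_of_eq ?_)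
  rw [hΛ, show 2 * κ + 16 * A = κ + (κ + 16 * A) by ring, Real.exp_add κ (κ + 16 * A)]
  field_simp
  ring

end BootHyp

end Pool.Agent.BDRY.B2
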