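import Pool.Agent.Work.MP_209cb6_gt.B2.EntMix
import Pool.Agent.Work.MP_209cb6_gt.B2.OneStep

/-!
# BDRY2, block KER: a mixture of EVI flows is the flow of the mixture
-/

set_option autoImplicit false

open MeasureTheory MeasureTheory.Measure Metric Set Filter Topology
open scoped ENNReal NNReal

namespace Pool.Agent.BDRY

universe u

section

variable {X : Type u} [MetricSpace X] [MeasurableSpace X] {m μ : Measure X} {N : ℕ}

omit [MetricSpace X] in
theorem UN_pos_iff' : 0 < UN N m μ ↔ μ ≪ m ∧ Integrable (llr μ m) μ := by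
  by_cases h : μ ≪ m ∧ Integrable (llr μ m) μ
  · rw [UN, if_pos h]
    exact ⟨fun _ => h, fun _ => Real.exp_pos _⟩
  · rw [UN, if_neg h]
    exact ⟨fun h' => absurd h' (lt_irrefl _), fun h' => absurd h' h⟩

omit [MetricSpace X] in
theorem ent_eq_log_UN (hN : 0 < N) (h : 0 < UN N m μ) :
    ∫ x, llr μ m x ∂μ = -(N * Real.log (UN N m μ)) := by
  have h1 := UN_pos_iff'.1 h
  rw [UN, if_pos h1, Real.log_exp]
  have : (N : ℝ) ≠ 0 := by positivity
  field_simp

variable {ι : Type*} [Fintype ι] {w : ι → ℝ≥0∞}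

theorem isP2_mixM [OpensMeasurableSpace X] (hw : ∑ i, w i = 1) {μ : ι → Measure X}
    (hμ : ∀ i, IsP2 (μ i)) : IsP2 (mixM w μ) := by
  have hne : Nonempty ι := by
    by_contra h
    rw [not_nonempty_iff] at h
    simp at hw
  obtain ⟨i₀⟩ := hne
  obtain ⟨x, hx⟩ := (hμ i₀).2
  refine ⟨mixM_prob hw fun i => (hμ i).1, x, ?_⟩
  rw [mixM, lintegral_finsetSum_measure]
  refine ENNReal.sum_lt_top.2 fun i _ => ?_
  rw [lintegral_smul_measure]
  exact ENNReal.mul_lt_top (w_ne_top hw i).lt_top ((hμ i).lt_top x)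

theorem map_mixM {Y Z : Type*} [MeasurableSpace Y] [MeasurableSpace Z] {f : Y → Z}
    (hf : Measurable f) (w : ι → ℝ≥0∞) (μ : ι → Measure Y) :
    (∑ i, w i • μ i).map f = ∑ i, w i • (μ i).map f := by
  ext s hs
  rw [Measure.map_apply hf hs, Measure.finsetSum_apply, Measure.finsetSum_apply]
  refine Finset.sum_congr rfl fun i _ => ?_
  rw [Measure.smul_apply, Measure.smul_apply, Measure.map_apply hf hs]

theorem W2sq_mixM_le [OpensMeasurableSpace X] [SecondCountableTopology X] (hw : ∑ i, w i = 1)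
    {μ σ : ι → Measure X} (hμ : ∀ i, IsP2 (μ i)) (hσ : ∀ i, IsP2 (σ i)) :
    W2sq (mixM w μ) (mixM w σ) ≤ ∑ i, w i * W2sq (μ i) (σ i) := by
  refine ENNReal.le_of_forall_pos_le_add fun ε hε _ => ?_
  have hε' : (0 : ℝ≥0∞) < ε := by exact_mod_cast hε
  choose π h1 h2 h3 using fun i => exists_coupling' (hμ i) (hσ i) hε'
  refine (W2sq_le_of_coupling (∑ i, w i • π i) ?_ ?_).trans ?_
  · rw [map_mixM measurable_fst, mixM]
    exact Finset.sum_congr rfl fun i _ => by rw [h1]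
  · rw [map_mixM measurable_snd, mixM]
    exact Finset.sum_congr rfl fun i _ => by rw [h2]
  · rw [lintegral_finsetSum_measure]
    calc ∑ i, ∫⁻ z, edist z.1 z.2 ^ 2 ∂(w i • π i) ≤ ∑ i, w i * (W2sq (μ i) (σ i) + ε) := by
          refine Finset.sum_le_sum fun i _ => ?_
          rw [lintegral_smul_measure]
          exact mul_le_mul_right (h3 i).le (w i)
      _ = ∑ i, w i * W2sq (μ i) (σ i) + ε := by
          simp_rw [mul_add]
          rw [Finset.sum_add_distrib, ← Finset.sum_mul, hw, one_mul]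

theorem W2_mixM_sq_le [OpensMeasurableSpace X] [SecondCountableTopology X] (hw : ∑ i, w i = 1)
    {μ σ : ι → Measure X} (hμ : ∀ i, IsP2 (μ i)) (hσ : ∀ i, IsP2 (σ i)) :
    W2 (mixM w μ) (mixM w σ) ^ 2 ≤ ∑ i, (w i).toReal * W2 (μ i) (σ i) ^ 2 := by
  rw [W2_sq]
  have h := W2sq_mixM_le hw hμ hσ
  have hfin : ∀ i ∈ (Finset.univ : Finset ι), w i * W2sq (μ i) (σ i) ≠ ∞ := fun i _ =>
    (ENNReal.mul_lt_top (w_ne_top hw i).lt_top (W2sq_lt_top (hμ i) (hσ i))).ne
  have h1 := ENNReal.toReal_mono (ENNReal.sum_ne_top.2 hfin) h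
  rw [ENNReal.toReal_sum hfin] at h1
  refine h1.trans (le_of_eq (Finset.sum_congr rfl fun i _ => ?_))
  rw [ENNReal.toReal_mul, W2_sq]

end

section flow

variable {X : Type u} [MetricSpace X] [MeasurableSpace X] [BorelSpace X] [ProperSpace X]
  {K : ℝ} {N : ℕ} {m : Measure X} {ι : Type*} [Fintype ι] {w : ι → ℝ≥0∞} {μ : ι → ℝ → Measure X}

/-- one step of a mixture of flows -/
theorem mix_step [SigmaFinite m] (hK : K ≤ 0) (hN : 0 < N) (hw : ∑ i, w i = 1)
    (hw0 : ∀ i, w i ≠ 0) (h : ∀ i, IsEVIFlow K N m (μ i))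
    (hmono : ∀ i s t, 0 < s → s ≤ t → UN N m (μ i s) ≤ UN N m (μ i t)) {σ : Measure X}
    (hσ : IsP2 σ) (hσ0 : 0 < UN N m σ) {s τ : ℝ} (hs : 0 < s) (hτ : 0 ≤ τ) :
    0 < UN N m (mixM w fun i => μ i s) ∧
    W2 (mixM w fun i => μ i (s + τ)) σ ^ 2 ≤
      (1 + 3 * -K * JK K τ) * W2 (mixM w fun i => μ i s) σ ^ 2 +
      2 * N * JK K τ * (∑ i, (w i).toReal * Real.log (UN N m (μ i (s + τ))) -
        ∑ i, (w i).toReal * Real.log (UN N m (μ i s)) +
        Real.log (UN N m (mixM w fun i => μ i s)) - Real.log (UN N m σ)) := by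
  have hN' : (0 : ℝ) < N := Nat.cast_pos.2 hN
  have hJ0 := JK_nonneg hK hτ
  have hp : ∀ i t, 0 ≤ t → IsProbabilityMeasure (μ i t) := fun i t ht => ((h i).p2 t ht).1
  have hps : ∀ i, IsProbabilityMeasure (μ i s) := fun i => hp i s hs.le
  have hU : ∀ i t, 0 < t → 0 < UN N m (μ i t) := fun i t ht => (h i).dom t ht
  have hUs := fun i => UN_pos_iff'.1 (hU i s hs)
  obtain ⟨hMi, hMent⟩ := ent_mixM hw hw0 hps (fun i => (hUs i).1) (fun i => (hUs i).2)
  set M := mixM w fun i => μ i s with hM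
  have hMac : M ≪ m := mixM_ac fun i => (hUs i).1
  have hMU : 0 < UN N m M := UN_pos_iff'.2 ⟨hMac, hMi⟩
  refine ⟨hMU, ?_⟩
  have hMP : IsP2 M := isP2_mixM hw fun i => (h i).p2 s hs.le
  have hσU := UN_pos_iff'.1 hσ0
  have hσp := hσ.1
  have hMp := hMP.1
  refine le_of_forall_pos_le_add fun ε hε => ?_
  set δ := ε / (1 + 3 * -K * JK K τ) with hδ
  have hc0 : 0 < 1 + 3 * -K * JK K τ := by
    have : 0 ≤ 3 * -K * JK K τ := mul_nonneg (by linarith) hJ0
    linarith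
  have hδ0 : 0 < δ := div_pos hε hc0
  obtain ⟨π, h1, h2, h3, h4⟩ := exists_coupling hMP hσ hδ0
  have hπ : IsProbabilityMeasure π := by
    refine ⟨?_⟩
    have : π.map Prod.fst univ = 1 := by rw [h1]; exact measure_univ
    rwa [Measure.map_apply measurable_fst MeasurableSet.univ, preimage_univ] at this
  have hle : ∀ i, w i • μ i s ≤ M := fun i => smul_le_mixM w (fun i => μ i s) i
  have hacM : ∀ i, μ i s ≪ M := fun i => ac_of_smul_le (hw0 i) (hle i)
  have hacπ : ∀ i, μ i s ≪ π.map Prod.fst := fun i => by rw [h1]; exact hacM i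
  set P : ι → Measure (X × X) := fun i => partM π (μ i s) with hP
  have hPp : ∀ i, IsProbabilityMeasure (P i) := fun i => partM_prob (hacπ i)
  have hPf : ∀ i, (P i).map Prod.fst = μ i s := fun i => partM_fst (hacπ i)
  have hPm : mixM w P = π := mixM_partM hw hw0 hps h1
  set σ' : ι → Measure X := fun i => (P i).map Prod.snd with hσ'
  have hσ'p : ∀ i, IsProbabilityMeasure (σ' i) := fun i =>
    Measure.isProbabilityMeasure_map measurable_snd.aemeasurable
  have hσ'm : mixM w σ' = σ := by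
    rw [← h2]
    conv_rhs => rw [← hPm]
    rw [mixM, mixM, map_mixM measurable_snd]
  have hleσ : ∀ i, w i • σ' i ≤ σ := fun i => by rw [← hσ'm]; exact smul_le_mixM w σ' i
  -- costs
  have hPle : ∀ i, w i • P i ≤ π := fun i => by
    have := smul_le_mixM w P i
    rwa [hPm] at this
  have hcost : ∀ i, ∫⁻ z, edist z.1 z.2 ^ 2 ∂(P i) ≠ ∞ := by
    intro i hi
    have e1 : ∫⁻ z, edist z.1 z.2 ^ 2 ∂(w i • P i) ≤ ∫⁻ z, edist z.1 z.2 ^ 2 ∂π :=
      lintegral_mono' (hPle i) le_rfl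
    rw [lintegral_smul_measure, hi, smul_eq_mul, ENNReal.mul_top (hw0 i)] at e1
    exact h3 (top_le_iff.1 e1)
  have hσ'P : ∀ i, IsP2 (σ' i) := by
    intro i
    obtain ⟨x, hx⟩ := hσ.2
    refine ⟨hσ'p i, x, ?_⟩
    by_contra hcon
    rw [not_lt, top_le_iff] at hcon
    have e1 : ∫⁻ y, edist x y ^ 2 ∂(w i • σ' i) ≤ ∫⁻ y, edist x y ^ 2 ∂σ :=
      lintegral_mono' (hleσ i) le_rfl
    rw [lintegral_smul_measure, hcon, smul_eq_mul, ENNReal.mul_top (hw0 i)] at e1
    exact hx.ne (top_le_iff.1 e1)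
  have hint : ∀ i, Integrable (fun z : X × X => dist z.1 z.2 ^ 2) (P i) := by
    intro i
    refine ⟨by fun_prop, ?_⟩
    rw [hasFiniteIntegral_iff_ofReal (ae_of_all _ fun z => by positivity)]
    refine lt_of_le_of_lt (le_of_eq ?_) (hcost i).lt_top
    refine lintegral_congr fun z => ?_
    rw [edist_dist, ENNReal.ofReal_pow dist_nonneg]
  have hW : ∑ i, (w i).toReal * W2 (μ i s) (σ' i) ^ 2 ≤ W2 M σ ^ 2 + δ := by
    refine le_trans ?_ h4
    conv_rhs => rw [← hPm]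
    rw [integral_mixM hw hint]
    refine Finset.sum_le_sum fun i _ => ?_
    refine mul_le_mul_of_nonneg_left ?_ ENNReal.toReal_nonneg
    have := W2_le_of_coupling (hcost i)
    rwa [hPf i] at this
  -- entropies
  have hσ'c := fun i => ent_chain (hw0 i) (w_ne_top hw i) (hleσ i) hσU.1 hσU.2
  have hσ'ac : ∀ i, σ' i ≪ σ := fun i => ac_of_smul_le (hw0 i) (hleσ i)
  have hσ'U : ∀ i, 0 < UN N m (σ' i) := fun i =>
    UN_pos_iff'.2 ⟨(hσ'ac i).trans hσU.1, (hσ'c i).2.1⟩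
  obtain ⟨-, hσent⟩ := ent_mixM hw hw0 hσ'p (fun i => (UN_pos_iff'.1 (hσ'U i)).1)
    (fun i => (UN_pos_iff'.1 (hσ'U i)).2)
  rw [hσ'm] at hσent
  have hdp : ∀ i, ∫ y, llr (σ' i) σ y ∂(σ' i) ≤ ∫ x, llr (μ i s) M x ∂(μ i s) := by
    intro i
    have e := data_proc (hacπ i) (by rw [h2]; exact hσ'ac i)
      (by rw [h1]; exact llr_int_of_smul_le (hw0 i) (w_ne_top hw i) (hle i))
      (by rw [h2]; exact llr_int_of_smul_le (hw0 i) (w_ne_top hw i) (hleσ i))
    rw [h1, h2] at e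
    exact e
  have hE : ∑ i, (w i).toReal * (-Real.log (UN N m (σ' i))) ≤
      -Real.log (UN N m σ) - ∑ i, (w i).toReal * Real.log (UN N m (μ i s)) +
        Real.log (UN N m M) := by
    have e1 : ∑ i, (w i).toReal * ∫ x, llr (σ' i) m x ∂(σ' i) ≤
        ∫ x, llr σ m x ∂σ + ∑ i, (w i).toReal * ∫ x, llr (μ i s) m x ∂(μ i s) -
          ∫ x, llr M m x ∂M := by
      rw [hσent, hMent]
      have e2 : ∑ i, (w i).toReal * ∫ y, llr (σ' i) σ y ∂(σ' i) ≤
          ∑ i, (w i).toReal * ∫ x, llr (μ i s) M x ∂(μ i s) :=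
        Finset.sum_le_sum fun i _ => mul_le_mul_of_nonneg_left (hdp i) ENNReal.toReal_nonneg
      linarith
    have e3 : ∑ i, (w i).toReal * ∫ x, llr (σ' i) m x ∂(σ' i) =
        N * ∑ i, (w i).toReal * (-Real.log (UN N m (σ' i))) := by
      rw [Finset.mul_sum]
      refine Finset.sum_congr rfl fun i _ => ?_
      rw [ent_eq_log_UN hN (hσ'U i)]
      ring
    have e4 : ∑ i, (w i).toReal * ∫ x, llr (μ i s) m x ∂(μ i s) =
        N * -(∑ i, (w i).toReal * Real.log (UN N m (μ i s))) := by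
      rw [mul_neg, Finset.mul_sum, ← Finset.sum_neg_distrib]
      refine Finset.sum_congr rfl fun i _ => ?_
      rw [ent_eq_log_UN hN (hU i s hs)]
      ring
    rw [e3, e4, ent_eq_log_UN hN hσ0, ent_eq_log_UN hN hMU] at e1
    have e5 : (N : ℝ) * ∑ i, (w i).toReal * (-Real.log (UN N m (σ' i))) ≤
        N * (-Real.log (UN N m σ) - ∑ i, (w i).toReal * Real.log (UN N m (μ i s)) +
        Real.log (UN N m M)) := by linarith
    exact le_of_mul_le_mul_left e5 hN'
  -- the steps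
  have hstep : ∀ i, W2 (μ i (s + τ)) (σ' i) ^ 2 ≤ (1 + 3 * -K * JK K τ) * W2 (μ i s) (σ' i) ^ 2 +
      2 * N * JK K τ * (Real.log (UN N m (μ i (s + τ))) + -Real.log (UN N m (σ' i))) := by
    intro i
    have := (h i).one_step hK hN (hmono i) (hσ'P i) (hσ'U i) hs hτ
    linarith
  have hst : 0 ≤ s + τ := by linarith
  have hfinal : W2 (mixM w fun i => μ i (s + τ)) σ ^ 2 ≤
      ∑ i, (w i).toReal * W2 (μ i (s + τ)) (σ' i) ^ 2 := by
    have := W2_mixM_sq_le hw (μ := fun i => μ i (s + τ)) (σ := σ') (fun i => (h i).p2 _ hst) hσ'P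
    rwa [hσ'm] at this
  refine hfinal.trans ?_
  have hsum : ∑ i, (w i).toReal * W2 (μ i (s + τ)) (σ' i) ^ 2 ≤
      (1 + 3 * -K * JK K τ) * ∑ i, (w i).toReal * W2 (μ i s) (σ' i) ^ 2 +
      2 * N * JK K τ * (∑ i, (w i).toReal * Real.log (UN N m (μ i (s + τ))) +
        ∑ i, (w i).toReal * (-Real.log (UN N m (σ' i)))) := by
    rw [Finset.mul_sum, ← Finset.sum_add_distrib, Finset.mul_sum, ← Finset.sum_add_distrib]
    refine Finset.sum_le_sum fun i _ => ?_
    have := mul_le_mul_of_nonneg_left (hstep i) (ENNReal.toReal_nonneg (a := w i))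
    linarith
  refine hsum.trans ?_
  have f1 : (1 + 3 * -K * JK K τ) * ∑ i, (w i).toReal * W2 (μ i s) (σ' i) ^ 2 ≤
      (1 + 3 * -K * JK K τ) * W2 M σ ^ 2 + ε := by
    have := mul_le_mul_of_nonneg_left hW hc0.le
    rw [mul_add, hδ, mul_div_cancel₀ _ hc0.ne'] at this
    exact this
  have f2 := mul_le_mul_of_nonneg_left hE (show 0 ≤ 2 * N * JK K τ by positivity)
  linarith

end flow

end Pool.Agent.BDRY
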