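import Mathlib

/-!
# BDRY2, SYM: a measurable selection theorem

A closed relation with nonempty sections in a proper metric space has a measurable selection.
Corollary: exact measurable maximisers of `φ x - dist x y ^ 2 / (2 ε)`.
-/

set_option autoImplicit false

open Set Metric Filter Topology MeasureTheory

namespace Pool.Agent.BDRY

section sel

variable {X : Type*} [MetricSpace X] {Y : Type*}

theorem isClosed_meets [TopologicalSpace Y] {G : Set (X × Y)} (hG : IsClosed G) {F : Set X}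
    (hF : IsCompact F) : IsClosed {y | ∃ x ∈ F, (x, y) ∈ G} := by
  have : CompactSpace F := isCompact_iff_compactSpace.1 hF
  have h1 : IsClosed ((fun p : F × Y => ((p.1 : X), p.2)) ⁻¹' G) :=
    hG.preimage (by fun_prop)
  have h2 := (isClosedMap_snd_of_compactSpace (X := F) (Y := Y)) _ h1
  convert h2 using 1
  ext y
  constructor
  · rintro ⟨x, hx, hxy⟩
    exact ⟨(⟨x, hx⟩, y), hxy, rfl⟩
  · rintro ⟨⟨x, y'⟩, hxy, rfl⟩
    exact ⟨x, x.2, hxy⟩

/-- intersection of the closed balls coded by a list -/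
def selC (d : ℕ → X) : List ℕ → Set X
  | [] => univ
  | i :: h => selC d h ∩ closedBall (d i) ((1 / 2 : ℝ) ^ h.length)

theorem selC_closed (d : ℕ → X) (h : List ℕ) : IsClosed (selC d h) := by
  induction h with
  | nil => exact isClosed_univ
  | cons i h ih => exact ih.inter isClosed_closedBall

/-- the next index is admissible -/
def selP (G : Set (X × Y)) (d : ℕ → X) (h : List ℕ) (y : Y) (i : ℕ) : Prop :=
  (∃ x ∈ selC d (i :: h), (x, y) ∈ G) ∨ ¬ ∃ j, ∃ x ∈ selC d (j :: h), (x, y) ∈ G

theorem selP_ex (G : Set (X × Y)) (d : ℕ → X) (h : List ℕ) (y : Y) : ∃ i, selP G d h y i := by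
  by_cases hj : ∃ j, ∃ x ∈ selC d (j :: h), (x, y) ∈ G
  · obtain ⟨j, hj⟩ := hj
    exact ⟨j, Or.inl hj⟩
  · exact ⟨0, Or.inr hj⟩

open Classical in
/-- the least admissible index -/
noncomputable def selN (G : Set (X × Y)) (d : ℕ → X) (h : List ℕ) (y : Y) : ℕ :=
  Nat.find (selP_ex G d h y)

/-- the list of the first `k` indices -/
noncomputable def selH (G : Set (X × Y)) (d : ℕ → X) (y : Y) : ℕ → List ℕ
  | 0 => []
  | k + 1 => selN G d (selH G d y k) y :: selH G d y k

theorem selH_length (G : Set (X × Y)) (d : ℕ → X) (y : Y) (k : ℕ) :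
    (selH G d y k).length = k := by
  induction k with
  | zero => rfl
  | succ k ih => rw [selH, List.length_cons, ih]

theorem selH_inv (G : Set (X × Y)) {d : ℕ → X} (hd : DenseRange d) {y : Y}
    (hy : ∃ x, (x, y) ∈ G) (k : ℕ) : ∃ x ∈ selC d (selH G d y k), (x, y) ∈ G := by
  induction k with
  | zero => obtain ⟨x, hx⟩ := hy; exact ⟨x, mem_univ _, hx⟩
  | succ k ih =>
    obtain ⟨x, hx, hxy⟩ := ih
    have hex : ∃ j, ∃ x ∈ selC d (j :: selH G d y k), (x, y) ∈ G := by
      obtain ⟨j, hj⟩ := hd.exists_dist_lt x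
        (show (0 : ℝ) < (1 / 2 : ℝ) ^ (selH G d y k).length by positivity)
      exact ⟨j, x, ⟨hx, hj.le⟩, hxy⟩
    classical
    have h1 : selP G d (selH G d y k) y (selN G d (selH G d y k) y) :=
      Nat.find_spec (selP_ex G d (selH G d y k) y)
    rcases h1 with h1 | h1
    · exact h1
    · exact absurd hex h1

variable [TopologicalSpace Y] [MeasurableSpace Y] [OpensMeasurableSpace Y] [ProperSpace X]

theorem selN_meas {G : Set (X × Y)} (hG : IsClosed G) (d : ℕ → X) (h : List ℕ) :
    Measurable (selN G d h) := by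
  classical
  have h1 : ∀ i, MeasurableSet {y | ∃ x ∈ selC d (i :: h), (x, y) ∈ G} := by
    intro i
    refine (isClosed_meets hG ?_).measurableSet
    exact (isCompact_closedBall (d i) ((1 / 2 : ℝ) ^ h.length)).inter_left (selC_closed d h)
  refine measurable_find _ fun i => ?_
  refine (h1 i).union ?_
  refine MeasurableSet.compl ?_
  have : {y | ∃ j, ∃ x ∈ selC d (j :: h), (x, y) ∈ G} =
      ⋃ j, {y | ∃ x ∈ selC d (j :: h), (x, y) ∈ G} := by
    ext y; simp
  have h2 : MeasurableSet {y | ∃ j, ∃ x ∈ selC d (j :: h), (x, y) ∈ G} := by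
    rw [this]; exact MeasurableSet.iUnion h1
  exact h2

theorem selH_meas {G : Set (X × Y)} (hG : IsClosed G) (d : ℕ → X) (k : ℕ) (h : List ℕ) :
    MeasurableSet {y | selH G d y k = h} := by
  induction k generalizing h with
  | zero =>
    have : MeasurableSet {_y : Y | ([] : List ℕ) = h} := MeasurableSet.const _
    exact this
  | succ k ih =>
    cases h with
    | nil =>
      have : {y | selH G d y (k + 1) = []} = ∅ := by
        ext y; simp [selH]
      rw [this]; exact MeasurableSet.empty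
    | cons i h =>
      have : {y | selH G d y (k + 1) = i :: h} = {y | selN G d h y = i} ∩ {y | selH G d y k = h} := by
        ext y
        simp only [selH, List.cons.injEq, mem_ofPred_eq, mem_inter_iff]
        constructor
        · rintro ⟨h1, h2⟩; rw [h2] at h1; exact ⟨h1, h2⟩
        · rintro ⟨h1, h2⟩; rw [h2]; exact ⟨h1, rfl⟩
      rw [this]
      exact (selN_meas hG d h (measurableSet_singleton i)).inter (ih h)

/-- A closed relation with nonempty sections in a proper metric space has a measurable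
selection. -/
theorem exists_selection [MeasurableSpace X] [BorelSpace X] {G : Set (X × Y)} (hG : IsClosed G)
    (hne : ∀ y, ∃ x, (x, y) ∈ G) : ∃ S : Y → X, Measurable S ∧ ∀ y, (S y, y) ∈ G := by
  rcases isEmpty_or_nonempty Y with hY | ⟨⟨y₀⟩⟩
  · exact ⟨fun y => (hY.false y).elim, measurable_of_empty _, fun y => (hY.false y).elim⟩
  have : Nonempty X := ⟨(hne y₀).choose⟩
  let d : ℕ → X := TopologicalSpace.denseSeq X
  have hd : DenseRange d := TopologicalSpace.denseRange_denseSeq X
  let c : ℕ → Y → X := fun k y => d (selN G d (selH G d y k) y)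
  have hcm : ∀ k, Measurable (c k) := by
    intro k B hB
    have : c k ⁻¹' B = ⋃ h : List ℕ, {y | selH G d y k = h} ∩ {y | d (selN G d h y) ∈ B} := by
      ext y; simp [c]
    rw [this]
    refine MeasurableSet.iUnion fun h => (selH_meas hG d k h).inter ?_
    exact (measurable_from_nat (f := d)).comp (selN_meas hG d h) hB
  have hz : ∀ y k, ∃ z, (z, y) ∈ G ∧ dist z (c k y) ≤ (1 / 2) ^ k ∧
      dist z (c (k + 1) y) ≤ (1 / 2) ^ (k + 1) := by
    intro y k
    obtain ⟨z, hz, hzy⟩ := selH_inv G hd (hne y) (k + 2)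
    rw [selH, selC, selH, selC] at hz
    obtain ⟨⟨-, h1⟩, h2⟩ := hz
    refine ⟨z, hzy, ?_, ?_⟩
    · rw [selH_length] at h1
      exact h1
    · rw [List.length_cons, selH_length] at h2
      exact h2
  have hcau : ∀ y, ∃ x, Tendsto (fun k => c k y) atTop (𝓝 x) := by
    intro y
    refine cauchySeq_tendsto_of_complete (cauchySeq_of_le_geometric (1 / 2) 2 (by norm_num) ?_)
    intro k
    obtain ⟨z, -, h1, h2⟩ := hz y k
    have h3 := dist_triangle_left (c k y) (c (k + 1) y) z
    have h4 : (1 / 2 : ℝ) ^ (k + 1) = (1 / 2) ^ k / 2 := by rw [pow_succ]; ring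
    have h5 : (0 : ℝ) < (1 / 2) ^ k := by positivity
    linarith
  choose S hS using hcau
  refine ⟨S, measurable_of_tendsto_metrizable hcm (tendsto_pi_nhds.2 hS), fun y => ?_⟩
  choose z hz1 hz2 hz3 using hz y
  have h1 : Tendsto z atTop (𝓝 (S y)) := by
    refine (hS y).congr_dist ?_
    refine squeeze_zero (fun _ => dist_nonneg) (fun k => ?_)
      (tendsto_pow_atTop_nhds_zero_of_lt_one (by norm_num : (0 : ℝ) ≤ 1 / 2) (by norm_num))
    rw [dist_comm]; exact hz2 k
  exact hG.mem_of_tendsto (h1.prodMk_nhds tendsto_const_nhds)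
    (Eventually.of_forall fun k => hz1 k)

end sel

/-- Exact measurable maximisers of `φ x - dist x y ^ 2 / (2 ε)`. -/
theorem exists_argmax {X : Type*} [MetricSpace X] [ProperSpace X] [MeasurableSpace X]
    [BorelSpace X] {φ : X → ℝ} (hφ : Continuous φ) {M : ℝ} (hM : ∀ x, |φ x| ≤ M) {ε : ℝ}
    (hε : 0 < ε) : ∃ S : X → X, Measurable S ∧
      (∀ x y, φ x - dist x y ^ 2 / (2 * ε) ≤ φ (S y) - dist (S y) y ^ 2 / (2 * ε)) := by
  set G : Set (X × X) := {p | ∀ x, φ x - dist x p.2 ^ 2 / (2 * ε) ≤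
    φ p.1 - dist p.1 p.2 ^ 2 / (2 * ε)} with hG
  have hcl : IsClosed G := by
    have : G = ⋂ x, {p : X × X | φ x - dist x p.2 ^ 2 / (2 * ε) ≤
        φ p.1 - dist p.1 p.2 ^ 2 / (2 * ε)} := by
      ext p; simp [hG]
    rw [this]
    exact isClosed_iInter fun x => isClosed_le (by fun_prop) (by fun_prop)
  have hne : ∀ y, ∃ x, (x, y) ∈ G := by
    intro y
    -- the maximum is attained on a compact ball
    set R : ℝ := √(4 * M * ε) with hR
    have hM0 : 0 ≤ M := (abs_nonneg _).trans (hM y)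
    have hR0 : 0 ≤ R := Real.sqrt_nonneg _
    have hR2 : R ^ 2 = 4 * M * ε := Real.sq_sqrt (by positivity)
    obtain ⟨x, hx, hmax⟩ := (isCompact_closedBall y R).exists_isMaxOn
      ⟨y, mem_closedBall_self hR0⟩
      (f := fun x => φ x - dist x y ^ 2 / (2 * ε)) (by fun_prop)
    refine ⟨x, fun x' => ?_⟩
    by_cases h : x' ∈ closedBall y R
    · exact hmax h
    · have h1 : R < dist x' y := by simpa using h
      have h2 : R ^ 2 < dist x' y ^ 2 := pow_lt_pow_left₀ h1 hR0 (by norm_num)
      have h3 : 2 * M ≤ dist x' y ^ 2 / (2 * ε) := by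
        rw [le_div_iff₀ (by positivity)]
        nlinarith
      have h4 : φ y - dist y y ^ 2 / (2 * ε) ≤ φ x - dist x y ^ 2 / (2 * ε) :=
        hmax (mem_closedBall_self hR0)
      rw [dist_self] at h4
      have h5 := abs_le.1 (hM y)
      have h6 := abs_le.1 (hM x')
      have h7 : (0 : ℝ) ^ 2 / (2 * ε) = 0 := by simp
      show φ x' - dist x' y ^ 2 / (2 * ε) ≤ φ x - dist x y ^ 2 / (2 * ε)
      linarith
  obtain ⟨S, hS, hS2⟩ := exists_selection hcl hne
  exact ⟨S, hS, fun x y => hS2 y x⟩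

section argmax

variable {X : Type*} [MetricSpace X] {φ : X → ℝ} {ε : ℝ} {S : X → X}

theorem argmax_gain (h : ∀ x y, φ x - dist x y ^ 2 / (2 * ε) ≤ φ (S y) - dist (S y) y ^ 2 / (2 * ε))
    (y : X) : dist (S y) y ^ 2 / (2 * ε) ≤ φ (S y) - φ y := by
  have := h y y
  rw [dist_self] at this
  have h7 : (0 : ℝ) ^ 2 / (2 * ε) = 0 := by simp
  linarith

theorem argmax_dist (hε : 0 < ε)
    (h : ∀ x y, φ x - dist x y ^ 2 / (2 * ε) ≤ φ (S y) - dist (S y) y ^ 2 / (2 * ε)) {L : ℝ}
    (hL0 : 0 ≤ L) (hL : ∀ x y, |φ x - φ y| ≤ L * dist x y) (y : X) :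
    dist (S y) y ≤ 2 * ε * L := by
  have h1 := argmax_gain h y
  have h2 := (le_abs_self _).trans (hL (S y) y)
  have h3 : dist (S y) y ^ 2 / (2 * ε) ≤ L * dist (S y) y := h1.trans h2
  rw [div_le_iff₀ (by positivity)] at h3
  rcases eq_or_lt_of_le (dist_nonneg (x := S y) (y := y)) with h4 | h4
  · rw [← h4]
    positivity
  · nlinarith

end argmax

end Pool.Agent.BDRY
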