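import Mathlib

/-!
# Abstract end of the symmetry proof (note 4939, T7 and T8)
-/

set_option autoImplicit false

open MeasureTheory Filter Topology Set

namespace Pool.Agent.BDRY.B2.SymAbs

/-- T7, first half: a family of functions whose increments are squeezed between `B i φ ψ` and
`B i (φ + ψ) ψ`, where `B i φ ψ → b φ ψ` with `b` bilinear, has increments converging to
`b φ ψ + b ψ ψ / 2`. -/
theorem tendsto_incr {ι : Type*} {l : Filter ι} {D : Type*} [AddCommGroup D] [Module ℝ D]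
    (F : ι → D → ℝ) (B : ι → D → D → ℝ) (b : D →ₗ[ℝ] D →ₗ[ℝ] ℝ)
    (hB : ∀ φ ψ, Tendsto (fun i => B i φ ψ) l (𝓝 (b φ ψ)))
    (hlo : ∀ φ ψ, ∀ᶠ i in l, B i φ ψ ≤ F i (φ + ψ) - F i φ)
    (hup : ∀ φ ψ, ∀ᶠ i in l, F i (φ + ψ) - F i φ ≤ B i (φ + ψ) ψ) (φ ψ : D) :
    Tendsto (fun i => F i (φ + ψ) - F i φ) l (𝓝 (b φ ψ + b ψ ψ / 2)) := by
  have hsum : ∀ n : ℕ, 0 < n → ∀ i, F i (φ + ψ) - F i φ = ∑ k ∈ Finset.range n,
      (F i ((φ + ((k : ℝ) / n) • ψ) + ((1 : ℝ) / n) • ψ) - F i (φ + ((k : ℝ) / n) • ψ)) := by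
    intro n hn i
    have hn' : (n : ℝ) ≠ 0 := by positivity
    have h1 := Finset.sum_range_sub (fun k : ℕ => F i (φ + ((k : ℝ) / n) • ψ)) n
    have h2 : F i (φ + ψ) - F i φ = F i (φ + ((n : ℝ) / n) • ψ) - F i (φ + (((0 : ℕ) : ℝ) / n) • ψ) := by
      simp [div_self hn']
    rw [h2, ← h1]
    refine Finset.sum_congr rfl fun k _ => ?_
    have : φ + (((k + 1 : ℕ) : ℝ) / n) • ψ = (φ + ((k : ℝ) / n) • ψ) + ((1 : ℝ) / n) • ψ := by
      rw [add_assoc, ← add_smul]; congr 2; push_cast; ring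
    rw [this]
  have hk : ∀ n : ℕ, ∀ k ∈ Finset.range n,
      b (φ + ((k : ℝ) / n) • ψ) (((1 : ℝ) / n) • ψ) = b φ ψ / n + (k : ℝ) * (b ψ ψ / n ^ 2) := by
    intro n k _
    simp only [map_add, LinearMap.add_apply, map_smul, LinearMap.smul_apply, smul_eq_mul]
    ring
  have hk' : ∀ n : ℕ, ∀ k ∈ Finset.range n,
      b ((φ + ((k : ℝ) / n) • ψ) + ((1 : ℝ) / n) • ψ) (((1 : ℝ) / n) • ψ) =
        (b φ ψ / n + b ψ ψ / n ^ 2) + (k : ℝ) * (b ψ ψ / n ^ 2) := by
    intro n k _
    simp only [map_add, LinearMap.add_apply, map_smul, LinearMap.smul_apply, smul_eq_mul]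
    ring
  have hsk : ∀ n : ℕ, 0 < n → ∑ k ∈ Finset.range n, (k : ℝ) = n * (n - 1) / 2 := by
    intro n hn
    have h1 := Finset.sum_range_id_mul_two n
    have h2 : ((∑ k ∈ Finset.range n, k : ℕ) : ℝ) * 2 = n * (n - 1) := by
      have := congrArg (Nat.cast (R := ℝ)) h1
      rw [Nat.cast_mul, Nat.cast_mul, Nat.cast_sub hn] at this
      simpa using this
    push_cast at h2
    linarith
  have hlim1 : ∀ n : ℕ, 0 < n → Tendsto (fun i => ∑ k ∈ Finset.range n,
      B i (φ + ((k : ℝ) / n) • ψ) (((1 : ℝ) / n) • ψ)) l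
      (𝓝 (b φ ψ + b ψ ψ / 2 - b ψ ψ / (2 * n))) := by
    intro n hn
    have hn' : (n : ℝ) ≠ 0 := by positivity
    have h1 := tendsto_finsetSum (Finset.range n) fun k _ =>
      hB (φ + ((k : ℝ) / n) • ψ) (((1 : ℝ) / n) • ψ)
    rw [Finset.sum_congr rfl (hk n), Finset.sum_add_distrib, ← Finset.sum_mul, hsk n hn] at h1
    convert h1 using 2
    simp only [Finset.sum_const, Finset.card_range, nsmul_eq_mul]
    field_simp
    ring
  have hlim2 : ∀ n : ℕ, 0 < n → Tendsto (fun i => ∑ k ∈ Finset.range n,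
      B i ((φ + ((k : ℝ) / n) • ψ) + ((1 : ℝ) / n) • ψ) (((1 : ℝ) / n) • ψ)) l
      (𝓝 (b φ ψ + b ψ ψ / 2 + b ψ ψ / (2 * n))) := by
    intro n hn
    have hn' : (n : ℝ) ≠ 0 := by positivity
    have h1 := tendsto_finsetSum (Finset.range n) fun k _ =>
      hB ((φ + ((k : ℝ) / n) • ψ) + ((1 : ℝ) / n) • ψ) (((1 : ℝ) / n) • ψ)
    rw [Finset.sum_congr rfl (hk' n), Finset.sum_add_distrib, ← Finset.sum_mul, hsk n hn] at h1
    convert h1 using 2
    simp only [Finset.sum_const, Finset.card_range, nsmul_eq_mul]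
    field_simp
    ring
  have hsmall : ∀ e : ℝ, 0 < e → ∃ n : ℕ, 0 < n ∧ |b ψ ψ / (2 * n)| < e := by
    intro e he
    obtain ⟨n, hn⟩ := exists_nat_gt (|b ψ ψ| / (2 * e))
    have hn0 : (0 : ℝ) < n := lt_of_le_of_lt (by positivity) hn
    refine ⟨n, by exact_mod_cast hn0, ?_⟩
    rw [abs_div, abs_of_pos (by positivity : (0 : ℝ) < 2 * n), div_lt_iff₀ (by positivity)]
    rw [div_lt_iff₀ (by positivity)] at hn
    nlinarith
  rw [tendsto_order]
  constructor
  · intro a ha
    obtain ⟨n, hn, hne⟩ := hsmall (b φ ψ + b ψ ψ / 2 - a) (by linarith)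
    have h1 := (hlim1 n hn).eventually_const_lt
      (u := a) (by have := (abs_lt.1 hne).2; linarith)
    have h2 : ∀ᶠ i in l, ∀ k ∈ Finset.range n, B i (φ + ((k : ℝ) / n) • ψ) (((1 : ℝ) / n) • ψ) ≤
        F i ((φ + ((k : ℝ) / n) • ψ) + ((1 : ℝ) / n) • ψ) - F i (φ + ((k : ℝ) / n) • ψ) := by
      rw [Filter.eventually_all_finset]
      exact fun k _ => hlo _ _
    filter_upwards [h1, h2] with i h1 h2
    rw [hsum n hn i]
    exact h1.trans_le (Finset.sum_le_sum h2)
  · intro a ha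
    obtain ⟨n, hn, hne⟩ := hsmall (a - (b φ ψ + b ψ ψ / 2)) (by linarith)
    have h1 := (hlim2 n hn).eventually_lt_const
      (u := a) (by have := (abs_lt.1 hne).2; linarith)
    have h2 : ∀ᶠ i in l, ∀ k ∈ Finset.range n,
        F i ((φ + ((k : ℝ) / n) • ψ) + ((1 : ℝ) / n) • ψ) - F i (φ + ((k : ℝ) / n) • ψ) ≤
        B i ((φ + ((k : ℝ) / n) • ψ) + ((1 : ℝ) / n) • ψ) (((1 : ℝ) / n) • ψ) := by
      rw [Filter.eventually_all_finset]
      exact fun k _ => hup _ _
    filter_upwards [h1, h2] with i h1 h2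
    rw [hsum n hn i]
    exact (Finset.sum_le_sum h2).trans_lt h1

/-- T7: the bilinear form is symmetric. -/
theorem grad_symm {ι : Type*} {l : Filter ι} [l.NeBot] {D : Type*} [AddCommGroup D] [Module ℝ D]
    (F : ι → D → ℝ) (B : ι → D → D → ℝ) (b : D →ₗ[ℝ] D →ₗ[ℝ] ℝ)
    (hB : ∀ φ ψ, Tendsto (fun i => B i φ ψ) l (𝓝 (b φ ψ)))
    (hlo : ∀ φ ψ, ∀ᶠ i in l, B i φ ψ ≤ F i (φ + ψ) - F i φ)
    (hup : ∀ φ ψ, ∀ᶠ i in l, F i (φ + ψ) - F i φ ≤ B i (φ + ψ) ψ)
    (h0 : ∀ i, F i 0 = 0) (φ ψ : D) : b φ ψ = b ψ φ := by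
  have key := tendsto_incr F B b hB hlo hup
  have h1 : ∀ χ, Tendsto (fun i => F i χ) l (𝓝 (b χ χ / 2)) := by
    intro χ
    have := key 0 χ
    simpa [h0] using this
  have h2 := key φ ψ
  have h3 := (h1 (φ + ψ)).sub (h1 φ)
  have h4 := tendsto_nhds_unique h2 h3
  simp only [map_add, LinearMap.add_apply] at h4
  linarith

/-- T7 on a submodule, in function form: `b` is only given on pairs of elements of `D` and is
additive and homogeneous in each variable. -/
theorem grad_symm' {ι : Type*} {l : Filter ι} [l.NeBot] {V : Type*} [AddCommGroup V] [Module ℝ V]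
    (D : Submodule ℝ V) (F : ι → V → ℝ) (B : ι → V → V → ℝ) (b : V → V → ℝ)
    (hadd₁ : ∀ φ ∈ D, ∀ φ' ∈ D, ∀ ψ ∈ D, b (φ + φ') ψ = b φ ψ + b φ' ψ)
    (hsmul₁ : ∀ c : ℝ, ∀ φ ∈ D, ∀ ψ ∈ D, b (c • φ) ψ = c * b φ ψ)
    (hadd₂ : ∀ φ ∈ D, ∀ ψ ∈ D, ∀ ψ' ∈ D, b φ (ψ + ψ') = b φ ψ + b φ ψ')
    (hsmul₂ : ∀ c : ℝ, ∀ φ ∈ D, ∀ ψ ∈ D, b φ (c • ψ) = c * b φ ψ)
    (hB : ∀ φ ∈ D, ∀ ψ ∈ D, Tendsto (fun i => B i φ ψ) l (𝓝 (b φ ψ)))
    (hlo : ∀ φ ∈ D, ∀ ψ ∈ D, ∀ᶠ i in l, B i φ ψ ≤ F i (φ + ψ) - F i φ)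
    (hup : ∀ φ ∈ D, ∀ ψ ∈ D, ∀ᶠ i in l, F i (φ + ψ) - F i φ ≤ B i (φ + ψ) ψ)
    (h0 : ∀ i, F i 0 = 0) {φ ψ : V} (hφ : φ ∈ D) (hψ : ψ ∈ D) : b φ ψ = b ψ φ := by
  let b' : D →ₗ[ℝ] D →ₗ[ℝ] ℝ := LinearMap.mk₂ ℝ (fun φ ψ => b φ ψ)
    (fun φ φ' ψ => hadd₁ φ φ.2 φ' φ'.2 ψ ψ.2) (fun c φ ψ => hsmul₁ c φ φ.2 ψ ψ.2)
    (fun φ ψ ψ' => hadd₂ φ φ.2 ψ ψ.2 ψ' ψ'.2) (fun c φ ψ => hsmul₂ c φ φ.2 ψ ψ.2)
  exact grad_symm (D := D) (fun i φ => F i φ) (fun i φ ψ => B i φ ψ) b'
    (fun φ ψ => hB φ φ.2 ψ ψ.2) (fun φ ψ => hlo φ φ.2 ψ ψ.2) (fun φ ψ => hup φ φ.2 ψ ψ.2)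
    (fun i => h0 i) ⟨φ, hφ⟩ ⟨ψ, hψ⟩

/-- T8 for a continuous function on the plane. -/
theorem symm_of_double_aux (G : ℝ → ℝ → ℝ) (hG : Continuous (Function.uncurry G))
    (h : ∀ s r, 0 ≤ s → 0 ≤ r → ∫ v in (0 : ℝ)..s, (G v r - G v 0) =
      ∫ v in (0 : ℝ)..r, (G s v - G 0 v)) (T : ℝ) (hT : 0 ≤ T) : G T 0 = G 0 T := by
  have hc1 : ∀ r, Continuous fun v => G v r := fun r =>
    hG.comp (continuous_id.prodMk continuous_const)
  have hc2 : ∀ s, Continuous fun v => G s v := fun s =>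
    hG.comp (continuous_const.prodMk continuous_id)
  -- the integrated identity
  have hint : ∀ T : ℝ, 0 ≤ T → ∫ s in (0 : ℝ)..T, (G 0 (T - s) - G s 0) = 0 := by
    intro T hT
    set H : ℝ → ℝ := fun s => ∫ v in (0 : ℝ)..s, (G v (T - s) - G v 0) with hH
    have hHc : Continuous H := by
      have : Continuous (Function.uncurry fun (s v : ℝ) => G v (T - s) - G v 0) := by
        have h1 : Continuous fun p : ℝ × ℝ => G p.2 (T - p.1) :=
          hG.comp (continuous_snd.prodMk (continuous_const.sub continuous_fst))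
        have h2 : Continuous fun p : ℝ × ℝ => G p.2 0 :=
          hG.comp (continuous_snd.prodMk continuous_const)
        exact h1.sub h2
      exact intervalIntegral.continuous_parametric_intervalIntegral_of_continuous this
        continuous_id
    have hd : ∀ s ∈ Ioo 0 T, HasDerivAt H (G 0 (T - s) - G s 0) s := by
      intro s hs
      -- the first part
      have hA : HasDerivAt (fun s' => ∫ v in s..s', (G v (T - s') - G v 0))
          (G s (T - s) - G s 0) s := by
        rw [hasDerivAt_iff_isLittleO, Asymptotics.isLittleO_iff]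
        intro e he
        have h1 : ContinuousAt (fun p : ℝ × ℝ => G p.1 (T - p.2) - G p.1 0) (s, s) := by
          have h1 : Continuous fun p : ℝ × ℝ => G p.1 (T - p.2) :=
            hG.comp (continuous_fst.prodMk (continuous_const.sub continuous_snd))
          have h2 : Continuous fun p : ℝ × ℝ => G p.1 0 :=
            hG.comp (continuous_fst.prodMk continuous_const)
          exact (h1.sub h2).continuousAt
        obtain ⟨δ, hδ, hδ'⟩ := Metric.continuousAt_iff.1 h1 e he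
        filter_upwards [Metric.ball_mem_nhds s hδ] with s' hs'
        have hs'' : |s' - s| < δ := by simpa [Real.dist_eq] using hs'
        have hcont : Continuous fun v => G v (T - s') - G v 0 := (hc1 _).sub (hc1 _)
        have h3 : (∫ v in s..s', (G v (T - s') - G v 0)) - (∫ v in s..s, (G v (T - s) - G v 0)) -
            (s' - s) • (G s (T - s) - G s 0) =
            ∫ v in s..s', ((G v (T - s') - G v 0) - (G s (T - s) - G s 0)) := by
          rw [intervalIntegral.integral_sub (hcont.intervalIntegrable _ _)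
            (continuous_const.intervalIntegrable _ _)]
          simp only [intervalIntegral.integral_same, sub_zero, intervalIntegral.integral_const]
        rw [h3]
        refine intervalIntegral.norm_integral_le_of_norm_le_const fun v hv => ?_
        have hv' : |v - s| ≤ |s' - s| := by
          rcases le_total s s' with hss | hss
          · rw [uIoc_of_le hss] at hv
            rw [abs_of_nonneg (by linarith [hv.1]), abs_of_nonneg (by linarith)]
            linarith [hv.2]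
          · rw [uIoc_of_ge hss] at hv
            rw [abs_of_nonpos (by linarith [hv.2]), abs_of_nonpos (by linarith)]
            linarith [hv.1]
        have h4 := hδ' (x := (v, s')) (by
          rw [Prod.dist_eq]
          exact max_lt (by simpa [Real.dist_eq] using hv'.trans_lt hs'')
            (by simpa [Real.dist_eq] using hs''))
        rw [Real.norm_eq_abs]
        rw [Real.dist_eq] at h4
        exact h4.le
      -- the second part
      have hC : HasDerivAt (fun s' => ∫ v in (0 : ℝ)..(T - s'), (G s v - G 0 v))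
          (-(G s (T - s) - G 0 (T - s))) s := by
        have hcont : Continuous fun v => G s v - G 0 v := (hc2 _).sub (hc2 _)
        have h1 := intervalIntegral.integral_hasDerivAt_right
          (hcont.intervalIntegrable 0 (T - s)) (hcont.stronglyMeasurableAtFilter _ _)
          hcont.continuousAt
        have h2 : HasDerivAt (fun s' : ℝ => T - s') (-1) s := by
          simpa using (hasDerivAt_id s).const_sub T
        have h3 := h1.comp s h2
        have h4 : (-(G s (T - s) - G 0 (T - s)) : ℝ) = (G s (T - s) - G 0 (T - s)) * -1 := by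
          ring
        rw [h4]
        exact h3
      have hsum := hA.add hC
      have hval : (G s (T - s) - G s 0) + (-(G s (T - s) - G 0 (T - s))) =
          G 0 (T - s) - G s 0 := by ring
      rw [hval] at hsum
      refine hsum.congr_of_eventuallyEq ?_
      filter_upwards [Ioo_mem_nhds hs.1 hs.2] with s' hs'
      have hcont : Continuous fun v => G v (T - s') - G v 0 := (hc1 _).sub (hc1 _)
      have h1 : H s' = (∫ v in (0 : ℝ)..s, (G v (T - s') - G v 0)) +
          ∫ v in s..s', (G v (T - s') - G v 0) :=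
        (intervalIntegral.integral_add_adjacent_intervals (hcont.intervalIntegrable _ _)
          (hcont.intervalIntegrable _ _)).symm
      show H s' = (∫ v in s..s', (G v (T - s') - G v 0)) +
        ∫ v in (0 : ℝ)..(T - s'), (G s v - G 0 v)
      rw [h1, h s (T - s') hs.1.le (by linarith [hs'.2])]
      ring
    have hfc : Continuous fun s => G 0 (T - s) - G s 0 := by
      have h1 : Continuous fun s : ℝ => G 0 (T - s) :=
        hG.comp (continuous_const.prodMk (continuous_const.sub continuous_id))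
      exact h1.sub (hc1 0)
    have h1 := intervalIntegral.integral_eq_sub_of_hasDerivAt_of_le hT hHc.continuousOn hd
      (hfc.intervalIntegrable _ _)
    rw [h1]
    simp [hH]
  have hint' : ∀ T : ℝ, 0 ≤ T → ∫ v in (0 : ℝ)..T, (G 0 v - G v 0) = 0 := by
    intro T hT
    have h1 := hint T hT
    have hfc : Continuous fun s : ℝ => G 0 (T - s) :=
      hG.comp (continuous_const.prodMk (continuous_const.sub continuous_id))
    rw [intervalIntegral.integral_sub (hfc.intervalIntegrable _ _)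
      ((hc1 0).intervalIntegrable _ _)] at h1
    rw [intervalIntegral.integral_sub ((hc2 0).intervalIntegrable _ _)
      ((hc1 0).intervalIntegrable _ _)]
    have h2 := intervalIntegral.integral_comp_sub_left (fun v => G 0 v) T (a := 0) (b := T)
    rw [sub_self, sub_zero] at h2
    rw [← h2]
    exact h1
  rcases hT.eq_or_lt with rfl | hT
  · rfl
  have hcont : Continuous fun v => G 0 v - G v 0 := (hc2 0).sub (hc1 0)
  have h1 := intervalIntegral.integral_hasDerivAt_right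
    (hcont.intervalIntegrable 0 T) (hcont.stronglyMeasurableAtFilter _ _) hcont.continuousAt
  have h2 : HasDerivAt (fun u => ∫ v in (0 : ℝ)..u, (G 0 v - G v 0)) 0 T := by
    refine (hasDerivAt_const T (0 : ℝ)).congr_of_eventuallyEq ?_
    filter_upwards [Ioi_mem_nhds hT] with u hu
    exact hint' u (le_of_lt hu)
  have h3 := h1.unique h2
  linarith

/-- T8: `G` continuous on the closed quadrant with
`∫₀ˢ (G v r - G v 0) dv = ∫₀ʳ (G s v - G 0 v) dv` satisfies `G T 0 = G 0 T`. -/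
theorem symm_of_double_integral (G : ℝ → ℝ → ℝ)
    (hG : ContinuousOn (Function.uncurry G) (Ici 0 ×ˢ Ici 0))
    (h : ∀ s r, 0 ≤ s → 0 ≤ r → ∫ v in (0 : ℝ)..s, (G v r - G v 0) =
      ∫ v in (0 : ℝ)..r, (G s v - G 0 v)) (T : ℝ) (hT : 0 ≤ T) : G T 0 = G 0 T := by
  set G' : ℝ → ℝ → ℝ := fun v r => G (max v 0) (max r 0) with hG'
  have hc : Continuous (Function.uncurry G') := by
    have h1 : Continuous fun p : ℝ × ℝ => (max p.1 0, max p.2 0) :=
      (continuous_fst.max continuous_const).prodMk (continuous_snd.max continuous_const)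
    have h2 := hG.comp_continuous h1 (fun p => ⟨mem_Ici.2 (le_max_right _ _), mem_Ici.2 (le_max_right _ _)⟩)
    exact h2
  have h' : ∀ s r, 0 ≤ s → 0 ≤ r → ∫ v in (0 : ℝ)..s, (G' v r - G' v 0) =
      ∫ v in (0 : ℝ)..r, (G' s v - G' 0 v) := by
    intro s r hs hr
    have e1 : ∫ v in (0 : ℝ)..s, (G' v r - G' v 0) = ∫ v in (0 : ℝ)..s, (G v r - G v 0) := by
      refine intervalIntegral.integral_congr fun v hv => ?_
      rw [uIcc_of_le hs] at hv
      simp [hG', hv.1, hr]
    have e2 : ∫ v in (0 : ℝ)..r, (G' s v - G' 0 v) = ∫ v in (0 : ℝ)..r, (G s v - G 0 v) := by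
      refine intervalIntegral.integral_congr fun v hv => ?_
      rw [uIcc_of_le hr] at hv
      simp [hG', hv.1, hs]
    rw [e1, e2, h s r hs hr]
  have := symm_of_double_aux G' hc h' T hT
  simpa [hG', hT] using this

end Pool.Agent.BDRY.B2.SymAbs
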