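import Pool.Agent.Work.MP_209cb6_gt.B2.SymDef

/-!
# BDRY2, SYM: the semigroup on functions and the averages `A_r f = ∫_0^r P_v f dv`
-/

set_option autoImplicit false

open MeasureTheory MeasureTheory.Measure Metric Set Filter Topology
open scoped ENNReal NNReal

namespace Pool.Agent.BDRY

universe u

variable {X : Type u} [MetricSpace X] [MeasurableSpace X]

/-- `P_t f (x) = ∫ f dP_t(x)` -/
noncomputable def Pf (P : ℝ → X → Measure X) (f : X → ℝ) (t : ℝ) (x : X) : ℝ :=
  ∫ y, f y ∂(P t x)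

/-- `A_r f = ∫_0^r P_v f dv` -/
noncomputable def Ar (P : ℝ → X → Measure X) (f : X → ℝ) (r : ℝ) (x : X) : ℝ :=
  ∫ v in (0 : ℝ)..r, Pf P f v x

end Pool.Agent.BDRY
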