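import Pool.Agent.Work.MP_209cb6_gt.B2.LipP
import Pool.Agent.Work.MP_209cb6_gt.B2.SymGibbs
import Pool.Agent.Work.MP_209cb6_gt.B2.SymPf

/-!
# BDRY2, SYM: the averages `A_r f` are in the domain of the generator
-/

set_option autoImplicit false
set_option linter.unusedSectionVars false

open MeasureTheory MeasureTheory.Measure Metric Set Filter Topology
open scoped ENNReal NNReal

namespace Pool.Agent.BDRY

universe u

namespace SymDom

section pf

variable {X : Type u} [MetricSpace X] [MeasurableSpace X] [BorelSpace X] [ProperSpace X]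
  {K : ℝ} {N : ℕ} {m : Measure X} {P : ℝ → X → Measure X} {f : X → ℝ} {M L : ℝ}

theorem continuous_of_lip (hf : ∀ x y, |f x - f y| ≤ L * dist x y) : Continuous f := by
  have h1 : LipschitzWith (Real.toNNReal L) f := by
    refine LipschitzWith.of_dist_le_mul fun a b => ?_
    rw [Real.dist_eq]
    refine (hf a b).trans ?_
    gcongr
    exact Real.le_coe_toNNReal L
  exact h1.continuous

theorem Pf_zero (hP : EVIKer K N m P) (f : X → ℝ) (x : X) : Pf P f 0 x = f x := by
  rw [Pf, hP.zero, integral_dirac]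

theorem Pf_abs_le (hP : EVIKer K N m P) (hb : ∀ x, |f x| ≤ M) {t : ℝ} (ht : 0 ≤ t) (x : X) :
    |Pf P f t x| ≤ M := hP.abs_le ht x hb

/-- the modulus of continuity at time zero -/
noncomputable def om (K : ℝ) (N : ℕ) (L t : ℝ) : ℝ := (L + 1) * √(2 * N1 K N 0 * t)

theorem om_nonneg {K : ℝ} {N : ℕ} {L : ℝ} (hL : 0 ≤ L) (t : ℝ) : 0 ≤ om K N L t :=
  mul_nonneg (by linarith) (Real.sqrt_nonneg _)

theorem om_mono (hK : K ≤ 0) (hN : 0 < N) (hL : 0 ≤ L) {s t : ℝ} (hst : s ≤ t) :
    om K N L s ≤ om K N L t := by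
  have := N1_pos hK hN 0
  unfold om
  gcongr

theorem om_tendsto (K : ℝ) (N : ℕ) (L : ℝ) : Tendsto (om K N L) (𝓝 0) (𝓝 0) := by
  have h : Continuous (om K N L) := by unfold om; fun_prop
  have h2 := h.tendsto 0
  simpa [om] using h2

theorem Pf_sub_le (hK : K ≤ 0) (hN : 0 < N) (hX : IsRCD K N X m) (hP : EVIKer K N m P)
    (hL : 0 ≤ L) (hf : ∀ x y, |f x - f y| ≤ L * dist x y) {t : ℝ} (ht : 0 ≤ t) (ht1 : t ≤ 1)
    (x : X) : |Pf P f t x - f x| ≤ om K N L t := by
  rcases ht.eq_or_lt with h | h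
  · rw [← h, Pf_zero hP, sub_self, abs_zero]
    exact om_nonneg hL _
  · have hL1 : 0 < L + 1 := by linarith
    have h1 := (hP.flow _ (isP2_dirac x)).second_moment_le hK hN hX.finite_ball hX.pos_ball
      (y := x) (by rw [hP.bind_dirac le_rfl, hP.zero]) (z := x) (D := 0) (by rw [dist_self]) h ht1
    simp only [hP.bind_dirac ht, dist_self] at h1
    have h2 : W2 (P t x) (dirac x) ≤ √(2 * N1 K N 0 * t) := by
      apply Real.le_sqrt_of_sq_le
      linarith
    have h3 : LipschitzWith 1 fun z => f z / (L + 1) := by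
      refine LipschitzWith.of_dist_le_mul fun a b => ?_
      rw [Real.dist_eq, NNReal.coe_one, one_mul, ← sub_div, abs_div, abs_of_pos hL1,
        div_le_iff₀ hL1]
      have h4 := hf a b
      have h5 : (0 : ℝ) ≤ dist a b := dist_nonneg
      nlinarith
    have h4 := abs_integral_sub_le_W2 (hP.isP2_pt ht x) (isP2_dirac x) h3
    rw [integral_dirac, integral_div, ← sub_div, abs_div, abs_of_pos hL1, div_le_iff₀ hL1] at h4
    unfold om Pf
    nlinarith

theorem Pf_add (hP : EVIKer K N m P) (hfc : Continuous f) (hb : ∀ x, |f x| ≤ M) {s t : ℝ}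
    (hs : 0 ≤ s) (ht : 0 ≤ t) (x : X) : Pf P f (s + t) x = ∫ y, Pf P f t y ∂(P s x) := by
  have := hP.prob s hs x
  have h := (integral_bind_bdd (μ := P s x) (hP.meas t ht) (hP.prob t ht) hfc.measurable hb).2
  rw [← hP.sgrp s t hs ht x] at h
  exact h

theorem Pf_lip (hK : K ≤ 0) (hN : 0 < N) (hX : IsRCD K N X m) (hP : EVIKer K N m P)
    (hL : 0 ≤ L) (hf : ∀ x y, |f x - f y| ≤ L * dist x y) {t : ℝ} (ht : 0 ≤ t) (x y : X) :
    |Pf P f t x - Pf P f t y| ≤ L * Real.exp (-K * t) * dist x y :=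
  hP.lip hK hN hX.geod ht hL hf x y

theorem Pf_continuous (hK : K ≤ 0) (hN : 0 < N) (hX : IsRCD K N X m) (hP : EVIKer K N m P)
    (hL : 0 ≤ L) (hf : ∀ x y, |f x - f y| ≤ L * dist x y) {t : ℝ} (ht : 0 ≤ t) :
    Continuous (Pf P f t) := continuous_of_lip (Pf_lip hK hN hX hP hL hf ht)

theorem Pf_shift (hK : K ≤ 0) (hN : 0 < N) (hX : IsRCD K N X m) (hP : EVIKer K N m P)
    (hL : 0 ≤ L) (hf : ∀ x y, |f x - f y| ≤ L * dist x y) (hb : ∀ x, |f x| ≤ M) {s t : ℝ}
    (hs : 0 ≤ s) (ht : 0 ≤ t) (ht1 : t ≤ 1) (x : X) :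
    |Pf P f (s + t) x - Pf P f s x| ≤ om K N L t := by
  have hfc := continuous_of_lip hf
  have := hP.prob s hs x
  rw [Pf_add hP hfc hb hs ht, Pf, ← integral_sub]
  · have h1 := norm_integral_le_of_norm_le_const (μ := P s x) (f := fun y => Pf P f t y - f y)
      (C := om K N L t) (ae_of_all _ fun y => by
        rw [Real.norm_eq_abs]; exact Pf_sub_le hK hN hX hP hL hf ht ht1 y)
    simpa using h1
  · exact Integrable.of_bound (Pf_continuous hK hN hX hP hL hf ht).measurable.aestronglyMeasurable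
      M (ae_of_all _ fun y => Pf_abs_le hP hb ht y)
  · exact Integrable.of_bound hfc.measurable.aestronglyMeasurable M (ae_of_all _ hb)

theorem Pf_abs_sub (hK : K ≤ 0) (hN : 0 < N) (hX : IsRCD K N X m) (hP : EVIKer K N m P)
    (hL : 0 ≤ L) (hf : ∀ x y, |f x - f y| ≤ L * dist x y) (hb : ∀ x, |f x| ≤ M) {s t : ℝ}
    (hs : 0 ≤ s) (ht : 0 ≤ t) (hst : |t - s| ≤ 1) (x : X) :
    |Pf P f t x - Pf P f s x| ≤ om K N L |t - s| := by
  rcases le_total s t with h | h
  · rw [abs_of_nonneg (sub_nonneg.2 h)] at hst ⊢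
    have h1 := Pf_shift hK hN hX hP hL hf hb hs (sub_nonneg.2 h) hst x
    rwa [add_sub_cancel] at h1
  · rw [abs_of_nonpos (sub_nonpos.2 h), neg_sub] at hst ⊢
    have h1 := Pf_shift hK hN hX hP hL hf hb ht (sub_nonneg.2 h) hst x
    rwa [add_sub_cancel, abs_sub_comm] at h1

/-- joint continuity -/
theorem Pf_continuous₂ (hK : K ≤ 0) (hN : 0 < N) (hX : IsRCD K N X m) (hP : EVIKer K N m P)
    (hL : 0 ≤ L) (hf : ∀ x y, |f x - f y| ≤ L * dist x y) (hb : ∀ x, |f x| ≤ M) :
    Continuous fun p : ℝ × X => Pf P f (max p.1 0) p.2 := by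
  rw [continuous_iff_continuousAt]
  rintro ⟨t₀, x₀⟩
  rw [ContinuousAt, ← tendsto_sub_nhds_zero_iff]
  have hbd : Tendsto (fun p : ℝ × X => om K N L |max p.1 0 - max t₀ 0| +
      L * Real.exp (-K * max t₀ 0) * dist p.2 x₀) (𝓝 (t₀, x₀)) (𝓝 0) := by
    have h1 : Continuous fun p : ℝ × X => om K N L |max p.1 0 - max t₀ 0| +
        L * Real.exp (-K * max t₀ 0) * dist p.2 x₀ := by
      unfold om; fun_prop
    have h2 := h1.tendsto (t₀, x₀)
    simpa [om] using h2
  refine squeeze_zero_norm' ?_ hbd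
  have h3 : ∀ᶠ p : ℝ × X in 𝓝 (t₀, x₀), |max p.1 0 - max t₀ 0| < 1 := by
    have h4 : Continuous fun p : ℝ × X => |max p.1 0 - max t₀ 0| := by fun_prop
    exact (h4.tendsto (t₀, x₀)).eventually (gt_mem_nhds (by simp))
  filter_upwards [h3] with p hp
  rw [Real.norm_eq_abs]
  have e1 := Pf_abs_sub hK hN hX hP hL hf hb (le_max_right t₀ 0) (le_max_right p.1 0) hp.le p.2
  have e2 := Pf_lip hK hN hX hP hL hf (le_max_right t₀ 0) p.2 x₀
  calc |Pf P f (max p.1 0) p.2 - Pf P f (max t₀ 0) x₀|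
      = |(Pf P f (max p.1 0) p.2 - Pf P f (max t₀ 0) p.2) +
        (Pf P f (max t₀ 0) p.2 - Pf P f (max t₀ 0) x₀)| := by congr 1; ring
    _ ≤ _ := (abs_add_le _ _).trans (add_le_add e1 e2)

theorem Pf_continuousOn (hK : K ≤ 0) (hN : 0 < N) (hX : IsRCD K N X m) (hP : EVIKer K N m P)
    (hL : 0 ≤ L) (hf : ∀ x y, |f x - f y| ≤ L * dist x y) (hb : ∀ x, |f x| ≤ M) (x : X) :
    ContinuousOn (fun v => Pf P f v x) (Ici 0) := by
  have h := (Pf_continuous₂ hK hN hX hP hL hf hb).comp (f := fun v : ℝ => (v, x)) (by fun_prop)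
  refine h.continuousOn.congr fun v hv => ?_
  simp only [Function.comp_apply]
  rw [max_eq_left hv]

theorem Pf_intervalIntegrable (hK : K ≤ 0) (hN : 0 < N) (hX : IsRCD K N X m)
    (hP : EVIKer K N m P) (hL : 0 ≤ L) (hf : ∀ x y, |f x - f y| ≤ L * dist x y)
    (hb : ∀ x, |f x| ≤ M) (x : X) {a b : ℝ} (ha : 0 ≤ a) (hb' : 0 ≤ b) :
    IntervalIntegrable (fun v => Pf P f v x) volume a b := by
  refine ContinuousOn.intervalIntegrable ((Pf_continuousOn hK hN hX hP hL hf hb x).mono ?_)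
  intro v hv
  rw [mem_uIcc] at hv
  rcases hv with h | h
  · exact ha.trans h.1
  · exact hb'.trans h.1

theorem Ar_eq (P : ℝ → X → Measure X) (f : X → ℝ) {r : ℝ} (hr : 0 ≤ r) (x : X) :
    Ar P f r x = ∫ v in (0 : ℝ)..r, Pf P f (max v 0) x := by
  refine intervalIntegral.integral_congr fun v hv => ?_
  rw [uIcc_of_le hr] at hv
  rw [max_eq_left hv.1]

theorem Ar_abs_le (hP : EVIKer K N m P) (hb : ∀ x, |f x| ≤ M) {r : ℝ} (hr : 0 ≤ r) (x : X) :
    |Ar P f r x| ≤ r * M := by
  rw [Ar_eq P f hr]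
  have h := intervalIntegral.norm_integral_le_of_norm_le_const (a := (0 : ℝ)) (b := r)
    (f := fun v => Pf P f (max v 0) x) (C := M)
    (fun v _ => Pf_abs_le hP hb (le_max_right v 0) x)
  rw [sub_zero, abs_of_nonneg hr, Real.norm_eq_abs] at h
  linarith

theorem Ar_lip (hK : K ≤ 0) (hN : 0 < N) (hX : IsRCD K N X m) (hP : EVIKer K N m P)
    (hL : 0 ≤ L) (hf : ∀ x y, |f x - f y| ≤ L * dist x y) (hb : ∀ x, |f x| ≤ M) {r : ℝ}
    (hr : 0 ≤ r) (x y : X) :
    |Ar P f r x - Ar P f r y| ≤ r * (L * Real.exp (-K * r)) * dist x y := by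
  unfold Ar
  rw [← intervalIntegral.integral_sub (Pf_intervalIntegrable hK hN hX hP hL hf hb x le_rfl hr)
    (Pf_intervalIntegrable hK hN hX hP hL hf hb y le_rfl hr)]
  have h := intervalIntegral.norm_integral_le_of_norm_le_const (a := (0 : ℝ)) (b := r)
    (f := fun v => Pf P f v x - Pf P f v y) (C := L * Real.exp (-K * r) * dist x y)
    (fun v hv => by
      rw [uIoc_of_le hr] at hv
      rw [Real.norm_eq_abs]
      refine (Pf_lip hK hN hX hP hL hf hv.1.le x y).trans ?_
      have h1 : Real.exp (-K * v) ≤ Real.exp (-K * r) :=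
        Real.exp_le_exp.2 (mul_le_mul_of_nonneg_left hv.2 (by linarith))
      have h2 : (0 : ℝ) ≤ dist x y := dist_nonneg
      gcongr)
  rw [sub_zero, abs_of_nonneg hr, Real.norm_eq_abs] at h
  linarith

/-- Fubini and the semigroup property -/
theorem Pf_Ar (hK : K ≤ 0) (hN : 0 < N) (hX : IsRCD K N X m) (hP : EVIKer K N m P)
    (hL : 0 ≤ L) (hf : ∀ x y, |f x - f y| ≤ L * dist x y) (hb : ∀ x, |f x| ≤ M) {r t : ℝ}
    (hr : 0 ≤ r) (ht : 0 ≤ t) (x : X) :
    Pf P (Ar P f r) t x = ∫ v in (0 : ℝ)..r, Pf P f (t + v) x := by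
  have := hP.prob t ht x
  have hfc := continuous_of_lip hf
  have hc := Pf_continuous₂ hK hN hX hP hL hf hb
  have h1 : ∀ y, Ar P f r y = ∫ v in Ioc 0 r, Pf P f (max v 0) y := fun y => by
    rw [Ar_eq P f hr, intervalIntegral.integral_of_le hr]
  rw [Pf]
  simp only [h1]
  rw [integral_integral_swap]
  · rw [intervalIntegral.integral_of_le hr]
    refine setIntegral_congr_fun measurableSet_Ioc fun v hv => ?_
    rw [max_eq_left hv.1.le, Pf_add hP hfc hb ht hv.1.le]
  · have hc' : Continuous (Function.uncurry fun (y : X) (v : ℝ) => Pf P f (max v 0) y) :=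
      hc.comp (f := fun p : X × ℝ => (p.2, p.1)) (by fun_prop)
    refine Integrable.of_bound hc'.measurable.aestronglyMeasurable M (ae_of_all _ fun p => ?_)
    exact Pf_abs_le hP hb (le_max_right p.2 0) p.1

end pf

end SymDom

open SymDom

section dom

variable {X : Type u} [MetricSpace X] [MeasurableSpace X] [BorelSpace X] [ProperSpace X]
  {K : ℝ} {N : ℕ} {m : Measure X} {P : ℝ → X → Measure X} {f : X → ℝ} {M L : ℝ}

/-- **`A_r f` is in the domain of the generator, with `L A_r f = P_r f - f`** -/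
theorem dom_Ar (hK : K ≤ 0) (hN : 0 < N) (hX : IsRCD K N X m) (hP : EVIKer K N m P)
    (hL : 0 ≤ L) (hf : ∀ x y, |f x - f y| ≤ L * dist x y) (hb : ∀ x, |f x| ≤ M) {r : ℝ}
    (hr : 0 ≤ r) :
    Dom P (Ar P f r) (fun x => Pf P f r x - f x) (r * |M| + 2 * |M|)
      (r * (L * Real.exp (-K * r)) + L * Real.exp (-K * r) + L) := by
  have hb' : ∀ x, |f x| ≤ |M| := fun x => (hb x).trans (le_abs_self M)
  have hM0 : 0 ≤ |M| := abs_nonneg M
  have hLe : 0 ≤ L * Real.exp (-K * r) := mul_nonneg hL (Real.exp_pos _).le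
  refine ⟨fun x => ?_, fun x => ?_, fun x y => ?_, fun x y => ?_, fun δ hδ => ?_⟩
  · have := Ar_abs_le hP hb' hr x
    linarith
  · have h1 := Pf_abs_le hP hb' hr x
    have h2 := hb' x
    have h3 := abs_sub (Pf P f r x) (f x)
    have h4 : 0 ≤ r * |M| := mul_nonneg hr hM0
    linarith
  · have h1 := Ar_lip hK hN hX hP hL hf hb hr x y
    have h2 : (0 : ℝ) ≤ dist x y := dist_nonneg
    nlinarith [mul_nonneg hLe h2, mul_nonneg hL h2]
  · have h1 := Pf_lip hK hN hX hP hL hf hr x y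
    have h2 := hf x y
    have h3 : (0 : ℝ) ≤ dist x y := dist_nonneg
    have h4 : |Pf P f r x - f x - (Pf P f r y - f y)| ≤
        |Pf P f r x - Pf P f r y| + |f x - f y| := by
      have : Pf P f r x - f x - (Pf P f r y - f y) =
          (Pf P f r x - Pf P f r y) - (f x - f y) := by ring
      rw [this]
      exact abs_sub _ _
    nlinarith [mul_nonneg (mul_nonneg hr hLe) h3]
  · have h0 : Tendsto (fun t => 2 * om K N L t) (𝓝 0) (𝓝 0) := by
      have := (om_tendsto K N L).const_mul 2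
      simpa using this
    have h1 : ∀ᶠ t in 𝓝[>] (0 : ℝ), 2 * om K N L t < δ ∧ t < 1 :=
      (h0.eventually (gt_mem_nhds hδ)).filter_mono nhdsWithin_le_nhds |>.and
        ((gt_mem_nhds one_pos).filter_mono nhdsWithin_le_nhds)
    obtain ⟨t₀, ⟨ht₀, ht₁⟩, ht₂⟩ := (h1.and self_mem_nhdsWithin).exists
    have ht₂' : (0 : ℝ) < t₀ := ht₂
    refine ⟨t₀, ht₂', fun t ht htt x => ?_⟩
    have hi : ∀ {a b : ℝ}, 0 ≤ a → 0 ≤ b → IntervalIntegrable (fun v => Pf P f v x) volume a b :=
      fun ha hb' => Pf_intervalIntegrable hK hN hX hP hL hf hb x ha hb'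
    have e1 : ∫ y, Ar P f r y ∂(P t x) = ∫ v in t..(t + r), Pf P f v x := by
      have h2 := Pf_Ar hK hN hX hP hL hf hb hr ht.le x
      rw [Pf] at h2
      rw [h2, intervalIntegral.integral_comp_add_left (fun v => Pf P f v x) t, add_zero]
    have e2 : (∫ v in t..(t + r), Pf P f v x) - ∫ v in (0 : ℝ)..r, Pf P f v x =
        (∫ v in (0 : ℝ)..t, Pf P f (r + v) x) - ∫ v in (0 : ℝ)..t, Pf P f v x := by
      rw [intervalIntegral.integral_comp_add_left (fun v => Pf P f v x) r, add_zero]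
      have a1 := intervalIntegral.integral_add_adjacent_intervals
        (hi le_rfl ht.le) (hi ht.le (add_nonneg ht.le hr))
      have a2 := intervalIntegral.integral_add_adjacent_intervals
        (hi le_rfl hr) (hi hr (add_nonneg hr ht.le))
      rw [add_comm r t] at a2 ⊢
      linarith
    have hi2 : IntervalIntegrable (fun v => Pf P f (r + v) x) volume 0 t := by
      have h2 := (hi hr (add_nonneg hr ht.le)).comp_add_left r
      simpa using h2
    have e3 : ∫ y, Ar P f r y ∂(P t x) - Ar P f r x - t * (Pf P f r x - f x) =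
        ∫ v in (0 : ℝ)..t, ((Pf P f (r + v) x - Pf P f r x) - (Pf P f v x - f x)) := by
      rw [intervalIntegral.integral_sub (hi2.sub intervalIntegrable_const)
        ((hi le_rfl ht.le).sub intervalIntegrable_const),
        intervalIntegral.integral_sub hi2 intervalIntegrable_const,
        intervalIntegral.integral_sub (hi le_rfl ht.le) intervalIntegrable_const,
        intervalIntegral.integral_const, intervalIntegral.integral_const, sub_zero, smul_eq_mul,
        smul_eq_mul, e1]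
      unfold Ar
      linarith
    rw [e3]
    have h4 := intervalIntegral.norm_integral_le_of_norm_le_const (a := (0 : ℝ)) (b := t)
      (f := fun v => (Pf P f (r + v) x - Pf P f r x) - (Pf P f v x - f x))
      (C := 2 * om K N L t₀)
      (fun v hv => by
        rw [uIoc_of_le ht.le] at hv
        have hv1 : v ≤ 1 := by linarith [hv.2]
        have b1 := Pf_shift hK hN hX hP hL hf hb hr hv.1.le hv1 x
        have b2 := Pf_sub_le hK hN hX hP hL hf hv.1.le hv1 x
        have b3 : om K N L v ≤ om K N L t₀ := om_mono hK hN hL (hv.2.trans htt)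
        rw [Real.norm_eq_abs]
        refine (abs_sub _ _).trans ?_
        linarith)
    rw [sub_zero, abs_of_nonneg ht.le, Real.norm_eq_abs] at h4
    refine h4.trans ?_
    gcongr

end dom

end Pool.Agent.BDRY
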