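import Pool.Agent.Work.MP_209cb6_gt.B2.SymG
import Pool.Agent.Work.MP_209cb6_gt.B2.Kernel
import Pool.Agent.Work.MP_209cb6_gt.B2.EndDefs

/-!
# BDRY2, SYM: from Lipschitz functions to Borel sets; the symmetric heat kernel
-/

set_option autoImplicit false

open MeasureTheory MeasureTheory.Measure Metric Set Filter Topology
open scoped ENNReal NNReal

namespace Pool.Agent.BDRY

universe u

section approx

variable {X : Type u} [MetricSpace X]

/-- Lipschitz approximation of the indicator of `A` -/
noncomputable def uA (A : Set X) (k : ℕ) (x : X) : ℝ := max 0 (1 - ((k : ℝ) + 1) * infDist x A)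

theorem uA_nonneg (A : Set X) (k : ℕ) (x : X) : 0 ≤ uA A k x := le_max_left _ _

theorem uA_le_one (A : Set X) (k : ℕ) (x : X) : uA A k x ≤ 1 := by
  have h1 : 0 ≤ ((k : ℝ) + 1) * infDist x A := mul_nonneg (by positivity) infDist_nonneg
  exact max_le zero_le_one (by linarith)

theorem uA_abs_le (A : Set X) (k : ℕ) (x : X) : |uA A k x| ≤ 1 := by
  rw [abs_of_nonneg (uA_nonneg A k x)]
  exact uA_le_one A k x

theorem uA_lip (A : Set X) (k : ℕ) (x y : X) :
    |uA A k x - uA A k y| ≤ ((k : ℝ) + 1) * dist x y := by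
  have h1 : |infDist x A - infDist y A| ≤ dist x y := by
    have := (lipschitz_infDist_pt A).dist_le_mul x y
    simpa [Real.dist_eq] using this
  calc |uA A k x - uA A k y|
      ≤ max |(0 : ℝ) - 0| |(1 - ((k : ℝ) + 1) * infDist x A) - (1 - ((k : ℝ) + 1) * infDist y A)| :=
        abs_max_sub_max_le_max _ _ _ _
    _ = ((k : ℝ) + 1) * |infDist x A - infDist y A| := by
        rw [sub_self, abs_zero, max_eq_right (abs_nonneg _),
          show (1 - ((k : ℝ) + 1) * infDist x A) - (1 - ((k : ℝ) + 1) * infDist y A) =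
            -(((k : ℝ) + 1) * (infDist x A - infDist y A)) by ring, abs_neg, abs_mul,
          abs_of_pos (by positivity : (0 : ℝ) < (k : ℝ) + 1)]
    _ ≤ _ := by gcongr

theorem uA_supp {o : X} {A : Set X} {R : ℝ} (hA : A ⊆ closedBall o R) (hne : A.Nonempty) (k : ℕ)
    (x : X) (hx : R + 1 < dist o x) : uA A k x = 0 := by
  have h1 : 1 ≤ infDist x A := by
    rw [le_infDist hne]
    intro a ha
    have h2 := hA ha
    rw [mem_closedBall] at h2
    have h3 := dist_triangle x a o
    rw [dist_comm x o] at h3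
    linarith
  refine max_eq_left ?_
  have h2 : (0 : ℝ) ≤ k := Nat.cast_nonneg k
  nlinarith

theorem uA_tendsto {A : Set X} (hA : IsClosed A) (hne : A.Nonempty) (x : X) :
    Tendsto (fun k => uA A k x) atTop (𝓝 (A.indicator (fun _ => (1 : ℝ)) x)) := by
  by_cases hx : x ∈ A
  · rw [indicator_of_mem hx]
    refine tendsto_const_nhds.congr fun k => ?_
    rw [uA, infDist_zero_of_mem hx, mul_zero, sub_zero, max_eq_right zero_le_one]
  · rw [indicator_of_notMem hx]
    have hpos : 0 < infDist x A := (hA.notMem_iff_infDist_pos hne).1 hx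
    refine tendsto_const_nhds.congr' ?_
    obtain ⟨k₀, hk₀⟩ := exists_nat_gt (1 / infDist x A)
    filter_upwards [eventually_ge_atTop k₀] with k hk
    symm
    refine max_eq_left ?_
    have h1 : (k₀ : ℝ) ≤ k := by exact_mod_cast hk
    rw [div_lt_iff₀ hpos] at hk₀
    nlinarith

theorem uA_lipSupp {o : X} {A : Set X} {R : ℝ} (hA : A ⊆ closedBall o R) (hne : A.Nonempty)
    (k : ℕ) : LipSupp o (uA A k) ((k : ℝ) + 1) 1 (R + 1) :=
  ⟨by positivity, uA_abs_le A k, uA_lip A k, uA_supp hA hne k⟩

end approx

section ext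

variable {X : Type u} [MetricSpace X] [MeasurableSpace X] [BorelSpace X] [ProperSpace X]

/-- measures which are finite on balls and agree on compact sets are equal -/
theorem ext_of_compact {μ ν : Measure X} (o : X) (hfin : ∀ k : ℕ, μ (closedBall o k) ≠ ∞)
    (h : ∀ A, IsCompact A → μ A = ν A) : μ = ν := by
  refine Measure.ext_of_generateFrom_of_iUnion {A : Set X | IsClosed A}
    (fun k : ℕ => closedBall o (k : ℝ)) ?_ isPiSystem_isClosed ?_ (fun k => isClosed_closedBall)
    hfin ?_
  · exact (BorelSpace.measurable_eq (α := X)).trans borel_eq_generateFrom_isClosed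
  · ext x
    simp only [mem_iUnion, mem_univ, iff_true]
    obtain ⟨k, hk⟩ := exists_nat_ge (dist x o)
    exact ⟨k, hk⟩
  · intro A hA
    have h1 : A = ⋃ k : ℕ, (A ∩ closedBall o (k : ℝ)) := by
      ext x
      simp only [mem_iUnion, mem_inter_iff, exists_and_left]
      constructor
      · intro hx
        obtain ⟨k, hk⟩ := exists_nat_ge (dist x o)
        exact ⟨hx, k, hk⟩
      · exact fun hx => hx.1
    have hm : Monotone fun k : ℕ => A ∩ closedBall o (k : ℝ) := by
      intro i j hij
      exact inter_subset_inter_right _ (closedBall_subset_closedBall (by exact_mod_cast hij))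
    rw [h1, hm.measure_iUnion, hm.measure_iUnion]
    congr 1
    funext k
    exact h _ ((isCompact_closedBall o _).inter_left hA)

end ext

section fin

variable {X : Type u} [MetricSpace X] [MeasurableSpace X] [BorelSpace X] {K : ℝ} {n : ℕ}
  {m : Measure X} {P : ℝ → X → Measure X}

/-- symmetry on Lipschitz functions of bounded support -/
def LipSymm (m : Measure X) (P : ℝ → X → Measure X) : Prop :=
  ∀ (o : X) (f g : X → ℝ) (L M R L' M' R' : ℝ), LipSupp o f L M R → LipSupp o g L' M' R' →
    (∀ x, 0 ≤ f x) → (∀ x, 0 ≤ g x) → ∀ t, 0 < t →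
    ∫ x, g x * Pf P f t x ∂m = ∫ x, f x * Pf P g t x ∂m

theorem tendsto_uA (hX : IsRCD K (n + 1) X m) (hP : EVIKer K (n + 1) m P) {t : ℝ} (ht : 0 < t)
    (o : X) {A B : Set X} {R : ℝ} (hA : IsClosed A) (hB : IsClosed B) (hAR : A ⊆ closedBall o R)
    (hAne : A.Nonempty) (hBne : B.Nonempty) :
    Tendsto (fun k => ∫ x, uA A k x * Pf P (uA B k) t x ∂m) atTop
      (𝓝 (∫⁻ x in A, P t x B ∂m).toReal) := by
  have hPm := hP.meas t ht.le
  have hPB : Measurable fun x => P t x B := (Measure.measurable_coe hB.measurableSet).comp hPm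
  have e1 : (∫⁻ x in A, P t x B ∂m).toReal =
      ∫ x, A.indicator (fun _ => (1 : ℝ)) x * (P t x).real B ∂m := by
    have h1 : ∀ x, A.indicator (fun _ => (1 : ℝ)) x * (P t x).real B =
        A.indicator (fun x => (P t x B).toReal) x := by
      intro x
      by_cases hx : x ∈ A
      · simp [hx, measureReal_def]
      · simp [hx]
    simp only [h1]
    rw [integral_indicator hA.measurableSet, integral_toReal hPB.aemeasurable]
    refine ae_of_all _ fun x => ?_
    have := hP.prob t ht.le x
    exact measure_lt_top _ _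
  rw [e1]
  have hcl : MeasurableSet (closedBall o (R + 1)) := isClosed_closedBall.measurableSet
  refine tendsto_integral_of_dominated_convergence
    (bound := (closedBall o (R + 1)).indicator fun _ => (1 : ℝ)) ?_ ?_ ?_ ?_
  · intro k
    have c1 : Continuous (uA A k) := cont_of_lip (by positivity) (uA_lip A k)
    have c2 : Continuous (uA B k) := cont_of_lip (by positivity) (uA_lip B k)
    have c3 : StronglyMeasurable fun x => ∫ y, uA B k y ∂(P t x) := by
      have h1 : Measurable fun x => ∫⁻ y, ENNReal.ofReal (uA B k y) ∂(P t x) :=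
        (Measure.measurable_lintegral (c2.measurable.ennreal_ofReal)).comp hPm
      have h2 : (fun x => ∫ y, uA B k y ∂(P t x)) =
          fun x => (∫⁻ y, ENNReal.ofReal (uA B k y) ∂(P t x)).toReal := by
        funext x
        exact integral_eq_lintegral_of_nonneg_ae (ae_of_all _ (uA_nonneg B k))
          c2.aestronglyMeasurable
      rw [h2]
      exact h1.ennreal_toReal.stronglyMeasurable
    exact c1.aestronglyMeasurable.mul c3.aestronglyMeasurable
  · exact (integrable_indicator_iff hcl).2 (integrableOn_const (hX.finite_ball o _).ne)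
  · intro k
    refine ae_of_all _ fun x => ?_
    rw [norm_mul, Real.norm_eq_abs, Real.norm_eq_abs]
    by_cases hx : x ∈ closedBall o (R + 1)
    · rw [indicator_of_mem hx]
      calc |uA A k x| * |Pf P (uA B k) t x| ≤ 1 * 1 :=
            mul_le_mul (uA_abs_le A k x) (Pf_abs_le hP (uA_abs_le B k) ht.le x) (abs_nonneg _)
              zero_le_one
        _ = 1 := one_mul 1
    · rw [indicator_of_notMem hx]
      rw [mem_closedBall, not_le, dist_comm] at hx
      rw [uA_supp hAR hAne k x hx, abs_zero, zero_mul]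
  · refine ae_of_all _ fun x => ?_
    refine (uA_tendsto hA hAne x).mul ?_
    have := hP.prob t ht.le x
    have e2 : (P t x).real B = ∫ y, B.indicator (fun _ => (1 : ℝ)) y ∂(P t x) := by
      rw [integral_indicator_const _ hB.measurableSet, smul_eq_mul, mul_one]
    rw [e2]
    refine tendsto_integral_of_dominated_convergence (bound := fun _ => (1 : ℝ)) ?_
      (integrable_const _) ?_ ?_
    · exact fun k => (cont_of_lip (by positivity) (uA_lip B k)).aestronglyMeasurable
    · exact fun k => ae_of_all _ fun y => by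
        rw [Real.norm_eq_abs]
        exact uA_abs_le B k y
    · exact ae_of_all _ fun y => uA_tendsto hB hBne y

omit [BorelSpace X] in
theorem lintegral_fin (hP : EVIKer K (n + 1) m P) {t : ℝ}
    (ht : 0 < t) {A : Set X} (B : Set X) (hA : m A ≠ ∞) : ∫⁻ x in A, P t x B ∂m ≠ ∞ := by
  have h1 : ∫⁻ x in A, P t x B ∂m ≤ ∫⁻ x in A, 1 ∂m := by
    refine lintegral_mono fun x => ?_
    have := hP.prob t ht.le x
    exact prob_le_one
  rw [setLIntegral_one] at h1
  exact ne_top_of_le_ne_top hA h1

theorem symm_compact (hX : IsRCD K (n + 1) X m) (hP : EVIKer K (n + 1) m P)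
    (hS : LipSymm m P) {t : ℝ} (ht : 0 < t) (o : X) {A B : Set X} (hA : IsCompact A)
    (hB : IsCompact B) : ∫⁻ x in A, P t x B ∂m = ∫⁻ x in B, P t x A ∂m := by
  rcases A.eq_empty_or_nonempty with rfl | hAne
  · simp
  rcases B.eq_empty_or_nonempty with rfl | hBne
  · simp
  obtain ⟨R₁, hR₁⟩ := hA.isBounded.subset_closedBall o
  obtain ⟨R₂, hR₂⟩ := hB.isBounded.subset_closedBall o
  have h1 := tendsto_uA hX hP ht o hA.isClosed hB.isClosed hR₁ hAne hBne
  have h2 := tendsto_uA hX hP ht o hB.isClosed hA.isClosed hR₂ hBne hAne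
  have h3 : ∀ k, ∫ x, uA A k x * Pf P (uA B k) t x ∂m = ∫ x, uA B k x * Pf P (uA A k) t x ∂m :=
    fun k => hS o _ _ _ _ _ _ _ _ (uA_lipSupp hR₂ hBne k) (uA_lipSupp hR₁ hAne k)
      (uA_nonneg B k) (uA_nonneg A k) t ht
  simp only [h3] at h1
  have h4 := tendsto_nhds_unique h1 h2
  refine (ENNReal.toReal_eq_toReal_iff' ?_ ?_).1 h4
  · exact lintegral_fin hP ht B
      (ne_top_of_le_ne_top (hX.finite_ball o R₁).ne (measure_mono hR₁))
  · exact lintegral_fin hP ht A
      (ne_top_of_le_ne_top (hX.finite_ball o R₂).ne (measure_mono hR₂))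

theorem symm_borel (hX : IsRCD K (n + 1) X m) (hP : EVIKer K (n + 1) m P)
    (hS : LipSymm m P) {t : ℝ} (ht : 0 < t) {A B : Set X} (hA : MeasurableSet A)
    (hB : MeasurableSet B) : ∫⁻ x in A, P t x B ∂m = ∫⁻ x in B, P t x A ∂m := by
  have := hX.proper
  rcases isEmpty_or_nonempty X with h | ⟨⟨o⟩⟩
  · rw [Set.eq_empty_of_isEmpty A, Set.eq_empty_of_isEmpty B]
  have hPm := hP.meas t ht.le
  have hPc : ∀ C, MeasurableSet C → Measurable fun x => P t x C := fun C hC =>
    (Measure.measurable_coe hC).comp hPm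
  have hwd : ∀ C D, MeasurableSet C → MeasurableSet D →
      (m.withDensity fun x => P t x C) D = ∫⁻ x in D, P t x C ∂m := fun C D _ hD =>
    withDensity_apply _ hD
  have hbd : ∀ C D, MeasurableSet C → MeasurableSet D →
      (m.restrict C).bind (P t) D = ∫⁻ x in C, P t x D ∂m := fun C D _ hD =>
    Measure.bind_apply hD hPm.aemeasurable
  have hle : ∀ C D, MeasurableSet C → MeasurableSet D →
      ∫⁻ x in D, P t x C ∂m ≤ m D := by
    intro C D hC hD
    calc ∫⁻ x in D, P t x C ∂m ≤ ∫⁻ x in D, 1 ∂m := by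
          refine lintegral_mono fun x => ?_
          have := hP.prob t ht.le x
          exact prob_le_one
      _ = m D := setLIntegral_one D
  -- first step: `A` compact, `B` Borel
  have step1 : ∀ A, IsCompact A → ∀ B, MeasurableSet B →
      ∫⁻ x in A, P t x B ∂m = ∫⁻ x in B, P t x A ∂m := by
    intro A hA B hB
    have hAm := hA.isClosed.measurableSet
    have h1 : (m.withDensity fun x => P t x A) = (m.restrict A).bind (P t) := by
      refine ext_of_compact o (fun k => ?_) fun C hC => ?_
      · rw [hwd A _ hAm isClosed_closedBall.measurableSet]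
        exact ne_top_of_le_ne_top (hX.finite_ball o k).ne
          (hle A _ hAm isClosed_closedBall.measurableSet)
      · rw [hwd A C hAm hC.isClosed.measurableSet, hbd A C hAm hC.isClosed.measurableSet]
        exact symm_compact hX hP hS ht o hC hA
    rw [← hbd A B hAm hB, ← h1, hwd A B hAm hB]
  have h2 : (m.withDensity fun x => P t x B) = (m.restrict B).bind (P t) := by
    refine ext_of_compact o (fun k => ?_) fun C hC => ?_
    · rw [hwd B _ hB isClosed_closedBall.measurableSet]
      exact ne_top_of_le_ne_top (hX.finite_ball o k).ne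
        (hle B _ hB isClosed_closedBall.measurableSet)
    · rw [hwd B C hB hC.isClosed.measurableSet, hbd B C hB hC.isClosed.measurableSet]
      exact step1 C hC B hB
  rw [← hwd B A hB hA, h2, hbd B A hB hA]

/-- **The heat kernel is symmetric** once it is symmetric on Lipschitz functions. -/
theorem symKer_of_lip (hX : IsRCD K (n + 1) X m) (hP : EVIKer K (n + 1) m P)
    (hS : LipSymm m P) : B2.SymKer m P where
  prob t ht x := hP.prob t ht.le x
  meas t ht A hA := (Measure.measurable_coe hA).comp (hP.meas t ht.le)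
  ac t ht x := hP.ac ht x
  symm t ht A B hA hB := symm_borel hX hP hS ht hA hB
  sgrp s t hs ht x A hA := by
    rw [hP.sgrp s t hs.le ht.le x, Measure.bind_apply hA (hP.meas t ht.le).aemeasurable]

theorem heatKer_of_lip (hX : IsRCD K (n + 1) X m) (hP : EVIKer K (n + 1) m P)
    (hS : LipSymm m P) : HeatKer K n m P where
  sym := symKer_of_lip hX hP hS
  flow x := ⟨fun t => P t x, hP.zero x, hP.flow_dirac x, fun _ _ => rfl⟩

end fin

end Pool.Agent.BDRY
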