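import Pool.Agent.Work.MP_209cb6_gt.B2.SymGrad
import Pool.Agent.Work.MP_209cb6_gt.B2.SymDom
import Pool.Agent.Work.MP_209cb6_gt.B2.SymFin

/-!
# BDRY2, SYM: assembly, with the weighted bound T4 as a hypothesis
-/

set_option autoImplicit false

open MeasureTheory MeasureTheory.Measure Metric Set Filter Topology
open scoped ENNReal NNReal

namespace Pool.Agent.BDRY

universe u

variable {X : Type u} [MetricSpace X] [MeasurableSpace X] [BorelSpace X] {K : ℝ} {n : ℕ}
  {m : Measure X} {P : ℝ → X → Measure X}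

/-- T4 for all nonnegative Lipschitz functions of bounded support -/
def T4 (K : ℝ) (n : ℕ) (m : Measure X) (P : ℝ → X → Measure X) : Prop :=
  ∀ (o : X) (f : X → ℝ) (L M R : ℝ), LipSupp o f L M R → (∀ x, 0 ≤ f x) → WeightBd K n m P f

theorem lipSymm_of_T4 (hK : K ≤ 0) (hX : IsRCD K (n + 1) X m) (hP : EVIKer K (n + 1) m P)
    (hT : T4 K n m P) : LipSymm m P := by
  have := hX.proper
  intro o f g L M R L' M' R' hf hg hf0 hg0 t ht
  have hWf : WeightBd K n m P fun x => |f x| := by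
    have h1 : (fun x => |f x|) = f := funext fun x => abs_of_nonneg (hf0 x)
    rw [h1]
    exact hT o f L M R hf hf0
  have hWg : WeightBd K n m P fun x => |g x| := by
    have h1 : (fun x => |g x|) = g := funext fun x => abs_of_nonneg (hg0 x)
    rw [h1]
    exact hT o g L' M' R' hg hg0
  refine symm_of_gen hK hX hP hf hWf hg hWg (fun r s hr hs => ?_) ht.le
  have dφ := (dom_Ar hK (Nat.succ_pos n) hX hP hf.L0 hf.lip hf.bdd hr).inD
    (Ar_expDec hK hX hP hf hWf hr) (gen_expDec hK hX hP hf hWf hr)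
  have dψ := (dom_Ar hK (Nat.succ_pos n) hX hP hg.L0 hg.lip hg.bdd hs).inD
    (Ar_expDec hK hX hP hg hWg hs) (gen_expDec hK hX hP hg hWg hs)
  have h1 := gen_symm hK hX hP dφ dψ
  calc ∫ x, Ar P g s x * (Pf P f r x - f x) ∂m
      = ∫ x, (Pf P f r x - f x) * Ar P g s x ∂m :=
        integral_congr_ae (ae_of_all _ fun x => mul_comm _ _)
    _ = ∫ x, (Pf P g s x - g x) * Ar P f r x ∂m := h1
    _ = _ := integral_congr_ae (ae_of_all _ fun x => mul_comm _ _)

theorem heatKer_of_T4 (hK : K ≤ 0) (hX : IsRCD K (n + 1) X m) (hP : EVIKer K (n + 1) m P)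
    (hT : T4 K n m P) : HeatKer K n m P := heatKer_of_lip hX hP (lipSymm_of_T4 hK hX hP hT)

/-- the heat kernel exists, once T4 holds for every EVI kernel -/
theorem exists_heatKer_of_T4 (hK : K ≤ 0) (hX : IsRCD K (n + 1) X m)
    (hT : ∀ P, EVIKer K (n + 1) m P → T4 K n m P) : ∃ P, HeatKer K n m P := by
  obtain ⟨P, hP⟩ := hX.exists_eviKer hK (Nat.succ_pos n)
  exact ⟨P, heatKer_of_T4 hK hX hP (hT P hP)⟩

end Pool.Agent.BDRY
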