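import Pool.Agent.Work.MP_209cb6_gt.B2.SymGibbs

/-!
# BDRY2, SYM: T4, weighted L² bounds (Davies' method) from the Gibbs inequality
-/

set_option autoImplicit false
set_option linter.unusedSectionVars false

open MeasureTheory MeasureTheory.Measure Metric Set Filter Topology
open scoped ENNReal NNReal

namespace Pool.Agent.BDRY

universe u

section davies

variable {X : Type u} [MetricSpace X] [MeasurableSpace X] [BorelSpace X]

theorem dv_cont {f : X → ℝ} {L : ℝ} (h : ∀ x y, |f x - f y| ≤ L * dist x y) :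
    Continuous f := by
  have : LipschitzWith (Real.toNNReal L) f := LipschitzWith.of_dist_le_mul fun x y => by
    rw [Real.dist_eq]
    exact (h x y).trans (mul_le_mul_of_nonneg_right (Real.le_coe_toNNReal L) dist_nonneg)
  exact this.continuous

theorem log_diff_bound {a d e A B u : ℝ} (hA : 0 < A) (hAB : A ≤ B) (he : 0 < e)
    (hu : d ^ 2 / (2 * e) ≤ B - A) (hv : u ≤ a * d) :
    Real.log A - Real.log B + u ≤ a ^ 2 * e * B / 2 := by
  have hB : 0 < B := hA.trans_le hAB
  have h1 : Real.log A - Real.log B ≤ A / B - 1 := by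
    rw [← Real.log_div hA.ne' hB.ne']
    exact Real.log_le_sub_one_of_pos (by positivity)
  have h2 : A / B - 1 = -((B - A) / B) := by field_simp; ring
  have h3 : d ^ 2 / (2 * e) / B ≤ (B - A) / B := div_le_div_of_nonneg_right hu hB.le
  have h4 : a * d - d ^ 2 / (2 * e) / B ≤ a ^ 2 * e * B / 2 := by
    have h5 : a ^ 2 * e * B / 2 - (a * d - d ^ 2 / (2 * e) / B) =
        (a * e * B - d) ^ 2 / (2 * e * B) := by
      field_simp; ring
    have h6 : 0 ≤ (a * e * B - d) ^ 2 / (2 * e * B) := by positivity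
    linarith
  linarith

variable [ProperSpace X]

/-- the generator inequality with weight `e^{-V}` -/
theorem davies_gen {K : ℝ} (hK : K ≤ 0) {m : Measure X} {o : X} {V : X → ℝ} {a : ℝ} (ha : 0 ≤ a)
    (hV : ∀ x y, |V x - V y| ≤ a * dist x y) (hVi : Integrable (fun x => Real.exp (-V x)) m)
    (hV2 : Integrable (fun x => dist o x ^ 2 * Real.exp (-V x)) m) {φ ℓ : X → ℝ} {M L : ℝ}
    (hM : 0 ≤ M) (hL : 0 ≤ L) (hφ0 : ∀ x, 0 ≤ φ x) (hb : ∀ x, |φ x| ≤ M) (hb' : ∀ x, |ℓ x| ≤ M)
    (hl : ∀ x y, |φ x - φ y| ≤ L * dist x y) (hl' : ∀ x y, |ℓ x - ℓ y| ≤ L * dist x y)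
    (hG : ∀ ε, 0 < ε → ∃ S, IsArg φ ε S ∧ GibbsIneq K m o ℓ ε S) :
    ∫ x, φ x * ℓ x * Real.exp (-V x) ∂m ≤ a ^ 2 / 2 * ∫ x, φ x ^ 2 * Real.exp (-V x) ∂m := by
  have hφc := dv_cont hl
  have hℓc := dv_cont hl'
  have hVc := dv_cont hV
  set E : X → ℝ := fun x => Real.exp (-V x) with hE
  have hEc : Continuous E := Real.continuous_exp.comp hVc.neg
  have hE0 : ∀ x, 0 < E x := fun x => Real.exp_pos _
  -- integrability by domination
  set D : X → ℝ := fun x => (1 + dist o x ^ 2) * E x with hD
  have hDi : Integrable D m := by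
    have : D = fun x => E x + dist o x ^ 2 * E x := by funext x; simp [hD]; ring
    rw [this]; exact hVi.add hV2
  have hdom : ∀ f : X → ℝ, Measurable f → ∀ C : ℝ, (∀ x, |f x| ≤ C * D x) → Integrable f m :=
    fun f hf C hC => (hDi.const_mul C).mono' hf.aestronglyMeasurable
      (ae_of_all _ fun x => hC x)
  have hED : ∀ x, E x ≤ D x := fun x => by
    simp only [hD]; nlinarith [hE0 x, sq_nonneg (dist o x), mul_nonneg (sq_nonneg (dist o x)) (hE0 x).le]
  have hbdd : ∀ f : X → ℝ, Measurable f → ∀ C : ℝ, (∀ x, |f x| ≤ C) →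
      Integrable (fun x => f x * E x) m := by
    intro f hf C hC
    refine hdom _ (hf.mul hEc.measurable) C fun x => ?_
    have hC0 : 0 ≤ C := (abs_nonneg _).trans (hC x)
    rw [abs_mul, abs_of_pos (hE0 x)]
    exact mul_le_mul (hC x) (hED x) (hE0 x).le hC0
  have hVb : ∀ x, |V x| ≤ (|V o| + a) * (1 + dist o x ^ 2) := by
    intro x
    have h1 := hV x o
    rw [dist_comm] at h1
    have h2 : |V x| ≤ |V x - V o| + |V o| := by
      have := abs_add_le (V x - V o) (V o)
      rwa [sub_add_cancel] at this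
    have h3 : dist o x ≤ 1 + dist o x ^ 2 := by nlinarith [sq_nonneg (dist o x - 1), dist_nonneg (x := o) (y := x)]
    have h4 : 0 ≤ |V o| := abs_nonneg _
    have h5 : a * dist o x ≤ a * (1 + dist o x ^ 2) := mul_le_mul_of_nonneg_left h3 ha
    have h6 : |V o| * 1 ≤ |V o| * (1 + dist o x ^ 2) :=
      mul_le_mul_of_nonneg_left (by nlinarith [sq_nonneg (dist o x)]) h4
    linarith
  set I0 := ∫ x, E x ∂m with hI0
  set C0 := 2 * L ^ 2 + a ^ 2 * L ^ 2 + 2 * (-K) * L ^ 2 with hC0
  have hI00 : 0 ≤ I0 := integral_nonneg fun x => (hE0 x).le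
  have hC00 : 0 ≤ C0 := by
    have : 0 ≤ 2 * (-K) * L ^ 2 := by
      have : 0 ≤ -K := by linarith
      positivity
    have h2 : 0 ≤ a ^ 2 * L ^ 2 := by positivity
    nlinarith [sq_nonneg L]
  -- the inequality with `c`
  have key : ∀ c, 0 < c → c ≤ 1 →
      ∫ x, (ℓ x * (c + φ x)) * E x ∂m ≤ a ^ 2 / 2 * (∫ x, ((c + φ x) ^ 2) * E x ∂m) +
        c * C0 * ((1 + M) * I0) := by
    intro c hc hc1
    obtain ⟨S, hS, hGS⟩ := hG c hc
    have hSm := hS.1
    set w : X → ℝ := fun x => (c + φ x) * E x with hw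
    have hcφ : ∀ x, 0 < c + φ x := fun x => by linarith [hφ0 x]
    have hw0 : ∀ x, 0 < w x := fun x => mul_pos (hcφ x) (hE0 x)
    have hwm : Measurable w := ((hφc.const_add c).mul hEc).measurable
    have hcM : ∀ x, |c + φ x| ≤ 1 + M := fun x => by
      rw [abs_of_pos (hcφ x)]; linarith [(abs_le.1 (hb x)).2]
    have hwi : Integrable w m := hbdd _ (hφc.const_add c).measurable (1 + M) hcM
    have hw2 : Integrable (fun x => dist o x ^ 2 * w x) m := by
      refine hdom _ (by fun_prop) (1 + M) fun x => ?_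
      rw [abs_mul, abs_of_nonneg (sq_nonneg _), hw, abs_mul, abs_of_pos (hE0 x)]
      have h1 := hcM x
      have h2 : 0 ≤ dist o x ^ 2 * E x := mul_nonneg (sq_nonneg _) (hE0 x).le
      have h3 : dist o x ^ 2 * E x ≤ D x := by simp only [hD]; nlinarith [hE0 x]
      calc dist o x ^ 2 * (|c + φ x| * E x) = |c + φ x| * (dist o x ^ 2 * E x) := by ring
        _ ≤ (1 + M) * (dist o x ^ 2 * E x) := mul_le_mul_of_nonneg_right h1 h2
        _ ≤ (1 + M) * D x := mul_le_mul_of_nonneg_left h3 (by linarith)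
    -- logarithms
    have hlogb : ∃ B : ℝ, 0 ≤ B ∧ ∀ x, |Real.log (c + φ x)| ≤ B := by
      refine ⟨max |Real.log c| |Real.log (1 + M)|, le_max_of_le_left (abs_nonneg _), fun x => ?_⟩
      have h1 : Real.log c ≤ Real.log (c + φ x) :=
        Real.log_le_log hc (by linarith [hφ0 x])
      have h2 : Real.log (c + φ x) ≤ Real.log (1 + M) :=
        Real.log_le_log (hcφ x) (by linarith [(abs_le.1 (hb x)).2])
      exact abs_le_max_abs_abs h1 h2
    obtain ⟨B, hB0, hB⟩ := hlogb
    have hlogw : ∀ x, Real.log (w x) = Real.log (c + φ x) - V x := by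
      intro x
      rw [hw]; simp only [hE]
      rw [Real.log_mul (hcφ x).ne' (Real.exp_pos _).ne', Real.log_exp]; ring
    have hdS : ∀ y, dist (S y) y ≤ 2 * c * L := fun y => argmax_dist hc hS.2 hL hl y
    have hwl : Integrable (fun x => w x * Real.log (w x)) m := by
      refine hdom _ (hwm.mul (Real.measurable_log.comp hwm)) ((1 + M) * (B + (|V o| + a)))
        fun x => ?_
      rw [abs_mul, hlogw, abs_of_pos (hw0 x)]
      have h1 : |Real.log (c + φ x) - V x| ≤ (B + (|V o| + a)) * (1 + dist o x ^ 2) := by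
        refine (abs_sub _ _).trans ?_
        have h2 := hB x
        have h3 := hVb x
        nlinarith [sq_nonneg (dist o x), mul_nonneg hB0 (sq_nonneg (dist o x))]
      have h2 : w x ≤ (1 + M) * E x :=
        mul_le_mul_of_nonneg_right ((le_abs_self _).trans (hcM x)) (hE0 x).le
      calc w x * |Real.log (c + φ x) - V x|
          ≤ ((1 + M) * E x) * ((B + (|V o| + a)) * (1 + dist o x ^ 2)) :=
            mul_le_mul h2 h1 (abs_nonneg _) (by have := hE0 x; positivity)
        _ = (1 + M) * (B + (|V o| + a)) * D x := by simp only [hD]; ring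
    have hlogS : Integrable (fun y => Real.log (w (S y)) * w y) m := by
      refine hdom _ ((Real.measurable_log.comp (hwm.comp hSm)).mul hwm)
        ((1 + M) * (B + (|V o| + a) + a * (2 * c * L))) fun y => ?_
      rw [abs_mul, hlogw, abs_of_pos (hw0 y)]
      have h1 : |Real.log (c + φ (S y)) - V (S y)| ≤
          (B + (|V o| + a) + a * (2 * c * L)) * (1 + dist o y ^ 2) := by
        refine (abs_sub _ _).trans ?_
        have h2 := hB (S y)
        have h3 := hVb y
        have h4 : |V (S y)| ≤ |V y| + a * (2 * c * L) := by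
          have h5 := (hV (S y) y).trans (mul_le_mul_of_nonneg_left (hdS y) ha)
          have := abs_add_le (V (S y) - V y) (V y)
          rw [sub_add_cancel] at this
          linarith
        have h6 : 0 ≤ a * (2 * c * L) := by positivity
        nlinarith [sq_nonneg (dist o y), mul_nonneg hB0 (sq_nonneg (dist o y)),
          mul_nonneg h6 (sq_nonneg (dist o y))]
      have h2 : w y ≤ (1 + M) * E y :=
        mul_le_mul_of_nonneg_right ((le_abs_self _).trans (hcM y)) (hE0 y).le
      calc |Real.log (c + φ (S y)) - V (S y)| * w y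
          ≤ ((B + (|V o| + a) + a * (2 * c * L)) * (1 + dist o y ^ 2)) * ((1 + M) * E y) :=
            mul_le_mul h1 h2 (hw0 y).le (by positivity)
        _ = (1 + M) * (B + (|V o| + a) + a * (2 * c * L)) * D y := by simp only [hD]; ring
    have hineq := hGS w w hwm hw0 hwi hwl hw2 hwm hw0 hwi hlogS
    have hlSi : Integrable (fun y => ℓ (S y) * w y) m := by
      have := hbdd (fun y => ℓ (S y) * (c + φ y)) ((hℓc.measurable.comp hSm).mul
        (hφc.const_add c).measurable) (M * (1 + M)) (fun y => by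
          rw [abs_mul]; exact mul_le_mul (hb' _) (hcM y) (abs_nonneg _) hM)
      refine this.congr (ae_of_all _ fun y => ?_)
      simp only [hw]; ring
    have hd2i : Integrable (fun y => dist (S y) y ^ 2 * w y) m := by
      have := hbdd (fun y => dist (S y) y ^ 2 * (c + φ y)) (((hSm.dist measurable_id).pow_const 2).mul
        (hφc.const_add c).measurable) ((2 * c * L) ^ 2 * (1 + M)) (fun y => by
          rw [abs_mul, abs_of_nonneg (sq_nonneg _)]
          exact mul_le_mul (pow_le_pow_left₀ dist_nonneg (hdS y) 2) (hcM y) (abs_nonneg _)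
            (sq_nonneg _))
      refine this.congr (ae_of_all _ fun y => ?_)
      simp only [hw]; ring
    -- lower bound of the integrand
    have hlwi : Integrable (fun y => ℓ y * w y) m := by
      have := hbdd (fun y => ℓ y * (c + φ y)) (hℓc.measurable.mul
        (hφc.const_add c).measurable) (M * (1 + M)) (fun y => by
          rw [abs_mul]; exact mul_le_mul (hb' _) (hcM y) (abs_nonneg _) hM)
      refine this.congr (ae_of_all _ fun y => ?_)
      simp only [hw]; ring
    have hcwi : Integrable (fun y => (c + φ y) * w y) m := by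
      have := hbdd (fun y => (c + φ y) * (c + φ y)) ((hφc.const_add c).measurable.mul
        (hφc.const_add c).measurable) ((1 + M) * (1 + M)) (fun y => by
          rw [abs_mul]; exact mul_le_mul (hcM _) (hcM y) (abs_nonneg _) (by linarith))
      refine this.congr (ae_of_all _ fun y => ?_)
      simp only [hw]; ring
    have hpt : ∀ y, c * (ℓ y * w y - a ^ 2 / 2 * ((c + φ y) * w y) - c * C0 * w y) ≤
        Real.log (w (S y)) * w y - w y * Real.log (w y) + c * (ℓ (S y) * w y) -
          (-K) / 2 * (dist (S y) y ^ 2 * w y) := by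
      intro y
      have h1 : Real.log (w y) - Real.log (w (S y)) ≤ a ^ 2 * c * (c + φ (S y)) / 2 := by
        rw [hlogw, hlogw]
        have h2 := argmax_gain hS.2 y
        have h4 := log_diff_bound (a := a) (d := dist (S y) y) (e := c) (A := c + φ y)
          (B := c + φ (S y)) (u := V (S y) - V y) (hcφ y)
          (by have : 0 ≤ dist (S y) y ^ 2 / (2 * c) := by positivity
              linarith) hc (by linarith) ((le_abs_self _).trans (hV _ _))
        linarith
      have h5 : φ (S y) ≤ φ y + 2 * c * L ^ 2 := by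
        have h6 := (le_abs_self _).trans (hl (S y) y)
        have h7 := mul_le_mul_of_nonneg_left (hdS y) hL
        nlinarith
      have h6 : ℓ y - 2 * c * L ^ 2 ≤ ℓ (S y) := by
        have h6 := (neg_le_abs _).trans (hl' (S y) y)
        have h7 := mul_le_mul_of_nonneg_left (hdS y) hL
        nlinarith
      have h7 : dist (S y) y ^ 2 ≤ (2 * c * L) ^ 2 := pow_le_pow_left₀ dist_nonneg (hdS y) 2
      have h8 : a ^ 2 * c * (c + φ (S y)) / 2 ≤ a ^ 2 * c * (c + φ y + 2 * c * L ^ 2) / 2 := by
        have : 0 ≤ a ^ 2 * c := by positivity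
        nlinarith
      have h9 : (-K) / 2 * dist (S y) y ^ 2 ≤ (-K) / 2 * (2 * c * L) ^ 2 :=
        mul_le_mul_of_nonneg_left h7 (by linarith)
      have h10 : c * (ℓ y - a ^ 2 / 2 * (c + φ y) - c * C0) ≤
          Real.log (w (S y)) - Real.log (w y) + c * ℓ (S y) - (-K) / 2 * dist (S y) y ^ 2 := by
        have h11 : c * (ℓ y - 2 * c * L ^ 2) ≤ c * ℓ (S y) := mul_le_mul_of_nonneg_left h6 hc.le
        simp only [hC0]
        nlinarith
      have := mul_le_mul_of_nonneg_right h10 (hw0 y).le
      nlinarith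
    have hint : c * (∫ y, ℓ y * w y ∂m - a ^ 2 / 2 * (∫ y, (c + φ y) * w y ∂m) -
        c * C0 * ∫ y, w y ∂m) ≤ 0 := by
      have i1 : Integrable (fun y => c * (ℓ y * w y - a ^ 2 / 2 * ((c + φ y) * w y) -
          c * C0 * w y)) m :=
        ((hlwi.sub (hcwi.const_mul _)).sub (hwi.const_mul _)).const_mul c
      have i2 : Integrable (fun y => Real.log (w (S y)) * w y - w y * Real.log (w y) +
          c * (ℓ (S y) * w y) - (-K) / 2 * (dist (S y) y ^ 2 * w y)) m :=
        ((hlogS.sub hwl).add (hlSi.const_mul c)).sub (hd2i.const_mul _)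
      have h1 := integral_mono i1 i2 hpt
      have a1 : ∫ y, c * (ℓ y * w y - a ^ 2 / 2 * ((c + φ y) * w y) - c * C0 * w y) ∂m =
          c * (∫ y, ℓ y * w y ∂m - a ^ 2 / 2 * (∫ y, (c + φ y) * w y ∂m) -
            c * C0 * ∫ y, w y ∂m) := by
        rw [integral_const_mul]
        congr 1
        rw [integral_sub (f := fun y => ℓ y * w y - a ^ 2 / 2 * ((c + φ y) * w y))
          (g := fun y => c * C0 * w y) (hlwi.sub (hcwi.const_mul _)) (hwi.const_mul _),
          integral_sub hlwi (hcwi.const_mul _), integral_const_mul, integral_const_mul]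
      have a2 : ∫ y, (Real.log (w (S y)) * w y - w y * Real.log (w y) + c * (ℓ (S y) * w y) -
            (-K) / 2 * (dist (S y) y ^ 2 * w y)) ∂m =
          ∫ y, Real.log (w (S y)) * w y ∂m - ∫ y, w y * Real.log (w y) ∂m +
            c * (∫ y, ℓ (S y) * w y ∂m) - (-K) / 2 * ∫ y, dist (S y) y ^ 2 * w y ∂m := by
        rw [integral_sub (f := fun y => Real.log (w (S y)) * w y - w y * Real.log (w y) +
            c * (ℓ (S y) * w y)) (g := fun y => (-K) / 2 * (dist (S y) y ^ 2 * w y))
            ((hlogS.sub hwl).add (hlSi.const_mul c)) (hd2i.const_mul _),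
          integral_add (f := fun y => Real.log (w (S y)) * w y - w y * Real.log (w y))
            (g := fun y => c * (ℓ (S y) * w y)) (hlogS.sub hwl) (hlSi.const_mul c),
          integral_sub hlogS hwl, integral_const_mul, integral_const_mul]
      rw [a1, a2] at h1
      linarith
    have hint2 : ∫ y, ℓ y * w y ∂m - a ^ 2 / 2 * (∫ y, (c + φ y) * w y ∂m) -
        c * C0 * ∫ y, w y ∂m ≤ 0 := by
      by_contra hcon
      push Not at hcon
      have := mul_pos hc hcon
      linarith
    have hwI : ∫ y, w y ∂m ≤ (1 + M) * I0 := by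
      rw [hI0, ← integral_const_mul]
      exact integral_mono hwi (hVi.const_mul _) fun y =>
        mul_le_mul_of_nonneg_right ((le_abs_self _).trans (hcM y)) (hE0 y).le
    have e1 : ∫ x, (ℓ x * (c + φ x)) * E x ∂m = ∫ y, ℓ y * w y ∂m :=
      integral_congr_ae (ae_of_all _ fun y => by simp only [hw]; ring)
    have e2 : ∫ x, ((c + φ x) ^ 2) * E x ∂m = ∫ y, (c + φ y) * w y ∂m :=
      integral_congr_ae (ae_of_all _ fun y => by simp only [hw]; ring)
    rw [e1, e2]
    have h12 : c * C0 * ∫ y, w y ∂m ≤ c * C0 * ((1 + M) * I0) :=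
      mul_le_mul_of_nonneg_left hwI (by positivity)
    linarith
  -- `c → 0`
  refine le_of_forall_pos_le_add fun δ hδ => ?_
  have i1 : Integrable (fun x => ℓ x * E x) m := hbdd _ hℓc.measurable M hb'
  have i2 : Integrable (fun x => φ x * ℓ x * E x) m :=
    hbdd _ (hφc.mul hℓc).measurable (M * M) (fun x => by
      rw [abs_mul]; exact mul_le_mul (hb x) (hb' x) (abs_nonneg _) hM)
  have i3 : Integrable (fun x => φ x * E x) m := hbdd _ hφc.measurable M hb
  have i4 : Integrable (fun x => φ x ^ 2 * E x) m :=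
    hbdd _ (hφc.pow 2).measurable (M ^ 2) (fun x => by
      rw [abs_pow]; exact pow_le_pow_left₀ (abs_nonneg _) (hb x) 2)
  have b1 : |∫ x, ℓ x * E x ∂m| ≤ M * I0 := by
    refine (abs_integral_le_integral_abs).trans ?_
    rw [hI0, ← integral_const_mul]
    refine integral_mono i1.abs (hVi.const_mul _) fun x => ?_
    simp only [abs_mul, abs_of_pos (hE0 x)]
    exact mul_le_mul_of_nonneg_right (hb' x) (hE0 x).le
  have b2 : ∫ x, φ x * E x ∂m ≤ M * I0 := by
    rw [hI0, ← integral_const_mul]
    exact integral_mono i3 (hVi.const_mul _) fun x =>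
      mul_le_mul_of_nonneg_right ((le_abs_self _).trans (hb x)) (hE0 x).le
  set C1 := M * I0 + a ^ 2 / 2 * (2 * (M * I0) + I0) + C0 * ((1 + M) * I0) with hC1
  have hC10 : 0 ≤ C1 := by positivity
  set c := min 1 (δ / (C1 + 1)) with hc
  have hc0 : 0 < c := by positivity
  have hc1 : c ≤ 1 := min_le_left _ _
  have hc2 : c * C1 ≤ δ := by
    have h1 : c ≤ δ / (C1 + 1) := min_le_right _ _
    rw [le_div_iff₀ (by positivity)] at h1
    nlinarith
  have h := key c hc0 hc1
  have e1 : ∫ x, (ℓ x * (c + φ x)) * E x ∂m = c * (∫ x, ℓ x * E x ∂m) +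
      ∫ x, φ x * ℓ x * E x ∂m := by
    rw [← integral_const_mul, ← integral_add (i1.const_mul c) i2]
    exact integral_congr_ae (ae_of_all _ fun y => by simp only []; ring)
  have e2 : ∫ x, ((c + φ x) ^ 2) * E x ∂m = c ^ 2 * I0 + 2 * c * (∫ x, φ x * E x ∂m) +
      ∫ x, φ x ^ 2 * E x ∂m := by
    have a1 : ∫ x, (c ^ 2 * E x + 2 * c * (φ x * E x) + φ x ^ 2 * E x) ∂m =
        c ^ 2 * I0 + 2 * c * (∫ x, φ x * E x ∂m) + ∫ x, φ x ^ 2 * E x ∂m := by
      rw [integral_add (f := fun x => c ^ 2 * E x + 2 * c * (φ x * E x))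
        (g := fun x => φ x ^ 2 * E x) ((hVi.const_mul _).add (i3.const_mul _)) i4,
        integral_add (hVi.const_mul _) (i3.const_mul _), integral_const_mul, integral_const_mul]
    rw [← a1]
    exact integral_congr_ae (ae_of_all _ fun y => by simp only []; ring)
  rw [e1, e2] at h
  have h2 : c ^ 2 * I0 ≤ c * I0 := by
    have : c ^ 2 ≤ c := by nlinarith
    exact mul_le_mul_of_nonneg_right this hI00
  have h3 : -(c * (∫ x, ℓ x * E x ∂m)) ≤ c * (M * I0) := by
    have := (neg_le_abs _).trans b1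
    nlinarith
  have h4 : c * (∫ x, φ x * E x ∂m) ≤ c * (M * I0) := mul_le_mul_of_nonneg_left b2 hc0.le
  have h5 : a ^ 2 / 2 * (c ^ 2 * I0 + 2 * c * (∫ x, φ x * E x ∂m)) ≤
      a ^ 2 / 2 * (c * I0 + 2 * (c * (M * I0))) :=
    mul_le_mul_of_nonneg_left (by linarith) (by positivity)
  have h6 : c * C1 = c * (M * I0) + a ^ 2 / 2 * (c * I0 + 2 * (c * (M * I0))) +
      c * C0 * ((1 + M) * I0) := by rw [hC1]; ring
  linarith

end davies

end Pool.Agent.BDRY
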