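import Pool.Agent.Work.MP_209cb6_gt.B2.SymDavies
import Pool.Agent.Work.MP_209cb6_gt.B2.LipP
import Pool.Agent.Work.MP_209cb6_gt.B2.SymPf

/-!
# BDRY2, SYM: T4, weighted L² bounds for the semigroup
-/

set_option autoImplicit false
set_option linter.unusedSectionVars false

open MeasureTheory MeasureTheory.Measure Metric Set Filter Topology
open scoped ENNReal NNReal

namespace Pool.Agent.BDRY

universe u

section semi

variable {X : Type u} [MetricSpace X] [MeasurableSpace X] [BorelSpace X] [ProperSpace X]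
  {K : ℝ} {N : ℕ} {m : Measure X} {P : ℝ → X → Measure X}

/-- the semigroup law on bounded functions -/
theorem EVIKer.Pf_add (hP : EVIKer K N m P) {φ : X → ℝ} (hφ : Measurable φ) {M : ℝ}
    (hM : ∀ x, |φ x| ≤ M) {s t : ℝ} (hs : 0 ≤ s) (ht : 0 ≤ t) (x : X) :
    Pf P φ (s + t) x = ∫ y, Pf P φ t y ∂(P s x) := by
  have := hP.prob s hs x
  unfold Pf
  rw [hP.sgrp s t hs ht x]
  exact (integral_bind_bdd (hP.meas t ht) (hP.prob t ht) hφ hM).2

theorem EVIKer.Pf_zero (hP : EVIKer K N m P) {φ : X → ℝ} (hφ : Measurable φ) (x : X) :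
    Pf P φ 0 x = φ x := by
  unfold Pf
  rw [hP.zero, integral_dirac' _ _ hφ.stronglyMeasurable]

/-- the domain is invariant -/
theorem EVIKer.dom_Pf (hK : K ≤ 0) (hN : 0 < N) (hP : EVIKer K N m P) (hg : Geod X) {φ ℓ : X → ℝ}
    {M L : ℝ} (hD : Dom P φ ℓ M L) (hL : 0 ≤ L) {t : ℝ} (ht : 0 ≤ t) :
    Dom P (Pf P φ t) (Pf P ℓ t) M (L * Real.exp (-K * t)) := by
  have hφm := (dv_cont hD.lip).measurable
  have hℓm := (dv_cont hD.lip').measurable
  refine ⟨fun x => hP.abs_le ht x hD.bdd, fun x => hP.abs_le ht x hD.bdd', fun x y =>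
    hP.lip hK hN hg ht hL hD.lip x y, fun x y => hP.lip hK hN hg ht hL hD.lip' x y, ?_⟩
  intro δ hδ
  obtain ⟨t₀, ht₀, H⟩ := hD.gen δ hδ
  refine ⟨t₀, ht₀, fun h hh hht x => ?_⟩
  have := hP.prob t ht x
  rw [← hP.Pf_add hφm hD.bdd hh.le ht x, add_comm, hP.Pf_add hφm hD.bdd ht hh.le x]
  have hm1 : Continuous (Pf P φ h) := dv_cont (fun x y => hP.lip hK hN hg hh.le hL hD.lip x y)
  have i1 : Integrable (Pf P φ h) (P t x) := Integrable.of_bound hm1.aestronglyMeasurable M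
    (Eventually.of_forall fun y => hP.abs_le hh.le y hD.bdd)
  have i2 : Integrable φ (P t x) := Integrable.of_bound hφm.aestronglyMeasurable M
    (Eventually.of_forall hD.bdd)
  have i3 : Integrable ℓ (P t x) := Integrable.of_bound hℓm.aestronglyMeasurable M
    (Eventually.of_forall hD.bdd')
  have e1 : ∫ y, Pf P φ h y ∂(P t x) - Pf P φ t x - h * Pf P ℓ t x =
      ∫ y, (Pf P φ h y - φ y - h * ℓ y) ∂(P t x) := by
    rw [integral_sub (f := fun y => Pf P φ h y - φ y) (g := fun y => h * ℓ y) (i1.sub i2)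
      (i3.const_mul h), integral_sub i1 i2, integral_const_mul]
    rfl
  rw [e1]
  have h3 := norm_integral_le_of_norm_le_const (μ := P t x)
    (f := fun y => Pf P φ h y - φ y - h * ℓ y) (C := δ * h)
    (Eventually.of_forall fun y => H h hh hht y)
  simpa using h3

theorem EVIKer.Pf_nonneg (hP : EVIKer K N m P) {φ : X → ℝ} (hφ : ∀ x, 0 ≤ φ x) (t : ℝ) (x : X) :
    0 ≤ Pf P φ t x := integral_nonneg hφ

/-- one time step -/
theorem davies_step (hK : K ≤ 0) (hN : 0 < N)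
    (hfin : ∀ (x : X) (r : ℝ), m (closedBall x r) < ∞)
    (hposb : ∀ (x : X) (r : ℝ), 0 < r → 0 < m (ball x r))
    (hexp : ∃ (x : X) (c : ℝ), 0 < c ∧ ∫⁻ y, ENNReal.ofReal (Real.exp (-c * dist x y ^ 2)) ∂m < ∞)
    (hP : EVIKer K N m P) (hg : Geod X) (o : X) {V : X → ℝ} {a : ℝ} (ha : 0 ≤ a)
    (hV : ∀ x y, |V x - V y| ≤ a * dist x y) (hVi : Integrable (fun x => Real.exp (-V x)) m)
    (hV2 : Integrable (fun x => dist o x ^ 2 * Real.exp (-V x)) m) {φ ℓ : X → ℝ} {M L : ℝ}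
    (hM : 0 ≤ M) (hL : 0 ≤ L) (hφ0 : ∀ x, 0 ≤ φ x) (hD : Dom P φ ℓ M L) {δ t₀ : ℝ} (hδ : 0 ≤ δ)
    (hgen : ∀ t, 0 < t → t ≤ t₀ → ∀ x, |∫ y, φ y ∂(P t x) - φ x - t * ℓ x| ≤ δ * t)
    {t h : ℝ} (ht : 0 ≤ t) (hh : 0 < h) (hh0 : h ≤ t₀) :
    ∫ x, Pf P φ (t + h) x ^ 2 * Real.exp (-V x) ∂m ≤
      (1 + a ^ 2 * h) * (∫ x, Pf P φ t x ^ 2 * Real.exp (-V x) ∂m) +
        h * (h * M ^ 2 + 2 * M * δ + 2 * M * δ * h + δ ^ 2 * h) *
          ∫ x, Real.exp (-V x) ∂m := by
  have hφm := (dv_cont hD.lip).measurable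
  have hℓm := (dv_cont hD.lip').measurable
  have hDt := hP.dom_Pf hK hN hg hD hL ht
  have hE := dv_cont hV
  have hE0 : ∀ x, 0 < Real.exp (-V x) := fun x => Real.exp_pos _
  have c1 := dv_cont hDt.lip
  have c2 := dv_cont hDt.lip'
  have hth : 0 ≤ t + h := by linarith
  have c3 := dv_cont (hP.dom_Pf hK hN hg hD hL hth).lip
  have hbd : ∀ f : X → ℝ, Continuous f → ∀ C, (∀ x, |f x| ≤ C) →
      Integrable (fun x => f x * Real.exp (-V x)) m := by
    intro f hf C hC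
    exact hVi.bdd_mul hf.aestronglyMeasurable (Eventually.of_forall hC)
  have key := davies_gen hK ha hV hVi hV2 hM (by positivity : 0 ≤ L * Real.exp (-K * t))
    (hP.Pf_nonneg hφ0 t) hDt.bdd hDt.bdd' hDt.lip hDt.lip' (fun ε hε => by
      obtain ⟨S, hS1, hS2⟩ := exists_argmax c1 hDt.bdd hε
      exact ⟨S, ⟨hS1, hS2⟩, gibbsIneq_of_evi hK hN hfin hposb hexp hP hDt hε ⟨hS1, hS2⟩ o⟩)
  -- pointwise
  set η := h * M ^ 2 + 2 * M * δ + 2 * M * δ * h + δ ^ 2 * h with hη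
  have hpt : ∀ x, Pf P φ (t + h) x ^ 2 ≤
      Pf P φ t x ^ 2 + 2 * h * (Pf P φ t x * Pf P ℓ t x) + h * η := by
    intro x
    have h1 : |Pf P φ (t + h) x - Pf P φ t x - h * Pf P ℓ t x| ≤ δ * h := by
      have := hP.prob t ht x
      have e0 := hP.Pf_add hφm hD.bdd ht hh.le x
      have hm1 : Continuous (Pf P φ h) :=
        dv_cont (fun x y => hP.lip hK hN hg hh.le hL hD.lip x y)
      have i1 : Integrable (Pf P φ h) (P t x) := Integrable.of_bound hm1.aestronglyMeasurable M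
        (Eventually.of_forall fun y => hP.abs_le hh.le y hD.bdd)
      have i2 : Integrable φ (P t x) := Integrable.of_bound hφm.aestronglyMeasurable M
        (Eventually.of_forall hD.bdd)
      have i3 : Integrable ℓ (P t x) := Integrable.of_bound hℓm.aestronglyMeasurable M
        (Eventually.of_forall hD.bdd')
      have e1 : ∫ y, Pf P φ h y ∂(P t x) - Pf P φ t x - h * Pf P ℓ t x =
          ∫ y, (Pf P φ h y - φ y - h * ℓ y) ∂(P t x) := by
        rw [integral_sub (f := fun y => Pf P φ h y - φ y) (g := fun y => h * ℓ y) (i1.sub i2)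
          (i3.const_mul h), integral_sub i1 i2, integral_const_mul]
        rfl
      rw [e0, e1]
      have h3 := norm_integral_le_of_norm_le_const (μ := P t x)
        (f := fun y => Pf P φ h y - φ y - h * ℓ y) (C := δ * h)
        (Eventually.of_forall fun y => hgen h hh hh0 y)
      simpa using h3
    have h2 := hDt.bdd x
    have h3 := hDt.bdd' x
    set A := Pf P φ t x
    set B := Pf P ℓ t x
    set R := Pf P φ (t + h) x - A - h * B with hR
    have e2 : Pf P φ (t + h) x = A + h * B + R := by rw [hR]; ring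
    rw [e2]
    have h4 : A * R ≤ M * (δ * h) := by
      refine (le_abs_self _).trans ?_
      rw [abs_mul]; exact mul_le_mul h2 h1 (abs_nonneg _) hM
    have h5 : B * R ≤ M * (δ * h) := by
      refine (le_abs_self _).trans ?_
      rw [abs_mul]; exact mul_le_mul h3 h1 (abs_nonneg _) hM
    have h6 : B ^ 2 ≤ M ^ 2 := by
      rw [← sq_abs B]; exact pow_le_pow_left₀ (abs_nonneg _) h3 2
    have h7 : R ^ 2 ≤ (δ * h) ^ 2 := by
      rw [← sq_abs R]; exact pow_le_pow_left₀ (abs_nonneg _) h1 2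
    have h8 : h * (B * R) ≤ h * (M * (δ * h)) := mul_le_mul_of_nonneg_left h5 hh.le
    have h9 : h ^ 2 * B ^ 2 ≤ h ^ 2 * M ^ 2 := mul_le_mul_of_nonneg_left h6 (sq_nonneg _)
    simp only [hη]
    nlinarith
  have i1 : Integrable (fun x => Pf P φ t x ^ 2 * Real.exp (-V x)) m :=
    hbd _ (c1.pow 2) (M ^ 2) (fun x => by
      rw [abs_pow]; exact pow_le_pow_left₀ (abs_nonneg _) (hDt.bdd x) 2)
  have i2 : Integrable (fun x => Pf P φ t x * Pf P ℓ t x * Real.exp (-V x)) m :=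
    hbd _ (c1.mul c2) (M * M) (fun x => by
      rw [abs_mul]; exact mul_le_mul (hDt.bdd x) (hDt.bdd' x) (abs_nonneg _) hM)
  have i3 : Integrable (fun x => Pf P φ (t + h) x ^ 2 * Real.exp (-V x)) m :=
    hbd _ (c3.pow 2) (M ^ 2) (fun x => by
      rw [abs_pow]; exact pow_le_pow_left₀ (abs_nonneg _) (hP.abs_le hth x hD.bdd) 2)
  have e3 : ∫ x, (Pf P φ t x ^ 2 * Real.exp (-V x) +
      2 * h * (Pf P φ t x * Pf P ℓ t x * Real.exp (-V x)) + h * η * Real.exp (-V x)) ∂m =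
      ∫ x, Pf P φ t x ^ 2 * Real.exp (-V x) ∂m +
        2 * h * (∫ x, Pf P φ t x * Pf P ℓ t x * Real.exp (-V x) ∂m) +
        h * η * ∫ x, Real.exp (-V x) ∂m := by
    rw [integral_add (f := fun x => Pf P φ t x ^ 2 * Real.exp (-V x) +
      2 * h * (Pf P φ t x * Pf P ℓ t x * Real.exp (-V x))) (g := fun x => h * η * Real.exp (-V x))
      (i1.add (i2.const_mul _)) (hVi.const_mul _), integral_add i1 (i2.const_mul _),
      integral_const_mul, integral_const_mul]
  have h10 : ∫ x, Pf P φ (t + h) x ^ 2 * Real.exp (-V x) ∂m ≤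
      ∫ x, Pf P φ t x ^ 2 * Real.exp (-V x) ∂m +
        2 * h * (∫ x, Pf P φ t x * Pf P ℓ t x * Real.exp (-V x) ∂m) +
        h * η * ∫ x, Real.exp (-V x) ∂m := by
    rw [← e3]
    refine integral_mono i3 ((i1.add (i2.const_mul _)).add (hVi.const_mul _)) fun x => ?_
    have := mul_le_mul_of_nonneg_right (hpt x) (hE0 x).le
    simp only
    linarith
  nlinarith

/-- **T4** for functions in the domain -/
theorem davies_dom (hK : K ≤ 0) (hN : 0 < N)
    (hfin : ∀ (x : X) (r : ℝ), m (closedBall x r) < ∞)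
    (hposb : ∀ (x : X) (r : ℝ), 0 < r → 0 < m (ball x r))
    (hexp : ∃ (x : X) (c : ℝ), 0 < c ∧ ∫⁻ y, ENNReal.ofReal (Real.exp (-c * dist x y ^ 2)) ∂m < ∞)
    (hP : EVIKer K N m P) (hg : Geod X) (o : X) {V : X → ℝ} {a : ℝ} (ha : 0 ≤ a)
    (hV : ∀ x y, |V x - V y| ≤ a * dist x y) (hVi : Integrable (fun x => Real.exp (-V x)) m)
    (hV2 : Integrable (fun x => dist o x ^ 2 * Real.exp (-V x)) m) {φ ℓ : X → ℝ} {M L : ℝ}
    (hM : 0 ≤ M) (hL : 0 ≤ L) (hφ0 : ∀ x, 0 ≤ φ x) (hD : Dom P φ ℓ M L) {T : ℝ} (hT : 0 ≤ T) :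
    ∫ x, Pf P φ T x ^ 2 * Real.exp (-V x) ∂m ≤
      Real.exp (a ^ 2 * T) * ∫ x, φ x ^ 2 * Real.exp (-V x) ∂m := by
  have hφm := (dv_cont hD.lip).measurable
  have hJ0 : ∫ x, Pf P φ 0 x ^ 2 * Real.exp (-V x) ∂m = ∫ x, φ x ^ 2 * Real.exp (-V x) ∂m :=
    integral_congr_ae (ae_of_all _ fun x => by simp only [hP.Pf_zero hφm x])
  rcases hT.eq_or_lt with h0 | hT0
  · rw [← h0, hJ0]; simp
  set J : ℝ → ℝ := fun t => ∫ x, Pf P φ t x ^ 2 * Real.exp (-V x) ∂m with hJ
  set I0 := ∫ x, Real.exp (-V x) ∂m with hI0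
  have hI00 : 0 ≤ I0 := integral_nonneg fun x => (Real.exp_pos _).le
  have hexpT : 0 < Real.exp (a ^ 2 * T) := Real.exp_pos _
  refine le_of_forall_pos_le_add fun γ hγ => ?_
  set B := Real.exp (a ^ 2 * T) * (T * ((M ^ 2 + 4 * M + 1) * I0)) with hB
  have hB0 : 0 ≤ B := by positivity
  set δ := min 1 (γ / (B + 1)) with hδ
  have hδ0 : 0 < δ := by positivity
  have hδ1 : δ ≤ 1 := min_le_left _ _
  have hδB : δ * B ≤ γ := by
    have h1 : δ ≤ γ / (B + 1) := min_le_right _ _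
    rw [le_div_iff₀ (by positivity)] at h1
    nlinarith
  obtain ⟨t₀, ht₀, hgen⟩ := hD.gen δ hδ0
  obtain ⟨n, hn⟩ := exists_nat_gt (T / min t₀ δ)
  have hmin : 0 < min t₀ δ := by positivity
  have hn0 : (0 : ℝ) < n := lt_trans (by positivity) hn
  set h := T / n with hh
  have hh0 : 0 < h := by positivity
  have hh1 : h ≤ min t₀ δ := by
    rw [div_lt_iff₀ hmin] at hn
    rw [hh, div_le_iff₀ hn0]; linarith
  have hh2 : h ≤ t₀ := hh1.trans (min_le_left _ _)
  have hh3 : h ≤ δ := hh1.trans (min_le_right _ _)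
  set η := h * M ^ 2 + 2 * M * δ + 2 * M * δ * h + δ ^ 2 * h with hη
  have hη0 : 0 ≤ η := by positivity
  have hη1 : η ≤ δ * (M ^ 2 + 4 * M + 1) := by
    have h1 : h * M ^ 2 ≤ δ * M ^ 2 := mul_le_mul_of_nonneg_right hh3 (sq_nonneg _)
    have h2 : 2 * M * δ * h ≤ 2 * M * δ * 1 :=
      mul_le_mul_of_nonneg_left (hh3.trans hδ1) (by positivity)
    have h3 : δ ^ 2 * h ≤ δ * 1 := by
      have h4 : δ ^ 2 ≤ δ := by nlinarith
      exact mul_le_mul h4 (hh3.trans hδ1) hh0.le hδ0.le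
    simp only [hη]; linarith
  have ind : ∀ k : ℕ, J (k * h) ≤ Real.exp (a ^ 2 * (k * h)) * (J 0 + k * h * (η * I0)) := by
    intro k
    induction k with
    | zero => simp
    | succ k ih =>
      have hk : (0 : ℝ) ≤ k := Nat.cast_nonneg k
      have h1 := davies_step hK hN hfin hposb hexp hP hg o ha hV hVi hV2 hM hL hφ0 hD hδ0.le hgen
        (t := k * h) (h := h) (by positivity) hh0 hh2
      have e1 : ((k + 1 : ℕ) : ℝ) * h = k * h + h := by push_cast; ring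
      rw [e1]
      have hJk : 0 ≤ J (k * h) := integral_nonneg fun x => by positivity
      have h2 : 1 + a ^ 2 * h ≤ Real.exp (a ^ 2 * h) := by
        have := Real.add_one_le_exp (a ^ 2 * h); linarith
      have h3 : (1 + a ^ 2 * h) * J (k * h) ≤ Real.exp (a ^ 2 * h) *
          (Real.exp (a ^ 2 * (k * h)) * (J 0 + k * h * (η * I0))) :=
        mul_le_mul h2 ih hJk (Real.exp_pos _).le
      have e2 : Real.exp (a ^ 2 * h) * (Real.exp (a ^ 2 * (k * h)) * (J 0 + k * h * (η * I0))) =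
          Real.exp (a ^ 2 * (k * h + h)) * (J 0 + k * h * (η * I0)) := by
        rw [← mul_assoc, ← Real.exp_add]; congr 2; ring
      have h4 : 1 ≤ Real.exp (a ^ 2 * (k * h + h)) := Real.one_le_exp (by positivity)
      have h5 : h * η * I0 ≤ Real.exp (a ^ 2 * (k * h + h)) * (h * (η * I0)) := by
        have h6 : 0 ≤ h * (η * I0) := by positivity
        nlinarith
      have e3 : J (k * h + h) = ∫ x, Pf P φ (k * h + h) x ^ 2 * Real.exp (-V x) ∂m := rfl
      rw [e3]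
      refine h1.trans ?_
      have e4 : Real.exp (a ^ 2 * (k * h + h)) * (J 0 + (k * h + h) * (η * I0)) =
          Real.exp (a ^ 2 * (k * h + h)) * (J 0 + k * h * (η * I0)) +
            Real.exp (a ^ 2 * (k * h + h)) * (h * (η * I0)) := by ring
      rw [e4]
      rw [e2] at h3
      exact add_le_add h3 h5
  have hfinal := ind n
  have e5 : (n : ℝ) * h = T := by rw [hh]; field_simp
  rw [e5] at hfinal
  have e6 : J 0 = ∫ x, φ x ^ 2 * Real.exp (-V x) ∂m := hJ0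
  rw [e6] at hfinal
  have h6 : Real.exp (a ^ 2 * T) * (T * (η * I0)) ≤ δ * B := by
    have h7 : η * I0 ≤ δ * (M ^ 2 + 4 * M + 1) * I0 := mul_le_mul_of_nonneg_right hη1 hI00
    have h8 : T * (η * I0) ≤ T * (δ * (M ^ 2 + 4 * M + 1) * I0) :=
      mul_le_mul_of_nonneg_left h7 hT
    have h9 := mul_le_mul_of_nonneg_left h8 hexpT.le
    rw [hB]; linarith
  have e7 : J T = ∫ x, Pf P φ T x ^ 2 * Real.exp (-V x) ∂m := rfl
  rw [e7] at hfinal
  linarith

end semi

end Pool.Agent.BDRY
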