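import Pool.Agent.Work.MP_209cb6_gt.B2.ExpInt
import Pool.Agent.Work.MP_209cb6_gt.B2.SymDef

/-!
# BDRY2, SYM: functions with exponential decay of every order, and the generator
-/

set_option autoImplicit false

open MeasureTheory MeasureTheory.Measure Metric Set Filter Topology
open scoped ENNReal NNReal

namespace Pool.Agent.BDRY

universe u

section expdec

variable {X : Type u} [MetricSpace X] {o : X} {φ ψ : X → ℝ}

theorem ExpDec.mono (h : ExpDec o ψ) (hle : ∀ x, |φ x| ≤ |ψ x|) : ExpDec o φ := by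
  intro a
  obtain ⟨C, hC, h1⟩ := h a
  exact ⟨C, hC, fun x => (hle x).trans (h1 x)⟩

theorem ExpDec.add' (h : ExpDec o φ) (h' : ExpDec o ψ) : ExpDec o (fun x => φ x + ψ x) := by
  intro a
  obtain ⟨C, hC, h1⟩ := h a
  obtain ⟨C', hC', h1'⟩ := h' a
  refine ⟨C + C', by positivity, fun x => ?_⟩
  calc |φ x + ψ x| ≤ |φ x| + |ψ x| := abs_add_le _ _
    _ ≤ C * Real.exp (-a * dist o x) + C' * Real.exp (-a * dist o x) := add_le_add (h1 x) (h1' x)
    _ = _ := by ring

theorem ExpDec.const_mul' (c : ℝ) (h : ExpDec o φ) : ExpDec o (fun x => c * φ x) := by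
  intro a
  obtain ⟨C, hC, h1⟩ := h a
  refine ⟨|c| * C, by positivity, fun x => ?_⟩
  rw [abs_mul, mul_assoc]
  exact mul_le_mul_of_nonneg_left (h1 x) (abs_nonneg c)

theorem ExpDec.neg' (h : ExpDec o φ) : ExpDec o (fun x => -φ x) :=
  h.mono fun x => by rw [abs_neg]

theorem ExpDec.abs' (h : ExpDec o φ) : ExpDec o (fun x => |φ x|) :=
  h.mono fun x => by rw [abs_abs]

theorem ExpDec.sub (h : ExpDec o φ) (h' : ExpDec o ψ) : ExpDec o (fun x => φ x - ψ x) := by
  simpa only [sub_eq_add_neg] using h.add' h'.neg'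

theorem ExpDec.bdd (h : ExpDec o φ) : ∃ M : ℝ, 0 ≤ M ∧ ∀ x, |φ x| ≤ M := by
  obtain ⟨C, hC, h1⟩ := h 0
  exact ⟨C, hC, fun x => by simpa using h1 x⟩

theorem ExpDec.bdd_mul {g : X → ℝ} {M : ℝ} (hM : ∀ x, |g x| ≤ M) (h : ExpDec o φ) :
    ExpDec o (fun x => g x * φ x) := by
  have hM0 : 0 ≤ M := (abs_nonneg _).trans (hM o)
  refine (h.const_mul' M).mono fun x => ?_
  rw [abs_mul, abs_mul, abs_of_nonneg hM0]
  exact mul_le_mul_of_nonneg_right (hM x) (abs_nonneg _)

theorem ExpDec.mul (h : ExpDec o φ) (h' : ExpDec o ψ) : ExpDec o (fun x => φ x * ψ x) := by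
  obtain ⟨M, _, hM⟩ := h.bdd
  exact h'.bdd_mul hM

theorem ExpDec.of_supp {M R : ℝ} (hM : ∀ x, |φ x| ≤ M) (hR : ∀ x, R < dist o x → φ x = 0) :
    ExpDec o φ := by
  intro a
  have hM0 : 0 ≤ M := (abs_nonneg _).trans (hM o)
  refine ⟨M * Real.exp (|a| * |R|), by positivity, fun x => ?_⟩
  rcases lt_or_ge R (dist o x) with h | h
  · rw [hR x h, abs_zero]
    positivity
  · rw [mul_assoc, ← Real.exp_add]
    have h1 : 0 ≤ |a| * |R| + -a * dist o x := by
      have h2 : a * dist o x ≤ |a| * |R| := by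
        calc a * dist o x ≤ |a| * dist o x := by
              gcongr
              exact le_abs_self a
          _ ≤ |a| * |R| := by
              gcongr
              exact h.trans (le_abs_self R)
      linarith
    have h3 : 1 ≤ Real.exp (|a| * |R| + -a * dist o x) := Real.one_le_exp h1
    calc |φ x| ≤ M * 1 := by
          rw [mul_one]
          exact hM x
      _ ≤ _ := by gcongr

/-- the centre does not matter -/
theorem ExpDec.center (h : ExpDec o φ) (o' : X) : ExpDec o' φ := by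
  intro a
  obtain ⟨C, hC, h1⟩ := h a
  refine ⟨C * Real.exp (|a| * dist o o'), by positivity, fun x => (h1 x).trans ?_⟩
  rw [mul_assoc, ← Real.exp_add]
  gcongr
  have h2 : |dist o' x - dist o x| ≤ dist o o' := by
    rw [dist_comm o o', dist_comm o' x, dist_comm o x, dist_comm o' o]
    rw [dist_comm o o']
    exact abs_dist_sub_le_dist_right
  have h3 : |a * (dist o' x - dist o x)| ≤ |a| * dist o o' := by
    rw [abs_mul]
    gcongr
  have h4 := (le_abs_self _).trans h3
  linarith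
where
  abs_dist_sub_le_dist_right {X : Type u} [MetricSpace X] {x o o' : X} :
      |dist x o' - dist x o| ≤ dist o' o := by
    rw [abs_le]
    have h1 := dist_triangle x o' o
    have h2 := dist_triangle x o o'
    rw [dist_comm o o'] at h2
    constructor <;> linarith

variable [MeasurableSpace X] [BorelSpace X] {K : ℝ} {n : ℕ} {m : Measure X}

theorem ExpDec.integrable' (h : ExpDec o φ) (hK : K ≤ 0) (hX : IsRCD K (n + 1) X m)
    (hφ : AEStronglyMeasurable φ m) : Integrable φ m := by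
  obtain ⟨C, hC, h1⟩ := h (aK K n)
  refine Integrable.mono' ((exp_integrable hK hX o le_rfl).const_mul C) hφ
    (ae_of_all _ fun x => ?_)
  rw [Real.norm_eq_abs]
  exact h1 x

omit [MeasurableSpace X] [BorelSpace X] in
/-- powers of the distance are harmless -/
theorem ExpDec.pow_mul (h : ExpDec o φ) (k : ℕ) : ExpDec o (fun x => dist o x ^ k * φ x) := by
  intro a
  obtain ⟨C, hC, h1⟩ := h (a + 1)
  refine ⟨k.factorial * C, by positivity, fun x => ?_⟩
  have h0 : 0 ≤ dist o x := dist_nonneg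
  have h2 : dist o x ^ k / k.factorial ≤ Real.exp (dist o x) :=
    Real.pow_div_factorial_le_exp _ h0 k
  rw [div_le_iff₀ (by positivity)] at h2
  rw [abs_mul, abs_of_nonneg (by positivity : 0 ≤ dist o x ^ k)]
  calc dist o x ^ k * |φ x|
      ≤ (Real.exp (dist o x) * k.factorial) * (C * Real.exp (-(a + 1) * dist o x)) := by
        gcongr
        exact h1 x
    _ = k.factorial * C * (Real.exp (dist o x) * Real.exp (-(a + 1) * dist o x)) := by ring
    _ = k.factorial * C * Real.exp (-a * dist o x) := by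
        rw [← Real.exp_add]
        congr 2
        ring

end expdec

section dom

variable {X : Type u} [MetricSpace X] [MeasurableSpace X] {P : ℝ → X → Measure X}
  {φ ψ ℓ ℓ' : X → ℝ} {M L M' L' : ℝ}

/-- the generator is well defined -/
theorem Dom.unique (h : Dom P φ ℓ M L) (h' : Dom P φ ℓ' M' L') : ℓ = ℓ' := by
  funext x
  by_contra hne
  have hpos : 0 < |ℓ x - ℓ' x| := abs_pos.2 (sub_ne_zero.2 hne)
  obtain ⟨t₁, ht₁, h1⟩ := h.gen (|ℓ x - ℓ' x| / 4) (by positivity)
  obtain ⟨t₂, ht₂, h2⟩ := h'.gen (|ℓ x - ℓ' x| / 4) (by positivity)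
  have h3 := h1 (min t₁ t₂) (lt_min ht₁ ht₂) (min_le_left _ _) x
  have h4 := h2 (min t₁ t₂) (lt_min ht₁ ht₂) (min_le_right _ _) x
  set t := min t₁ t₂ with ht
  have ht0 : 0 < t := lt_min ht₁ ht₂
  have h5 : |t * ℓ x - t * ℓ' x| ≤ |ℓ x - ℓ' x| / 4 * t + |ℓ x - ℓ' x| / 4 * t := by
    have e : t * ℓ x - t * ℓ' x = (∫ y, φ y ∂(P t x) - φ x - t * ℓ' x) -
        (∫ y, φ y ∂(P t x) - φ x - t * ℓ x) := by ring
    rw [e]
    exact (abs_sub _ _).trans (by linarith)
  rw [← mul_sub, abs_mul, abs_of_pos ht0] at h5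
  nlinarith

theorem Dom.neg (h : Dom P φ ℓ M L) : Dom P (fun x => -φ x) (fun x => -ℓ x) M L where
  bdd x := by rw [abs_neg]; exact h.bdd x
  bdd' x := by rw [abs_neg]; exact h.bdd' x
  lip x y := by
    rw [show -φ x - -φ y = -(φ x - φ y) by ring, abs_neg]
    exact h.lip x y
  lip' x y := by
    rw [show -ℓ x - -ℓ y = -(ℓ x - ℓ y) by ring, abs_neg]
    exact h.lip' x y
  gen δ hδ := by
    obtain ⟨t₀, ht₀, h1⟩ := h.gen δ hδ
    refine ⟨t₀, ht₀, fun t ht ht' x => ?_⟩
    rw [integral_neg, show -∫ y, φ y ∂(P t x) - -φ x - t * -ℓ x =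
      -(∫ y, φ y ∂(P t x) - φ x - t * ℓ x) by ring, abs_neg]
    exact h1 t ht ht' x

theorem Dom.const_mul (h : Dom P φ ℓ M L) (c : ℝ) :
    Dom P (fun x => c * φ x) (fun x => c * ℓ x) (|c| * M) (|c| * L) where
  bdd x := by rw [abs_mul]; exact mul_le_mul_of_nonneg_left (h.bdd x) (abs_nonneg _)
  bdd' x := by rw [abs_mul]; exact mul_le_mul_of_nonneg_left (h.bdd' x) (abs_nonneg _)
  lip x y := by
    rw [← mul_sub, abs_mul, mul_assoc]
    exact mul_le_mul_of_nonneg_left (h.lip x y) (abs_nonneg _)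
  lip' x y := by
    rw [← mul_sub, abs_mul, mul_assoc]
    exact mul_le_mul_of_nonneg_left (h.lip' x y) (abs_nonneg _)
  gen δ hδ := by
    obtain ⟨t₀, ht₀, h1⟩ := h.gen (δ / (|c| + 1)) (by positivity)
    refine ⟨t₀, ht₀, fun t ht ht' x => ?_⟩
    rw [integral_const_mul, show c * ∫ y, φ y ∂(P t x) - c * φ x - t * (c * ℓ x) =
      c * (∫ y, φ y ∂(P t x) - φ x - t * ℓ x) by ring, abs_mul]
    have h2 := h1 t ht ht' x
    calc |c| * |∫ y, φ y ∂(P t x) - φ x - t * ℓ x| ≤ |c| * (δ / (|c| + 1) * t) := by gcongr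
      _ = |c| / (|c| + 1) * (δ * t) := by ring
      _ ≤ 1 * (δ * t) := by
          gcongr
          rw [div_le_one (by positivity)]
          linarith
      _ = δ * t := one_mul _

theorem Dom.add {K : ℝ} {N : ℕ} {m : Measure X} [BorelSpace X] (hP : EVIKer K N m P)
    (h : Dom P φ ℓ M L) (h' : Dom P ψ ℓ' M' L') :
    Dom P (fun x => φ x + ψ x) (fun x => ℓ x + ℓ' x) (M + M') (L + L') where
  bdd x := (abs_add_le _ _).trans (add_le_add (h.bdd x) (h'.bdd x))
  bdd' x := (abs_add_le _ _).trans (add_le_add (h.bdd' x) (h'.bdd' x))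
  lip x y := by
    rw [show φ x + ψ x - (φ y + ψ y) = (φ x - φ y) + (ψ x - ψ y) by ring, add_mul]
    exact (abs_add_le _ _).trans (add_le_add (h.lip x y) (h'.lip x y))
  lip' x y := by
    rw [show ℓ x + ℓ' x - (ℓ y + ℓ' y) = (ℓ x - ℓ y) + (ℓ' x - ℓ' y) by ring, add_mul]
    exact (abs_add_le _ _).trans (add_le_add (h.lip' x y) (h'.lip' x y))
  gen δ hδ := by
    obtain ⟨t₁, ht₁, h1⟩ := h.gen (δ / 2) (by positivity)
    obtain ⟨t₂, ht₂, h2⟩ := h'.gen (δ / 2) (by positivity)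
    have cont : ∀ {χ : X → ℝ} {L : ℝ}, (∀ x y, |χ x - χ y| ≤ L * dist x y) → Continuous χ := by
      intro χ L hχ
      refine LipschitzWith.continuous (K := Real.toNNReal (max L 0))
        (LipschitzWith.of_dist_le_mul fun y y' => ?_)
      rw [Real.dist_eq, Real.coe_toNNReal _ (le_max_right _ _)]
      refine (hχ y y').trans ?_
      gcongr
      exact le_max_left _ _
    have hi : ∀ {χ : X → ℝ} {M L : ℝ}, (∀ x, |χ x| ≤ M) → (∀ x y, |χ x - χ y| ≤ L * dist x y) →
        ∀ t, 0 ≤ t → ∀ x, Integrable χ (P t x) := by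
      intro χ M L hM hL t ht x
      have := hP.prob t ht x
      exact Integrable.of_bound (cont hL).aestronglyMeasurable M
        (ae_of_all _ fun y => by rw [Real.norm_eq_abs]; exact hM y)
    refine ⟨min t₁ t₂, lt_min ht₁ ht₂, fun t ht ht' x => ?_⟩
    rw [integral_add (hi h.bdd h.lip t ht.le x) (hi h'.bdd h'.lip t ht.le x),
      show ∫ y, φ y ∂(P t x) + ∫ y, ψ y ∂(P t x) - (φ x + ψ x) - t * (ℓ x + ℓ' x) =
        (∫ y, φ y ∂(P t x) - φ x - t * ℓ x) + (∫ y, ψ y ∂(P t x) - ψ x - t * ℓ' x) by ring]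
    refine (abs_add_le _ _).trans ?_
    have h3 := h1 t ht (ht'.trans (min_le_left _ _)) x
    have h4 := h2 t ht (ht'.trans (min_le_right _ _)) x
    linarith

end dom

end Pool.Agent.BDRY
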