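import Pool.Agent.Work.MP_209cb6_gt.B2.SymTail
import Pool.Agent.Work.MP_209cb6_gt.B2.SymExp
import Pool.Agent.Work.MP_209cb6_gt.B2.SymPf
import Pool.Agent.Work.MP_209cb6_gt.B2.SymAbs

/-!
# BDRY2, SYM: the function `G s r = ∫ P_s g P_r f dm`
-/

set_option autoImplicit false

open MeasureTheory MeasureTheory.Measure Metric Set Filter Topology
open scoped ENNReal NNReal

namespace Pool.Agent.BDRY

universe u

/-- Lipschitz functions of bounded support. -/
structure LipSupp {X : Type u} [MetricSpace X] (o : X) (f : X → ℝ) (L M R : ℝ) : Prop where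
  L0 : 0 ≤ L
  bdd : ∀ x, |f x| ≤ M
  lip : ∀ x y, |f x - f y| ≤ L * dist x y
  supp : ∀ x, R < dist o x → f x = 0

section G

variable {X : Type u} [MetricSpace X] {o : X} {f g : X → ℝ} {L M R L' M' R' : ℝ}

theorem cont_of_lip (hL : 0 ≤ L) (hf : ∀ x y, |f x - f y| ≤ L * dist x y) : Continuous f := by
  refine LipschitzWith.continuous (K := Real.toNNReal L)
    (LipschitzWith.of_dist_le_mul fun y y' => ?_)
  rw [Real.dist_eq, Real.coe_toNNReal _ hL]
  exact hf y y'

theorem LipSupp.cont (h : LipSupp o f L M R) : Continuous f := cont_of_lip h.L0 h.lip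

theorem LipSupp.expDec (h : LipSupp o f L M R) : ExpDec o f := ExpDec.of_supp h.bdd h.supp

theorem LipSupp.abs (h : LipSupp o f L M R) : LipSupp o (fun x => |f x|) L M R :=
  ⟨h.L0, fun x => by rw [abs_abs]; exact h.bdd x,
    fun x y => (abs_abs_sub_abs_le_abs_sub _ _).trans (h.lip x y),
    fun x hx => by rw [h.supp x hx, abs_zero]⟩

variable [MeasurableSpace X] [BorelSpace X] {K : ℝ} {n : ℕ} {m : Measure X}
  {P : ℝ → X → Measure X}

omit [BorelSpace X] in
theorem Pf_zero (hP : EVIKer K (n + 1) m P) (f : X → ℝ) (hf : Measurable f) (x : X) :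
    Pf P f 0 x = f x := by
  rw [Pf, hP.zero, integral_dirac' _ _ hf.stronglyMeasurable]

/-- joint continuity of `(t, x) ↦ P_t f x` on `[0, ∞) × X` -/
theorem Pf_jcont (hK : K ≤ 0) (hX : IsRCD K (n + 1) X m) (hP : EVIKer K (n + 1) m P)
    (hL : 0 ≤ L) (hlip : ∀ x y, |f x - f y| ≤ L * dist x y) :
    ContinuousOn (fun p : ℝ × X => Pf P f p.1 p.2) (Ici 0 ×ˢ univ) := by
  have := hX.proper
  rintro ⟨t, x⟩ ⟨ht, -⟩
  have ht0 : (0 : ℝ) ≤ t := ht
  have hW := (hP.flow _ (isP2_dirac x)).cont t ht0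
  simp only [hP.bind_dirac ht0] at hW
  -- the time part
  have h1 : Tendsto (fun p : ℝ × X => W2 ((dirac x).bind (P p.1)) (P t x))
      (𝓝[Ici 0 ×ˢ univ] (t, x)) (𝓝 0) := by
    refine hW.comp ?_
    rw [nhdsWithin_prod_eq, nhdsWithin_univ]
    exact tendsto_fst
  have h2 : Tendsto (fun p : ℝ × X => L * Real.exp (-K * p.1) * dist p.2 x + L *
      W2 ((dirac x).bind (P p.1)) (P t x)) (𝓝[Ici 0 ×ˢ univ] (t, x)) (𝓝 0) := by
    have h3 : Tendsto (fun p : ℝ × X => L * Real.exp (-K * p.1) * dist p.2 x)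
        (𝓝[Ici 0 ×ˢ univ] (t, x)) (𝓝 (L * Real.exp (-K * t) * dist x x)) := by
      have h4 : Continuous fun p : ℝ × X => L * Real.exp (-K * p.1) * dist p.2 x := by fun_prop
      exact (h4.tendsto (t, x)).mono_left nhdsWithin_le_nhds
    have h5 := h3.add (h1.const_mul L)
    simpa using h5
  have h3 : Tendsto (fun p : ℝ × X => dist (Pf P f p.1 p.2) (Pf P f t x))
      (𝓝[Ici 0 ×ˢ univ] (t, x)) (𝓝 0) := by
    refine squeeze_zero' (Eventually.of_forall fun p => dist_nonneg) ?_ h2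
    filter_upwards [self_mem_nhdsWithin] with p hp
    have hp0 : (0 : ℝ) ≤ p.1 := hp.1
    rw [Real.dist_eq]
    have h4 := hP.lip hK (Nat.succ_pos n) hX.geod hp0 hL hlip p.2 x
    have h5 : |∫ y, f y ∂(P p.1 x) - ∫ y, f y ∂(P t x)| ≤ L * W2 (P p.1 x) (P t x) := by
      have key : ∀ e : ℝ, 0 < e → |∫ y, f y ∂(P p.1 x) - ∫ y, f y ∂(P t x)| ≤
          (L + e) * W2 (P p.1 x) (P t x) := by
        intro e he
        have hLe : 0 < L + e := by linarith
        have h1 : LipschitzWith 1 fun z => f z / (L + e) := by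
          refine LipschitzWith.of_dist_le_mul fun a b => ?_
          rw [Real.dist_eq, NNReal.coe_one, one_mul, ← sub_div, abs_div, abs_of_pos hLe,
            div_le_iff₀ hLe]
          have h1 := hlip a b
          have h3 : (0 : ℝ) ≤ dist a b := dist_nonneg
          nlinarith
        have h2 := abs_integral_sub_le_W2 (hP.isP2_pt hp0 x) (hP.isP2_pt ht0 x) h1
        rw [integral_div, integral_div, ← sub_div, abs_div, abs_of_pos hLe,
          div_le_iff₀ hLe] at h2
        linarith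
      have hlim : Tendsto (fun e : ℝ => (L + e) * W2 (P p.1 x) (P t x)) (𝓝[>] 0)
          (𝓝 ((L + 0) * W2 (P p.1 x) (P t x))) := by
        have : Continuous fun e : ℝ => (L + e) * W2 (P p.1 x) (P t x) := by fun_prop
        exact (this.tendsto 0).mono_left nhdsWithin_le_nhds
      have h1 := ge_of_tendsto hlim (by
        filter_upwards [self_mem_nhdsWithin] with e he
        exact key e he)
      rwa [add_zero] at h1
    rw [hP.bind_dirac hp0]
    simp only [Pf]
    calc |∫ y, f y ∂(P p.1 p.2) - ∫ y, f y ∂(P t x)|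
        = |(∫ y, f y ∂(P p.1 p.2) - ∫ y, f y ∂(P p.1 x)) +
            (∫ y, f y ∂(P p.1 x) - ∫ y, f y ∂(P t x))| := by ring_nf
      _ ≤ _ := (abs_add_le _ _).trans (add_le_add h4 h5)
  exact tendsto_iff_dist_tendsto_zero.2 h3

theorem Pf_cont (hK : K ≤ 0) (hX : IsRCD K (n + 1) X m) (hP : EVIKer K (n + 1) m P)
    (hL : 0 ≤ L) (hlip : ∀ x y, |f x - f y| ≤ L * dist x y) {t : ℝ} (ht : 0 ≤ t) :
    Continuous (Pf P f t) := by
  have := hX.proper
  exact cont_of_lip (L := L * Real.exp (-K * t)) (by positivity)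
    (fun x y => hP.lip hK (Nat.succ_pos n) hX.geod ht hL hlip x y)

theorem Pf_cont_time (hK : K ≤ 0) (hX : IsRCD K (n + 1) X m) (hP : EVIKer K (n + 1) m P)
    (hL : 0 ≤ L) (hlip : ∀ x y, |f x - f y| ≤ L * dist x y) (x : X) :
    ContinuousOn (fun t => Pf P f t x) (Ici 0) :=
  (Pf_jcont hK hX hP hL hlip).comp (continuousOn_id.prodMk continuousOn_const)
    fun _ ht => ⟨ht, mem_univ _⟩

/-- `(t, x) ↦ P_{max t 0} f x` is continuous -/
theorem Pf_jcont' (hK : K ≤ 0) (hX : IsRCD K (n + 1) X m) (hP : EVIKer K (n + 1) m P)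
    (hL : 0 ≤ L) (hlip : ∀ x y, |f x - f y| ≤ L * dist x y) :
    Continuous (fun p : ℝ × X => Pf P f (max p.1 0) p.2) := by
  have h1 : Continuous fun p : ℝ × X => (max p.1 0, p.2) :=
    (continuous_fst.max continuous_const).prodMk continuous_snd
  exact (Pf_jcont hK hX hP hL hlip).comp_continuous h1
    fun p => ⟨mem_Ici.2 (le_max_right _ _), mem_univ _⟩

omit [BorelSpace X] in
theorem Pf_abs_le (hP : EVIKer K (n + 1) m P) (hM : ∀ x, |f x| ≤ M) {t : ℝ} (ht : 0 ≤ t)
    (x : X) : |Pf P f t x| ≤ M := hP.abs_le ht x hM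

theorem Pf_tail (hK : K ≤ 0) (hX : IsRCD K (n + 1) X m) (hP : EVIKer K (n + 1) m P)
    (h : LipSupp o f L M R) (hW : WeightBd K n m P fun x => |f x|) (T b : ℝ) :
    ∃ C : ℝ, 0 ≤ C ∧ ∀ t, 0 ≤ t → t ≤ T → ∀ x, |Pf P f t x| ≤ C * Real.exp (-b * dist o x) :=
  tail hK hX hP o h.L0 h.bdd h.lip h.supp hW T b

theorem Pf_expDec (hK : K ≤ 0) (hX : IsRCD K (n + 1) X m) (hP : EVIKer K (n + 1) m P)
    (h : LipSupp o f L M R) (hW : WeightBd K n m P fun x => |f x|) {t : ℝ} (ht : 0 ≤ t) :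
    ExpDec o (Pf P f t) := by
  intro b
  obtain ⟨C, hC, h1⟩ := Pf_tail hK hX hP h hW t b
  exact ⟨C, hC, h1 t ht le_rfl⟩

theorem gen_expDec (hK : K ≤ 0) (hX : IsRCD K (n + 1) X m) (hP : EVIKer K (n + 1) m P)
    (h : LipSupp o f L M R) (hW : WeightBd K n m P fun x => |f x|) {t : ℝ} (ht : 0 ≤ t) :
    ExpDec o (fun x => Pf P f t x - f x) := (Pf_expDec hK hX hP h hW ht).sub h.expDec

theorem Ar_expDec (hK : K ≤ 0) (hX : IsRCD K (n + 1) X m) (hP : EVIKer K (n + 1) m P)
    (h : LipSupp o f L M R) (hW : WeightBd K n m P fun x => |f x|) {r : ℝ} (hr : 0 ≤ r) :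
    ExpDec o (Ar P f r) := by
  intro b
  obtain ⟨C, hC, h1⟩ := Pf_tail hK hX hP h hW r b
  refine ⟨C * r, by positivity, fun x => ?_⟩
  have h2 := intervalIntegral.norm_integral_le_of_norm_le_const (a := (0 : ℝ)) (b := r)
    (f := fun v => Pf P f v x) (C := C * Real.exp (-b * dist o x)) (fun v hv => by
      rw [uIoc_of_le hr] at hv
      rw [Real.norm_eq_abs]
      exact h1 v hv.1.le hv.2 x)
  rw [Real.norm_eq_abs, sub_zero, abs_of_nonneg hr] at h2
  unfold Ar
  linarith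

theorem Ar_cont (hK : K ≤ 0) (hX : IsRCD K (n + 1) X m) (hP : EVIKer K (n + 1) m P)
    (hL : 0 ≤ L) (hlip : ∀ x y, |f x - f y| ≤ L * dist x y) {r : ℝ} (hr : 0 ≤ r) :
    Continuous (Ar P f r) := by
  have h1 : Ar P f r = fun x => ∫ v in (0 : ℝ)..r, Pf P f (max v 0) x := by
    funext x
    refine intervalIntegral.integral_congr fun v hv => ?_
    rw [uIcc_of_le hr] at hv
    simp [hv.1]
  rw [h1]
  have h2 : Continuous (Function.uncurry fun (x : X) (v : ℝ) => Pf P f (max v 0) x) :=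
    (Pf_jcont' hK hX hP hL hlip).comp continuous_swap
  exact intervalIntegral.continuous_parametric_intervalIntegral_of_continuous' h2 0 r

/-- `G s r = ∫ P_s g P_r f dm` -/
noncomputable def GG (P : ℝ → X → Measure X) (m : Measure X) (g f : X → ℝ) (s r : ℝ) : ℝ :=
  ∫ x, Pf P g s x * Pf P f r x ∂m

theorem GG_continuousOn (hK : K ≤ 0) (hX : IsRCD K (n + 1) X m) (hP : EVIKer K (n + 1) m P)
    (hf : LipSupp o f L M R) (hWf : WeightBd K n m P fun x => |f x|)
    (hg : LipSupp o g L' M' R') :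
    ContinuousOn (Function.uncurry (GG P m g f)) (Ici 0 ×ˢ Ici 0) := by
  rintro ⟨s₀, r₀⟩ ⟨hs₀, hr₀⟩
  have hs₀' : (0 : ℝ) ≤ s₀ := hs₀
  have hr₀' : (0 : ℝ) ≤ r₀ := hr₀
  obtain ⟨C, hC, h1⟩ := Pf_tail hK hX hP hf hWf (r₀ + 1) (aK K n)
  have hM' : 0 ≤ M' := (abs_nonneg _).trans (hg.bdd o)
  have hnear : ∀ᶠ p : ℝ × ℝ in 𝓝[Ici 0 ×ˢ Ici 0] (s₀, r₀), p.2 ≤ r₀ + 1 := by
    have h2 : ∀ᶠ p : ℝ × ℝ in 𝓝 (s₀, r₀), p.2 < r₀ + 1 :=
      (continuous_snd.tendsto (s₀, r₀)).eventually_lt_const (by simp)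
    filter_upwards [nhdsWithin_le_nhds h2] with p hp
    exact hp.le
  refine continuousWithinAt_of_dominated
    (F := fun (p : ℝ × ℝ) x => Pf P g p.1 x * Pf P f p.2 x)
    (bound := fun x => M' * C * Real.exp (-aK K n * dist o x)) ?_ ?_ ?_ ?_
  · filter_upwards [self_mem_nhdsWithin] with p hp
    exact ((Pf_cont hK hX hP hg.L0 hg.lip hp.1).mul
      (Pf_cont hK hX hP hf.L0 hf.lip hp.2)).aestronglyMeasurable
  · filter_upwards [self_mem_nhdsWithin, hnear] with p hp hp2
    refine ae_of_all _ fun x => ?_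
    rw [norm_mul, Real.norm_eq_abs, Real.norm_eq_abs, mul_assoc]
    exact mul_le_mul (Pf_abs_le hP hg.bdd hp.1 x) (h1 p.2 hp.2 hp2 x) (abs_nonneg _) hM'
  · exact (exp_integrable hK hX o le_rfl).const_mul _
  · refine ae_of_all _ fun x => ?_
    have c1 : ContinuousOn (fun p : ℝ × ℝ => Pf P g p.1 x) (Ici 0 ×ˢ Ici 0) :=
      (Pf_cont_time hK hX hP hg.L0 hg.lip x).comp continuousOn_fst fun p hp => hp.1
    have c2 : ContinuousOn (fun p : ℝ × ℝ => Pf P f p.2 x) (Ici 0 ×ˢ Ici 0) :=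
      (Pf_cont_time hK hX hP hf.L0 hf.lip x).comp continuousOn_snd fun p hp => hp.2
    exact (c1.mul c2) (s₀, r₀) ⟨hs₀, hr₀⟩

/-- Fubini for `A_s g` against an integrable function -/
theorem Ar_fubini (hK : K ≤ 0) (hX : IsRCD K (n + 1) X m) (hP : EVIKer K (n + 1) m P)
    (hL : 0 ≤ L') (hlip : ∀ x y, |g x - g y| ≤ L' * dist x y) (hM : ∀ x, |g x| ≤ M')
    {h : X → ℝ} (hh : Integrable h m) {s : ℝ} (hs : 0 ≤ s) :
    ∫ x, Ar P g s x * h x ∂m = ∫ v in (0 : ℝ)..s, ∫ x, Pf P g v x * h x ∂m := by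
  have := hX.proper
  have hσ : SigmaFinite m := sigmaFinite_of_fin hX.finite_ball
  have hcont := Pf_jcont' hK hX hP hL hlip
  have hint : Integrable (Function.uncurry fun (x : X) (v : ℝ) => Pf P g (max v 0) x * h x)
      (m.prod (volume.restrict (Ioc 0 s))) := by
    have h1 : Integrable (fun p : X × ℝ => h p.1 * (1 : ℝ)) (m.prod (volume.restrict (Ioc 0 s))) :=
      hh.mul_prod (integrable_const (1 : ℝ))
    have h2 : Integrable (fun p : X × ℝ => Pf P g (max p.2 0) p.1 * (h p.1 * (1 : ℝ)))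
        (m.prod (volume.restrict (Ioc 0 s))) := by
      refine h1.bdd_mul (c := M') ?_ (ae_of_all _ fun p => ?_)
      · exact (hcont.comp continuous_swap).aestronglyMeasurable
      · rw [Real.norm_eq_abs]
        exact Pf_abs_le hP hM (le_max_right _ _) _
    refine h2.congr (ae_of_all _ fun p => ?_)
    simp [Function.uncurry]
  have hsw := integral_integral_swap hint
  have e1 : ∀ x, ∫ v in Ioc 0 s, Pf P g (max v 0) x * h x = Ar P g s x * h x := by
    intro x
    rw [integral_mul_const]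
    congr 1
    rw [Ar, intervalIntegral.integral_of_le hs]
    refine setIntegral_congr_fun measurableSet_Ioc fun v hv => ?_
    simp [hv.1.le]
  have e2 : ∫ v in Ioc 0 s, ∫ x, Pf P g (max v 0) x * h x ∂m =
      ∫ v in (0 : ℝ)..s, ∫ x, Pf P g v x * h x ∂m := by
    rw [intervalIntegral.integral_of_le hs]
    refine setIntegral_congr_fun measurableSet_Ioc fun v hv => ?_
    simp [hv.1.le]
  rw [← e2, ← hsw]
  exact integral_congr_ae (ae_of_all _ fun x => (e1 x).symm)

/-- the two forms of `-b(A_r f, A_s g)` -/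
theorem GG_fubini (hK : K ≤ 0) (hX : IsRCD K (n + 1) X m) (hP : EVIKer K (n + 1) m P)
    (hf : LipSupp o f L M R) (hWf : WeightBd K n m P fun x => |f x|)
    (hg : LipSupp o g L' M' R') {s r : ℝ} (hs : 0 ≤ s) (hr : 0 ≤ r) :
    ∫ x, Ar P g s x * (Pf P f r x - f x) ∂m =
      ∫ v in (0 : ℝ)..s, (GG P m g f v r - GG P m g f v 0) := by
  have hint : ∀ t, 0 ≤ t → Integrable (Pf P f t) m := fun t ht =>
    (Pf_expDec hK hX hP hf hWf ht).integrable' hK hX
      (Pf_cont hK hX hP hf.L0 hf.lip ht).aestronglyMeasurable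
  have hf0 : Pf P f 0 = f := funext fun x => Pf_zero hP f hf.cont.measurable x
  have hfi : Integrable f m := by
    have := hint 0 le_rfl
    rwa [hf0] at this
  have hfr : Integrable (fun x => Pf P f r x - f x) m := (hint r hr).sub hfi
  rw [Ar_fubini hK hX hP hg.L0 hg.lip hg.bdd hfr hs]
  refine intervalIntegral.integral_congr fun v hv => ?_
  rw [uIcc_of_le hs] at hv
  have hgc := Pf_cont hK hX hP hg.L0 hg.lip hv.1
  have hb : ∀ {χ : X → ℝ}, Integrable χ m → Integrable (fun x => Pf P g v x * χ x) m := by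
    intro χ hχ
    exact hχ.bdd_mul (c := M') hgc.aestronglyMeasurable
      (ae_of_all _ fun x => by rw [Real.norm_eq_abs]; exact Pf_abs_le hP hg.bdd hv.1 x)
  simp only [GG, hf0]
  rw [← integral_sub (hb (hint r hr)) (hb hfi)]
  refine integral_congr_ae (ae_of_all _ fun x => ?_)
  simp only
  ring

/-- **T8**: from the symmetry of the generator on the averages to the symmetry of the semigroup on
Lipschitz functions of bounded support. -/
theorem symm_of_gen (hK : K ≤ 0) (hX : IsRCD K (n + 1) X m) (hP : EVIKer K (n + 1) m P)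
    (hf : LipSupp o f L M R) (hWf : WeightBd K n m P fun x => |f x|)
    (hg : LipSupp o g L' M' R') (hWg : WeightBd K n m P fun x => |g x|)
    (hsym : ∀ r s, 0 ≤ r → 0 ≤ s → ∫ x, Ar P g s x * (Pf P f r x - f x) ∂m =
      ∫ x, Ar P f r x * (Pf P g s x - g x) ∂m) {t : ℝ} (ht : 0 ≤ t) :
    ∫ x, g x * Pf P f t x ∂m = ∫ x, f x * Pf P g t x ∂m := by
  have hsw : ∀ s r, GG P m f g s r = GG P m g f r s := by
    intro s r
    exact integral_congr_ae (ae_of_all _ fun x => mul_comm _ _)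
  have h1 := B2.SymAbs.symm_of_double_integral (GG P m g f)
    (GG_continuousOn hK hX hP hf hWf hg) (fun s r hs hr => by
      rw [← GG_fubini hK hX hP hf hWf hg hs hr, hsym r s hr hs,
        GG_fubini hK hX hP hg hWg hf hr hs]
      refine intervalIntegral.integral_congr fun v _ => ?_
      show GG P m f g v s - GG P m f g v 0 = GG P m g f s v - GG P m g f 0 v
      rw [hsw, hsw]) t ht
  have hf0 : Pf P f 0 = f := funext fun x => Pf_zero hP f hf.cont.measurable x
  have hg0 : Pf P g 0 = g := funext fun x => Pf_zero hP g hg.cont.measurable x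
  simp only [GG, hf0, hg0] at h1
  rw [← h1]
  exact integral_congr_ae (ae_of_all _ fun x => mul_comm _ _)

end G

end Pool.Agent.BDRY
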