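import Pool.Agent.Work.MP_209cb6_gt.B2.SymVar
import Pool.Agent.Work.MP_209cb6_gt.B2.SymAbs
import Pool.Agent.Work.MP_209cb6_gt.B2.SymGibbs
import Pool.Agent.Work.MP_209cb6_gt.B2.ExpInt
import Pool.Agent.Work.MP_209cb6_gt.B2.Sel

/-!
# BDRY2, SYM, T7: the generator is symmetric on rapidly decaying functions
-/

set_option autoImplicit false
set_option linter.unusedSectionVars false

open MeasureTheory MeasureTheory.Measure Metric Set Filter Topology
open scoped ENNReal NNReal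

namespace Pool.Agent.BDRY

universe u

variable {X : Type u} [MetricSpace X] [MeasurableSpace X]

/-- `φ` is rapidly decreasing, in the domain of the generator, with `L φ = ℓ` rapidly
decreasing. -/
def InD (P : ℝ → X → Measure X) (o : X) (φ ℓ : X → ℝ) : Prop :=
  ∃ M L : ℝ, 0 ≤ M ∧ 0 ≤ L ∧ Dom P φ ℓ M L ∧ ExpDec o φ ∧ ExpDec o ℓ

theorem Dom.inD {P : ℝ → X → Measure X} {o : X} {φ ℓ : X → ℝ} {M L : ℝ} (h : Dom P φ ℓ M L)
    (hφ : ExpDec o φ) (hℓ : ExpDec o ℓ) : InD P o φ ℓ := by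
  refine ⟨M, |L|, (abs_nonneg _).trans (h.bdd o), abs_nonneg _, ⟨h.bdd, h.bdd', ?_, ?_, h.gen⟩,
    hφ, hℓ⟩
  · intro x y
    exact (h.lip x y).trans (mul_le_mul_of_nonneg_right (le_abs_self _) dist_nonneg)
  · intro x y
    exact (h.lip' x y).trans (mul_le_mul_of_nonneg_right (le_abs_self _) dist_nonneg)

section

variable [BorelSpace X] [ProperSpace X] {K : ℝ} {N : ℕ} {m : Measure X} {P : ℝ → X → Measure X}
  {o : X}

theorem int_of_bdd (hP : EVIKer K N m P) {f : X → ℝ} (hf : Continuous f) {M : ℝ}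
    (hM : ∀ x, |f x| ≤ M) {t : ℝ} (ht : 0 ≤ t) (x : X) : Integrable f (P t x) := by
  have := hP.prob t ht x
  exact Integrable.of_bound hf.aestronglyMeasurable M (Eventually.of_forall fun y => by
    simpa using hM y)

theorem InD.add (hP : EVIKer K N m P) {φ ℓ φ' ℓ' : X → ℝ} (h : InD P o φ ℓ)
    (h' : InD P o φ' ℓ') : InD P o (fun x => φ x + φ' x) (fun x => ℓ x + ℓ' x) := by
  obtain ⟨M, L, hM, hL, hD, d1, d2⟩ := h
  obtain ⟨M', L', hM', hL', hD', d1', d2'⟩ := h'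
  refine ⟨M + M', L + L', by positivity, by positivity, ⟨?_, ?_, ?_, ?_, ?_⟩, d1.add d1',
    d2.add d2'⟩
  · intro x
    exact (abs_add_le _ _).trans (add_le_add (hD.bdd x) (hD'.bdd x))
  · intro x
    exact (abs_add_le _ _).trans (add_le_add (hD.bdd' x) (hD'.bdd' x))
  · intro x y
    have e : φ x + φ' x - (φ y + φ' y) = (φ x - φ y) + (φ' x - φ' y) := by ring
    rw [e, add_mul]
    exact (abs_add_le _ _).trans (add_le_add (hD.lip x y) (hD'.lip x y))
  · intro x y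
    have e : ℓ x + ℓ' x - (ℓ y + ℓ' y) = (ℓ x - ℓ y) + (ℓ' x - ℓ' y) := by ring
    rw [e, add_mul]
    exact (abs_add_le _ _).trans (add_le_add (hD.lip' x y) (hD'.lip' x y))
  · intro δ hδ
    obtain ⟨t₀, ht₀, h1⟩ := hD.gen (δ / 2) (by positivity)
    obtain ⟨t₁, ht₁, h2⟩ := hD'.gen (δ / 2) (by positivity)
    refine ⟨min t₀ t₁, lt_min ht₀ ht₁, fun t ht htt x => ?_⟩
    have i1 := int_of_bdd hP (continuous_of_lip hD.lip) hD.bdd ht.le x
    have i2 := int_of_bdd hP (continuous_of_lip hD'.lip) hD'.bdd ht.le x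
    rw [integral_add i1 i2]
    have e : ∫ y, φ y ∂(P t x) + ∫ y, φ' y ∂(P t x) - (φ x + φ' x) - t * (ℓ x + ℓ' x) =
        (∫ y, φ y ∂(P t x) - φ x - t * ℓ x) + (∫ y, φ' y ∂(P t x) - φ' x - t * ℓ' x) := by ring
    rw [e]
    have h3 := h1 t ht (htt.trans (min_le_left _ _)) x
    have h4 := h2 t ht (htt.trans (min_le_right _ _)) x
    calc _ ≤ _ := abs_add_le _ _
      _ ≤ δ / 2 * t + δ / 2 * t := add_le_add h3 h4
      _ = _ := by ring

theorem InD.const_mul {φ ℓ : X → ℝ} (h : InD P o φ ℓ) (c : ℝ) :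
    InD P o (fun x => c * φ x) (fun x => c * ℓ x) := by
  obtain ⟨M, L, hM, hL, hD, d1, d2⟩ := h
  refine ⟨|c| * M, |c| * L, by positivity, by positivity, ⟨?_, ?_, ?_, ?_, ?_⟩, d1.const_mul c,
    d2.const_mul c⟩
  · intro x
    rw [abs_mul]
    exact mul_le_mul_of_nonneg_left (hD.bdd x) (abs_nonneg _)
  · intro x
    rw [abs_mul]
    exact mul_le_mul_of_nonneg_left (hD.bdd' x) (abs_nonneg _)
  · intro x y
    rw [← mul_sub, abs_mul, mul_assoc]
    exact mul_le_mul_of_nonneg_left (hD.lip x y) (abs_nonneg _)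
  · intro x y
    rw [← mul_sub, abs_mul, mul_assoc]
    exact mul_le_mul_of_nonneg_left (hD.lip' x y) (abs_nonneg _)
  · intro δ hδ
    obtain ⟨t₀, ht₀, h1⟩ := hD.gen (δ / (|c| + 1)) (by positivity)
    refine ⟨t₀, ht₀, fun t ht htt x => ?_⟩
    rw [integral_const_mul]
    have e : c * ∫ y, φ y ∂(P t x) - c * φ x - t * (c * ℓ x) =
        c * (∫ y, φ y ∂(P t x) - φ x - t * ℓ x) := by ring
    rw [e, abs_mul]
    have h2 := h1 t ht htt x
    have hc := abs_nonneg c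
    calc |c| * |∫ y, φ y ∂(P t x) - φ x - t * ℓ x| ≤ (|c| + 1) * (δ / (|c| + 1) * t) :=
          mul_le_mul (by linarith) h2 (abs_nonneg _) (by positivity)
      _ = δ * t := by field_simp

/-- the pairs `(φ, L φ)` -/
def subD (hP : EVIKer K N m P) (o : X) : Submodule ℝ ((X → ℝ) × (X → ℝ)) where
  carrier := {p | InD P o p.1 p.2}
  add_mem' := fun {a b} ha hb => by
    have h := InD.add hP (show InD P o a.1 a.2 from ha) (show InD P o b.1 b.2 from hb)
    exact h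
  zero_mem' := by
    refine ⟨0, 0, le_rfl, le_rfl, ⟨?_, ?_, ?_, ?_, ?_⟩, ?_, ?_⟩
    · intro x; simp
    · intro x; simp
    · intro x y; simp
    · intro x y; simp
    · intro δ hδ
      exact ⟨1, one_pos, fun t ht _ x => by simp; positivity⟩
    · intro a
      exact ⟨0, le_rfl, fun x => by simp⟩
    · intro a
      exact ⟨0, le_rfl, fun x => by simp⟩
  smul_mem' := fun c {a} ha => by
    have h := InD.const_mul (show InD P o a.1 a.2 from ha) c
    exact h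

open Classical in
/-- a measurable maximiser map, whenever there is one -/
noncomputable def selS (φ : X → ℝ) (ε : ℝ) : X → X :=
  if h : ∃ S : X → X, IsArg φ ε S then h.choose else id

theorem selS_spec {φ : X → ℝ} (hφ : Continuous φ) {M : ℝ} (hM : ∀ x, |φ x| ≤ M) {ε : ℝ}
    (hε : 0 < ε) : IsArg φ ε (selS φ ε) := by
  have h : ∃ S : X → X, IsArg φ ε S := exists_argmax hφ hM hε
  rw [selS, dif_pos h]
  exact h.choose_spec

theorem varHyp_of (hK : K ≤ 0) {n : ℕ} (hX : IsRCD K (n + 1) X m) (hP : EVIKer K (n + 1) m P)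
    {φ ℓ : X → ℝ} (h : InD P o φ ℓ) :
    ∃ M L, VarHyp K m o (aK K n) L M φ ℓ (selS φ) := by
  obtain ⟨M, L, hM, hL, hD, d1, d2⟩ := h
  have hc := continuous_of_lip hD.lip
  refine ⟨M, L, ⟨hK, (aK_pos K n).le, exp_integrable hK hX o le_rfl, hL, hM, hD.lip, hD.lip',
    hD.bdd, hD.bdd', d1, d2, fun ε hε _ => selS_spec hc hD.bdd hε, fun ε hε _ => ?_⟩⟩
  exact gibbsIneq_of_evi hK (Nat.succ_pos n) hX.finite_ball hX.pos_ball hX.exp_int hP hD hε
    (selS_spec hc hD.bdd hε) o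

/-- invariance of the measure, on the generator -/
theorem int_gen (hK : K ≤ 0) {n : ℕ} (hX : IsRCD K (n + 1) X m) (hP : EVIKer K (n + 1) m P)
    {φ ℓ : X → ℝ} (h : InD P o φ ℓ) : ∫ y, ℓ y ∂m = 0 := by
  obtain ⟨M, L, hv⟩ := varHyp_of hK hX hP h
  obtain ⟨M', L', hv'⟩ := varHyp_of hK hX hP (h.const_mul (-1))
  refine le_antisymm hv.int_nonpos ?_
  have h1 := hv'.int_nonpos
  rw [integral_const_mul] at h1
  linarith

/-- the functional `F_ε` -/
noncomputable def fF (m : Measure X) (ε : ℝ) (p : (X → ℝ) × (X → ℝ)) : ℝ :=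
  if 0 < ε then 1 / ε * ∫ y, (p.1 (selS p.1 ε y) - dist (selS p.1 ε y) y ^ 2 / (2 * ε) - p.1 y) ∂m
  else 0

theorem fF_zero (m : Measure X) (ε : ℝ) : fF m ε (0 : (X → ℝ) × (X → ℝ)) = 0 := by
  unfold fF
  split_ifs with hε
  · have hS : IsArg (0 : X → ℝ) ε (selS (0 : X → ℝ) ε) :=
      selS_spec (φ := (0 : X → ℝ)) continuous_const (M := 0) (fun _ => by simp) hε
    have h1 : ∀ y, dist (selS (0 : X → ℝ) ε y) y ^ 2 / (2 * ε) = 0 := by
      intro y
      have h2 := hS.gain y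
      have h3 : 0 ≤ dist (selS (0 : X → ℝ) ε y) y ^ 2 / (2 * ε) := by positivity
      simp only [Pi.zero_apply, sub_zero] at h2
      exact le_antisymm h2 h3
    have h4 : ∀ y, ((0 : (X → ℝ) × (X → ℝ)).1 (selS (0 : (X → ℝ) × (X → ℝ)).1 ε y) -
        dist (selS (0 : (X → ℝ) × (X → ℝ)).1 ε y) y ^ 2 / (2 * ε) -
        (0 : (X → ℝ) × (X → ℝ)).1 y) = 0 := by
      intro y
      have := h1 y
      simp only [Prod.fst_zero, Pi.zero_apply, sub_zero, zero_sub, neg_eq_zero]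
      exact this
    simp_rw [h4]
    simp
  · rfl

theorem fF_incr (hK : K ≤ 0) {n : ℕ} (hX : IsRCD K (n + 1) X m) (hP : EVIKer K (n + 1) m P)
    {p q : (X → ℝ) × (X → ℝ)} (hp : InD P o p.1 p.2) (hq : InD P o q.1 q.2) {k : X → ℝ}
    {Mk Lk : ℝ} (hk : Test o k Mk Lk) (hpq : ∀ x, q.1 x = p.1 x + k x) {ε : ℝ} (hε : 0 < ε)
    (hε1 : ε ≤ 1) : vB m (selS p.1) k ε ≤ fF m ε q - fF m ε p := by
  obtain ⟨M, L, hv⟩ := varHyp_of hK hX hP hp
  obtain ⟨M', L', hv'⟩ := varHyp_of hK hX hP hq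
  unfold fF vB
  rw [if_pos hε, if_pos hε, ← mul_sub]
  have i1 := hv.int_comp hv.tφ hε hε1
  have i2 := (hv.int_sq hε hε1).div_const (2 * ε)
  have i3 := hv.tφ.int hv.hm
  have j1 := hv'.int_comp hv'.tφ hε hε1
  have j2 := (hv'.int_sq hε hε1).div_const (2 * ε)
  have j3 := hv'.tφ.int hv'.hm
  have k1 := hv.int_comp hk hε hε1
  have k2 := hk.int hv.hm
  have ii : Integrable (fun y => p.1 (selS p.1 ε y) - dist (selS p.1 ε y) y ^ 2 / (2 * ε) - p.1 y)
    m := (i1.sub i2).sub i3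
  have jj : Integrable (fun y => q.1 (selS q.1 ε y) - dist (selS q.1 ε y) y ^ 2 / (2 * ε) - q.1 y)
    m := (j1.sub j2).sub j3
  rw [← integral_sub jj ii]
  refine mul_le_mul_of_nonneg_left ?_ (by positivity)
  refine integral_mono (k1.sub k2) (jj.sub ii) fun y => ?_
  have h1 := (hv'.arg ε hε hε1).2 (selS p.1 ε y) y
  simp only
  rw [hpq y]
  rw [hpq (selS p.1 ε y)] at h1
  linarith

theorem gen_symm (hK : K ≤ 0) {n : ℕ} (hX : IsRCD K (n + 1) X m) (hP : EVIKer K (n + 1) m P)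
    {φ ℓ ψ ℓ' : X → ℝ} (hφ : InD P o φ ℓ) (hψ : InD P o ψ ℓ') :
    ∫ y, ℓ y * ψ y ∂m = ∫ y, ℓ' y * φ y ∂m := by
  have tt : ∀ {p : (X → ℝ) × (X → ℝ)}, InD P o p.1 p.2 → ∃ M L, Test o p.1 M L := fun hp => by
    obtain ⟨M, L, hv⟩ := varHyp_of hK hX hP hp
    exact ⟨M, L, hv.tφ⟩
  have hint : ∀ {p q : (X → ℝ) × (X → ℝ)}, InD P o p.1 p.2 → InD P o q.1 q.2 →
      Integrable (fun y => p.2 y * q.1 y) m := fun {p q} hp hq => by
    obtain ⟨M, L, hv⟩ := varHyp_of hK hX hP hp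
    obtain ⟨M', L', hv'⟩ := varHyp_of hK hX hP hq
    exact (hv.dec'.mul_bdd hv'.hM hv'.bdd).integrable hv.hm
      (hv.tℓ.meas.mul hv'.tφ.meas).aestronglyMeasurable
  have hmem : ∀ p : (X → ℝ) × (X → ℝ), p ∈ subD hP o ↔ InD P o p.1 p.2 := fun p => Iff.rfl
  have hadd : ∀ {p q : (X → ℝ) × (X → ℝ)}, p ∈ subD hP o → q ∈ subD hP o →
      InD P o (p + q).1 (p + q).2 := fun hp hq => (subD hP o).add_mem hp hq
  have key := B2.SymAbs.grad_symm' (l := 𝓝[>] (0 : ℝ)) (subD hP o) (fun ε p => fF m ε p)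
    (fun ε p q => vB m (selS p.1) q.1 ε) (fun p q => -∫ y, p.2 y * q.1 y ∂m)
    (φ := (φ, ℓ)) (ψ := (ψ, ℓ')) ?_ ?_ ?_ ?_ ?_ ?_ ?_ ?_ hφ hψ
  · simp only [neg_inj] at key
    exact key
  · intro p hp p' hp' q hq
    have e : ∀ y, (p + p').2 y * q.1 y = p.2 y * q.1 y + p'.2 y * q.1 y := fun y => by
      simp only [Prod.snd_add, Pi.add_apply]; ring
    simp_rw [e]
    rw [integral_add (hint hp hq) (hint hp' hq)]
    ring
  · intro c p hp q hq
    have e : ∀ y, (c • p).2 y * q.1 y = c * (p.2 y * q.1 y) := fun y => by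
      simp only [Prod.smul_snd, Pi.smul_apply, smul_eq_mul]; ring
    simp_rw [e]
    rw [integral_const_mul]
    ring
  · intro p hp q hq q' hq'
    have e : ∀ y, p.2 y * (q + q').1 y = p.2 y * q.1 y + p.2 y * q'.1 y := fun y => by
      simp only [Prod.fst_add, Pi.add_apply]; ring
    simp_rw [e]
    rw [integral_add (hint hp hq) (hint hp hq')]
    ring
  · intro c p hp q hq
    have e : ∀ y, p.2 y * (c • q).1 y = c * (p.2 y * q.1 y) := fun y => by
      simp only [Prod.smul_fst, Pi.smul_apply, smul_eq_mul]; ring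
    simp_rw [e]
    rw [integral_const_mul]
    ring
  · intro p hp q hq
    obtain ⟨M, L, hv⟩ := varHyp_of hK hX hP ((hmem p).1 hp)
    obtain ⟨M', L', ht⟩ := tt ((hmem q).1 hq)
    exact hv.tendsto_vB (int_gen hK hX hP ((hmem p).1 hp)) ht
  · intro p hp q hq
    obtain ⟨M', L', ht⟩ := tt ((hmem q).1 hq)
    exact VarHyp.ev _ fun ε hε hε1 => fF_incr hK hX hP ((hmem p).1 hp) (hadd hp hq) ht
      (fun x => by simp) hε hε1
  · intro p hp q hq
    obtain ⟨M', L', ht⟩ := tt ((hmem q).1 hq)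
    refine VarHyp.ev _ fun ε hε hε1 => ?_
    have ht' := ht.const_mul (-1)
    have h1 := fF_incr hK hX hP (hadd hp hq) ((hmem p).1 hp) ht'
      (fun x => by simp) hε hε1
    rw [VarHyp.vB_const_mul] at h1
    linarith
  · intro ε
    exact fF_zero m ε

end

end Pool.Agent.BDRY
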