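import Pool.Agent.Work.MP_209cb6_gt.B2.UscU
import Pool.Agent.Work.MP_209cb6_gt.B2.Sel

/-!
# BDRY2, SYM: the key inequality (T3)

`μ 0 = S # σ` with `S` the maximiser map of `φ x - dist x y ^ 2 / (2 ε)`; the linearised EVI with
observer `σ` gives `Ent (S # σ) ≤ Ent σ - ε ∫ Lφ d(S # σ) + κ / 2 ∫ dist (S y) y ^ 2 dσ`, and the
Gibbs variational principle turns it into an inequality for integrals.
-/

set_option autoImplicit false

open MeasureTheory MeasureTheory.Measure Metric Set Filter Topology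
open scoped ENNReal NNReal

namespace Pool.Agent.BDRY

universe u

section symkey

variable {X : Type u} [MetricSpace X] [MeasurableSpace X] [BorelSpace X]

/-- the entropy -/
noncomputable def Hm (m μ : Measure X) : ℝ := ∫ x, llr μ m x ∂μ

theorem UN_eq_exp {N : ℕ} {m μ : Measure X} (h : 0 < UN N m μ) :
    UN N m μ = Real.exp (-(Hm m μ) / N) := by
  unfold UN at h ⊢
  split_ifs with hc
  · rfl
  · rw [if_neg hc] at h; exact absurd h (lt_irrefl _)

theorem UN_pos_ac {N : ℕ} {m μ : Measure X} (h : 0 < UN N m μ) :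
    μ ≪ m ∧ Integrable (llr μ m) μ := by
  unfold UN at h
  split_ifs at h with hc
  · exact hc
  · exact absurd h (lt_irrefl _)

theorem UN_pos_of {N : ℕ} {m μ : Measure X} (h : μ ≪ m) (h' : Integrable (llr μ m) μ) :
    0 < UN N m μ := by
  unfold UN
  rw [if_pos ⟨h, h'⟩]
  exact Real.exp_pos _

/-- weak duality -/
theorem weak_dual [ProperSpace X] {μ σ : Measure X} (hμ : IsP2 μ) (hσ : IsP2 σ) {φ Q : X → ℝ}
    (hφ : Integrable φ μ) (hQ : Integrable Q σ) {ε : ℝ} (hε : 0 < ε)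
    (h : ∀ x y, φ x - dist x y ^ 2 / (2 * ε) ≤ Q y) :
    2 * ε * (∫ x, φ x ∂μ - ∫ y, Q y ∂σ) ≤ W2 μ σ ^ 2 := by
  refine le_of_forall_pos_le_add fun δ hδ => ?_
  obtain ⟨π, h1, h2, h3, h4⟩ := exists_coupling hμ hσ hδ
  refine le_trans ?_ h4
  have hφ' : Integrable (fun z : X × X => φ z.1) π := by
    rw [← h1] at hφ; exact hφ.comp_measurable measurable_fst
  have hQ' : Integrable (fun z : X × X => Q z.2) π := by
    rw [← h2] at hQ; exact hQ.comp_measurable measurable_snd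
  have e1 : ∫ x, φ x ∂μ = ∫ z, φ z.1 ∂π := by
    rw [← h1] at hφ ⊢
    exact integral_map measurable_fst.aemeasurable hφ.aestronglyMeasurable
  have e2 : ∫ y, Q y ∂σ = ∫ z, Q z.2 ∂π := by
    rw [← h2] at hQ ⊢
    exact integral_map measurable_snd.aemeasurable hQ.aestronglyMeasurable
  have hd : Integrable (fun z : X × X => dist z.1 z.2 ^ 2) π := by
    refine ⟨by fun_prop, ?_⟩
    rw [hasFiniteIntegral_iff_ofReal (ae_of_all _ fun z => by positivity)]
    refine lt_of_le_of_lt (le_of_eq ?_) (lt_top_iff_ne_top.2 h3)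
    refine lintegral_congr fun z => ?_
    rw [edist_dist, ENNReal.ofReal_pow dist_nonneg]
  rw [e1, e2, ← integral_sub hφ' hQ', ← integral_const_mul]
  refine integral_mono ((hφ'.sub hQ').const_mul _) hd fun z => ?_
  have h5 := h z.1 z.2
  simp only
  have h6 : φ z.1 - Q z.2 ≤ dist z.1 z.2 ^ 2 / (2 * ε) := by linarith
  rw [le_div_iff₀ (by positivity)] at h6
  linarith

variable [ProperSpace X]

/-- **the key inequality** -/
theorem sym_key {N : ℕ} (hN : 0 < N) {m : Measure X}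
    (hfin : ∀ (x : X) (r : ℝ), m (closedBall x r) < ∞)
    (hexp : ∃ (x : X) (c : ℝ), 0 < c ∧ ∫⁻ y, ENNReal.ofReal (Real.exp (-c * dist x y ^ 2)) ∂m < ∞)
    {κ : ℝ} (hκ : 0 ≤ κ) {σ : Measure X} (hσ : IsP2 σ) {μ : ℝ → Measure X}
    (hp2 : ∀ t, 0 ≤ t → IsP2 (μ t))
    (hcont : Tendsto (fun s => W2 (μ s) (μ 0)) (𝓝[>] 0) (𝓝 0))
    (hpos : ∀ t, 0 < t → 0 < UN N m (μ t)) {q : ℝ → ℝ}
    (hq : Tendsto (fun h => q h / h) (𝓝[>] 0) (𝓝 1))
    (hstep : ∀ᶠ h in 𝓝[>] 0, W2 (μ h) σ ^ 2 - W2 (μ 0) σ ^ 2 ≤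
      q h * (2 * (Hm m σ - Hm m (μ h)) + κ * W2 (μ 0) σ ^ 2))
    {φ : X → ℝ} (hφ : Continuous φ) {M : ℝ} (hφM : ∀ x, |φ x| ≤ M) {ε : ℝ} (hε : 0 < ε)
    {S : X → X} (hS : Measurable S)
    (hmax : ∀ x y, φ x - dist x y ^ 2 / (2 * ε) ≤ φ (S y) - dist (S y) y ^ 2 / (2 * ε))
    (h0 : μ 0 = σ.map S) {l : ℝ}
    (hl : Tendsto (fun h => (∫ x, φ x ∂(μ h) - ∫ x, φ x ∂(μ 0)) / h) (𝓝[>] 0) (𝓝 l)) :
    0 < UN N m (μ 0) ∧
      Hm m (μ 0) ≤ Hm m σ - ε * l + κ / 2 * ∫ y, dist (S y) y ^ 2 ∂σ := by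
  have hσp := hσ.1
  have hN' : (0 : ℝ) < N := Nat.cast_pos.2 hN
  have hφb : ∀ ν : Measure X, IsProbabilityMeasure ν → Integrable φ ν := fun ν _ =>
    Integrable.of_bound hφ.aestronglyMeasurable M (Eventually.of_forall hφM)
  set d2 : X → ℝ := fun y => dist (S y) y ^ 2 with hd2
  have hd2m : Measurable d2 := (hS.dist measurable_id).pow_const 2
  have hd2b : ∀ y, |d2 y| ≤ 4 * M * ε := by
    intro y
    have h1 := argmax_gain hmax y
    have h2 := abs_le.1 (hφM (S y))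
    have h3 := abs_le.1 (hφM y)
    rw [div_le_iff₀ (by positivity)] at h1
    rw [abs_of_nonneg (by positivity)]
    have h4 : φ (S y) - φ y ≤ 2 * M := by linarith
    have h5 : (φ (S y) - φ y) * (2 * ε) ≤ 2 * M * (2 * ε) :=
      mul_le_mul_of_nonneg_right h4 (by positivity)
    simp only [hd2]
    linarith
  have hd2i : Integrable d2 σ :=
    Integrable.of_bound hd2m.aestronglyMeasurable _ (Eventually.of_forall hd2b)
  set Q : X → ℝ := fun y => φ (S y) - d2 y / (2 * ε) with hQ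
  have hφSi : Integrable (fun y => φ (S y)) σ :=
    Integrable.of_bound (hφ.measurable.comp hS).aestronglyMeasurable M
      (Eventually.of_forall fun y => hφM _)
  have hQi : Integrable Q σ := hφSi.sub (hd2i.div_const _)
  have hμ0 : ∫ x, φ x ∂(μ 0) = ∫ y, φ (S y) ∂σ := by
    rw [h0]
    exact integral_map hS.aemeasurable hφ.aestronglyMeasurable
  -- the upper bound for `b = W2 (μ 0) σ`
  have hb : W2 (μ 0) σ ^ 2 ≤ ∫ y, d2 y ∂σ := by
    rw [h0]
    refine W2_map_sq_le hS ?_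
    have : ∫⁻ x, edist (S x) x ^ 2 ∂σ = ∫⁻ x, ENNReal.ofReal (d2 x) ∂σ := by
      refine lintegral_congr fun y => ?_
      rw [edist_dist, ← ENNReal.ofReal_pow dist_nonneg]
    rw [this]
    exact hd2i.lintegral_lt_top
  have hdual : ∀ h, 0 < h → 2 * ε * (∫ x, φ x ∂(μ h) - ∫ x, φ x ∂(μ 0)) ≤
      W2 (μ h) σ ^ 2 - W2 (μ 0) σ ^ 2 := by
    intro h hh
    have := (hp2 h hh.le).1
    have h1 := weak_dual (hp2 h hh.le) hσ (hφb _ this) hQi hε (fun x y => hmax x y)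
    have h2 : ∫ y, Q y ∂σ = ∫ y, φ (S y) ∂σ - (∫ y, d2 y ∂σ) / (2 * ε) := by
      simp only [hQ]
      rw [integral_sub hφSi (hd2i.div_const _), integral_div]
    rw [h2] at h1
    have h3 : 2 * ε * ((∫ y, d2 y ∂σ) / (2 * ε)) = ∫ y, d2 y ∂σ := by field_simp
    rw [hμ0]
    nlinarith
  -- the entropy bound for small times
  have hevent : ∀ η, 0 < η → ∀ᶠ h in 𝓝[>] (0 : ℝ),
      Hm m (μ h) ≤ Hm m σ - ε * l + κ / 2 * (∫ y, d2 y ∂σ) + η := by
    intro η hη
    have hlim : Tendsto (fun h => ε * (((∫ x, φ x ∂(μ h) - ∫ x, φ x ∂(μ 0)) / h) / (q h / h)))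
        (𝓝[>] 0) (𝓝 (ε * (l / 1))) := (hl.div hq one_ne_zero).const_mul ε
    rw [div_one] at hlim
    filter_upwards [hlim.eventually (lt_mem_nhds (show ε * l - η < ε * l by linarith)), hstep,
      hq.eventually (lt_mem_nhds (show (0 : ℝ) < 1 by norm_num)), self_mem_nhdsWithin]
      with h h1 h2 h3 h4
    have h4' : (0 : ℝ) < h := h4
    have hqh : 0 < q h := by
      have := mul_pos h3 h4'
      rwa [div_mul_cancel₀ _ h4'.ne'] at this
    have h5 := (hdual h h4').trans h2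
    have h6 : ((∫ x, φ x ∂(μ h) - ∫ x, φ x ∂(μ 0)) / h) / (q h / h) =
        (∫ x, φ x ∂(μ h) - ∫ x, φ x ∂(μ 0)) / q h := by
      field_simp
    rw [h6] at h1
    set Δ := ∫ x, φ x ∂(μ h) - ∫ x, φ x ∂(μ 0) with hΔ
    have h7 : 2 * ε * (Δ / q h) ≤ 2 * (Hm m σ - Hm m (μ h)) + κ * W2 (μ 0) σ ^ 2 := by
      rw [← mul_div_assoc, div_le_iff₀ hqh]
      linarith
    have h8 : κ * W2 (μ 0) σ ^ 2 ≤ κ * ∫ y, d2 y ∂σ := mul_le_mul_of_nonneg_left hb hκ
    linarith
  have hU : ∀ η, 0 < η →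
      Real.exp (-(Hm m σ - ε * l + κ / 2 * (∫ y, d2 y ∂σ) + η) / N) ≤ UN N m (μ 0) := by
    intro η hη
    refine le_UN_of_tendsto hN hfin hexp (hp2 0 le_rfl) ?_ hcont ?_
    · filter_upwards [self_mem_nhdsWithin] with t ht
      exact hp2 t (le_of_lt ht)
    · refine Filter.Eventually.frequently ?_
      filter_upwards [hevent η hη, self_mem_nhdsWithin] with h h1 h2
      rw [UN_eq_exp (hpos h h2)]
      refine Real.exp_le_exp.2 ?_
      rw [neg_div, neg_div]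
      exact neg_le_neg (div_le_div_of_nonneg_right h1 hN'.le)
  have hpos0 : 0 < UN N m (μ 0) := (Real.exp_pos _).trans_le (hU 1 one_pos)
  refine ⟨hpos0, ?_⟩
  refine le_of_forall_pos_le_add fun η hη => ?_
  have h1 := hU η hη
  rw [UN_eq_exp hpos0, Real.exp_le_exp, neg_div, neg_div, neg_le_neg_iff,
    div_le_div_iff_of_pos_right hN'] at h1
  exact h1

/-! ### Gibbs measures -/

/-- the probability measure `e^{-V} m / Z` -/
noncomputable def gib (m : Measure X) (V : X → ℝ) : Measure X :=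
  m.withDensity fun x => ENNReal.ofReal (Real.exp (-V x) / ∫ z, Real.exp (-V z) ∂m)

end symkey

end Pool.Agent.BDRY
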