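import Pool.Agent.Work.MP_209cb6_gt.B2.LipP
import Pool.Agent.Work.MP_209cb6_gt.B2.ExpInt

/-!
# BDRY2, SYM (T5): exponential tails of `P_t f`
-/

set_option autoImplicit false

open MeasureTheory MeasureTheory.Measure Metric Set Filter Topology
open scoped ENNReal NNReal

namespace Pool.Agent.BDRY

universe u

section tail

variable {X : Type u} [MetricSpace X] [MeasurableSpace X] [BorelSpace X] {K : ℝ} {n : ℕ}
  {m : Measure X} {P : ℝ → X → Measure X}

/-- The output of T4 (Davies) which is needed for the tails: weighted `L²` bounds with the weights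
`exp (-a d_x)`, with a constant which does not depend on `x`. -/
def WeightBd (K : ℝ) (n : ℕ) (m : Measure X) (P : ℝ → X → Measure X) (f : X → ℝ) : Prop :=
  ∀ a : ℝ, aK K n < a → ∀ T : ℝ, ∃ A : ℝ, 0 ≤ A ∧ ∀ t, 0 ≤ t → t ≤ T → ∀ x,
    ∫ y, (∫ z, f z ∂(P t y)) ^ 2 * Real.exp (-a * dist x y) ∂m ≤
      A * ∫ y, f y ^ 2 * Real.exp (-a * dist x y) ∂m

/-- the weighted norm of a function of bounded support -/
theorem weight_supp (hX : IsRCD K (n + 1) X m) (o : X) {f : X → ℝ} {M R a : ℝ}
    (hM : ∀ x, |f x| ≤ M) (hR : ∀ x, R < dist o x → f x = 0) (ha : 0 ≤ a) (x : X) :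
    ∫ y, f y ^ 2 * Real.exp (-a * dist x y) ∂m ≤
      M ^ 2 * Real.exp (a * R) * m.real (closedBall o R) * Real.exp (-a * dist o x) := by
  have hcl : MeasurableSet (closedBall o R) := isClosed_closedBall.measurableSet
  have hint : Integrable ((closedBall o R).indicator
      fun _ => M ^ 2 * Real.exp (a * R) * Real.exp (-a * dist o x)) m :=
    (integrable_indicator_iff hcl).2 (integrableOn_const (hX.finite_ball o R).ne)
  calc ∫ y, f y ^ 2 * Real.exp (-a * dist x y) ∂m
      ≤ ∫ y, (closedBall o R).indicator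
        (fun _ => M ^ 2 * Real.exp (a * R) * Real.exp (-a * dist o x)) y ∂m := by
        refine integral_mono_of_nonneg (ae_of_all _ fun y => by positivity) hint
          (ae_of_all _ fun y => ?_)
        by_cases hy : y ∈ closedBall o R
        · rw [indicator_of_mem hy]
          have hy' : dist y o ≤ R := hy
          have h1 : f y ^ 2 ≤ M ^ 2 := by
            rw [← sq_abs (f y)]
            exact pow_le_pow_left₀ (abs_nonneg _) (hM y) 2
          have h2 : Real.exp (-a * dist x y) ≤ Real.exp (a * R) * Real.exp (-a * dist o x) := by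
            rw [← Real.exp_add, Real.exp_le_exp]
            have h3 := dist_triangle o y x
            rw [dist_comm o y, dist_comm y x] at h3
            nlinarith
          calc f y ^ 2 * Real.exp (-a * dist x y)
              ≤ M ^ 2 * (Real.exp (a * R) * Real.exp (-a * dist o x)) := by gcongr
            _ = _ := by ring
        · rw [indicator_of_notMem hy]
          have h1 : f y = 0 := hR y (by
            rw [mem_closedBall, dist_comm] at hy
            linarith)
          simp [h1]
    _ = _ := by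
        rw [integral_indicator_const _ hcl, smul_eq_mul]
        ring

/-- **T5** for nonnegative functions. -/
theorem tail_nonneg (hK : K ≤ 0) (hX : IsRCD K (n + 1) X m) (hP : EVIKer K (n + 1) m P) (o : X)
    {f : X → ℝ} {L M R : ℝ} (hL : 0 ≤ L) (hf0 : ∀ x, 0 ≤ f x) (hM : ∀ x, |f x| ≤ M)
    (hlip : ∀ x y, |f x - f y| ≤ L * dist x y) (hR : ∀ x, R < dist o x → f x = 0)
    (hW : WeightBd K n m P f) (T b : ℝ) :
    ∃ C : ℝ, 0 ≤ C ∧ ∀ t, 0 ≤ t → t ≤ T → ∀ x,
      ∫ z, f z ∂(P t x) ≤ C * Real.exp (-b * dist o x) := by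
  have := hX.proper
  rcases lt_or_ge T 0 with hT | hT
  · exact ⟨0, le_rfl, fun t h0 h1 => absurd (h0.trans h1) (not_le.2 hT)⟩
  set b' : ℝ := max b 1 with hb'
  have hb1 : 1 ≤ b' := le_max_right _ _
  have hbb : b ≤ b' := le_max_left _ _
  have hn : (0 : ℝ) ≤ n := Nat.cast_nonneg n
  set a : ℝ := aT K n b' with ha
  have haK : aK K n < a := by
    rw [ha, aT, aK]
    have h1 : ((n : ℝ) + 3) * 1 ≤ (n + 3) * b' := by gcongr
    linarith
  have ha0 : 0 ≤ a := (aK_pos K n).le.trans haK.le
  obtain ⟨A, hA, hA'⟩ := hW a haK T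
  have hM0 : 0 ≤ M := (abs_nonneg _).trans (hM o)
  set D : ℝ := A * (M ^ 2 * Real.exp (a * R) * m.real (closedBall o R)) with hD
  have hD0 : 0 ≤ D := by positivity
  set L' : ℝ := L * Real.exp (-K * T) with hL'
  have hL'0 : 0 ≤ L' := by positivity
  obtain ⟨C, hC, hC'⟩ := tail_of_weight hK hX o hL'0 hD0 (zero_le_one.trans hb1)
  refine ⟨C, hC, fun t ht0 htT x => ?_⟩
  have hu0 : ∀ y, 0 ≤ ∫ z, f z ∂(P t y) := fun y => integral_nonneg hf0
  have hulip : ∀ y y', |∫ z, f z ∂(P t y) - ∫ z, f z ∂(P t y')| ≤ L' * dist y y' := by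
    intro y y'
    refine (hP.lip hK (Nat.succ_pos n) hX.geod ht0 hL hlip y y').trans ?_
    rw [hL']
    have : Real.exp (-K * t) ≤ Real.exp (-K * T) := by
      rw [Real.exp_le_exp]
      nlinarith
    gcongr
  have hucont : Continuous fun y => ∫ z, f z ∂(P t y) := by
    refine LipschitzWith.continuous (K := Real.toNNReal L') (LipschitzWith.of_dist_le_mul fun y y' => ?_)
    rw [Real.dist_eq, Real.coe_toNNReal _ hL'0]
    exact hulip y y'
  have huM : ∀ y, |∫ z, f z ∂(P t y)| ≤ M := fun y => hP.abs_le ht0 y hM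
  have h1 := hC' (fun y => ∫ z, f z ∂(P t y)) hu0 hulip (by
    intro y
    rw [← ha]
    have hexp := exp_integrable hK hX y haK.le
    have hint : Integrable (fun w => (∫ z, f z ∂(P t w)) ^ 2 * Real.exp (-a * dist y w)) m := by
      refine Integrable.mono' (hexp.const_mul (M ^ 2)) ?_ (ae_of_all _ fun w => ?_)
      · exact ((hucont.pow 2).mul (by fun_prop)).aestronglyMeasurable
      · rw [Real.norm_of_nonneg (by positivity)]
        gcongr ?_ * _
        rw [← sq_abs (∫ z, f z ∂(P t w))]
        exact pow_le_pow_left₀ (abs_nonneg _) (huM w) 2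
    rw [← ofReal_integral_eq_lintegral_ofReal hint (ae_of_all _ fun w => by positivity)]
    apply ENNReal.ofReal_le_ofReal
    refine (hA' t ht0 htT y).trans ?_
    have h2 := weight_supp hX o hM hR ha0 y
    calc A * ∫ w, f w ^ 2 * Real.exp (-a * dist y w) ∂m
        ≤ A * (M ^ 2 * Real.exp (a * R) * m.real (closedBall o R) * Real.exp (-a * dist o y)) := by
          gcongr
      _ = D * Real.exp (-a * dist o y) := by
          rw [hD]
          ring) x
  refine h1.trans ?_
  gcongr ?_ * ?_
  rw [Real.exp_le_exp]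
  nlinarith [dist_nonneg (x := o) (y := x)]

/-- **T5**: exponential tails of every order for `P_t f`, `f` Lipschitz with bounded support,
locally uniformly in time. The hypothesis is the weighted bound T4 for `|f|`. -/
theorem tail (hK : K ≤ 0) (hX : IsRCD K (n + 1) X m) (hP : EVIKer K (n + 1) m P) (o : X)
    {f : X → ℝ} {L M R : ℝ} (hL : 0 ≤ L) (hM : ∀ x, |f x| ≤ M)
    (hlip : ∀ x y, |f x - f y| ≤ L * dist x y) (hR : ∀ x, R < dist o x → f x = 0)
    (hW : WeightBd K n m P fun x => |f x|) (T b : ℝ) :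
    ∃ C : ℝ, 0 ≤ C ∧ ∀ t, 0 ≤ t → t ≤ T → ∀ x,
      |∫ z, f z ∂(P t x)| ≤ C * Real.exp (-b * dist o x) := by
  obtain ⟨C, hC, hC'⟩ := tail_nonneg hK hX hP o (f := fun x => |f x|) hL
    (fun x => abs_nonneg _) (fun x => by rw [abs_abs]; exact hM x)
    (fun x y => (abs_abs_sub_abs_le_abs_sub _ _).trans (hlip x y))
    (fun x hx => by rw [hR x hx, abs_zero]) hW T b
  exact ⟨C, hC, fun t h0 h1 x => (abs_integral_le_integral_abs).trans (hC' t h0 h1 x)⟩

end tail

end Pool.Agent.BDRY
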