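import Pool.Agent.Work.MP_209cb6_gt.B2.SymDaviesT
import Pool.Agent.Work.MP_209cb6_gt.B2.SymDom
import Pool.Agent.Work.MP_209cb6_gt.B2.SymTail

/-!
# BDRY2, SYM: T4, the weighted `L²` bounds `WeightBd` for bounded Lipschitz functions
-/

set_option autoImplicit false

open MeasureTheory MeasureTheory.Measure Metric Set Filter Topology
open scoped ENNReal NNReal

namespace Pool.Agent.BDRY

universe u

open SymDom

section weight

variable {X : Type u} [MetricSpace X] [MeasurableSpace X] [BorelSpace X]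
  {K : ℝ} {n : ℕ} {m : Measure X} {P : ℝ → X → Measure X} {f : X → ℝ} {M L : ℝ}

/-- the averages `A_r f / r` converge uniformly, also after applying the semigroup -/
theorem Ar_div_sub_le (hK : K ≤ 0) (hX : IsRCD K (n + 1) X m) (hP : EVIKer K (n + 1) m P)
    (hL : 0 ≤ L) (hf : ∀ x y, |f x - f y| ≤ L * dist x y) (hb : ∀ x, |f x| ≤ M) {r t : ℝ}
    (hr : 0 < r) (hr1 : r ≤ 1) (ht : 0 ≤ t) (x : X) :
    |Pf P (Ar P f r) t x / r - Pf P f t x| ≤ om K (n + 1) L r := by
  have := hX.proper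
  have hN : 0 < n + 1 := Nat.succ_pos n
  rw [Pf_Ar hK hN hX hP hL hf hb hr.le ht x]
  have hi := Pf_intervalIntegrable hK hN hX hP hL hf hb x ht (add_nonneg ht hr.le)
  have hi2 : IntervalIntegrable (fun v => Pf P f (t + v) x) volume 0 r := by
    have h2 := hi.comp_add_left t
    simpa using h2
  have e1 : (∫ v in (0 : ℝ)..r, Pf P f (t + v) x) / r - Pf P f t x =
      (∫ v in (0 : ℝ)..r, (Pf P f (t + v) x - Pf P f t x)) / r := by
    rw [intervalIntegral.integral_sub hi2 intervalIntegrable_const,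
      intervalIntegral.integral_const, sub_zero, smul_eq_mul]
    field_simp
  rw [e1, abs_div, abs_of_pos hr, div_le_iff₀ hr]
  have h := intervalIntegral.norm_integral_le_of_norm_le_const (a := (0 : ℝ)) (b := r)
    (f := fun v => Pf P f (t + v) x - Pf P f t x) (C := om K (n + 1) L r)
    (fun v hv => by
      rw [uIoc_of_le hr.le] at hv
      rw [Real.norm_eq_abs]
      exact (Pf_shift hK hN hX hP hL hf hb ht hv.1.le (hv.2.trans hr1) x).trans
        (om_mono hK hN hL hv.2))
  rwa [sub_zero, abs_of_nonneg hr.le, Real.norm_eq_abs] at h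

/-- the weighted squares converge -/
theorem Ar_weight_tendsto (hK : K ≤ 0) (hX : IsRCD K (n + 1) X m) (hP : EVIKer K (n + 1) m P)
    (hL : 0 ≤ L) (hf : ∀ x y, |f x - f y| ≤ L * dist x y) (hb : ∀ x, |f x| ≤ M) {t : ℝ}
    (ht : 0 ≤ t) {a : ℝ} (ha : aK K n < a) (x : X) {r : ℕ → ℝ} (hr : ∀ k, 0 < r k)
    (hr1 : ∀ k, r k ≤ 1) (hr0 : Tendsto r atTop (𝓝 0)) :
    Tendsto (fun k => ∫ y, (Pf P (Ar P f (r k)) t y / r k) ^ 2 * Real.exp (-a * dist x y) ∂m) atTop
      (𝓝 (∫ y, Pf P f t y ^ 2 * Real.exp (-a * dist x y) ∂m)) := by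
  have := hX.proper
  have hN : 0 < n + 1 := Nat.succ_pos n
  have hexp := exp_integrable hK hX x ha.le
  refine tendsto_integral_of_dominated_convergence
    (fun y => M ^ 2 * Real.exp (-a * dist x y)) (fun k => ?_) (hexp.const_mul (M ^ 2))
    (fun k => ae_of_all _ fun y => ?_) (ae_of_all _ fun y => ?_)
  · have hc : Continuous (Pf P (Ar P f (r k)) t) :=
      Pf_continuous hK hN hX hP (mul_nonneg (hr k).le (mul_nonneg hL (Real.exp_pos _).le))
        (Ar_lip hK hN hX hP hL hf hb (hr k).le) ht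
    exact (((hc.div_const _).pow 2).mul (by fun_prop)).aestronglyMeasurable
  · rw [Real.norm_of_nonneg (by positivity)]
    have h1 : |Pf P (Ar P f (r k)) t y| ≤ r k * M :=
      Pf_abs_le hP (Ar_abs_le hP hb (hr k).le) ht y
    have h2 : |Pf P (Ar P f (r k)) t y / r k| ≤ M := by
      rw [abs_div, abs_of_pos (hr k), div_le_iff₀ (hr k)]
      linarith
    have h3 : (Pf P (Ar P f (r k)) t y / r k) ^ 2 ≤ M ^ 2 := by
      rw [← sq_abs (Pf P (Ar P f (r k)) t y / r k)]
      exact pow_le_pow_left₀ (abs_nonneg _) h2 2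
    gcongr
  · have h1 : Tendsto (fun k => Pf P (Ar P f (r k)) t y / r k) atTop (𝓝 (Pf P f t y)) := by
      rw [← tendsto_sub_nhds_zero_iff]
      refine squeeze_zero_norm (fun k => ?_) ((om_tendsto K (n + 1) L).comp hr0)
      rw [Real.norm_eq_abs]
      exact Ar_div_sub_le hK hX hP hL hf hb (hr k) (hr1 k) ht y
    exact (h1.pow 2).mul_const _

/-- **T4** for nonnegative bounded Lipschitz functions -/
theorem weightBd_nonneg (hK : K ≤ 0) (hX : IsRCD K (n + 1) X m) (hP : EVIKer K (n + 1) m P)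
    (hL : 0 ≤ L) (hf0 : ∀ x, 0 ≤ f x) (hb : ∀ x, |f x| ≤ M)
    (hf : ∀ x y, |f x - f y| ≤ L * dist x y) : WeightBd K n m P f := by
  intro a ha T
  refine ⟨Real.exp (a ^ 2 * T), (Real.exp_pos _).le, fun t ht htT x => ?_⟩
  have := hX.proper
  have hN : 0 < n + 1 := Nat.succ_pos n
  have ha0 : 0 ≤ a := (aK_pos K n).le.trans ha.le
  have hM : 0 ≤ M := (abs_nonneg _).trans (hb x)
  set r : ℕ → ℝ := fun k => 1 / ((k : ℝ) + 1) with hr
  have hr0 : ∀ k, 0 < r k := fun k => by positivity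
  have hr1 : ∀ k, r k ≤ 1 := fun k => by
    rw [hr]
    simp only
    rw [div_le_one (by positivity)]
    have : (0 : ℝ) ≤ k := Nat.cast_nonneg k
    linarith
  have hrt : Tendsto r atTop (𝓝 0) := tendsto_one_div_add_atTop_nhds_zero_nat
  have hV : ∀ y z, |a * dist x y - a * dist x z| ≤ a * dist y z := by
    intro y z
    rw [← mul_sub, abs_mul, abs_of_nonneg ha0]
    refine mul_le_mul_of_nonneg_left ?_ ha0
    rw [dist_comm x y, dist_comm x z]
    exact abs_dist_sub_le y z x
  have eV : ∀ y, Real.exp (-(a * dist x y)) = Real.exp (-a * dist x y) := fun y => by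
    rw [neg_mul]
  have hVi : Integrable (fun y => Real.exp (-(a * dist x y))) m := by
    simp only [eV]; exact exp_integrable hK hX x ha.le
  have hV2 : Integrable (fun y => dist x y ^ 2 * Real.exp (-(a * dist x y))) m := by
    simp only [eV]; exact pow_exp_integrable hK hX x 2 ha
  have key : ∀ k, ∫ y, (Pf P (Ar P f (r k)) t y / r k) ^ 2 * Real.exp (-a * dist x y) ∂m ≤
      Real.exp (a ^ 2 * T) *
        ∫ y, (Pf P (Ar P f (r k)) 0 y / r k) ^ 2 * Real.exp (-a * dist x y) ∂m := by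
    intro k
    have hD := dom_Ar hK hN hX hP hL hf hb (hr0 k).le
    have hr' := (hr0 k).le
    have h1 := davies_dom hK hN hX.finite_ball hX.pos_ball hX.exp_int hP hX.geod x ha0 hV hVi hV2
      (M := r k * |M| + 2 * |M|)
      (L := r k * (L * Real.exp (-K * r k)) + L * Real.exp (-K * r k) + L)
      (by positivity) (by positivity)
      (fun y => intervalIntegral.integral_nonneg hr' fun v _ => integral_nonneg hf0) hD ht
    simp only [eV] at h1
    have e1 : ∀ u : X → ℝ, ∫ y, (u y / r k) ^ 2 * Real.exp (-a * dist x y) ∂m =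
        (1 / r k ^ 2) * ∫ y, u y ^ 2 * Real.exp (-a * dist x y) ∂m := by
      intro u
      rw [← integral_const_mul]
      congr 1
      funext y
      rw [div_pow]; ring
    rw [e1, e1]
    have e2 : ∀ y, Pf P (Ar P f (r k)) 0 y = Ar P f (r k) y := fun y => SymDom.Pf_zero hP _ y
    simp only [e2]
    have h2 : Real.exp (a ^ 2 * t) ≤ Real.exp (a ^ 2 * T) := by
      rw [Real.exp_le_exp]; exact mul_le_mul_of_nonneg_left htT (sq_nonneg _)
    have h3 : 0 ≤ ∫ y, Ar P f (r k) y ^ 2 * Real.exp (-a * dist x y) ∂m :=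
      integral_nonneg fun y => by positivity
    have h4 : 0 ≤ 1 / r k ^ 2 := by positivity
    calc 1 / r k ^ 2 * ∫ y, Pf P (Ar P f (r k)) t y ^ 2 * Real.exp (-a * dist x y) ∂m
        ≤ 1 / r k ^ 2 * (Real.exp (a ^ 2 * T) *
          ∫ y, Ar P f (r k) y ^ 2 * Real.exp (-a * dist x y) ∂m) :=
          mul_le_mul_of_nonneg_left (h1.trans (mul_le_mul_of_nonneg_right h2 h3)) h4
      _ = _ := by ring
  have l1 := Ar_weight_tendsto hK hX hP hL hf hb ht ha x hr0 hr1 hrt
  have l2 := (Ar_weight_tendsto hK hX hP hL hf hb le_rfl ha x hr0 hr1 hrt).const_mul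
    (Real.exp (a ^ 2 * T))
  have h := le_of_tendsto_of_tendsto' l1 l2 key
  simp only [SymDom.Pf_zero hP] at h
  exact h

/-- **T4** in the form used by `tail` and `symm_of_gen` -/
theorem weightBd_abs (hK : K ≤ 0) (hX : IsRCD K (n + 1) X m) (hP : EVIKer K (n + 1) m P)
    (hL : 0 ≤ L) (hb : ∀ x, |f x| ≤ M)
    (hf : ∀ x y, |f x - f y| ≤ L * dist x y) : WeightBd K n m P fun x => |f x| :=
  weightBd_nonneg hK hX hP hL (fun x => abs_nonneg _) (M := M)
    (fun x => by rw [abs_abs]; exact hb x)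
    (fun x y => (abs_abs_sub_abs_le _ _).trans (hf x y))

end weight

end Pool.Agent.BDRY
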