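import Pool.Agent.Work.MP_209cb6_gt.B2.SymAsm
import Pool.Agent.Work.MP_209cb6_gt.B2.SymWeight

/-!
# BDRY2, SYM: the symmetric heat kernel of an `RCD(K,N)` space, from the EVI definition only
-/

set_option autoImplicit false

open MeasureTheory MeasureTheory.Measure Metric Set Filter Topology
open scoped ENNReal NNReal

namespace Pool.Agent.BDRY

universe u

variable {X : Type u} [MetricSpace X] [MeasurableSpace X] [BorelSpace X] {K : ℝ} {n : ℕ}
  {m : Measure X} {P : ℝ → X → Measure X}

/-- every kernel of the EVI flows is symmetric -/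
theorem EVIKer.heatKer (hK : K ≤ 0) (hX : IsRCD K (n + 1) X m) (hP : EVIKer K (n + 1) m P) :
    HeatKer K n m P := by
  have := hX.proper
  refine heatKer_of_T4 hK hX hP fun o f L M R hf hf0 => ?_
  have h1 := weightBd_abs hK hX hP hf.L0 hf.bdd hf.lip
  have h2 : (fun x => |f x|) = f := funext fun x => abs_of_nonneg (hf0 x)
  rwa [h2] at h1

/-- **The symmetric heat kernel** of an `RCD(K,N)` space, `K ≤ 0`, `N = n + 1`, from the
`EVI_{K,N}` definition alone. -/
theorem IsRCD.exists_heatKer (hK : K ≤ 0) (hX : IsRCD K (n + 1) X m) :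
    ∃ P : ℝ → X → Measure X, HeatKer K n m P := by
  obtain ⟨P, hP⟩ := hX.exists_eviKer hK (Nat.succ_pos n)
  exact ⟨P, hP.heatKer hK hX⟩

end Pool.Agent.BDRY
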