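import Pool.Agent.Work.MP_209cb6_gt.B2.SymDef

/-!
# BDRY2, SYM, T6: the first variation

For `φ` in the domain of the generator and `S ε` the maximiser maps of `φ x - d(x,y)²/(2ε)` the
inequality `GibbsIneq` gives `(1/ε) ∫ (k ∘ S ε - k) dm → - ∫ k L φ dm` and `∫ L φ dm = 0`.
-/

set_option autoImplicit false
set_option linter.unusedSectionVars false

open MeasureTheory MeasureTheory.Measure Metric Set Filter Topology
open scoped ENNReal NNReal

namespace Pool.Agent.BDRY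

universe u

variable {X : Type u} [MetricSpace X] [MeasurableSpace X]

/-! ### Elementary inequalities -/

theorem exp_le_third {u : ℝ} (hu : |u| ≤ 1 / 2) : Real.exp u ≤ 1 + u + u ^ 2 / 2 + |u| ^ 3 := by
  have h := Real.exp_bound (x := u) (by linarith) (n := 3) (by norm_num)
  have h1 : ∑ m ∈ Finset.range 3, u ^ m / (m.factorial : ℝ) = 1 + u + u ^ 2 / 2 := by
    simp [Finset.sum_range_succ, Nat.factorial]
  rw [h1] at h
  have h2 := (abs_le.1 h).2
  have h3 : |u| ^ 3 * ((Nat.succ 3 : ℕ) / ((Nat.factorial 3 : ℕ) * (3 : ℕ) : ℝ)) ≤ |u| ^ 3 := by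
    have h4 : ((Nat.succ 3 : ℕ) / ((Nat.factorial 3 : ℕ) * (3 : ℕ) : ℝ)) ≤ 1 := by
      norm_num [Nat.factorial]
    have h5 : 0 ≤ |u| ^ 3 := by positivity
    nlinarith
  linarith

theorem mul_log_le_third {u : ℝ} (hu : |u| ≤ 1 / 2) :
    (1 + u) * Real.log (1 + u) ≤ u + u ^ 2 / 2 + 4 * |u| ^ 3 := by
  have h := Real.abs_log_sub_add_sum_range_le (x := -u) (by rw [abs_neg]; linarith) 2
  have h1 : ∑ i ∈ Finset.range 2, (-u) ^ (i + 1) / ((i : ℝ) + 1) = -u + u ^ 2 / 2 := by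
    simp [Finset.sum_range_succ]
    norm_num
  rw [h1, sub_neg_eq_add, abs_neg] at h
  have h2 := (abs_le.1 h).2
  have h3 : |u| ^ (2 + 1) / (1 - |u|) ≤ 2 * |u| ^ 3 := by
    rw [div_le_iff₀ (by linarith)]
    have : 0 ≤ |u| ^ 3 := by positivity
    norm_num
    nlinarith
  have h4 : Real.log (1 + u) ≤ u - u ^ 2 / 2 + 2 * |u| ^ 3 := by linarith
  have hu' := abs_le.1 hu
  have h5 : (1 + u) * Real.log (1 + u) ≤ (1 + u) * (u - u ^ 2 / 2 + 2 * |u| ^ 3) :=
    mul_le_mul_of_nonneg_left h4 (by linarith)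
  have h6 : -u ^ 3 ≤ |u| ^ 3 := by
    have : -u ^ 3 ≤ |-u ^ 3| := le_abs_self _
    rw [abs_neg, abs_pow] at this
    exact this
  have h7 : u * |u| ^ 3 ≤ 1 / 2 * |u| ^ 3 := by
    have : 0 ≤ |u| ^ 3 := by positivity
    nlinarith
  have h8 : (1 + u) * (u - u ^ 2 / 2 + 2 * |u| ^ 3) =
      u + u ^ 2 / 2 + (-u ^ 3) / 2 + 2 * |u| ^ 3 + 2 * (u * |u| ^ 3) := by ring
  have h9 : 0 ≤ |u| ^ 3 := by positivity
  linarith

theorem abs_log_one_add_le {u : ℝ} (hu : |u| ≤ 1 / 2) : |Real.log (1 + u)| ≤ 2 * |u| := by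
  have hu' := abs_le.1 hu
  have h1 : Real.log (1 + u) ≤ u := by
    have := Real.log_le_sub_one_of_pos (x := 1 + u) (by linarith)
    linarith
  have h2 : -(2 * |u|) ≤ Real.log (1 + u) := by
    have h3 := Real.one_sub_inv_le_log_of_pos (x := 1 + u) (by linarith)
    have h4 : 1 - (1 + u)⁻¹ = u / (1 + u) := by
      have : (1 + u) ≠ 0 := by linarith
      field_simp
      ring
    have h5 : -(2 * |u|) ≤ u / (1 + u) := by
      rw [le_div_iff₀ (by linarith)]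
      have := neg_abs_le u
      have := abs_nonneg u
      nlinarith
    linarith
  rw [abs_le]
  exact ⟨h2, by linarith [le_abs_self u, abs_nonneg u]⟩

/-! ### Functions with exponential decay -/

theorem ExpDec.integrable {o : X} {f : X → ℝ} {m : Measure X} {a₀ : ℝ}
    (hm : Integrable (fun x => Real.exp (-a₀ * dist o x)) m) (h : ExpDec o f)
    (hf : AEStronglyMeasurable f m) : Integrable f m := by
  obtain ⟨C, -, hb⟩ := h a₀
  exact Integrable.mono' (hm.const_mul C) hf (Eventually.of_forall fun x => by simpa using hb x)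

theorem ExpDec.of_le {o : X} {f g : X → ℝ} (h : ExpDec o g) {c : ℝ} (hc : 0 ≤ c)
    (hfg : ∀ x, |f x| ≤ c * |g x|) : ExpDec o f := by
  intro a
  obtain ⟨C, hC, hb⟩ := h a
  refine ⟨c * C, by positivity, fun x => (hfg x).trans ?_⟩
  calc c * |g x| ≤ c * (C * Real.exp (-a * dist o x)) := by gcongr; exact hb x
    _ = _ := by ring

theorem ExpDec.add {o : X} {f g : X → ℝ} (hf : ExpDec o f) (hg : ExpDec o g) :
    ExpDec o (fun x => f x + g x) := by
  intro a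
  obtain ⟨C, hC, hb⟩ := hf a
  obtain ⟨C', hC', hb'⟩ := hg a
  refine ⟨C + C', by positivity, fun x => ?_⟩
  calc |f x + g x| ≤ |f x| + |g x| := abs_add_le _ _
    _ ≤ C * Real.exp (-a * dist o x) + C' * Real.exp (-a * dist o x) := add_le_add (hb x) (hb' x)
    _ = _ := by ring

theorem ExpDec.const_mul {o : X} {f : X → ℝ} (hf : ExpDec o f) (c : ℝ) :
    ExpDec o (fun x => c * f x) :=
  hf.of_le (abs_nonneg c) fun x => by rw [abs_mul]

theorem ExpDec.neg {o : X} {f : X → ℝ} (hf : ExpDec o f) : ExpDec o (fun x => -f x) :=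
  hf.of_le zero_le_one fun x => by rw [abs_neg, one_mul]

theorem ExpDec.abs {o : X} {f : X → ℝ} (hf : ExpDec o f) : ExpDec o (fun x => |f x|) :=
  hf.of_le zero_le_one fun x => by rw [abs_abs, one_mul]

theorem ExpDec.mul_bdd {o : X} {f g : X → ℝ} (hf : ExpDec o f) {c : ℝ} (hc : 0 ≤ c)
    (hg : ∀ x, |g x| ≤ c) : ExpDec o (fun x => f x * g x) :=
  hf.of_le hc fun x => by
    rw [abs_mul, mul_comm]
    exact mul_le_mul_of_nonneg_right (hg x) (abs_nonneg _)

theorem continuous_of_lip {f : X → ℝ} {L : ℝ} (h : ∀ x y, |f x - f y| ≤ L * dist x y) :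
    Continuous f := by
  have h1 : LipschitzWith (Real.toNNReal L) f := by
    refine LipschitzWith.of_dist_le_mul fun x y => ?_
    rw [Real.dist_eq]
    refine (h x y).trans ?_
    gcongr
    exact Real.le_coe_toNNReal L
  exact h1.continuous

/-! ### The maximiser map -/

section arg

variable {φ : X → ℝ} {ε L M : ℝ} {S : X → X}

theorem IsArg.gain (h : IsArg φ ε S) (y : X) : dist (S y) y ^ 2 / (2 * ε) ≤ φ (S y) - φ y := by
  have h1 := h.2 y y
  rw [dist_self] at h1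
  norm_num at h1
  linarith

theorem IsArg.sq_le (h : IsArg φ ε S) (hε : 0 < ε) (y : X) :
    dist (S y) y ^ 2 ≤ 2 * ε * (φ (S y) - φ y) := by
  have h1 := h.gain y
  rw [div_le_iff₀ (by positivity)] at h1
  linarith

theorem IsArg.dist_le (h : IsArg φ ε S) (hε : 0 < ε) (hL : 0 ≤ L)
    (hφ : ∀ x y, |φ x - φ y| ≤ L * dist x y) (y : X) : dist (S y) y ≤ 2 * ε * L := by
  have h1 := h.sq_le hε y
  have h2 := (le_abs_self _).trans (hφ (S y) y)
  by_contra h3
  push Not at h3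
  have h4 : 0 < dist (S y) y := lt_of_le_of_lt (by positivity) h3
  have h5 : 2 * ε * (φ (S y) - φ y) ≤ 2 * ε * (L * dist (S y) y) := by gcongr
  nlinarith

theorem comp_decay {k : X → ℝ} {o : X} {C a r : ℝ} (ha : 0 ≤ a) (hC : 0 ≤ C)
    (hk : ∀ x, |k x| ≤ C * Real.exp (-a * dist o x)) (hS : ∀ y, dist (S y) y ≤ r) (y : X) :
    |k (S y)| ≤ C * Real.exp (a * r) * Real.exp (-a * dist o y) := by
  refine (hk (S y)).trans ?_
  rw [mul_assoc, ← Real.exp_add]
  refine mul_le_mul_of_nonneg_left (Real.exp_le_exp.2 ?_) hC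
  have h1 : dist o y ≤ dist o (S y) + dist (S y) y := dist_triangle _ _ _
  have h2 := hS y
  nlinarith

theorem disp_decay {o : X} {C a r : ℝ} (h : IsArg φ ε S) (hε : 0 < ε) (hε1 : ε ≤ 1) (ha : 0 ≤ a)
    (hC : 0 ≤ C) (hφ : ∀ x, |φ x| ≤ C * Real.exp (-(2 * a) * dist o x))
    (hS : ∀ y, dist (S y) y ≤ r) (hr : 0 ≤ r) (y : X) :
    dist (S y) y ≤ √(4 * C * Real.exp (2 * a * r)) * Real.exp (-a * dist o y) := by
  have h1 := h.sq_le hε y
  have h2 := comp_decay (a := 2 * a) (by positivity) hC hφ hS y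
  have h3 := hφ y
  have h4 : φ (S y) - φ y ≤ 2 * C * Real.exp (2 * a * r) * Real.exp (-(2 * a) * dist o y) := by
    have h5 := le_abs_self (φ (S y))
    have h6 := neg_abs_le (φ y)
    have h7 : C * Real.exp (-(2 * a) * dist o y) ≤
        C * Real.exp (2 * a * r) * Real.exp (-(2 * a) * dist o y) := by
      have : 1 ≤ Real.exp (2 * a * r) := Real.one_le_exp (by positivity)
      have h8 : 0 ≤ C * Real.exp (-(2 * a) * dist o y) := by positivity
      nlinarith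
    linarith
  have h5 : dist (S y) y ^ 2 ≤ (√(4 * C * Real.exp (2 * a * r)) * Real.exp (-a * dist o y)) ^ 2 := by
    rw [mul_pow, Real.sq_sqrt (by positivity), ← Real.exp_nat_mul]
    have e1 : ((2 : ℕ) : ℝ) * (-a * dist o y) = -(2 * a) * dist o y := by push_cast; ring
    rw [e1]
    have h6 : 0 ≤ φ (S y) - φ y := by
      have := h.gain y
      have h7 : 0 ≤ dist (S y) y ^ 2 / (2 * ε) := by positivity
      linarith
    calc dist (S y) y ^ 2 ≤ 2 * ε * (φ (S y) - φ y) := h1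
      _ ≤ 2 * 1 * (φ (S y) - φ y) := by gcongr
      _ ≤ 2 * 1 * (2 * C * Real.exp (2 * a * r) * Real.exp (-(2 * a) * dist o y)) := by gcongr
      _ = _ := by ring
  exact le_of_sq_le_sq h5 (by positivity)

theorem ExpDec.of_nonneg {o : X} {f : X → ℝ}
    (h : ∀ a : ℝ, 0 ≤ a → ∃ C : ℝ, 0 ≤ C ∧ ∀ x, |f x| ≤ C * Real.exp (-a * dist o x)) :
    ExpDec o f := by
  intro a
  rcases le_total 0 a with ha | ha
  · exact h a ha
  · obtain ⟨C, hC, hb⟩ := h 0 le_rfl
    refine ⟨C, hC, fun x => (hb x).trans ?_⟩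
    refine mul_le_mul_of_nonneg_left (Real.exp_le_exp.2 ?_) hC
    have := dist_nonneg (x := o) (y := x)
    nlinarith

theorem ExpDec.comp {o : X} {k : X → ℝ} (hk : ExpDec o k) {r : ℝ}
    (hS : ∀ y, dist (S y) y ≤ r) : ExpDec o (fun y => k (S y)) := by
  refine ExpDec.of_nonneg fun a ha => ?_
  obtain ⟨C, hC, hb⟩ := hk a
  exact ⟨C * Real.exp (a * r), by positivity, fun y => comp_decay ha hC hb hS y⟩

theorem IsArg.expDec {o : X} (h : IsArg φ ε S) (hε : 0 < ε) (hε1 : ε ≤ 1) (hφ : ExpDec o φ)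
    {r : ℝ} (hS : ∀ y, dist (S y) y ≤ r) (hr : 0 ≤ r) : ExpDec o (fun y => dist (S y) y) := by
  refine ExpDec.of_nonneg fun a ha => ?_
  obtain ⟨C, hC, hb⟩ := hφ (2 * a)
  refine ⟨√(4 * C * Real.exp (2 * a * r)), by positivity, fun y => ?_⟩
  rw [abs_of_nonneg dist_nonneg]
  exact disp_decay h hε hε1 ha hC hb hS hr y

end arg

/-! ### The basic inequality: letting the cut-off go to infinity -/

section basic

variable [BorelSpace X] [ProperSpace X] {K ε L M a₀ : ℝ} {m : Measure X} {o : X}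
  {φ ℓ k : X → ℝ} {S : X → X}

/-- the cut-off potential -/
noncomputable def cutV (o : X) (a : ℝ) (n : ℕ) (y : X) : ℝ := a * max (dist o y - n) 0

theorem cutV_nonneg {a : ℝ} (ha : 0 ≤ a) (n : ℕ) (y : X) : 0 ≤ cutV o a n y :=
  mul_nonneg ha (le_max_right _ _)

theorem cutV_le {a : ℝ} (ha : 0 ≤ a) (n : ℕ) (y : X) : cutV o a n y ≤ a * dist o y := by
  unfold cutV
  refine mul_le_mul_of_nonneg_left ?_ ha
  have : (0 : ℝ) ≤ n := Nat.cast_nonneg n
  exact max_le (by linarith) dist_nonneg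

theorem le_cutV {a : ℝ} (ha : 0 ≤ a) (n : ℕ) (y : X) : a * dist o y - a * n ≤ cutV o a n y := by
  unfold cutV
  rw [← mul_sub]
  exact mul_le_mul_of_nonneg_left (le_max_left _ _) ha

theorem cutV_lip {a : ℝ} (ha : 0 ≤ a) (n : ℕ) (x y : X) :
    |cutV o a n x - cutV o a n y| ≤ a * dist x y := by
  unfold cutV
  rw [← mul_sub, abs_mul, abs_of_nonneg ha]
  refine mul_le_mul_of_nonneg_left ?_ ha
  refine (abs_max_sub_max_le_abs _ _ _).trans ?_
  rw [sub_sub_sub_cancel_right]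
  have := abs_dist_sub_le x y o
  rwa [dist_comm x o, dist_comm y o] at this

theorem cutV_eq_zero {a : ℝ} {n : ℕ} {y : X} (h : dist o y ≤ n) : cutV o a n y = 0 := by
  unfold cutV
  rw [max_eq_right (by linarith), mul_zero]

theorem measurable_cutV (a : ℝ) (n : ℕ) : Measurable (cutV o a n) := by
  unfold cutV
  have : Continuous fun y : X => a * max (dist o y - n) 0 := by fun_prop
  exact this.measurable

theorem exp_cutV_le {a : ℝ} (ha : 0 ≤ a) (n : ℕ) (y : X) :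
    Real.exp (-cutV o a n y) ≤ Real.exp (a * n) * Real.exp (-a * dist o y) := by
  rw [← Real.exp_add]
  refine Real.exp_le_exp.2 ?_
  have := le_cutV (o := o) ha n y
  linarith

theorem integrable_mul_cut (hm : Integrable (fun x => Real.exp (-a₀ * dist o x)) m) (ha₀ : 0 ≤ a₀)
    (n : ℕ) {f : X → ℝ} (hf : Measurable f) {c₀ c₁ : ℝ} (h₀ : 0 ≤ c₀) (h₁ : 0 ≤ c₁)
    (hb : ∀ y, |f y| ≤ c₀ + c₁ * dist o y ^ 2) :
    Integrable (fun y => f y * Real.exp (-cutV o (a₀ + 1) n y)) m := by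
  refine Integrable.mono' (hm.const_mul ((c₀ + 2 * c₁) * Real.exp ((a₀ + 1) * n)))
    ((hf.mul (measurable_cutV _ n).neg.exp).aestronglyMeasurable)
    (Eventually.of_forall fun y => ?_)
  rw [Real.norm_eq_abs, abs_mul, abs_of_pos (Real.exp_pos _)]
  have h1 := exp_cutV_le (o := o) (a := a₀ + 1) (by linarith) n y
  have hd : 0 ≤ dist o y := dist_nonneg
  have h2 : |f y| ≤ (c₀ + 2 * c₁) * Real.exp (dist o y) := by
    have h3 : 1 ≤ Real.exp (dist o y) := Real.one_le_exp hd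
    have h4 : dist o y ^ 2 ≤ 2 * Real.exp (dist o y) := by
      have := Real.quadratic_le_exp_of_nonneg hd
      nlinarith
    nlinarith [hb y]
  calc |f y| * Real.exp (-cutV o (a₀ + 1) n y)
      ≤ (c₀ + 2 * c₁) * Real.exp (dist o y) *
        (Real.exp ((a₀ + 1) * n) * Real.exp (-(a₀ + 1) * dist o y)) := by gcongr
    _ = (c₀ + 2 * c₁) * Real.exp ((a₀ + 1) * n) *
        (Real.exp (dist o y) * Real.exp (-(a₀ + 1) * dist o y)) := by ring
    _ = (c₀ + 2 * c₁) * Real.exp ((a₀ + 1) * n) * Real.exp (-a₀ * dist o y) := by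
        rw [← Real.exp_add]
        congr 2
        ring

theorem var_basic (ha₀ : 0 ≤ a₀)
    (hm : Integrable (fun x => Real.exp (-a₀ * dist o x)) m) (hε : 0 < ε) (hε1 : ε ≤ 1)
    (hL : 0 ≤ L) (hM : 0 ≤ M) (hφ : ∀ x y, |φ x - φ y| ≤ L * dist x y)
    (hφd : ExpDec o φ) (hℓm : Measurable ℓ) (hℓb : ∀ x, |ℓ x| ≤ M) (hℓd : ExpDec o ℓ)
    (hS : IsArg φ ε S) (hG : GibbsIneq K m o ℓ ε S)
    (hkm : Measurable k) (hkd : ExpDec o k) (hkb : ∀ x, |ε * k x| ≤ 1 / 2) :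
    Integrable (fun y => (ε * k (S y)) * (1 + ε * k y) + ((1 + ε * k y) - Real.exp (ε * k y)) -
      (1 + ε * k y) * Real.log (1 + ε * k y) + ε * (ℓ (S y) * (1 + ε * k y)) +
      K / 2 * (dist (S y) y ^ 2 * (1 + ε * k y))) m ∧
    ∫ y, ((ε * k (S y)) * (1 + ε * k y) + ((1 + ε * k y) - Real.exp (ε * k y)) -
      (1 + ε * k y) * Real.log (1 + ε * k y) + ε * (ℓ (S y) * (1 + ε * k y)) +
      K / 2 * (dist (S y) y ^ 2 * (1 + ε * k y))) ∂m ≤ 0 := by
  set a := a₀ + 1 with ha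
  have ha0 : 0 ≤ a := by linarith
  have hdisp : ∀ y, dist (S y) y ≤ 2 * L := fun y =>
    (hS.dist_le hε hL hφ y).trans (by nlinarith)
  have hSm := hS.1
  have hdm : Measurable fun y => dist (S y) y := hSm.dist measurable_id
  have hk1 : ∀ y, 1 / 2 ≤ 1 + ε * k y := fun y => by
    have := (abs_le.1 (hkb y)).1; linarith
  have hk2 : ∀ y, 1 + ε * k y ≤ 3 / 2 := fun y => by
    have := (abs_le.1 (hkb y)).2; linarith
  -- the functions of the Gibbs inequality
  set w : ℕ → X → ℝ := fun n y => (1 + ε * k y) * Real.exp (-cutV o a n y) with hw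
  set Φ : ℕ → X → ℝ := fun n y => Real.exp (ε * k y) * Real.exp (-cutV o a n y) with hΦ
  have hwm : ∀ n, Measurable (w n) := fun n =>
    ((hkm.const_mul ε).const_add 1).mul (measurable_cutV _ n).neg.exp
  have hΦm : ∀ n, Measurable (Φ n) := fun n =>
    ((hkm.const_mul ε).exp).mul (measurable_cutV _ n).neg.exp
  have hw0 : ∀ n y, 0 < w n y := fun n y =>
    mul_pos (by linarith [hk1 y]) (Real.exp_pos _)
  have hΦ0 : ∀ n y, 0 < Φ n y := fun n y => mul_pos (Real.exp_pos _) (Real.exp_pos _)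
  have hlogw : ∀ n y, Real.log (w n y) = Real.log (1 + ε * k y) - cutV o a n y := fun n y => by
    rw [hw]
    simp only
    rw [Real.log_mul (by linarith [hk1 y]) (Real.exp_pos _).ne', Real.log_exp]
    ring
  have hlogΦ : ∀ n y, Real.log (Φ n y) = ε * k y - cutV o a n y := fun n y => by
    rw [hΦ]
    simp only
    rw [Real.log_mul (Real.exp_pos _).ne' (Real.exp_pos _).ne', Real.log_exp, Real.log_exp]
    ring
  have hsq : ∀ y : X, dist o y ≤ 1 + dist o y ^ 2 := fun y => by nlinarith [sq_nonneg (dist o y - 1)]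
  -- integrability
  have I : ∀ (n : ℕ) (f : X → ℝ), Measurable f → ∀ c₀ c₁ : ℝ, 0 ≤ c₀ → 0 ≤ c₁ →
      (∀ y, |f y| ≤ c₀ + c₁ * dist o y ^ 2) → Integrable (fun y => f y * w n y) m := by
    intro n f hf c₀ c₁ h₀ h₁ hb
    have h := integrable_mul_cut (o := o) hm ha₀ n
      (f := fun y => f y * (1 + ε * k y)) (hf.mul ((hkm.const_mul ε).const_add 1))
      (c₀ := c₀ * (3 / 2)) (c₁ := c₁ * (3 / 2)) (by positivity) (by positivity) (fun y => by
        rw [abs_mul, abs_of_nonneg (by linarith [hk1 y] : (0 : ℝ) ≤ 1 + ε * k y)]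
        calc |f y| * (1 + ε * k y) ≤ (c₀ + c₁ * dist o y ^ 2) * (3 / 2) :=
              mul_le_mul (hb y) (hk2 y) (by linarith [hk1 y]) (by positivity)
          _ = _ := by ring)
    refine h.congr (Eventually.of_forall fun y => ?_)
    simp only [hw]
    ring
  have i1 : ∀ n, Integrable (w n) m := fun n => by
    have h := I n (fun _ => 1) measurable_const 1 0 zero_le_one le_rfl (fun y => by simp)
    simpa using h
  have hlogb : ∀ n y, |Real.log (w n y)| ≤ (1 + a) + a * dist o y ^ 2 := fun n y => by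
    rw [hlogw]
    have h1 := abs_log_one_add_le (hkb y)
    have h2 := hkb y
    have h3 := cutV_nonneg (o := o) ha0 n y
    have h4 := cutV_le (o := o) ha0 n y
    have h5 := hsq y
    have h6 := abs_sub (Real.log (1 + ε * k y)) (cutV o a n y)
    rw [abs_of_nonneg h3] at h6
    nlinarith
  have i2 : ∀ n, Integrable (fun x => w n x * Real.log (w n x)) m := fun n => by
    have h := I n (fun y => Real.log (w n y)) (hwm n).log (1 + a) a (by linarith) ha0 (hlogb n)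
    exact h.congr (Eventually.of_forall fun y => mul_comm _ _)
  have i3 : ∀ n, Integrable (fun x => dist o x ^ 2 * w n x) m := fun n =>
    I n (fun y => dist o y ^ 2) (by fun_prop) 0 1 le_rfl zero_le_one (fun y => by
      rw [abs_of_nonneg (by positivity)]; linarith)
  have i4 : ∀ n, Integrable (Φ n) m := fun n => by
    refine integrable_mul_cut (o := o) hm ha₀ n (f := fun y => Real.exp (ε * k y))
      (hkm.const_mul ε).exp (c₀ := Real.exp (1 / 2)) (c₁ := 0) (Real.exp_pos _).le le_rfl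
      (fun y => ?_)
    rw [abs_of_pos (Real.exp_pos _), zero_mul, add_zero]
    exact Real.exp_le_exp.2 ((le_abs_self _).trans (hkb y))
  have hVS : ∀ n y, |cutV o a n (S y)| ≤ a * (1 + 2 * L) + a * dist o y ^ 2 := fun n y => by
    rw [abs_of_nonneg (cutV_nonneg ha0 n _)]
    have h1 := cutV_le (o := o) ha0 n (S y)
    have h2 : dist o (S y) ≤ dist o y + dist y (S y) := dist_triangle _ _ _
    rw [dist_comm y] at h2
    have h3 := hdisp y
    have h4 := hsq y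
    nlinarith
  have i5 : ∀ n, Integrable (fun y => Real.log (Φ n (S y)) * w n y) m := fun n => by
    refine I n (fun y => Real.log (Φ n (S y))) ((hΦm n).log.comp hSm) (1 / 2 + a * (1 + 2 * L)) a
      (by positivity) ha0 (fun y => ?_)
    rw [hlogΦ]
    have h1 := abs_sub (ε * k (S y)) (cutV o a n (S y))
    have h2 := hkb (S y)
    have h3 := hVS n y
    linarith
  have i6 : ∀ n, Integrable (fun y => ℓ (S y) * w n y) m := fun n =>
    I n (fun y => ℓ (S y)) (hℓm.comp hSm) M 0 hM le_rfl (fun y => by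
      rw [zero_mul, add_zero]; exact hℓb _)
  have i7 : ∀ n, Integrable (fun y => dist (S y) y ^ 2 * w n y) m := fun n =>
    I n (fun y => dist (S y) y ^ 2) (hdm.pow_const 2) ((2 * L) ^ 2) 0 (by positivity) le_rfl
      (fun y => by
        rw [abs_of_nonneg (by positivity), zero_mul, add_zero]
        have := hdisp y
        gcongr)
  -- the inequality for every cut-off
  set F : ℕ → X → ℝ := fun n y => Real.log (Φ n (S y)) * w n y + w n y - Φ n y -
    w n y * Real.log (w n y) + ε * (ℓ (S y) * w n y) + K / 2 * (dist (S y) y ^ 2 * w n y) with hF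
  have hFle : ∀ n, ∫ y, F n y ∂m ≤ 0 := by
    intro n
    have h := hG (w n) (Φ n) (hwm n) (hw0 n) (i1 n) (i2 n) (i3 n) (hΦm n) (hΦ0 n) (i4 n) (i5 n)
    have e : ∫ y, F n y ∂m = ∫ y, Real.log (Φ n (S y)) * w n y ∂m + ∫ y, w n y ∂m -
        ∫ y, Φ n y ∂m - ∫ y, w n y * Real.log (w n y) ∂m + ε * ∫ y, ℓ (S y) * w n y ∂m +
        K / 2 * ∫ y, dist (S y) y ^ 2 * w n y ∂m := by
      rw [hF]
      simp only
      rw [integral_add, integral_add, integral_sub, integral_sub, integral_add,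
        integral_const_mul, integral_const_mul]
      · exact i5 n
      · exact i1 n
      · exact (i5 n).add (i1 n)
      · exact i4 n
      · exact ((i5 n).add (i1 n)).sub (i4 n)
      · exact i2 n
      · exact (((i5 n).add (i1 n)).sub (i4 n)).sub (i2 n)
      · exact (i6 n).const_mul ε
      · exact ((((i5 n).add (i1 n)).sub (i4 n)).sub (i2 n)).add ((i6 n).const_mul ε)
      · exact (i7 n).const_mul (K / 2)
    rw [e]
    linarith
  -- the limit
  have dS : ExpDec o (fun y => dist (S y) y) := hS.expDec hε hε1 hφd hdisp (by positivity)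
  have iB : Integrable (fun y => 3 / 2 * |k (S y)| + (3 / 2 * a + 2 * |K| * L) * dist (S y) y +
      4 * |k y| + 3 / 2 * |ℓ (S y)|) m := by
    refine ExpDec.integrable hm ?_ ?_
    · exact ((((hkd.comp hdisp).abs.const_mul (3 / 2)).add (dS.const_mul _)).add
        (hkd.abs.const_mul 4)).add ((hℓd.comp hdisp).abs.const_mul (3 / 2))
    · have m1 : Measurable fun y => |k (S y)| := (hkm.comp hSm).abs
      have m2 : Measurable fun y => |ℓ (S y)| := (hℓm.comp hSm).abs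
      exact ((((m1.const_mul (3 / 2)).add (hdm.const_mul _)).add (hkm.abs.const_mul 4)).add
        (m2.const_mul (3 / 2))).aestronglyMeasurable
  have hFmeas : ∀ n, AEStronglyMeasurable (F n) m := by
    intro n
    have m1 : Measurable fun y => Real.log (Φ n (S y)) * w n y :=
      (((hΦm n).log).comp hSm).mul (hwm n)
    have m2 : Measurable fun y => w n y * Real.log (w n y) := (hwm n).mul (hwm n).log
    have m3 : Measurable fun y => ℓ (S y) * w n y := (hℓm.comp hSm).mul (hwm n)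
    have m4 : Measurable fun y => dist (S y) y ^ 2 * w n y := (hdm.pow_const 2).mul (hwm n)
    exact (((((m1.add (hwm n)).sub (hΦm n)).sub m2).add (m3.const_mul ε)).add
      (m4.const_mul (K / 2))).aestronglyMeasurable
  have hbound : ∀ n y, ‖F n y‖ ≤ 3 / 2 * |k (S y)| + (3 / 2 * a + 2 * |K| * L) * dist (S y) y +
      4 * |k y| + 3 / 2 * |ℓ (S y)| := by
    intro n y
    have e : F n y = Real.exp (-cutV o a n y) * ((ε * k (S y)) * (1 + ε * k y) +
        (cutV o a n y - cutV o a n (S y)) * (1 + ε * k y) +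
        ((1 + ε * k y) - Real.exp (ε * k y)) - (1 + ε * k y) * Real.log (1 + ε * k y) +
        ε * (ℓ (S y) * (1 + ε * k y)) + K / 2 * (dist (S y) y ^ 2 * (1 + ε * k y))) := by
      simp only [hF]
      rw [hlogw, hlogΦ]
      simp only [hw, hΦ]
      ring
    have hE0 : 0 ≤ Real.exp (-cutV o a n y) := (Real.exp_pos _).le
    have hE1 : Real.exp (-cutV o a n y) ≤ 1 :=
      Real.exp_le_one_iff.2 (by linarith [cutV_nonneg (o := o) ha0 n y])
    have hu0 : (0 : ℝ) ≤ 1 + ε * k y := by linarith [hk1 y]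
    have hD0 : 0 ≤ dist (S y) y := dist_nonneg
    have b1 : |(ε * k (S y)) * (1 + ε * k y)| ≤ 3 / 2 * |k (S y)| := by
      rw [abs_mul, abs_mul, abs_of_pos hε, abs_of_nonneg hu0]
      have h1 : ε * |k (S y)| ≤ |k (S y)| := mul_le_of_le_one_left (abs_nonneg _) hε1
      calc ε * |k (S y)| * (1 + ε * k y) ≤ |k (S y)| * (3 / 2) :=
            mul_le_mul h1 (hk2 y) hu0 (abs_nonneg _)
        _ = _ := by ring
    have b2 : |(cutV o a n y - cutV o a n (S y)) * (1 + ε * k y)| ≤ 3 / 2 * a * dist (S y) y := by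
      rw [abs_mul, abs_of_nonneg hu0]
      have h1 := cutV_lip (o := o) ha0 n y (S y)
      rw [dist_comm y] at h1
      calc |cutV o a n y - cutV o a n (S y)| * (1 + ε * k y) ≤ (a * dist (S y) y) * (3 / 2) :=
            mul_le_mul h1 (hk2 y) hu0 (by positivity)
        _ = _ := by ring
    have hεk : |ε * k y| ≤ |k y| := by
      rw [abs_mul, abs_of_pos hε]
      exact mul_le_of_le_one_left (abs_nonneg _) hε1
    have b3 : |(1 + ε * k y) - Real.exp (ε * k y)| ≤ |k y| := by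
      have h1 := Real.abs_exp_sub_one_sub_id_le (x := ε * k y) (by linarith [hkb y])
      have h2 : (1 + ε * k y) - Real.exp (ε * k y) = -(Real.exp (ε * k y) - 1 - ε * k y) := by ring
      rw [h2, abs_neg]
      have h3 : (ε * k y) ^ 2 ≤ |ε * k y| := by
        rw [← sq_abs]
        have := hkb y
        have := abs_nonneg (ε * k y)
        nlinarith
      linarith
    have b4 : |(1 + ε * k y) * Real.log (1 + ε * k y)| ≤ 3 * |k y| := by
      rw [abs_mul, abs_of_nonneg hu0]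
      have h1 := abs_log_one_add_le (hkb y)
      calc (1 + ε * k y) * |Real.log (1 + ε * k y)| ≤ (3 / 2) * (2 * |ε * k y|) :=
            mul_le_mul (hk2 y) h1 (abs_nonneg _) (by norm_num)
        _ ≤ (3 / 2) * (2 * |k y|) := by gcongr
        _ = _ := by ring
    have b5 : |ε * (ℓ (S y) * (1 + ε * k y))| ≤ 3 / 2 * |ℓ (S y)| := by
      rw [abs_mul, abs_mul, abs_of_pos hε, abs_of_nonneg hu0]
      calc ε * (|ℓ (S y)| * (1 + ε * k y)) ≤ 1 * (|ℓ (S y)| * (3 / 2)) := by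
            gcongr
            exact hk2 y
        _ = _ := by ring
    have b6 : |K / 2 * (dist (S y) y ^ 2 * (1 + ε * k y))| ≤ 2 * |K| * L * dist (S y) y := by
      rw [abs_mul, abs_mul, abs_of_nonneg (by positivity : (0 : ℝ) ≤ dist (S y) y ^ 2),
        abs_of_nonneg hu0, abs_div, abs_two]
      have h1 : dist (S y) y ^ 2 ≤ 2 * L * dist (S y) y := by
        rw [sq]
        exact mul_le_mul_of_nonneg_right (hdisp y) hD0
      calc |K| / 2 * (dist (S y) y ^ 2 * (1 + ε * k y))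
          ≤ |K| / 2 * ((2 * L * dist (S y) y) * (3 / 2)) := by
            gcongr
            exact hk2 y
        _ = 3 / 2 * (|K| * L * dist (S y) y) := by ring
        _ ≤ 2 * (|K| * L * dist (S y) y) := by
            have : 0 ≤ |K| * L * dist (S y) y := by positivity
            linarith
        _ = _ := by ring
    rw [e, Real.norm_eq_abs, abs_mul, abs_of_nonneg hE0]
    refine (mul_le_of_le_one_left (abs_nonneg _) hE1).trans ?_
    generalize (ε * k (S y)) * (1 + ε * k y) = A at b1 ⊢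
    generalize (cutV o a n y - cutV o a n (S y)) * (1 + ε * k y) = B at b2 ⊢
    generalize (1 + ε * k y) - Real.exp (ε * k y) = C at b3 ⊢
    generalize (1 + ε * k y) * Real.log (1 + ε * k y) = D at b4 ⊢
    generalize ε * (ℓ (S y) * (1 + ε * k y)) = E at b5 ⊢
    generalize K / 2 * (dist (S y) y ^ 2 * (1 + ε * k y)) = G at b6 ⊢
    have t1 := abs_add_le (A + B + C - D + E) G
    have t2 := abs_add_le (A + B + C - D) E
    have t3 := abs_sub (A + B + C) D
    have t4 := abs_add_le (A + B) C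
    have t5 := abs_add_le A B
    have t6 : (3 / 2 * a + 2 * |K| * L) * dist (S y) y =
      3 / 2 * a * dist (S y) y + 2 * |K| * L * dist (S y) y := by ring
    rw [t6]
    linarith
  have hpt : ∀ y, Tendsto (fun n => F n y) atTop (𝓝 ((ε * k (S y)) * (1 + ε * k y) +
      ((1 + ε * k y) - Real.exp (ε * k y)) - (1 + ε * k y) * Real.log (1 + ε * k y) +
      ε * (ℓ (S y) * (1 + ε * k y)) + K / 2 * (dist (S y) y ^ 2 * (1 + ε * k y)))) := by
    intro y
    refine tendsto_const_nhds.congr' ?_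
    obtain ⟨n₀, hn₀⟩ := exists_nat_ge (dist o y + 2 * L)
    filter_upwards [eventually_ge_atTop n₀] with n hn
    have hn' : dist o y + 2 * L ≤ n := hn₀.trans (Nat.cast_le.2 hn)
    have c1 : cutV o a n y = 0 := cutV_eq_zero (by linarith)
    have c2 : cutV o a n (S y) = 0 := by
      refine cutV_eq_zero ?_
      have h2 : dist o (S y) ≤ dist o y + dist y (S y) := dist_triangle _ _ _
      rw [dist_comm y] at h2
      linarith [hdisp y]
    simp only [hF]
    rw [hlogw, hlogΦ, c1, c2]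
    simp only [hw, hΦ, c1, neg_zero, Real.exp_zero, mul_one, sub_zero]
    ring
  refine ⟨Integrable.mono' iB (aestronglyMeasurable_of_tendsto_ae atTop hFmeas
    (Eventually.of_forall hpt)) (Eventually.of_forall fun y =>
      le_of_tendsto' (hpt y).norm (fun n => hbound n y)), ?_⟩
  exact le_of_tendsto' (tendsto_integral_of_dominated_convergence _ hFmeas iB
    (fun n => Eventually.of_forall (hbound n)) (Eventually.of_forall hpt)) hFle

end basic

/-! ### The first variation -/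

/-- All data on `φ`, `ℓ = L φ` and the maps `S ε`. -/
structure VarHyp (K : ℝ) (m : Measure X) (o : X) (a₀ L M : ℝ) (φ ℓ : X → ℝ) (S : ℝ → X → X) :
    Prop where
  hK : K ≤ 0
  ha : 0 ≤ a₀
  hm : Integrable (fun x => Real.exp (-a₀ * dist o x)) m
  hL : 0 ≤ L
  hM : 0 ≤ M
  lip : ∀ x y, |φ x - φ y| ≤ L * dist x y
  lip' : ∀ x y, |ℓ x - ℓ y| ≤ L * dist x y
  bdd : ∀ x, |φ x| ≤ M
  bdd' : ∀ x, |ℓ x| ≤ M
  dec : ExpDec o φ
  dec' : ExpDec o ℓ
  arg : ∀ ε, 0 < ε → ε ≤ 1 → IsArg φ ε (S ε)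
  gibbs : ∀ ε, 0 < ε → ε ≤ 1 → GibbsIneq K m o ℓ ε (S ε)

/-- test functions -/
structure Test (o : X) (k : X → ℝ) (M L : ℝ) : Prop where
  hL : 0 ≤ L
  hM : 0 ≤ M
  bdd : ∀ x, |k x| ≤ M
  lip : ∀ x y, |k x - k y| ≤ L * dist x y
  dec : ExpDec o k

theorem Test.const_mul {o : X} {k : X → ℝ} {M L : ℝ} (h : Test o k M L) (c : ℝ) :
    Test o (fun x => c * k x) (|c| * M) (|c| * L) where
  hL := mul_nonneg (abs_nonneg _) h.hL
  hM := mul_nonneg (abs_nonneg _) h.hM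
  bdd x := by rw [abs_mul]; exact mul_le_mul_of_nonneg_left (h.bdd x) (abs_nonneg _)
  lip x y := by
    rw [← mul_sub, abs_mul, mul_assoc]
    exact mul_le_mul_of_nonneg_left (h.lip x y) (abs_nonneg _)
  dec := h.dec.const_mul c

noncomputable def vB (m : Measure X) (S : ℝ → X → X) (k : X → ℝ) (ε : ℝ) : ℝ :=
  1 / ε * ∫ y, (k (S ε y) - k y) ∂m

noncomputable def vJ (m : Measure X) (S : ℝ → X → X) (ℓ : X → ℝ) (ε : ℝ) : ℝ :=
  1 / ε * ∫ y, ℓ (S ε y) ∂m

noncomputable def vD (m : Measure X) (S : ℝ → X → X) (ε : ℝ) : ℝ :=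
  1 / ε ^ 2 * ∫ y, dist (S ε y) y ^ 2 ∂m

section var

variable [BorelSpace X] [ProperSpace X] {K L M a₀ : ℝ} {m : Measure X} {o : X}
  {φ ℓ : X → ℝ} {S : ℝ → X → X}

theorem Test.cont {k : X → ℝ} {M L : ℝ} (h : Test o k M L) : Continuous k :=
  continuous_of_lip h.lip

theorem Test.meas {k : X → ℝ} {M L : ℝ} (h : Test o k M L) : Measurable k := h.cont.measurable

theorem Test.int {k : X → ℝ} {M L : ℝ} (h : Test o k M L)
    (hm : Integrable (fun x => Real.exp (-a₀ * dist o x)) m) : Integrable k m :=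
  h.dec.integrable hm h.meas.aestronglyMeasurable

namespace VarHyp

theorem tφ (h : VarHyp K m o a₀ L M φ ℓ S) : Test o φ M L := ⟨h.hL, h.hM, h.bdd, h.lip, h.dec⟩

theorem tℓ (h : VarHyp K m o a₀ L M φ ℓ S) : Test o ℓ M L := ⟨h.hL, h.hM, h.bdd', h.lip', h.dec'⟩

theorem disp (h : VarHyp K m o a₀ L M φ ℓ S) {ε : ℝ} (hε : 0 < ε) (hε1 : ε ≤ 1) (y : X) :
    dist (S ε y) y ≤ 2 * ε * L := (h.arg ε hε hε1).dist_le hε h.hL h.lip y

theorem disp' (h : VarHyp K m o a₀ L M φ ℓ S) {ε : ℝ} (hε : 0 < ε) (hε1 : ε ≤ 1) (y : X) :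
    dist (S ε y) y ≤ 2 * L := (h.disp hε hε1 y).trans (by nlinarith [h.hL])

theorem sm (h : VarHyp K m o a₀ L M φ ℓ S) {ε : ℝ} (hε : 0 < ε) (hε1 : ε ≤ 1) :
    Measurable (S ε) := (h.arg ε hε hε1).1

theorem dm (h : VarHyp K m o a₀ L M φ ℓ S) {ε : ℝ} (hε : 0 < ε) (hε1 : ε ≤ 1) :
    Measurable (fun y => dist (S ε y) y) := (h.sm hε hε1).dist measurable_id

theorem dec_disp (h : VarHyp K m o a₀ L M φ ℓ S) {ε : ℝ} (hε : 0 < ε) (hε1 : ε ≤ 1) :
    ExpDec o (fun y => dist (S ε y) y) :=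
  (h.arg ε hε hε1).expDec hε hε1 h.dec (h.disp' hε hε1) (by linarith [h.hL])

theorem int_comp (h : VarHyp K m o a₀ L M φ ℓ S) {k : X → ℝ} {Mk Lk : ℝ} (hk : Test o k Mk Lk)
    {ε : ℝ} (hε : 0 < ε) (hε1 : ε ≤ 1) : Integrable (fun y => k (S ε y)) m :=
  (hk.dec.comp (h.disp' hε hε1)).integrable h.hm (hk.meas.comp (h.sm hε hε1)).aestronglyMeasurable

theorem int_sq (h : VarHyp K m o a₀ L M φ ℓ S) {ε : ℝ} (hε : 0 < ε) (hε1 : ε ≤ 1) :
    Integrable (fun y => dist (S ε y) y ^ 2) m := by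
  have h1 : ExpDec o (fun y => dist (S ε y) y ^ 2) :=
    (h.dec_disp hε hε1).of_le (c := 2 * L) (by linarith [h.hL]) fun y => by
      rw [abs_of_nonneg (by positivity), abs_of_nonneg dist_nonneg, sq]
      exact mul_le_mul_of_nonneg_right (h.disp' hε hε1 y) dist_nonneg
  exact h1.integrable h.hm ((h.dm hε hε1).pow_const 2).aestronglyMeasurable

theorem int_mul (h : VarHyp K m o a₀ L M φ ℓ S) {k : X → ℝ} {Mk Lk : ℝ} (hk : Test o k Mk Lk)
    {ε : ℝ} (hε : 0 < ε) (hε1 : ε ≤ 1) : Integrable (fun y => ℓ (S ε y) * k y) m := by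
  have h1 : ExpDec o (fun y => ℓ (S ε y) * k y) :=
    (h.dec'.comp (h.disp' hε hε1)).mul_bdd hk.hM hk.bdd
  exact h1.integrable h.hm
    ((h.tℓ.meas.comp (h.sm hε hε1)).mul hk.meas).aestronglyMeasurable

/-- The quadratic inequality. -/
theorem ineq (h : VarHyp K m o a₀ L M φ ℓ S) {k : X → ℝ} {Mk Lk : ℝ} (hk : Test o k Mk Lk)
    {ε : ℝ} (hε : 0 < ε) (hε1 : ε ≤ 1) (hεM : ε * Mk ≤ 1 / 2) :
    vB m S k ε + vJ m S ℓ ε + ∫ y, ℓ (S ε y) * k y ∂m ≤
      -K / 2 * (1 + ε * Mk) * vD m S ε + ε * ((5 * Mk ^ 2 + 2 * L * Lk) * ∫ y, |k y| ∂m) := by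
  have hkb : ∀ y, |ε * k y| ≤ 1 / 2 := fun y => by
    rw [abs_mul, abs_of_pos hε]
    exact (mul_le_mul_of_nonneg_left (hk.bdd y) hε.le).trans hεM
  have h0 := var_basic h.ha h.hm hε hε1 h.hL h.hM h.lip h.dec h.tℓ.meas h.bdd' h.dec'
    (h.arg ε hε hε1) (h.gibbs ε hε hε1) hk.meas hk.dec hkb
  have ik := hk.int h.hm
  have ikS := h.int_comp hk hε hε1
  have iℓS := h.int_comp h.tℓ hε hε1
  have isq := h.int_sq hε hε1
  have imul := h.int_mul hk hε hε1
  have hK := h.hK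
  have hL := h.hL
  have hLk := hk.hL
  have hMk := hk.hM
  set c := 5 * Mk ^ 2 + 2 * L * Lk with hc
  have iG : Integrable (fun y => ε * (k (S ε y) - k y) + ε * ℓ (S ε y) + ε ^ 2 * (ℓ (S ε y) * k y) +
      K / 2 * (1 + ε * Mk) * dist (S ε y) y ^ 2 - ε ^ 3 * c * |k y|) m :=
    (((((ikS.sub ik).const_mul ε).add (iℓS.const_mul ε)).add (imul.const_mul (ε ^ 2))).add
      (isq.const_mul _)).sub (ik.abs.const_mul _)
  -- the integrand of the basic inequality is integrable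
  have hpt : ∀ y, ε * (k (S ε y) - k y) + ε * ℓ (S ε y) + ε ^ 2 * (ℓ (S ε y) * k y) +
      K / 2 * (1 + ε * Mk) * dist (S ε y) y ^ 2 - ε ^ 3 * c * |k y| ≤
      (ε * k (S ε y)) * (1 + ε * k y) + ((1 + ε * k y) - Real.exp (ε * k y)) -
      (1 + ε * k y) * Real.log (1 + ε * k y) + ε * (ℓ (S ε y) * (1 + ε * k y)) +
      K / 2 * (dist (S ε y) y ^ 2 * (1 + ε * k y)) := by
    intro y
    have e1 := exp_le_third (hkb y)
    have e2 := mul_log_le_third (hkb y)
    have e3 : |ε * k y| ^ 3 ≤ ε ^ 3 * Mk ^ 2 * |k y| := by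
      rw [abs_mul, abs_of_pos hε, mul_pow]
      have h1 : |k y| ^ 3 ≤ Mk ^ 2 * |k y| := by
        have h2 := hk.bdd y
        have h3 : |k y| ^ 2 ≤ Mk ^ 2 := by gcongr
        calc |k y| ^ 3 = |k y| ^ 2 * |k y| := by ring
          _ ≤ Mk ^ 2 * |k y| := by gcongr
      calc ε ^ 3 * |k y| ^ 3 ≤ ε ^ 3 * (Mk ^ 2 * |k y|) := by gcongr
        _ = _ := by ring
    have e4 : -(ε ^ 3 * (2 * L * Lk) * |k y|) ≤ ε ^ 2 * (k y * (k (S ε y) - k y)) := by
      have h1 := hk.lip (S ε y) y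
      have h2 := h.disp hε hε1 y
      have h3 : |k (S ε y) - k y| ≤ Lk * (2 * ε * L) := h1.trans (by gcongr)
      have h4 : |k y * (k (S ε y) - k y)| ≤ |k y| * (Lk * (2 * ε * L)) := by
        rw [abs_mul]; gcongr
      have h5 := neg_abs_le (k y * (k (S ε y) - k y))
      have h6 : ε ^ 2 * (-(|k y| * (Lk * (2 * ε * L)))) ≤ ε ^ 2 * (k y * (k (S ε y) - k y)) := by
        gcongr
        linarith
      calc _ = ε ^ 2 * (-(|k y| * (Lk * (2 * ε * L)))) := by ring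
        _ ≤ _ := h6
    have e5 : K / 2 * (1 + ε * Mk) * dist (S ε y) y ^ 2 ≤
        K / 2 * (dist (S ε y) y ^ 2 * (1 + ε * k y)) := by
      have h1 : k y ≤ Mk := (le_abs_self _).trans (hk.bdd y)
      have h2 : dist (S ε y) y ^ 2 * (1 + ε * k y) ≤ dist (S ε y) y ^ 2 * (1 + ε * Mk) := by gcongr
      have h3 : K / 2 ≤ 0 := by linarith
      calc K / 2 * (1 + ε * Mk) * dist (S ε y) y ^ 2
          = K / 2 * (dist (S ε y) y ^ 2 * (1 + ε * Mk)) := by ring
        _ ≤ K / 2 * (dist (S ε y) y ^ 2 * (1 + ε * k y)) := mul_le_mul_of_nonpos_left h2 h3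
    have e6 : (ε * k (S ε y)) * (1 + ε * k y) - ε * k y - (ε * k y) ^ 2 =
        ε * (k (S ε y) - k y) + ε ^ 2 * (k y * (k (S ε y) - k y)) := by ring
    have e7 : ε * (ℓ (S ε y) * (1 + ε * k y)) = ε * ℓ (S ε y) + ε ^ 2 * (ℓ (S ε y) * k y) := by ring
    have e8 : ε ^ 3 * c * |k y| = 5 * (ε ^ 3 * Mk ^ 2 * |k y|) + ε ^ 3 * (2 * L * Lk) * |k y| := by
      rw [hc]; ring
    rw [e7, e8]
    linarith
  have h1 := (integral_mono iG h0.1 hpt).trans h0.2
  have e : ∫ y, (ε * (k (S ε y) - k y) + ε * ℓ (S ε y) + ε ^ 2 * (ℓ (S ε y) * k y) +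
      K / 2 * (1 + ε * Mk) * dist (S ε y) y ^ 2 - ε ^ 3 * c * |k y|) ∂m =
      ε * ∫ y, (k (S ε y) - k y) ∂m + ε * ∫ y, ℓ (S ε y) ∂m + ε ^ 2 * ∫ y, ℓ (S ε y) * k y ∂m +
      K / 2 * (1 + ε * Mk) * ∫ y, dist (S ε y) y ^ 2 ∂m - ε ^ 3 * c * ∫ y, |k y| ∂m := by
    rw [integral_sub, integral_add, integral_add, integral_add, integral_const_mul,
      integral_const_mul, integral_const_mul, integral_const_mul, integral_const_mul]
    · exact (ikS.sub ik).const_mul ε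
    · exact iℓS.const_mul ε
    · exact ((ikS.sub ik).const_mul ε).add (iℓS.const_mul ε)
    · exact imul.const_mul (ε ^ 2)
    · exact (((ikS.sub ik).const_mul ε).add (iℓS.const_mul ε)).add (imul.const_mul (ε ^ 2))
    · exact isq.const_mul _
    · exact ((((ikS.sub ik).const_mul ε).add (iℓS.const_mul ε)).add
        (imul.const_mul (ε ^ 2))).add (isq.const_mul _)
    · exact ik.abs.const_mul _
  rw [e] at h1
  have h2 : ε ^ 2 * (vB m S k ε + vJ m S ℓ ε + ∫ y, ℓ (S ε y) * k y ∂m) ≤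
      ε ^ 2 * (-K / 2 * (1 + ε * Mk) * vD m S ε + ε * (c * ∫ y, |k y| ∂m)) := by
    unfold vB vJ vD
    have e1 : ε ^ 2 * (1 / ε * ∫ y, (k (S ε y) - k y) ∂m + 1 / ε * ∫ y, ℓ (S ε y) ∂m +
        ∫ y, ℓ (S ε y) * k y ∂m) = ε * ∫ y, (k (S ε y) - k y) ∂m + ε * ∫ y, ℓ (S ε y) ∂m +
        ε ^ 2 * ∫ y, ℓ (S ε y) * k y ∂m := by
      field_simp
    have e2 : ε ^ 2 * (-K / 2 * (1 + ε * Mk) * (1 / ε ^ 2 * ∫ y, dist (S ε y) y ^ 2 ∂m) +
        ε * (c * ∫ y, |k y| ∂m)) = -(K / 2 * (1 + ε * Mk) * ∫ y, dist (S ε y) y ^ 2 ∂m) +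
        ε ^ 3 * c * ∫ y, |k y| ∂m := by
      field_simp
    rw [e1, e2]
    linarith
  exact le_of_mul_le_mul_left h2 (by positivity)

theorem ev (P : ℝ → Prop) (h : ∀ ε, 0 < ε → ε ≤ 1 → P ε) : ∀ᶠ ε in 𝓝[>] (0 : ℝ), P ε := by
  filter_upwards [Ioc_mem_nhdsGT (zero_lt_one : (0 : ℝ) < 1)] with ε hε
  exact h ε hε.1 hε.2

theorem tendsto_pt (h : VarHyp K m o a₀ L M φ ℓ S) {k : X → ℝ} {Mk Lk : ℝ} (hk : Test o k Mk Lk)
    (y : X) : Tendsto (fun ε => k (S ε y)) (𝓝[>] 0) (𝓝 (k y)) := by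
  rw [tendsto_iff_dist_tendsto_zero]
  have h1 : Tendsto (fun ε : ℝ => Lk * (2 * ε * L)) (𝓝[>] 0) (𝓝 0) := by
    have h2 : Continuous fun ε : ℝ => Lk * (2 * ε * L) := by fun_prop
    have h3 := (h2.tendsto 0).mono_left (nhdsWithin_le_nhds (s := Ioi 0))
    simpa using h3
  refine squeeze_zero' (Eventually.of_forall fun _ => dist_nonneg) ?_ h1
  refine ev _ fun ε hε hε1 => ?_
  rw [Real.dist_eq]
  exact (hk.lip _ _).trans (mul_le_mul_of_nonneg_left (h.disp hε hε1 y) hk.hL)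

theorem bound_comp (h : VarHyp K m o a₀ L M φ ℓ S) {k : X → ℝ} {Mk Lk : ℝ} (hk : Test o k Mk Lk) :
    ∃ C : ℝ, 0 ≤ C ∧ ∀ ε, 0 < ε → ε ≤ 1 → ∀ y, |k (S ε y)| ≤ C * Real.exp (-a₀ * dist o y) := by
  obtain ⟨C, hC, hb⟩ := hk.dec a₀
  exact ⟨C * Real.exp (a₀ * (2 * L)), by positivity, fun ε hε hε1 y =>
    comp_decay h.ha hC hb (h.disp' hε hε1) y⟩

theorem tendsto_comp (h : VarHyp K m o a₀ L M φ ℓ S) {k : X → ℝ} {Mk Lk : ℝ}
    (hk : Test o k Mk Lk) :
    Tendsto (fun ε => ∫ y, k (S ε y) ∂m) (𝓝[>] 0) (𝓝 (∫ y, k y ∂m)) := by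
  obtain ⟨C, hC, hb⟩ := h.bound_comp hk
  refine tendsto_integral_filter_of_dominated_convergence
    (fun y => C * Real.exp (-a₀ * dist o y)) ?_ ?_ (h.hm.const_mul C) ?_
  · exact ev _ fun ε hε hε1 => (hk.meas.comp (h.sm hε hε1)).aestronglyMeasurable
  · exact ev _ fun ε hε hε1 => Eventually.of_forall fun y => hb ε hε hε1 y
  · exact Eventually.of_forall fun y => h.tendsto_pt hk y

theorem tendsto_mul (h : VarHyp K m o a₀ L M φ ℓ S) {k : X → ℝ} {Mk Lk : ℝ}
    (hk : Test o k Mk Lk) :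
    Tendsto (fun ε => ∫ y, ℓ (S ε y) * k y ∂m) (𝓝[>] 0) (𝓝 (∫ y, ℓ y * k y ∂m)) := by
  obtain ⟨C, hC, hb⟩ := h.bound_comp h.tℓ
  refine tendsto_integral_filter_of_dominated_convergence
    (fun y => C * Real.exp (-a₀ * dist o y) * Mk) ?_ ?_ ((h.hm.const_mul C).mul_const Mk) ?_
  · exact ev _ fun ε hε hε1 =>
      ((h.tℓ.meas.comp (h.sm hε hε1)).mul hk.meas).aestronglyMeasurable
  · refine ev _ fun ε hε hε1 => Eventually.of_forall fun y => ?_
    rw [Real.norm_eq_abs, abs_mul]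
    have h1 := hb ε hε hε1 y
    have h2 := hk.bdd y
    gcongr
  · exact Eventually.of_forall fun y => (h.tendsto_pt h.tℓ y).mul_const _

theorem vD_le (h : VarHyp K m o a₀ L M φ ℓ S) {ε : ℝ} (hε : 0 < ε) (hε1 : ε ≤ 1) :
    vD m S ε ≤ 2 * vB m S φ ε := by
  unfold vD vB
  have h1 : ∫ y, dist (S ε y) y ^ 2 ∂m ≤ ∫ y, 2 * ε * (φ (S ε y) - φ y) ∂m :=
    integral_mono (h.int_sq hε hε1)
      (((h.int_comp h.tφ hε hε1).sub (h.tφ.int h.hm)).const_mul _)
      (fun y => (h.arg ε hε hε1).sq_le hε y)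
  rw [integral_const_mul] at h1
  calc 1 / ε ^ 2 * ∫ y, dist (S ε y) y ^ 2 ∂m
      ≤ 1 / ε ^ 2 * (2 * ε * ∫ y, (φ (S ε y) - φ y) ∂m) := by gcongr
    _ = _ := by field_simp

theorem vD_nonneg (m : Measure X) (S : ℝ → X → X) (ε : ℝ) : 0 ≤ vD m S ε :=
  mul_nonneg (by positivity) (integral_nonneg fun _ => by positivity)

/-- half of the invariance of `m` -/
theorem int_nonpos (h : VarHyp K m o a₀ L M φ ℓ S) : ∫ y, ℓ y ∂m ≤ 0 := by
  have t1 := h.tendsto_comp h.tℓ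
  have t2 : Tendsto (fun ε => -K * ∫ y, (φ (S ε y) - φ y) ∂m) (𝓝[>] 0) (𝓝 0) := by
    have h1 : Tendsto (fun ε => ∫ y, φ (S ε y) ∂m - ∫ y, φ y ∂m) (𝓝[>] 0) (𝓝 0) := by
      have := (h.tendsto_comp h.tφ).sub_const (∫ y, φ y ∂m)
      simpa using this
    have h2 := h1.const_mul (-K)
    rw [mul_zero] at h2
    refine h2.congr' (ev _ fun ε hε hε1 => ?_)
    simp only
    rw [integral_sub (h.int_comp h.tφ hε hε1) (h.tφ.int h.hm)]
  refine le_of_tendsto_of_tendsto t1 t2 (ev _ fun ε hε hε1 => ?_)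
  have hk0 : Test o (fun _ : X => (0 : ℝ)) 0 0 :=
    ⟨le_rfl, le_rfl, fun _ => by simp, fun _ _ => by simp, fun a => ⟨0, le_rfl, fun _ => by simp⟩⟩
  have h1 := h.ineq hk0 hε hε1 (by norm_num)
  have h2 := h.vD_le hε hε1
  simp only [vB, vJ, sub_self, integral_zero, mul_zero, zero_add, add_zero, mul_one, abs_zero] at h1
  unfold vB at h2
  have hK := h.hK
  have h3 : 1 / ε * ∫ y, ℓ (S ε y) ∂m ≤ 1 / ε * (-K * ∫ y, (φ (S ε y) - φ y) ∂m) := by
    calc 1 / ε * ∫ y, ℓ (S ε y) ∂m ≤ -K / 2 * vD m S ε := h1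
      _ ≤ -K / 2 * (2 * (1 / ε * ∫ y, (φ (S ε y) - φ y) ∂m)) := by
        gcongr
        linarith
      _ = _ := by ring
  exact le_of_mul_le_mul_left h3 (by positivity)

theorem vJ_eq (h : VarHyp K m o a₀ L M φ ℓ S) (h0 : ∫ y, ℓ y ∂m = 0) {ε : ℝ} (hε : 0 < ε)
    (hε1 : ε ≤ 1) : vJ m S ℓ ε = vB m S ℓ ε := by
  unfold vJ vB
  rw [integral_sub (h.int_comp h.tℓ hε hε1) (h.tℓ.int h.hm), h0, sub_zero]

theorem vB_const_mul (m : Measure X) (S : ℝ → X → X) (k : X → ℝ) (c ε : ℝ) :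
    vB m S (fun x => c * k x) ε = c * vB m S k ε := by
  unfold vB
  simp_rw [← mul_sub]
  rw [integral_const_mul]
  ring

theorem abs_int_mul_le (h : VarHyp K m o a₀ L M φ ℓ S) {k : X → ℝ} {Mk Lk : ℝ}
    (hk : Test o k Mk Lk) {ε : ℝ} (hε : 0 < ε) (hε1 : ε ≤ 1) :
    |∫ y, ℓ (S ε y) * k y ∂m| ≤ M * ∫ y, |k y| ∂m := by
  rw [← integral_const_mul]
  refine (abs_integral_le_integral_abs).trans (integral_mono (h.int_mul hk hε hε1).abs
    ((hk.int h.hm).abs.const_mul M) fun y => ?_)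
  simp only
  rw [abs_mul]
  exact mul_le_mul_of_nonneg_right (h.bdd' _) (abs_nonneg _)

/-- The a priori bounds. -/
theorem apriori (h : VarHyp K m o a₀ L M φ ℓ S) (h0 : ∫ y, ℓ y ∂m = 0) :
    ∃ C : ℝ, 0 ≤ C ∧ ∀ᶠ ε in 𝓝[>] (0 : ℝ), vD m S ε ≤ C ∧ -C ≤ vJ m S ℓ ε := by
  set κ := -K with hκ
  have hκ0 : 0 ≤ κ := by have := h.hK; linarith
  set lam := 3 * κ + 2 with hlam
  have hlam0 : 0 < lam := by positivity
  have T1 := h.tφ.const_mul lam
  have T2 := h.tℓ.const_mul (-3)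
  rw [abs_of_pos hlam0] at T1
  rw [abs_neg, abs_of_pos (by norm_num : (0 : ℝ) < 3)] at T2
  have hM := h.hM
  set C1 := lam * (M * ∫ y, |φ y| ∂m) +
    (5 * (lam * M) ^ 2 + 2 * L * (lam * L)) * ∫ y, |lam * φ y| ∂m with hC1
  set C2 := 3 * (M * ∫ y, |ℓ y| ∂m) +
    (5 * (3 * M) ^ 2 + 2 * L * (3 * L)) * ∫ y, |-3 * ℓ y| ∂m with hC2
  have hL := h.hL
  have hC10 : 0 ≤ C1 := by
    have i1 : 0 ≤ ∫ y, |φ y| ∂m := integral_nonneg fun _ => abs_nonneg _
    have i2 : 0 ≤ ∫ y, |lam * φ y| ∂m := integral_nonneg fun _ => abs_nonneg _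
    positivity
  have hC20 : 0 ≤ C2 := by
    have i1 : 0 ≤ ∫ y, |ℓ y| ∂m := integral_nonneg fun _ => abs_nonneg _
    have i2 : 0 ≤ ∫ y, |-3 * ℓ y| ∂m := integral_nonneg fun _ => abs_nonneg _
    positivity
  refine ⟨(1 + κ) * (C1 + C2), by positivity, ?_⟩
  have hsmall : ∀ᶠ ε in 𝓝[>] (0 : ℝ), ε ≤ 1 / (2 * (lam + 3) * (M + 1)) := by
    have : (0 : ℝ) < 1 / (2 * (lam + 3) * (M + 1)) := by positivity
    filter_upwards [Ioc_mem_nhdsGT this] with ε hε using hε.2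
  filter_upwards [hsmall, Ioc_mem_nhdsGT (zero_lt_one : (0 : ℝ) < 1)] with ε hs hε'
  obtain ⟨hε, hε1⟩ := hε'
  have hs' : ε * (2 * (lam + 3) * (M + 1)) ≤ 1 := by
    rw [le_div_iff₀ (by positivity)] at hs
    exact hs
  have g1 : ε * (lam * M) ≤ 1 / 2 := by
    have : 0 ≤ ε * lam := by positivity
    have : 0 ≤ ε * M := by positivity
    nlinarith
  have g2 : ε * (3 * M) ≤ 1 / 2 := by
    have : 0 ≤ ε * lam := by positivity
    have : 0 ≤ ε * (lam * M) := by positivity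
    nlinarith
  have n1 := h.ineq T1 hε hε1 g1
  have n2 := h.ineq T2 hε hε1 g2
  rw [vB_const_mul] at n1 n2
  rw [← h.vJ_eq h0 hε hε1] at n2
  have hvD := vD_nonneg m S ε
  have hvDle := h.vD_le hε hε1
  have m1 := h.abs_int_mul_le h.tφ hε hε1
  have m2 := h.abs_int_mul_le h.tℓ hε hε1
  have q1 : ∫ y, ℓ (S ε y) * (lam * φ y) ∂m = lam * ∫ y, ℓ (S ε y) * φ y ∂m := by
    rw [← integral_const_mul]
    congr 1
    funext y
    ring
  have q2 : ∫ y, ℓ (S ε y) * (-3 * ℓ y) ∂m = -3 * ∫ y, ℓ (S ε y) * ℓ y ∂m := by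
    rw [← integral_const_mul]
    congr 1
    funext y
    ring
  rw [q1] at n1
  rw [q2] at n2
  have p1 : -(M * ∫ y, |φ y| ∂m) ≤ ∫ y, ℓ (S ε y) * φ y ∂m := (abs_le.1 m1).1
  have p2 : ∫ y, ℓ (S ε y) * ℓ y ∂m ≤ M * ∫ y, |ℓ y| ∂m := (abs_le.1 m2).2
  have r1 : -K / 2 * (1 + ε * (lam * M)) * vD m S ε ≤ κ * vD m S ε := by
    have : -K / 2 * (1 + ε * (lam * M)) ≤ κ := by
      rw [← hκ]
      nlinarith
    exact mul_le_mul_of_nonneg_right this hvD
  have r2 : -K / 2 * (1 + ε * (3 * M)) * vD m S ε ≤ κ * vD m S ε := by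
    have : -K / 2 * (1 + ε * (3 * M)) ≤ κ := by
      rw [← hκ]
      nlinarith
    exact mul_le_mul_of_nonneg_right this hvD
  have s1 : ε * ((5 * (lam * M) ^ 2 + 2 * L * (lam * L)) * ∫ y, |lam * φ y| ∂m) ≤
      (5 * (lam * M) ^ 2 + 2 * L * (lam * L)) * ∫ y, |lam * φ y| ∂m := by
    have i2 : 0 ≤ ∫ y, |lam * φ y| ∂m := integral_nonneg fun _ => abs_nonneg _
    exact mul_le_of_le_one_left (by positivity) hε1
  have s2 : ε * ((5 * (3 * M) ^ 2 + 2 * L * (3 * L)) * ∫ y, |-3 * ℓ y| ∂m) ≤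
      (5 * (3 * M) ^ 2 + 2 * L * (3 * L)) * ∫ y, |-3 * ℓ y| ∂m := by
    have i2 : 0 ≤ ∫ y, |-3 * ℓ y| ∂m := integral_nonneg fun _ => abs_nonneg _
    exact mul_le_of_le_one_left (by positivity) hε1
  -- the two linear inequalities
  have u1 : (lam / 2 - κ) * vD m S ε + vJ m S ℓ ε ≤ C1 := by
    have v1 : lam * (vD m S ε / 2) ≤ lam * vB m S φ ε := by
      gcongr
      linarith
    have v2 : lam * -(M * ∫ y, |φ y| ∂m) ≤ lam * ∫ y, ℓ (S ε y) * φ y ∂m := by gcongr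
    rw [hC1]
    linarith
  have u2 : -2 * vJ m S ℓ ε ≤ κ * vD m S ε + C2 := by
    rw [hC2]
    linarith
  have u3 : lam / 2 - κ = κ / 2 + 1 := by rw [hlam]; ring
  rw [u3] at u1
  have u1' : κ * vD m S ε / 2 + vD m S ε + vJ m S ℓ ε ≤ C1 := by
    have e : (κ / 2 + 1) * vD m S ε = κ * vD m S ε / 2 + vD m S ε := by ring
    rw [e] at u1
    exact u1
  clear_value C1 C2
  have u4 : vD m S ε ≤ C1 + C2 / 2 := by linarith
  constructor
  · have : 0 ≤ κ * (C1 + C2) := by positivity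
    linarith
  · have v3 : κ * vD m S ε ≤ κ * (C1 + C2 / 2) := by gcongr
    have : 0 ≤ κ * C1 := by positivity
    have : 0 ≤ κ * C2 := by positivity
    linarith

/-- **The first variation.** -/
theorem tendsto_vB (h : VarHyp K m o a₀ L M φ ℓ S) (h0 : ∫ y, ℓ y ∂m = 0) {k : X → ℝ}
    {Mk Lk : ℝ} (hk : Test o k Mk Lk) :
    Tendsto (vB m S k) (𝓝[>] 0) (𝓝 (-∫ y, ℓ y * k y ∂m)) := by
  obtain ⟨C, hC, hev⟩ := h.apriori h0
  set κ := -K with hκ
  have hκ0 : 0 ≤ κ := by have := h.hK; linarith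
  suffices hs : Tendsto (fun ε => vB m S k ε + ∫ y, ℓ (S ε y) * k y ∂m) (𝓝[>] 0) (𝓝 0) by
    have h1 := hs.sub (h.tendsto_mul hk)
    simpa using h1
  rw [Metric.tendsto_nhds]
  intro δ hδ
  set Λ := 2 * ((1 + κ) * (C + 1)) / δ with hΛ
  have hΛ0 : 0 < Λ := by positivity
  have hMk := hk.hM
  have hLk := hk.hL
  have hL := h.hL
  -- the error constant
  set B := (5 * (Λ * Mk) ^ 2 + 2 * L * (Λ * Lk)) * ∫ y, |Λ * k y| ∂m with hB
  have hB0 : 0 ≤ B := by
    have i2 : 0 ≤ ∫ y, |Λ * k y| ∂m := integral_nonneg fun _ => abs_nonneg _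
    positivity
  have hB' : (5 * (Λ * Mk) ^ 2 + 2 * L * (Λ * Lk)) * ∫ y, |-Λ * k y| ∂m = B := by
    rw [hB]
    congr 2
    funext y
    rw [neg_mul, abs_neg]
  have hsmall : ∀ᶠ ε in 𝓝[>] (0 : ℝ), ε ≤ 1 / (2 * (Λ * Mk) + B + 1) := by
    have : (0 : ℝ) < 1 / (2 * (Λ * Mk) + B + 1) := by positivity
    filter_upwards [Ioc_mem_nhdsGT this] with ε hε using hε.2
  filter_upwards [hev, hsmall, Ioc_mem_nhdsGT (zero_lt_one : (0 : ℝ) < 1)] with ε hb hs hε'
  obtain ⟨hε, hε1⟩ := hε'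
  have hs' : ε * (2 * (Λ * Mk) + B + 1) ≤ 1 := by
    rw [le_div_iff₀ (by positivity)] at hs
    exact hs
  have g1 : ε * (Λ * Mk) ≤ 1 / 2 := by
    have : 0 ≤ ε * B := by positivity
    nlinarith
  have g2 : ε * B ≤ 1 := by
    have : 0 ≤ ε * (Λ * Mk) := by positivity
    nlinarith
  have hvD := vD_nonneg m S ε
  have key : ∀ c : ℝ, |c| = Λ → c * (vB m S k ε + ∫ y, ℓ (S ε y) * k y ∂m) ≤
      (1 + κ) * (C + 1) := by
    intro c hc
    have T := hk.const_mul c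
    rw [hc] at T
    have n := h.ineq T hε hε1 g1
    rw [vB_const_mul] at n
    have q : ∫ y, ℓ (S ε y) * (c * k y) ∂m = c * ∫ y, ℓ (S ε y) * k y ∂m := by
      rw [← integral_const_mul]
      congr 1
      funext y
      ring
    rw [q] at n
    have e : (5 * (Λ * Mk) ^ 2 + 2 * L * (Λ * Lk)) * ∫ y, |c * k y| ∂m = B := by
      rw [hB]
      congr 2
      funext y
      rw [abs_mul, abs_mul, hc, abs_of_pos hΛ0]
    rw [e] at n
    have r1 : -K / 2 * (1 + ε * (Λ * Mk)) * vD m S ε ≤ κ * C := by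
      have h1 : -K / 2 * (1 + ε * (Λ * Mk)) ≤ κ := by
        rw [← hκ]
        nlinarith
      exact (mul_le_mul_of_nonneg_right h1 hvD).trans (by gcongr; exact hb.1)
    nlinarith [hb.2]
  have k1 := key Λ (abs_of_pos hΛ0)
  have k2 := key (-Λ) (by rw [abs_neg, abs_of_pos hΛ0])
  rw [Real.dist_eq, sub_zero]
  have k3 : Λ * |vB m S k ε + ∫ y, ℓ (S ε y) * k y ∂m| ≤ (1 + κ) * (C + 1) := by
    rcases abs_cases (vB m S k ε + ∫ y, ℓ (S ε y) * k y ∂m) with h1 | h1 <;> rw [h1.1] <;> linarith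
  have k4 : |vB m S k ε + ∫ y, ℓ (S ε y) * k y ∂m| ≤ (1 + κ) * (C + 1) / Λ := by
    rw [le_div_iff₀ hΛ0, mul_comm]
    exact k3
  have k5 : (1 + κ) * (C + 1) / Λ = δ / 2 := by
    rw [hΛ]
    field_simp
  rw [k5] at k4
  linarith

end VarHyp

end var

end Pool.Agent.BDRY
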