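import Pool.Agent.Work.MP_209cb6_gt.B2.GaussInt

/-!
# Transfer of integrals from a metric measure space to Euclidean space through an almost
isometric chart (module M11, step 2)
-/

set_option autoImplicit false

open MeasureTheory MeasureTheory.Measure Metric Set Filter Topology
open scoped ENNReal NNReal

namespace Pool.Agent.BDRY

universe u

section approx

variable {X : Type u} [MetricSpace X] [MeasurableSpace X] [OpensMeasurableSpace X]
  [SecondCountableTopology X] {n : ℕ}

/-- An almost isometric map can be replaced by a measurable one. -/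
theorem exists_measurable_approx (ψ : X → E n) {y : X} {R e : ℝ} (he : 0 < e)
    (iso : ∀ a ∈ closedBall y R, ∀ b ∈ closedBall y R, |dist a b - dist (ψ a) (ψ b)| ≤ e) :
    ∃ ψ' : X → E n, Measurable ψ' ∧ ∀ c ∈ closedBall y (R - e), dist (ψ' c) (ψ c) ≤ 2 * e := by
  classical
  have : Nonempty X := ⟨y⟩
  have hp : ∀ c : X, ∃ k : ℕ, dist c (TopologicalSpace.denseSeq X k) < e := by
    intro c
    have hd := TopologicalSpace.denseRange_denseSeq X
    obtain ⟨k, hk⟩ := hd.exists_dist_lt c he
    exact ⟨k, hk⟩
  have hm : Measurable fun c => Nat.find (hp c) := by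
    refine measurable_find hp fun k => ?_
    exact (isOpen_lt (by fun_prop) continuous_const).measurableSet
  refine ⟨fun c => ψ (TopologicalSpace.denseSeq X (Nat.find (hp c))), ?_, ?_⟩
  · exact (Measurable.of_discrete (f := fun k : ℕ => ψ (TopologicalSpace.denseSeq X k))).comp hm
  · intro c hc
    have h1 := Nat.find_spec (hp c)
    set q := TopologicalSpace.denseSeq X (Nat.find (hp c)) with hq
    rw [mem_closedBall] at hc
    have hc' : c ∈ closedBall y R := by rw [mem_closedBall]; linarith
    have hq' : q ∈ closedBall y R := by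
      rw [mem_closedBall]
      have := dist_triangle q c y
      rw [dist_comm q c] at this
      linarith
    have h2 := abs_le.1 (iso q hq' c hc')
    rw [dist_comm] at h1
    linarith [h2.1]

end approx

section transfer

variable {X : Type u} [MetricSpace X] [MeasurableSpace X] [BorelSpace X]
  [SecondCountableTopology X] {n : ℕ}

theorem volume_ball_real (x : E n) {t : ℝ} (ht : 0 ≤ t) :
    volume.real (ball x t) = omN n * t ^ (n + 1) := by
  unfold omN
  rw [measureReal_def, addHaar_ball _ _ ht, ENNReal.toReal_mul, ENNReal.toReal_ofReal (by positivity)]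
  simp [mul_comm]

/-- Averages over small balls. -/
theorem avg_sub_le {F : E n → ℝ} {L : ℝ≥0} (hF : LipschitzWith L F) (hFi : Integrable F)
    (z : E n) {t : ℝ} (ht : 0 ≤ t) :
    |omN n * t ^ (n + 1) * F z - ∫ x in ball z t, F x| ≤ L * t * (omN n * t ^ (n + 1)) := by
  have h1 : omN n * t ^ (n + 1) * F z = ∫ x in ball z t, F z := by
    rw [setIntegral_const, volume_ball_real z ht, smul_eq_mul]
  have hc : IntegrableOn (fun _ => F z) (ball z t) volume :=
    integrableOn_const measure_ball_lt_top.ne
  rw [h1, ← integral_sub hc hFi.integrableOn, ← Real.norm_eq_abs]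
  refine (norm_setIntegral_le_of_norm_le_const (C := L * t) measure_ball_lt_top
    fun x hx => ?_).trans_eq ?_
  · rw [Real.norm_eq_abs, ← Real.dist_eq]
    refine (hF.dist_le_mul z x).trans ?_
    rw [mem_ball, dist_comm] at hx
    gcongr
  · rw [volume_ball_real z ht]

theorem eta_bounds {N : ℕ} {e1 b : ℝ} (he1 : 0 ≤ e1) (hb : 0 ≤ b) (hb1 : b ≤ 1) :
    1 - ((1 + e1) * (1 + b) ^ N - 1) ≤ (1 - e1) * (1 - b) ^ N ∨ 1 < e1 := by
  by_cases h : e1 ≤ 1
  · left
    have h1 := one_add_mul_le_pow (a := -b) (by linarith) N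
    have h2 := one_add_mul_le_pow (a := b) (by linarith) N
    have h3 : (1 - e1) * (1 + N * (-b)) ≤ (1 - e1) * (1 + (-b)) ^ N :=
      mul_le_mul_of_nonneg_left h1 (by linarith)
    have h4 : (1 + e1) * (1 + N * b) ≤ (1 + e1) * (1 + b) ^ N :=
      mul_le_mul_of_nonneg_left h2 (by linarith)
    have h5 : (1 : ℝ) - b = 1 + -b := by ring
    rw [h5]
    nlinarith [mul_nonneg he1 (mul_nonneg (Nat.cast_nonneg (α := ℝ) N) hb)]
  · right; linarith

/-- **Transfer.** `ψ` is an almost isometric and almost onto chart of `closedBall y R`, all balls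
of radius about `t` have about the Euclidean volume. -/
theorem transfer {m : Measure X} {ψ : X → E n} {y : X} {R e e1 t : ℝ} (hR : 0 < R)
    (he : 0 < e) (het : 16 * e ≤ t) (htR : 16 * t ≤ R) (he1 : 0 ≤ e1) (he1' : e1 ≤ 1)
    (iso : ∀ a ∈ closedBall y R, ∀ b ∈ closedBall y R, |dist a b - dist (ψ a) (ψ b)| ≤ e)
    (onto : ∀ u : E n, dist u (ψ y) ≤ R → ∃ a ∈ closedBall y R, dist (ψ a) u ≤ e)
    (vol : ∀ a ∈ closedBall y (5 / 8 * R), ∀ s, t / 2 ≤ s → s ≤ 2 * t →
      |m.real (ball a s) - omN n * s ^ (n + 1)| ≤ e1 * (omN n * s ^ (n + 1)))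
    (hfin : m (closedBall y R) < ∞)
    {F : E n → ℝ} {L : ℝ≥0} (hF : LipschitzWith L F) (hFs : ∀ x, R / 2 ≤ dist x (ψ y) → F x = 0)
    {G : X → ℝ} (hG : Measurable G) {δ : ℝ}
    (hGF : ∀ c ∈ closedBall y (3 / 4 * R), |G c - F (ψ c)| ≤ δ) :
    |(∫ c in closedBall y (3 / 4 * R), G c ∂m) - ∫ x, F x| ≤
      (δ + L * (t + 2 * e)) * m.real (closedBall y (3 / 4 * R)) +
        ((1 + e1) * (1 + 5 * e / t) ^ (n + 1) - 1) * ∫ x, |F x| := by
  have ht : 0 < t := by linarith
  have hω := omN_pos n
  set A := closedBall y (3 / 4 * R) with hA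
  have hAR : A ⊆ closedBall y R := closedBall_subset_closedBall (by linarith)
  have hAfin : m A < ∞ := (measure_mono hAR).trans_lt hfin
  have : IsFiniteMeasure (m.restrict A) := ⟨by rwa [restrict_apply_univ]⟩
  obtain ⟨ψ', hψm, hψ⟩ := exists_measurable_approx ψ he iso
  have hψA : ∀ c ∈ A, dist (ψ' c) (ψ c) ≤ 2 * e := fun c hc => by
    refine hψ c ?_
    rw [hA, mem_closedBall] at hc
    rw [mem_closedBall]; linarith
  -- `F` is continuous with compact support
  have hFc : Continuous F := hF.continuous
  have hFk : HasCompactSupport F := by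
    refine HasCompactSupport.intro (isCompact_closedBall (ψ y) (R / 2)) fun x hx => hFs x ?_
    rw [mem_closedBall, not_le] at hx
    exact hx.le
  have hFi : Integrable F := hFc.integrable_of_hasCompactSupport hFk
  obtain ⟨B, hB⟩ : ∃ B, ∀ x, ‖F x‖ ≤ B := hFk.exists_bound_of_continuous hFc
  set V := omN n * t ^ (n + 1) with hV
  have hVpos : 0 < V := by positivity
  -- the multiplicity function
  set Q : E n → ℝ := fun x => (m.restrict A).real {c | dist x (ψ' c) < t} with hQ
  set η := (1 + e1) * (1 + 5 * e / t) ^ (n + 1) - 1 with hη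
  have hQV : ∀ x, F x ≠ 0 → |Q x - V| ≤ η * V := by
    intro x hx
    have hx1 : dist x (ψ y) < R / 2 := by
      by_contra hc
      exact hx (hFs x (not_lt.1 hc))
    obtain ⟨a, ha, hax⟩ := onto x (by linarith)
    have hay : dist a y ≤ R / 2 + 2 * e := by
      have h1 := abs_le.1 (iso a ha y (mem_closedBall_self hR.le))
      have h2 := dist_triangle (ψ a) x (ψ y)
      linarith [h1.2]
    have hlow : ball a (t - 4 * e) ⊆ A ∩ {c | dist x (ψ' c) < t} := by
      intro c hc
      rw [mem_ball] at hc
      have hcy := dist_triangle c a y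
      have hcA : c ∈ A := by rw [hA, mem_closedBall]; linarith
      refine ⟨hcA, ?_⟩
      have h1 := abs_le.1 (iso c (hAR hcA) a ha)
      have h2 := hψA c hcA
      have h3 := dist_triangle4 (ψ' c) (ψ c) (ψ a) x
      rw [mem_ofPred_eq, dist_comm]
      linarith [h1.1]
    have hup : A ∩ {c | dist x (ψ' c) < t} ⊆ ball a (t + 5 * e) := by
      rintro c ⟨hcA, hc⟩
      rw [mem_ofPred_eq, dist_comm] at hc
      rw [mem_ball]
      have h1 := abs_le.1 (iso c (hAR hcA) a ha)
      have h2 := hψA c hcA
      have h3 := dist_triangle4 (ψ c) (ψ' c) x (ψ a)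
      have h4 := dist_comm (ψ c) (ψ' c)
      have h5 := dist_comm x (ψ a)
      linarith [h1.2]
    have hms : MeasurableSet {c | dist x (ψ' c) < t} := by
      exact measurableSet_lt (by fun_prop) measurable_const
    have hQx : Q x = m.real (A ∩ {c | dist x (ψ' c) < t}) := by
      rw [hQ]
      simp only [measureReal_def]
      rw [restrict_apply hms, inter_comm]
    have haB : a ∈ closedBall y (5 / 8 * R) := by rw [mem_closedBall]; linarith
    have hbfin : m (ball a (t + 5 * e)) < ∞ := by
      refine (measure_mono ?_).trans_lt hfin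
      intro c hc
      rw [mem_ball] at hc
      have := dist_triangle c a y
      rw [mem_closedBall]; linarith
    have h1 := abs_le.1 (vol a haB (t - 4 * e) (by linarith) (by linarith))
    have h2 := abs_le.1 (vol a haB (t + 5 * e) (by linarith) (by linarith))
    have h3 : m.real (ball a (t - 4 * e)) ≤ Q x := by
      rw [hQx]
      exact measureReal_mono hlow ((measure_mono hup).trans_lt hbfin).ne
    have h4 : Q x ≤ m.real (ball a (t + 5 * e)) := by
      rw [hQx]
      exact measureReal_mono hup hbfin.ne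
    have hb0 : 0 ≤ 5 * e / t := by positivity
    have hb1 : 5 * e / t ≤ 1 := by rw [div_le_one ht]; linarith
    have h5 : (1 + e1) * (omN n * (t + 5 * e) ^ (n + 1)) = (1 + η) * V := by
      have : t + 5 * e = t * (1 + 5 * e / t) := by field_simp
      rw [this, mul_pow, hη, hV]; ring
    have h6 : (1 - η) * V ≤ (1 - e1) * (omN n * (t - 4 * e) ^ (n + 1)) := by
      rcases eta_bounds (N := n + 1) he1 hb0 hb1 with h | h
      · have h7 : t * (1 - 5 * e / t) ≤ t - 4 * e := by
          have : t * (1 - 5 * e / t) = t - 5 * e := by field_simp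
          linarith
        have h8 : 0 ≤ t * (1 - 5 * e / t) := mul_nonneg ht.le (by linarith)
        have h9 := pow_le_pow_left₀ h8 h7 (n + 1)
        have h10 : (1 - η) * V ≤ (1 - e1) * (1 - 5 * e / t) ^ (n + 1) * V :=
          mul_le_mul_of_nonneg_right h hVpos.le
        have h11 : (1 - e1) * (1 - 5 * e / t) ^ (n + 1) * V =
            (1 - e1) * (omN n * (t * (1 - 5 * e / t)) ^ (n + 1)) := by
          rw [mul_pow, hV]; ring
        rw [h11] at h10
        refine h10.trans (mul_le_mul_of_nonneg_left ?_ (by linarith))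
        exact mul_le_mul_of_nonneg_left h9 hω.le
      · linarith
    rw [abs_le]
    constructor
    · nlinarith [h1.1]
    · nlinarith [h2.2]
  -- Tonelli
  have hint2 : Integrable (fun p : X × E n => ({p : X × E n | dist p.2 (ψ' p.1) < t}).indicator
      (fun p => F p.2) p) ((m.restrict A).prod volume) := by
    have hS : MeasurableSet {p : X × E n | dist p.2 (ψ' p.1) < t} :=
      measurableSet_lt (by fun_prop) measurable_const
    refine Integrable.indicator ?_ hS
    have := (integrable_const (1 : ℝ) (μ := m.restrict A)).mul_prod hFi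
    simpa using this
  have hswap := integral_integral_swap (μ := m.restrict A) (ν := (volume : Measure (E n)))
    (f := fun c x => ({p : X × E n | dist p.2 (ψ' p.1) < t}).indicator (fun p => F p.2) (c, x)) hint2
  have hleft : ∀ c, ∫ x, ({p : X × E n | dist p.2 (ψ' p.1) < t}).indicator (fun p => F p.2) (c, x) =
      ∫ x in ball (ψ' c) t, F x := by
    intro c
    rw [← integral_indicator measurableSet_ball]
    rfl
  have hright : ∀ x, ∫ c in A, ({p : X × E n | dist p.2 (ψ' p.1) < t}).indicator
      (fun p => F p.2) (c, x) ∂m = F x * Q x := by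
    intro x
    have hms : MeasurableSet {c | dist x (ψ' c) < t} :=
      measurableSet_lt (by fun_prop) measurable_const
    have : (fun c => ({p : X × E n | dist p.2 (ψ' p.1) < t}).indicator (fun p => F p.2) (c, x)) =
        ({c | dist x (ψ' c) < t}).indicator (fun _ => F x) := rfl
    rw [this, integral_indicator hms, setIntegral_const, smul_eq_mul, mul_comm, hQ]
  simp only [hleft, hright] at hswap
  -- integrability
  have hFψi : Integrable (fun c => F (ψ' c)) (m.restrict A) :=
    Integrable.of_bound (hFc.measurable.comp hψm).aestronglyMeasurable B (ae_of_all _ fun c => hB _)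
  have hli : Integrable (fun c => ∫ x in ball (ψ' c) t, F x) (m.restrict A) := by
    have := hint2.integral_prod_left
    simpa only [hleft] using this
  have hri : Integrable (fun x => F x * Q x) := by
    have := hint2.integral_prod_right
    simpa only [hright] using this
  -- step 1
  have hs1 : |V * (∫ c in A, F (ψ' c) ∂m) - ∫ c in A, (∫ x in ball (ψ' c) t, F x) ∂m| ≤
      L * t * V * m.real A := by
    rw [← integral_const_mul, ← integral_sub (hFψi.const_mul V) hli, ← Real.norm_eq_abs]
    refine (norm_integral_le_of_norm_le_const (C := L * t * V) (ae_of_all _ fun c => ?_)).trans_eq ?_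
    · exact avg_sub_le hF hFi (ψ' c) ht.le
    · simp [measureReal_def]
  -- step 2
  have hs2 : |(∫ x, F x * Q x) - V * ∫ x, F x| ≤ η * V * ∫ x, |F x| := by
    rw [← integral_const_mul, ← integral_const_mul, ← integral_sub hri (hFi.const_mul V)]
    refine abs_integral_le_integral_abs.trans (integral_mono ?_ (hFi.abs.const_mul _) fun x => ?_)
    · exact (hri.sub (hFi.const_mul V)).abs
    · by_cases hx : F x = 0
      · simp [hx]
      · have h1 := hQV x hx
        have h2 : F x * Q x - V * F x = F x * (Q x - V) := by ring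
        simp only
        rw [h2, abs_mul, mul_comm]
        exact mul_le_mul_of_nonneg_right h1 (abs_nonneg _)
  rw [hswap] at hs1
  -- step 3: divide by V
  have hs3 : |(∫ c in A, F (ψ' c) ∂m) - ∫ x, F x| ≤ L * t * m.real A + η * ∫ x, |F x| := by
    have h1 := abs_add_le (V * (∫ c in A, F (ψ' c) ∂m) - ∫ x, F x * Q x)
      ((∫ x, F x * Q x) - V * ∫ x, F x)
    have h2 : V * (∫ c in A, F (ψ' c) ∂m) - (∫ x, F x * Q x) +
        ((∫ x, F x * Q x) - V * ∫ x, F x) = V * ((∫ c in A, F (ψ' c) ∂m) - ∫ x, F x) := by ring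
    rw [h2, abs_mul, abs_of_pos hVpos] at h1
    have h3 : V * |(∫ c in A, F (ψ' c) ∂m) - ∫ x, F x| ≤
        V * (L * t * m.real A + η * ∫ x, |F x|) := by
      refine h1.trans ((add_le_add hs1 hs2).trans_eq ?_)
      ring
    exact le_of_mul_le_mul_left h3 hVpos
  -- step 4: from `F ∘ ψ'` to `G`
  have hGb : ∀ c ∈ A, |G c - F (ψ' c)| ≤ δ + L * (2 * e) := by
    intro c hc
    have h1 := hGF c hc
    have h2 := hF.dist_le_mul (ψ c) (ψ' c)
    rw [Real.dist_eq, dist_comm] at h2
    have h3 : (L : ℝ) * dist (ψ' c) (ψ c) ≤ L * (2 * e) :=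
      mul_le_mul_of_nonneg_left (hψA c hc) L.2
    have h4 := abs_add_le (G c - F (ψ c)) (F (ψ c) - F (ψ' c))
    rw [sub_add_sub_cancel] at h4
    linarith
  have hGi : Integrable G (m.restrict A) := by
    have h1 : Integrable (fun c => G c - F (ψ' c)) (m.restrict A) := by
      refine Integrable.of_bound ((hG.sub (hFc.measurable.comp hψm)).aestronglyMeasurable)
        (δ + L * (2 * e)) ?_
      exact (ae_restrict_iff' isClosed_closedBall.measurableSet).2 (ae_of_all _ fun c hc => hGb c hc)
    have h2 := h1.add hFψi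
    refine h2.congr (ae_of_all _ fun c => ?_)
    simp
  have hs4 : |(∫ c in A, G c ∂m) - ∫ c in A, F (ψ' c) ∂m| ≤ (δ + L * (2 * e)) * m.real A := by
    rw [← integral_sub hGi hFψi, ← Real.norm_eq_abs]
    exact norm_setIntegral_le_of_norm_le_const hAfin fun c hc => hGb c hc
  have h5 := abs_add_le ((∫ c in A, G c ∂m) - ∫ c in A, F (ψ' c) ∂m)
    ((∫ c in A, F (ψ' c) ∂m) - ∫ x, F x)
  rw [sub_add_sub_cancel] at h5
  refine h5.trans ((add_le_add hs4 hs3).trans_eq ?_)
  ring

end transfer

end Pool.Agent.BDRY
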