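import Pool.Agent.Work.MP_209cb6_gt.B2.Mix

/-!
# BDRY2, block KER: `W2 = 0` implies equality; the flow of a finite mixture
-/

set_option autoImplicit false

open MeasureTheory MeasureTheory.Measure Metric Set Filter Topology
open scoped ENNReal NNReal

namespace Pool.Agent.BDRY

universe u

section

variable {X : Type u} [MetricSpace X] [MeasurableSpace X] [BorelSpace X]
  [SecondCountableTopology X]

theorem measure_le_cthickening {μ ν : Measure X} (hμ : IsP2 μ) (hν : IsP2 ν) {F : Set X}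
    (hF : MeasurableSet F) {δ : ℝ} (hδ : 0 < δ) :
    μ F ≤ ν (cthickening δ F) + W2sq μ ν / ENNReal.ofReal δ ^ 2 := by
  have hδ' : ENNReal.ofReal δ ^ 2 ≠ 0 := by
    have : 0 < ENNReal.ofReal δ := ENNReal.ofReal_pos.2 hδ
    positivity
  have hδt : ENNReal.ofReal δ ^ 2 ≠ ∞ := by
    exact ENNReal.pow_ne_top ENNReal.ofReal_ne_top
  have key : ∀ ε : ℝ≥0∞, 0 < ε →
      μ F ≤ ν (cthickening δ F) + (W2sq μ ν + ε) / ENNReal.ofReal δ ^ 2 := by
    intro ε hε
    obtain ⟨π, h1, h2, h3⟩ := exists_coupling' hμ hν hε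
    have hsub : Prod.fst ⁻¹' F ⊆ Prod.snd ⁻¹' (cthickening δ F) ∪
        {z : X × X | ENNReal.ofReal δ ^ 2 ≤ edist z.1 z.2 ^ 2} := by
      intro z hz
      by_cases hz' : edist z.1 z.2 ≤ ENNReal.ofReal δ
      · left
        rw [mem_preimage, mem_cthickening_iff]
        refine (infEDist_le_edist_of_mem (show z.1 ∈ F from hz)).trans ?_
        rwa [edist_comm]
      · right
        exact pow_le_pow_left' (not_le.1 hz').le 2
    have e1 : μ F = π (Prod.fst ⁻¹' F) := by
      rw [← h1, Measure.map_apply measurable_fst hF]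
    have e2 : ν (cthickening δ F) = π (Prod.snd ⁻¹' (cthickening δ F)) := by
      rw [← h2, Measure.map_apply measurable_snd isClosed_cthickening.measurableSet]
    rw [e1, e2]
    refine (measure_mono hsub).trans ((measure_union_le _ _).trans ?_)
    gcongr
    have hm : Measurable fun z : X × X => edist z.1 z.2 ^ 2 := by fun_prop
    exact (meas_ge_le_lintegral_div hm.aemeasurable hδ' hδt).trans
      (ENNReal.div_le_div_right h3.le _)
  have hlim : Tendsto (fun ε : ℝ≥0∞ => ν (cthickening δ F) + (W2sq μ ν + ε) / ENNReal.ofReal δ ^ 2)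
      (𝓝[>] 0) (𝓝 (ν (cthickening δ F) + (W2sq μ ν + 0) / ENNReal.ofReal δ ^ 2)) := by
    have hc : Continuous fun ε : ℝ≥0∞ => ν (cthickening δ F) + (W2sq μ ν + ε) / ENNReal.ofReal δ ^ 2 := by
      refine continuous_const.add ?_
      exact (ENNReal.continuous_div_const _ hδ').comp (continuous_const.add continuous_id)
    exact (hc.tendsto 0).mono_left nhdsWithin_le_nhds
  rw [add_zero] at hlim
  refine ge_of_tendsto hlim ?_
  filter_upwards [self_mem_nhdsWithin] with ε hε
  exact key ε hε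

theorem eq_of_W2_eq_zero {μ ν : Measure X} (hμ : IsP2 μ) (hν : IsP2 ν) (h : W2 μ ν = 0) :
    μ = ν := by
  have hμp := hμ.1
  have hνp := hν.1
  have h0 : ∀ {α β : Measure X}, IsP2 α → IsP2 β → W2 α β = 0 → W2sq α β = 0 := by
    intro α β hα hβ h
    have h1 := W2_sq α β
    rw [h] at h1
    have h2 : (W2sq α β).toReal = 0 := by linarith
    exact ((ENNReal.toReal_eq_zero_iff _).1 h2).resolve_right (W2sq_lt_top hα hβ).ne
  have hle : ∀ {α β : Measure X}, IsP2 α → IsP2 β → W2 α β = 0 → ∀ F : Set X, IsClosed F →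
      α F ≤ β F := by
    intro α β hα hβ h F hF
    have := hβ.1
    have hl := tendsto_measure_cthickening_of_isClosed (μ := β) (s := F)
      ⟨1, one_pos, measure_ne_top _ _⟩ hF
    have hl' : Tendsto (fun r => β (cthickening r F)) (𝓝[>] 0) (𝓝 (β F)) :=
      hl.mono_left nhdsWithin_le_nhds
    refine ge_of_tendsto hl' ?_
    filter_upwards [self_mem_nhdsWithin] with δ hδ
    have h3 := measure_le_cthickening hα hβ hF.measurableSet (show 0 < δ from hδ)
    rwa [h0 hα hβ h, ENNReal.zero_div, add_zero] at h3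
  refine ext_of_generate_finite _ (by rw [BorelSpace.measurable_eq (α := X),
    borel_eq_generateFrom_isClosed]) isPiSystem_isClosed (fun F hF => ?_) (by simp)
  exact le_antisymm (hle hμ hν h F hF) (hle hν hμ (by rw [W2_comm]; exact h) F hF)

end

section flow

variable {X : Type u} [MetricSpace X] [MeasurableSpace X] [BorelSpace X] [ProperSpace X]
  {K : ℝ} {N : ℕ} {m : Measure X} {ι : Type*} [Fintype ι] {w : ι → ℝ≥0∞} {μ : ι → ℝ → Measure X}
  {ν : ℝ → Measure X}

/-- `∑ w_i log U(μ_i) ≤ log U(∑ w_i μ_i)` -/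
theorem sum_log_UN_le [SigmaFinite m] (hN : 0 < N) (hw : ∑ i, w i = 1)
    (hw0 : ∀ i, w i ≠ 0) {μ : ι → Measure X} (hμ : ∀ i, IsProbabilityMeasure (μ i))
    (hU : ∀ i, 0 < UN N m (μ i)) :
    ∑ i, (w i).toReal * Real.log (UN N m (μ i)) ≤ Real.log (UN N m (mixM w μ)) := by
  have hN' : (0 : ℝ) < N := Nat.cast_pos.2 hN
  have hp := mixM_prob hw hμ
  have hUs := fun i => UN_pos_iff'.1 (hU i)
  obtain ⟨hMi, hMent⟩ := ent_mixM hw hw0 hμ (fun i => (hUs i).1) (fun i => (hUs i).2)
  have hMU : 0 < UN N m (mixM w μ) := UN_pos_iff'.2 ⟨mixM_ac fun i => (hUs i).1, hMi⟩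
  have h1 : 0 ≤ ∑ i, (w i).toReal * ∫ x, llr (μ i) (mixM w μ) x ∂(μ i) := by
    refine Finset.sum_nonneg fun i _ => mul_nonneg ENNReal.toReal_nonneg ?_
    exact llr_self_nonneg (ac_of_smul_le (hw0 i) (smul_le_mixM w μ i))
      (llr_int_of_smul_le (hw0 i) (w_ne_top hw i) (smul_le_mixM w μ i))
  have e4 : ∑ i, (w i).toReal * ∫ x, llr (μ i) m x ∂(μ i) =
      N * -(∑ i, (w i).toReal * Real.log (UN N m (μ i))) := by
    rw [mul_neg, Finset.mul_sum, ← Finset.sum_neg_distrib]
    refine Finset.sum_congr rfl fun i _ => ?_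
    rw [ent_eq_log_UN hN (hU i)]
    ring
  rw [e4, ent_eq_log_UN hN hMU] at hMent
  have h2 : (N : ℝ) * ∑ i, (w i).toReal * Real.log (UN N m (μ i)) ≤
      N * Real.log (UN N m (mixM w μ)) := by linarith
  exact le_of_mul_le_mul_left h2 hN'

/-- the recursion of the discrete Gronwall argument -/
theorem gronwall_aux {D A : ℕ → ℝ} {a b c : ℝ} (ha : 1 ≤ a) (hb : 0 ≤ b) (hc : 0 ≤ c)
    (hA : Monotone A) (h : ∀ j, D (j + 1) ≤ a * D j + b * (A (j + 1) - A j) + c) (j : ℕ) :
    D j ≤ a ^ j * (|D 0| + b * (A j - A 0) + c * j) := by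
  induction j with
  | zero =>
    simp
    exact le_abs_self _
  | succ j ih =>
    have h1 := h j
    have h2 : a * D j ≤ a * (a ^ j * (|D 0| + b * (A j - A 0) + c * j)) :=
      mul_le_mul_of_nonneg_left ih (by linarith)
    have h3 : (1 : ℝ) ≤ a ^ (j + 1) := one_le_pow₀ ha
    have h4 : 0 ≤ A (j + 1) - A j := sub_nonneg.2 (hA (Nat.le_succ j))
    have h5 : b * (A (j + 1) - A j) ≤ a ^ (j + 1) * (b * (A (j + 1) - A j)) :=
      le_mul_of_one_le_left (mul_nonneg hb h4) h3
    have h6 : c ≤ a ^ (j + 1) * c := le_mul_of_one_le_left hc h3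
    have h7 : a * (a ^ j * (|D 0| + b * (A j - A 0) + c * j)) =
        a ^ (j + 1) * (|D 0| + b * (A j - A 0) + c * j) := by ring
    rw [h7] at h2
    push_cast
    have h8 : a ^ (j + 1) * (|D 0| + b * (A (j + 1) - A 0) + c * (j + 1)) =
        a ^ (j + 1) * (|D 0| + b * (A j - A 0) + c * j) +
          a ^ (j + 1) * (b * (A (j + 1) - A j)) + a ^ (j + 1) * c := by ring
    rw [h8]
    linarith

/-- comparison on `[s, T]` -/
theorem mix_compare [SigmaFinite m] (hK : K ≤ 0) (hN : 0 < N) (hw : ∑ i, w i = 1)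
    (hw0 : ∀ i, w i ≠ 0) (h : ∀ i, IsEVIFlow K N m (μ i))
    (hmono : ∀ i s t, 0 < s → s ≤ t → UN N m (μ i s) ≤ UN N m (μ i t))
    (hν : IsEVIFlow K N m ν) (hνmono : ∀ s t, 0 < s → s ≤ t → UN N m (ν s) ≤ UN N m (ν t))
    {s T : ℝ} (hs : 0 < s) (hsT : s ≤ T) :
    W2 (mixM w fun i => μ i T) (ν T) ^ 2 ≤
      Real.exp (6 * -K * ((T - s) * Real.exp (-K * (T - s)))) *
        W2 (mixM w fun i => μ i s) (ν s) ^ 2 := by
  have hN' : (0 : ℝ) < N := Nat.cast_pos.2 hN
  set k := -K with hk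
  have hk0 : 0 ≤ k := by rw [hk]; linarith
  set A : ℝ → ℝ := fun t => ∑ i, (w i).toReal * Real.log (UN N m (μ i t)) with hA
  have hU : ∀ i t, 0 < t → 0 < UN N m (μ i t) := fun i t ht => (h i).dom t ht
  have hAmono : ∀ a b, 0 < a → a ≤ b → A a ≤ A b := by
    intro a b ha hab
    refine Finset.sum_le_sum fun i _ => mul_le_mul_of_nonneg_left ?_ ENNReal.toReal_nonneg
    exact Real.log_le_log (hU i a ha) (hmono i a b ha hab)
  set B : ℝ := |Real.log (UN N m (ν T)) - A s| with hB
  set L : ℝ := T - s with hL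
  have hL0 : 0 ≤ L := by rw [hL]; linarith
  set c₁ : ℝ := Real.exp (k * L) with hc₁
  have hc₁1 : 1 ≤ c₁ := Real.one_le_exp (by positivity)
  -- the estimate with `n` steps
  have hn : ∀ n : ℕ, 0 < n → W2 (mixM w fun i => μ i T) (ν T) ^ 2 ≤
      Real.exp (6 * k * (L * c₁)) * (W2 (mixM w fun i => μ i s) (ν s) ^ 2 +
        (2 * N * (c₁ * (A T - A s)) + 6 * k * N * B * c₁ ^ 2 * L) * (L / n)) := by
    intro n hn
    have hn' : (0 : ℝ) < n := Nat.cast_pos.2 hn
    set τ : ℝ := L / n with hτ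
    have hτ0 : 0 ≤ τ := by positivity
    have hτL : τ ≤ L := by
      rw [hτ, div_le_iff₀ hn']
      have : (1 : ℝ) ≤ n := by exact_mod_cast hn
      nlinarith
    set J := JK K τ with hJ
    have hJ0 : 0 ≤ J := JK_nonneg hK hτ0
    have hJc : J ≤ τ * c₁ := by
      refine (JK_le hK hτ0).trans (mul_le_mul_of_nonneg_left (Real.exp_le_exp.2 ?_) hτ0)
      exact mul_le_mul_of_nonneg_left hτL hk0
    set t : ℕ → ℝ := fun j => s + min (j : ℝ) n * τ with ht
    have ht0 : ∀ j, s ≤ t j := fun j => by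
      have : 0 ≤ min (j : ℝ) n * τ := by positivity
      simp only [ht]; linarith
    have htT : ∀ j, t j ≤ T := fun j => by
      have h1 : min (j : ℝ) n * τ ≤ n * τ := mul_le_mul_of_nonneg_right (min_le_right _ _) hτ0
      have h2 : (n : ℝ) * τ = L := by rw [hτ]; field_simp
      simp only [ht]; rw [h2] at h1; rw [hL] at h1; linarith
    have htmono : Monotone t := by
      intro i j hij
      simp only [ht]
      have : min (i : ℝ) n ≤ min (j : ℝ) n := min_le_min_right _ (by exact_mod_cast hij)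
      have := mul_le_mul_of_nonneg_right this hτ0
      linarith
    set D : ℕ → ℝ := fun j => W2 (mixM w fun i => μ i (t j)) (ν (t j)) ^ 2 with hD
    have hrec : ∀ j, D (j + 1) ≤ (1 + 3 * k * J) ^ 2 * D j + 2 * N * J * (A (t (j + 1)) - A (t j)) +
        6 * k * N * B * J ^ 2 := by
      intro j
      have hcoef : 1 ≤ (1 + 3 * k * J) ^ 2 := by
        have : 0 ≤ 3 * k * J := by positivity
        nlinarith
      have hlast : 0 ≤ 6 * k * N * B * J ^ 2 := by
        have : 0 ≤ B := abs_nonneg _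
        positivity
      rcases lt_or_ge j n with hj | hj
      · have hts : t (j + 1) = t j + τ := by
          simp only [ht]
          have h1 : min ((j + 1 : ℕ) : ℝ) n = j + 1 := by
            rw [min_eq_left]; push_cast; rfl
            exact_mod_cast hj
          have h2 : min (j : ℝ) n = j := min_eq_left (by exact_mod_cast hj.le)
          rw [h1, h2]; ring
        have hpos : 0 < t j := hs.trans_le (ht0 j)
        have hpos' : 0 < t (j + 1) := hs.trans_le (ht0 _)
        have hMP : IsP2 (mixM w fun i => μ i (t j)) := isP2_mixM hw fun i => (h i).p2 _ hpos.le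
        have hνU := hν.dom _ hpos'
        obtain ⟨hMU, -⟩ := mix_step hK hN hw hw0 h hmono (hν.p2 _ hpos'.le) hνU hpos hτ0
        have e1 := hν.one_step hK hN hνmono hMP hMU hpos hτ0
        rw [← hts] at e1
        obtain ⟨-, e2⟩ := mix_step hK hN hw hw0 h hmono (hν.p2 _ hpos'.le) hνU hpos hτ0
        rw [← hts] at e2
        rw [W2_comm (ν (t (j + 1))), W2_comm (ν (t j))] at e1
        have e3 : Real.log (UN N m (ν (t (j + 1)))) -
            Real.log (UN N m (mixM w fun i => μ i (t j))) ≤ B := by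
          have f1 : Real.log (UN N m (ν (t (j + 1)))) ≤ Real.log (UN N m (ν T)) :=
            Real.log_le_log hνU (hνmono _ _ hpos' (htT _))
          have f2 : A (t j) ≤ Real.log (UN N m (mixM w fun i => μ i (t j))) :=
            sum_log_UN_le hN hw hw0 (fun i => ((h i).p2 _ hpos.le).1) (fun i => hU i _ hpos)
          have f3 := hAmono s (t j) hs (ht0 j)
          have f4 := le_abs_self (Real.log (UN N m (ν T)) - A s)
          linarith
        have e4 : 3 * k * J * (2 * N * J * (Real.log (UN N m (ν (t (j + 1)))) -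
            Real.log (UN N m (mixM w fun i => μ i (t j))))) ≤ 6 * k * N * B * J ^ 2 := by
          have := mul_le_mul_of_nonneg_left e3 (show 0 ≤ 6 * k * N * J ^ 2 by positivity)
          nlinarith
        have e5 := mul_le_mul_of_nonneg_left e1 (show 0 ≤ 1 + 3 * k * J by positivity)
        simp only [hD]
        simp only [hA]
        nlinarith
      · have hts : t (j + 1) = t j := by
          simp only [ht]
          have h1 : min ((j + 1 : ℕ) : ℝ) n = n := min_eq_right (by exact_mod_cast (hj.trans (Nat.le_succ j)))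
          have h2 : min (j : ℝ) n = n := min_eq_right (by exact_mod_cast hj)
          rw [h1, h2]
        have hDj : 0 ≤ D j := sq_nonneg _
        have e1 : D (j + 1) = D j := by simp only [hD]; rw [hts]
        rw [e1, hts]
        nlinarith
    have hAt : Monotone fun j => A (t j) := fun i j hij =>
      hAmono _ _ (hs.trans_le (ht0 i)) (htmono hij)
    have hB0 : 0 ≤ B := abs_nonneg _
    have hfin := gronwall_aux (a := (1 + 3 * k * J) ^ 2) (b := 2 * N * J)
      (c := 6 * k * N * B * J ^ 2) (by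
        have : 0 ≤ 3 * k * J := by positivity
        nlinarith) (by positivity) (by positivity) hAt hrec n
    have htn : t n = T := by
      simp only [ht, min_self]
      rw [hτ, mul_div_cancel₀ _ hn'.ne', hL]; ring
    have ht00 : t 0 = s := by simp [ht, hn'.le]
    simp only [hD] at hfin
    rw [htn, ht00, abs_of_nonneg (sq_nonneg _)] at hfin
    refine hfin.trans ?_
    have g1 : ((1 + 3 * k * J) ^ 2) ^ n ≤ Real.exp (6 * k * (L * c₁)) := by
      rw [← pow_mul]
      have g2 : (1 + 3 * k * J) ^ (2 * n) ≤ Real.exp (3 * k * J) ^ (2 * n) := by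
        refine pow_le_pow_left₀ (by positivity) ?_ _
        have := Real.add_one_le_exp (3 * k * J)
        linarith
      refine g2.trans ?_
      rw [← Real.exp_nat_mul]
      refine Real.exp_le_exp.2 ?_
      push_cast
      have g3 : (n : ℝ) * J ≤ L * c₁ := by
        have := mul_le_mul_of_nonneg_left hJc hn'.le
        have g4 : (n : ℝ) * (τ * c₁) = L * c₁ := by rw [hτ]; field_simp
        linarith
      have := mul_le_mul_of_nonneg_left g3 (show 0 ≤ 6 * k by positivity)
      nlinarith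
    have hAT : 0 ≤ A T - A s := sub_nonneg.2 (hAmono s T hs hsT)
    have g5 : W2 (mixM w fun i => μ i s) (ν s) ^ 2 + 2 * N * J * (A T - A s) +
        6 * k * N * B * J ^ 2 * n ≤ W2 (mixM w fun i => μ i s) (ν s) ^ 2 +
        (2 * N * (c₁ * (A T - A s)) + 6 * k * N * B * c₁ ^ 2 * L) * τ := by
      have g6 : 2 * N * J * (A T - A s) ≤ 2 * N * (τ * c₁) * (A T - A s) := by gcongr
      have g7 : J ^ 2 * n ≤ c₁ ^ 2 * L * τ := by
        have g8 : J ^ 2 ≤ (τ * c₁) ^ 2 := pow_le_pow_left₀ hJ0 hJc 2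
        have g9 : (τ * c₁) ^ 2 * n = c₁ ^ 2 * L * τ := by
          have : τ * n = L := by rw [hτ]; field_simp
          calc (τ * c₁) ^ 2 * n = c₁ ^ 2 * (τ * n) * τ := by ring
            _ = _ := by rw [this]
        rw [← g9]
        gcongr
      have g10 := mul_le_mul_of_nonneg_left g7 (show 0 ≤ 6 * k * N * B by positivity)
      nlinarith
    exact mul_le_mul g1 g5 (by positivity) (Real.exp_pos _).le
  -- limit `n → ∞`
  have hlim : Tendsto (fun n : ℕ => Real.exp (6 * k * (L * c₁)) *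
      (W2 (mixM w fun i => μ i s) (ν s) ^ 2 +
        (2 * N * (c₁ * (A T - A s)) + 6 * k * N * B * c₁ ^ 2 * L) * (L / n))) atTop
      (𝓝 (Real.exp (6 * k * (L * c₁)) * (W2 (mixM w fun i => μ i s) (ν s) ^ 2 +
        (2 * N * (c₁ * (A T - A s)) + 6 * k * N * B * c₁ ^ 2 * L) * 0))) := by
    refine Tendsto.const_mul _ (Tendsto.const_add _ (Tendsto.const_mul _ ?_))
    exact tendsto_const_div_atTop_nhds_zero_nat L
  rw [mul_zero, add_zero] at hlim
  refine ge_of_tendsto hlim ?_
  filter_upwards [eventually_gt_atTop 0] with n hn0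
  exact hn n hn0

/-- **Linearity**: the mixture of EVI flows is the EVI flow of the mixture. -/
theorem mix_eq_flow (hK : K ≤ 0) (hN : 0 < N)
    (hfin : ∀ (x : X) (r : ℝ), m (closedBall x r) < ∞)
    (hexp : ∃ (x : X) (c : ℝ), 0 < c ∧ ∫⁻ y, ENNReal.ofReal (Real.exp (-c * dist x y ^ 2)) ∂m < ∞)
    (hw : ∑ i, w i = 1) (hw0 : ∀ i, w i ≠ 0) (h : ∀ i, IsEVIFlow K N m (μ i))
    (hν : IsEVIFlow K N m ν) (h0 : ν 0 = mixM w fun i => μ i 0) {t : ℝ} (ht : 0 ≤ t) :
    ν t = mixM w fun i => μ i t := by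
  have hsf : SigmaFinite m := sigmaFinite_of_ball hfin
  have hmono : ∀ i s t, 0 < s → s ≤ t → UN N m (μ i s) ≤ UN N m (μ i t) := fun i s t hs hst =>
    (h i).UN_mono hN hfin hexp hs hst
  have hνmono : ∀ s t, 0 < s → s ≤ t → UN N m (ν s) ≤ UN N m (ν t) := fun s t hs hst =>
    hν.UN_mono hN hfin hexp hs hst
  rcases ht.eq_or_lt with ht0 | ht0
  · rw [← ht0]; exact h0
  have hMP : ∀ s, 0 ≤ s → IsP2 (mixM w fun i => μ i s) := fun s hs =>
    isP2_mixM hw fun i => (h i).p2 s hs
  -- the distance at small times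
  have hsm : Tendsto (fun s => W2 (mixM w fun i => μ i s) (ν s) ^ 2) (𝓝[>] 0) (𝓝 0) := by
    have h1 : Tendsto (fun s => W2 (ν s) (ν 0)) (𝓝[>] 0) (𝓝 0) :=
      (hν.cont 0 le_rfl).mono_left (nhdsWithin_mono 0 Ioi_subset_Ici_self)
    have h2 : Tendsto (fun s => ∑ i, (w i).toReal * W2 (μ i s) (μ i 0) ^ 2) (𝓝[>] 0)
        (𝓝 (∑ i, (w i).toReal * 0 ^ 2)) := by
      refine tendsto_finsetSum _ fun i _ => ?_
      have h3 : Tendsto (fun s => W2 (μ i s) (μ i 0)) (𝓝[>] 0) (𝓝 0) :=
        ((h i).cont 0 le_rfl).mono_left (nhdsWithin_mono 0 Ioi_subset_Ici_self)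
      exact (h3.pow 2).const_mul _
    have h3 : Tendsto (fun s => 2 * (∑ i, (w i).toReal * W2 (μ i s) (μ i 0) ^ 2) +
        2 * W2 (ν s) (ν 0) ^ 2) (𝓝[>] 0) (𝓝 (2 * (∑ i, (w i).toReal * 0 ^ 2) + 2 * 0 ^ 2)) :=
      (h2.const_mul 2).add ((h1.pow 2).const_mul 2)
    have h4 : (2 * (∑ i, (w i).toReal * (0 : ℝ) ^ 2) + 2 * 0 ^ 2) = 0 := by simp
    rw [h4] at h3
    refine squeeze_zero' (Filter.Eventually.of_forall fun s => sq_nonneg _) ?_ h3
    filter_upwards [self_mem_nhdsWithin] with s hs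
    have hs0 : (0 : ℝ) ≤ s := le_of_lt hs
    have e1 := W2_triangle (hMP s hs0) (hMP 0 le_rfl) (hν.p2 s hs0)
    have e2 : W2 (mixM w fun i => μ i s) (mixM w fun i => μ i 0) ^ 2 ≤
        ∑ i, (w i).toReal * W2 (μ i s) (μ i 0) ^ 2 :=
      W2_mixM_sq_le hw (fun i => (h i).p2 s hs0) (fun i => (h i).p2 0 le_rfl)
    rw [← h0, W2_comm (ν 0)] at e1
    rw [← h0] at e2
    have e3 := W2_nonneg (mixM w fun i => μ i s) (ν s)
    have e4 : W2 (mixM w fun i => μ i s) (ν s) ^ 2 ≤
        (W2 (mixM w fun i => μ i s) (ν 0) + W2 (ν s) (ν 0)) ^ 2 := pow_le_pow_left₀ e3 e1 2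
    nlinarith [sq_nonneg (W2 (mixM w fun i => μ i s) (ν 0) - W2 (ν s) (ν 0))]
  have hcmp : ∀ᶠ s in 𝓝[>] (0 : ℝ), W2 (mixM w fun i => μ i t) (ν t) ^ 2 ≤
      Real.exp (6 * -K * (t * Real.exp (-K * t))) *
        W2 (mixM w fun i => μ i s) (ν s) ^ 2 := by
    have hlt : ∀ᶠ s in 𝓝[>] (0 : ℝ), s < t := nhdsWithin_le_nhds (Iio_mem_nhds ht0)
    filter_upwards [self_mem_nhdsWithin, hlt] with s hs hst
    refine (mix_compare hK hN hw hw0 h hmono hν hνmono hs hst.le).trans ?_
    refine mul_le_mul_of_nonneg_right (Real.exp_le_exp.2 ?_) (sq_nonneg _)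
    have hs' : 0 < s := hs
    have hk : 0 ≤ -K := by linarith
    have h1 : t - s ≤ t := by linarith
    have h2 : Real.exp (-K * (t - s)) ≤ Real.exp (-K * t) :=
      Real.exp_le_exp.2 (mul_le_mul_of_nonneg_left h1 hk)
    refine mul_le_mul_of_nonneg_left ?_ (by linarith)
    exact mul_le_mul h1 h2 (Real.exp_pos _).le ht
  have hlim := hsm.const_mul (Real.exp (6 * -K * (t * Real.exp (-K * t))))
  rw [mul_zero] at hlim
  have h1 := ge_of_tendsto hlim hcmp
  have h2 : W2 (mixM w fun i => μ i t) (ν t) = 0 := by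
    have := sq_nonneg (W2 (mixM w fun i => μ i t) (ν t))
    exact pow_eq_zero_iff (n := 2) (by norm_num) |>.1 (le_antisymm h1 this)
  exact (eq_of_W2_eq_zero (hMP t ht) (hν.p2 t ht) h2).symm

end flow

end Pool.Agent.BDRY
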