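import Pool.Agent.Work.MP_209cb6_gt.W2
import Pool.Agent.Work.MP_209cb6_gt.Ent

/-!
# BDRY2, M1: the entropy is lower semicontinuous under `W2` convergence
-/

set_option autoImplicit false

open MeasureTheory MeasureTheory.Measure Metric Set Filter Topology
open scoped ENNReal NNReal

namespace Pool.Agent.BDRY

universe u

/-! ### Bounded test functions -/

section dv

variable {X : Type u} [MeasurableSpace X]

/-- the truncated logarithm of `ρ / γ` -/
noncomputable def truncLog (ρ γ : ℝ) (k : ℕ) : ℝ :=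
  if ρ ≤ γ * Real.exp (-k) then -k else min (Real.log (ρ / γ)) k

theorem truncLog_measurable {ρ γ : X → ℝ} (hρ : Measurable ρ) (hγ : Measurable γ) (k : ℕ) :
    Measurable fun x => truncLog (ρ x) (γ x) k := by
  unfold truncLog
  refine Measurable.ite (measurableSet_le hρ (hγ.mul_const _)) measurable_const ?_
  exact (Real.measurable_log.comp (hρ.div hγ)).min measurable_const

theorem truncLog_lower {ρ γ : ℝ} (hγ : 0 < γ) (k : ℕ) : -(k : ℝ) ≤ truncLog ρ γ k := by
  unfold truncLog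
  split_ifs with h
  · exact le_rfl
  · push Not at h
    have h0 : 0 < γ * Real.exp (-k) := by positivity
    have h1 : Real.exp (-k) < ρ / γ := by rwa [lt_div_iff₀ hγ, mul_comm]
    have h2 : -(k : ℝ) < Real.log (ρ / γ) := by
      rwa [Real.lt_log_iff_exp_lt (lt_trans (Real.exp_pos _) h1)]
    have h3 : -(k : ℝ) ≤ k := by
      have : (0 : ℝ) ≤ k := Nat.cast_nonneg k
      linarith
    exact le_min h2.le h3

theorem truncLog_upper (ρ γ : ℝ) (k : ℕ) : truncLog ρ γ k ≤ k := by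
  unfold truncLog
  split_ifs with h
  · have : (0 : ℝ) ≤ k := Nat.cast_nonneg k
    linarith
  · exact min_le_right _ _

theorem truncLog_abs {ρ γ : ℝ} (hγ : 0 < γ) (k : ℕ) : |truncLog ρ γ k| ≤ k :=
  abs_le.2 ⟨truncLog_lower hγ k, truncLog_upper ρ γ k⟩

/-- `γ e^ψ ≤ ρ + γ e^{-k}` -/
theorem truncLog_exp {ρ γ : ℝ} (hρ : 0 ≤ ρ) (hγ : 0 < γ) (k : ℕ) :
    γ * Real.exp (truncLog ρ γ k) ≤ ρ + γ * Real.exp (-k) := by
  unfold truncLog
  split_ifs with h
  · linarith
  · push Not at h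
    have h0 : 0 < γ * Real.exp (-k) := by positivity
    have h1 : 0 < ρ / γ := div_pos (h0.trans h) hγ
    have h2 : γ * Real.exp (min (Real.log (ρ / γ)) k) ≤ ρ := by
      calc γ * Real.exp (min (Real.log (ρ / γ)) k) ≤ γ * Real.exp (Real.log (ρ / γ)) := by
            gcongr
            exact min_le_left _ _
        _ = ρ := by rw [Real.exp_log h1]; field_simp
    linarith

/-- comparison with the untruncated logarithm -/
theorem truncLog_abs_le {ρ γ : ℝ} (hρ : 0 < ρ) (hγ : 0 < γ) (k : ℕ) :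
    |truncLog ρ γ k| ≤ |Real.log (ρ / γ)| := by
  unfold truncLog
  have h1 : 0 < ρ / γ := div_pos hρ hγ
  split_ifs with h
  · have h2 : Real.log (ρ / γ) ≤ -k := by
      rw [Real.log_le_iff_le_exp h1, div_le_iff₀ hγ, mul_comm]
      exact h
    have hk : (0 : ℝ) ≤ k := Nat.cast_nonneg k
    rw [abs_neg, abs_of_nonneg hk, abs_of_nonpos (by linarith)]
    linarith
  · have hk : (0 : ℝ) ≤ k := Nat.cast_nonneg k
    rcases le_total (Real.log (ρ / γ)) k with h2 | h2
    · rw [min_eq_left h2]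
    · rw [min_eq_right h2, abs_of_nonneg hk, abs_of_nonneg (hk.trans h2)]
      exact h2

theorem truncLog_eq {ρ γ : ℝ} (hρ : 0 < ρ) (hγ : 0 < γ) {k : ℕ} (hk : |Real.log (ρ / γ)| < k) :
    truncLog ρ γ k = Real.log (ρ / γ) := by
  have h1 : 0 < ρ / γ := div_pos hρ hγ
  have h2 := abs_lt.1 hk
  unfold truncLog
  rw [if_neg, min_eq_left h2.2.le]
  push Not
  have h3 : Real.exp (-k) < ρ / γ := (Real.lt_log_iff_exp_lt h1).1 h2.1
  rwa [lt_div_iff₀ hγ, mul_comm] at h3

/-- the negative part is bounded by `γ / ρ` -/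
theorem truncLog_neg {ρ γ : ℝ} (hρ : 0 < ρ) (hγ : 0 < γ) (k : ℕ) :
    -truncLog ρ γ k ≤ γ / ρ := by
  have h1 : 0 < ρ / γ := div_pos hρ hγ
  have h0 : 0 < γ / ρ := div_pos hγ hρ
  have h4 : Real.log (γ / ρ) = -Real.log (ρ / γ) := by
    rw [← Real.log_inv, inv_div]
  have h5 : Real.log (γ / ρ) ≤ γ / ρ - 1 := Real.log_le_sub_one_of_pos h0
  unfold truncLog
  split_ifs with h
  · have h2 : Real.log (ρ / γ) ≤ -k := by
      rw [Real.log_le_iff_le_exp h1, div_le_iff₀ hγ, mul_comm]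
      exact h
    rw [neg_neg]
    linarith
  · rcases le_total (Real.log (ρ / γ)) k with h2 | h2
    · rw [min_eq_left h2]
      linarith
    · rw [min_eq_right h2]
      have hk : (0 : ℝ) ≤ k := Nat.cast_nonneg k
      linarith

/-- the integral of `γ / ρ` -/
theorem integral_div_rnDeriv {m ν : Measure X} [SigmaFinite m] [IsProbabilityMeasure ν]
    (hac : ν ≪ m) {γ : X → ℝ} (hγm : Measurable γ) (hγ : ∀ x, 0 < γ x) (hγi : Integrable γ m) :
    Integrable (fun x => γ x / (ν.rnDeriv m x).toReal) ν ∧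
      ∫ x, γ x / (ν.rnDeriv m x).toReal ∂ν ≤ ∫ x, γ x ∂m := by
  set ρ : X → ℝ := fun x => (ν.rnDeriv m x).toReal with hρ
  have hρm : Measurable ρ := (Measure.measurable_rnDeriv ν m).ennreal_toReal
  have h3 : Integrable (fun x => ρ x • (γ x / ρ x)) m := by
    refine hγi.mono (hρm.mul (hγm.div hρm)).aestronglyMeasurable (ae_of_all _ fun x => ?_)
    simp only [smul_eq_mul, Real.norm_eq_abs]
    by_cases hx : ρ x = 0
    · simp [hx]
    · rw [mul_div_cancel₀ _ hx]
  refine ⟨(integrable_rnDeriv_smul_iff hac).1 h3, ?_⟩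
  rw [← integral_rnDeriv_smul hac]
  refine integral_mono h3 hγi fun x => ?_
  simp only [smul_eq_mul]
  by_cases hx : ρ x = 0
  · simp only [hρ] at hx
    simp only [hρ, hx, zero_mul]
    exact (hγ x).le
  · rw [mul_div_cancel₀ _ hx]

theorem exists_bdd_sing {m ν : Measure X} [IsProbabilityMeasure ν] {γ : X → ℝ} {a : ℝ}
    (hac : ¬ ν ≪ m) :
    ∃ (M : ℝ) (ψ : X → ℝ), Measurable ψ ∧ (∀ x, |ψ x| ≤ M) ∧
      a < ∫ x, Real.log (γ x) ∂ν + ∫ x, ψ x ∂ν + 1 - ∫ x, γ x * Real.exp (ψ x) ∂m := by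
  set L := ∫ x, Real.log (γ x) ∂ν with hL
  set Z := ∫ x, γ x ∂m with hZ
  obtain ⟨S, hSm, hS0, hS1⟩ : ∃ S, MeasurableSet S ∧ m S = 0 ∧ ν S ≠ 0 := by
    rw [AbsolutelyContinuous] at hac
    push Not at hac
    obtain ⟨S, h0, h1⟩ := hac
    refine ⟨toMeasurable m S, measurableSet_toMeasurable _ _,
      by rw [measure_toMeasurable]; exact h0, fun h => h1 ?_⟩
    exact measure_mono_null (subset_toMeasurable m S) h
  have hSr : 0 < ν.real S := ENNReal.toReal_pos hS1 (measure_ne_top _ _)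
  obtain ⟨M, hM0, hM⟩ : ∃ M : ℝ, 0 ≤ M ∧ a - L - 1 + Z < M * ν.real S := by
    refine ⟨(|a - L - 1 + Z| + 1) / ν.real S, by positivity, ?_⟩
    rw [div_mul_cancel₀ _ hSr.ne']
    linarith [le_abs_self (a - L - 1 + Z)]
  refine ⟨M, S.indicator fun _ => M, measurable_const.indicator hSm, ?_, ?_⟩
  · intro x
    by_cases hx : x ∈ S
    · rw [indicator_of_mem hx, abs_of_nonneg hM0]
    · rw [indicator_of_notMem hx, abs_zero]
      exact hM0
  · have e1 : ∫ x, S.indicator (fun _ => M) x ∂ν = M * ν.real S := by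
      rw [integral_indicator_const _ hSm, smul_eq_mul, mul_comm]
    have e2 : ∫ x, γ x * Real.exp (S.indicator (fun _ => M) x) ∂m = Z := by
      refine integral_congr_ae ?_
      have : ∀ᵐ x ∂m, x ∉ S := measure_eq_zero_iff_ae_notMem.1 hS0
      filter_upwards [this] with x hx
      rw [indicator_of_notMem hx, Real.exp_zero, mul_one]
    rw [e1, e2]
    linarith

/-- the entropy is the supremum over bounded test functions -/
theorem exists_bdd {m ν : Measure X} [SigmaFinite m] [IsProbabilityMeasure ν] {γ : X → ℝ}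
    (hγm : Measurable γ) (hγ : ∀ x, 0 < γ x) (hγi : Integrable γ m)
    (hγν : Integrable (fun x => Real.log (γ x)) ν) {a : ℝ}
    (ha : ν ≪ m ∧ Integrable (llr ν m) ν → a < ∫ x, llr ν m x ∂ν) :
    ∃ (M : ℝ) (ψ : X → ℝ), Measurable ψ ∧ (∀ x, |ψ x| ≤ M) ∧
      a < ∫ x, Real.log (γ x) ∂ν + ∫ x, ψ x ∂ν + 1 - ∫ x, γ x * Real.exp (ψ x) ∂m := by
  by_cases hac : ν ≪ m
  swap
  · exact exists_bdd_sing hac
  set L := ∫ x, Real.log (γ x) ∂ν with hL
  set Z := ∫ x, γ x ∂m with hZ
  have hZ0 : 0 ≤ Z := integral_nonneg fun x => (hγ x).le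
  set ρ : X → ℝ := fun x => (ν.rnDeriv m x).toReal with hρ
  have hρm : Measurable ρ := (Measure.measurable_rnDeriv ν m).ennreal_toReal
  have hρ0 : ∀ x, 0 ≤ ρ x := fun x => ENNReal.toReal_nonneg
  have hρpos : ∀ᵐ x ∂ν, 0 < ρ x := by
    filter_upwards [Measure.rnDeriv_pos hac, Measure.rnDeriv_lt_top ν m |>.filter_mono hac.ae_le]
      with x hx hx'
    exact ENNReal.toReal_pos hx.ne' hx'.ne
  set ψ : ℕ → X → ℝ := fun k x => truncLog (ρ x) (γ x) k with hψ
  have hψm : ∀ k, Measurable (ψ k) := fun k => truncLog_measurable hρm hγm k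
  have hψb : ∀ k x, |ψ k x| ≤ k := fun k x => truncLog_abs (hγ x) k
  have hψi : ∀ k, Integrable (ψ k) ν := fun k =>
    Integrable.mono' (integrable_const (k : ℝ)) (hψm k).aestronglyMeasurable
      (ae_of_all _ fun x => hψb k x)
  have hρi : Integrable ρ m := Measure.integrable_toReal_rnDeriv
  have hval : ∀ k : ℕ, ∫ x, γ x * Real.exp (ψ k x) ∂m ≤ 1 + Real.exp (-k) * Z := by
    intro k
    have e1 : ∫ x, ρ x ∂m = 1 := by
      rw [hρ, Measure.integral_toReal_rnDeriv hac]
      simp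
    calc ∫ x, γ x * Real.exp (ψ k x) ∂m ≤ ∫ x, (ρ x + γ x * Real.exp (-k)) ∂m := by
          refine integral_mono_of_nonneg (ae_of_all _ fun x => ?_)
            (hρi.add (hγi.mul_const _)) (ae_of_all _ fun x => ?_)
          · have := hγ x
            simp only [Pi.zero_apply]
            positivity
          · exact truncLog_exp (hρ0 x) (hγ x) k
      _ = 1 + Real.exp (-k) * Z := by
          rw [integral_add hρi (hγi.mul_const _), e1, integral_mul_const, mul_comm Z]
  have hllr : ∀ᵐ x ∂ν, llr ν m x = Real.log (ρ x / γ x) + Real.log (γ x) := by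
    filter_upwards [hρpos] with x hx
    rw [Real.log_div hx.ne' (hγ x).ne', llr_def]
    simp only [hρ]
    ring
  have hlim : ∀ᵐ x ∂ν, Tendsto (fun k => ψ k x) atTop (𝓝 (Real.log (ρ x / γ x))) := by
    filter_upwards [hρpos] with x hx
    refine tendsto_const_nhds.congr' ?_
    obtain ⟨k₀, hk₀⟩ := exists_nat_gt |Real.log (ρ x / γ x)|
    filter_upwards [eventually_ge_atTop k₀] with k hk
    refine (truncLog_eq hx (hγ x) (hk₀.trans_le ?_)).symm
    exact_mod_cast hk
  have hlogm : Measurable fun x => Real.log (ρ x / γ x) :=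
    Real.measurable_log.comp (hρm.div hγm)
  by_cases hint : Integrable (llr ν m) ν
  · have ha' := ha ⟨hac, hint⟩
    have hhi : Integrable (fun x => Real.log (ρ x / γ x)) ν := by
      refine (hint.sub hγν).congr ?_
      filter_upwards [hllr] with x hx
      simp only [Pi.sub_apply]
      rw [hx]
      ring
    have e1 : ∫ x, llr ν m x ∂ν = ∫ x, Real.log (ρ x / γ x) ∂ν + L := by
      rw [integral_congr_ae hllr, integral_add hhi hγν]
    have h1 : Tendsto (fun k => ∫ x, ψ k x ∂ν) atTop (𝓝 (∫ x, Real.log (ρ x / γ x) ∂ν)) := by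
      refine tendsto_integral_of_dominated_convergence (fun x => |Real.log (ρ x / γ x)|)
        (fun k => (hψm k).aestronglyMeasurable) hhi.abs (fun k => ?_) hlim
      filter_upwards [hρpos] with x hx
      exact truncLog_abs_le hx (hγ x) k
    have h2 : Tendsto (fun k : ℕ => Real.exp (-(k : ℝ)) * Z) atTop (𝓝 (0 * Z)) := by
      refine Tendsto.mul_const _ ?_
      exact Real.tendsto_exp_neg_atTop_nhds_zero.comp tendsto_natCast_atTop_atTop
    rw [zero_mul] at h2
    have h3 : Tendsto (fun k : ℕ => L + ∫ x, ψ k x ∂ν - Real.exp (-(k : ℝ)) * Z) atTop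
        (𝓝 (L + ∫ x, Real.log (ρ x / γ x) ∂ν - 0)) := (h1.const_add L).sub h2
    have h4 : a < L + ∫ x, Real.log (ρ x / γ x) ∂ν - 0 := by linarith
    obtain ⟨k, hk⟩ := (h3.eventually (lt_mem_nhds h4)).exists
    refine ⟨k, ψ k, hψm k, hψb k, ?_⟩
    have := hval k
    linarith
  · by_contra hcon
    push Not at hcon
    set T := a - L + Z with hT
    have hle : ∀ k : ℕ, ∫ x, ψ k x ∂ν ≤ T := by
      intro k
      have h1 := hcon k (ψ k) (hψm k) (hψb k)
      have h2 := hval k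
      have h3 : Real.exp (-(k : ℝ)) * Z ≤ Z := by
        have h4 : Real.exp (-(k : ℝ)) ≤ 1 := Real.exp_le_one_iff.2 (by simp)
        nlinarith
      linarith
    obtain ⟨hdi, hdle⟩ := integral_div_rnDeriv hac hγm hγ hγi
    have habs : ∀ k : ℕ, ∫ x, |ψ k x| ∂ν ≤ T + 2 * Z := by
      intro k
      calc ∫ x, |ψ k x| ∂ν ≤ ∫ x, (ψ k x + 2 * (γ x / ρ x)) ∂ν := by
            refine integral_mono_ae (hψi k).abs ((hψi k).add (hdi.const_mul 2)) ?_
            filter_upwards [hρpos] with x hx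
            have h1 := truncLog_neg hx (hγ x) k
            have h2 : 0 ≤ γ x / ρ x := div_nonneg (hγ x).le hx.le
            change -ψ k x ≤ γ x / ρ x at h1
            change |ψ k x| ≤ ψ k x + 2 * (γ x / ρ x)
            rw [abs_le]
            constructor <;> linarith
        _ = ∫ x, ψ k x ∂ν + 2 * ∫ x, γ x / ρ x ∂ν := by
            rw [integral_add (hψi k) (hdi.const_mul 2), integral_const_mul]
        _ ≤ T + 2 * Z := by
            have := hle k
            have h2 : ∫ x, γ x / ρ x ∂ν ≤ Z := hdle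
            linarith
    have hhi : Integrable (fun x => Real.log (ρ x / γ x)) ν := by
      refine ⟨hlogm.aestronglyMeasurable, ?_⟩
      rw [HasFiniteIntegral]
      have hF : ∫⁻ x, ‖Real.log (ρ x / γ x)‖ₑ ∂ν ≤ liminf (fun k => ∫⁻ x, ‖ψ k x‖ₑ ∂ν) atTop := by
        refine le_trans (le_of_eq ?_) (lintegral_liminf_le fun k => (hψm k).enorm)
        refine lintegral_congr_ae ?_
        filter_upwards [hlim] with x hx
        exact ((continuous_enorm.tendsto _).comp hx).liminf_eq.symm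
      refine hF.trans_lt (lt_of_le_of_lt ?_ (ENNReal.ofReal_lt_top (r := T + 2 * Z)))
      refine liminf_le_of_le (by isBoundedDefault) fun b hb => ?_
      obtain ⟨k, hk⟩ := hb.exists
      refine hk.trans ?_
      rw [← ofReal_integral_norm_eq_lintegral_enorm (hψi k)]
      exact ENNReal.ofReal_le_ofReal (habs k)
    refine hint ((hhi.add hγν).congr ?_)
    filter_upwards [hllr] with x hx
    rw [hx]
    rfl

end dv

/-! ### Continuity of the test functionals -/

section main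
variable {X : Type u} [MetricSpace X] [ProperSpace X] [MeasurableSpace X] [BorelSpace X]

theorem IsP2.integrable_sq {μ : Measure X} (hμ : IsP2 μ) (x : X) :
    Integrable (fun y => dist x y ^ 2) μ := by
  refine ⟨by fun_prop, ?_⟩
  rw [hasFiniteIntegral_iff_ofReal (ae_of_all _ fun y => by positivity)]
  refine lt_of_le_of_lt (le_of_eq ?_) (hμ.lt_top x)
  refine lintegral_congr fun y => ?_
  rw [edist_dist, ENNReal.ofReal_pow dist_nonneg]

theorem integral_sq_eq_W2 {μ : Measure X} (hμ : IsP2 μ) (x : X) :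
    ∫ y, dist x y ^ 2 ∂μ = W2 μ (dirac x) ^ 2 := by
  rw [W2_dirac_sq hμ x]
  simp_rw [dist_comm]

theorem integral_sq_le {μ ν : Measure X} (hμ : IsP2 μ) (hν : IsP2 ν) (x : X) :
    ∫ y, dist x y ^ 2 ∂μ ≤ (√(∫ y, dist x y ^ 2 ∂ν) + W2 μ ν) ^ 2 := by
  rw [integral_sq_eq_W2 hμ, integral_sq_eq_W2 hν, Real.sqrt_sq (W2_nonneg _ _)]
  have h := W2_triangle hμ hν (isP2_dirac x)
  have h0 := W2_nonneg μ (dirac x)
  exact pow_le_pow_left₀ h0 (by linarith) 2

theorem integral_near {f : X → ℝ} (hf : UniformContinuous f) {M : ℝ} (hM : ∀ x, |f x| ≤ M)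
    {ν : Measure X} (hν : IsP2 ν) {δ : ℝ} (hδ : 0 < δ) :
    ∃ e : ℝ, 0 < e ∧ ∀ μ : Measure X, IsP2 μ → W2 μ ν ≤ e →
      |∫ x, f x ∂μ - ∫ x, f x ∂ν| ≤ δ := by
  obtain ⟨η, hη, hfη⟩ := Metric.uniformContinuous_iff.1 hf (δ / 2) (by positivity)
  have hM' : ∀ x, |f x| ≤ |M| := fun x => (hM x).trans (le_abs_self M)
  set e : ℝ := √(δ * η ^ 2 / (8 * (|M| + 1))) with he
  have he2 : e ^ 2 = δ * η ^ 2 / (8 * (|M| + 1)) := Real.sq_sqrt (by positivity)
  have he0 : 0 < e := Real.sqrt_pos.2 (by positivity)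
  refine ⟨e, he0, fun μ hμ hW => ?_⟩
  obtain ⟨π, h1, h2, h3, h4⟩ := exists_coupling hμ hν (ε := e ^ 2) (by positivity)
  have hμp := hμ.1
  have hπ : IsProbabilityMeasure π := by
    refine ⟨?_⟩
    have : μ univ = 1 := measure_univ
    rwa [← h1, Measure.map_apply measurable_fst MeasurableSet.univ, preimage_univ] at this
  have hsq : W2 μ ν ^ 2 ≤ e ^ 2 := pow_le_pow_left₀ (W2_nonneg _ _) hW 2
  have hfm : Measurable f := hf.continuous.measurable
  have e1 : ∫ x, f x ∂μ = ∫ z, f z.1 ∂π := by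
    rw [← h1, integral_map measurable_fst.aemeasurable hfm.aestronglyMeasurable]
  have e2 : ∫ x, f x ∂ν = ∫ z, f z.2 ∂π := by
    rw [← h2, integral_map measurable_snd.aemeasurable hfm.aestronglyMeasurable]
  have hi : Integrable (fun z : X × X => dist z.1 z.2 ^ 2) π := by
    refine ⟨by fun_prop, ?_⟩
    rw [hasFiniteIntegral_iff_ofReal (ae_of_all _ fun y => by positivity)]
    refine lt_of_le_of_lt (le_of_eq ?_) h3.lt_top
    refine lintegral_congr fun y => ?_
    rw [edist_dist, ENNReal.ofReal_pow dist_nonneg]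
  have hpt : ∀ z : X × X, |f z.1 - f z.2| ≤ δ / 2 + 2 * |M| / η ^ 2 * dist z.1 z.2 ^ 2 := by
    intro z
    have hnn : 0 ≤ 2 * |M| / η ^ 2 * dist z.1 z.2 ^ 2 := by positivity
    by_cases hz : dist z.1 z.2 < η
    · have h5 := hfη hz
      rw [Real.dist_eq] at h5
      linarith
    · push Not at hz
      have h5 : |f z.1 - f z.2| ≤ 2 * |M| := by
        have h6 := abs_le.1 (hM' z.1)
        have h7 := abs_le.1 (hM' z.2)
        rw [abs_le]
        constructor <;> linarith
      have h6 : 2 * |M| ≤ 2 * |M| / η ^ 2 * dist z.1 z.2 ^ 2 := by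
        rw [div_mul_eq_mul_div, le_div_iff₀ (by positivity)]
        have : η ^ 2 ≤ dist z.1 z.2 ^ 2 := pow_le_pow_left₀ hη.le hz 2
        gcongr
      linarith
  have hf1 : Integrable (fun z : X × X => f z.1) π :=
    Integrable.mono' (integrable_const |M|) (hfm.comp measurable_fst).aestronglyMeasurable
      (ae_of_all _ fun z => hM' z.1)
  have hf2 : Integrable (fun z : X × X => f z.2) π :=
    Integrable.mono' (integrable_const |M|) (hfm.comp measurable_snd).aestronglyMeasurable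
      (ae_of_all _ fun z => hM' z.2)
  rw [e1, e2, ← integral_sub hf1 hf2]
  calc |∫ z, (f z.1 - f z.2) ∂π| ≤ ∫ z, |f z.1 - f z.2| ∂π := abs_integral_le_integral_abs
    _ ≤ ∫ z, (δ / 2 + 2 * |M| / η ^ 2 * dist z.1 z.2 ^ 2) ∂π :=
        integral_mono (hf1.sub hf2).abs ((integrable_const _).add (hi.const_mul _)) hpt
    _ = δ / 2 + 2 * |M| / η ^ 2 * ∫ z, dist z.1 z.2 ^ 2 ∂π := by
        rw [integral_add (integrable_const _) (hi.const_mul _), integral_const_mul]
        simp
    _ ≤ δ / 2 + 2 * |M| / η ^ 2 * (2 * e ^ 2) := by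
        gcongr
        linarith
    _ ≤ δ := by
        rw [he2]
        have h5 : 2 * |M| / η ^ 2 * (2 * (δ * η ^ 2 / (8 * (|M| + 1)))) =
            δ / 2 * (|M| / (|M| + 1)) := by
          field_simp
          ring
        have h6 : |M| / (|M| + 1) ≤ 1 := by
          rw [div_le_one (by positivity)]
          linarith
        rw [h5]
        nlinarith

theorem exp_sub_le {M a b : ℝ} (ha : a ≤ M) (hb : b ≤ M) :
    |Real.exp a - Real.exp b| ≤ Real.exp M * |a - b| := by
  have key : ∀ u v : ℝ, v ≤ u → u ≤ M → Real.exp u - Real.exp v ≤ Real.exp M * (u - v) := by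
    intro u v huv hu
    have h1 : 1 - Real.exp (v - u) ≤ u - v := by
      have := Real.add_one_le_exp (v - u)
      linarith
    have h2 : Real.exp v = Real.exp u * Real.exp (v - u) := by
      rw [← Real.exp_add]
      congr 1
      ring
    have h3 : Real.exp u ≤ Real.exp M := Real.exp_le_exp.2 hu
    calc Real.exp u - Real.exp v = Real.exp u * (1 - Real.exp (v - u)) := by rw [h2]; ring
      _ ≤ Real.exp u * (u - v) := by gcongr
      _ ≤ Real.exp M * (u - v) := by
        have : 0 ≤ u - v := by linarith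
        gcongr
  rcases le_total b a with h | h
  · have h1 := Real.exp_le_exp.2 h
    rw [abs_of_nonneg (by linarith : 0 ≤ Real.exp a - Real.exp b),
      abs_of_nonneg (by linarith : 0 ≤ a - b)]
    exact key a b h ha
  · have h1 := Real.exp_le_exp.2 h
    rw [abs_sub_comm, abs_sub_comm a b, abs_of_nonneg (by linarith : 0 ≤ Real.exp b - Real.exp a),
      abs_of_nonneg (by linarith : 0 ≤ b - a)]
    exact key b a h hb

theorem exists_cont {m ν : Measure X} [IsProbabilityMeasure ν] {γ : X → ℝ}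
    (hγm : Measurable γ) (hγ : ∀ x, 0 < γ x) (hγi : Integrable γ m) {M : ℝ} {ψ : X → ℝ}
    (hψm : Measurable ψ) (hψ : ∀ x, |ψ x| ≤ M) {ε : ℝ} (hε : 0 < ε) :
    ∃ g : X → ℝ, UniformContinuous g ∧ (∀ x, |g x| ≤ M) ∧ |∫ x, g x ∂ν - ∫ x, ψ x ∂ν| ≤ ε ∧
      |∫ x, γ x * Real.exp (g x) ∂m - ∫ x, γ x * Real.exp (ψ x) ∂m| ≤ ε := by
  set γ' : X → ℝ≥0 := fun x => (γ x).toNNReal with hγ'
  have hγ'm : Measurable γ' := hγm.real_toNNReal
  set m' : Measure X := m.withDensity fun x => (γ' x : ℝ≥0∞) with hm'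
  have hm'f : IsFiniteMeasure m' := by
    refine ⟨?_⟩
    rw [hm', withDensity_apply _ MeasurableSet.univ, Measure.restrict_univ]
    have h1 := hγi.2
    rw [hasFiniteIntegral_iff_ofReal (ae_of_all _ fun x => (hγ x).le)] at h1
    exact h1
  have hM0 : 0 ≤ M := by
    have hne : Nonempty X := by
      by_contra hcon
      rw [not_nonempty_iff] at hcon
      exact IsProbabilityMeasure.ne_zero ν (Measure.eq_zero_of_isEmpty ν)
    obtain ⟨x⟩ := hne
    exact (abs_nonneg _).trans (hψ x)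
  have hψi : Integrable ψ (ν + m') :=
    Integrable.mono' (integrable_const M) hψm.aestronglyMeasurable (ae_of_all _ hψ)
  set ε' : ℝ := ε / (Real.exp M + 1) with hε'
  have hε'0 : 0 < ε' := by positivity
  obtain ⟨g₀, hg₀c, hg₀i, hg₀, hg₀int⟩ := hψi.exists_hasCompactSupport_integral_sub_le hε'0
  set g : X → ℝ := fun x => max (-M) (min (g₀ x) M) with hg
  have hgc : Continuous g := continuous_const.max (hg₀.min continuous_const)
  have hgs : HasCompactSupport g := by
    refine hg₀c.comp_left (g := fun t => max (-M) (min t M)) ?_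
    rw [min_eq_left hM0, max_eq_right (by linarith)]
  have hgb : ∀ x, |g x| ≤ M := by
    intro x
    rw [abs_le]
    exact ⟨le_max_left _ _, max_le (by linarith) (min_le_right _ _)⟩
  have hcl : ∀ x, |ψ x - g x| ≤ |ψ x - g₀ x| := by
    intro x
    have h1 := abs_le.1 (hψ x)
    have h2 : ψ x = max (-M) (min (ψ x) M) := by
      rw [min_eq_left h1.2, max_eq_right h1.1]
    have h3 : |max (-M) (min (ψ x) M) - max (-M) (min (g₀ x) M)| ≤
        |min (ψ x) M - min (g₀ x) M| := by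
      have := abs_max_sub_max_le_max (-M) (min (ψ x) M) (-M) (min (g₀ x) M)
      rwa [sub_self, abs_zero, max_eq_right (abs_nonneg (min (ψ x) M - min (g₀ x) M))] at this
    have h4 : |min (ψ x) M - min (g₀ x) M| ≤ |ψ x - g₀ x| := by
      have := abs_min_sub_min_le_max (ψ x) M (g₀ x) M
      rwa [sub_self, abs_zero, max_eq_left (abs_nonneg (ψ x - g₀ x))] at this
    calc |ψ x - g x| = |max (-M) (min (ψ x) M) - max (-M) (min (g₀ x) M)| := by rw [← h2]
      _ ≤ _ := h3.trans h4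
  have hgi : Integrable g (ν + m') :=
    Integrable.mono' (integrable_const M) hgc.aestronglyMeasurable (ae_of_all _ hgb)
  have hsum : ∫ x, |ψ x - g x| ∂(ν + m') ≤ ε' := by
    refine le_trans ?_ hg₀i
    exact integral_mono (hψi.sub hgi).abs (hψi.sub hg₀int).norm hcl
  have hdi : Integrable (fun x => |ψ x - g x|) (ν + m') := (hψi.sub hgi).abs
  have hdi1 : Integrable (fun x => |ψ x - g x|) ν := hdi.left_of_add_measure
  have hdi2 : Integrable (fun x => |ψ x - g x|) m' := hdi.right_of_add_measure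
  rw [integral_add_measure hdi1 hdi2] at hsum
  have hn1 : 0 ≤ ∫ x, |ψ x - g x| ∂ν := integral_nonneg fun x => abs_nonneg _
  have hn2 : 0 ≤ ∫ x, |ψ x - g x| ∂m' := integral_nonneg fun x => abs_nonneg _
  have hε1 : ε' ≤ ε := by
    rw [hε', div_le_iff₀ (by positivity)]
    nlinarith [Real.exp_pos M]
  have e2 : ∫ x, |ψ x - g x| ∂m' = ∫ x, γ x * |ψ x - g x| ∂m := by
    rw [hm', integral_withDensity_eq_integral_smul hγ'm]
    refine integral_congr_ae (ae_of_all _ fun x => ?_)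
    simp only [NNReal.smul_def, smul_eq_mul]
    rw [hγ', Real.coe_toNNReal _ (hγ x).le]
  have hbd : ∀ h : X → ℝ, Measurable h → (∀ x, |h x| ≤ M) →
      Integrable (fun x => γ x * Real.exp (h x)) m := by
    intro h hh hb
    refine (hγi.mul_const (Real.exp M)).mono' (hγm.mul hh.exp).aestronglyMeasurable
      (ae_of_all _ fun x => ?_)
    have h1 := hγ x
    rw [Real.norm_eq_abs, abs_of_nonneg (by positivity)]
    gcongr
    exact (abs_le.1 (hb x)).2
  have hψe := hbd ψ hψm hψ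
  have hge := hbd g hgc.measurable hgb
  have hwi : Integrable (fun x => γ x * |ψ x - g x|) m := by
    refine (hγi.mul_const (2 * M)).mono' (hγm.mul (hψm.sub hgc.measurable).abs).aestronglyMeasurable
      (ae_of_all _ fun x => ?_)
    have h1 := hγ x
    rw [Real.norm_eq_abs, abs_of_nonneg (by positivity)]
    gcongr
    have h2 := abs_le.1 (hψ x)
    have h3 := abs_le.1 (hgb x)
    rw [abs_le]
    constructor <;> linarith
  refine ⟨g, hgs.uniformContinuous_of_continuous hgc, hgb, ?_, ?_⟩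
  · rw [← integral_sub hgi.left_of_add_measure hψi.left_of_add_measure]
    calc |∫ x, (g x - ψ x) ∂ν| ≤ ∫ x, |g x - ψ x| ∂ν := abs_integral_le_integral_abs
      _ = ∫ x, |ψ x - g x| ∂ν := by simp_rw [abs_sub_comm]
      _ ≤ ε := by linarith
  · rw [← integral_sub hge hψe]
    calc |∫ x, (γ x * Real.exp (g x) - γ x * Real.exp (ψ x)) ∂m|
        ≤ ∫ x, |γ x * Real.exp (g x) - γ x * Real.exp (ψ x)| ∂m := abs_integral_le_integral_abs
      _ ≤ ∫ x, Real.exp M * (γ x * |ψ x - g x|) ∂m := by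
          refine integral_mono (hge.sub hψe).abs (hwi.const_mul _) fun x => ?_
          have h1 := hγ x
          have h2 := exp_sub_le (abs_le.1 (hgb x)).2 (abs_le.1 (hψ x)).2
          calc |γ x * Real.exp (g x) - γ x * Real.exp (ψ x)|
              = γ x * |Real.exp (g x) - Real.exp (ψ x)| := by
                rw [← mul_sub, abs_mul, abs_of_pos h1]
            _ ≤ γ x * (Real.exp M * |g x - ψ x|) := by gcongr
            _ = Real.exp M * (γ x * |ψ x - g x|) := by rw [abs_sub_comm]; ring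
      _ = Real.exp M * ∫ x, |ψ x - g x| ∂m' := by rw [integral_const_mul, e2]
      _ ≤ Real.exp M * ε' := by
          gcongr
          linarith
      _ ≤ ε := by
          rw [hε', mul_div_assoc', div_le_iff₀ (by positivity)]
          nlinarith [Real.exp_pos M]

theorem UN_nonneg (N : ℕ) (m μ : Measure X) : 0 ≤ UN N m μ := by
  unfold UN
  split_ifs
  · exact (Real.exp_pos _).le
  · exact le_rfl

/-- **Lower semicontinuity of the entropy**: if `UN ν < b` then `UN μ < b` for all `μ` close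
to `ν` in the Wasserstein distance. -/
theorem UN_usc {N : ℕ} (hN : 0 < N) {m : Measure X}
    (hfin : ∀ (x : X) (r : ℝ), m (closedBall x r) < ∞)
    (hexp : ∃ (x : X) (c : ℝ), 0 < c ∧ ∫⁻ y, ENNReal.ofReal (Real.exp (-c * dist x y ^ 2)) ∂m < ∞)
    {ν : Measure X} (hν : IsP2 ν) {b : ℝ} (hb : UN N m ν < b) :
    ∃ e : ℝ, 0 < e ∧ ∀ μ : Measure X, IsP2 μ → W2 μ ν ≤ e → UN N m μ < b := by
  obtain ⟨x₀, c, hc, hZ⟩ := hexp
  have := sigmaFinite_of_fin hfin
  have hνp := hν.1
  have hN' : (0 : ℝ) < N := Nat.cast_pos.2 hN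
  have hb0 : 0 < b := (UN_nonneg N m ν).trans_lt hb
  set γ : X → ℝ := fun y => Real.exp (-c * dist x₀ y ^ 2) with hγdef
  have hγm : Measurable γ := by fun_prop
  have hγ : ∀ x, 0 < γ x := fun x => Real.exp_pos _
  have hγi : Integrable γ m := by
    refine ⟨by fun_prop, ?_⟩
    rw [hasFiniteIntegral_iff_ofReal (ae_of_all _ fun y => (hγ y).le)]
    exact hZ
  have hlog : ∀ x, Real.log (γ x) = -c * dist x₀ x ^ 2 := fun x => Real.log_exp _
  have hlogi : ∀ α : Measure X, IsP2 α → Integrable (fun x => Real.log (γ x)) α := by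
    intro α hα
    simp_rw [hlog]
    exact (hα.integrable_sq x₀).const_mul _
  have hlogv : ∀ α : Measure X, ∫ x, Real.log (γ x) ∂α = -c * ∫ y, dist x₀ y ^ 2 ∂α := by
    intro α
    simp_rw [hlog]
    rw [integral_const_mul]
  set a : ℝ := -(N * Real.log b) with ha
  have hab : ∀ E : ℝ, a < E → Real.exp (-E / N) < b := by
    intro E hE
    rw [← Real.lt_log_iff_exp_lt hb0, div_lt_iff₀ hN']
    linarith
  have hent : ν ≪ m ∧ Integrable (llr ν m) ν → a < ∫ x, llr ν m x ∂ν := by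
    intro h
    rw [UN, if_pos h, ← Real.lt_log_iff_exp_lt hb0, div_lt_iff₀ hN'] at hb
    linarith
  obtain ⟨M, ψ, hψm, hψb, hψv⟩ := exists_bdd hγm hγ hγi (hlogi ν hν) hent
  set V : ℝ := ∫ x, Real.log (γ x) ∂ν + ∫ x, ψ x ∂ν + 1 - ∫ x, γ x * Real.exp (ψ x) ∂m with hV
  set s : ℝ := V - a with hs
  have hs0 : 0 < s := by linarith
  obtain ⟨g, hgu, hgb, hg1, hg2⟩ := exists_cont (ν := ν) hγm hγ hγi hψm hψb
    (ε := s / 8) (by positivity)
  obtain ⟨e₁, he₁, hnear⟩ := integral_near hgu hgb hν (δ := s / 8) (by positivity)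
  set D : ℝ := ∫ y, dist x₀ y ^ 2 ∂ν with hD
  have hD0 : 0 ≤ D := integral_nonneg fun y => by positivity
  obtain ⟨e₂, he₂, hsec⟩ : ∃ e₂ : ℝ, 0 < e₂ ∧ ∀ t : ℝ, 0 ≤ t → t ≤ e₂ →
      c * (√D + t) ^ 2 ≤ c * D + s / 8 := by
    have h1 : Continuous fun t : ℝ => c * (√D + t) ^ 2 := by fun_prop
    have h2 : c * (√D + 0) ^ 2 < c * D + s / 8 := by
      rw [add_zero, Real.sq_sqrt hD0]
      linarith
    obtain ⟨δ, hδ, hδ1⟩ := Metric.eventually_nhds_iff.1 ((h1.tendsto 0).eventually (gt_mem_nhds h2))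
    refine ⟨δ / 2, by positivity, fun t ht ht1 => (hδ1 ?_).le⟩
    rw [Real.dist_eq, sub_zero, abs_of_nonneg ht]
    linarith
  refine ⟨min e₁ e₂, lt_min he₁ he₂, fun μ hμ hW => ?_⟩
  have hμp := hμ.1
  by_cases hfi : μ ≪ m ∧ Integrable (llr μ m) μ
  swap
  · rw [UN, if_neg hfi]
    exact hb0
  rw [UN, if_pos hfi]
  refine hab _ ?_
  have hge : Integrable (fun x => γ x * Real.exp (g x)) m := by
    refine (hγi.mul_const (Real.exp M)).mono'
      (hγm.mul hgu.continuous.measurable.exp).aestronglyMeasurable (ae_of_all _ fun x => ?_)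
    have h1 := hγ x
    rw [Real.norm_eq_abs, abs_of_nonneg (by positivity)]
    gcongr
    exact (abs_le.1 (hgb x)).2
  have hgi : Integrable g μ :=
    Integrable.mono' (integrable_const M) hgu.continuous.aestronglyMeasurable (ae_of_all _ hgb)
  have hlφ : ∀ x, Real.log (γ x * Real.exp (g x)) = Real.log (γ x) + g x := by
    intro x
    rw [Real.log_mul (hγ x).ne' (Real.exp_pos _).ne', Real.log_exp (g x)]
  have hG := gibbs hfi.1 hfi.2 (φ := fun x => γ x * Real.exp (g x))
    (hγm.mul hgu.continuous.measurable.exp) (fun x => mul_pos (hγ x) (Real.exp_pos _)) hge (by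
      simp_rw [hlφ]
      exact (hlogi μ hμ).add hgi)
  simp_rw [hlφ] at hG
  rw [integral_add (hlogi μ hμ) hgi, hlogv] at hG
  have h1 := hnear μ hμ (hW.trans (min_le_left _ _))
  have h2 := integral_sq_le hμ hν x₀
  have h3 := hsec _ (W2_nonneg μ ν) (hW.trans (min_le_right _ _))
  have h4 : c * ∫ y, dist x₀ y ^ 2 ∂μ ≤ c * (√D + W2 μ ν) ^ 2 := mul_le_mul_of_nonneg_left h2 hc.le
  rw [hlogv] at hV
  have h5 := abs_le.1 h1
  have h6 := abs_le.1 hg1
  have h7 := abs_le.1 hg2
  linarith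

/-- `UN` is upper semicontinuous along an EVI flow, at positive times -/
theorem IsEVIFlow.UN_usc {K : ℝ} {N : ℕ} {m : Measure X} {μ : ℝ → Measure X} (hN : 0 < N)
    (hfin : ∀ (x : X) (r : ℝ), m (closedBall x r) < ∞)
    (hexp : ∃ (x : X) (c : ℝ), 0 < c ∧ ∫⁻ y, ENNReal.ofReal (Real.exp (-c * dist x y ^ 2)) ∂m < ∞)
    (h : IsEVIFlow K N m μ) {t : ℝ} (ht : 0 < t) {c : ℝ} (hc : UN N m (μ t) < c) :
    ∀ᶠ v in 𝓝 t, UN N m (μ v) < c := by
  obtain ⟨e, he, hclose⟩ := Pool.Agent.BDRY.UN_usc hN hfin hexp (h.p2 t ht.le) hc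
  have h1 : Tendsto (fun s => W2 (μ s) (μ t)) (𝓝 t) (𝓝 0) := by
    have h2 := h.cont t ht.le
    rwa [nhdsWithin_eq_nhds.2 (Ici_mem_nhds ht)] at h2
  filter_upwards [h1.eventually (gt_mem_nhds he), lt_mem_nhds ht] with v hv hv0
  exact hclose _ (h.p2 v hv0.le) hv.le

/-- the limit form: if `UN (μ k) ≥ c` frequently and `μ k → ν` then `UN ν ≥ c` -/
theorem le_UN_of_tendsto {ι : Type*} {l : Filter ι} {N : ℕ} {m : Measure X} {μ : ι → Measure X}
    (hN : 0 < N) (hfin : ∀ (x : X) (r : ℝ), m (closedBall x r) < ∞)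
    (hexp : ∃ (x : X) (c : ℝ), 0 < c ∧ ∫⁻ y, ENNReal.ofReal (Real.exp (-c * dist x y ^ 2)) ∂m < ∞)
    {ν : Measure X} (hν : IsP2 ν) (hμ : ∀ᶠ k in l, IsP2 (μ k))
    (hlim : Tendsto (fun k => W2 (μ k) ν) l (𝓝 0)) {c : ℝ}
    (hc : ∃ᶠ k in l, c ≤ UN N m (μ k)) : c ≤ UN N m ν := by
  by_contra hcon
  push Not at hcon
  obtain ⟨e, he, hclose⟩ := UN_usc hN hfin hexp hν hcon
  obtain ⟨k, hk, hk1, hk2⟩ := (hc.and_eventually (hμ.and (hlim.eventually (gt_mem_nhds he)))).exists
  exact absurd (hclose _ hk1 hk2.le) (not_lt.2 hk)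

end main

end Pool.Agent.BDRY
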